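import Pool.Agent.Work.Monodromy.Interface

/-!
# Block EBD: the eigenvalue of an indecomposable essential arrangement; also NV from NV2, NV3, NV4
-/

namespace Pool.Agent.Mono

open MvPolynomial

theorem stmt_NV (h2 : Stmt_NV2) (h3 : Stmt_NV3) (h4 : Stmt_NV4) : Stmt_NV := by
  intro ι κ _ _ _ _ l lam hne hl hspan hcon hsum hvan
  obtain ⟨c, hc, hp⟩ := h2 ι κ l lam hne hl hsum hvan
  exact hc (h3 ι κ l lam hl hspan hsum (h4 ι κ l hl hspan hcon) c hp)

namespace EBDAux

section Ideal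

variable {ι : Type}

/-- evaluation at `k` as a ring homomorphism -/
noncomputable def evk (ι : Type) (k : ℕ) : Polynomial (Weyl ι) →+* Weyl ι :=
  Polynomial.eval₂RingHom' (RingHom.id (Weyl ι)) (k : Weyl ι) fun _ => Nat.commute_cast _ _

theorem evk_apply (k : ℕ) (P : Polynomial (Weyl ι)) : evk ι k P = P.eval (k : Weyl ι) := rfl

theorem wact_add (P Q : Polynomial (Weyl ι)) (k : ℕ) : wact (P + Q) k = wact P k + wact Q k := by
  simp [wact]

theorem wact_zero (k : ℕ) : wact (0 : Polynomial (Weyl ι)) k = 0 := by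
  simp [wact]

theorem evk_map (k : ℕ) (q : Polynomial ℂ) :
    evk ι k (q.map (algebraMap ℂ (Weyl ι))) = algebraMap ℂ (Weyl ι) (q.eval (k : ℂ)) := by
  rw [evk_apply, Polynomial.eval_map, Polynomial.eval₂_at_natCast]

theorem wact_cmul (q : Polynomial ℂ) (P : Polynomial (Weyl ι)) (k : ℕ)
    (g : MvPolynomial ι ℂ) :
    wact (q.map (algebraMap ℂ (Weyl ι)) * P) k g = C (q.eval (k : ℂ)) * wact P k g := by
  unfold wact
  rw [← evk_apply, ← evk_apply, map_mul, evk_map]
  simp [MvPolynomial.C_mul', Algebra.algebraMap_eq_smul_one]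

/-- the Bernstein ideal -/
noncomputable def bIdeal (f : MvPolynomial ι ℂ) : Ideal (Polynomial ℂ) where
  carrier := {b | IsEvBernstein f b}
  add_mem' := by
    rintro b b' ⟨P, hP⟩ ⟨P', hP'⟩
    refine ⟨P + P', ?_⟩
    filter_upwards [hP, hP'] with k h h'
    rw [wact_add, LinearMap.add_apply, h, h', Polynomial.eval_add, C_add, add_mul]
  zero_mem' := ⟨0, by filter_upwards with k; simp [wact_zero]⟩
  smul_mem' := by
    rintro q b ⟨P, hP⟩
    refine ⟨q.map (algebraMap ℂ (Weyl ι)) * P, ?_⟩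
    filter_upwards [hP] with k h
    rw [wact_cmul, h, smul_eq_mul, Polynomial.eval_mul, C_mul, mul_assoc]

theorem exists_gen (f : MvPolynomial ι ℂ) (s₀ : ℂ)
    (h : ∀ n : ℕ, ∃ b : Polynomial ℂ, IsEvBernstein f b ∧ b.eval (s₀ - n) ≠ 0) :
    ∃ b : Polynomial ℂ, IsEvBernstein f b ∧ ∀ n : ℕ, b.eval (s₀ - n) ≠ 0 := by
  obtain ⟨b₀, hb₀⟩ := (IsPrincipalIdealRing.principal (bIdeal f)).principal
  refine ⟨b₀, ?_, fun n h0 => ?_⟩
  · have : b₀ ∈ bIdeal f := by rw [hb₀]; exact Submodule.mem_span_singleton_self b₀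
    exact this
  · obtain ⟨b, hb, hbn⟩ := h n
    have hb' : b ∈ bIdeal f := hb
    rw [hb₀] at hb'
    obtain ⟨q, rfl⟩ := Submodule.mem_span_singleton.1 hb'
    exact hbn (by rw [smul_eq_mul, Polynomial.eval_mul, h0, mul_zero])

end Ideal

section Full

variable {ι κ : Type} [Fintype ι] [Fintype κ] [DecidableEq ι] [DecidableEq κ]

theorem linF_single (i : ι) : linF ℂ (Pi.single i 1 : ι → ℂ) = X i := by
  unfold linF
  rw [Finset.sum_eq_single i]
  · simp
  · intro j _ hj
    simp [Pi.single_eq_of_ne hj]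
  · simp

theorem linF_vec (D : Data ι κ) (z : κ ⊕ ι) : linF ℂ (D.vec z) = fam D z := by
  rcases z with j | i
  · rfl
  · exact linF_single i

theorem linF_ne (v : ι → ℂ) (hv : v ≠ 0) : linF ℂ v ≠ 0 := by
  intro h
  apply hv
  funext i
  have h1 := congrArg (fun p => eval (Pi.single i 1 : ι → ℂ) p) h
  simp only [linF, map_sum, map_mul, eval_C, eval_X, map_zero] at h1
  rw [Finset.sum_eq_single i] at h1
  · simpa using h1
  · intro j _ hj
    simp [Pi.single_eq_of_ne hj]
  · simp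

theorem form_ne (D : Data ι κ) (hC : D.Central) (ha : ∀ i, 1 ≤ D.a i) (j : κ) (hj : D.c j ≠ 0) :
    D.form j ≠ 0 := by
  intro h
  apply hj
  funext i
  have h1 := congrArg (fun p => eval (Pi.single i 1 : ι → ℂ) p) h
  simp only [Data.form, hC j, map_add, map_sum, map_mul, map_pow, eval_C, eval_X, map_zero,
    zero_add] at h1
  rw [Finset.sum_eq_single i] at h1
  · simpa using h1
  · intro k _ hk
    have : D.a k ≠ 0 := by have := ha k; omega
    simp [Pi.single_eq_of_ne hk, this]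
  · simp

theorem poly_ne (D : Data ι κ) (hC : D.Central) (ha : ∀ i, 1 ≤ D.a i) (hc : ∀ j, D.c j ≠ 0) :
    D.poly ≠ 0 := by
  unfold Data.poly
  refine mul_ne_zero ?_ ?_
  · exact Finset.prod_ne_zero_iff.2 fun i _ => pow_ne_zero _ (X_ne_zero i)
  · exact Finset.prod_ne_zero_iff.2 fun j _ => pow_ne_zero _ (form_ne D hC ha j (hc j))

theorem wts_zero (D : Data ι κ) (s₀ : ℂ) (hRel : ∀ i, D.Rel i) (hm : ∀ j, 1 ≤ D.m j)
    (ha : ∀ i, 1 ≤ D.a i) (z : κ ⊕ ι) (hz : z ∉ D.act) : wts D s₀ z = 0 := by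
  rcases z with j | i
  · exact absurd (hm j) hz
  · have h1 : ¬(1 < D.a i ∨ 0 < D.b i) := fun h => hz ⟨hRel i, h⟩
    have h2 : D.a i = 1 := by have := ha i; omega
    have h3 : D.b i = 0 := by omega
    simp [wts, h2, h3]

theorem full (h2 : Stmt_EB2) (h3 : Stmt_EB3) (h4 : Stmt_EB4) (hNV : Stmt_NV)
    (D : Data ι κ) (hC : D.Central) (hV : D.Valid) (hE : D.Ess) (hT : ∀ T, ¬D.DecBy T)
    (hne : Nonempty ι) (hRel : ∀ i, D.Rel i) (hm : ∀ j, 1 ≤ D.m j) (s₀ : ℂ)
    (hs : s₀ * (∑ j, (D.m j : ℂ) + ∑ i, (D.b i : ℂ) / D.a i) = -∑ i, 1 / (D.a i : ℂ)) :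
    ∃ n : ℕ, ∀ b : Polynomial ℂ, IsEvBernstein D.poly b → b.eval (s₀ - n) = 0 := by
  classical
  by_contra hcon
  push Not at hcon
  obtain ⟨b, hb, hbn⟩ := exists_gen D.poly s₀ hcon
  have ha := hV.1
  have hc : ∀ j, D.c j ≠ 0 := by
    intro j h0
    rcases hV.2 j (hm j) with h | ⟨i, hi⟩
    · exact h (hC j)
    · exact hi (congrFun h0 i)
  have hpos : 0 < ∑ j, D.m j + ∑ i, D.b i := by
    obtain ⟨i⟩ := hne
    rcases hRel i with h | ⟨j, hj, _⟩
    · have := Finset.single_le_sum (f := D.b) (fun _ _ => Nat.zero_le _) (Finset.mem_univ i)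
      omega
    · have := Finset.single_le_sum (f := D.m) (fun _ _ => Nat.zero_le _) (Finset.mem_univ j)
      omega
  have e2 := h2 ι κ D s₀ b hC ha (poly_ne D hC ha hc) hpos hs hb hbn
  have e3 := h3 ι κ D s₀ hC ha hm hc e2
  have e4 := h4 ι κ D s₀ ha hc e3
  simp only at e4
  set Q := (∏ j, linF ℂ (D.c j)) *
        ∏ i ∈ Finset.univ.filter (fun i => 1 < D.a i ∨ 0 < D.b i), (X i : MvPolynomial ι ℂ) with hQ
  -- the family of active vectors
  let l : {z : κ ⊕ ι // z ∈ D.act} → ι → ℂ := fun z => D.vec z.1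
  let lam : {z : κ ⊕ ι // z ∈ D.act} → ℂ := fun z => wts D s₀ z.1
  have hact : ∀ j : κ, (Sum.inl j : κ ⊕ ι) ∈ D.act := fun j => hm j
  have hactr : ∀ i : ι, (Sum.inr i : κ ⊕ ι) ∈ D.act ↔ (1 < D.a i ∨ 0 < D.b i) := fun i =>
    ⟨fun h => h.2, fun h => ⟨hRel i, h⟩⟩
  have hprod : ∏ k, linF ℂ (l k) = Q := by
    have e : ∏ k, linF ℂ (l k) = ∏ z : κ ⊕ ι, if z ∈ D.act then fam D z else 1 := by
      rw [← Fintype.prod_subtype_mul_prod_subtype (fun z => z ∈ D.act)
        (fun z : κ ⊕ ι => if z ∈ D.act then fam D z else 1)]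
      have e1 : ∏ z : {z // ¬z ∈ D.act}, (if (z : κ ⊕ ι) ∈ D.act then fam D z else 1) = 1 :=
        Finset.prod_eq_one fun z _ => if_neg z.2
      rw [e1, mul_one]
      refine Finset.prod_congr rfl fun k _ => ?_
      rw [if_pos k.2]
      exact linF_vec D k.1
    rw [e, Fintype.prod_sum_type, hQ, Finset.prod_filter]
    congr 1
    · refine Finset.prod_congr rfl fun j _ => ?_
      rw [if_pos (hact j)]
      rfl
    · refine Finset.prod_congr rfl fun i _ => ?_
      simp only [hactr]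
      rfl
  have hsumF : ∀ (M : Type) [AddCommMonoid M] (g : κ ⊕ ι → M), (∀ z, z ∉ D.act → g z = 0) →
      ∑ k : {z : κ ⊕ ι // z ∈ D.act}, g k.1 = ∑ z, g z := by
    intro M _ g hg
    rw [← Fintype.sum_subtype_add_sum_subtype (fun z => z ∈ D.act) g]
    have e1 : ∑ z : {z // ¬z ∈ D.act}, g z = 0 :=
      Finset.sum_eq_zero fun z _ => hg z.1 z.2
    rw [e1, add_zero]
  have hth : ∀ i, theta ℂ (fam D) (wts D s₀) i = theta ℂ (fun k => linF ℂ (l k)) lam i := by
    intro i
    unfold theta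
    congr 2
    rw [← hsumF (FF ℂ ι) (fun z => toF ℂ (C (wts D s₀ z)) *
      (toF ℂ (pderiv i (fam D z)) / toF ℂ (fam D z)))]
    · refine Finset.sum_congr rfl fun k _ => ?_
      have : linF ℂ (l k) = fam D k.1 := linF_vec D k.1
      simp only [this]
      rfl
    · intro z hz
      rw [wts_zero D s₀ hRel hm ha z hz]
      simp [toF]
  have hvan : VanTop l lam := by
    intro x hx
    rw [hprod] at hx ⊢
    obtain ⟨h, hh, hx'⟩ := e4 x hx
    refine ⟨h, hh, ?_⟩
    rw [hx']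
    exact Finset.sum_congr rfl fun i _ => by rw [hth i]
  refine hNV ι {z : κ ⊕ ι // z ∈ D.act} l lam hne ?_ ?_ ?_ ?_ hvan
  · rintro ⟨z, hz⟩
    rcases z with j | i
    · exact hc j
    · intro h0
      have := congrFun h0 i
      simp [l, Data.vec] at this
  · rw [eq_top_iff]
    intro x _
    have hr : Set.range l = D.vec '' D.act := by
      ext y
      simp [l]
    rw [hr]
    have hx : x = ∑ i, x i • (Pi.single i 1 : ι → ℂ) := by
      funext k
      simp [Finset.sum_apply, Pi.single_apply]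
    rw [hx]
    exact Submodule.sum_mem _ fun i _ => Submodule.smul_mem _ _ (hE i (hRel i))
  · intro T hTn hTc hdis
    refine hT (Subtype.val '' T) ⟨?_, hTn.image _, ?_, ?_⟩
    · rintro _ ⟨z, _, rfl⟩
      exact z.2
    · obtain ⟨z, hz⟩ := hTc
      exact ⟨z.1, z.2, fun ⟨z', hz', h⟩ => hz (Subtype.val_injective h ▸ hz')⟩
    · have e1 : D.vec '' (Subtype.val '' T) = l '' T := by
        rw [Set.image_image]
      have e2 : D.vec '' (D.act \ Subtype.val '' T) = l '' Tᶜ := by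
        ext y
        constructor
        · rintro ⟨z, ⟨hz, hz'⟩, rfl⟩
          exact ⟨⟨z, hz⟩, fun h => hz' ⟨_, h, rfl⟩, rfl⟩
        · rintro ⟨z, hz, rfl⟩
          exact ⟨z.1, ⟨z.2, fun ⟨z', hz', h⟩ => hz (Subtype.val_injective h ▸ hz')⟩, rfl⟩
      rw [e1, e2]
      exact hdis
  · rw [hsumF ℂ (wts D s₀) (wts_zero D s₀ hRel hm ha), Fintype.sum_sum_type]
    simp only [wts, Sum.elim_inl, Sum.elim_inr]
    rw [Finset.sum_sub_distrib, ← Finset.mul_sum]
    have e1 : ∑ i, (1 + s₀ * (D.b i : ℂ)) / (D.a i : ℂ) =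
        ∑ i, 1 / (D.a i : ℂ) + s₀ * ∑ i, (D.b i : ℂ) / D.a i := by
      rw [Finset.mul_sum, ← Finset.sum_add_distrib]
      exact Finset.sum_congr rfl fun i _ => by ring
    rw [e1]
    simp only [Finset.sum_const, Finset.card_univ, nsmul_eq_mul, mul_one]
    linear_combination hs

end Full

section Red

variable {ι κ : Type} [Fintype ι] [Fintype κ] [DecidableEq ι] [DecidableEq κ]

/-- relevant variables and active forms -/
def red (D : Data ι κ) : Data {i // D.Rel i} {j // 0 < D.m j} where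
  a := fun i => D.a i
  b := fun i => D.b i
  c0 := fun j => D.c0 j
  c := fun j i => D.c j i
  m := fun j => D.m j

theorem c_zero (D : Data ι κ) (j : κ) (hj : 0 < D.m j) (i : ι) (hi : ¬D.Rel i) : D.c j i = 0 := by
  by_contra h
  exact hi (Or.inr ⟨j, hj, h⟩)

theorem b_zero (D : Data ι κ) (i : ι) (hi : ¬D.Rel i) : D.b i = 0 := by
  by_contra h
  exact hi (Or.inl (Nat.pos_of_ne_zero h))

theorem sum_rel {M : Type} [AddCommMonoid M] (p : ι → Prop) [DecidablePred p] (g : ι → M)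
    (hg : ∀ i, ¬p i → g i = 0) : ∑ i : {i // p i}, g i.1 = ∑ i, g i := by
  rw [← Fintype.sum_subtype_add_sum_subtype p g]
  have e1 : ∑ z : {z // ¬p z}, g z = 0 := Finset.sum_eq_zero fun z _ => hg z.1 z.2
  rw [e1, add_zero]

theorem prod_rel {M : Type} [CommMonoid M] (p : ι → Prop) [DecidablePred p] (g : ι → M)
    (hg : ∀ i, ¬p i → g i = 1) : ∏ i : {i // p i}, g i.1 = ∏ i, g i := by
  rw [← Fintype.prod_subtype_mul_prod_subtype p g]
  have e1 : ∏ z : {z // ¬p z}, g z = 1 := Finset.prod_eq_one fun z _ => hg z.1 z.2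
  rw [e1, mul_one]

open Classical in
theorem form_red (D : Data ι κ) (j : {j // 0 < D.m j}) :
    rename Subtype.val ((red D).form j) = D.form j.1 := by
  simp only [Data.form, red, map_add, map_sum, map_mul, map_pow, rename_C, rename_X]
  congr 1
  exact sum_rel D.Rel (fun i => C (D.c j.1 i) * X i ^ D.a i) fun i hi => by
    rw [c_zero D j.1 j.2 i hi, C_0, zero_mul]

open Classical in
theorem poly_red (D : Data ι κ) : rename Subtype.val (red D).poly = D.poly := by
  simp only [Data.poly, map_mul, map_prod, map_pow, rename_X, form_red]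
  congr 1
  · exact prod_rel D.Rel (fun i => (X i : MvPolynomial ι ℂ) ^ D.b i) fun i hi => by
      rw [b_zero D i hi, pow_zero]
  · exact prod_rel (fun j => 0 < D.m j) (fun j => D.form j ^ D.m j) fun j hj => by
      rw [Nat.eq_zero_of_not_pos hj, pow_zero]

theorem form_homog (D : Data ι κ) (hC : D.Central) (w : ι → ℕ) (d : ℕ)
    (hw : ∀ i, w i * D.a i = d) (j : κ) : IsWeightedHomogeneous w (D.form j) d := by
  unfold Data.form
  rw [hC j, C_0, zero_add]
  refine Submodule.sum_mem (weightedHomogeneousSubmodule ℂ w d) fun i _ => ?_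
  rw [mem_weightedHomogeneousSubmodule]
  have h1 : IsWeightedHomogeneous w ((X i : MvPolynomial ι ℂ) ^ D.a i) (D.a i • w i) :=
    (isWeightedHomogeneous_X ℂ w i).pow _
  have h2 := (isWeightedHomogeneous_C w (D.c j i)).mul h1
  rw [zero_add, smul_eq_mul, mul_comm (D.a i), hw i] at h2
  exact h2

theorem poly_homog (D : Data ι κ) (hC : D.Central) (w : ι → ℕ) (d : ℕ)
    (hw : ∀ i, w i * D.a i = d) :
    ∃ d', IsWeightedHomogeneous w D.poly d' := by
  refine ⟨∑ i, D.b i • w i + ∑ j, D.m j • d, ?_⟩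
  unfold Data.poly
  refine IsWeightedHomogeneous.mul ?_ ?_
  · exact IsWeightedHomogeneous.prod _ _ _ fun i _ => (isWeightedHomogeneous_X ℂ w i).pow _
  · exact IsWeightedHomogeneous.prod _ _ _ fun j _ => (form_homog D hC w d hw j).pow _

theorem ev_loc {ι : Type} (f : MvPolynomial ι ℂ) (p : ι → ℂ) (b : Polynomial ℂ)
    (h : IsEvBernstein f b) : IsLocBernstein f p b := by
  obtain ⟨P, hP⟩ := h
  exact ⟨P, 1, by simp, by simpa using hP⟩

open Classical in
theorem bern_red (hPush : Stmt_Push) (hHom : Stmt_Homog) (D : Data ι κ) (hC : D.Central)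
    (ha : ∀ i, 1 ≤ D.a i) (b : Polynomial ℂ) (hb : IsEvBernstein D.poly b) :
    IsEvBernstein (red D).poly b := by
  have h1 := ev_loc D.poly (fun _ => 0) b hb
  rw [← poly_red D] at h1
  have h2 := hPush ι {i // D.Rel i} (rename Subtype.val) (red D).poly (fun _ => 0) (fun _ => 0) b
    (by
      intro v hv
      let ρ : MvPolynomial ι ℂ →ₐ[ℂ] MvPolynomial {i // D.Rel i} ℂ :=
        aeval fun i => if h : D.Rel i then X ⟨i, h⟩ else 0
      refine ⟨ρ.toLinearMap, ?_, ?_⟩
      · intro g h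
        simp only [AlgHom.toLinearMap_apply, map_mul]
        congr 1
        simp only [ρ, aeval_rename]
        have : ((fun i => if h : D.Rel i then (X ⟨i, h⟩ : MvPolynomial {i // D.Rel i} ℂ) else 0) ∘
            Subtype.val) = X := by
          funext i
          simp only [Function.comp, dif_pos i.2]
        rw [this, aeval_X_left]
        rfl
      · simp only [AlgHom.toLinearMap_apply]
        have : eval (fun _ => 0) (ρ v) = eval (fun _ => (0 : ℂ)) v := by
          have h := MvPolynomial.comp_aeval_apply (R := ℂ) (σ := ι)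
            (f := fun i => if h : D.Rel i then (X ⟨i, h⟩ : MvPolynomial {i // D.Rel i} ℂ) else 0)
            (aeval (fun _ : {i // D.Rel i} => (0 : ℂ))) v
          have key : ∀ {τ : Type} (p : τ → ℂ) (q : MvPolynomial τ ℂ), eval p q = aeval p q :=
            fun p q => by rw [← coe_aeval_eq_eval]; rfl
          rw [key, key]
          refine h.trans ?_
          have e : (fun i => (aeval fun _ : {i // D.Rel i} => (0 : ℂ))
              (if h : D.Rel i then (X ⟨i, h⟩ : MvPolynomial {i // D.Rel i} ℂ) else 0)) =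
              fun _ => (0 : ℂ) := by
            funext i
            by_cases hi : D.Rel i <;> simp [hi]
          rw [e]
        rw [this]
        exact hv) h1
  have hw : ∃ w : {i // D.Rel i} → ℕ, ∃ d, (∀ i, 1 ≤ w i) ∧ ∀ i, w i * (red D).a i = d := by
    refine ⟨fun i => ∏ k ∈ Finset.univ.erase i, D.a k.1, ∏ k : {i // D.Rel i}, D.a k.1, ?_, ?_⟩
    · intro i
      exact Nat.one_le_iff_ne_zero.2 (Finset.prod_ne_zero_iff.2 fun k _ => by
        have := ha k.1; omega)
    · intro i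
      exact Finset.prod_erase_mul _ _ (Finset.mem_univ i)
  obtain ⟨w, d, hw1, hw2⟩ := hw
  obtain ⟨d', hd'⟩ := poly_homog (red D) (fun j => hC j.1) w d hw2
  exact hHom _ w d' _ b hw1 hd' h2

/-- restriction of functions to the relevant coordinates -/
noncomputable def res (D : Data ι κ) : (ι → ℂ) →ₗ[ℂ] ({i // D.Rel i} → ℂ) :=
  LinearMap.funLeft ℂ ℂ Subtype.val

/-- inclusion of index sets -/
def inc (D : Data ι κ) : {j // 0 < D.m j} ⊕ {i // D.Rel i} → κ ⊕ ι :=
  Sum.map Subtype.val Subtype.val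

theorem inc_inj (D : Data ι κ) : Function.Injective (inc D) :=
  Sum.map_injective.2 ⟨Subtype.val_injective, Subtype.val_injective⟩

theorem red_rel (D : Data ι κ) (i : {i // D.Rel i}) : (red D).Rel i := by
  rcases i.2 with h | ⟨j, hj, h⟩
  · exact Or.inl h
  · exact Or.inr ⟨⟨j, hj⟩, hj, h⟩

theorem act_inc (D : Data ι κ) (z : {j // 0 < D.m j} ⊕ {i // D.Rel i}) :
    z ∈ (red D).act ↔ inc D z ∈ D.act := by
  rcases z with j | i
  · exact Iff.rfl
  · constructor
    · rintro ⟨_, h⟩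
      exact ⟨i.2, h⟩
    · rintro ⟨_, h⟩
      exact ⟨red_rel D i, h⟩

theorem act_range (D : Data ι κ) (z : κ ⊕ ι) (hz : z ∈ D.act) : ∃ z', inc D z' = z := by
  rcases z with j | i
  · exact ⟨Sum.inl ⟨j, hz⟩, rfl⟩
  · exact ⟨Sum.inr ⟨i, hz.1⟩, rfl⟩

theorem vec_inc (D : Data ι κ) (z : {j // 0 < D.m j} ⊕ {i // D.Rel i}) :
    (red D).vec z = res D (D.vec (inc D z)) := by
  classical
  rcases z with j | i
  · rfl
  · funext k
    simp only [Data.vec, inc, Sum.map_inr, Sum.elim_inr, res, LinearMap.funLeft_apply]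
    by_cases h : k = i
    · subst h; simp
    · have h' : k.1 ≠ i.1 := fun h' => h (Subtype.ext h')
      simp [Pi.single_eq_of_ne h, Pi.single_eq_of_ne h']

theorem vec_supp (D : Data ι κ) (z : κ ⊕ ι) (hz : z ∈ D.act) (i : ι) (hi : ¬D.Rel i) :
    D.vec z i = 0 := by
  rcases z with j | k
  · exact c_zero D j hz i hi
  · have : i ≠ k := by
      rintro rfl
      exact hi hz.1
    simp [Data.vec, Pi.single_eq_of_ne this]

theorem span_supp (D : Data ι κ) (s : Set (κ ⊕ ι)) (hs : s ⊆ D.act) (x : ι → ℂ)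
    (hx : x ∈ Submodule.span ℂ (D.vec '' s)) (i : ι) (hi : ¬D.Rel i) : x i = 0 := by
  induction hx using Submodule.span_induction with
  | mem y hy =>
    obtain ⟨z, hz, rfl⟩ := hy
    exact vec_supp D z (hs hz) i hi
  | zero => rfl
  | add y z _ _ h1 h2 => simp [h1, h2]
  | smul a y _ h => simp [h]

theorem red_ess (D : Data ι κ) (hE : D.Ess) : (red D).Ess := by
  classical
  intro i _
  have h1 := Submodule.mem_map_of_mem (f := res D) (hE i.1 i.2)
  have h2 : res D (Pi.single i.1 1) = Pi.single i 1 := by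
    have := (vec_inc D (Sum.inr i)).symm
    simpa [Data.vec, inc] using this
  rw [h2, Submodule.map_span] at h1
  refine Submodule.span_mono ?_ h1
  rintro _ ⟨_, ⟨z, hz, rfl⟩, rfl⟩
  obtain ⟨z', rfl⟩ := act_range D z hz
  exact ⟨z', (act_inc D z').2 hz, vec_inc D z'⟩

theorem red_dec (D : Data ι κ) (hT : ∀ T, ¬D.DecBy T) (T : Set ({j // 0 < D.m j} ⊕ {i // D.Rel i})) :
    ¬(red D).DecBy T := by
  rintro ⟨h1, h2, ⟨z0, hz0, hz0'⟩, h4⟩
  refine hT (inc D '' T) ⟨?_, h2.image _, ⟨inc D z0, (act_inc D z0).1 hz0, ?_⟩, ?_⟩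
  · rintro _ ⟨z, hz, rfl⟩
    exact (act_inc D z).1 (h1 hz)
  · rintro ⟨z, hz, h⟩
    exact hz0' (inc_inj D h ▸ hz)
  · rw [Submodule.disjoint_def] at h4 ⊢
    intro x hx hx'
    have e1 : res D x ∈ Submodule.span ℂ ((red D).vec '' T) := by
      have := Submodule.mem_map_of_mem (f := res D) hx
      rw [Submodule.map_span] at this
      refine Submodule.span_mono ?_ this
      rintro _ ⟨_, ⟨_, ⟨z, hz, rfl⟩, rfl⟩, rfl⟩
      exact ⟨z, hz, vec_inc D z⟩
    have e2 : res D x ∈ Submodule.span ℂ ((red D).vec '' ((red D).act \ T)) := by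
      have := Submodule.mem_map_of_mem (f := res D) hx'
      rw [Submodule.map_span] at this
      refine Submodule.span_mono ?_ this
      rintro _ ⟨_, ⟨z, ⟨hz, hz'⟩, rfl⟩, rfl⟩
      obtain ⟨z', rfl⟩ := act_range D z hz
      exact ⟨z', ⟨(act_inc D z').2 hz, fun h => hz' ⟨z', h, rfl⟩⟩, vec_inc D z'⟩
    have e3 := h4 _ e1 e2
    funext i
    by_cases hi : D.Rel i
    · exact congrFun e3 ⟨i, hi⟩
    · exact span_supp D _ (by
        rintro _ ⟨z, hz, rfl⟩
        exact (act_inc D z).1 (h1 hz)) x hx i hi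

end Red

end EBDAux

open EBDAux in
theorem stmt_EBD (hPush : Stmt_Push) (hHom : Stmt_Homog) (h2 : Stmt_EB2) (h3 : Stmt_EB3)
    (h4 : Stmt_EB4) (hNV : Stmt_NV) : Stmt_EBD := by
  classical
  intro ι κ _ _ _ _ D hC hV hE hT hR s₀ hs
  obtain ⟨i₀, hi₀⟩ := hR
  obtain ⟨n, hn⟩ := full h2 h3 h4 hNV (red D) (fun j => hC j.1)
    ⟨fun i => hV.1 i.1, fun j _ => by
      rcases hV.2 j.1 j.2 with h | ⟨i, hi⟩
      · exact absurd (hC j.1) h
      · exact Or.inr ⟨⟨i, Or.inr ⟨j.1, j.2, hi⟩⟩, hi⟩⟩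
    (red_ess D hE) (red_dec D hT) ⟨⟨i₀, hi₀⟩⟩ (red_rel D) (fun j => j.2) s₀ (by
      have e1 : ∑ j : {j // 0 < D.m j}, (D.m j.1 : ℂ) = ∑ j, (D.m j : ℂ) :=
        sum_rel (fun j => 0 < D.m j) (fun j => (D.m j : ℂ)) fun j hj => by
          rw [Nat.eq_zero_of_not_pos hj, Nat.cast_zero]
      have e2 : ∑ i : {i // D.Rel i}, (D.b i.1 : ℂ) / D.a i.1 = ∑ i, (D.b i : ℂ) / D.a i :=
        sum_rel D.Rel (fun i => (D.b i : ℂ) / D.a i) fun i hi => by
          rw [b_zero D i hi, Nat.cast_zero, zero_div]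
      have e3 : ∑ i : {i // D.Rel i}, 1 / (D.a i.1 : ℂ) =
          ∑ i, (if D.Rel i then 1 / (D.a i : ℂ) else 0) := by
        rw [← sum_rel D.Rel (fun i => if D.Rel i then 1 / (D.a i : ℂ) else 0) fun i hi =>
          if_neg hi]
        exact Finset.sum_congr rfl fun i _ => (if_pos i.2).symm
      simp only [red]
      rw [e1, e2, e3]
      exact hs)
  exact ⟨n, fun b hb => hn b (bern_red hPush hHom D hC hV.1 b hb)⟩

end Pool.Agent.Mono
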