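import Pool.Agent.Work.Monodromy.StatementB
import Pool.Agent.Work.Monodromy_helper48.BP4

/-!
# Existence of the Bernstein-Sato polynomial
-/

namespace Pool.Agent.Mono

open MvPolynomial

namespace FB

open EBDAux

/-- the Bernstein ideal -/
noncomputable def bId {ι : Type} (f : MvPolynomial ι ℂ) : Ideal (Polynomial ℂ) where
  carrier := {b | IsBernstein f b}
  add_mem' := by
    rintro b b' ⟨P, hP⟩ ⟨P', hP'⟩
    refine ⟨P + P', fun k => ?_⟩
    rw [wact_add, LinearMap.add_apply, hP k, hP' k, Polynomial.eval_add, C_add, add_mul]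
  zero_mem' := ⟨0, fun k => by simp [wact_zero]⟩
  smul_mem' := by
    rintro q b ⟨P, hP⟩
    refine ⟨q.map (algebraMap ℂ (Weyl ι)) * P, fun k => ?_⟩
    rw [wact_cmul, hP k, smul_eq_mul, Polynomial.eval_mul, C_mul, mul_assoc]

end FB

theorem exists_bernsteinSato {ι : Type} [Finite ι] (f : MvPolynomial ι ℂ) :
    ∃ b : Polynomial ℂ, IsBernsteinSato f b := by
  obtain ⟨b₀, hb₀⟩ := (IsPrincipalIdealRing.principal (FB.bId f)).principal
  obtain ⟨b₁, hb₁, hB⟩ := exists_bernstein f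
  have h1 : ∀ b' : Polynomial ℂ, IsBernstein f b' ↔ b₀ ∣ b' := by
    intro b'
    have h2 : IsBernstein f b' ↔ b' ∈ FB.bId f := Iff.rfl
    rw [h2, hb₀]
    exact Ideal.mem_span_singleton
  have h0 : b₀ ≠ 0 := by
    rintro rfl
    exact hb₁ (zero_dvd_iff.1 ((h1 b₁).1 hB))
  refine ⟨b₀ * Polynomial.C b₀.leadingCoeff⁻¹, Polynomial.monic_mul_leadingCoeff_inv h0,
    fun b' => ?_⟩
  rw [h1, (Polynomial.isUnit_C.2 (by simpa using h0 : IsUnit b₀.leadingCoeff⁻¹)).mul_right_dvd]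

theorem isMonodromyEigenvalue_iff {ι : Type} [Finite ι] (f : MvPolynomial ι ℂ) (l : ℂ) :
    IsMonodromyEigenvalue f l ↔ IsEigenvalue f l := by
  constructor
  · rintro ⟨b, hb, s, hs, rfl⟩
    refine ⟨s, fun b' hb' => ?_, rfl⟩
    obtain ⟨q, rfl⟩ := (hb.2 b').1 hb'
    rw [Polynomial.eval_mul, hs, zero_mul]
  · rintro ⟨s, hs, rfl⟩
    obtain ⟨b, hb⟩ := exists_bernsteinSato f
    exact ⟨b, hb, s, hs b ((hb.2 b).2 dvd_rfl), rfl⟩

end Pool.Agent.Mono
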