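import Pool.Agent.Work.Monodromy.Central3

/-!
# Central case, part 4: the induction
-/

set_option linter.unusedSectionVars false

namespace Pool.Agent.Mono

open MvPolynomial

section

variable {ι κ : Type} [Fintype ι] [Fintype κ] [DecidableEq ι] [DecidableEq κ]

theorem size_lt (D D' : Data ι κ) (h1 : ∀ j, 0 < D'.m j → 0 < D.m j)
    (h2 : ∀ i, D'.NF i → D.NF i) (h3 : ∀ i, D'.Rel i → D.Rel i)
    (h : (∃ j, 0 < D.m j ∧ ¬0 < D'.m j) ∨ (∃ i, D.NF i ∧ ¬D'.NF i) ∨
      (∃ i, D.Rel i ∧ ¬D'.Rel i)) : D'.size < D.size := by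
  classical
  unfold Data.size
  have s1 : (Finset.univ.filter fun j => 0 < D'.m j) ⊆ Finset.univ.filter fun j => 0 < D.m j := by
    intro j hj
    exact Finset.mem_filter.2 ⟨Finset.mem_univ _, h1 j (Finset.mem_filter.1 hj).2⟩
  have s2 : (Finset.univ.filter D'.NF) ⊆ Finset.univ.filter D.NF := by
    intro j hj
    exact Finset.mem_filter.2 ⟨Finset.mem_univ _, h2 j (Finset.mem_filter.1 hj).2⟩
  have s3 : (Finset.univ.filter D'.Rel) ⊆ Finset.univ.filter D.Rel := by
    intro j hj
    exact Finset.mem_filter.2 ⟨Finset.mem_univ _, h3 j (Finset.mem_filter.1 hj).2⟩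
  have c1 := Finset.card_le_card s1
  have c2 := Finset.card_le_card s2
  have c3 := Finset.card_le_card s3
  rcases h with ⟨j, hj, hj'⟩ | ⟨i, hi, hi'⟩ | ⟨i, hi, hi'⟩
  · have : (Finset.univ.filter fun j => 0 < D'.m j).card <
        (Finset.univ.filter fun j => 0 < D.m j).card := by
      apply Finset.card_lt_card
      refine ⟨s1, fun hs => hj' ?_⟩
      exact (Finset.mem_filter.1 (hs (Finset.mem_filter.2 ⟨Finset.mem_univ _, hj⟩))).2
    omega
  · have : (Finset.univ.filter D'.NF).card < (Finset.univ.filter D.NF).card := by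
      apply Finset.card_lt_card
      refine ⟨s2, fun hs => hi' ?_⟩
      exact (Finset.mem_filter.1 (hs (Finset.mem_filter.2 ⟨Finset.mem_univ _, hi⟩))).2
    omega
  · have : (Finset.univ.filter D'.Rel).card < (Finset.univ.filter D.Rel).card := by
      apply Finset.card_lt_card
      refine ⟨s3, fun hs => hi' ?_⟩
      exact (Finset.mem_filter.1 (hs (Finset.mem_filter.2 ⟨Finset.mem_univ _, hi⟩))).2
    omega

theorem lin_c (D : Data ι κ) (Φ : Matrix ι ι ℂ) (j : κ) :
    (D.lin Φ).c j = Matrix.vecMul (D.c j) Φ := by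
  funext k
  rfl

theorem valid_lin (D : Data ι κ) (hc : D.Central) (hv : D.Valid) (Φ Ψ : Matrix ι ι ℂ)
    (h : Φ * Ψ = 1) : (D.lin Φ).Valid := by
  refine ⟨hv.1, fun j hj => Or.inr ?_⟩
  by_contra hne
  push Not at hne
  have h0 : (D.lin Φ).c j = 0 := funext hne
  have h1 : D.c j = 0 := by
    have : Matrix.vecMul (Matrix.vecMul (D.c j) Φ) Ψ = D.c j := by
      rw [Matrix.vecMul_vecMul, h, Matrix.vecMul_one]
    rw [← this, ← lin_c, h0, Matrix.zero_vecMul]
  rcases hv.2 j hj with h2 | ⟨i, hi⟩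
  · exact h2 (hc j)
  · exact hi (congrFun h1 i)

theorem valid_restr (D : Data ι κ) (hv : D.Valid) (I : Finset ι) (T : Finset κ) :
    (D.restr I T).Valid := by
  refine ⟨hv.1, fun j hj => ?_⟩
  have : 0 < D.m j := by
    by_contra h
    simp only [Data.restr] at hj
    split_ifs at hj
    · exact h hj
    · exact absurd hj (lt_irrefl _)
  exact hv.2 j this

/-- expressions are transported along a linear change of the free coordinates -/
theorem hasExpr_lin (hLC : Stmt_LC) (D : Data ι κ) (δ : ι → ℕ) (Φ Ψ : Matrix ι ι ℂ)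
    (h1 : Φ * Ψ = 1) (h2 : Ψ * Φ = 1)
    (h3 : ∀ i, ¬(D.a i = 1 ∧ D.b i = 0) →
      ∀ k, Φ i k = (1 : Matrix ι ι ℂ) i k ∧ Ψ i k = (1 : Matrix ι ι ℂ) i k)
    (h4 : ∀ i k, Φ i k ≠ 0 ∨ Ψ i k ≠ 0 → δ i ≤ δ k) {G : Set (ℕ × ℕ)} {e : ℕ}
    (h : HasExpr e (D.lin Φ) δ G) : HasExpr e D δ G := by
  obtain ⟨ts, hok, hts⟩ := h
  refine ⟨ts, hok, ?_⟩
  intro R _ μ Li hL E _ B h' hB hh
  rw [hLC ι κ D δ Φ Ψ h1 h2 h3 h4 R μ Li hL e E B h' hB]
  exact hts R μ Li hL E B h' hB hh

/-- the shear killing the variable `i₀` -/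
noncomputable def shear (r : ι → ℂ) (i₀ : ι) : Matrix ι ι ℂ :=
  Matrix.of fun i k => if k = i₀ ∧ i ≠ i₀ then r i / r i₀ else 0

theorem shear_sq (r : ι → ℂ) (i₀ : ι) : shear r i₀ * shear r i₀ = 0 := by
  ext i k
  rw [Matrix.mul_apply]
  apply Finset.sum_eq_zero
  intro l _
  simp only [shear, Matrix.of_apply]
  by_cases hl : l = i₀
  · subst hl
    simp
  · simp [hl]

end

theorem stmt_Central (hLoc : Stmt_Loc) (hLC : Stmt_LC) (hZB : Stmt_ZB) (hTriv : Stmt_Triv)
    (hSplit : Stmt_Split) (hTor : Stmt_Tor) (hX1 : Stmt_X1) (hX2 : Stmt_X2) (hLA1 : Stmt_LA1)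
    (hLA2 : Stmt_LA2) (hELoc : Stmt_ELoc) (hELC : Stmt_ELC) (hESplit : Stmt_ESplit)
    (hEBD : Stmt_EBD) : Stmt_Central := by
  classical
  intro ι κ _ _ _ _
  suffices H : ∀ (n : ℕ) (D : Data ι κ), D.size = n → D.Central → D.Valid →
      ∀ I : Set (Polynomial ℂ), I ⊆ bSet D.poly → ∀ (δ : ι → ℕ) (e : ℕ), 1 ≤ e →
        HasExpr e D δ (GoodPair I) from
    fun D hc hv I hI δ e he => H _ D rfl hc hv I hI δ e he
  intro n
  induction n using Nat.strong_induction_on with
  | _ n IH =>
  intro D hn hc hv I hI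
  subst hn
  -- smaller data
  have IH' : ∀ D' : Data ι κ, D'.size < D.size → D'.Central → D'.Valid → I ⊆ bSet D'.poly →
      ∀ (δ : ι → ℕ) (e : ℕ), 1 ≤ e → HasExpr e D' δ (GoodPair I) :=
    fun D' hs hc' hv' hI' => IH _ hs D' rfl hc' hv' I hI'
  by_cases hR : ∃ i, D.Rel i
  swap
  · -- no relevant variable
    intro δ e he
    push Not at hR
    apply hTriv ι κ D δ e _ he
    · intro i
      by_contra hb
      exact hR i (rel_of_b D hb)
    · intro j
      by_contra hm
      have hm' : 0 < D.m j := Nat.pos_of_ne_zero hm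
      rcases hv.2 j hm' with h | ⟨i, hi⟩
      · exact h (hc j)
      · exact hR i (Or.inr ⟨j, hm', hi⟩)
  by_cases hE : D.Ess
  swap
  · -- non-essential: eliminate a variable
    intro δ e he
    obtain ⟨r, hr0, hr1, hr2⟩ := hLA1 ι κ D hE
    have hne : (Finset.univ.filter fun i => r i ≠ 0).Nonempty := by
      obtain ⟨i, hi⟩ := Function.ne_iff.1 hr0
      exact ⟨i, by simpa using hi⟩
    obtain ⟨i₀, hi₀, hmax⟩ := Finset.exists_max_image _ δ hne
    have hri₀ : r i₀ ≠ 0 := (Finset.mem_filter.1 hi₀).2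
    have hfree : ∀ i, r i ≠ 0 → D.a i = 1 ∧ D.b i = 0 := by
      intro i hi
      obtain ⟨h1, h2⟩ := hr1 i hi
      have ha := hv.1 i
      by_contra hcon
      apply h2
      refine ⟨h1, ?_⟩
      by_contra h3
      push Not at h3
      exact hcon ⟨by omega, by omega⟩
    set Nm := shear r i₀ with hNm
    have hNsq := shear_sq r i₀
    have e1 : (1 + Nm) * (1 - Nm) = 1 := by
      rw [mul_sub, add_mul, add_mul, one_mul, mul_one, one_mul, ← hNm] at *
      rw [hNsq]
      abel
    have e2 : (1 - Nm) * (1 + Nm) = 1 := by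
      rw [mul_add, sub_mul, sub_mul, one_mul, mul_one, one_mul, ← hNm] at *
      rw [hNsq]
      abel
    have hNm0 : ∀ i k, Nm i k ≠ 0 → k = i₀ ∧ i ≠ i₀ ∧ r i ≠ 0 := by
      intro i k h
      simp only [hNm, shear, Matrix.of_apply] at h
      split_ifs at h with h'
      · refine ⟨h'.1, h'.2, ?_⟩
        intro h0
        rw [h0, zero_div] at h
        exact h rfl
      · exact absurd rfl h
    have h3 : ∀ i, ¬(D.a i = 1 ∧ D.b i = 0) →
        ∀ k, (1 + Nm) i k = (1 : Matrix ι ι ℂ) i k ∧ (1 - Nm) i k = (1 : Matrix ι ι ℂ) i k := by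
      intro i hi k
      have : Nm i k = 0 := by
        by_contra h
        exact hi (hfree i (hNm0 i k h).2.2)
      simp [Matrix.add_apply, Matrix.sub_apply, this]
    have h4 : ∀ i k, (1 + Nm) i k ≠ 0 ∨ (1 - Nm) i k ≠ 0 → δ i ≤ δ k := by
      intro i k h
      by_cases hik : i = k
      · rw [hik]
      · have hone : (1 : Matrix ι ι ℂ) i k = 0 := Matrix.one_apply_ne hik
        have : Nm i k ≠ 0 := by
          intro h0
          rcases h with h | h
          · exact h (by rw [Matrix.add_apply, hone, h0, add_zero])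
          · exact h (by rw [Matrix.sub_apply, hone, h0, sub_zero])
        obtain ⟨hk, -, hri⟩ := hNm0 i k this
        rw [hk]
        exact hmax i (Finset.mem_filter.2 ⟨Finset.mem_univ _, hri⟩)
    apply hasExpr_lin hLC D δ (1 + Nm) (1 - Nm) e1 e2 h3 h4
    have hcol : ∀ j k, k ≠ i₀ → (D.lin (1 + Nm)).c j k = D.c j k := by
      intro j k hk
      change ∑ i, D.c j i * (1 + Nm) i k = D.c j k
      rw [Finset.sum_eq_single k]
      · have : Nm k k = 0 := by
          by_contra h
          exact hk (hNm0 k k h).1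
        rw [Matrix.add_apply, Matrix.one_apply_eq, this, add_zero, mul_one]
      · intro i _ hik
        have : Nm i k = 0 := by
          by_contra h
          exact hk (hNm0 i k h).1
        rw [Matrix.add_apply, Matrix.one_apply_ne hik, this, add_zero, mul_zero]
      · simp
    have hcol0 : ∀ j, 0 < D.m j → (D.lin (1 + Nm)).c j i₀ = 0 := by
      intro j hj
      change ∑ i, D.c j i * (1 + Nm) i i₀ = 0
      have h5 : ∀ i, D.c j i * (1 + Nm) i i₀ = D.c j i * r i / r i₀ := by
        intro i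
        rw [Matrix.add_apply]
        by_cases hi : i = i₀
        · subst hi
          simp only [Matrix.one_apply_eq, hNm, shear, Matrix.of_apply]
          simp
          field_simp
        · rw [Matrix.one_apply_ne hi]
          simp only [hNm, shear, Matrix.of_apply]
          simp [hi]
          ring
      rw [Finset.sum_congr rfl fun i _ => h5 i, ← Finset.sum_div, hr2 j hj, zero_div]
    have hrel : ∀ i, (D.lin (1 + Nm)).Rel i → D.Rel i ∧ i ≠ i₀ := by
      intro i hi
      rcases hi with hb | ⟨j, hj, hcj⟩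
      · refine ⟨Or.inl hb, ?_⟩
        rintro rfl
        have : D.b i = 0 := (hfree i hri₀).2
        have hb' : 0 < D.b i := hb
        omega
      · have hj' : 0 < D.m j := hj
        have hii : i ≠ i₀ := by
          rintro rfl
          exact hcj (hcol0 j hj')
        exact ⟨Or.inr ⟨j, hj', by rw [← hcol j i hii]; exact hcj⟩, hii⟩
    apply IH'
    · apply size_lt D (D.lin (1 + Nm)) (fun j hj => hj) (fun i hi => ⟨(hrel i hi.1).1, hi.2⟩)
        (fun i hi => (hrel i hi).1)
      right; right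
      exact ⟨i₀, (hr1 i₀ hri₀).1, fun h => (hrel i₀ h).2 rfl⟩
    · exact hc
    · exact valid_lin D hc hv _ _ e1
    · exact hI.trans (hELC ι κ D _ _ e1 e2 h3 hc hv.1)
    · exact he
  -- essential: all strata with J ≠ ∅ are fine
  have hpiece : ∀ e, 1 ≤ e → ∀ (δ : ι → ℕ), ∀ p ∈ strata D δ,
      PieceOk (GoodPair I) e (mkPiece D δ p) := by
    intro e he δ p hp
    rw [strata, Finset.mem_filter, Finset.mem_product] at hp
    obtain ⟨⟨hp1, -⟩, hJ, hS⟩ := hp
    have hJR : ∀ i ∈ p.1, D.Rel i := fun i hi => (D.mem_M0.1 (Finset.mem_powerset.1 hp1 hi)).1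
    refine ⟨cst_str D _ _, unit_ne D _ _, hTor ι κ D p.1 p.2 hc hv.1 hJ, ?_⟩
    exact IH' (D.loc p.1 p.2) (D.size_loc_lt hc hv hE _ _ hJ hJR hS) (D.central_loc _ _)
      (D.valid_loc hc hv _ _) (hI.trans (hELoc ι κ D _ _ hv.1 hS)) _ e he
  by_cases hDec : ∃ T, D.DecBy T
  · -- decomposable
    obtain ⟨T, hT⟩ := hDec
    intro δ e he
    -- reduction to shifts which vanish on the free relevant coordinates
    suffices H2 : ∀ δ : ι → ℕ, (∀ i, D.Rel i → D.a i = 1 → δ i = 0) →
        HasExpr e D δ (GoodPair I) by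
      have hzero : ∀ i, D.Rel i → D.a i = 1 → ∀ n, δ i ≤ n → D.step^[n] δ i = 0 := by
        intro i hi ha n hn
        have hinv : ∀ n, D.step^[n] δ i = δ i - n := by
          intro n
          induction n with
          | zero => simp
          | succ n ih =>
            rw [Function.iterate_succ_apply']
            by_cases h : D.step^[n] δ i = 0
            · rw [step_rel_zero D _ hi h]
              omega
            · rw [step_pos D _ (fun h' => h h'.2)]
              omega
        rw [hinv n]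
        omega
      set n := Finset.univ.sup δ with hn
      apply hasExpr_of_rec hX1 hZB D δ (D.step^[n] δ) (pcsN D δ n) _ _
        (pieceOk_pcsN D (hpiece e he) δ n) (rec_iter hLoc hZB D hc hv e δ n)
      apply H2
      intro i hi ha
      exact hzero i hi ha n (Finset.le_sup (Finset.mem_univ i))
    clear δ
    intro δ hδ
    obtain ⟨Φ, Ψ, J, e1, e2, h3, h4, h5, h6, h7⟩ := hLA2 ι κ D T hE hT
    obtain ⟨hTsub, hTne, hTc, hdis⟩ := hT
    have h3' : ∀ i, ¬(D.a i = 1 ∧ D.b i = 0) →
        ∀ k, Φ i k = (1 : Matrix ι ι ℂ) i k ∧ Ψ i k = (1 : Matrix ι ι ℂ) i k := by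
      intro i hi
      apply h3 i
      rintro ⟨hr, hnf⟩
      apply hi
      have ha := hv.1 i
      by_contra hcon
      apply hnf
      refine ⟨hr, ?_⟩
      by_contra h
      push Not at h
      exact hcon ⟨by omega, by omega⟩
    have hcompat : ∀ i k, Φ i k ≠ 0 ∨ Ψ i k ≠ 0 → δ i ≤ δ k := by
      intro i k h
      by_cases hfr : D.Rel i ∧ ¬D.NF i
      · have : D.a i = 1 := by
          have ha := hv.1 i
          by_contra hne
          exact hfr.2 ⟨hfr.1, Or.inl (by omega)⟩
        rw [hδ i hfr.1 this]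
        exact Nat.zero_le _
      · have hik : i = k := by
          by_contra hik
          have := h3 i hfr k
          rw [Matrix.one_apply_ne hik] at this
          rcases h with h | h
          · exact h this.1
          · exact h this.2
        rw [hik]
    apply hasExpr_lin hLC D δ Φ Ψ e1 e2 h3' hcompat
    set D' := D.lin Φ with hD'
    have hc' : D'.Central := hc
    have hv' : D'.Valid := valid_lin D hc hv Φ Ψ e1
    have hI' : I ⊆ bSet D'.poly := hI.trans (hELC ι κ D Φ Ψ e1 e2 h3' hc hv.1)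
    have hrel : ∀ i, D'.Rel i → D.Rel i := by
      intro i hi
      rcases hi with hb | ⟨j, hj, hcj⟩
      · exact Or.inl hb
      · obtain ⟨k, -, hk⟩ := Finset.exists_ne_zero_of_sum_ne_zero hcj
        have hk1 : D.c j k ≠ 0 := left_ne_zero_of_mul hk
        have hk2 : Φ k i ≠ 0 := right_ne_zero_of_mul hk
        rcases h4 k i (Or.inl hk2) with h | h
        · exact h
        · rw [← h]
          exact Or.inr ⟨j, hj, hk1⟩
    set T1 : Finset κ := Finset.univ.filter fun j => Sum.inl j ∈ T with hT1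
    have hs1 : ∀ j ∈ T1, 0 < D'.m j → ∀ i ∉ J, D'.c j i = 0 := by
      intro j hj hm i hi
      exact h5 j hm (Finset.mem_filter.1 hj).2 i hi
    have hs2 : ∀ j ∉ T1, 0 < D'.m j → ∀ i ∈ J, D'.c j i = 0 := by
      intro j hj hm i hi
      exact h6 j hm (fun h => hj (Finset.mem_filter.2 ⟨Finset.mem_univ _, h⟩)) i hi
    have hs1' : ∀ j ∈ T1ᶜ, 0 < D'.m j → ∀ i ∉ Jᶜ, D'.c j i = 0 := by
      intro j hj hm i hi
      exact hs2 j (Finset.mem_compl.1 hj) hm i (by simpa using hi)
    have hs2' : ∀ j ∉ T1ᶜ, 0 < D'.m j → ∀ i ∈ Jᶜ, D'.c j i = 0 := by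
      intro j hj hm i hi
      exact hs1 j (by simpa using hj) hm i (Finset.mem_compl.1 hi)
    -- facts on the parts
    have hm1 : ∀ j, 0 < (D'.restr J T1).m j → 0 < D.m j ∧ Sum.inl j ∈ T := by
      intro j hj
      simp only [Data.restr] at hj
      split_ifs at hj with h
      · exact ⟨hj, (Finset.mem_filter.1 h).2⟩
      · exact absurd hj (lt_irrefl _)
    have hm2 : ∀ j, 0 < (D'.restr Jᶜ T1ᶜ).m j → 0 < D.m j ∧ Sum.inl j ∉ T := by
      intro j hj
      simp only [Data.restr] at hj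
      split_ifs at hj with h
      · exact ⟨hj, fun h' => (Finset.mem_compl.1 h) (Finset.mem_filter.2 ⟨Finset.mem_univ _, h'⟩)⟩
      · exact absurd hj (lt_irrefl _)
    have hr1 : ∀ i, (D'.restr J T1).Rel i → D.Rel i ∧ i ∈ J := by
      intro i hi
      rcases hi with hb | ⟨j, hj, hcj⟩
      · simp only [Data.restr] at hb
        split_ifs at hb with h
        · exact ⟨Or.inl hb, h⟩
        · exact absurd hb (lt_irrefl _)
      · obtain ⟨hj1, hj2⟩ := hm1 j hj
        refine ⟨hrel i (Or.inr ⟨j, hj1, hcj⟩), ?_⟩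
        by_contra hiJ
        exact hcj (h5 j hj1 hj2 i hiJ)
    have hr2 : ∀ i, (D'.restr Jᶜ T1ᶜ).Rel i → D.Rel i ∧ i ∉ J := by
      intro i hi
      rcases hi with hb | ⟨j, hj, hcj⟩
      · simp only [Data.restr] at hb
        split_ifs at hb with h
        · exact ⟨Or.inl hb, Finset.mem_compl.1 h⟩
        · exact absurd hb (lt_irrefl _)
      · obtain ⟨hj1, hj2⟩ := hm2 j hj
        refine ⟨hrel i (Or.inr ⟨j, hj1, hcj⟩), ?_⟩
        intro hiJ
        exact hcj (h6 j hj1 hj2 i hiJ)
    have hb_le : ∀ (K : Finset ι) (U : Finset κ) (i : ι), 0 < (D'.restr K U).b i → 0 < D.b i := by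
      intro K U i hb
      simp only [Data.restr] at hb
      split_ifs at hb with h
      · exact hb
      · exact absurd hb (lt_irrefl _)
    have hn1 : ∀ i, (D'.restr J T1).NF i → D.NF i ∧ i ∈ J := by
      intro i hi
      obtain ⟨hi1, hi2⟩ := hr1 i hi.1
      exact ⟨⟨hi1, hi.2.imp id (hb_le _ _ i)⟩, hi2⟩
    have hn2 : ∀ i, (D'.restr Jᶜ T1ᶜ).NF i → D.NF i ∧ i ∉ J := by
      intro i hi
      obtain ⟨hi1, hi2⟩ := hr2 i hi.1
      exact ⟨⟨hi1, hi.2.imp id (hb_le _ _ i)⟩, hi2⟩
    have hsize1 : (D'.restr J T1).size < D.size := by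
      apply size_lt D _ (fun j hj => (hm1 j hj).1) (fun i hi => (hn1 i hi).1)
        (fun i hi => (hr1 i hi).1)
      obtain ⟨z, hz, hzT⟩ := hTc
      rcases z with j | i
      · left
        exact ⟨j, hz, fun h => hzT (hm1 j h).2⟩
      · right; left
        exact ⟨i, hz, fun h => hzT ((h7 i hz).2 (hn1 i h).2)⟩
    have hsize2 : (D'.restr Jᶜ T1ᶜ).size < D.size := by
      apply size_lt D _ (fun j hj => (hm2 j hj).1) (fun i hi => (hn2 i hi).1)
        (fun i hi => (hr2 i hi).1)
      obtain ⟨z, hz⟩ := hTne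
      have hza := hTsub hz
      rcases z with j | i
      · left
        exact ⟨j, hza, fun h => (hm2 j h).2 hz⟩
      · right; left
        exact ⟨i, hza, fun h => (hn2 i h).2 ((h7 i hza).1 hz)⟩
    exact hSplit ι κ D' δ J T1 (GoodPair I) hs1 hs2
      (fun e' he' => IH' _ hsize1 hc' (valid_restr D' hv' _ _)
        (hI'.trans (hESplit ι κ D' J T1 hc' hv' hs1 hs2)) δ e' he')
      (fun e' he' => IH' _ hsize2 hc' (valid_restr D' hv' _ _)
        (hI'.trans (hESplit ι κ D' Jᶜ T1ᶜ hc' hv' hs1' hs2')) δ e' he') e he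
  · -- indecomposable
    push Not at hDec
    intro δ e he
    obtain ⟨n, p, hp0, hp⟩ := exists_period D δ
    apply hasExpr_of_rec hX1 hZB D δ (D.step^[n] δ) (pcsN D δ n) _ _
      (pieceOk_pcsN D (hpiece e he) δ n) (rec_iter hLoc hZB D hc hv e δ n)
    obtain ⟨hg, hN⟩ := good_of_period hEBD D hc hv hE hDec hR I hI (D.step^[n] δ) p hp0 hp
    apply hX2 ι κ e D (D.step^[n] δ) (GoodPair I) (pcsN D (D.step^[n] δ) p) _ _ hg hN
      (pieceOk_pcsN D (hpiece e he) _ p)
    have := rec_iter hLoc hZB D hc hv e (D.step^[n] δ) p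
    rw [hp] at this
    exact this

end Pool.Agent.Mono
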