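import Pool.Agent.Work.Monodromy.Interface

/-!
# Block EB1: a Bernstein identity, specialised at `s`
-/

set_option linter.unusedSectionVars false

namespace Pool.Agent.Mono.EB1

open MvPolynomial

variable {ι : Type}

theorem toF_mul (p q : MvPolynomial ι ℂ) : toF ℂ (p * q) = toF ℂ p * toF ℂ q := map_mul _ _ _
theorem toF_add (p q : MvPolynomial ι ℂ) : toF ℂ (p + q) = toF ℂ p + toF ℂ q := map_add _ _ _
theorem toF_one : toF ℂ (1 : MvPolynomial ι ℂ) = 1 := map_one _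
theorem toF_pow (p : MvPolynomial ι ℂ) (n : ℕ) : toF ℂ (p ^ n) = toF ℂ p ^ n := map_pow _ _ _
theorem toF_C (s : ℂ) : toF ℂ (C s : MvPolynomial ι ℂ) = algebraMap ℂ (FF ℂ ι) s := by
  rw [IsScalarTower.algebraMap_apply ℂ (MvPolynomial ι ℂ) (FF ℂ ι)]
  rfl
theorem toF_smul (s : ℂ) (p : MvPolynomial ι ℂ) : toF ℂ (s • p) = s • toF ℂ p := by
  rw [MvPolynomial.smul_eq_C_mul, toF_mul, toF_C, Algebra.smul_def]
theorem toF_ne {p : MvPolynomial ι ℂ} (h : p ≠ 0) : toF ℂ p ≠ 0 := by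
  intro h0
  exact h ((IsFractionRing.injective (MvPolynomial ι ℂ) (FF ℂ ι)) (by
    rw [map_zero]; exact h0))

section gen

variable {κ : Type} [Fintype κ] (l : κ → MvPolynomial ι ℂ) (σ : κ → ℂ) (u : FF ℂ ι)

theorem gen_mono {m n : ℕ} (h : m ≤ n) : gen ℂ l σ u m ≤ gen ℂ l σ u n := by
  induction h with
  | refl => exact le_rfl
  | step _ ih => exact ih.trans le_sup_left

theorem theta_mem (i : ι) {m : ℕ} {x : FF ℂ ι} (hx : x ∈ gen ℂ l σ u m) :
    theta ℂ l σ i x ∈ gen ℂ l σ u (m + 1) :=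
  Submodule.mem_sup_right (Submodule.mem_iSup_of_mem i (Submodule.mem_map_of_mem hx))

theorem theta_mul (i : ι) (q : MvPolynomial ι ℂ) (x : FF ℂ ι) :
    theta ℂ l σ i (toF ℂ q * x) = toF ℂ q * theta ℂ l σ i x + toF ℂ (pderiv i q) * x := by
  simp only [theta, LinearMap.add_apply, Derivation.coeFn_coe, LinearMap.mulLeft_apply,
    Derivation.leibniz, smul_eq_mul, dF_toF]
  ring

theorem gen_mul (q : MvPolynomial ι ℂ) {m : ℕ} {x : FF ℂ ι} (hx : x ∈ gen ℂ l σ u m) :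
    toF ℂ q * x ∈ gen ℂ l σ u m := by
  induction m generalizing q x with
  | zero =>
    refine Submodule.span_induction (p := fun y _ => toF ℂ q * y ∈ gen ℂ l σ u 0)
      ?_ ?_ ?_ ?_ hx
    · rintro _ ⟨r, rfl⟩
      refine Submodule.subset_span ⟨q * r, ?_⟩
      simp only [toF_mul, mul_assoc]
    · simp
    · intro a b _ _ ha hb
      rw [mul_add]
      exact add_mem ha hb
    · intro c a _ ha
      rw [mul_smul_comm]
      exact Submodule.smul_mem _ _ ha
  | succ m ih =>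
    let L : FF ℂ ι →ₗ[ℂ] FF ℂ ι := LinearMap.mulLeft ℂ (toF ℂ q)
    have key : gen ℂ l σ u (m + 1) ≤ (gen ℂ l σ u (m + 1)).comap L := by
      apply sup_le
      · intro y hy
        exact Submodule.mem_sup_left (ih q hy)
      · apply iSup_le
        intro i
        rintro _ ⟨y, hy, rfl⟩
        change toF ℂ q * theta ℂ l σ i y ∈ gen ℂ l σ u (m + 1)
        have h1 : toF ℂ q * theta ℂ l σ i y =
            theta ℂ l σ i (toF ℂ q * y) - toF ℂ (pderiv i q) * y := by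
          rw [theta_mul]; ring
        rw [h1]
        exact sub_mem (theta_mem l σ u i (ih q hy)) (gen_mono l σ u (Nat.le_succ m) (ih _ hy))
    exact key hx

end gen

/-- polynomial families -/
def IsPol (F : ℂ → FF ℂ ι) : Prop :=
  ∃ U : Polynomial (FF ℂ ι), ∀ s, F s = U.eval (algebraMap ℂ (FF ℂ ι) s)

theorem IsPol.add {F G : ℂ → FF ℂ ι} (hF : IsPol F) (hG : IsPol G) :
    IsPol fun s => F s + G s := by
  obtain ⟨U, hU⟩ := hF
  obtain ⟨V, hV⟩ := hG
  exact ⟨U + V, fun s => by simp [hU, hV]⟩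

theorem IsPol.mul {F G : ℂ → FF ℂ ι} (hF : IsPol F) (hG : IsPol G) :
    IsPol fun s => F s * G s := by
  obtain ⟨U, hU⟩ := hF
  obtain ⟨V, hV⟩ := hG
  exact ⟨U * V, fun s => by simp [hU, hV]⟩

theorem IsPol.const (a : FF ℂ ι) : IsPol fun _ => a := ⟨Polynomial.C a, fun s => by simp⟩

theorem IsPol.id : IsPol fun s => algebraMap ℂ (FF ℂ ι) s := ⟨Polynomial.X, fun s => by simp⟩

theorem IsPol.der {F : ℂ → FF ℂ ι} (hF : IsPol F) (i : ι) : IsPol fun s => dF ℂ i (F s) := by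
  obtain ⟨U, hU⟩ := hF
  refine ⟨∑ j ∈ U.support, Polynomial.monomial j (dF ℂ i (U.coeff j)), fun s => ?_⟩
  beta_reduce
  rw [hU, Polynomial.eval_eq_sum, Polynomial.sum, map_sum, Polynomial.eval_finsetSum]
  refine Finset.sum_congr rfl fun j _ => ?_
  rw [Polynomial.eval_monomial, mul_comm, ← map_pow, ← Algebra.smul_def, Derivation.map_smul,
    Algebra.smul_def, mul_comm]

variable [Fintype ι] (f : MvPolynomial ι ℂ)

/-- families attached to a differential operator -/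
def Fam (Q : Module.End ℂ (MvPolynomial ι ℂ)) : Prop :=
  ∃ (F : ℂ → FF ℂ ι) (m : ℕ), IsPol F ∧
    (∀ s, F s ∈ gen ℂ (fun _ : Unit => f) (fun _ => s) (toF ℂ f) m) ∧
    ∀ k : ℕ, toF ℂ f ^ k * F k = toF ℂ (Q (f ^ (k + 1)))

theorem Fam.one : Fam f 1 := by
  refine ⟨fun _ => toF ℂ f, 0, IsPol.const _, fun s => ?_, fun k => ?_⟩
  · exact Submodule.subset_span ⟨1, by simp [toF_one]⟩
  · rw [Module.End.one_apply, toF_pow, pow_succ]

variable {f}

theorem Fam.add {P Q : Module.End ℂ (MvPolynomial ι ℂ)} (hP : Fam f P) (hQ : Fam f Q) :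
    Fam f (P + Q) := by
  obtain ⟨F, m, h1, h2, h3⟩ := hP
  obtain ⟨G, n, g1, g2, g3⟩ := hQ
  refine ⟨fun s => F s + G s, max m n, h1.add g1, fun s => ?_, fun k => ?_⟩
  · exact add_mem (gen_mono _ _ _ (le_max_left _ _) (h2 s)) (gen_mono _ _ _ (le_max_right _ _) (g2 s))
  · rw [mul_add, h3, g3, LinearMap.add_apply, toF_add]

theorem Fam.smul {Q : Module.End ℂ (MvPolynomial ι ℂ)} (hQ : Fam f Q) (c : ℂ) :
    Fam f (c • Q) := by
  obtain ⟨G, n, g1, g2, g3⟩ := hQ
  refine ⟨fun s => algebraMap ℂ (FF ℂ ι) c * G s, n, (IsPol.const _).mul g1, fun s => ?_,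
    fun k => ?_⟩
  · beta_reduce
    rw [← Algebra.smul_def]
    exact Submodule.smul_mem _ _ (g2 s)
  · rw [mul_left_comm, g3, LinearMap.smul_apply, toF_smul, Algebra.smul_def]

theorem Fam.mulX {Q : Module.End ℂ (MvPolynomial ι ℂ)} (hQ : Fam f Q) (i : ι) :
    Fam f (LinearMap.mulLeft ℂ (X i : MvPolynomial ι ℂ) * Q) := by
  obtain ⟨G, n, g1, g2, g3⟩ := hQ
  refine ⟨fun s => toF ℂ (X i) * G s, n, (IsPol.const _).mul g1, fun s => ?_, fun k => ?_⟩
  · exact gen_mul _ _ _ _ (g2 s)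
  · rw [mul_left_comm, g3, Module.End.mul_apply, LinearMap.mulLeft_apply, toF_mul]

theorem Fam.der (hf : f ≠ 0) {Q : Module.End ℂ (MvPolynomial ι ℂ)} (hQ : Fam f Q) (i : ι) :
    Fam f (((pderiv i : Derivation ℂ (MvPolynomial ι ℂ) (MvPolynomial ι ℂ)) :
      MvPolynomial ι ℂ →ₗ[ℂ] MvPolynomial ι ℂ) * Q) := by
  obtain ⟨G, n, g1, g2, g3⟩ := hQ
  refine ⟨fun s => theta ℂ (fun _ : Unit => f) (fun _ => s) i (G s), n + 1, ?_, fun s => ?_,
    fun k => ?_⟩
  · have h : (fun s => theta ℂ (fun _ : Unit => f) (fun _ => s) i (G s)) = fun s =>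
        dF ℂ i (G s) + (algebraMap ℂ (FF ℂ ι) s * (toF ℂ (pderiv i f) / toF ℂ f)) * G s := by
      funext s
      simp [theta, toF_C, mul_assoc]
    rw [h]
    exact (g1.der i).add ((IsPol.id.mul (IsPol.const _)).mul g1)
  · exact theta_mem _ _ _ i (g2 s)
  · have hf' := toF_ne hf
    rw [Module.End.mul_apply]
    change _ = toF ℂ (pderiv i (Q (f ^ (k + 1))))
    rw [← dF_toF, ← g3]
    simp only [theta, LinearMap.add_apply, Derivation.coeFn_coe, LinearMap.mulLeft_apply,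
      Derivation.leibniz, smul_eq_mul, Derivation.leibniz_pow, dF_toF, toF_C,
      Finset.univ_unique, Finset.sum_singleton, nsmul_eq_mul]
    rcases k with _ | k
    · simp
    · simp only [Nat.cast_add, Nat.cast_one, map_add, map_natCast, map_one, add_tsub_cancel_right]
      field_simp
      ring

theorem Fam.weyl (hf : f ≠ 0) {P : Module.End ℂ (MvPolynomial ι ℂ)} (hP : P ∈ Weyl ι) :
    ∀ Q, Fam f Q → Fam f (P * Q) := by
  refine Algebra.adjoin_induction (p := fun P _ => ∀ Q, Fam f Q → Fam f (P * Q))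
    ?_ ?_ ?_ ?_ hP
  · rintro _ (⟨i, rfl⟩ | ⟨i, rfl⟩) Q hQ
    · exact hQ.mulX i
    · exact hQ.der hf i
  · intro c Q hQ
    rw [← Algebra.smul_def]
    exact hQ.smul c
  · intro a b _ _ ha hb Q hQ
    rw [add_mul]
    exact (ha Q hQ).add (hb Q hQ)
  · intro a b _ _ ha hb Q hQ
    rw [mul_assoc]
    exact ha _ (hb Q hQ)

/-- families attached to a polynomial with coefficients in the Weyl algebra -/
theorem fam_poly (hf : f ≠ 0) (P : Polynomial (Weyl ι)) :
    ∃ (F : ℂ → FF ℂ ι) (m : ℕ), IsPol F ∧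
      (∀ s, F s ∈ gen ℂ (fun _ : Unit => f) (fun _ => s) (toF ℂ f) m) ∧
      ∀ k : ℕ, toF ℂ f ^ k * F k = toF ℂ (wact P k (f ^ (k + 1))) := by
  induction P using Polynomial.induction_on' with
  | add p q hp hq =>
    obtain ⟨F, m, h1, h2, h3⟩ := hp
    obtain ⟨G, n, g1, g2, g3⟩ := hq
    refine ⟨fun s => F s + G s, max m n, h1.add g1, fun s => ?_, fun k => ?_⟩
    · exact add_mem (gen_mono _ _ _ (le_max_left _ _) (h2 s))
        (gen_mono _ _ _ (le_max_right _ _) (g2 s))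
    · rw [mul_add, h3, g3, ← toF_add]
      simp [wact]
  | monomial j a =>
    obtain ⟨F, m, h1, h2, h3⟩ := Fam.weyl hf a.2 1 (Fam.one f)
    refine ⟨fun s => algebraMap ℂ (FF ℂ ι) (s ^ j) * F s, m, ?_, fun s => ?_, fun k => ?_⟩
    · refine IsPol.mul ⟨Polynomial.X ^ j, fun s => by simp⟩ h1
    · beta_reduce
      rw [← Algebra.smul_def]
      exact Submodule.smul_mem _ _ (h2 s)
    · rw [mul_left_comm, h3, ← Algebra.smul_def, ← toF_smul]
      congr 1
      have h4 : ((k : Weyl ι) ^ j) = algebraMap ℂ (Weyl ι) ((k : ℂ) ^ j) := by simp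
      rw [wact, Polynomial.eval_monomial, h4, ← Algebra.commutes, ← Algebra.smul_def]
      rfl

end Pool.Agent.Mono.EB1

namespace Pool.Agent.Mono

open MvPolynomial EB1

theorem stmt_EB1 : Stmt_EB1 := by
  intro ι _ _ f b hf ⟨P, hP⟩ s
  obtain ⟨F, m, ⟨U, hU⟩, h2, h3⟩ := fam_poly hf P
  refine ⟨m, ?_⟩
  have hUb : U = b.map (algebraMap ℂ (FF ℂ ι)) := by
    obtain ⟨N, hN⟩ := Filter.eventually_atTop.1 hP
    have hinf : Set.Infinite (Set.range fun k : ℕ => ((k + N : ℕ) : FF ℂ ι)) := by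
      apply Set.infinite_range_of_injective
      intro a b hab
      have : ((a + N : ℕ) : FF ℂ ι) = ((b + N : ℕ) : FF ℂ ι) := hab
      have := Nat.cast_injective this
      omega
    apply Polynomial.eq_of_infinite_eval_eq
    apply hinf.mono
    rintro _ ⟨k, rfl⟩
    have h4 := h3 (k + N)
    rw [hN (k + N) (by omega), toF_mul, toF_pow, mul_comm (toF ℂ (C _))] at h4
    have h5 := mul_left_cancel₀ (pow_ne_zero _ (toF_ne hf)) h4
    rw [hU, toF_C] at h5
    change U.eval ((k + N : ℕ) : FF ℂ ι) = (b.map (algebraMap ℂ (FF ℂ ι))).eval ((k + N : ℕ) : FF ℂ ι)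
    rw [← map_natCast (algebraMap ℂ (FF ℂ ι)), h5, Polynomial.eval_map_algebraMap,
      Polynomial.aeval_algebraMap_apply]
    simp
  have h := h2 s
  rw [hU, hUb, Polynomial.eval_map_algebraMap, Polynomial.aeval_algebraMap_apply] at h
  rw [toF_C]
  simpa using h

end Pool.Agent.Mono
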