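import Pool.Agent.Work.Monodromy.SApi
import Pool.Agent.Work.Monodromy.EB1

/-!
# Block EB2: the Euler degree argument
-/

namespace Pool.Agent.Mono.EB2

open MvPolynomial

section gen

variable {ι : Type} (f : MvPolynomial ι ℂ)

/-- the twisted derivation `∂_i + s ∂_i f / f` -/
noncomputable abbrev th (s : ℂ) (i : ι) : FF ℂ ι →ₗ[ℂ] FF ℂ ι :=
  theta ℂ (fun _ : Unit => f) (fun _ => s) i

noncomputable abbrev gn (s : ℂ) (u : FF ℂ ι) (m : ℕ) : Submodule ℂ (FF ℂ ι) :=
  gen ℂ (fun _ : Unit => f) (fun _ => s) u m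

variable {f}

theorem th_apply (s : ℂ) (i : ι) (x : FF ℂ ι) :
    th f s i x = dF ℂ i x + toF ℂ (C s) * (toF ℂ (pderiv i f) / toF ℂ f) * x := by
  rw [th, theta_apply]
  simp

theorem th_conj (hf : f ≠ 0) (s : ℂ) (i : ι) (x : FF ℂ ι) :
    th f s i ((toF ℂ f)⁻¹ * x) = (toF ℂ f)⁻¹ * th f (s - 1) i x := by
  have hf' := toF_ne_zero hf
  rw [th_apply, th_apply, Derivation.leibniz, Derivation.leibniz_inv, dF_toF]
  simp only [smul_eq_mul, map_sub, toF_sub, map_one, toF_one]
  field_simp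
  ring

theorem th_conj_pow (hf : f ≠ 0) (j : ℕ) : ∀ (s : ℂ) (i : ι) (x : FF ℂ ι),
    th f s i ((toF ℂ f ^ j)⁻¹ * x) = (toF ℂ f ^ j)⁻¹ * th f (s - j) i x := by
  induction j with
  | zero => intro s i x; simp
  | succ j ih =>
      intro s i x
      have h1 : (toF ℂ f ^ (j + 1))⁻¹ = (toF ℂ f ^ j)⁻¹ * (toF ℂ f)⁻¹ := by
        rw [pow_succ, mul_inv]
      rw [h1, mul_assoc, ih, th_conj hf, mul_assoc]
      congr 3
      push_cast
      ring_nf

theorem gn_conj (hf : f ≠ 0) (j : ℕ) (s : ℂ) (u : FF ℂ ι) (m : ℕ) :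
    ∀ x ∈ gn f (s - j) u m, (toF ℂ f ^ j)⁻¹ * x ∈ gn f s ((toF ℂ f ^ j)⁻¹ * u) m := by
  induction m with
  | zero =>
      intro x hx
      refine Submodule.span_induction
        (p := fun y _ => (toF ℂ f ^ j)⁻¹ * y ∈ gn f s ((toF ℂ f ^ j)⁻¹ * u) 0) ?_ ?_ ?_ ?_ hx
      · rintro _ ⟨r, rfl⟩
        refine Submodule.subset_span ⟨r, ?_⟩
        ring
      · simp
      · intro a b _ _ ha hb
        rw [mul_add]
        exact add_mem ha hb
      · intro c a _ ha
        rw [mul_smul_comm]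
        exact Submodule.smul_mem _ _ ha
  | succ m ih =>
      let L : FF ℂ ι →ₗ[ℂ] FF ℂ ι := LinearMap.mulLeft ℂ (toF ℂ f ^ j)⁻¹
      have key : gn f (s - j) u (m + 1) ≤
          (gn f s ((toF ℂ f ^ j)⁻¹ * u) (m + 1)).comap L := by
        apply sup_le
        · intro y hy
          exact Submodule.mem_sup_left (ih y hy)
        · apply iSup_le
          intro i
          rintro _ ⟨y, hy, rfl⟩
          change (toF ℂ f ^ j)⁻¹ * th f (s - j) i y ∈ gn f s ((toF ℂ f ^ j)⁻¹ * u) (m + 1)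
          rw [← th_conj_pow hf]
          exact EB1.theta_mem _ _ _ i (ih y hy)
      exact key

theorem gn_trans (s : ℂ) (u w : FF ℂ ι) (n : ℕ) (hu : u ∈ gn f s w n) (m : ℕ) :
    ∀ x ∈ gn f s u m, x ∈ gn f s w (n + m) := by
  induction m with
  | zero =>
      intro x hx
      refine Submodule.span_induction
        (p := fun y _ => y ∈ gn f s w (n + 0)) ?_ ?_ ?_ ?_ hx
      · rintro _ ⟨r, rfl⟩
        exact EB1.gen_mul _ _ _ r hu
      · exact zero_mem _
      · intro a b _ _ ha hb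
        exact add_mem ha hb
      · intro c a _ ha
        exact Submodule.smul_mem _ _ ha
  | succ m ih =>
      have key : gn f s u (m + 1) ≤ gn f s w (n + (m + 1)) := by
        apply sup_le
        · intro y hy
          exact EB1.gen_mono _ _ _ (by omega) (ih y hy)
        · apply iSup_le
          intro i
          rintro _ ⟨y, hy, rfl⟩
          exact EB1.theta_mem _ _ _ i (ih y hy)
      exact key

variable [Fintype ι] [DecidableEq ι]

theorem gn_im (hf : f ≠ 0) (s : ℂ) (u : FF ℂ ι) (hu : InS ℂ f u) (m : ℕ) :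
    ∀ x ∈ gn f s u m, InS ℂ f x ∧ ∃ (q : MvPolynomial ι ℂ),
      ∃ y ∈ ImT ℂ (fun _ : Unit => f) (fun _ => s) f, x = toF ℂ q * u + y := by
  let S : Submodule ℂ (FF ℂ ι) :=
    { carrier := {x | InS ℂ f x ∧ ∃ (q : MvPolynomial ι ℂ),
        ∃ y ∈ ImT ℂ (fun _ : Unit => f) (fun _ => s) f, x = toF ℂ q * u + y}
      add_mem' := by
        rintro _ _ ⟨h1, q, y, hy, rfl⟩ ⟨h1', q', y', hy', rfl⟩
        refine ⟨h1.add h1', q + q', y + y', ImT.add hy hy', ?_⟩
        rw [toF_add]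
        ring
      zero_mem' := ⟨InS.zero _, 0, 0, ImT.zero _ _ _, by simp⟩
      smul_mem' := by
        rintro c _ ⟨h1, q, y, hy, rfl⟩
        refine ⟨h1.smul c, C c * q, c • y, ImT.smul hy c, ?_⟩
        rw [smul_add, toF_mul, mul_assoc, ← smul_eq_toF_mul] }
  have hdvd : ∀ k : Unit, ∃ n : ℕ, (fun _ : Unit => f) k ∣ f ^ n := fun _ => ⟨1, by simp⟩
  have key : ∀ m, gn f s u m ≤ S := by
    intro m
    induction m with
    | zero =>
        refine Submodule.span_le.mpr ?_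
        rintro _ ⟨q, rfl⟩
        exact ⟨(InS.toF _ _).mul hu, q, 0, ImT.zero _ _ _, by simp⟩
    | succ m ih =>
        apply sup_le ih
        apply iSup_le
        intro i
        rintro _ ⟨y, hy, rfl⟩
        have hy' := ih hy
        refine ⟨InS.theta hf _ hdvd _ i hy'.1, 0, _, ImT.theta hy'.1 i, by simp⟩
  exact fun x hx => key m hx

end gen

section euler

variable {ι : Type} [Fintype ι]

/-- `g` is homogeneous of degree `c` for the weights `1/a_i` -/
def Eul (a : ι → ℕ) (c : ℂ) (g : MvPolynomial ι ℂ) : Prop :=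
  ∑ i, C (1 / (a i : ℂ)) * (X i * pderiv i g) = C c * g

variable {a : ι → ℕ}

theorem Eul.mul {c c' : ℂ} {g g' : MvPolynomial ι ℂ} (h : Eul a c g) (h' : Eul a c' g') :
    Eul a (c + c') (g * g') := by
  unfold Eul at *
  have : ∀ i, C (1 / (a i : ℂ)) * (X i * pderiv i (g * g')) =
      g' * (C (1 / (a i : ℂ)) * (X i * pderiv i g)) +
        g * (C (1 / (a i : ℂ)) * (X i * pderiv i g')) := by
    intro i
    rw [Derivation.leibniz]
    simp only [smul_eq_mul]
    ring
  simp only [this, Finset.sum_add_distrib, ← Finset.mul_sum, h, h', map_add]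
  ring

theorem Eul.one : Eul a 0 (1 : MvPolynomial ι ℂ) := by
  unfold Eul
  simp

theorem Eul.const (c : ℂ) : Eul a 0 (C c : MvPolynomial ι ℂ) := by
  unfold Eul
  simp

theorem Eul.zero (c : ℂ) : Eul a c (0 : MvPolynomial ι ℂ) := by
  unfold Eul
  simp

theorem Eul.add {c : ℂ} {g g' : MvPolynomial ι ℂ} (h : Eul a c g) (h' : Eul a c g') :
    Eul a c (g + g') := by
  unfold Eul at *
  simp only [map_add, mul_add, Finset.sum_add_distrib, h, h']

theorem Eul.sum {α : Type} {c : ℂ} (s : Finset α) (g : α → MvPolynomial ι ℂ)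
    (h : ∀ j ∈ s, Eul a c (g j)) : Eul a c (∑ j ∈ s, g j) := by
  classical
  induction s using Finset.induction_on with
  | empty => rw [Finset.sum_empty]; exact Eul.zero c
  | insert j s hj ih =>
      rw [Finset.sum_insert hj]
      exact (h j (Finset.mem_insert_self _ _)).add
        (ih fun k hk => h k (Finset.mem_insert_of_mem hk))

theorem Eul.pow {c : ℂ} {g : MvPolynomial ι ℂ} (h : Eul a c g) (n : ℕ) :
    Eul a (n * c) (g ^ n) := by
  induction n with
  | zero => simpa using Eul.one (a := a)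
  | succ n ih =>
      rw [pow_succ]
      have := ih.mul h
      have e : ((n + 1 : ℕ) : ℂ) * c = n * c + c := by push_cast; ring
      rwa [e]

theorem Eul.prod {α : Type} (s : Finset α) (c : α → ℂ) (g : α → MvPolynomial ι ℂ)
    (h : ∀ j ∈ s, Eul a (c j) (g j)) : Eul a (∑ j ∈ s, c j) (∏ j ∈ s, g j) := by
  classical
  induction s using Finset.induction_on with
  | empty => simpa using Eul.one (a := a)
  | insert j s hj ih =>
      rw [Finset.prod_insert hj, Finset.sum_insert hj]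
      exact (h j (Finset.mem_insert_self _ _)).mul
        (ih fun k hk => h k (Finset.mem_insert_of_mem hk))

theorem Eul.X [DecidableEq ι] (i : ι) : Eul a (1 / (a i : ℂ)) (MvPolynomial.X i : MvPolynomial ι ℂ) := by
  unfold Eul
  rw [Finset.sum_eq_single i]
  · simp
  · intro j _ hj
    rw [pderiv_X_of_ne hj.symm]
    simp
  · intro h
    exact absurd (Finset.mem_univ i) h

theorem eul_monomial [DecidableEq ι] (e : ι →₀ ℕ) (c : ℂ) :
    Eul a (∑ i, (e i : ℂ) / a i) (monomial e c) := by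
  have h1 : monomial e c = C c * ∏ i, (MvPolynomial.X i : MvPolynomial ι ℂ) ^ e i := by
    rw [monomial_eq, Finsupp.prod_fintype]
    intro i
    simp
  rw [h1]
  have h2 := (Eul.const (a := a) c).mul (Eul.prod (a := a) Finset.univ _ _
    (fun i _ => (Eul.X (a := a) i).pow (e i)))
  have e1 : (0 : ℂ) + ∑ i, (e i : ℂ) * (1 / (a i : ℂ)) = ∑ i, (e i : ℂ) / a i := by
    rw [zero_add]
    refine Finset.sum_congr rfl fun i _ => ?_
    ring
  rwa [e1] at h2

theorem eul_poly {κ : Type} [Fintype κ] [DecidableEq ι] [DecidableEq κ] (D : Data ι κ)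
    (hD : D.Central) (ha : ∀ i, 1 ≤ D.a i) :
    Eul D.a (∑ j, (D.m j : ℂ) + ∑ i, (D.b i : ℂ) / D.a i) D.poly := by
  have hform : ∀ j, Eul D.a 1 (D.form j) := by
    intro j
    unfold Data.form
    rw [hD j, map_zero, zero_add]
    refine Eul.sum _ _ fun i _ => ?_
    have h := (Eul.const (a := D.a) (D.c j i)).mul ((Eul.X (a := D.a) i).pow (D.a i))
    have hai : (D.a i : ℂ) ≠ 0 := by
      have := ha i
      exact_mod_cast (by omega : D.a i ≠ 0)
    have e1 : (0 : ℂ) + (D.a i : ℂ) * (1 / (D.a i : ℂ)) = 1 := by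
      field_simp
      simp
    rwa [e1] at h
  unfold Data.poly
  have h := (Eul.prod (a := D.a) Finset.univ _ _
    (fun i _ => (Eul.X (a := D.a) i).pow (D.b i))).mul
    (Eul.prod (a := D.a) Finset.univ _ _ (fun j _ => (hform j).pow (D.m j)))
  have e1 : ∑ i, (D.b i : ℂ) * (1 / (D.a i : ℂ)) + ∑ j, (D.m j : ℂ) * 1 =
      ∑ j, (D.m j : ℂ) + ∑ i, (D.b i : ℂ) / D.a i := by
    rw [add_comm]
    congr 1
    · exact Finset.sum_congr rfl fun j _ => by ring
    · exact Finset.sum_congr rfl fun i _ => by ring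
  rwa [e1] at h

end euler

/-- positivity of the degree -/
theorem deg_ne_zero {ι κ : Type} [Fintype ι] [Fintype κ] (D : Data ι κ) (ha : ∀ i, 1 ≤ D.a i)
    (hpos : 0 < ∑ j, D.m j + ∑ i, D.b i) (e : ι →₀ ℕ) :
    ∑ i, (e i : ℂ) / D.a i + (∑ j, (D.m j : ℂ) + ∑ i, (D.b i : ℂ) / D.a i) ≠ 0 := by
  have h1 : ∑ i, (e i : ℂ) / D.a i + (∑ j, (D.m j : ℂ) + ∑ i, (D.b i : ℂ) / D.a i) =
      ((∑ i, (e i : ℝ) / D.a i + (∑ j, (D.m j : ℝ) + ∑ i, (D.b i : ℝ) / D.a i) : ℝ) : ℂ) := by
    push_cast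
    rfl
  rw [h1]
  have hge : (0 : ℝ) ≤ ∑ i, (e i : ℝ) / D.a i := Finset.sum_nonneg fun i _ => by positivity
  have hm : (0 : ℝ) ≤ ∑ j, (D.m j : ℝ) := Finset.sum_nonneg fun i _ => by positivity
  have hb : (0 : ℝ) ≤ ∑ i, (D.b i : ℝ) / D.a i := Finset.sum_nonneg fun i _ => by positivity
  have hlt : (0 : ℝ) < ∑ j, (D.m j : ℝ) + ∑ i, (D.b i : ℝ) / D.a i := by
    by_cases hM : 0 < ∑ j, D.m j
    · have : (0 : ℝ) < ∑ j, (D.m j : ℝ) := by exact_mod_cast hM
      linarith
    · have hB : 0 < ∑ i, D.b i := by omega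
      obtain ⟨i, hi⟩ : ∃ i, D.b i ≠ 0 := by
        by_contra hcon
        push Not at hcon
        rw [Finset.sum_eq_zero fun i _ => hcon i] at hB
        exact lt_irrefl _ hB
      have hbi : (0 : ℝ) < (D.b i : ℝ) / D.a i := by
        have h2 : (0 : ℝ) < D.b i := by exact_mod_cast Nat.pos_of_ne_zero hi
        have h3 : (0 : ℝ) < D.a i := by
          have := ha i
          exact_mod_cast (by omega : 0 < D.a i)
        exact div_pos h2 h3
      have := Finset.single_le_sum (f := fun i => (D.b i : ℝ) / D.a i)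
        (fun i _ => by positivity) (Finset.mem_univ i)
      have h4 : (D.b i : ℝ) / D.a i ≤ ∑ i, (D.b i : ℝ) / D.a i := this
      linarith
  have : (0 : ℝ) < ∑ i, (e i : ℝ) / D.a i + (∑ j, (D.m j : ℝ) + ∑ i, (D.b i : ℝ) / D.a i) := by
    linarith
  exact_mod_cast this.ne'

end Pool.Agent.Mono.EB2

namespace Pool.Agent.Mono

open MvPolynomial EB2

theorem stmt_EB2 : Stmt_EB2 := by
  intro ι κ _ _ _ _ D s₀ b hD ha hf hpos hs hb hroot x hx
  set f := D.poly with hfdef
  have hf' := toF_ne_zero hf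
  -- inverse powers of `f` are generated by `f`
  have hone : ∀ j : ℕ, ∃ m, (1 : FF ℂ ι) ∈ gn f (s₀ - j) (toF ℂ f) m := by
    intro j
    obtain ⟨m, hm⟩ := stmt_EB1 ι f b hf hb (s₀ - j)
    refine ⟨m, ?_⟩
    have h1 := Submodule.smul_mem _ (b.eval (s₀ - j))⁻¹ hm
    rw [smul_eq_toF_mul, ← toF_mul, ← map_mul, inv_mul_cancel₀ (hroot j), map_one, toF_one] at h1
    exact h1
  have hinv : ∀ j : ℕ, ∃ m, (toF ℂ f ^ j)⁻¹ ∈ gn f s₀ (toF ℂ f) m := by
    intro j
    induction j with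
    | zero =>
        obtain ⟨m, hm⟩ := hone 0
        refine ⟨m, ?_⟩
        simpa using hm
    | succ j ih =>
        obtain ⟨n, hn⟩ := ih
        obtain ⟨m, hm⟩ := hone (j + 1)
        have h1 := gn_conj hf (j + 1) s₀ (toF ℂ f) m 1 hm
        have h2 : (toF ℂ f ^ (j + 1))⁻¹ * toF ℂ f = (toF ℂ f ^ j)⁻¹ := by
          rw [pow_succ, mul_inv, mul_assoc, inv_mul_cancel₀ hf', mul_one]
        rw [h2, mul_one] at h1
        exact ⟨n + m, gn_trans s₀ _ _ n hn m _ h1⟩
  -- polynomial multiples of `f`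
  have hmon : ∀ (e : ι →₀ ℕ) (c : ℂ),
      toF ℂ (monomial e c * f) ∈ ImT ℂ (fun _ : Unit => f) (fun _ => s₀) f := by
    intro e c
    set d : ℂ := ∑ j, (D.m j : ℂ) + ∑ i, (D.b i : ℂ) / D.a i with hd
    set de : ℂ := ∑ i, (e i : ℂ) / D.a i with hde
    have hne : de + d ≠ 0 := deg_ne_zero D ha hpos e
    have hE : Eul D.a d f := eul_poly D hD ha
    have hEh : Eul D.a (de + d) (monomial e c * f) := (eul_monomial e c).mul hE
    set h := monomial e c * f with hh
    have hsum : ∑ i, th f s₀ i (toF ℂ (C (1 / (D.a i : ℂ)) * (X i * h))) =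
        (de + d) • toF ℂ h := by
      have h1 : ∀ i, th f s₀ i (toF ℂ (C (1 / (D.a i : ℂ)) * (X i * h))) =
          toF ℂ (C (1 / (D.a i : ℂ)) * h) + toF ℂ (C (1 / (D.a i : ℂ)) * (X i * pderiv i h)) +
            toF ℂ (C s₀) * (toF ℂ h / toF ℂ f) *
              toF ℂ (C (1 / (D.a i : ℂ)) * (X i * pderiv i f)) := by
        intro i
        rw [th_apply, dF_toF, Derivation.leibniz, Derivation.leibniz, pderiv_C, pderiv_X_self]
        simp only [smul_eq_mul, mul_one, mul_zero, toF_mul, toF_add, mul_add, add_zero]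
        ring
      simp only [h1, Finset.sum_add_distrib, ← Finset.mul_sum]
      rw [← toF_sum, ← toF_sum, ← toF_sum, hEh, hE, ← Finset.sum_mul, ← map_sum]
      rw [smul_eq_toF_mul]
      have h2 : toF ℂ (C s₀) * (toF ℂ h / toF ℂ f) * toF ℂ (C d * f) =
          toF ℂ (C (s₀ * d)) * toF ℂ h := by
        have e1 : toF ℂ (C d * f) = toF ℂ (C d) * toF ℂ f := toF_mul _ _
        have e2 : toF ℂ (C (s₀ * d) : MvPolynomial ι ℂ) = toF ℂ (C s₀) * toF ℂ (C d) := by
          rw [map_mul, toF_mul]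
        rw [e1, e2]
        generalize toF ℂ h = H
        field_simp
      rw [h2, hs]
      simp only [toF_mul, map_neg, toF_neg]
      ring
    have h3 : toF ℂ h = (de + d)⁻¹ • ∑ i, th f s₀ i (toF ℂ (C (1 / (D.a i : ℂ)) * (X i * h))) := by
      rw [hsum, smul_smul, inv_mul_cancel₀ hne, one_smul]
    rw [h3]
    refine ImT.smul ⟨fun i => toF ℂ (C (1 / (D.a i : ℂ)) * (X i * h)), fun i => InS.toF _ _, rfl⟩ _
  have hpoly : ∀ q : MvPolynomial ι ℂ,
      toF ℂ (q * f) ∈ ImT ℂ (fun _ : Unit => f) (fun _ => s₀) f := by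
    intro q
    induction q using MvPolynomial.induction_on' with
    | monomial e c => exact hmon e c
    | add p q hp hq =>
        rw [add_mul, toF_add]
        exact ImT.add hp hq
  obtain ⟨j, q, hq⟩ := hx
  obtain ⟨m, hm⟩ := hinv j
  have hx' : x = toF ℂ q * (toF ℂ f ^ j)⁻¹ := by
    rw [← hq, mul_assoc, mul_inv_cancel₀ (pow_ne_zero _ hf'), mul_one]
  have hxm : x ∈ gn f s₀ (toF ℂ f) m := by
    rw [hx']
    exact EB1.gen_mul _ _ _ q hm
  obtain ⟨_, q', y, hy, hxy⟩ := gn_im hf s₀ (toF ℂ f) (InS.toF _ _) m x hxm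
  rw [hxy, ← toF_mul]
  exact ImT.add (hpoly q') hy

end Pool.Agent.Mono
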