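import Pool.Agent.Work.Monodromy.SApi

/-!
# Poles along the other non-free coordinates
-/

namespace Pool.Agent.Mono

open MvPolynomial

section

variable {ι κ : Type} [Fintype ι] [Fintype κ] [DecidableEq ι] [DecidableEq κ]

/-- one more coordinate -/
theorem eb4_step (l : κ → MvPolynomial ι ℂ) (lam : κ → ℂ) (Q : MvPolynomial ι ℂ) (hQ : Q ≠ 0)
    (i : ι) (t : ℂ) (ht : ∀ k : ℕ, t - k ≠ 0)
    (k₀ : κ) (hk₀ : l k₀ = X i) (hlam : lam k₀ = t)
    (hl : ∀ k, k ≠ k₀ → (∃ n : ℕ, l k ∣ Q ^ n) ∨ pderiv i (l k) = 0)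
    (H : ∀ x, InS ℂ Q x → x ∈ ImT ℂ l lam Q) :
    ∀ x, InS ℂ (Q * X i) x → x ∈ ImT ℂ l lam (Q * X i) := by
  have hX : toF ℂ (X i : MvPolynomial ι ℂ) ≠ 0 := toF_ne_zero (X_ne_zero i)
  have hQX : Q * X i ≠ 0 := mul_ne_zero hQ (X_ne_zero i)
  have hXi : InS ℂ (Q * X i) (toF ℂ (X i : MvPolynomial ι ℂ))⁻¹ :=
    InS.inv_of_dvd hQX (n := 1) (by rw [pow_one]; exact dvd_mul_left _ _)
  have mono : ∀ x, InS ℂ Q x → InS ℂ (Q * X i) x := fun x hx =>
    hx.mono (n := 1) (by rw [pow_one]; exact dvd_mul_right _ _)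
  -- the main induction
  have key : ∀ (k : ℕ) (z : FF ℂ ι), InS ℂ Q z →
      z * (toF ℂ (X i : MvPolynomial ι ℂ))⁻¹ ^ k ∈ ImT ℂ l lam (Q * X i) := by
    intro k
    induction k with
    | zero =>
      intro z hz
      rw [pow_zero, mul_one]
      exact ImT.mono (n := 1) (by rw [pow_one]; exact dvd_mul_right _ _) (H z hz)
    | succ k ih =>
      intro z hz
      set Xi := toF ℂ (X i : MvPolynomial ι ℂ) with hXdef
      -- the regular part
      set z' := dF ℂ i z + (∑ j ∈ Finset.univ.erase k₀,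
        toF ℂ (C (lam j)) * (toF ℂ (pderiv i (l j)) / toF ℂ (l j))) * z with hz'
      have hz'S : InS ℂ Q z' := by
        refine (InS.dF hQ i hz).add (InS.mul (InS.sum _ _ fun j hj => ?_) hz)
        rcases hl j (Finset.ne_of_mem_erase hj) with ⟨n, hn⟩ | h0
        · rw [div_eq_mul_inv]
          exact (InS.toF _ _).mul ((InS.toF _ _).mul (InS.inv_of_dvd hQ hn))
        · rw [h0, toF_zero, zero_div, mul_zero]
          exact InS.zero Q
      have hdX : dF ℂ i (Xi⁻¹ ^ k) = -((k : FF ℂ ι) * Xi⁻¹ ^ (k + 1)) := by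
        have h1 : dF ℂ i Xi = 1 := by
          rw [hXdef, dF_toF, pderiv_X_self, toF_one]
        have h2 : dF ℂ i Xi⁻¹ = -Xi⁻¹ ^ 2 := by
          rw [Derivation.leibniz_inv, h1, smul_eq_mul, mul_one]
        rw [Derivation.leibniz_pow, h2]
        rcases k with _ | k
        · simp
        · rw [Nat.add_sub_cancel, nsmul_eq_mul, smul_eq_mul]
          ring
      have e : theta ℂ l lam i (z * Xi⁻¹ ^ k) =
          (t - k) • (z * Xi⁻¹ ^ (k + 1)) + z' * Xi⁻¹ ^ k := by
        rw [theta_apply, Derivation.leibniz, hdX, ← Finset.add_sum_erase _ _ (Finset.mem_univ k₀),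
          hk₀, hlam, pderiv_X_self, toF_one, hz', smul_eq_mul, smul_eq_mul, smul_eq_toF_mul,
          ← hXdef, C_sub, toF_sub, toF_C_natCast, one_div]
        ring
      have e2 : z * Xi⁻¹ ^ (k + 1) =
          (t - k)⁻¹ • (theta ℂ l lam i (z * Xi⁻¹ ^ k) - z' * Xi⁻¹ ^ k) := by
        rw [e, add_sub_cancel_right, smul_smul, inv_mul_cancel₀ (ht k), one_smul]
      rw [e2]
      refine ImT.smul (ImT.sub (ImT.theta ?_ i) (ih z' hz'S)) _
      exact (mono z hz).mul (hXi.pow k)
  intro x hx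
  obtain ⟨k, q, hq⟩ := hx
  have hx : x = toF ℂ q * (toF ℂ Q)⁻¹ ^ k * (toF ℂ (X i : MvPolynomial ι ℂ))⁻¹ ^ k := by
    have hQ' := toF_ne_zero hQ
    rw [← hq, toF_mul, inv_pow, inv_pow]
    field_simp
    rw [mul_pow]
    ring
  rw [hx]
  exact key k _ ((InS.toF _ _).mul (InS.pow (InS.inv_of_dvd hQ (n := 1) (by rw [pow_one])) k))

theorem linF_ne_zero (v : ι → ℂ) (h : v ≠ 0) : linF ℂ v ≠ 0 := by
  intro h0
  apply h
  funext i
  have := congrArg (coeff (Finsupp.single i 1)) h0
  rw [linF, coeff_sum, Finset.sum_eq_single i] at this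
  · simpa [coeff_C_mul] using this
  · intro k _ hk
    rw [coeff_C_mul, coeff_X, if_neg, mul_zero]
    intro h
    exact hk (Finsupp.single_left_injective one_ne_zero h)
  · intro h
    exact absurd (Finset.mem_univ i) h

theorem stmt_EB4 : Stmt_EB4 := by
  intro ι κ _ _ _ _ D s₀ ha hc H
  simp only at H ⊢
  set L : MvPolynomial ι ℂ := ∏ j, linF ℂ (D.c j) with hL
  have hL0 : L ≠ 0 := Finset.prod_ne_zero_iff.2 fun j _ => linF_ne_zero _ (hc j)
  set S0 := Finset.univ.filter (fun i => 0 < D.b i) with hS0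
  have main : ∀ I : Finset ι, (∀ i ∈ I, 1 < D.a i ∧ D.b i = 0) →
      ∀ x, InS ℂ (L * ∏ i ∈ S0 ∪ I, X i) x → x ∈ ImT ℂ (fam D) (wts D s₀)
        (L * ∏ i ∈ S0 ∪ I, X i) := by
    intro I
    induction I using Finset.induction_on with
    | empty =>
      intro _ x hx
      rw [Finset.union_empty] at hx ⊢
      exact H x hx
    | insert i I hi ih =>
      intro hI
      have hi0 := hI i (Finset.mem_insert_self _ _)
      have hnot : i ∉ S0 ∪ I := by
        rw [Finset.mem_union, not_or]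
        refine ⟨fun h => ?_, hi⟩
        have := (Finset.mem_filter.1 h).2
        omega
      have e : L * ∏ i ∈ S0 ∪ insert i I, X i =
          (L * ∏ i ∈ S0 ∪ I, X i : MvPolynomial ι ℂ) * X i := by
        rw [Finset.union_insert, Finset.prod_insert hnot]
        ring
      rw [e]
      refine eb4_step (fam D) (wts D s₀) _ ?_ i ((1 + s₀ * D.b i) / D.a i - 1) ?_ (Sum.inr i) rfl
        rfl ?_ (ih fun j hj => hI j (Finset.mem_insert_of_mem hj))
      · exact mul_ne_zero hL0 (Finset.prod_ne_zero_iff.2 fun j _ => X_ne_zero j)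
      · intro k hk
        rw [hi0.2, Nat.cast_zero, mul_zero, add_zero] at hk
        have hai : (D.a i : ℂ) ≠ 0 := by
          have := ha i
          exact_mod_cast (by omega : D.a i ≠ 0)
        have h1 : (1 : ℂ) = (D.a i : ℂ) * (k + 1) := by
          field_simp at hk
          linear_combination hk
        have h2 : (1 : ℕ) = D.a i * (k + 1) := by exact_mod_cast h1
        have := hi0.1
        nlinarith [Nat.zero_le k]
      · rintro (j | j) hj
        · left
          refine ⟨1, ?_⟩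
          rw [pow_one]
          exact Dvd.dvd.mul_right (Finset.dvd_prod_of_mem (fun j => linF ℂ (D.c j))
            (Finset.mem_univ j)) _
        · right
          have : j ≠ i := fun h => hj (by rw [h])
          exact pderiv_X_of_ne this
  have hset : S0 ∪ Finset.univ.filter (fun i => 1 < D.a i ∧ D.b i = 0) =
      Finset.univ.filter (fun i => 1 < D.a i ∨ 0 < D.b i) := by
    ext i
    simp only [hS0, Finset.mem_union, Finset.mem_filter, Finset.mem_univ, true_and]
    omega
  have := main (Finset.univ.filter (fun i => 1 < D.a i ∧ D.b i = 0)) fun i hi =>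
    (Finset.mem_filter.1 hi).2
  rw [hset] at this
  exact this

end

end Pool.Agent.Mono
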