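import Pool.Agent.Work.Monodromy.SApi
import Pool.Agent.Work.Monodromy.EB4

/-!
# From `x` to `y = x^a`
-/

namespace Pool.Agent.Mono

open MvPolynomial

section Rho

set_option linter.unusedSectionVars false

theorem mono_congr {ι : Type} {s t : ι →₀ ℕ} {c d : ℂ} (h : s = t) (h' : c = d) :
    monomial s c = monomial t d := by rw [h, h']

variable {ι : Type} [Fintype ι] [DecidableEq ι] (a : ι → ℕ)

/-- the substitution `y_i = x_i^{a_i}` -/
noncomputable def phi : MvPolynomial ι ℂ →ₐ[ℂ] MvPolynomial ι ℂ := aeval fun i => X i ^ a i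

noncomputable def amul (n : ι →₀ ℕ) : ι →₀ ℕ := Finsupp.equivFunOnFinite.symm fun k => a k * n k
noncomputable def adiv (n : ι →₀ ℕ) : ι →₀ ℕ := Finsupp.equivFunOnFinite.symm fun k => n k / a k

@[simp] theorem amul_apply (n : ι →₀ ℕ) (k : ι) : amul a n k = a k * n k := rfl
@[simp] theorem adiv_apply (n : ι →₀ ℕ) (k : ι) : adiv a n k = n k / a k := rfl

theorem phi_X (i : ι) : phi a (X i) = X i ^ a i := aeval_X _ _

theorem phi_C (c : ℂ) : phi a (C c) = C c := aeval_C _ _

theorem phi_monomial (m : ι →₀ ℕ) (c : ℂ) : phi a (monomial m c) = monomial (amul a m) c := by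
  rw [phi, aeval_monomial, monomial_eq, algebraMap_eq, Finsupp.prod_fintype _ _ (by simp),
    Finsupp.prod_fintype _ _ (by simp)]
  congr 1
  refine Finset.prod_congr rfl fun i _ => ?_
  rw [amul_apply, pow_mul]

open Classical in
/-- the component of degree `0` modulo `a` -/
noncomputable def rho : MvPolynomial ι ℂ →ₗ[ℂ] MvPolynomial ι ℂ :=
  (basisMonomials ι ℂ).constr ℂ fun n =>
    if ∀ k, a k ∣ n k then monomial (adiv a n) 1 else 0

open Classical in
theorem rho_monomial (n : ι →₀ ℕ) (c : ℂ) :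
    rho a (monomial n c) = if ∀ k, a k ∣ n k then monomial (adiv a n) c else 0 := by
  have h : monomial n c = c • (basisMonomials ι ℂ) n := by
    rw [coe_basisMonomials, smul_monomial, smul_eq_mul, mul_one]
  rw [h, map_smul, rho, Module.Basis.constr_basis]
  split_ifs
  · rw [smul_monomial, smul_eq_mul, mul_one]
  · rw [smul_zero]

theorem rho_phi_mul (ha : ∀ i, 1 ≤ a i) (q p : MvPolynomial ι ℂ) :
    rho a (phi a q * p) = q * rho a p := by
  classical
  induction q using MvPolynomial.induction_on' with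
  | add q₁ q₂ h₁ h₂ => rw [map_add, add_mul, map_add, h₁, h₂, add_mul]
  | monomial m c =>
    induction p using MvPolynomial.induction_on' with
    | add p₁ p₂ h₁ h₂ => rw [mul_add, map_add, h₁, h₂, map_add, mul_add]
    | monomial n d =>
      rw [phi_monomial, monomial_mul, rho_monomial, rho_monomial]
      have e : (∀ k, a k ∣ (amul a m + n) k) ↔ ∀ k, a k ∣ n k := by
        refine forall_congr' fun k => ?_
        rw [Finsupp.add_apply, amul_apply]
        exact (Nat.dvd_add_right (dvd_mul_right _ _))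
      by_cases h : ∀ k, a k ∣ n k
      · rw [if_pos (e.2 h), if_pos h, monomial_mul]
        congr 2
        ext k
        simp only [adiv_apply, Finsupp.add_apply, amul_apply]
        rw [Nat.mul_add_div (by have := ha k; omega)]
      · rw [if_neg (fun h' => h (e.1 h')), if_neg h, mul_zero]

theorem rho_one : rho a 1 = 1 := by
  classical
  have h : (1 : MvPolynomial ι ℂ) = monomial 0 1 := rfl
  rw [h, rho_monomial, if_pos (by simp)]
  refine mono_congr ?_ rfl
  ext k
  simp

theorem rho_phi (ha : ∀ i, 1 ≤ a i) (q : MvPolynomial ι ℂ) : rho a (phi a q) = q := by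
  have := rho_phi_mul a ha q 1
  rwa [mul_one, rho_one, mul_one] at this

theorem phi_injective (ha : ∀ i, 1 ≤ a i) : Function.Injective (phi a) :=
  Function.LeftInverse.injective (rho_phi a ha)

theorem X_mul_pderiv (i : ι) (n : ι →₀ ℕ) (c : ℂ) :
    X i * pderiv i (monomial n c) = monomial n (c * n i) := by
  rw [pderiv_monomial]
  rcases Nat.eq_zero_or_pos (n i) with h | h
  · rw [h]; simp
  · rw [X, monomial_mul, one_mul]
    refine mono_congr ?_ rfl
    ext k
    by_cases hk : k = i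
    · subst hk
      simp
      omega
    · simp [Ne.symm hk]

/-- the component of `∂_i p` -/
theorem rho_pderiv (ha : ∀ i, 1 ≤ a i) (i : ι) (p : MvPolynomial ι ℂ) :
    X i * rho a (pderiv i p) =
      C (a i : ℂ) * (X i * pderiv i (rho a (X i ^ (a i - 1) * p))) -
        C ((a i : ℂ) - 1) * rho a (X i ^ (a i - 1) * p) := by
  classical
  induction p using MvPolynomial.induction_on' with
  | add p₁ p₂ h₁ h₂ =>
    simp only [map_add, mul_add, h₁, h₂]
    ring
  | monomial n c =>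
    have hai := ha i
    have e1 : X i ^ (a i - 1) * monomial n c = monomial (n + Finsupp.single i (a i - 1)) c := by
      rw [X_pow_eq_monomial, monomial_mul, one_mul, add_comm]
    rw [e1, rho_monomial]
    by_cases h : ∀ k, a k ∣ (n + Finsupp.single i (a i - 1)) k
    · rw [if_pos h, X_mul_pderiv, pderiv_monomial]
      have hi := h i
      rw [Finsupp.add_apply, Finsupp.single_eq_same] at hi
      have e2 : (a i : ℂ) * ((adiv a (n + Finsupp.single i (a i - 1)) i : ℕ) : ℂ) =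
          n i + a i - 1 := by
        rw [adiv_apply, Finsupp.add_apply, Finsupp.single_eq_same]
        have := Nat.mul_div_cancel' hi
        have h3 : ((a i * ((n i + (a i - 1)) / a i) : ℕ) : ℂ) = ((n i + (a i - 1) : ℕ) : ℂ) := by
          rw [this]
        push_cast [Nat.cast_sub hai] at h3
        rw [h3]
        ring
      have e3 : C (a i : ℂ) * monomial (adiv a (n + Finsupp.single i (a i - 1)))
          (c * ((adiv a (n + Finsupp.single i (a i - 1)) i : ℕ) : ℂ)) -
          C ((a i : ℂ) - 1) * monomial (adiv a (n + Finsupp.single i (a i - 1))) c =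
          monomial (adiv a (n + Finsupp.single i (a i - 1))) (c * (n i : ℂ)) := by
        rw [C_mul_monomial, C_mul_monomial, ← map_sub]
        congr 1
        linear_combination c * e2
      rw [e3]
      rcases Nat.eq_zero_or_pos (n i) with hn | hn
      · rw [hn]; simp
      · have hdiv : ∀ k, a k ∣ (n - Finsupp.single i 1 : ι →₀ ℕ) k := by
          intro k
          by_cases hk : k = i
          · subst hk
            rw [Finsupp.tsub_apply, Finsupp.single_eq_same]
            have h5 : n k + (a k - 1) = (n k - 1) + a k := by omega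
            rw [h5] at hi
            exact (Nat.dvd_add_left (dvd_refl _)).1 hi
          · have h5 := h k
            rw [Finsupp.add_apply, Finsupp.single_eq_of_ne hk, add_zero] at h5
            rw [Finsupp.tsub_apply, Finsupp.single_eq_of_ne hk, Nat.sub_zero]
            exact h5
        rw [rho_monomial, if_pos hdiv, X, monomial_mul, one_mul]
        refine mono_congr ?_ rfl
        ext k
        by_cases hk : k = i
        · subst hk
          simp only [Finsupp.add_apply, Finsupp.single_eq_same, adiv_apply, Finsupp.tsub_apply]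
          have h5 : n k + (a k - 1) = (n k - 1) + a k := by omega
          rw [h5, Nat.add_div_right _ (by omega)]
          omega
        · simp [Ne.symm hk]
    · rw [if_neg h]
      simp only [map_zero, mul_zero, sub_zero]
      rw [pderiv_monomial]
      rcases Nat.eq_zero_or_pos (n i) with hn | hn
      · rw [hn]; simp
      · rw [rho_monomial, if_neg, mul_zero]
        intro hdiv
        apply h
        intro k
        have h5 := hdiv k
        by_cases hk : k = i
        · subst hk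
          rw [Finsupp.tsub_apply, Finsupp.single_eq_same] at h5
          rw [Finsupp.add_apply, Finsupp.single_eq_same]
          have h6 : n k + (a k - 1) = (n k - 1) + a k := by omega
          rw [h6]
          exact Dvd.dvd.add h5 (dvd_refl _)
        · rw [Finsupp.tsub_apply, Finsupp.single_eq_of_ne hk, Nat.sub_zero] at h5
          rw [Finsupp.add_apply, Finsupp.single_eq_of_ne hk, add_zero]
          exact h5

/-- the chain rule for `φ` -/
theorem pderiv_phi (i : ι) (q : MvPolynomial ι ℂ) :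
    pderiv i (phi a q) = C (a i : ℂ) * X i ^ (a i - 1) * phi a (pderiv i q) := by
  induction q using MvPolynomial.induction_on with
  | C c => rw [phi_C, pderiv_C, map_zero, mul_zero]
  | add p q hp hq => rw [map_add, map_add, hp, hq, map_add, map_add, mul_add]
  | mul_X p k hp =>
    rw [map_mul, pderiv_mul, hp, pderiv_mul, map_add, map_mul, map_mul, phi_X]
    by_cases hk : k = i
    · subst hk
      rw [pderiv_pow, pderiv_X_self, map_one, map_natCast]
      ring
    · rw [pderiv_pow, pderiv_X_of_ne hk]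
      simp
      ring

end Rho

section RhoK

set_option linter.unusedSectionVars false

variable {ι : Type} [Fintype ι] [DecidableEq ι] {a : ι → ℕ}

/-- the substitution on rational functions -/
noncomputable def phiK (ha : ∀ i, 1 ≤ a i) : FF ℂ ι →+* FF ℂ ι :=
  IsFractionRing.lift (A := MvPolynomial ι ℂ) (K := FF ℂ ι) (L := FF ℂ ι)
    (g := (algebraMap (MvPolynomial ι ℂ) (FF ℂ ι)).comp (phi a : MvPolynomial ι ℂ →+* _))
    ((IsFractionRing.injective (MvPolynomial ι ℂ) (FF ℂ ι)).comp (phi_injective a ha))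

theorem phiK_toF (ha : ∀ i, 1 ≤ a i) (q : MvPolynomial ι ℂ) :
    phiK ha (toF ℂ q) = toF ℂ (phi a q) :=
  IsFractionRing.lift_algebraMap _ q

theorem phi_ne_zero (ha : ∀ i, 1 ≤ a i) {q : MvPolynomial ι ℂ} (hq : q ≠ 0) : phi a q ≠ 0 :=
  fun h => hq (phi_injective a ha (h.trans (map_zero _).symm))

/-- `y` is the component of degree `0` of `x` -/
def RhoRel (a : ι → ℕ) (x y : FF ℂ ι) : Prop :=
  ∃ p W : MvPolynomial ι ℂ, W ≠ 0 ∧ x * toF ℂ (phi a W) = toF ℂ p ∧ y * toF ℂ W = toF ℂ (rho a p)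

theorem RhoRel.unique (ha : ∀ i, 1 ≤ a i) {x y y' : FF ℂ ι} (h : RhoRel a x y)
    (h' : RhoRel a x y') : y = y' := by
  obtain ⟨p, W, hW, h1, h2⟩ := h
  obtain ⟨p', W', hW', h1', h2'⟩ := h'
  have e : phi a W' * p = phi a W * p' := by
    apply toF_injective
    rw [toF_mul, toF_mul, ← h1, ← h1']
    ring
  have e2 := congrArg (rho a) e
  rw [rho_phi_mul a ha, rho_phi_mul a ha] at e2
  have e3 := congrArg (toF ℂ) e2
  rw [toF_mul, toF_mul, ← h2, ← h2'] at e3
  have n1 := toF_ne_zero hW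
  have n2 := toF_ne_zero hW'
  apply mul_right_cancel₀ (mul_ne_zero n1 n2)
  linear_combination e3

theorem RhoRel.add (ha : ∀ i, 1 ≤ a i) {x y x' y' : FF ℂ ι} (h : RhoRel a x y)
    (h' : RhoRel a x' y') : RhoRel a (x + x') (y + y') := by
  obtain ⟨p, W, hW, h1, h2⟩ := h
  obtain ⟨p', W', hW', h1', h2'⟩ := h'
  refine ⟨phi a W' * p + phi a W * p', W * W', mul_ne_zero hW hW', ?_, ?_⟩
  · rw [map_mul, toF_mul, toF_add, toF_mul, toF_mul, ← h1, ← h1']
    ring
  · rw [map_add, rho_phi_mul a ha, rho_phi_mul a ha, toF_mul, toF_add, toF_mul, toF_mul, ← h2,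
      ← h2']
    ring

theorem RhoRel.toF (p : MvPolynomial ι ℂ) : RhoRel a (toF ℂ p) (toF ℂ (rho a p)) :=
  ⟨p, 1, one_ne_zero, by rw [map_one, toF_one, mul_one], by rw [toF_one, mul_one]⟩

theorem RhoRel.mul (ha : ∀ i, 1 ≤ a i) {x y : FF ℂ ι} (h : RhoRel a x y) (v : FF ℂ ι) :
    RhoRel a (phiK ha v * x) (v * y) := by
  obtain ⟨p, W, hW, h1, h2⟩ := h
  obtain ⟨u, w, hw, rfl⟩ := IsFractionRing.div_surjective (A := MvPolynomial ι ℂ) v
  have hw0 : w ≠ 0 := nonZeroDivisors.ne_zero hw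
  have n1 : Mono.toF ℂ w ≠ 0 := toF_ne_zero hw0
  have n2 : Mono.toF ℂ (phi a w) ≠ 0 := toF_ne_zero (phi_ne_zero ha hw0)
  refine ⟨phi a u * p, w * W, mul_ne_zero hw0 hW, ?_, ?_⟩
  · rw [map_div₀]
    change phiK ha (Mono.toF ℂ u) / phiK ha (Mono.toF ℂ w) * x * _ = _
    rw [phiK_toF, phiK_toF, map_mul, toF_mul, toF_mul, ← h1]
    field_simp
  · change Mono.toF ℂ u / Mono.toF ℂ w * y * _ = _
    rw [rho_phi_mul a ha, toF_mul, toF_mul, ← h2]
    field_simp

theorem RhoRel.phiK (ha : ∀ i, 1 ≤ a i) (v : FF ℂ ι) : RhoRel a (Mono.phiK ha v) v := by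
  have := (RhoRel.toF (a := a) 1).mul ha v
  rwa [rho_one, toF_one, mul_one, mul_one] at this

theorem RhoRel.zero : RhoRel a 0 0 := by
  have := RhoRel.toF (a := a) 0
  rwa [map_zero, toF_zero] at this

theorem RhoRel.sum (ha : ∀ i, 1 ≤ a i) {α : Type} (s : Finset α) (f g : α → FF ℂ ι)
    (h : ∀ i ∈ s, RhoRel a (f i) (g i)) : RhoRel a (∑ i ∈ s, f i) (∑ i ∈ s, g i) := by
  classical
  induction s using Finset.induction_on with
  | empty => rw [Finset.sum_empty, Finset.sum_empty]; exact RhoRel.zero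
  | insert i s hi ih =>
    rw [Finset.sum_insert hi, Finset.sum_insert hi]
    exact (h i (Finset.mem_insert_self _ _)).add ha (ih fun j hj => h j (Finset.mem_insert_of_mem hj))

/-- derivative of the substitution -/
theorem dF_phiK (ha : ∀ i, 1 ≤ a i) (i : ι) (v : FF ℂ ι) :
    dF ℂ i (phiK ha v) = (a i : FF ℂ ι) * toF ℂ (X i) ^ (a i - 1) * phiK ha (dF ℂ i v) := by
  obtain ⟨u, w, hw, rfl⟩ := IsFractionRing.div_surjective (A := MvPolynomial ι ℂ) v
  have hw0 : w ≠ 0 := nonZeroDivisors.ne_zero hw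
  have n1 : toF ℂ w ≠ 0 := toF_ne_zero hw0
  have n2 : toF ℂ (phi a w) ≠ 0 := toF_ne_zero (phi_ne_zero ha hw0)
  have e1 : ∀ q : MvPolynomial ι ℂ, dF ℂ i (toF ℂ (phi a q)) =
      (a i : FF ℂ ι) * toF ℂ (X i) ^ (a i - 1) * toF ℂ (phi a (pderiv i q)) := by
    intro q
    rw [dF_toF, pderiv_phi, toF_mul, toF_mul, toF_C_natCast, toF_pow]
  rw [map_div₀]
  change dF ℂ i (phiK ha (toF ℂ u) / phiK ha (toF ℂ w)) =
    _ * phiK ha (dF ℂ i (toF ℂ u / toF ℂ w))
  rw [phiK_toF, phiK_toF, Derivation.leibniz_div, Derivation.leibniz_div, e1, e1, dF_toF, dF_toF]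
  simp only [smul_eq_mul, map_mul, map_sub, map_inv₀, map_pow, phiK_toF]
  ring

/-- logarithmic derivatives -/
theorem ld_mul (d : Derivation ℂ (FF ℂ ι) (FF ℂ ι)) {u v : FF ℂ ι} (hu : u ≠ 0) (hv : v ≠ 0) :
    d (u * v) / (u * v) = d u / u + d v / v := by
  rw [Derivation.leibniz, smul_eq_mul, smul_eq_mul]
  field_simp
  ring

theorem ld_pow (d : Derivation ℂ (FF ℂ ι) (FF ℂ ι)) {u : FF ℂ ι} (hu : u ≠ 0) (n : ℕ) :
    d (u ^ n) / u ^ n = n * (d u / u) := by
  induction n with
  | zero => simp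
  | succ n ih =>
    rw [pow_succ, ld_mul d (pow_ne_zero _ hu) hu, ih]
    push_cast
    ring

theorem ld_prod (d : Derivation ℂ (FF ℂ ι) (FF ℂ ι)) {α : Type} (s : Finset α)
    (f : α → FF ℂ ι) (h : ∀ i ∈ s, f i ≠ 0) :
    d (∏ i ∈ s, f i) / ∏ i ∈ s, f i = ∑ i ∈ s, d (f i) / f i := by
  classical
  induction s using Finset.induction_on with
  | empty => simp
  | insert i s hi ih =>
    rw [Finset.prod_insert hi, Finset.sum_insert hi,
      ld_mul d (h i (Finset.mem_insert_self _ _))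
        (Finset.prod_ne_zero_iff.2 fun j hj => h j (Finset.mem_insert_of_mem hj)),
      ih fun j hj => h j (Finset.mem_insert_of_mem hj)]

end RhoK

section Main

set_option linter.unusedSectionVars false

variable {ι κ : Type} [Fintype ι] [Fintype κ] [DecidableEq ι] [DecidableEq κ]

theorem form_eq_phi (D : Data ι κ) (hc : D.Central) (j : κ) :
    D.form j = phi D.a (linF ℂ (D.c j)) := by
  rw [Data.form, hc j, C_0, zero_add, linF, map_sum]
  refine Finset.sum_congr rfl fun i _ => ?_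
  rw [map_mul, phi_C, phi_X]
  rfl

/-- the logarithmic derivative of `f` -/
theorem ld_poly (D : Data ι κ) (hc : D.Central) (ha : ∀ i, 1 ≤ D.a i) (hl : ∀ j, D.c j ≠ 0)
    (i : ι) :
    toF ℂ (pderiv i D.poly) / toF ℂ D.poly = toF ℂ (X i) ^ (D.a i - 1) *
      phiK ha ((D.b i : FF ℂ ι) / toF ℂ (X i) + (D.a i : FF ℂ ι) *
        ∑ j, (D.m j : FF ℂ ι) * (dF ℂ i (toF ℂ (linF ℂ (D.c j))) / toF ℂ (linF ℂ (D.c j)))) := by
  have hX : ∀ k : ι, toF ℂ (X k : MvPolynomial ι ℂ) ≠ 0 := fun k => toF_ne_zero (X_ne_zero k)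
  have hF : ∀ j, toF ℂ (D.form j) ≠ 0 := fun j => by
    rw [form_eq_phi D hc]
    exact toF_ne_zero (phi_ne_zero ha (linF_ne_zero _ (hl j)))
  rw [← dF_toF, Data.poly, toF_mul, toF_prod, toF_prod,
    ld_mul _ (Finset.prod_ne_zero_iff.2 fun k _ => by rw [toF_pow]; exact pow_ne_zero _ (hX k))
      (Finset.prod_ne_zero_iff.2 fun k _ => by rw [toF_pow]; exact pow_ne_zero _ (hF k)),
    ld_prod _ _ _ (fun k _ => by rw [toF_pow]; exact pow_ne_zero _ (hX k)),
    ld_prod _ _ _ (fun k _ => by rw [toF_pow]; exact pow_ne_zero _ (hF k))]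
  have e1 : ∑ k, dF ℂ i (toF ℂ (X k ^ D.b k : MvPolynomial ι ℂ)) / toF ℂ (X k ^ D.b k) =
      (D.b i : FF ℂ ι) / toF ℂ (X i) := by
    rw [Finset.sum_eq_single i]
    · rw [toF_pow, ld_pow _ (hX i), dF_toF, pderiv_X_self, toF_one]
      ring
    · intro k _ hk
      rw [toF_pow, ld_pow _ (hX k), dF_toF, pderiv_X_of_ne hk, toF_zero]
      simp
    · intro h
      exact absurd (Finset.mem_univ i) h
  have e2 : ∀ j, dF ℂ i (toF ℂ (D.form j ^ D.m j)) / toF ℂ (D.form j ^ D.m j) =
      (D.m j : FF ℂ ι) * ((D.a i : FF ℂ ι) * toF ℂ (X i) ^ (D.a i - 1) *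
        phiK ha (dF ℂ i (toF ℂ (linF ℂ (D.c j))) / toF ℂ (linF ℂ (D.c j)))) := by
    intro j
    rw [toF_pow, ld_pow _ (hF j), form_eq_phi D hc, ← phiK_toF ha, dF_phiK, map_div₀]
    ring
  have e3 : toF ℂ (X i : MvPolynomial ι ℂ) ^ (D.a i - 1) * (toF ℂ (X i) ^ D.a i)⁻¹ =
      (toF ℂ (X i))⁻¹ := by
    have h1 : toF ℂ (X i : MvPolynomial ι ℂ) ^ D.a i =
        toF ℂ (X i) ^ (D.a i - 1) * toF ℂ (X i) := by
      rw [← pow_succ, Nat.sub_add_cancel (ha i)]
    have := hX i
    rw [h1]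
    field_simp
  rw [e1, Finset.sum_congr rfl fun j _ => e2 j]
  simp only [map_add, map_mul, map_sum, map_div₀, map_natCast, phiK_toF, phi_X, toF_pow]
  rw [mul_add, div_eq_mul_inv (D.b i : FF ℂ ι) (toF ℂ (X i) ^ D.a i),
    mul_left_comm (toF ℂ (X i : MvPolynomial ι ℂ) ^ (D.a i - 1)), e3, Finset.mul_sum,
    Finset.mul_sum, div_eq_mul_inv]
  congr 1
  refine Finset.sum_congr rfl fun j _ => ?_
  ring

/-- the component of `θ_i^x g` -/
theorem rhoRel_theta (D : Data ι κ) (s₀ : ℂ) (hc : D.Central) (ha : ∀ i, 1 ≤ D.a i)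
    (hl : ∀ j, D.c j ≠ 0) (i : ι) (g : FF ℂ ι) (p W : MvPolynomial ι ℂ) (hW : W ≠ 0)
    (hg : g * toF ℂ (phi D.a W) = toF ℂ p) :
    RhoRel D.a (theta ℂ (fun _ : Unit => D.poly) (fun _ => s₀) i g)
      ((D.a i : ℕ) • theta ℂ (fam D) (wts D s₀) i
        ((toF ℂ W)⁻¹ * toF ℂ (rho D.a (X i ^ (D.a i - 1) * p)))) := by
  have hX : ∀ k : ι, toF ℂ (X k : MvPolynomial ι ℂ) ≠ 0 := fun k => toF_ne_zero (X_ne_zero k)
  have hW1 : toF ℂ W ≠ 0 := toF_ne_zero hW
  have hW2 : toF ℂ (phi D.a W) ≠ 0 := toF_ne_zero (phi_ne_zero ha hW)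
  set w : FF ℂ ι := (toF ℂ W)⁻¹ with hw
  set T := rho D.a (X i ^ (D.a i - 1) * p) with hT
  have hg' : g = phiK ha w * toF ℂ p := by
    rw [hw, map_inv₀, phiK_toF, ← hg]
    field_simp
  set m : FF ℂ ι := (D.b i : FF ℂ ι) / toF ℂ (X i) + (D.a i : FF ℂ ι) *
        ∑ j, (D.m j : FF ℂ ι) * (dF ℂ i (toF ℂ (linF ℂ (D.c j))) / toF ℂ (linF ℂ (D.c j))) with hm
  have hs : phiK ha (toF ℂ (C s₀)) = toF ℂ (C s₀) := by rw [phiK_toF, phi_C]
  have e1 : theta ℂ (fun _ : Unit => D.poly) (fun _ => s₀) i g =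
      phiK ha w * toF ℂ (pderiv i p) +
        phiK ha ((D.a i : FF ℂ ι) * dF ℂ i w + toF ℂ (C s₀) * m * w) *
          toF ℂ (X i ^ (D.a i - 1) * p) := by
    rw [theta_apply, Fintype.sum_unique, ld_poly D hc ha hl i, ← hm, hg', Derivation.leibniz,
      dF_phiK, dF_toF, toF_mul, toF_pow]
    simp only [map_add, map_mul, hs, smul_eq_mul, map_natCast]
    ring
  have e2 : RhoRel D.a (theta ℂ (fun _ : Unit => D.poly) (fun _ => s₀) i g)
      (w * toF ℂ (rho D.a (pderiv i p)) +
        ((D.a i : FF ℂ ι) * dF ℂ i w + toF ℂ (C s₀) * m * w) * toF ℂ T) := by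
    rw [e1]
    exact ((RhoRel.toF _).mul ha _).add ha ((RhoRel.toF _).mul ha _)
  have e3 : toF ℂ (rho D.a (pderiv i p)) = (D.a i : FF ℂ ι) * dF ℂ i (toF ℂ T) -
      ((D.a i : FF ℂ ι) - 1) * (toF ℂ T / toF ℂ (X i)) := by
    have h1 := congrArg (toF ℂ) (rho_pderiv D.a ha i p)
    rw [toF_mul, toF_sub, toF_mul, toF_mul, toF_mul, C_sub, toF_sub, C_1, toF_one, toF_C_natCast,
      ← hT, ← dF_toF] at h1
    have := hX i
    have h2 : toF ℂ (rho D.a (pderiv i p)) = (toF ℂ (X i))⁻¹ *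
        (toF ℂ (X i) * toF ℂ (rho D.a (pderiv i p))) := by
      field_simp
    rw [h2, h1]
    field_simp
  have e4 : (D.a i : FF ℂ ι) * toF ℂ (C ((1 + s₀ * D.b i) / D.a i - 1)) =
      1 + toF ℂ (C s₀) * (D.b i : FF ℂ ι) - (D.a i : FF ℂ ι) := by
    have hai : (D.a i : ℂ) ≠ 0 := by
      have := ha i
      exact_mod_cast (by omega : D.a i ≠ 0)
    rw [← toF_C_natCast (R := ℂ) (D.a i), ← toF_C_natCast (R := ℂ) (D.b i), ← toF_one, ← C_1,
      ← toF_mul, ← toF_mul, ← C_mul, ← C_mul, ← toF_add, ← C_add, ← toF_sub, ← C_sub]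
    congr 2
    field_simp
  have e5 : (D.a i : ℕ) • theta ℂ (fam D) (wts D s₀) i (w * toF ℂ T) =
      w * toF ℂ (rho D.a (pderiv i p)) +
        ((D.a i : FF ℂ ι) * dF ℂ i w + toF ℂ (C s₀) * m * w) * toF ℂ T := by
    have hS1 : ∑ k : ι, toF ℂ (C (wts D s₀ (Sum.inr k))) *
        (toF ℂ (pderiv i (fam D (Sum.inr k))) / toF ℂ (fam D (Sum.inr k))) =
        toF ℂ (C ((1 + s₀ * D.b i) / D.a i - 1)) * (toF ℂ (X i))⁻¹ := by
      rw [Finset.sum_eq_single i]
      · simp only [wts, fam, Sum.elim_inr]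
        rw [pderiv_X_self, toF_one, one_div]
      · intro k _ hk
        simp only [wts, fam, Sum.elim_inr]
        rw [pderiv_X_of_ne hk, toF_zero]
        simp
      · intro h
        exact absurd (Finset.mem_univ i) h
    have hS2 : ∑ j : κ, toF ℂ (C (wts D s₀ (Sum.inl j))) *
        (toF ℂ (pderiv i (fam D (Sum.inl j))) / toF ℂ (fam D (Sum.inl j))) =
        toF ℂ (C s₀) * ∑ j, (D.m j : FF ℂ ι) *
          (dF ℂ i (toF ℂ (linF ℂ (D.c j))) / toF ℂ (linF ℂ (D.c j))) := by
      rw [Finset.mul_sum]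
      refine Finset.sum_congr rfl fun j _ => ?_
      simp only [wts, fam, Sum.elim_inl]
      rw [C_mul, toF_mul, toF_C_natCast, dF_toF]
      ring
    rw [theta_apply, Fintype.sum_sum_type, hS1, hS2, Derivation.leibniz, e3, hm, nsmul_eq_mul]
    simp only [smul_eq_mul]
    have := hX i
    field_simp
    linear_combination toF ℂ T * w * e4
  rw [e5]
  exact e2

theorem le_sum_univ {α : Type} [Fintype α] (f : α → ℕ) (i : α) : f i ≤ ∑ k, f k :=
  Finset.single_le_sum (fun _ _ => Nat.zero_le _) (Finset.mem_univ i)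

theorem stmt_EB3 : Stmt_EB3 := by
  intro ι κ _ _ _ _ D s₀ hc ha hm hl H
  simp only
  set S := Finset.univ.filter (fun i => 0 < D.b i) with hS
  set Q : MvPolynomial ι ℂ := (∏ j, linF ℂ (D.c j)) * ∏ i ∈ S, X i with hQ
  have hQ0 : Q ≠ 0 := mul_ne_zero (Finset.prod_ne_zero_iff.2 fun j _ => linF_ne_zero _ (hl j))
    (Finset.prod_ne_zero_iff.2 fun j _ => X_ne_zero j)
  have hphiQ : phi D.a Q = (∏ j, D.form j) * ∏ i ∈ S, X i ^ D.a i := by
    rw [hQ, map_mul, map_prod, map_prod]
    congr 1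
    · exact Finset.prod_congr rfl fun j _ => (form_eq_phi D hc j).symm
    · exact Finset.prod_congr rfl fun i _ => phi_X _ i
  -- the two divisibilities
  have hd1 : phi D.a Q ∣ D.poly ^ (∑ i, D.a i + 1) := by
    rw [hphiQ, Data.poly, mul_pow, mul_comm]
    refine mul_dvd_mul ?_ ?_
    · rw [← Finset.prod_pow]
      refine (Finset.prod_dvd_prod_of_dvd _ (fun i => (X i ^ D.b i) ^ (∑ i, D.a i + 1))
        fun i hi => ?_).trans (Finset.prod_dvd_prod_of_subset _ _ _ (Finset.subset_univ S))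
      rw [← pow_mul]
      refine pow_dvd_pow _ ?_
      have h1 := (Finset.mem_filter.1 hi).2
      have h2 := le_sum_univ D.a i
      nlinarith
    · rw [← Finset.prod_pow]
      refine Finset.prod_dvd_prod_of_dvd _ _ fun j _ => ?_
      rw [← pow_mul]
      refine dvd_pow_self _ ?_
      have := hm j
      positivity
  have hd2 : D.poly ∣ (phi D.a Q) ^ (∑ i, D.b i + ∑ j, D.m j) := by
    rw [hphiQ, Data.poly, mul_pow, mul_comm]
    refine mul_dvd_mul ?_ ?_
    · rw [← Finset.prod_pow]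
      refine Finset.prod_dvd_prod_of_dvd _ _ fun j _ => ?_
      refine pow_dvd_pow _ ?_
      have := le_sum_univ D.m j
      omega
    · have e : ∏ i, (X i : MvPolynomial ι ℂ) ^ D.b i = ∏ i ∈ S, X i ^ D.b i := by
        symm
        refine Finset.prod_subset (Finset.subset_univ S) fun i _ hi => ?_
        have : D.b i = 0 := by
          by_contra h
          exact hi (Finset.mem_filter.2 ⟨Finset.mem_univ i, Nat.pos_of_ne_zero h⟩)
        rw [this, pow_zero]
      rw [e, ← Finset.prod_pow]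
      refine Finset.prod_dvd_prod_of_dvd _ _ fun i _ => ?_
      rw [← pow_mul]
      refine pow_dvd_pow _ ?_
      have h1 := le_sum_univ D.b i
      have h2 := ha i
      exact (h1.trans (Nat.le_add_right _ _)).trans (Nat.le_mul_of_pos_left _ h2)
  intro x hx
  obtain ⟨j, q, hq⟩ := hx
  -- move to the variables `x`
  have hx' : InS ℂ D.poly (phiK ha x) := by
    have h1 : InS ℂ (phi D.a Q) (phiK ha x) := by
      refine ⟨j, phi D.a q, ?_⟩
      rw [← phiK_toF ha Q, ← map_pow, ← map_mul, hq, phiK_toF]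
    exact h1.mono hd1
  obtain ⟨g, hg, hsum⟩ := H _ hx'
  have hg' : ∀ i, InS ℂ (phi D.a Q) (g i) := fun i => (hg i).mono hd2
  choose k p hp using hg'
  have hrel : RhoRel D.a (phiK ha x) (∑ i, (D.a i : ℕ) • theta ℂ (fam D) (wts D s₀) i
        ((toF ℂ (Q ^ k i))⁻¹ * toF ℂ (rho D.a (X i ^ (D.a i - 1) * p i)))) := by
    rw [hsum]
    refine RhoRel.sum ha _ _ _ fun i _ => ?_
    refine rhoRel_theta D s₀ hc ha hl i (g i) (p i) (Q ^ k i) (pow_ne_zero _ hQ0) ?_
    rw [map_pow, toF_pow, hp i]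
  have hx2 := (RhoRel.phiK ha x).unique ha hrel
  refine ⟨fun i => (D.a i : ℕ) • ((toF ℂ (Q ^ k i))⁻¹ *
    toF ℂ (rho D.a (X i ^ (D.a i - 1) * p i))), fun i => ?_, ?_⟩
  · refine InS.nsmul (InS.mul ?_ (InS.toF _ _)) _
    exact InS.inv_of_dvd hQ0 (dvd_refl _)
  · rw [hx2]
    refine Finset.sum_congr rfl fun i _ => ?_
    rw [map_nsmul]

end Main

end Pool.Agent.Mono
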