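import Pool.Agent.Work.Monodromy.Interface

/-!
# Blocks ELC and ESplit: Bernstein ideals and linear changes of the free coordinates, products
-/

set_option autoImplicit false

namespace Pool.Agent.Mono

open MvPolynomial

namespace ELaux

variable {ι κ : Type} [Fintype ι] [Fintype κ] [DecidableEq ι] [DecidableEq κ]

theorem ev_to_loc {ι : Type} {f : MvPolynomial ι ℂ} {b : Polynomial ℂ} (h : IsEvBernstein f b)
    (p : ι → ℂ) : IsLocBernstein f p b := by
  obtain ⟨P, hP⟩ := h
  refine ⟨P, 1, by simp, ?_⟩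
  filter_upwards [hP] with k hk
  rw [hk, one_mul]

/-- central polynomials are weighted homogeneous -/
theorem homog (D : Data ι κ) (hc : D.Central) (ha : ∀ i, 1 ≤ D.a i) :
    ∃ (w : ι → ℕ) (d : ℕ), (∀ i, 1 ≤ w i) ∧ IsWeightedHomogeneous w D.poly d := by
  set w : ι → ℕ := fun i => ∏ j ∈ Finset.univ.erase i, D.a j with hw
  set L0 : ℕ := ∏ j, D.a j with hL0
  have hwa : ∀ i, D.a i • w i = L0 := by
    intro i
    rw [smul_eq_mul, hL0, ← Finset.mul_prod_erase Finset.univ D.a (Finset.mem_univ i)]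
  have hform : ∀ j, IsWeightedHomogeneous w (D.form j) L0 := by
    intro j
    unfold Data.form
    rw [hc j, C_0, zero_add]
    apply IsWeightedHomogeneous.sum
    intro i _
    apply IsWeightedHomogeneous.C_mul
    rw [← hwa i]
    exact (isWeightedHomogeneous_X ℂ w i).pow (D.a i)
  have hw1 : ∀ i, 1 ≤ w i := fun i =>
    Nat.succ_le_of_lt (Finset.prod_pos fun j _ => Nat.lt_of_lt_of_le Nat.zero_lt_one (ha j))
  refine ⟨w, ∑ i, D.b i • w i + ∑ j, D.m j • L0, hw1, ?_⟩
  unfold Data.poly
  apply IsWeightedHomogeneous.mul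
  · exact IsWeightedHomogeneous.prod Finset.univ (fun i => (X i : MvPolynomial ι ℂ) ^ D.b i)
      (fun i => D.b i • w i) fun i _ => (isWeightedHomogeneous_X ℂ w i).pow (D.b i)
  · exact IsWeightedHomogeneous.prod Finset.univ (fun j => D.form j ^ D.m j)
      (fun j => D.m j • L0) fun j _ => (hform j).pow (D.m j)

/-- the substitution `x_i ↦ ∑_k Φ_ik x_k^{a_k}` of the free variables -/
noncomputable def sub (D : Data ι κ) (Φ : Matrix ι ι ℂ) :
    MvPolynomial ι ℂ →ₐ[ℂ] MvPolynomial ι ℂ :=
  aeval fun i => if D.a i = 1 ∧ D.b i = 0 then ∑ k, C (Φ i k) * X k ^ D.a k else X i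

theorem sub_X (D : Data ι κ) (Φ : Matrix ι ι ℂ) (i : ι) :
    sub D Φ (X i) = if D.a i = 1 ∧ D.b i = 0 then ∑ k, C (Φ i k) * X k ^ D.a k else X i := by
  unfold sub
  rw [aeval_X]

theorem sub_pow (D : Data ι κ) {Φ : Matrix ι ι ℂ}
    (hΦ : ∀ i, ¬(D.a i = 1 ∧ D.b i = 0) → ∀ k, Φ i k = (1 : Matrix ι ι ℂ) i k) (i : ι) :
    sub D Φ (X i) ^ D.a i = ∑ k, C (Φ i k) * X k ^ D.a k := by
  rw [sub_X]
  by_cases h : D.a i = 1 ∧ D.b i = 0
  · rw [if_pos h]
    rw [h.1, pow_one]
  · rw [if_neg h]
    have h1 : ∀ k ∈ (Finset.univ : Finset ι), (C (Φ i k) * X k ^ D.a k : MvPolynomial ι ℂ) =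
        if i = k then X i ^ D.a i else 0 := by
      intro k _
      rw [hΦ i h k, Matrix.one_apply]
      by_cases hik : i = k
      · subst hik; simp
      · simp [hik]
    rw [Finset.sum_congr rfl h1, Finset.sum_ite_eq Finset.univ i, if_pos (Finset.mem_univ i)]

theorem sub_comp (D : Data ι κ) {Φ Ψ : Matrix ι ι ℂ}
    (hΦ : ∀ i, ¬(D.a i = 1 ∧ D.b i = 0) → ∀ k, Φ i k = (1 : Matrix ι ι ℂ) i k)
    (hΨΦ : Ψ * Φ = 1) (f : MvPolynomial ι ℂ) : sub D Φ (sub D Ψ f) = f := by
  have h : (sub D Φ).comp (sub D Ψ) = AlgHom.id ℂ _ := by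
    apply MvPolynomial.algHom_ext
    intro i
    rw [AlgHom.comp_apply, sub_X D Ψ i, AlgHom.id_apply]
    by_cases hi : D.a i = 1 ∧ D.b i = 0
    · rw [if_pos hi, map_sum]
      have h1 : ∀ k ∈ (Finset.univ : Finset ι),
          sub D Φ (C (Ψ i k) * X k ^ D.a k : MvPolynomial ι ℂ) =
            ∑ l, C (Ψ i k * Φ k l) * X l ^ D.a l := by
        intro k _
        rw [map_mul, map_pow, sub_pow D hΦ k, Finset.mul_sum]
        have h2 : sub D Φ (C (Ψ i k)) = C (Ψ i k) := (sub D Φ).commutes (Ψ i k)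
        rw [h2]
        apply Finset.sum_congr rfl
        intro l _
        rw [C_mul, mul_assoc]
      rw [Finset.sum_congr rfl h1, Finset.sum_comm]
      have h3 : ∀ l ∈ (Finset.univ : Finset ι),
          ∑ k, (C (Ψ i k * Φ k l) * X l ^ D.a l : MvPolynomial ι ℂ) =
            if i = l then X i ^ D.a i else 0 := by
        intro l _
        rw [← Finset.sum_mul, ← map_sum C]
        have h4 : ∑ k, Ψ i k * Φ k l = (1 : Matrix ι ι ℂ) i l := by
          rw [← hΨΦ, Matrix.mul_apply]
        rw [h4, Matrix.one_apply]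
        by_cases hil : i = l
        · subst hil; simp
        · simp [hil]
      rw [Finset.sum_congr rfl h3, Finset.sum_ite_eq Finset.univ i, if_pos (Finset.mem_univ i),
        hi.1, pow_one]
    · rw [if_neg hi, sub_X, if_neg hi]
  exact DFunLike.congr_fun h f

theorem sub_form (D : Data ι κ) {Φ : Matrix ι ι ℂ}
    (hΦ : ∀ i, ¬(D.a i = 1 ∧ D.b i = 0) → ∀ k, Φ i k = (1 : Matrix ι ι ℂ) i k) (j : κ) :
    sub D Φ (D.form j) = (D.lin Φ).form j := by
  unfold Data.form
  rw [map_add, map_sum]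
  have h0 : sub D Φ (C (D.c0 j)) = C (D.c0 j) := (sub D Φ).commutes _
  rw [h0]
  change _ = C (D.c0 j) + ∑ k, C (∑ i, D.c j i * Φ i k) * X k ^ D.a k
  congr 1
  have h1 : ∀ i ∈ (Finset.univ : Finset ι),
      sub D Φ (C (D.c j i) * X i ^ D.a i : MvPolynomial ι ℂ) =
        ∑ k, C (D.c j i * Φ i k) * X k ^ D.a k := by
    intro i _
    have h2 : sub D Φ (C (D.c j i)) = C (D.c j i) := (sub D Φ).commutes _
    rw [map_mul, map_pow, sub_pow D hΦ i, h2, Finset.mul_sum]
    apply Finset.sum_congr rfl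
    intro l _
    rw [C_mul, mul_assoc]
  rw [Finset.sum_congr rfl h1, Finset.sum_comm]
  apply Finset.sum_congr rfl
  intro k _
  rw [← Finset.sum_mul, ← map_sum C]

theorem sub_poly (D : Data ι κ) {Φ : Matrix ι ι ℂ}
    (hΦ : ∀ i, ¬(D.a i = 1 ∧ D.b i = 0) → ∀ k, Φ i k = (1 : Matrix ι ι ℂ) i k) :
    sub D Φ D.poly = (D.lin Φ).poly := by
  unfold Data.poly
  rw [map_mul, map_prod, map_prod]
  congr 1
  · apply Finset.prod_congr rfl
    intro i _
    change sub D Φ (X i ^ D.b i) = X i ^ D.b i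
    rw [map_pow, sub_X]
    by_cases h : D.a i = 1 ∧ D.b i = 0
    · rw [h.2, pow_zero, pow_zero]
    · rw [if_neg h]
  · apply Finset.prod_congr rfl
    intro j _
    rw [map_pow, sub_form D hΦ]
    rfl

theorem eval_sub (D : Data ι κ) (Φ : Matrix ι ι ℂ) (ha : ∀ i, 1 ≤ D.a i)
    (v : MvPolynomial ι ℂ) : eval (fun _ => 0) (sub D Φ v) = eval (fun _ => 0) v := by
  have h : ((aeval (fun _ : ι => (0 : ℂ)) : MvPolynomial ι ℂ →ₐ[ℂ] ℂ).comp (sub D Φ)) =
      (aeval (fun _ : ι => (0 : ℂ)) : MvPolynomial ι ℂ →ₐ[ℂ] ℂ) := by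
    apply MvPolynomial.algHom_ext
    intro i
    rw [AlgHom.comp_apply, sub_X]
    by_cases hi : D.a i = 1 ∧ D.b i = 0
    · rw [if_pos hi, map_sum]
      apply Eq.trans (Finset.sum_eq_zero fun k _ => ?_)
      · rw [aeval_X]
      · rw [map_mul, map_pow, aeval_X, zero_pow (by have := ha k; omega), mul_zero]
    · rw [if_neg hi]
  have h1 := DFunLike.congr_fun h v
  simpa [AlgHom.comp_apply, aeval_eq_eval] using h1

end ELaux

open ELaux

theorem stmt_ELC (hPush : Stmt_Push) (hHomog : Stmt_Homog) : Stmt_ELC := by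
  intro ι κ _ _ _ _ D Φ Ψ hΦΨ hΨΦ htriv hc ha b hb
  have hΦ : ∀ i, ¬(D.a i = 1 ∧ D.b i = 0) → ∀ k, Φ i k = (1 : Matrix ι ι ℂ) i k :=
    fun i hi k => (htriv i hi k).1
  have hΨ : ∀ i, ¬(D.a i = 1 ∧ D.b i = 0) → ∀ k, Ψ i k = (1 : Matrix ι ι ℂ) i k :=
    fun i hi k => (htriv i hi k).2
  have hcL : (D.lin Φ).Central := hc
  have haL : ∀ i, 1 ≤ (D.lin Φ).a i := ha
  obtain ⟨w, d, hw, hwd⟩ := homog (D.lin Φ) hcL haL
  apply hHomog ι w d (D.lin Φ).poly b hw hwd
  have h1 : sub D Ψ (D.lin Φ).poly = D.poly := by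
    rw [← sub_poly D hΦ, sub_comp D hΨ hΦΨ]
  apply hPush ι ι (sub D Ψ) (D.lin Φ).poly (fun _ => 0) (fun _ => 0) b
  · intro v hv
    refine ⟨(sub D Φ).toLinearMap, ?_, ?_⟩
    · intro g h
      rw [AlgHom.toLinearMap_apply, AlgHom.toLinearMap_apply, map_mul, sub_comp D hΦ hΨΦ]
    · rw [AlgHom.toLinearMap_apply, eval_sub D Φ ha]
      exact hv
  · rw [h1]
    exact ev_to_loc hb _

namespace ELaux

variable {ι κ : Type} [Fintype ι] [Fintype κ] [DecidableEq ι] [DecidableEq κ]

/-- translation by `p` -/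
noncomputable def tr (p : ι → ℂ) : MvPolynomial ι ℂ →ₐ[ℂ] MvPolynomial ι ℂ :=
  aeval fun i => X i + C (p i)

omit [Fintype ι] [DecidableEq ι] in
theorem tr_tr (p : ι → ℂ) (f : MvPolynomial ι ℂ) : tr p (tr (-p) f) = f := by
  have h : (tr p).comp (tr (-p)) = AlgHom.id ℂ _ := by
    apply MvPolynomial.algHom_ext
    intro i
    rw [AlgHom.comp_apply, AlgHom.id_apply]
    unfold tr
    rw [aeval_X, map_add, aeval_X]
    have h2 : aeval (fun i => X i + C (p i)) (C ((-p) i) : MvPolynomial ι ℂ) =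
        (C ((-p) i) : MvPolynomial ι ℂ) :=
      (aeval (fun i => (X i + C (p i) : MvPolynomial ι ℂ))).commutes _
    rw [h2, Pi.neg_apply, C_neg]
    ring
  exact DFunLike.congr_fun h f

omit [Fintype ι] [DecidableEq ι] in
theorem eval_tr (p : ι → ℂ) (v : MvPolynomial ι ℂ) :
    eval (fun _ => 0) (tr p v) = eval p v := by
  have h : ((aeval (fun _ : ι => (0 : ℂ)) : MvPolynomial ι ℂ →ₐ[ℂ] ℂ).comp (tr p)) =
      (aeval p : MvPolynomial ι ℂ →ₐ[ℂ] ℂ) := by
    apply MvPolynomial.algHom_ext
    intro i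
    rw [AlgHom.comp_apply]
    unfold tr
    rw [aeval_X, aeval_X, map_add, aeval_X, zero_add]
    exact (aeval (fun _ : ι => (0 : ℂ))).commutes _
  have h1 := DFunLike.congr_fun h v
  simpa [AlgHom.comp_apply, aeval_eq_eval] using h1

/-- `D.restr I T` is invariant under translations in the other variables -/
theorem tr_restr (D : Data ι κ) (I : Finset ι) (T : Finset κ)
    (hT : ∀ j ∈ T, 0 < D.m j → ∀ i ∉ I, D.c j i = 0) {p : ι → ℂ} (hp : ∀ i ∈ I, p i = 0) :
    tr p (D.restr I T).poly = (D.restr I T).poly := by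
  unfold Data.poly
  rw [map_mul, map_prod, map_prod]
  congr 1
  · apply Finset.prod_congr rfl
    intro i _
    change tr p (X i ^ (if i ∈ I then D.b i else 0)) = X i ^ (if i ∈ I then D.b i else 0)
    by_cases hi : i ∈ I
    · rw [map_pow]
      unfold tr
      rw [aeval_X, hp i hi, C_0, add_zero]
    · rw [if_neg hi, pow_zero, map_one]
  · apply Finset.prod_congr rfl
    intro j _
    change tr p ((D.restr I T).form j ^ (if j ∈ T then D.m j else 0)) =
      (D.restr I T).form j ^ (if j ∈ T then D.m j else 0)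
    by_cases hj : j ∈ T ∧ 0 < D.m j
    · rw [map_pow]
      congr 1
      unfold Data.form
      rw [map_add, map_sum]
      have h0 : tr p (C ((D.restr I T).c0 j)) = C ((D.restr I T).c0 j) := (tr p).commutes _
      rw [h0]
      congr 1
      apply Finset.sum_congr rfl
      intro i _
      change tr p (C (D.c j i) * X i ^ D.a i) = C (D.c j i) * X i ^ D.a i
      by_cases hi : i ∈ I
      · have h1 : tr p (C (D.c j i)) = C (D.c j i) := (tr p).commutes _
        rw [map_mul, map_pow, h1]
        unfold tr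
        rw [aeval_X, hp i hi, C_0, add_zero]
      · rw [hT j hj.1 hj.2 i hi, C_0, zero_mul, map_zero]
    · have h0 : (if j ∈ T then D.m j else 0) = 0 := by
        by_cases hjT : j ∈ T
        · rw [if_pos hjT]
          by_contra hne
          exact hj ⟨hjT, Nat.pos_of_ne_zero hne⟩
        · rw [if_neg hjT]
      rw [h0, pow_zero, map_one]

theorem poly_split (D : Data ι κ) (I : Finset ι) (T : Finset κ) :
    D.poly = (D.restr I T).poly * (D.restr Iᶜ Tᶜ).poly := by
  have h1 : ∏ i, (X i : MvPolynomial ι ℂ) ^ D.b i =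
      (∏ i, X i ^ (D.restr I T).b i) * ∏ i, X i ^ (D.restr Iᶜ Tᶜ).b i := by
    rw [← Finset.prod_mul_distrib]
    apply Finset.prod_congr rfl
    intro i _
    change _ = X i ^ (if i ∈ I then D.b i else 0) * X i ^ (if i ∈ Iᶜ then D.b i else 0)
    by_cases hi : i ∈ I
    · rw [if_pos hi, if_neg (by simpa using hi), pow_zero, mul_one]
    · rw [if_neg hi, if_pos (by simpa using hi), pow_zero, one_mul]
  have h2 : ∏ j, D.form j ^ D.m j =
      (∏ j, (D.restr I T).form j ^ (D.restr I T).m j) *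
        ∏ j, (D.restr Iᶜ Tᶜ).form j ^ (D.restr Iᶜ Tᶜ).m j := by
    rw [← Finset.prod_mul_distrib]
    apply Finset.prod_congr rfl
    intro j _
    change _ = D.form j ^ (if j ∈ T then D.m j else 0) * D.form j ^ (if j ∈ Tᶜ then D.m j else 0)
    by_cases hj : j ∈ T
    · rw [if_pos hj, if_neg (by simpa using hj), pow_zero, mul_one]
    · rw [if_neg hj, if_pos (by simpa using hj), pow_zero, one_mul]
  unfold Data.poly
  rw [h1, h2]
  ring

theorem poly_ne_zero (D : Data ι κ) (hv : D.Valid) (I : Finset ι) (T : Finset κ) :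
    (D.restr I T).poly ≠ 0 := by
  unfold Data.poly
  apply mul_ne_zero
  · exact Finset.prod_ne_zero_iff.2 fun i _ => pow_ne_zero _ (X_ne_zero i)
  · apply Finset.prod_ne_zero_iff.2
    intro j _
    by_cases hj : j ∈ T ∧ 0 < D.m j
    · apply pow_ne_zero
      change D.form j ≠ 0
      intro h0
      rcases hv.2 j hj.2 with h | ⟨i, h⟩
      · apply h
        have h1 := congrArg (coeff 0) h0
        unfold Data.form at h1
        rw [coeff_add, coeff_sum, coeff_zero] at h1
        have h2 : ∑ i, coeff 0 (C (D.c j i) * X i ^ D.a i : MvPolynomial ι ℂ) = 0 := by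
          apply Finset.sum_eq_zero
          intro i _
          rw [coeff_C_mul]
          have h3 : coeff 0 (X i ^ D.a i : MvPolynomial ι ℂ) = 0 := by
            have := hv.1 i
            rw [coeff_X_pow, if_neg]
            intro h4
            have h5 := DFunLike.congr_fun h4 i
            simp at h5
            omega
          rw [h3, mul_zero]
        rw [h2, add_zero] at h1
        simpa using h1
      · apply h
        have h1 := congrArg (coeff (Finsupp.single i (D.a i))) h0
        unfold Data.form at h1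
        rw [coeff_add, coeff_sum, coeff_zero] at h1
        have h2 : ∑ l, coeff (Finsupp.single i (D.a i)) (C (D.c j l) * X l ^ D.a l : MvPolynomial ι ℂ) =
            D.c j i := by
          rw [Finset.sum_eq_single i]
          · rw [coeff_C_mul, coeff_X_pow, if_pos rfl, mul_one]
          · intro l _ hl
            rw [coeff_C_mul, coeff_X_pow, if_neg, mul_zero]
            intro h4
            have h5 := DFunLike.congr_fun h4 l
            have := hv.1 l
            rw [Finsupp.single_eq_same, Finsupp.single_eq_of_ne hl] at h5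
            omega
          · intro h; exact absurd (Finset.mem_univ i) h
        have h3 : coeff (Finsupp.single i (D.a i)) (C (D.c0 j) : MvPolynomial ι ℂ) = 0 := by
          rw [coeff_C, if_neg]
          intro h4
          have h5 := DFunLike.congr_fun h4 i
          have := hv.1 i
          rw [Finsupp.single_eq_same] at h5
          simp at h5
          omega
        rw [h2, h3, zero_add] at h1
        exact h1
    · have h0 : (D.restr I T).m j = 0 := by
        change (if j ∈ T then D.m j else 0) = 0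
        by_cases hjT : j ∈ T
        · rw [if_pos hjT]
          by_contra hne
          exact hj ⟨hjT, Nat.pos_of_ne_zero hne⟩
        · rw [if_neg hjT]
      rw [h0, pow_zero]
      exact one_ne_zero

end ELaux

theorem stmt_ESplit (hPush : Stmt_Push) (hUnits : Stmt_Units) (hHomog : Stmt_Homog) :
    Stmt_ESplit := by
  intro ι κ _ _ _ _ D I T hc hv hT hT' b hb
  -- a point where the second factor does not vanish
  have hne := poly_ne_zero D hv Iᶜ Tᶜ
  obtain ⟨q, hq⟩ : ∃ q : ι → ℂ, eval q (D.restr Iᶜ Tᶜ).poly ≠ 0 := by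
    by_contra hcon
    push Not at hcon
    exact hne (MvPolynomial.funext fun x => by rw [hcon x, map_zero])
  set p : ι → ℂ := fun i => if i ∈ I then 0 else q i with hp
  have hpI : ∀ i ∈ I, p i = 0 := fun i hi => by rw [hp]; simp [hi]
  -- the second factor does not depend on the variables of `I`
  have hp2 : eval p (D.restr Iᶜ Tᶜ).poly ≠ 0 := by
    have h1 : tr (p - q) (D.restr Iᶜ Tᶜ).poly = (D.restr Iᶜ Tᶜ).poly := by
      apply tr_restr
      · intro j hj hm i hi
        exact hT' j (by simpa using hj) hm i (by simpa using hi)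
      · intro i hi
        have : i ∉ I := by simpa using hi
        rw [Pi.sub_apply, hp]
        simp [this]
    have h2 : eval p (D.restr Iᶜ Tᶜ).poly = eval q (D.restr Iᶜ Tᶜ).poly := by
      have h3 : ∀ v : MvPolynomial ι ℂ, eval q (tr (p - q) v) = eval p v := by
        intro v
        have h : ((aeval q : MvPolynomial ι ℂ →ₐ[ℂ] ℂ).comp (tr (p - q))) =
            (aeval p : MvPolynomial ι ℂ →ₐ[ℂ] ℂ) := by
          apply MvPolynomial.algHom_ext
          intro i
          rw [AlgHom.comp_apply]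
          unfold tr
          rw [aeval_X, aeval_X, map_add, aeval_X]
          have h4 : aeval q (C ((p - q) i) : MvPolynomial ι ℂ) = (p - q) i :=
            (aeval q).commutes _
          rw [h4, Pi.sub_apply]
          ring
        have h1 := DFunLike.congr_fun h v
        simpa [AlgHom.comp_apply, aeval_eq_eval] using h1
      rw [← h3, h1]
    rw [h2]
    exact hq
  have hloc : IsLocBernstein (D.restr I T).poly p b := by
    apply hUnits ι (D.restr I T).poly (D.restr Iᶜ Tᶜ).poly p b hp2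
    rw [← poly_split]
    exact ev_to_loc hb p
  have hcR : (D.restr I T).Central := hc
  have haR : ∀ i, 1 ≤ (D.restr I T).a i := hv.1
  obtain ⟨w, d, hw, hwd⟩ := homog (D.restr I T) hcR haR
  apply hHomog ι w d (D.restr I T).poly b hw hwd
  apply hPush ι ι (tr (-p)) (D.restr I T).poly p (fun _ => 0) b
  · intro v hv'
    refine ⟨(tr p).toLinearMap, ?_, ?_⟩
    · intro g h
      rw [AlgHom.toLinearMap_apply, AlgHom.toLinearMap_apply, map_mul, tr_tr]
    · rw [AlgHom.toLinearMap_apply, eval_tr]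
      exact hv'
  · rw [tr_restr D I T hT (p := -p) (fun i hi => by rw [Pi.neg_apply, hpI i hi, neg_zero])]
    exact hloc

end Pool.Agent.Mono
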