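import Pool.Agent.Work.Monodromy.FH
import Pool.Agent.Work.Monodromy.ELC

/-!
# Local models and Bernstein ideals
-/

namespace Pool.Agent.Mono

open MvPolynomial

theorem stmt_EL (hFP : Stmt_FP) : Stmt_EL := by
  intro ι κ _ _ _ _ f S D hS hD ha hmod b hb
  obtain ⟨ξ, hξ⟩ := hS
  obtain ⟨Ψ, u, _, _, hloc⟩ := hmod
  obtain ⟨hΨ0, hdet, hu, hexp⟩ := hloc ξ hξ
  have h1 := hFP ι f ξ (Ψ ξ) b hΨ0 hdet hb
  rw [hexp] at h1
  have h2 := stmt_FU ι _ _ b hu h1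
  obtain ⟨w, d, hw, hom⟩ := ELaux.homog D hD ha
  exact stmt_FH ι w d D.poly b hw hom h2

end Pool.Agent.Mono
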