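import Pool.Agent.Work.Monodromy.Units
import Pool.Agent.Work.Monodromy.ELC

/-!
# Block ELoc: localisation of Bernstein ideals
-/

namespace Pool.Agent.Mono.ELocAux

open MvPolynomial

section

variable {ι : Type} [Fintype ι] [DecidableEq ι] (a : ι → ℕ) (J : Finset ι) (ξ : ι → ℂ)

/-- residues of the exponents -/
def res (e : ι → ℕ) : ι → ℕ := fun i => if i ∈ J then e i % a i else 0

/-- the monomial `x^e` divided by `x^r`, rewritten in `y` -/
noncomputable def quo (e : ι → ℕ) : MvPolynomial ι ℂ :=
  ∏ i, if i ∈ J then (X i + C (ξ i ^ a i)) ^ (e i / a i) else X i ^ e i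

/-- component `r` -/
noncomputable def rho (r : ι → ℕ) : MvPolynomial ι ℂ →ₗ[ℂ] MvPolynomial ι ℂ :=
  (MvPolynomial.basisMonomials ι ℂ).constr ℂ fun e => if res a J e = r then quo a J ξ e else 0

theorem rho_monomial (r : ι → ℕ) (e : ι →₀ ℕ) :
    rho a J ξ r (monomial e 1) = if res a J e = r then quo a J ξ e else 0 := by
  have := (MvPolynomial.basisMonomials ι ℂ).constr_basis ℂ
    (fun e : ι →₀ ℕ => if res a J e = r then quo a J ξ e else 0) e
  rwa [MvPolynomial.coe_basisMonomials] at this

/-- the homomorphism `y_i ↦ x_i^{a_i} - ξ_i^{a_i}` -/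
noncomputable def phi : MvPolynomial ι ℂ →ₐ[ℂ] MvPolynomial ι ℂ :=
  aeval fun i => if i ∈ J then X i ^ a i - C (ξ i ^ a i) else X i

theorem phi_X (i : ι) : phi a J ξ (X i) = if i ∈ J then X i ^ a i - C (ξ i ^ a i) else X i := by
  unfold phi
  rw [aeval_X]

variable {a}

theorem quo_add (ha : ∀ i, 1 ≤ a i) (e : ι →₀ ℕ) (j : ι) :
    quo a J ξ (e + Finsupp.single j (if j ∈ J then a j else 1) : ι →₀ ℕ) =
      (if j ∈ J then X j + C (ξ j ^ a j) else X j) * quo a J ξ e := by
  unfold quo
  rw [← Finset.mul_prod_erase Finset.univ _ (Finset.mem_univ j),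
    ← Finset.mul_prod_erase Finset.univ (fun i => if i ∈ J then
      (X i + C (ξ i ^ a i)) ^ (e i / a i) else X i ^ e i) (Finset.mem_univ j), ← mul_assoc]
  congr 1
  · by_cases hj : j ∈ J
    · have haj : 0 < a j := ha j
      simp only [hj, if_true, Finsupp.add_apply, Finsupp.single_eq_same]
      rw [Nat.add_div_right _ haj, pow_succ]
      ring
    · simp only [hj, if_false, Finsupp.add_apply, Finsupp.single_eq_same, pow_succ]
      ring
  · refine Finset.prod_congr rfl fun i hi => ?_
    have hij : i ≠ j := Finset.ne_of_mem_erase hi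
    rw [Finsupp.add_apply, Finsupp.single_eq_of_ne hij, add_zero]

theorem res_add (e : ι →₀ ℕ) (j : ι) :
    res a J (e + Finsupp.single j (if j ∈ J then a j else 1) : ι →₀ ℕ) = res a J e := by
  funext i
  unfold res
  by_cases hi : i ∈ J
  · simp only [hi, if_true]
    by_cases hij : i = j
    · subst hij
      simp [hi]
    · rw [Finsupp.add_apply, Finsupp.single_eq_of_ne hij, add_zero]
  · simp only [hi, if_false]

theorem rho_phi_X (ha : ∀ i, 1 ≤ a i) (r : ι → ℕ) (j : ι) (h : MvPolynomial ι ℂ) :
    rho a J ξ r (phi a J ξ (X j) * h) = X j * rho a J ξ r h := by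
  -- the basic shift
  have hshift : ∀ h : MvPolynomial ι ℂ,
      rho a J ξ r (X j ^ (if j ∈ J then a j else 1) * h) =
        (if j ∈ J then X j + C (ξ j ^ a j) else X j) * rho a J ξ r h := by
    intro h
    have hlin : (rho a J ξ r) ∘ₗ (LinearMap.mulLeft ℂ (X j ^ (if j ∈ J then a j else 1))) =
        (LinearMap.mulLeft ℂ (if j ∈ J then X j + C (ξ j ^ a j) else X j)) ∘ₗ
          (rho a J ξ r) := by
      refine (MvPolynomial.basisMonomials ι ℂ).ext fun e => ?_
      rw [MvPolynomial.coe_basisMonomials]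
      simp only [LinearMap.comp_apply, LinearMap.mulLeft_apply]
      rw [X_pow_eq_monomial, monomial_mul, one_mul, add_comm, rho_monomial, rho_monomial,
        res_add, quo_add J ξ ha]
      by_cases hr : res a J e = r
      · rw [if_pos hr, if_pos hr]
      · rw [if_neg hr, if_neg hr, mul_zero]
    exact LinearMap.congr_fun hlin h
  rw [phi_X]
  by_cases hj : j ∈ J
  · have h1 := hshift h
    simp only [hj, if_true] at h1 ⊢
    rw [sub_mul, map_sub, h1, ← MvPolynomial.smul_eq_C_mul, map_smul,
      MvPolynomial.smul_eq_C_mul, add_mul, add_sub_cancel_right]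
  · have h1 := hshift h
    simp only [hj, if_false, pow_one] at h1 ⊢
    exact h1

theorem rho_phi (ha : ∀ i, 1 ≤ a i) (r : ι → ℕ) (g : MvPolynomial ι ℂ) :
    ∀ h : MvPolynomial ι ℂ, rho a J ξ r (phi a J ξ g * h) = g * rho a J ξ r h := by
  induction g using MvPolynomial.induction_on with
  | C c =>
      intro h
      have : phi a J ξ (C c) = C c := by
        rw [← MvPolynomial.algebraMap_eq, AlgHom.commutes]
      rw [this, ← MvPolynomial.smul_eq_C_mul, map_smul, MvPolynomial.smul_eq_C_mul]
  | add p q hp hq =>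
      intro h
      rw [map_add, add_mul, map_add, hp, hq]
      ring
  | mul_X p j hp =>
      intro h
      have e1 : phi a J ξ (p * X j) * h = phi a J ξ p * (phi a J ξ (X j) * h) := by
        rw [map_mul, mul_assoc]
      rw [e1, hp, rho_phi_X J ξ ha, mul_assoc]

/-- recovering the value at `ξ` from the components -/
theorem eval_eq (ha : ∀ i, 1 ≤ a i) (hξ : ∀ i, ξ i ≠ 0 ↔ i ∈ J) (v : MvPolynomial ι ℂ) :
    eval ξ v = ∑ r ∈ Fintype.piFinset fun i => if i ∈ J then Finset.range (a i) else {0},
      (∏ i ∈ J, ξ i ^ r i) * eval (fun _ => 0) (rho a J ξ r v) := by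
  set R := Fintype.piFinset fun i => if i ∈ J then Finset.range (a i) else {0} with hR
  set L2 : MvPolynomial ι ℂ →ₗ[ℂ] ℂ := ∑ r ∈ R, (∏ i ∈ J, ξ i ^ r i) •
    ((aeval (fun _ : ι => (0 : ℂ)) : MvPolynomial ι ℂ →ₐ[ℂ] ℂ).toLinearMap ∘ₗ rho a J ξ r)
    with hL2
  have hlin : (aeval ξ : MvPolynomial ι ℂ →ₐ[ℂ] ℂ).toLinearMap = L2 := by
    refine (MvPolynomial.basisMonomials ι ℂ).ext fun e => ?_
    rw [MvPolynomial.coe_basisMonomials, hL2, LinearMap.sum_apply]
    simp only [LinearMap.smul_apply, LinearMap.comp_apply, AlgHom.toLinearMap_apply,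
      rho_monomial, smul_eq_mul]
    have hmem : res a J e ∈ R := by
      rw [hR, Fintype.mem_piFinset]
      intro i
      unfold res
      by_cases hi : i ∈ J
      · simp only [hi, if_true, Finset.mem_range]
        exact Nat.mod_lt _ (ha i)
      · simp [hi]
    rw [Finset.sum_eq_single (res a J e)]
    · rw [if_pos rfl, aeval_monomial, map_one, one_mul]
      unfold quo
      rw [map_prod, Finsupp.prod_fintype _ _ (fun i => by simp),
        ← Finset.prod_mul_prod_compl J, ← Finset.prod_mul_prod_compl J (fun i => aeval _ _),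
        ← mul_assoc, ← Finset.prod_mul_distrib]
      congr 1
      · refine Finset.prod_congr rfl fun i hi => ?_
        unfold res
        simp only [hi, if_true, map_pow, map_add, aeval_X, zero_add, algHom_C,
          Algebra.algebraMap_self, RingHom.id_apply]
        rw [← pow_mul, ← pow_add, Nat.mod_add_div]
      · refine Finset.prod_congr rfl fun i hi => ?_
        have hi' : i ∉ J := Finset.mem_compl.mp hi
        have hξi : ξ i = 0 := by
          by_contra hne
          exact hi' ((hξ i).mp hne)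
        simp [hi', hξi]
    · intro r _ hr
      rw [if_neg hr.symm]
      simp
    · intro h
      exact absurd hmem h
  have := LinearMap.congr_fun hlin v
  simp only [AlgHom.toLinearMap_apply, hL2, LinearMap.sum_apply, LinearMap.smul_apply,
    LinearMap.comp_apply, smul_eq_mul] at this
  simpa [MvPolynomial.aeval_eq_eval] using this

end

end Pool.Agent.Mono.ELocAux

namespace Pool.Agent.Mono

open MvPolynomial ELocAux

theorem stmt_ELoc : Stmt_ELoc := by
  intro ι κ _ _ _ _ D J A ha hne b hb
  obtain ⟨ξ, hξ, hA⟩ := hne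
  -- the localised polynomial
  set L := D.loc J A with hL
  have hform : ∀ j, phi D.a J ξ (L.form j) = D.form j - C (eval ξ (D.form j)) := by
    intro j
    unfold Data.form
    rw [hL]
    simp only [Data.loc, map_add, map_sum, map_mul, map_pow, algHom_C, algebraMap_eq, phi_X,
      eval_C, eval_X, map_zero, zero_add]
    have : ∀ i, C (D.c j i) * (if i ∈ J then X i ^ D.a i - C (ξ i ^ D.a i) else X i) ^
        (if i ∈ J then 1 else D.a i) =
        (C (D.c j i) * X i ^ D.a i - C (D.c j i) * C (ξ i) ^ D.a i : MvPolynomial ι ℂ) := by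
      intro i
      by_cases hi : i ∈ J
      · simp only [hi, if_true, pow_one, map_pow]
        ring
      · have hξi : ξ i = 0 := by
          by_contra hne
          exact hi ((hξ i).mp hne)
        have hai : D.a i ≠ 0 := by have := ha i; omega
        simp [hi, hξi, hai]
    simp only [map_pow] at this
    simp only [this, Finset.sum_sub_distrib]
    ring
  set U : MvPolynomial ι ℂ := (∏ i ∈ J, X i ^ D.b i) * ∏ j ∈ Aᶜ, D.form j ^ D.m j with hU
  have hfac : D.poly = phi D.a J ξ L.poly * U := by
    have h1 : phi D.a J ξ L.poly = (∏ i ∈ Jᶜ, X i ^ D.b i) * ∏ j ∈ A, D.form j ^ D.m j := by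
      unfold Data.poly
      rw [map_mul, map_prod, map_prod, ← Finset.prod_mul_prod_compl J,
        ← Finset.prod_mul_prod_compl A]
      have e1 : ∏ i ∈ J, phi D.a J ξ (X i ^ L.b i) = 1 := by
        refine Finset.prod_eq_one fun i hi => ?_
        simp [hL, Data.loc, hi]
      have e2 : ∏ i ∈ Jᶜ, phi D.a J ξ (X i ^ L.b i) = ∏ i ∈ Jᶜ, X i ^ D.b i := by
        refine Finset.prod_congr rfl fun i hi => ?_
        have hi' : i ∉ J := Finset.mem_compl.mp hi
        rw [map_pow, phi_X]
        simp [hL, Data.loc, hi']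
      have e3 : ∏ j ∈ A, phi D.a J ξ (L.form j ^ L.m j) = ∏ j ∈ A, D.form j ^ D.m j := by
        refine Finset.prod_congr rfl fun j hj => ?_
        have h0 : eval ξ (D.form j) = 0 := (hA j).mpr hj
        rw [map_pow, hform, h0]
        simp [hL, Data.loc, hj]
      have e4 : ∏ j ∈ Aᶜ, phi D.a J ξ (L.form j ^ L.m j) = 1 := by
        refine Finset.prod_eq_one fun j hj => ?_
        have hj' : j ∉ A := Finset.mem_compl.mp hj
        simp [hL, Data.loc, hj']
      rw [e1, e2, e3, e4]
      ring
    rw [h1, hU]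
    unfold Data.poly
    rw [← Finset.prod_mul_prod_compl J (fun i => X i ^ D.b i),
      ← Finset.prod_mul_prod_compl A (fun j => D.form j ^ D.m j)]
    ring
  have hUξ : eval ξ U ≠ 0 := by
    rw [hU, map_mul, map_prod, map_prod]
    refine mul_ne_zero (Finset.prod_ne_zero_iff.mpr fun i hi => ?_)
      (Finset.prod_ne_zero_iff.mpr fun j hj => ?_)
    · rw [map_pow, eval_X]
      exact pow_ne_zero _ ((hξ i).mpr hi)
    · rw [map_pow]
      refine pow_ne_zero _ fun h0 => ?_
      exact (Finset.mem_compl.mp hj) ((hA j).mp h0)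
  have hb1 : IsLocBernstein D.poly ξ b := ELaux.ev_to_loc hb ξ
  rw [hfac] at hb1
  have hb2 := stmt_Units ι _ U ξ b hUξ hb1
  have hb3 : IsLocBernstein L.poly (fun _ => 0) b := by
    refine stmt_Push ι ι (phi D.a J ξ) L.poly ξ (fun _ => 0) b (fun v hv => ?_) hb2
    by_contra hcon
    push Not at hcon
    apply hv
    rw [eval_eq J ξ ha hξ v]
    refine Finset.sum_eq_zero fun r _ => ?_
    rw [hcon (rho D.a J ξ r) (rho_phi J ξ ha r), mul_zero]
  have hcen : L.Central := fun j => rfl
  have haL : ∀ i, 1 ≤ L.a i := by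
    intro i
    simp only [hL, Data.loc]
    split_ifs
    · exact le_rfl
    · exact ha i
  obtain ⟨w, d, hw, hom⟩ := ELaux.homog L hcen haL
  exact stmt_Homog ι w d L.poly b hw hom hb3

end Pool.Agent.Mono
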