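import Pool.Agent.Work.Monodromy.Interface

/-!
# Push forward of Bernstein identities along an algebra homomorphism with a linear retraction
-/

namespace Pool.Agent.Mono

open MvPolynomial

section Push

variable {ι κ : Type}

theorem mulLeft_mem_Weyl (q : MvPolynomial ι ℂ) : LinearMap.mulLeft ℂ q ∈ Weyl ι := by
  induction q using MvPolynomial.induction_on with
  | C a =>
      have : (LinearMap.mulLeft ℂ (C a : MvPolynomial ι ℂ)) =
          algebraMap ℂ (Module.End ℂ (MvPolynomial ι ℂ)) a := by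
        apply LinearMap.ext
        intro h
        simp [Module.algebraMap_end_apply, MvPolynomial.smul_eq_C_mul]
      rw [this]
      exact Subalgebra.algebraMap_mem _ _
  | add p q hp hq =>
      have : (LinearMap.mulLeft ℂ (p + q : MvPolynomial ι ℂ)) =
          LinearMap.mulLeft ℂ p + LinearMap.mulLeft ℂ q := by
        apply LinearMap.ext
        intro h
        simp [add_mul]
      rw [this]
      exact add_mem hp hq
  | mul_X p i hp =>
      have : (LinearMap.mulLeft ℂ (p * X i : MvPolynomial ι ℂ)) =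
          LinearMap.mulLeft ℂ p * LinearMap.mulLeft ℂ (X i) := by
        apply LinearMap.ext
        intro h
        simp [mul_assoc]
      rw [this]
      exact mul_mem hp (Algebra.subset_adjoin (Or.inl ⟨i, rfl⟩))

theorem pderiv_mem_Weyl (i : ι) : ((pderiv i : Derivation ℂ (MvPolynomial ι ℂ)
    (MvPolynomial ι ℂ)) : MvPolynomial ι ℂ →ₗ[ℂ] MvPolynomial ι ℂ) ∈ Weyl ι :=
  Algebra.subset_adjoin (Or.inr ⟨i, rfl⟩)

/-- chain rule -/
theorem pderiv_algHom [Fintype κ] (φ : MvPolynomial κ ℂ →ₐ[ℂ] MvPolynomial ι ℂ) (i : ι)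
    (h : MvPolynomial κ ℂ) :
    pderiv i (φ h) = ∑ j, pderiv i (φ (X j)) * φ (pderiv j h) := by
  classical
  induction h using MvPolynomial.induction_on with
  | C a =>
      have h1 : φ (C a) = C a := by
        rw [← MvPolynomial.algebraMap_eq, AlgHom.commutes]
        rfl
      rw [h1]
      simp
  | add p q hp hq =>
      simp only [map_add, hp, hq, mul_add, Finset.sum_add_distrib]
  | mul_X p j hp =>
      have h1 : ∀ l, pderiv i (φ (X l)) * φ (pderiv l (p * X j)) =
          φ (X j) * (pderiv i (φ (X l)) * φ (pderiv l p)) +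
            (if j = l then φ p * pderiv i (φ (X j)) else 0) := by
        intro l
        rw [Derivation.leibniz, pderiv_X]
        by_cases hjl : j = l
        · subst hjl
          simp
          ring
        · simp [hjl, Pi.single_apply]
          ring
      simp only [h1, Finset.sum_add_distrib, ← Finset.mul_sum, ← hp, Finset.sum_ite_eq,
        Finset.mem_univ, if_true]
      rw [map_mul, Derivation.leibniz]
      simp
      ring

/-- the span of the maps `g ↦ q φ(W g)` -/
noncomputable def nfSpan (φ : MvPolynomial κ ℂ →ₐ[ℂ] MvPolynomial ι ℂ) :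
    Submodule ℂ (MvPolynomial κ ℂ →ₗ[ℂ] MvPolynomial ι ℂ) :=
  Submodule.span ℂ {L | ∃ (q : MvPolynomial ι ℂ) (W : Module.End ℂ (MvPolynomial κ ℂ)),
    W ∈ Weyl κ ∧ L = (LinearMap.mulLeft ℂ q) ∘ₗ φ.toLinearMap ∘ₗ W}

theorem nf_closed [Fintype κ] (φ : MvPolynomial κ ℂ →ₐ[ℂ] MvPolynomial ι ℂ)
    (Q : Module.End ℂ (MvPolynomial ι ℂ)) (hQ : Q ∈ Weyl ι) :
    ∀ L ∈ nfSpan φ, Q ∘ₗ L ∈ nfSpan φ := by
  refine Algebra.adjoin_induction (p := fun Q _ => ∀ L ∈ nfSpan φ, Q ∘ₗ L ∈ nfSpan φ)
    ?_ ?_ ?_ ?_ hQ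
  · rintro Q (⟨i, rfl⟩ | ⟨i, rfl⟩)
    · intro L hL
      induction hL using Submodule.span_induction with
      | mem L hL =>
          obtain ⟨q, W, hW, rfl⟩ := hL
          refine Submodule.subset_span ⟨X i * q, W, hW, ?_⟩
          apply LinearMap.ext
          intro h
          simp [mul_assoc]
      | zero => simp
      | add L L' _ _ h h' =>
          rw [LinearMap.comp_add]
          exact add_mem h h'
      | smul c L _ h =>
          rw [LinearMap.comp_smul]
          exact Submodule.smul_mem _ _ h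
    · intro L hL
      induction hL using Submodule.span_induction with
      | mem L hL =>
          obtain ⟨q, W, hW, rfl⟩ := hL
          have key : (((pderiv i : Derivation ℂ (MvPolynomial ι ℂ) (MvPolynomial ι ℂ)) :
              MvPolynomial ι ℂ →ₗ[ℂ] MvPolynomial ι ℂ)) ∘ₗ
              ((LinearMap.mulLeft ℂ q) ∘ₗ φ.toLinearMap ∘ₗ W) =
              (LinearMap.mulLeft ℂ (pderiv i q)) ∘ₗ φ.toLinearMap ∘ₗ W +
              ∑ j, (LinearMap.mulLeft ℂ (q * pderiv i (φ (X j)))) ∘ₗ φ.toLinearMap ∘ₗ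
                ((((pderiv j : Derivation ℂ (MvPolynomial κ ℂ) (MvPolynomial κ ℂ)) :
              MvPolynomial κ ℂ →ₗ[ℂ] MvPolynomial κ ℂ) : Module.End ℂ (MvPolynomial κ ℂ)) * W) := by
            apply LinearMap.ext
            intro h
            simp only [LinearMap.comp_apply, LinearMap.mulLeft_apply, LinearMap.add_apply,
              LinearMap.sum_apply, AlgHom.toLinearMap_apply, Derivation.coeFn_coe,
              Derivation.leibniz, Module.End.mul_apply, smul_eq_mul]
            rw [pderiv_algHom φ i (W h), Finset.mul_sum, add_comm]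
            congr 1
            · ring
            · refine Finset.sum_congr rfl fun j _ => ?_
              ring
          rw [key]
          refine add_mem (Submodule.subset_span ⟨_, W, hW, rfl⟩) (sum_mem fun j _ => ?_)
          exact Submodule.subset_span ⟨_, _, mul_mem (pderiv_mem_Weyl j) hW, rfl⟩
      | zero => simp
      | add L L' _ _ h h' =>
          rw [LinearMap.comp_add]
          exact add_mem h h'
      | smul c L _ h =>
          rw [LinearMap.comp_smul]
          exact Submodule.smul_mem _ _ h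
  · intro r L hL
    have : (algebraMap ℂ (Module.End ℂ (MvPolynomial ι ℂ)) r) ∘ₗ L = r • L := by
      apply LinearMap.ext
      intro h
      simp [Module.algebraMap_end_apply]
    rw [this]
    exact Submodule.smul_mem _ _ hL
  · intro Q Q' _ _ h h' L hL
    rw [LinearMap.add_comp]
    exact add_mem (h L hL) (h' L hL)
  · intro Q Q' _ _ h h' L hL
    have : (Q * Q') ∘ₗ L = Q ∘ₗ (Q' ∘ₗ L) := by
      apply LinearMap.ext
      intro x
      simp
    rw [this]
    exact h _ (h' L hL)

/-- `ρ ∘ Q ∘ φ` is a differential operator -/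
theorem retract_mem_Weyl [Fintype κ] (φ : MvPolynomial κ ℂ →ₐ[ℂ] MvPolynomial ι ℂ)
    (ρ : MvPolynomial ι ℂ →ₗ[ℂ] MvPolynomial κ ℂ) (hρ : ∀ g h, ρ (φ g * h) = g * ρ h)
    (Q : Module.End ℂ (MvPolynomial ι ℂ)) (hQ : Q ∈ Weyl ι) :
    ((ρ ∘ₗ Q ∘ₗ φ.toLinearMap : MvPolynomial κ ℂ →ₗ[ℂ] MvPolynomial κ ℂ) :
      Module.End ℂ (MvPolynomial κ ℂ)) ∈ Weyl κ := by
  have h0 : φ.toLinearMap ∈ nfSpan φ := by
    refine Submodule.subset_span ⟨1, 1, one_mem _, ?_⟩
    apply LinearMap.ext
    intro x
    simp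
  have h1 : Q ∘ₗ φ.toLinearMap ∈ nfSpan φ := nf_closed φ Q hQ _ h0
  have h2 : ∀ L ∈ nfSpan φ, ((ρ ∘ₗ L : MvPolynomial κ ℂ →ₗ[ℂ] MvPolynomial κ ℂ) :
      Module.End ℂ (MvPolynomial κ ℂ)) ∈ Weyl κ := by
    intro L hL
    induction hL using Submodule.span_induction with
    | mem L hL =>
        obtain ⟨q, W, hW, rfl⟩ := hL
        have : (ρ ∘ₗ ((LinearMap.mulLeft ℂ q) ∘ₗ φ.toLinearMap ∘ₗ W) :
            Module.End ℂ (MvPolynomial κ ℂ)) = LinearMap.mulLeft ℂ (ρ q) * W := by
          apply LinearMap.ext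
          intro h
          simp only [LinearMap.comp_apply, LinearMap.mulLeft_apply, AlgHom.toLinearMap_apply,
            Module.End.mul_apply]
          rw [mul_comm q, hρ, mul_comm]
        rw [this]
        exact mul_mem (mulLeft_mem_Weyl _) hW
    | zero =>
        have : (ρ ∘ₗ (0 : MvPolynomial κ ℂ →ₗ[ℂ] MvPolynomial ι ℂ)) = 0 := LinearMap.comp_zero _
        rw [this]
        exact zero_mem _
    | add L L' _ _ h h' =>
        rw [LinearMap.comp_add]
        exact add_mem h h'
    | smul c L _ h =>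
        rw [LinearMap.comp_smul]
        exact Subalgebra.smul_mem _ h _
  exact h2 _ h1

/-- the action of a polynomial with Weyl algebra coefficients -/
theorem wact_eq_sum (P : Polynomial (Weyl ι)) (k : ℕ) (h : MvPolynomial ι ℂ) (n : ℕ)
    (hn : P.natDegree < n) :
    wact P k h = ∑ i ∈ Finset.range n, C ((k : ℂ) ^ i) *
      ((P.coeff i : Module.End ℂ (MvPolynomial ι ℂ)) h) := by
  have hk : ((k : Weyl ι) : Module.End ℂ (MvPolynomial ι ℂ)) =
      ((k : ℕ) : Module.End ℂ (MvPolynomial ι ℂ)) := by simp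
  have h1 : ∀ i : ℕ, ((((k : ℕ) : Module.End ℂ (MvPolynomial ι ℂ)) ^ i :
      Module.End ℂ (MvPolynomial ι ℂ)) h) = C ((k : ℂ) ^ i) * h := by
    intro i
    induction i with
    | zero => simp
    | succ i ih =>
        rw [pow_succ', Module.End.mul_apply, ih, Module.End.natCast_apply, pow_succ,
          nsmul_eq_mul]
        simp only [map_mul, map_pow, map_natCast]
        ring
  rw [wact, Polynomial.eval_eq_sum_range' hn]
  rw [AddSubmonoidClass.coe_finsetSum, LinearMap.sum_apply]
  refine Finset.sum_congr rfl fun i _ => ?_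
  rw [MulMemClass.coe_mul, SubmonoidClass.coe_pow, hk, Module.End.mul_apply, h1,
    ← MvPolynomial.smul_eq_C_mul, ← MvPolynomial.smul_eq_C_mul, map_smul]

/-- construction of an element of `A_n[s]` from finitely many operators -/
theorem exists_wact (n : ℕ) (Q : ℕ → Module.End ℂ (MvPolynomial ι ℂ)) (hQ : ∀ i, Q i ∈ Weyl ι) :
    ∃ P : Polynomial (Weyl ι), ∀ (k : ℕ) (h : MvPolynomial ι ℂ),
      wact P k h = ∑ i ∈ Finset.range n, C ((k : ℂ) ^ i) * Q i h := by
  classical
  refine ⟨∑ i ∈ Finset.range n, Polynomial.monomial i (⟨Q i, hQ i⟩ : Weyl ι), fun k h => ?_⟩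
  have h2 : (∑ i ∈ Finset.range n, Polynomial.monomial i (⟨Q i, hQ i⟩ : Weyl ι)).natDegree <
      n + 1 := by
    refine lt_of_le_of_lt (Polynomial.natDegree_sum_le_of_forall_le (n := n) _ _ ?_) (Nat.lt_succ_self n)
    intro i hi
    exact (Polynomial.natDegree_monomial_le _).trans (Finset.mem_range.mp hi).le
  rw [wact_eq_sum _ k h (n + 1) h2, Finset.sum_range_succ]
  have h3 : ∀ i, (∑ j ∈ Finset.range n, Polynomial.monomial j (⟨Q j, hQ j⟩ : Weyl ι)).coeff i =
      if i < n then (⟨Q i, hQ i⟩ : Weyl ι) else 0 := by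
    intro i
    rw [Polynomial.finsetSum_coeff]
    simp only [Polynomial.coeff_monomial]
    by_cases hi : i < n
    · rw [Finset.sum_eq_single i] <;> simp [hi]
      · intro b _ hb hbi
        exact absurd hbi hb
    · rw [Finset.sum_eq_zero]
      · simp [hi]
      · intro j hj
        have : j ≠ i := by
          rintro rfl
          exact hi (Finset.mem_range.mp hj)
        simp [this]
  rw [h3 n]
  simp only [lt_irrefl, if_false]
  rw [ZeroMemClass.coe_zero, LinearMap.zero_apply, mul_zero, add_zero]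
  refine Finset.sum_congr rfl fun i hi => ?_
  rw [h3 i, if_pos (Finset.mem_range.mp hi)]

theorem stmt_Push : Stmt_Push := by
  intro ι κ _ _ φ F p p' b hret hloc
  obtain ⟨P, v, hv, hP⟩ := hloc
  obtain ⟨ρ, hρ, hρv⟩ := hret v hv
  obtain ⟨P', hP'⟩ := exists_wact (ι := κ) (P.natDegree + 1)
    (fun i => (ρ ∘ₗ (P.coeff i : Module.End ℂ (MvPolynomial ι ℂ)) ∘ₗ φ.toLinearMap :
      MvPolynomial κ ℂ →ₗ[ℂ] MvPolynomial κ ℂ))
    (fun i => retract_mem_Weyl φ ρ hρ _ (P.coeff i).2)
  have hC : ∀ c : ℂ, φ (C c) = C c := by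
    intro c
    rw [← MvPolynomial.algebraMap_eq, AlgHom.commutes]
    rfl
  refine ⟨P', ρ v, hρv, ?_⟩
  filter_upwards [hP] with k hk
  have h1 : wact P' k (F ^ (k + 1)) = ρ (wact P k (φ F ^ (k + 1))) := by
    rw [hP', wact_eq_sum P k _ _ (Nat.lt_succ_self _), map_sum]
    refine Finset.sum_congr rfl fun i _ => ?_
    rw [← hC, hρ]
    simp
  rw [h1, hk, ← map_pow, ← hC, mul_comm v, hρ, hρ]
  ring

end Push

end Pool.Agent.Mono
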