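import Pool.Agent.Work.Monodromy.Interface2
import Pool.Agent.Work.Monodromy.Push

/-!
# Passage to formal coordinates: block FP

Every differential operator `W` on `ℂ[x]` extends along `E : ℂ[x] → ℂ[[z]]`, `x = ξ + ψ(z)`
(with invertible Jacobian matrix): there is `W'` in the formal Weyl algebra with
`W' (E h) = E (W h)`.
-/

namespace Pool.Agent.Mono

open MvPolynomial

section FP

variable {ι : Type}

/-- chain rule for algebra homomorphisms into power series -/
theorem fpderiv_algHom [Fintype ι] {κ : Type} (φ : MvPolynomial ι ℂ →ₐ[ℂ] MvPowerSeries κ ℂ)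
    (i : κ) (h : MvPolynomial ι ℂ) :
    MvPowerSeries.pderiv ℂ i (φ h) =
      ∑ j, MvPowerSeries.pderiv ℂ i (φ (X j)) * φ (pderiv j h) := by
  classical
  induction h using MvPolynomial.induction_on with
  | C a =>
      have h1 : φ (C a) = algebraMap ℂ (MvPowerSeries κ ℂ) a := by
        rw [← MvPolynomial.algebraMap_eq, AlgHom.commutes]
      rw [h1, Derivation.map_algebraMap]
      simp
  | add p q hp hq =>
      simp only [map_add, hp, hq, mul_add, Finset.sum_add_distrib]
  | mul_X p j hp =>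
      have h1 : ∀ l, MvPowerSeries.pderiv ℂ i (φ (X l)) * φ (pderiv l (p * X j)) =
          φ (X j) * (MvPowerSeries.pderiv ℂ i (φ (X l)) * φ (pderiv l p)) +
            (if j = l then φ p * MvPowerSeries.pderiv ℂ i (φ (X j)) else 0) := by
        intro l
        rw [Derivation.leibniz, pderiv_X]
        by_cases hjl : j = l
        · subst hjl
          simp
          ring
        · simp [hjl]
          ring
      simp only [h1, Finset.sum_add_distrib, ← Finset.mul_sum, ← hp, Finset.sum_ite_eq,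
        Finset.mem_univ, if_true]
      rw [map_mul, Derivation.leibniz]
      simp
      ring

theorem mulLeft_mem_FWeyl (g : MvPowerSeries ι ℂ) : LinearMap.mulLeft ℂ g ∈ FWeyl ι :=
  Algebra.subset_adjoin (Or.inl ⟨g, rfl⟩)

theorem pderiv_mem_FWeyl (i : ι) : ((MvPowerSeries.pderiv ℂ i :
      Derivation ℂ (MvPowerSeries ι ℂ) (MvPowerSeries ι ℂ)) :
      MvPowerSeries ι ℂ →ₗ[ℂ] MvPowerSeries ι ℂ) ∈ FWeyl ι :=
  Algebra.subset_adjoin (Or.inr ⟨i, rfl⟩)

/-- the algebra homomorphism `expand` -/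
noncomputable def expandHom (ξ : ι → ℂ) (ψ : ι → MvPowerSeries ι ℂ) :
    MvPolynomial ι ℂ →ₐ[ℂ] MvPowerSeries ι ℂ :=
  aeval (fun i => MvPowerSeries.C (ξ i) + ψ i)

theorem expandHom_apply (ξ : ι → ℂ) (ψ : ι → MvPowerSeries ι ℂ) (f : MvPolynomial ι ℂ) :
    expandHom ξ ψ f = expand f ξ ψ := rfl

/-- `W` extends to an operator of the formal Weyl algebra -/
def HasExt (ξ : ι → ℂ) (ψ : ι → MvPowerSeries ι ℂ) (W : Module.End ℂ (MvPolynomial ι ℂ)) : Prop :=
  ∃ W' : Module.End ℂ (MvPowerSeries ι ℂ), W' ∈ FWeyl ι ∧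
    ∀ h : MvPolynomial ι ℂ, W' (expandHom ξ ψ h) = expandHom ξ ψ (W h)

/-- extension of differential operators -/
theorem exists_extend [Fintype ι] [DecidableEq ι] (ξ : ι → ℂ) (ψ : ι → MvPowerSeries ι ℂ)
    (hJ : (Matrix.of fun i j => MvPowerSeries.coeff (Finsupp.single j 1) (ψ i)).det ≠ 0)
    (W : Module.End ℂ (MvPolynomial ι ℂ)) (hW : W ∈ Weyl ι) : HasExt ξ ψ W := by
  refine Algebra.adjoin_induction
    (p := fun (W : Module.End ℂ (MvPolynomial ι ℂ)) _ => HasExt ξ ψ W) ?_ ?_ ?_ ?_ hW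
  · rintro W (⟨i, rfl⟩ | ⟨k, rfl⟩)
    · refine ⟨LinearMap.mulLeft ℂ (expandHom ξ ψ (X i)), mulLeft_mem_FWeyl _, fun h => ?_⟩
      simp
    · -- the Jacobian matrix
      set Jac : Matrix ι ι (MvPowerSeries ι ℂ) :=
        Matrix.of fun j l => MvPowerSeries.pderiv ℂ j (expandHom ξ ψ (X l)) with hJac
      have hdet : IsUnit Jac.det := by
        rw [MvPowerSeries.isUnit_iff_constantCoeff, isUnit_iff_ne_zero]
        have h1 : MvPowerSeries.constantCoeff Jac.det =
            (Matrix.of fun i j => MvPowerSeries.coeff (Finsupp.single j 1) (ψ i)).det := by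
          rw [RingHom.map_det, ← Matrix.det_transpose]
          congr 1
          ext i j
          rw [Matrix.transpose_apply, RingHom.mapMatrix_apply, Matrix.map_apply, hJac,
            Matrix.of_apply, Matrix.of_apply]
          have h2 : expandHom ξ ψ (X i) = MvPowerSeries.C (ξ i) + ψ i := by
            simp [expandHom]
          rw [h2, map_add]
          have h3 : MvPowerSeries.pderiv ℂ j (MvPowerSeries.C (ξ i) : MvPowerSeries ι ℂ) = 0 :=
            Derivation.map_algebraMap (MvPowerSeries.pderiv ℂ j) (ξ i)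
          rw [h3, zero_add, ← MvPowerSeries.coeff_zero_eq_constantCoeff_apply,
            MvPowerSeries.coeff_pderiv]
          simp
        rw [h1]
        exact hJ
      refine ⟨∑ j, LinearMap.mulLeft ℂ (Jac⁻¹ k j) * (((MvPowerSeries.pderiv ℂ j :
        Derivation ℂ (MvPowerSeries ι ℂ) (MvPowerSeries ι ℂ)) :
        MvPowerSeries ι ℂ →ₗ[ℂ] MvPowerSeries ι ℂ) : Module.End ℂ (MvPowerSeries ι ℂ)),
        sum_mem fun j _ => mul_mem (mulLeft_mem_FWeyl _) (pderiv_mem_FWeyl j), fun h => ?_⟩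
      rw [LinearMap.sum_apply]
      simp only [Module.End.mul_apply, LinearMap.mulLeft_apply, Derivation.coeFn_coe]
      have h4 : ∀ j, Jac⁻¹ k j * MvPowerSeries.pderiv ℂ j (expandHom ξ ψ h) =
          ∑ l, (Jac⁻¹ k j * Jac j l) * expandHom ξ ψ (pderiv l h) := by
        intro j
        rw [fpderiv_algHom, Finset.mul_sum]
        refine Finset.sum_congr rfl fun l _ => ?_
        rw [hJac, Matrix.of_apply, mul_assoc]
      rw [Finset.sum_congr rfl fun j _ => h4 j, Finset.sum_comm]
      have h5 : ∀ l, ∑ j, Jac⁻¹ k j * Jac j l * expandHom ξ ψ (pderiv l h) =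
          (1 : Matrix ι ι (MvPowerSeries ι ℂ)) k l * expandHom ξ ψ (pderiv l h) := by
        intro l
        rw [← Finset.sum_mul, ← Matrix.mul_apply, Matrix.nonsing_inv_mul _ hdet]
      rw [Finset.sum_congr rfl fun l _ => h5 l]
      simp [Matrix.one_apply]
  · intro r
    refine ⟨algebraMap ℂ _ r, Subalgebra.algebraMap_mem _ r, fun h => ?_⟩
    rw [Module.algebraMap_end_apply, Module.algebraMap_end_apply, map_smul]
  · rintro W V _ _ ⟨W', hW', h1⟩ ⟨V', hV', h2⟩
    exact ⟨W' + V', add_mem hW' hV', fun h => by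
      rw [LinearMap.add_apply, LinearMap.add_apply, h1, h2, map_add]⟩
  · rintro W V _ _ ⟨W', hW', h1⟩ ⟨V', hV', h2⟩
    exact ⟨W' * V', mul_mem hW' hV', fun h => by
      rw [Module.End.mul_apply, Module.End.mul_apply, h2, h1]⟩

/-- the action of a polynomial with formal Weyl algebra coefficients -/
theorem fact_eq_sum (P : Polynomial (FWeyl ι)) (k : ℕ) (h : MvPowerSeries ι ℂ) (n : ℕ)
    (hn : P.natDegree < n) :
    fact P k h = ∑ i ∈ Finset.range n, ((k : ℂ) ^ i) •
      ((P.coeff i : Module.End ℂ (MvPowerSeries ι ℂ)) h) := by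
  have hk : ((k : FWeyl ι) : Module.End ℂ (MvPowerSeries ι ℂ)) =
      ((k : ℕ) : Module.End ℂ (MvPowerSeries ι ℂ)) := by simp
  have h1 : ∀ i : ℕ, ((((k : ℕ) : Module.End ℂ (MvPowerSeries ι ℂ)) ^ i :
      Module.End ℂ (MvPowerSeries ι ℂ)) h) = ((k : ℂ) ^ i) • h := by
    intro i
    induction i with
    | zero => simp
    | succ i ih =>
        rw [pow_succ', Module.End.mul_apply, ih, Module.End.natCast_apply, pow_succ',
          mul_smul, Nat.cast_smul_eq_nsmul]
  rw [fact, Polynomial.eval_eq_sum_range' hn]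
  rw [AddSubmonoidClass.coe_finsetSum, LinearMap.sum_apply]
  refine Finset.sum_congr rfl fun i _ => ?_
  rw [MulMemClass.coe_mul, SubmonoidClass.coe_pow, hk, Module.End.mul_apply, h1, map_smul]

/-- construction of a polynomial from finitely many operators -/
theorem exists_fact (n : ℕ) (Q : ℕ → Module.End ℂ (MvPowerSeries ι ℂ))
    (hQ : ∀ i, Q i ∈ FWeyl ι) :
    ∃ P : Polynomial (FWeyl ι), ∀ (k : ℕ) (h : MvPowerSeries ι ℂ),
      fact P k h = ∑ i ∈ Finset.range n, ((k : ℂ) ^ i) • Q i h := by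
  classical
  refine ⟨∑ i ∈ Finset.range n, Polynomial.monomial i (⟨Q i, hQ i⟩ : FWeyl ι), fun k h => ?_⟩
  have h2 : (∑ i ∈ Finset.range n, Polynomial.monomial i (⟨Q i, hQ i⟩ : FWeyl ι)).natDegree <
      n + 1 := by
    refine lt_of_le_of_lt (Polynomial.natDegree_sum_le_of_forall_le (n := n) _ _ ?_)
      (Nat.lt_succ_self n)
    intro i hi
    exact (Polynomial.natDegree_monomial_le _).trans (Finset.mem_range.mp hi).le
  rw [fact_eq_sum _ k h (n + 1) h2, Finset.sum_range_succ]
  have h3 : ∀ i, (∑ j ∈ Finset.range n, Polynomial.monomial j (⟨Q j, hQ j⟩ : FWeyl ι)).coeff i =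
      if i < n then (⟨Q i, hQ i⟩ : FWeyl ι) else 0 := by
    intro i
    rw [Polynomial.finsetSum_coeff]
    simp only [Polynomial.coeff_monomial]
    by_cases hi : i < n
    · rw [Finset.sum_eq_single i] <;> simp [hi]
      · intro b _ hb hbi
        exact absurd hbi hb
    · rw [Finset.sum_eq_zero]
      · simp [hi]
      · intro j hj
        have : j ≠ i := by
          rintro rfl
          exact hi (Finset.mem_range.mp hj)
        simp [this]
  rw [h3 n]
  simp only [lt_irrefl, if_false]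
  rw [ZeroMemClass.coe_zero, LinearMap.zero_apply, smul_zero, add_zero]
  refine Finset.sum_congr rfl fun i hi => ?_
  rw [h3 i, if_pos (Finset.mem_range.mp hi)]

theorem stmt_FP : Stmt_FP := by
  intro ι _ _ f ξ ψ b _ hJ hb
  obtain ⟨P, hP⟩ := hb
  choose Q hQ hQ' using fun i : ℕ => exists_extend ξ ψ hJ _ (P.coeff i).2
  obtain ⟨P', hP'⟩ := exists_fact (P.natDegree + 1) Q hQ
  refine ⟨P', 1, by simp, ?_⟩
  filter_upwards [hP] with k hk
  rw [← expandHom_apply, ← map_pow, hP']
  have h1 : ∑ i ∈ Finset.range (P.natDegree + 1),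
      ((k : ℂ) ^ i) • Q i (expandHom ξ ψ (f ^ (k + 1))) =
      expandHom ξ ψ (wact P k (f ^ (k + 1))) := by
    rw [wact_eq_sum P k _ _ (Nat.lt_succ_self _), map_sum]
    refine Finset.sum_congr rfl fun i _ => ?_
    rw [hQ', ← MvPolynomial.smul_eq_C_mul, map_smul]
  rw [h1, hk, ← MvPolynomial.smul_eq_C_mul, map_smul, map_pow, one_mul,
    MvPowerSeries.smul_eq_C_mul]

end FP

end Pool.Agent.Mono
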