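import Pool.Agent.Work.Monodromy.Interface

/-!
# Block YC: constructible sets
-/

set_option autoImplicit false

namespace Pool.Agent.Mono

open MvPolynomial

/-- preimages of constructible sets under polynomial maps -/
theorem stmt_YC : Stmt_YC := by
  intro ι κ φ s hs
  induction hs with
  | zero p =>
    have h : {x : ι → ℂ | (fun j => eval x (φ j)) ∈ {y : κ → ℂ | eval y p = 0}} =
        {x | eval x (bind₁ φ p) = 0} := by
      ext x
      have h1 : eval x (bind₁ φ p) = eval (fun j => eval x (φ j)) p :=
        eval₂Hom_bind₁ (RingHom.id ℂ) x φ p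
      simp only [Set.mem_ofPred_eq, h1]
    rw [h]
    exact Constructible.zero _
  | compl _ ih => exact Constructible.compl ih
  | inter _ _ ih₁ ih₂ => exact Constructible.inter ih₁ ih₂

namespace Constructible

variable {ι κ : Type}

lemma preimage (φ : κ → MvPolynomial ι ℂ) {s : Set (κ → ℂ)} (hs : Constructible s) :
    Constructible {x : ι → ℂ | (fun j => eval x (φ j)) ∈ s} := stmt_YC ι κ φ s hs

/-- preimage under a map of coordinates -/
lemma comap (τ : κ → ι) {s : Set (κ → ℂ)} (hs : Constructible s) :
    Constructible {x : ι → ℂ | (fun j => x (τ j)) ∈ s} := by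
  have h := preimage (fun j => (X (τ j) : MvPolynomial ι ℂ)) hs
  simpa only [eval_X] using h

lemma univ : Constructible (Set.univ : Set (ι → ℂ)) := by
  have h := Constructible.zero (0 : MvPolynomial ι ℂ)
  simpa using h

lemma empty : Constructible (∅ : Set (ι → ℂ)) := by
  have h := (univ (ι := ι)).compl
  simpa using h

lemma union {s t : Set (ι → ℂ)} (hs : Constructible s) (ht : Constructible t) :
    Constructible (s ∪ t) := by
  have h := (hs.compl.inter ht.compl).compl
  rwa [Set.compl_inter, compl_compl, compl_compl] at h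

lemma diff {s t : Set (ι → ℂ)} (hs : Constructible s) (ht : Constructible t) :
    Constructible (s \ t) := hs.inter ht.compl

lemma ne (p : MvPolynomial ι ℂ) : Constructible {x | eval x p ≠ 0} := (Constructible.zero p).compl

lemma eq (p q : MvPolynomial ι ℂ) : Constructible {x | eval x p = eval x q} := by
  have h := Constructible.zero (p - q)
  have h2 : {x : ι → ℂ | eval x p = eval x q} = {x | eval x (p - q) = 0} := by
    ext x
    simp only [Set.mem_ofPred_eq]
    rw [map_sub, sub_eq_zero]
  rw [h2]
  exact h

lemma const (p : Prop) : Constructible {_x : ι → ℂ | p} := by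
  by_cases h : p
  · have : {_x : ι → ℂ | p} = Set.univ := by ext x; simp [h]
    rw [this]; exact univ
  · have : {_x : ι → ℂ | p} = ∅ := by ext x; simp [h]
    rw [this]; exact empty

lemma not {p : (ι → ℂ) → Prop} (h : Constructible {x | p x}) : Constructible {x | ¬ p x} := h.compl

lemma and {p q : (ι → ℂ) → Prop} (h : Constructible {x | p x}) (h' : Constructible {x | q x}) :
    Constructible {x | p x ∧ q x} := h.inter h'

lemma or {p q : (ι → ℂ) → Prop} (h : Constructible {x | p x}) (h' : Constructible {x | q x}) :
    Constructible {x | p x ∨ q x} := h.union h'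

lemma imp {p q : (ι → ℂ) → Prop} (h : Constructible {x | p x}) (h' : Constructible {x | q x}) :
    Constructible {x | p x → q x} := by
  have h2 : {x | p x → q x} = {x | ¬ p x ∨ q x} := by
    ext x
    simp only [Set.mem_ofPred_eq]
    exact imp_iff_not_or
  rw [h2]
  exact or (not h) h'

lemma iff {p q : (ι → ℂ) → Prop} (h : Constructible {x | p x}) (h' : Constructible {x | q x}) :
    Constructible {x | p x ↔ q x} := by
  have h2 : {x | p x ↔ q x} = {x | (p x → q x) ∧ (q x → p x)} := by
    ext x
    simp only [Set.mem_ofPred_eq]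
    exact iff_iff_implies_and_implies
  rw [h2]
  exact and (imp h h') (imp h' h)

lemma all_finset {α : Type*} (s : Finset α) {p : α → (ι → ℂ) → Prop}
    (h : ∀ a ∈ s, Constructible {x | p a x}) : Constructible {x | ∀ a ∈ s, p a x} := by
  classical
  induction s using Finset.induction_on with
  | empty =>
    have : {x : ι → ℂ | ∀ a ∈ (∅ : Finset α), p a x} = Set.univ := by
      ext x; simp
    rw [this]; exact univ
  | insert a s ha ih =>
    have h2 : {x | ∀ b ∈ insert a s, p b x} = {x | p a x ∧ ∀ b ∈ s, p b x} := by
      ext x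
      simp only [Set.mem_ofPred_eq, Finset.forall_mem_insert]
    rw [h2]
    exact and (h a (Finset.mem_insert_self a s)) (ih fun b hb => h b (Finset.mem_insert_of_mem hb))

lemma all {α : Type*} [Finite α] {p : α → (ι → ℂ) → Prop} (h : ∀ a, Constructible {x | p a x}) :
    Constructible {x | ∀ a, p a x} := by
  have := Fintype.ofFinite α
  have h2 := all_finset Finset.univ (p := p) (fun a _ => h a)
  simpa only [Finset.mem_univ, true_implies] using h2

lemma ex_finset {α : Type*} (s : Finset α) {p : α → (ι → ℂ) → Prop}
    (h : ∀ a ∈ s, Constructible {x | p a x}) : Constructible {x | ∃ a ∈ s, p a x} := by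
  have h2 : {x | ∃ a ∈ s, p a x} = {x | ¬ ∀ a ∈ s, ¬ p a x} := by
    ext x
    simp only [Set.mem_ofPred_eq]
    push Not
    rfl
  rw [h2]
  exact not (all_finset s fun a ha => not (h a ha))

lemma ex {α : Type*} [Finite α] {p : α → (ι → ℂ) → Prop} (h : ∀ a, Constructible {x | p a x}) :
    Constructible {x | ∃ a, p a x} := by
  have h2 : {x | ∃ a, p a x} = {x | ¬ ∀ a, ¬ p a x} := by
    ext x
    simp only [Set.mem_ofPred_eq]
    push Not
    rfl
  rw [h2]
  exact not (all fun a => not (h a))

/-- bounded quantifiers over natural numbers -/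
lemma all_lt (k : ℕ) {p : ℕ → (ι → ℂ) → Prop} (h : ∀ l < k, Constructible {x | p l x}) :
    Constructible {x | ∀ l < k, p l x} := by
  have h2 := all_finset (Finset.range k) (p := p) (fun l hl => h l (Finset.mem_range.1 hl))
  simpa only [Finset.mem_range] using h2

lemma iUnion {α : Type*} [Finite α] {s : α → Set (ι → ℂ)} (h : ∀ a, Constructible (s a)) :
    Constructible (⋃ a, s a) := by
  have h2 := ex (p := fun a x => x ∈ s a) h
  have h3 : (⋃ a, s a) = {x | ∃ a, x ∈ s a} := by
    ext x; simp
  rw [h3]
  exact h2

lemma iInter {α : Type*} [Finite α] {s : α → Set (ι → ℂ)} (h : ∀ a, Constructible (s a)) :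
    Constructible (⋂ a, s a) := by
  have h2 := all (p := fun a x => x ∈ s a) h
  have h3 : (⋂ a, s a) = {x | ∀ a, x ∈ s a} := by
    ext x; simp
  rw [h3]
  exact h2

/-- a single point -/
lemma point [Finite ι] (a : ι → ℂ) : Constructible {x : ι → ℂ | x = a} := by
  have h2 : {x : ι → ℂ | x = a} = {x | ∀ i, eval x (X i) = eval x (C (a i))} := by
    ext x
    simp only [Set.mem_ofPred_eq, eval_X, eval_C]
    exact funext_iff
  rw [h2]
  exact all fun i => eq _ _

/-- products -/
lemma prodSet {s : Set (ι → ℂ)} {t : Set (κ → ℂ)} (hs : Constructible s) (ht : Constructible t) :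
    Constructible {x : ι ⊕ κ → ℂ | (fun i => x (Sum.inl i)) ∈ s ∧ (fun j => x (Sum.inr j)) ∈ t} :=
  and (comap Sum.inl hs) (comap Sum.inr ht)

lemma pset {B : Set (ι → ℂ)} {S : Set (κ → ℂ)} (hB : Constructible B) (hS : Constructible S) :
    Constructible (Mono.pset B S) := prodSet hB hS

lemma cover (g : ℕ) {B : Set (ι → ℂ)} (hB : Constructible B) (h : MvPolynomial ι ℂ) :
    Constructible (Mono.cover g B h) := by
  refine and (comap Sum.inl hB) ?_
  have h2 := eq (X (Sum.inr ()) ^ g) (rename Sum.inl h : MvPolynomial (ι ⊕ Unit) ℂ)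
  have h3 : {v : ι ⊕ Unit → ℂ | v (Sum.inr ()) ^ g = eval (fun p => v (Sum.inl p)) h} =
      {v | eval v (X (Sum.inr ()) ^ g) = eval v (rename Sum.inl h)} := by
    ext v
    simp only [Set.mem_ofPred_eq, map_pow, eval_X, eval_rename]
    rfl
  rw [h3]
  exact h2

end Constructible

lemma eval_pmul {E σ : Type} (h : MvPolynomial E ℂ) (u : MvPolynomial σ ℂ) (v : E ⊕ σ → ℂ) :
    eval v (pmul h u) = eval (fun p => v (Sum.inl p)) h * eval (fun q => v (Sum.inr q)) u := by
  rw [pmul, map_mul, eval_rename, eval_rename]
  rfl

/-- The strata are constructible. -/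
lemma Data.constructible_str {ι κ : Type} [Fintype ι] [Fintype κ] [DecidableEq ι] [DecidableEq κ]
    (D : Data ι κ) (J : Finset ι) (A : Finset κ) : Constructible (D.str J A) := by
  refine Constructible.and (Constructible.all fun i => ?_) (Constructible.all fun j => ?_)
  · refine Constructible.iff ?_ (Constructible.const _)
    have h := Constructible.ne (X i : MvPolynomial ι ℂ)
    simpa only [eval_X] using h
  · exact Constructible.iff (Constructible.zero _) (Constructible.const _)

end Pool.Agent.Mono
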