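import Pool.Agent.Work.Monodromy.Interface2
import Pool.Agent.Work.Monodromy.YC

/-!
# Polynomials in one-variable polynomials have local models
-/

namespace Pool.Agent.Mono

open MvPolynomial

namespace GLoc

set_option linter.unusedSectionVars false

section Reg

variable {ι σ : Type} {S : Set (ι → ℂ)}

theorem reg_eval (p : MvPolynomial ι ℂ) : RegularOn S fun ξ => eval ξ p :=
  ⟨p, 1, fun ξ _ => by simp⟩

theorem reg_const (c : ℂ) : RegularOn S fun _ => c := ⟨C c, 1, fun ξ _ => by simp⟩

theorem reg_congr {φ φ' : (ι → ℂ) → ℂ} (h : RegularOn S φ) (e : ∀ ξ ∈ S, φ' ξ = φ ξ) :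
    RegularOn S φ' := by
  obtain ⟨n, d, h⟩ := h
  exact ⟨n, d, fun ξ hξ => ⟨(h ξ hξ).1, (e ξ hξ).trans (h ξ hξ).2⟩⟩

theorem reg_add {φ φ' : (ι → ℂ) → ℂ} (h : RegularOn S φ) (h' : RegularOn S φ') :
    RegularOn S fun ξ => φ ξ + φ' ξ := by
  obtain ⟨n, d, h⟩ := h
  obtain ⟨n', d', h'⟩ := h'
  refine ⟨n * d' + n' * d, d * d', fun ξ hξ => ⟨?_, ?_⟩⟩
  · rw [map_mul]
    exact mul_ne_zero (h ξ hξ).1 (h' ξ hξ).1
  · have h1 := (h ξ hξ).1
    have h2 := (h' ξ hξ).1
    simp only [(h ξ hξ).2, (h' ξ hξ).2, map_add, map_mul]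
    field_simp

theorem reg_mul {φ φ' : (ι → ℂ) → ℂ} (h : RegularOn S φ) (h' : RegularOn S φ') :
    RegularOn S fun ξ => φ ξ * φ' ξ := by
  obtain ⟨n, d, h⟩ := h
  obtain ⟨n', d', h'⟩ := h'
  refine ⟨n * n', d * d', fun ξ hξ => ⟨?_, ?_⟩⟩
  · rw [map_mul]
    exact mul_ne_zero (h ξ hξ).1 (h' ξ hξ).1
  · simp only [(h ξ hξ).2, (h' ξ hξ).2, map_mul]
    rw [mul_div_mul_comm]

theorem reg_sum {α : Type*} (s : Finset α) (φ : α → (ι → ℂ) → ℂ)
    (h : ∀ a ∈ s, RegularOn S (φ a)) : RegularOn S fun ξ => ∑ a ∈ s, φ a ξ := by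
  classical
  induction s using Finset.induction_on with
  | empty => simpa using reg_const (S := S) 0
  | insert a s ha ih =>
    simp only [Finset.sum_insert ha]
    exact reg_add (h a (Finset.mem_insert_self _ _))
      (ih fun b hb => h b (Finset.mem_insert_of_mem hb))

/-- a family of power series with regular coefficients -/
def RegFam (S : Set (ι → ℂ)) (U : (ι → ℂ) → MvPowerSeries σ ℂ) : Prop :=
  ∀ n, RegularOn S fun ξ => MvPowerSeries.coeff n (U ξ)

theorem RegFam.const (U : MvPowerSeries σ ℂ) : RegFam S fun _ => U := fun _ => reg_const _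

theorem RegFam.C {φ : (ι → ℂ) → ℂ} (h : RegularOn S φ) :
    RegFam S fun ξ => (MvPowerSeries.C (φ ξ) : MvPowerSeries σ ℂ) := by
  classical
  intro n
  simp only [MvPowerSeries.coeff_C]
  by_cases hn : n = 0
  · simpa [hn] using h
  · simpa [hn] using reg_const (S := S) 0

theorem RegFam.add {U V : (ι → ℂ) → MvPowerSeries σ ℂ} (h : RegFam S U) (h' : RegFam S V) :
    RegFam S fun ξ => U ξ + V ξ := by
  intro n
  simp only [map_add]
  exact reg_add (h n) (h' n)

theorem RegFam.mul {U V : (ι → ℂ) → MvPowerSeries σ ℂ} (h : RegFam S U) (h' : RegFam S V) :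
    RegFam S fun ξ => U ξ * V ξ := by
  classical
  intro n
  simp only [MvPowerSeries.coeff_mul]
  exact reg_sum _ _ fun p _ => reg_mul (h p.1) (h' p.2)

theorem RegFam.pow {U : (ι → ℂ) → MvPowerSeries σ ℂ} (h : RegFam S U) (k : ℕ) :
    RegFam S fun ξ => U ξ ^ k := by
  induction k with
  | zero => simpa using RegFam.const (S := S) (1 : MvPowerSeries σ ℂ)
  | succ k ih => simpa only [pow_succ] using ih.mul h

theorem RegFam.sum {α : Type*} (s : Finset α) (U : α → (ι → ℂ) → MvPowerSeries σ ℂ)
    (h : ∀ a ∈ s, RegFam S (U a)) : RegFam S fun ξ => ∑ a ∈ s, U a ξ := by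
  classical
  induction s using Finset.induction_on with
  | empty => simpa using RegFam.const (S := S) (0 : MvPowerSeries σ ℂ)
  | insert a s ha ih =>
    simp only [Finset.sum_insert ha]
    exact (h a (Finset.mem_insert_self _ _)).add (ih fun b hb => h b (Finset.mem_insert_of_mem hb))

theorem RegFam.prod {α : Type*} (s : Finset α) (U : α → (ι → ℂ) → MvPowerSeries σ ℂ)
    (h : ∀ a ∈ s, RegFam S (U a)) : RegFam S fun ξ => ∏ a ∈ s, U a ξ := by
  classical
  induction s using Finset.induction_on with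
  | empty => simpa using RegFam.const (S := S) (1 : MvPowerSeries σ ℂ)
  | insert a s ha ih =>
    simp only [Finset.prod_insert ha]
    exact (h a (Finset.mem_insert_self _ _)).mul (ih fun b hb => h b (Finset.mem_insert_of_mem hb))

theorem RegFam.aeval {U : (ι → ℂ) → MvPowerSeries σ ℂ} (h : RegFam S U) (q : Polynomial ℂ) :
    RegFam S fun ξ => Polynomial.aeval (U ξ) q := by
  simp only [Polynomial.aeval_eq_sum_range]
  refine RegFam.sum _ _ fun k _ => ?_
  have := (RegFam.C (σ := σ) (reg_const (S := S) (q.coeff k))).mul (h.pow k)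
  simpa only [MvPowerSeries.smul_eq_C_mul] using this

theorem RegFam.mono {S' : Set (ι → ℂ)} (hS : S ⊆ S') {U : (ι → ℂ) → MvPowerSeries σ ℂ}
    (h : RegFam S' U) : RegFam S U := by
  intro n
  obtain ⟨a, b, h⟩ := h n
  exact ⟨a, b, fun ξ hξ => h ξ (hS hξ)⟩

end Reg

section Emb

variable {ι : Type}

def uemb (i : ι) : Unit ↪ ι := ⟨fun _ => i, fun _ _ _ => rfl⟩

/-- one-variable series in the variable `z_i` -/
noncomputable def emb (i : ι) : PowerSeries ℂ →ₐ[ℂ] MvPowerSeries ι ℂ :=
  MvPowerSeries.rename (uemb i)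

theorem emb_C (i : ι) (c : ℂ) : emb i (PowerSeries.C c) = MvPowerSeries.C c :=
  MvPowerSeries.rename_C _ _

theorem emb_X (i : ι) : emb i PowerSeries.X = MvPowerSeries.X i :=
  MvPowerSeries.rename_X _ _

theorem coeff_emb_single (i : ι) (m : ℕ) (ψ : PowerSeries ℂ) :
    MvPowerSeries.coeff (Finsupp.single i m) (emb i ψ) = PowerSeries.coeff m ψ := by
  have h := MvPowerSeries.coeff_embDomain_rename (uemb i) ψ (Finsupp.single () m)
  rw [Finsupp.embDomain_single] at h
  exact h

theorem coeff_emb_ne (i : ι) (n : ι →₀ ℕ) (hn : n ≠ Finsupp.single i (n i)) (ψ : PowerSeries ℂ) :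
    MvPowerSeries.coeff n (emb i ψ) = 0 := by
  apply MvPowerSeries.coeff_rename_eq_zero
  rintro ⟨x, rfl⟩
  apply hn
  have hx : x = Finsupp.single () (x ()) := by
    ext
    simp
  rw [hx, Finsupp.mapDomain_single]
  change Finsupp.single i _ = Finsupp.single i ((Finsupp.single i _ : ι →₀ ℕ) i)
  rw [Finsupp.single_eq_same]

theorem cc_emb (i : ι) (ψ : PowerSeries ℂ) :
    MvPowerSeries.constantCoeff (emb i ψ) = PowerSeries.constantCoeff ψ :=
  MvPowerSeries.constantCoeff_rename _ _

theorem RegFam.emb {S : Set (ι → ℂ)} (i : ι) {ψ : (ι → ℂ) → PowerSeries ℂ}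
    (h : RegFam (σ := Unit) S ψ) : RegFam S fun ξ => emb i (ψ ξ) := by
  intro n
  by_cases hn : n = Finsupp.single i (n i)
  · have h1 := h (Finsupp.single () (n i))
    refine reg_congr h1 fun ξ _ => ?_
    rw [hn, coeff_emb_single, Finsupp.single_eq_same]
    rfl
  · refine reg_congr (reg_const 0) fun ξ _ => ?_
    rw [coeff_emb_ne i n hn]

end Emb

section Local1

/-- the admissible values of one coordinate: not special, or one fixed value -/
def Adm (P q : Polynomial ℂ) : Option ℂ → Set ℂ
  | none => {z | (P.derivative * q).eval z ≠ 0}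
  | some η => {z | z = η}

theorem cc_aeval (U : PowerSeries ℂ) (r : Polynomial ℂ) :
    PowerSeries.constantCoeff (Polynomial.aeval U r) = r.eval (PowerSeries.constantCoeff U) := by
  rw [Polynomial.aeval_def, Polynomial.hom_eval₂]
  have : (PowerSeries.constantCoeff (R := ℂ)).comp (algebraMap ℂ (PowerSeries ℂ)) =
      RingHom.id ℂ := by
    ext c
    simp
  rw [this, Polynomial.eval₂_id]

theorem eval_aeval_X {ι : Type} (i : ι) (ξ : ι → ℂ) (p : Polynomial ℂ) :
    eval ξ (Polynomial.aeval (X i : MvPolynomial ι ℂ) p) = p.eval (ξ i) := by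
  rw [Polynomial.aeval_def, Polynomial.hom_eval₂]
  have : (eval ξ).comp (algebraMap ℂ (MvPolynomial ι ℂ)) = RingHom.id ℂ := by
    ext c
    simp
  rw [this, eval_X, Polynomial.eval₂_id]

theorem local1 (hPsi : Stmt_Psi) (hPsiV : Stmt_PsiV) {ι : Type} (i : ι) (P q : Polynomial ℂ)
    (hP : 1 ≤ P.natDegree) (hq : q ≠ 0) (o : Option ℂ) :
    ∃ (a b : ℕ) (ψ w : (ι → ℂ) → PowerSeries ℂ), 1 ≤ a ∧
      RegFam (σ := Unit) {ξ | ξ i ∈ Adm P q o} ψ ∧ RegFam (σ := Unit) {ξ | ξ i ∈ Adm P q o} w ∧
      ∀ ξ : ι → ℂ, ξ i ∈ Adm P q o →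
        PowerSeries.constantCoeff (ψ ξ) = 0 ∧ PowerSeries.coeff 1 (ψ ξ) ≠ 0 ∧
        PowerSeries.constantCoeff (w ξ) ≠ 0 ∧
        Polynomial.aeval (PowerSeries.C (ξ i) + ψ ξ) P =
          PowerSeries.C (P.eval (ξ i)) + PowerSeries.X ^ a ∧
        Polynomial.aeval (PowerSeries.C (ξ i) + ψ ξ) q = w ξ * PowerSeries.X ^ b := by
  rcases o with _ | η
  · -- not special
    obtain ⟨N, hN⟩ := hPsiV P
    set ψ : (ι → ℂ) → PowerSeries ℂ := fun ξ => PowerSeries.mk fun n =>
      if n = 0 then 0 else (N n).eval (ξ i) / P.derivative.eval (ξ i) ^ (2 * n - 1) with hψ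
    have hne : ∀ ξ : ι → ℂ, ξ i ∈ Adm P q none →
        P.derivative.eval (ξ i) ≠ 0 ∧ q.eval (ξ i) ≠ 0 := by
      intro ξ hξ
      have h : (P.derivative * q).eval (ξ i) ≠ 0 := hξ
      rw [Polynomial.eval_mul] at h
      exact ⟨left_ne_zero_of_mul h, right_ne_zero_of_mul h⟩
    have hreg : RegFam (σ := Unit) {ξ : ι → ℂ | ξ i ∈ Adm P q none} ψ := by
      intro n
      have hn : n = Finsupp.single () (n ()) := by
        ext
        simp
      have e : ∀ ξ, MvPowerSeries.coeff n (ψ ξ) = PowerSeries.coeff (n ()) (ψ ξ) := by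
        intro ξ
        conv_lhs => rw [hn]
        rfl
      by_cases h0 : n () = 0
      · refine reg_congr (reg_const 0) fun ξ _ => ?_
        rw [e, hψ, PowerSeries.coeff_mk, if_pos h0]
      · refine ⟨Polynomial.aeval (X i) (N (n ())),
          Polynomial.aeval (X i) P.derivative ^ (2 * n () - 1), fun ξ hξ => ⟨?_, ?_⟩⟩
        · rw [map_pow, eval_aeval_X]
          exact pow_ne_zero _ (hne ξ hξ).1
        · change MvPowerSeries.coeff n (ψ ξ) = _
          rw [e, hψ, PowerSeries.coeff_mk, if_neg h0, map_pow (eval ξ), eval_aeval_X,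
            eval_aeval_X]
    have hcc : ∀ ξ, PowerSeries.constantCoeff (ψ ξ) = 0 := by
      intro ξ
      rw [← PowerSeries.coeff_zero_eq_constantCoeff_apply, hψ, PowerSeries.coeff_mk, if_pos rfl]
    refine ⟨1, 0, ψ, fun ξ => Polynomial.aeval (PowerSeries.C (ξ i) + ψ ξ) q, le_rfl, hreg, ?_,
      fun ξ hξ => ⟨hcc ξ, (hN (ξ i) (hne ξ hξ).1).1, ?_, ?_, ?_⟩⟩
    · refine RegFam.aeval (σ := Unit) (RegFam.add (σ := Unit) ?_ hreg) q
      refine RegFam.C (σ := Unit) ?_
      exact reg_congr (reg_eval (X i)) fun ξ _ => by rw [eval_X]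
    · rw [cc_aeval, map_add, hcc, add_zero, PowerSeries.constantCoeff_C]
      exact (hne ξ hξ).2
    · rw [pow_one]
      exact (hN (ξ i) (hne ξ hξ).1).2
    · rw [pow_zero, mul_one]
  · -- a fixed value
    obtain ⟨ψ, h0, h1, h2⟩ := hPsi P η hP
    obtain ⟨r, hr, hr'⟩ := Polynomial.exists_eq_pow_rootMultiplicity_mul_and_not_dvd q hq η
    have hrη : r.eval η ≠ 0 := fun h => hr' (Polynomial.dvd_iff_isRoot.2 h)
    obtain ⟨ψ₁, hψ₁⟩ := PowerSeries.X_dvd_iff.2 h0
    have hψ₁c : PowerSeries.constantCoeff ψ₁ = PowerSeries.coeff 1 ψ := by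
      rw [hψ₁, PowerSeries.coeff_succ_X_mul]
      simp
    have ha : 1 ≤ (P - Polynomial.C (P.eval η)).rootMultiplicity η := by
      apply (Polynomial.rootMultiplicity_pos _).2
      · simp [Polynomial.IsRoot.def]
      · intro h
        have h3 : P = Polynomial.C (P.eval η) := sub_eq_zero.1 h
        rw [h3, Polynomial.natDegree_C] at hP
        omega
    refine ⟨_, q.rootMultiplicity η, fun _ => ψ, fun _ => ψ₁ ^ q.rootMultiplicity η *
      Polynomial.aeval (PowerSeries.C η + ψ) r, ha, RegFam.const (σ := Unit) _,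
      RegFam.const (σ := Unit) _, fun ξ hξ => ⟨h0, h1, ?_, ?_, ?_⟩⟩
    · rw [map_mul, map_pow, hψ₁c, cc_aeval, map_add, h0, add_zero, PowerSeries.constantCoeff_C]
      exact mul_ne_zero (pow_ne_zero _ h1) hrη
    · have hξ' : ξ i = η := hξ
      rw [hξ']
      exact h2
    · have hξ' : ξ i = η := hξ
      rw [hξ']
      conv_lhs => rw [hr]
      rw [map_mul, map_pow, map_sub, Polynomial.aeval_X, Polynomial.aeval_C]
      have e : PowerSeries.C η + ψ - algebraMap ℂ (PowerSeries ℂ) η = PowerSeries.X * ψ₁ := by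
        rw [← hψ₁]
        change PowerSeries.C η + ψ - PowerSeries.C η = ψ
        ring
      rw [e]
      ring

end Local1

section Main

variable {ι κ : Type} [Fintype ι] [Fintype κ] [DecidableEq ι] [DecidableEq κ]

/-- special values of the coordinate `i` -/
noncomputable def sp (G : GData ι κ) (i : ι) : Finset ℂ := ((G.P i).derivative * G.q i).roots.toFinset

theorem mem_sp {G : GData ι κ} (hG : G.Valid) {i : ι} {z : ℂ} :
    z ∈ sp G i ↔ ((G.P i).derivative * G.q i).eval z = 0 := by
  have h1 : (G.P i).derivative ≠ 0 := by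
    intro h
    have := Polynomial.derivative_eq_zero.1 h
    have := hG.1 i
    omega
  rw [sp, Multiset.mem_toFinset, Polynomial.mem_roots (mul_ne_zero h1 (hG.2.1 i))]
  rfl

/-- the type of a point -/
abbrev Idx (G : GData ι κ) : Type := (∀ i, Option (sp G i)) × Finset κ

/-- the points of a given type -/
def strat (G : GData ι κ) (x : Idx G) : Set (ι → ℂ) :=
  {ξ | (∀ i, ξ i ∈ Adm (G.P i) (G.q i) ((x.1 i).map Subtype.val)) ∧
    ∀ j, eval ξ (G.form j) = 0 ↔ j ∈ x.2}

theorem strat_constructible (G : GData ι κ) (x : Idx G) : Constructible (strat G x) := by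
  refine Constructible.and (Constructible.all fun i => ?_) (Constructible.all fun j => ?_)
  · rcases h : x.1 i with _ | η
    · have e : {ξ : ι → ℂ | ξ i ∈ Adm (G.P i) (G.q i) none} =
          {ξ | eval ξ (Polynomial.aeval (X i) ((G.P i).derivative * G.q i)) ≠ 0} := by
        ext ξ
        simp only [Set.mem_ofPred_eq]
        rw [eval_aeval_X]
        rfl
      exact e ▸ Constructible.ne (Polynomial.aeval (X i) ((G.P i).derivative * G.q i))
    · have e : {ξ : ι → ℂ | ξ i ∈ Adm (G.P i) (G.q i) (some (η : ℂ))} =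
          {ξ | eval ξ (X i) = eval ξ (C (η : ℂ))} := by
        ext ξ
        simp only [Set.mem_ofPred_eq, eval_X, eval_C]
        rfl
      exact e ▸ Constructible.eq (X i) (C (η : ℂ))
  · exact Constructible.iff (Constructible.zero _) (Constructible.const _)

theorem strat_disjoint {G : GData ι κ} (hG : G.Valid) {x y : Idx G} {ξ : ι → ℂ}
    (hx : ξ ∈ strat G x) (hy : ξ ∈ strat G y) : x = y := by
  refine Prod.ext ?_ ?_
  · funext i
    have h1 := hx.1 i
    have h2 := hy.1 i
    rcases e1 : x.1 i with _ | η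
    · rcases e2 : y.1 i with _ | η'
      · rfl
      · rw [e1] at h1
        rw [e2] at h2
        have h3 : ξ i = η' := h2
        have h4 : ((G.P i).derivative * G.q i).eval (ξ i) ≠ 0 := h1
        rw [h3] at h4
        exact absurd ((mem_sp hG).1 η'.2) h4
    · rcases e2 : y.1 i with _ | η'
      · rw [e1] at h1
        rw [e2] at h2
        have h3 : ξ i = η := h1
        have h4 : ((G.P i).derivative * G.q i).eval (ξ i) ≠ 0 := h2
        rw [h3] at h4
        exact absurd ((mem_sp hG).1 η.2) h4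
      · rw [e1] at h1
        rw [e2] at h2
        have h3 : ξ i = η := h1
        have h4 : ξ i = η' := h2
        rw [Subtype.ext (h3.symm.trans h4)]
  · ext j
    rw [← hx.2 j, ← hy.2 j]

open Classical in
theorem strat_cover {G : GData ι κ} (hG : G.Valid) (ξ : ι → ℂ) : ∃ x, ξ ∈ strat G x := by
  refine ⟨(fun i => if h : ξ i ∈ sp G i then some ⟨ξ i, h⟩ else none,
    Finset.univ.filter fun j => eval ξ (G.form j) = 0), fun i => ?_, fun j => ?_⟩
  · simp only
    split_ifs with h
    · exact rfl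
    · exact fun h' => h ((mem_sp hG).2 h')
  · simp

/-- the local model of the points of type `x` -/
theorem local_model (hPsi : Stmt_Psi) (hPsiV : Stmt_PsiV) (G : GData ι κ) (hG : G.Valid)
    (x : Idx G) (hne : (strat G x).Nonempty) :
    ∃ D : Data ι (Fin (Fintype.card κ)), D.Central ∧ D.Valid ∧
      LocalModel G.poly (strat G x) D.poly := by
  have hloc := fun i => local1 hPsi hPsiV i (G.P i) (G.q i) (hG.1 i) (hG.2.1 i)
    ((x.1 i).map Subtype.val)
  choose a b ψ w ha hψ hw hall using hloc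
  set E := (Fintype.equivFin κ).symm with hE
  set D : Data ι (Fin (Fintype.card κ)) :=
    { a := a
      b := b
      c0 := fun _ => 0
      c := fun j => G.c (E j)
      m := fun j => if E j ∈ x.2 then G.m (E j) else 0 } with hD
  refine ⟨D, fun _ => rfl, ⟨ha, fun j hj => ?_⟩, ?_⟩
  · -- validity
    right
    have hjA : E j ∈ x.2 := by
      by_contra h
      have : D.m j = 0 := if_neg h
      omega
    have hm : 0 < G.m (E j) := by
      have : D.m j = G.m (E j) := if_pos hjA
      omega
    obtain ⟨ξ, hξ⟩ := hne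
    have h0 := (hξ.2 (E j)).2 hjA
    by_contra hcon
    push Not at hcon
    rcases hG.2.2 (E j) hm with h | ⟨i, h⟩
    · apply h
      have hc : ∀ i, G.c (E j) i = 0 := hcon
      rw [GData.form, map_add, eval_C, map_sum] at h0
      simpa [hc] using h0
    · exact h (hcon i)
  · -- the local model
    set L : κ → MvPowerSeries ι ℂ := fun j =>
      ∑ i, MvPowerSeries.C (G.c j i) * MvPowerSeries.X i ^ a i with hL
    have hsub : ∀ i, strat G x ⊆ {ξ | ξ i ∈ Adm (G.P i) (G.q i) ((x.1 i).map Subtype.val)} :=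
      fun i ξ hξ => hξ.1 i
    refine ⟨fun ξ i => emb i (ψ i ξ), fun ξ => (∏ i, emb i (w i ξ)) *
      ∏ j ∈ x.2ᶜ, (MvPowerSeries.C (eval ξ (G.form j)) + L j) ^ G.m j, fun i => ?_, ?_,
      fun ξ hξ => ⟨fun i => ?_, ?_, ?_, ?_⟩⟩
    · exact RegFam.emb i ((hψ i).mono (hsub i))
    · exact (RegFam.prod _ _ fun i _ => RegFam.emb i ((hw i).mono (hsub i))).mul
        (RegFam.prod _ _ fun j _ => ((RegFam.C (reg_eval _)).add (RegFam.const _)).pow _)
    · rw [cc_emb]
      exact (hall i ξ (hξ.1 i)).1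
    · have e : (Matrix.of fun i j => MvPowerSeries.coeff (Finsupp.single j 1) (emb i (ψ i ξ))) =
          Matrix.diagonal fun i => PowerSeries.coeff 1 (ψ i ξ) := by
        ext i j
        rw [Matrix.of_apply, Matrix.diagonal_apply]
        by_cases hij : i = j
        · subst hij
          rw [if_pos rfl, coeff_emb_single]
        · rw [if_neg hij, coeff_emb_ne]
          rw [Finsupp.single_eq_of_ne (fun h => hij h)]
          simp
      rw [e, Matrix.det_diagonal]
      exact Finset.prod_ne_zero_iff.2 fun i _ => (hall i ξ (hξ.1 i)).2.1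
    · rw [map_mul, map_prod, map_prod]
      refine mul_ne_zero (Finset.prod_ne_zero_iff.2 fun i _ => ?_)
        (Finset.prod_ne_zero_iff.2 fun j hj => ?_)
      · rw [cc_emb]
        exact (hall i ξ (hξ.1 i)).2.2.1
      · rw [map_pow, map_add, MvPowerSeries.constantCoeff_C]
        have hL0 : MvPowerSeries.constantCoeff (L j) = 0 := by
          rw [hL]
          simp only [map_sum, map_mul, map_pow, MvPowerSeries.constantCoeff_X]
          refine Finset.sum_eq_zero fun i _ => ?_
          rw [zero_pow (by have := ha i; omega), mul_zero]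
        rw [hL0, add_zero]
        refine pow_ne_zero _ fun h => ?_
        exact (Finset.mem_compl.1 hj) ((hξ.2 j).1 h)
    · -- the identity
      have hg : ∀ i, MvPowerSeries.C (ξ i) + emb i (ψ i ξ) =
          emb i (PowerSeries.C (ξ i) + ψ i ξ) := fun i => by rw [map_add, emb_C]
      have hpoly : ∀ (i : ι) (p : Polynomial ℂ),
          aeval (fun i => MvPowerSeries.C (ξ i) + emb i (ψ i ξ))
            (Polynomial.aeval (X i : MvPolynomial ι ℂ) p) =
          emb i (Polynomial.aeval (PowerSeries.C (ξ i) + ψ i ξ) p) := by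
        intro i p
        rw [← Polynomial.aeval_algHom_apply, aeval_X, hg i, ← Polynomial.aeval_algHom_apply]
      have hq : ∀ i, aeval (fun i => MvPowerSeries.C (ξ i) + emb i (ψ i ξ))
          (Polynomial.aeval (X i : MvPolynomial ι ℂ) (G.q i)) =
          emb i (w i ξ) * MvPowerSeries.X i ^ b i := by
        intro i
        rw [hpoly, (hall i ξ (hξ.1 i)).2.2.2.2, map_mul, map_pow, emb_X]
      have hP : ∀ i, aeval (fun i => MvPowerSeries.C (ξ i) + emb i (ψ i ξ))
          (Polynomial.aeval (X i : MvPolynomial ι ℂ) (G.P i)) =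
          MvPowerSeries.C ((G.P i).eval (ξ i)) + MvPowerSeries.X i ^ a i := by
        intro i
        rw [hpoly, (hall i ξ (hξ.1 i)).2.2.2.1, map_add, map_pow, emb_X, emb_C]
      have hform : ∀ j, aeval (fun i => MvPowerSeries.C (ξ i) + emb i (ψ i ξ)) (G.form j) =
          MvPowerSeries.C (eval ξ (G.form j)) + L j := by
        intro j
        have hC : ∀ c : ℂ, aeval (fun i => MvPowerSeries.C (ξ i) + emb i (ψ i ξ))
            (C c : MvPolynomial ι ℂ) = MvPowerSeries.C c := fun c => by
          rw [aeval_C]; rfl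
        rw [GData.form]
        simp only [map_add, map_sum, map_mul, hC, hP, eval_C, eval_aeval_X, hL]
        simp only [mul_add, Finset.sum_add_distrib]
        rw [add_assoc]
      rw [expand, GData.poly, map_mul, map_prod, map_prod]
      simp only [hq, map_pow, hform, Finset.prod_mul_distrib]
      -- split the forms
      have hsplit : ∏ j, (MvPowerSeries.C (eval ξ (G.form j)) + L j) ^ G.m j =
          (∏ j ∈ x.2, L j ^ G.m j) *
            ∏ j ∈ x.2ᶜ, (MvPowerSeries.C (eval ξ (G.form j)) + L j) ^ G.m j := by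
        rw [← Finset.prod_mul_prod_compl x.2]
        congr 1
        refine Finset.prod_congr rfl fun j hj => ?_
        rw [(hξ.2 j).2 hj, map_zero, zero_add]
      have hDpoly : (D.poly : MvPowerSeries ι ℂ) =
          (∏ i, MvPowerSeries.X i ^ b i) * ∏ j ∈ x.2, L j ^ G.m j := by
        have hform2 : ∀ j, ((D.form j : MvPolynomial ι ℂ) : MvPowerSeries ι ℂ) = L (E j) := by
          intro j
          rw [Data.form, hL]
          have e : ∀ p : MvPolynomial ι ℂ, (p : MvPowerSeries ι ℂ) =
            MvPolynomial.coeToMvPowerSeries.ringHom p := fun p => rfl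
          rw [e, map_add, map_sum]
          simp only [map_mul, map_pow]
          simp [hD]
        have e : ∀ p : MvPolynomial ι ℂ, (p : MvPowerSeries ι ℂ) =
            MvPolynomial.coeToMvPowerSeries.ringHom p := fun p => rfl
        rw [Data.poly, e, map_mul, map_prod, map_prod]
        simp only [map_pow]
        congr 1
        · refine Finset.prod_congr rfl fun i _ => ?_
          simp [hD]
        · have h1 : ∀ j, MvPolynomial.coeToMvPowerSeries.ringHom (D.form j) ^ D.m j =
              (fun j' => if j' ∈ x.2 then L j' ^ G.m j' else 1) (E j) := by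
            intro j
            rw [← e, hform2]
            simp only [hD]
            split_ifs
            · rfl
            · rw [pow_zero]
          rw [Finset.prod_congr rfl fun j _ => h1 j, Equiv.prod_comp E
            (fun j' => if j' ∈ x.2 then L j' ^ G.m j' else 1), Finset.prod_ite_mem,
            Finset.univ_inter]
      rw [hsplit, hDpoly]
      ring

end Main

end GLoc

theorem stmt_GL (hPsi : Stmt_Psi) (hPsiV : Stmt_PsiV) : Stmt_GL := by
  classical
  intro ι κ _ _ _ _ G hG
  have hfin : Finite {x : GLoc.Idx G // (GLoc.strat G x).Nonempty} := inferInstance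
  obtain ⟨r, ⟨e⟩⟩ := Finite.exists_equiv_fin {x : GLoc.Idx G // (GLoc.strat G x).Nonempty}
  have hex := fun a : Fin r => GLoc.local_model hPsi hPsiV G hG (e.symm a).1 (e.symm a).2
  choose D hD using hex
  refine ⟨r, Fintype.card κ, fun a => GLoc.strat G (e.symm a).1, D,
    fun a => GLoc.strat_constructible G _, fun a b hab => ?_, fun ξ _ => ?_, hD⟩
  · rw [Set.disjoint_left]
    intro ξ h1 h2
    apply hab
    apply e.symm.injective
    exact Subtype.ext (GLoc.strat_disjoint hG h1 h2)
  · obtain ⟨x, hx⟩ := GLoc.strat_cover hG ξ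
    rw [Set.mem_iUnion]
    refine ⟨e ⟨x, ξ, hx⟩, ?_⟩
    rw [Equiv.symm_apply_apply]
    exact hx

end Pool.Agent.Mono
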