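import Pool.Agent.Work.Monodromy.Interface

/-!
# Block Jet: comparison of `Z_D` with the zeta function of `f = D.poly`
-/

namespace Pool.Agent.Mono

open MvPolynomial

namespace JetAux

variable {ι κ : Type} [Fintype ι] [Fintype κ] [DecidableEq ι] [DecidableEq κ]

theorem aeval_form (D : Data ι κ) (x : ι → PowerSeries ℂ) (j : κ) :
    (aeval x (D.form j) : PowerSeries ℂ) = D.formS (fun _ => 0) x j := by
  simp only [Data.form, Data.formS, map_add, map_sum, map_mul, map_pow, aeval_X, aeval_C,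
    pow_zero, one_mul]
  rfl

theorem aeval_poly (D : Data ι κ) (x : ι → PowerSeries ℂ) :
    (aeval x D.poly : PowerSeries ℂ) = D.F (fun _ => 0) x := by
  simp only [Data.poly, Data.F, map_mul, map_prod, map_pow, aeval_X, aeval_form]

theorem coe_aeval (x : ι → Polynomial ℂ) (f : MvPolynomial ι ℂ) :
    ((aeval x f : Polynomial ℂ) : PowerSeries ℂ) =
      aeval (fun i => ((x i : Polynomial ℂ) : PowerSeries ℂ)) f := by
  have h := MvPolynomial.comp_aeval_apply (R := ℂ) (f := x)
    (Polynomial.coeToPowerSeries.algHom (R := ℂ) ℂ) f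
  simpa [Polynomial.coeToPowerSeries.algHom_apply] using h

theorem coe_jet {k : ℕ} (v : ι × Fin (k + 1) → ℂ) (i : ι) :
    ((jet v i : Polynomial ℂ) : PowerSeries ℂ) =
      toArc (fun _ : ι => k + 1) (fun s => v (s.1, s.2)) i := by
  ext l
  simp only [jet, toArc, Polynomial.coeff_coe, PowerSeries.coeff_mk, Polynomial.finset_sum_coeff,
    Polynomial.coeff_C_mul, Polynomial.coeff_X_pow]
  split_ifs with h
  · rw [Finset.sum_eq_single (⟨l, h⟩ : Fin (k + 1))]
    · simp
    · intro m _ hm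
      have : l ≠ (m : ℕ) := fun h' => hm (Fin.ext h'.symm)
      simp [this]
    · simp
  · apply Finset.sum_eq_zero
    intro m _
    have : l ≠ (m : ℕ) := fun h' => h (h' ▸ m.2)
    simp [this]

theorem coeff_jet (D : Data ι κ) {k : ℕ} (v : ι × Fin (k + 1) → ℂ) (l : ℕ) :
    (aeval (jet v) D.poly : Polynomial ℂ).coeff l =
      PowerSeries.coeff l (D.F (fun _ => 0)
        (toArc (fun _ : ι => k + 1) (fun s => v (s.1, s.2)))) := by
  have h : (fun i => ((jet v i : Polynomial ℂ) : PowerSeries ℂ)) =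
      toArc (fun _ : ι => k + 1) (fun s => v (s.1, s.2)) := funext fun i => coe_jet v i
  rw [← Polynomial.coeff_coe, coe_aeval, ← aeval_poly, h]

/-- the reindexing -/
def ren (ι : Type) (k : ℕ) : (Empty ⊕ Unit) ⊕ (Σ _ : ι, Fin (k + 1)) → (ι × Fin (k + 1)) ⊕ Unit
  | Sum.inl _ => Sum.inr ()
  | Sum.inr s => Sum.inl (s.1, s.2)

theorem ren_inj (ι : Type) (k : ℕ) : Function.Injective (ren ι k) := by
  rintro ((a | a) | ⟨a, b⟩) ((c | c) | ⟨c, d⟩) h
  all_goals first | exact a.elim | exact c.elim | skip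
  · rfl
  · simp [ren] at h
  · simp [ren] at h
  · simp only [ren, Sum.inl.injEq, Prod.mk.injEq] at h
    obtain ⟨rfl, rfl⟩ := h
    rfl

theorem ren_surj (ι : Type) (k : ℕ) : Function.Surjective (ren ι k) := by
  rintro (⟨a, b⟩ | a)
  · exact ⟨Sum.inr ⟨a, b⟩, rfl⟩
  · exact ⟨Sum.inl (Sum.inr ()), rfl⟩

theorem mem_iff (D : Data ι κ) (e k : ℕ) (z : (ι × Fin (k + 1)) ⊕ Unit → ℂ) :
    z ∈ jetSet D.poly e k ↔ (fun j => z (ren ι k j)) ∈
      sec (fun _ : ι => k + 1) (contact e (Set.univ : Set (Empty → ℂ)) 1 D (fun _ => 0) k) := by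
  simp only [jetSet, sec, contact, Set.mem_setOf_eq, coeff_jet, ren, Set.mem_univ, true_and,
    map_one, one_mul]

end JetAux

theorem stmt_Jet (hYC : Stmt_YC) (hYV : Stmt_YV) (hYF : Stmt_YF) : Stmt_Jet := by
  intro ι κ _ _ _ _ D R _ μ Li hL e
  ext k
  have hcyl := hYF ι κ Empty e (Set.univ : Set (Empty → ℂ)) 1 D (fun _ => 0) k (by
    have h := Constructible.zero (ι := Empty) (0 : MvPolynomial Empty ℂ)
    simpa using h)
  have hvol := hYV R μ Li hL (Empty ⊕ Unit) ι _ _ hcyl
  have hset : jetSet D.poly e k = {z : (ι × Fin (k + 1)) ⊕ Unit → ℂ |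
      (fun j => eval z (X (JetAux.ren ι k j) : MvPolynomial _ ℂ)) ∈
      sec (fun _ : ι => k + 1) (contact e (Set.univ : Set (Empty → ℂ)) 1 D (fun _ => 0) k)} := by
    ext z
    simp only [eval_X, Set.mem_setOf_eq]
    exact JetAux.mem_iff D e k z
  have hcon : Constructible (jetSet D.poly e k) := by
    rw [hset]
    exact hYC _ _ _ _ hcyl.2
  have hval : μ.val (jetSet D.poly e k) =
      μ.val (sec (fun _ : ι => k + 1)
        (contact e (Set.univ : Set (Empty → ℂ)) 1 D (fun _ => 0) k)) := by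
    refine μ.map _ _ (fun j => X (JetAux.ren ι k j)) hcon hcyl.2 ⟨?_, ?_, ?_⟩
    · intro z hz
      simp only [eval_X]
      exact (JetAux.mem_iff D e k z).1 hz
    · intro z _ z' _ h
      simp only [eval_X] at h
      funext j
      obtain ⟨j', rfl⟩ := JetAux.ren_surj ι k j
      exact congrFun h j'
    · intro y hy
      let eq := Equiv.ofBijective (JetAux.ren ι k) ⟨JetAux.ren_inj ι k, JetAux.ren_surj ι k⟩
      refine ⟨fun j => y (eq.symm j), ?_, ?_⟩
      · rw [JetAux.mem_iff]
        convert hy using 1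
        funext j
        exact congrArg y (eq.symm_apply_apply j)
      · funext j
        simp only [eval_X]
        exact congrArg y (eq.symm_apply_apply j)
  simp only [zetaSer, Zs, PowerSeries.coeff_mk, PowerSeries.coeff_C_mul]
  rw [hval, hvol]
  simp only [Finset.sum_const, Finset.card_univ, smul_eq_mul]
  have h1 : (μ.L * Li) ^ Fintype.card ι = 1 := by rw [hL, one_pow]
  have h2 : Fintype.card ι * (k + 1) = k * Fintype.card ι + Fintype.card ι := by ring
  rw [h2, pow_add]
  calc _ = μ.val (sec (fun _ : ι => k + 1)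
        (contact e (Set.univ : Set (Empty → ℂ)) 1 D (fun _ => 0) k)) *
          Li ^ (k * Fintype.card ι) * (μ.L * Li) ^ Fintype.card ι := by rw [h1, mul_one]
    _ = _ := by rw [mul_pow]; ring

end Pool.Agent.Mono
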