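import Pool.Agent.Work.Monodromy.Interface

/-!
# Blocks LA1, LA2: linear algebra of the extended arrangement
-/

namespace Pool.Agent.Mono

namespace LAAux

variable {ι κ : Type} [Fintype ι] [Fintype κ] [DecidableEq ι] [DecidableEq κ]

theorem c_zero (D : Data ι κ) (j : κ) (hj : 0 < D.m j) (i : ι) (hi : ¬D.Rel i) : D.c j i = 0 := by
  by_contra h
  exact hi (Or.inr ⟨j, hj, h⟩)

theorem vec_supp (D : Data ι κ) (z : κ ⊕ ι) (hz : z ∈ D.act) (i : ι) (hi : ¬D.Rel i) :
    D.vec z i = 0 := by
  rcases z with j | k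
  · exact c_zero D j hz i hi
  · have : i ≠ k := by
      rintro rfl
      exact hi hz.1
    simp [Data.vec, Pi.single_eq_of_ne this]

theorem sum_single (v : ι → ℂ) : v = ∑ i, v i • (Pi.single i 1 : ι → ℂ) := by
  funext k
  simp [Finset.sum_apply, Pi.single_apply]

end LAAux

open LAAux

theorem stmt_LA1 : Stmt_LA1 := by
  classical
  intro ι κ _ _ _ _ D hE
  unfold Data.Ess at hE
  push Not at hE
  obtain ⟨i₀, hi₀, hni⟩ := hE
  obtain ⟨f, hf, hf'⟩ := Submodule.exists_le_ker_of_notMem hni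
  have hker : ∀ z ∈ D.act, f (D.vec z) = 0 := fun z hz =>
    hf' (Submodule.subset_span ⟨z, hz, rfl⟩)
  refine ⟨fun i => if D.Rel i then f (Pi.single i 1) else 0, ?_, ?_, ?_⟩
  · intro h
    have := congrFun h i₀
    simp only [if_pos hi₀, Pi.zero_apply] at this
    exact hf this
  · intro i hi
    by_cases hr : D.Rel i
    · refine ⟨hr, fun hnf => hi ?_⟩
      simp only [if_pos hr]
      exact hker (Sum.inr i) hnf
    · simp only [if_neg hr] at hi
      exact absurd rfl hi
  · intro j hj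
    have h1 := hker (Sum.inl j) hj
    rw [sum_single (D.vec (Sum.inl j)), map_sum] at h1
    refine Eq.trans (Finset.sum_congr rfl fun i _ => ?_) h1
    rw [map_smul, smul_eq_mul]
    by_cases hr : D.Rel i
    · simp only [if_pos hr]
      rfl
    · simp only [if_neg hr, mul_zero]
      rw [vec_supp D (Sum.inl j) hj i hr, zero_mul]

theorem stmt_LA2 : Stmt_LA2 := by
  classical
  intro ι κ _ _ _ _ D T hE hD
  obtain ⟨hTa, hTn, hTc, hdis⟩ := hD
  let V : Type := ι → ℂ
  let e : ι → ι → ℂ := fun i => Pi.single i 1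
  have he : LinearIndependent ℂ e := by
    have := (Pi.basisFun ℂ ι).linearIndependent
    convert this using 1
    funext i
    simp [e]
  have hinj : Function.Injective e := he.injective
  have hvec : ∀ i, D.vec (Sum.inr i) = e i := fun i => rfl
  -- the two bases
  obtain ⟨B1, hB1, hE1, hs1, hl1⟩ := exists_linearIndepOn_id_extension
    (K := ℂ) (s := e '' {i | D.NF i ∧ Sum.inr i ∈ T})
    (t := D.vec '' T) (he.linearIndepOn_id.mono (Set.image_subset_range _ _)) (by
      rintro _ ⟨i, ⟨_, hi⟩, rfl⟩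
      exact ⟨_, hi, rfl⟩)
  obtain ⟨B2, hB2, hE2, hs2, hl2⟩ := exists_linearIndepOn_id_extension
    (K := ℂ) (s := e '' {i | D.NF i ∧ Sum.inr i ∉ T})
    (t := D.vec '' (D.act \ T)) (he.linearIndepOn_id.mono (Set.image_subset_range _ _)) (by
      rintro _ ⟨i, ⟨hi', hi⟩, rfl⟩
      exact ⟨Sum.inr i, ⟨hi', hi⟩, rfl⟩)
  set B3 : Set (ι → ℂ) := e '' {i | ¬D.Rel i} with hB3
  have hl3 : LinearIndepOn ℂ id B3 := he.linearIndepOn_id.mono (Set.image_subset_range _ _)
  -- supports
  have hv1 : ∀ x ∈ B1, ∀ i, ¬D.Rel i → x i = 0 := by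
    intro x hx i hi
    obtain ⟨z, hz, rfl⟩ := hB1 hx
    exact vec_supp D z (hTa hz) i hi
  have hv2 : ∀ x ∈ B2, ∀ i, ¬D.Rel i → x i = 0 := by
    intro x hx i hi
    obtain ⟨z, hz, rfl⟩ := hB2 hx
    exact vec_supp D z hz.1 i hi
  have hd12 : Disjoint (Submodule.span ℂ B1) (Submodule.span ℂ B2) :=
    hdis.mono (Submodule.span_mono hB1) (Submodule.span_mono hB2)
  have hd3 : Disjoint (Submodule.span ℂ (B1 ∪ B2)) (Submodule.span ℂ B3) := by
    rw [Submodule.disjoint_def]
    intro x hx hx'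
    funext i
    by_cases hi : D.Rel i
    · have : ∀ y ∈ Submodule.span ℂ B3, y i = 0 := by
        intro y hy
        induction hy using Submodule.span_induction with
        | mem y hy =>
          obtain ⟨k, hk, rfl⟩ := hy
          have : i ≠ k := by
            rintro rfl
            exact hk hi
          simp [e, Pi.single_eq_of_ne this]
        | zero => rfl
        | add y z _ _ h1 h2 => simp [h1, h2]
        | smul a y _ h => simp [h]
      exact this x hx'
    · have : ∀ y ∈ Submodule.span ℂ (B1 ∪ B2), y i = 0 := by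
        intro y hy
        induction hy using Submodule.span_induction with
        | mem y hy =>
          rcases hy with hy | hy
          · exact hv1 y hy i hi
          · exact hv2 y hy i hi
        | zero => rfl
        | add y z _ _ h1 h2 => simp [h1, h2]
        | smul a y _ h => simp [h]
      exact this x hx
  have hl12 : LinearIndepOn ℂ id (B1 ∪ B2) := hl1.id_union hl2 hd12
  have hl : LinearIndepOn ℂ id (B1 ∪ B2 ∪ B3) := hl12.id_union hl3 hd3
  have hspact : ∀ z ∈ D.act, D.vec z ∈ Submodule.span ℂ (B1 ∪ B2) := by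
    intro z hz
    by_cases hzT : z ∈ T
    · exact Submodule.span_mono Set.subset_union_left (hs1 ⟨z, hzT, rfl⟩)
    · exact Submodule.span_mono Set.subset_union_right (hs2 ⟨z, ⟨hz, hzT⟩, rfl⟩)
  have hrel : ∀ i, D.Rel i → e i ∈ Submodule.span ℂ (B1 ∪ B2) := by
    intro i hi
    refine Submodule.span_le.2 ?_ (hE i hi)
    rintro _ ⟨z, hz, rfl⟩
    exact hspact z hz
  have hspan : ⊤ ≤ Submodule.span ℂ (B1 ∪ B2 ∪ B3) := by
    intro x _
    rw [sum_single x]
    refine Submodule.sum_mem _ fun i _ => Submodule.smul_mem _ _ ?_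
    by_cases hi : D.Rel i
    · exact Submodule.span_mono Set.subset_union_left (hrel i hi)
    · exact Submodule.subset_span (Or.inr ⟨i, hi, rfl⟩)
  -- the basis
  set B : Set (ι → ℂ) := B1 ∪ B2 ∪ B3 with hBdef
  let bB : Module.Basis B ℂ (ι → ℂ) := Module.Basis.mk (v := fun x : B => (x : ι → ℂ)) hl (by
    rw [Subtype.range_coe]; exact hspan)
  -- the bijection
  let e0 : ι ≃ B := (Pi.basisFun ℂ ι).indexEquiv bB
  -- the standard vectors
  let N : ι → Prop := fun i => ¬(D.Rel i ∧ ¬D.NF i)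
  have hNB : ∀ i, N i → e i ∈ B := by
    intro i hi
    by_cases hr : D.Rel i
    · have hnf : D.NF i := by
        by_contra h
        exact hi ⟨hr, h⟩
      by_cases hT' : Sum.inr i ∈ T
      · exact Or.inl (Or.inl (hE1 ⟨i, ⟨hnf, hT'⟩, rfl⟩))
      · exact Or.inl (Or.inr (hE2 ⟨i, ⟨hnf, hT'⟩, rfl⟩))
    · exact Or.inr ⟨i, hr, rfl⟩
  let g : {i // N i} → ι := fun i => e0.symm ⟨e i.1, hNB i.1 i.2⟩
  have hg : Function.Injective g := by
    intro i k h
    have h1 := e0.symm.injective h
    exact Subtype.ext (hinj (Subtype.ext_iff.1 h1))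
  let eq1 : {i // N i} ≃ {i // i ∈ Set.range g} := Equiv.ofInjective g hg
  let σ : Equiv.Perm ι := Equiv.extendSubtype (p := N) (q := fun i => i ∈ Set.range g) eq1
  have hσ : ∀ i (hi : N i), e0 (σ i) = ⟨e i, hNB i hi⟩ := by
    intro i hi
    have h1 : σ i = (eq1 ⟨i, hi⟩ : ι) := Equiv.extendSubtype_apply_of_mem eq1 i hi
    rw [h1]
    have h2 : ((eq1 ⟨i, hi⟩ : {i // i ∈ Set.range g}) : ι) = g ⟨i, hi⟩ := rfl
    rw [h2]
    exact e0.apply_symm_apply _
  let E : ι ≃ B := σ.trans e0
  let ψ : Module.Basis ι ℂ (ι → ℂ) := bB.reindex E.symm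
  have hψ : ∀ i, ψ i = (E i : ι → ℂ) := by
    intro i
    simp only [ψ, Module.Basis.reindex_apply, Equiv.symm_symm, bB, Module.Basis.mk_apply]
  have hψN : ∀ i, N i → ψ i = e i := by
    intro i hi
    rw [hψ]
    have := hσ i hi
    exact congrArg Subtype.val this
  have hψB : ∀ i, ψ i ∈ B := fun i => by rw [hψ]; exact (E i).2
  have himg : ∀ S : Set (ι → ℂ), S ⊆ B → S ⊆ ψ '' {i | ψ i ∈ S} := by
    intro S hS x hx
    refine ⟨E.symm ⟨x, hS hx⟩, ?_, ?_⟩
    · simp only [Set.mem_setOf_eq, hψ, Equiv.apply_symm_apply]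
      exact hx
    · simp only [hψ, Equiv.apply_symm_apply]
  have hrepr : ∀ S : Set (ι → ℂ), S ⊆ B → ∀ x ∈ Submodule.span ℂ S, ∀ k, ψ.repr x k ≠ 0 →
      ψ k ∈ S := by
    intro S hS x hx k hk
    have h1 : x ∈ Submodule.span ℂ (ψ '' {i | ψ i ∈ S}) := Submodule.span_mono (himg S hS) hx
    have h2 := (ψ.mem_span_image).1 h1
    exact h2 (Finsupp.mem_support_iff.2 hk)
  have hne1 : ∀ x ∈ B1, x ∉ B2 := by
    intro x hx hx'
    have h0 := Submodule.disjoint_def.1 hd12 x (Submodule.subset_span hx)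
      (Submodule.subset_span hx')
    rw [h0] at hx
    exact hl1.ne_zero hx rfl
  let Ψ : Matrix ι ι ℂ := fun i k => ψ i k
  let Φ : Matrix ι ι ℂ := fun i k => ψ.repr (e i) k
  have hΦΨ : Φ * Ψ = 1 := by
    ext i k
    rw [Matrix.mul_apply]
    have h1 := congrFun (ψ.sum_repr (e i)) k
    rw [Finset.sum_apply] at h1
    simp only [Pi.smul_apply, smul_eq_mul] at h1
    rw [h1]
    simp only [e, Matrix.one_apply, Pi.single_apply]
    by_cases h : k = i
    · subst h; simp
    · have : ¬i = k := fun h' => h h'.symm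
      simp [h, this]
  have hrow : ∀ i, N i → ∀ k, Φ i k = (1 : Matrix ι ι ℂ) i k ∧ Ψ i k = (1 : Matrix ι ι ℂ) i k := by
    intro i hi k
    have h1 := hψN i hi
    constructor
    · change ψ.repr (e i) k = _
      rw [← h1, ψ.repr_self]
      simp [Finsupp.single_apply, Matrix.one_apply]
    · change ψ i k = _
      rw [h1]
      simp only [e, Matrix.one_apply, Pi.single_apply]
      by_cases h : k = i
      · subst h; simp
      · have : ¬i = k := fun h' => h h'.symm
        simp [h, this]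
  have hlin : ∀ j k, (D.lin Φ).c j k = ψ.repr (D.c j) k := by
    intro j k
    change ∑ i, D.c j i * ψ.repr (e i) k = _
    conv_rhs => rw [sum_single (D.c j)]
    rw [map_sum, Finsupp.finset_sum_apply]
    refine Finset.sum_congr rfl fun i _ => ?_
    rw [map_smul]
    rfl
  refine ⟨Φ, Ψ, Finset.univ.filter (fun i => ψ i ∈ B1), hΦΨ, mul_eq_one_comm.1 hΦΨ,
    hrow, ?_, ?_, ?_, ?_⟩
  · intro i k h
    by_contra hcon
    push Not at hcon
    obtain ⟨hk, hik⟩ := hcon
    by_cases hi : N i
    · obtain ⟨h1, h2⟩ := hrow i hi k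
      rw [h1, h2, Matrix.one_apply_ne hik] at h
      simp at h
    · have hi' : D.Rel i ∧ ¬D.NF i := not_not.1 hi
      have hkB : ψ k = e k := hψN k fun h => hk h.1
      have hek : e k k = 1 := by simp [e]
      rcases h with h | h
      · have := hrepr (B1 ∪ B2) Set.subset_union_left (e i) (hrel i hi'.1) k h
        rw [hkB] at this
        rcases this with h1 | h1
        · exact one_ne_zero (hek.symm.trans (hv1 _ h1 k hk))
        · exact one_ne_zero (hek.symm.trans (hv2 _ h1 k hk))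
      · change ψ i k ≠ 0 at h
        rcases hψB i with (h1 | h1) | ⟨i', hi'', h1⟩
        · exact h (hv1 _ h1 k hk)
        · exact h (hv2 _ h1 k hk)
        · have h2 : ψ i' = ψ i := (hψN i' fun h => hi'' h.1).trans h1
          have h3 := ψ.injective h2
          rw [h3] at hi''
          exact hi'' hi'.1
  · intro j hj hjT i hi
    rw [hlin]
    by_contra h
    exact hi (Finset.mem_filter.2 ⟨Finset.mem_univ _, hrepr B1
      (Set.subset_union_left.trans Set.subset_union_left) _ (hs1 ⟨_, hjT, rfl⟩) i h⟩)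
  · intro j hj hjT i hi
    rw [hlin]
    by_contra h
    exact hne1 _ (Finset.mem_filter.1 hi).2 (hrepr B2
      (Set.subset_union_right.trans Set.subset_union_left) _ (hs2 ⟨_, ⟨hj, hjT⟩, rfl⟩) i h)
  · intro i hi
    have h1 := hψN i fun h => h.2 hi
    simp only [Finset.mem_filter, Finset.mem_univ, true_and, h1]
    constructor
    · intro h
      exact hE1 ⟨i, ⟨hi, h⟩, rfl⟩
    · intro h
      by_contra hT'
      exact hne1 _ h (hE2 ⟨i, ⟨hi, hT'⟩, rfl⟩)

end Pool.Agent.Mono
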