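import Pool.Agent.Work.Monodromy.Loc

/-!
# Block LC: linear change of the free coordinates
-/

namespace Pool.Agent.Mono

open MvPolynomial

namespace LCX

open TorX LocX

section Sub

variable {ι κ : Type} [Fintype ι] [Fintype κ] [DecidableEq ι] [DecidableEq κ]

open Classical in
/-- the substitution -/
noncomputable def sb (D : Data ι κ) (δ : ι → ℕ) (Φ : Matrix ι ι ℂ) (x : ι → PowerSeries ℂ) :
    ι → PowerSeries ℂ := fun i =>
  if D.a i = 1 ∧ D.b i = 0 then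
    ∑ k, PowerSeries.C (Φ i k) * (PowerSeries.X ^ (δ k - δ i) * x k ^ D.a k) else x i

theorem y_sb (D : Data ι κ) (δ : ι → ℕ) (Φ : Matrix ι ι ℂ)
    (hΦ : ∀ i, ¬(D.a i = 1 ∧ D.b i = 0) → ∀ k, Φ i k = (1 : Matrix ι ι ℂ) i k)
    (hδ : ∀ i k, Φ i k ≠ 0 → δ i ≤ δ k) (x : ι → PowerSeries ℂ) (i : ι) :
    PowerSeries.X ^ δ i * sb D δ Φ x i ^ D.a i =
      ∑ k, PowerSeries.C (Φ i k) * (PowerSeries.X ^ δ k * x k ^ D.a k) := by
  unfold sb
  split_ifs with hf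
  · rw [hf.1, pow_one, Finset.mul_sum]
    refine Finset.sum_congr rfl fun k _ => ?_
    by_cases h0 : Φ i k = 0
    · rw [h0, map_zero]; ring
    · obtain ⟨m, hm⟩ := Nat.exists_eq_add_of_le (hδ i k h0)
      rw [hm, Nat.add_sub_cancel_left]; ring
  · have : ∀ k, PowerSeries.C (Φ i k) * (PowerSeries.X ^ δ k * x k ^ D.a k) =
        if k = i then PowerSeries.X ^ δ k * x k ^ D.a k else 0 := by
      intro k
      rw [hΦ i hf k, Matrix.one_apply]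
      by_cases h : i = k
      · subst h; simp
      · rw [if_neg h, if_neg (fun h' => h h'.symm), map_zero, zero_mul]
    rw [Finset.sum_congr rfl fun k _ => this k, Finset.sum_ite_eq' Finset.univ i]
    simp

theorem formS_sb (D : Data ι κ) (δ : ι → ℕ) (Φ : Matrix ι ι ℂ)
    (hΦ : ∀ i, ¬(D.a i = 1 ∧ D.b i = 0) → ∀ k, Φ i k = (1 : Matrix ι ι ℂ) i k)
    (hδ : ∀ i k, Φ i k ≠ 0 → δ i ≤ δ k) (x : ι → PowerSeries ℂ) (j : κ) :
    D.formS δ (sb D δ Φ x) j = (D.lin Φ).formS δ x j := by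
  unfold Data.formS
  congr 1
  rw [Finset.sum_congr rfl fun i _ => by rw [y_sb D δ Φ hΦ hδ x i, Finset.mul_sum],
    Finset.sum_comm]
  refine Finset.sum_congr rfl fun k _ => ?_
  have : (D.lin Φ).c j k = ∑ i, D.c j i * Φ i k := rfl
  rw [this, map_sum, Finset.sum_mul]
  refine Finset.sum_congr rfl fun i _ => ?_
  rw [map_mul]
  have : (D.lin Φ).a k = D.a k := rfl
  rw [this]; ring

theorem F_sb (D : Data ι κ) (δ : ι → ℕ) (Φ : Matrix ι ι ℂ)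
    (hΦ : ∀ i, ¬(D.a i = 1 ∧ D.b i = 0) → ∀ k, Φ i k = (1 : Matrix ι ι ℂ) i k)
    (hδ : ∀ i k, Φ i k ≠ 0 → δ i ≤ δ k) (x : ι → PowerSeries ℂ) :
    D.F δ (sb D δ Φ x) = (D.lin Φ).F δ x := by
  unfold Data.F
  congr 1
  · refine Finset.prod_congr rfl fun i _ => ?_
    have : (D.lin Φ).b i = D.b i := rfl
    rw [this]
    unfold sb
    split_ifs with hf
    · rw [hf.2, pow_zero, pow_zero]
    · rfl
  · refine Finset.prod_congr rfl fun j _ => ?_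
    rw [formS_sb D δ Φ hΦ hδ x j]
    rfl

theorem sb_sb (D : Data ι κ) (δ : ι → ℕ) (Φ Ψ : Matrix ι ι ℂ) (h1 : Ψ * Φ = 1)
    (hΦ : ∀ i, ¬(D.a i = 1 ∧ D.b i = 0) → ∀ k, Φ i k = (1 : Matrix ι ι ℂ) i k)
    (hΨ : ∀ i, ¬(D.a i = 1 ∧ D.b i = 0) → ∀ k, Ψ i k = (1 : Matrix ι ι ℂ) i k)
    (hδ : ∀ i k, Φ i k ≠ 0 → δ i ≤ δ k) (hδ' : ∀ i k, Ψ i k ≠ 0 → δ i ≤ δ k)
    (x : ι → PowerSeries ℂ) : sb D δ Ψ (sb D δ Φ x) = x := by
  funext i
  by_cases hf : D.a i = 1 ∧ D.b i = 0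
  · have e1 := y_sb D δ Ψ hΨ hδ' (sb D δ Φ x) i
    rw [hf.1, pow_one] at e1
    have e2 : ∑ k, PowerSeries.C (Ψ i k) * (PowerSeries.X ^ δ k * sb D δ Φ x k ^ D.a k) =
        PowerSeries.X ^ δ i * x i := by
      rw [Finset.sum_congr rfl fun k _ => by rw [y_sb D δ Φ hΦ hδ x k, Finset.mul_sum],
        Finset.sum_comm]
      have e3 : ∀ l, ∑ k, PowerSeries.C (Ψ i k) * (PowerSeries.C (Φ k l) *
          (PowerSeries.X ^ δ l * x l ^ D.a l)) =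
          PowerSeries.C ((1 : Matrix ι ι ℂ) i l) * (PowerSeries.X ^ δ l * x l ^ D.a l) := by
        intro l
        rw [← h1, Matrix.mul_apply, map_sum, Finset.sum_mul]
        refine Finset.sum_congr rfl fun k _ => ?_
        rw [map_mul]; ring
      rw [Finset.sum_congr rfl fun l _ => e3 l]
      have e4 : ∀ l, PowerSeries.C ((1 : Matrix ι ι ℂ) i l) *
          (PowerSeries.X ^ δ l * x l ^ D.a l) =
          if l = i then PowerSeries.X ^ δ l * x l ^ D.a l else 0 := by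
        intro l
        rw [Matrix.one_apply]
        by_cases h : i = l
        · subst h; simp
        · rw [if_neg h, if_neg (fun h' => h h'.symm), map_zero, zero_mul]
      rw [Finset.sum_congr rfl fun l _ => e4 l, Finset.sum_ite_eq' Finset.univ i]
      simp [hf.1]
    rw [e2] at e1
    exact mul_left_cancel₀ (pow_ne_zero _ PowerSeries.X_ne_zero) e1
  · unfold sb
    rw [if_neg hf, if_neg hf]

theorem sb_agree (D : Data ι κ) (δ : ι → ℕ) (Φ : Matrix ι ι ℂ) (x y : ι → PowerSeries ℂ) (n : ℕ)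
    (h : ∀ i, ∀ l < n, PowerSeries.coeff l (x i) = PowerSeries.coeff l (y i)) (i : ι) :
    ∀ l < n, PowerSeries.coeff l (sb D δ Φ x i) = PowerSeries.coeff l (sb D δ Φ y i) := by
  intro l hl
  unfold sb
  split_ifs with hf
  · rw [map_sum, map_sum]
    refine Finset.sum_congr rfl fun k _ => ?_
    rw [PowerSeries.coeff_C_mul, PowerSeries.coeff_C_mul, PowerSeries.coeff_X_pow_mul',
      PowerSeries.coeff_X_pow_mul']
    split_ifs with h1
    · rw [pow_agree (D.a k) (h k) _ (by omega)]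
    · rfl
  · exact h i l hl

open Classical in
/-- the polynomial map -/
noncomputable def Pl {E : Type} (D : Data ι κ) (δ : ι → ℕ) (Φ : Matrix ι ι ℂ) (K : ι → ℕ) :
    E ⊕ (Σ i, Fin (K i)) → MvPolynomial (E ⊕ (Σ i, Fin (K i))) ℂ :=
  Sum.elim (fun p => X (Sum.inl p)) fun s => PowerSeries.coeff (s.2 : ℕ)
    (if D.a s.1 = 1 ∧ D.b s.1 = 0 then
      ∑ k, PowerSeries.C (MvPolynomial.C (Φ s.1 k)) *
        (PowerSeries.X ^ (δ k - δ s.1) * (PowerSeries.mk fun n => cp K k n) ^ D.a k)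
      else PowerSeries.mk fun n => cp K s.1 n)

theorem Pl_inr {E : Type} (D : Data ι κ) (δ : ι → ℕ) (Φ : Matrix ι ι ℂ) (K : ι → ℕ)
    (v : E ⊕ (Σ i, Fin (K i)) → ℂ) (s : Σ i, Fin (K i)) :
    eval v (Pl D δ Φ K (Sum.inr s)) =
      PowerSeries.coeff (s.2 : ℕ) (sb D δ Φ (toArc K fun s => v (Sum.inr s)) s.1) := by
  unfold Pl sb
  rw [Sum.elim_inr, ← PowerSeries.coeff_map]
  congr 1
  split_ifs with h1
  · rw [map_sum]
    refine Finset.sum_congr rfl fun k _ => ?_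
    rw [map_mul, map_mul, map_pow, map_pow, map_cp, PowerSeries.map_X, PowerSeries.map_C, eval_C]
  · rw [map_cp]

theorem Pl_inl {E : Type} (D : Data ι κ) (δ : ι → ℕ) (Φ : Matrix ι ι ℂ) (K : ι → ℕ)
    (v : E ⊕ (Σ i, Fin (K i)) → ℂ) (p : E) :
    eval v (Pl D δ Φ K (Sum.inl p)) = v (Sum.inl p) := by
  unfold Pl
  rw [Sum.elim_inl, eval_X]

end Sub

end LCX

open TorX LocX LCX in
theorem stmt_LC (hYV : Stmt_YV) (hYF : Stmt_YF) : Stmt_LC := by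
  intro ι κ _ _ _ _ D δ Φ Ψ h12 h21 hrow hd R _ μ Li hLi e E _ B h hB
  have hΦ : ∀ i, ¬(D.a i = 1 ∧ D.b i = 0) → ∀ k, Φ i k = (1 : Matrix ι ι ℂ) i k :=
    fun i hi k => (hrow i hi k).1
  have hΨ : ∀ i, ¬(D.a i = 1 ∧ D.b i = 0) → ∀ k, Ψ i k = (1 : Matrix ι ι ℂ) i k :=
    fun i hi k => (hrow i hi k).2
  have hδ : ∀ i k, Φ i k ≠ 0 → δ i ≤ δ k := fun i k h => hd i k (Or.inl h)
  have hδ' : ∀ i k, Ψ i k ≠ 0 → δ i ≤ δ k := fun i k h => hd i k (Or.inr h)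
  ext k
  rw [Zs, Zs, PowerSeries.coeff_mk, PowerSeries.coeff_mk]
  set K : ι → ℕ := fun _ => k + 1 with hK
  have hc1 : IsCyl K (contact e B h D δ k) := hYF ι κ E e B h D δ k hB
  have hc2 : IsCyl K (contact e B h (D.lin Φ) δ k) := hYF ι κ E e B h (D.lin Φ) δ k hB
  rw [hYV R μ Li hLi (E ⊕ Unit) ι K _ hc1, hYV R μ Li hLi (E ⊕ Unit) ι K _ hc2]
  congr 1
  symm
  have hcon : ∀ (q : E ⊕ Unit → ℂ) (x : ι → PowerSeries ℂ),
      (q, x) ∈ contact e B h (D.lin Φ) δ k ↔ (q, sb D δ Φ x) ∈ contact e B h D δ k := by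
    intro q x
    unfold contact
    simp only [Set.mem_ofPred_eq]
    rw [F_sb D δ Φ hΦ hδ x]
  have EQ : ∀ v : (E ⊕ Unit) ⊕ (Σ i, Fin (K i)) → ℂ,
      (v ∈ sec K (contact e B h (D.lin Φ) δ k) ↔
        (fun s => eval v (Pl D δ Φ K s)) ∈ sec K (contact e B h D δ k)) := by
    intro v
    have h1 : v ∈ sec K (contact e B h (D.lin Φ) δ k) ↔
        ((fun p => v (Sum.inl p)), toArc K fun s => v (Sum.inr s)) ∈
          contact e B h (D.lin Φ) δ k := Iff.rfl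
    have h2 : (fun s => eval v (Pl D δ Φ K s)) ∈ sec K (contact e B h D δ k) ↔
        ((fun p => eval v (Pl D δ Φ K (Sum.inl p))),
          toArc K fun s => eval v (Pl D δ Φ K (Sum.inr s))) ∈ contact e B h D δ k := Iff.rfl
    have h3 := hc1.1 (fun p => eval v (Pl D δ Φ K (Sum.inl p)))
      (toArc K fun s => eval v (Pl D δ Φ K (Sum.inr s)))
      (sb D δ Φ (toArc K fun s => v (Sum.inr s)))
      (fun i l hl => by rw [coeff_toArc K _ i l hl, Pl_inr])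
    have e1 : (fun p => eval v (Pl D δ Φ K (Sum.inl p))) = fun p => v (Sum.inl p) := by
      funext p; rw [Pl_inl]
    rw [h1, h2, h3, e1]
    exact hcon _ _
  have INV : ∀ (Φ Ψ : Matrix ι ι ℂ), Ψ * Φ = 1 →
      (∀ i, ¬(D.a i = 1 ∧ D.b i = 0) → ∀ k, Φ i k = (1 : Matrix ι ι ℂ) i k) →
      (∀ i, ¬(D.a i = 1 ∧ D.b i = 0) → ∀ k, Ψ i k = (1 : Matrix ι ι ℂ) i k) →
      (∀ i k, Φ i k ≠ 0 → δ i ≤ δ k) → (∀ i k, Ψ i k ≠ 0 → δ i ≤ δ k) →
      ∀ v : (E ⊕ Unit) ⊕ (Σ i, Fin (K i)) → ℂ,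
        (fun s => eval (fun s => eval v (Pl D δ Φ K s)) (Pl D δ Ψ K s)) = v := by
    intro Φ Ψ h21 hΦ hΨ hδ hδ' v
    funext s
    rcases s with p | ⟨i, l⟩
    · rw [Pl_inl, Pl_inl]
    · rw [Pl_inr]
      have h1 := sb_agree D δ Ψ (toArc K fun s => eval v (Pl D δ Φ K (Sum.inr s)))
        (sb D δ Φ (toArc K fun s => v (Sum.inr s))) (k + 1)
        (fun i l hl => by rw [coeff_toArc K _ i l hl, Pl_inr]) i l l.2
      rw [h1, sb_sb D δ Φ Ψ h21 hΦ hΨ hδ hδ', coeff_toArc K _ i l l.2]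
  refine μ.map _ _ (Pl D δ Φ K) hc2.2 hc1.2 ?_
  refine ⟨fun v hv => (EQ v).1 hv, fun v _ w _ hvw => ?_, fun z hz => ?_⟩
  · rw [← INV Φ Ψ h21 hΦ hΨ hδ hδ' v, ← INV Φ Ψ h21 hΦ hΨ hδ hδ' w]
    have hvw' : (fun s => eval v (Pl D δ Φ K s)) = fun s => eval w (Pl D δ Φ K s) := hvw
    rw [hvw']
  · have hz' := INV Ψ Φ h12 hΨ hΦ hδ' hδ z
    refine ⟨fun s => eval z (Pl D δ Ψ K s), (EQ _).2 ?_, hz'⟩
    rw [hz']
    exact hz

end Pool.Agent.Mono
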