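import Pool.Agent.Work.Monodromy.YC

/-!
# Auxiliary facts for X1, X2, ZB, Triv: constructible products and covers, reindexing
-/

set_option autoImplicit false

namespace Pool.Agent.Mono

open MvPolynomial

namespace X0

/-! ### Constructible sets -/

theorem pre {ι κ : Type} (φ : κ → MvPolynomial ι ℂ) {s : Set (κ → ℂ)} (hs : Constructible s) :
    Constructible {x : ι → ℂ | (fun j => eval x (φ j)) ∈ s} := stmt_YC ι κ φ s hs

theorem preX {ι κ : Type} (f : κ → ι) {s : Set (κ → ℂ)} (hs : Constructible s) :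
    Constructible {x : ι → ℂ | (fun j => x (f j)) ∈ s} := by
  have h := pre (fun j => (X (f j) : MvPolynomial ι ℂ)) hs
  simpa only [eval_X] using h

theorem univ {ι : Type} : Constructible (Set.univ : Set (ι → ℂ)) := by
  have h : (Set.univ : Set (ι → ℂ)) = {x | eval x (0 : MvPolynomial ι ℂ) = 0} := by
    ext x; simp
  rw [h]
  exact Constructible.zero _

theorem empty {ι : Type} : Constructible (∅ : Set (ι → ℂ)) := by
  have h := (univ (ι := ι)).compl
  rwa [Set.compl_univ] at h

theorem eqSet {ι : Type} (p q : MvPolynomial ι ℂ) : Constructible {x | eval x p = eval x q} := by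
  have h : {x | eval x p = eval x q} = {x | eval x (p - q) = 0} := by
    ext x; simp [sub_eq_zero]
  rw [h]
  exact Constructible.zero _

theorem psetC {E σ : Type} {B : Set (E → ℂ)} {S : Set (σ → ℂ)} (hB : Constructible B)
    (hS : Constructible S) : Constructible (pset B S) :=
  (preX Sum.inl hB).inter (preX Sum.inr hS)

theorem coverC {E : Type} (g : ℕ) {B : Set (E → ℂ)} (h : MvPolynomial E ℂ)
    (hB : Constructible B) : Constructible (cover g B h) := by
  have h1 := eqSet ((X (Sum.inr ()) : MvPolynomial (E ⊕ Unit) ℂ) ^ g) (rename Sum.inl h)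
  have h2 : cover g B h = {x : E ⊕ Unit → ℂ | (fun p => x (Sum.inl p)) ∈ B} ∩
      {x | eval x ((X (Sum.inr ()) : MvPolynomial (E ⊕ Unit) ℂ) ^ g) =
        eval x (rename Sum.inl h)} := by
    ext x
    simp only [cover, Set.mem_ofPred_eq, Set.mem_inter_iff, map_pow, eval_X, eval_rename]
    rfl
  rw [h2]
  exact (preX Sum.inl hB).inter h1

theorem eval_pmul {E σ : Type} (h : MvPolynomial E ℂ) (u : MvPolynomial σ ℂ) (v : E ⊕ σ → ℂ) :
    eval v (pmul h u) = eval (fun p => v (Sum.inl p)) h * eval (fun q => v (Sum.inr q)) u := by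
  unfold pmul
  rw [map_mul, eval_rename, eval_rename]
  rfl

theorem pmul_ne {E σ : Type} {B : Set (E → ℂ)} {S : Set (σ → ℂ)} {h : MvPolynomial E ℂ}
    {u : MvPolynomial σ ℂ} (hB : ∀ p ∈ B, eval p h ≠ 0) (hS : ∀ x ∈ S, eval x u ≠ 0) :
    ∀ v ∈ pset B S, eval v (pmul h u) ≠ 0 := by
  intro v hv
  rw [eval_pmul]
  exact mul_ne_zero (hB _ hv.1) (hS _ hv.2)

/-! ### Measures -/

variable {R : Type} [CommRing R]

theorem val_empty (μ : MotivicMeasure R) {ι : Type} [Finite ι] : μ.val (∅ : Set (ι → ℂ)) = 0 := by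
  have h := μ.union (∅ : Set (ι → ℂ)) ∅ empty empty disjoint_bot_left
  rw [Set.union_empty] at h
  exact left_eq_add.1 h

theorem val_reindex (μ : MotivicMeasure R) {ι κ : Type} [Finite ι] [Finite κ] (e : ι ≃ κ)
    {s : Set (ι → ℂ)} {t : Set (κ → ℂ)} (hs : Constructible s) (ht : Constructible t)
    (h : ∀ x : ι → ℂ, x ∈ s ↔ (fun j => x (e.symm j)) ∈ t) : μ.val s = μ.val t := by
  apply μ.map s t (fun j => X (e.symm j)) hs ht
  have e1 : (fun (x : ι → ℂ) (j : κ) => eval x (X (e.symm j) : MvPolynomial ι ℂ)) =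
      fun x j => x (e.symm j) := by
    funext x j
    rw [eval_X]
  rw [e1]
  refine ⟨fun x hx => (h x).1 hx, ?_, ?_⟩
  · intro x _ y _ hxy
    funext i
    have := congrFun hxy (e i)
    simpa using this
  · intro y hy
    refine ⟨fun i => y (e i), ?_, ?_⟩
    · rw [h]
      simpa using hy
    · funext j
      simp

/-- associativity of parameter sets -/
theorem cls_assoc (μ : MotivicMeasure R) {E σ τ : Type} [Finite E] [Finite σ] [Finite τ] (g : ℕ)
    {B : Set (E → ℂ)} (h : MvPolynomial E ℂ) {S : Set (σ → ℂ)} (u : MvPolynomial σ ℂ)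
    {T : Set (τ → ℂ)} (v : MvPolynomial τ ℂ) (hB : Constructible B) (hS : Constructible S)
    (hT : Constructible T) :
    cls μ g (pset B S) (pmul h u) T v = cls μ g B h (pset S T) (pmul u v) := by
  unfold cls
  apply val_reindex μ (Equiv.sumCongr (Equiv.sumAssoc E σ τ) (Equiv.refl Unit))
    (coverC g _ (psetC (psetC hB hS) hT)) (coverC g _ (psetC hB (psetC hS hT)))
  intro x
  simp only [cover, pset, Set.mem_ofPred_eq, eval_pmul]
  simp [and_assoc, mul_assoc]

/-- commutation of parameter sets -/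
theorem cls_swap (μ : MotivicMeasure R) {E σ τ : Type} [Finite E] [Finite σ] [Finite τ] (g : ℕ)
    {B : Set (E → ℂ)} (h : MvPolynomial E ℂ) {S : Set (σ → ℂ)} (u : MvPolynomial σ ℂ)
    {T : Set (τ → ℂ)} (v : MvPolynomial τ ℂ) (hB : Constructible B) (hS : Constructible S)
    (hT : Constructible T) :
    cls μ g (pset B S) (pmul h u) T v = cls μ g (pset B T) (pmul h v) S u := by
  unfold cls
  apply val_reindex μ (Equiv.sumCongr (((Equiv.sumAssoc E σ τ).trans
    (Equiv.sumCongr (Equiv.refl E) (Equiv.sumComm σ τ))).trans (Equiv.sumAssoc E τ σ).symm)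
      (Equiv.refl Unit))
    (coverC g _ (psetC (psetC hB hS) hT)) (coverC g _ (psetC (psetC hB hT) hS))
  intro x
  simp only [cover, pset, Set.mem_ofPred_eq, eval_pmul]
  constructor
  · rintro ⟨⟨⟨h1, h2⟩, h3⟩, h4⟩
    refine ⟨⟨⟨h1, h3⟩, h2⟩, ?_⟩
    rw [mul_right_comm]
    exact h4
  · rintro ⟨⟨⟨h1, h3⟩, h2⟩, h4⟩
    refine ⟨⟨⟨h1, h2⟩, h3⟩, ?_⟩
    rw [mul_right_comm]
    exact h4

end X0

end Pool.Agent.Mono
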