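import Pool.Agent.Work.Monodromy.GJet
import Pool.Agent.Work.Monodromy.X0

/-!
# Block LMain: the main theorem for polynomials with local models
-/

set_option autoImplicit false
set_option linter.unusedSectionVars false

namespace Pool.Agent.Mono

open MvPolynomial

namespace LMainAux

theorem cls_unit {R : Type} [CommRing R] (μ : MotivicMeasure R) {τ : Type} [Finite τ] (g : ℕ)
    (T : Set (τ → ℂ)) (w : MvPolynomial τ ℂ) (hT : Constructible T) :
    cls μ g (Set.univ : Set (Empty → ℂ)) 1 T w = μ.val (cover g T w) := by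
  unfold cls
  refine X0.val_reindex μ (Equiv.sumCongr (Equiv.emptySum Empty τ) (Equiv.refl Unit))
    (X0.coverC g _ (X0.psetC X0.univ hT)) (X0.coverC g _ hT) ?_
  intro x
  simp only [cover, pset, Set.mem_ofPred_eq, X0.eval_pmul, map_one, one_mul, Set.mem_univ,
    true_and]
  exact Iff.rfl

/-- the term attached to a term `t` over the stratum `(S, h)` -/
noncomputable def up {ι : Type} [Finite ι] (S : Set (ι → ℂ)) (h : MvPolynomial ι ℂ) (l c : ℕ)
    (t : Term) : Term where
  σ := ι ⊕ t.σ
  fin := haveI := t.fin; inferInstance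
  S := pset S t.S
  u := pmul h t.u
  g := t.g
  l := l + t.l
  c := c + t.c
  D := t.D

theorem up_ok {ι : Type} [Finite ι] {S : Set (ι → ℂ)} {h : MvPolynomial ι ℂ} (l c : ℕ)
    {t : Term} {G : Set (ℕ × ℕ)} (hS : Constructible S) (hh : ∀ x ∈ S, eval x h ≠ 0)
    (ht : t.Ok G) : (up S h l c t).Ok G :=
  ⟨X0.psetC hS ht.1, X0.pmul_ne hh ht.2.1, ht.2.2.1, ht.2.2.2⟩

theorem up_ser {ι : Type} [Finite ι] {S : Set (ι → ℂ)} {h : MvPolynomial ι ℂ} (l c : ℕ)
    {t : Term} {G : Set (ℕ × ℕ)} (hS : Constructible S) (ht : t.Ok G)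
    {R : Type} [CommRing R] (μ : MotivicMeasure R) (Li : R) :
    (up S h l c t).ser μ Li (Set.univ : Set (Empty → ℂ)) 1 =
      PowerSeries.C (Li ^ l) * PowerSeries.X ^ c * t.ser μ Li S h := by
  have := t.fin
  unfold Term.ser
  have h1 : cls μ t.g (Set.univ : Set (Empty → ℂ)) 1 (pset S t.S) (pmul h t.u) =
      cls μ t.g S h t.S t.u := cls_unit μ t.g _ _ (X0.psetC hS ht.1)
  change PowerSeries.C (cls μ t.g (Set.univ : Set (Empty → ℂ)) 1 (pset S t.S) (pmul h t.u) *
    Li ^ (l + t.l)) * PowerSeries.X ^ (c + t.c) *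
      (t.D.map fun q => PowerSeries.C (μ.L - 1) * geo Li q).prod = _
  rw [h1, pow_add, pow_add, map_mul, map_mul, map_mul]
  ring

theorem sum_flatMap {α M : Type*} [AddCommMonoid M] (l : List α) (ts : α → List Term)
    (F : Term → M) :
    ((l.flatMap ts).map F).sum = (l.map fun a => ((ts a).map F).sum).sum := by
  induction l with
  | nil => simp
  | cons a l ih => simp [List.flatMap_cons, ih]

theorem list_sum_mul {A : Type*} {S : Type*} [CommRing S] (ts : List A) (f : A → S) (a : S) :
    (ts.map fun t => a * f t).sum = a * (ts.map f).sum := by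
  induction ts with
  | nil => simp
  | cons t ts ih => simp [ih, mul_add]

end LMainAux

open LMainAux

theorem stmt_LMain (hZL : Stmt_ZL) (hEL : Stmt_EL) (hCen : Stmt_Central) : Stmt_LMain := by
  classical
  intro ι _ _ f hf e he
  obtain ⟨r, κ, S, D, hS, hd, hcov, hD⟩ := hf
  -- the strata
  have hstr : ∀ a, ∃ ts : List Term, (∀ t ∈ ts, t.Ok (GoodPair (bSet f))) ∧
      ∀ (R : Type) [CommRing R] (μ : MotivicMeasure R) (Li : R), μ.L * Li = 1 →
        ZS μ Li e f (S a) =
          (ts.map fun t => t.ser μ Li (Set.univ : Set (Empty → ℂ)) 1).sum := by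
    intro a
    rcases (S a).eq_empty_or_nonempty with hemp | hne
    · refine ⟨[], by simp, ?_⟩
      intro R _ μ Li hL
      rw [hemp]
      ext k
      simp only [ZS, PowerSeries.coeff_mk, List.map_nil, List.sum_nil, map_zero]
      have : contactS e f (∅ : Set (ι → ℂ)) k = ∅ := by
        ext z
        simp [contactS]
      rw [this, vol_empty μ hL]
    · obtain ⟨hc, hv, hloc⟩ := hD a
      have hb := hEL ι (Fin κ) f (S a) (D a) hne hc hv.1 hloc
      obtain ⟨ts, hts, hser⟩ := hCen ι (Fin κ) (D a) hc hv (bSet f) hb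
        (fun i => (D a).a i - 1) e he
      obtain ⟨h, hh, hZ⟩ := hZL ι (Fin κ) f (S a) (D a) (hS a) hc hv.1 hloc e he
      refine ⟨ts.map (up (S a) h (Fintype.card ι) (∑ i, (D a).b i + ∑ j, (D a).m j)), ?_, ?_⟩
      · intro t ht
        obtain ⟨t', ht', rfl⟩ := List.mem_map.1 ht
        exact up_ok _ _ (hS a) hh (hts t' ht')
      · intro R _ μ Li hL
        rw [hZ R μ Li hL, hser R μ Li hL ι (S a) h (hS a) hh, List.map_map, ← list_sum_mul]
        congr 1
        apply List.map_congr_left
        intro t ht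
        exact (up_ser _ _ (hS a) (hts t ht) μ Li).symm
  choose ts hts hser using hstr
  -- the complement
  set U : Set (ι → ℂ) := (⋃ a, S a)ᶜ with hU
  have hUc : Constructible U := (Constructible.iUnion hS).compl
  have hUf : ∀ ξ ∈ U, eval ξ f ≠ 0 := fun ξ hξ h0 => hξ (hcov h0)
  let tU : Term := ⟨ι, inferInstance, U, f, e, Fintype.card ι, 0, []⟩
  refine ⟨tU :: (List.finRange r).flatMap ts, ?_, ?_⟩
  · intro t ht
    rcases List.mem_cons.1 ht with rfl | ht
    · exact ⟨hUc, hUf, he, by simp [tU]⟩
    · obtain ⟨a, _, ha⟩ := List.mem_flatMap.1 ht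
      exact hts a t ha
  · intro R _ μ Li hL
    rw [stmt_GJet ι f R μ Li hL e]
    congr 1
    obtain ⟨hadd, hun⟩ := stmt_GAdd ι f R μ Li hL e he
    let S' : Option (Fin r) → Set (ι → ℂ) := fun o => o.elim U S
    have h1 : (Set.univ : Set (ι → ℂ)) = ⋃ o, S' o := by
      ext ξ
      simp only [Set.mem_univ, Set.mem_iUnion, true_iff]
      by_cases h : ξ ∈ ⋃ a, S a
      · obtain ⟨a, ha⟩ := Set.mem_iUnion.1 h
        exact ⟨some a, ha⟩
      · exact ⟨none, h⟩
    rw [h1, hadd (Option (Fin r)) S' ?_ ?_, Fintype.sum_option]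
    · rw [List.map_cons, List.sum_cons, sum_flatMap, ← Fin.sum_univ_def]
      congr 1
      · change ZS μ Li e f U = _
        rw [hun U hUc hUf]
        unfold Term.ser
        have h2 : cls μ e (Set.univ : Set (Empty → ℂ)) 1 U f = μ.val (cover e U f) :=
          cls_unit μ e U f hUc
        change _ = PowerSeries.C (cls μ e (Set.univ : Set (Empty → ℂ)) 1 U f *
          Li ^ Fintype.card ι) * PowerSeries.X ^ 0 * (List.map _ []).prod
        rw [h2, List.map_nil, List.prod_nil, pow_zero, mul_one, mul_one, mul_comm]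
      · exact Finset.sum_congr rfl fun a _ => hser a R μ Li hL
    · intro o
      cases o with
      | none => exact hUc
      | some a => exact hS a
    · intro o o' hoo
      cases o with
      | none =>
        cases o' with
        | none => exact absurd rfl hoo
        | some a =>
          rw [Set.disjoint_left]
          intro ξ h h'
          exact h (Set.mem_iUnion.2 ⟨a, h'⟩)
      | some b =>
        cases o' with
        | none =>
          rw [Set.disjoint_left]
          intro ξ h h'
          exact h' (Set.mem_iUnion.2 ⟨b, h⟩)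
        | some a => exact hd b a fun h => hoo (congrArg some h)

end Pool.Agent.Mono
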