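import Pool.Agent.Work.Monodromy.Tor

/-!
# Block Loc: localisation of the zeta functions
-/

namespace Pool.Agent.Mono

open MvPolynomial

namespace LocX

open TorX

/-! ### finite additivity -/

theorem val_empty {R : Type} [CommRing R] (μ : MotivicMeasure R) {ι : Type} [Finite ι] :
    μ.val (∅ : Set (ι → ℂ)) = 0 := by
  have hc : Constructible (∅ : Set (ι → ℂ)) := by
    have := (cons_univ (ι := ι)).compl
    simpa using this
  have h := μ.union (∅ : Set (ι → ℂ)) ∅ hc hc (by simp)
  rw [Set.union_empty] at h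
  have : μ.val (∅ : Set (ι → ℂ)) + 0 = μ.val (∅ : Set (ι → ℂ)) + μ.val (∅ : Set (ι → ℂ)) := by
    rw [add_zero]; exact h
  exact (add_left_cancel this).symm

theorem cons_union {ι : Type} {s t : Set (ι → ℂ)} (hs : Constructible s) (ht : Constructible t) :
    Constructible (s ∪ t) := by
  have h := (hs.compl.inter ht.compl).compl
  rwa [Set.compl_inter, compl_compl, compl_compl] at h

theorem cons_exists {ι α : Type} (s : Finset α) (P : α → Set (ι → ℂ))
    (hP : ∀ a ∈ s, Constructible (P a)) : Constructible {x : ι → ℂ | ∃ a ∈ s, x ∈ P a} := by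
  classical
  induction s using Finset.induction_on with
  | empty =>
    have e : {x : ι → ℂ | ∃ a ∈ (∅ : Finset α), x ∈ P a} = Set.univᶜ := by ext x; simp
    rw [e]; exact cons_univ.compl
  | insert a s _ ih =>
    have e : {x : ι → ℂ | ∃ b ∈ insert a s, x ∈ P b} = P a ∪ {x : ι → ℂ | ∃ a ∈ s, x ∈ P a} := by
      ext x; simp
    rw [e]
    exact cons_union (hP a (Finset.mem_insert_self _ _))
      (ih fun b hb => hP b (Finset.mem_insert_of_mem hb))

theorem val_exists {R : Type} [CommRing R] (μ : MotivicMeasure R) {ι α : Type} [Finite ι]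
    (s : Finset α) (P : α → Set (ι → ℂ)) (hP : ∀ a ∈ s, Constructible (P a))
    (hd : ∀ a ∈ s, ∀ b ∈ s, a ≠ b → Disjoint (P a) (P b)) :
    μ.val {x : ι → ℂ | ∃ a ∈ s, x ∈ P a} = ∑ a ∈ s, μ.val (P a) := by
  classical
  induction s using Finset.induction_on with
  | empty =>
    have e : {x : ι → ℂ | ∃ a ∈ (∅ : Finset α), x ∈ P a} = ∅ := by ext x; simp
    rw [e, val_empty, Finset.sum_empty]
  | insert a s ha ih =>
    have e : {x : ι → ℂ | ∃ b ∈ insert a s, x ∈ P b} = P a ∪ {x : ι → ℂ | ∃ a ∈ s, x ∈ P a} := by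
      ext x; simp
    rw [e, Finset.sum_insert ha, μ.union _ _ (hP a (Finset.mem_insert_self _ _))
      (cons_exists s P fun b hb => hP b (Finset.mem_insert_of_mem hb)),
      ih (fun b hb => hP b (Finset.mem_insert_of_mem hb))
        (fun b hb c hc => hd b (Finset.mem_insert_of_mem hb) c (Finset.mem_insert_of_mem hc))]
    rw [Set.disjoint_left]
    rintro x hx ⟨b, hb, hxb⟩
    have hab : a ≠ b := fun h => ha (h ▸ hb)
    exact Set.disjoint_left.1 (hd a (Finset.mem_insert_self _ _) b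
      (Finset.mem_insert_of_mem hb) hab) hx hxb

/-! ### roots of power series -/

theorem pow_sub_eq (x y : PowerSeries ℂ) (a : ℕ) :
    ∃ S : PowerSeries ℂ, x ^ a - y ^ a = (x - y) * S ∧
      (PowerSeries.constantCoeff x = PowerSeries.constantCoeff y →
        PowerSeries.constantCoeff S = a * PowerSeries.constantCoeff x ^ (a - 1)) := by
  refine ⟨∑ i ∈ Finset.range a, x ^ i * y ^ (a - 1 - i), (Commute.mul_geom_sum₂ (Commute.all x y) a).symm,
    fun h => ?_⟩
  rw [map_sum]
  have : ∀ i ∈ Finset.range a, PowerSeries.constantCoeff (x ^ i * y ^ (a - 1 - i)) =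
      PowerSeries.constantCoeff x ^ (a - 1) := by
    intro i hi
    rw [map_mul, map_pow, map_pow, ← h, ← pow_add]
    congr 1
    have := Finset.mem_range.1 hi
    omega
  rw [Finset.sum_congr rfl this, Finset.sum_const, Finset.card_range, nsmul_eq_mul]

theorem root_unique {x y : PowerSeries ℂ} {a n : ℕ} (ha : 1 ≤ a)
    (h0 : PowerSeries.constantCoeff x = PowerSeries.constantCoeff y)
    (hne : PowerSeries.constantCoeff x ≠ 0)
    (h : ∀ l < n, PowerSeries.coeff l (x ^ a) = PowerSeries.coeff l (y ^ a)) :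
    ∀ l < n, PowerSeries.coeff l x = PowerSeries.coeff l y := by
  obtain ⟨S, hS, hS0⟩ := pow_sub_eq x y a
  have hu : IsUnit S := by
    rw [PowerSeries.isUnit_iff_constantCoeff, hS0 h0, isUnit_iff_ne_zero]
    exact mul_ne_zero (by exact_mod_cast (by omega : a ≠ 0)) (pow_ne_zero _ hne)
  have h1 : (PowerSeries.X : PowerSeries ℂ) ^ n ∣ x ^ a - y ^ a := by
    rw [PowerSeries.X_pow_dvd_iff]
    intro l hl
    rw [map_sub, h l hl, sub_self]
  rw [hS, hu.dvd_mul_right, PowerSeries.X_pow_dvd_iff] at h1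
  intro l hl
  have := h1 l hl
  rw [map_sub, sub_eq_zero] at this
  exact this

theorem root_exists (c : ℂ) (hc : c ≠ 0) (a : ℕ) (ha : 1 ≤ a) (g : PowerSeries ℂ)
    (hg : PowerSeries.constantCoeff g = c ^ a) (n : ℕ) :
    ∃ x : PowerSeries ℂ, PowerSeries.constantCoeff x = c ∧
      ∀ l < n + 1, PowerSeries.coeff l (x ^ a) = PowerSeries.coeff l g := by
  induction n with
  | zero =>
    refine ⟨PowerSeries.C c, by simp, fun l hl => ?_⟩
    have : l = 0 := by omega
    subst this
    rw [PowerSeries.coeff_zero_eq_constantCoeff_apply, PowerSeries.coeff_zero_eq_constantCoeff_apply, hg]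
    simp
  | succ n ih =>
    obtain ⟨x, hx0, hx⟩ := ih
    set d : ℂ := (PowerSeries.coeff (n + 1) g - PowerSeries.coeff (n + 1) (x ^ a)) /
      (a * c ^ (a - 1)) with hd
    set y := x + PowerSeries.C d * PowerSeries.X ^ (n + 1) with hy
    have hy0 : PowerSeries.constantCoeff y = c := by
      rw [hy, map_add, hx0, map_mul, map_pow, PowerSeries.constantCoeff_X, zero_pow (by omega),
        mul_zero, add_zero]
    obtain ⟨S, hS, hS0⟩ := pow_sub_eq y x a
    have hS1 : PowerSeries.constantCoeff S = a * c ^ (a - 1) := by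
      rw [hS0 (by rw [hy0, hx0]), hy0]
    have hyx : y ^ a = x ^ a + PowerSeries.C d * (PowerSeries.X ^ (n + 1) * S) := by
      have : y - x = PowerSeries.C d * PowerSeries.X ^ (n + 1) := by rw [hy]; ring
      rw [this] at hS
      rw [← mul_assoc, ← hS]; ring
    refine ⟨y, hy0, fun l hl => ?_⟩
    rw [hyx, map_add, PowerSeries.coeff_C_mul, PowerSeries.coeff_X_pow_mul']
    rcases Nat.lt_or_ge l (n + 1) with h | h
    · rw [if_neg (by omega), hx l h]; ring
    · have hl' : l = n + 1 := by omega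
      subst hl'
      rw [if_pos le_rfl, Nat.sub_self, PowerSeries.coeff_zero_eq_constantCoeff_apply, hS1, hd,
        div_mul_cancel₀]
      · ring
      · exact mul_ne_zero (by exact_mod_cast (by omega : a ≠ 0)) (pow_ne_zero _ hc)

/-! ### the exact identity -/

section Exact

variable {ι κ : Type} [Fintype ι] [Fintype κ] [DecidableEq ι] [DecidableEq κ]

/-- `(x - x(0)) / t` -/
noncomputable def sh (x : PowerSeries ℂ) : PowerSeries ℂ :=
  PowerSeries.mk fun l => PowerSeries.coeff (l + 1) x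

theorem eq_sh (x : PowerSeries ℂ) :
    x = PowerSeries.C (PowerSeries.constantCoeff x) + PowerSeries.X * sh x := by
  ext l
  rcases l with _ | l
  · simp
  · rw [map_add, PowerSeries.coeff_succ_X_mul, PowerSeries.coeff_C, if_neg (by omega), zero_add]
    simp [sh]

/-- the point `ξ` -/
noncomputable def pt (D : Data ι κ) (δ : ι → ℕ) (x : ι → PowerSeries ℂ) : ι → ℂ := fun i =>
  if i ∈ D.M0 δ then PowerSeries.constantCoeff (x i) else 0

/-- the new arcs -/
noncomputable def Th (D : Data ι κ) (δ : ι → ℕ) (J : Finset ι) (x : ι → PowerSeries ℂ) :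
    ι → PowerSeries ℂ := fun i =>
  if i ∈ J then sh (x i ^ D.a i) else if i ∈ D.M0 δ then sh (x i) else x i

theorem mem_M0 (D : Data ι κ) (δ : ι → ℕ) (i : ι) : i ∈ D.M0 δ ↔ D.Rel i ∧ δ i = 0 := by
  classical
  simp [Data.M0]

variable (D : Data ι κ) (δ : ι → ℕ) (J : Finset ι) (A : Finset κ) (x : ι → PowerSeries ℂ)

theorem formS_eq (ha : ∀ i, 1 ≤ D.a i) (hJ : J ⊆ D.M0 δ)
    (h0 : ∀ i ∈ D.M0 δ, i ∉ J → PowerSeries.constantCoeff (x i) = 0) (j : κ) (hj : 0 < D.m j) :
    D.formS δ x j = PowerSeries.C (eval (pt D δ x) (D.form j)) +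
      PowerSeries.X * (D.loc J A).formS (D.next δ J) (Th D δ J x) j := by
  rw [eval_form]
  unfold Data.formS
  have hloc0 : (D.loc J A).c0 j = 0 := rfl
  rw [hloc0, map_zero, zero_add, map_add, map_sum, add_assoc, Finset.mul_sum,
    ← Finset.sum_add_distrib]
  congr 1
  refine Finset.sum_congr rfl fun i _ => ?_
  have hc : (D.loc J A).c j i = D.c j i := rfl
  rw [hc, map_mul]
  have hai : D.a i ≠ 0 := Nat.one_le_iff_ne_zero.1 (ha i)
  by_cases hc0 : D.c j i = 0
  · rw [hc0, map_zero]; ring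
  have hrel : D.Rel i := Or.inr ⟨j, hj, hc0⟩
  by_cases hiJ : i ∈ J
  · have hM := hJ hiJ
    have hδ : δ i = 0 := ((mem_M0 D δ i).1 hM).2
    have h1 : (D.loc J A).a i = 1 := by simp [Data.loc, hiJ]
    have h2 : D.next δ J i = 0 := by simp [Data.next, hiJ]
    have h3 : Th D δ J x i = sh (x i ^ D.a i) := by simp [Th, hiJ]
    have h4 : pt D δ x i = PowerSeries.constantCoeff (x i) := by simp [pt, hM]
    rw [h1, h2, h3, h4, hδ, pow_zero, pow_one, one_mul]
    have h5 := eq_sh (x i ^ D.a i)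
    rw [map_pow] at h5
    conv_lhs => rw [h5]
    ring
  · have h1 : (D.loc J A).a i = D.a i := by simp [Data.loc, hiJ]
    by_cases hM : i ∈ D.M0 δ
    · have hδ : δ i = 0 := ((mem_M0 D δ i).1 hM).2
      have h2 : D.next δ J i = D.a i - 1 := by simp [Data.next, hiJ, hM]
      have h3 : Th D δ J x i = sh (x i) := by simp [Th, hiJ, hM]
      have h4 : pt D δ x i = 0 := by simp [pt, hM, h0 i hM hiJ]
      have h5 : x i = PowerSeries.X * sh (x i) := by
        conv_lhs => rw [eq_sh (x i), h0 i hM hiJ, map_zero, zero_add]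
      rw [h1, h2, h3, h4, hδ, pow_zero, one_mul, zero_pow hai, map_zero, mul_zero, zero_add]
      conv_lhs => rw [h5]
      rw [mul_pow]
      obtain ⟨m, hm⟩ : ∃ m, D.a i = m + 1 := ⟨D.a i - 1, by omega⟩
      rw [hm, Nat.add_sub_cancel]
      ring
    · have hδ : δ i ≠ 0 := fun h => hM ((mem_M0 D δ i).2 ⟨hrel, h⟩)
      have h2 : D.next δ J i = δ i - 1 := by simp [Data.next, hiJ, hM]
      have h3 : Th D δ J x i = x i := by simp [Th, hiJ, hM]
      have h4 : pt D δ x i = 0 := by simp [pt, hM]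
      obtain ⟨m, hm⟩ : ∃ m, δ i = m + 1 := ⟨δ i - 1, by omega⟩
      rw [h1, h2, h3, h4, hm, zero_pow hai, map_zero, mul_zero, zero_add, Nat.add_sub_cancel]
      ring

theorem F_eq (ha : ∀ i, 1 ≤ D.a i) (hJ : J ⊆ D.M0 δ) (hx : pt D δ x ∈ D.str J A) :
    ∃ U : PowerSeries ℂ, PowerSeries.constantCoeff U = eval (pt D δ x) (D.unit J A) ∧
      D.F δ x = U * (PowerSeries.X ^ (∑ i ∈ D.M0 δ \ J, D.b i + ∑ j ∈ A, D.m j) *
        (D.loc J A).F (D.next δ J) (Th D δ J x)) := by
  have h0 : ∀ i ∈ D.M0 δ, i ∉ J → PowerSeries.constantCoeff (x i) = 0 := by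
    intro i hi hiJ
    have := (hx.1 i).not.2 hiJ
    rw [pt, if_pos hi] at this
    simpa using this
  refine ⟨(∏ i ∈ J, x i ^ D.b i) * ∏ j ∈ Aᶜ, D.formS δ x j ^ D.m j, ?_, ?_⟩
  · rw [map_mul, map_prod, map_prod, eval_unit]
    congr 1
    · refine Finset.prod_congr rfl fun i hi => ?_
      rw [map_pow, pt, if_pos (hJ hi)]
    · refine Finset.prod_congr rfl fun j _ => ?_
      rw [map_pow]
      rcases Nat.eq_zero_or_pos (D.m j) with h | h
      · rw [h, pow_zero, pow_zero]
      · rw [formS_eq D δ J A x ha hJ h0 j h]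
        simp
  · unfold Data.F
    have e1 : ∏ i, x i ^ D.b i = (∏ i ∈ J, x i ^ D.b i) *
        (PowerSeries.X ^ (∑ i ∈ D.M0 δ \ J, D.b i) *
          ∏ i, Th D δ J x i ^ (D.loc J A).b i) := by
      rw [← Finset.prod_pow_eq_pow_sum]
      have e2 : ∏ i ∈ J, x i ^ D.b i = ∏ i, if i ∈ J then x i ^ D.b i else 1 := by
        rw [Finset.prod_ite_mem, Finset.univ_inter]
      have e3 : ∏ i ∈ D.M0 δ \ J, (PowerSeries.X : PowerSeries ℂ) ^ D.b i =
          ∏ i, if i ∈ D.M0 δ \ J then PowerSeries.X ^ D.b i else 1 := by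
        rw [Finset.prod_ite_mem, Finset.univ_inter]
      rw [e2, e3, ← Finset.prod_mul_distrib, ← Finset.prod_mul_distrib]
      refine Finset.prod_congr rfl fun i _ => ?_
      by_cases hiJ : i ∈ J
      · have : (D.loc J A).b i = 0 := by simp [Data.loc, hiJ]
        rw [if_pos hiJ, if_neg (by simp [hiJ]), this, pow_zero]; ring
      · have hb : (D.loc J A).b i = D.b i := by simp [Data.loc, hiJ]
        by_cases hM : i ∈ D.M0 δ
        · have h3 : Th D δ J x i = sh (x i) := by simp [Th, hiJ, hM]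
          have h5 : x i = PowerSeries.X * sh (x i) := by
            conv_lhs => rw [eq_sh (x i), h0 i hM hiJ, map_zero, zero_add]
          rw [if_neg hiJ, if_pos (by simp [hiJ, hM]), hb, h3]
          conv_lhs => rw [h5]
          ring
        · have h3 : Th D δ J x i = x i := by simp [Th, hiJ, hM]
          rw [if_neg hiJ, if_neg (by simp [hM]), hb, h3]; ring
    have e4 : ∏ j, D.formS δ x j ^ D.m j = (∏ j ∈ Aᶜ, D.formS δ x j ^ D.m j) *
        (PowerSeries.X ^ (∑ j ∈ A, D.m j) *
          ∏ j, (D.loc J A).formS (D.next δ J) (Th D δ J x) j ^ (D.loc J A).m j) := by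
      rw [← Finset.prod_pow_eq_pow_sum]
      have e2 : ∏ j ∈ Aᶜ, D.formS δ x j ^ D.m j =
          ∏ j, if j ∈ Aᶜ then D.formS δ x j ^ D.m j else 1 := by
        rw [Finset.prod_ite_mem, Finset.univ_inter]
      have e3 : ∏ j ∈ A, (PowerSeries.X : PowerSeries ℂ) ^ D.m j =
          ∏ j, if j ∈ A then PowerSeries.X ^ D.m j else 1 := by
        rw [Finset.prod_ite_mem, Finset.univ_inter]
      rw [e2, e3, ← Finset.prod_mul_distrib, ← Finset.prod_mul_distrib]
      refine Finset.prod_congr rfl fun j _ => ?_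
      by_cases hjA : j ∈ A
      · have hm : (D.loc J A).m j = D.m j := by simp [Data.loc, hjA]
        rw [if_neg (by simp [hjA]), if_pos hjA, hm]
        rcases Nat.eq_zero_or_pos (D.m j) with h | h
        · rw [h]; simp
        · rw [formS_eq D δ J A x ha hJ h0 j h, (hx.2 j).2 hjA, map_zero, zero_add]
          ring
      · have hm : (D.loc J A).m j = 0 := by simp [Data.loc, hjA]
        rw [if_pos (by simp [hjA]), if_neg hjA, hm]; ring
    rw [e1, e4, pow_add]
    ring

end Exact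

/-- order and leading coefficient of `U t^c F'` -/
theorem ord_iff (U F' : PowerSeries ℂ) (c k : ℕ) (hU : PowerSeries.constantCoeff U ≠ 0)
    (P : ℂ → Prop) :
    ((∀ l < k, PowerSeries.coeff l (U * (PowerSeries.X ^ c * F')) = 0) ∧
      PowerSeries.coeff k (U * (PowerSeries.X ^ c * F')) ≠ 0 ∧
      P (PowerSeries.coeff k (U * (PowerSeries.X ^ c * F')))) ↔
    c ≤ k ∧ ((∀ l < k - c, PowerSeries.coeff l F' = 0) ∧ PowerSeries.coeff (k - c) F' ≠ 0 ∧
      P (PowerSeries.constantCoeff U * PowerSeries.coeff (k - c) F')) := by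
  have e : U * (PowerSeries.X ^ c * F') = PowerSeries.X ^ c * (U * F') := by ring
  have hu : IsUnit U := by
    rw [PowerSeries.isUnit_iff_constantCoeff, isUnit_iff_ne_zero]; exact hU
  have key : ∀ n, (∀ l < n, PowerSeries.coeff l (U * F') = 0) ↔
      (∀ l < n, PowerSeries.coeff l F' = 0) := by
    intro n
    rw [← PowerSeries.X_pow_dvd_iff, ← PowerSeries.X_pow_dvd_iff, hu.dvd_mul_left]
  have lead : ∀ n, (∀ l < n, PowerSeries.coeff l F' = 0) →
      PowerSeries.coeff n (U * F') = PowerSeries.constantCoeff U * PowerSeries.coeff n F' := by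
    intro n hn
    obtain ⟨Q, hQ⟩ := (PowerSeries.X_pow_dvd_iff).2 hn
    have e2 : U * F' = PowerSeries.X ^ n * (U * Q) := by rw [hQ]; ring
    rw [e2, hQ, PowerSeries.coeff_X_pow_mul', PowerSeries.coeff_X_pow_mul', if_pos le_rfl,
      if_pos le_rfl, Nat.sub_self, PowerSeries.coeff_zero_eq_constantCoeff_apply,
      PowerSeries.coeff_zero_eq_constantCoeff_apply, map_mul]
  rw [e]
  constructor
  · rintro ⟨h1, h2, h3⟩
    have hck : c ≤ k := by
      by_contra h
      apply h2
      rw [PowerSeries.coeff_X_pow_mul', if_neg h]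
    refine ⟨hck, ?_⟩
    have h4 : ∀ l < k - c, PowerSeries.coeff l F' = 0 := by
      rw [← key]
      intro l hl
      have := h1 (l + c) (by omega)
      rwa [PowerSeries.coeff_X_pow_mul', if_pos (by omega), Nat.add_sub_cancel] at this
    rw [PowerSeries.coeff_X_pow_mul', if_pos hck, lead _ h4] at h2 h3
    exact ⟨h4, (mul_ne_zero_iff.1 h2).2, h3⟩
  · rintro ⟨hck, h4, h5, h6⟩
    rw [PowerSeries.coeff_X_pow_mul', if_pos hck, lead _ h4]
    refine ⟨fun l hl => ?_, mul_ne_zero hU h5, h6⟩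
    rw [PowerSeries.coeff_X_pow_mul']
    split_ifs with h
    · exact (key _).2 h4 _ (by omega)
    · rfl

/-! ### truncated arcs -/

theorem coeff_toArc {ι : Type} (K : ι → ℕ) (v : (Σ i, Fin (K i)) → ℂ) (i : ι) (l : ℕ) (h : l < K i) :
    PowerSeries.coeff l (toArc K v i) = v ⟨i, ⟨l, h⟩⟩ := by
  simp [toArc, h]

/-- coefficient `n` of the component `i` -/
noncomputable def cp {E ι : Type} (K : ι → ℕ) (i : ι) (n : ℕ) :
    MvPolynomial (E ⊕ (Σ i, Fin (K i))) ℂ :=
  if h : n < K i then X (Sum.inr ⟨i, ⟨n, h⟩⟩) else 0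

theorem eval_cp {E ι : Type} (K : ι → ℕ) (i : ι) (n : ℕ) (v : E ⊕ (Σ i, Fin (K i)) → ℂ) :
    eval v (cp K i n) = PowerSeries.coeff n (toArc K (fun s => v (Sum.inr s)) i) := by
  unfold cp toArc
  rw [PowerSeries.coeff_mk]
  split_ifs <;> simp

theorem map_cp {E ι : Type} (K : ι → ℕ) (i : ι) (v : E ⊕ (Σ i, Fin (K i)) → ℂ) :
    PowerSeries.map (eval v) (PowerSeries.mk fun n => cp K i n) =
      toArc K (fun s => v (Sum.inr s)) i := by
  ext n
  rw [PowerSeries.coeff_map, PowerSeries.coeff_mk, eval_cp]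

theorem eval_cp_pow {E ι : Type} (K : ι → ℕ) (i : ι) (a n : ℕ) (v : E ⊕ (Σ i, Fin (K i)) → ℂ) :
    eval v (PowerSeries.coeff n ((PowerSeries.mk fun n => cp K i n) ^ a)) =
      PowerSeries.coeff n (toArc K (fun s => v (Sum.inr s)) i ^ a) := by
  rw [← map_cp, ← map_pow, PowerSeries.coeff_map]

theorem pow_agree {x y : PowerSeries ℂ} {n : ℕ} (a : ℕ)
    (h : ∀ l < n, PowerSeries.coeff l x = PowerSeries.coeff l y) :
    ∀ l < n, PowerSeries.coeff l (x ^ a) = PowerSeries.coeff l (y ^ a) := by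
  have h1 : (PowerSeries.X : PowerSeries ℂ) ^ n ∣ x - y := by
    rw [PowerSeries.X_pow_dvd_iff]
    intro l hl
    rw [map_sub, h l hl, sub_self]
  have h2 := h1.trans (sub_dvd_pow_sub_pow x y a)
  rw [PowerSeries.X_pow_dvd_iff] at h2
  intro l hl
  have := h2 l hl
  rw [map_sub, sub_eq_zero] at this
  exact this

section Main

variable {ι κ : Type} [Fintype ι] [Fintype κ] [DecidableEq ι] [DecidableEq κ]

/-- the polynomial map -/
noncomputable def Ph {E : Type} (D : Data ι κ) (δ : ι → ℕ) (J : Finset ι) (K K' : ι → ℕ) :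
    ((E ⊕ ι) ⊕ Unit) ⊕ (Σ i, Fin (K' i)) → MvPolynomial ((E ⊕ Unit) ⊕ (Σ i, Fin (K i))) ℂ :=
  Sum.elim (Sum.elim (Sum.elim (fun p => X (Sum.inl (Sum.inl p)))
      (fun i => if i ∈ D.M0 δ then cp K i 0 else 0)) (fun _ => X (Sum.inl (Sum.inr ()))))
    (fun s => if s.1 ∈ J then
      PowerSeries.coeff ((s.2 : ℕ) + 1) ((PowerSeries.mk fun n => cp K s.1 n) ^ D.a s.1)
      else if s.1 ∈ D.M0 δ then cp K s.1 ((s.2 : ℕ) + 1) else cp K s.1 s.2)

theorem Ph_inr {E : Type} (D : Data ι κ) (δ : ι → ℕ) (J : Finset ι) (K K' : ι → ℕ)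
    (v : (E ⊕ Unit) ⊕ (Σ i, Fin (K i)) → ℂ) (s : Σ i, Fin (K' i)) :
    eval v (Ph D δ J K K' (Sum.inr s)) =
      PowerSeries.coeff (s.2 : ℕ) (Th D δ J (toArc K fun s => v (Sum.inr s)) s.1) := by
  unfold Ph Th
  rw [Sum.elim_inr]
  split_ifs with h1 h2
  · rw [eval_cp_pow, sh, PowerSeries.coeff_mk]
  · rw [eval_cp, sh, PowerSeries.coeff_mk]
  · rw [eval_cp]

theorem Ph_pt {E : Type} (D : Data ι κ) (δ : ι → ℕ) (J : Finset ι) (K K' : ι → ℕ)
    (v : (E ⊕ Unit) ⊕ (Σ i, Fin (K i)) → ℂ) (i : ι) :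
    eval v (Ph D δ J K K' (Sum.inl (Sum.inl (Sum.inr i)))) =
      pt D δ (toArc K fun s => v (Sum.inr s)) i := by
  unfold Ph pt
  rw [Sum.elim_inl, Sum.elim_inl, Sum.elim_inr]
  split_ifs with h1
  · rw [eval_cp, PowerSeries.coeff_zero_eq_constantCoeff_apply]
  · simp

theorem Ph_p {E : Type} (D : Data ι κ) (δ : ι → ℕ) (J : Finset ι) (K K' : ι → ℕ)
    (v : (E ⊕ Unit) ⊕ (Σ i, Fin (K i)) → ℂ) (p : E) :
    eval v (Ph D δ J K K' (Sum.inl (Sum.inl (Sum.inl p)))) = v (Sum.inl (Sum.inl p)) := by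
  unfold Ph
  rw [Sum.elim_inl, Sum.elim_inl, Sum.elim_inl, eval_X]

theorem Ph_w {E : Type} (D : Data ι κ) (δ : ι → ℕ) (J : Finset ι) (K K' : ι → ℕ)
    (v : (E ⊕ Unit) ⊕ (Σ i, Fin (K i)) → ℂ) (u : Unit) :
    eval v (Ph D δ J K K' (Sum.inl (Sum.inr u))) = v (Sum.inl (Sum.inr ())) := by
  unfold Ph
  rw [Sum.elim_inl, Sum.elim_inr, eval_X]

/-- contact on the stratum, exact arcs -/
theorem contact_iff (D : Data ι κ) (δ : ι → ℕ) (ha : ∀ i, 1 ≤ D.a i) (J : Finset ι)
    (A : Finset κ) (hJ : J ⊆ D.M0 δ) (x : ι → PowerSeries ℂ) (hx : pt D δ x ∈ D.str J A)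
    (e : ℕ) {E : Type} (B : Set (E → ℂ)) (h : MvPolynomial E ℂ) (k : ℕ) (q : E ⊕ Unit → ℂ) :
    (q, x) ∈ contact e B h D δ k ↔
      (∑ i ∈ D.M0 δ \ J, D.b i + ∑ j ∈ A, D.m j) ≤ k ∧
      ((Sum.elim (Sum.elim (fun p => q (Sum.inl p)) (pt D δ x)) (fun _ => q (Sum.inr ())) :
        (E ⊕ ι) ⊕ Unit → ℂ), Th D δ J x) ∈
        contact e (pset B (D.str J A)) (pmul h (D.unit J A)) (D.loc J A) (D.next δ J)
          (k - (∑ i ∈ D.M0 δ \ J, D.b i + ∑ j ∈ A, D.m j)) := by
  obtain ⟨U, hU, hF⟩ := F_eq D δ J A x ha hJ hx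
  have hU0 : PowerSeries.constantCoeff U ≠ 0 := by rw [hU]; exact unit_ne D J A hx
  have key := ord_iff U ((D.loc J A).F (D.next δ J) (Th D δ J x))
    (∑ i ∈ D.M0 δ \ J, D.b i + ∑ j ∈ A, D.m j) k hU0
    (fun t => q (Sum.inr ()) ^ e = eval (fun p => q (Sum.inl p)) h * t)
  rw [← hF] at key
  unfold contact
  simp only [Set.mem_ofPred_eq]
  rw [key, hU]
  have e1 : (fun p => (Sum.elim (Sum.elim (fun p => q (Sum.inl p)) (pt D δ x))
      (fun _ => q (Sum.inr ())) : (E ⊕ ι) ⊕ Unit → ℂ) (Sum.inl p)) =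
      Sum.elim (fun p => q (Sum.inl p)) (pt D δ x) := by
    funext p; rfl
  have e2 : (Sum.elim (fun p => q (Sum.inl p)) (pt D δ x) ∈ pset B (D.str J A)) ↔
      (fun p => q (Sum.inl p)) ∈ B := by
    unfold pset
    simp only [Set.mem_ofPred_eq, Sum.elim_inl, Sum.elim_inr]
    exact ⟨fun h => h.1, fun h => ⟨h, hx⟩⟩
  have e3 : eval (Sum.elim (fun p => q (Sum.inl p)) (pt D δ x)) (pmul h (D.unit J A)) =
      eval (fun p => q (Sum.inl p)) h * eval (pt D δ x) (D.unit J A) := by
    unfold pmul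
    rw [map_mul, eval_rename, eval_rename]
    rfl
  rw [e1, e2, e3, Sum.elim_inr, mul_assoc]
  tauto

end Main

end LocX

open TorX LocX in
theorem stmt_Loc (hYV : Stmt_YV) (hYK : Stmt_YK) (hYF : Stmt_YF) : Stmt_Loc := by
  intro ι κ _ _ _ _ D δ ha R _ μ Li hLi e E _ B h hB hh
  ext k
  set K : ι → ℕ := fun _ => k + 2 with hK
  set K' : ι → ℕ := fun i => if i ∈ D.M0 δ then k + 1 else k + 2 with hK'
  have hK'M : ∀ i ∈ D.M0 δ, K' i = k + 1 := fun i hi => by simp [hK', hi]
  have hK'N : ∀ i, i ∉ D.M0 δ → K' i = k + 2 := fun i hi => by simp [hK', hi]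
  have hcyl : IsCyl K (contact e B h D δ k) :=
    hYK (E ⊕ Unit) ι (fun _ => k + 1) K _ (fun i => by simp [hK]) (hYF ι κ E e B h D δ k hB)
  set T : Finset ι × Finset κ → Set ((E ⊕ Unit) ⊕ (Σ i, Fin (K i)) → ℂ) := fun a =>
    sec K (contact e B h D δ k) ∩
      {v | pt D δ (toArc K fun s => v (Sum.inr s)) ∈ D.str a.1 a.2} with hT
  have hTc : ∀ a, Constructible (T a) := by
    intro a
    refine hcyl.2.inter ?_
    have := cons_pre (fun i : ι => (if i ∈ D.M0 δ then cp K i 0 else 0 :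
      MvPolynomial ((E ⊕ Unit) ⊕ (Σ i, Fin (K i))) ℂ)) (cons_str D a.1 a.2)
    have e : {x : (E ⊕ Unit) ⊕ (Σ i, Fin (K i)) → ℂ | (fun i : ι =>
        eval x (if i ∈ D.M0 δ then cp K i 0 else 0 :
          MvPolynomial ((E ⊕ Unit) ⊕ (Σ i, Fin (K i))) ℂ)) ∈ D.str a.1 a.2} =
        {v | pt D δ (toArc K fun s => v (Sum.inr s)) ∈ D.str a.1 a.2} := by
      ext v
      have : (fun i : ι => eval v (if i ∈ D.M0 δ then cp K i 0 else 0 :
          MvPolynomial ((E ⊕ Unit) ⊕ (Σ i, Fin (K i))) ℂ)) =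
          pt D δ (toArc K fun s => v (Sum.inr s)) := by
        funext i
        unfold pt
        split_ifs with h1
        · rw [eval_cp, PowerSeries.coeff_zero_eq_constantCoeff_apply]
        · simp
      simp only [Set.mem_ofPred_eq]
      rw [this]
    rw [e] at this
    exact this
  set s : Finset (Finset ι × Finset κ) := (D.M0 δ).powerset ×ˢ Finset.univ with hs
  have hunion : sec K (contact e B h D δ k) = {v | ∃ a ∈ s, v ∈ T a} := by
    classical
    ext v
    constructor
    · intro hv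
      set ξ := pt D δ (toArc K fun s => v (Sum.inr s)) with hξ
      refine ⟨(Finset.univ.filter fun i => ξ i ≠ 0,
        Finset.univ.filter fun j => eval ξ (D.form j) = 0), ?_, hv, ?_⟩
      · rw [hs, Finset.mem_product, Finset.mem_powerset]
        refine ⟨fun i hi => ?_, Finset.mem_univ _⟩
        rw [Finset.mem_filter] at hi
        by_contra hM
        apply hi.2
        rw [hξ, pt, if_neg hM]
      · refine ⟨fun i => ?_, fun j => ?_⟩
        · simp [← hξ]
        · simp [← hξ]
    · rintro ⟨a, _, ha2⟩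
      exact ha2.1
  have hdisj : ∀ a ∈ s, ∀ b ∈ s, a ≠ b → Disjoint (T a) (T b) := by
    intro a _ b _ hab
    rw [Set.disjoint_left]
    intro v hv hw
    apply hab
    refine Prod.ext ?_ ?_
    · ext i; rw [← hv.2.1 i, ← hw.2.1 i]
    · ext j; rw [← hv.2.2 j, ← hw.2.2 j]
  have hLHS : PowerSeries.coeff k (Zs μ Li e B h D δ) =
      ∑ a ∈ s, μ.val (T a) * Li ^ (∑ i, K i) := by
    rw [Zs, PowerSeries.coeff_mk, hYV R μ Li hLi (E ⊕ Unit) ι K _ hcyl, hunion,
      val_exists μ s T (fun a _ => hTc a) hdisj, Finset.sum_mul]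
  have hsumK : ∑ i, K i = (D.M0 δ).card + ∑ i, K' i := by
    have h1 : ∀ i, K i = (if i ∈ D.M0 δ then 1 else 0) + K' i := by
      intro i
      by_cases hi : i ∈ D.M0 δ
      · rw [hK'M i hi, if_pos hi, hK]; ring
      · rw [hK'N i hi, if_neg hi, hK]; ring
    rw [Finset.sum_congr rfl fun i _ => h1 i, Finset.sum_add_distrib, Finset.sum_boole]
    simp
  rw [hLHS, hs, Finset.sum_product, map_sum]
  refine Finset.sum_congr rfl fun J hJ => ?_
  rw [Finset.mem_powerset] at hJ
  rw [map_sum]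
  refine Finset.sum_congr rfl fun A _ => ?_
  set c := ∑ i ∈ D.M0 δ \ J, D.b i + ∑ j ∈ A, D.m j with hc
  rw [mul_assoc, PowerSeries.coeff_C_mul, PowerSeries.coeff_X_pow_mul']
  have hstr := cons_str D J A
  by_cases hck : c ≤ k
  swap
  · rw [if_neg hck, mul_zero]
    have : T (J, A) = ∅ := by
      ext v
      simp only [Set.mem_empty_iff_false, iff_false]
      rintro ⟨hv1, hv2⟩
      exact hck ((contact_iff D δ ha J A hJ _ hv2 e B h k _).1 hv1).1
    rw [this, val_empty, zero_mul]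
  rw [if_pos hck, Zs, PowerSeries.coeff_mk]
  set B' := pset B (D.str J A) with hB'
  set h' := pmul h (D.unit J A) with hh'
  set D' := D.loc J A with hD'
  set δ' := D.next δ J with hδ'
  have hcyl' : IsCyl K' (contact e B' h' D' δ' (k - c)) := by
    refine hYK ((E ⊕ ι) ⊕ Unit) ι (fun _ => k - c + 1) K' _ (fun i => ?_)
      (hYF ι κ (E ⊕ ι) e B' h' D' δ' (k - c) (cons_pset hB hstr))
    by_cases hi : i ∈ D.M0 δ
    · rw [hK'M i hi]; omega
    · rw [hK'N i hi]; omega
  rw [hYV R μ Li hLi ((E ⊕ ι) ⊕ Unit) ι K' _ hcyl', hsumK, pow_add]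
  have hval : μ.val (T (J, A)) = μ.val (sec K' (contact e B' h' D' δ' (k - c))) := by
    refine μ.map _ _ (Ph D δ J K K') (hTc _) hcyl'.2 ?_
    -- equivalence on truncated arcs
    have EQ : ∀ v : (E ⊕ Unit) ⊕ (Σ i, Fin (K i)) → ℂ,
        pt D δ (toArc K fun s => v (Sum.inr s)) ∈ D.str J A →
        (v ∈ sec K (contact e B h D δ k) ↔
          (fun s => eval v (Ph D δ J K K' s)) ∈ sec K' (contact e B' h' D' δ' (k - c))) := by
      intro v hv
      set x := toArc K fun s => v (Sum.inr s) with hx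
      have h1 : v ∈ sec K (contact e B h D δ k) ↔
          ((fun p => v (Sum.inl p)), x) ∈ contact e B h D δ k := Iff.rfl
      have h2 : (fun s => eval v (Ph D δ J K K' s)) ∈ sec K' (contact e B' h' D' δ' (k - c)) ↔
          ((fun p => eval v (Ph D δ J K K' (Sum.inl p))),
            toArc K' fun s => eval v (Ph D δ J K K' (Sum.inr s))) ∈
            contact e B' h' D' δ' (k - c) := Iff.rfl
      have h3 := hcyl'.1 (fun p => eval v (Ph D δ J K K' (Sum.inl p)))
        (toArc K' fun s => eval v (Ph D δ J K K' (Sum.inr s))) (Th D δ J x)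
        (fun i l hl => by rw [coeff_toArc K' _ i l hl, Ph_inr])
      rw [h1, h2, contact_iff D δ ha J A hJ x hv e B h k, h3]
      · have e1 : (fun p => eval v (Ph D δ J K K' (Sum.inl p))) =
            (Sum.elim (Sum.elim (fun p => v (Sum.inl (Sum.inl p))) (pt D δ x))
              (fun _ => v (Sum.inl (Sum.inr ()))) : (E ⊕ ι) ⊕ Unit → ℂ) := by
          funext p
          rcases p with (p | i) | u
          · rw [Ph_p]; rfl
          · rw [Ph_pt]; rfl
          · rw [Ph_w]; rfl
        rw [e1]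
        exact ⟨fun h => h.2, fun h => ⟨hck, h⟩⟩
    refine ⟨?_, ?_, ?_⟩
    · intro v hv
      exact (EQ v hv.2).1 hv.1
    · intro v hv w hw hvw
      have hvw' : ∀ s, eval v (Ph D δ J K K' s) = eval w (Ph D δ J K K' s) := fun s =>
        congrFun hvw s
      set x := toArc K fun s => v (Sum.inr s) with hx
      set y := toArc K fun s => w (Sum.inr s) with hy
      have hpt : ∀ i, pt D δ x i = pt D δ y i := by
        intro i
        have := hvw' (Sum.inl (Sum.inl (Sum.inr i)))
        rwa [Ph_pt, Ph_pt] at this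
      have hTh : ∀ i, ∀ l < K' i, PowerSeries.coeff l (Th D δ J x i) =
          PowerSeries.coeff l (Th D δ J y i) := by
        intro i l hl
        have := hvw' (Sum.inr ⟨i, ⟨l, hl⟩⟩)
        rwa [Ph_inr, Ph_inr] at this
      have hxy : ∀ i, ∀ l < K i, PowerSeries.coeff l (x i) = PowerSeries.coeff l (y i) := by
        intro i
        by_cases hM : i ∈ D.M0 δ
        · have h0 : PowerSeries.constantCoeff (x i) = PowerSeries.constantCoeff (y i) := by
            have := hpt i
            rwa [pt, pt, if_pos hM, if_pos hM] at this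
          by_cases hiJ : i ∈ J
          · have hne : PowerSeries.constantCoeff (x i) ≠ 0 := by
              have := (hv.2.1 i).2 hiJ
              rwa [pt, if_pos hM] at this
            refine root_unique (ha i) h0 hne fun l hl => ?_
            rcases l with _ | l
            · rw [PowerSeries.coeff_zero_eq_constantCoeff_apply,
                PowerSeries.coeff_zero_eq_constantCoeff_apply, map_pow, map_pow, h0]
            · have h1 := hTh i l (by rw [hK'M i hM]; simp only [hK] at hl; omega)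
              rw [Th, Th, if_pos hiJ, if_pos hiJ, sh, sh, PowerSeries.coeff_mk,
                PowerSeries.coeff_mk] at h1
              exact h1
          · intro l hl
            rcases l with _ | l
            · rw [PowerSeries.coeff_zero_eq_constantCoeff_apply,
                PowerSeries.coeff_zero_eq_constantCoeff_apply, h0]
            · have h1 := hTh i l (by rw [hK'M i hM]; simp only [hK] at hl; omega)
              rw [Th, Th, if_neg hiJ, if_neg hiJ, if_pos hM, if_pos hM, sh, sh,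
                PowerSeries.coeff_mk, PowerSeries.coeff_mk] at h1
              exact h1
        · intro l hl
          have hiJ : i ∉ J := fun h => hM (hJ h)
          have h1 := hTh i l (by rw [hK'N i hM]; exact hl)
          rwa [Th, Th, if_neg hiJ, if_neg hiJ, if_neg hM, if_neg hM] at h1
      funext s
      rcases s with (p | u) | ⟨i, l⟩
      · have := hvw' (Sum.inl (Sum.inl (Sum.inl p)))
        rwa [Ph_p, Ph_p] at this
      · have := hvw' (Sum.inl (Sum.inr u))
        rwa [Ph_w, Ph_w] at this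
      · have := hxy i l l.2
        rwa [hx, hy, coeff_toArc K _ i l l.2, coeff_toArc K _ i l l.2] at this
    · intro z hz
      set x' := toArc K' fun s => z (Sum.inr s) with hx'
      set ξ : ι → ℂ := fun i => z (Sum.inl (Sum.inl (Sum.inr i))) with hξ
      have hξs : ξ ∈ D.str J A := hz.1.2
      have hex : ∀ i, ∃ x : PowerSeries ℂ,
          (i ∈ J → PowerSeries.constantCoeff x = ξ i ∧ ∀ l < k + 2, PowerSeries.coeff l (x ^ D.a i) =
            PowerSeries.coeff l (PowerSeries.C (ξ i ^ D.a i) + PowerSeries.X * x' i)) ∧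
          (i ∉ J → i ∈ D.M0 δ → x = PowerSeries.X * x' i) ∧
          (i ∉ D.M0 δ → x = x' i) := by
        intro i
        by_cases hiJ : i ∈ J
        · obtain ⟨x, hx1, hx2⟩ := root_exists (ξ i) ((hξs.1 i).2 hiJ) (D.a i) (ha i)
            (PowerSeries.C (ξ i ^ D.a i) + PowerSeries.X * x' i) (by simp) (k + 1)
          exact ⟨x, fun _ => ⟨hx1, hx2⟩, fun h => absurd hiJ h, fun h => absurd (hJ hiJ) h⟩
        · by_cases hM : i ∈ D.M0 δ
          · exact ⟨_, fun h => absurd h hiJ, fun _ _ => rfl, fun h => absurd hM h⟩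
          · exact ⟨_, fun h => absurd h hiJ, fun _ h => absurd h hM, fun _ => rfl⟩
      choose x hx using hex
      set v : (E ⊕ Unit) ⊕ (Σ i, Fin (K i)) → ℂ :=
        Sum.elim (Sum.elim (fun p => z (Sum.inl (Sum.inl (Sum.inl p))))
          (fun _ => z (Sum.inl (Sum.inr ())))) (fun s => PowerSeries.coeff (s.2 : ℕ) (x s.1))
        with hv
      set y := toArc K fun s => v (Sum.inr s) with hy
      have hyx : ∀ i, ∀ l < K i, PowerSeries.coeff l (y i) = PowerSeries.coeff l (x i) := by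
        intro i l hl
        rw [hy, coeff_toArc K _ i l hl]
        rfl
      have hpt : pt D δ y = ξ := by
        funext i
        rw [pt]
        split_ifs with hM
        · have h1 := hyx i 0 (by simp [hK])
          rw [PowerSeries.coeff_zero_eq_constantCoeff_apply,
            PowerSeries.coeff_zero_eq_constantCoeff_apply] at h1
          rw [h1]
          by_cases hiJ : i ∈ J
          · exact ((hx i).1 hiJ).1
          · rw [(hx i).2.1 hiJ hM]
            have : ξ i = 0 := by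
              by_contra h; exact hiJ ((hξs.1 i).1 h)
            rw [this]; simp
        · by_contra h
          exact hM (hJ ((hξs.1 i).1 fun h' => h h'.symm))
      have hTh : ∀ i, ∀ l < K' i, PowerSeries.coeff l (Th D δ J y i) =
          PowerSeries.coeff l (x' i) := by
        intro i l hl
        by_cases hM : i ∈ D.M0 δ
        · rw [hK'M i hM] at hl
          by_cases hiJ : i ∈ J
          · rw [Th, if_pos hiJ, sh, PowerSeries.coeff_mk,
              pow_agree (D.a i) (hyx i) (l + 1) (by simp only [hK]; omega),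
              ((hx i).1 hiJ).2 (l + 1) (by omega), map_add, PowerSeries.coeff_succ_X_mul,
              PowerSeries.coeff_C, if_neg (by omega), zero_add]
          · rw [Th, if_neg hiJ, if_pos hM, sh, PowerSeries.coeff_mk,
              hyx i (l + 1) (by simp only [hK]; omega), (hx i).2.1 hiJ hM,
              PowerSeries.coeff_succ_X_mul]
        · have hiJ : i ∉ J := fun h => hM (hJ h)
          rw [hK'N i hM] at hl
          rw [Th, if_neg hiJ, if_neg hM, hyx i l hl, (hx i).2.2 hM]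
      have hPh : (fun s => eval v (Ph D δ J K K' s)) = z := by
        funext s
        rcases s with ((p | i) | u) | ⟨i, l⟩
        · rw [Ph_p]; rfl
        · rw [Ph_pt, ← hy, hpt]
        · rw [Ph_w]; rfl
        · rw [Ph_inr, ← hy, hTh i l l.2, hx', coeff_toArc K' _ i l l.2]
      have hstr' : pt D δ (toArc K fun s => v (Sum.inr s)) ∈ D.str J A := by
        rw [← hy, hpt]; exact hξs
      refine ⟨v, ⟨(EQ v hstr').2 ?_, hstr'⟩, hPh⟩
      rw [hPh]
      exact hz
  rw [hval]
  ring

end Pool.Agent.Mono
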