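import Pool.Agent.Work.Monodromy.Interface

/-!
# NV1: Bernstein polynomials of arrangements with arbitrary exponents
-/

namespace Pool.Agent.Mono

open MvPolynomial

namespace NV1

section Gen

variable {R : Type} [CommRing R] [IsDomain R] {ι κ : Type}

theorem toF_mul (a b : MvPolynomial ι R) : toF R (a * b) = toF R a * toF R b := map_mul _ _ _

theorem toF_add (a b : MvPolynomial ι R) : toF R (a + b) = toF R a + toF R b := map_add _ _ _

theorem toF_pow (a : MvPolynomial ι R) (n : ℕ) : toF R (a ^ n) = toF R a ^ n := map_pow _ _ _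

theorem toF_sum {α : Type*} (s : Finset α) (f : α → MvPolynomial ι R) :
    toF R (∑ a ∈ s, f a) = ∑ a ∈ s, toF R (f a) := map_sum _ _ _

theorem toF_prod {α : Type*} (s : Finset α) (f : α → MvPolynomial ι R) :
    toF R (∏ a ∈ s, f a) = ∏ a ∈ s, toF R (f a) := map_prod _ _ _

theorem toF_one : toF R (1 : MvPolynomial ι R) = 1 := map_one _

theorem toF_ne {a : MvPolynomial ι R} (h : a ≠ 0) : toF R a ≠ 0 := by
  intro h0
  apply h
  have : Function.Injective (algebraMap (MvPolynomial ι R) (FF R ι)) :=
    IsFractionRing.injective _ _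
  exact this (by rw [map_zero]; exact h0)

theorem toF_C_mul (r : R) (w : FF R ι) : toF R (C r) * w = r • w := by
  rw [toF, Algebra.smul_def]
  congr 1

variable [Fintype κ] (l : κ → MvPolynomial ι R) (σ : κ → R)

/-- the logarithmic derivative -/
noncomputable def ld (i : ι) : FF R ι :=
  ∑ k, toF R (C (σ k)) * (toF R (pderiv i (l k)) / toF R (l k))

theorem theta_apply (i : ι) (w : FF R ι) : theta R l σ i w = dF R i w + ld l σ i * w := rfl

theorem theta_toF_mul (i : ι) (q : MvPolynomial ι R) (w : FF R ι) :
    theta R l σ i (toF R q * w) = toF R q * theta R l σ i w + toF R (pderiv i q) * w := by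
  rw [theta_apply, theta_apply, Derivation.leibniz, dF_toF]
  simp only [smul_eq_mul]
  ring

variable {l σ}

theorem gen_le (u : FF R ι) (m : ℕ) : gen R l σ u m ≤ gen R l σ u (m + 1) := le_sup_left

theorem gen_mono (u : FF R ι) {m n : ℕ} (h : m ≤ n) : gen R l σ u m ≤ gen R l σ u n :=
  monotone_nat_of_le_succ (gen_le u) h

theorem theta_mem {u w : FF R ι} {m : ℕ} (i : ι) (h : w ∈ gen R l σ u m) :
    theta R l σ i w ∈ gen R l σ u (m + 1) := by
  apply Submodule.mem_sup_right
  apply Submodule.mem_iSup_of_mem i
  exact ⟨w, h, rfl⟩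

/-- induction principle for `gen` -/
theorem gen_induction {u : FF R ι} {m : ℕ} {p : FF R ι → Prop}
    (h0 : ∀ w ∈ gen R l σ u m, p w) (h1 : ∀ w ∈ gen R l σ u m, ∀ i, p (theta R l σ i w))
    (hadd : ∀ a b, p a → p b → p (a + b)) (hz : p 0) {w : FF R ι}
    (hw : w ∈ gen R l σ u (m + 1)) : p w := by
  obtain ⟨a, ha, b, hb, rfl⟩ := Submodule.mem_sup.mp hw
  apply hadd _ _ (h0 a ha)
  refine Submodule.iSup_induction _ (motive := p) hb ?_ hz hadd
  rintro i x ⟨y, hy, rfl⟩
  exact h1 y hy i

theorem gen_zero_mem {u : FF R ι} (q : MvPolynomial ι R) : toF R q * u ∈ gen R l σ u 0 :=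
  Submodule.subset_span ⟨q, rfl⟩

theorem mul_mem {u : FF R ι} {m : ℕ} (q : MvPolynomial ι R) {w : FF R ι}
    (hw : w ∈ gen R l σ u m) : toF R q * w ∈ gen R l σ u m := by
  induction m generalizing w q with
  | zero =>
    have hw' : w ∈ Submodule.span R (Set.range fun q : MvPolynomial ι R => toF R q * u) := hw
    induction hw' using Submodule.span_induction with
    | mem x hx =>
      obtain ⟨q', rfl⟩ := hx
      simp only
      rw [← mul_assoc, ← toF_mul]
      exact gen_zero_mem _
    | zero => rw [mul_zero]; exact Submodule.zero_mem _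
    | add x y _ _ hx hy =>
      rw [mul_add]
      exact Submodule.add_mem _ (hx (by assumption)) (hy (by assumption))
    | smul a x _ hx =>
      rw [mul_smul_comm]
      exact Submodule.smul_mem _ _ (hx (by assumption))
  | succ m ih =>
    refine gen_induction (p := fun w => toF R q * w ∈ gen R l σ u (m + 1)) ?_ ?_ ?_ ?_ hw
    · intro w hw
      exact gen_le u m (ih q hw)
    · intro w hw i
      have h1 : toF R q * theta R l σ i w =
          theta R l σ i (toF R q * w) - toF R (pderiv i q) * w := by
        rw [theta_toF_mul]; ring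
      rw [h1]
      exact Submodule.sub_mem _ (theta_mem i (ih q hw)) (gen_le u m (ih _ hw))
    · intro a b ha hb
      rw [mul_add]
      exact Submodule.add_mem _ ha hb
    · rw [mul_zero]; exact Submodule.zero_mem _

end Gen

section Transfer

variable {R : Type} [CommRing R] [IsDomain R] {ι κ : Type} [Fintype κ] [DecidableEq κ]

theorem ld_eq (l : κ → MvPolynomial ι R) (σ : κ → R) (k₀ : κ) (i : ι) :
    ld l σ i = toF R (C (σ k₀)) * (toF R (pderiv i (l k₀)) / toF R (l k₀)) +
      ld (fun k : {k // k ≠ k₀} => l k) (fun k => σ k) i :=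
  Fintype.sum_eq_add_sum_subtype_ne _ k₀

/-- passing from the family without `k₀` to the whole family -/
theorem transfer (l : κ → MvPolynomial ι R) (σ : κ → R) (k₀ : κ) (hne : l k₀ ≠ 0) {u : FF R ι}
    {m : ℕ} {w : FF R ι}
    (hw : w ∈ gen R (fun k : {k // k ≠ k₀} => l k) (fun k => σ k) u m) :
    toF R (l k₀ ^ (m + 1)) * w ∈ gen R l σ (toF R (l k₀) * u) m := by
  induction m generalizing w with
  | zero =>
    have hw' : w ∈ Submodule.span R (Set.range fun q : MvPolynomial ι R => toF R q * u) := hw
    induction hw' using Submodule.span_induction with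
    | mem x hx =>
      obtain ⟨q', rfl⟩ := hx
      simp only [zero_add, pow_one]
      have : toF R (l k₀) * (toF R q' * u) = toF R q' * (toF R (l k₀) * u) := by ring
      rw [this]
      exact gen_zero_mem _
    | zero => rw [mul_zero]; exact Submodule.zero_mem _
    | add x y _ _ hx hy =>
      rw [mul_add]
      exact Submodule.add_mem _ (hx (by assumption)) (hy (by assumption))
    | smul a x _ hx =>
      rw [mul_smul_comm]
      exact Submodule.smul_mem _ _ (hx (by assumption))
  | succ m ih =>
    refine gen_induction (p := fun w => toF R (l k₀ ^ (m + 1 + 1)) * w ∈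
      gen R l σ (toF R (l k₀) * u) (m + 1)) ?_ ?_ ?_ ?_ hw
    · intro w hw
      rw [pow_succ', toF_mul, mul_assoc]
      exact mul_mem _ (gen_le _ m (ih hw))
    · intro w hw i
      have hl : toF R (l k₀) ≠ 0 := toF_ne hne
      have h1 : toF R (l k₀ ^ (m + 1 + 1)) * theta R (fun k : {k // k ≠ k₀} => l k)
          (fun k => σ k) i w =
          toF R (l k₀) * theta R l σ i (toF R (l k₀ ^ (m + 1)) * w)
            - toF R (((m : MvPolynomial ι R) + 1 + C (σ k₀)) * pderiv i (l k₀)) *
              (toF R (l k₀ ^ (m + 1)) * w) := by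
        rw [theta_toF_mul, theta_apply, theta_apply, ld_eq l σ k₀ i, Derivation.leibniz_pow]
        simp only [Nat.add_sub_cancel, toF_mul, toF_add, toF_pow, nsmul_eq_mul, smul_eq_mul,
          toF_one, Nat.cast_add, Nat.cast_one]
        field_simp
        ring
      rw [h1]
      exact Submodule.sub_mem _ (mul_mem _ (theta_mem i (ih hw))) (mul_mem _ (gen_le _ m (ih hw)))
    · intro a b ha hb
      rw [mul_add]
      exact Submodule.add_mem _ ha hb
    · rw [mul_zero]; exact Submodule.zero_mem _

end Transfer

section Euler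

variable {R : Type} [CommRing R] [IsDomain R] [Algebra ℂ R] {ι κ : Type} [Fintype ι] [Fintype κ]
  [DecidableEq ι]

theorem pderiv_linF (v : ι → ℂ) (i : ι) :
    pderiv i (linF R v) = C (algebraMap ℂ R (v i)) := by
  unfold linF
  rw [map_sum, Finset.sum_eq_single i]
  · simp
  · intro j _ hj
    simp [Pi.single_apply, hj]
  · simp

theorem linF_ne {v : ι → ℂ} (hv : v ≠ 0) : linF R v ≠ 0 := by
  intro h
  apply hv
  funext i
  have h1 := pderiv_linF (R := R) v i
  rw [h, map_zero] at h1
  have h2 : algebraMap ℂ R (v i) = 0 := (C_injective ι R) (by rw [← h1, map_zero])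
  exact (FaithfulSMul.algebraMap_injective ℂ R) (by rw [h2]; simp)

theorem linF_add (v w : ι → ℂ) : linF R (v + w) = linF R v + linF R w := by
  simp [linF, add_mul, Finset.sum_add_distrib]

theorem linF_smul (t : ℂ) (v : ι → ℂ) : linF R (t • v) = C (algebraMap ℂ R t) * linF R v := by
  simp [linF, Finset.mul_sum, mul_assoc]

theorem linF_sum {α : Type*} (s : Finset α) (v : α → ι → ℂ) :
    linF R (∑ a ∈ s, v a) = ∑ a ∈ s, linF R (v a) := by
  classical
  induction s using Finset.induction_on with
  | empty => simp [linF]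
  | insert a s ha ih => rw [Finset.sum_insert ha, Finset.sum_insert ha, linF_add, ih]

/-- the Euler vector field of a projection `π` -/
noncomputable def eul (R : Type) [CommRing R] [Algebra ℂ R] {ι : Type} [Fintype ι]
    (π : ι → ι → ℂ) : Derivation R (MvPolynomial ι R) (MvPolynomial ι R) :=
  ∑ i, linF R (π i) • pderiv i

theorem eul_apply (π : ι → ι → ℂ) (g : MvPolynomial ι R) :
    eul R π g = ∑ i, linF R (π i) * pderiv i g := by
  unfold eul
  rw [← Derivation.coeFnAddMonoidHom_apply, map_sum, Finset.sum_apply]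
  rfl

theorem eul_linF (π : ι → ι → ℂ) (v : ι → ℂ) (hv : ∑ i, v i • π i = v) :
    eul R π (linF R v) = linF R v := by
  rw [eul_apply]
  conv_rhs => rw [← hv, linF_sum]
  apply Finset.sum_congr rfl
  intro i _
  rw [pderiv_linF, linF_smul, mul_comm]

theorem eul_prod (π : ι → ι → ℂ) (l : κ → ι → ℂ) (hl : ∀ k, ∑ i, l k i • π i = l k)
    (m : Multiset κ) : eul R π (m.map fun k => linF R (l k)).prod =
      (m.card : MvPolynomial ι R) * (m.map fun k => linF R (l k)).prod := by
  induction m using Multiset.induction_on with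
  | empty => simp
  | cons k m ih =>
    rw [Multiset.map_cons, Multiset.prod_cons, Derivation.leibniz, ih, eul_linF π _ (hl k),
      Multiset.card_cons]
    simp only [smul_eq_mul, Nat.cast_add, Nat.cast_one]
    ring

theorem euler (π : ι → ι → ℂ) (l : κ → ι → ℂ) (hl : ∀ k, ∑ i, l k i • π i = l k)
    (hl0 : ∀ k, l k ≠ 0) (c : ℕ) (hc : ∑ i, π i i = (c : ℂ)) (σ : κ → R) (m : Multiset κ) :
    ∑ i, theta R (fun k => linF R (l k)) σ i
      (toF R (linF R (π i) * (m.map fun k => linF R (l k)).prod)) =
      toF R (C (∑ k, σ k + ((c + m.card : ℕ) : R))) *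
        toF R (m.map fun k => linF R (l k)).prod := by
  set w := (m.map fun k => linF R (l k)).prod with hw
  have h1 : ∀ i, theta R (fun k => linF R (l k)) σ i (toF R (linF R (π i) * w)) =
      toF R (C (algebraMap ℂ R (π i i)) * w) + toF R (linF R (π i) * pderiv i w) +
        ∑ k, toF R (C (σ k)) * toF R w *
          (toF R (linF R (π i) * pderiv i (linF R (l k))) / toF R (linF R (l k))) := by
    intro i
    rw [theta_apply, dF_toF, Derivation.leibniz, pderiv_linF, ld, Finset.sum_mul]
    congr 1
    · rw [← toF_add]; congr 1; simp only [smul_eq_mul]; ring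
    · apply Finset.sum_congr rfl
      intro k _
      rw [toF_mul, toF_mul]
      ring
  rw [Finset.sum_congr rfl (fun i _ => h1 i), Finset.sum_add_distrib, Finset.sum_add_distrib,
    Finset.sum_comm]
  have h2 : ∑ i, toF R (C (algebraMap ℂ R (π i i)) * w) = toF R ((c : MvPolynomial ι R) * w) := by
    rw [← toF_sum, ← Finset.sum_mul, ← map_sum, ← map_sum, hc]
    simp
  have h3 : ∑ i, toF R (linF R (π i) * pderiv i w) = toF R ((m.card : MvPolynomial ι R) * w) := by
    rw [← toF_sum, ← eul_apply, hw, eul_prod π l hl]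
  have h4 : ∀ k, ∑ i, toF R (C (σ k)) * toF R w *
      (toF R (linF R (π i) * pderiv i (linF R (l k))) / toF R (linF R (l k))) =
        toF R (C (σ k)) * toF R w := by
    intro k
    rw [← Finset.mul_sum, ← Finset.sum_div, ← toF_sum, ← eul_apply, eul_linF π _ (hl k),
      div_self (toF_ne (linF_ne (hl0 k))), mul_one]
  rw [h2, h3, Finset.sum_congr rfl (fun k _ => h4 k), ← Finset.sum_mul, ← toF_sum, ← map_sum,
    ← toF_mul, ← toF_mul, ← toF_add, ← toF_add]
  congr 1
  simp only [map_add, map_natCast, Nat.cast_add]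
  ring

/-- existence of the projection -/
theorem exists_proj (l : κ → ι → ℂ) : ∃ (π : ι → ι → ℂ) (c : ℕ) (p : ι → κ → ℂ),
    (∀ k, ∑ i, l k i • π i = l k) ∧ ∑ i, π i i = (c : ℂ) ∧ ∀ i, π i = ∑ k, p i k • l k := by
  classical
  set L := Submodule.span ℂ (Set.range l) with hL
  obtain ⟨f, hf⟩ := LinearMap.exists_leftInverse_of_injective L.subtype (Submodule.ker_subtype L)
  have hfl : ∀ x : L, f x = x := fun x => by
    have := congrArg (fun g => g x) hf
    simpa using this
  have hp : ∀ i, ∃ p : κ → ℂ, ((f (Pi.single i 1) : L) : ι → ℂ) = ∑ k, p k • l k := by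
    intro i
    have h1 : ((f (Pi.single i 1) : L) : ι → ℂ) ∈ Submodule.span ℂ (Set.range l) :=
      (f (Pi.single i 1)).2
    rw [Submodule.mem_span_range_iff_exists_fun] at h1
    obtain ⟨p, hp⟩ := h1
    exact ⟨p, hp.symm⟩
  choose p hp using hp
  refine ⟨fun i => ((f (Pi.single i 1) : L) : ι → ℂ), Module.finrank ℂ L, p, ?_, ?_, hp⟩
  · intro k
    have h1 : f (l k) = ⟨l k, Submodule.subset_span ⟨k, rfl⟩⟩ := hfl ⟨l k, _⟩
    have h2 : (l k) = ∑ i, l k i • (Pi.single i 1 : ι → ℂ) := by
      funext j
      simp [Finset.sum_apply, Pi.single_apply]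
    have h3 : ((f (l k) : L) : ι → ℂ) = l k := by rw [h1]
    conv_rhs => rw [← h3, h2]
    rw [map_sum]
    simp
  · have h1 : LinearMap.trace ℂ (ι → ℂ) (L.subtype ∘ₗ f) = LinearMap.trace ℂ L (f ∘ₗ L.subtype) :=
      LinearMap.trace_comp_comm' _ _
    rw [hf, LinearMap.trace_id] at h1
    rw [← h1, LinearMap.trace_eq_matrix_trace ℂ (Pi.basisFun ℂ ι), Matrix.trace]
    apply Finset.sum_congr rfl
    intro i _
    simp [LinearMap.toMatrix_apply, Matrix.diag]

end Euler

section Main

/-- the value of a list of factors -/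
noncomputable def val {κ R : Type} [CommRing R] (Λ : List (Finset κ × ℕ)) (σ : κ → R) : R :=
  (Λ.map fun q => ∑ k ∈ q.1, σ k + (q.2 : R)).prod

theorem val_append {κ R : Type} [CommRing R] (A B : List (Finset κ × ℕ)) (σ : κ → R) :
    val (A ++ B) σ = val A σ * val B σ := by
  simp [val]

theorem val_dvd_flatMap {κ α R : Type} [CommRing R] (L : List α) (f : α → List (Finset κ × ℕ))
    (σ : κ → R) {a : α} (ha : a ∈ L) : val (f a) σ ∣ val (L.flatMap f) σ := by
  induction L with
  | nil => simp at ha
  | cons b L ih =>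
    rw [List.flatMap_cons, val_append]
    rcases List.mem_cons.mp ha with rfl | h
    · exact dvd_mul_right _ _
    · exact dvd_mul_of_dvd_right (ih h) _

/-- the statement for one family -/
def P {ι κ : Type} [Fintype ι] [Fintype κ] (l : κ → ι → ℂ) : Prop :=
  ∃ (Λ : List (Finset κ × ℕ)) (M : ℕ), (∀ q ∈ Λ, q.1.Nonempty) ∧
    ∀ (R : Type) [CommRing R] [IsDomain R] [Algebra ℂ R] (σ : κ → R),
      toF R (C (val Λ σ) : MvPolynomial ι R) ∈
        gen R (fun k => linF R (l k)) σ (toF R (∏ k, linF R (l k))) M

theorem P_step {ι κ : Type} [Fintype ι] [Fintype κ] [DecidableEq ι] [DecidableEq κ] [Nonempty κ]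
    (l : κ → ι → ℂ) (hl0 : ∀ k, l k ≠ 0)
    (ih : ∀ k₀ : κ, P (fun k : {k // k ≠ k₀} => l k)) : P l := by
  choose Λ M hΛ hmem using ih
  obtain ⟨π, c, p, hπ1, hπ2, hπ3⟩ := exists_proj l
  let Λ' : κ → List (Finset κ × ℕ) := fun k₀ =>
    (Λ k₀).map fun q => (q.1.map (Function.Embedding.subtype _), q.2)
  have hval' : ∀ k₀ (R : Type) [CommRing R] (σ : κ → R),
      val (Λ' k₀) σ = val (Λ k₀) (fun k => σ k) := by
    intro k₀ R _ σ
    simp only [val, Λ', List.map_map]
    congr 1
    apply List.map_congr_left
    intro q _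
    simp
  let B : List (Finset κ × ℕ) := (Finset.univ : Finset κ).toList.flatMap Λ'
  let N : ℕ := ∑ k, M k + 1
  have hN : ∀ k, M k + 1 ≤ N := fun k => by
    have := Finset.single_le_sum (f := M) (fun _ _ => Nat.zero_le _) (Finset.mem_univ k)
    simp only [N]
    omega
  let r : ℕ := Fintype.card κ * N + 1
  let LL : ℕ → List (Finset κ × ℕ) := fun j =>
    B ++ (List.range j).map (fun s => ((Finset.univ : Finset κ), c + (r - 1 - s)))
  refine ⟨LL r, N + r, ?_, ?_⟩
  · intro q hq
    rcases List.mem_append.mp hq with h | h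
    · obtain ⟨k₀, -, hk⟩ := List.mem_flatMap.mp h
      obtain ⟨q', hq', rfl⟩ := List.mem_map.mp hk
      exact (Finset.map_nonempty).mpr (hΛ k₀ q' hq')
    · obtain ⟨s, -, rfl⟩ := List.mem_map.mp h
      exact Finset.univ_nonempty
  intro R _ _ _ σ
  set u := toF R (∏ k, linF R (l k)) with hu
  have hbase : ∀ k, toF R (linF R (l k) ^ (M k + 1)) * toF R (C (val (Λ' k) σ)) ∈
      gen R (fun k => linF R (l k)) σ u N := by
    intro k
    have h1 := transfer (fun k => linF R (l k)) σ k (linF_ne (hl0 k)) (hmem k R (fun k => σ k))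
    rw [← toF_mul (linF R (l k)), ← Fintype.prod_eq_mul_prod_subtype_ne (fun k => linF R (l k)) k,
      ← hval' k R σ] at h1
    exact gen_mono _ (le_trans (Nat.le_succ _) (hN k)) h1
  have key : ∀ j, ∀ m : Multiset κ, m.card + j = r →
      toF R (C (val (LL j) σ)) * toF R (m.map fun k => linF R (l k)).prod ∈
        gen R (fun k => linF R (l k)) σ u (N + j) := by
    intro j
    induction j with
    | zero =>
      intro m hm
      have hk : ∃ k, N ≤ m.count k := by
        by_contra hcon
        push Not at hcon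
        have h1 : ∑ k : κ, m.count k ≤ ∑ _k : κ, N :=
          Finset.sum_le_sum fun k _ => (hcon k).le
        have h2 : ∑ k : κ, m.count k = m.card := Multiset.sum_count_eq_card (by simp)
        rw [h2] at h1
        simp only [Finset.sum_const, Finset.card_univ, smul_eq_mul] at h1
        simp only [r] at hm
        omega
      obtain ⟨k, hk⟩ := hk
      obtain ⟨m', rfl⟩ := Multiset.le_iff_exists_add.mp (Multiset.le_count_iff_replicate_le.mp hk)
      obtain ⟨b, hb⟩ := val_dvd_flatMap (Finset.univ : Finset κ).toList Λ' σ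
        (a := k) (by simp)
      have hLL : val (LL 0) σ = val (Λ' k) σ * b := by
        rw [← hb]
        simp [LL, B]
      obtain ⟨t, ht⟩ := Nat.exists_eq_add_of_le (hN k)
      have h2 : toF R (C (val (LL 0) σ)) *
          toF R ((Multiset.replicate N k + m').map fun k => linF R (l k)).prod =
          toF R (C b * linF R (l k) ^ t * (m'.map fun k => linF R (l k)).prod) *
            (toF R (linF R (l k) ^ (M k + 1)) * toF R (C (val (Λ' k) σ))) := by
        rw [hLL, Multiset.map_add, Multiset.prod_add, Multiset.map_replicate,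
          Multiset.prod_replicate, ht, pow_add, C_mul]
        simp only [toF_mul]
        ring
      rw [h2]
      exact mul_mem _ (hbase k)
    | succ j ih =>
      intro m hm
      have h1 : ∀ i, toF R (C (val (LL j) σ)) *
          toF R (linF R (π i) * (m.map fun k => linF R (l k)).prod) ∈
            gen R (fun k => linF R (l k)) σ u (N + j) := by
        intro i
        have h2 : toF R (C (val (LL j) σ)) *
            toF R (linF R (π i) * (m.map fun k => linF R (l k)).prod) =
            ∑ k, toF R (C (algebraMap ℂ R (p i k))) * (toF R (C (val (LL j) σ)) *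
              toF R ((k ::ₘ m).map fun k => linF R (l k)).prod) := by
          rw [hπ3 i, linF_sum, Finset.sum_mul, toF_sum, Finset.mul_sum]
          apply Finset.sum_congr rfl
          intro k _
          rw [linF_smul, Multiset.map_cons, Multiset.prod_cons]
          simp only [toF_mul]
          ring
        rw [h2]
        apply Submodule.sum_mem
        intro k _
        exact mul_mem _ (ih (k ::ₘ m) (by rw [Multiset.card_cons]; omega))
      have h2 : toF R (C (val (LL (j + 1)) σ)) * toF R (m.map fun k => linF R (l k)).prod =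
          ∑ i, theta R (fun k => linF R (l k)) σ i (toF R (C (val (LL j) σ)) *
            toF R (linF R (π i) * (m.map fun k => linF R (l k)).prod)) := by
        have h3 : val (LL (j + 1)) σ = val (LL j) σ * (∑ k, σ k + ((c + m.card : ℕ) : R)) := by
          have h4 : r - 1 - j = m.card := by omega
          simp only [LL, List.range_succ, List.map_append, ← List.append_assoc]
          rw [val_append]
          congr 1
          simp [val, h4]
        simp only [toF_C_mul, map_smul]
        rw [← Finset.smul_sum, euler π l hπ1 hl0 c hπ2 σ m, h3, mul_smul, toF_C_mul]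
      rw [h2, ← add_assoc]
      apply Submodule.sum_mem
      intro i _
      exact theta_mem i (h1 i)
  have h1 := key r 0 (by simp)
  simpa [toF_one] using h1

theorem P_all {ι : Type} [Fintype ι] [DecidableEq ι] (n : ℕ) :
    ∀ (κ : Type) [Fintype κ] [DecidableEq κ] (l : κ → ι → ℂ), Fintype.card κ = n →
      (∀ k, l k ≠ 0) → P l := by
  induction n with
  | zero =>
    intro κ _ _ l hcard _
    have hκ : IsEmpty κ := Fintype.card_eq_zero_iff.mp hcard
    refine ⟨[], 0, by simp, ?_⟩
    intro R _ _ _ σ
    have h1 := gen_zero_mem (R := R) (l := fun k => linF R (l k)) (σ := σ)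
      (u := toF R (∏ k, linF R (l k))) 1
    simpa [toF_one, val] using h1
  | succ n ih =>
    intro κ _ _ l hcard hl0
    haveI : Nonempty κ := Fintype.card_pos_iff.mp (by omega)
    apply P_step l hl0
    intro k₀
    apply ih
    · rw [Fintype.card_subtype_compl, hcard]
      simp
    · intro k
      exact hl0 k

end Main

end NV1

/-- Bernstein polynomials of arrangements with arbitrary exponents -/
theorem stmt_NV1 : Stmt_NV1 := by
  intro ι κ _ _ _ _ l hl0
  exact NV1.P_all (Fintype.card κ) κ l rfl hl0

end Pool.Agent.Mono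

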