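import Pool.Agent.Work.Monodromy.NV2b

/-!
# Block NV2: finite generation and Nakayama's lemma
-/

set_option autoImplicit false
set_option linter.unusedSectionVars false

namespace Pool.Agent.Mono.NV2

open MvPolynomial

section lin

variable {R : Type} [CommRing R] [IsDomain R] [Algebra ℂ R] {ι : Type} [Fintype ι] [DecidableEq ι]

lemma linF_coeff (v : ι → ℂ) (i : ι) :
    coeff (Finsupp.single i 1) (linF R v) = algebraMap ℂ R (v i) := by
  rw [linF, coeff_sum, Finset.sum_eq_single i]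
  · rw [coeff_C_mul, coeff_X, if_pos rfl, mul_one]
  · intro j _ hj
    rw [coeff_C_mul, coeff_X, if_neg, mul_zero]
    intro h
    exact hj (Finsupp.single_left_injective one_ne_zero h)
  · intro h
    exact absurd (Finset.mem_univ i) h

lemma linF_ne {v : ι → ℂ} (hv : v ≠ 0) : linF R v ≠ 0 := by
  intro h
  apply hv
  ext i
  have h1 := linF_coeff (R := R) v i
  rw [h, coeff_zero] at h1
  apply (algebraMap ℂ R).injective
  rw [← h1, Pi.zero_apply, map_zero]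

lemma linF_hom (v : ι → ℂ) : eul (toF R (linF R v)) = toF R (linF R v) := by
  have h1 : linF R v = ∑ i, monomial (Finsupp.single i 1) (algebraMap ℂ R (v i)) := by
    rw [linF]
    apply Finset.sum_congr rfl
    intro i _
    rw [C_mul_X_eq_monomial]
  rw [h1, toF_sum, map_sum]
  apply Finset.sum_congr rfl
  intro i _
  rw [eul_monomial]
  have h2 : ∑ j, (Finsupp.single i 1 : ι →₀ ℕ) j = 1 := by
    rw [Finset.sum_eq_single i]
    · simp
    · intro j _ hj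
      rw [Finsupp.single_apply, if_neg (Ne.symm hj)]
    · intro h
      exact absurd (Finset.mem_univ i) h
  rw [h2, Nat.cast_one, one_mul]

end lin

section sat

variable {κ : Type} {M : Type} [AddCommGroup M] [Module (MvPolynomial κ ℂ) M]

/-- localisation at the origin, inside the module -/
def sat (P : Submodule (MvPolynomial κ ℂ) M) : Submodule (MvPolynomial κ ℂ) M where
  carrier := {x | ∃ c : MvPolynomial κ ℂ, constantCoeff c ≠ 0 ∧ c • x ∈ P}
  zero_mem' := ⟨1, by simp, by simp⟩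
  add_mem' := by
    rintro x y ⟨c, hc, hx⟩ ⟨d, hd, hy⟩
    refine ⟨c * d, by rw [map_mul]; exact mul_ne_zero hc hd, ?_⟩
    rw [smul_add]
    apply P.add_mem
    · rw [mul_comm, mul_smul]
      exact P.smul_mem _ hx
    · rw [mul_smul]
      exact P.smul_mem _ hy
  smul_mem' := by
    rintro r x ⟨c, hc, hx⟩
    refine ⟨c, hc, ?_⟩
    rw [smul_comm]
    exact P.smul_mem _ hx

lemma mem_sat {P : Submodule (MvPolynomial κ ℂ) M} {x : M} :
    x ∈ sat P ↔ ∃ c : MvPolynomial κ ℂ, constantCoeff c ≠ 0 ∧ c • x ∈ P := Iff.rfl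

lemma le_sat (P : Submodule (MvPolynomial κ ℂ) M) : P ≤ sat P := fun x hx =>
  ⟨1, by simp, by rwa [one_smul]⟩

lemma sat_le {P P' : Submodule (MvPolynomial κ ℂ) M} (h : P ≤ sat P') : sat P ≤ sat P' := by
  rintro x ⟨c, hc, hx⟩
  obtain ⟨d, hd, hx'⟩ := h hx
  refine ⟨d * c, by rw [map_mul]; exact mul_ne_zero hd hc, ?_⟩
  rwa [mul_smul]

lemma mem_sat_of_smul {P : Submodule (MvPolynomial κ ℂ) M} {c : MvPolynomial κ ℂ}
    (hc : constantCoeff c ≠ 0) {x : M} (hx : c • x ∈ sat P) : x ∈ sat P := by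
  obtain ⟨d, hd, hx'⟩ := hx
  exact ⟨d * c, by rw [map_mul]; exact mul_ne_zero hd hc, by rwa [mul_smul]⟩

lemma sat_finset (P : Submodule (MvPolynomial κ ℂ) M) {α : Type} (F : Finset α) (f : α → M)
    (h : ∀ a ∈ F, f a ∈ sat P) :
    ∃ c : MvPolynomial κ ℂ, constantCoeff c ≠ 0 ∧ ∀ a ∈ F, c • f a ∈ P := by
  classical
  induction F using Finset.induction_on with
  | empty => exact ⟨1, by simp, by simp⟩
  | insert a F ha ih =>
    obtain ⟨c, hc, h1⟩ := ih fun b hb => h b (Finset.mem_insert_of_mem hb)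
    obtain ⟨d, hd, h2⟩ := h a (Finset.mem_insert_self a F)
    refine ⟨c * d, by rw [map_mul]; exact mul_ne_zero hc hd, ?_⟩
    intro b hb
    rcases Finset.mem_insert.1 hb with rfl | hb
    · rw [mul_smul]
      exact P.smul_mem _ h2
    · rw [mul_comm, mul_smul]
      exact P.smul_mem _ (h1 b hb)

end sat

section base

variable {ι κ : Type}

/-- base change of polynomials -/
noncomputable def ph (ι κ : Type) : MvPolynomial ι ℂ →+* MvPolynomial ι (MvPolynomial κ ℂ) :=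
  map C

lemma ph_inj : Function.Injective (ph ι κ) := map_injective C (C_injective κ ℂ)

lemma toF_ph_inj : Function.Injective ((algebraMap (MvPolynomial ι (MvPolynomial κ ℂ))
    (FF (MvPolynomial κ ℂ) ι)).comp (ph ι κ)) :=
  (IsFractionRing.injective (MvPolynomial ι (MvPolynomial κ ℂ)) (FF (MvPolynomial κ ℂ) ι)).comp
    ph_inj

/-- base change of rational functions -/
noncomputable def be (ι κ : Type) : FF ℂ ι →+* FF (MvPolynomial κ ℂ) ι :=
  IsFractionRing.lift (A := MvPolynomial ι ℂ) (K := FF ℂ ι) (toF_ph_inj (ι := ι) (κ := κ))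

lemma be_toF (q : MvPolynomial ι ℂ) : be ι κ (toF ℂ q) = toF (MvPolynomial κ ℂ) (ph ι κ q) :=
  IsFractionRing.lift_algebraMap (A := MvPolynomial ι ℂ) (K := FF ℂ ι)
    (toF_ph_inj (ι := ι) (κ := κ)) q

lemma be_dF (i : ι) (x : FF ℂ ι) : be ι κ (dF ℂ i x) = dF (MvPolynomial κ ℂ) i (be ι κ x) := by
  obtain ⟨a, b, hb, hx⟩ : ∃ a b : MvPolynomial ι ℂ, b ≠ 0 ∧ x * toF ℂ b = toF ℂ a := by
    obtain ⟨a, b, hb, rfl⟩ := IsFractionRing.div_surjective (A := MvPolynomial ι ℂ) x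
    have hb0 : b ≠ 0 := nonZeroDivisors.ne_zero hb
    exact ⟨a, b, hb0, div_mul_cancel₀ _ (toF_ne_zero hb0)⟩
  have h1 := congrArg (dF ℂ i) hx
  rw [Derivation.leibniz, dF_toF, dF_toF, smul_eq_mul, smul_eq_mul] at h1
  have h2 := congrArg (be ι κ) h1
  rw [map_add, map_mul, map_mul, be_toF, be_toF, be_toF] at h2
  have h3 := congrArg (be ι κ) hx
  rw [map_mul, be_toF, be_toF] at h3
  have h4 := congrArg (dF (MvPolynomial κ ℂ) i) h3
  rw [Derivation.leibniz, dF_toF, dF_toF, smul_eq_mul, smul_eq_mul] at h4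
  have h5 : ∀ q : MvPolynomial ι ℂ, pderiv i (ph ι κ q) = ph ι κ (pderiv i q) := fun q => pderiv_map
  rw [h5, h5, ← h2] at h4
  have h6 : toF (MvPolynomial κ ℂ) (ph ι κ b) ≠ 0 := by
    apply toF_ne_zero
    intro h
    exact hb (ph_inj (κ := κ) (by rw [h, map_zero]))
  apply mul_left_cancel₀ h6
  linear_combination -h4

lemma ph_linF [Fintype ι] (v : ι → ℂ) : ph ι κ (linF ℂ v) = linF (MvPolynomial κ ℂ) v := by
  rw [ph, linF, linF, map_sum]
  apply Finset.sum_congr rfl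
  intro i _
  rw [map_mul, map_X, map_C]
  rfl

variable [Fintype ι] [Fintype κ] [DecidableEq ι] [DecidableEq κ]

/-- the forms over `ℂ[σ]` -/
noncomputable def lf (l : κ → ι → ℂ) (k : κ) : MvPolynomial ι (MvPolynomial κ ℂ) :=
  linF (MvPolynomial κ ℂ) (l k)

/-- the exponents `λ + σ` -/
noncomputable def ex (lam : κ → ℂ) (k : κ) : MvPolynomial κ ℂ := C (lam k) + X k

lemma be_theta (l : κ → ι → ℂ) (lam : κ → ℂ) (i : ι) (x : FF ℂ ι) :
    be ι κ (theta ℂ (fun k => linF ℂ (l k)) lam i x) =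
      theta (MvPolynomial κ ℂ) (lf l) (ex lam) i (be ι κ x) -
        ∑ k, (X k : MvPolynomial κ ℂ) • (toF (MvPolynomial κ ℂ) (pderiv i (lf l k)) /
          toF (MvPolynomial κ ℂ) (lf l k) * be ι κ x) := by
  rw [theta_apply, theta_apply, map_add, be_dF, map_mul, map_sum]
  have h5 : ∀ q : MvPolynomial ι ℂ, pderiv i (ph ι κ q) = ph ι κ (pderiv i q) := fun q => pderiv_map
  have h1 : ∀ k, be ι κ (toF ℂ (C (lam k)) * (toF ℂ (pderiv i (linF ℂ (l k))) /
      toF ℂ (linF ℂ (l k)))) = toF (MvPolynomial κ ℂ) (C (C (lam k))) *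
        (toF (MvPolynomial κ ℂ) (pderiv i (lf l k)) / toF (MvPolynomial κ ℂ) (lf l k)) := by
    intro k
    rw [map_mul, map_div₀, be_toF, be_toF, be_toF, ← h5, ph_linF]
    congr 2
    rw [ph, map_C]
  simp only [h1]
  have h2 : ∀ k, (X k : MvPolynomial κ ℂ) • (toF (MvPolynomial κ ℂ) (pderiv i (lf l k)) /
      toF (MvPolynomial κ ℂ) (lf l k) * be ι κ x) = toF (MvPolynomial κ ℂ) (C (X k)) *
        (toF (MvPolynomial κ ℂ) (pderiv i (lf l k)) / toF (MvPolynomial κ ℂ) (lf l k)) *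
          be ι κ x := by
    intro k
    rw [smul_eq_toF_mul]
    ring
  simp only [h2]
  rw [← Finset.sum_mul]
  have h3 : ∑ k, toF (MvPolynomial κ ℂ) (C (ex lam k)) *
      (toF (MvPolynomial κ ℂ) (pderiv i (lf l k)) / toF (MvPolynomial κ ℂ) (lf l k)) =
      ∑ k, toF (MvPolynomial κ ℂ) (C (C (lam k))) *
        (toF (MvPolynomial κ ℂ) (pderiv i (lf l k)) / toF (MvPolynomial κ ℂ) (lf l k)) +
      ∑ k, toF (MvPolynomial κ ℂ) (C (X k)) *
        (toF (MvPolynomial κ ℂ) (pderiv i (lf l k)) / toF (MvPolynomial κ ℂ) (lf l k)) := by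
    rw [← Finset.sum_add_distrib]
    apply Finset.sum_congr rfl
    intro k _
    rw [ex, C_add, toF_add]
    ring
  rw [h3]
  ring

/-- `Q` over `ℂ[σ]` -/
noncomputable def QQ (l : κ → ι → ℂ) : MvPolynomial ι (MvPolynomial κ ℂ) := ∏ k, lf l k

lemma lf_ne {l : κ → ι → ℂ} (hl : ∀ k, l k ≠ 0) (k : κ) : lf l k ≠ 0 := linF_ne (hl k)

lemma QQ_ne {l : κ → ι → ℂ} (hl : ∀ k, l k ≠ 0) : QQ l ≠ 0 :=
  Finset.prod_ne_zero_iff.2 fun k _ => lf_ne hl k

lemma lf_dvd (l : κ → ι → ℂ) (k : κ) : ∃ n : ℕ, lf l k ∣ QQ l ^ n :=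
  ⟨1, by rw [pow_one]; exact Finset.dvd_prod_of_mem _ (Finset.mem_univ k)⟩

lemma ph_QQ (l : κ → ι → ℂ) : ph ι κ (∏ k, linF ℂ (l k)) = QQ l := by
  rw [map_prod, QQ]
  apply Finset.prod_congr rfl
  intro k _
  exact ph_linF (l k)

/-- Elements of `ℂ[y][1/Q]` are in `Im + (σ) S` when the twisted top cohomology vanishes. -/
lemma of_vanTop {l : κ → ι → ℂ} (hl : ∀ k, l k ≠ 0) (lam : κ → ℂ) (hv : VanTop l lam) (x : FF ℂ ι)
    (hx : InS ℂ (∏ k, linF ℂ (l k)) x) : ∃ y : κ → FF (MvPolynomial κ ℂ) ι,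
      (∀ k, InS (MvPolynomial κ ℂ) (QQ l) (y k)) ∧
      be ι κ x + ∑ k, (X k : MvPolynomial κ ℂ) • y k ∈ ImS (lf l) (ex lam) (QQ l) := by
  obtain ⟨h, hh, hx'⟩ := hv x hx
  have hh' : ∀ i, InS (MvPolynomial κ ℂ) (QQ l) (be ι κ (h i)) := by
    intro i
    obtain ⟨j, q, hq⟩ := hh i
    refine ⟨j, ph ι κ q, ?_⟩
    have := congrArg (be ι κ) hq
    rwa [map_mul, map_pow, be_toF, be_toF, ph_QQ] at this
  refine ⟨fun k => ∑ i, toF (MvPolynomial κ ℂ) (pderiv i (lf l k)) /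
    toF (MvPolynomial κ ℂ) (lf l k) * be ι κ (h i), fun k => ?_, ?_⟩
  · apply InS.sum
    intro i _
    apply InS.mul _ (hh' i)
    rw [div_eq_mul_inv]
    obtain ⟨n, hn⟩ := lf_dvd l k
    exact (InS.toF _ _).mul (InS.inv_of_dvd (QQ_ne hl) hn)
  · refine ⟨fun i => be ι κ (h i), hh', ?_⟩
    rw [hx', map_sum]
    simp only [be_theta, Finset.smul_sum]
    rw [Finset.sum_sub_distrib, Finset.sum_comm]
    ring

end base

section main

variable {ι κ : Type} [Fintype ι] [Fintype κ] [DecidableEq ι] [DecidableEq κ]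

/-- the constant `k₀` -/
lemma exists_bound (lam : κ → ℂ) (Λ : List (Finset κ × ℕ)) (hΛ : ∀ q ∈ Λ, q.1.Nonempty) :
    ∃ k₀ : ℕ, ∀ j : ℕ, k₀ < j → constantCoeff
      (Λ.map fun q => ∑ k ∈ q.1, (ex lam k - ((j : ℕ) : MvPolynomial κ ℂ)) +
        (q.2 : MvPolynomial κ ℂ)).prod ≠ 0 := by
  obtain ⟨k₀, hk₀⟩ := exists_nat_ge ((Λ.map fun q => ‖∑ k ∈ q.1, lam k + (q.2 : ℂ)‖).sum)
  refine ⟨k₀, fun j hj => ?_⟩
  rw [map_list_prod, List.map_map]
  apply List.prod_ne_zero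
  intro h0
  obtain ⟨q, hq, hq0⟩ := List.mem_map.1 h0
  have h1 : constantCoeff (∑ k ∈ q.1, (ex lam k - ((j : ℕ) : MvPolynomial κ ℂ)) +
      (q.2 : MvPolynomial κ ℂ)) = ∑ k ∈ q.1, lam k + (q.2 : ℂ) - (q.1.card : ℂ) * j := by
    simp only [map_add, map_sum, map_sub, ex, constantCoeff_C, constantCoeff_X, add_zero,
      map_natCast, Finset.sum_sub_distrib, Finset.sum_const, nsmul_eq_mul, map_mul]
    ring
  rw [Function.comp_apply, h1, sub_eq_zero] at hq0
  have h2 : ‖∑ k ∈ q.1, lam k + (q.2 : ℂ)‖ ≤ k₀ := by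
    refine le_trans ?_ hk₀
    apply List.single_le_sum
    · intro x hx
      obtain ⟨q, _, rfl⟩ := List.mem_map.1 hx
      exact norm_nonneg _
    · exact List.mem_map.2 ⟨q, hq, rfl⟩
  rw [hq0, norm_mul, Complex.norm_natCast, Complex.norm_natCast] at h2
  have h3 : (1 : ℝ) ≤ q.1.card := by exact_mod_cast (hΛ q hq).card_pos
  have h4 : (k₀ : ℝ) < j := by exact_mod_cast hj
  have h5 : (0 : ℝ) ≤ j := Nat.cast_nonneg j
  nlinarith

/-- the powers of `1/Q` -/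
noncomputable def iQ (l : κ → ι → ℂ) : FF (MvPolynomial κ ℂ) ι :=
  (toF (MvPolynomial κ ℂ) (QQ l))⁻¹

/-- reduction of the pole order -/
lemma claimD (hNV1 : Stmt_NV1) {l : κ → ι → ℂ} (hl : ∀ k, l k ≠ 0) (lam : κ → ℂ) :
    ∃ k₀ : ℕ, ∀ (j : ℕ) (q : MvPolynomial ι (MvPolynomial κ ℂ)),
      toF (MvPolynomial κ ℂ) q * iQ l ^ j ∈
        sat (mul_span (iQ l ^ k₀) ⊔ ImS (lf l) (ex lam) (QQ l)) := by
  obtain ⟨Λ, M, hΛ, hgen⟩ := hNV1 ι κ l hl
  obtain ⟨k₀, hk₀⟩ := exists_bound lam Λ hΛ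
  have hQ := toF_ne_zero (QQ_ne hl)
  refine ⟨k₀, fun j => ?_⟩
  induction j with
  | zero =>
    intro q
    apply le_sat
    apply Submodule.mem_sup_left
    apply Submodule.subset_span
    refine ⟨q * QQ l ^ k₀, ?_⟩
    simp only [toF_mul, toF_pow]
    rw [mul_assoc, iQ, ← mul_pow, mul_inv_cancel₀ hQ, one_pow, pow_zero]
  | succ j ih =>
    intro q
    rcases Nat.lt_or_ge k₀ (j + 1) with hj | hj
    · apply mem_sat_of_smul (hk₀ (j + 1) hj)
      have h1 := hgen (MvPolynomial κ ℂ) (fun k => ex lam k - ((j + 1 : ℕ) : MvPolynomial κ ℂ))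
      have h2 := gen_conj (lf l) (lf_ne hl) (ex lam) (j + 1) _ M _ h1
      have h3 := gen_mul (lf l) (ex lam) _ M q _ h2
      have hu : (toF (MvPolynomial κ ℂ) (∏ k, lf l k))⁻¹ ^ (j + 1) *
          toF (MvPolynomial κ ℂ) (∏ k, linF (MvPolynomial κ ℂ) (l k)) = iQ l ^ j := by
        change (toF (MvPolynomial κ ℂ) (QQ l))⁻¹ ^ (j + 1) * toF (MvPolynomial κ ℂ) (QQ l) = _
        rw [pow_succ, mul_assoc, inv_mul_cancel₀ hQ, mul_one]
        rfl
      rw [hu] at h3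
      have hS : InS (MvPolynomial κ ℂ) (QQ l) (iQ l ^ j) :=
        (InS.inv_of_dvd (QQ_ne hl) (n := 1) (by rw [pow_one])).pow j
      have h4 := (gen_le (lf l) (ex lam) (QQ l) (QQ_ne hl) (lf_dvd l) (iQ l ^ j) hS M).1 h3
      have h5 : mul_span (iQ l ^ j) ⊔ ImS (lf l) (ex lam) (QQ l) ≤
          sat (mul_span (iQ l ^ k₀) ⊔ ImS (lf l) (ex lam) (QQ l)) := by
        apply sup_le
        · rw [mul_span, Submodule.span_le]
          rintro _ ⟨q', rfl⟩
          exact ih q'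
        · exact le_sup_right.trans (le_sat _)
      have h6 := h5 h4
      rw [smul_eq_toF_mul]
      convert h6 using 1
      rw [iQ, QQ]
      ring
    · apply le_sat
      apply Submodule.mem_sup_left
      apply Submodule.subset_span
      refine ⟨q * QQ l ^ (k₀ - (j + 1)), ?_⟩
      simp only [toF_mul, toF_pow]
      have h1 : iQ l ^ k₀ = iQ l ^ (k₀ - (j + 1)) * iQ l ^ (j + 1) := by
        rw [← pow_add, Nat.sub_add_cancel hj]
      rw [h1, mul_assoc, ← mul_assoc (toF (MvPolynomial κ ℂ) (QQ l) ^ _), iQ, ← mul_pow,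
        mul_inv_cancel₀ hQ, one_pow, one_mul]

/-- the finite set of generators -/
noncomputable def gens (_l : κ → ι → ℂ) (k₀ : ℕ) : Finset (ι →₀ ℕ) :=
  Finset.finsuppAntidiag Finset.univ (k₀ * Fintype.card κ)

/-- the generators -/
noncomputable def gn (l : κ → ι → ℂ) (k₀ : ℕ) (α : ι →₀ ℕ) : FF (MvPolynomial κ ℂ) ι :=
  toF (MvPolynomial κ ℂ) (monomial α 1) * iQ l ^ k₀

/-- the module generated by them -/
noncomputable def N0 (l : κ → ι → ℂ) (k₀ : ℕ) : Submodule (MvPolynomial κ ℂ)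
    (FF (MvPolynomial κ ℂ) ι) := Submodule.span _ ((gens l k₀).image (gn l k₀) : Set _)

lemma gn_mem {l : κ → ι → ℂ} {k₀ : ℕ} {α : ι →₀ ℕ} (hα : α ∈ gens l k₀) : gn l k₀ α ∈ N0 l k₀ :=
  Submodule.subset_span (by
    rw [Finset.coe_image]
    exact ⟨α, hα, rfl⟩)

/-- homogeneous components of degree different from zero are in the image -/
lemma claimE {l : κ → ι → ℂ} (hl : ∀ k, l k ≠ 0) (lam : κ → ℂ)
    (hsum : ∑ k, lam k = -(Fintype.card ι : ℂ)) (k₀ : ℕ) (α : ι →₀ ℕ) (a : MvPolynomial κ ℂ) :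
    toF (MvPolynomial κ ℂ) (monomial α a) * iQ l ^ k₀ ∈
      sat (N0 l k₀ ⊔ ImS (lf l) (ex lam) (QQ l)) := by
  have hhom : ∀ k, eul (toF (MvPolynomial κ ℂ) (lf l k)) = toF (MvPolynomial κ ℂ) (lf l k) :=
    fun k => linF_hom (l k)
  by_cases hα : ∑ i, α i = k₀ * Fintype.card κ
  · apply le_sat
    apply Submodule.mem_sup_left
    have h1 : toF (MvPolynomial κ ℂ) (monomial α a) * iQ l ^ k₀ = a • gn l k₀ α := by
      rw [smul_eq_toF_mul, gn, ← mul_assoc, ← toF_mul, C_mul_monomial, mul_one]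
    rw [h1]
    apply Submodule.smul_mem
    apply gn_mem
    rw [gens, Finset.mem_finsuppAntidiag]
    exact ⟨hα, Finset.subset_univ _⟩
  · set x := toF (MvPolynomial κ ℂ) (monomial α a) * iQ l ^ k₀ with hx
    have hS : InS (MvPolynomial κ ℂ) (QQ l) x :=
      (InS.toF _ _).mul ((InS.inv_of_dvd (QQ_ne hl) (n := 1) (by rw [pow_one])).pow k₀)
    have h1 : ∑ i, theta (MvPolynomial κ ℂ) (lf l) (ex lam) i
        (toF (MvPolynomial κ ℂ) (X i) * x) ∈ ImS (lf l) (ex lam) (QQ l) :=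
      ⟨fun i => toF (MvPolynomial κ ℂ) (X i) * x, fun i => (InS.toF _ _).mul hS, rfl⟩
    rw [eul_theta (lf l) (lf_ne hl) hhom, hx, Derivation.leibniz, eul_monomial] at h1
    have h2 : eul (iQ l ^ k₀) = -((k₀ * Fintype.card κ : ℕ) : FF (MvPolynomial κ ℂ) ι) *
        iQ l ^ k₀ := eul_inv_pow (lf l) (lf_ne hl) hhom k₀
    rw [h2, smul_eq_mul, smul_eq_mul] at h1
    set c : MvPolynomial κ ℂ := C (((∑ i, α i : ℕ) : ℂ) - ((k₀ * Fintype.card κ : ℕ) : ℂ)) +
      ∑ k, X k with hc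
    have hc0 : constantCoeff c ≠ 0 := by
      rw [hc, map_add, constantCoeff_C, map_sum]
      simp only [constantCoeff_X, Finset.sum_const_zero, add_zero]
      rw [sub_ne_zero]
      exact_mod_cast hα
    refine sat_le (le_sup_right.trans (le_sat _)) ⟨c, hc0, ?_⟩
    convert h1 using 1
    rw [smul_eq_toF_mul]
    have h3 : toF (MvPolynomial κ ℂ) (C (∑ k, ex lam k) : MvPolynomial ι (MvPolynomial κ ℂ)) =
        -(Fintype.card ι : FF (MvPolynomial κ ℂ) ι) +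
          toF (MvPolynomial κ ℂ) (C (∑ k, X k)) := by
      have h4 : (∑ k, ex lam k : MvPolynomial κ ℂ) = -((Fintype.card ι : ℕ) : MvPolynomial κ ℂ) +
          ∑ k, X k := by
        simp only [ex, Finset.sum_add_distrib]
        rw [← map_sum, hsum, map_neg, map_natCast]
      rw [h4, C_add, C_neg, toF_add, toF_neg, toF_C_natCast]
    have h5 : toF (MvPolynomial κ ℂ) (C c : MvPolynomial ι (MvPolynomial κ ℂ)) =
        ((∑ i, α i : ℕ) : FF (MvPolynomial κ ℂ) ι) -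
          ((k₀ * Fintype.card κ : ℕ) : FF (MvPolynomial κ ℂ) ι) +
          toF (MvPolynomial κ ℂ) (C (∑ k, X k)) := by
      have h4 : c = ((∑ i, α i : ℕ) : MvPolynomial κ ℂ) -
          ((k₀ * Fintype.card κ : ℕ) : MvPolynomial κ ℂ) + ∑ k, X k := by
        rw [hc, map_sub, map_natCast, map_natCast]
      rw [h4, C_add, C_sub, toF_add, toF_sub, toF_C_natCast, toF_C_natCast]
    rw [h3, h5]
    ring

/-- everything is generated by the generators, up to the image -/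
lemma all_mem (hNV1 : Stmt_NV1) {l : κ → ι → ℂ} (hl : ∀ k, l k ≠ 0) (lam : κ → ℂ)
    (hsum : ∑ k, lam k = -(Fintype.card ι : ℂ)) : ∃ k₀ : ℕ,
      ∀ x, InS (MvPolynomial κ ℂ) (QQ l) x → x ∈ sat (N0 l k₀ ⊔ ImS (lf l) (ex lam) (QQ l)) := by
  obtain ⟨k₀, hk₀⟩ := claimD hNV1 hl lam
  refine ⟨k₀, fun x hx => ?_⟩
  obtain ⟨j, q, hq⟩ := hx
  have hQ := toF_ne_zero (QQ_ne hl)
  have hx1 : x = toF (MvPolynomial κ ℂ) q * iQ l ^ j := by
    rw [← hq, mul_assoc, iQ, ← mul_pow, mul_inv_cancel₀ hQ, one_pow, mul_one]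
  rw [hx1]
  refine sat_le ?_ (hk₀ j q)
  apply sup_le
  · rw [mul_span, Submodule.span_le]
    rintro _ ⟨q', rfl⟩
    simp only [SetLike.mem_coe]
    rw [q'.as_sum, toF_sum, Finset.sum_mul]
    apply Submodule.sum_mem
    intro α _
    exact claimE hl lam hsum k₀ α _
  · exact le_sup_right.trans (le_sat _)

/-- **Nakayama's lemma**. -/
lemma one_mem (hNV1 : Stmt_NV1) {l : κ → ι → ℂ} (hl : ∀ k, l k ≠ 0) (lam : κ → ℂ)
    (hsum : ∑ k, lam k = -(Fintype.card ι : ℂ)) (hv : VanTop l lam) :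
    ∃ c : MvPolynomial κ ℂ, constantCoeff c ≠ 0 ∧
      c • (1 : FF (MvPolynomial κ ℂ) ι) ∈ ImS (lf l) (ex lam) (QQ l) := by
  obtain ⟨k₀, hall⟩ := all_mem hNV1 hl lam hsum
  set Im := ImS (lf l) (ex lam) (QQ l) with hIm
  set I : Ideal (MvPolynomial κ ℂ) := RingHom.ker (constantCoeff (σ := κ) (R := ℂ)) with hI
  have hX : ∀ k, (X k : MvPolynomial κ ℂ) ∈ I := fun k => by
    rw [hI, RingHom.mem_ker, constantCoeff_X]
  -- the generators are in `I N₀ + Im`
  have hgen : ∀ α ∈ gens l k₀, gn l k₀ α ∈ I • N0 l k₀ ⊔ Im := by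
    intro α hα
    set x : FF ℂ ι := toF ℂ (monomial α 1) * (toF ℂ (∏ k, linF ℂ (l k)))⁻¹ ^ k₀ with hx
    have hQC : (∏ k, linF ℂ (l k)) ≠ 0 := Finset.prod_ne_zero_iff.2 fun k _ => linF_ne (hl k)
    have hxS : InS ℂ (∏ k, linF ℂ (l k)) x :=
      (InS.toF _ _).mul ((InS.inv_of_dvd hQC (n := 1) (by rw [pow_one])).pow k₀)
    have hxb : be ι κ x = gn l k₀ α := by
      rw [hx, map_mul, map_pow, map_inv₀, be_toF, be_toF, ph_QQ, gn, ph, map_monomial, C_1]
      rfl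
    obtain ⟨y, hy, hy'⟩ := of_vanTop hl lam hv x hxS
    rw [hxb] at hy'
    obtain ⟨c, hc, hcy⟩ := sat_finset (N0 l k₀ ⊔ Im) Finset.univ y (fun k _ => hall _ (hy k))
    -- `c • gn ∈ I N₀ + Im`
    have h1 : ∀ k, c • ((X k : MvPolynomial κ ℂ) • y k) ∈ I • N0 l k₀ ⊔ Im := by
      intro k
      obtain ⟨n, hn, m, hm, hnm⟩ := Submodule.mem_sup.1 (hcy k (Finset.mem_univ k))
      rw [smul_comm, ← hnm, smul_add]
      apply Submodule.add_mem
      · exact Submodule.mem_sup_left (Submodule.smul_mem_smul (hX k) hn)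
      · exact Submodule.mem_sup_right (Im.smul_mem _ hm)
    have h2 : c • gn l k₀ α ∈ I • N0 l k₀ ⊔ Im := by
      have h3 : c • gn l k₀ α = c • (gn l k₀ α + ∑ k, (X k : MvPolynomial κ ℂ) • y k) -
          ∑ k, c • ((X k : MvPolynomial κ ℂ) • y k) := by
        rw [smul_add, Finset.smul_sum]
        ring
      rw [h3]
      apply Submodule.sub_mem
      · exact Submodule.mem_sup_right (Im.smul_mem _ hy')
      · exact Submodule.sum_mem _ fun k _ => h1 k
    set a : ℂ := constantCoeff c with ha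
    have h4 : c - C a ∈ I := by
      rw [hI, RingHom.mem_ker, map_sub, constantCoeff_C, sub_self]
    have h5 : (C a : MvPolynomial κ ℂ) • gn l k₀ α ∈ I • N0 l k₀ ⊔ Im := by
      have h6 : (C a : MvPolynomial κ ℂ) • gn l k₀ α = c • gn l k₀ α - (c - C a) • gn l k₀ α := by
        rw [sub_smul]
        ring
      rw [h6]
      apply Submodule.sub_mem _ h2
      exact Submodule.mem_sup_left (Submodule.smul_mem_smul h4 (gn_mem hα))
    have h7 := (I • N0 l k₀ ⊔ Im).smul_mem (C a⁻¹ : MvPolynomial κ ℂ) h5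
    rwa [← mul_smul, ← C_mul, inv_mul_cancel₀ hc, C_1, one_smul] at h7
  have hN0 : N0 l k₀ ≤ I • N0 l k₀ ⊔ Im := by
    rw [N0, Submodule.span_le]
    intro z hz
    rw [Finset.coe_image] at hz
    obtain ⟨α, hα, rfl⟩ := hz
    exact hgen α hα
  -- Nakayama in the quotient
  obtain ⟨r, hr, hr'⟩ := Submodule.exists_sub_one_mem_and_smul_eq_zero_of_fg_of_le_smul I
    ((N0 l k₀).map Im.mkQ) (Submodule.FG.map _ ⟨_, rfl⟩) (by
      rw [← Submodule.map_smul'']
      rintro _ ⟨x, hx, rfl⟩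
      obtain ⟨n, hn, m, hm, hnm⟩ := Submodule.mem_sup.1 (hN0 hx)
      refine ⟨n, hn, ?_⟩
      have hmm : Im.mkQ m = 0 := (Submodule.Quotient.mk_eq_zero Im).2 hm
      rw [← hnm, map_add, hmm, add_zero])
  have hr1 : constantCoeff r = 1 := by
    rw [hI, RingHom.mem_ker, map_sub, map_one, sub_eq_zero] at hr
    exact hr
  have hrN : ∀ x ∈ N0 l k₀, r • x ∈ Im := by
    intro x hx
    have h1 := hr' (Im.mkQ x) ⟨x, hx, rfl⟩
    rw [← map_smul] at h1
    exact (Submodule.Quotient.mk_eq_zero Im).1 h1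
  obtain ⟨c, hc, hc'⟩ := hall 1 (InS.one _)
  refine ⟨r * c, by rw [map_mul, hr1, one_mul]; exact hc, ?_⟩
  obtain ⟨n, hn, m, hm, hnm⟩ := Submodule.mem_sup.1 hc'
  rw [mul_smul, ← hnm, smul_add]
  exact Im.add_mem (hrN n hn) (Im.smul_mem r hm)

/-- the polynomial form -/
lemma polyForm {l : κ → ι → ℂ} (hl : ∀ k, l k ≠ 0) (lam : κ → ℂ) (c : MvPolynomial κ ℂ)
    (hc : c • (1 : FF (MvPolynomial κ ℂ) ι) ∈ ImS (lf l) (ex lam) (QQ l)) :
    PolyForm l lam c := by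
  obtain ⟨h, hh, hsum⟩ := hc
  choose j q hq using hh
  obtain ⟨r, hr⟩ : ∃ r, r = Finset.univ.sup j := ⟨_, rfl⟩
  have hjr : ∀ i, j i ≤ r := fun i => by rw [hr]; exact Finset.le_sup (Finset.mem_univ i)
  have hq' : ∀ i, h i * toF (MvPolynomial κ ℂ) (∏ k, lf l k) ^ r =
      toF (MvPolynomial κ ℂ) (q i * QQ l ^ (r - j i)) := fun i => InS.lift (hq i) r (hjr i)
  have h2 : toF (MvPolynomial κ ℂ) (C c * (∏ k, lf l k) ^ (r + 1)) =
      toF (MvPolynomial κ ℂ) (∑ i, ((∏ k, lf l k) * pderiv i (q i * QQ l ^ (r - j i)) -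
        (r : MvPolynomial ι (MvPolynomial κ ℂ)) * (q i * QQ l ^ (r - j i)) *
          pderiv i (∏ k, lf l k) + (q i * QQ l ^ (r - j i)) *
          ∑ k, C (ex lam k) * (pderiv i (lf l k) * ∏ k' ∈ Finset.univ.erase k, lf l k'))) := by
    rw [toF_sum, toF_mul, toF_pow, ← mul_one (toF (MvPolynomial κ ℂ) (C c)), ← smul_eq_toF_mul,
      hsum, Finset.sum_mul]
    apply Finset.sum_congr rfl
    intro i _
    exact theta_clear (lf l) (lf_ne hl) (ex lam) i (h i) r _ (hq' i)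
  exact ⟨r, fun i => q i * QQ l ^ (r - j i), toF_injective h2⟩

end main

end Pool.Agent.Mono.NV2

namespace Pool.Agent.Mono

/-- finite generation and Nakayama -/
theorem stmt_NV2 (hNV1 : Stmt_NV1) : Stmt_NV2 := by
  intro ι κ _ _ _ _ l lam _ hl hsum hv
  obtain ⟨c, hc, hc'⟩ := NV2.one_mem hNV1 hl lam hsum hv
  exact ⟨c, hc, NV2.polyForm hl lam c hc'⟩

end Pool.Agent.Mono
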