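import Pool.Agent.Work.Monodromy.Interface

/-!
# Block NV4: density of the Hadamard product of a linear space and of its space of relations
-/

set_option linter.unusedSectionVars false

namespace Pool.Agent.Mono.NV4

open MvPolynomial Filter Topology

section core

variable {β S : Type} [Fintype β] [Fintype S]

/-- connectivity of the bipartite graph `R s i ≠ 0` -/
def Conn (R : S → β → ℂ) : Prop :=
  ∀ T : Set (β ⊕ S), T.Nonempty → Tᶜ.Nonempty →
    ∃ i s, R s i ≠ 0 ∧ ((Sum.inl i ∈ T ∧ Sum.inr s ∉ T) ∨ (Sum.inl i ∉ T ∧ Sum.inr s ∈ T))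

theorem order_aux {R : S → β → ℂ} (hR : Conn R) (s1 : S) (n : ℕ) (hn : n < Fintype.card S) :
    ∃ U : Finset S, U.card = n + 1 ∧ s1 ∈ U ∧ ∃ r : S → ℕ, Set.InjOn r U ∧
      ∀ s ∈ U, s ≠ s1 → ∃ i, R s i ≠ 0 ∧ ∃ s' ∈ U, R s' i ≠ 0 ∧ r s' < r s := by
  classical
  induction n with
  | zero =>
    refine ⟨{s1}, by simp, by simp, fun _ => 0, by simp, ?_⟩
    intro s hs h
    simp at hs
    exact absurd hs h
  | succ n ih =>
    obtain ⟨U, hU, h1, r, hr, h⟩ := ih (by omega)
    let T : Set (β ⊕ S) := {z | Sum.elim (fun i => ∃ s ∈ U, R s i ≠ 0) (fun s => s ∈ U) z}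
    have hT1 : T.Nonempty := ⟨Sum.inr s1, h1⟩
    have hT2 : Tᶜ.Nonempty := by
      obtain ⟨s, hs⟩ : ∃ s, s ∉ U := by
        by_contra hcon
        push Not at hcon
        have : U = Finset.univ := Finset.eq_univ_iff_forall.2 hcon
        rw [this, Finset.card_univ] at hU
        omega
      exact ⟨Sum.inr s, hs⟩
    obtain ⟨i, s, hsi, hc⟩ := hR T hT1 hT2
    rcases hc with ⟨hi, hs⟩ | ⟨hi, hs⟩
    · obtain ⟨s', hs', hs'i⟩ := hi
      have hsU : s ∉ U := hs
      refine ⟨insert s U, ?_, Finset.mem_insert_of_mem h1, Function.update r s (U.sup r + 1), ?_, ?_⟩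
      · rw [Finset.card_insert_of_notMem hsU, hU]
      · intro a ha b hb hab
        have key : ∀ c ∈ U, Function.update r s (U.sup r + 1) c = r c := by
          intro c hc
          have : c ≠ s := fun h => hsU (h ▸ hc)
          simp [Function.update_of_ne this]
        have key2 : ∀ c ∈ U, r c < U.sup r + 1 := fun c hc =>
          Nat.lt_succ_of_le (Finset.le_sup (f := r) hc)
        rcases Finset.mem_insert.1 ha with rfl | ha' <;> rcases Finset.mem_insert.1 hb with rfl | hb'
        · rfl
        · rw [key b hb', Function.update_self] at hab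
          have := key2 b hb'
          omega
        · rw [key a ha', Function.update_self] at hab
          have := key2 a ha'
          omega
        · rw [key a ha', key b hb'] at hab
          exact hr ha' hb' hab
      · intro a ha ha1
        rcases Finset.mem_insert.1 ha with rfl | ha'
        · refine ⟨i, hsi, s', Finset.mem_insert_of_mem hs', hs'i, ?_⟩
          have : s' ≠ a := fun h => hsU (h ▸ hs')
          rw [Function.update_self, Function.update_of_ne this]
          exact Nat.lt_succ_of_le (Finset.le_sup (f := r) hs')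
        · obtain ⟨j, hj, t, ht, htj, hlt⟩ := h a ha' ha1
          refine ⟨j, hj, t, Finset.mem_insert_of_mem ht, htj, ?_⟩
          have h1 : t ≠ s := fun h => hsU (h ▸ ht)
          have h2 : a ≠ s := fun h => hsU (h ▸ ha')
          rw [Function.update_of_ne h1, Function.update_of_ne h2]
          exact hlt
    · exact absurd (show Sum.inl i ∈ T from ⟨s, hs, hsi⟩) hi

theorem order {R : S → β → ℂ} (hR : Conn R) (s1 : S) :
    ∃ r : S → ℕ, Function.Injective r ∧
      ∀ s, s ≠ s1 → ∃ i, R s i ≠ 0 ∧ ∃ s', R s' i ≠ 0 ∧ r s' < r s := by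
  classical
  have hpos : 0 < Fintype.card S := Fintype.card_pos_iff.2 ⟨s1⟩
  obtain ⟨U, hU, h1, r, hr, h⟩ := order_aux hR s1 (Fintype.card S - 1) (by omega)
  have hU' : U = Finset.univ := Finset.eq_univ_of_card U (by omega)
  subst hU'
  refine ⟨r, ?_, ?_⟩
  · intro a b hab
    exact hr (by simp) (by simp) hab
  · intro s hs
    obtain ⟨i, hi, s', -, h', h''⟩ := h s (Finset.mem_univ _) hs
    exact ⟨i, hi, s', h', h''⟩

theorem exists_adj {R : S → β → ℂ} (hR : Conn R) (s1 : S) (i : β) : ∃ s, R s i ≠ 0 := by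
  obtain ⟨j, s, hsj, hc⟩ := hR {Sum.inl i} ⟨_, rfl⟩ ⟨Sum.inr s1, by simp⟩
  rcases hc with ⟨h, -⟩ | ⟨-, h⟩
  · simp at h
    subst h
    exact ⟨s, hsj⟩
  · simp at h

/-- finitely many non-zero linear forms do not vanish at a common point -/
theorem exists_point {A : Type} [Fintype A] (α : A → β → ℂ) (h : ∀ s, α s ≠ 0) :
    ∃ y : β → ℂ, ∀ s, ∑ i, α s i * y i ≠ 0 := by
  classical
  let P : MvPolynomial β ℂ := ∏ s, ∑ i, C (α s i) * X i
  have hP : P ≠ 0 := by
    refine Finset.prod_ne_zero_iff.2 fun s _ hs => h s ?_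
    funext i
    have := congrArg (eval (Pi.single i 1)) hs
    simpa [Pi.single_apply] using this
  by_contra hcon
  push Not at hcon
  apply hP
  apply MvPolynomial.funext
  intro y
  obtain ⟨s, hs⟩ := hcon y
  simp only [P, map_prod, map_zero]
  refine Finset.prod_eq_zero (Finset.mem_univ s) ?_
  simpa using hs

/-- the generic point: only constants solve the equations -/
theorem generic [DecidableEq S] {R : S → β → ℂ} (hR : Conn R) (s1 : S) :
    ∃ (y : β → ℂ) (γ : S → ℂ), ∀ ξ : β ⊕ S → ℂ,
      (∀ s, ∑ i, R s i * y i * (ξ (Sum.inr s) - ξ (Sum.inl i)) = 0) →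
      (∀ i, ∑ s, γ s * R s i * (ξ (Sum.inl i) - ξ (Sum.inr s)) = 0) →
        ∀ z, ξ z = ξ (Sum.inr s1) := by
  classical
  obtain ⟨r, hr, hord⟩ := order hR s1
  have hm' : ∀ i, ∃ s, R s i ≠ 0 ∧ ∀ s', R s' i ≠ 0 → r s ≤ r s' := by
    intro i
    obtain ⟨s0, hs0⟩ := exists_adj hR s1 i
    obtain ⟨s, hs, hmin⟩ := Finset.exists_min_image (Finset.univ.filter fun s => R s i ≠ 0) r
      ⟨s0, by simpa using hs0⟩
    exact ⟨s, by simpa using hs, fun s' hs' => hmin s' (by simpa using hs')⟩
  choose m hm hmin using hm'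
  let α : {s : S // s ≠ s1} → β → ℂ := fun s i => if m i = s.1 then 0 else R s.1 i
  have hα : ∀ s, α s ≠ 0 := by
    intro s h0
    obtain ⟨i, hi, s', hs', hlt⟩ := hord s.1 s.2
    have h2 := congrFun h0 i
    have h3 : m i ≠ s.1 := by
      intro h4
      have := hmin i s' hs'
      rw [h4] at this
      omega
    simp [α, h3] at h2
    exact hi h2
  obtain ⟨y, hy⟩ := exists_point α hα
  let N : ℂ → (β ⊕ S → ℂ) → (β ⊕ S → ℂ) := fun ε ξ => Sum.elim
    (fun i => ∑ s, ε ^ (r s - r (m i)) * R s i * (ξ (Sum.inl i) - ξ (Sum.inr s)))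
    (fun s => if s = s1 then ξ (Sum.inr s1) else ∑ i, R s i * y i * (ξ (Sum.inr s) - ξ (Sum.inl i)))
  let NL : ℂ → (β ⊕ S → ℂ) →ₗ[ℂ] (β ⊕ S → ℂ) := fun ε =>
    { toFun := N ε
      map_add' := by
        intro a b
        funext z
        rcases z with i | s
        · simp only [N, Sum.elim_inl, Pi.add_apply]
          rw [← Finset.sum_add_distrib]
          exact Finset.sum_congr rfl fun _ _ => by ring
        · simp only [N, Sum.elim_inr, Pi.add_apply]
          split_ifs
          · rfl
          · rw [← Finset.sum_add_distrib]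
            exact Finset.sum_congr rfl fun _ _ => by ring
      map_smul' := by
        intro c a
        funext z
        rcases z with i | s
        · simp only [N, Sum.elim_inl, Pi.smul_apply, smul_eq_mul, RingHom.id_apply]
          rw [Finset.mul_sum]
          exact Finset.sum_congr rfl fun _ _ => by ring
        · simp only [N, Sum.elim_inr, Pi.smul_apply, smul_eq_mul, RingHom.id_apply]
          split_ifs
          · rfl
          · rw [Finset.mul_sum]
            exact Finset.sum_congr rfl fun _ _ => by ring }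
  -- injectivity at zero
  have h0 : ∀ ξ, NL 0 ξ = 0 → ξ = 0 := by
    intro ξ hξ
    have e1 : ∀ i, ξ (Sum.inl i) = ξ (Sum.inr (m i)) := by
      intro i
      have h := congrFun hξ (Sum.inl i)
      change ∑ s, (0 : ℂ) ^ (r s - r (m i)) * R s i * (ξ (Sum.inl i) - ξ (Sum.inr s)) = 0 at h
      rw [Finset.sum_eq_single (m i)] at h
      · simp only [tsub_self, pow_zero, one_mul, mul_eq_zero] at h
        rcases h with h | h
        · exact absurd h (hm i)
        · exact sub_eq_zero.1 h
      · intro s _ hs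
        by_cases hsi : R s i = 0
        · simp [hsi]
        · have h1 := hmin i s hsi
          have h2 : r s ≠ r (m i) := fun h => hs (hr h)
          have h3 : r s - r (m i) ≠ 0 := by omega
          simp [h3]
      · simp
    have e2 : ∀ (n : ℕ) (s : S), r s = n → ξ (Sum.inr s) = 0 := by
      intro n
      induction n using Nat.strong_induction_on with
      | _ n ih =>
        intro s hs
        by_cases hs1 : s = s1
        · subst hs1
          have h := congrFun hξ (Sum.inr s)
          change (if s = s then ξ (Sum.inr s) else _) = (0 : ℂ) at h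
          simpa using h
        · have h := congrFun hξ (Sum.inr s)
          change (if s = s1 then ξ (Sum.inr s1) else
            ∑ i, R s i * y i * (ξ (Sum.inr s) - ξ (Sum.inl i))) = (0 : ℂ) at h
          rw [if_neg hs1] at h
          have h' : ∑ i, α ⟨s, hs1⟩ i * y i * ξ (Sum.inr s) = 0 := by
            rw [← h]
            refine Finset.sum_congr rfl fun i _ => ?_
            rw [e1 i]
            by_cases hmi : m i = s
            · simp [α, hmi]
            · by_cases hsi : R s i = 0
              · simp [α, hsi]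
              · have h1 := hmin i s hsi
                have h2 : r (m i) ≠ r s := fun h => hmi (hr h)
                rw [ih (r (m i)) (by omega) (m i) rfl]
                simp [α, hmi]
          rw [← Finset.sum_mul] at h'
          rcases mul_eq_zero.1 h' with h'' | h''
          · exact absurd h'' (hy _)
          · exact h''
    funext z
    rcases z with i | s
    · rw [e1 i]
      exact e2 _ _ rfl
    · exact e2 _ _ rfl
  have hdet0 : (LinearMap.toMatrix' (NL 0)).det ≠ 0 := by
    rw [LinearMap.det_toMatrix']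
    intro hd
    have hlt := LinearMap.bot_lt_ker_of_det_eq_zero hd
    apply hlt.ne'
    rw [LinearMap.ker_eq_bot']
    exact h0
  have hcont : Continuous fun ε : ℂ => (LinearMap.toMatrix' (NL ε)).det := by
    apply Continuous.matrix_det
    apply continuous_matrix
    intro a b
    simp only [LinearMap.toMatrix'_apply]
    change Continuous fun ε => N ε _ a
    rcases a with i | s
    · simp only [N, Sum.elim_inl]
      fun_prop
    · simp only [N, Sum.elim_inr]
      exact continuous_const
  have hev : ∀ᶠ ε in 𝓝[≠] (0 : ℂ), (LinearMap.toMatrix' (NL ε)).det ≠ 0 :=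
    (hcont.continuousAt.eventually_ne hdet0).filter_mono nhdsWithin_le_nhds
  obtain ⟨ε, hε, hε0⟩ := (hev.and self_mem_nhdsWithin).exists
  have hε0 : ε ≠ 0 := hε0
  have hinj : ∀ ξ, N ε ξ = 0 → ξ = 0 := by
    intro ξ hξ
    apply Matrix.eq_zero_of_mulVec_eq_zero hε
    rw [LinearMap.toMatrix'_mulVec]
    exact hξ
  refine ⟨y, fun s => ε ^ r s, ?_⟩
  intro ξ ha hb
  have hz : (fun z => ξ z - ξ (Sum.inr s1)) = 0 := by
    apply hinj
    funext z
    rcases z with i | s
    · simp only [N, Sum.elim_inl, Pi.zero_apply]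
      have h := hb i
      have h2 : ε ^ r (m i) * ∑ s, ε ^ (r s - r (m i)) * R s i *
          (ξ (Sum.inl i) - ξ (Sum.inr s1) - (ξ (Sum.inr s) - ξ (Sum.inr s1))) = 0 := by
        rw [← h, Finset.mul_sum]
        refine Finset.sum_congr rfl fun s _ => ?_
        beta_reduce
        by_cases hsi : R s i = 0
        · simp [hsi]
        · have h1 := hmin i s hsi
          have h3 : ε ^ r s = ε ^ r (m i) * ε ^ (r s - r (m i)) := by
            rw [← pow_add]
            congr 1
            omega
          rw [h3]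
          ring
      rcases mul_eq_zero.1 h2 with h3 | h3
      · exact absurd h3 (pow_ne_zero _ hε0)
      · exact h3
    · simp only [N, Sum.elim_inr, Pi.zero_apply]
      split_ifs with hs
      · simp
      · rw [← ha s]
        refine Finset.sum_congr rfl fun i _ => ?_
        ring
  intro z
  have := congrFun hz z
  simpa [sub_eq_zero] using this

/-- the product map -/
def Psi (R : S → β → ℂ) (y : β → ℂ) (γ : S → ℂ) : β ⊕ S → ℂ :=
  Sum.elim (fun i => (-∑ s, γ s * R s i) * y i) (fun s => γ s * ∑ i, R s i * y i)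

theorem sum_Psi (R : S → β → ℂ) (y : β → ℂ) (γ : S → ℂ) : ∑ z, Psi R y γ z = 0 := by
  rw [Fintype.sum_sum_type]
  simp only [Psi, Sum.elim_inl, Sum.elim_inr, neg_mul, Finset.sum_neg_distrib]
  simp only [Finset.sum_mul, Finset.mul_sum]
  rw [Finset.sum_comm]
  rw [neg_add_eq_zero]
  exact Finset.sum_congr rfl fun _ _ => Finset.sum_congr rfl fun _ _ => by ring

/-- the product map as a bilinear map -/
def PsiL (R : S → β → ℂ) : (β → ℂ) →ₗ[ℂ] (S → ℂ) →ₗ[ℂ] (β ⊕ S → ℂ) :=
  LinearMap.mk₂ ℂ (Psi R)
    (by
      intro a b c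
      funext z
      rcases z with i | s
      · simp only [Psi, Sum.elim_inl, Pi.add_apply]; ring
      · simp only [Psi, Sum.elim_inr, Pi.add_apply, mul_add, Finset.sum_add_distrib])
    (by
      intro a b c
      funext z
      rcases z with i | s
      · simp only [Psi, Sum.elim_inl, Pi.smul_apply, smul_eq_mul]; ring
      · simp only [Psi, Sum.elim_inr, Pi.smul_apply, smul_eq_mul, Finset.mul_sum]
        exact Finset.sum_congr rfl fun _ _ => by ring)
    (by
      intro a b c
      funext z
      rcases z with i | s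
      · simp only [Psi, Sum.elim_inl, Pi.add_apply, add_mul, Finset.sum_add_distrib]; ring
      · simp only [Psi, Sum.elim_inr, Pi.add_apply]; ring)
    (by
      intro a b c
      funext z
      rcases z with i | s
      · simp only [Psi, Sum.elim_inl, Pi.smul_apply, smul_eq_mul, mul_assoc, ← Finset.mul_sum]; ring
      · simp only [Psi, Sum.elim_inr, Pi.smul_apply, smul_eq_mul]; ring)

theorem core_dense {R : S → β → ℂ} (hR : Conn R) (s1 : S) (g : MvPolynomial (β ⊕ S) ℂ)
    (hg : ∀ y γ, eval (Psi R y γ) g = 0) (σ : β ⊕ S → ℂ) (hσ : ∑ z, σ z = 0) :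
    eval σ g = 0 := by
  classical
  obtain ⟨y0, γ0, hgen⟩ := generic hR s1
  let B : (β → ℂ) →L[ℂ] (S → ℂ) →L[ℂ] (β ⊕ S → ℂ) := (PsiL R).toContinuousBilinearMap
  have hB : ∀ y γ, B y γ = Psi R y γ := fun _ _ => rfl
  let E := (β → ℂ) × (S → ℂ) × ℂ
  let e : β ⊕ S → ℂ := Pi.single (Sum.inr s1) 1
  let F : E → (β ⊕ S → ℂ) := fun p => B p.1 p.2.1 + p.2.2 • e
  let x0 : E := (y0, γ0, 0)
  let L1 : E →L[ℂ] (β → ℂ) := ContinuousLinearMap.fst ℂ _ _
  let L2 : E →L[ℂ] (S → ℂ) := (ContinuousLinearMap.fst ℂ _ _).comp (ContinuousLinearMap.snd ℂ _ _)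
  let L3 : E →L[ℂ] ℂ := (ContinuousLinearMap.snd ℂ _ _).comp (ContinuousLinearMap.snd ℂ _ _)
  let F' : E →L[ℂ] (β ⊕ S → ℂ) := (B.precompR E y0 L2 + B.precompL E L1 γ0) + L3.smulRight e
  have hF : HasStrictFDerivAt F F' x0 := by
    have h1 := B.hasStrictFDerivAt_of_bilinear (L1.hasStrictFDerivAt (x := x0))
      (L2.hasStrictFDerivAt (x := x0))
    have h2 := (L3.hasStrictFDerivAt (x := x0)).smul_const e
    exact h1.add h2
  have hF' : ∀ p : E, F' p = Psi R y0 p.2.1 + Psi R p.1 γ0 + p.2.2 • e := by
    intro p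
    rfl
  have hsurj : LinearMap.range (F' : E →ₗ[ℂ] (β ⊕ S → ℂ)) = ⊤ := by
    by_contra hne
    obtain ⟨φ, hφ, hle⟩ := Submodule.exists_le_ker_of_lt_top _ (lt_top_iff_ne_top.2 hne)
    apply hφ
    let ξ : β ⊕ S → ℂ := fun z => φ (Pi.single z 1)
    have hφ' : ∀ v : β ⊕ S → ℂ, φ v = ∑ z, v z * ξ z := by
      intro v
      conv_lhs => rw [← Finset.univ_sum_single v]
      rw [map_sum]
      refine Finset.sum_congr rfl fun z _ => ?_
      have : Pi.single z (v z) = v z • (Pi.single z 1 : β ⊕ S → ℂ) := by
        rw [← Pi.single_smul]; simp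
      rw [this, map_smul, smul_eq_mul]
    have hvan : ∀ p : E, φ (Psi R y0 p.2.1 + Psi R p.1 γ0 + p.2.2 • e) = 0 := by
      intro p
      rw [← hF' p]
      exact hle ⟨p, rfl⟩
    have hP0 : ∀ y, Psi R y 0 = 0 := by
      intro y
      rw [← hB]
      exact map_zero _
    have hP0' : ∀ γ, Psi R 0 γ = 0 := by
      intro γ
      rw [← hB, map_zero]
      rfl
    have h1 : ξ (Sum.inr s1) = 0 := by
      have := hvan (0, 0, 1)
      simpa [hP0, hP0', e] using this
    have h2 : ∀ s, ∑ i, R s i * y0 i * (ξ (Sum.inr s) - ξ (Sum.inl i)) = 0 := by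
      intro s
      have := hvan (0, Pi.single s 1, 0)
      simp only [hP0', zero_smul, add_zero, hφ', Fintype.sum_sum_type] at this
      simp only [Psi, Sum.elim_inl, Sum.elim_inr, Pi.single_apply, ite_mul, one_mul, zero_mul,
        Finset.sum_ite_eq', Finset.mem_univ, if_true] at this
      rw [← this]
      rw [Finset.sum_mul, ← Finset.sum_add_distrib]
      exact Finset.sum_congr rfl fun _ _ => by ring
    have h3 : ∀ i, ∑ s, γ0 s * R s i * (ξ (Sum.inl i) - ξ (Sum.inr s)) = 0 := by
      intro i
      have := hvan (Pi.single i 1, 0, 0)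
      simp only [hP0, zero_smul, add_zero, zero_add, hφ', Fintype.sum_sum_type] at this
      simp only [Psi, Sum.elim_inl, Sum.elim_inr, Pi.single_apply, mul_ite, mul_one, mul_zero,
        ite_mul, zero_mul,
        Finset.sum_ite_eq', Finset.mem_univ, if_true] at this
      rw [← neg_eq_zero, ← this]
      rw [neg_mul, Finset.sum_mul, ← Finset.sum_neg_distrib, ← Finset.sum_neg_distrib,
        ← Finset.sum_add_distrib]
      exact Finset.sum_congr rfl fun _ _ => by ring
    have h4 := hgen ξ h2 h3
    apply LinearMap.ext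
    intro v
    rw [hφ']
    simp [h4, h1]
  have hmap := hF.map_nhds_eq_of_surj hsurj
  let σ0 : β ⊕ S → ℂ := F x0
  have hσ0 : ∑ z, σ0 z = 0 := by
    have : σ0 = Psi R y0 γ0 := by
      simp [σ0, F, x0, hB]
    rw [this]
    exact sum_Psi R y0 γ0
  have hrange : Set.range F ∈ 𝓝 σ0 := by
    rw [← hmap]
    exact Filter.range_mem_map
  -- one-variable polynomial
  let p : Polynomial ℂ := aeval (fun z => Polynomial.C (σ0 z) + Polynomial.X * Polynomial.C (σ z - σ0 z)) g
  have hp : ∀ t : ℂ, p.eval t = eval (fun z => σ0 z + t * (σ z - σ0 z)) g := by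
    intro t
    have : Polynomial.eval t p = (Polynomial.aeval t : Polynomial ℂ →ₐ[ℂ] ℂ) p := by
      rw [Polynomial.coe_aeval_eq_eval]
    rw [this, ← AlgHom.comp_apply, MvPolynomial.comp_aeval]
    simp [MvPolynomial.aeval_eq_eval]
  have hev : ∀ᶠ t in 𝓝 (0 : ℂ), p.eval t = 0 := by
    have hc : ContinuousAt (fun t : ℂ => (fun z => σ0 z + t * (σ z - σ0 z) : β ⊕ S → ℂ)) 0 := by
      apply Continuous.continuousAt
      fun_prop
    have h0 : (fun z => σ0 z + 0 * (σ z - σ0 z) : β ⊕ S → ℂ) = σ0 := by
      funext z; simp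
    have h1 := hc.eventually (p := fun v => v ∈ Set.range F) (by
      beta_reduce; rw [h0]; exact hrange)
    filter_upwards [h1] with t ht
    obtain ⟨q, hq⟩ := ht
    rw [hp t, ← hq]
    have hsum : ∑ z, F q z = 0 := by
      rw [hq, Finset.sum_add_distrib, ← Finset.mul_sum, Finset.sum_sub_distrib, hσ, hσ0]
      simp
    have hq2 : q.2.2 = 0 := by
      have : ∑ z, F q z = q.2.2 := by
        simp only [F, Pi.add_apply, Pi.smul_apply, smul_eq_mul, Finset.sum_add_distrib, hB, sum_Psi]
        simp [e, Pi.single_apply]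
      rw [← this, hsum]
    have : F q = Psi R q.1 q.2.1 := by
      simp [F, hq2, hB]
    rw [this]
    exact hg _ _
  have hp0 : p = 0 := by
    by_contra hne
    have hfin : {t | p.eval t = 0}.Finite := Polynomial.finite_setOfPred_isRoot hne
    have : {t | p.eval t = 0} ∈ 𝓝 (0 : ℂ) := hev
    exact (infinite_of_mem_nhds (0 : ℂ) this) hfin
  have h1 := hp 1
  rw [hp0] at h1
  have h2 : (fun z => σ0 z + 1 * (σ z - σ0 z)) = σ := by
    funext z; ring
  rw [h2] at h1
  rw [← h1]
  simp

end core

/-- a family of vectors is a basis part plus a remaining part -/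
theorem connected_conn {ι κ : Type} {l : κ → ι → ℂ} (hc : Connected l)
    {β : Type} (b : Module.Basis β ℂ (ι → ℂ)) (a : β → κ) (hab : ∀ i, b i = l (a i))
    (e : β ⊕ {k // k ∉ Set.range a} ≃ κ) (he1 : ∀ i, e (Sum.inl i) = a i)
    (he2 : ∀ s, e (Sum.inr s) = s.1) :
    Conn (fun (s : {k // k ∉ Set.range a}) i => b.repr (l s.1) i) := by
  classical
  intro T hT hT'
  by_contra hcon
  push Not at hcon
  -- for an element on either side, the vector lies in the span of the basis part of that side
  have key : ∀ (U : Set (β ⊕ {k // k ∉ Set.range a})), (∀ i s, b.repr (l s.1) i ≠ 0 →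
      Sum.inr s ∈ U → Sum.inl i ∈ U) →
      Submodule.span ℂ (l '' (e '' U)) ≤ Submodule.span ℂ (b '' {i | Sum.inl i ∈ U}) := by
    intro U hU
    rw [Submodule.span_le]
    rintro _ ⟨_, ⟨z, hz, rfl⟩, rfl⟩
    rcases z with i | s
    · rw [he1, ← hab]
      exact Submodule.subset_span ⟨i, hz, rfl⟩
    · rw [he2, SetLike.mem_coe, Module.Basis.mem_span_image]
      intro i hi
      exact hU i s (Finsupp.mem_support_iff.1 hi) hz
  have h1 : e '' Tᶜ = (e '' T)ᶜ := by
    rw [Set.image_compl_eq e.bijective]
  apply hc (e '' T) (hT.image _) (by rw [← h1]; exact hT'.image _)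
  rw [← h1]
  have hd : Disjoint (Submodule.span ℂ (b '' {i | Sum.inl i ∈ T}))
      (Submodule.span ℂ (b '' {i | Sum.inl i ∈ Tᶜ})) := by
    apply b.linearIndependent.disjoint_span_image
    rw [Set.disjoint_left]
    intro i hi hi'
    exact hi' hi
  apply hd.mono
  · apply key
    intro i s hs hsT
    by_contra hi
    exact (hcon i s hs).2 hi hsT
  · apply key
    intro i s hs hsT hi
    exact hsT ((hcon i s hs).1 hi)

end Pool.Agent.Mono.NV4

namespace Pool.Agent.Mono

theorem stmt_NV4 : Stmt_NV4 := by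
  classical
  intro ι κ _ _ _ _ l _ hspan hconn g hg σ hσ
  obtain ⟨β, a, ha, hsp, hli⟩ := exists_linearIndependent' ℂ l
  have : Finite β := Finite.of_injective a ha
  have : Fintype β := Fintype.ofFinite β
  let b : Module.Basis β ℂ (ι → ℂ) := Module.Basis.mk hli (by rw [hsp, hspan])
  have hab : ∀ i, b i = l (a i) := fun i => Module.Basis.mk_apply _ _ i
  let e : β ⊕ {k // k ∉ Set.range a} ≃ κ :=
    ((Equiv.ofInjective a ha).sumCongr (Equiv.refl _)).trans (Equiv.Set.sumCompl (Set.range a))
  have he1 : ∀ i, e (Sum.inl i) = a i := fun i => rfl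
  have he2 : ∀ s, e (Sum.inr s) = s.1 := fun s => rfl
  have hR := NV4.connected_conn hconn b a hab e he1 he2
  by_cases hS : Nonempty {k // k ∉ Set.range a}
  · obtain ⟨s1⟩ := hS
    have h := NV4.core_dense hR s1 (MvPolynomial.rename e.symm g) ?_ (fun z => σ (e z)) ?_
    · rw [MvPolynomial.eval_rename] at h
      have h2 : (fun z => σ (e z)) ∘ e.symm = σ := by
        funext k
        simp
      rw [h2] at h
      exact h
    · intro y γ
      rw [MvPolynomial.eval_rename]
      -- realise `y`
      let φ : (ι → ℂ) →ₗ[ℂ] ℂ := b.constr ℂ y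
      have hφb : ∀ i, φ (b i) = y i := fun i => b.constr_basis ℂ y i
      have hφ : ∀ v : ι → ℂ, ∑ j, v j * φ (Pi.single j 1) = φ v := by
        intro v
        conv_rhs => rw [← Finset.univ_sum_single v]
        rw [map_sum]
        refine Finset.sum_congr rfl fun z _ => ?_
        have : Pi.single z (v z) = v z • (Pi.single z 1 : ι → ℂ) := by
          rw [← Pi.single_smul]; simp
        rw [this, map_smul, smul_eq_mul]
      have hrepr : ∀ v : ι → ℂ, ∑ i, b.repr v i • b i = v := fun v => b.sum_repr v
      let c : κ → ℂ := fun k => Sum.elim (fun i => -∑ s : {k // k ∉ Set.range a},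
        γ s * b.repr (l s.1) i) γ (e.symm k)
      have hc1 : ∀ i, c (e (Sum.inl i)) = -∑ s : {k // k ∉ Set.range a},
          γ s * b.repr (l s.1) i := fun i => by simp [c]
      have hc2 : ∀ s, c (e (Sum.inr s)) = γ s := fun s => by simp [c]
      have hc : ∑ k, c k • l k = 0 := by
        rw [← Equiv.sum_comp e, Fintype.sum_sum_type]
        simp only [hc1, hc2]
        simp only [he1, he2, ← hab]
        conv_lhs =>
          enter [2, 2, s]
          rw [← hrepr (l s.1)]
        simp only [neg_smul, Finset.sum_smul, Finset.smul_sum, mul_smul, Finset.sum_neg_distrib]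
        rw [Finset.sum_comm, neg_add_cancel]
      have h := hg (fun j => φ (Pi.single j 1)) c (by
        intro j
        have := congrFun hc j
        simpa using this)
      have h2 : (fun k => c k * ∑ i, l k i * φ (Pi.single i 1)) =
          NV4.Psi (fun (s : {k // k ∉ Set.range a}) i => b.repr (l s.1) i) y γ ∘ e.symm := by
        funext k
        obtain ⟨z, rfl⟩ := e.surjective k
        rw [hφ]
        rcases z with i | s
        · rw [Function.comp, Equiv.symm_apply_apply, hc1, he1, ← hab, hφb]
          rfl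
        · rw [Function.comp, Equiv.symm_apply_apply, hc2, he2]
          conv_lhs => rw [← hrepr (l s.1)]
          rw [map_sum]
          simp [hφb, NV4.Psi]
      rw [← h2]
      exact h
    · rw [← hσ]
      exact Equiv.sum_comp e σ
  · have hsurj : Function.Surjective a := by
      intro k
      by_contra hk
      exact hS ⟨⟨k, hk⟩⟩
    have hlin : LinearIndependent ℂ l :=
      (linearIndependent_equiv (Equiv.ofBijective a ⟨ha, hsurj⟩)).1 hli
    have hσ0 : ∀ k, σ k = 0 := by
      intro k
      have hall : ∀ k', k' = k := by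
        by_contra hcon
        push Not at hcon
        obtain ⟨k', hk'⟩ := hcon
        exact hconn {k} ⟨k, rfl⟩ ⟨k', hk'⟩ (hlin.disjoint_span_image disjoint_compl_right)
      rw [← hσ]
      symm
      apply Finset.sum_eq_single k
      · intro k' _ h
        exact absurd (hall k') h
      · simp
    have h := hg 0 0 (by simp)
    have h2 : σ = fun k => (0 : κ → ℂ) k * ∑ i, l k i * (0 : ι → ℂ) i := by
      funext k
      simp [hσ0]
    rw [h2]
    exact h

end Pool.Agent.Mono
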