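import Pool.Agent.Work.Monodromy.Interface2

/-!
# Psi: coordinates in one variable at a fixed point
-/

namespace Pool.Agent.Mono

namespace PsiAux

open PowerSeries

section hensel
variable {R : Type*} [CommRing R]

/-- fixed points of contractions of `X R[[X]]` -/
theorem fixed (Φ : PowerSeries R → PowerSeries R)
    (h1 : ∀ f, (X : PowerSeries R) ∣ f → (X : PowerSeries R) ∣ Φ f)
    (h2 : ∀ f g (n : ℕ), (X : PowerSeries R) ∣ f → (X : PowerSeries R) ∣ g →
      (X : PowerSeries R) ^ n ∣ f - g → (X : PowerSeries R) ^ (n + 1) ∣ Φ f - Φ g) :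
    ∃ f, (X : PowerSeries R) ∣ f ∧ Φ f = f := by
  set s : ℕ → PowerSeries R := fun k => Φ^[k] 0 with hs
  have hsucc : ∀ k, s (k + 1) = Φ (s k) := by
    intro k; rw [hs]; simp only [Function.iterate_succ_apply']
  have hX : ∀ k, (X : PowerSeries R) ∣ s k := by
    intro k
    induction k with
    | zero => rw [hs]; simp
    | succ k ih => rw [hsucc]; exact h1 _ ih
  have hstep : ∀ k, (X : PowerSeries R) ^ k ∣ s (k + 1) - s k := by
    intro k
    induction k with
    | zero => simp
    | succ k ih =>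
      rw [hsucc (k + 1), hsucc k]
      refine h2 _ _ _ ?_ (hX _) ?_
      · rw [← hsucc]; exact hX _
      · rw [← hsucc]; exact ih
  have hcoef : ∀ n k, n < k → coeff n (s k) = coeff n (s (n + 1)) := by
    intro n k hk
    obtain ⟨j, rfl⟩ := Nat.exists_eq_add_of_lt hk
    induction j with
    | zero => rfl
    | succ j ih =>
      have h3 := (X_pow_dvd_iff.1 (hstep (n + j + 1))) n (by omega)
      rw [map_sub, sub_eq_zero] at h3
      rw [← ih (by omega), ← h3]
      rfl
  set f : PowerSeries R := PowerSeries.mk fun n => coeff n (s (n + 1)) with hf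
  have hfk : ∀ k, (X : PowerSeries R) ^ k ∣ f - s k := by
    intro k
    rw [X_pow_dvd_iff]
    intro n hn
    rw [map_sub, hf, coeff_mk, hcoef n k hn, sub_self]
  have hXf : (X : PowerSeries R) ∣ f := by
    have h3 := dvd_add (hfk 1 |> fun h => (pow_one (X : PowerSeries R)) ▸ h) (hX 1)
    rwa [sub_add_cancel] at h3
  refine ⟨f, hXf, ?_⟩
  rw [← sub_eq_zero]
  ext n
  have h3 : (X : PowerSeries R) ^ (n + 1) ∣ Φ f - f := by
    have h4 : (X : PowerSeries R) ^ (n + 1) ∣ Φ f - Φ (s n) := h2 _ _ _ hXf (hX n) (hfk n)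
    have h5 := hfk (n + 1)
    rw [hsucc] at h5
    have h6 : Φ f - f = (Φ f - Φ (s n)) - (f - Φ (s n)) := by ring
    rw [h6]
    exact dvd_sub h4 h5
  rw [map_zero]
  exact (X_pow_dvd_iff.1 h3) n (Nat.lt_succ_self n)

/-- Hensel's lemma for `R[[X]]` -/
theorem hensel (G : Polynomial (PowerSeries R)) (v0 : PowerSeries R) (u : Rˣ)
    (h0 : (X : PowerSeries R) ∣ G.eval v0)
    (h1 : (X : PowerSeries R) ∣ G.derivative.eval v0 - C (u : R)) :
    ∃ v, (X : PowerSeries R) ∣ v - v0 ∧ G.eval v = 0 := by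
  obtain ⟨f, hf1, hf2⟩ := fixed (fun f => f - C ((u⁻¹ : Rˣ) : R) * G.eval (v0 + f))
    (by
      intro f hf
      refine dvd_sub hf (Dvd.dvd.mul_left ?_ _)
      have h2 : (v0 + f) - v0 ∣ G.eval (v0 + f) - G.eval v0 :=
        Polynomial.sub_dvd_eval_sub _ _ _
      rw [add_sub_cancel_left] at h2
      have h3 := dvd_add (hf.trans h2) h0
      rwa [sub_add_cancel] at h3)
    (by
      intro f g n hf hg hfg
      obtain ⟨k, hk⟩ := Polynomial.binomExpansion G (v0 + g) (f - g)
      have e1 : v0 + g + (f - g) = v0 + f := by ring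
      rw [e1] at hk
      have e2 : (f - C ((u⁻¹ : Rˣ) : R) * G.eval (v0 + f)) -
          (g - C ((u⁻¹ : Rˣ) : R) * G.eval (v0 + g)) =
          (f - g) * (1 - C ((u⁻¹ : Rˣ) : R) * (G.derivative.eval (v0 + g) + k * (f - g))) := by
        rw [hk]; ring
      rw [e2, pow_succ]
      refine mul_dvd_mul hfg ?_
      have h2 : (v0 + g) - v0 ∣ G.derivative.eval (v0 + g) - G.derivative.eval v0 :=
        Polynomial.sub_dvd_eval_sub _ _ _
      rw [add_sub_cancel_left] at h2
      have h3 : (X : PowerSeries R) ∣ G.derivative.eval (v0 + g) - C (u : R) := by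
        have := dvd_add (hg.trans h2) h1
        rwa [sub_add_sub_cancel] at this
      have h4 : (X : PowerSeries R) ∣ k * (f - g) := Dvd.dvd.mul_left (dvd_sub hf hg) _
      have e3 : 1 - C ((u⁻¹ : Rˣ) : R) * (G.derivative.eval (v0 + g) + k * (f - g)) =
          -(C ((u⁻¹ : Rˣ) : R) * ((G.derivative.eval (v0 + g) - C (u : R)) + k * (f - g))) := by
        have h5 : C ((u⁻¹ : Rˣ) : R) * C (u : R) = (1 : PowerSeries R) := by
          rw [← map_mul, Units.inv_mul, map_one]
        linear_combination (-1 : PowerSeries R) * h5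
      rw [e3, dvd_neg]
      exact Dvd.dvd.mul_left (dvd_add h3 h4) _)
  refine ⟨v0 + f, by rwa [add_sub_cancel_left], ?_⟩
  have h2 : C ((u⁻¹ : Rˣ) : R) * G.eval (v0 + f) = 0 := by linear_combination -hf2
  have h3 : C (u : R) * C ((u⁻¹ : Rˣ) : R) = (1 : PowerSeries R) := by
    rw [← map_mul, Units.mul_inv, map_one]
  calc G.eval (v0 + f) = C (u : R) * (C ((u⁻¹ : Rˣ) : R) * G.eval (v0 + f)) := by
        rw [← mul_assoc, h3, one_mul]
    _ = 0 := by rw [h2, mul_zero]

end hensel

end PsiAux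

open PowerSeries in
theorem stmt_Psi : Stmt_Psi := by
  intro p z hp
  set q := p - Polynomial.C (p.eval z) with hq
  have hq0 : q ≠ 0 := by
    intro h
    rw [hq, sub_eq_zero] at h
    rw [h, Polynomial.natDegree_C] at hp
    omega
  set a := q.rootMultiplicity z with ha
  have ha1 : 1 ≤ a := by
    rw [ha, Nat.succ_le_iff, Polynomial.rootMultiplicity_pos hq0, Polynomial.IsRoot, hq]
    simp
  obtain ⟨r, hr, hrz⟩ := Polynomial.exists_eq_pow_rootMultiplicity_mul_and_not_dvd q hq0 z
  rw [← ha] at hr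
  have hrz' : r.eval z ≠ 0 := by
    rw [Polynomial.dvd_iff_isRoot] at hrz
    exact hrz
  obtain ⟨ρ, hρ⟩ := IsAlgClosed.exists_pow_nat_eq (r.eval z)⁻¹ (by omega : 0 < a)
  have hρ0 : ρ ≠ 0 := by
    rintro rfl
    rw [zero_pow (by omega)] at hρ
    exact inv_ne_zero hrz' hρ.symm
  set rX : Polynomial (PowerSeries ℂ) := (r.map (C : ℂ →+* PowerSeries ℂ)).comp
    (Polynomial.C (C z) + Polynomial.C (X : PowerSeries ℂ) * Polynomial.X) with hrX
  have hrXe : ∀ v : PowerSeries ℂ, rX.eval v = Polynomial.aeval (C z + X * v) r := by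
    intro v
    rw [hrX, Polynomial.eval_comp, Polynomial.eval_map, Polynomial.aeval_def]
    simp only [Polynomial.eval_add, Polynomial.eval_C, Polynomial.eval_mul, Polynomial.eval_X]
    rfl
  have hmodr : ∀ v : PowerSeries ℂ, (X : PowerSeries ℂ) ∣ rX.eval v - C (r.eval z) := by
    intro v
    rw [hrXe]
    have h1 : (C z + X * v) - C z ∣ (r.map (C : ℂ →+* PowerSeries ℂ)).eval (C z + X * v) -
        (r.map (C : ℂ →+* PowerSeries ℂ)).eval (C z) := Polynomial.sub_dvd_eval_sub _ _ _
    rw [add_sub_cancel_left, Polynomial.eval_map, Polynomial.eval_map,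
      Polynomial.eval₂_at_apply] at h1
    rw [Polynomial.aeval_def]
    exact (dvd_mul_right (X : PowerSeries ℂ) v).trans h1
  set G : Polynomial (PowerSeries ℂ) := Polynomial.X ^ a * rX - 1 with hG
  have hu : (a : ℂ) * ρ ^ (a - 1) * r.eval z ≠ 0 := by
    refine mul_ne_zero (mul_ne_zero ?_ (pow_ne_zero _ hρ0)) hrz'
    exact_mod_cast (by omega : a ≠ 0)
  have hG0 : (X : PowerSeries ℂ) ∣ G.eval (C ρ) := by
    rw [hG]
    simp only [Polynomial.eval_sub, Polynomial.eval_mul, Polynomial.eval_pow, Polynomial.eval_X,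
      Polynomial.eval_one]
    have h1 : (C ρ) ^ a * rX.eval (C ρ) - 1 = (C ρ) ^ a * (rX.eval (C ρ) - C (r.eval z)) := by
      have h2 : (C ρ : PowerSeries ℂ) ^ a * C (r.eval z) = 1 := by
        rw [← map_pow, hρ, ← map_mul, inv_mul_cancel₀ hrz', map_one]
      linear_combination h2
    rw [h1]
    exact Dvd.dvd.mul_left (hmodr _) _
  have hG1 : (X : PowerSeries ℂ) ∣ G.derivative.eval (C ρ) -
      C ((Units.mk0 _ hu : ℂˣ) : ℂ) := by
    have hd : (X : PowerSeries ℂ) ∣ rX.derivative.eval (C ρ) := by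
      rw [hrX, Polynomial.derivative_comp]
      simp
    rw [hG]
    simp only [Polynomial.derivative_sub, Polynomial.derivative_mul, Polynomial.derivative_X_pow,
      Polynomial.derivative_one, sub_zero, Polynomial.eval_add, Polynomial.eval_mul,
      Polynomial.eval_pow, Polynomial.eval_X, Units.val_mk0, Polynomial.eval_C]
    have h1 : C (a : ℂ) * C ρ ^ (a - 1) * rX.eval (C ρ) + C ρ ^ a * rX.derivative.eval (C ρ) -
        C ((a : ℂ) * ρ ^ (a - 1) * r.eval z) =
        C (a : ℂ) * C ρ ^ (a - 1) * (rX.eval (C ρ) - C (r.eval z)) +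
          C ρ ^ a * rX.derivative.eval (C ρ) := by
      rw [map_mul, map_mul, map_pow]
      ring
    have h2 : ((a : PowerSeries ℂ)) = C (a : ℂ) := by simp
    rw [h2, h1]
    exact dvd_add (Dvd.dvd.mul_left (hmodr _) _) (Dvd.dvd.mul_left hd _)
  obtain ⟨v, hv1, hv2⟩ := PsiAux.hensel G (C ρ) (Units.mk0 _ hu) hG0 hG1
  refine ⟨X * v, by simp, ?_, ?_⟩
  · rw [show (1 : ℕ) = 0 + 1 from rfl, coeff_succ_X_mul]
    intro h
    rw [X_dvd_iff, map_sub, constantCoeff_C, sub_eq_zero, ← coeff_zero_eq_constantCoeff_apply, h]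
      at hv1
    exact hρ0 hv1.symm
  · have h1 : Polynomial.aeval (C z + X * v) p = C (p.eval z) +
        Polynomial.aeval (C z + X * v) q := by
      rw [hq, map_sub, Polynomial.aeval_C]
      have : algebraMap ℂ (PowerSeries ℂ) (p.eval z) = C (p.eval z) := rfl
      rw [this]
      ring
    rw [h1, hr]
    congr 1
    rw [map_mul, map_pow, map_sub, Polynomial.aeval_X, Polynomial.aeval_C]
    have h2 : algebraMap ℂ (PowerSeries ℂ) z = C z := rfl
    rw [h2, add_sub_cancel_left, mul_pow, ← hrXe]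
    rw [hG] at hv2
    simp only [Polynomial.eval_sub, Polynomial.eval_mul, Polynomial.eval_pow, Polynomial.eval_X,
      Polynomial.eval_one] at hv2
    rw [mul_assoc, sub_eq_zero.1 hv2, mul_one]

end Pool.Agent.Mono
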