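import Pool.Agent.Work.Monodromy.Psi

/-!
# PsiV: coordinates in one variable at a variable noncritical point
-/

namespace Pool.Agent.Mono

open PowerSeries in
theorem stmt_PsiV : Stmt_PsiV := by
  intro p
  -- the universal equation over `R = ℂ[Z]`
  set d := p.natDegree with hd
  set b : ℕ → Polynomial ℂ := fun m => Polynomial.hasseDeriv m p *
    (Polynomial.derivative p) ^ (m - 2) with hb
  set G : Polynomial (PowerSeries (Polynomial ℂ)) :=
    Polynomial.X + ∑ m ∈ Finset.Icc 2 d, Polynomial.C (C (b m)) * Polynomial.X ^ m -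
      Polynomial.C X with hG
  have hGe : ∀ v : PowerSeries (Polynomial ℂ), G.eval v =
      v + ∑ m ∈ Finset.Icc 2 d, C (b m) * v ^ m - X := by
    intro v
    rw [hG]
    simp only [Polynomial.eval_sub, Polynomial.eval_add, Polynomial.eval_X, Polynomial.eval_C,
      Polynomial.eval_finsetSum, Polynomial.eval_mul, Polynomial.eval_pow]
  have hG0 : (X : PowerSeries (Polynomial ℂ)) ∣ G.eval 0 := by
    rw [hGe]
    have : ∑ m ∈ Finset.Icc 2 d, C (b m) * (0 : PowerSeries (Polynomial ℂ)) ^ m = 0 := by
      apply Finset.sum_eq_zero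
      intro m hm
      rw [Finset.mem_Icc] at hm
      rw [zero_pow (by omega), mul_zero]
    rw [this, add_zero, zero_sub, dvd_neg]
  have hG1 : (X : PowerSeries (Polynomial ℂ)) ∣ G.derivative.eval 0 -
      C (((1 : (Polynomial ℂ)ˣ) : Polynomial ℂ)) := by
    have : G.derivative.eval 0 = 1 := by
      rw [hG]
      simp only [Polynomial.derivative_sub, Polynomial.derivative_add, Polynomial.derivative_X,
        Polynomial.derivative_sum, Polynomial.derivative_mul, Polynomial.derivative_C, zero_mul,
        zero_add, sub_zero, Polynomial.derivative_X_pow, Polynomial.eval_add,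
        Polynomial.eval_one, Polynomial.eval_finsetSum, Polynomial.eval_mul, Polynomial.eval_pow,
        Polynomial.eval_X, Polynomial.eval_C]
      rw [Finset.sum_eq_zero, add_zero]
      intro m hm
      rw [Finset.mem_Icc] at hm
      rw [zero_pow (by omega), mul_zero, mul_zero]
    rw [this, Units.val_one, map_one, sub_self]
    exact dvd_zero _
  obtain ⟨χ, hχ1, hχ2⟩ := PsiAux.hensel G 0 1 hG0 hG1
  rw [sub_zero] at hχ1
  rw [hGe] at hχ2
  refine ⟨fun n => coeff n χ, ?_⟩
  intro z hz ψ
  set α := p.derivative.eval z with hα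
  -- the specialisation
  set θ : PowerSeries (Polynomial ℂ) →+* PowerSeries ℂ :=
    (rescale ((α ^ 2)⁻¹)).comp (map (Polynomial.evalRingHom z)) with hθ
  have hθC : ∀ r : Polynomial ℂ, θ (C r) = C (r.eval z) := by
    intro r
    rw [hθ, RingHom.comp_apply, map_C]
    ext n
    rw [coeff_rescale, coeff_C]
    split_ifs with hn
    · rw [hn, pow_zero, one_mul, coeff_zero_C]; rfl
    · rw [mul_zero, coeff_C, if_neg hn]
  have hθX : θ X = C ((α ^ 2)⁻¹) * X := by
    rw [hθ]
    simp [rescale_X]
  have hθc : ∀ n, coeff n (θ χ) = ((α ^ 2)⁻¹) ^ n * (coeff n χ).eval z := by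
    intro n
    rw [hθ]
    simp [coeff_rescale]
  have hψ : ψ = C α * θ χ := by
    ext n
    rw [coeff_C_mul, hθc]
    change coeff n (PowerSeries.mk fun n => if n = 0 then 0 else
      (coeff n χ).eval z / α ^ (2 * n - 1)) = _
    rw [coeff_mk]
    split_ifs with hn
    · subst hn
      rw [X_dvd_iff, ← coeff_zero_eq_constantCoeff_apply] at hχ1
      rw [hχ1]
      simp
    · obtain ⟨n, rfl⟩ := Nat.exists_eq_succ_of_ne_zero hn
      rw [show 2 * n.succ - 1 = 2 * n + 1 by omega]
      rw [inv_pow, ← pow_mul]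
      field_simp
      rw [Nat.succ_eq_add_one]
      ring
  have h3 := congrArg θ hχ2
  rw [map_sub, map_add, map_sum, map_zero, hθX] at h3
  simp only [map_mul, map_pow, hθC] at h3
  -- multiply by `α ^ 2`
  have hCα : C α * C α⁻¹ = (1 : PowerSeries ℂ) := by
    rw [← map_mul, mul_inv_cancel₀ hz, map_one]
  have h4 : C α * ψ + ∑ m ∈ Finset.Icc 2 d, C ((Polynomial.hasseDeriv m p).eval z) * ψ ^ m
      = X := by
    have h5 : C (α ^ 2) * θ χ = C α * ψ := by
      rw [hψ, map_pow]; ring
    have h6 : ∀ m ∈ Finset.Icc 2 d, C (α ^ 2) * (C ((b m).eval z) * θ χ ^ m) =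
        C ((Polynomial.hasseDeriv m p).eval z) * ψ ^ m := by
      intro m hm
      rw [Finset.mem_Icc] at hm
      have h7 : (b m).eval z = (Polynomial.hasseDeriv m p).eval z * α ^ (m - 2) := by
        rw [hb]
        simp only [Polynomial.eval_mul, Polynomial.eval_pow]
        rfl
      rw [h7, hψ, mul_pow, map_mul]
      have h8 : (C α : PowerSeries ℂ) ^ m = C (α ^ 2) * C (α ^ (m - 2)) := by
        rw [← map_mul, ← pow_add, ← map_pow]
        congr 2
        omega
      rw [h8]
      ring
    have h9 : C (α ^ 2) * (C ((α ^ 2)⁻¹) * X) = (X : PowerSeries ℂ) := by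
      rw [← mul_assoc, ← map_mul, mul_inv_cancel₀ (pow_ne_zero _ hz), map_one, one_mul]
    rw [← h5, ← Finset.sum_congr rfl h6, ← Finset.mul_sum]
    linear_combination C (α ^ 2) * h3 + h9
  -- Taylor expansion
  have h5 : Polynomial.aeval (C z + ψ) p = C (p.eval z) + X := by
    have e1 : Polynomial.aeval (C z + ψ) p = Polynomial.aeval ψ (Polynomial.taylor z p) := by
      rw [Polynomial.taylor_apply, Polynomial.aeval_comp]
      congr 2
      simp only [map_add, Polynomial.aeval_X, Polynomial.aeval_C]
      rw [add_comm]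
      rfl
    rw [e1, Polynomial.aeval_eq_sum_range' (n := d + 2)]
    · rw [Finset.sum_range_succ' _ (d + 1), Finset.sum_range_succ' _ d]
      simp only [Polynomial.taylor_coeff, pow_zero, zero_add, pow_one]
      rw [Polynomial.hasseDeriv_zero', Polynomial.hasseDeriv_one']
      have e2 : ∑ m ∈ Finset.Icc 2 d, C ((Polynomial.hasseDeriv m p).eval z) * ψ ^ m =
          ∑ m ∈ Finset.range d, (Polynomial.hasseDeriv (m + 1 + 1) p).eval z •
            ψ ^ (m + 1 + 1) := by
        rw [Finset.range_eq_Ico, Finset.sum_Ico_add' (fun m =>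
          (Polynomial.hasseDeriv m p).eval z • ψ ^ m) 0 d 2]
        have e3 : ∀ m, C ((Polynomial.hasseDeriv m p).eval z) * ψ ^ m =
            (Polynomial.hasseDeriv m p).eval z • ψ ^ m := by
          intro m
          rw [smul_eq_C_mul]
        simp only [e3]
        apply Finset.sum_subset
        · intro m hm
          rw [Finset.mem_Icc] at hm
          rw [Finset.mem_Ico]
          omega
        · intro m hm hm'
          rw [Finset.mem_Ico] at hm
          rw [Finset.mem_Icc] at hm'
          rw [Polynomial.hasseDeriv_eq_zero_of_lt_natDegree p m (by omega),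
            Polynomial.eval_zero, zero_smul]
      rw [← e2, smul_eq_C_mul, smul_eq_C_mul, mul_one, ← h4]
      ring
    · rw [Polynomial.natDegree_taylor]
      omega
  refine ⟨?_, h5⟩
  have e1 : (C z + ψ) - C z ∣ (p.map (C : ℂ →+* PowerSeries ℂ)).eval (C z + ψ) -
        (p.map (C : ℂ →+* PowerSeries ℂ)).eval (C z) := Polynomial.sub_dvd_eval_sub _ _ _
  rw [add_sub_cancel_left, Polynomial.eval_map, Polynomial.eval_map,
    Polynomial.eval₂_at_apply] at e1
  have e2 : Polynomial.eval₂ C (C z + ψ) p = C (p.eval z) + X := by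
    rw [← h5, Polynomial.aeval_def]; rfl
  rw [e2, add_sub_cancel_left] at e1
  obtain ⟨g, hg⟩ := e1
  intro h0
  have h6 := congrArg (coeff 1) hg
  have h7 : coeff 0 ψ = 0 := by
    change coeff 0 (PowerSeries.mk fun n => if n = 0 then 0 else
      (coeff n χ).eval z / α ^ (2 * n - 1)) = 0
    rw [coeff_mk, if_pos rfl]
  rw [coeff_one_X, coeff_mul] at h6
  rw [Finset.Nat.sum_antidiagonal_eq_sum_range_succ (fun i j => coeff i ψ * coeff j g)] at h6
  rw [Finset.sum_range_succ, Finset.sum_range_one, h7, h0] at h6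
  simp at h6

end Pool.Agent.Mono
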