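import Pool.Agent.Work.Monodromy.Lin

/-!
# Specialisation `T = u^{-s}`, `u → 1`
-/

namespace Pool.Agent.Mono

theorem geo_mul {R : Type} [CommRing R] (Li : R) (q : ℕ × ℕ) (hq : 1 ≤ q.1) :
    (1 - PowerSeries.C (Li ^ q.2) * PowerSeries.X ^ q.1) * geo Li q = 1 := by
  ext k
  rw [sub_mul, one_mul, map_sub, mul_assoc, PowerSeries.coeff_C_mul, PowerSeries.coeff_X_pow_mul',
    PowerSeries.coeff_one, geo, PowerSeries.coeff_mk]
  rcases Nat.lt_or_ge k q.1 with h | h
  · rw [if_neg (show ¬ q.1 ≤ k by omega), mul_zero, sub_zero]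
    rcases Nat.eq_zero_or_pos k with rfl | h0
    · simp
    · rw [if_neg, if_neg (by omega)]
      intro hd
      exact absurd (Nat.le_of_dvd h0 hd) (by omega)
  · rw [if_pos h, PowerSeries.coeff_mk, if_neg (show k ≠ 0 by omega)]
    have h1 : q.1 ∣ k - q.1 ↔ q.1 ∣ k := by
      constructor
      · intro hd
        have := Dvd.dvd.add hd (dvd_refl q.1)
        rwa [Nat.sub_add_cancel h] at this
      · intro hd
        exact Nat.dvd_sub hd (dvd_refl q.1)
    have h2 : k / q.1 = (k - q.1) / q.1 + 1 := by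
      conv_lhs => rw [← Nat.sub_add_cancel h]
      rw [Nat.add_div_right _ (by omega)]
    by_cases hd : q.1 ∣ k
    · rw [if_pos hd, if_pos (h1.2 hd), h2, ← pow_add, mul_add, mul_one, add_comm q.2, sub_self]
    · rw [if_neg hd, if_neg (fun h => hd (h1.1 h)), mul_zero, sub_zero]

theorem Xinv_pow_ne_one (m : ℕ) (hm : 1 ≤ m) : (RatFunc.X : RatFunc ℚ)⁻¹ ^ m ≠ 1 := by
  intro h
  rw [inv_pow, inv_eq_one] at h
  have h1 : algebraMap (Polynomial ℚ) (RatFunc ℚ) (Polynomial.X ^ m) =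
      algebraMap (Polynomial ℚ) (RatFunc ℚ) 1 := by
    rw [map_pow, RatFunc.algebraMap_X, h, map_one]
  have h2 := RatFunc.algebraMap_injective ℚ h1
  have h3 := congrArg (Polynomial.eval (0 : ℚ)) h2
  rw [Polynomial.eval_pow, Polynomial.eval_X, zero_pow (by omega), Polynomial.eval_one] at h3
  exact zero_ne_one h3

/-- `(u - 1) / (1 - u^{-m}) → 1/m` -/
theorem LimOne_quot (m : ℕ) (hm : 1 ≤ m) :
    LimOne ((RatFunc.X - 1) / (1 - (RatFunc.X : RatFunc ℚ)⁻¹ ^ m)) (1 / (m : ℚ)) := by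
  have h := LimOne.mk_div (Polynomial.X ^ m) (∑ i ∈ Finset.range m, Polynomial.X ^ i)
    (by
      rw [Polynomial.eval_finsetSum]
      simp
      omega)
  have e : (algebraMap (Polynomial ℚ) (RatFunc ℚ)) (Polynomial.X ^ m) /
      (algebraMap (Polynomial ℚ) (RatFunc ℚ)) (∑ i ∈ Finset.range m, Polynomial.X ^ i) =
      (RatFunc.X - 1) / (1 - (RatFunc.X : RatFunc ℚ)⁻¹ ^ m) := by
    have hX : (RatFunc.X : RatFunc ℚ) ≠ 0 := RatFunc.X_ne_zero
    have hne : (1 : RatFunc ℚ) - (RatFunc.X : RatFunc ℚ)⁻¹ ^ m ≠ 0 := by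
      intro h
      exact Xinv_pow_ne_one m hm (sub_eq_zero.1 h).symm
    have hs : (algebraMap (Polynomial ℚ) (RatFunc ℚ))
        (∑ i ∈ Finset.range m, Polynomial.X ^ i) ≠ 0 := by
      intro h
      have h2 := RatFunc.algebraMap_injective ℚ (h.trans (map_zero _).symm)
      have h3 := congrArg (Polynomial.eval (1 : ℚ)) h2
      rw [Polynomial.eval_finsetSum] at h3
      simp at h3
      omega
    rw [div_eq_div_iff hs hne]
    have hg : (algebraMap (Polynomial ℚ) (RatFunc ℚ))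
        (∑ i ∈ Finset.range m, Polynomial.X ^ i) * (RatFunc.X - 1) = RatFunc.X ^ m - 1 := by
      have := geom_sum_mul (Polynomial.X : Polynomial ℚ) m
      have h2 := congrArg (algebraMap (Polynomial ℚ) (RatFunc ℚ)) this
      rw [map_mul, map_sub, map_sub, map_pow, RatFunc.algebraMap_X, map_one] at h2
      exact h2
    rw [mul_comm (RatFunc.X - 1), hg, map_pow, RatFunc.algebraMap_X, mul_sub, mul_one, inv_pow,
      mul_inv_cancel₀ (pow_ne_zero _ hX)]
  rw [e] at h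
  have hv : (Polynomial.eval 1 (Polynomial.X ^ m : Polynomial ℚ)) /
      (Polynomial.eval 1 (∑ i ∈ Finset.range m, (Polynomial.X : Polynomial ℚ) ^ i)) =
      1 / (m : ℚ) := by
    rw [Polynomial.eval_finsetSum]
    simp
  rw [hv] at h
  exact h

/-- the linear polynomial `ν + N s` -/
noncomputable def linQ (q : ℕ × ℕ) : Polynomial ℚ :=
  Polynomial.C (q.2 : ℚ) + Polynomial.C (q.1 : ℚ) * Polynomial.X

theorem linQ_ne (q : ℕ × ℕ) (h1 : 1 ≤ q.1) : linQ q ≠ 0 := by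
  intro h
  have := congrArg (fun p => Polynomial.coeff p 1) h
  simp [linQ] at this
  omega

theorem linQ_eval (q : ℕ × ℕ) (h2 : 1 ≤ q.2) (s : ℕ) : (linQ q).eval (s : ℚ) ≠ 0 := by
  simp only [linQ, Polynomial.eval_add, Polynomial.eval_C, Polynomial.eval_mul, Polynomial.eval_X]
  positivity

theorem IsLim_geo (q : ℕ × ℕ) (h1 : 1 ≤ q.1) (h2 : 1 ≤ q.2) :
    IsLim (PowerSeries.C (RatFunc.X - 1) * geo (RatFunc.X : RatFunc ℚ)⁻¹ q)
      (algebraMap (Polynomial ℚ) (RatFunc ℚ) 1 / algebraMap (Polynomial ℚ) (RatFunc ℚ) (linQ q)) := by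
  have hdvd := RatFunc.denom_div_dvd 1 (linQ q)
  refine ⟨Polynomial.C (RatFunc.X - 1),
    1 - Polynomial.C ((RatFunc.X : RatFunc ℚ)⁻¹ ^ q.2) * Polynomial.X ^ q.1, ?_, ?_, ?_⟩
  · rw [Polynomial.coeff_sub, Polynomial.coeff_C_mul, Polynomial.coeff_X_pow,
      if_neg (by omega), mul_zero, sub_zero, Polynomial.coeff_one_zero]
    exact one_ne_zero
  · have := geo_mul (RatFunc.X : RatFunc ℚ)⁻¹ q h1
    push_cast
    rw [mul_left_comm, this, mul_one]
  · intro s
    have e : Polynomial.eval ((RatFunc.X : RatFunc ℚ)⁻¹ ^ s)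
        (1 - Polynomial.C ((RatFunc.X : RatFunc ℚ)⁻¹ ^ q.2) * Polynomial.X ^ q.1) =
        1 - (RatFunc.X : RatFunc ℚ)⁻¹ ^ (q.2 + q.1 * s) := by
      rw [Polynomial.eval_sub, Polynomial.eval_mul, Polynomial.eval_C, Polynomial.eval_pow,
        Polynomial.eval_X, Polynomial.eval_one, ← pow_mul, ← pow_add, mul_comm s]
    have hd : (RatFunc.denom (algebraMap (Polynomial ℚ) (RatFunc ℚ) 1 /
        algebraMap (Polynomial ℚ) (RatFunc ℚ) (linQ q))).eval (s : ℚ) ≠ 0 := by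
      obtain ⟨r, hr⟩ := hdvd
      intro h
      apply linQ_eval q h2 s
      rw [hr, Polynomial.eval_mul, h, zero_mul]
    refine ⟨?_, hd, ?_⟩
    · rw [e]
      intro h
      exact Xinv_pow_ne_one _ (by omega) (sub_eq_zero.1 h).symm
    · rw [e, Polynomial.eval_C]
      have hl := LimOne_quot (q.2 + q.1 * s) (by omega)
      have hv : RatFunc.eval (RingHom.id ℚ) (s : ℚ) (algebraMap (Polynomial ℚ) (RatFunc ℚ) 1 /
          algebraMap (Polynomial ℚ) (RatFunc ℚ) (linQ q)) = 1 / ((q.2 + q.1 * s : ℕ) : ℚ) := by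
        set x := algebraMap (Polynomial ℚ) (RatFunc ℚ) 1 /
          algebraMap (Polynomial ℚ) (RatFunc ℚ) (linQ q) with hx
        have hn : RatFunc.num x * linQ q = 1 * RatFunc.denom x := by
          rw [RatFunc.num_mul_eq_mul_denom_iff (linQ_ne q h1)]
        have h3 := congrArg (Polynomial.eval (s : ℚ)) hn
        rw [Polynomial.eval_mul, Polynomial.eval_mul] at h3
        have h4 : (linQ q).eval (s : ℚ) = ((q.2 + q.1 * s : ℕ) : ℚ) := by
          simp [linQ]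
        rw [RatFunc.eval, Polynomial.eval₂_id, Polynomial.eval₂_id, ← h4,
          div_eq_div_iff hd (linQ_eval q h2 s), h3, Polynomial.eval_one]
      rw [hv]
      exact hl

/-- poles of the factors -/
theorem pole_geo (q : ℕ × ℕ) (s : ℂ)
    (h : Polynomial.aeval s (RatFunc.denom (algebraMap (Polynomial ℚ) (RatFunc ℚ) 1 /
        algebraMap (Polynomial ℚ) (RatFunc ℚ) (linQ q))) = 0) : s * q.1 = -(q.2 : ℂ) := by
  obtain ⟨r, hr⟩ := RatFunc.denom_div_dvd 1 (linQ q)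
  have h1 : Polynomial.aeval s (linQ q) = 0 := by
    rw [hr, map_mul, h, zero_mul]
  simp [linQ] at h1
  linear_combination h1

theorem pole_mul {R R' : RatFunc ℚ} {s : ℂ} (h : Polynomial.aeval s (R * R').denom = 0) :
    Polynomial.aeval s R.denom = 0 ∨ Polynomial.aeval s R'.denom = 0 := by
  obtain ⟨r, hr⟩ := RatFunc.denom_mul_dvd R R'
  have := congrArg (Polynomial.aeval s) hr
  rw [map_mul, map_mul, h, zero_mul] at this
  exact mul_eq_zero.1 this

theorem pole_add {R R' : RatFunc ℚ} {s : ℂ} (h : Polynomial.aeval s (R + R').denom = 0) :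
    Polynomial.aeval s R.denom = 0 ∨ Polynomial.aeval s R'.denom = 0 := by
  obtain ⟨r, hr⟩ := RatFunc.denom_add_dvd R R'
  have := congrArg (Polynomial.aeval s) hr
  rw [map_mul, map_mul, h, zero_mul] at this
  exact mul_eq_zero.1 this

theorem spec_prod (l : List (ℕ × ℕ)) (h : ∀ q ∈ l, 1 ≤ q.1 ∧ 1 ≤ q.2) : ∃ R : RatFunc ℚ,
    IsLim (l.map fun q => PowerSeries.C (RatFunc.X - 1) * geo (RatFunc.X : RatFunc ℚ)⁻¹ q).prod R ∧
      ∀ s : ℂ, Polynomial.aeval s R.denom = 0 → ∃ q ∈ l, s * q.1 = -(q.2 : ℂ) := by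
  induction l with
  | nil =>
    refine ⟨1, by simpa using IsLim.one, ?_⟩
    intro s hs
    rw [RatFunc.denom_one] at hs
    simp at hs
  | cons q l ih =>
    obtain ⟨R, h1, h2⟩ := ih (fun p hp => h p (List.mem_cons_of_mem _ hp))
    have hq := h q List.mem_cons_self
    refine ⟨algebraMap (Polynomial ℚ) (RatFunc ℚ) 1 /
      algebraMap (Polynomial ℚ) (RatFunc ℚ) (linQ q) * R, ?_, ?_⟩
    · rw [List.map_cons, List.prod_cons]
      exact (IsLim_geo q hq.1 hq.2).mul h1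
    · intro s hs
      rcases pole_mul hs with h3 | h3
      · exact ⟨q, List.mem_cons_self, pole_geo q s h3⟩
      · obtain ⟨p, hp, e⟩ := h2 s h3
        exact ⟨p, List.mem_cons_of_mem _ hp, e⟩

theorem HodgeMeasure.rat_L (P : HodgeMeasure) : P.rat.L = RatFunc.X := by
  have h : P.rat.L = toRat (P.val (Set.univ : Set (Unit → ℂ))) := rfl
  rw [h, P.line]
  simp [toRat]

theorem spec_term (P : HodgeMeasure) (t : Term) (G : Set (ℕ × ℕ)) (hG : ∀ q ∈ G, 1 ≤ q.1 ∧ 1 ≤ q.2)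
    (ht : t.Ok G) : ∃ R : RatFunc ℚ,
      IsLim (t.ser P.rat (RatFunc.X)⁻¹ (Set.univ : Set (Empty → ℂ)) 1) R ∧
        ∀ s : ℂ, Polynomial.aeval s R.denom = 0 → ∃ q ∈ t.D, s * q.1 = -(q.2 : ℂ) := by
  obtain ⟨R, h1, h2⟩ := spec_prod t.D (fun q hq => hG q (ht.2.2.2 q hq).1)
  have := t.fin
  obtain ⟨p, hp⟩ : ∃ p : Polynomial ℤ,
      cls P.rat t.g (Set.univ : Set (Empty → ℂ)) 1 t.S t.u = toRat p := ⟨_, rfl⟩
  have hc : LimOne (cls P.rat t.g (Set.univ : Set (Empty → ℂ)) 1 t.S t.u *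
      (RatFunc.X : RatFunc ℚ)⁻¹ ^ t.l) (((p.eval 1 : ℤ) : ℚ) * 1 ^ t.l) := by
    rw [hp]
    exact (LimOne.toRat p).mul (LimOne.Xinv.pow _)
  refine ⟨RatFunc.C (((p.eval 1 : ℤ) : ℚ) * 1 ^ t.l) * 1 * R, ?_, ?_⟩
  · rw [Term.ser, P.rat_L]
    exact ((IsLim.C hc).mul (IsLim.Xpow t.c)).mul h1
  · intro s hs
    rcases pole_mul hs with h3 | h3
    · rcases pole_mul h3 with h4 | h4
      · rw [RatFunc.denom_C] at h4
        simp at h4
      · rw [RatFunc.denom_one] at h4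
        simp at h4
    · exact h2 s h3

theorem stmt_Spec : Stmt_Spec := by
  intro P ts G hG hts n
  have key : ∃ R : RatFunc ℚ,
      IsLim ((ts.map fun t => t.ser P.rat (RatFunc.X)⁻¹ (Set.univ : Set (Empty → ℂ)) 1).sum) R ∧
      ∀ s : ℂ, Polynomial.aeval s R.denom = 0 → ∃ t ∈ ts, ∃ q ∈ t.D, s * q.1 = -(q.2 : ℂ) := by
    induction ts with
    | nil =>
      refine ⟨0, by simpa using IsLim.zero, ?_⟩
      intro s hs
      rw [RatFunc.denom_zero] at hs
      simp at hs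
    | cons t ts ih =>
      obtain ⟨R, h1, h2⟩ := ih (fun t' ht' => hts t' (List.mem_cons_of_mem _ ht'))
      obtain ⟨R', h1', h2'⟩ := spec_term P t G hG (hts t List.mem_cons_self)
      refine ⟨R' + R, ?_, ?_⟩
      · rw [List.map_cons, List.sum_cons]
        exact h1'.add h1
      · intro s hs
        rcases pole_add hs with h3 | h3
        · obtain ⟨q, hq, e⟩ := h2' s h3
          exact ⟨t, List.mem_cons_self, q, hq, e⟩
        · obtain ⟨t', ht', q, hq, e⟩ := h2 s h3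
          exact ⟨t', List.mem_cons_of_mem _ ht', q, hq, e⟩
  obtain ⟨R, h1, h2⟩ := key
  refine ⟨RatFunc.C (1 ^ n) * R, ?_, ?_⟩
  · rw [P.rat_L]
    exact (IsLim.C (LimOne.X.pow n)).mul h1
  · intro s hs
    rcases pole_mul hs with h3 | h3
    · rw [RatFunc.denom_C] at h3
      simp at h3
    · exact h2 s h3

end Pool.Agent.Mono
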