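import Pool.Agent.Work.Monodromy.Split2

/-!
# Block Split
-/

set_option autoImplicit false

namespace Pool.Agent.Mono
namespace SplitAux

open MvPolynomial

variable {ι κ : Type} [Fintype ι] [Fintype κ] [DecidableEq ι] [DecidableEq κ]

section main

variable {R : Type} [CommRing R] (μ : MotivicMeasure R) (Li : R)

/-- the volume of a contact set is the sum over the two orders -/
theorem vol_contact (hYC : Stmt_YC) (hYV : Stmt_YV) (hL : μ.L * Li = 1) {E : Type} [Finite E]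
    (e : ℕ) {B : Set (E → ℂ)} (hB : Constructible B) (h : MvPolynomial E ℂ) {D D1 D2 : Data ι κ}
    {I1 I2 : Finset ι} (hD1 : Dep D1 I1) (hD2 : Dep D2 I2) (δ : ι → ℕ)
    (hF : ∀ x, D.F δ x = D1.F δ x * D2.F δ x) (k : ℕ) :
    vol μ Li (contact e B h D δ k) =
      ∑ a ∈ Finset.HasAntidiagonal.antidiagonal k, vol μ Li (C2 e B h D1 D2 δ a.1 a.2) := by
  classical
  have hcyl : ∀ a ∈ Finset.HasAntidiagonal.antidiagonal k,
      IsCyl (fun _ => k + 1) (C2 e B h D1 D2 δ a.1 a.2) := by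
    intro a ha
    rw [Finset.HasAntidiagonal.mem_antidiagonal] at ha
    exact cyl_C2 hYC e hB h hD1 hD2 δ a.1 a.2 _ (fun _ _ => by omega) (fun _ _ => by omega)
  have hc := contact_eq e B h D D1 D2 δ hF k
  have hcyl0 : IsCyl (fun _ => k + 1) (contact e B h D δ k) :=
    cyl_contact hYC e hB h (I := Finset.univ) ⟨fun i hi => absurd (Finset.mem_univ i) hi,
      fun _ _ i hi => absurd (Finset.mem_univ i) hi⟩ δ k _ (fun _ _ => le_rfl)
  have hsec : sec (fun _ => k + 1) (contact e B h D δ k) =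
      ⋃ a ∈ Finset.HasAntidiagonal.antidiagonal k,
        sec (fun _ => k + 1) (C2 e B h D1 D2 δ a.1 a.2) := by
    rw [hc]
    ext v
    simp only [sec, Set.mem_iUnion, Set.mem_ofPred_eq, exists_prop]
  rw [hYV R μ Li hL _ ι _ _ hcyl0, hsec, val_biUnion μ _ _ (fun a ha => (hcyl a ha).2),
    Finset.sum_mul]
  · refine Finset.sum_congr rfl fun a ha => ?_
    rw [hYV R μ Li hL _ ι _ _ (hcyl a ha)]
  · intro a _ b _ hab
    rw [Set.disjoint_left]
    intro v hv1 hv2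
    exact C2_disjoint e B h D1 D2 δ a b hab _ hv1 hv2

/-- the parameter set of the second factor -/
def Bp {E : Type} (B : Set (E → ℂ)) (D2 : Data ι κ) (δ : ι → ℕ) (K : ι → ℕ) (k2 : ℕ) :
    Set (E ⊕ (Σ i, Fin (K i)) → ℂ) :=
  {v | (fun p => v (Sum.inl p)) ∈ B ∧ Ord D2 δ k2 (toArc K fun s => v (Sum.inr s))}

/-- the function of the second factor -/
noncomputable def hp {E : Type} (h : MvPolynomial E ℂ) (D2 : Data ι κ) (δ : ι → ℕ) (K : ι → ℕ)
    (k2 : ℕ) : MvPolynomial (E ⊕ (Σ i, Fin (K i))) ℂ :=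
  rename Sum.inl h * rename Sum.inr (cP D2 δ K k2)

omit [DecidableEq ι] [DecidableEq κ] in
theorem con_Bp (hYC : Stmt_YC) {E : Type} {B : Set (E → ℂ)} (hB : Constructible B)
    (D2 : Data ι κ) (δ : ι → ℕ) (K : ι → ℕ) (k2 : ℕ) : Constructible (Bp B D2 δ K k2) :=
  con_and (con_pre hYC Sum.inl hB) (con_ord D2 δ k2 K Sum.inr)

omit [DecidableEq ι] [DecidableEq κ] in
theorem eval_hp {E : Type} (h : MvPolynomial E ℂ) (D2 : Data ι κ) (δ : ι → ℕ) (K : ι → ℕ)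
    (k2 : ℕ) (v : E ⊕ (Σ i, Fin (K i)) → ℂ) : eval v (hp h D2 δ K k2) =
      eval (fun p => v (Sum.inl p)) h *
        PowerSeries.coeff k2 (D2.F δ (toArc K fun s => v (Sum.inr s))) := by
  rw [hp, map_mul, eval_inl, eval_inr, eval_cP]

/-- splitting an arc -/
def splitEquiv (K2 K1 : ι → ℕ) :
    (Σ i, Fin (K2 i)) ⊕ (Σ i, Fin (K1 i)) ≃ (Σ i, Fin (K2 i + K1 i)) :=
  (Equiv.sigmaSumDistrib _ _).symm.trans (Equiv.sigmaCongrRight fun _ => finSumFinEquiv)

omit [Fintype ι] [DecidableEq ι] in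
theorem splitEquiv_inl (K2 K1 : ι → ℕ) (i : ι) (l : Fin (K2 i)) :
    splitEquiv K2 K1 (Sum.inl ⟨i, l⟩) = ⟨i, Fin.castAdd (K1 i) l⟩ := rfl

omit [Fintype ι] [DecidableEq ι] in
theorem splitEquiv_inr (K2 K1 : ι → ℕ) (i : ι) (l : Fin (K1 i)) :
    splitEquiv K2 K1 (Sum.inr ⟨i, l⟩) = ⟨i, Fin.natAdd (K2 i) l⟩ := rfl

omit [Fintype ι] [DecidableEq ι] in
theorem toArc_inr (K2 K1 : ι → ℕ) (z : (Σ i, Fin (K2 i + K1 i)) → ℂ) (i : ι) (hi : K2 i = 0) :
    toArc K1 (fun s => z (splitEquiv K2 K1 (Sum.inr s))) i = toArc (fun i => K2 i + K1 i) z i := by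
  ext l
  simp only [toArc, PowerSeries.coeff_mk]
  by_cases hl : l < K1 i
  · rw [dif_pos hl, dif_pos (by omega), splitEquiv_inr]
    congr 2
    apply Fin.ext
    simp [hi]
  · rw [dif_neg hl, dif_neg (by omega)]

omit [Fintype ι] [DecidableEq ι] in
theorem toArc_inl (K2 K1 : ι → ℕ) (z : (Σ i, Fin (K2 i + K1 i)) → ℂ) (i : ι) (hi : K1 i = 0) :
    toArc K2 (fun s => z (splitEquiv K2 K1 (Sum.inl s))) i = toArc (fun i => K2 i + K1 i) z i := by
  ext l
  simp only [toArc, PowerSeries.coeff_mk]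
  by_cases hl : l < K2 i
  · rw [dif_pos hl, dif_pos (by omega), splitEquiv_inl]
    congr 2
  · rw [dif_neg hl, dif_neg (by omega)]

/-- the coordinates of `C2` and of a contact set with parameters `Bp` -/
def coordEquiv (E : Type) (K2 K1 : ι → ℕ) :
    ((E ⊕ (Σ i, Fin (K2 i))) ⊕ Unit) ⊕ (Σ i, Fin (K1 i)) ≃
      (E ⊕ Unit) ⊕ (Σ i, Fin (K2 i + K1 i)) where
  toFun x := match x with
    | Sum.inl (Sum.inl (Sum.inl p)) => Sum.inl (Sum.inl p)
    | Sum.inl (Sum.inl (Sum.inr s)) => Sum.inr (splitEquiv K2 K1 (Sum.inl s))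
    | Sum.inl (Sum.inr u) => Sum.inl (Sum.inr u)
    | Sum.inr s => Sum.inr (splitEquiv K2 K1 (Sum.inr s))
  invFun x := match x with
    | Sum.inl (Sum.inl p) => Sum.inl (Sum.inl (Sum.inl p))
    | Sum.inl (Sum.inr u) => Sum.inl (Sum.inr u)
    | Sum.inr s => match (splitEquiv K2 K1).symm s with
      | Sum.inl s => Sum.inl (Sum.inl (Sum.inr s))
      | Sum.inr s => Sum.inr s
  left_inv := by
    rintro (((p | s) | u) | s)
    · rfl
    · simp only [Equiv.symm_apply_apply]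
    · rfl
    · simp only [Equiv.symm_apply_apply]
  right_inv := by
    rintro ((p | u) | s)
    · rfl
    · rfl
    · obtain ⟨s, rfl⟩ := (splitEquiv K2 K1).surjective s
      rcases s with s | s <;> simp only [Equiv.symm_apply_apply]

theorem vol_C2 (hYC : Stmt_YC) (hYV : Stmt_YV) (hL : μ.L * Li = 1) {E : Type} [Finite E]
    (e : ℕ) {B : Set (E → ℂ)} (hB : Constructible B) (h : MvPolynomial E ℂ) {D1 D2 : Data ι κ}
    {I : Finset ι} (hD1 : Dep D1 I) (hD2 : Dep D2 Iᶜ) (δ : ι → ℕ) (k1 k2 : ℕ) :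
    vol μ Li (C2 e B h D1 D2 δ k1 k2) =
      vol μ Li (contact e (Bp B D2 δ (lev Iᶜ k2) k2) (hp h D2 δ (lev Iᶜ k2) k2) D1 δ k1) *
        Li ^ (∑ i, lev Iᶜ k2 i) := by
  have hl1 : ∀ i ∈ I, lev Iᶜ k2 i = 0 := fun i hi => by simp [lev, hi]
  have hl2 : ∀ i ∈ Iᶜ, lev I k1 i = 0 := fun i hi => by
    rw [Finset.mem_compl] at hi
    simp [lev, hi]
  have hl3 : ∀ i ∈ I, lev I k1 i = k1 + 1 := fun i hi => by simp [lev, hi]
  have hl4 : ∀ i ∈ Iᶜ, lev Iᶜ k2 i = k2 + 1 := fun i hi => by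
    simp only [lev, if_pos hi]
  have c1 : IsCyl (fun i => lev Iᶜ k2 i + lev I k1 i) (C2 e B h D1 D2 δ k1 k2) :=
    cyl_C2 hYC e hB h hD1 hD2 δ k1 k2 _ (fun i hi => by rw [hl3 i hi]; omega)
      (fun i hi => by rw [hl4 i hi]; omega)
  have hBp := con_Bp hYC hB D2 δ (lev Iᶜ k2) k2
  have c2 : IsCyl (lev I k1) (contact e (Bp B D2 δ (lev Iᶜ k2) k2)
      (hp h D2 δ (lev Iᶜ k2) k2) D1 δ k1) :=
    cyl_contact hYC e hBp _ hD1 δ k1 _ (fun i hi => by rw [hl3 i hi])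
  rw [hYV R μ Li hL _ ι _ _ c1, hYV R μ Li hL _ ι _ _ c2]
  rw [Finset.sum_add_distrib, pow_add, mul_assoc, mul_comm (Li ^ (∑ i, lev I k1 i)) _]
  congr 1
  apply val_reindex μ (coordEquiv E (lev Iᶜ k2) (lev I k1)) c1.2 c2.2
  intro v
  have e1 : D1.F δ (toArc (lev I k1) fun s =>
      v (Sum.inr (splitEquiv (lev Iᶜ k2) (lev I k1) (Sum.inr s)))) =
      D1.F δ (toArc (fun i => lev Iᶜ k2 i + lev I k1 i) fun s => v (Sum.inr s)) :=
    hD1.F_eq δ _ _ fun i hi => toArc_inr _ _ (fun s => v (Sum.inr s)) i (hl1 i hi)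
  have e2 : D2.F δ (toArc (lev Iᶜ k2) fun s =>
      v (Sum.inr (splitEquiv (lev Iᶜ k2) (lev I k1) (Sum.inl s)))) =
      D2.F δ (toArc (fun i => lev Iᶜ k2 i + lev I k1 i) fun s => v (Sum.inr s)) :=
    hD2.F_eq δ _ _ fun i hi => toArc_inl _ _ (fun s => v (Sum.inr s)) i (hl2 i hi)
  have e3 : ∀ s, coordEquiv E (lev Iᶜ k2) (lev I k1) (Sum.inr s) =
    Sum.inr (splitEquiv (lev Iᶜ k2) (lev I k1) (Sum.inr s)) := fun _ => rfl
  have e4 : ∀ s, coordEquiv E (lev Iᶜ k2) (lev I k1) (Sum.inl (Sum.inl (Sum.inr s))) =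
    Sum.inr (splitEquiv (lev Iᶜ k2) (lev I k1) (Sum.inl s)) := fun _ => rfl
  have e5 : ∀ p, coordEquiv E (lev Iᶜ k2) (lev I k1) (Sum.inl (Sum.inl (Sum.inl p))) =
    Sum.inl (Sum.inl p) := fun _ => rfl
  have e6 : ∀ u, coordEquiv E (lev Iᶜ k2) (lev I k1) (Sum.inl (Sum.inr u)) =
    Sum.inl (Sum.inr u) := fun _ => rfl
  simp only [sec, C2, contact, Bp, Ord, Set.mem_ofPred_eq, eval_hp, e3, e4, e5, e6, e1, e2]
  constructor
  · rintro ⟨h1, ⟨h2, h3⟩, ⟨h4, h5⟩, h6⟩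
    refine ⟨⟨h1, h4, h5⟩, h2, h3, ?_⟩
    rw [h6]
    ring
  · rintro ⟨⟨h1, h4, h5⟩, h2, h3, h6⟩
    refine ⟨h1, ⟨h2, h3⟩, ⟨h4, h5⟩, ?_⟩
    rw [h6]
    ring

/-- the coordinates of the class factor -/
def coordEquiv2 (E σ A : Type) : ((E ⊕ A) ⊕ σ) ⊕ Unit ≃ ((E ⊕ σ) ⊕ Unit) ⊕ A where
  toFun x := match x with
    | Sum.inl (Sum.inl (Sum.inl p)) => Sum.inl (Sum.inl (Sum.inl p))
    | Sum.inl (Sum.inl (Sum.inr a)) => Sum.inr a
    | Sum.inl (Sum.inr s) => Sum.inl (Sum.inl (Sum.inr s))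
    | Sum.inr u => Sum.inl (Sum.inr u)
  invFun x := match x with
    | Sum.inl (Sum.inl (Sum.inl p)) => Sum.inl (Sum.inl (Sum.inl p))
    | Sum.inl (Sum.inl (Sum.inr s)) => Sum.inl (Sum.inr s)
    | Sum.inl (Sum.inr u) => Sum.inr u
    | Sum.inr a => Sum.inl (Sum.inl (Sum.inr a))
  left_inv := by rintro (((p | a) | s) | u) <;> rfl
  right_inv := by rintro (((p | s) | u) | a) <;> rfl

theorem cls_Bp (hYC : Stmt_YC) (hYV : Stmt_YV) (hL : μ.L * Li = 1) {E σ : Type} [Finite E]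
    [Finite σ] (g : ℕ) {B : Set (E → ℂ)} (hB : Constructible B) (h : MvPolynomial E ℂ)
    {S : Set (σ → ℂ)} (hS : Constructible S) (u : MvPolynomial σ ℂ) {D2 : Data ι κ}
    {I : Finset ι} (hD2 : Dep D2 I) (δ : ι → ℕ) (k2 : ℕ) :
    cls μ g (Bp B D2 δ (lev I k2) k2) (hp h D2 δ (lev I k2) k2) S u *
        Li ^ (∑ i, lev I k2 i) =
      vol μ Li (contact g (pset B S) (pmul h u) D2 δ k2) := by
  have hl4 : ∀ i ∈ I, lev I k2 i = k2 + 1 := fun i hi => by
    simp only [lev, if_pos hi]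
  have c2 : IsCyl (lev I k2) (contact g (pset B S) (pmul h u) D2 δ k2) :=
    cyl_contact hYC g (con_pset hYC hB hS) _ hD2 δ k2 _ (fun i hi => by rw [hl4 i hi])
  rw [hYV R μ Li hL _ ι _ _ c2]
  congr 1
  symm
  rw [cls]
  apply val_reindex μ (coordEquiv2 E σ (Σ i, Fin (lev I k2 i))) c2.2
    (con_cover hYC g _ (con_pset hYC (con_Bp hYC hB D2 δ (lev I k2) k2) hS))
  intro v
  have e1 : ∀ p, coordEquiv2 E σ (Σ i, Fin (lev I k2 i)) (Sum.inl (Sum.inl (Sum.inl p))) =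
    Sum.inl (Sum.inl (Sum.inl p)) := fun _ => rfl
  have e2 : ∀ a, coordEquiv2 E σ (Σ i, Fin (lev I k2 i)) (Sum.inl (Sum.inl (Sum.inr a))) =
    Sum.inr a := fun _ => rfl
  have e3 : ∀ s, coordEquiv2 E σ (Σ i, Fin (lev I k2 i)) (Sum.inl (Sum.inr s)) =
    Sum.inl (Sum.inl (Sum.inr s)) := fun _ => rfl
  have e4 : ∀ u, coordEquiv2 E σ (Σ i, Fin (lev I k2 i)) (Sum.inr u) =
    Sum.inl (Sum.inr u) := fun _ => rfl
  simp only [sec, contact, cover, pset, Bp, Ord, Set.mem_ofPred_eq, eval_pmul, eval_hp, e1, e2,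
    e3, e4]
  constructor
  · rintro ⟨⟨h1, h2⟩, h3, h4, h5⟩
    refine ⟨⟨⟨h1, h3, h4⟩, h2⟩, ?_⟩
    rw [h5]
    ring
  · rintro ⟨⟨⟨h1, h3, h4⟩, h2⟩, h5⟩
    refine ⟨⟨h1, h2⟩, h3, h4, ?_⟩
    rw [h5]
    ring

/-- the constant factor of a term -/
noncomputable def Wt (t : Term) : PowerSeries R :=
  PowerSeries.C (Li ^ t.l) * PowerSeries.X ^ t.c *
    (t.D.map fun q => PowerSeries.C (μ.L - 1) * geo Li q).prod

theorem ser_eq (t : Term) {E : Type} [Finite E] (B : Set (E → ℂ)) (h : MvPolynomial E ℂ) :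
    haveI := t.fin
    t.ser μ Li B h = PowerSeries.C (cls μ t.g B h t.S t.u) * Wt μ Li t := by
  simp only [Term.ser, Wt, map_mul]
  ring

/-- the second factor of a term -/
noncomputable def Zt (t : Term) {E : Type} [Finite E] (B : Set (E → ℂ)) (h : MvPolynomial E ℂ)
    (D2 : Data ι κ) (δ : ι → ℕ) : PowerSeries R :=
  haveI := t.fin
  Zs μ Li t.g (pset B t.S) (pmul h t.u) D2 δ

/-- the first factor is expanded -/
theorem Zs_eq (hYC : Stmt_YC) (hYV : Stmt_YV) (hL : μ.L * Li = 1) {E : Type} [Finite E]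
    (e : ℕ) {B : Set (E → ℂ)} (hB : Constructible B) (h : MvPolynomial E ℂ)
    (hh : ∀ p ∈ B, eval p h ≠ 0) {D D1 D2 : Data ι κ}
    {I : Finset ι} (hD1 : Dep D1 I) (hD2 : Dep D2 Iᶜ) (δ : ι → ℕ)
    (hF : ∀ x, D.F δ x = D1.F δ x * D2.F δ x) (ts : List Term) (G : Set (ℕ × ℕ))
    (hts : ∀ t ∈ ts, t.Ok G)
    (hex : ∀ (E : Type) [Finite E] (B : Set (E → ℂ)) (h : MvPolynomial E ℂ), Constructible B →
        (∀ p ∈ B, eval p h ≠ 0) →
          Zs μ Li e B h D1 δ = (ts.map fun t => t.ser μ Li B h).sum) :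
    Zs μ Li e B h D δ = (ts.map fun t => Wt μ Li t * Zt μ Li t B h D2 δ).sum := by
  ext k
  have e1 : PowerSeries.coeff k (Zs μ Li e B h D δ) =
      ∑ a ∈ Finset.HasAntidiagonal.antidiagonal k, (ts.map fun t =>
        PowerSeries.coeff a.1 (Wt μ Li t) * PowerSeries.coeff a.2 (Zt μ Li t B h D2 δ)).sum := by
    rw [Zs, PowerSeries.coeff_mk, vol_contact μ Li hYC hYV hL e hB h hD1 hD2 δ hF k]
    refine Finset.sum_congr rfl fun a _ => ?_
    rw [vol_C2 μ Li hYC hYV hL e hB h hD1 hD2 δ a.1 a.2]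
    have e2 := congrArg (PowerSeries.coeff a.1) (hex _ (Bp B D2 δ (lev Iᶜ a.2) a.2)
      (hp h D2 δ (lev Iᶜ a.2) a.2) (con_Bp hYC hB D2 δ _ a.2) (by
        rintro v ⟨hv1, hv2, hv3⟩
        rw [eval_hp]
        exact mul_ne_zero (hh _ hv1) hv3))
    rw [Zs, PowerSeries.coeff_mk] at e2
    rw [e2, map_list_sum, List.map_map, ← List.sum_map_mul_right]
    congr 1
    refine List.map_congr_left fun t ht => ?_
    have := t.fin
    rw [Function.comp_apply, ser_eq, PowerSeries.coeff_C_mul, Zt, Zs, PowerSeries.coeff_mk,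
      ← cls_Bp μ Li hYC hYV hL t.g hB h (hts t ht).1 t.u hD2 δ a.2]
    ring
  rw [e1, map_list_sum, List.map_map]
  have e3 : (ts.map ((PowerSeries.coeff k) ∘ fun t => Wt μ Li t * Zt μ Li t B h D2 δ)) =
      ts.map fun t => ∑ a ∈ Finset.HasAntidiagonal.antidiagonal k,
        PowerSeries.coeff a.1 (Wt μ Li t) * PowerSeries.coeff a.2 (Zt μ Li t B h D2 δ) := by
    refine List.map_congr_left fun t _ => ?_
    rw [Function.comp_apply, PowerSeries.coeff_mul]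
  rw [e3]
  clear e1 e3 hts hex
  induction ts with
  | nil => simp
  | cons t ts ih =>
    simp only [List.map_cons, List.sum_cons, Finset.sum_add_distrib]
    rw [ih]

end main

/-- product of terms -/
noncomputable def tmul (t t' : Term) : Term where
  σ := t.σ ⊕ t'.σ
  fin := by
    have := t.fin
    have := t'.fin
    exact inferInstance
  S := pset t.S t'.S
  u := pmul t.u t'.u
  g := t'.g
  l := t.l + t'.l
  c := t.c + t'.c
  D := t.D ++ t'.D

theorem tmul_ok (hYC : Stmt_YC) {t t' : Term} {G : Set (ℕ × ℕ)} (h : t.Ok G) (h' : t'.Ok G) :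
    (tmul t t').Ok G := by
  refine ⟨con_pset hYC h.1 h'.1, ?_, h'.2.2.1, ?_⟩
  · rintro x ⟨hx1, hx2⟩ h0
    have e : eval (x : t.σ ⊕ t'.σ → ℂ) (pmul t.u t'.u) = _ := eval_pmul _ _ _
    exact mul_ne_zero (h.2.1 _ hx1) (h'.2.1 _ hx2) (e.symm.trans h0)
  · intro q hq
    rcases List.mem_append.1 hq with h1 | h1
    · exact h.2.2.2 q h1
    · exact h'.2.2.2 q h1

theorem cls_assoc (hYC : Stmt_YC) {R : Type} [CommRing R] (μ : MotivicMeasure R) {E σ τ : Type}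
    [Finite E] [Finite σ] [Finite τ] (g : ℕ) {B : Set (E → ℂ)} (hB : Constructible B)
    (h : MvPolynomial E ℂ) {S : Set (σ → ℂ)} (hS : Constructible S) (u : MvPolynomial σ ℂ)
    {S' : Set (τ → ℂ)} (hS' : Constructible S') (u' : MvPolynomial τ ℂ) :
    cls μ g (pset B S) (pmul h u) S' u' = cls μ g B h (pset S S') (pmul u u') := by
  symm
  apply val_reindex μ (Equiv.sumCongr (Equiv.sumAssoc E σ τ) (Equiv.refl Unit))
    (con_cover hYC g _ (con_pset hYC hB (con_pset hYC hS hS')))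
    (con_cover hYC g _ (con_pset hYC (con_pset hYC hB hS) hS'))
  intro v
  have e1 : ∀ p, Equiv.sumCongr (Equiv.sumAssoc E σ τ) (Equiv.refl Unit)
    (Sum.inl (Sum.inl (Sum.inl p))) = Sum.inl (Sum.inl p) := fun _ => rfl
  have e2 : ∀ p, Equiv.sumCongr (Equiv.sumAssoc E σ τ) (Equiv.refl Unit)
    (Sum.inl (Sum.inl (Sum.inr p))) = Sum.inl (Sum.inr (Sum.inl p)) := fun _ => rfl
  have e3 : ∀ p, Equiv.sumCongr (Equiv.sumAssoc E σ τ) (Equiv.refl Unit)
    (Sum.inl (Sum.inr p)) = Sum.inl (Sum.inr (Sum.inr p)) := fun _ => rfl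
  have e4 : ∀ p, Equiv.sumCongr (Equiv.sumAssoc E σ τ) (Equiv.refl Unit)
    (Sum.inr p) = Sum.inr p := fun _ => rfl
  simp only [cover, pset, Set.mem_ofPred_eq, eval_pmul, e1, e2, e3, e4]
  constructor
  · rintro ⟨⟨h1, h2, h3⟩, h4⟩
    refine ⟨⟨⟨h1, h2⟩, h3⟩, ?_⟩
    rw [h4]
    ring
  · rintro ⟨⟨⟨h1, h2⟩, h3⟩, h4⟩
    refine ⟨⟨h1, h2, h3⟩, ?_⟩
    rw [h4]
    ring

theorem Wt_tmul {R : Type} [CommRing R] (μ : MotivicMeasure R) (Li : R) (t t' : Term) :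
    Wt μ Li (tmul t t') = Wt μ Li t * Wt μ Li t' := by
  simp only [Wt, tmul, List.map_append, List.prod_append, pow_add, map_mul]
  ring

theorem tmul_ser (hYC : Stmt_YC) {R : Type} [CommRing R] (μ : MotivicMeasure R) (Li : R)
    {t t' : Term} {G : Set (ℕ × ℕ)} (h : t.Ok G) (h' : t'.Ok G) {E : Type} [Finite E]
    {B : Set (E → ℂ)} (hB : Constructible B) (hh : MvPolynomial E ℂ) :
    (tmul t t').ser μ Li B hh = Wt μ Li t * (haveI := t.fin
      t'.ser μ Li (pset B t.S) (pmul hh t.u)) := by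
  have := t.fin
  have := t'.fin
  rw [ser_eq, ser_eq, Wt_tmul, cls_assoc hYC μ t'.g hB hh h.1 t.u h'.1 t'.u]
  change PowerSeries.C (cls μ t'.g B hh (pset t.S t'.S) (pmul t.u t'.u)) * _ = _
  ring

theorem F_split (D : Data ι κ) (δ : ι → ℕ) (I : Finset ι) (T : Finset κ)
    (x : ι → PowerSeries ℂ) :
    D.F δ x = (D.restr I T).F δ x * (D.restr Iᶜ Tᶜ).F δ x := by
  have e1 : ∀ i, x i ^ D.b i = x i ^ (D.restr I T).b i * x i ^ (D.restr Iᶜ Tᶜ).b i := by
    intro i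
    rw [← pow_add]
    congr 1
    by_cases hi : i ∈ I <;> simp [Data.restr, hi]
  have e2 : ∀ j, D.formS δ x j ^ D.m j = (D.restr I T).formS δ x j ^ (D.restr I T).m j *
      (D.restr Iᶜ Tᶜ).formS δ x j ^ (D.restr Iᶜ Tᶜ).m j := by
    intro j
    have e3 : (D.restr I T).formS δ x j = D.formS δ x j := rfl
    have e4 : (D.restr Iᶜ Tᶜ).formS δ x j = D.formS δ x j := rfl
    rw [e3, e4, ← pow_add]
    congr 1
    by_cases hj : j ∈ T <;> simp [Data.restr, hj]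
  rw [Data.F, Data.F, Data.F, Finset.prod_congr rfl (fun i _ => e1 i),
    Finset.prod_congr rfl (fun j _ => e2 j), Finset.prod_mul_distrib, Finset.prod_mul_distrib]
  ring

theorem sum_flatMap' {A B : Type*} {M : Type*} [AddCommMonoid M] (l : List A) (g : A → List B)
    (f : B → M) : ((l.flatMap g).map f).sum = (l.map fun a => ((g a).map f).sum).sum := by
  induction l with
  | nil => simp
  | cons a l ih => simp [List.flatMap_cons, ih]

end SplitAux

open SplitAux MvPolynomial in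
theorem stmt_Split (hYC : Stmt_YC) (hYV : Stmt_YV) : Stmt_Split := by
  intro ι κ _ _ _ _ D δ I T G h1 h2 hex1 hex2 e he
  classical
  have hD1 : Dep (D.restr I T) I := by
    constructor
    · intro i hi
      simp [Data.restr, hi]
    · intro j hj i hi
      by_cases hT : j ∈ T
      · have hm : 0 < D.m j := by simpa [Data.restr, hT] using hj
        exact h1 j hT hm i hi
      · exfalso
        simp [Data.restr, hT] at hj
  have hD2 : Dep (D.restr Iᶜ Tᶜ) Iᶜ := by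
    constructor
    · intro i hi
      simp only [Data.restr, if_neg hi]
    · intro j hj i hi
      by_cases hT : j ∈ T
      · exfalso
        simp [Data.restr, hT] at hj
      · have hm : 0 < D.m j := by simpa [Data.restr, hT] using hj
        exact h2 j hT hm i (by simpa using hi)
  obtain ⟨ts, hts, hser⟩ := hex1 e he
  have hex2' : ∀ g : ℕ, ∃ ts : List Term, (∀ t ∈ ts, t.Ok G) ∧ (1 ≤ g →
      ∀ (R : Type) [CommRing R] (μ : MotivicMeasure R) (Li : R), μ.L * Li = 1 →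
      ∀ (E : Type) [Finite E] (B : Set (E → ℂ)) (h : MvPolynomial E ℂ), Constructible B →
        (∀ p ∈ B, eval p h ≠ 0) →
          Zs μ Li g B h (D.restr Iᶜ Tᶜ) δ = (ts.map fun t => t.ser μ Li B h).sum) := by
    intro g
    by_cases hg : 1 ≤ g
    · obtain ⟨ts, a1, a2⟩ := hex2 g hg
      exact ⟨ts, a1, fun _ => a2⟩
    · exact ⟨[], by simp, fun h => absurd h hg⟩
  choose ts2 hts2 hser2 using hex2'
  refine ⟨ts.flatMap fun t => (ts2 t.g).map (tmul t), ?_, ?_⟩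
  · intro t ht
    rw [List.mem_flatMap] at ht
    obtain ⟨t1, ht1, ht⟩ := ht
    rw [List.mem_map] at ht
    obtain ⟨t2, ht2, rfl⟩ := ht
    exact tmul_ok hYC (hts t1 ht1) (hts2 _ t2 ht2)
  · intro R _ μ Li hL E _ B h hB hh
    rw [Zs_eq μ Li hYC hYV hL e hB h hh hD1 hD2 δ (F_split D δ I T) ts G hts
      (fun E _ B h hB hh => hser R μ Li hL E B h hB hh), sum_flatMap']
    congr 1
    refine List.map_congr_left fun t ht => ?_
    have := t.fin
    have hok := hts t ht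
    rw [Zt, hser2 t.g hok.2.2.1 R μ Li hL _ (pset B t.S) (pmul h t.u) (con_pset hYC hB hok.1) (by
      rintro v ⟨hv1, hv2⟩
      rw [eval_pmul]
      exact mul_ne_zero (hh _ hv1) (hok.2.1 _ hv2)), ← List.sum_map_mul_left, List.map_map]
    congr 1
    refine List.map_congr_left fun t' ht' => ?_
    rw [Function.comp_apply, tmul_ser hYC μ Li hok (hts2 _ t' ht') hB h]

end Pool.Agent.Mono
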