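import Pool.Agent.Work.Monodromy.Interface

/-!
# Block Tor: the torus factor of a stratum of a central arrangement
-/

namespace Pool.Agent.Mono

open MvPolynomial

namespace TorX

theorem cons_univ {ι : Type} : Constructible (Set.univ : Set (ι → ℂ)) := by
  have h := Constructible.zero (0 : MvPolynomial ι ℂ)
  have e : {x : ι → ℂ | eval x (0 : MvPolynomial ι ℂ) = 0} = Set.univ := by
    ext x; simp
  rwa [e] at h

theorem cons_pre {ι κ : Type} (φ : κ → MvPolynomial ι ℂ) {s : Set (κ → ℂ)}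
    (hs : Constructible s) : Constructible {x : ι → ℂ | (fun j => eval x (φ j)) ∈ s} := by
  induction hs with
  | zero p =>
    have h := Constructible.zero (bind₁ φ p)
    have e : {x : ι → ℂ | eval x (bind₁ φ p) = 0} =
        {x : ι → ℂ | (fun j => eval x (φ j)) ∈ {x : κ → ℂ | eval x p = 0}} := by
      ext x
      simp only [Set.mem_setOf_eq]
      have : eval x (bind₁ φ p) = eval (fun j => eval x (φ j)) p := by
        induction p using MvPolynomial.induction_on with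
        | C a => simp
        | add p q hp hq =>
          rw [map_add, map_add, map_add, hp, hq] <;> exact Constructible.zero _
        | mul_X p i hp =>
          rw [map_mul, map_mul, map_mul, hp, bind₁_X_right, eval_X]
          exact Constructible.zero _
      rw [this]
    rwa [e] at h
  | compl _ ih => exact ih.compl
  | inter _ _ ih1 ih2 => exact ih1.inter ih2

theorem cons_ne {ι : Type} (p : MvPolynomial ι ℂ) : Constructible {x : ι → ℂ | eval x p ≠ 0} :=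
  (Constructible.zero p).compl

theorem cons_forall {ι α : Type} [Finite α] (P : α → Set (ι → ℂ)) (h : ∀ a, Constructible (P a)) :
    Constructible {x : ι → ℂ | ∀ a, x ∈ P a} := by
  classical
  haveI := Fintype.ofFinite α
  have key : ∀ s : Finset α, Constructible {x : ι → ℂ | ∀ a ∈ s, x ∈ P a} := by
    intro s
    induction s using Finset.induction_on with
    | empty =>
      have e : {x : ι → ℂ | ∀ a ∈ (∅ : Finset α), x ∈ P a} = Set.univ := by ext x; simp
      rw [e]; exact cons_univ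
    | insert a s _ ih =>
      have e : {x : ι → ℂ | ∀ b ∈ insert a s, x ∈ P b} =
          P a ∩ {x : ι → ℂ | ∀ a ∈ s, x ∈ P a} := by
        ext x; simp
      rw [e]; exact (h a).inter ih
  have e : {x : ι → ℂ | ∀ a, x ∈ P a} = {x : ι → ℂ | ∀ a ∈ (Finset.univ : Finset α), x ∈ P a} := by
    ext x; simp
  rw [e]; exact key _

theorem cons_str {ι κ : Type} [Fintype ι] [Fintype κ] [DecidableEq ι] [DecidableEq κ]
    (D : Data ι κ) (J : Finset ι) (A : Finset κ) : Constructible (D.str J A) := by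
  have h1 : Constructible {ξ : ι → ℂ | ∀ i, ξ ∈ {ξ : ι → ℂ | ξ i ≠ 0 ↔ i ∈ J}} := by
    refine cons_forall (fun i => {ξ : ι → ℂ | ξ i ≠ 0 ↔ i ∈ J}) fun i => ?_
    by_cases hi : i ∈ J
    · have := cons_ne (X i : MvPolynomial ι ℂ)
      simpa [hi] using this
    · have := Constructible.zero (X i : MvPolynomial ι ℂ)
      simpa [hi] using this
  have h2 : Constructible {ξ : ι → ℂ | ∀ j, ξ ∈ {ξ : ι → ℂ | eval ξ (D.form j) = 0 ↔ j ∈ A}} := by
    refine cons_forall (fun j => {ξ : ι → ℂ | eval ξ (D.form j) = 0 ↔ j ∈ A}) fun j => ?_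
    by_cases hj : j ∈ A
    · have := Constructible.zero (D.form j)
      simpa [hj] using this
    · have := cons_ne (D.form j)
      simpa [hj] using this
  exact h1.inter h2

theorem cons_pset {E σ : Type} {B : Set (E → ℂ)} {S : Set (σ → ℂ)} (hB : Constructible B)
    (hS : Constructible S) : Constructible (pset B S) := by
  have h1 := cons_pre (fun p : E => (X (Sum.inl p) : MvPolynomial (E ⊕ σ) ℂ)) hB
  have h2 := cons_pre (fun p : σ => (X (Sum.inr p) : MvPolynomial (E ⊕ σ) ℂ)) hS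
  have := h1.inter h2
  simp only [eval_X] at this
  exact this

theorem cons_cover {E : Type} {g : ℕ} {B : Set (E → ℂ)} (hB : Constructible B)
    (h : MvPolynomial E ℂ) : Constructible (cover g B h) := by
  have h1 := cons_pre (fun p : E => (X (Sum.inl p) : MvPolynomial (E ⊕ Unit) ℂ)) hB
  have h2 := Constructible.zero ((X (Sum.inr ()) : MvPolynomial (E ⊕ Unit) ℂ) ^ g -
    rename Sum.inl h)
  have := h1.inter h2
  have e : cover g B h = {x : E ⊕ Unit → ℂ | (fun j => eval x (X (Sum.inl j))) ∈ B} ∩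
      {x | eval x ((X (Sum.inr ()) : MvPolynomial (E ⊕ Unit) ℂ) ^ g - rename Sum.inl h) = 0} := by
    ext x
    simp only [cover, Set.mem_setOf_eq, Set.mem_inter_iff, eval_X, map_sub, map_pow,
      eval_rename, sub_eq_zero]
    rfl
  rw [e]; exact this

theorem bez {ι : Type} [DecidableEq ι] (J : Finset ι) (w : ι → ℕ) :
    ∃ β : ι → ℤ, ∑ i ∈ J, β i * (w i : ℤ) = (J.gcd w : ℕ) := by
  induction J using Finset.induction_on with
  | empty => exact ⟨0, by simp⟩
  | insert i s hi ih =>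
    obtain ⟨β, hβ⟩ := ih
    refine ⟨fun k => if k = i then Nat.gcdA (w i) (s.gcd w) else
      Nat.gcdB (w i) (s.gcd w) * β k, ?_⟩
    rw [Finset.sum_insert hi, Finset.gcd_insert]
    simp only [if_true]
    have h1 : ∑ k ∈ s, (if k = i then Nat.gcdA (w i) (s.gcd w) else
        Nat.gcdB (w i) (s.gcd w) * β k) * (w k : ℤ) =
        Nat.gcdB (w i) (s.gcd w) * ∑ k ∈ s, β k * (w k : ℤ) := by
      rw [Finset.mul_sum]
      refine Finset.sum_congr rfl fun k hk => ?_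
      have : k ≠ i := fun h => hi (h ▸ hk)
      rw [if_neg this]; ring
    rw [h1, hβ]
    have := Nat.gcd_eq_gcd_ab (w i) (s.gcd w)
    change _ = ((Nat.gcd (w i) (s.gcd w) : ℕ) : ℤ)
    rw [this]; ring

theorem arith {ι : Type} [Fintype ι] [DecidableEq ι] (J : Finset ι) (a : ι → ℕ)
    (ha : ∀ i, 1 ≤ a i) (hJ : J.Nonempty) :
    ∃ (v : ι → ℕ) (W : ℕ) (β : ι → ℤ), (∀ i ∈ J, v i * a i = W) ∧
      ∑ i ∈ J, β i * (v i : ℤ) = 1 := by
  set w : ι → ℕ := fun i => ∏ k ∈ Finset.univ.erase i, a k with hw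
  set g := J.gcd w with hg
  have hw0 : ∀ i, w i ≠ 0 := fun i =>
    Finset.prod_ne_zero_iff.2 fun k _ => Nat.one_le_iff_ne_zero.1 (ha k)
  have hg0 : g ≠ 0 := by
    intro h
    obtain ⟨i, hi⟩ := hJ
    exact hw0 i ((Finset.gcd_eq_zero_iff.1 h) i hi)
  have hdvd : ∀ i ∈ J, g ∣ w i := fun i hi => Finset.gcd_dvd hi
  have hwa : ∀ i, w i * a i = ∏ k, a k := fun i =>
    Finset.prod_erase_mul _ _ (Finset.mem_univ i)
  obtain ⟨β, hβ⟩ := bez J w
  refine ⟨fun i => w i / g, (∏ k, a k) / g, β, fun i hi => ?_, ?_⟩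
  · obtain ⟨t, ht⟩ := hdvd i hi
    show w i / g * a i = _
    rw [← hwa i, ht, Nat.mul_div_cancel_left _ (Nat.pos_of_ne_zero hg0), mul_assoc,
      Nat.mul_div_cancel_left _ (Nat.pos_of_ne_zero hg0)]
  · have h1 : (g : ℤ) * ∑ i ∈ J, β i * ((w i / g : ℕ) : ℤ) = g := by
      rw [Finset.mul_sum]
      conv_rhs => rw [hg, ← hβ]
      refine Finset.sum_congr rfl fun i hi => ?_
      obtain ⟨t, ht⟩ := hdvd i hi
      rw [ht, Nat.mul_div_cancel_left _ (Nat.pos_of_ne_zero hg0)]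
      push_cast; ring
    have h2 : (g : ℤ) ≠ 0 := by exact_mod_cast hg0
    have h3 : (g : ℤ) * (∑ i ∈ J, β i * ((w i / g : ℕ) : ℤ)) = g * 1 := by rw [h1, mul_one]
    exact mul_left_cancel₀ h2 h3

theorem bez2 (G n : ℕ) (hG : 1 ≤ G) :
    ∃ G1 n1 x y : ℕ, G = Nat.gcd G n * G1 ∧ n = Nat.gcd G n * n1 ∧ x * G1 = 1 + y * n1 := by
  have hd : 0 < Nat.gcd G n := Nat.gcd_pos_of_pos_left _ hG
  obtain ⟨G1, hG1⟩ := Nat.gcd_dvd_left G n
  obtain ⟨n1, hn1⟩ := Nat.gcd_dvd_right G n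
  have hcop : Nat.gcd G1 n1 = 1 := by
    have h1 : Nat.gcd (Nat.gcd G n * G1) (Nat.gcd G n * n1) = Nat.gcd G n * Nat.gcd G1 n1 :=
      Nat.gcd_mul_left _ _ _
    rw [← hG1, ← hn1] at h1
    have h2 : Nat.gcd G n * 1 = Nat.gcd G n * Nat.gcd G1 n1 := by rw [mul_one]; exact h1
    exact (Nat.eq_of_mul_eq_mul_left hd h2).symm
  rcases Nat.eq_zero_or_pos n1 with h0 | hpos
  · refine ⟨G1, n1, 1, 0, hG1, hn1, ?_⟩
    rw [h0, Nat.gcd_zero_right] at hcop
    simp [hcop]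
  · have hb := Nat.gcd_eq_gcd_ab G1 n1
    rw [hcop] at hb
    set s := Nat.gcdA G1 n1
    set t := Nat.gcdB G1 n1
    have hG1pos : 0 < G1 := by
      rcases Nat.eq_zero_or_pos G1 with h | h
      · rw [h, mul_zero] at hG1; omega
      · exact h
    set k : ℤ := |s| + |t| with hk
    have hx : 0 ≤ s + k * n1 := by
      have h1 : (1 : ℤ) ≤ n1 := by exact_mod_cast hpos
      have h2 : 0 ≤ k := by positivity
      nlinarith [neg_abs_le s, abs_nonneg t]
    have hy : 0 ≤ -t + k * G1 := by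
      have h1 : (1 : ℤ) ≤ G1 := by exact_mod_cast hG1pos
      have h2 : 0 ≤ k := by positivity
      nlinarith [le_abs_self t, abs_nonneg s]
    obtain ⟨x, hx'⟩ := Int.eq_ofNat_of_zero_le hx
    obtain ⟨y, hy'⟩ := Int.eq_ofNat_of_zero_le hy
    refine ⟨G1, n1, x, y, hG1, hn1, ?_⟩
    have : ((x * G1 : ℕ) : ℤ) = ((1 + y * n1 : ℕ) : ℤ) := by
      push_cast
      rw [← hx', ← hy']
      push_cast at hb
      linear_combination -hb
    exact_mod_cast this

section Act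

variable {ι κ : Type} [Fintype ι] [Fintype κ] [DecidableEq ι] [DecidableEq κ]

/-- the torus action -/
def act (v : ι → ℕ) (l : ℂ) (ξ : ι → ℂ) : ι → ℂ := fun i => l ^ v i * ξ i

/-- the character `∏ ξ_i^{β_i}` -/
noncomputable def chr (J : Finset ι) (β : ι → ℤ) (ξ : ι → ℂ) : ℂ := ∏ i ∈ J, ξ i ^ β i

theorem eval_form (D : Data ι κ) (j : κ) (ξ : ι → ℂ) :
    eval ξ (D.form j) = D.c0 j + ∑ i, D.c j i * ξ i ^ D.a i := by
  simp [Data.form]

theorem eval_unit (D : Data ι κ) (J : Finset ι) (A : Finset κ) (ξ : ι → ℂ) :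
    eval ξ (D.unit J A) = (∏ i ∈ J, ξ i ^ D.b i) * ∏ j ∈ Aᶜ, eval ξ (D.form j) ^ D.m j := by
  simp [Data.unit]

variable (D : Data ι κ) (J : Finset ι) (A : Finset κ) (v : ι → ℕ) (W : ℕ)

theorem form_act (hC : D.Central) (ha : ∀ i, 1 ≤ D.a i) (hv : ∀ i ∈ J, v i * D.a i = W) (l : ℂ)
    (ξ : ι → ℂ) (hξ : ∀ i, i ∉ J → ξ i = 0) (j : κ) :
    eval (act v l ξ) (D.form j) = l ^ W * eval ξ (D.form j) := by
  rw [eval_form, eval_form, hC j, zero_add, zero_add, Finset.mul_sum]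
  refine Finset.sum_congr rfl fun i _ => ?_
  by_cases hi : i ∈ J
  · rw [act, mul_pow, ← pow_mul, hv i hi]; ring
  · have h0 : D.a i ≠ 0 := Nat.one_le_iff_ne_zero.1 (ha i)
    rw [act, hξ i hi, mul_zero, zero_pow h0]; ring

theorem unit_act (hC : D.Central) (ha : ∀ i, 1 ≤ D.a i) (hv : ∀ i ∈ J, v i * D.a i = W) (l : ℂ)
    (ξ : ι → ℂ) (hξ : ∀ i, i ∉ J → ξ i = 0) :
    eval (act v l ξ) (D.unit J A) =
      l ^ (∑ i ∈ J, v i * D.b i + ∑ j ∈ Aᶜ, W * D.m j) * eval ξ (D.unit J A) := by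
  rw [eval_unit, eval_unit, pow_add, ← Finset.prod_pow_eq_pow_sum, ← Finset.prod_pow_eq_pow_sum]
  have h1 : ∏ i ∈ J, act v l ξ i ^ D.b i =
      (∏ i ∈ J, l ^ (v i * D.b i)) * ∏ i ∈ J, ξ i ^ D.b i := by
    rw [← Finset.prod_mul_distrib]
    refine Finset.prod_congr rfl fun i _ => ?_
    rw [act, mul_pow, ← pow_mul]
  have h2 : ∏ j ∈ Aᶜ, eval (act v l ξ) (D.form j) ^ D.m j =
      (∏ j ∈ Aᶜ, l ^ (W * D.m j)) * ∏ j ∈ Aᶜ, eval ξ (D.form j) ^ D.m j := by
    rw [← Finset.prod_mul_distrib]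
    refine Finset.prod_congr rfl fun j _ => ?_
    rw [form_act D J v W hC ha hv l ξ hξ, mul_pow, ← pow_mul]
  rw [h1, h2]; ring

theorem str_act (hC : D.Central) (ha : ∀ i, 1 ≤ D.a i) (hv : ∀ i ∈ J, v i * D.a i = W) {l : ℂ}
    (hl : l ≠ 0) {ξ : ι → ℂ} (hξ : ξ ∈ D.str J A) : act v l ξ ∈ D.str J A := by
  have hz : ∀ i, i ∉ J → ξ i = 0 := fun i hi => by
    by_contra h; exact hi ((hξ.1 i).1 h)
  refine ⟨fun i => ?_, fun j => ?_⟩
  · rw [act, mul_ne_zero_iff, hξ.1 i]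
    exact ⟨fun h => h.2, fun h => ⟨pow_ne_zero _ hl, h⟩⟩
  · rw [form_act D J v W hC ha hv l ξ hz j, mul_eq_zero, ← hξ.2 j]
    exact ⟨fun h => h.resolve_left (pow_ne_zero _ hl), fun h => Or.inr h⟩

theorem unit_ne {ξ : ι → ℂ} (hξ : ξ ∈ D.str J A) : eval ξ (D.unit J A) ≠ 0 := by
  rw [eval_unit]
  refine mul_ne_zero (Finset.prod_ne_zero_iff.2 fun i hi => pow_ne_zero _ ((hξ.1 i).2 hi))
    (Finset.prod_ne_zero_iff.2 fun j hj => pow_ne_zero _ fun h => ?_)
  exact (Finset.mem_compl.1 hj) ((hξ.2 j).1 h)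

theorem chr_ne (β : ι → ℤ) {ξ : ι → ℂ} (hξ : ξ ∈ D.str J A) : chr J β ξ ≠ 0 :=
  Finset.prod_ne_zero_iff.2 fun i hi => zpow_ne_zero _ ((hξ.1 i).2 hi)

theorem zpow_sum {α : Type} (s : Finset α) (f : α → ℤ) {l : ℂ} (hl : l ≠ 0) :
    ∏ i ∈ s, l ^ f i = l ^ ∑ i ∈ s, f i := by
  classical
  induction s using Finset.induction_on with
  | empty => simp
  | insert a s ha ih => rw [Finset.prod_insert ha, Finset.sum_insert ha, zpow_add₀ hl, ih]

theorem chr_act (β : ι → ℤ) (hβ : ∑ i ∈ J, β i * (v i : ℤ) = 1) {l : ℂ} (hl : l ≠ 0)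
    (ξ : ι → ℂ) : chr J β (act v l ξ) = l * chr J β ξ := by
  have h1 : ∏ i ∈ J, l ^ (β i * (v i : ℤ)) = l := by
    rw [zpow_sum _ _ hl, hβ, zpow_one]
  unfold chr
  conv_rhs => rw [← h1]
  rw [← Finset.prod_mul_distrib]
  refine Finset.prod_congr rfl fun i _ => ?_
  rw [act, mul_zpow, ← zpow_natCast, ← zpow_mul, mul_comm (v i : ℤ)]

end Act

theorem mul_eq_chr {ι : Type} (J : Finset ι) (β : ι → ℤ) (ξ : ι → ℂ) (h : ∀ i ∈ J, ξ i ≠ 0) :
    (∏ i ∈ J, ξ i ^ (β i).toNat) = chr J β ξ * ∏ i ∈ J, ξ i ^ (-β i).toNat := by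
  unfold chr
  rw [← Finset.prod_mul_distrib]
  refine Finset.prod_congr rfl fun i hi => ?_
  have h1 : β i = ((β i).toNat : ℤ) - ((-β i).toNat : ℤ) := by omega
  have h2 : ξ i ^ β i = ξ i ^ ((β i).toNat : ℤ) / ξ i ^ ((-β i).toNat : ℤ) := by
    rw [← zpow_sub₀ (h i hi), ← h1]
  rw [h2, zpow_natCast, zpow_natCast, div_mul_cancel₀]
  exact pow_ne_zero _ (h i hi)

theorem val_star {R : Type} [CommRing R] (μ : MotivicMeasure R) :
    μ.val {t : Unit → ℂ | t () ≠ 0} = μ.L - 1 := by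
  have h1 : Constructible {t : Unit → ℂ | t () ≠ 0} := by
    have := cons_ne (X () : MvPolynomial Unit ℂ)
    simpa using this
  have h2 : Constructible {t : Unit → ℂ | t () = 0} := by
    have := Constructible.zero (X () : MvPolynomial Unit ℂ)
    simpa using this
  have h3 := μ.union _ _ h1 h2 (by
    rw [Set.disjoint_left]; intro x hx hy; exact hx hy)
  have h4 : {t : Unit → ℂ | t () ≠ 0} ∪ {t : Unit → ℂ | t () = 0} = Set.univ := by
    ext x
    simp only [Set.mem_union, Set.mem_ofPred_eq, Set.mem_univ, iff_true]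
    exact (ne_or_eq _ _)
  have h5 : μ.val {t : Unit → ℂ | t () = 0} = 1 := by
    rw [← μ.point]
    symm
    refine μ.map (Set.univ : Set (Empty → ℂ)) {t : Unit → ℂ | t () = 0} (fun _ => 0) cons_univ h2 ?_
    refine ⟨fun x _ => by simp, fun x _ y _ _ => Subsingleton.elim _ _, fun y hy => ?_⟩
    refine ⟨fun e => e.elim, Set.mem_univ _, ?_⟩
    funext j
    simp only [map_zero]
    exact hy.symm
  rw [h4, h5] at h3
  rw [MotivicMeasure.L, h3]; ring

end TorX

open TorX in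
theorem stmt_Tor : Stmt_Tor := by
  intro ι κ _ _ _ _ D J A hC ha hJ
  obtain ⟨v, W, β, hvW, hβ⟩ := arith J D.a ha hJ
  set S := D.str J A with hS
  set u := D.unit J A with hu
  set n := ∑ i ∈ J, v i * D.b i + ∑ j ∈ Aᶜ, W * D.m j with hn
  set P : MvPolynomial ι ℂ := ∏ i ∈ J, X i ^ (β i).toNat with hP
  set Q : MvPolynomial ι ℂ := ∏ i ∈ J, X i ^ (-β i).toNat with hQ
  have hcS : Constructible S := cons_str D J A
  have hSJ : ∀ ξ ∈ S, ∀ i ∈ J, ξ i ≠ 0 := fun ξ hξ i hi => (hξ.1 i).2 hi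
  have hSz : ∀ ξ ∈ S, ∀ i, i ∉ J → ξ i = 0 := fun ξ hξ i hi => by
    by_contra h; exact hi ((hξ.1 i).1 h)
  have hS' : ∀ ξ, ξ ∈ S ∩ {ξ | eval ξ (P - Q) = 0} ↔ ξ ∈ S ∧ chr J β ξ = 1 := by
    intro ξ
    refine and_congr_right fun hξ => ?_
    have e1 : eval ξ P = ∏ i ∈ J, ξ i ^ (β i).toNat := by simp [hP]
    have e2 : eval ξ Q = ∏ i ∈ J, ξ i ^ (-β i).toNat := by simp [hQ]
    have e3 : eval ξ Q ≠ 0 := by
      rw [e2]; exact Finset.prod_ne_zero_iff.2 fun i hi => pow_ne_zero _ (hSJ ξ hξ i hi)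
    rw [Set.mem_ofPred_eq, map_sub, sub_eq_zero, e1, mul_eq_chr J β ξ (hSJ ξ hξ), ← e2]
    constructor
    · intro h
      have : (chr J β ξ - 1) * eval ξ Q = 0 := by rw [sub_mul, h]; ring
      rcases mul_eq_zero.1 this with h1 | h1
      · exact sub_eq_zero.1 h1
      · exact absurd h1 e3
    · intro h; rw [h, one_mul]
  set S' := S ∩ {ξ | eval ξ (P - Q) = 0} with hS'def
  have hcS' : Constructible S' := hcS.inter (Constructible.zero _)
  refine ⟨S', n, Set.inter_subset_left, hcS', ?_⟩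
  intro R _ μ E _ B h G hG hB hh
  obtain ⟨G1, n1, x, y, hG1, hn1, hxy⟩ := bez2 G n hG
  set d := Nat.gcd G n with hd
  have hd0 : d ≠ 0 := (Nat.gcd_pos_of_pos_left _ hG).ne'
  have hG0 : G ≠ 0 := by omega
  have hG10 : G1 ≠ 0 := by
    intro h0; rw [h0, mul_zero] at hG1; exact hG0 hG1
  have hcc : Constructible (cover d (pset B S') (pmul h u)) := cons_cover (cons_pset hB hcS') _
  have hct : Constructible (cover G (pset B S) (pmul h u)) := cons_cover (cons_pset hB hcS) _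
  have hstar : Constructible {t : Unit → ℂ | t () ≠ 0} := by
    have := cons_ne (X () : MvPolynomial Unit ℂ)
    simpa using this
  have hprod := μ.prod _ _ hstar hcc
  rw [val_star] at hprod
  unfold cls
  rw [← hprod]
  symm
  set T : Set (Unit ⊕ ((E ⊕ ι) ⊕ Unit) → ℂ) :=
    {x | (fun i => x (Sum.inl i)) ∈ {t : Unit → ℂ | t () ≠ 0} ∧
      (fun j => x (Sum.inr j)) ∈ cover d (pset B S') (pmul h u)} with hT
  have hcT : Constructible T := by
    have h1 := cons_pre (fun i : Unit => (X (Sum.inl i) : MvPolynomial (Unit ⊕ ((E ⊕ ι) ⊕ Unit)) ℂ))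
      hstar
    have h2 := cons_pre (fun i : (E ⊕ ι) ⊕ Unit =>
      (X (Sum.inr i) : MvPolynomial (Unit ⊕ ((E ⊕ ι) ⊕ Unit)) ℂ)) hcc
    have := h1.inter h2
    simp only [eval_X] at this
    exact this
  set lam : MvPolynomial (Unit ⊕ ((E ⊕ ι) ⊕ Unit)) ℂ :=
    X (Sum.inl ()) ^ G1 * X (Sum.inr (Sum.inr ())) ^ y with hlam
  set φ : (E ⊕ ι) ⊕ Unit → MvPolynomial (Unit ⊕ ((E ⊕ ι) ⊕ Unit)) ℂ :=
    Sum.elim (Sum.elim (fun p => X (Sum.inr (Sum.inl (Sum.inl p))))
      (fun i => lam ^ v i * X (Sum.inr (Sum.inl (Sum.inr i)))))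
      (fun _ => X (Sum.inl ()) ^ n1 * X (Sum.inr (Sum.inr ())) ^ x) with hφ
  refine μ.map T _ φ hcT hct ?_
  set ψ : ((E ⊕ ι) ⊕ Unit → ℂ) → (Unit ⊕ ((E ⊕ ι) ⊕ Unit) → ℂ) := fun z =>
    Sum.elim (fun _ => chr J β (fun i => z (Sum.inl (Sum.inr i))) ^ x * (z (Sum.inr ()) ^ y)⁻¹)
      (Sum.elim (Sum.elim (fun p => z (Sum.inl (Sum.inl p)))
        (fun i => (chr J β (fun i => z (Sum.inl (Sum.inr i))))⁻¹ ^ v i * z (Sum.inl (Sum.inr i))))
        (fun _ => z (Sum.inr ()) ^ G1 * (chr J β (fun i => z (Sum.inl (Sum.inr i))) ^ n1)⁻¹))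
    with hψ
  have evlam : ∀ w, eval w lam = w (Sum.inl ()) ^ G1 * w (Sum.inr (Sum.inr ())) ^ y := by
    intro w; simp [hlam]
  -- membership in T
  have memT : ∀ w, w ∈ T ↔ w (Sum.inl ()) ≠ 0 ∧ (fun p => w (Sum.inr (Sum.inl (Sum.inl p)))) ∈ B ∧
      (fun i => w (Sum.inr (Sum.inl (Sum.inr i)))) ∈ S' ∧
      w (Sum.inr (Sum.inr ())) ^ d = eval (fun p => w (Sum.inr (Sum.inl (Sum.inl p)))) h *
        eval (fun i => w (Sum.inr (Sum.inl (Sum.inr i)))) u := by
    intro w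
    simp only [hT, Set.mem_ofPred_eq, cover, pset, pmul, map_mul, eval_rename, and_assoc]
    rfl
  have memt : ∀ z, z ∈ cover G (pset B S) (pmul h u) ↔
      (fun p => z (Sum.inl (Sum.inl p))) ∈ B ∧ (fun i => z (Sum.inl (Sum.inr i))) ∈ S ∧
      z (Sum.inr ()) ^ G = eval (fun p => z (Sum.inl (Sum.inl p))) h *
        eval (fun i => z (Sum.inl (Sum.inr i))) u := by
    intro z
    simp only [Set.mem_ofPred_eq, cover, pset, pmul, map_mul, eval_rename, and_assoc]
    rfl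
  have hG1' : G1 * d = G := by rw [mul_comm]; exact hG1.symm
  have hn1' : n1 * d = n := by rw [mul_comm]; exact hn1.symm
  refine Set.InvOn.bijOn (f' := ψ) ⟨?_, ?_⟩ ?_ ?_
  · -- left inverse
    intro w hw
    obtain ⟨h1, h2, h3, h4⟩ := (memT w).1 hw
    obtain ⟨h5, h6⟩ := (hS' _).1 h3
    have hw' : w (Sum.inr (Sum.inr ())) ≠ 0 := by
      intro h0
      rw [h0, zero_pow hd0] at h4
      exact mul_ne_zero (hh _ h2) (unit_ne D J A h5) h4.symm
    have hlam0 : eval w lam ≠ 0 := by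
      rw [evlam]; exact mul_ne_zero (pow_ne_zero _ h1) (pow_ne_zero _ hw')
    have hchr : chr J β (fun i => eval w (φ (Sum.inl (Sum.inr i)))) = eval w lam := by
      have : (fun i => eval w (φ (Sum.inl (Sum.inr i)))) =
          act v (eval w lam) (fun i => w (Sum.inr (Sum.inl (Sum.inr i)))) := by
        funext i; simp [hφ, act]
      rw [this, chr_act J v β hβ hlam0, h6, mul_one]
    funext s
    rcases s with s | ((p | i) | s)
    · show chr J β (fun i => eval w (φ (Sum.inl (Sum.inr i)))) ^ x *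
        (eval w (φ (Sum.inr ())) ^ y)⁻¹ = w (Sum.inl s)
      rw [hchr, evlam]
      have e : eval w (φ (Sum.inr ())) = w (Sum.inl ()) ^ n1 * w (Sum.inr (Sum.inr ())) ^ x := by
        simp [hφ]
      rw [e]
      set a := w (Sum.inl ())
      set c := w (Sum.inr (Sum.inr ()))
      have e2 : (a ^ G1 * c ^ y) ^ x = a * (a ^ n1 * c ^ x) ^ y := by
        rw [mul_pow, mul_pow, ← pow_mul, ← pow_mul, ← pow_mul, ← pow_mul, mul_comm G1 x, hxy,
          pow_add, pow_one, mul_comm y n1, mul_comm x y]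
        ring
      rw [e2, mul_assoc, mul_inv_cancel₀, mul_one]
      exact pow_ne_zero _ (mul_ne_zero (pow_ne_zero _ h1) (pow_ne_zero _ hw'))
    · show eval w (φ (Sum.inl (Sum.inl p))) = _
      simp [hφ]
    · show (chr J β (fun i => eval w (φ (Sum.inl (Sum.inr i)))))⁻¹ ^ v i *
        eval w (φ (Sum.inl (Sum.inr i))) = _
      rw [hchr]
      have e : eval w (φ (Sum.inl (Sum.inr i))) =
        eval w lam ^ v i * w (Sum.inr (Sum.inl (Sum.inr i))) := by simp [hφ]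
      rw [e, ← mul_assoc, ← mul_pow, inv_mul_cancel₀ hlam0, one_pow, one_mul]
    · show eval w (φ (Sum.inr ())) ^ G1 *
        (chr J β (fun i => eval w (φ (Sum.inl (Sum.inr i)))) ^ n1)⁻¹ = w (Sum.inr (Sum.inr s))
      rw [hchr, evlam]
      have e : eval w (φ (Sum.inr ())) = w (Sum.inl ()) ^ n1 * w (Sum.inr (Sum.inr ())) ^ x := by
        simp [hφ]
      rw [e]
      set a := w (Sum.inl ())
      set c := w (Sum.inr (Sum.inr ()))
      have e2 : (a ^ n1 * c ^ x) ^ G1 = c * (a ^ G1 * c ^ y) ^ n1 := by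
        rw [mul_pow, mul_pow, ← pow_mul, ← pow_mul, ← pow_mul, ← pow_mul, hxy,
          pow_add, pow_one, mul_comm G1 n1]
        ring
      rw [e2, mul_assoc, mul_inv_cancel₀, mul_one]
      exact pow_ne_zero _ (mul_ne_zero (pow_ne_zero _ h1) (pow_ne_zero _ hw'))
  · -- right inverse
    intro z hz
    obtain ⟨h2, h5, h4⟩ := (memt z).1 hz
    have hz' : z (Sum.inr ()) ≠ 0 := by
      intro h0
      rw [h0, zero_pow hG0] at h4
      exact mul_ne_zero (hh _ h2) (unit_ne D J A h5) h4.symm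
    have hc0 : chr J β (fun i => z (Sum.inl (Sum.inr i))) ≠ 0 := chr_ne D J A β h5
    set c := chr J β (fun i => z (Sum.inl (Sum.inr i))) with hc
    set w := z (Sum.inr ()) with hw
    have elam : eval (ψ z) lam = c := by
      rw [evlam]
      show (c ^ x * (w ^ y)⁻¹) ^ G1 * (w ^ G1 * (c ^ n1)⁻¹) ^ y = c
      rw [mul_pow, mul_pow, ← pow_mul, inv_pow, inv_pow, ← pow_mul, ← pow_mul, ← pow_mul, hxy,
        pow_add, pow_one, mul_comm y G1, mul_comm y n1]
      have e1 : w ^ (G1 * y) ≠ 0 := pow_ne_zero _ hz'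
      have e2 : c ^ (n1 * y) ≠ 0 := pow_ne_zero _ hc0
      field_simp
    funext s
    rcases s with (p | i) | s
    · show eval (ψ z) (φ (Sum.inl (Sum.inl p))) = _
      simp [hφ, hψ]
    · show eval (ψ z) (φ (Sum.inl (Sum.inr i))) = _
      have e : eval (ψ z) (φ (Sum.inl (Sum.inr i))) =
        eval (ψ z) lam ^ v i * (c⁻¹ ^ v i * z (Sum.inl (Sum.inr i))) := by simp [hφ, hψ, hc]
      rw [e, elam, ← mul_assoc, ← mul_pow, mul_inv_cancel₀ hc0, one_pow, one_mul]
    · show eval (ψ z) (φ (Sum.inr ())) = z (Sum.inr s)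
      have e : eval (ψ z) (φ (Sum.inr ())) =
        (c ^ x * (w ^ y)⁻¹) ^ n1 * (w ^ G1 * (c ^ n1)⁻¹) ^ x := by simp [hφ, hψ, hc, hw]
      rw [e]
      have e0 : (c ^ x * (w ^ y)⁻¹) ^ n1 * (w ^ G1 * (c ^ n1)⁻¹) ^ x = w := by
        rw [mul_pow, mul_pow, ← pow_mul, inv_pow, inv_pow, ← pow_mul, ← pow_mul, ← pow_mul,
          mul_comm G1 x, hxy, pow_add, pow_one, mul_comm x n1]
        have e1 : w ^ (y * n1) ≠ 0 := pow_ne_zero _ hz'
        have e2 : c ^ (n1 * x) ≠ 0 := pow_ne_zero _ hc0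
        field_simp
      rw [e0]
  · -- maps to
    intro w hw
    obtain ⟨h1, h2, h3, h4⟩ := (memT w).1 hw
    obtain ⟨h5, h6⟩ := (hS' _).1 h3
    have hw' : w (Sum.inr (Sum.inr ())) ≠ 0 := by
      intro h0
      rw [h0, zero_pow hd0] at h4
      exact mul_ne_zero (hh _ h2) (unit_ne D J A h5) h4.symm
    have hlam0 : eval w lam ≠ 0 := by
      rw [evlam]; exact mul_ne_zero (pow_ne_zero _ h1) (pow_ne_zero _ hw')
    have hact : (fun i => eval w (φ (Sum.inl (Sum.inr i)))) =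
        act v (eval w lam) (fun i => w (Sum.inr (Sum.inl (Sum.inr i)))) := by
      funext i; simp [hφ, act]
    refine (memt _).2 ⟨?_, ?_, ?_⟩
    · have : (fun p => eval w (φ (Sum.inl (Sum.inl p)))) =
          fun p => w (Sum.inr (Sum.inl (Sum.inl p))) := by
        funext p; simp [hφ]
      show (fun p => eval w (φ (Sum.inl (Sum.inl p)))) ∈ B
      rw [this]; exact h2
    · show (fun i => eval w (φ (Sum.inl (Sum.inr i)))) ∈ S
      rw [hact]
      exact str_act D J A v W hC ha hvW hlam0 h5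
    · show eval w (φ (Sum.inr ())) ^ G = eval (fun p => eval w (φ (Sum.inl (Sum.inl p)))) h *
        eval (fun i => eval w (φ (Sum.inl (Sum.inr i)))) u
      have e : eval w (φ (Sum.inr ())) = w (Sum.inl ()) ^ n1 * w (Sum.inr (Sum.inr ())) ^ x := by
        simp [hφ]
      have e' : (fun p => eval w (φ (Sum.inl (Sum.inl p)))) =
          fun p => w (Sum.inr (Sum.inl (Sum.inl p))) := by
        funext p; simp [hφ]
      rw [e, e', hact, hu, unit_act D J A v W hC ha hvW _ _ (hSz _ h5), ← hn, ← hu, evlam]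
      have h7 : ∀ t, t * (eval (fun p => w (Sum.inr (Sum.inl (Sum.inl p)))) h *
        eval (fun i => w (Sum.inr (Sum.inl (Sum.inr i)))) u) = t * w (Sum.inr (Sum.inr ())) ^ d :=
        fun t => by rw [h4]
      set a := w (Sum.inl ())
      set c := w (Sum.inr (Sum.inr ()))
      calc (a ^ n1 * c ^ x) ^ G = (a ^ G1 * c ^ y) ^ n * c ^ d := by
            rw [← hG1', ← hn1', mul_pow, mul_pow, ← pow_mul, ← pow_mul, ← pow_mul, ← pow_mul,
              ← mul_assoc x, hxy, add_mul, pow_add, one_mul, mul_left_comm n1 G1 d,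
              mul_assoc y n1 d]
            ring
        _ = _ := by rw [← h7]; ring
  · -- inverse maps to
    intro z hz
    obtain ⟨h2, h5, h4⟩ := (memt z).1 hz
    have hz' : z (Sum.inr ()) ≠ 0 := by
      intro h0
      rw [h0, zero_pow hG0] at h4
      exact mul_ne_zero (hh _ h2) (unit_ne D J A h5) h4.symm
    have hc0 : chr J β (fun i => z (Sum.inl (Sum.inr i))) ≠ 0 := chr_ne D J A β h5
    set c := chr J β (fun i => z (Sum.inl (Sum.inr i))) with hc
    set w := z (Sum.inr ()) with hw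
    have hact : (fun i => ψ z (Sum.inr (Sum.inl (Sum.inr i)))) =
        act v c⁻¹ (fun i => z (Sum.inl (Sum.inr i))) := by
      funext i; simp [hψ, act, hc]
    refine (memT _).2 ⟨?_, h2, ?_, ?_⟩
    · exact mul_ne_zero (pow_ne_zero _ hc0) (inv_ne_zero (pow_ne_zero _ hz'))
    · rw [hact]
      refine (hS' _).2 ⟨str_act D J A v W hC ha hvW (inv_ne_zero hc0) h5, ?_⟩
      rw [chr_act J v β hβ (inv_ne_zero hc0), ← hc, inv_mul_cancel₀ hc0]
    · rw [hact, hu, unit_act D J A v W hC ha hvW _ _ (hSz _ h5), ← hn, ← hu]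
      show (w ^ G1 * (c ^ n1)⁻¹) ^ d = eval (fun p => z (Sum.inl (Sum.inl p))) h * _
      rw [mul_pow, ← pow_mul, hG1', inv_pow, ← pow_mul, hn1', h4, inv_pow]
      ring

end Pool.Agent.Mono
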