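import Pool.Agent.Work.Monodromy.X0

/-!
# Block Triv: the case `F = 1`
-/

set_option autoImplicit false

namespace Pool.Agent.Mono

open MvPolynomial

theorem stmt_Triv (hYV : Stmt_YV) : Stmt_Triv := by
  intro ι κ _ _ _ _ D δ e G he hb hm
  have hF : ∀ x : ι → PowerSeries ℂ, D.F δ x = 1 := by
    intro x
    unfold Data.F
    simp [hb, hm]
  refine ⟨[⟨Empty, inferInstance, Set.univ, 1, e, 0, 0, []⟩], ?_, ?_⟩
  · intro t ht
    rw [List.mem_singleton] at ht
    subst ht
    exact ⟨X0.univ, by simp, he, by simp⟩
  · intro R _ μ Li hL E _ B h hB hh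
    rw [List.map_singleton, List.sum_singleton]
    unfold Term.ser Zs
    simp only [List.map_nil, List.prod_nil, pow_zero, mul_one]
    ext k
    rw [PowerSeries.coeff_mk, PowerSeries.coeff_C]
    rcases Nat.eq_zero_or_pos k with hk | hk
    · subst hk
      rw [if_pos rfl]
      have hmem : ∀ z : (E ⊕ Unit → ℂ) × (ι → PowerSeries ℂ),
          z ∈ contact e B h D δ 0 ↔ z.1 ∈ cover e B h := by
        intro z
        simp only [contact, cover, Set.mem_ofPred_eq, hF]
        simp
      have hcyl : IsCyl (fun _ => 0) (contact e B h D δ 0) := by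
        refine ⟨fun p x y _ => by rw [hmem, hmem], ?_⟩
        have h1 : sec (fun _ => 0) (contact e B h D δ 0) =
            {v : (E ⊕ Unit) ⊕ (Σ _ : ι, Fin 0) → ℂ | (fun p => v (Sum.inl p)) ∈ cover e B h} := by
          ext v
          exact hmem _
        rw [h1]
        exact X0.preX Sum.inl (X0.coverC e h hB)
      rw [hYV R μ Li hL (E ⊕ Unit) ι _ _ hcyl]
      simp only [Finset.sum_const_zero, pow_zero, mul_one]
      unfold cls
      let eq1 : (E ⊕ Unit) ⊕ (Σ _ : ι, Fin 0) ≃ (E ⊕ Empty) ⊕ Unit :=
        { toFun := Sum.elim (Sum.elim (fun p => Sum.inl (Sum.inl p)) (fun u => Sum.inr u))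
            (fun s => Fin.elim0 s.2)
          invFun := Sum.elim (Sum.elim (fun p => Sum.inl (Sum.inl p)) (fun u => Empty.elim u))
            (fun u => Sum.inl (Sum.inr u))
          left_inv := by
            rintro ((p | u) | s)
            · rfl
            · rfl
            · exact Fin.elim0 s.2
          right_inv := by
            rintro ((p | u) | s)
            · rfl
            · exact Empty.elim u
            · rfl }
      apply X0.val_reindex μ eq1 hcyl.2 (X0.coverC e _ (X0.psetC hB X0.univ))
      intro x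
      have h1 : x ∈ sec (fun _ => 0) (contact e B h D δ 0) ↔
          (fun p => x (Sum.inl p)) ∈ cover e B h := hmem _
      rw [h1]
      simp only [cover, pset, Set.mem_ofPred_eq, X0.eval_pmul, map_one, mul_one, Set.mem_univ,
        and_true]
      exact Iff.rfl
    · rw [if_neg (by omega)]
      have hempty : contact e B h D δ k = ∅ := by
        ext z
        simp only [contact, Set.mem_ofPred_eq, hF, Set.mem_empty_iff_false, iff_false]
        rintro ⟨_, h2, _, _⟩
        have := h2 0 hk
        simp at this
      rw [hempty]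
      have hcyl : IsCyl (fun _ : ι => 0) (∅ : Set ((E ⊕ Unit → ℂ) × (ι → PowerSeries ℂ))) :=
        ⟨fun p x y _ => by simp, X0.empty⟩
      rw [hYV R μ Li hL (E ⊕ Unit) ι _ _ hcyl]
      have h1 : sec (fun _ : ι => 0) (∅ : Set ((E ⊕ Unit → ℂ) × (ι → PowerSeries ℂ))) = ∅ := by
        ext v
        exact Iff.rfl
      rw [h1, X0.val_empty, zero_mul]

end Pool.Agent.Mono
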