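import Pool.Agent.Work.Monodromy.Lin

/-!
# Uniqueness of limits
-/

namespace Pool.Agent.Mono

theorem stmt_Uniq : Stmt_Uniq := by
  intro Z R R' h h'
  obtain ⟨num, den, h0, h1, h2⟩ := h
  obtain ⟨num', den', h0', h1', h2'⟩ := h'
  have key : num * den' = num' * den := by
    have : ((num * den' : Polynomial (RatFunc ℚ)) : PowerSeries (RatFunc ℚ)) =
        ((num' * den : Polynomial (RatFunc ℚ)) : PowerSeries (RatFunc ℚ)) := by
      push_cast
      rw [← h1, ← h1']
      ring
    exact_mod_cast this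
  have hval : ∀ s : ℕ, R.eval (RingHom.id ℚ) (s : ℚ) = R'.eval (RingHom.id ℚ) (s : ℚ) := by
    intro s
    obtain ⟨a1, a2, a3⟩ := h2 s
    obtain ⟨b1, b2, b3⟩ := h2' s
    have e := congrArg (Polynomial.eval ((RatFunc.X : RatFunc ℚ)⁻¹ ^ s)) key
    rw [Polynomial.eval_mul, Polynomial.eval_mul] at e
    rw [(div_eq_div_iff a1 b1).2 e] at a3
    exact a3.unique b3
  have hpoly : R.num * R'.denom = R'.num * R.denom := by
    apply Polynomial.eq_of_infinite_eval_eq
    apply Set.Infinite.mono (s := Set.range fun s : ℕ => (s : ℚ))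
    · rintro _ ⟨s, rfl⟩
      have := hval s
      rw [RatFunc.eval, RatFunc.eval, Polynomial.eval₂_id, Polynomial.eval₂_id,
        Polynomial.eval₂_id, Polynomial.eval₂_id, div_eq_div_iff (h2 s).2.1 (h2' s).2.1] at this
      simpa [Polynomial.eval_mul] using this
    · exact Set.infinite_range_of_injective Nat.cast_injective
  have hd : algebraMap (Polynomial ℚ) (RatFunc ℚ) R.denom ≠ 0 := by
    simp [RatFunc.denom_ne_zero]
  have hd' : algebraMap (Polynomial ℚ) (RatFunc ℚ) R'.denom ≠ 0 := by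
    simp [RatFunc.denom_ne_zero]
  rw [← RatFunc.num_div_denom R, ← RatFunc.num_div_denom R', div_eq_div_iff hd hd', ← map_mul,
    ← map_mul, hpoly]

end Pool.Agent.Mono
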