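import Pool.Agent.Work.Monodromy.Push

/-!
# Units can be dropped; weighted homogeneous polynomials
-/

namespace Pool.Agent.Mono

open MvPolynomial

section Units

variable {ι : Type}

/-- polynomial families of differential operators, indexed by `ℤ` -/
noncomputable def PolyFam (ι : Type) : Subalgebra ℂ (ℤ → Module.End ℂ (MvPolynomial ι ℂ)) :=
  Algebra.adjoin ℂ (Set.range (fun W : Weyl ι => fun _ : ℤ => (W : Module.End ℂ (MvPolynomial ι ℂ)))
    ∪ {fun z : ℤ => (z : ℂ) • (1 : Module.End ℂ (MvPolynomial ι ℂ))})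

theorem polyFam_const {W : Module.End ℂ (MvPolynomial ι ℂ)} (hW : W ∈ Weyl ι) :
    (fun _ : ℤ => W) ∈ PolyFam ι :=
  Algebra.subset_adjoin (Or.inl ⟨⟨W, hW⟩, rfl⟩)

theorem polyFam_id : (fun z : ℤ => (z : ℂ) • (1 : Module.End ℂ (MvPolynomial ι ℂ))) ∈ PolyFam ι :=
  Algebra.subset_adjoin (Or.inr rfl)

theorem polyFam_shift (m : ℤ) (A : ℤ → Module.End ℂ (MvPolynomial ι ℂ)) (hA : A ∈ PolyFam ι) :
    (fun z : ℤ => A (z + m)) ∈ PolyFam ι := by
  refine Algebra.adjoin_induction
    (p := fun (A : ℤ → Module.End ℂ (MvPolynomial ι ℂ)) _ => (fun z : ℤ => A (z + m)) ∈ PolyFam ι)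
    ?_ ?_ ?_ ?_ hA
  · rintro A (⟨W, rfl⟩ | rfl)
    · exact polyFam_const W.2
    · have : (fun z : ℤ => ((z + m : ℤ) : ℂ) • (1 : Module.End ℂ (MvPolynomial ι ℂ))) =
          (fun z : ℤ => (z : ℂ) • (1 : Module.End ℂ (MvPolynomial ι ℂ))) +
            (m : ℂ) • (1 : ℤ → Module.End ℂ (MvPolynomial ι ℂ)) := by
        funext z
        simp [add_smul]
      change (fun z : ℤ => ((z + m : ℤ) : ℂ) • (1 : Module.End ℂ (MvPolynomial ι ℂ))) ∈ _
      rw [this]
      exact add_mem polyFam_id (Subalgebra.smul_mem _ (one_mem _) _)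
  · intro r
    exact Subalgebra.algebraMap_mem (PolyFam ι) r
  · intro A B _ _ hA hB
    exact add_mem hA hB
  · intro A B _ _ hA hB
    exact mul_mem hA hB

/-- every polynomial family comes from an element of `A_n[s]` -/
theorem exists_of_polyFam (A : ℤ → Module.End ℂ (MvPolynomial ι ℂ)) (hA : A ∈ PolyFam ι) :
    ∃ P : Polynomial (Weyl ι), ∀ k : ℕ, wact P k = A k := by
  have main : ∃ P : Polynomial (Weyl ι), ∀ z : ℤ,
      ((P.eval (z : Weyl ι) : Weyl ι) : Module.End ℂ (MvPolynomial ι ℂ)) = A z := by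
    refine Algebra.adjoin_induction
      (p := fun (A : ℤ → Module.End ℂ (MvPolynomial ι ℂ)) _ =>
        ∃ P : Polynomial (Weyl ι), ∀ z : ℤ,
          ((P.eval (z : Weyl ι) : Weyl ι) : Module.End ℂ (MvPolynomial ι ℂ)) = A z)
      ?_ ?_ ?_ ?_ hA
    · rintro A (⟨W, rfl⟩ | rfl)
      · exact ⟨Polynomial.C W, fun z => by simp⟩
      · refine ⟨Polynomial.X, fun z => ?_⟩
        rw [Polynomial.eval_X]
        apply LinearMap.ext
        intro h
        simp [Int.cast_smul_eq_zsmul]
    · intro r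
      refine ⟨Polynomial.C (algebraMap ℂ (Weyl ι) r), fun z => ?_⟩
      rw [Polynomial.eval_C]
      rfl
    · rintro A B _ _ ⟨P, hP⟩ ⟨Q, hQ⟩
      refine ⟨P + Q, fun z => ?_⟩
      rw [Polynomial.eval_add, AddMemClass.coe_add, hP, hQ]
      rfl
    · rintro A B _ _ ⟨P, hP⟩ ⟨Q, hQ⟩
      refine ⟨P * Q, fun z => ?_⟩
      have : (P * Q).eval (z : Weyl ι) = P.eval (z : Weyl ι) * Q.eval (z : Weyl ι) := by
        refine Polynomial.eval₂_mul_noncomm (RingHom.id _) _ fun k => ?_
        exact (Int.cast_commute z (Q.coeff k)).symm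
      rw [this, MulMemClass.coe_mul, hP, hQ]
      rfl
  obtain ⟨P, hP⟩ := main
  refine ⟨P, fun k => ?_⟩
  have := hP (k : ℤ)
  rw [← this, wact]
  simp

theorem polyFam_wact (P : Polynomial (Weyl ι)) :
    ∃ A ∈ PolyFam ι, ∀ k : ℕ, wact P k = A k := by
  refine ⟨fun z => ((P.eval (z : Weyl ι) : Weyl ι) : Module.End ℂ (MvPolynomial ι ℂ)), ?_, ?_⟩
  · have h1 : (fun z : ℤ => ((P.eval (z : Weyl ι) : Weyl ι) :
        Module.End ℂ (MvPolynomial ι ℂ))) =
        ∑ i ∈ Finset.range (P.natDegree + 1),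
          (fun _ : ℤ => (P.coeff i : Module.End ℂ (MvPolynomial ι ℂ))) *
            (fun z : ℤ => (z : ℂ) • (1 : Module.End ℂ (MvPolynomial ι ℂ))) ^ i := by
      funext z
      rw [Polynomial.eval_eq_sum_range, AddSubmonoidClass.coe_finsetSum, Finset.sum_apply]
      refine Finset.sum_congr rfl fun i _ => ?_
      rw [MulMemClass.coe_mul, SubmonoidClass.coe_pow]
      simp only [Pi.mul_apply, Pi.pow_apply]
      congr 2
      apply LinearMap.ext
      intro h
      simp [Int.cast_smul_eq_zsmul]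
    rw [h1]
    exact sum_mem fun i _ => mul_mem (polyFam_const (P.coeff i).2) (pow_mem polyFam_id i)
  · intro k
    simp [wact]

/-- `Q (u^{k} h) = u^{k-M} A(k) h` for `k ≥ M` -/
theorem unit_commute [Fintype ι] (u : MvPolynomial ι ℂ) (Q : Module.End ℂ (MvPolynomial ι ℂ))
    (hQ : Q ∈ Weyl ι) :
    ∃ (M : ℕ) (A : ℤ → Module.End ℂ (MvPolynomial ι ℂ)), A ∈ PolyFam ι ∧
      ∀ (k : ℕ) (h : MvPolynomial ι ℂ), Q (u ^ (k + M) * h) = u ^ k * A (k + M : ℕ) h := by
  refine Algebra.adjoin_induction
    (p := fun Q _ => ∃ (M : ℕ) (A : ℤ → Module.End ℂ (MvPolynomial ι ℂ)), A ∈ PolyFam ι ∧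
      ∀ (k : ℕ) (h : MvPolynomial ι ℂ), Q (u ^ (k + M) * h) = u ^ k * A (k + M : ℕ) h)
    ?_ ?_ ?_ ?_ hQ
  · rintro Q (⟨i, rfl⟩ | ⟨i, rfl⟩)
    · refine ⟨0, fun _ => LinearMap.mulLeft ℂ (X i), polyFam_const (mulLeft_mem_Weyl _),
        fun k h => ?_⟩
      simp only [add_zero, LinearMap.mulLeft_apply]
      ring
    · refine ⟨1, (fun _ : ℤ => LinearMap.mulLeft ℂ u) *
        (fun _ : ℤ => (((pderiv i : Derivation ℂ (MvPolynomial ι ℂ) (MvPolynomial ι ℂ)) :
          MvPolynomial ι ℂ →ₗ[ℂ] MvPolynomial ι ℂ) : Module.End ℂ (MvPolynomial ι ℂ))) +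
        (fun z : ℤ => (z : ℂ) • (1 : Module.End ℂ (MvPolynomial ι ℂ))) *
        (fun _ : ℤ => LinearMap.mulLeft ℂ (pderiv i u)), ?_, fun k h => ?_⟩
      · refine add_mem (mul_mem (polyFam_const (mulLeft_mem_Weyl _))
          (polyFam_const (pderiv_mem_Weyl i))) (mul_mem polyFam_id
            (polyFam_const (mulLeft_mem_Weyl _)))
      · simp only [Pi.add_apply, Pi.mul_apply, LinearMap.add_apply, Module.End.mul_apply,
          LinearMap.mulLeft_apply, Derivation.coeFn_coe, LinearMap.smul_apply,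
          Module.End.one_apply, Derivation.leibniz, Derivation.leibniz_pow, smul_eq_mul,
          nsmul_eq_mul]
        rw [MvPolynomial.smul_eq_C_mul]
        simp only [Nat.add_sub_cancel, Int.cast_natCast, map_natCast]
        ring
  · intro r
    refine ⟨0, algebraMap ℂ _ r, Subalgebra.algebraMap_mem _ r, fun k h => ?_⟩
    simp [Module.algebraMap_end_apply, Pi.algebraMap_apply]
  · rintro Q Q' _ _ ⟨M, A, hA, h⟩ ⟨M', A', hA', h'⟩
    refine ⟨M + M', (fun _ => LinearMap.mulLeft ℂ (u ^ M')) * A +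
      (fun _ => LinearMap.mulLeft ℂ (u ^ M)) * A', ?_, fun k g => ?_⟩
    · exact add_mem (mul_mem (polyFam_const (mulLeft_mem_Weyl _)) hA)
        (mul_mem (polyFam_const (mulLeft_mem_Weyl _)) hA')
    · have e1 : Q (u ^ (k + (M + M')) * g) = u ^ (k + M') * A (k + (M + M') : ℕ) g := by
        have := h (k + M') g
        rw [show k + M' + M = k + (M + M') by ring] at this
        exact this
      have e2 : Q' (u ^ (k + (M + M')) * g) = u ^ (k + M) * A' (k + (M + M') : ℕ) g := by
        have := h' (k + M) g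
        rw [show k + M + M' = k + (M + M') by ring] at this
        exact this
      rw [LinearMap.add_apply, e1, e2]
      simp only [Pi.add_apply, Pi.mul_apply, LinearMap.add_apply, Module.End.mul_apply,
        LinearMap.mulLeft_apply]
      ring
  · rintro Q Q' _ _ ⟨M, A, hA, h⟩ ⟨M', A', hA', h'⟩
    refine ⟨M + M', (fun z => A (z + (-M' : ℤ))) * A', mul_mem (polyFam_shift _ A hA) hA',
      fun k g => ?_⟩
    have e2 : Q' (u ^ (k + (M + M')) * g) = u ^ (k + M) * A' (k + (M + M') : ℕ) g := by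
      have := h' (k + M) g
      rw [show k + M + M' = k + (M + M') by ring] at this
      exact this
    rw [Module.End.mul_apply, e2, h k, Pi.mul_apply, Module.End.mul_apply]
    congr 3
    push_cast
    ring

theorem stmt_Units : Stmt_Units := by
  classical
  intro ι _ F u p b hu hloc
  obtain ⟨P, v, hv, hP⟩ := hloc
  choose M A hA h using fun i : ℕ => unit_commute u _ (P.coeff i).2
  -- a common exponent
  set n := P.natDegree + 1 with hn
  set N := ∑ i ∈ Finset.range n, M i + 1 with hN
  have hMN : ∀ i ∈ Finset.range n, M i + 1 ≤ N := by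
    intro i hi
    have := Finset.single_le_sum (f := M) (fun _ _ => Nat.zero_le _) hi
    omega
  -- the family
  set B : ℤ → Module.End ℂ (MvPolynomial ι ℂ) := ∑ i ∈ Finset.range n,
    (fun z : ℤ => (z : ℂ) • (1 : Module.End ℂ (MvPolynomial ι ℂ))) ^ i *
      ((fun _ => LinearMap.mulLeft ℂ (u ^ (N - M i))) * fun z => A i (z + 1)) with hB
  have hBmem : B ∈ PolyFam ι := by
    refine sum_mem fun i _ => mul_mem (pow_mem polyFam_id i)
      (mul_mem (polyFam_const (mulLeft_mem_Weyl _)) (polyFam_shift 1 _ (hA i)))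
  obtain ⟨P', hP'⟩ := exists_of_polyFam B hBmem
  have hu0 : u ≠ 0 := by
    rintro rfl
    simp at hu
  refine ⟨P', v * u ^ (N - 1), ?_, ?_⟩
  · rw [map_mul, map_pow]
    exact mul_ne_zero hv (pow_ne_zero _ hu)
  · filter_upwards [hP, Filter.eventually_ge_atTop N] with k hk hkN
    have hs : ∀ (i : ℕ) (g : MvPolynomial ι ℂ),
        (((fun z : ℤ => (z : ℂ) • (1 : Module.End ℂ (MvPolynomial ι ℂ))) ^ i) (k : ℤ)) g =
          C ((k : ℂ) ^ i) * g := by
      intro i g
      rw [Pi.pow_apply]
      induction i with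
      | zero => simp
      | succ i ih =>
          rw [pow_succ', Module.End.mul_apply, ih]
          simp only [LinearMap.smul_apply, Module.End.one_apply, Int.cast_natCast]
          rw [MvPolynomial.smul_eq_C_mul, pow_succ, map_mul]
          ring
    have h1 : u ^ (k + 1 - N) * wact P' k (F ^ (k + 1)) = wact P k ((F * u) ^ (k + 1)) := by
      rw [hP', hB, wact_eq_sum P k _ n (Nat.lt_succ_self _), Finset.sum_apply,
        LinearMap.sum_apply, Finset.mul_sum]
      refine Finset.sum_congr rfl fun i hi => ?_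
      have hMi := hMN i hi
      rw [Pi.mul_apply, Module.End.mul_apply, hs, Pi.mul_apply, Module.End.mul_apply,
        LinearMap.mulLeft_apply]
      have e := h i (k + 1 - M i) (F ^ (k + 1))
      rw [show k + 1 - M i + M i = k + 1 by omega] at e
      rw [mul_pow, mul_comm (F ^ (k + 1)), e]
      have e3 : u ^ (k + 1 - M i) = u ^ (k + 1 - N) * u ^ (N - M i) := by
        rw [← pow_add]
        congr 1
        omega
      rw [e3]
      have e4 : ((k : ℤ) + 1) = ((k + 1 : ℕ) : ℤ) := by push_cast; ring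
      rw [e4]
      ring
    have h2 : u ^ (k + 1 - N) * wact P' k (F ^ (k + 1)) =
        u ^ (k + 1 - N) * (C (b.eval (k : ℂ)) * (v * u ^ (N - 1) * F ^ k)) := by
      rw [h1, hk, mul_pow]
      have e3 : u ^ k = u ^ (k + 1 - N) * u ^ (N - 1) := by
        rw [← pow_add]
        congr 1
        omega
      rw [e3]
      ring
    exact mul_left_cancel₀ (pow_ne_zero _ hu0) h2

end Units

section Homog

variable {ι : Type}

/-- homogeneous operators of degree `j` -/
def HomOp (w : ι → ℕ) (j : ℤ) (W : Module.End ℂ (MvPolynomial ι ℂ)) : Prop :=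
  ∀ (m : ℕ) (h : MvPolynomial ι ℂ), IsWeightedHomogeneous w h m →
    W h = 0 ∨ ∃ m' : ℕ, (m' : ℤ) = m + j ∧ IsWeightedHomogeneous w (W h) m'

theorem homOp_mul {w : ι → ℕ} {j j' : ℤ} {W W' : Module.End ℂ (MvPolynomial ι ℂ)}
    (h : HomOp w j W) (h' : HomOp w j' W') : HomOp w (j + j') (W * W') := by
  intro m g hg
  rw [Module.End.mul_apply]
  rcases h' m g hg with h0 | ⟨m', hm', hg'⟩
  · left
    rw [h0, map_zero]
  · rcases h m' _ hg' with h0 | ⟨m'', hm'', hg''⟩
    · left
      exact h0
    · right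
      exact ⟨m'', by rw [hm'', hm']; ring, hg''⟩

theorem pderiv_homOp (w : ι → ℕ) (i : ι) :
    HomOp w (-(w i : ℤ)) (((pderiv i : Derivation ℂ (MvPolynomial ι ℂ) (MvPolynomial ι ℂ)) :
          MvPolynomial ι ℂ →ₗ[ℂ] MvPolynomial ι ℂ) : Module.End ℂ (MvPolynomial ι ℂ)) := by
  classical
  intro m h hh
  by_cases hw : w i ≤ m
  · right
    refine ⟨m - w i, by push_cast [hw]; ring, ?_⟩
    rw [h.as_sum, map_sum]
    refine IsWeightedHomogeneous.sum _ _ _ fun e he => ?_
    rw [Derivation.coeFn_coe, pderiv_monomial]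
    by_cases hei : e i = 0
    · rw [hei]
      simp only [Nat.cast_zero, mul_zero, map_zero]
      exact isWeightedHomogeneous_zero _ _ _
    · have hwt : Finsupp.weight w e = m := hh (mem_support_iff.mp he)
      refine isWeightedHomogeneous_monomial _ _ _ ?_
      have hle : Finsupp.single i 1 ≤ e := by
        rw [Finsupp.single_le_iff]
        exact Nat.one_le_iff_ne_zero.mpr hei
      have h2 : Finsupp.weight w (e - Finsupp.single i 1) +
          Finsupp.weight w (Finsupp.single i 1) = m := by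
        rw [← map_add, tsub_add_cancel_of_le hle, hwt]
      rw [Finsupp.weight_single] at h2
      simp only [one_smul] at h2
      omega
  · left
    rw [h.as_sum, map_sum]
    refine Finset.sum_eq_zero fun e he => ?_
    rw [Derivation.coeFn_coe, pderiv_monomial]
    have hwt : Finsupp.weight w e = m := hh (mem_support_iff.mp he)
    have hei : e i = 0 := by
      by_contra hne
      apply hw
      rw [← hwt]
      exact Finsupp.le_weight_of_ne_zero (w := w) (f := e) (s := i) (fun _ => Nat.zero_le _) hne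
    rw [hei]
    simp

/-- the homogeneous part of a differential operator -/
theorem homog_part (w : ι → ℕ) (j : ℤ) (Q : Module.End ℂ (MvPolynomial ι ℂ)) (hQ : Q ∈ Weyl ι) :
    ∃ Q' ∈ Weyl ι, ∀ (m : ℕ) (h : MvPolynomial ι ℂ), IsWeightedHomogeneous w h m →
      ∀ m' : ℕ, (m' : ℤ) = m + j → weightedHomogeneousComponent w m' (Q h) = Q' h := by
  classical
  set gens := (Set.range (fun i => LinearMap.mulLeft ℂ (X i : MvPolynomial ι ℂ)) ∪
    Set.range (fun i => ((pderiv i : Derivation ℂ (MvPolynomial ι ℂ) (MvPolynomial ι ℂ)) :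
      MvPolynomial ι ℂ →ₗ[ℂ] MvPolynomial ι ℂ)) : Set (Module.End ℂ (MvPolynomial ι ℂ)))
    with hgens
  have hW : Weyl ι = Algebra.adjoin ℂ gens := rfl
  have hspan : Q ∈ Submodule.span ℂ (Submonoid.closure gens : Set (Module.End ℂ
      (MvPolynomial ι ℂ))) := by
    rw [← Algebra.adjoin_eq_span]
    exact hQ
  have hcl : ∀ W ∈ Submonoid.closure gens, ∃ j0, HomOp w j0 W := by
    intro W hW
    induction hW using Submonoid.closure_induction with
    | mem W hW =>
        rcases hW with ⟨i, rfl⟩ | ⟨i, rfl⟩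
        · refine ⟨w i, fun m h hh => Or.inr ⟨w i + m, by push_cast; ring, ?_⟩⟩
          exact (isWeightedHomogeneous_X ℂ w i).mul hh
        · exact ⟨_, pderiv_homOp w i⟩
    | one => exact ⟨0, fun m h hh => Or.inr ⟨m, by ring, hh⟩⟩
    | mul W W' _ _ h h' =>
        obtain ⟨j1, h1⟩ := h
        obtain ⟨j2, h2⟩ := h'
        exact ⟨_, homOp_mul h1 h2⟩
  clear hQ
  induction hspan using Submodule.span_induction with
  | mem W hWm =>
      obtain ⟨j0, hj0⟩ := hcl W hWm
      by_cases hj : j0 = j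
      · subst hj
        refine ⟨W, ?_, fun m h hh m' hm' => ?_⟩
        · have : (Submonoid.closure gens : Set (Module.End ℂ (MvPolynomial ι ℂ))) ⊆
            Weyl ι := by
            rw [hW]
            exact (Submonoid.closure_le (S := (Algebra.adjoin ℂ gens).toSubmonoid)).mpr
              Algebra.subset_adjoin
          exact this hWm
        · rcases hj0 m h hh with h0 | ⟨m'', hm'', hg⟩
          · rw [h0, map_zero]
          · have : m'' = m' := by
              have : (m'' : ℤ) = m' := by rw [hm'', hm']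
              exact_mod_cast this
            subst this
            exact hg.weightedHomogeneousComponent_same
      · refine ⟨0, zero_mem _, fun m h hh m' hm' => ?_⟩
        rcases hj0 m h hh with h0 | ⟨m'', hm'', hg⟩
        · rw [h0, map_zero, LinearMap.zero_apply]
        · have hne : m' ≠ m'' := by
            rintro rfl
            apply hj
            linarith
          rw [LinearMap.zero_apply]
          exact hg.weightedHomogeneousComponent_ne _ hne
  | zero => exact ⟨0, zero_mem _, fun m h hh m' hm' => by simp⟩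
  | add Q1 Q2 _ _ h1 h2 =>
      obtain ⟨Q1', m1, e1⟩ := h1 
      obtain ⟨Q2', m2, e2⟩ := h2
      refine ⟨Q1' + Q2', add_mem m1 m2, fun m h hh m' hm' => ?_⟩
      rw [LinearMap.add_apply, map_add, e1 m h hh m' hm', e2 m h hh m' hm', LinearMap.add_apply]
  | smul c Q1 _ h1 =>
      obtain ⟨Q1', m1, e1⟩ := h1
      refine ⟨c • Q1', Subalgebra.smul_mem _ m1 c, fun m h hh m' hm' => ?_⟩
      rw [LinearMap.smul_apply, map_smul, e1 m h hh m' hm', LinearMap.smul_apply]

/-- the component of degree `m` of `v g`, `g` homogeneous of degree `m` -/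
theorem comp_mul (w : ι → ℕ) (hw : ∀ i, 1 ≤ w i) (v g : MvPolynomial ι ℂ) (m : ℕ)
    (hg : IsWeightedHomogeneous w g m) :
    weightedHomogeneousComponent w m (v * g) = C (constantCoeff v) * g := by
  classical
  conv_lhs => rw [v.as_sum, Finset.sum_mul, map_sum]
  have h1 : ∀ e ∈ v.support, weightedHomogeneousComponent w m (monomial e (coeff e v) * g) =
      if e = 0 then C (constantCoeff v) * g else 0 := by
    intro e _
    by_cases he : e = 0
    · subst he
      rw [if_pos rfl]
      have : (monomial 0 (coeff 0 v) : MvPolynomial ι ℂ) = C (constantCoeff v) := rfl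
      rw [this]
      have h2 : IsWeightedHomogeneous w (C (constantCoeff v) * g) m := by
        have := (isWeightedHomogeneous_C w (constantCoeff v)).mul hg
        rwa [zero_add] at this
      exact h2.weightedHomogeneousComponent_same
    · rw [if_neg he]
      have h2 : IsWeightedHomogeneous w (monomial e (coeff e v) * g)
          (Finsupp.weight w e + m) := (isWeightedHomogeneous_monomial w e _ rfl).mul hg
      refine h2.weightedHomogeneousComponent_ne _ ?_
      obtain ⟨i, hi⟩ : ∃ i, e i ≠ 0 := by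
        by_contra hcon
        push Not at hcon
        exact he (Finsupp.ext hcon)
      have := Finsupp.le_weight_of_ne_zero (w := w) (f := e) (s := i) (fun _ => Nat.zero_le _) hi
      have := hw i
      omega
  rw [Finset.sum_congr rfl h1]
  by_cases h0 : (0 : ι →₀ ℕ) ∈ v.support
  · rw [Finset.sum_ite_eq' v.support (0 : ι →₀ ℕ)]
    rw [if_pos h0]
  · rw [Finset.sum_ite_eq' v.support (0 : ι →₀ ℕ), if_neg h0]
    rw [notMem_support_iff] at h0
    have : constantCoeff v = 0 := h0
    rw [this]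
    simp

theorem stmt_Homog : Stmt_Homog := by
  intro ι _ w d F b hw hF hloc
  obtain ⟨P, v, hv, hP⟩ := hloc
  have hv0 : constantCoeff v ≠ 0 := by
    rw [← MvPolynomial.eval_zero]
    exact hv
  choose Q hQ hQc using fun i : ℕ => homog_part w (-(d : ℤ)) _ (P.coeff i).2
  obtain ⟨P', hP'⟩ := exists_wact (ι := ι) (P.natDegree + 1)
    (fun i => LinearMap.mulLeft ℂ (C (constantCoeff v)⁻¹) * Q i)
    (fun i => mul_mem (mulLeft_mem_Weyl _) (hQ i))
  refine ⟨P', ?_⟩
  filter_upwards [hP] with k hk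
  have hFk : ∀ k : ℕ, IsWeightedHomogeneous w (F ^ k) (k * d) := by
    intro k
    have := hF.pow k
    rwa [smul_eq_mul] at this
  have h1 : weightedHomogeneousComponent w (k * d) (wact P k (F ^ (k + 1))) =
      ∑ i ∈ Finset.range (P.natDegree + 1), C ((k : ℂ) ^ i) * Q i (F ^ (k + 1)) := by
    rw [wact_eq_sum P k _ _ (Nat.lt_succ_self _), map_sum]
    refine Finset.sum_congr rfl fun i _ => ?_
    rw [← MvPolynomial.smul_eq_C_mul, map_smul, ← MvPolynomial.smul_eq_C_mul]
    congr 1
    refine hQc i ((k + 1) * d) _ (hFk (k + 1)) (k * d) ?_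
    push_cast
    ring
  have h2 : weightedHomogeneousComponent w (k * d) (wact P k (F ^ (k + 1))) =
      C (b.eval (k : ℂ)) * (C (constantCoeff v) * F ^ k) := by
    rw [hk, ← MvPolynomial.smul_eq_C_mul, map_smul, comp_mul w hw v _ _ (hFk k),
      MvPolynomial.smul_eq_C_mul]
  have h3 : C (constantCoeff v)⁻¹ * C (constantCoeff v) = (1 : MvPolynomial ι ℂ) := by
    rw [← map_mul, inv_mul_cancel₀ hv0, map_one]
  calc wact P' k (F ^ (k + 1))
      = C (constantCoeff v)⁻¹ *
          ∑ i ∈ Finset.range (P.natDegree + 1), C ((k : ℂ) ^ i) * Q i (F ^ (k + 1)) := by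
        rw [hP', Finset.mul_sum]
        refine Finset.sum_congr rfl fun i _ => ?_
        rw [Module.End.mul_apply, LinearMap.mulLeft_apply]
        ring
    _ = C (b.eval (k : ℂ)) * F ^ k := by
        rw [← h1, h2]
        linear_combination (C (b.eval (k : ℂ)) * F ^ k) * h3

end Homog

end Pool.Agent.Mono
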