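import Pool.Agent.Work.Monodromy.X0

/-!
# Block X1: finite recursion
-/

set_option autoImplicit false

namespace Pool.Agent.Mono

open MvPolynomial

namespace X1aux

variable {ι κ : Type} [Fintype ι] [Fintype κ] [DecidableEq ι] [DecidableEq κ]

/-- insert a term into a piece -/
noncomputable def lift (q : Piece ι κ) (t : Term) : Term where
  σ := q.σ ⊕ t.σ
  fin := haveI := q.fin; haveI := t.fin; inferInstance
  S := pset q.S t.S
  u := pmul q.u t.u
  g := t.g
  l := q.l + t.l
  c := q.c + t.c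
  D := t.D

theorem lift_ok {q : Piece ι κ} {t : Term} {G : Set (ℕ × ℕ)} (hS : Constructible q.S)
    (hu : ∀ x ∈ q.S, eval x q.u ≠ 0) (ht : t.Ok G) : (lift q t).Ok G :=
  ⟨X0.psetC hS ht.1, X0.pmul_ne hu ht.2.1, ht.2.2.1, ht.2.2.2⟩

theorem lift_ser {q : Piece ι κ} {t : Term} {G : Set (ℕ × ℕ)} (hS : Constructible q.S)
    (ht : t.Ok G) {R : Type} [CommRing R] (μ : MotivicMeasure R) (Li : R)
    {E : Type} [Finite E] {B : Set (E → ℂ)} (h : MvPolynomial E ℂ) (hB : Constructible B) :
    haveI := q.fin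
    (lift q t).ser μ Li B h =
      PowerSeries.C (Li ^ q.l) * PowerSeries.X ^ q.c * t.ser μ Li (pset B q.S) (pmul h q.u) := by
  have := q.fin
  have := t.fin
  unfold Term.ser
  have h1 := X0.cls_assoc μ t.g h q.u t.u hB hS ht.1
  rw [h1]
  change PowerSeries.C (cls μ t.g B h (pset q.S t.S) (pmul q.u t.u) * Li ^ (q.l + t.l)) *
    PowerSeries.X ^ (q.c + t.c) * (t.D.map fun q => PowerSeries.C (μ.L - 1) * geo Li q).prod = _
  rw [pow_add, pow_add, map_mul, map_mul, map_mul]
  ring

theorem list_sum_mul {A : Type*} {S : Type*} [CommRing S] (ts : List A) (f : A → S) (a : S) :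
    (ts.map fun t => a * f t).sum = a * (ts.map f).sum := by
  induction ts with
  | nil => simp
  | cons t ts ih => simp [ih, mul_add]

theorem sumExpr (e : ℕ) (G : Set (ℕ × ℕ)) (qs : List (Piece ι κ)) :
    (∀ q ∈ qs, Constructible q.S ∧ (∀ x ∈ q.S, eval x q.u ≠ 0) ∧ HasExpr e q.D q.δ G) →
    ∃ ts : List Term, (∀ t ∈ ts, t.Ok G) ∧
      ∀ (R : Type) [CommRing R] (μ : MotivicMeasure R) (Li : R), μ.L * Li = 1 →
      ∀ (E : Type) [Finite E] (B : Set (E → ℂ)) (h : MvPolynomial E ℂ), Constructible B →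
        (∀ p ∈ B, eval p h ≠ 0) →
          (qs.map fun q => q.ser μ Li e B h).sum = (ts.map fun t => t.ser μ Li B h).sum := by
  induction qs with
  | nil =>
    intro _
    exact ⟨[], by simp, by intros; rfl⟩
  | cons q qs ih =>
    intro hq
    obtain ⟨ts, hts, hts2⟩ := ih fun q' hq' => hq q' (List.mem_cons_of_mem _ hq')
    obtain ⟨hS, hu, tq, htq, htq2⟩ := hq q List.mem_cons_self
    refine ⟨tq.map (lift q) ++ ts, ?_, ?_⟩
    · intro t ht
      rcases List.mem_append.1 ht with ht | ht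
      · obtain ⟨t', ht', rfl⟩ := List.mem_map.1 ht
        exact lift_ok hS hu (htq t' ht')
      · exact hts t ht
    · intro R _ μ Li hL E _ B h hB hh
      have := q.fin
      rw [List.map_append, List.sum_append, List.map_cons, List.sum_cons, hts2 R μ Li hL E B h hB hh]
      congr 1
      unfold Piece.ser
      rw [htq2 R μ Li hL (E ⊕ q.σ) (pset B q.S) (pmul h q.u) (X0.psetC hB hS) (X0.pmul_ne hh hu),
        List.map_map]
      refine (list_sum_mul tq (fun t : Term => t.ser μ Li (pset B q.S) (pmul h q.u))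
        (PowerSeries.C (Li ^ q.l) * PowerSeries.X ^ q.c)).symm.trans ?_
      congr 1
      apply List.map_congr_left
      intro t ht
      exact (lift_ser hS (htq t ht) μ Li h hB).symm

end X1aux

theorem stmt_X1 : Stmt_X1 := by
  intro ι κ _ _ _ _ e D δ G qs hq hZ
  obtain ⟨ts, hts, hts2⟩ := X1aux.sumExpr e G qs hq
  refine ⟨ts, hts, ?_⟩
  intro R _ μ Li hL E _ B h hB hh
  rw [hZ R μ Li hL E B h hB hh, hts2 R μ Li hL E B h hB hh]

end Pool.Agent.Mono
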