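import Pool.Agent.Work.Monodromy.X1

/-!
# Block X2: periodic recursion
-/

set_option autoImplicit false

namespace Pool.Agent.Mono

open MvPolynomial

namespace X2aux

variable {ι κ : Type} [Fintype ι] [Fintype κ] [DecidableEq ι] [DecidableEq κ]

/-- insert a term into a piece with a torus factor -/
noncomputable def lift (q : Piece ι κ) (S' : Set (q.σ → ℂ)) (n N ν : ℕ) (t : Term) : Term where
  σ := t.σ ⊕ q.σ
  fin := haveI := q.fin; haveI := t.fin; inferInstance
  S := pset t.S S'
  u := pmul t.u q.u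
  g := Nat.gcd t.g n
  l := q.l + t.l
  c := q.c + t.c
  D := (N, ν) :: t.D

theorem geo_mul {R : Type} [CommRing R] (Li : R) {N ν : ℕ} (hN : 1 ≤ N) :
    geo Li (N, ν) * (1 - PowerSeries.C (Li ^ ν) * PowerSeries.X ^ N) = 1 := by
  have h0 : geo Li (N, ν) * (1 - PowerSeries.C (Li ^ ν) * PowerSeries.X ^ N) =
      geo Li (N, ν) - PowerSeries.C (Li ^ ν) * (geo Li (N, ν) * PowerSeries.X ^ N) := by ring
  rw [h0]
  ext k
  rw [map_sub, PowerSeries.coeff_C_mul, PowerSeries.coeff_mul_X_pow', PowerSeries.coeff_one]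
  unfold geo
  rw [PowerSeries.coeff_mk, PowerSeries.coeff_mk]
  simp only
  rcases Nat.eq_zero_or_pos k with hk | hk
  · subst hk
    rw [if_pos (dvd_zero N), if_neg (by omega), if_pos rfl]
    simp
  · rw [if_neg (by omega : ¬k = 0)]
    by_cases hd : N ∣ k
    · obtain ⟨j, rfl⟩ := hd
      have hj : 1 ≤ j := Nat.pos_of_ne_zero (by rintro rfl; simp at hk)
      obtain ⟨i, rfl⟩ : ∃ i, j = i + 1 := ⟨j - 1, by omega⟩
      have e1 : N * (i + 1) - N = N * i := by
        rw [Nat.mul_succ, Nat.add_sub_cancel]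
      have e2 : N ≤ N * (i + 1) := Nat.le_mul_of_pos_right _ (Nat.succ_pos i)
      rw [if_pos (dvd_mul_right N _), if_pos e2, e1, if_pos (dvd_mul_right N _),
        Nat.mul_div_cancel_left _ hN, Nat.mul_div_cancel_left _ hN, ← pow_add]
      have e3 : ν + ν * i = ν * (i + 1) := by ring
      rw [e3, sub_self]
    · rw [if_neg hd]
      by_cases hNk : N ≤ k
      · have : ¬ N ∣ k - N := by
          intro h
          apply hd
          have := (Nat.dvd_add_right h).2 (dvd_refl N)
          rwa [Nat.sub_add_cancel hNk] at this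
        rw [if_pos hNk, if_neg this]
        simp
      · rw [if_neg hNk]
        simp

theorem sumExpr (e : ℕ) (G : Set (ℕ × ℕ)) {N ν : ℕ} (hG : (N, ν) ∈ G) (hN : 1 ≤ N)
    (qs : List (Piece ι κ)) :
    (∀ q ∈ qs, Constructible q.S ∧ (∀ x ∈ q.S, eval x q.u ≠ 0) ∧
      (haveI := q.fin; TorusSplit q.S q.u) ∧ HasExpr e q.D q.δ G) →
    ∃ ts : List Term, (∀ t ∈ ts, t.Ok G) ∧
      ∀ (R : Type) [CommRing R] (μ : MotivicMeasure R) (Li : R), μ.L * Li = 1 →
      ∀ (E : Type) [Finite E] (B : Set (E → ℂ)) (h : MvPolynomial E ℂ), Constructible B →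
        (∀ p ∈ B, eval p h ≠ 0) →
          geo Li (N, ν) * (qs.map fun q => q.ser μ Li e B h).sum =
            (ts.map fun t => t.ser μ Li B h).sum := by
  induction qs with
  | nil =>
    intro _
    exact ⟨[], by simp, by intros; simp⟩
  | cons q qs ih =>
    intro hq
    obtain ⟨ts, hts, hts2⟩ := ih fun q' hq' => hq q' (List.mem_cons_of_mem _ hq')
    obtain ⟨hS, hu, ⟨S', n, hS'S, hS', hT⟩, tq, htq, htq2⟩ := hq q List.mem_cons_self
    have := q.fin
    refine ⟨tq.map (lift q S' n N ν) ++ ts, ?_, ?_⟩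
    · intro t ht
      rcases List.mem_append.1 ht with ht | ht
      · obtain ⟨t', ht', rfl⟩ := List.mem_map.1 ht
        obtain ⟨h1, h2, h3, h4⟩ := htq t' ht'
        refine ⟨X0.psetC h1 hS', X0.pmul_ne h2 fun x hx => hu x (hS'S hx),
          Nat.gcd_pos_of_pos_left _ h3, ?_⟩
        intro d hd
        rcases List.mem_cons.1 hd with rfl | hd
        · exact ⟨hG, hN⟩
        · exact h4 d hd
      · exact hts t ht
    · intro R _ μ Li hL E _ B h hB hh
      rw [List.map_append, List.sum_append, List.map_cons, List.sum_cons, mul_add,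
        hts2 R μ Li hL E B h hB hh]
      congr 1
      unfold Piece.ser
      rw [htq2 R μ Li hL (E ⊕ q.σ) (pset B q.S) (pmul h q.u) (X0.psetC hB hS) (X0.pmul_ne hh hu),
        List.map_map, ← mul_assoc]
      refine (X1aux.list_sum_mul tq (fun t : Term => t.ser μ Li (pset B q.S) (pmul h q.u))
        (geo Li (N, ν) * (PowerSeries.C (Li ^ q.l) * PowerSeries.X ^ q.c))).symm.trans ?_
      congr 1
      apply List.map_congr_left
      intro t ht
      have := t.fin
      obtain ⟨h1, h2, h3, h4⟩ := htq t ht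
      unfold Term.ser
      have e1 := X0.cls_swap μ t.g h q.u t.u hB hS h1
      have e2 := hT R μ (E ⊕ t.σ) (pset B t.S) (pmul h t.u) t.g h3 (X0.psetC hB h1)
        (X0.pmul_ne hh h2)
      have e3 := X0.cls_assoc μ (Nat.gcd t.g n) h t.u q.u hB h1 hS'
      rw [e1, e2, e3]
      change _ = PowerSeries.C (cls μ (Nat.gcd t.g n) B h (pset t.S S') (pmul t.u q.u) *
        Li ^ (q.l + t.l)) * PowerSeries.X ^ (q.c + t.c) *
          (((N, ν) :: t.D).map fun q => PowerSeries.C (μ.L - 1) * geo Li q).prod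
      rw [List.map_cons, List.prod_cons, pow_add, pow_add, map_mul, map_mul, map_mul, map_mul]
      ring

end X2aux

theorem stmt_X2 : Stmt_X2 := by
  intro ι κ _ _ _ _ e D δ G qs N ν hG hN hq hZ
  obtain ⟨ts, hts, hts2⟩ := X2aux.sumExpr e G hG hN qs hq
  refine ⟨ts, hts, ?_⟩
  intro R _ μ Li hL E _ B h hB hh
  rw [← hts2 R μ Li hL E B h hB hh]
  have h1 := hZ R μ Li hL E B h hB hh
  have h2 := X2aux.geo_mul Li (ν := ν) hN
  have h3 : (1 - PowerSeries.C (Li ^ ν) * PowerSeries.X ^ N) * Zs μ Li e B h D δ =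
      (qs.map fun q => q.ser μ Li e B h).sum := by
    rw [sub_mul, one_mul]
    exact sub_eq_of_eq_add h1
  rw [← h3, ← mul_assoc, h2, one_mul]

end Pool.Agent.Mono
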