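import Pool.Agent.Work.Monodromy.YV

/-!
# Block YF: contact sets are cylinders
-/

set_option autoImplicit false
set_option linter.unusedSectionVars false

namespace Pool.Agent.Mono

open MvPolynomial

section arcs

variable {ι κ : Type} [Fintype ι] [Fintype κ] [DecidableEq ι] [DecidableEq κ]

/-- two power series which agree below `n` -/
lemma mk_eq_iff {A : Type} [CommRing A] (n : ℕ) (x y : PowerSeries A) :
    Ideal.Quotient.mk (Ideal.span {(PowerSeries.X : PowerSeries A) ^ n}) x =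
      Ideal.Quotient.mk (Ideal.span {(PowerSeries.X : PowerSeries A) ^ n}) y ↔
      ∀ l < n, PowerSeries.coeff l x = PowerSeries.coeff l y := by
  rw [Ideal.Quotient.eq, Ideal.mem_span_singleton, PowerSeries.X_pow_dvd_iff]
  apply forall_congr'
  intro l
  apply forall_congr'
  intro _
  rw [map_sub, sub_eq_zero]

/-- the coefficients of `F_δ` below `n` depend only on the coefficients below `n` of the arcs -/
lemma F_congr (D : Data ι κ) (δ : ι → ℕ) (n : ℕ) (x y : ι → PowerSeries ℂ)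
    (h : ∀ i, ∀ l < n, PowerSeries.coeff l (x i) = PowerSeries.coeff l (y i)) :
    ∀ l < n, PowerSeries.coeff l (D.F δ x) = PowerSeries.coeff l (D.F δ y) := by
  rw [← mk_eq_iff]
  have h1 : ∀ i, Ideal.Quotient.mk (Ideal.span {(PowerSeries.X : PowerSeries ℂ) ^ n}) (x i) =
      Ideal.Quotient.mk (Ideal.span {(PowerSeries.X : PowerSeries ℂ) ^ n}) (y i) :=
    fun i => (mk_eq_iff n _ _).2 (h i)
  unfold Data.F Data.formS
  simp only [map_mul, map_prod, map_pow, map_add, map_sum, h1]

/-- the same for the forms -/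
lemma formS_congr (D : Data ι κ) (δ : ι → ℕ) (n : ℕ) (x y : ι → PowerSeries ℂ)
    (h : ∀ i, ∀ l < n, PowerSeries.coeff l (x i) = PowerSeries.coeff l (y i)) (j : κ) :
    ∀ l < n, PowerSeries.coeff l (D.formS δ x j) = PowerSeries.coeff l (D.formS δ y j) := by
  rw [← mk_eq_iff]
  have h1 : ∀ i, Ideal.Quotient.mk (Ideal.span {(PowerSeries.X : PowerSeries ℂ) ^ n}) (x i) =
      Ideal.Quotient.mk (Ideal.span {(PowerSeries.X : PowerSeries ℂ) ^ n}) (y i) :=
    fun i => (mk_eq_iff n _ _).2 (h i)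
  unfold Data.formS
  simp only [map_mul, map_pow, map_add, map_sum, h1]

/-- `F_δ` over a `ℂ`-algebra -/
noncomputable def FA {A : Type} [CommRing A] (a : ℂ →+* A) (D : Data ι κ) (δ : ι → ℕ)
    (x : ι → PowerSeries A) : PowerSeries A :=
  (∏ i, x i ^ D.b i) * ∏ j, (PowerSeries.C (a (D.c0 j)) +
    ∑ i, PowerSeries.C (a (D.c j i)) * (PowerSeries.X ^ δ i * x i ^ D.a i)) ^ D.m j

omit [DecidableEq ι] [DecidableEq κ] in
lemma map_FA {A : Type} [CommRing A] (a : ℂ →+* A) (φ : A →+* ℂ) (h : ∀ c, φ (a c) = c)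
    (D : Data ι κ) (δ : ι → ℕ) (x : ι → PowerSeries A) :
    PowerSeries.map φ (FA a D δ x) = D.F δ (fun i => PowerSeries.map φ (x i)) := by
  unfold FA Data.F Data.formS
  simp only [map_mul, map_prod, map_pow, map_add, map_sum, PowerSeries.map_C, PowerSeries.map_X, h]

variable (T : Type)

/-- the generic arc of level `K` -/
noncomputable def garc (K : ι → ℕ) (i : ι) :
    PowerSeries (MvPolynomial (T ⊕ (Σ i, Fin (K i))) ℂ) :=
  PowerSeries.mk fun l => if h : l < K i then X (Sum.inr ⟨i, ⟨l, h⟩⟩) else 0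

omit [Fintype ι] [DecidableEq ι] in
lemma map_garc (K : ι → ℕ) (v : T ⊕ (Σ i, Fin (K i)) → ℂ) (i : ι) :
    PowerSeries.map (eval v) (garc T K i) = toArc K (fun s => v (Sum.inr s)) i := by
  ext l
  rw [PowerSeries.coeff_map, garc, PowerSeries.coeff_mk, coeff_toArc]
  split_ifs with h
  · rw [eval_X]
  · rw [map_zero]

/-- the coefficient `l` of `F_δ` as a polynomial in the coefficients of the arcs -/
noncomputable def cF (K : ι → ℕ) (D : Data ι κ) (δ : ι → ℕ) (l : ℕ) :
    MvPolynomial (T ⊕ (Σ i, Fin (K i))) ℂ :=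
  PowerSeries.coeff l (FA (C : ℂ →+* MvPolynomial (T ⊕ (Σ i, Fin (K i))) ℂ) D δ (garc T K))

omit [DecidableEq ι] [DecidableEq κ] in
lemma eval_cF (K : ι → ℕ) (D : Data ι κ) (δ : ι → ℕ) (l : ℕ) (v : T ⊕ (Σ i, Fin (K i)) → ℂ) :
    eval v (cF T K D δ l) = PowerSeries.coeff l (D.F δ (toArc K fun s => v (Sum.inr s))) := by
  rw [cF, ← PowerSeries.coeff_map, map_FA C (eval v) (fun c => eval_C c)]
  congr 2
  ext i : 1
  exact map_garc T K v i

end arcs

theorem stmt_YF : Stmt_YF := by
  intro ι κ _ _ _ _ E _ e B h D δ k hB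
  constructor
  · intro p x y hxy
    have h1 := F_congr D δ (k + 1) x y hxy
    have h2 : ∀ l < k, PowerSeries.coeff l (D.F δ x) = PowerSeries.coeff l (D.F δ y) :=
      fun l hl => h1 l (by omega)
    have h3 := h1 k (by omega)
    change (_ ∧ _ ∧ _ ∧ _) ↔ (_ ∧ _ ∧ _ ∧ _)
    simp only [h3]
    refine and_congr Iff.rfl (and_congr ?_ Iff.rfl)
    apply forall_congr'
    intro l
    apply forall_congr'
    intro hl
    rw [h2 l hl]
  · set K : ι → ℕ := fun _ => k + 1 with hK
    have h0 : sec K (contact e B h D δ k) =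
        {v : (E ⊕ Unit) ⊕ (Σ i, Fin (K i)) → ℂ | (fun p => v (Sum.inl (Sum.inl p))) ∈ B ∧
          (∀ l < k, eval v (cF (E ⊕ Unit) K D δ l) = 0) ∧ eval v (cF (E ⊕ Unit) K D δ k) ≠ 0 ∧
          eval v (X (Sum.inl (Sum.inr ())) ^ e) =
            eval v (rename (fun p => Sum.inl (Sum.inl p)) h * cF (E ⊕ Unit) K D δ k)} := by
      ext v
      simp only [Set.mem_ofPred_eq, eval_cF, map_mul, map_pow, eval_X, eval_rename]
      exact Iff.rfl
    rw [h0]
    refine Constructible.and (Constructible.comap _ hB) (Constructible.and ?_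
      (Constructible.and (Constructible.ne _) (Constructible.eq _ _)))
    exact Constructible.all_lt k fun l _ => Constructible.zero _

end Pool.Agent.Mono
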