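import Pool.Agent.Work.Monodromy.YM

/-!
# Blocks YK, YV: cylinders and volumes
-/

set_option autoImplicit false

namespace Pool.Agent.Mono

open MvPolynomial

section

variable {E ι : Type}

lemma coeff_toArc (K : ι → ℕ) (v : (Σ i, Fin (K i)) → ℂ) (i : ι) (l : ℕ) :
    PowerSeries.coeff l (toArc K v i) = if h : l < K i then v ⟨i, ⟨l, h⟩⟩ else 0 := by
  rw [toArc, PowerSeries.coeff_mk]

lemma coeff_toArc_lt (K : ι → ℕ) (v : (Σ i, Fin (K i)) → ℂ) (i : ι) (l : Fin (K i)) :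
    PowerSeries.coeff (l : ℕ) (toArc K v i) = v ⟨i, l⟩ := by
  rw [coeff_toArc, dif_pos l.2]

/-- membership of the arc truncated at a level `≥ K` -/
lemma mem_sec_iff {K K' : ι → ℕ} {C : Set ((E → ℂ) × (ι → PowerSeries ℂ))} (hKK : ∀ i, K i ≤ K' i)
    (hC : IsCyl K C) (v : E ⊕ (Σ i, Fin (K' i)) → ℂ) :
    v ∈ sec K' C ↔ (fun s : E ⊕ (Σ i, Fin (K i)) => v (Sum.map id
      (fun s => ⟨s.1, Fin.castLE (hKK s.1) s.2⟩) s)) ∈ sec K C := by
  change _ ∈ C ↔ _ ∈ C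
  apply hC.1
  intro i l hl
  rw [coeff_toArc, coeff_toArc, dif_pos hl, dif_pos (lt_of_lt_of_le hl (hKK i))]
  rfl

theorem stmt_YK : Stmt_YK := by
  intro E ι _ _ K K' C hKK hC
  refine ⟨fun p x y h => hC.1 p x y fun i l hl => h i l (lt_of_lt_of_le hl (hKK i)), ?_⟩
  have h1 := Constructible.comap (Sum.map id
      (fun s : Σ i, Fin (K i) => (⟨s.1, Fin.castLE (hKK s.1) s.2⟩ : Σ i, Fin (K' i)))) hC.2
    (ι := E ⊕ (Σ i, Fin (K' i)))
  have h2 : sec K' C = {x : E ⊕ (Σ i, Fin (K' i)) → ℂ | (fun j => x (Sum.map id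
      (fun s : Σ i, Fin (K i) => (⟨s.1, Fin.castLE (hKK s.1) s.2⟩ : Σ i, Fin (K' i))) j)) ∈
        sec K C} := by
    ext v
    exact mem_sec_iff hKK hC v
  rw [h2]
  exact h1

/-- the index set of the larger level -/
noncomputable def lev (E : Type) {ι : Type} {K K' : ι → ℕ} (hKK : ∀ i, K i ≤ K' i) :
    (E ⊕ (Σ i, Fin (K i))) ⊕ (Σ i, Fin (K' i - K i)) ≃ E ⊕ (Σ i, Fin (K' i)) :=
  (Equiv.sumAssoc _ _ _).trans (Equiv.sumCongr (Equiv.refl E)
    ((Equiv.sigmaSumDistrib (fun i => Fin (K i)) (fun i => Fin (K' i - K i))).symm.trans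
      (Equiv.sigmaCongrRight fun i => finSumFinEquiv.trans (finCongr (by
        have := hKK i
        omega)))))

lemma lev_inl (E : Type) {ι : Type} {K K' : ι → ℕ} (hKK : ∀ i, K i ≤ K' i)
    (s : E ⊕ (Σ i, Fin (K i))) : lev E hKK (Sum.inl s) = Sum.map id
      (fun s => ⟨s.1, Fin.castLE (hKK s.1) s.2⟩) s := by
  rcases s with s | ⟨i, l⟩
  · rfl
  · rfl

lemma val_sec [Finite E] [Fintype ι] {R : Type} [CommRing R] (μ : MotivicMeasure R) {K K' : ι → ℕ}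
    {C : Set ((E → ℂ) × (ι → PowerSeries ℂ))} (hKK : ∀ i, K i ≤ K' i) (hC : IsCyl K C) :
    μ.val (sec K' C) = μ.val (sec K C) * μ.L ^ (∑ i, (K' i - K i)) := by
  have h1 := μ.reindex (lev E hKK) (Constructible.comap Sum.inl hC.2
    (ι := (E ⊕ (Σ i, Fin (K i))) ⊕ (Σ i, Fin (K' i - K i))))
  have h2 : sec K' C = {x : E ⊕ (Σ i, Fin (K' i)) → ℂ | (fun j => x (lev E hKK j)) ∈
      {x : (E ⊕ (Σ i, Fin (K i))) ⊕ (Σ i, Fin (K' i - K i)) → ℂ |
        (fun i => x (Sum.inl i)) ∈ sec K C}} := by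
    ext v
    rw [mem_sec_iff hKK hC v]
    simp only [Set.mem_ofPred_eq, lev_inl]
  rw [h2, h1, μ.val_prod_univ hC.2]
  congr 2
  simp

/-- the normalised volumes at two comparable levels -/
lemma val_sec_mul [Finite E] [Fintype ι] {R : Type} [CommRing R] (μ : MotivicMeasure R) {Li : R}
    (hL : μ.L * Li = 1) {K K' : ι → ℕ} {C : Set ((E → ℂ) × (ι → PowerSeries ℂ))}
    (hKK : ∀ i, K i ≤ K' i) (hC : IsCyl K C) :
    μ.val (sec K' C) * Li ^ (∑ i, K' i) = μ.val (sec K C) * Li ^ (∑ i, K i) := by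
  have h1 : ∑ i, K' i = ∑ i, (K' i - K i) + ∑ i, K i := by
    rw [← Finset.sum_add_distrib]
    exact Finset.sum_congr rfl fun i _ => by
      have := hKK i
      omega
  rw [val_sec μ hKK hC, h1, pow_add, mul_assoc, ← mul_assoc (μ.L ^ _), ← mul_pow, hL, one_pow,
    one_mul]

theorem stmt_YV : Stmt_YV := by
  intro R _ μ Li hL E ι _ _ K C hC
  have h : ∃ K, IsCyl K C := ⟨K, hC⟩
  rw [vol, dif_pos h]
  rw [← val_sec_mul μ hL (K' := fun i => max (h.choose i) (K i)) (fun i => le_max_left _ _)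
      h.choose_spec,
    ← val_sec_mul μ hL (K' := fun i => max (h.choose i) (K i)) (fun i => le_max_right _ _) hC]

/-- volume of a set which is not a cylinder -/
lemma vol_of_not [Finite E] [Fintype ι] {R : Type} [CommRing R] (μ : MotivicMeasure R) (Li : R)
    {C : Set ((E → ℂ) × (ι → PowerSeries ℂ))} (h : ¬ ∃ K, IsCyl K C) : vol μ Li C = 0 := by
  rw [vol, dif_neg h]

end

end Pool.Agent.Mono
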