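import Pool.Agent.Work.Monodromy.X0

/-!
# Block ZB: change of the parameter set
-/

set_option autoImplicit false

namespace Pool.Agent.Mono

open MvPolynomial

theorem stmt_ZB (hYV : Stmt_YV) (hYF : Stmt_YF) : Stmt_ZB := by
  intro ι κ _ _ _ _ D δ R _ μ Li hL e E E' _ _ B h B' h' φ hB hB' hφ hh
  unfold Zs
  congr 1
  funext k
  have c1 := hYF ι κ E e B h D δ k hB
  have c2 := hYF ι κ E' e B' h' D δ k hB'
  rw [hYV R μ Li hL (E ⊕ Unit) ι _ _ c1, hYV R μ Li hL (E' ⊕ Unit) ι _ _ c2]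
  congr 1
  -- the polynomial map
  set K : ι → ℕ := fun _ => k + 1 with hK
  let ψ : (E' ⊕ Unit) ⊕ (Σ i, Fin (K i)) → MvPolynomial ((E ⊕ Unit) ⊕ (Σ i, Fin (K i))) ℂ :=
    Sum.elim (Sum.elim (fun j => rename (fun p => Sum.inl (Sum.inl p)) (φ j))
      (fun _ => X (Sum.inl (Sum.inr ())))) (fun s => X (Sum.inr s))
  have hψ1 : ∀ (x : (E ⊕ Unit) ⊕ (Σ i, Fin (K i)) → ℂ) (j : E'),
      eval x (ψ (Sum.inl (Sum.inl j))) = eval (fun p => x (Sum.inl (Sum.inl p))) (φ j) := by
    intro x j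
    change eval x (rename (fun p => Sum.inl (Sum.inl p)) (φ j)) = _
    rw [eval_rename]
    rfl
  have hψ2 : ∀ (x : (E ⊕ Unit) ⊕ (Σ i, Fin (K i)) → ℂ) (u : Unit),
      eval x (ψ (Sum.inl (Sum.inr u))) = x (Sum.inl (Sum.inr ())) := by
    intro x u
    exact eval_X _
  have hψ3 : ∀ (x : (E ⊕ Unit) ⊕ (Σ i, Fin (K i)) → ℂ) (s : Σ i, Fin (K i)),
      eval x (ψ (Sum.inr s)) = x (Sum.inr s) := by
    intro x s
    exact eval_X _
  apply μ.map _ _ ψ c1.2 c2.2
  refine ⟨?_, ?_, ?_⟩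
  · intro x hx
    obtain ⟨h1, h2, h3, h4⟩ := hx
    have h1' : (fun p => x (Sum.inl (Sum.inl p))) ∈ B := h1
    refine ⟨?_, ?_, ?_, ?_⟩
    · change (fun p => eval x (ψ (Sum.inl (Sum.inl p)))) ∈ B'
      simp only [hψ1]
      exact hφ.mapsTo h1'
    · change ∀ l < k, PowerSeries.coeff l (D.F δ (toArc K fun s => eval x (ψ (Sum.inr s)))) = 0
      simp only [hψ3]
      exact h2
    · change PowerSeries.coeff k (D.F δ (toArc K fun s => eval x (ψ (Sum.inr s)))) ≠ 0
      simp only [hψ3]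
      exact h3
    · change (eval x (ψ (Sum.inl (Sum.inr ())))) ^ e =
        eval (fun p => eval x (ψ (Sum.inl (Sum.inl p)))) h' *
          PowerSeries.coeff k (D.F δ (toArc K fun s => eval x (ψ (Sum.inr s))))
      simp only [hψ1, hψ2, hψ3]
      rw [← hh _ h1']
      exact h4
  · intro x hx y hy hxy
    have hx1 : (fun p => x (Sum.inl (Sum.inl p))) ∈ B := hx.1
    have hy1 : (fun p => y (Sum.inl (Sum.inl p))) ∈ B := hy.1
    have e1 : (fun p => x (Sum.inl (Sum.inl p))) = fun p => y (Sum.inl (Sum.inl p)) := by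
      apply hφ.injOn hx1 hy1
      funext j
      have := congrFun hxy (Sum.inl (Sum.inl j))
      simp only [hψ1] at this
      exact this
    funext z
    rcases z with (p | u) | s
    · exact congrFun e1 p
    · have := congrFun hxy (Sum.inl (Sum.inr ()))
      simp only [hψ2] at this
      exact this
    · have := congrFun hxy (Sum.inr s)
      simp only [hψ3] at this
      exact this
  · intro y hy
    obtain ⟨h1, h2, h3, h4⟩ := hy
    have h1' : (fun p => y (Sum.inl (Sum.inl p))) ∈ B' := h1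
    obtain ⟨p0, hp0, hp1⟩ := hφ.surjOn h1'
    let x : (E ⊕ Unit) ⊕ (Σ i, Fin (K i)) → ℂ :=
      Sum.elim (Sum.elim p0 (fun _ => y (Sum.inl (Sum.inr ())))) (fun s => y (Sum.inr s))
    have hp2 : ∀ j, eval p0 (φ j) = y (Sum.inl (Sum.inl j)) := fun j => congrFun hp1 j
    refine ⟨x, ⟨hp0, h2, h3, ?_⟩, ?_⟩
    · change y (Sum.inl (Sum.inr ())) ^ e = eval p0 h * PowerSeries.coeff k
        (D.F δ (toArc K fun s => y (Sum.inr s)))
      rw [hh p0 hp0]
      have e2 : (fun j => eval p0 (φ j)) = fun j => y (Sum.inl (Sum.inl j)) := funext hp2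
      rw [e2]
      exact h4
    · funext z
      rcases z with (j | u) | s
      · simp only [hψ1]
        exact hp2 j
      · simp only [hψ2]
        rfl
      · simp only [hψ3]
        rfl

end Pool.Agent.Mono
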