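import Pool.Agent.Work.Monodromy.YC

/-!
# Block YM: motivic measures
-/

set_option autoImplicit false

namespace Pool.Agent.Mono

open MvPolynomial

namespace MotivicMeasure

variable {R : Type} [CommRing R] (μ : MotivicMeasure R) {ι κ : Type} [Finite ι] [Finite κ]

lemma val_empty : μ.val (∅ : Set (ι → ℂ)) = 0 := by
  have h := μ.union (∅ : Set (ι → ℂ)) ∅ Constructible.empty Constructible.empty
    (Set.disjoint_empty _)
  rw [Set.union_empty] at h
  exact (left_eq_add.1 h)

/-- mutually inverse polynomial maps -/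
lemma val_of_inv {s : Set (ι → ℂ)} {t : Set (κ → ℂ)} (hs : Constructible s) (ht : Constructible t)
    (φ : κ → MvPolynomial ι ℂ) (ψ : (κ → ℂ) → (ι → ℂ))
    (h1 : ∀ x ∈ s, (fun j => eval x (φ j)) ∈ t) (h2 : ∀ y ∈ t, ψ y ∈ s)
    (h3 : ∀ x ∈ s, ψ (fun j => eval x (φ j)) = x)
    (h4 : ∀ y ∈ t, (fun j => eval (ψ y) (φ j)) = y) : μ.val s = μ.val t := by
  apply μ.map s t φ hs ht
  refine ⟨h1, ?_, ?_⟩
  · intro x hx y hy hxy
    rw [← h3 x hx, ← h3 y hy]
    exact congrArg ψ hxy
  · intro y hy
    exact ⟨ψ y, h2 y hy, h4 y hy⟩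

/-- polynomial bijections onto the image -/
lemma val_image {s : Set (ι → ℂ)} (hs : Constructible s) (φ : κ → MvPolynomial ι ℂ)
    (ht : Constructible ((fun x j => eval x (φ j)) '' s))
    (hinj : Set.InjOn (fun x j => eval x (φ j)) s) :
    μ.val ((fun x j => eval x (φ j)) '' s) = μ.val s :=
  (μ.map s _ φ hs ht hinj.bijOn_image).symm

/-- renaming the coordinates -/
lemma reindex (e : κ ≃ ι) {s : Set (κ → ℂ)} (hs : Constructible s) :
    μ.val {x : ι → ℂ | (fun j => x (e j)) ∈ s} = μ.val s := by
  apply μ.val_of_inv (Constructible.comap e hs) hs (fun j => X (e j)) (fun y i => y (e.symm i))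
  · intro x hx
    simp only [eval_X]
    exact hx
  · intro y hy
    simpa only [Set.mem_ofPred_eq, Equiv.symm_apply_apply] using hy
  · intro x _
    ext i
    simp only [eval_X, Equiv.apply_symm_apply]
  · intro y _
    ext j
    simp only [eval_X, Equiv.symm_apply_apply]

/-- a single point -/
lemma val_point (a : ι → ℂ) : μ.val {x : ι → ℂ | x = a} = 1 := by
  rw [← μ.point]
  symm
  apply μ.val_of_inv Constructible.univ (Constructible.point a) (fun i => C (a i))
    (fun _ i => Empty.elim i)
  · intro x _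
    simp only [Set.mem_ofPred_eq, eval_C]
  · intro y _
    exact Set.mem_univ _
  · intro x _
    ext i
    exact Empty.elim i
  · intro y hy
    simp only [Set.mem_ofPred_eq] at hy
    simp only [eval_C]
    exact hy.symm

/-- product with an affine space, abstract form -/
lemma val_prod {s : Set (ι → ℂ)} {t : Set (κ → ℂ)} (hs : Constructible s) (ht : Constructible t) :
    μ.val {x : ι ⊕ κ → ℂ | (fun i => x (Sum.inl i)) ∈ s ∧ (fun j => x (Sum.inr j)) ∈ t} =
      μ.val s * μ.val t := μ.prod s t hs ht

lemma val_pset {s : Set (ι → ℂ)} {t : Set (κ → ℂ)} (hs : Constructible s) (ht : Constructible t) :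
    μ.val (pset s t) = μ.val s * μ.val t := μ.prod s t hs ht

lemma val_univ_equiv (e : κ ≃ ι) : μ.val (Set.univ : Set (ι → ℂ)) = μ.val (Set.univ : Set (κ → ℂ)) :=
  μ.reindex e (s := Set.univ) Constructible.univ

lemma val_univ_fin (n : ℕ) : μ.val (Set.univ : Set (Fin n → ℂ)) = μ.L ^ n := by
  induction n with
  | zero =>
    rw [pow_zero, ← μ.point]
    exact μ.val_univ_equiv (Equiv.equivOfIsEmpty Empty (Fin 0))
  | succ n ih =>
    have e : Fin n ⊕ Unit ≃ Fin (n + 1) := (Equiv.sumCongr (Equiv.refl _) finOneEquiv.symm).trans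
      finSumFinEquiv
    rw [μ.val_univ_equiv e, pow_succ, ← ih, MotivicMeasure.L,
      ← μ.prod _ _ Constructible.univ Constructible.univ]
    congr 1
    ext x
    simp

/-- the measure of affine space -/
lemma val_univ (ι : Type) [Fintype ι] : μ.val (Set.univ : Set (ι → ℂ)) = μ.L ^ Fintype.card ι := by
  rw [μ.val_univ_equiv (Fintype.equivFin ι).symm, val_univ_fin]

/-- product with an affine space -/
lemma val_prod_univ {s : Set (ι → ℂ)} (hs : Constructible s) (κ : Type) [Fintype κ] :
    μ.val {x : ι ⊕ κ → ℂ | (fun i => x (Sum.inl i)) ∈ s} = μ.val s * μ.L ^ Fintype.card κ := by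
  rw [← μ.val_univ κ, ← μ.prod _ _ hs Constructible.univ]
  congr 1
  ext x
  simp

lemma val_diff {s t : Set (ι → ℂ)} (hs : Constructible s) (ht : Constructible t) (h : s ⊆ t) :
    μ.val (t \ s) = μ.val t - μ.val s := by
  have h1 := μ.union s (t \ s) hs (ht.diff hs) Set.disjoint_sdiff_right
  rw [Set.union_sdiff_cancel h] at h1
  rw [h1]
  ring

lemma val_compl {s : Set (ι → ℂ)} (hs : Constructible s) :
    μ.val sᶜ = μ.val (Set.univ : Set (ι → ℂ)) - μ.val s := by
  rw [Set.compl_eq_univ_sdiff, μ.val_diff hs Constructible.univ (Set.subset_univ _)]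

/-- finite disjoint unions -/
lemma val_biUnion {α : Type*} (F : Finset α) (s : α → Set (ι → ℂ))
    (hs : ∀ a ∈ F, Constructible (s a))
    (hd : ∀ a ∈ F, ∀ b ∈ F, a ≠ b → Disjoint (s a) (s b)) :
    μ.val (⋃ a ∈ F, s a) = ∑ a ∈ F, μ.val (s a) := by
  classical
  induction F using Finset.induction_on with
  | empty => simp [μ.val_empty]
  | insert a F ha ih =>
    have hc : Constructible (⋃ b ∈ F, s b) := by
      have h := Constructible.ex_finset F (p := fun b x => x ∈ s b)
        (fun b hb => hs b (Finset.mem_insert_of_mem hb))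
      have h2 : (⋃ b ∈ F, s b) = {x | ∃ b ∈ F, x ∈ s b} := by ext x; simp
      rw [h2]
      exact h
    rw [Finset.set_biUnion_insert, μ.union _ _ (hs a (Finset.mem_insert_self a F)) hc,
      Finset.sum_insert ha, ih (fun b hb => hs b (Finset.mem_insert_of_mem hb))
        (fun b hb c hc => hd b (Finset.mem_insert_of_mem hb) c (Finset.mem_insert_of_mem hc))]
    rw [Set.disjoint_iUnion₂_right]
    intro b hb
    apply hd a (Finset.mem_insert_self a F) b (Finset.mem_insert_of_mem hb)
    rintro rfl
    exact ha hb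

/-- decomposition according to finitely many values -/
lemma val_fibers {α : Type*} [Fintype α] {s : Set (ι → ℂ)} (f : (ι → ℂ) → α)
    (hs : ∀ a, Constructible {x | x ∈ s ∧ f x = a}) :
    μ.val s = ∑ a, μ.val {x | x ∈ s ∧ f x = a} := by
  classical
  rw [← μ.val_biUnion Finset.univ (fun a => {x | x ∈ s ∧ f x = a}) (fun a _ => hs a)]
  · congr 1
    ext x
    simp
  · intro a _ b _ hab
    rw [Set.disjoint_left]
    rintro x ⟨_, h1⟩ ⟨_, h2⟩
    exact hab (h1.symm.trans h2)

end MotivicMeasure

/-- invariance under rational bijections -/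
theorem stmt_YM : Stmt_YM := by
  intro R _ μ ι κ _ _ s t num den hs ht hden hbij
  set s' : Set (ι ⊕ Unit → ℂ) := {x | (fun i => x (Sum.inl i)) ∈ s ∧
    x (Sum.inr ()) * eval (fun i => x (Sum.inl i)) den = 1} with hs'
  have hs'c : Constructible s' := by
    refine Constructible.and (Constructible.comap Sum.inl hs) ?_
    have h2 := Constructible.eq (X (Sum.inr ()) * rename Sum.inl den : MvPolynomial (ι ⊕ Unit) ℂ) 1
    have h3 : {x : ι ⊕ Unit → ℂ | x (Sum.inr ()) * eval (fun i => x (Sum.inl i)) den = 1} =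
        {v | eval v (X (Sum.inr ()) * rename Sum.inl den) = eval v 1} := by
      ext v
      simp only [Set.mem_ofPred_eq, map_mul, eval_X, eval_rename, map_one]
      rfl
    rw [h3]
    exact h2
  have e1 : μ.val s' = μ.val s := by
    apply μ.val_of_inv hs'c hs (fun i => X (Sum.inl i))
      (fun y => Sum.elim y fun _ => (eval y den)⁻¹)
    · intro x hx
      simpa only [eval_X] using hx.1
    · intro y hy
      refine ⟨hy, ?_⟩
      exact inv_mul_cancel₀ (hden y hy)
    · intro x hx
      ext i
      rcases i with i | ⟨⟩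
      · simp only [eval_X, Sum.elim_inl]
      · simp only [eval_X, Sum.elim_inr]
        exact (eq_inv_of_mul_eq_one_left hx.2).symm
    · intro y _
      ext i
      simp only [eval_X, Sum.elim_inl]
  have e2 : μ.val s' = μ.val t := by
    have hmap : ∀ x ∈ s', (fun j => eval x (rename Sum.inl (num j) * X (Sum.inr ()))) =
        fun j => eval (fun i => x (Sum.inl i)) (num j) / eval (fun i => x (Sum.inl i)) den := by
      intro x hx
      ext j
      rw [map_mul, eval_X, eval_rename, div_eq_mul_inv]
      congr 1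
      exact eq_inv_of_mul_eq_one_left hx.2
    apply μ.map s' t (fun j => rename Sum.inl (num j) * X (Sum.inr ())) hs'c ht
    refine ⟨?_, ?_, ?_⟩
    · intro x hx
      have := hbij.1 hx.1
      change (fun j => eval x (rename Sum.inl (num j) * X (Sum.inr ()))) ∈ t
      rw [hmap x hx]
      exact this
    · intro x hx y hy hxy
      have h1 : (fun i => x (Sum.inl i)) = fun i => y (Sum.inl i) := by
        apply hbij.2.1 hx.1 hy.1
        have h2 := hmap x hx
        have h3 := hmap y hy
        simp only at hxy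
        rw [h2, h3] at hxy
        exact hxy
      ext i
      rcases i with i | ⟨⟩
      · exact congrFun h1 i
      · have h2 := hx.2
        have h3 := hy.2
        rw [← h1] at h3
        exact mul_right_cancel₀ (hden _ hx.1) (h2.trans h3.symm)
    · intro y hy
      obtain ⟨x, hx, rfl⟩ := hbij.2.2 hy
      have hx' : (Sum.elim x fun _ => (eval x den)⁻¹ : ι ⊕ Unit → ℂ) ∈ s' :=
        ⟨hx, inv_mul_cancel₀ (hden x hx)⟩
      exact ⟨_, hx', hmap _ hx'⟩
  rw [← e1, e2]

end Pool.Agent.Mono
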