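import Pool.Agent.Work.Monodromy.GJet
import Pool.Agent.Work.Monodromy.GL
import Pool.Agent.Work.Monodromy.Loc
import Pool.Agent.Work.Monodromy.YM

/-!
# Block ZL: the zeta function over a stratum with a local model
-/

set_option autoImplicit false
set_option linter.unusedSectionVars false

namespace Pool.Agent.Mono

open MvPolynomial

namespace ZLAux

/-! ### substitution `z_i ↦ t z_i(t)` -/

section Sub

variable {ι : Type} [Fintype ι]

theorem hsub (z : ι → PowerSeries ℂ) :
    MvPowerSeries.HasSubst (fun i => (PowerSeries.X * z i : PowerSeries ℂ)) := by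
  refine MvPowerSeries.hasSubst_of_constantCoeff_zero fun i => ?_
  change PowerSeries.constantCoeff (PowerSeries.X * z i) = 0
  simp

/-- the substitution -/
noncomputable def sv (z : ι → PowerSeries ℂ) : MvPowerSeries ι ℂ →ₐ[ℂ] PowerSeries ℂ :=
  MvPowerSeries.substAlgHom (hsub z)

theorem sv_coe (z : ι → PowerSeries ℂ) (p : MvPolynomial ι ℂ) :
    sv z (p : MvPowerSeries ι ℂ) = aeval (fun i => PowerSeries.X * z i) p :=
  MvPowerSeries.substAlgHom_coe (hsub z) p

theorem sv_C (z : ι → PowerSeries ℂ) (c : ℂ) :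
    sv z (MvPowerSeries.C c) = PowerSeries.C c := by
  have h : (MvPowerSeries.C c : MvPowerSeries ι ℂ) = algebraMap ℂ (MvPowerSeries ι ℂ) c := rfl
  rw [h, AlgHom.commutes]
  rfl

variable [DecidableEq ι]

/-- multi-indices of degree at most `N` -/
noncomputable def T (ι : Type) [Fintype ι] [DecidableEq ι] (N : ℕ) : Finset (ι →₀ ℕ) :=
  (Finset.range (N + 1)).biUnion fun m => Finset.finsuppAntidiag Finset.univ m

theorem mem_T {N : ℕ} {d : ι →₀ ℕ} : d ∈ T ι N ↔ ∑ i, d i ≤ N := by
  unfold T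
  rw [Finset.mem_biUnion]
  constructor
  · rintro ⟨m, hm, hd⟩
    rw [Finset.mem_range] at hm
    rw [Finset.mem_finsuppAntidiag] at hd
    rw [hd.1]
    omega
  · intro h
    refine ⟨∑ i, d i, Finset.mem_range.2 (by omega), ?_⟩
    rw [Finset.mem_finsuppAntidiag]
    exact ⟨rfl, Finset.subset_univ _⟩

/-- the contribution of the monomial `d` to the coefficient `l` -/
noncomputable def mon (z : ι → PowerSeries ℂ) (d : ι →₀ ℕ) (l : ℕ) : ℂ :=
  if ∑ i, d i ≤ l then PowerSeries.coeff (l - ∑ i, d i) (∏ i, z i ^ d i) else 0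

theorem coeff_sv (z : ι → PowerSeries ℂ) (F : MvPowerSeries ι ℂ) {l N : ℕ} (h : l ≤ N) :
    PowerSeries.coeff l (sv z F) = ∑ d ∈ T ι N, MvPowerSeries.coeff d F * mon z d l := by
  have h1 : ∀ d : ι →₀ ℕ, PowerSeries.coeff l
      (d.prod fun s e => (PowerSeries.X * z s : PowerSeries ℂ) ^ e) = mon z d l := by
    intro d
    rw [Finsupp.prod_fintype _ _ (fun i => pow_zero _)]
    have h2 : ∏ i, (PowerSeries.X * z i : PowerSeries ℂ) ^ d i =
        PowerSeries.X ^ (∑ i, d i) * ∏ i, z i ^ d i := by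
      rw [← Finset.prod_pow_eq_pow_sum, ← Finset.prod_mul_distrib]
      exact Finset.prod_congr rfl fun i _ => mul_pow _ _ _
    rw [h2, PowerSeries.coeff_X_pow_mul']
    rfl
  have h3 : PowerSeries.coeff l (sv z F) = MvPowerSeries.coeff (Finsupp.single () l)
      (MvPowerSeries.subst (fun i => (PowerSeries.X * z i : PowerSeries ℂ)) F) := by
    rw [← MvPowerSeries.substAlgHom_apply (hsub z)]
    rfl
  rw [h3, MvPowerSeries.coeff_subst (hsub z), finsum_eq_sum_of_support_subset (s := T ι N)]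
  · refine Finset.sum_congr rfl fun d _ => ?_
    rw [smul_eq_mul]
    congr 1
    exact h1 d
  · intro d hd
    rw [Function.mem_support] at hd
    rw [Finset.mem_coe, mem_T]
    by_contra hlt
    apply hd
    have h4 := h1 d
    rw [mon, if_neg (by omega)] at h4
    have h5 : MvPowerSeries.coeff (Finsupp.single () l)
        (d.prod fun s e => (PowerSeries.X * z s : PowerSeries ℂ) ^ e) = 0 := h4
    rw [h5, smul_zero]

theorem sv_zero (z : ι → PowerSeries ℂ) (F : MvPowerSeries ι ℂ) :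
    PowerSeries.constantCoeff (sv z F) = MvPowerSeries.constantCoeff F := by
  rw [← PowerSeries.coeff_zero_eq_constantCoeff_apply, coeff_sv z F le_rfl,
    Finset.sum_eq_single (0 : ι →₀ ℕ)]
  · simp [mon]
  · intro d hd hd0
    exfalso
    apply hd0
    rw [mem_T] at hd
    ext i
    have := Finset.single_le_sum (f := fun i => d i) (fun i _ => Nat.zero_le _)
      (Finset.mem_univ i)
    simpa using (by omega : d i = 0)
  · intro h
    exact absurd (mem_T.2 (by simp)) h

theorem prod_agree {z z' : ι → PowerSeries ℂ} {n : ℕ}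
    (h : ∀ i, ∀ l < n, PowerSeries.coeff l (z i) = PowerSeries.coeff l (z' i)) (d : ι →₀ ℕ) :
    ∀ l < n, PowerSeries.coeff l (∏ i, z i ^ d i) = PowerSeries.coeff l (∏ i, z' i ^ d i) := by
  rw [← mk_eq_iff, map_prod, map_prod]
  refine Finset.prod_congr rfl fun i _ => ?_
  rw [map_pow, map_pow, (mk_eq_iff n _ _).2 (h i)]

theorem mon_agree {z z' : ι → PowerSeries ℂ} {n : ℕ}
    (h : ∀ i, ∀ l < n, PowerSeries.coeff l (z i) = PowerSeries.coeff l (z' i)) {d : ι →₀ ℕ}
    {l : ℕ} (hl : l < n + ∑ i, d i ∨ d = 0) : mon z d l = mon z' d l := by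
  unfold mon
  split_ifs with h1
  · rcases hl with hl | hl
    · exact prod_agree h d _ (by omega)
    · subst hl; simp
  · rfl

/-- agreement of the substitutions -/
theorem sv_agree {z z' : ι → PowerSeries ℂ} {n : ℕ}
    (h : ∀ i, ∀ l < n, PowerSeries.coeff l (z i) = PowerSeries.coeff l (z' i))
    (F : MvPowerSeries ι ℂ) {l : ℕ} (hl : l ≤ n) :
    PowerSeries.coeff l (sv z F) = PowerSeries.coeff l (sv z' F) := by
  rw [coeff_sv z F le_rfl, coeff_sv z' F le_rfl]
  refine Finset.sum_congr rfl fun d _ => ?_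
  rw [mon_agree h]
  by_cases hd : d = 0
  · exact Or.inr hd
  · left
    have : 0 < ∑ i, d i := by
      rw [Nat.pos_iff_ne_zero]
      intro h0
      apply hd
      rw [Finset.sum_eq_zero_iff] at h0
      ext i
      exact h0 i (Finset.mem_univ i)
    omega

/-- first order variation -/
theorem sv_diff {z z' : ι → PowerSeries ℂ} {n : ℕ}
    (h : ∀ i, ∀ l < n, PowerSeries.coeff l (z i) = PowerSeries.coeff l (z' i))
    (F : MvPowerSeries ι ℂ) :
    PowerSeries.coeff (n + 1) (sv z F) - PowerSeries.coeff (n + 1) (sv z' F) =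
      ∑ j, MvPowerSeries.coeff (Finsupp.single j 1) F *
        (PowerSeries.coeff n (z j) - PowerSeries.coeff n (z' j)) := by
  rw [coeff_sv z F le_rfl, coeff_sv z' F le_rfl, ← Finset.sum_sub_distrib]
  have hinj : Function.Injective (fun j : ι => (Finsupp.single j 1 : ι →₀ ℕ)) := by
    intro a b hab
    exact (Finsupp.single_left_inj (one_ne_zero)).1 hab
  have hsub : Finset.univ.image (fun j : ι => (Finsupp.single j 1 : ι →₀ ℕ)) ⊆ T ι (n + 1) := by
    intro d hd
    obtain ⟨j, _, rfl⟩ := Finset.mem_image.1 hd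
    rw [mem_T]
    simp [Finsupp.single_apply]
  rw [← Finset.sum_subset hsub, Finset.sum_image fun a _ b _ hab => hinj hab]
  · refine Finset.sum_congr rfl fun j _ => ?_
    have hz : ∀ z : ι → PowerSeries ℂ, mon z (Finsupp.single j 1) (n + 1) =
        PowerSeries.coeff n (z j) := by
      intro z
      have h1 : ∑ i, (Finsupp.single j 1 : ι →₀ ℕ) i = 1 := by simp [Finsupp.single_apply]
      unfold mon
      rw [h1, if_pos (by omega), Nat.add_sub_cancel, Finset.prod_eq_single j]
      · simp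
      · intro i _ hij
        rw [Finsupp.single_apply, if_neg (fun h => hij h.symm), pow_zero]
      · intro h; exact absurd (Finset.mem_univ _) h
    rw [hz, hz]
    ring
  · intro d hd hd'
    rw [mon_agree h, sub_self]
    by_cases hd0 : d = 0
    · exact Or.inr hd0
    · left
      by_contra hlt
      have hs : ∑ i, d i ≤ 1 := by omega
      have hpos : 0 < ∑ i, d i := by
        rw [Nat.pos_iff_ne_zero]
        intro h0
        apply hd0
        rw [Finset.sum_eq_zero_iff] at h0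
        ext i
        exact h0 i (Finset.mem_univ i)
      obtain ⟨j, _, hj⟩ := Finset.exists_ne_zero_of_sum_ne_zero (Nat.pos_iff_ne_zero.1 hpos)
      apply hd'
      rw [Finset.mem_image]
      refine ⟨j, Finset.mem_univ _, ?_⟩
      have h1 : ∑ i, d i = d j + ∑ i ∈ Finset.univ.erase j, d i :=
        (Finset.add_sum_erase _ _ (Finset.mem_univ j)).symm
      have h2 : ∑ i ∈ Finset.univ.erase j, d i = 0 := by omega
      rw [Finset.sum_eq_zero_iff] at h2
      ext i
      rw [Finsupp.single_apply]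
      split_ifs with hij
      · subst hij; omega
      · exact (h2 i (Finset.mem_erase.2 ⟨fun h => hij h.symm, Finset.mem_univ _⟩)).symm

end Sub

/-! ### the inverse function theorem for arcs -/

section Inv

variable {ι : Type} [Fintype ι] [DecidableEq ι] (Ψ : ι → MvPowerSeries ι ℂ)

theorem inj_arc (hJ : (Matrix.of fun i j => MvPowerSeries.coeff (Finsupp.single j 1) (Ψ i)).det ≠ 0)
    (z z' : ι → PowerSeries ℂ) (n : ℕ)
    (h : ∀ i, ∀ l ≤ n, PowerSeries.coeff l (sv z (Ψ i)) = PowerSeries.coeff l (sv z' (Ψ i))) :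
    ∀ i, ∀ l < n, PowerSeries.coeff l (z i) = PowerSeries.coeff l (z' i) := by
  induction n with
  | zero => intro i l hl; omega
  | succ n ih =>
    have h1 := ih fun i l hl => h i l (by omega)
    have h2 : Matrix.mulVec (Matrix.of fun i j => MvPowerSeries.coeff (Finsupp.single j 1) (Ψ i))
        (fun j => PowerSeries.coeff n (z j) - PowerSeries.coeff n (z' j)) = 0 := by
      funext i
      have h3 := sv_diff h1 (Ψ i)
      rw [h i (n + 1) le_rfl, sub_self] at h3
      rw [Pi.zero_apply, h3]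
      rfl
    have h4 := Matrix.eq_zero_of_mulVec_eq_zero hJ h2
    intro i l hl
    rcases Nat.lt_or_ge l n with hln | hln
    · exact h1 i l hln
    · have : l = n := by omega
      subst this
      exact sub_eq_zero.1 (congrFun h4 i)

theorem surj_arc (hJ : (Matrix.of fun i j => MvPowerSeries.coeff (Finsupp.single j 1) (Ψ i)).det ≠ 0)
    (x : ι → PowerSeries ℂ) (n : ℕ) : ∃ z : ι → PowerSeries ℂ,
      ∀ i, ∀ l < n, PowerSeries.coeff (l + 1) (sv z (Ψ i)) = PowerSeries.coeff (l + 1) (x i) := by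
  induction n with
  | zero => exact ⟨fun _ => 0, fun i l hl => by omega⟩
  | succ n ih =>
    obtain ⟨z, hz⟩ := ih
    set M := Matrix.of fun i j => MvPowerSeries.coeff (Finsupp.single j 1) (Ψ i) with hM
    set v : ι → ℂ := M⁻¹.mulVec fun i =>
      PowerSeries.coeff (n + 1) (x i) - PowerSeries.coeff (n + 1) (sv z (Ψ i)) with hv
    set z' : ι → PowerSeries ℂ := fun i => z i + PowerSeries.C (v i) * PowerSeries.X ^ n with hz'
    have h1 : ∀ i, ∀ l < n, PowerSeries.coeff l (z' i) = PowerSeries.coeff l (z i) := by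
      intro i l hl
      simp only [hz', map_add, PowerSeries.coeff_C_mul, PowerSeries.coeff_X_pow,
        if_neg (by omega : ¬ l = n), mul_zero, add_zero]
    refine ⟨z', fun i l hl => ?_⟩
    rcases Nat.lt_or_ge l n with hln | hln
    · rw [sv_agree h1 (Ψ i) (by omega), hz i l hln]
    · have : l = n := by omega
      subst this
      have h2 := sv_diff h1 (Ψ i)
      have h3 : ∀ j, PowerSeries.coeff l (z' j) - PowerSeries.coeff l (z j) = v j := by
        intro j
        simp only [hz', map_add, PowerSeries.coeff_C_mul, PowerSeries.coeff_X_pow, if_true,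
          mul_one, add_sub_cancel_left]
      have h4 : ∑ j, MvPowerSeries.coeff (Finsupp.single j 1) (Ψ i) *
          (PowerSeries.coeff l (z' j) - PowerSeries.coeff l (z j)) = M.mulVec v i := by
        simp only [h3]
        rfl
      have h5 : M.mulVec v = fun i =>
          PowerSeries.coeff (l + 1) (x i) - PowerSeries.coeff (l + 1) (sv z (Ψ i)) := by
        rw [hv, Matrix.mulVec_mulVec, Matrix.mul_nonsing_inv _ (isUnit_iff_ne_zero.2 hJ),
          Matrix.one_mulVec]
      rw [h4, h5] at h2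
      linear_combination h2

end Inv


/-! ### the identity `f(x) = u(tz) t^c F(z)` -/

section Ident

variable {ι κ : Type} [Fintype ι] [Fintype κ] [DecidableEq ι] [DecidableEq κ]

theorem aeval_form (D : Data ι κ) (hC : D.Central) (ha : ∀ i, 1 ≤ D.a i)
    (z : ι → PowerSeries ℂ) (j : κ) :
    aeval (fun i => PowerSeries.X * z i) (D.form j) =
      PowerSeries.X * D.formS (fun i => D.a i - 1) z j := by
  unfold Data.form Data.formS
  rw [hC j, map_zero, zero_add, map_zero, zero_add, map_sum, Finset.mul_sum]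
  refine Finset.sum_congr rfl fun i _ => ?_
  rw [map_mul, map_pow, aeval_X, aeval_C, mul_pow]
  have h1 : algebraMap ℂ (PowerSeries ℂ) (D.c j i) = PowerSeries.C (D.c j i) := rfl
  rw [h1]
  obtain ⟨m, hm⟩ : ∃ m, D.a i = m + 1 := ⟨D.a i - 1, by have := ha i; omega⟩
  simp only [hm, Nat.add_sub_cancel]
  ring

theorem aeval_poly (D : Data ι κ) (hC : D.Central) (ha : ∀ i, 1 ≤ D.a i)
    (z : ι → PowerSeries ℂ) :
    aeval (fun i => PowerSeries.X * z i) D.poly =
      PowerSeries.X ^ (∑ i, D.b i + ∑ j, D.m j) * D.F (fun i => D.a i - 1) z := by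
  unfold Data.poly Data.F
  rw [map_mul, map_prod, map_prod, pow_add, ← Finset.prod_pow_eq_pow_sum,
    ← Finset.prod_pow_eq_pow_sum]
  have h1 : ∏ i, aeval (fun i => PowerSeries.X * z i) (X i ^ D.b i : MvPolynomial ι ℂ) =
      (∏ i, (PowerSeries.X : PowerSeries ℂ) ^ D.b i) * ∏ i, z i ^ D.b i := by
    rw [← Finset.prod_mul_distrib]
    refine Finset.prod_congr rfl fun i _ => ?_
    rw [map_pow, aeval_X, mul_pow]
  have h2 : ∏ j, aeval (fun i => PowerSeries.X * z i) (D.form j ^ D.m j) =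
      (∏ j, (PowerSeries.X : PowerSeries ℂ) ^ D.m j) *
        ∏ j, D.formS (fun i => D.a i - 1) z j ^ D.m j := by
    rw [← Finset.prod_mul_distrib]
    refine Finset.prod_congr rfl fun j _ => ?_
    rw [map_pow, aeval_form D hC ha, mul_pow]
  rw [h1, h2]
  ring

/-- the arc with the coordinates `z` -/
noncomputable def xa (Ψ : ι → MvPowerSeries ι ℂ) (ξ : ι → ℂ) (z : ι → PowerSeries ℂ) :
    ι → PowerSeries ℂ := fun i => PowerSeries.C (ξ i) + sv z (Ψ i)

theorem aeval_xa (f : MvPolynomial ι ℂ) (Ψ : ι → MvPowerSeries ι ℂ) (ξ : ι → ℂ)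
    (z : ι → PowerSeries ℂ) : aeval (xa Ψ ξ z) f = sv z (expand f ξ Ψ) := by
  unfold expand
  rw [MvPolynomial.comp_aeval_apply]
  congr 2
  funext i
  rw [map_add, sv_C]
  rfl

theorem aeval_xa_eq (f : MvPolynomial ι ℂ) (D : Data ι κ) (hC : D.Central)
    (ha : ∀ i, 1 ≤ D.a i) (Ψ : ι → MvPowerSeries ι ℂ) (u : MvPowerSeries ι ℂ) (ξ : ι → ℂ)
    (h : expand f ξ Ψ = u * (D.poly : MvPowerSeries ι ℂ)) (z : ι → PowerSeries ℂ) :
    aeval (xa Ψ ξ z) f = sv z u * (PowerSeries.X ^ (∑ i, D.b i + ∑ j, D.m j) *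
      D.F (fun i => D.a i - 1) z) := by
  rw [aeval_xa, h, map_mul, sv_coe, aeval_poly D hC ha]

theorem xa_zero (Ψ : ι → MvPowerSeries ι ℂ) (ξ : ι → ℂ) (z : ι → PowerSeries ℂ)
    (h : ∀ i, MvPowerSeries.constantCoeff (Ψ i) = 0) (i : ι) :
    PowerSeries.constantCoeff (xa Ψ ξ z i) = ξ i := by
  rw [xa, map_add, sv_zero, h i, add_zero, PowerSeries.constantCoeff_C]

theorem xa_succ (Ψ : ι → MvPowerSeries ι ℂ) (ξ : ι → ℂ) (z : ι → PowerSeries ℂ) (i : ι) (l : ℕ) :
    PowerSeries.coeff (l + 1) (xa Ψ ξ z i) = PowerSeries.coeff (l + 1) (sv z (Ψ i)) := by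
  rw [xa, map_add, PowerSeries.coeff_C, if_neg (by omega), zero_add]

end Ident

/-! ### regular maps -/

section Regular

theorem reg_comap {ι σ : Type} {S : Set (ι → ℂ)} {s : Set (σ → ℂ)} (φ : (ι → ℂ) → ℂ)
    (h : RegularOn S φ) (g : ι → MvPolynomial σ ℂ)
    (hg : ∀ v ∈ s, (fun i => eval v (g i)) ∈ S) :
    RegularOn s fun v => φ fun i => eval v (g i) := by
  obtain ⟨n, d, hnd⟩ := h
  have h1 : ∀ (v : σ → ℂ) (p : MvPolynomial ι ℂ),
      eval v (aeval g p) = eval (fun i => eval v (g i)) p := by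
    intro v p
    induction p using MvPolynomial.induction_on with
    | C a => rw [aeval_C, algebraMap_eq, eval_C, eval_C]
    | add p q hp hq => rw [map_add, map_add, map_add, hp, hq]
    | mul_X p i hp => rw [map_mul, map_mul, map_mul, hp, aeval_X, eval_X]
  refine ⟨aeval g n, aeval g d, fun v hv => ?_⟩
  have h2 := hnd _ (hg v hv)
  rw [h1, h1]
  exact h2

theorem common_den {σ τ : Type} [Finite τ] {s : Set (σ → ℂ)} (φ : τ → (σ → ℂ) → ℂ)
    (h : ∀ j, RegularOn s (φ j)) : ∃ (num : τ → MvPolynomial σ ℂ) (den : MvPolynomial σ ℂ),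
      ∀ v ∈ s, eval v den ≠ 0 ∧ ∀ j, φ j v = eval v (num j) / eval v den := by
  classical
  have := Fintype.ofFinite τ
  choose n d hnd using h
  refine ⟨fun j => n j * ∏ j' ∈ Finset.univ.erase j, d j', ∏ j, d j, fun v hv => ⟨?_, ?_⟩⟩
  · rw [map_prod]
    exact Finset.prod_ne_zero_iff.2 fun j _ => (hnd j v hv).1
  · intro j
    rw [(hnd j v hv).2, map_mul, map_prod, map_prod,
      ← Finset.mul_prod_erase _ (fun j => eval v (d j)) (Finset.mem_univ j)]
    have h1 := (hnd j v hv).1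
    have h2 : ∏ j' ∈ Finset.univ.erase j, eval v (d j') ≠ 0 :=
      Finset.prod_ne_zero_iff.2 fun j' _ => (hnd j' v hv).1
    field_simp

end Regular

end ZLAux

open ZLAux in
theorem stmt_ZL : Stmt_ZL := by
  intro ι κ _ _ _ _ f S D hS hC ha hLM e he
  obtain ⟨Ψ, u, hΨ, hu, hloc⟩ := hLM
  obtain ⟨nu, du, hnd'⟩ := hu 0
  have hnd : ∀ ξ ∈ S, eval ξ du ≠ 0 ∧
      MvPowerSeries.coeff 0 (u ξ) = eval ξ nu / eval ξ du := hnd'
  refine ⟨nu * du ^ (e - 1), ?_, ?_⟩
  · intro ξ hξ
    have h1 := (hloc ξ hξ).2.2.1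
    rw [← MvPowerSeries.coeff_zero_eq_constantCoeff_apply, (hnd ξ hξ).2] at h1
    rw [map_mul, map_pow]
    refine mul_ne_zero (fun h => h1 ?_) (pow_ne_zero _ (hnd ξ hξ).1)
    rw [h, zero_div]
  intro R _ μ Li hLi
  set c := ∑ i, D.b i + ∑ j, D.m j with hc
  set δ : ι → ℕ := fun i => D.a i - 1 with hδ
  set h := nu * du ^ (e - 1) with hh
  -- contact, exact arcs
  have hcon : ∀ ξ ∈ S, ∀ (w' : ℂ) (z : ι → PowerSeries ℂ) (k : ℕ) (w : Unit → ℂ),
      w () = w' / eval ξ du →
      ((w, xa (Ψ ξ) ξ z) ∈ contactS e f S k ↔ c ≤ k ∧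
        ((Sum.elim ξ (fun _ => w') : ι ⊕ Unit → ℂ), z) ∈ contact e S h D δ (k - c)) := by
    intro ξ hξ w' z k w hw
    obtain ⟨h1, h2, h3, h4⟩ := hloc ξ hξ
    have h5 := aeval_xa_eq f D hC ha (Ψ ξ) (u ξ) ξ h4 z
    rw [← hc, ← hδ] at h5
    have h6 : PowerSeries.constantCoeff (sv z (u ξ)) ≠ 0 := by rw [sv_zero]; exact h3
    have key := LocX.ord_iff (sv z (u ξ)) (D.F δ z) c k h6 (fun t => w () ^ e = t)
    rw [← h5] at key
    have h7 : (fun i => PowerSeries.constantCoeff (xa (Ψ ξ) ξ z i)) = ξ :=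
      funext fun i => xa_zero (Ψ ξ) ξ z h1 i
    unfold contactS contact
    simp only [Set.mem_ofPred_eq]
    rw [h7, key]
    have h8 : (fun p => (Sum.elim ξ (fun _ => w') : ι ⊕ Unit → ℂ) (Sum.inl p)) = ξ := rfl
    rw [h8, Sum.elim_inr, sv_zero, hw]
    have h9 : MvPowerSeries.constantCoeff (u ξ) = eval ξ nu / eval ξ du := by
      rw [← MvPowerSeries.coeff_zero_eq_constantCoeff_apply, (hnd ξ hξ).2]
    have h10 : ∀ t : ℂ, ((w' / eval ξ du) ^ e = MvPowerSeries.constantCoeff (u ξ) * t ↔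
        w' ^ e = eval ξ h * t) := by
      intro t
      have hd := (hnd ξ hξ).1
      rw [h9, hh, map_mul, map_pow, div_pow, div_eq_iff (pow_ne_zero _ hd)]
      obtain ⟨e', rfl⟩ : ∃ e', e = e' + 1 := ⟨e - 1, by omega⟩
      rw [Nat.add_sub_cancel]
      have : eval ξ nu / eval ξ du * t * eval ξ du ^ (e' + 1) =
          eval ξ nu * eval ξ du ^ e' * t := by
        rw [pow_succ]; field_simp
      rw [this]
    rw [h10]
    tauto
  -- every arc has coordinates
  have hsurj : ∀ (ξ : ι → ℂ) (_ : ξ ∈ S) (x : ι → PowerSeries ℂ)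
      (_ : ∀ i, PowerSeries.constantCoeff (x i) = ξ i) (n : ℕ), ∃ z : ι → PowerSeries ℂ,
      ∀ i, ∀ l < n + 1, PowerSeries.coeff l (xa (Ψ ξ) ξ z i) = PowerSeries.coeff l (x i) := by
    intro ξ hξ x hx n
    obtain ⟨h1, h2, h3, h4⟩ := hloc ξ hξ
    obtain ⟨z, hz⟩ := surj_arc (Ψ ξ) h2 x n
    refine ⟨z, fun i l hl => ?_⟩
    rcases l with _ | l
    · rw [PowerSeries.coeff_zero_eq_constantCoeff_apply, xa_zero (Ψ ξ) ξ z h1 i,
        PowerSeries.coeff_zero_eq_constantCoeff_apply, hx i]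
    · rw [xa_succ, hz i l (by omega)]
  ext k
  rw [mul_assoc, PowerSeries.coeff_C_mul, PowerSeries.coeff_X_pow_mul', ZS,
    PowerSeries.coeff_mk]
  by_cases hck : c ≤ k
  swap
  · rw [if_neg hck, mul_zero]
    have hempty : contactS e f S k = ∅ := by
      ext ⟨w, x⟩
      simp only [Set.mem_empty_iff_false, iff_false]
      intro hwx
      obtain ⟨z, hz⟩ := hsurj _ hwx.1 x (fun i => rfl) (k + 1)
      have h1 := ((GJetAux.contactS_cyl e f S hS k).1 w _ x
        (fun i l hl => hz i l ((show l < k + 1 from hl).trans (Nat.lt_succ_self _)))).2 hwx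
      exact hck ((hcon _ hwx.1 (w () * eval (fun i => PowerSeries.constantCoeff (x i)) du)
        z k w (by rw [mul_div_cancel_right₀ _ (hnd _ hwx.1).1])).1 h1).1
    rw [hempty, vol_empty μ hLi]
  rw [if_pos hck, Zs, PowerSeries.coeff_mk]
  set K : ι → ℕ := fun _ => k + 2 with hK
  set K' : ι → ℕ := fun _ => k + 1 with hK'
  have hcyl : IsCyl K (contactS e f S k) :=
    stmt_YK Unit ι (fun _ => k + 1) K _ (fun i => by simp [hK])
      (GJetAux.contactS_cyl e f S hS k)
  have hcyl' : IsCyl K' (contact e S h D δ (k - c)) :=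
    stmt_YK (ι ⊕ Unit) ι (fun _ => k - c + 1) K' _ (fun i => by simp only [hK']; omega)
      (stmt_YF ι κ ι e S h D δ (k - c) hS)
  rw [vol_eq μ hLi hcyl, vol_eq μ hLi hcyl']
  have hsum : Li ^ (∑ i, K i) = Li ^ Fintype.card ι * Li ^ (∑ i, K' i) := by
    rw [← pow_add]
    congr 1
    simp only [hK, hK', Finset.sum_const, Finset.card_univ, smul_eq_mul]
    ring
  rw [hsum]
  suffices hval : μ.val (sec K' (contact e S h D δ (k - c))) =
      μ.val (sec K (contactS e f S k)) by
    rw [hval]; ring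
  set s := sec K' (contact e S h D δ (k - c)) with hs
  -- the point and the arc
  set pt : ((ι ⊕ Unit) ⊕ (Σ i, Fin (K' i)) → ℂ) → ι → ℂ := fun v i =>
    eval v (X (Sum.inl (Sum.inl i)) : MvPolynomial ((ι ⊕ Unit) ⊕ (Σ i, Fin (K' i))) ℂ) with hpt
  have hptS : ∀ v ∈ s, pt v ∈ S := by
    intro v hv
    have h1 : (fun p : ι => v (Sum.inl (Sum.inl p))) ∈ S := hv.1
    have h2 : pt v = fun p : ι => v (Sum.inl (Sum.inl p)) := by
      funext i; simp only [hpt, eval_X]
    rw [h2]; exact h1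
  set ar : ((ι ⊕ Unit) ⊕ (Σ i, Fin (K' i)) → ℂ) → ι → PowerSeries ℂ := fun v =>
    toArc K' fun s => v (Sum.inr s) with har
  set φ : Unit ⊕ (Σ i, Fin (K i)) → ((ι ⊕ Unit) ⊕ (Σ i, Fin (K' i)) → ℂ) → ℂ :=
    Sum.elim (fun _ v => v (Sum.inl (Sum.inr ())) / eval (pt v) du)
      (fun a v => PowerSeries.coeff (a.2 : ℕ) (xa (Ψ (pt v)) (pt v) (ar v) a.1)) with hφ
  have hreg : ∀ j, RegularOn s (φ j) := by
    rintro (j | ⟨i, l⟩)
    · have h1 : RegularOn s fun v => 1 / eval (pt v) du :=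
        reg_comap (S := S) (fun ξ => 1 / eval ξ du)
          ⟨1, du, fun ξ hξ => ⟨(hnd ξ hξ).1, by rw [map_one]⟩⟩
          (fun i => X (Sum.inl (Sum.inl i))) hptS
      refine GLoc.reg_congr (GLoc.reg_mul (GLoc.reg_eval (X (Sum.inl (Sum.inr ())))) h1) ?_
      intro v _
      change v (Sum.inl (Sum.inr ())) / eval (pt v) du = _
      rw [eval_X]
      ring
    · have h1 : ∀ d, RegularOn s fun v => MvPowerSeries.coeff d (Ψ (pt v) i) := fun d =>
        reg_comap (S := S) (fun ξ => MvPowerSeries.coeff d (Ψ ξ i)) (hΨ i d)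
          (fun i => X (Sum.inl (Sum.inl i))) hptS
      have h2 : ∀ d, RegularOn s fun v => mon (ar v) d l := by
        intro d
        unfold mon
        by_cases hd : ∑ i, d i ≤ (l : ℕ)
        · simp only [if_pos hd]
          refine GLoc.reg_congr (GLoc.reg_eval (PowerSeries.coeff ((l : ℕ) - ∑ i, d i)
            (∏ i, (PowerSeries.mk fun n => LocX.cp K' i n) ^ d i))) ?_
          intro v _
          rw [← PowerSeries.coeff_map]
          congr 1
          rw [map_prod]
          refine Finset.prod_congr rfl fun i _ => ?_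
          rw [map_pow, LocX.map_cp]
        · simp only [if_neg hd]
          exact GLoc.reg_const 0
      have h3 : RegularOn s fun v => PowerSeries.coeff (l : ℕ) (PowerSeries.C (pt v i)) := by
        simp only [PowerSeries.coeff_C]
        by_cases hl : (l : ℕ) = 0
        · simp only [if_pos hl]
          exact GLoc.reg_eval (X (Sum.inl (Sum.inl i)))
        · simp only [if_neg hl]
          exact GLoc.reg_const 0
      refine GLoc.reg_congr (GLoc.reg_add h3 (GLoc.reg_sum (T ι (l : ℕ))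
        (fun d v => MvPowerSeries.coeff d (Ψ (pt v) i) * mon (ar v) d l)
        fun d _ => GLoc.reg_mul (h1 d) (h2 d))) ?_
      intro v _
      change PowerSeries.coeff (l : ℕ) (xa (Ψ (pt v)) (pt v) (ar v) i) = _
      rw [xa, map_add, coeff_sv (ar v) (Ψ (pt v) i) le_rfl]
  obtain ⟨num, den, hnum⟩ := common_den φ hreg
  refine stmt_YM R μ _ _ s _ num den hcyl'.2 hcyl.2 (fun v hv => (hnum v hv).1) ?_
  have hφe : Set.EqOn (fun v j => φ j v)
      (fun v j => eval v (num j) / eval v den) s := fun v hv => funext fun j => (hnum v hv).2 j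
  refine Set.BijOn.congr ?_ hφe
  -- membership
  have hmem : ∀ v : (ι ⊕ Unit) ⊕ (Σ i, Fin (K' i)) → ℂ, pt v ∈ S →
      ((fun j => φ j v) ∈ sec K (contactS e f S k) ↔ v ∈ s) := by
    intro v hv
    have h1 : (fun j => φ j v) ∈ sec K (contactS e f S k) ↔
        ((fun p => φ (Sum.inl p) v), toArc K fun a => φ (Sum.inr a) v) ∈
          contactS e f S k := Iff.rfl
    have h2 := hcyl.1 (fun p => φ (Sum.inl p) v) (toArc K fun a => φ (Sum.inr a) v)
      (xa (Ψ (pt v)) (pt v) (ar v)) (fun i l hl => by rw [LocX.coeff_toArc K _ i l hl]; rfl)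
    rw [h1, h2, hcon (pt v) hv (v (Sum.inl (Sum.inr ()))) (ar v) k _ rfl]
    have h3 : v ∈ s ↔ ((fun p => v (Sum.inl p)), ar v) ∈ contact e S h D δ (k - c) := Iff.rfl
    have h4 : (Sum.elim (pt v) (fun _ => v (Sum.inl (Sum.inr ()))) : ι ⊕ Unit → ℂ) =
        fun p => v (Sum.inl p) := by
      funext p
      rcases p with i | p
      · simp only [Sum.elim_inl, hpt, eval_X]
      · rfl
    rw [h3, h4]
    exact ⟨fun h => h.2, fun h => ⟨hck, h⟩⟩
  refine ⟨fun v hv => (hmem v (hptS v hv)).2 hv, ?_, ?_⟩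
  · intro v hv v' hv' hvv
    have hvv' : ∀ j, φ j v = φ j v' := fun j => congrFun hvv j
    have hp : pt v = pt v' := by
      funext i
      have h1 := hvv' (Sum.inr ⟨i, ⟨0, by simp [hK]⟩⟩)
      have h2 : ∀ v ∈ s, φ (Sum.inr ⟨i, ⟨0, by simp [hK]⟩⟩) v = pt v i := by
        intro v hv
        change PowerSeries.coeff 0 (xa (Ψ (pt v)) (pt v) (ar v) i) = pt v i
        rw [PowerSeries.coeff_zero_eq_constantCoeff_apply,
          xa_zero _ _ _ (hloc _ (hptS v hv)).1]
      rw [h2 v hv, h2 v' hv'] at h1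
      exact h1
    have hw : v (Sum.inl (Sum.inr ())) = v' (Sum.inl (Sum.inr ())) := by
      have h1 := hvv' (Sum.inl ())
      change v (Sum.inl (Sum.inr ())) / eval (pt v) du =
        v' (Sum.inl (Sum.inr ())) / eval (pt v') du at h1
      rw [← hp] at h1
      exact (div_left_inj' (hnd _ (hptS v hv)).1).1 h1
    have hz := inj_arc (Ψ (pt v)) (hloc _ (hptS v hv)).2.1 (ar v) (ar v') (k + 1) (by
      intro i l hl
      rcases l with _ | l
      · rw [PowerSeries.coeff_zero_eq_constantCoeff_apply,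
          PowerSeries.coeff_zero_eq_constantCoeff_apply, sv_zero, sv_zero]
      · have h1 := hvv' (Sum.inr ⟨i, ⟨l + 1, by simp only [hK]; omega⟩⟩)
        change PowerSeries.coeff (l + 1) (xa (Ψ (pt v)) (pt v) (ar v) i) =
          PowerSeries.coeff (l + 1) (xa (Ψ (pt v')) (pt v') (ar v') i) at h1
        rw [← hp, xa_succ, xa_succ] at h1
        exact h1)
    funext a
    rcases a with (i | a) | ⟨i, l⟩
    · have := congrFun hp i
      simpa only [hpt, eval_X] using this
    · exact hw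
    · have := hz i l l.2
      rwa [har, LocX.coeff_toArc K' _ i l l.2, LocX.coeff_toArc K' _ i l l.2] at this
  · intro y hy
    set x := toArc K fun a => y (Sum.inr a) with hx
    set ξ : ι → ℂ := fun i => PowerSeries.constantCoeff (x i) with hξ
    have hξS : ξ ∈ S := hy.1
    obtain ⟨z, hz⟩ := hsurj ξ hξS x (fun i => rfl) (k + 1)
    set v : (ι ⊕ Unit) ⊕ (Σ i, Fin (K' i)) → ℂ :=
      Sum.elim (Sum.elim ξ fun _ => y (Sum.inl ()) * eval ξ du)
        (fun a => PowerSeries.coeff (a.2 : ℕ) (z a.1)) with hv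
    have hptv : pt v = ξ := by
      funext i; simp only [hpt, eval_X]; rfl
    have harv : ∀ i, ∀ l < k + 1, PowerSeries.coeff l (ar v i) = PowerSeries.coeff l (z i) := by
      intro i l hl
      rw [har, LocX.coeff_toArc K' _ i l hl]
      rfl
    have himg : (fun j => φ j v) = y := by
      funext j
      rcases j with j | ⟨i, l⟩
      · change v (Sum.inl (Sum.inr ())) / eval (pt v) du = y (Sum.inl j)
        rw [hptv]
        exact mul_div_cancel_right₀ _ (hnd ξ hξS).1
      · change PowerSeries.coeff (l : ℕ) (xa (Ψ (pt v)) (pt v) (ar v) i) = y (Sum.inr ⟨i, l⟩)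
        rw [hptv]
        have h1 : PowerSeries.coeff (l : ℕ) (xa (Ψ ξ) ξ (ar v) i) =
            PowerSeries.coeff (l : ℕ) (xa (Ψ ξ) ξ z i) := by
          rw [xa, xa, map_add, map_add, sv_agree harv (Ψ ξ i) (Nat.lt_succ_iff.1 l.2)]
        rw [h1, hz i l l.2, hx, LocX.coeff_toArc K _ i l l.2]
    refine ⟨v, ?_, himg⟩
    rw [← hmem v (by rw [hptv]; exact hξS), himg]
    exact hy

end Pool.Agent.Mono
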