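import Pool.Agent.Work.Monodromy.Main
import Pool.Agent.Work.Monodromy.Central
import Pool.Agent.Work.Monodromy.Loc
import Pool.Agent.Work.Monodromy.LC
import Pool.Agent.Work.Monodromy.ZB
import Pool.Agent.Work.Monodromy.Triv
import Pool.Agent.Work.Monodromy.Split
import Pool.Agent.Work.Monodromy.Tor
import Pool.Agent.Work.Monodromy.X1
import Pool.Agent.Work.Monodromy.X2
import Pool.Agent.Work.Monodromy.LA
import Pool.Agent.Work.Monodromy.ELoc
import Pool.Agent.Work.Monodromy.ELC
import Pool.Agent.Work.Monodromy.EBD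
import Pool.Agent.Work.Monodromy.EB2
import Pool.Agent.Work.Monodromy.EB3
import Pool.Agent.Work.Monodromy.EB4
import Pool.Agent.Work.Monodromy.NV1
import Pool.Agent.Work.Monodromy.NV2
import Pool.Agent.Work.Monodromy.NV4
import Pool.Agent.Work.Monodromy.YC
import Pool.Agent.Work.Monodromy.YF
import Pool.Agent.Work.Monodromy.YK
import Pool.Agent.Work.Monodromy.Push
import Pool.Agent.Work.Monodromy.Units
import Pool.Agent.Work.Monodromy.Spec
import Pool.Agent.Work.Monodromy.Uniq
import Pool.Agent.Work.Monodromy.Lin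
import Pool.Agent.Work.Monodromy.Jet
import Pool.Agent.Work.Monodromy.LMain
import Pool.Agent.Work.Monodromy.ZL
import Pool.Agent.Work.Monodromy.EL
import Pool.Agent.Work.Monodromy.FP
import Pool.Agent.Work.Monodromy.GL
import Pool.Agent.Work.Monodromy.Psi
import Pool.Agent.Work.Monodromy.PsiV
import Pool.Agent.Work.Monodromy_helper35.NV3

/-!
# Assembly of phases 1 and 2
-/

namespace Pool.Agent.Mono

open MvPolynomial

theorem all_NV : Stmt_NV := stmt_NV (stmt_NV2 stmt_NV1) stmt_NV3 stmt_NV4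

theorem all_EBD : Stmt_EBD :=
  stmt_EBD stmt_Push stmt_Homog stmt_EB2 stmt_EB3 stmt_EB4 all_NV

theorem all_Loc : Stmt_Loc := stmt_Loc stmt_YV stmt_YK stmt_YF

theorem all_Central : Stmt_Central :=
  stmt_Central all_Loc (stmt_LC stmt_YV stmt_YF) (stmt_ZB stmt_YV stmt_YF)
    (stmt_Triv stmt_YV) (stmt_Split stmt_YC stmt_YV) stmt_Tor stmt_X1 stmt_X2 stmt_LA1
    stmt_LA2 stmt_ELoc (stmt_ELC stmt_Push stmt_Homog)
    (stmt_ESplit stmt_Push stmt_Units stmt_Homog) all_EBD

theorem all_LMain : Stmt_LMain := stmt_LMain stmt_ZL (stmt_EL stmt_FP) all_Central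

theorem all_GL : Stmt_GL := stmt_GL stmt_Psi stmt_PsiV

theorem all_Main : Stmt_Main := stmt_Main all_Loc stmt_X1 stmt_ELoc all_Central

end Pool.Agent.Mono

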