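import Pool.Agent.Work.Monodromy.Interface

/-!
# Central case, part 1: elementary facts on the data, one step of the recursion
-/

set_option linter.unusedSectionVars false

namespace Pool.Agent.Mono

open MvPolynomial

/-! ### Constructible sets -/

theorem cst_univ {ι : Type} : Constructible (Set.univ : Set (ι → ℂ)) := by
  have := Constructible.zero (ι := ι) (0 : MvPolynomial ι ℂ)
  simpa using this

theorem cst_iInter {ι σ : Type} (t : Finset σ) (s : σ → Set (ι → ℂ))
    (h : ∀ i ∈ t, Constructible (s i)) : Constructible (⋂ i ∈ t, s i) := by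
  classical
  induction t using Finset.induction_on with
  | empty => simpa using cst_univ
  | insert a t ha ih =>
    rw [Finset.set_biInter_insert]
    exact (h a (Finset.mem_insert_self a t)).inter
      (ih fun i hi => h i (Finset.mem_insert_of_mem hi))

theorem cst_iff {ι : Type} (p : MvPolynomial ι ℂ) (P : Prop) [Decidable P] :
    Constructible {x : ι → ℂ | eval x p = 0 ↔ P} := by
  by_cases h : P
  · simpa [h] using Constructible.zero p
  · simpa [h, Set.compl_def] using (Constructible.zero p).compl

section

variable {ι κ : Type} [Fintype ι] [Fintype κ] [DecidableEq ι] [DecidableEq κ]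

theorem cst_str (D : Data ι κ) (J : Finset ι) (A : Finset κ) : Constructible (D.str J A) := by
  have h1 : Constructible (⋂ i ∈ (Finset.univ : Finset ι), {x : ι → ℂ | x i ≠ 0 ↔ i ∈ J}) := by
    apply cst_iInter
    intro i _
    have := cst_iff (ι := ι) (X i) (¬ i ∈ J)
    convert this using 3
    simp
    tauto
  have h2 : Constructible (⋂ j ∈ (Finset.univ : Finset κ),
      {x : ι → ℂ | eval x (D.form j) = 0 ↔ j ∈ A}) := by
    apply cst_iInter
    intro j _
    exact cst_iff _ _
  have h := h1.inter h2
  convert h using 1
  ext x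
  simp [Data.str]

theorem unit_ne (D : Data ι κ) (J : Finset ι) (A : Finset κ) (x : ι → ℂ) (hx : x ∈ D.str J A) :
    eval x (D.unit J A) ≠ 0 := by
  obtain ⟨h1, h2⟩ := hx
  simp only [Data.unit, map_mul, map_prod, map_pow, eval_X]
  apply mul_ne_zero
  · apply Finset.prod_ne_zero_iff.2
    intro i hi
    exact pow_ne_zero _ ((h1 i).2 hi)
  · apply Finset.prod_ne_zero_iff.2
    intro j hj
    apply pow_ne_zero
    intro h
    exact (Finset.mem_compl.1 hj) ((h2 j).1 h)

/-! ### Measures of empty sets -/

theorem val_empty {R : Type} [CommRing R] (μ : MotivicMeasure R) {ι : Type} [Finite ι] :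
    μ.val (∅ : Set (ι → ℂ)) = 0 := by
  have h0 : Constructible (∅ : Set (ι → ℂ)) := by
    have := (cst_univ (ι := ι)).compl
    simpa using this
  have h := μ.union (∅ : Set (ι → ℂ)) ∅ h0 h0 (by simp)
  simpa using h

theorem vol_empty_c {R : Type} [CommRing R] (μ : MotivicMeasure R) (Li : R) {E : Type} [Finite E] :
    vol μ Li (∅ : Set ((E → ℂ) × (ι → PowerSeries ℂ))) = 0 := by
  unfold vol
  split_ifs with h
  · have : sec (E := E) h.choose (∅ : Set ((E → ℂ) × (ι → PowerSeries ℂ))) = ∅ := by
      ext v; simp [sec]
    rw [this, val_empty, zero_mul]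
  · rfl

theorem Zs_empty {R : Type} [CommRing R] (μ : MotivicMeasure R) (Li : R) (e : ℕ) {E : Type}
    [Finite E] (B : Set (E → ℂ)) (hB : B = ∅) (h : MvPolynomial E ℂ) (D : Data ι κ) (δ : ι → ℕ) :
    Zs μ Li e B h D δ = 0 := by
  ext k
  have : contact e B h D δ k = ∅ := by
    ext z; simp [contact, hB]
  simp [Zs, this, vol_empty_c]

/-! ### Facts about the data -/

namespace Data

variable (D : Data ι κ)

theorem rel_loc {J : Finset ι} {A : Finset κ} {i : ι} (h : (D.loc J A).Rel i) : D.Rel i := by
  rcases h with h | ⟨j, hj, hc⟩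
  · left
    simp only [loc] at h
    split_ifs at h with hi
    · exact absurd h (lt_irrefl _)
    · exact h
  · right
    refine ⟨j, ?_, hc⟩
    simp only [loc] at hj
    split_ifs at hj with hi
    · exact hj
    · exact absurd hj (lt_irrefl _)

theorem nf_loc {J : Finset ι} {A : Finset κ} {i : ι} (h : (D.loc J A).NF i) : D.NF i ∧ i ∉ J := by
  obtain ⟨h1, h2⟩ := h
  have hi : i ∉ J := by
    intro hi
    simp [loc, hi] at h2
  refine ⟨⟨D.rel_loc h1, ?_⟩, hi⟩
  simpa [loc, hi] using h2

theorem central_loc (J : Finset ι) (A : Finset κ) : (D.loc J A).Central := fun _ => rfl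

theorem valid_loc (hc : D.Central) (hv : D.Valid) (J : Finset ι) (A : Finset κ) :
    (D.loc J A).Valid := by
  refine ⟨?_, ?_⟩
  · intro i
    simp only [loc]
    split_ifs
    · exact le_rfl
    · exact hv.1 i
  · intro j hj
    simp only [loc] at hj ⊢
    split_ifs at hj with hA
    · rcases hv.2 j hj with h | h
      · exact absurd (hc j) h
      · exact Or.inr h
    · exact absurd hj (lt_irrefl _)

theorem size_loc_le (J : Finset ι) (A : Finset κ) : (D.loc J A).size ≤ D.size := by
  classical
  unfold size
  have h1 : (Finset.univ.filter fun j => 0 < (D.loc J A).m j) ⊆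
      Finset.univ.filter fun j => 0 < D.m j := by
    intro j
    intro h
    have h := (Finset.mem_filter.1 h).2
    refine Finset.mem_filter.2 ⟨Finset.mem_univ _, ?_⟩
    by_contra hm
    by_cases hA : j ∈ A
    · simp [loc, hA] at h
      omega
    · simp [loc, hA] at h
  have h2 : (Finset.univ.filter (D.loc J A).NF) ⊆ Finset.univ.filter D.NF := by
    intro j
    simp only [Finset.mem_filter, Finset.mem_univ, true_and]
    exact fun h => (D.nf_loc h).1
  have h3 : (Finset.univ.filter (D.loc J A).Rel) ⊆ Finset.univ.filter D.Rel := by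
    intro j
    simp only [Finset.mem_filter, Finset.mem_univ, true_and]
    exact fun h => D.rel_loc h
  have := Finset.card_le_card h1
  have := Finset.card_le_card h2
  have := Finset.card_le_card h3
  omega

/-- in the essential case localisation makes the size smaller -/
theorem size_loc_lt (hc : D.Central) (hv : D.Valid) (hE : D.Ess) (J : Finset ι) (A : Finset κ)
    (hJ : J.Nonempty) (hJR : ∀ i ∈ J, D.Rel i) (hS : (D.str J A).Nonempty) :
    (D.loc J A).size < D.size := by
  classical
  by_contra hlt
  obtain ⟨ξ, hξ1, hξ2⟩ := hS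
  have h1 : (Finset.univ.filter fun j => 0 < (D.loc J A).m j) ⊆
      Finset.univ.filter fun j => 0 < D.m j := by
    intro j
    intro h
    have h := (Finset.mem_filter.1 h).2
    refine Finset.mem_filter.2 ⟨Finset.mem_univ _, ?_⟩
    by_contra hm
    by_cases hA : j ∈ A
    · simp [loc, hA] at h
      omega
    · simp [loc, hA] at h
  have h2 : (Finset.univ.filter (D.loc J A).NF) ⊆ Finset.univ.filter D.NF := by
    intro j
    simp only [Finset.mem_filter, Finset.mem_univ, true_and]
    exact fun h => (D.nf_loc h).1
  have h3 : (Finset.univ.filter (D.loc J A).Rel) ⊆ Finset.univ.filter D.Rel := by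
    intro j
    simp only [Finset.mem_filter, Finset.mem_univ, true_and]
    exact fun h => D.rel_loc h
  have c1 := Finset.card_le_card h1
  have c2 := Finset.card_le_card h2
  have c3 := Finset.card_le_card h3
  unfold size at hlt
  have e1 := Finset.eq_of_subset_of_card_le h1 (by omega)
  have e2 := Finset.eq_of_subset_of_card_le h2 (by omega)
  have hact : ∀ j, 0 < D.m j → j ∈ A := by
    intro j hj
    have : j ∈ Finset.univ.filter fun j => 0 < D.m j := by simp [hj]
    rw [← e1] at this
    have h := (Finset.mem_filter.1 this).2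
    by_contra hA
    simp [hA, loc] at h
  have hnf : ∀ i, D.NF i → i ∉ J := by
    intro i hi
    have : i ∈ Finset.univ.filter D.NF := by simp [hi]
    rw [← e2] at this
    exact (D.nf_loc (Finset.mem_filter.1 this).2).2
  have ha : ∀ i ∈ J, D.a i = 1 := by
    intro i hi
    by_contra h
    exact hnf i ⟨hJR i hi, Or.inl (by have := hv.1 i; omega)⟩ hi
  -- the functional ξ
  have key : ∀ v ∈ Submodule.span ℂ (D.vec '' D.act), ∑ i, v i * ξ i = 0 := by
    intro v hv'
    induction hv' using Submodule.span_induction with
    | mem x hx =>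
      obtain ⟨z, hz, rfl⟩ := hx
      rcases z with j | i
      · have hj : 0 < D.m j := hz
        have h0 : eval ξ (D.form j) = 0 := (hξ2 j).2 (hact j hj)
        simp only [form, hc j, map_zero, zero_add, map_sum, map_mul, eval_C, map_pow, eval_X] at h0
        rw [← h0]
        simp only [vec, Sum.elim_inl]
        apply Finset.sum_congr rfl
        intro i _
        by_cases hi : i ∈ J
        · rw [ha i hi, pow_one]
        · have : ξ i = 0 := by
            by_contra h
            exact hi ((hξ1 i).1 h)
          rw [this, zero_pow (by have := hv.1 i; omega), mul_zero]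
      · have hi : D.NF i := hz
        have : ξ i = 0 := by
          by_contra h
          exact hnf i hi ((hξ1 i).1 h)
        simp only [vec, Sum.elim_inr]
        rw [Finset.sum_eq_single i]
        · simp [this]
        · intro k _ hk
          simp [Pi.single_apply, hk]
        · simp
    | zero => simp
    | add x y _ _ hx hy => simp [add_mul, Finset.sum_add_distrib, hx, hy]
    | smul c x _ hx =>
      have : ∑ i, (c • x) i * ξ i = c * ∑ i, x i * ξ i := by
        rw [Finset.mul_sum]
        apply Finset.sum_congr rfl
        intro i _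
        simp [mul_assoc]
      rw [this, hx, mul_zero]
  obtain ⟨i, hi⟩ := hJ
  have := key _ (hE i (hJR i hi))
  rw [Finset.sum_eq_single i] at this
  · simp only [Pi.single_eq_same, one_mul] at this
    exact (hξ1 i).2 hi this
  · intro k _ hk
    simp [Pi.single_apply, hk]
  · simp

theorem mem_M0 {δ : ι → ℕ} {i : ι} : i ∈ D.M0 δ ↔ D.Rel i ∧ δ i = 0 := by
  classical
  simp [M0]

/-- unrolling step -/
noncomputable def step (δ : ι → ℕ) : ι → ℕ := D.next δ ∅

theorem str_empty_univ (hc : D.Central) (hv : D.Valid) :
    D.str ∅ Finset.univ = {fun _ => (0 : ℂ)} := by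
  ext ξ
  simp only [str, Finset.notMem_empty, iff_false, not_not, Finset.mem_univ, iff_true,
    Set.mem_setOf_eq, Set.mem_singleton_iff]
  constructor
  · rintro ⟨h, -⟩
    funext i
    exact h i
  · rintro rfl
    refine ⟨fun _ => rfl, fun j => ?_⟩
    simp only [form, hc j, map_zero, zero_add, map_sum, map_mul, eval_C, map_pow, eval_X]
    apply Finset.sum_eq_zero
    intro i _
    rw [zero_pow (by have := hv.1 i; omega), mul_zero]

theorem str_empty_ne (hc : D.Central) (hv : D.Valid) {A : Finset κ} (hA : A ≠ Finset.univ) :
    D.str ∅ A = ∅ := by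
  ext ξ
  simp only [str, Finset.notMem_empty, iff_false, not_not, Set.mem_setOf_eq,
    Set.mem_empty_iff_false, not_and]
  intro h h2
  apply hA
  ext j
  simp only [Finset.mem_univ, iff_true]
  rw [← h2 j]
  simp only [form, hc j, map_zero, zero_add, map_sum, map_mul, eval_C, map_pow, eval_X]
  apply Finset.sum_eq_zero
  intro i _
  rw [h i, zero_pow (by have := hv.1 i; omega), mul_zero]

theorem unit_empty : D.unit ∅ Finset.univ = 1 := by
  simp [unit]

theorem loc_empty (hc : D.Central) : D.loc ∅ Finset.univ = D := by
  cases D with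
  | mk a b c0 c m =>
    simp only [loc, Finset.notMem_empty, if_false, Finset.mem_univ, if_true]
    congr
    funext j
    exact (hc j).symm

end Data

end

end Pool.Agent.Mono
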