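import Pool.Agent.Work.Monodromy.Central1

/-!
# Central case, part 2: the recursion in terms of pieces
-/

set_option linter.unusedSectionVars false

namespace Pool.Agent.Mono

open MvPolynomial

section

variable {ι κ : Type} [Fintype ι] [Fintype κ] [DecidableEq ι] [DecidableEq κ]

/-- the piece of the stratum `(J, A)` -/
noncomputable def mkPiece (D : Data ι κ) (δ : ι → ℕ) (p : Finset ι × Finset κ) : Piece ι κ where
  σ := ι
  fin := inferInstance
  S := D.str p.1 p.2
  u := D.unit p.1 p.2
  l := (D.M0 δ).card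
  c := ∑ i ∈ D.M0 δ \ p.1, D.b i + ∑ j ∈ p.2, D.m j
  D := D.loc p.1 p.2
  δ := D.next δ p.1

/-- multiply a piece by `Li^l T^c` -/
def Piece.shift (q : Piece ι κ) (l c : ℕ) : Piece ι κ := { q with l := q.l + l, c := q.c + c }

theorem Piece.ser_shift (q : Piece ι κ) (l c : ℕ) {R : Type} [CommRing R] (μ : MotivicMeasure R)
    (Li : R) (e : ℕ) {E : Type} [Finite E] (B : Set (E → ℂ)) (h : MvPolynomial E ℂ) :
    (q.shift l c).ser μ Li e B h =
      PowerSeries.C (Li ^ l) * PowerSeries.X ^ c * q.ser μ Li e B h := by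
  simp only [Piece.ser, Piece.shift, pow_add, map_mul]
  ring

open Classical in
/-- the strata with `J ≠ ∅` -/
noncomputable def strata (D : Data ι κ) (δ : ι → ℕ) : Finset (Finset ι × Finset κ) :=
  ((D.M0 δ).powerset ×ˢ (Finset.univ : Finset (Finset κ))).filter fun p =>
    p.1.Nonempty ∧ (D.str p.1 p.2).Nonempty

noncomputable def pcs (D : Data ι κ) (δ : ι → ℕ) : List (Piece ι κ) :=
  (strata D δ).toList.map (mkPiece D δ)

/-- the exponents of the unrolled part -/
noncomputable def lexp (D : Data ι κ) (δ : ι → ℕ) : ℕ := (D.M0 δ).card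

noncomputable def cexp (D : Data ι κ) (δ : ι → ℕ) : ℕ := ∑ i ∈ D.M0 δ, D.b i + ∑ j, D.m j

/-- the identity of one step -/
def Rec (D : Data ι κ) (e : ℕ) (δ δ' : ι → ℕ) (qs : List (Piece ι κ)) (l c : ℕ) : Prop :=
  ∀ (R : Type) [CommRing R] (μ : MotivicMeasure R) (Li : R), μ.L * Li = 1 →
    ∀ (E : Type) [Finite E] (B : Set (E → ℂ)) (h : MvPolynomial E ℂ), Constructible B →
      (∀ p ∈ B, eval p h ≠ 0) →
        Zs μ Li e B h D δ = (qs.map fun q => q.ser μ Li e B h).sum +
          PowerSeries.C (Li ^ l) * PowerSeries.X ^ c * Zs μ Li e B h D δ'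

theorem cst_singleton_zero : Constructible {fun _ : ι => (0 : ℂ)} := by
  have : Constructible (⋂ i ∈ (Finset.univ : Finset ι), {x : ι → ℂ | eval x (X i) = 0}) :=
    cst_iInter _ _ fun i _ => Constructible.zero _
  convert this using 1
  ext x
  simp [funext_iff]

theorem cst_rename_inl {E σ : Type} {B : Set (E → ℂ)} (hB : Constructible B) :
    Constructible {v : E ⊕ σ → ℂ | (fun p => v (Sum.inl p)) ∈ B} := by
  induction hB with
  | zero p =>
    have := Constructible.zero (rename (Sum.inl : E → E ⊕ σ) p)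
    convert this using 3
    rw [eval_rename]
    rfl
  | compl _ ih => exact ih.compl
  | inter _ _ h1 h2 => exact h1.inter h2

theorem cst_rename_inr {E σ : Type} {B : Set (σ → ℂ)} (hB : Constructible B) :
    Constructible {v : E ⊕ σ → ℂ | (fun p => v (Sum.inr p)) ∈ B} := by
  induction hB with
  | zero p =>
    have := Constructible.zero (rename (Sum.inr : σ → E ⊕ σ) p)
    convert this using 3
    rw [eval_rename]
    rfl
  | compl _ ih => exact ih.compl
  | inter _ _ h1 h2 => exact h1.inter h2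

theorem cst_pset {E σ : Type} {B : Set (E → ℂ)} {S : Set (σ → ℂ)} (hB : Constructible B)
    (hS : Constructible S) : Constructible (pset B S) :=
  (cst_rename_inl hB).inter (cst_rename_inr hS)

/-- adding a point to the parameters changes nothing -/
theorem Zs_point (hZB : Stmt_ZB) (D : Data ι κ) (δ : ι → ℕ) {R : Type} [CommRing R]
    (μ : MotivicMeasure R) (Li : R) (hL : μ.L * Li = 1) (e : ℕ) {E σ : Type} [Finite E] [Finite σ]
    (B : Set (E → ℂ)) (h : MvPolynomial E ℂ) (hB : Constructible B) (S : Set (σ → ℂ))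
    (hS : Constructible S) (x₀ : σ → ℂ) (hx : S = {x₀}) :
    Zs μ Li e (pset B S) (pmul h (1 : MvPolynomial σ ℂ)) D δ = Zs μ Li e B h D δ := by
  symm
  apply hZB ι κ D δ R μ Li hL e E (E ⊕ σ) B h (pset B S) (pmul h 1)
    (Sum.elim (fun p => X p) fun q => C (x₀ q)) hB (cst_pset hB hS)
  · refine ⟨?_, ?_, ?_⟩
    · intro x hxB
      refine ⟨?_, ?_⟩
      · simpa using hxB
      · simp [hx]
    · intro x _ y _ hxy
      funext p
      have := congrFun hxy (Sum.inl p)
      simpa using this
    · intro v hv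
      refine ⟨fun p => v (Sum.inl p), hv.1, ?_⟩
      funext s
      rcases s with p | q
      · simp
      · have h2 := hv.2
        rw [hx, Set.mem_singleton_iff] at h2
        simp [← congrFun h2 q]
  · intro x _
    simp only [pmul, map_one, mul_one, eval_rename]
    congr 1
    congr 1
    funext p
    simp

theorem rec_step (hLoc : Stmt_Loc) (hZB : Stmt_ZB) (D : Data ι κ) (hc : D.Central) (hv : D.Valid)
    (e : ℕ) (δ : ι → ℕ) : Rec D e δ (D.step δ) (pcs D δ) (lexp D δ) (cexp D δ) := by
  classical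
  intro R _ μ Li hL E _ B h hB hh
  rw [hLoc ι κ D δ hv.1 R μ Li hL e E B h hB hh]
  set f : Finset ι → Finset κ → PowerSeries R := fun J A =>
    PowerSeries.C (Li ^ (D.M0 δ).card) *
      PowerSeries.X ^ (∑ i ∈ D.M0 δ \ J, D.b i + ∑ j ∈ A, D.m j) *
        Zs μ Li e (pset B (D.str J A)) (pmul h (D.unit J A)) (D.loc J A) (D.next δ J) with hf
  have hzero : ∀ J A, D.str J A = ∅ → f J A = 0 := by
    intro J A h0
    simp only [hf]
    rw [Zs_empty, mul_zero]
    ext v
    simp [pset, h0]
  have hrest : f ∅ Finset.univ =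
      PowerSeries.C (Li ^ lexp D δ) * PowerSeries.X ^ cexp D δ * Zs μ Li e B h D (D.step δ) := by
    simp only [hf, lexp, cexp, Finset.sdiff_empty, D.unit_empty, D.loc_empty hc]
    congr 1
    apply Zs_point hZB D _ μ Li hL e B h hB _ (cst_str D _ _) (fun _ => 0)
      (D.str_empty_univ hc hv)
  have hlist : ((pcs D δ).map fun q => q.ser μ Li e B h).sum =
      ∑ p ∈ strata D δ, f p.1 p.2 := by
    rw [pcs, List.map_map, Finset.sum_map_toList]
    rfl
  rw [hlist, ← hrest]
  have h1 : ∑ J ∈ (D.M0 δ).powerset, ∑ A : Finset κ, f J A =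
      ∑ p ∈ (D.M0 δ).powerset ×ˢ (Finset.univ : Finset (Finset κ)), f p.1 p.2 := by
    rw [Finset.sum_product]
  change ∑ J ∈ (D.M0 δ).powerset, ∑ A : Finset κ, f J A = _
  rw [h1]
  have hmem : ((∅ : Finset ι), (Finset.univ : Finset κ)) ∈
      (D.M0 δ).powerset ×ˢ (Finset.univ : Finset (Finset κ)) := by
    simp
  rw [← Finset.sum_erase_add _ _ hmem]
  congr 1
  symm
  apply Finset.sum_subset
  · intro p hp
    rw [strata, Finset.mem_filter] at hp
    rw [Finset.mem_erase]
    refine ⟨?_, hp.1⟩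
    rintro rfl
    exact Finset.not_nonempty_empty hp.2.1
  · intro p hp hp'
    rw [Finset.mem_erase] at hp
    rw [strata, Finset.mem_filter, not_and] at hp'
    have h2 := hp' hp.2
    rw [not_and] at h2
    apply hzero
    by_cases hJ : p.1.Nonempty
    · exact Set.not_nonempty_iff_eq_empty.1 (h2 hJ)
    · rw [Finset.not_nonempty_iff_eq_empty] at hJ
      rw [hJ]
      apply D.str_empty_ne hc hv
      intro hA
      apply hp.1
      exact Prod.ext hJ hA

/-- iterating the step -/
noncomputable def pcsN (D : Data ι κ) (δ : ι → ℕ) : ℕ → List (Piece ι κ)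
  | 0 => []
  | n + 1 => pcsN D δ n ++ (pcs D (D.step^[n] δ)).map fun q =>
      q.shift (∑ m ∈ Finset.range n, lexp D (D.step^[m] δ))
        (∑ m ∈ Finset.range n, cexp D (D.step^[m] δ))

theorem rec_iter (hLoc : Stmt_Loc) (hZB : Stmt_ZB) (D : Data ι κ) (hc : D.Central) (hv : D.Valid)
    (e : ℕ) (δ : ι → ℕ) (n : ℕ) :
    Rec D e δ (D.step^[n] δ) (pcsN D δ n) (∑ m ∈ Finset.range n, lexp D (D.step^[m] δ))
      (∑ m ∈ Finset.range n, cexp D (D.step^[m] δ)) := by
  induction n with
  | zero =>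
    intro R _ μ Li hL E _ B h hB hh
    simp [pcsN]
  | succ n ih =>
    intro R _ μ Li hL E _ B h hB hh
    rw [ih R μ Li hL E B h hB hh]
    rw [rec_step hLoc hZB D hc hv e (D.step^[n] δ) R μ Li hL E B h hB hh]
    rw [pcsN, List.map_append, List.sum_append, List.map_map, Finset.sum_range_succ,
      Finset.sum_range_succ, Function.iterate_succ_apply']
    have : (List.map ((fun q : Piece ι κ => q.ser μ Li e B h) ∘ fun q =>
        q.shift (∑ m ∈ Finset.range n, lexp D (D.step^[m] δ))
          (∑ m ∈ Finset.range n, cexp D (D.step^[m] δ))) (pcs D (D.step^[n] δ))).sum =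
        PowerSeries.C (Li ^ (∑ m ∈ Finset.range n, lexp D (D.step^[m] δ))) *
          PowerSeries.X ^ (∑ m ∈ Finset.range n, cexp D (D.step^[m] δ)) *
            (List.map (fun q : Piece ι κ => q.ser μ Li e B h) (pcs D (D.step^[n] δ))).sum := by
      rw [← List.sum_map_mul_left]
      congr 1
      apply List.map_congr_left
      intro q _
      simp only [Function.comp]
      rw [Piece.ser_shift]
    rw [this]
    simp only [pow_add, map_mul]
    ring

/-- the properties of the pieces used in `X1` and `X2` -/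
def PieceOk (G : Set (ℕ × ℕ)) (e : ℕ) (q : Piece ι κ) : Prop :=
  Constructible q.S ∧ (∀ x ∈ q.S, eval x q.u ≠ 0) ∧ (haveI := q.fin; TorusSplit q.S q.u) ∧
    HasExpr e q.D q.δ G

theorem pieceOk_pcsN {G : Set (ℕ × ℕ)} {e : ℕ} (D : Data ι κ)
    (H : ∀ (δ : ι → ℕ), ∀ p ∈ strata D δ, PieceOk G e (mkPiece D δ p)) (δ : ι → ℕ) (n : ℕ) :
    ∀ q ∈ pcsN D δ n, PieceOk G e q := by
  induction n with
  | zero => intro q hq; simp [pcsN] at hq
  | succ n ih =>
    intro q hq
    rw [pcsN, List.mem_append] at hq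
    rcases hq with hq | hq
    · exact ih q hq
    · rw [List.mem_map] at hq
      obtain ⟨q', hq', rfl⟩ := hq
      rw [pcs, List.mem_map] at hq'
      obtain ⟨p, hp, rfl⟩ := hq'
      exact H _ p (Finset.mem_toList.1 hp)

/-- transport of expressions along a finite recursion -/
theorem hasExpr_of_rec (hX1 : Stmt_X1) (hZB : Stmt_ZB) {G : Set (ℕ × ℕ)} {e : ℕ} (D : Data ι κ)
    (δ δ' : ι → ℕ) (qs : List (Piece ι κ)) (l c : ℕ) (hqs : ∀ q ∈ qs, PieceOk G e q)
    (hrec : Rec D e δ δ' qs l c) (h' : HasExpr e D δ' G) : HasExpr e D δ G := by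
  let q₀ : Piece ι κ := ⟨Empty, inferInstance, Set.univ, 1, l, c, D, δ'⟩
  apply hX1 ι κ e D δ G (qs ++ [q₀])
  · intro q hq
    rw [List.mem_append, List.mem_singleton] at hq
    rcases hq with hq | rfl
    · obtain ⟨h1, h2, -, h4⟩ := hqs q hq
      exact ⟨h1, h2, h4⟩
    · refine ⟨cst_univ, ?_, h'⟩
      intro x _
      simp [q₀]
  · intro R _ μ Li hL E _ B h hB hh
    rw [hrec R μ Li hL E B h hB hh, List.map_append, List.sum_append]
    congr 1
    simp only [List.map_cons, List.map_nil, List.sum_cons, List.sum_nil, add_zero, Piece.ser, q₀]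
    congr 1
    symm
    apply Zs_point hZB D δ' μ Li hL e B h hB Set.univ cst_univ (fun _ => 0)
    ext x
    simp only [Set.mem_univ, Set.mem_singleton_iff, true_iff]
    exact Subsingleton.elim _ _

end

end Pool.Agent.Mono
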