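import Pool.Agent.Work.Monodromy.Central2

/-!
# Central case, part 3: the dynamics of the shifts
-/

set_option linter.unusedSectionVars false

namespace Pool.Agent.Mono

open MvPolynomial

section

variable {ι κ : Type} [Fintype ι] [Fintype κ] [DecidableEq ι] [DecidableEq κ]

theorem step_rel_zero (D : Data ι κ) (δ : ι → ℕ) {i : ι} (hi : D.Rel i) (h0 : δ i = 0) :
    D.step δ i = D.a i - 1 := by
  classical
  simp [Data.step, Data.next, D.mem_M0, hi, h0]

theorem step_pos (D : Data ι κ) (δ : ι → ℕ) {i : ι} (h0 : ¬(D.Rel i ∧ δ i = 0)) :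
    D.step δ i = δ i - 1 := by
  classical
  simp only [Data.step, Data.next, D.mem_M0, Finset.notMem_empty, if_false]
  rw [if_neg h0]

theorem step_le (D : Data ι κ) (δ : ι → ℕ) (i : ι) : D.step δ i ≤ max (δ i) (D.a i) := by
  by_cases h : D.Rel i ∧ δ i = 0
  · rw [step_rel_zero D δ h.1 h.2]
    omega
  · rw [step_pos D δ h]
    omega

theorem iter_le (D : Data ι κ) (δ : ι → ℕ) (n : ℕ) (i : ι) :
    D.step^[n] δ i ≤ max (δ i) (D.a i) := by
  induction n with
  | zero => simp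
  | succ n ih =>
    rw [Function.iterate_succ_apply']
    have := step_le D (D.step^[n] δ) i
    omega

theorem exists_period (D : Data ι κ) (δ : ι → ℕ) :
    ∃ n p : ℕ, 0 < p ∧ D.step^[p] (D.step^[n] δ) = D.step^[n] δ := by
  let f : ℕ → ∀ i : ι, Fin (max (δ i) (D.a i) + 1) := fun n i =>
    ⟨D.step^[n] δ i, Nat.lt_succ_of_le (iter_le D δ n i)⟩
  obtain ⟨x, y, hxy, hf⟩ := Finite.exists_ne_map_eq_of_infinite f
  have hf' : D.step^[x] δ = D.step^[y] δ := by
    funext i
    have := congrFun hf i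
    exact congrArg Fin.val this
  rcases lt_or_gt_of_ne hxy with h | h
  · refine ⟨x, y - x, by omega, ?_⟩
    rw [← Function.iterate_add_apply, Nat.sub_add_cancel h.le, hf']
  · refine ⟨y, x - y, by omega, ?_⟩
    rw [← Function.iterate_add_apply, Nat.sub_add_cancel h.le, hf']

/-- number of zeros of the coordinate `i` -/
noncomputable def zc (D : Data ι κ) (δ : ι → ℕ) (i : ι) (n : ℕ) : ℕ :=
  ∑ m ∈ Finset.range n, if D.step^[m] δ i = 0 then 1 else 0

theorem zc_inv (D : Data ι κ) (δ : ι → ℕ) {i : ι} (hi : D.Rel i) (ha : 1 ≤ D.a i) (n : ℕ) :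
    δ i + D.a i * zc D δ i n = n + D.step^[n] δ i := by
  induction n with
  | zero => simp [zc]
  | succ n ih =>
    rw [Function.iterate_succ_apply']
    by_cases h : D.step^[n] δ i = 0
    · rw [step_rel_zero D _ hi h]
      rw [zc, Finset.sum_range_succ, if_pos h, mul_add, mul_one, ← add_assoc]
      change δ i + D.a i * zc D δ i n + D.a i = _
      rw [ih, h]
      omega
    · rw [step_pos D _ (fun h' => h h'.2)]
      rw [zc, Finset.sum_range_succ, if_neg h, add_zero]
      change δ i + D.a i * zc D δ i n = _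
      rw [ih]
      omega

theorem zc_period (D : Data ι κ) (δ : ι → ℕ) {i : ι} (hi : D.Rel i) (ha : 1 ≤ D.a i) {p : ℕ}
    (hp : D.step^[p] δ = δ) : D.a i * zc D δ i p = p := by
  have := zc_inv D δ hi ha p
  rw [hp] at this
  omega

open Classical in
theorem sum_lexp (D : Data ι κ) (δ : ι → ℕ) (p : ℕ) :
    ∑ m ∈ Finset.range p, lexp D (D.step^[m] δ) =
      ∑ i, if D.Rel i then zc D δ i p else 0 := by
  have h1 : ∀ δ' : ι → ℕ, lexp D δ' = ∑ i, if D.Rel i then (if δ' i = 0 then 1 else 0) else 0 := by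
    intro δ'
    rw [lexp, Finset.card_eq_sum_ones]
    simp only [Data.M0]
    rw [Finset.sum_filter]
    apply Finset.sum_congr rfl
    intro i _
    by_cases hi : D.Rel i <;> simp [hi]
  simp only [h1]
  rw [Finset.sum_comm]
  apply Finset.sum_congr rfl
  intro i _
  by_cases hi : D.Rel i
  · simp [hi, zc]
  · simp [hi]

theorem rel_of_b (D : Data ι κ) {i : ι} (h : D.b i ≠ 0) : D.Rel i :=
  Or.inl (Nat.pos_of_ne_zero h)

theorem sum_cexp (D : Data ι κ) (δ : ι → ℕ) (p : ℕ) :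
    ∑ m ∈ Finset.range p, cexp D (D.step^[m] δ) =
      ∑ i, D.b i * zc D δ i p + p * ∑ j, D.m j := by
  classical
  have h1 : ∀ δ' : ι → ℕ, cexp D δ' = (∑ i, D.b i * (if δ' i = 0 then 1 else 0)) + ∑ j, D.m j := by
    intro δ'
    rw [cexp]
    congr 1
    simp only [Data.M0]
    rw [Finset.sum_filter]
    apply Finset.sum_congr rfl
    intro i _
    by_cases hb : D.b i = 0
    · simp [hb]
    · have := rel_of_b D hb
      by_cases h : δ' i = 0 <;> simp [this, h]
  simp only [h1]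
  rw [Finset.sum_add_distrib, Finset.sum_comm]
  congr 1
  · apply Finset.sum_congr rfl
    intro i _
    rw [← Finset.mul_sum]
    rfl
  · simp

/-- the pair of the period is good -/
theorem good_of_period (hEBD : Stmt_EBD) (D : Data ι κ) (hc : D.Central) (hv : D.Valid)
    (hE : D.Ess) (hD : ∀ T, ¬D.DecBy T) (hR : ∃ i, D.Rel i) (I : Set (Polynomial ℂ))
    (hI : I ⊆ bSet D.poly) (δ : ι → ℕ) (p : ℕ) (hp0 : 0 < p) (hp : D.step^[p] δ = δ) :
    (∑ m ∈ Finset.range p, cexp D (D.step^[m] δ), ∑ m ∈ Finset.range p, lexp D (D.step^[m] δ)) ∈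
      GoodPair I ∧ 1 ≤ ∑ m ∈ Finset.range p, cexp D (D.step^[m] δ) := by
  classical
  have hz : ∀ i, D.Rel i → D.a i * zc D δ i p = p := fun i hi => zc_period D δ hi (hv.1 i) hp
  have hzpos : ∀ i, D.Rel i → 1 ≤ zc D δ i p := by
    intro i hi
    have := hz i hi
    rcases Nat.eq_zero_or_pos (zc D δ i p) with h | h
    · rw [h, mul_zero] at this; omega
    · exact h
  set N := ∑ m ∈ Finset.range p, cexp D (D.step^[m] δ) with hN
  set ν := ∑ m ∈ Finset.range p, lexp D (D.step^[m] δ) with hν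
  have hν' : ν = ∑ i, if D.Rel i then zc D δ i p else 0 := sum_lexp D δ p
  have hN' : N = ∑ i, D.b i * zc D δ i p + p * ∑ j, D.m j := sum_cexp D δ p
  obtain ⟨i₀, hi₀⟩ := hR
  have hν1 : 1 ≤ ν := by
    rw [hν']
    refine le_trans (hzpos i₀ hi₀) ?_
    have := Finset.single_le_sum (f := fun i => if D.Rel i then zc D δ i p else 0)
      (fun _ _ => Nat.zero_le _) (Finset.mem_univ i₀)
    simpa [hi₀] using this
  have hN1 : 1 ≤ N := by
    rw [hN']
    rcases hi₀ with hb | ⟨j, hj, -⟩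
    · have h1 : D.b i₀ * zc D δ i₀ p ≤ ∑ i, D.b i * zc D δ i p :=
        Finset.single_le_sum (f := fun i => D.b i * zc D δ i p) (fun _ _ => Nat.zero_le _)
          (Finset.mem_univ i₀)
      have h2 : 1 ≤ D.b i₀ * zc D δ i₀ p := Nat.mul_pos hb (hzpos i₀ (Or.inl hb))
      omega
    · have h1 : D.m j ≤ ∑ j, D.m j :=
        Finset.single_le_sum (f := fun j => D.m j) (fun _ _ => Nat.zero_le _) (Finset.mem_univ j)
      have h2 : 1 ≤ p * ∑ j, D.m j := Nat.mul_pos hp0 (lt_of_lt_of_le hj h1)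
      omega
  refine ⟨⟨hN1, hν1, ?_⟩, hN1⟩
  have hpC : (p : ℂ) ≠ 0 := by exact_mod_cast hp0.ne'
  have hzC : ∀ i, D.Rel i → (zc D δ i p : ℂ) = p * (1 / (D.a i : ℂ)) := by
    intro i hi
    have ha : (D.a i : ℂ) ≠ 0 := by
      have := hv.1 i
      exact_mod_cast (show D.a i ≠ 0 by omega)
    have h := hz i hi
    have h2 : (D.a i : ℂ) * (zc D δ i p : ℂ) = p := by exact_mod_cast h
    field_simp
    rw [← h2]
    ring
  have hNC : (N : ℂ) = p * (∑ j, (D.m j : ℂ) + ∑ i, (D.b i : ℂ) / D.a i) := by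
    rw [hN']
    push_cast
    rw [mul_add, Finset.mul_sum, Finset.mul_sum, add_comm]
    congr 1
    apply Finset.sum_congr rfl
    intro i _
    by_cases hb : D.b i = 0
    · simp [hb]
    · rw [hzC i (rel_of_b D hb)]
      ring
  have hνC : (ν : ℂ) = p * ∑ i, (if D.Rel i then 1 / (D.a i : ℂ) else 0) := by
    rw [hν']
    push_cast
    rw [Finset.mul_sum]
    apply Finset.sum_congr rfl
    intro i _
    by_cases hi : D.Rel i
    · simp only [hi, if_true]
      rw [hzC i hi]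
    · simp [hi]
  have hN0 : (N : ℂ) ≠ 0 := by exact_mod_cast (show N ≠ 0 by omega)
  obtain ⟨n, hn⟩ := hEBD ι κ D hc hv hE hD ⟨i₀, hi₀⟩ (-(ν : ℂ) / N) (by
    have h0 : (∑ j, (D.m j : ℂ) + ∑ i, (D.b i : ℂ) / D.a i) ≠ 0 := by
      intro h0
      rw [h0, mul_zero] at hNC
      exact hN0 hNC
    rw [hNC, hνC]
    have hconv : (∑ i, (if D.Rel i then 1 / (D.a i : ℂ) else 0)) =
        ∑ i, (open Classical in if D.Rel i then 1 / (D.a i : ℂ) else 0) := by
      rfl
    field_simp)
  exact ⟨n, fun b hb => hn b (hI hb)⟩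

end

end Pool.Agent.Mono
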