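import Pool.Agent.Work.Monodromy.Interface3

/-!
# Block Cubic, CubicTw: the reduction to small cubic polynomials
-/

set_option linter.unusedSectionVars false

namespace Pool.Agent.Mono.Cub

open MvPolynomial

variable {ι κ : Type} [Fintype ι] [Fintype κ]

theorem totalDegree_alg (α : MvPolynomial ι ℂ ≃ₐ[ℂ] MvPolynomial κ ℂ) {f : MvPolynomial ι ℂ}
    (h : f.totalDegree ≠ 0) : (α f).totalDegree ≠ 0 := by
  intro h0
  apply h
  rw [totalDegree_eq_zero_iff_eq_C] at h0 ⊢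
  have h1 : f = C (coeff 0 (α f)) := by
    have h2 := congrArg α.symm h0
    rw [AlgEquiv.symm_apply_apply] at h2
    exact h2.trans (AlgEquiv.commutes α.symm _)
  rw [h1]
  simp

theorem totalDegree_of_aeval (β : MvPolynomial κ ℂ →ₐ[ℂ] MvPolynomial ι ℂ)
    {g : MvPolynomial κ ℂ} (h : (β g).totalDegree ≠ 0) : g.totalDegree ≠ 0 := by
  intro h0
  apply h
  rw [totalDegree_eq_zero_iff_eq_C] at h0
  rw [h0, ← MvPolynomial.algebraMap_eq, AlgHom.commutes, MvPolynomial.algebraMap_eq,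
    totalDegree_C]

theorem totalDegree_susN (N : ℕ) {f : MvPolynomial ι ℂ} (h : f.totalDegree ≠ 0) :
    (susN N f).totalDegree ≠ 0 := by
  apply totalDegree_of_aeval (aeval (Sum.elim X fun _ => 0) :
    MvPolynomial (ι ⊕ (Fin N × Bool)) ℂ →ₐ[ℂ] MvPolynomial ι ℂ)
  have h1 : (aeval (Sum.elim X fun _ => 0) :
      MvPolynomial (ι ⊕ (Fin N × Bool)) ℂ →ₐ[ℂ] MvPolynomial ι ℂ) (susN N f) = f := by
    rw [susN, map_add, aeval_rename, Sum.elim_comp_inl]
    have h2 : (aeval (Sum.elim X fun _ => 0) :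
      MvPolynomial (ι ⊕ (Fin N × Bool)) ℂ →ₐ[ℂ] MvPolynomial ι ℂ) (∑ k : Fin N,
        (X (Sum.inr (k, true)) : MvPolynomial (ι ⊕ (Fin N × Bool)) ℂ) *
          X (Sum.inr (k, false))) = 0 := by
      rw [map_sum]
      refine Finset.sum_eq_zero fun k _ => ?_
      simp
    rw [h2, add_zero]
    exact aeval_X_left_apply f
  rw [h1]
  exact h

section invariance

variable (hSI : Stmt_SI) (α : MvPolynomial ι ℂ ≃ₐ[ℂ] MvPolynomial κ ℂ) (f : MvPolynomial ι ℂ)
  (hc : Fintype.card ι = Fintype.card κ)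

include hSI hc

theorem eig_iff (l : ℂ) : IsEigenvalue (α f) l ↔ IsEigenvalue f l := by
  obtain ⟨-, hb⟩ := hSI ι κ α f hc
  constructor
  · rintro ⟨s, h1, h2⟩
    exact ⟨s, fun b hb' => h1 b ((hb b).1 hb'), h2⟩
  · rintro ⟨s, h1, h2⟩
    exact ⟨s, fun b hb' => h1 b ((hb b).2 hb'), h2⟩

theorem top_iff (P : HodgeMeasure) (e : ℕ) (R : RatFunc ℚ) :
    IsTopZeta P (α f) e R ↔ IsTopZeta P f e R := by
  obtain ⟨hz, -⟩ := hSI ι κ α f hc
  unfold IsTopZeta
  rw [hz]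

theorem zeta1_eq {R : Type} [CommRing R] (μ : MotivicMeasure R) (Li : R) (e : ℕ) :
    zetaSer1 μ Li (α f) e = zetaSer1 μ Li f e := by
  obtain ⟨hz, -⟩ := hSI ι κ α f hc
  ext k
  have h := congrArg (PowerSeries.coeff k) (hz R μ Li e)
  simp only [zetaSer, PowerSeries.coeff_mk] at h
  simp only [zetaSer1, PowerSeries.coeff_mk]
  rw [h]

theorem tw_iff (P : HodgeMeasure) (e : ℕ) (R : RatFunc ℚ) :
    IsTwTopZeta P (α f) e R ↔ IsTwTopZeta P f e R := by
  unfold IsTwTopZeta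
  simp only [zeta1_eq hSI α f hc]

theorem MC_iff : MC (α f) ↔ MC f := by
  unfold MC
  simp only [top_iff hSI α f hc, eig_iff hSI α f hc]

theorem MCtw_iff (e : ℕ) : MCtw e (α f) ↔ MCtw e f := by
  unfold MCtw
  simp only [tw_iff hSI α f hc, eig_iff hSI α f hc]

end invariance

/-- reindexing for `susN (N + 1)` -/
def eqv (ι : Type) (N : ℕ) : (ι ⊕ (Fin (N + 1) × Bool)) ≃ ((ι ⊕ (Fin N × Bool)) ⊕ Bool) :=
  (Equiv.sumCongr (Equiv.refl ι)
    (((Equiv.prodCongr finSumFinEquiv.symm (Equiv.refl Bool)).trans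
      (Equiv.sumProdDistrib (Fin N) (Fin 1) Bool)).trans
        (Equiv.sumCongr (Equiv.refl _) (Equiv.uniqueProd Bool (Fin 1))))).trans
    (Equiv.sumAssoc _ _ _).symm

theorem eqv_inl (N : ℕ) (i : ι) : eqv ι N (Sum.inl i) = Sum.inl (Sum.inl i) := rfl

theorem eqv_castSucc (N : ℕ) (k : Fin N) (b : Bool) :
    eqv ι N (Sum.inr (k.castSucc, b)) = Sum.inl (Sum.inr (k, b)) := by
  simp [eqv]

theorem eqv_last (N : ℕ) (b : Bool) : eqv ι N (Sum.inr (Fin.last N, b)) = Sum.inr b := by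
  simp [eqv]

theorem rename_susN (N : ℕ) (f : MvPolynomial ι ℂ) :
    renameEquiv ℂ (eqv ι N) (susN (N + 1) f) = sus (susN N f) := by
  rw [renameEquiv_apply, susN, map_add, map_sum, Fin.sum_univ_castSucc, sus, susN, map_add, map_sum,
    rename_rename, rename_rename, add_assoc]
  simp only [map_mul, rename_X, eqv_castSucc, eqv_last]
  rfl

/-- `Fin 0` products -/
theorem rename_susZero (f : MvPolynomial ι ℂ) :
    renameEquiv ℂ (Equiv.sumEmpty ι (Fin 0 × Bool)) (susN 0 f) = f := by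
  rw [renameEquiv_apply, susN, Fin.sum_univ_zero, add_zero, rename_rename]
  have : (Equiv.sumEmpty ι (Fin 0 × Bool)) ∘ Sum.inl = id := by
    funext i
    simp
  rw [this, rename_id_apply]

theorem MC_susN (hSI : Stmt_SI) (hSS : Stmt_SS) {f : MvPolynomial ι ℂ}
    (h : f.totalDegree ≠ 0) (N : ℕ) :
    (MC (susN N f) → MC f) ∧ ∀ e : ℕ, 1 ≤ e → MCtw e (susN N f) → MCtw e f := by
  classical
  induction N with
  | zero =>
    have hc : Fintype.card (ι ⊕ (Fin 0 × Bool)) = Fintype.card ι := by simp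
    have h1 := MC_iff hSI (renameEquiv ℂ (Equiv.sumEmpty ι (Fin 0 × Bool))) (susN 0 f) hc
    have h2 := MCtw_iff hSI (renameEquiv ℂ (Equiv.sumEmpty ι (Fin 0 × Bool))) (susN 0 f) hc
    rw [rename_susZero] at h1
    simp only [rename_susZero] at h2
    exact ⟨h1.2, fun e _ => (h2 e).2⟩
  | succ N ih =>
    have hc : Fintype.card (ι ⊕ (Fin (N + 1) × Bool)) =
        Fintype.card ((ι ⊕ (Fin N × Bool)) ⊕ Bool) := Fintype.card_congr (eqv ι N)
    have h1 := MC_iff hSI (renameEquiv ℂ (eqv ι N)) (susN (N + 1) f) hc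
    have h2 := MCtw_iff hSI (renameEquiv ℂ (eqv ι N)) (susN (N + 1) f) hc
    rw [rename_susN] at h1
    simp only [rename_susN] at h2
    obtain ⟨g1, g2⟩ := hSS (ι ⊕ (Fin N × Bool)) (susN N f) (totalDegree_susN N h)
    exact ⟨fun hm => ih.1 (g1 (h1.2 hm)), fun e he hm => ih.2 e he (g2 e he ((h2 e).2 hm))⟩

end Pool.Agent.Mono.Cub

namespace Pool.Agent.Mono

open MvPolynomial Cub

theorem stmt_Cubic (hSI : Stmt_SI) (hSS : Stmt_SS) (hSR : Stmt_SR) : Stmt_Cubic := by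
  intro hS n f hf
  obtain ⟨N, α, hα⟩ := hSR n f
  have hc : Fintype.card (Fin n ⊕ (Fin N × Bool)) = Fintype.card (Fin (n + 2 * N)) := by
    simp; ring
  have h1 := hS _ (α (susN N f)) (totalDegree_alg α (totalDegree_susN N hf)) hα
  exact (MC_susN hSI hSS hf N).1 ((MC_iff hSI α (susN N f) hc).1 h1)

theorem stmt_CubicTw (hSI : Stmt_SI) (hSS : Stmt_SS) (hSR : Stmt_SR) : Stmt_CubicTw := by
  intro e he hS n f hf
  obtain ⟨N, α, hα⟩ := hSR n f
  have hc : Fintype.card (Fin n ⊕ (Fin N × Bool)) = Fintype.card (Fin (n + 2 * N)) := by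
    simp; ring
  have h1 := hS _ (α (susN N f)) (totalDegree_alg α (totalDegree_susN N hf)) hα
  exact (MC_susN hSI hSS hf N).2 e he ((MCtw_iff hSI α (susN N f) hc e).1 h1)

end Pool.Agent.Mono
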