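import Pool.Agent.Work.Monodromy.Statement

/-!
# Monodromy conjecture for pull-backs of hyperplane arrangements under power maps: definitions

See `BLUEPRINT.md`.  The definitions used in the final statements are in `Statement.lean`.
-/

namespace Pool.Agent.Mono

open MvPolynomial

/-! ## The data -/

/-- `f = ∏ x_i^{b_i} ∏_j (c0_j + ∑_i c_{ji} x_i^{a_i})^{m_j}` -/
structure Data (ι κ : Type) where
  a : ι → ℕ
  b : ι → ℕ
  c0 : κ → ℂ
  c : κ → ι → ℂ
  m : κ → ℕ

namespace Data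

variable {ι κ : Type} [Fintype ι] [Fintype κ] [DecidableEq ι] [DecidableEq κ]

noncomputable def form (D : Data ι κ) (j : κ) : MvPolynomial ι ℂ :=
  C (D.c0 j) + ∑ i, C (D.c j i) * X i ^ D.a i

noncomputable def poly (D : Data ι κ) : MvPolynomial ι ℂ :=
  (∏ i, X i ^ D.b i) * ∏ j, D.form j ^ D.m j

/-- the form `j` on the arc `y_i = t^{δ_i} x_i^{a_i}` -/
noncomputable def formS (D : Data ι κ) (δ : ι → ℕ) (x : ι → PowerSeries ℂ) (j : κ) :
    PowerSeries ℂ :=
  PowerSeries.C (D.c0 j) +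
    ∑ i, PowerSeries.C (D.c j i) * (PowerSeries.X ^ δ i * x i ^ D.a i)

/-- `F_δ(x) = ∏ x_i^{b_i} ∏_j ℓ_j(t^δ x^a)^{m_j}` -/
noncomputable def F (D : Data ι κ) (δ : ι → ℕ) (x : ι → PowerSeries ℂ) : PowerSeries ℂ :=
  (∏ i, x i ^ D.b i) * ∏ j, D.formS δ x j ^ D.m j

/-- the variable `i` occurs in `f` -/
def Rel (D : Data ι κ) (i : ι) : Prop := 0 < D.b i ∨ ∃ j, 0 < D.m j ∧ D.c j i ≠ 0

/-- relevant and not free -/
def NF (D : Data ι κ) (i : ι) : Prop := D.Rel i ∧ (1 < D.a i ∨ 0 < D.b i)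

def Central (D : Data ι κ) : Prop := ∀ j, D.c0 j = 0

/-- validity: exponents positive; active forms are not zero -/
def Valid (D : Data ι κ) : Prop :=
  (∀ i, 1 ≤ D.a i) ∧ ∀ j, 0 < D.m j → D.c0 j ≠ 0 ∨ ∃ i, D.c j i ≠ 0

/-- localisation: `J` = the nonzero coordinates of the point, `A` = the forms vanishing there -/
def loc (D : Data ι κ) (J : Finset ι) (A : Finset κ) : Data ι κ where
  a := fun i => if i ∈ J then 1 else D.a i
  b := fun i => if i ∈ J then 0 else D.b i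
  c0 := fun _ => 0
  c := D.c
  m := fun j => if j ∈ A then D.m j else 0

/-- keep only the monomial factors in `I` and the forms in `T` -/
def restr (D : Data ι κ) (I : Finset ι) (T : Finset κ) : Data ι κ where
  a := D.a
  b := fun i => if i ∈ I then D.b i else 0
  c0 := D.c0
  c := D.c
  m := fun j => if j ∈ T then D.m j else 0

/-- linear substitution `y = Φ y'` in the forms -/
noncomputable def lin (D : Data ι κ) (Φ : Matrix ι ι ℂ) : Data ι κ where
  a := D.a
  b := D.b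
  c0 := D.c0
  c := fun j k => ∑ i, D.c j i * Φ i k
  m := D.m

open Classical in
/-- relevant variables with shift `0` -/
noncomputable def M0 (D : Data ι κ) (δ : ι → ℕ) : Finset ι :=
  Finset.univ.filter fun i => D.Rel i ∧ δ i = 0

open Classical in
/-- the shifts after localisation -/
noncomputable def next (D : Data ι κ) (δ : ι → ℕ) (J : Finset ι) : ι → ℕ := fun i =>
  if i ∈ J then 0 else if i ∈ D.M0 δ then D.a i - 1 else δ i - 1

/-- the stratum of points `ξ` with support `J` at which exactly the forms in `A` vanish -/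
def str (D : Data ι κ) (J : Finset ι) (A : Finset κ) : Set (ι → ℂ) :=
  {ξ | (∀ i, ξ i ≠ 0 ↔ i ∈ J) ∧ ∀ j, eval ξ (D.form j) = 0 ↔ j ∈ A}

/-- the unit `∏_{i ∈ J} ξ_i^{b_i} ∏_{j ∉ A} ℓ_j(ξ^a)^{m_j}` on the stratum -/
noncomputable def unit (D : Data ι κ) (J : Finset ι) (A : Finset κ) : MvPolynomial ι ℂ :=
  (∏ i ∈ J, X i ^ D.b i) * ∏ j ∈ Aᶜ, D.form j ^ D.m j

/-- index set of the extended arrangement `A⁺` (active forms and coordinates of non-free
variables) -/
def act (D : Data ι κ) : Set (κ ⊕ ι) := {z | Sum.elim (fun j => 0 < D.m j) D.NF z}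

/-- the vectors of the extended arrangement -/
def vec (D : Data ι κ) : κ ⊕ ι → (ι → ℂ) := Sum.elim D.c fun i => Pi.single i 1

/-- `A⁺` spans the dual of the space of relevant coordinates -/
def Ess (D : Data ι κ) : Prop :=
  ∀ i, D.Rel i → (Pi.single i 1 : ι → ℂ) ∈ Submodule.span ℂ (D.vec '' D.act)

/-- `T` decomposes `A⁺` -/
def DecBy (D : Data ι κ) (T : Set (κ ⊕ ι)) : Prop :=
  T ⊆ D.act ∧ T.Nonempty ∧ (D.act \ T).Nonempty ∧
    Disjoint (Submodule.span ℂ (D.vec '' T)) (Submodule.span ℂ (D.vec '' (D.act \ T)))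

open Classical in
noncomputable def size (D : Data ι κ) : ℕ :=
  (Finset.univ.filter fun j => 0 < D.m j).card + (Finset.univ.filter D.NF).card +
    (Finset.univ.filter D.Rel).card

end Data

/-! ## Cylinders and volumes -/

section Cyl

variable {E ι : Type}

/-- the arc with the given coefficients below the level `K` -/
noncomputable def toArc (K : ι → ℕ) (v : (Σ i, Fin (K i)) → ℂ) (i : ι) : PowerSeries ℂ :=
  PowerSeries.mk fun l => if h : l < K i then v ⟨i, ⟨l, h⟩⟩ else 0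

/-- the set `C ⊆ ℂ^E × arcs`, restricted to truncated arcs -/
def sec (K : ι → ℕ) (C : Set ((E → ℂ) × (ι → PowerSeries ℂ))) :
    Set (E ⊕ (Σ i, Fin (K i)) → ℂ) :=
  {v | ((fun p => v (Sum.inl p)), toArc K fun s => v (Sum.inr s)) ∈ C}

/-- `C` is a cylinder of level `K` over a constructible set -/
def IsCyl (K : ι → ℕ) (C : Set ((E → ℂ) × (ι → PowerSeries ℂ))) : Prop :=
  (∀ p x y, (∀ i, ∀ l < K i, PowerSeries.coeff l (x i) = PowerSeries.coeff l (y i)) →
    ((p, x) ∈ C ↔ (p, y) ∈ C)) ∧ Constructible (sec K C)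

open Classical in
/-- the volume of a cylinder: `μ(C_K) L^{-∑ K_i}` -/
noncomputable def vol [Fintype ι] {R : Type} [CommRing R] (μ : MotivicMeasure R) [Finite E] (Li : R)
    (C : Set ((E → ℂ) × (ι → PowerSeries ℂ))) : R :=
  if h : ∃ K, IsCyl K C then μ.val (sec h.choose C) * Li ^ (∑ i, h.choose i) else 0

end Cyl

/-! ## The zeta functions `Z_D(B, h; δ)` and functorial expressions -/

section Z

variable {ι κ : Type} [Fintype ι] [Fintype κ] [DecidableEq ι] [DecidableEq κ]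

/-- `(p, w, x)` with `p ∈ B`, `ord F_δ(x) = k`, `w^e = h(p) ac F_δ(x)` -/
def contact {E : Type} (e : ℕ) (B : Set (E → ℂ)) (h : MvPolynomial E ℂ) (D : Data ι κ) (δ : ι → ℕ)
    (k : ℕ) : Set ((E ⊕ Unit → ℂ) × (ι → PowerSeries ℂ)) :=
  {z | (fun p => z.1 (Sum.inl p)) ∈ B ∧ (∀ l < k, PowerSeries.coeff l (D.F δ z.2) = 0) ∧
    PowerSeries.coeff k (D.F δ z.2) ≠ 0 ∧
    z.1 (Sum.inr ()) ^ e =
      eval (fun p => z.1 (Sum.inl p)) h * PowerSeries.coeff k (D.F δ z.2)}

noncomputable def Zs {R : Type} [CommRing R] (μ : MotivicMeasure R) (Li : R) (e : ℕ) {E : Type}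
    [Finite E] (B : Set (E → ℂ)) (h : MvPolynomial E ℂ) (D : Data ι κ) (δ : ι → ℕ) :
    PowerSeries R :=
  PowerSeries.mk fun k => vol μ Li (contact e B h D δ k)

/-- product of parameter sets -/
def pset {E σ : Type} (B : Set (E → ℂ)) (S : Set (σ → ℂ)) : Set (E ⊕ σ → ℂ) :=
  {v | (fun p => v (Sum.inl p)) ∈ B ∧ (fun q => v (Sum.inr q)) ∈ S}

/-- product of functions on parameter sets -/
noncomputable def pmul {E σ : Type} (h : MvPolynomial E ℂ) (u : MvPolynomial σ ℂ) :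
    MvPolynomial (E ⊕ σ) ℂ := rename Sum.inl h * rename Sum.inr u

/-- `{(p, w) : p ∈ B, w^g = h(p)}` -/
def cover {E : Type} (g : ℕ) (B : Set (E → ℂ)) (h : MvPolynomial E ℂ) : Set (E ⊕ Unit → ℂ) :=
  {v | (fun p => v (Sum.inl p)) ∈ B ∧ v (Sum.inr ()) ^ g = eval (fun p => v (Sum.inl p)) h}

/-- the class of `{(p, τ, w) : p ∈ B, τ ∈ S, w^g = h(p) u(τ)}` -/
noncomputable def cls {R : Type} [CommRing R] (μ : MotivicMeasure R) {E σ : Type} [Finite E]
    [Finite σ] (g : ℕ) (B : Set (E → ℂ)) (h : MvPolynomial E ℂ) (S : Set (σ → ℂ))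
    (u : MvPolynomial σ ℂ) : R :=
  μ.val (cover g (pset B S) (pmul h u))

/-- `1 / (1 - Li^ν T^N)` -/
noncomputable def geo {R : Type} [CommRing R] (Li : R) (q : ℕ × ℕ) : PowerSeries R :=
  PowerSeries.mk fun k => if q.1 ∣ k then Li ^ (q.2 * (k / q.1)) else 0

/-- a term of a functorial expression -/
structure Term where
  σ : Type
  fin : Finite σ
  S : Set (σ → ℂ)
  u : MvPolynomial σ ℂ
  g : ℕ
  l : ℕ
  c : ℕ
  D : List (ℕ × ℕ)

/-- well formed term with all denominators in `G` -/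
def Term.Ok (t : Term) (G : Set (ℕ × ℕ)) : Prop :=
  Constructible t.S ∧ (∀ x ∈ t.S, eval x t.u ≠ 0) ∧ 1 ≤ t.g ∧ ∀ q ∈ t.D, q ∈ G ∧ 1 ≤ q.1

/-- the value of a term on `(B, h)` -/
noncomputable def Term.ser (t : Term) {R : Type} [CommRing R] (μ : MotivicMeasure R) (Li : R)
    {E : Type} [Finite E] (B : Set (E → ℂ)) (h : MvPolynomial E ℂ) : PowerSeries R :=
  haveI := t.fin
  PowerSeries.C (cls μ t.g B h t.S t.u * Li ^ t.l) * PowerSeries.X ^ t.c *
    (t.D.map fun q => PowerSeries.C (μ.L - 1) * geo Li q).prod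

/-- `Z_D^{(e)}(· ; δ)` has a functorial expression with denominators in `G` -/
def HasExpr (e : ℕ) (D : Data ι κ) (δ : ι → ℕ) (G : Set (ℕ × ℕ)) : Prop :=
  ∃ ts : List Term, (∀ t ∈ ts, t.Ok G) ∧
    ∀ (R : Type) [CommRing R] (μ : MotivicMeasure R) (Li : R), μ.L * Li = 1 →
      ∀ (E : Type) [Finite E] (B : Set (E → ℂ)) (h : MvPolynomial E ℂ), Constructible B →
        (∀ p ∈ B, eval p h ≠ 0) →
          Zs μ Li e B h D δ = (ts.map fun t => t.ser μ Li B h).sum

/-- a summand `Li^l T^c Z_{D'}(B × S, h u; δ')` in a recursion -/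
structure Piece (ι κ : Type) where
  σ : Type
  fin : Finite σ
  S : Set (σ → ℂ)
  u : MvPolynomial σ ℂ
  l : ℕ
  c : ℕ
  D : Data ι κ
  δ : ι → ℕ

noncomputable def Piece.ser (t : Piece ι κ) {R : Type} [CommRing R] (μ : MotivicMeasure R) (Li : R)
    (e : ℕ) {E : Type} [Finite E] (B : Set (E → ℂ)) (h : MvPolynomial E ℂ) : PowerSeries R :=
  haveI := t.fin
  PowerSeries.C (Li ^ t.l) * PowerSeries.X ^ t.c * Zs μ Li e (pset B t.S) (pmul h t.u) t.D t.δ

/-- the stratum splits off a torus factor `ℂ^*` -/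
def TorusSplit {σ : Type} [Finite σ] (S : Set (σ → ℂ)) (u : MvPolynomial σ ℂ) : Prop :=
  ∃ (S' : Set (σ → ℂ)) (n : ℕ), S' ⊆ S ∧ Constructible S' ∧
    ∀ (R : Type) [CommRing R] (μ : MotivicMeasure R) (E : Type) [Finite E] (B : Set (E → ℂ))
      (h : MvPolynomial E ℂ) (g : ℕ), 1 ≤ g → Constructible B → (∀ p ∈ B, eval p h ≠ 0) →
        cls μ g B h S u = (μ.L - 1) * cls μ (Nat.gcd g n) B h S' u

end Z

/-! ## Variants of the Bernstein ideal -/

section Bernstein

variable {ι : Type}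

/-- the local version at `p`, with the identity only for large `k` -/
def IsLocBernstein (f : MvPolynomial ι ℂ) (p : ι → ℂ) (b : Polynomial ℂ) : Prop :=
  ∃ (P : Polynomial (Weyl ι)) (v : MvPolynomial ι ℂ), eval p v ≠ 0 ∧
    ∀ᶠ k : ℕ in Filter.atTop,
      wact P k (f ^ (k + 1)) = C (b.eval (k : ℂ)) * (v * f ^ k)

/-- Bernstein polynomials with the identity only for large `k` -/
def IsEvBernstein (f : MvPolynomial ι ℂ) (b : Polynomial ℂ) : Prop :=
  ∃ P : Polynomial (Weyl ι), ∀ᶠ k : ℕ in Filter.atTop,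
    wact P k (f ^ (k + 1)) = C (b.eval (k : ℂ)) * f ^ k

/-- pairs `(N, ν)` such that `-ν/N - j` is, for some natural number `j`, a root of all polynomials
of `I` (so `exp(-2πiν/N)` is an eigenvalue) -/
def GoodPair (I : Set (Polynomial ℂ)) : Set (ℕ × ℕ) :=
  {q | 1 ≤ q.1 ∧ 1 ≤ q.2 ∧ ∃ j : ℕ, ∀ b ∈ I, b.eval (-(q.2 : ℂ) / q.1 - j) = 0}

def bSet (f : MvPolynomial ι ℂ) : Set (Polynomial ℂ) := {b | IsEvBernstein f b}

end Bernstein

end Pool.Agent.Mono
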