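import Pool.Agent.Work.Monodromy.Statement

/-!
# Definitions used in the statements: twisted topological zeta functions
-/

namespace Pool.Agent.Mono

/-- the zeta function without its constant term: `∑_{k ≥ 1}` -/
noncomputable def zetaSer1 {ι : Type} [Fintype ι] {R : Type} [CommRing R] (μ : MotivicMeasure R)
    (Li : R) (f : MvPolynomial ι ℂ) (e : ℕ) : PowerSeries R :=
  PowerSeries.mk fun k => if k = 0 then 0 else μ.val (jetSet f e k) * Li ^ (k * Fintype.card ι)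

/-- `R` is the twisted topological zeta function
`∑_{I ≠ ∅, e ∣ m_I} χ(E_I°) ∏_{i ∈ I} 1/(N_i s + ν_i)`: by Möbius inversion
`φ(e) R = ∑_{d ∣ e} μ(e/d) R_d`, `R_d = ∑_{I ≠ ∅} gcd(m_I, d) χ(E_I°) ∏ 1/(N_i s + ν_i)` the limit of the
zeta function of the cover `w^d = f`. -/
def IsTwTopZeta {ι : Type} [Fintype ι] (P : HodgeMeasure) (f : MvPolynomial ι ℂ) (e : ℕ)
    (R : RatFunc ℚ) : Prop :=
  ∃ r : ℕ → RatFunc ℚ, (∀ d ∈ e.divisors, IsLim (zetaSer1 P.rat (RatFunc.X)⁻¹ f d) (r d)) ∧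
    RatFunc.C (e.totient : ℚ) * R =
      ∑ d ∈ e.divisors, RatFunc.C ((ArithmeticFunction.moebius (e / d) : ℤ) : ℚ) * r d

end Pool.Agent.Mono
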