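import Pool.Agent.Work.Monodromy.Statement

/-!
# Definitions used in the statements: Bernstein-Sato polynomial and monodromy eigenvalues
-/

namespace Pool.Agent.Mono

/-- `b` is the Bernstein-Sato polynomial of `f`: the monic generator of the ideal of all `b'` for
which there is `P ∈ A_n[s]` with `P(s) f^{s+1} = b'(s) f^s`. -/
def IsBernsteinSato {ι : Type} (f : MvPolynomial ι ℂ) (b : Polynomial ℂ) : Prop :=
  b.Monic ∧ ∀ b' : Polynomial ℂ, IsBernstein f b' ↔ b ∣ b'

/-- `l` is a monodromy eigenvalue of `f`, by the theorem of Malgrange and Kashiwara: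
`l = exp(2πis)` for a root `s` of the Bernstein-Sato polynomial of `f`. -/
def IsMonodromyEigenvalue {ι : Type} (f : MvPolynomial ι ℂ) (l : ℂ) : Prop :=
  ∃ b : Polynomial ℂ, IsBernsteinSato f b ∧
    ∃ s : ℂ, b.eval s = 0 ∧ l = Complex.exp (2 * Real.pi * Complex.I * s)

end Pool.Agent.Mono
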