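import Pool.Agent.Work.Monodromy.Statement

/-!
# Definitions used in the statements: Euler measures and nondegenerate polynomials
-/

set_option autoImplicit false

namespace Pool.Agent.Mono

open MvPolynomial

/-- A Hodge measure whose value at `u = 1` satisfies Fubini's theorem, as the Euler characteristic
does: if all fibres of a polynomial map `s → t` have the value `c` at `u = 1`, then
`E(s)(1) = c E(t)(1)`. -/
structure EulerMeasure extends HodgeMeasure where
  fubini : ∀ {ι κ : Type} [Finite ι] [Finite κ] (s : Set (ι → ℂ)) (t : Set (κ → ℂ))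
    (φ : κ → MvPolynomial ι ℂ) (c : ℤ), Constructible s → Constructible t →
      (∀ x ∈ s, (fun j => eval x (φ j)) ∈ t) →
      (∀ y ∈ t, (val {x : ι → ℂ | x ∈ s ∧ (fun j => eval x (φ j)) = y}).eval 1 = c) →
        (val s).eval 1 = c * (val t).eval 1

/-- the initial form of `f` for the weights `k`: the sum of the terms of minimal weight -/
noncomputable def initForm {n : ℕ} (f : MvPolynomial (Fin n) ℂ) (k : Fin n → ℤ) :
    MvPolynomial (Fin n) ℂ :=
  ∑ m ∈ f.support.filter (fun m => ∀ m' ∈ f.support, ∑ i, k i * (m i : ℤ) ≤ ∑ i, k i * (m' i : ℤ)),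
    monomial m (f.coeff m)

/-- `f` is nondegenerate (Kouchnirenko): for every weight `k` the initial form of `f` defines a
smooth hypersurface in the torus -/
def IsNondegenerate {n : ℕ} (f : MvPolynomial (Fin n) ℂ) : Prop :=
  ∀ (k : Fin n → ℤ) (x : Fin n → ℂ), (∀ i, x i ≠ 0) → eval x (initForm f k) = 0 →
    ∃ i, eval x (pderiv i (initForm f k)) ≠ 0

end Pool.Agent.Mono
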