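import Pool.Agent.Work.Monodromy.Interface4
import Pool.Agent.Work.Monodromy.Statement2
import Pool.Agent.Work.Monodromy.StatementB
import Pool.Agent.Work.Monodromy.StatementE

/-!
# Phase 12: generic polynomials with any support; definitions (helper17)

`Monodromy12/BLUEPRINT12.md` contains the proofs.  Everything is in the namespace
`Pool.Agent.Mono.NP`.
-/

set_option autoImplicit false

namespace Pool.Agent.Mono

open MvPolynomial

namespace NP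

section

variable {ι κ : Type} [Fintype ι] [DecidableEq ι] [Fintype κ] [DecidableEq κ]

/-- the polynomial `∑ a_v x^{w_v}` -/
noncomputable def poly (w : κ → ι → ℕ) (a : κ → ℂ) : MvPolynomial ι ℂ :=
  ∑ v, C (a v) * ∏ i, X i ^ w v i

/-! ## The triangulation -/

/-- the vectors `(w_a, 1)`, `a ∈ κ`, and `(e_j, 0)`, `j ∈ ι` -/
def hat (w : κ → ι → ℕ) : κ ⊕ ι → ι ⊕ Unit → ℚ :=
  Sum.elim (fun a => Sum.elim (fun i => (w a i : ℚ)) fun _ => 1)
    fun j => Sum.elim (Pi.single j 1) fun _ => 0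

/-- the pairing of a rational covector with a vector over a field -/
def ev {F : Type} [Field F] [Algebra ℚ F] (x : ι ⊕ Unit → ℚ) (y : ι ⊕ Unit → F) : F :=
  ∑ e, algebraMap ℚ F (x e) * y e

/-- `k·w_a + h_a` -/
def hval (w : κ → ι → ℕ) (h : κ → ℝ) (k : ι → ℝ) (a : κ) : ℝ := ∑ i, k i * w a i + h a

open Classical in
/-- the cell of `k ≥ 0`: the `a` with minimal `k·w_a + h_a` and the `j` with `k_j = 0` -/
noncomputable def cell (w : κ → ι → ℕ) (h : κ → ℝ) (k : ι → ℝ) : Finset (κ ⊕ ι) :=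
  Finset.univ.filter (Sum.elim (fun a => ∀ b, hval w h k a ≤ hval w h k b) fun j => k j = 0)

open Classical in
/-- the maximal cells (they have `n + 1` elements) -/
noncomputable def maxCells (w : κ → ι → ℕ) (h : κ → ℝ) : Finset (Finset (κ ⊕ ι)) :=
  Finset.univ.filter fun Δ => Δ.card = Fintype.card ι + 1 ∧
    ∃ k : ι → ℝ, (∀ i, 0 ≤ k i) ∧ Δ = cell w h k

open Classical in
/-- `|det|` of a set of `n + 1` vectors -/
noncomputable def adet (w : κ → ι → ℕ) (Δ : Finset (κ ⊕ ι)) : ℚ :=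
  if h : Fintype.card Δ = Fintype.card (ι ⊕ Unit) then
    |(Matrix.of fun a b => hat w ((Fintype.equivOfCardEq h).symm a) b).det| else 0

open Classical in
/-- the covector which is `1` on `v` and `0` on the other elements of `Δ` -/
noncomputable def dual (w : κ → ι → ℕ) (Δ : Finset (κ ⊕ ι)) (v : κ ⊕ ι) : ι ⊕ Unit → ℚ :=
  if h : ∃ x : ι ⊕ Unit → ℚ, ∀ u ∈ Δ, ∑ e, x e * hat w u e = if u = v then 1 else 0 then
    h.choose else 0

section

variable {F : Type} [Field F] [Algebra ℚ F]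

open Classical in
/-- the coordinates of `y` in the basis `Δ`, zero outside of `Δ` -/
noncomputable def cf (w : κ → ι → ℕ) (Δ : Finset (κ ⊕ ι)) (y : ι ⊕ Unit → F) (v : κ ⊕ ι) : F :=
  if v ∈ Δ then ev (dual w Δ v) y else 0

/-- `y` has nonzero coordinates with respect to all maximal cells -/
def Gen (w : κ → ι → ℕ) (h : κ → ℝ) (y : ι ⊕ Unit → F) : Prop :=
  ∀ Δ ∈ maxCells w h, ∀ v ∈ Δ, cf w Δ y v ≠ 0

open Classical in
/-- `∫_σ g (y) = ∑_{Δ ⊇ σ} g(y^Δ) / (|det Δ| ∏_{v ∈ Δ \ σ} y^Δ_v)` -/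
noncomputable def Itg (w : κ → ι → ℕ) (h : κ → ℝ) (σ : Finset (κ ⊕ ι))
    (g : MvPolynomial (κ ⊕ ι) ℚ) (y : ι ⊕ Unit → F) : F :=
  ∑ Δ ∈ (maxCells w h).filter (σ ⊆ ·),
    aeval (cf w Δ y) g / (algebraMap ℚ F (adet w Δ) * ∏ v ∈ Δ \ σ, cf w Δ y v)

end

/-! ## Box points and the zeta function -/

/-- `b ∈ [0,1)^C` rational with `∑ b_a w_a` integral -/
def Bx (w : κ → ι → ℕ) (C : Finset κ) : Set (κ → ℚ) :=
  {b | (∀ a, 0 ≤ b a ∧ b a < 1) ∧ (∀ a, a ∉ C → b a = 0) ∧ ∀ i, ∃ z : ℤ, ∑ a, b a * w a i = z}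

/-- the number of pairs of box points, the weight of the first one has exact order `e` modulo `1`,
the weight of the second one is integral -/
noncomputable def mu (w : κ → ι → ℕ) (e : ℕ) (C : Finset κ) : ℕ :=
  Nat.card {b : κ → ℚ // b ∈ Bx w C ∧ (∑ a, b a).den = e} *
    Nat.card {b : κ → ℚ // b ∈ Bx w C ∧ (∑ a, b a).den = 1}

/-- the subset `C ⊆ κ` as a set of vertices -/
def inl (C : Finset κ) : Finset (κ ⊕ ι) := C.map Function.Embedding.inl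

/-- `∑_C (-1)^{|C|} μ_e(C) ∫_C 1` -/
noncomputable def Tf {F : Type} [Field F] [Algebra ℚ F] (w : κ → ι → ℕ) (h : κ → ℝ) (e : ℕ)
    (y : ι ⊕ Unit → F) : F :=
  ∑ C : Finset κ, (-1) ^ C.card * (mu w e C : F) * Itg w h (inl C) 1 y

/-- the line `(1, …, 1, -s)` -/
noncomputable def line (ι : Type) : ι ⊕ Unit → RatFunc ℚ :=
  Sum.elim (fun _ => 1) fun _ => -RatFunc.X

/-- `-s/(s+1)` for `e = 1` and `-1` for `e ≥ 2` -/
noncomputable def pref (e : ℕ) : RatFunc ℚ := if e = 1 then -RatFunc.X / (RatFunc.X + 1) else -1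

/-- every cell of the triangulation of the support is seen by some `k ≥ 0` -/
def Full (w : κ → ι → ℕ) (h : κ → ℝ) : Prop :=
  ∀ k : ι → ℝ, ∃ k' : ι → ℝ, (∀ i, 0 ≤ k' i) ∧
    ∀ a, (∀ b, hval w h k a ≤ hval w h k b) → ∀ b, hval w h k' a ≤ hval w h k' b

/-! ## The data of a witness -/

/-- row `j` is covered by the `a` with `m_a ≠ 0` or `c_a` not integral -/
def Cov (w : κ → ι → ℕ) (c : κ → ℚ) (m : κ →₀ ℕ) (j : ι) : Prop :=
  ∃ a, w a j ≠ 0 ∧ (m a ≠ 0 ∨ ∀ z : ℤ, c a ≠ z)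

/-- a homogeneous functional `x^m ↦ lam m`, from which a witness with parameter in `s₀ + ℤ` is
constructed -/
def LamDatum (w : κ → ι → ℕ) (h : κ → ℝ) (s₀ : ℚ) : Prop :=
  ∃ (c : κ → ℚ) (J : Finset ι) (d : ℕ) (lam : (κ →₀ ℕ) → ℚ),
    (∑ a, c a = -s₀) ∧
    (∀ i, i ∉ J → ∃ z : ℤ, ∑ a, c a * w a i = z) ∧
    (∀ m, lam m ≠ 0 → m.degree = d) ∧
    (∀ m, lam m ≠ 0 → ∃ k : ι → ℝ, (∀ i, 0 ≤ k i) ∧
      ∀ a, (m a ≠ 0 ∨ ∀ z : ℤ, c a ≠ z) → Sum.inl a ∈ cell w h k) ∧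
    (∀ m, lam m ≠ 0 → ∃ (x : ι → ℚ) (N : ℚ), 0 < N ∧ (∀ i, 0 ≤ x i) ∧ (∀ j ∈ J, x j = 0) ∧
      (∀ a, N ≤ ∑ i, x i * w a i) ∧
      ∀ a, (m a ≠ 0 ∨ ∀ z : ℤ, c a ≠ z) → ∑ i, x i * w a i = N) ∧
    (∀ (i : ι) (m : κ →₀ ℕ), (∀ j, j ∉ J → j ≠ i → Cov w c m j) →
      ∑ a, (w a i : ℚ) * lam (m + Finsupp.single a 1) = 0) ∧
    (∀ m : κ →₀ ℕ, (∀ j, j ∉ J → Cov w c m j) → ∑ a, lam (m + Finsupp.single a 1) = 0) ∧
    ∃ m, (∀ j, j ∉ J → Cov w c m j) ∧ lam m ≠ 0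

end

/-! ## The three parts -/

/-- Part I: the zeta function is given by the triangulation -/
def Stmt_I : Prop :=
  ∀ (E : EulerMeasure) (ι κ : Type) [Fintype ι] [DecidableEq ι] [Fintype κ] [DecidableEq κ]
    [Nonempty κ] (w : κ → ι → ℕ) (a : κ → ℂ) (h : κ → ℝ) (e : ℕ) (R : RatFunc ℚ)
    (P D : MvPolynomial (ι ⊕ Unit) ℚ), Function.Injective w → AlgebraicIndependent ℚ a →
    LinearIndependent ℚ h → Full w h → 1 ≤ e →
    IsTwTopZeta E.toHodgeMeasure (poly w a) e R →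
    (∀ y : ι ⊕ Unit → ℝ, Gen w h y → Tf w h e y * aeval y D = aeval y P) →
    ∃ c : ℚ, (RatFunc.C (e.totient : ℚ) * R + RatFunc.C c) * aeval (line ι) D =
      pref e * aeval (line ι) P

/-- FULL: there are heights with `Full` -/
def Stmt_FULL : Prop :=
  ∀ (ι κ : Type) [Fintype ι] [DecidableEq ι] [Fintype κ] [DecidableEq κ] (w : κ → ι → ℕ),
    Function.Injective w → ∃ h : κ → ℝ, LinearIndependent ℚ h ∧ Full w h

/-- Part II: a pole gives a functional -/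
def Stmt_II : Prop :=
  ∀ (ι κ : Type) [Fintype ι] [DecidableEq ι] [Fintype κ] [DecidableEq κ] [Nonempty κ]
    (w : κ → ι → ℕ) (h : κ → ℝ) (e : ℕ), Function.Injective w → LinearIndependent ℚ h → 1 ≤ e →
    ∃ P D : MvPolynomial (ι ⊕ Unit) ℚ,
      (∀ y : ι ⊕ Unit → ℝ, Gen w h y → Tf w h e y * aeval y D = aeval y P) ∧
      aeval (line ι) D ≠ 0 ∧
      ∀ s : ℂ, (∀ z : ℤ, s ≠ z) →
        Polynomial.aeval s (aeval (line ι) P / aeval (line ι) D : RatFunc ℚ).denom = 0 →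
        ∃ s₀ : ℚ, (s₀ : ℂ) = s ∧ LamDatum w h s₀

/-- Part III: a functional gives a witness -/
def Stmt_III : Prop :=
  ∀ (ι κ : Type) [Fintype ι] [DecidableEq ι] [Fintype κ] [DecidableEq κ] (w : κ → ι → ℕ)
    (a : κ → ℂ) (h : κ → ℝ) (s₀ : ℚ), AlgebraicIndependent ℚ a → LinearIndependent ℚ h →
    (∀ z : ℤ, s₀ ≠ z) → LamDatum w h s₀ →
    ∃ (β : ℚ) (z : ℤ), β = s₀ + z ∧ TS.Wit (poly w a) (β : ℂ)

end NP

end Pool.Agent.Mono
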