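import Pool.Agent.Work.Monodromy.Interface5

/-!
# Phase 6: charts and edges for polynomials in two variables

`Monodromy6/NOTES6.md` contains the plan.  Everything is in the namespace `Pool.Agent.Mono.PC`.
Coordinates of a chart: `s = X 0`, `v = X 1`.
-/

namespace Pool.Agent.Mono.PC

open MvPolynomial TS

abbrev P2 : Type := MvPolynomial (Fin 2) ℂ

/-- `x ↦ s^M`, `y ↦ Φ(s) + s^H v` -/
noncomputable def chartMap (M H : ℕ) (Φ : Polynomial ℂ) : P2 →ₐ[ℂ] P2 :=
  aeval ![X 0 ^ M, Polynomial.aeval (X 0 : P2) Φ + X 0 ^ H * X 1]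

/-- `Chart M H e Φ`: charts of iterated toric steps; `M + H` is the log discrepancy of `s = 0`, `e` is
the order of a curvette along `s = 0`.  A step with the edge `(p, q)` and the root `lam^p` replaces
`(s, v)` by `(s^p, s^q (lam + v))`, followed by a coordinate change `v ↦ v + s Θ(s)`. -/
inductive Chart : ℕ → ℕ → ℕ → Polynomial ℂ → Prop
  | base (Φ : Polynomial ℂ) (h : Φ.coeff 0 = 0) : Chart 1 0 0 Φ
  | step {M H e : ℕ} {Φ : Polynomial ℂ} (hc : Chart M H e Φ) (p q : ℕ) (hp : 1 ≤ p) (hq : 1 ≤ q)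
      (hpq : p.Coprime q) (lam : ℂ) (hl : lam ≠ 0) (Θ : Polynomial ℂ) :
      Chart (p * M) (p * H + q) (p * (p * e + q))
        (Φ.comp (Polynomial.X ^ p) + Polynomial.C lam * Polynomial.X ^ (p * H + q) +
          Polynomial.X ^ (p * H + q + 1) * Θ)

/-- all monomials `s^a v^b` of `F` satisfy `N < p a + q b` -/
def Above (p q N : ℕ) (F : P2) : Prop := ∀ d ∈ F.support, N < p * d 0 + q * d 1

/-- the terms of the edge `(p, q)` with left end point `(aL, bR + p n)`, right end point
`(aL + q n, bR)`, `n = I.natDegree`, and edge polynomial `I` in `v^p / s^q` -/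
noncomputable def edgePart (p q aL bR : ℕ) (I : Polynomial ℂ) : P2 :=
  ∑ k ∈ Finset.range (I.natDegree + 1),
    C (I.coeff k) * X 0 ^ (aL + q * (I.natDegree - k)) * X 1 ^ (bR + p * k)

/-- the weight of the edge -/
def edgeN (p q aL bR : ℕ) (I : Polynomial ℂ) : ℕ := p * aL + q * (bR + p * I.natDegree)

/-- `F` has the edge `(p, q)` in its Newton polygon, with end points and edge polynomial as in
`edgePart` -/
structure IsEdge (F : P2) (p q aL bR : ℕ) (I : Polynomial ℂ) : Prop where
  hp : 1 ≤ p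
  hq : 1 ≤ q
  cop : p.Coprime q
  coeff_zero : I.coeff 0 ≠ 0
  deg : 1 ≤ I.natDegree
  above : Above p q (edgeN p q aL bR I) (F - edgePart p q aL bR I)

/-- the number of special points on the exceptional curve of the edge -/
noncomputable def special (p q aL bR : ℕ) (I : Polynomial ℂ) : ℕ :=
  I.roots.toFinset.card + (if 2 ≤ p ∨ 1 ≤ bR then 1 else 0) + (if 2 ≤ q ∨ 1 ≤ aL then 1 else 0)

/-- `r` is the exponent of a good edge (at least three special points), or of a node -/
def GoodExp (f : P2) (r : ℚ) : Prop :=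
  ∃ (M H e : ℕ) (Φ : Polynomial ℂ) (p q aL bR : ℕ) (I : Polynomial ℂ), Chart M H e Φ ∧
    IsEdge (chartMap M H Φ f) p q aL bR I ∧ e * (bR + p * I.natDegree) ≤ aL ∧
    (3 ≤ special p q aL bR I ∨
      (p = 1 ∧ q = 1 ∧ aL = 0 ∧ bR = 0 ∧ I.natDegree = 2 ∧ I.roots.toFinset.card = 2)) ∧
    r = ((p * (M + H) + q : ℕ) : ℚ) / (edgeN p q aL bR I : ℚ)

/-- the exponents of `f` over the points of the plane (`α` is a polynomial automorphism, e.g. a
translation, the exchange of the variables, `y ↦ y + ψ(x)` and their compositions) -/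
def PCExp (f : P2) (r : ℚ) : Prop := ∃ α : P2 ≃ₐ[ℂ] P2, GoodExp (α f) r

end Pool.Agent.Mono.PC
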