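import Pool.Agent.Work.Monodromy.Defs

/-!
# Derivations of fraction fields, twisted derivations
-/

namespace Pool.Agent.Mono

open MvPolynomial

section Der

variable {R A K : Type} [CommRing R] [CommRing A] [Algebra R A] [CommRing K] [Algebra A K]
  [Algebra R K] [IsScalarTower R A K]

/-- `a ↦ a + ε D a` -/
noncomputable def dualHom (D : Derivation R A A) : A →ₐ[R] TrivSqZeroExt K K where
  toFun a := TrivSqZeroExt.inl (algebraMap A K a) + TrivSqZeroExt.inr (algebraMap A K (D a))
  map_one' := by ext <;> simp
  map_mul' a b := by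
    ext
    · simp
    · simp [mul_comm, Algebra.algebraMap_eq_smul_one, smul_smul, add_smul]
  map_zero' := by ext <;> simp
  map_add' a b := by
    ext
    · simp
    · simp [Algebra.algebraMap_eq_smul_one, add_smul]
  commutes' r := by
    ext
    · simp [← IsScalarTower.algebraMap_apply, TrivSqZeroExt.algebraMap_eq_inl']
    · simp [TrivSqZeroExt.algebraMap_eq_inl']

theorem dualHom_isUnit (M : Submonoid A) [IsLocalization M K] (D : Derivation R A A) (y : M) :
    IsUnit (dualHom (K := K) D (y : A)) := by
  have hy : IsUnit (algebraMap A K (y : A)) := IsLocalization.map_units K y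
  rw [TrivSqZeroExt.isUnit_iff_isUnit_fst]
  simpa [dualHom] using hy

/-- the extension to the localisation, as an algebra homomorphism -/
noncomputable def dualLift (M : Submonoid A) [IsLocalization M K] (D : Derivation R A A) :
    K →ₐ[R] TrivSqZeroExt K K :=
  IsLocalization.liftAlgHom (M := M) (f := dualHom (K := K) D) (dualHom_isUnit M D)

theorem dualLift_algebraMap (M : Submonoid A) [IsLocalization M K] (D : Derivation R A A) (a : A) :
    dualLift (K := K) M D (algebraMap A K a) = dualHom (K := K) D a := by
  simp [dualLift]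

theorem dualLift_fst (M : Submonoid A) [IsLocalization M K] (D : Derivation R A A) (x : K) :
    (dualLift (K := K) M D x).fst = x := by
  have h : ((TrivSqZeroExt.fstHom R K K : TrivSqZeroExt K K →ₐ[R] K).comp
      (dualLift (K := K) M D)).toRingHom = RingHom.id K := by
    apply IsLocalization.ringHom_ext M
    ext a
    simp [dualLift_algebraMap, dualHom]
  exact congrArg (fun f : K →+* K => f x) h

/-- extension of a derivation to a localisation -/
noncomputable def locDer (M : Submonoid A) [IsLocalization M K] (D : Derivation R A A) :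
    Derivation R K K where
  toFun x := (dualLift (K := K) M D x).snd
  map_add' x y := by simp
  map_smul' r x := by simp
  map_one_eq_zero' := by simp
  leibniz' x y := by
    simp [dualLift_fst, mul_comm]

theorem locDer_algebraMap (M : Submonoid A) [IsLocalization M K] (D : Derivation R A A) (a : A) :
    locDer (K := K) M D (algebraMap A K a) = algebraMap A K (D a) := by
  change (dualLift (K := K) M D (algebraMap A K a)).snd = _
  rw [dualLift_algebraMap]
  simp [dualHom, Algebra.algebraMap_eq_smul_one]

end Der

section Theta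

variable (R : Type) [CommRing R] [IsDomain R] {ι κ : Type}

/-- the fraction field of `R[y_i]` -/
abbrev FF (R : Type) [CommRing R] [IsDomain R] (ι : Type) : Type := FractionRing (MvPolynomial ι R)

/-- the inclusion `R[y] → FF` -/
noncomputable def toF (q : MvPolynomial ι R) : FF R ι := algebraMap (MvPolynomial ι R) (FF R ι) q

/-- the extension of `∂/∂y_i` to the fraction field -/
noncomputable def dF (i : ι) : Derivation R (FF R ι) (FF R ι) :=
  locDer (nonZeroDivisors (MvPolynomial ι R)) (pderiv i)

theorem dF_toF (i : ι) (q : MvPolynomial ι R) : dF R i (toF R q) = toF R (pderiv i q) :=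
  locDer_algebraMap _ _ _

/-- the twisted derivation `θ_i = ∂_i + ∑_k σ_k ∂_i ℓ_k / ℓ_k` -/
noncomputable def theta [Fintype κ] (l : κ → MvPolynomial ι R) (σ : κ → R) (i : ι) :
    FF R ι →ₗ[R] FF R ι :=
  (dF R i : FF R ι →ₗ[R] FF R ι) +
    LinearMap.mulLeft R (∑ k, toF R (C (σ k)) * (toF R (pderiv i (l k)) / toF R (l k)))

/-- `x ∈ R[y][1/Q]` -/
def InS (Q : MvPolynomial ι R) (x : FF R ι) : Prop :=
  ∃ (j : ℕ) (q : MvPolynomial ι R), x * toF R Q ^ j = toF R q

/-- `∑_i θ_i (R[y][1/Q])` -/
def ImT [Fintype ι] [Fintype κ] (l : κ → MvPolynomial ι R) (σ : κ → R) (Q : MvPolynomial ι R) :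
    Set (FF R ι) :=
  {x | ∃ h : ι → FF R ι, (∀ i, InS R Q (h i)) ∧ x = ∑ i, theta R l σ i (h i)}

/-- `W_0 = R[y] u`, `W_{m+1} = W_m + ∑ θ_i W_m` : what is generated from `u` by twisted
differential operators of order `≤ m` -/
noncomputable def gen [Fintype κ] (l : κ → MvPolynomial ι R) (σ : κ → R) (u : FF R ι) :
    ℕ → Submodule R (FF R ι)
  | 0 => Submodule.span R (Set.range fun q : MvPolynomial ι R => toF R q * u)
  | m + 1 => gen l σ u m ⊔ ⨆ i, (gen l σ u m).map (theta R l σ i)

/-- the linear form with coefficients `v` -/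
noncomputable def linF [Fintype ι] [Algebra ℂ R] (v : ι → ℂ) : MvPolynomial ι R :=
  ∑ i, C (algebraMap ℂ R (v i)) * X i

end Theta

end Pool.Agent.Mono
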