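import Pool.Agent.Work.Monodromy.Defs6
import Pool.Agent.Work.Monodromy.Frac

/-!
# Phase 6, witness part: interface

`Monodromy6/NOTES6.md`, section 2, contains the proofs.  Everything is in the namespace
`Pool.Agent.Mono.PC`.  Block `X` : file `Pool/Agent/Work/Monodromy6/<X>.lean`,
`theorem stmt_X : Stmt_X` (other `Stmt_Y` may be hypotheses).
-/

namespace Pool.Agent.Mono.PC

open MvPolynomial TS

/-- the field `ℂ(Z)` -/
abbrev KZ : Type := RatFunc ℂ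

/-- `d/dZ` -/
noncomputable def DZ : Derivation ℂ KZ KZ :=
  locDer (K := KZ) (nonZeroDivisors (Polynomial ℂ)) Polynomial.derivative'

noncomputable def ZZ : KZ := RatFunc.X

/-- the coordinate `Y = y₁ + 1/Z` -/
noncomputable def YY (y₁ : ℂ) : KZ := RatFunc.C y₁ + ZZ⁻¹

/-- `d/dZ` of the coefficients -/
noncomputable def dZ (F : PowerSeries KZ) : PowerSeries KZ :=
  PowerSeries.mk fun n => DZ (PowerSeries.coeff n F)

/-- `d/dX` -/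
noncomputable def dX (F : PowerSeries KZ) : PowerSeries KZ := PowerSeries.derivative KZ F

/-- the Jacobian determinant with respect to `(X, Z)` -/
noncomputable def jac (σ : P2 →ₐ[ℂ] PowerSeries KZ) : PowerSeries KZ :=
  dX (σ (X 0)) * dZ (σ (X 1)) - dZ (σ (X 0)) * dX (σ (X 1))

/-- `s ↦ X^p Y^p'`, `v ↦ X^q Y^q'` -/
noncomputable def toric (p q p' q' : ℕ) (y₁ : ℂ) : P2 →ₐ[ℂ] PowerSeries KZ :=
  aeval ![PowerSeries.C (YY y₁ ^ p') * PowerSeries.X ^ p,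
    PowerSeries.C (YY y₁ ^ q') * PowerSeries.X ^ q]

/-- the logarithmic derivative of `∏ (Z - P)^(a P)` -/
noncomputable def tau (S : Finset ℂ) (a : ℂ → ℚ) : KZ :=
  ∑ P ∈ S, RatFunc.C ((a P : ℚ) : ℂ) * (ZZ - RatFunc.C P)⁻¹

/-- a form which is not exact -/
def Stmt_NV6 : Prop :=
  ∀ (S : Finset ℂ) (a : ℂ → ℚ), (∀ P ∈ S, ∀ n : ℕ, 1 ≤ n → a P ≠ n) →
    (2 ≤ S.card ∨ ∃ (P : ℂ) (n : ℕ), S = {P} ∧ a P = -(n : ℚ)) →
    ∃ h : Polynomial ℂ, ∀ g : KZ, DZ g + tau S a * g ≠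
      algebraMap (Polynomial ℂ) KZ h * ∏ P ∈ S, (ZZ - RatFunc.C P)⁻¹

/-- witnesses from residues along `X = 0` (which is contracted to a point) -/
def Stmt_RES6 : Prop :=
  ∀ (f : P2) (σ : P2 →ₐ[ℂ] PowerSeries KZ),
    (∀ i, ∃ c : ℂ, PowerSeries.constantCoeff (σ (X i)) = RatFunc.C c) →
    ∀ (N ν j : ℕ) (G J' φ' : PowerSeries KZ) (φ : P2),
    1 ≤ N → 1 ≤ ν → σ f = PowerSeries.X ^ N * G → PowerSeries.constantCoeff G ≠ 0 →
    jac σ = PowerSeries.X ^ (ν - 1) * J' → σ φ = PowerSeries.X ^ (N * j) * φ' →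
    (∀ g : KZ, DZ g - RatFunc.C ((ν : ℂ) / (N : ℂ)) *
        (DZ (PowerSeries.constantCoeff G) / PowerSeries.constantCoeff G) * g ≠
      PowerSeries.constantCoeff φ' * PowerSeries.constantCoeff J' *
        (PowerSeries.constantCoeff G ^ j)⁻¹) →
    WitClass f ((ν : ℚ) / (N : ℚ))

/-- curvettes and monomials in a chart -/
def Stmt_CH6 : Prop :=
  ∀ (M H e : ℕ) (Φ : Polynomial ℂ), Chart M H e Φ →
    (∃ χ η : P2, chartMap M H Φ χ = X 0 ^ e * η ∧ eval 0 η = 0 ∧ eval 0 (pderiv 1 η) ≠ 0) ∧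
    (∀ n : ℕ, e ≤ n → ∃ φ ω : P2, chartMap M H Φ φ = X 0 ^ n * ω ∧ eval 0 ω ≠ 0) ∧
    1 ≤ M ∧ M + H ≤ e + 1

/-- leading forms along an edge -/
def Stmt_LF6 : Prop :=
  ∀ (M H e : ℕ) (Φ : Polynomial ℂ), Chart M H e Φ → ∀ p q p' q' : ℕ, 1 ≤ p → 1 ≤ q →
    p * q' = p' * q + 1 → ∀ (y₁ : ℂ) (m a : ℕ), a ≤ m →
      ∃ (φ : P2) (c : ℂ) (φ' : PowerSeries KZ), c ≠ 0 ∧
        toric p q p' q' y₁ (chartMap M H Φ φ) = PowerSeries.X ^ (p * (p * e + q) * m) * φ' ∧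
        PowerSeries.constantCoeff φ' = RatFunc.C c * YY y₁ ^ (p' * (p * e + q) * m + a)

/-- Jacobians -/
def Stmt_JAC6 : Prop :=
  (∀ (M H p q p' q' : ℕ) (Φ : Polynomial ℂ) (y₁ : ℂ), 1 ≤ M → 1 ≤ p → 1 ≤ q →
    p * q' = p' * q + 1 →
    jac ((toric p q p' q' y₁).comp (chartMap M H Φ)) =
      PowerSeries.X ^ (p * (M + H) + q - 1) * PowerSeries.C
        (-(M : KZ) * YY y₁ ^ (p' * (M + H) + q' - 1) * (ZZ⁻¹) ^ 2)) ∧
  ∀ α : P2 ≃ₐ[ℂ] P2, ∃ c : ℂ, c ≠ 0 ∧ ∀ σ : P2 →ₐ[ℂ] PowerSeries KZ,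
    jac (σ.comp (α : P2 →ₐ[ℂ] P2)) = PowerSeries.C (RatFunc.C c) * jac σ

/-- good edges give witnesses -/
def Stmt_EW6 : Prop := ∀ (f : P2) (r : ℚ), PCExp f r → WitClass f r

/-- multiple factors -/
def Stmt_MF6 : Prop :=
  ∀ (ι : Type) [Fintype ι] [DecidableEq ι] (g h : MvPolynomial ι ℂ) (m : ℕ), 2 ≤ m →
    Irreducible g → ¬ g ∣ h → Wit (g ^ m * h) (-1 / (m : ℂ))

end Pool.Agent.Mono.PC
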