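import Pool.Agent.Work.Monodromy.Interface6V
import Pool.Agent.Work.Monodromy.Interface6W

/-!
# Phase 7: binary gates `P(f(x), g(y))`, shared definitions (helper72)

`Monodromy7/BLUEPRINT7.md` contains the plan.  Everything is in the namespace `Pool.Agent.Mono.BG`.
`a = X 0` (value of `f` minus `c`), `b = X 1` (value of `g` minus `c'`).
-/

set_option autoImplicit false

namespace Pool.Agent.Mono.BG

open MvPolynomial TS PC RO

/-- `P(f(x), g(y))`, in separate variables -/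
noncomputable def comp2 {ι κ : Type} (P : P2) (f : MvPolynomial ι ℂ) (g : MvPolynomial κ ℂ) :
    MvPolynomial (ι ⊕ κ) ℂ :=
  aeval ![rename Sum.inl f, rename Sum.inr g] P

/-- `P(x₀ + (a, b)) - P(x₀)` -/
noncomputable def loc (P : P2) (x₀ : Fin 2 → ℂ) : P2 :=
  aeval (fun i => X i + C (x₀ i)) P - C (eval x₀ P)

/-- the exponents of `f` at the value `c` -/
def wset {ι : Type} [DecidableEq ι] (f : MvPolynomial ι ℂ) (c : ℂ) : Set ℚ :=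
  {r : ℚ | 0 < r ∧ WitClass (f - C c) r}

/-- binary gates -/
def Stmt_BG : Prop :=
  ∀ (ι κ : Type) [Fintype ι] [Fintype κ] [DecidableEq ι] [DecidableEq κ] (f : MvPolynomial ι ℂ)
    (g : MvPolynomial κ ℂ) (P : P2), P.totalDegree ≠ 0 → Good5 ι f → Good5 κ g →
      Good5 (ι ⊕ κ) (comp2 P f g)

/-! ## Functionals (witness side) -/

section

variable {R : Type} [CommRing R] [Algebra ℂ R]

/-- the rule for the coordinate `X j`: fixed (`fx = true`) with the parameter `be`, or free -/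
def AxR (fx : Bool) (be : R) (j : Fin 2) (G : P2) (l : ℕ → (P2 →ₗ[ℂ] R)) : Prop :=
  (fx = true → (∀ i ψ, l (i + 1) (X j * pderiv j G * ψ) = be * l i ψ - l i (X j * pderiv j ψ)) ∧
    ∀ ψ, l 0 (X j * pderiv j G * ψ) = 0) ∧
  (fx = false → (∀ i ψ, l (i + 1) (pderiv j G * ψ) = -l i (pderiv j ψ)) ∧
    ∀ ψ, l 0 (pderiv j G * ψ) = 0)

/-- a sequence of functionals at the origin: `l i` is the functional
`ψ ↦ Res G^(ga - i) a^(- be - 1) b^(- be' - 1) ψ da db` -/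
structure TW (tU tV : Bool) (be be' ga : R) (G : P2) (l : ℕ → (P2 →ₗ[ℂ] R)) : Prop where
  supp : ∀ i, ∃ K : ℕ, ∀ a b : ℕ, K ≤ a + b → ∀ ψ, l i (X 0 ^ a * X 1 ^ b * ψ) = 0
  mulG : ∀ i ψ, l (i + 1) (G * ψ) = (ga - i) * l i ψ
  mul0 : ∀ ψ, l 0 (G * ψ) = 0
  ax0 : AxR tU be 0 G l
  ax1 : AxR tV be' 1 G l

end

/-- the exponent `r` is given by functionals with the parameters `be`, `be'` (`tU`: the coordinate
`a` is fixed, `tV`: the coordinate `b` is fixed) -/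
def HasTW (tU tV : Bool) (be be' : ℚ) (G : P2) (r : ℚ) : Prop :=
  ∃ (ga : ℚ) (z : ℤ), ga < 0 ∧ ga = -r + z ∧ ∃ l : ℕ → (P2 →ₗ[ℂ] ℂ),
    TW tU tV (be : ℂ) (be' : ℂ) (ga : ℂ) G l ∧ ∃ i, l i ≠ 0

/-! ## The tree, fixed coordinate `a` with exponents `W`, free coordinate `b` -/

/-- the exponent of the ray `(p, q)` at the vertex `(A, B)` -/
def rate7 (ν : ℚ) (A B p q : ℕ) : ℚ := ((p : ℚ) * ν + q) / ((p * A + q * B : ℕ) : ℚ)

/-- the exponents of a child -/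
def step7 (W : Set ℚ) (p q : ℕ) : Set ℚ := {r | ∃ ν ∈ W, r = (p : ℚ) * ν + q}

/-- the cone between the rays `(p, q)`, `(p', q')` with vertex `(A, B)` gives a Haar part and
exponents in `Λ` (`W` may be empty: weights with finite support) -/
def SCond7 (Λ W : Set ℚ) (p q A B p' q' : ℕ) : Prop :=
  1 ≤ p * A + q * B ∧ 1 ≤ p' * A + q' * B ∧ (∀ ν ∈ W, rate7 ν A B p q ∈ Λ) ∧
  ((1 ≤ p' ∧ ∀ ν ∈ W, rate7 ν A B p' q' ∈ Λ) ∨ (p' = 0 ∧ q' = 1 ∧ 1 / (B : ℚ) ∈ Λ) ∨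
    (p' = 0 ∧ q' = 1 ∧ B = 1 ∧ ∀ ν ∈ W, rate7 ν A B p q ≠ 1))

/-- `RB7 Λ W G p q o`: the region `{ord w > (q/p) ord s}` of `G` is resolved with exponents in `Λ`,
if the sequence of weights of `ord s` has exponents in `W` (compare `RB`) -/
inductive RB7 (Λ : Set ℚ) : Set ℚ → P2 → ℕ → ℕ → Option (ℂ × ℕ × ℕ × ℕ × ℕ) → Prop
  | fin0 (W : Set ℚ) (G : P2) (p q A : ℕ) (hp : 1 ≤ p) (hA : 1 ≤ A) (h1 : G.coeff (mon A 0) ≠ 0)
      (h2 : Low p q (p * A) G) (h3 : ∀ ν ∈ W, rate7 ν A 0 p q ∈ Λ) : RB7 Λ W G p q none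
  | fin1 (W : Set ℚ) (g h : P2) (p q A₁ A₂ B : ℕ) (hp : 1 ≤ p) (hB : 1 ≤ B)
      (g1 : g.coeff (mon A₁ 1) ≠ 0) (g2 : Low p q (p * A₁ + q) g)
      (g3 : ∀ d ∈ g.support, d 1 = 0 → p * A₁ + q < p * d 0)
      (h1 : h.coeff (mon A₂ 0) ≠ 0) (h2 : Low p q (p * A₂) h)
      (hN : 1 ≤ p * (B * A₁ + A₂) + q * B) :
      RB7 Λ W (g ^ B * h) p q
        (some (g.coeff (mon A₁ 1) ^ B * h.coeff (mon A₂ 0), B * A₁ + A₂, B, 0, 1))
  | step (W : Set ℚ) (G : P2) (p q p' q' aL bR : ℕ) (I : Polynomial ℂ) (hp : 1 ≤ p)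
      (hpq : q * p' < q' * p) (he : IsEdge G p' q' aL bR I)
      (h1 : Low p q (p * aL + q * (bR + p' * I.natDegree)) G)
      (hN : 1 ≤ p * aL + q * (bR + p' * I.natDegree))
      (h2 : ∀ ν ∈ W, rate7 ν aL (bR + p' * I.natDegree) p' q' ∈ Λ)
      (h3 : ∀ lam : ℂ, lam ≠ 0 → I.eval (lam ^ p') = 0 →
        RB7 Λ (step7 W p' q') (chart p' q' lam G) 1 0 none)
      (h4 : RB7 Λ W G p' q' none) :
      RB7 Λ W G p q (some (I.leadingCoeff, aL, bR + p' * I.natDegree, p', q'))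
  | close (W : Set ℚ) (G : P2) (p q : ℕ) (c : ℂ) (A B p' q' : ℕ)
      (h1 : RB7 Λ W G p q (some (c, A, B, p', q')))
      (h2 : SCond7 Λ W p q A B p' q') : RB7 Λ W G p q none
  | coord (W : Set ℚ) (G : P2) (p q : ℕ) (o : Option (ℂ × ℕ × ℕ × ℕ × ℕ)) (ψ : Polynomial ℂ)
      (hψ : ∀ j ∈ ψ.support, q < p * j) (h : RB7 Λ W (shift ψ G) p q o) : RB7 Λ W G p q o

/-- `G` with `G(0) = 0`, the coordinate `a` fixed with exponents in `W`, `b` free -/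
inductive GoodXF (Λ W : Set ℚ) : P2 → Prop
  /-- `a ∣ G` -/
  | ray (G : P2) (h : RB7 Λ W G 1 0 none) : GoodXF Λ W G
  /-- first edge, with the vertex `(0, B)` -/
  | edge (G : P2) (p q bR : ℕ) (I : Polynomial ℂ) (he : IsEdge G p q 0 bR I)
      (h1 : ∀ ν ∈ W, rate7 ν 0 (bR + p * I.natDegree) p q ∈ Λ)
      (h2 : ∀ lam : ℂ, lam ≠ 0 → I.eval (lam ^ p) = 0 →
        RB7 Λ (step7 W p q) (chart p q lam G) 1 0 none)
      (h3 : RB7 Λ W G p q none) : GoodXF Λ W G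
  /-- one multiple component, transversal to `a = 0` -/
  | comp (g h : P2) (B : ℕ) (hB : 2 ≤ B) (g0 : eval 0 g = 0) (g1 : eval 0 (pderiv 1 g) ≠ 0)
      (h0 : eval 0 h ≠ 0) (hΛ : 1 / (B : ℚ) ∈ Λ) : GoodXF Λ W (g ^ B * h)
  | coord (G : P2) (ψ : Polynomial ℂ) (h0 : ψ.coeff 0 = 0) (h : GoodXF Λ W (shift ψ G)) :
      GoodXF Λ W G

/-! ## The tree, both coordinates fixed (exponents `W`, `W'`) -/

/-- the exponents of the ray `(p, q)` at the vertex `(A, B)` are in `Λ` -/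
def SC77 (Λ W W' : Set ℚ) (p q A B : ℕ) : Prop :=
  1 ≤ p * A + q * B ∧ ∀ ν ∈ W, ∀ ν' ∈ W', ((p : ℚ) * ν + q * ν') / ((p * A + q * B : ℕ) : ℚ) ∈ Λ

/-- the exponents of a child of level `0` -/
def step77 (W W' : Set ℚ) (p q : ℕ) : Set ℚ := {r | ∃ ν ∈ W, ∃ ν' ∈ W', r = (p : ℚ) * ν + q * ν'}

/-- the region `{ord b > (q/p) ord a}`, both coordinates fixed -/
inductive RX (Λ W W' : Set ℚ) : P2 → ℕ → ℕ → Prop
  /-- last vertex `(A, 0)` -/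
  | r0 (G : P2) (p q A : ℕ) (hp : 1 ≤ p) (hA : 1 ≤ A) (h1 : G.coeff (mon A 0) ≠ 0)
      (h2 : Low p q (p * A) G) (h3 : SC77 Λ W W' p q A 0) : RX Λ W W' G p q
  /-- last vertex `(A, B)`, `B ≥ 1` -/
  | r1 (G : P2) (p q A B : ℕ) (hp : 1 ≤ p) (hB : 1 ≤ B) (h1 : G.coeff (mon A B) ≠ 0)
      (h2 : Low p q (p * A + q * B) G) (h3 : Low 0 1 B G) (h4 : SC77 Λ W W' p q A B)
      (h5 : ∀ ν' ∈ W', ν' / (B : ℚ) ∈ Λ) : RX Λ W W' G p q
  /-- one more edge -/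
  | rs (G : P2) (p q p' q' aL bR : ℕ) (I : Polynomial ℂ) (hp : 1 ≤ p)
      (hpq : q * p' < q' * p) (he : IsEdge G p' q' aL bR I)
      (h1 : Low p q (p * aL + q * (bR + p' * I.natDegree)) G)
      (h2 : SC77 Λ W W' p q aL (bR + p' * I.natDegree))
      (h3 : SC77 Λ W W' p' q' aL (bR + p' * I.natDegree))
      (h4 : ∀ lam : ℂ, lam ≠ 0 → I.eval (lam ^ p') = 0 →
        RB7 Λ (step77 W W' p' q') (chart p' q' lam G) 1 0 none)
      (h5 : RX Λ W W' G p' q') : RX Λ W W' G p q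

/-- `G` with `G(0) = 0`, both coordinates fixed -/
inductive GoodXX (Λ W W' : Set ℚ) : P2 → Prop
  | edge (G : P2) (p q aL bR : ℕ) (I : Polynomial ℂ) (he : IsEdge G p q aL bR I)
      (h1 : SC77 Λ W W' p q aL (bR + p * I.natDegree))
      (h2 : ∀ lam : ℂ, lam ≠ 0 → I.eval (lam ^ p) = 0 →
        RB7 Λ (step77 W W' p q) (chart p q lam G) 1 0 none)
      (h3 : RX Λ W W' G p q) (h4 : RX Λ W' W (swp G) q p) : GoodXX Λ W W' G
  | mono (G : P2) (A B : ℕ) (hAB : 1 ≤ A + B) (h1 : G.coeff (mon A B) ≠ 0)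
      (h2 : ∀ d ∈ G.support, A ≤ d 0 ∧ B ≤ d 1) (h3 : 1 ≤ A → ∀ ν ∈ W, ν / (A : ℚ) ∈ Λ)
      (h4 : 1 ≤ B → ∀ ν' ∈ W', ν' / (B : ℚ) ∈ Λ) : GoodXX Λ W W' G

end Pool.Agent.Mono.BG
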