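import Pool.Agent.Work.Monodromy.Interface6V
import Pool.Agent.Work.Monodromy6.InterfaceSQ
import Pool.Agent.Work.Monodromy.Statement2

/-!
# Phase 8: the smallest poles, definitions (helper17)

For every polynomial `f` in `n ≥ 3` variables and every pole `s < -(n-1)/2` of its topological zeta
function, `exp(2πis)` is an eigenvalue of the monodromy.  `Monodromy8/BLUEPRINT8.md` contains the
proofs.  Everything is in the namespace `Pool.Agent.Mono.SP`.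
-/

set_option autoImplicit false

namespace Pool.Agent.Mono.SP

open MvPolynomial TS RO PC

/-! ## Poles at `u = 0` -/

/-- `a ∈ ℚ(u)` is regular at `u = 0` -/
def Int0 (a : K) : Prop :=
  ∃ p q : Polynomial ℚ, q.coeff 0 ≠ 0 ∧
    a * algebraMap (Polynomial ℚ) K q = algebraMap (Polynomial ℚ) K p

/-- the pole of `a` at `u = 0` has order at most `N` -/
def Bnd (N : ℕ) (a : K) : Prop := Int0 (RatFunc.X ^ N * a)

/-- the pole of `κ(m)` at `u = 0` has order at most `(a/b) m + c` -/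
def Bd (a b : ℕ) (κ : ℕ → K) : Prop := ∃ c : ℕ, ∀ m N : ℕ, a * m ≤ b * N → Bnd (N + c) (κ m)

/-! ## Volumes -/

section

variable {E ι : Type}

/-- `H(p, t, y(t))` -/
noncomputable def evH (H : MvPolynomial (E ⊕ (Unit ⊕ ι)) ℂ) (p : E → ℂ) (y : ι → PowerSeries ℂ) :
    PowerSeries ℂ :=
  aeval (Sum.elim (fun e => PowerSeries.C (p e)) (Sum.elim (fun _ => PowerSeries.X) y)) H

/-- `H(p, t, y(t))` has order `m` and leading coefficient in `Q` -/
def HS (H : MvPolynomial (E ⊕ (Unit ⊕ ι)) ℂ) (Q : Set (E ⊕ Unit → ℂ)) (m : ℕ) :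
    Set ((E → ℂ) × (ι → PowerSeries ℂ)) :=
  {z | Lead Q m z.1 (evH H z.1 z.2)}

/-- `H(p, 0, y)` is smooth at `y = q` -/
def Sm (H : MvPolynomial (E ⊕ (Unit ⊕ ι)) ℂ) (p : E → ℂ) (q : ι → ℂ) : Prop :=
  ∃ b : ι, eval (Sum.elim p (Sum.elim (fun _ => 0) q)) (pderiv (Sum.inr (Sum.inr b)) H) ≠ 0

/-- `F(p, y(t))` -/
noncomputable def evF (F : MvPolynomial (E ⊕ ι) ℂ) (p : E → ℂ) (y : ι → PowerSeries ℂ) :
    PowerSeries ℂ :=
  aeval (Sum.elim (fun e => PowerSeries.C (p e)) y) F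

/-- `y_a = c t^k` -/
noncomputable def ext1 [DecidableEq ι] (a : ι) (c : ℂ) (k : ℕ)
    (y : {b : ι // b ≠ a} → PowerSeries ℂ) (b : ι) : PowerSeries ℂ :=
  if h : b = a then PowerSeries.C c * PowerSeries.X ^ k else y ⟨b, h⟩

/-- arcs which start in `S`, `f` has order `m` and leading coefficient in `Q` -/
def ZL (f : MvPolynomial ι ℂ) (S : Set (ι → ℂ)) (Q : Set (E ⊕ Unit → ℂ)) (m : ℕ) :
    Set ((E → ℂ) × (ι → PowerSeries ℂ)) :=
  {z | (fun a => PowerSeries.coeff 0 (z.2 a)) ∈ S ∧ Lead Q m z.1 (aeval z.2 f)}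

end

/-- the volumes of the arcs which start in constructible subsets of `S` are `O(u^{-(a/b) m})` -/
def ZB (P : HodgeMeasure) {ι : Type} [Fintype ι] (f : MvPolynomial ι ℂ) (a b : ℕ)
    (S : Set (ι → ℂ)) : Prop :=
  ∀ S' ⊆ S, Constructible S' → ∃ c : ℕ, ∀ (E : Type) [Finite E] (Q : Set (E ⊕ Unit → ℂ)), QU Q →
    ∀ m N : ℕ, a * m ≤ b * N → Bnd (N + c) (vol P.rat xq (ZL f S' Q m))

/-! ## Families of coordinates -/

section

variable {ι κ : Type}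

/-- specialisation of the parameters -/
noncomputable def sp (p : ι → ℂ) (G : MvPolynomial (ι ⊕ κ) ℂ) : MvPolynomial κ ℂ :=
  aeval (Sum.elim (fun a => C (p a)) X) G

/-- `φ_p` are coordinates at `q` (they map the origin to `q`) -/
def IsCo [Fintype ι] [DecidableEq ι] (q : ι → ℂ) (φ : ι → MvPolynomial ι ℂ) : Prop :=
  (∀ a, eval (fun _ => 0) (φ a) = q a) ∧
    (Matrix.of fun a b => eval (fun _ => (0 : ℂ)) (pderiv b (φ a))).det ≠ 0

/-- the points `p` at which `φ_p` are coordinates in which all monomials of `f` have weight at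
least `D` -/
def CZ [Fintype ι] [DecidableEq ι] (f : MvPolynomial ι ℂ) (φ : ι → MvPolynomial (ι ⊕ ι) ℂ)
    (w : ι → ℕ) (D : ℕ) : Set (ι → ℂ) :=
  {p | IsCo p (fun a => sp p (φ a)) ∧
    ∀ d ∈ (bind₁ (fun a => sp p (φ a)) f).support, D ≤ Finsupp.weight w d}

/-- the critical points in `f = 0` -/
def Crit0 (f : MvPolynomial ι ℂ) : Set (ι → ℂ) := {p | eval p f = 0 ∧ ∀ a, eval p (pderiv a f) = 0}

/-- simple critical points (of type A, D, E) -/
def Sim [Fintype ι] [DecidableEq ι] (f : MvPolynomial ι ℂ) (p : ι → ℂ) : Prop :=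
  ∃ i : ℕ, 2 ≤ i ∧ SQAt f p (((Fintype.card ι : ℚ) - 1) / 2 + 1 / (i : ℚ))

/-- the points of `T` are simple or covered by finitely many charts with exponent `≤ a/b` -/
def Cov [Fintype ι] [DecidableEq ι] (f : MvPolynomial ι ℂ) (a b : ℕ) (T : Set (ι → ℂ)) : Prop :=
  ∃ L : List ((ι → MvPolynomial (ι ⊕ ι) ℂ) × (ι → ℕ) × ℕ),
    (∀ c ∈ L, (∀ i, 1 ≤ c.2.1 i) ∧ 1 ≤ c.2.2 ∧ (∑ i, c.2.1 i) * b ≤ c.2.2 * a) ∧
    ∀ p ∈ T, (∃ c ∈ L, p ∈ CZ f c.1 c.2.1 c.2.2) ∨ Sim f p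

/-- the Hessian matrix at `p` -/
noncomputable def Hs (f : MvPolynomial ι ℂ) (p : ι → ℂ) : Matrix ι ι ℂ :=
  Matrix.of fun a b => eval p (pderiv a (pderiv b f))

/-- its principal submatrix -/
noncomputable def HZ (f : MvPolynomial ι ℂ) (Z : Finset ι) (p : ι → ℂ) : Matrix Z Z ℂ :=
  (Hs f p).submatrix (fun a => (a : ι)) fun a => (a : ι)

/-- critical points at which the Hessian matrix has the rank `|Z|` and an invertible block `ZZ` -/
def Rk [Fintype ι] [DecidableEq ι] (f : MvPolynomial ι ℂ) (Z : Finset ι) : Set (ι → ℂ) :=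
  {p | p ∈ Crit0 f ∧ (HZ f Z p).det ≠ 0 ∧ (Hs f p).rank = Z.card}

/-- a family of coordinates over `S` in which `f` has the property `Φ p` -/
def FamC [Fintype ι] [DecidableEq ι] (f : MvPolynomial ι ℂ) (S : Set (ι → ℂ))
    (Φ : (ι → ℂ) → MvPolynomial ι ℂ → Prop) : Prop :=
  ∃ φ : ι → MvPolynomial (ι ⊕ ι) ℂ, ∀ p ∈ S, IsCo p (fun a => sp p (φ a)) ∧
    Φ p (bind₁ (fun a => sp p (φ a)) f)

/-- degree in the variables of `Z` -/
def dZ (Z : Finset ι) (d : ι →₀ ℕ) : ℕ := ∑ b ∈ Z, d b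

/-- `F = (nondegenerate quadratic form in z) + (terms z_i x^α, |α| ≥ K) + (terms x^α, |α| ≥ 3) +
(terms of degree ≥ 3 and of degree ≥ 2 in z)`, `z` the variables of `Z`, `x` the other ones -/
def Spl [Fintype ι] [DecidableEq ι] (Z : Finset ι) (K : ℕ) (F : MvPolynomial ι ℂ) : Prop :=
  (∀ d ∈ F.support, (dZ Z d = 0 → 3 ≤ dZ Zᶜ d) ∧ (dZ Z d = 1 → K ≤ dZ Zᶜ d)) ∧
    (HZ F Z fun _ => 0).det ≠ 0

end

/-! ## The topological zeta function -/

/-- `(u - 1) u^{-ν} T^N / (1 - u^{-ν} T^N)` -/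
noncomputable def dlFac (q : ℕ × ℕ) : PowerSeries K :=
  PowerSeries.mk fun k => if 1 ≤ k ∧ q.1 ∣ k then (RatFunc.X - 1) * xq ^ (q.2 * (k / q.1)) else 0

/-- `Z = ∑ c ∏ (u - 1) u^{-ν} T^N / (1 - u^{-ν} T^N)` and `R = ∑ c(1) ∏ 1/(N s + ν)` -/
def IsDL (Z : PowerSeries K) (R : K) : Prop :=
  ∃ ts : List (Polynomial ℤ × List (ℕ × ℕ)),
    (∀ t ∈ ts, ∀ q ∈ t.2, 1 ≤ q.1 ∧ 1 ≤ q.2) ∧
    Z = (ts.map fun t => PowerSeries.C (toRat t.1) * (t.2.map dlFac).prod).sum ∧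
    R = (ts.map fun t => RatFunc.C ((t.1.eval 1 : ℤ) : ℚ) *
      (t.2.map fun q => (RatFunc.C (q.1 : ℚ) * RatFunc.X + RatFunc.C (q.2 : ℚ))⁻¹).prod).sum

end Pool.Agent.Mono.SP
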