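import Pool.Agent.Work.Monodromy.Defs7

/-!
# Phase 7, witness part: interface (helper72)

`Monodromy7/BLUEPRINT7.md` contains the proofs.  Everything is in the namespace `Pool.Agent.Mono.BG`.
Block `X` : file `Pool/Agent/Work/Monodromy7/<X>.lean`, `theorem stmt_X : Stmt_X` (other `Stmt_Y` may
be hypotheses).
-/

set_option autoImplicit false

namespace Pool.Agent.Mono.BG

open MvPolynomial TS PC RO

/-! ## Chains of vectors and the transfer -/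

/-- a module over the Weyl algebra with a chain of vectors (`v i ~ f^(β - i)`): a witness if
`fx = true`; otherwise `β = -1` and `∂f v₀ = 0` is not required -/
def Str {ι : Type} [DecidableEq ι] (f : MvPolynomial ι ℂ) (fx : Bool) (β : ℂ) : Prop :=
  ∃ (V : Type) (_ : AddCommGroup V) (_ : Module ℂ V) (w : BP.WMod ℂ V ι) (v : ℕ → V),
    v 0 ≠ 0 ∧ w.pX f (v 0) = 0 ∧ (fx = true → ∀ a, w.pX (pderiv a f) (v 0) = 0) ∧
    (fx = false → β = -1) ∧ (∀ i a, w.D' a (v i) = w.pX (pderiv a f) (v (i + 1))) ∧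
    ∀ i : ℕ, w.pX f (v (i + 1)) = (β - i) • v i

/-- `fx = true`: trivial; `fx = false`: `ℂ[x][1/f] / ℂ[x]`, `v i = (-1)^i i! / f^(i+1)` -/
def Stmt_STR7 : Prop :=
  (∀ (ι : Type) [DecidableEq ι] (f : MvPolynomial ι ℂ) (β : ℂ), Wit f β → Str f true β) ∧
  ∀ (ι : Type) [Fintype ι] [DecidableEq ι] (f : MvPolynomial ι ℂ), f.totalDegree ≠ 0 →
    Str f false (-1)

/-- the transfer: `z_i = ∑ l_i(a^k b^l) / (e_k(be) e_l(be')) v_k ⊗ v'_l`,
`e_k(be) = be (be - 1) … (be - k + 1)` -/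
def Stmt_TF7 : Prop :=
  ∀ (ι κ : Type) [Fintype ι] [Fintype κ] [DecidableEq ι] [DecidableEq κ] (f : MvPolynomial ι ℂ)
    (g : MvPolynomial κ ℂ) (tU tV : Bool) (be be' ga : ℂ) (G : P2) (l : ℕ → (P2 →ₗ[ℂ] ℂ)),
    (∀ n : ℕ, be ≠ n) → (∀ n : ℕ, be' ≠ n) → Str f tU be → Str g tV be' →
    TW tU tV be be' ga G l → (∃ i, l i ≠ 0) → ∃ k : ℕ, Wit (comp2 G f g) (ga - k)

/-! ## Powers and residues -/

/-- the derivation `D` applied to all coefficients -/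
noncomputable def dCf {R M : Type} [CommRing R] [CommRing M] [Algebra R M] (D : Derivation R M M)
    (F : PowerSeries M) : PowerSeries M :=
  PowerSeries.mk fun n => D (PowerSeries.coeff n F)

/-- `d/dX` -/
noncomputable def dXf {M : Type} [CommRing M] (F : PowerSeries M) : PowerSeries M :=
  PowerSeries.derivative M F

/-- `U = H^e` for `H = 1 + …`, `e ∈ R` -/
def Stmt_POW7 : Prop :=
  ∀ (R M : Type) [CommRing R] [Algebra ℂ R] [CommRing M] [Algebra ℂ M] [Algebra R M]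
    [IsScalarTower ℂ R M] (D : Derivation R M M) (H : PowerSeries M) (e : R),
    PowerSeries.constantCoeff H = 1 → ∃ U : PowerSeries M, PowerSeries.constantCoeff U = 1 ∧
      H * dXf U = PowerSeries.C (algebraMap R M e) * U * dXf H ∧
      H * dCf D U = PowerSeries.C (algebraMap R M e) * U * dCf D H

/-- residues along `X = 0`; `σ` is the chart, `n` the order of the test functions modulo `N` -/
def Stmt_RES7 : Prop :=
  ∀ (R M : Type) [CommRing R] [IsDomain R] [Algebra ℂ R] [CommRing M] [Algebra ℂ M] [Algebra R M]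
    [IsScalarTower ℂ R M] (D : Derivation R M M) (L : M →ₗ[R] R) (σ : P2 →ₐ[ℂ] PowerSeries M)
    (G : P2) (tU tV : Bool) (be be' ga : R) (N ν n na nb : ℕ) (A B Γ J : PowerSeries M)
    (iA iB iΓ : M),
    1 ≤ N → 1 ≤ ν → n < N → 1 ≤ na → 1 ≤ nb →
    σ (X 0) = PowerSeries.X ^ na * A → σ (X 1) = PowerSeries.X ^ nb * B →
    σ G = PowerSeries.X ^ N * Γ →
    dXf (σ (X 0)) * dCf D (σ (X 1)) - dCf D (σ (X 0)) * dXf (σ (X 1)) =
      PowerSeries.X ^ (ν - 1) * J →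
    PowerSeries.constantCoeff Γ * iΓ = 1 →
    (if tU then PowerSeries.constantCoeff A * iA = 1 else be = -1) →
    (if tV then PowerSeries.constantCoeff B * iB = 1 else be' = -1) →
    (ν : R) + na * (-be - 1) + nb * (-be' - 1) + n + N * ga = 0 →
    (ga + 1 ≠ 0 ∨ (tU = false ∧ tV = false)) →
    (∀ g : M, L (D g + (algebraMap R M (-be - 1) * (D (PowerSeries.constantCoeff A) * iA) +
      algebraMap R M (-be' - 1) * (D (PowerSeries.constantCoeff B) * iB) +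
      algebraMap R M ga * (D (PowerSeries.constantCoeff Γ) * iΓ)) * g) = 0) →
    ∃ l : ℕ → (P2 →ₗ[ℂ] R), TW tU tV be be' ga G l ∧
      ∀ (i : ℕ) (ψ : P2) (φ : PowerSeries M), σ ψ = PowerSeries.X ^ (n + N * i) * φ →
        l i ψ = (∏ k ∈ Finset.range i, (ga - k)) *
          L (PowerSeries.constantCoeff φ * PowerSeries.constantCoeff J * iΓ ^ i)

/-- the ring of the deformation -/
abbrev RT : Type := PowerSeries ℂ

/-- specialisation at `t = 0` (divide by the power of `t`) -/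
def Stmt_SPEC7 : Prop :=
  ∀ (tU tV : Bool) (be be' ga : RT) (G : P2) (l : ℕ → (P2 →ₗ[ℂ] RT)), TW tU tV be be' ga G l →
    (∃ i, l i ≠ 0) → ∃ l' : ℕ → (P2 →ₗ[ℂ] ℂ), TW tU tV (PowerSeries.constantCoeff be)
      (PowerSeries.constantCoeff be') (PowerSeries.constantCoeff ga) G l' ∧ ∃ i, l' i ≠ 0

/-! ## The linear form `L` over the ring of the deformation -/

/-- `Y ∏ (Y - P)` -/
noncomputable def denT (S : Finset ℂ) : Polynomial RT :=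
  Polynomial.X * ∏ P ∈ S, (Polynomial.X - Polynomial.C (PowerSeries.C P))

/-- `RT[Y, 1/Y, 1/(Y - P)]` -/
abbrev MT (S : Finset ℂ) : Type := Localization.Away (denT S)

/-- `d/dY` -/
noncomputable def DT (S : Finset ℂ) : Derivation RT (MT S) (MT S) :=
  locDer (Submonoid.powers (denT S)) Polynomial.derivative'

noncomputable def YT (S : Finset ℂ) : MT S := algebraMap (Polynomial RT) (MT S) Polynomial.X

/-- `1/Y` -/
noncomputable def YiT (S : Finset ℂ) : MT S :=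
  algebraMap (Polynomial RT) (MT S)
    (∏ P ∈ S, (Polynomial.X - Polynomial.C (PowerSeries.C P))) *
    IsLocalization.Away.invSelf (denT S)

/-- `1/(Y - P)` for `P ∈ S` -/
noncomputable def QT (S : Finset ℂ) (P : ℂ) : MT S :=
  algebraMap (Polynomial RT) (MT S)
    (Polynomial.X * ∏ P' ∈ S.erase P, (Polynomial.X - Polynomial.C (PowerSeries.C P'))) *
    IsLocalization.Away.invSelf (denT S)

/-- `g ↦ g' + (a₀ / Y + ∑ a_P / (Y - P)) g` -/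
noncomputable def nabT (S : Finset ℂ) (a₀ : RT) (a : ℂ → RT) : MT S →ₗ[RT] MT S :=
  (DT S : MT S →ₗ[RT] MT S) +
    LinearMap.mulLeft RT (algebraMap RT (MT S) a₀ * YiT S + ∑ P ∈ S, algebraMap RT (MT S) (a P) *
      QT S P)

/-- the test form `h(Y) Y^K / ∏ (Y - P)^m` -/
noncomputable def omT (S : Finset ℂ) (K m : ℕ) (h : Polynomial ℂ) : MT S :=
  Polynomial.aeval (YT S) h * YT S ^ K * ∏ P ∈ S, QT S P ^ m

/-- linear forms on finitely generated modules over `ℂ[[t]]` -/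
def Stmt_LEXA : Prop :=
  ∀ (M : Type) [AddCommGroup M] [Module RT M] (N : Submodule RT M) (s : Finset M) (ω : M),
    N ⊔ Submodule.span RT (s : Set M) = ⊤ → (∀ r : RT, r ≠ 0 → r • ω ∉ N) →
    ∃ L : M →ₗ[RT] RT, (∀ x ∈ N, L x = 0) ∧ L ω ≠ 0

/-- the cokernel is finitely generated -/
def Stmt_LEXB : Prop :=
  ∀ (S : Finset ℂ) (a₀ : RT) (a : ℂ → RT), (0 : ℂ) ∉ S → ∃ s : Finset (MT S),
    LinearMap.range (nabT S a₀ a) ⊔ Submodule.span RT (s : Set (MT S)) = ⊤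

/-- the test forms are not all exact up to torsion: count dimensions -/
def Stmt_LEXC : Prop :=
  ∀ (S : Finset ℂ) (a₀ : RT) (a : ℂ → RT) (K K' m₀ : ℕ), S.Nonempty → (0 : ℂ) ∉ S →
    (∀ P ∈ S, ∀ j : ℕ, 1 ≤ j → a P ≠ j) → (∀ d : ℤ, a₀ + ∑ P ∈ S, a P ≠ d) →
    ((∀ d : ℤ, a₀ ≠ d) ∨ (a₀ = 0 ∧ K = 0 ∧ 2 ≤ S.card)) →
    ∃ (m : ℕ) (h : Polynomial ℂ), m₀ ≤ m ∧ h.natDegree + K + K' ≤ m * S.card ∧
      ∀ r : RT, r ≠ 0 → r • omT S K m h ∉ LinearMap.range (nabT S a₀ a)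

/-- the linear form -/
def Stmt_LEX7 : Prop :=
  ∀ (S : Finset ℂ) (a₀ : RT) (a : ℂ → RT) (K K' m₀ : ℕ), S.Nonempty → (0 : ℂ) ∉ S →
    (∀ P ∈ S, ∀ j : ℕ, 1 ≤ j → a P ≠ j) → (∀ d : ℤ, a₀ + ∑ P ∈ S, a P ≠ d) →
    ((∀ d : ℤ, a₀ ≠ d) ∨ (a₀ = 0 ∧ K = 0 ∧ 2 ≤ S.card)) →
    ∃ (L : MT S →ₗ[RT] RT) (m : ℕ) (h : Polynomial ℂ), (∀ g, L (nabT S a₀ a g) = 0) ∧
      m₀ ≤ m ∧ h.natDegree + K + K' ≤ m * S.card ∧ L (omT S K m h) ≠ 0

/-! ## Toric charts -/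

/-- `s ↦ X^p Y^p'`, `v ↦ X^q Y^q'` -/
noncomputable def torR {M : Type} [CommRing M] [Algebra ℂ M] (p q p' q' : ℕ) (Y : M) :
    P2 →ₐ[ℂ] PowerSeries M :=
  aeval ![PowerSeries.C (Y ^ p') * PowerSeries.X ^ p, PowerSeries.C (Y ^ q') * PowerSeries.X ^ q]

/-- leading forms and Jacobians in a toric chart -/
def Stmt_TOR7 : Prop :=
  (∀ (MM : Type) [CommRing MM] [Algebra ℂ MM] (Y : MM) (p q p' q' N : ℕ) (F : P2),
    Above p q N F → ∃ F' : PowerSeries MM, torR p q p' q' Y F = PowerSeries.X ^ (N + 1) * F') ∧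
  (∀ (MM : Type) [CommRing MM] [Algebra ℂ MM] (Y : MM) (p q p' q' aL bR : ℕ) (I : Polynomial ℂ)
    (F : P2), p * q' = p' * q + 1 → IsEdge F p q aL bR I → ∃ Γ : PowerSeries MM,
      torR p q p' q' Y F = PowerSeries.X ^ edgeN p q aL bR I * Γ ∧
      PowerSeries.constantCoeff Γ =
        Y ^ (p' * (aL + q * I.natDegree) + q' * bR) * Polynomial.aeval Y I) ∧
  ∀ (R MM : Type) [CommRing R] [Algebra ℂ R] [CommRing MM] [Algebra ℂ MM] [Algebra R MM]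
    [IsScalarTower ℂ R MM] (D : Derivation R MM MM) (Y : MM) (M H p q p' q' : ℕ)
    (Φ : Polynomial ℂ), D Y = 1 → 1 ≤ M → 1 ≤ p → 1 ≤ q → p * q' = p' * q + 1 →
    dXf (torR p q p' q' Y (chartMap M H Φ (X 0))) * dCf D (torR p q p' q' Y (chartMap M H Φ (X 1))) -
      dCf D (torR p q p' q' Y (chartMap M H Φ (X 0))) *
        dXf (torR p q p' q' Y (chartMap M H Φ (X 1))) =
      PowerSeries.X ^ (p * (M + H) + q - 1) *
        PowerSeries.C ((M : MM) * Y ^ (p' * (M + H) + q' - 1))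

/-- leading forms of polynomials along an edge (as `Stmt_LF6`) -/
def Stmt_LF7 : Prop :=
  ∀ (M H e : ℕ) (Φ : Polynomial ℂ), Chart M H e Φ → ∀ p q : ℕ, 1 ≤ p → 1 ≤ q → p.Coprime q →
    ∀ m a : ℕ, a ≤ m → ∃ (φ : P2) (c : ℂ), c ≠ 0 ∧
      Above p q (p * (p * e + q) * m) (chartMap M H Φ φ -
        C c * X 0 ^ ((p * e + q) * m - q * a) * X 1 ^ (p * a))

/-- all forms `h(Y) Y^K / ∏ (Y - P)^m` of small degree are leading forms of polynomials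
`a^k b^k' ψ'` -/
def Stmt_AV7 : Prop :=
  ∀ (MM : Type) [CommRing MM] [Algebra ℂ MM] (Y Yi : MM) (Q : ℂ → MM) (M H e : ℕ)
    (Φ : Polynomial ℂ) (p q p' q' aL bR : ℕ) (I : Polynomial ℂ) (i j k k' n K : ℕ) (cb : ℂ),
    Chart M H e Φ → 1 ≤ p → 1 ≤ q → p * q' = p' * q + 1 → I.coeff 0 ≠ 0 → 1 ≤ I.natDegree →
    e * (bR + p * I.natDegree) ≤ aL → Y * Yi = 1 →
    (∀ P ∈ I.roots.toFinset, (Y - algebraMap ℂ MM P) * Q P = 1) →
    (k' ≠ 0 → cb ≠ 0 ∧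
      Above p q (p * i + q * j) (chartMap M H Φ (X 1) - C cb * X 0 ^ i * X 1 ^ j)) →
    ((edgeN p q aL bR I : ℤ) ∣ (p * M * k + (p * i + q * j) * k' : ℤ) - n) →
    (p' * i + q' * j) * k' + p' * n + p' * (M + H) + q' ≤ K + 1 →
    ∃ K' : ℕ, ∀ (m : ℕ) (h : Polynomial ℂ),
      h.natDegree + K + K' ≤ m * I.roots.toFinset.card →
      ∃ (t : ℕ) (ψ : P2) (φ : PowerSeries MM),
        torR p q p' q' Y (chartMap M H Φ ψ) =
          PowerSeries.X ^ (n + edgeN p q aL bR I * t) * φ ∧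
        PowerSeries.constantCoeff φ * ((M : MM) * Y ^ (p' * (M + H) + q' - 1)) *
          (Yi ^ (p' * (aL + q * I.natDegree) + q' * bR) * algebraMap ℂ MM (I.leadingCoeff)⁻¹ *
            ∏ P ∈ I.roots.toFinset, Q P ^ I.rootMultiplicity P) ^ t =
          Polynomial.aeval Y h * Y ^ K * ∏ P ∈ I.roots.toFinset, Q P ^ m

/-! ## Functionals for edges, `a` fixed -/

/-- the common part of the three cases of `Stmt_EX7`; `C cb * s^i * v^j` is the leading form of `b`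
along the divisor, the deformation is `be(t) = be - s₁ t`, `be'(t) = be' - s₂ t` -/
def Stmt_COR7 : Prop :=
  ∀ (G : P2) (M H e : ℕ) (Φ : Polynomial ℂ) (p q p' q' aL bR : ℕ) (I : Polynomial ℂ) (tV : Bool)
    (i j : ℕ) (cb : ℂ) (lam lam' : ℚ) (k₀ k₀' : ℤ) (s₁ s₂ : ℕ),
    Chart M H e Φ → 1 ≤ p → 1 ≤ q → p * q' = p' * q + 1 →
    IsEdge (chartMap M H Φ G) p q aL bR I → e * (bR + p * I.natDegree) ≤ aL →
    (tV = true → cb ≠ 0 ∧ 1 ≤ p * i + q * j ∧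
      Above p q (p * i + q * j) (chartMap M H Φ (X 1) - C cb * X 0 ^ i * X 1 ^ j) ∧
      p * M + (p * i + q * j) ≤ p * (M + H) + q) →
    (tV = false → i = 0 ∧ j = 0 ∧ lam' = 1 ∧ k₀' = 0 ∧ s₂ = 0) →
    -lam + k₀ < 0 → -lam' + k₀' < 0 → 1 ≤ p * M * s₁ + (p * i + q * j) * s₂ →
    ((edgeN p q aL bR I : ℤ) * (p' * M * s₁ + (p' * i + q' * j) * s₂) -
        (p * M * s₁ + (p * i + q * j) * s₂) * (p' * (aL + q * I.natDegree) + q' * bR) -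
        I.natDegree * (p * M * s₁ + (p * i + q * j) * s₂) ≠ 0) →
    ((edgeN p q aL bR I : ℤ) * (p' * M * s₁ + (p' * i + q' * j) * s₂) -
        (p * M * s₁ + (p * i + q * j) * s₂) * (p' * (aL + q * I.natDegree) + q' * bR) ≠ 0 ∨
      (bR = 0 ∧ 2 ≤ p ∧ j = 0) ∨
      (bR = 0 ∧ p = 1 ∧ p' = 0 ∧ q' = 1 ∧ j = 0 ∧ 2 ≤ I.roots.toFinset.card)) →
    HasTW true tV (-lam + k₀) (-lam' + k₀') G
      (((p * (M + H) + q : ℕ) + p * M * (lam - 1) + (p * i + q * j : ℕ) * (lam' - 1)) /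
        (edgeN p q aL bR I : ℚ))

/-- `a` fixed, `b` free; both fixed, level `≥ 1`; both fixed, level `0` -/
def Stmt_EX7 : Prop :=
  (∀ (G : P2) (M H e : ℕ) (Φ : Polynomial ℂ) (p q aL bR : ℕ) (I : Polynomial ℂ) (lam : ℚ)
    (k₀ : ℤ), Chart M H e Φ → IsEdge (chartMap M H Φ G) p q aL bR I →
    e * (bR + p * I.natDegree) ≤ aL →
    2 ≤ I.roots.toFinset.card + (if 2 ≤ p ∨ 1 ≤ bR then 1 else 0) → -lam + k₀ < 0 →
    HasTW true false (-lam + k₀) (-1) G ((p * (M * lam + H) + q) / (edgeN p q aL bR I : ℚ))) ∧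
  (∀ (G : P2) (M H e : ℕ) (Φ : Polynomial ℂ) (p q aL bR : ℕ) (I : Polynomial ℂ) (h : ℕ)
    (lam lam' : ℚ) (k₀ k₀' : ℤ), Chart M H e Φ → 1 ≤ h → h ≤ H → Φ.coeff h ≠ 0 →
    (∀ j < h, Φ.coeff j = 0) → IsEdge (chartMap M H Φ G) p q aL bR I →
    e * (bR + p * I.natDegree) ≤ aL →
    2 ≤ I.roots.toFinset.card + (if 2 ≤ p ∨ 1 ≤ bR then 1 else 0) → -lam + k₀ < 0 →
    -lam' + k₀' < 0 →
    HasTW true true (-lam + k₀) (-lam' + k₀') G
      ((p * (M * lam + h * lam' - h + H) + q) / (edgeN p q aL bR I : ℚ))) ∧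
  ∀ (G : P2) (p q aL bR : ℕ) (I : Polynomial ℂ) (lam lam' : ℚ) (k₀ k₀' : ℤ),
    IsEdge G p q aL bR I → -lam + k₀ < 0 → -lam' + k₀' < 0 →
    HasTW true true (-lam + k₀) (-lam' + k₀') G
      ((p * lam + q * lam') / (edgeN p q aL bR I : ℚ))

/-! ## Free coordinates -/

/-- `Stmt_RES6` in the form of functionals at the origin -/
def Stmt_RESF : Prop :=
  ∀ (f : P2) (σ : P2 →ₐ[ℂ] PowerSeries KZ),
    (∀ i, PowerSeries.constantCoeff (σ (X i)) = 0) →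
    ∀ (N ν j : ℕ) (G J' φ' : PowerSeries KZ) (φ : P2),
    1 ≤ N → 1 ≤ ν → σ f = PowerSeries.X ^ N * G → PowerSeries.constantCoeff G ≠ 0 →
    jac σ = PowerSeries.X ^ (ν - 1) * J' → σ φ = PowerSeries.X ^ (N * j) * φ' →
    (∀ g : KZ, DZ g - RatFunc.C ((ν : ℂ) / (N : ℂ)) *
        (DZ (PowerSeries.constantCoeff G) / PowerSeries.constantCoeff G) * g ≠
      PowerSeries.constantCoeff φ' * PowerSeries.constantCoeff J' *
        (PowerSeries.constantCoeff G ^ j)⁻¹) →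
    HasTW false false (-1) (-1) f ((ν : ℚ) / (N : ℚ))

/-- good edges, both coordinates free (the proof of `Stmt_EW6` with `Stmt_RESF`) -/
def Stmt_EX7F : Prop := ∀ (G : P2) (r : ℚ), GoodExp G r → HasTW false false (-1) (-1) G r

/-- automorphisms of the plane which fix the origin -/
def Stmt_AUT7 : Prop :=
  ∀ (α : P2 ≃ₐ[ℂ] P2) (G : P2) (r : ℚ), (∀ i, eval 0 (α (X i)) = 0) →
    HasTW false false (-1) (-1) (α G) r → HasTW false false (-1) (-1) G r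

/-! ## Axes and multiple components -/

/-- `a^m K(a, b)`, `a` fixed: `z_i = c_i K^(ga - i) v_(m i + l)`, `ga = (β - l) / m` -/
def Stmt_AX7 : Prop :=
  ∀ (ι κ : Type) [Fintype ι] [Fintype κ] [DecidableEq ι] [DecidableEq κ] (f : MvPolynomial ι ℂ)
    (g : MvPolynomial κ ℂ) (β : ℂ) (K : P2) (m l : ℕ), g.totalDegree ≠ 0 → ¬ X 0 ∣ K → l < m →
    (∀ n : ℕ, β ≠ n) → Wit f β → Wit (comp2 (X 0 ^ m * K) f g) ((β - l) / m)

/-- multiple components (as `Stmt_MF6`): `ℂ[x][1/(Q R)] R^ga / ℂ[x][1/R] R^ga`, `ga = -1/m` -/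
def Stmt_MF7 : Prop :=
  ∀ (ι : Type) [Fintype ι] [DecidableEq ι] (Q R : MvPolynomial ι ℂ) (m : ℕ), 2 ≤ m → Q ≠ 0 →
    (∃ x, eval x Q = 0 ∧ eval x R ≠ 0) → Wit (Q ^ m * R) (-1 / (m : ℂ))

/-! ## The contexts for the tree -/

/-- `a` fixed with exponents in `W`, `b` free -/
structure Ctx1 (Λ W : Set ℚ) (G : P2) : Prop where
  exp : ∀ ν ∈ W, ∀ (M H e : ℕ) (Φ : Polynomial ℂ) (p q aL bR : ℕ) (I : Polynomial ℂ),
    Chart M H e Φ → IsEdge (chartMap M H Φ G) p q aL bR I → e * (bR + p * I.natDegree) ≤ aL →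
    2 ≤ I.roots.toFinset.card + (if 2 ≤ p ∨ 1 ≤ bR then 1 else 0) →
    ((p * (M * ν + H) + q) / (edgeN p q aL bR I : ℚ)) ∈ Λ
  axis : ∀ ν ∈ W, ∀ (m : ℕ) (K : P2), 1 ≤ m → G = X 0 ^ m * K → ¬ X 0 ∣ K → ν / (m : ℚ) ∈ Λ
  mul : ∀ (k h : P2) (m : ℕ), 2 ≤ m → (∃ x, eval x k = 0 ∧ eval x h ≠ 0) → G = k ^ m * h →
    1 / (m : ℚ) ∈ Λ

/-- both fixed with exponents in `W`, `W'` -/
structure Ctx2 (Λ W W' : Set ℚ) (G : P2) : Prop where
  exp0 : ∀ ν ∈ W, ∀ ν' ∈ W', ∀ (p q aL bR : ℕ) (I : Polynomial ℂ), IsEdge G p q aL bR I →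
    ((p * ν + q * ν') / (edgeN p q aL bR I : ℚ)) ∈ Λ
  exp1 : ∀ ν ∈ W, ∀ ν' ∈ W', ∀ (M H e : ℕ) (Φ : Polynomial ℂ) (p q aL bR : ℕ)
    (I : Polynomial ℂ) (h : ℕ), Chart M H e Φ → 1 ≤ h → h ≤ H → Φ.coeff h ≠ 0 →
    (∀ j < h, Φ.coeff j = 0) → IsEdge (chartMap M H Φ G) p q aL bR I →
    e * (bR + p * I.natDegree) ≤ aL →
    2 ≤ I.roots.toFinset.card + (if 2 ≤ p ∨ 1 ≤ bR then 1 else 0) →
    ((p * (M * ν + h * ν' - h + H) + q) / (edgeN p q aL bR I : ℚ)) ∈ Λ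
  axis0 : ∀ ν ∈ W, ∀ (m : ℕ) (K : P2), 1 ≤ m → G = X 0 ^ m * K → ¬ X 0 ∣ K → ν / (m : ℚ) ∈ Λ
  axis1 : ∀ ν' ∈ W', ∀ (m : ℕ) (K : P2), 1 ≤ m → G = X 1 ^ m * K → ¬ X 1 ∣ K →
    ν' / (m : ℚ) ∈ Λ
  mul : ∀ (k h : P2) (m : ℕ), 2 ≤ m → (∃ x, eval x k = 0 ∧ eval x h ≠ 0) → G = k ^ m * h →
    1 / (m : ℚ) ∈ Λ

/-- summary of the witness part -/
def Stmt_CTX7 : Prop :=
  ∀ (ι κ : Type) [Fintype ι] [Fintype κ] [DecidableEq ι] [DecidableEq κ] (f : MvPolynomial ι ℂ)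
    (g : MvPolynomial κ ℂ) (P : P2), f.totalDegree ≠ 0 → g.totalDegree ≠ 0 →
    P.totalDegree ≠ 0 →
    (∀ (d : ℂ) (r : ℚ), 0 < r → PCExp (P - C d) r → r ∈ wset (comp2 P f g) d) ∧
    (∀ (d : ℂ) (k h : P2) (m : ℕ), 2 ≤ m → (∃ x, eval x k = 0 ∧ eval x h ≠ 0) →
      P - C d = k ^ m * h → 1 / (m : ℚ) ∈ wset (comp2 P f g) d) ∧
    ∀ x₀ : Fin 2 → ℂ,
      Ctx1 (wset (comp2 P f g) (eval x₀ P)) (wset f (x₀ 0)) (loc P x₀) ∧
      Ctx1 (wset (comp2 P f g) (eval x₀ P)) (wset g (x₀ 1)) (swp (loc P x₀)) ∧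
      Ctx2 (wset (comp2 P f g) (eval x₀ P)) (wset f (x₀ 0)) (wset g (x₀ 1)) (loc P x₀) ∧
      Ctx2 (wset (comp2 P f g) (eval x₀ P)) (wset g (x₀ 1)) (wset f (x₀ 0)) (swp (loc P x₀))

end Pool.Agent.Mono.BG
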