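import Pool.Agent.Work.Monodromy.Interface8
import Pool.Agent.Work.Monodromy.Interface7W

/-!
# Phase 9: singularities of corank at most two, isolated or not; definitions (helper2)

`Monodromy9/BLUEPRINT9.md` contains the proofs.  Everything is in the namespace
`Pool.Agent.Mono.C9`.
-/

set_option autoImplicit false

namespace Pool.Agent.Mono.C9

open MvPolynomial TS RO SP PC

/-! ## Derivations along the critical manifold -/

section

variable {ι : Type}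

/-- the maximal ideal of the point `q` -/
noncomputable def mI (q : ι → ℂ) : Ideal (MvPolynomial ι ℂ) := RingHom.ker (eval q)

/-- the ideal generated by the derivatives `∂_z f`, `z ∈ Z` -/
noncomputable def Zi (f : MvPolynomial ι ℂ) (Z : Finset ι) : Ideal (MvPolynomial ι ℂ) :=
  Ideal.span ((fun a => pderiv a f) '' (Z : Set ι))

/-- the block `ZZ` of the Hessian matrix -/
noncomputable def HM (f : MvPolynomial ι ℂ) (Z : Finset ι) : Matrix Z Z (MvPolynomial ι ℂ) :=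
  Matrix.of fun a b => pderiv (a : ι) (pderiv (b : ι) f)

variable [DecidableEq ι]

/-- its determinant -/
noncomputable def dt (f : MvPolynomial ι ℂ) (Z : Finset ι) : MvPolynomial ι ℂ := (HM f Z).det

/-- the derivation `δ_b = det ∂_b - ∑ adj_{zz'} (∂_{z'} ∂_b f) ∂_z`; it kills `∂_z f`, `z ∈ Z` -/
noncomputable def dl (f : MvPolynomial ι ℂ) (Z : Finset ι) (b : ι) :
    Derivation ℂ (MvPolynomial ι ℂ) (MvPolynomial ι ℂ) :=
  dt f Z • (pderiv b : Derivation ℂ (MvPolynomial ι ℂ) (MvPolynomial ι ℂ)) -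
    ∑ a : Z, (∑ a' : Z, (HM f Z).adjugate a a' * pderiv (a' : ι) (pderiv b f)) •
      (pderiv (a : ι) : Derivation ℂ (MvPolynomial ι ℂ) (MvPolynomial ι ℂ))

/-- words: iterated derivatives `δ_{b_1} … δ_{b_k} f` -/
noncomputable def wd (f : MvPolynomial ι ℂ) (Z : Finset ι) (L : List ι) : MvPolynomial ι ℂ :=
  L.foldr (fun b h => dl f Z b h) f

end

/-! ## Local structures -/

section

variable {ι : Type} [Fintype ι] [DecidableEq ι]

/-- near the points of `S`, `f` is a nondegenerate quadratic form in the `∂_z f`, `z ∈ Z` -/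
structure TZ (f : MvPolynomial ι ℂ) (S : Set (ι → ℂ)) (Z : Finset ι) (s : MvPolynomial ι ℂ) :
    Prop where
  crit : ∀ q ∈ S, q ∈ Crit0 f
  det : ∀ q ∈ S, eval q (dt f Z) ≠ 0
  s0 : ∀ q ∈ S, eval q s ≠ 0
  eq : s * f ∈ Zi f Z ^ 2

/-- near the points of `S`, `f = (quadratic form in the ∂_z f) + (∂_z f) h^{e-1} + w h^e` -/
structure TH (f : MvPolynomial ι ℂ) (S : Set (ι → ℂ)) (Z : Finset ι) (b : ι)
    (h s w : MvPolynomial ι ℂ) (e : ℕ) : Prop where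
  hb : b ∉ Z
  he : 3 ≤ e
  crit : ∀ q ∈ S, q ∈ Crit0 f
  det : ∀ q ∈ S, eval q (dt f Z) ≠ 0
  h0 : ∀ q ∈ S, eval q h = 0
  h1 : ∀ q ∈ S, eval q (dl f Z b h) ≠ 0
  s0 : ∀ q ∈ S, eval q s ≠ 0
  w0 : ∀ q ∈ S, eval q w ≠ 0
  eq : s * f - w * h ^ e ∈ Zi f Z ^ 2 ⊔ Zi f Z * Ideal.span {h ^ (e - 1)}

/-- `s f = Φ(Y)`, all monomials of `Φ` are in the variables of `A` and have weight at least `D`, the
`Y_a`, `a ∈ A`, vanish on `S` and are, with the `x_b`, `b ∉ A`, local coordinates; the leading forms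
at the points of `S` have isolated critical points (`w = 0` outside of `A`) -/
structure Str9 (f : MvPolynomial ι ℂ) (S : Set (ι → ℂ)) (A : Finset ι) (w : ι → ℕ) (D : ℕ)
    (Y : ι → MvPolynomial ι ℂ) (s : MvPolynomial ι ℂ) (Φ : MvPolynomial ι (MvPolynomial ι ℂ)) :
    Prop where
  hw : ∀ a ∈ A, 1 ≤ w a
  hw0 : ∀ a, a ∉ A → w a = 0
  hD : 1 ≤ D
  hY : ∀ a, a ∉ A → Y a = X a
  Y0 : ∀ q ∈ S, ∀ a ∈ A, eval q (Y a) = 0
  J : ∀ q ∈ S, (Matrix.of fun a b => eval q (pderiv b (Y a))).det ≠ 0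
  s0 : ∀ q ∈ S, eval q s ≠ 0
  hΦ : ∀ d ∈ Φ.support, (∀ a, a ∉ A → d a = 0) ∧ D ≤ Finsupp.weight w d
  eq : s * f = eval Y Φ
  iso : ∀ q ∈ S, ∀ x : ι → ℂ, (∀ b, b ∉ A → x b = 0) →
    (∀ a ∈ A, eval x (pderiv a (ini w D (map (eval q) Φ))) = 0) → x = 0

/-- all monomials of `F` have weight at least `D` (`w = 0` outside of `A`) or degree at least `K`,
and the leading form has an isolated critical point -/
def ZW9 (A : Finset ι) (w : ι → ℕ) (D K : ℕ) (F : MvPolynomial ι ℂ) : Prop :=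
  (∀ d ∈ F.support, D ≤ Finsupp.weight w d ∨ K ≤ Finsupp.degree d) ∧
    ∀ x : ι → ℂ, (∀ b, b ∉ A → x b = 0) → (∀ a ∈ A, eval x (pderiv a (ini w D F)) = 0) → x = 0

/-- the slice `x_b = q_b`, `b ∉ A` -/
noncomputable def slice (f : MvPolynomial ι ℂ) (A : Finset ι) (q : ι → ℂ) : MvPolynomial A ℂ :=
  aeval (fun a => if h : a ∈ A then X ⟨a, h⟩ else C (q a)) f

/-- the exponents which give eigenvalues -/
def EV (f : MvPolynomial ι ℂ) : Set ℚ :=
  {r : ℚ | 0 < r ∧ IsEigenvalue f (Complex.exp (2 * Real.pi * Complex.I * (-(r : ℂ))))}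

/-- the volumes of the arcs which start in `S` have exponents in `{1} ∪ EV f` -/
def Gd (f : MvPolynomial ι ℂ) (S : Set (ι → ℂ)) : Prop :=
  ∀ (P : HodgeMeasure) (E : Type) [Finite E] (Q : Set (E ⊕ Unit → ℂ)), QU Q →
    ESeq ({1} ∪ EV f) fun m => vol P.rat xq (ZL f S Q m)

end

/-! ## Volumes in families -/

section

variable {E κ : Type}

/-- `H(p, 0, y)` -/
noncomputable def spH (H : MvPolynomial (E ⊕ (Unit ⊕ κ)) ℂ) (p : E → ℂ) : MvPolynomial κ ℂ :=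
  aeval (Sum.elim (fun e => C (p e)) (Sum.elim (fun _ => 0) X)) H

/-- all monomials of `H` have weight at least `D` in `κ`, and for `p ∈ S` the leading form of
`H(p, 0, y)` has an isolated critical point -/
structure HW9 [Fintype κ] (H : MvPolynomial (E ⊕ (Unit ⊕ κ)) ℂ) (S : Set (E → ℂ)) (w : κ → ℕ)
    (D : ℕ) : Prop where
  hw : ∀ a, 1 ≤ w a
  hD : 1 ≤ D
  mon : ∀ d ∈ H.support, D ≤ ∑ b, w b * d (Sum.inr (Sum.inr b))
  iso : ∀ p ∈ S, ∀ x : κ → ℂ, (∀ a, eval x (pderiv a (ini w D (spH H p))) = 0) → x = 0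

/-- arcs which start at the origin, `H(p, t, y(t))` has order `≥ m` and `(p, coefficient m) ∈ Q` -/
def H0 (H : MvPolynomial (E ⊕ (Unit ⊕ κ)) ℂ) (Q : Set (E ⊕ Unit → ℂ)) (m : ℕ) :
    Set ((E → ℂ) × (κ → PowerSeries ℂ)) :=
  {z | (∀ a, PowerSeries.coeff 0 (z.2 a) = 0) ∧ Lead Q m z.1 (evH H z.1 z.2)}

end

/-! ## Witnesses -/

section

variable {ι : Type}

/-- functionals `v_i` supported at `p` which behave like `F^{β-i}/Γ(β-i+1)` -/
def PtW (p : ι → ℂ) (F : MvPolynomial ι ℂ) (β : ℂ) : Prop :=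
  ∃ v : ℕ → MvPolynomial ι ℂ →ₗ[ℂ] ℂ, v 0 ≠ 0 ∧ (∀ i, ∃ N : ℕ, ∀ g ∈ mI p ^ N, v i g = 0) ∧
    (∀ a g, v 0 (pderiv a F * g) = 0) ∧ (∀ g, v 0 (F * g) = 0) ∧
    (∀ i a g, v (i + 1) (pderiv a F * g) = -v i (pderiv a g)) ∧
    ∀ (i : ℕ) (g : MvPolynomial ι ℂ), v (i + 1) (F * g) = (β - i) * v i g

/-- witnesses of length `L` -/
def FinW [DecidableEq ι] (f : MvPolynomial ι ℂ) (β : ℂ) (L : ℕ) : Prop :=
  ∃ (V : Type) (_ : AddCommGroup V) (_ : Module ℂ V) (w : BP.WMod ℂ V ι) (v : ℕ → V),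
    v 0 ≠ 0 ∧ w.pX f (v 0) = 0 ∧ (∀ a, w.pX (pderiv a f) (v 0) = 0) ∧
    (∀ i < L, ∀ a, w.D' a (v i) = w.pX (pderiv a f) (v (i + 1))) ∧
    ∀ i : ℕ, i < L → w.pX f (v (i + 1)) = (β - i) • v i

end

/-! ## Volumes at the origin, with Haar part -/

/-- the volumes at the origin: Haar part plus exponents in `Λ` -/
def PD9 (P : HodgeMeasure) {ι : Type} [Fintype ι] (F : MvPolynomial ι ℂ) (Λ : Set ℚ) : Prop :=
  ∃ α : K, (∀ (E : Type) [Finite E] (Q : Set (E ⊕ Unit → ℂ)), QU Q →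
      ESeq Λ fun m => if m = 0 then 0 else
        vol P.rat xq (ZL F {fun _ => 0} Q m) - α * xq ^ m * P.rat.val Q) ∧
    ESeq Λ fun m => vol P.rat xq {z : (Empty → ℂ) × (ι → PowerSeries ℂ) |
      (∀ a, PowerSeries.coeff 0 (z.2 a) = 0) ∧ ∀ l ≤ m, PowerSeries.coeff l (aeval z.2 F) = 0} -
        α * xq ^ m

/-! ## Plane germs -/

/-- `ℂ⟦x⟧⟦y⟧` -/
abbrev N2 : Type := PowerSeries (PowerSeries ℂ)

/-- `x` -/
noncomputable def xx : N2 := PowerSeries.C PowerSeries.X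

/-- `y` -/
noncomputable def yy : N2 := PowerSeries.X

/-- complex numbers -/
noncomputable def cc (c : ℂ) : N2 := PowerSeries.C (PowerSeries.C c)

/-- the value at the origin -/
noncomputable def e0 : N2 →+* ℂ := PowerSeries.constantCoeff.comp PowerSeries.constantCoeff

/-- the maximal ideal -/
noncomputable def m2 : Ideal N2 := Ideal.span {xx, yy}

/-- `∂/∂y` -/
noncomputable def dY (g : N2) : N2 := PowerSeries.derivative (PowerSeries ℂ) g

/-- `∂/∂x` -/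
noncomputable def dX (g : N2) : N2 :=
  PowerSeries.mk fun n => PowerSeries.derivative ℂ (PowerSeries.coeff n g)

/-- `G(x, ψ)` -/
noncomputable def sub2 (G : PC.P2) (ψ : N2) : N2 := aeval ![xx, ψ] G

/-- `ρ` is the formal parametrisation of `{∂_z f = 0, z ∈ Z}` at `p`, `x_u = p_u + x + lam y`,
`x_v = p_v + y` -/
structure Par9 {ι : Type} (f : MvPolynomial ι ℂ) (Z : Finset ι) (p : ι → ℂ) (u v : ι) (lam : ℂ)
    (ρ : MvPolynomial ι ℂ →ₐ[ℂ] N2) : Prop where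
  hu : ρ (X u) = cc (p u) + xx + cc lam * yy
  hv : ρ (X v) = cc (p v) + yy
  h0 : ∀ g, e0 (ρ g) = eval p g
  hz : ∀ z ∈ Z, ρ (pderiv z f) = 0

/-- the local coordinates `x`, `y` at `p` -/
noncomputable def lc9 {ι : Type} (p : ι → ℂ) (u v : ι) (lam : ℂ) : PC.P2 →ₐ[ℂ] MvPolynomial ι ℂ :=
  aeval ![X u - C (p u) - C lam * (X v - C (p v)), X v - C (p v)]

/-- `g` is, up to coordinate changes of `y`, units and high powers of `x`, the polynomial
`∏ G_j^j` -/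
structure PGerm (g : N2) (n : ℕ) (G : ℕ → PC.P2) : Prop where
  sq : Squarefree (∏ j ∈ Finset.Icc 1 n, G j)
  mul : ∀ j ∈ Finset.Icc 1 n, 2 ≤ j → ¬ IsUnit (G j) → ∃ W g' : N2, Prime W ∧ ¬ W ∣ xx ∧
    ¬ W ∣ dY W ∧ g = W ^ j * g' ∧ ¬ W ∣ g'
  eq : ∀ k : ℕ, ∃ ψ U : N2, xx ∣ ψ - yy ∧ e0 U = 1 ∧
    xx ^ k ∣ g - U * sub2 (∏ j ∈ Finset.Icc 1 n, G j ^ j) ψ

/-- `∑_{z ∈ Z} x_z² + G(x_u, x_v)` -/
noncomputable def GG {ι : Type} (Z : Finset ι) (u v : ι) (G : PC.P2) : MvPolynomial ι ℂ :=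
  ∑ z ∈ Z, X z ^ 2 + aeval ![X u, X v] G

/-- `f` at `p` and `G` at the origin are contact equivalent up to arbitrary order -/
def Ctt9 {ι : Type} [Fintype ι] [DecidableEq ι] (f : MvPolynomial ι ℂ) (p : ι → ℂ)
    (G : MvPolynomial ι ℂ) : Prop :=
  ∀ k : ℕ, ∃ (φ : ι → MvPolynomial ι ℂ) (U : MvPolynomial ι ℂ), IsCo p φ ∧
    eval (fun _ => 0) U = 1 ∧ bind₁ φ f - U * G ∈ mI (fun _ => (0 : ℂ)) ^ k

end Pool.Agent.Mono.C9
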