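import Pool.Agent.Work.Monodromy.FU
import Pool.Agent.Work.Monodromy.Units

/-!
# Formal Weyl algebra: weighted homogeneous polynomials
-/

namespace Pool.Agent.Mono

open MvPolynomial FUAux

namespace FHAux

section FHomog

variable {ι : Type}

/-- all terms have weight at least `N` -/
def OrdGE (w : ι → ℕ) (h : MvPowerSeries ι ℂ) (N : ℤ) : Prop :=
  ∀ e : ι →₀ ℕ, (Finsupp.weight w e : ℤ) < N → MvPowerSeries.coeff e h = 0

variable {w : ι → ℕ}

theorem OrdGE.mono {h : MvPowerSeries ι ℂ} {N N' : ℤ} (hh : OrdGE w h N) (hN : N' ≤ N) :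
    OrdGE w h N' := fun e he => hh e (lt_of_lt_of_le he hN)

theorem OrdGE.zero (N : ℤ) : OrdGE w (0 : MvPowerSeries ι ℂ) N := fun e _ => by simp

theorem OrdGE.add {g h : MvPowerSeries ι ℂ} {N : ℤ} (hg : OrdGE w g N) (hh : OrdGE w h N) :
    OrdGE w (g + h) N := fun e he => by rw [map_add, hg e he, hh e he, add_zero]

theorem OrdGE.sub {g h : MvPowerSeries ι ℂ} {N : ℤ} (hg : OrdGE w g N) (hh : OrdGE w h N) :
    OrdGE w (g - h) N := fun e he => by rw [map_sub, hg e he, hh e he, sub_zero]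

theorem OrdGE.of_nonpos (h : MvPowerSeries ι ℂ) {N : ℤ} (hN : N ≤ 0) : OrdGE w h N := by
  intro e he
  have : (0 : ℤ) ≤ (Finsupp.weight w e : ℤ) := Int.natCast_nonneg _
  omega

theorem OrdGE.mul {g h : MvPowerSeries ι ℂ} {M N : ℤ} (hg : OrdGE w g M) (hh : OrdGE w h N) :
    OrdGE w (g * h) (M + N) := by
  classical
  intro e he
  rw [MvPowerSeries.coeff_mul]
  refine Finset.sum_eq_zero fun p hp => ?_
  rw [Finset.HasAntidiagonal.mem_antidiagonal] at hp
  have hw : Finsupp.weight w p.1 + Finsupp.weight w p.2 = Finsupp.weight w e := by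
    rw [← map_add, hp]
  by_cases h1 : (Finsupp.weight w p.1 : ℤ) < M
  · rw [hg _ h1, zero_mul]
  · have h2 : (Finsupp.weight w p.2 : ℤ) < N := by
      push_cast [← hw] at he
      omega
    rw [hh _ h2, mul_zero]

theorem OrdGE.pderiv {h : MvPowerSeries ι ℂ} {N : ℤ} (hh : OrdGE w h N) (i : ι) :
    OrdGE w (MvPowerSeries.pderiv ℂ i h) (N - w i) := by
  intro e he
  rw [MvPowerSeries.coeff_pderiv, hh, zero_mul]
  rw [map_add, Finsupp.weight_single]
  push_cast
  simp only [one_smul]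
  omega

/-- approximation of a power series by a polynomial -/
theorem exists_trunc [Finite ι] (hw : ∀ i, 1 ≤ w i) (g : MvPowerSeries ι ℂ) (B : ℤ) :
    ∃ p : MvPolynomial ι ℂ, OrdGE w (g - (p : MvPowerSeries ι ℂ)) B := by
  classical
  have hfin := Finsupp.finite_of_nat_weight_le w (fun i => by have := hw i; omega) B.toNat
  refine ⟨∑ e ∈ hfin.toFinset, monomial e (MvPowerSeries.coeff e g), fun e he => ?_⟩
  have hmem : e ∈ hfin.toFinset := by
    rw [Set.Finite.mem_toFinset, Set.mem_ofPred_eq]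
    omega
  rw [map_sub, MvPolynomial.coeff_coe, MvPolynomial.coeff_sum]
  simp only [MvPolynomial.coeff_monomial]
  rw [Finset.sum_ite_eq' hfin.toFinset e, if_pos hmem, sub_self]

/-- operators which can be approximated by differential operators with polynomial
coefficients -/
def Approx (w : ι → ℕ) (P : Module.End ℂ (MvPowerSeries ι ℂ)) : Prop :=
  ∃ d : ℕ, (∀ h N, OrdGE w h N → OrdGE w (P h) (N - d)) ∧
    ∀ B : ℤ, ∃ (P' : Module.End ℂ (MvPowerSeries ι ℂ)) (Q : Module.End ℂ (MvPolynomial ι ℂ)),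
      Q ∈ Weyl ι ∧
      (∀ h : MvPolynomial ι ℂ, P' (h : MvPowerSeries ι ℂ) = (Q h : MvPowerSeries ι ℂ)) ∧
      ∀ h N, OrdGE w h N → OrdGE w (P h - P' h) (N + B)

theorem approx_of_mem [Fintype ι] (hw : ∀ i, 1 ≤ w i) (P : Module.End ℂ (MvPowerSeries ι ℂ))
    (hP : P ∈ FWeyl ι) : Approx w P := by
  refine Algebra.adjoin_induction (p := fun P _ => Approx w P) ?_ ?_ ?_ ?_ hP
  · rintro P (⟨g, rfl⟩ | ⟨i, rfl⟩)
    · refine ⟨0, fun h N hh => ?_, fun B => ?_⟩
      · have := (OrdGE.of_nonpos (w := w) g (le_refl (0 : ℤ))).mul hh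
        simpa using this
      · obtain ⟨p, hp⟩ := exists_trunc hw g B
        refine ⟨LinearMap.mulLeft ℂ (p : MvPowerSeries ι ℂ), LinearMap.mulLeft ℂ p,
          mulLeft_mem_Weyl _, fun h => by simp, fun h N hh => ?_⟩
        have := hp.mul hh
        rw [LinearMap.mulLeft_apply, LinearMap.mulLeft_apply, ← sub_mul, add_comm]
        exact this
    · refine ⟨w i, fun h N hh => hh.pderiv i, fun B => ?_⟩
      refine ⟨((MvPowerSeries.pderiv ℂ i :
          Derivation ℂ (MvPowerSeries ι ℂ) (MvPowerSeries ι ℂ)) :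
          MvPowerSeries ι ℂ →ₗ[ℂ] MvPowerSeries ι ℂ), _, pderiv_mem_Weyl i, fun h => ?_,
          fun h N hh => ?_⟩
      · rw [Derivation.coeFn_coe, Derivation.coeFn_coe, MvPowerSeries.pderiv_coe]
      · rw [sub_self]
        exact OrdGE.zero _
  · intro r
    refine ⟨0, fun h N hh => ?_, fun B => ⟨algebraMap ℂ _ r, algebraMap ℂ _ r,
      Subalgebra.algebraMap_mem _ r, fun h => ?_, fun h N hh => ?_⟩⟩
    · rw [Module.algebraMap_end_apply]
      intro e he
      rw [MvPowerSeries.coeff_smul, hh e (by simpa using he), mul_zero]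
    · rw [Module.algebraMap_end_apply, Module.algebraMap_end_apply]
      simp
    · rw [sub_self]
      exact OrdGE.zero _
  · rintro P1 P2 _ _ ⟨d1, h1, a1⟩ ⟨d2, h2, a2⟩
    refine ⟨max d1 d2, fun h N hh => ?_, fun B => ?_⟩
    · rw [LinearMap.add_apply]
      refine ((h1 h N hh).mono ?_).add ((h2 h N hh).mono ?_) <;> push_cast <;> omega
    · obtain ⟨P1', Q1, hQ1, e1, o1⟩ := a1 B
      obtain ⟨P2', Q2, hQ2, e2, o2⟩ := a2 B
      refine ⟨P1' + P2', Q1 + Q2, add_mem hQ1 hQ2, fun h => ?_, fun h N hh => ?_⟩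
      · rw [LinearMap.add_apply, LinearMap.add_apply, e1, e2]
        simp
      · have := (o1 h N hh).add (o2 h N hh)
        rw [LinearMap.add_apply, LinearMap.add_apply]
        convert this using 1
        ring
  · rintro P1 P2 _ _ ⟨d1, h1, a1⟩ ⟨d2, h2, a2⟩
    refine ⟨d1 + d2, fun h N hh => ?_, fun B => ?_⟩
    · rw [Module.End.mul_apply]
      refine (h1 _ _ (h2 h N hh)).mono ?_
      push_cast
      omega
    · obtain ⟨P1', Q1, hQ1, e1, o1⟩ := a1 (max (B + d2) 0)
      obtain ⟨P2', Q2, hQ2, e2, o2⟩ := a2 (B + d1)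
      refine ⟨P1' * P2', Q1 * Q2, mul_mem hQ1 hQ2, fun h => ?_, fun h N hh => ?_⟩
      · rw [Module.End.mul_apply, Module.End.mul_apply, e2, e1]
      · have t1 : OrdGE w (P1 (P2 h) - P1' (P2 h)) (N + B) := by
          refine (o1 _ _ (h2 h N hh)).mono ?_
          have := le_max_left (B + (d2 : ℤ)) 0
          omega
        have t2 : OrdGE w (P1' (P2 h - P2' h)) (N + B) := by
          have s1 := o2 h N hh
          have s2 := (h1 _ _ s1)
          have s3 := (o1 _ _ s1)
          have s4 : P1' (P2 h - P2' h) = P1 (P2 h - P2' h) -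
              (P1 (P2 h - P2' h) - P1' (P2 h - P2' h)) := by ring
          rw [s4]
          refine (s2.mono ?_).sub (s3.mono ?_)
          · omega
          · have := le_max_right (B + (d2 : ℤ)) 0
            omega
        have := t1.add t2
        rw [Module.End.mul_apply, Module.End.mul_apply]
        convert this using 1
        rw [map_sub]
        ring

theorem ordGE_of_homog {F : MvPolynomial ι ℂ} {d : ℕ} (hF : IsWeightedHomogeneous w F d) :
    OrdGE w (F : MvPowerSeries ι ℂ) d := by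
  intro e he
  rw [MvPolynomial.coeff_coe]
  by_contra hne
  have := hF hne
  rw [this] at he
  exact lt_irrefl _ he

end FHomog

end FHAux

open FHAux

theorem stmt_FH : Stmt_FH := by
  intro ι _ _ w d F b hw hF hloc
  obtain ⟨P, v, hv, hP⟩ := hloc
  have happ : ∀ i, ∃ (P' : Module.End ℂ (MvPowerSeries ι ℂ))
      (Q : Module.End ℂ (MvPolynomial ι ℂ)), Q ∈ Weyl ι ∧
      (∀ h : MvPolynomial ι ℂ, P' (h : MvPowerSeries ι ℂ) = (Q h : MvPowerSeries ι ℂ)) ∧
      ∀ h N, OrdGE w h N →
        OrdGE w ((P.coeff i : Module.End ℂ (MvPowerSeries ι ℂ)) h - P' h) (N + 1) := by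
    intro i
    obtain ⟨_, _, h2⟩ := approx_of_mem hw _ (P.coeff i).2
    exact h2 1
  choose P' Q hQ hPQ hord using happ
  choose Q' hQ' hQc using fun i : ℕ => homog_part w (-(d : ℤ)) _ (hQ i)
  set v0 := MvPowerSeries.constantCoeff v with hv0
  obtain ⟨R, hR⟩ := exists_wact (ι := ι) (P.natDegree + 1)
    (fun i => LinearMap.mulLeft ℂ (C v0⁻¹) * Q' i)
    (fun i => mul_mem (mulLeft_mem_Weyl _) (hQ' i))
  refine ⟨R, ?_⟩
  filter_upwards [hP] with k hk
  have hFk : ∀ k : ℕ, IsWeightedHomogeneous w (F ^ k) (k * d) := by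
    intro k
    have := hF.pow k
    rwa [smul_eq_mul] at this
  have hcoe : ∀ k : ℕ, ((F ^ k : MvPolynomial ι ℂ) : MvPowerSeries ι ℂ) =
      (F : MvPowerSeries ι ℂ) ^ k := fun k => by simp
  -- the polynomial side
  set G : MvPolynomial ι ℂ := ∑ i ∈ Finset.range (P.natDegree + 1),
    C ((k : ℂ) ^ i) * Q i (F ^ (k + 1)) with hG
  have h1 : weightedHomogeneousComponent w (k * d) G =
      ∑ i ∈ Finset.range (P.natDegree + 1), C ((k : ℂ) ^ i) * Q' i (F ^ (k + 1)) := by
    rw [hG, map_sum]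
    refine Finset.sum_congr rfl fun i _ => ?_
    rw [← MvPolynomial.smul_eq_C_mul, map_smul, ← MvPolynomial.smul_eq_C_mul]
    congr 1
    refine hQc i ((k + 1) * d) _ (hFk (k + 1)) (k * d) ?_
    push_cast
    ring
  -- comparison
  have h2 : OrdGE w (fact P k ((F : MvPowerSeries ι ℂ) ^ (k + 1)) - (G : MvPowerSeries ι ℂ))
      ((k * d : ℕ) + 1) := by
    have e1 : fact P k ((F : MvPowerSeries ι ℂ) ^ (k + 1)) - (G : MvPowerSeries ι ℂ) =
        ∑ i ∈ Finset.range (P.natDegree + 1), MvPowerSeries.C ((k : ℂ) ^ i) *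
          ((P.coeff i : Module.End ℂ (MvPowerSeries ι ℂ)) ((F : MvPowerSeries ι ℂ) ^ (k + 1)) -
            P' i ((F : MvPowerSeries ι ℂ) ^ (k + 1))) := by
      rw [fact_eq_sum P k _ _ (Nat.lt_succ_self _), hG]
      have : ((∑ i ∈ Finset.range (P.natDegree + 1),
          C ((k : ℂ) ^ i) * Q i (F ^ (k + 1)) : MvPolynomial ι ℂ) : MvPowerSeries ι ℂ) =
          ∑ i ∈ Finset.range (P.natDegree + 1), MvPowerSeries.C ((k : ℂ) ^ i) *
            P' i ((F : MvPowerSeries ι ℂ) ^ (k + 1)) := by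
        rw [← MvPolynomial.coeToMvPowerSeries.ringHom_apply, map_sum]
        refine Finset.sum_congr rfl fun i _ => ?_
        rw [MvPolynomial.coeToMvPowerSeries.ringHom_apply, MvPolynomial.coe_mul,
          MvPolynomial.coe_C, ← hcoe, hPQ]
      rw [this, ← Finset.sum_sub_distrib]
      refine Finset.sum_congr rfl fun i _ => ?_
      ring
    rw [e1]
    refine Finset.sum_induction _ (fun g => OrdGE w g ((k * d : ℕ) + 1))
      (fun _ _ ha hb => ha.add hb) (OrdGE.zero _) fun i _ => ?_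
    have t1 := hord i _ _ (ordGE_of_homog (hFk (k + 1)))
    rw [hcoe] at t1
    have t2 := (OrdGE.of_nonpos (w := w) (MvPowerSeries.C ((k : ℂ) ^ i)) (le_refl (0 : ℤ))).mul t1
    refine t2.mono ?_
    push_cast
    nlinarith
  have h3 : OrdGE w (v * (F : MvPowerSeries ι ℂ) ^ k -
      MvPowerSeries.C v0 * (F : MvPowerSeries ι ℂ) ^ k) ((k * d : ℕ) + 1) := by
    rw [← sub_mul, add_comm]
    refine OrdGE.mul ?_ (by rw [← hcoe]; exact ordGE_of_homog (hFk k))
    intro e he
    by_cases he0 : e = 0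
    · subst he0
      rw [map_sub]
      simp [hv0]
    · exfalso
      obtain ⟨i, hi⟩ : ∃ i, e i ≠ 0 := by
        by_contra hcon
        push Not at hcon
        exact he0 (Finsupp.ext hcon)
      have t1 := Finsupp.le_weight_of_ne_zero (w := w) (f := e) (s := i)
        (fun _ => Nat.zero_le _) hi
      have t2 := hw i
      omega
  have h4 : weightedHomogeneousComponent w (k * d) G =
      C (b.eval (k : ℂ)) * (C v0 * F ^ k) := by
    apply MvPolynomial.ext
    intro e
    rw [coeff_weightedHomogeneousComponent]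
    by_cases hwe : Finsupp.weight w e = k * d
    · rw [if_pos hwe]
      have t1 := h2 e (by rw [hwe]; omega)
      rw [map_sub, MvPolynomial.coeff_coe, sub_eq_zero] at t1
      rw [← t1, hk, MvPowerSeries.coeff_C_mul, MvPolynomial.coeff_C_mul]
      congr 1
      have t2 := h3 e (by rw [hwe]; omega)
      rw [map_sub, sub_eq_zero] at t2
      rw [t2, MvPowerSeries.coeff_C_mul, MvPolynomial.coeff_C_mul, ← hcoe,
        MvPolynomial.coeff_coe]
    · rw [if_neg hwe, MvPolynomial.coeff_C_mul, MvPolynomial.coeff_C_mul]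
      have : coeff e (F ^ k) = 0 := by
        by_contra hne
        exact hwe (hFk k hne)
      rw [this]
      ring
  have h5 : C v0⁻¹ * C v0 = (1 : MvPolynomial ι ℂ) := by
    rw [← map_mul, inv_mul_cancel₀ hv, map_one]
  calc wact R k (F ^ (k + 1))
      = C v0⁻¹ * ∑ i ∈ Finset.range (P.natDegree + 1), C ((k : ℂ) ^ i) * Q' i (F ^ (k + 1)) := by
        rw [hR, Finset.mul_sum]
        refine Finset.sum_congr rfl fun i _ => ?_
        rw [Module.End.mul_apply, LinearMap.mulLeft_apply]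
        ring
    _ = C (b.eval (k : ℂ)) * F ^ k := by
        rw [← h1, h4]
        linear_combination (C (b.eval (k : ℂ)) * F ^ k) * h5

end Pool.Agent.Mono
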