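import Pool.Agent.Work.Monodromy.Interface2

/-!
# Formal Weyl algebra: units can be dropped
-/

namespace Pool.Agent.Mono

open MvPolynomial

namespace FUAux

section FUnits

variable {ι : Type}

theorem mulLeft_mem_FWeyl (q : MvPowerSeries ι ℂ) : LinearMap.mulLeft ℂ q ∈ FWeyl ι :=
  Algebra.subset_adjoin (Or.inl ⟨q, rfl⟩)

theorem pderiv_mem_FWeyl (i : ι) : ((MvPowerSeries.pderiv ℂ i :
    Derivation ℂ (MvPowerSeries ι ℂ) (MvPowerSeries ι ℂ)) :
      MvPowerSeries ι ℂ →ₗ[ℂ] MvPowerSeries ι ℂ) ∈ FWeyl ι :=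
  Algebra.subset_adjoin (Or.inr ⟨i, rfl⟩)

theorem fsmul_eq (c : ℂ) (h : MvPowerSeries ι ℂ) : c • h = MvPowerSeries.C c * h := by
  ext n
  simp

/-- the action of a polynomial with coefficients in the formal Weyl algebra -/
theorem fact_eq_sum (P : Polynomial (FWeyl ι)) (k : ℕ) (h : MvPowerSeries ι ℂ) (n : ℕ)
    (hn : P.natDegree < n) :
    fact P k h = ∑ i ∈ Finset.range n, MvPowerSeries.C ((k : ℂ) ^ i) *
      ((P.coeff i : Module.End ℂ (MvPowerSeries ι ℂ)) h) := by
  have hk : ((k : FWeyl ι) : Module.End ℂ (MvPowerSeries ι ℂ)) =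
      ((k : ℕ) : Module.End ℂ (MvPowerSeries ι ℂ)) := by simp
  have h1 : ∀ i : ℕ, ((((k : ℕ) : Module.End ℂ (MvPowerSeries ι ℂ)) ^ i :
      Module.End ℂ (MvPowerSeries ι ℂ)) h) = MvPowerSeries.C ((k : ℂ) ^ i) * h := by
    intro i
    induction i with
    | zero => simp
    | succ i ih =>
        rw [pow_succ', Module.End.mul_apply, ih, Module.End.natCast_apply, pow_succ,
          nsmul_eq_mul]
        simp only [map_mul, map_pow, map_natCast]
        ring
  rw [fact, Polynomial.eval_eq_sum_range' hn]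
  rw [AddSubmonoidClass.coe_finsetSum, LinearMap.sum_apply]
  refine Finset.sum_congr rfl fun i _ => ?_
  rw [MulMemClass.coe_mul, SubmonoidClass.coe_pow, hk, Module.End.mul_apply, h1,
    ← fsmul_eq, ← fsmul_eq, map_smul]

/-- polynomial families of formal differential operators, indexed by `ℤ` -/
noncomputable def FPolyFam (ι : Type) : Subalgebra ℂ (ℤ → Module.End ℂ (MvPowerSeries ι ℂ)) :=
  Algebra.adjoin ℂ (Set.range (fun W : FWeyl ι => fun _ : ℤ => (W : Module.End ℂ (MvPowerSeries ι ℂ)))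
    ∪ {fun z : ℤ => (z : ℂ) • (1 : Module.End ℂ (MvPowerSeries ι ℂ))})

theorem fpolyFam_const {W : Module.End ℂ (MvPowerSeries ι ℂ)} (hW : W ∈ FWeyl ι) :
    (fun _ : ℤ => W) ∈ FPolyFam ι :=
  Algebra.subset_adjoin (Or.inl ⟨⟨W, hW⟩, rfl⟩)

theorem fpolyFam_id :
    (fun z : ℤ => (z : ℂ) • (1 : Module.End ℂ (MvPowerSeries ι ℂ))) ∈ FPolyFam ι :=
  Algebra.subset_adjoin (Or.inr rfl)

theorem fpolyFam_shift (m : ℤ) (A : ℤ → Module.End ℂ (MvPowerSeries ι ℂ)) (hA : A ∈ FPolyFam ι) :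
    (fun z : ℤ => A (z + m)) ∈ FPolyFam ι := by
  refine Algebra.adjoin_induction
    (p := fun (A : ℤ → Module.End ℂ (MvPowerSeries ι ℂ)) _ =>
      (fun z : ℤ => A (z + m)) ∈ FPolyFam ι)
    ?_ ?_ ?_ ?_ hA
  · rintro A (⟨W, rfl⟩ | rfl)
    · exact fpolyFam_const W.2
    · have : (fun z : ℤ => ((z + m : ℤ) : ℂ) • (1 : Module.End ℂ (MvPowerSeries ι ℂ))) =
          (fun z : ℤ => (z : ℂ) • (1 : Module.End ℂ (MvPowerSeries ι ℂ))) +
            (m : ℂ) • (1 : ℤ → Module.End ℂ (MvPowerSeries ι ℂ)) := by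
        funext z
        simp [add_smul]
      change (fun z : ℤ => ((z + m : ℤ) : ℂ) • (1 : Module.End ℂ (MvPowerSeries ι ℂ))) ∈ _
      rw [this]
      exact add_mem fpolyFam_id (Subalgebra.smul_mem _ (one_mem _) _)
  · intro r
    exact Subalgebra.algebraMap_mem (FPolyFam ι) r
  · intro A B _ _ hA hB
    exact add_mem hA hB
  · intro A B _ _ hA hB
    exact mul_mem hA hB

/-- every polynomial family comes from an element of `A_n[s]` -/
theorem exists_of_fpolyFam (A : ℤ → Module.End ℂ (MvPowerSeries ι ℂ)) (hA : A ∈ FPolyFam ι) :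
    ∃ P : Polynomial (FWeyl ι), ∀ k : ℕ, fact P k = A k := by
  have main : ∃ P : Polynomial (FWeyl ι), ∀ z : ℤ,
      ((P.eval (z : FWeyl ι) : FWeyl ι) : Module.End ℂ (MvPowerSeries ι ℂ)) = A z := by
    refine Algebra.adjoin_induction
      (p := fun (A : ℤ → Module.End ℂ (MvPowerSeries ι ℂ)) _ =>
        ∃ P : Polynomial (FWeyl ι), ∀ z : ℤ,
          ((P.eval (z : FWeyl ι) : FWeyl ι) : Module.End ℂ (MvPowerSeries ι ℂ)) = A z)
      ?_ ?_ ?_ ?_ hA
    · rintro A (⟨W, rfl⟩ | rfl)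
      · exact ⟨Polynomial.C W, fun z => by simp⟩
      · refine ⟨Polynomial.X, fun z => ?_⟩
        rw [Polynomial.eval_X]
        apply LinearMap.ext
        intro h
        simp [Int.cast_smul_eq_zsmul]
    · intro r
      refine ⟨Polynomial.C (algebraMap ℂ (FWeyl ι) r), fun z => ?_⟩
      rw [Polynomial.eval_C]
      rfl
    · rintro A B _ _ ⟨P, hP⟩ ⟨Q, hQ⟩
      refine ⟨P + Q, fun z => ?_⟩
      rw [Polynomial.eval_add, AddMemClass.coe_add, hP, hQ]
      rfl
    · rintro A B _ _ ⟨P, hP⟩ ⟨Q, hQ⟩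
      refine ⟨P * Q, fun z => ?_⟩
      have : (P * Q).eval (z : FWeyl ι) = P.eval (z : FWeyl ι) * Q.eval (z : FWeyl ι) := by
        refine Polynomial.eval₂_mul_noncomm (RingHom.id _) _ fun k => ?_
        exact (Int.cast_commute z (Q.coeff k)).symm
      rw [this, MulMemClass.coe_mul, hP, hQ]
      rfl
  obtain ⟨P, hP⟩ := main
  refine ⟨P, fun k => ?_⟩
  have := hP (k : ℤ)
  rw [← this, fact]
  simp

/-- `Q (u^{k} h) = u^{k-M} A(k) h` for `k ≥ M` -/
theorem funit_commute [Fintype ι] (u : MvPowerSeries ι ℂ) (Q : Module.End ℂ (MvPowerSeries ι ℂ))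
    (hQ : Q ∈ FWeyl ι) :
    ∃ (M : ℕ) (A : ℤ → Module.End ℂ (MvPowerSeries ι ℂ)), A ∈ FPolyFam ι ∧
      ∀ (k : ℕ) (h : MvPowerSeries ι ℂ), Q (u ^ (k + M) * h) = u ^ k * A (k + M : ℕ) h := by
  refine Algebra.adjoin_induction
    (p := fun Q _ => ∃ (M : ℕ) (A : ℤ → Module.End ℂ (MvPowerSeries ι ℂ)), A ∈ FPolyFam ι ∧
      ∀ (k : ℕ) (h : MvPowerSeries ι ℂ), Q (u ^ (k + M) * h) = u ^ k * A (k + M : ℕ) h)
    ?_ ?_ ?_ ?_ hQ
  · rintro Q (⟨g, rfl⟩ | ⟨i, rfl⟩)
    · refine ⟨0, fun _ => LinearMap.mulLeft ℂ g, fpolyFam_const (mulLeft_mem_FWeyl _),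
        fun k h => ?_⟩
      simp only [add_zero, LinearMap.mulLeft_apply]
      ring
    · refine ⟨1, (fun _ : ℤ => LinearMap.mulLeft ℂ u) *
        (fun _ : ℤ => (((MvPowerSeries.pderiv ℂ i :
          Derivation ℂ (MvPowerSeries ι ℂ) (MvPowerSeries ι ℂ)) :
          MvPowerSeries ι ℂ →ₗ[ℂ] MvPowerSeries ι ℂ) : Module.End ℂ (MvPowerSeries ι ℂ))) +
        (fun z : ℤ => (z : ℂ) • (1 : Module.End ℂ (MvPowerSeries ι ℂ))) *
        (fun _ : ℤ => LinearMap.mulLeft ℂ (MvPowerSeries.pderiv ℂ i u)), ?_, fun k h => ?_⟩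
      · refine add_mem (mul_mem (fpolyFam_const (mulLeft_mem_FWeyl _))
          (fpolyFam_const (pderiv_mem_FWeyl i))) (mul_mem fpolyFam_id
            (fpolyFam_const (mulLeft_mem_FWeyl _)))
      · simp only [Pi.add_apply, Pi.mul_apply, LinearMap.add_apply, Module.End.mul_apply,
          LinearMap.mulLeft_apply, Derivation.coeFn_coe, LinearMap.smul_apply,
          Module.End.one_apply, Derivation.leibniz, Derivation.leibniz_pow, smul_eq_mul,
          nsmul_eq_mul]
        rw [fsmul_eq]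
        simp only [Nat.add_sub_cancel, Int.cast_natCast, map_natCast]
        ring
  · intro r
    refine ⟨0, algebraMap ℂ _ r, Subalgebra.algebraMap_mem _ r, fun k h => ?_⟩
    simp [Module.algebraMap_end_apply, Pi.algebraMap_apply]
  · rintro Q Q' _ _ ⟨M, A, hA, h⟩ ⟨M', A', hA', h'⟩
    refine ⟨M + M', (fun _ => LinearMap.mulLeft ℂ (u ^ M')) * A +
      (fun _ => LinearMap.mulLeft ℂ (u ^ M)) * A', ?_, fun k g => ?_⟩
    · exact add_mem (mul_mem (fpolyFam_const (mulLeft_mem_FWeyl _)) hA)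
        (mul_mem (fpolyFam_const (mulLeft_mem_FWeyl _)) hA')
    · have e1 : Q (u ^ (k + (M + M')) * g) = u ^ (k + M') * A (k + (M + M') : ℕ) g := by
        have := h (k + M') g
        rw [show k + M' + M = k + (M + M') by ring] at this
        exact this
      have e2 : Q' (u ^ (k + (M + M')) * g) = u ^ (k + M) * A' (k + (M + M') : ℕ) g := by
        have := h' (k + M) g
        rw [show k + M + M' = k + (M + M') by ring] at this
        exact this
      rw [LinearMap.add_apply, e1, e2]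
      simp only [Pi.add_apply, Pi.mul_apply, LinearMap.add_apply, Module.End.mul_apply,
        LinearMap.mulLeft_apply]
      ring
  · rintro Q Q' _ _ ⟨M, A, hA, h⟩ ⟨M', A', hA', h'⟩
    refine ⟨M + M', (fun z => A (z + (-M' : ℤ))) * A', mul_mem (fpolyFam_shift _ A hA) hA',
      fun k g => ?_⟩
    have e2 : Q' (u ^ (k + (M + M')) * g) = u ^ (k + M) * A' (k + (M + M') : ℕ) g := by
      have := h' (k + M) g
      rw [show k + M + M' = k + (M + M') by ring] at this
      exact this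
    rw [Module.End.mul_apply, e2, h k, Pi.mul_apply, Module.End.mul_apply]
    congr 3
    push_cast
    ring

end FUnits

end FUAux

open FUAux

theorem stmt_FU : Stmt_FU := by
  classical
  intro ι _ F u b hu hloc
  obtain ⟨P, v, hv, hP⟩ := hloc
  choose M A hA h using fun i : ℕ => funit_commute u _ (P.coeff i).2
  -- a common exponent
  set n := P.natDegree + 1 with hn
  set N := ∑ i ∈ Finset.range n, M i + 1 with hN
  have hMN : ∀ i ∈ Finset.range n, M i + 1 ≤ N := by
    intro i hi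
    have := Finset.single_le_sum (f := M) (fun _ _ => Nat.zero_le _) hi
    omega
  -- the family
  set B : ℤ → Module.End ℂ (MvPowerSeries ι ℂ) := ∑ i ∈ Finset.range n,
    (fun z : ℤ => (z : ℂ) • (1 : Module.End ℂ (MvPowerSeries ι ℂ))) ^ i *
      ((fun _ => LinearMap.mulLeft ℂ (u ^ (N - M i))) * fun z => A i (z + 1)) with hB
  have hBmem : B ∈ FPolyFam ι := by
    refine sum_mem fun i _ => mul_mem (pow_mem fpolyFam_id i)
      (mul_mem (fpolyFam_const (mulLeft_mem_FWeyl _)) (fpolyFam_shift 1 _ (hA i)))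
  obtain ⟨P', hP'⟩ := exists_of_fpolyFam B hBmem
  have hunit : IsUnit u := by
    rw [MvPowerSeries.isUnit_iff_constantCoeff]
    exact isUnit_iff_ne_zero.mpr hu
  refine ⟨P', v * u ^ (N - 1), ?_, ?_⟩
  · rw [map_mul, map_pow]
    exact mul_ne_zero hv (pow_ne_zero _ hu)
  · filter_upwards [hP, Filter.eventually_ge_atTop N] with k hk hkN
    have hs : ∀ (i : ℕ) (g : MvPowerSeries ι ℂ),
        (((fun z : ℤ => (z : ℂ) • (1 : Module.End ℂ (MvPowerSeries ι ℂ))) ^ i) (k : ℤ)) g =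
          MvPowerSeries.C ((k : ℂ) ^ i) * g := by
      intro i g
      rw [Pi.pow_apply]
      induction i with
      | zero => simp
      | succ i ih =>
          rw [pow_succ', Module.End.mul_apply, ih]
          simp only [LinearMap.smul_apply, Module.End.one_apply, Int.cast_natCast]
          rw [fsmul_eq, pow_succ, map_mul]
          ring
    have h1 : u ^ (k + 1 - N) * fact P' k (F ^ (k + 1)) = fact P k ((u * F) ^ (k + 1)) := by
      rw [hP', hB, fact_eq_sum P k _ n (Nat.lt_succ_self _), Finset.sum_apply,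
        LinearMap.sum_apply, Finset.mul_sum]
      refine Finset.sum_congr rfl fun i hi => ?_
      have hMi := hMN i hi
      rw [Pi.mul_apply, Module.End.mul_apply, hs, Pi.mul_apply, Module.End.mul_apply,
        LinearMap.mulLeft_apply]
      have e := h i (k + 1 - M i) (F ^ (k + 1))
      rw [show k + 1 - M i + M i = k + 1 by omega] at e
      rw [mul_pow, e]
      have e3 : u ^ (k + 1 - M i) = u ^ (k + 1 - N) * u ^ (N - M i) := by
        rw [← pow_add]
        congr 1
        omega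
      rw [e3]
      have e4 : ((k : ℤ) + 1) = ((k + 1 : ℕ) : ℤ) := by push_cast; ring
      rw [e4]
      ring
    have h2 : u ^ (k + 1 - N) * fact P' k (F ^ (k + 1)) =
        u ^ (k + 1 - N) * (MvPowerSeries.C (b.eval (k : ℂ)) * (v * u ^ (N - 1) * F ^ k)) := by
      rw [h1, hk, mul_pow]
      have e3 : u ^ k = u ^ (k + 1 - N) * u ^ (N - 1) := by
        rw [← pow_add]
        congr 1
        omega
      rw [e3]
      ring
    exact (hunit.pow _).mul_left_cancel h2

end Pool.Agent.Mono
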