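import Pool.Agent.Work.Monodromy.Interface2
import Pool.Agent.Work.Monodromy.Statement2

/-!
# Phase 3: the monodromy conjecture is equivalent to its case of small cubic polynomials

`sus f = f + uv` with two new variables.  Zeta functions of `sus f` and `f` determine each other,
eigenvalues of `sus f` are eigenvalues of `f`; every polynomial becomes a polynomial of degree `≤ 3`,
of degree `≤ 1` in each variable, with nonlinear coefficients `0, ±1`, after adding sums `∑ u_k v_k`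
and an automorphism.
-/

namespace Pool.Agent.Mono

open MvPolynomial

section

variable {ι : Type}

/-- `f(x) + u v`, `u, v` two new variables -/
noncomputable def sus (f : MvPolynomial ι ℂ) : MvPolynomial (ι ⊕ Bool) ℂ :=
  rename Sum.inl f + X (Sum.inr true) * X (Sum.inr false)

/-- the monodromy conjecture for `f` (topological zeta function) -/
def MC [Fintype ι] (f : MvPolynomial ι ℂ) : Prop :=
  ∀ (P : HodgeMeasure) (R : RatFunc ℚ), IsTopZeta P f 1 R → ∀ s : ℂ,
    Polynomial.aeval s R.denom = 0 → IsEigenvalue f (Complex.exp (2 * Real.pi * Complex.I * s))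

/-- the monodromy conjecture for `f` and the `e`-twisted topological zeta function -/
def MCtw [Fintype ι] (e : ℕ) (f : MvPolynomial ι ℂ) : Prop :=
  ∀ (P : HodgeMeasure) (R : RatFunc ℚ), IsTwTopZeta P f e R → ∀ s : ℂ,
    Polynomial.aeval s R.denom = 0 → IsEigenvalue f (Complex.exp (2 * Real.pi * Complex.I * s))

/-- degree `≤ 3`, degree `≤ 1` in every variable, nonlinear coefficients `0, 1, -1` -/
def Small (F : MvPolynomial ι ℂ) : Prop :=
  ∀ a ∈ F.support, (∀ i, a i ≤ 1) ∧ (a.sum fun _ k => k) ≤ 3 ∧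
    (2 ≤ (a.sum fun _ k => k) → F.coeff a = 1 ∨ F.coeff a = -1)

end

/-- volume of `{ord f = k, w^e = ac f}` -/
noncomputable def vk {ι : Type} [Fintype ι] {R : Type} [CommRing R] (μ : MotivicMeasure R) (Li : R)
    (f : MvPolynomial ι ℂ) (e k : ℕ) : R :=
  μ.val (jetSet f e k) * Li ^ ((k + 1) * Fintype.card ι)

/-- the zeta function of `f + uv` -/
def Stmt_SZ : Prop :=
  ∀ (ι : Type) [Fintype ι] [DecidableEq ι] (f : MvPolynomial ι ℂ) (R : Type) [CommRing R]
    (μ : MotivicMeasure R) (Li : R), μ.L * Li = 1 → ∀ e k : ℕ, 1 ≤ e →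
      vk μ Li (sus f) e k = Li ^ (k + 1) * ((μ.L - 1) * (1 - Li) *
        (∑ m ∈ Finset.range k, ((m : R) + 1) * vk μ Li f 1 m +
          ((k : R) + 1) * (1 - ∑ m ∈ Finset.range k, vk μ Li f 1 m)) + vk μ Li f e k)

theorem compInj : nonZeroDivisors (Polynomial ℚ) ≤
    (nonZeroDivisors (Polynomial ℚ)).comap
      (Polynomial.compRingHom (Polynomial.X + 1 : Polynomial ℚ)) := by
  intro p hp
  rw [Submonoid.mem_comap, mem_nonZeroDivisors_iff_ne_zero]
  rw [mem_nonZeroDivisors_iff_ne_zero] at hp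
  intro h
  apply hp
  have h1 : p.comp (Polynomial.X + 1) = 0 := h
  rw [Polynomial.comp_eq_zero_iff] at h1
  rcases h1 with h1 | ⟨_, h2⟩
  · exact h1
  · exfalso
    have := congrArg Polynomial.natDegree h2
    rw [Polynomial.natDegree_C, show (Polynomial.X + 1 : Polynomial ℚ) =
      Polynomial.X + Polynomial.C 1 by simp, Polynomial.natDegree_X_add_C] at this
    exact one_ne_zero this

/-- `R(s) ↦ R(s + 1)` -/
noncomputable def shR : RatFunc ℚ →+* RatFunc ℚ :=
  RatFunc.mapRingHom (Polynomial.compRingHom (Polynomial.X + 1 : Polynomial ℚ)) compInj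

/-- `1 - s(s+2)/(s+1)^2 (1 - R(s+1))` -/
noncomputable def susR (R : RatFunc ℚ) : RatFunc ℚ :=
  1 - RatFunc.X * (RatFunc.X + 2) / (RatFunc.X + 1) ^ 2 * (1 - shR R)

/-- the limits for `f + uv` -/
def Stmt_SL : Prop :=
  ∀ (ι : Type) [Fintype ι] [DecidableEq ι] (f : MvPolynomial ι ℂ) (P : HodgeMeasure)
    (R : RatFunc ℚ), IsTopZeta P f 1 R → IsTopZeta P (sus f) 1 (susR R) ∧
      ∀ (e : ℕ) (Re : RatFunc ℚ), 1 ≤ e → IsTopZeta P f e Re →
        IsTopZeta P (sus f) e (susR R + shR (Re - R))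

/-- poles of `shR R` and `susR R` -/
def Stmt_SP : Prop :=
  (∀ (R : RatFunc ℚ) (s : ℂ), Polynomial.aeval s R.denom = 0 →
    Polynomial.aeval (s - 1) (shR R).denom = 0) ∧
  ∀ (R : RatFunc ℚ) (s : ℂ), s ≠ 1 → s ≠ -1 → Polynomial.aeval s R.denom = 0 →
    Polynomial.aeval (s - 1) (susR R).denom = 0

/-- the Bernstein polynomial of `f + uv` -/
def Stmt_SB : Prop :=
  ∀ (ι : Type) [Fintype ι] [DecidableEq ι] (f : MvPolynomial ι ℂ) (b : Polynomial ℂ),
    IsBernstein f b →
      IsBernstein (sus f) ((Polynomial.X + 1 : Polynomial ℂ) * b.comp (Polynomial.X + 1 : Polynomial ℂ) : Polynomial ℂ)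

/-- `-1` is a root of the Bernstein polynomial of a non-constant polynomial -/
def Stmt_SM : Prop :=
  ∀ (ι : Type) [Fintype ι] [DecidableEq ι] (f : MvPolynomial ι ℂ) (b : Polynomial ℂ),
    f.totalDegree ≠ 0 → IsBernstein f b → b.eval (-1) = 0

/-- eigenvalues of `f + uv` are eigenvalues of `f` -/
def Stmt_SE : Prop :=
  ∀ (ι : Type) [Fintype ι] [DecidableEq ι] (f : MvPolynomial ι ℂ) (l : ℂ), f.totalDegree ≠ 0 →
    IsEigenvalue (sus f) l → IsEigenvalue f l

/-- invariance under isomorphisms -/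
def Stmt_SI : Prop :=
  ∀ (ι κ : Type) [Fintype ι] [Fintype κ] (α : MvPolynomial ι ℂ ≃ₐ[ℂ] MvPolynomial κ ℂ)
    (f : MvPolynomial ι ℂ), Fintype.card ι = Fintype.card κ →
    (∀ (R : Type) [CommRing R] (μ : MotivicMeasure R) (Li : R) (e : ℕ),
      zetaSer μ Li (α f) e = zetaSer μ Li f e) ∧
    ∀ b : Polynomial ℂ, IsBernstein f b ↔ IsBernstein (α f) b

/-- the reduction step -/
def Stmt_SS : Prop :=
  ∀ (ι : Type) [Fintype ι] [DecidableEq ι] (f : MvPolynomial ι ℂ), f.totalDegree ≠ 0 →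
    (MC (sus f) → MC f) ∧ ∀ e : ℕ, 1 ≤ e → MCtw e (sus f) → MCtw e f

/-- `f + ∑_{k < N} u_k v_k` -/
noncomputable def susN {ι : Type} (N : ℕ) (f : MvPolynomial ι ℂ) :
    MvPolynomial (ι ⊕ (Fin N × Bool)) ℂ :=
  rename Sum.inl f + ∑ k : Fin N, (X (Sum.inr (k, true)) : MvPolynomial (ι ⊕ (Fin N × Bool)) ℂ) *
    X (Sum.inr (k, false))

/-- normal form: a sum of `N` products of new variables and an automorphism make `f` small -/
def Stmt_SR : Prop :=
  ∀ (n : ℕ) (f : MvPolynomial (Fin n) ℂ), ∃ (N : ℕ)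
    (α : MvPolynomial (Fin n ⊕ (Fin N × Bool)) ℂ ≃ₐ[ℂ] MvPolynomial (Fin (n + 2 * N)) ℂ),
    Small (α (susN N f))

/-- the reduction theorem, topological zeta function -/
def Stmt_Cubic : Prop :=
  (∀ (n : ℕ) (F : MvPolynomial (Fin n) ℂ), F.totalDegree ≠ 0 → Small F → MC F) →
    ∀ (n : ℕ) (f : MvPolynomial (Fin n) ℂ), f.totalDegree ≠ 0 → MC f

/-- the reduction theorem, twisted zeta functions -/
def Stmt_CubicTw : Prop :=
  ∀ e : ℕ, 1 ≤ e →
    (∀ (n : ℕ) (F : MvPolynomial (Fin n) ℂ), F.totalDegree ≠ 0 → Small F → MCtw e F) →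
      ∀ (n : ℕ) (f : MvPolynomial (Fin n) ℂ), f.totalDegree ≠ 0 → MCtw e f

end Pool.Agent.Mono
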