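import Pool.Agent.Work.Monodromy.All
import Pool.Agent.Work.Monodromy.Interface3

/-!
# From the functorial expression to the topological zeta function
-/

namespace Pool.Agent.Mono

open MvPolynomial

/-- the pole condition -/
def GoodPoles {ι : Type} (f : MvPolynomial ι ℂ) (R : RatFunc ℚ) : Prop :=
  ∀ s : ℂ, Polynomial.aeval s R.denom = 0 →
    IsEigenvalue f (Complex.exp (2 * Real.pi * Complex.I * s))

theorem good_R {ι : Type} [Fintype ι] [DecidableEq ι] (f : MvPolynomial ι ℂ)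
    (hf : LocallyPowerArr f) (P : HodgeMeasure) (e : ℕ) (he : 1 ≤ e) :
    ∃ R : RatFunc ℚ, IsTopZeta P f e R ∧ GoodPoles f R := by
  obtain ⟨ts, hts, hser⟩ := all_LMain ι f hf e he
  obtain ⟨R, hR, hpol⟩ := stmt_Spec P ts (GoodPair (bSet f)) (fun q hq => ⟨hq.1, hq.2.1⟩) hts
    (Fintype.card ι)
  have hL : P.rat.L * (RatFunc.X : RatFunc ℚ)⁻¹ = 1 := by
    rw [P.rat_L]
    exact mul_inv_cancel₀ RatFunc.X_ne_zero
  refine ⟨R, ?_, ?_⟩
  · rw [IsTopZeta, hser _ P.rat _ hL]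
    exact hR
  · intro s hs
    obtain ⟨t, ht, q, hq, hsq⟩ := hpol s hs
    obtain ⟨h1, h2, j, hj⟩ := ((hts t ht).2.2.2 q hq).1
    refine ⟨-(q.2 : ℂ) / q.1 - j, fun b hb => hj b ?_, ?_⟩
    · obtain ⟨Q, hQ⟩ := hb
      exact ⟨Q, Filter.Eventually.of_forall hQ⟩
    · have hne : (q.1 : ℂ) ≠ 0 := by
        have : q.1 ≠ 0 := by omega
        exact_mod_cast this
      have hs' : s = -(q.2 : ℂ) / q.1 := by
        field_simp
        exact hsq
      rw [hs', Complex.exp_eq_exp_iff_exists_int]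
      refine ⟨j, ?_⟩
      push_cast
      ring

end Pool.Agent.Mono
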