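import Pool.Agent.Work.Monodromy.Statement

/-!
# Definitions used in the statements: the topological zeta function (untwisted)
-/

namespace Pool.Agent.Mono

open MvPolynomial

/-- the `k`-jets of arcs along which `f` vanishes to order exactly `k` -/
def contactJets {ι : Type} (f : MvPolynomial ι ℂ) (k : ℕ) : Set (ι × Fin (k + 1) → ℂ) :=
  {v | (∀ l < k, (aeval (jet v) f : Polynomial ℂ).coeff l = 0) ∧
    (aeval (jet v) f : Polynomial ℂ).coeff k ≠ 0}

/-- `R` is the topological zeta function of `f`: the limit, for `u → 1` and `T = u^{-s}`, of the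
zeta function `∑_k P(contactJets f k) u^{-kn} T^k`. -/
def IsTopologicalZeta {ι : Type} [Fintype ι] (P : HodgeMeasure) (f : MvPolynomial ι ℂ)
    (R : RatFunc ℚ) : Prop :=
  IsLim (PowerSeries.mk fun k =>
    toRat (P.val (contactJets f k)) * (RatFunc.X)⁻¹ ^ (k * Fintype.card ι)) R

end Pool.Agent.Mono
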