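import Pool.Agent.Work.Monodromy.Final
import Pool.Agent.Work.Monodromy.Statement1

/-!
# The zeta function of jets and of pairs (jet, leading coefficient)
-/

namespace Pool.Agent.Mono

open MvPolynomial

/-- the `l`-th coefficient of `f` along the generic jet -/
noncomputable def jetCoeff {ι : Type} (f : MvPolynomial ι ℂ) (k l : ℕ) :
    MvPolynomial (ι × Fin (k + 1)) ℂ :=
  (aeval (fun i => ∑ l : Fin (k + 1), Polynomial.C (X (i, l) : MvPolynomial (ι × Fin (k + 1)) ℂ) *
    Polynomial.X ^ (l : ℕ)) f : Polynomial (MvPolynomial (ι × Fin (k + 1)) ℂ)).coeff l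

theorem eval_jetCoeff {ι : Type} (f : MvPolynomial ι ℂ) (k l : ℕ) (v : ι × Fin (k + 1) → ℂ) :
    eval v (jetCoeff f k l) = (aeval (jet v) f : Polynomial ℂ).coeff l := by
  have h : ∀ g : MvPolynomial ι ℂ, Polynomial.map (eval v)
      (aeval (fun i => ∑ l : Fin (k + 1),
        Polynomial.C (X (i, l) : MvPolynomial (ι × Fin (k + 1)) ℂ) *
          Polynomial.X ^ (l : ℕ)) g : Polynomial (MvPolynomial (ι × Fin (k + 1)) ℂ)) =
        aeval (jet v) g := by
    intro g
    induction g using MvPolynomial.induction_on with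
    | C a =>
      rw [aeval_C, aeval_C, Polynomial.algebraMap_apply, Polynomial.map_C,
        MvPolynomial.algebraMap_eq, eval_C]
      rfl
    | add p q hp hq => rw [map_add, map_add, Polynomial.map_add, hp, hq]
    | mul_X p i hp =>
      rw [map_mul, map_mul, Polynomial.map_mul, hp, aeval_X, aeval_X, jet, Polynomial.map_sum]
      simp
  rw [jetCoeff, ← h f, Polynomial.coeff_map]

theorem constructible_contactJets {ι : Type} (f : MvPolynomial ι ℂ) (k : ℕ) :
    Constructible (contactJets f k) := by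
  have : contactJets f k = {v | (∀ l < k, eval v (jetCoeff f k l) = 0) ∧
      eval v (jetCoeff f k k) ≠ 0} := by
    ext v
    simp only [contactJets, Set.mem_setOf_eq, eval_jetCoeff]
  rw [this]
  exact (Constructible.all_lt k fun l _ => Constructible.zero _).and (Constructible.ne _)

theorem constructible_jetSet {ι : Type} (f : MvPolynomial ι ℂ) (e k : ℕ) :
    Constructible (jetSet f e k) := by
  have : jetSet f e k = {z | (∀ l < k, eval z (rename Sum.inl (jetCoeff f k l)) = 0) ∧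
      eval z (rename Sum.inl (jetCoeff f k k)) ≠ 0 ∧
      eval z (X (Sum.inr ()) ^ e) = eval z (rename Sum.inl (jetCoeff f k k))} := by
    ext z
    simp only [jetSet, Set.mem_setOf_eq, eval_rename, map_pow, eval_X]
    simp only [show (z ∘ Sum.inl : ι × Fin (k + 1) → ℂ) = fun s => z (Sum.inl s) from rfl,
      eval_jetCoeff]
  rw [this]
  exact (Constructible.all_lt k fun l _ => Constructible.zero _).and
    ((Constructible.ne _).and (Constructible.eq _ _))

theorem val_jetSet_one {R : Type} [CommRing R] (μ : MotivicMeasure R) {ι : Type} [Finite ι]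
    (f : MvPolynomial ι ℂ) (k : ℕ) : μ.val (jetSet f 1 k) = μ.val (contactJets f k) := by
  refine μ.map _ _ (fun s => X (Sum.inl s)) (constructible_jetSet f 1 k)
    (constructible_contactJets f k) ⟨?_, ?_, ?_⟩
  · intro z hz
    simp only [eval_X]
    exact ⟨hz.1, hz.2.1⟩
  · intro z hz z' hz' h
    have h1 : ∀ s, z (Sum.inl s) = z' (Sum.inl s) := by
      intro s
      have := congrFun h s
      simpa using this
    have h2 : (fun s => z (Sum.inl s)) = fun s => z' (Sum.inl s) := funext h1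
    funext s
    rcases s with s | s
    · exact h1 s
    · have e1 := hz.2.2
      have e2 := hz'.2.2
      rw [pow_one] at e1 e2
      rw [h2] at e1
      rw [show s = () from rfl, e1, e2]
  · intro v hv
    refine ⟨Sum.elim v fun _ => (aeval (jet v) f : Polynomial ℂ).coeff k, ?_, ?_⟩
    · refine ⟨hv.1, hv.2, ?_⟩
      simp
    · funext s
      simp

theorem isTopologicalZeta_iff {ι : Type} [Fintype ι] (P : HodgeMeasure) (f : MvPolynomial ι ℂ)
    (R : RatFunc ℚ) : IsTopologicalZeta P f R ↔ IsTopZeta P f 1 R := by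
  have h : (PowerSeries.mk fun k => toRat (P.val (contactJets f k)) *
      (RatFunc.X)⁻¹ ^ (k * Fintype.card ι)) = zetaSer P.rat (RatFunc.X)⁻¹ f 1 := by
    ext k
    rw [zetaSer, PowerSeries.coeff_mk, PowerSeries.coeff_mk, val_jetSet_one]
    rfl
  rw [IsTopologicalZeta, IsTopZeta, h]

theorem mc_untwisted {ι : Type} [Fintype ι] [DecidableEq ι] (f : MvPolynomial ι ℂ)
    (hf : LocallyPowerArr f) (P : HodgeMeasure) :
    ∃ R : RatFunc ℚ, (∀ R' : RatFunc ℚ, IsTopologicalZeta P f R' ↔ R' = R) ∧ GoodPoles f R := by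
  obtain ⟨R, hR, hg⟩ := good_R f hf P 1 le_rfl
  refine ⟨R, fun R' => ?_, hg⟩
  rw [isTopologicalZeta_iff]
  refine ⟨fun h => stmt_Uniq _ _ _ h hR, fun h => ?_⟩
  rw [h]
  exact hR

/-- the series without constant term -/
theorem isLim_zetaSer1 {ι : Type} [Fintype ι] (P : HodgeMeasure) (f : MvPolynomial ι ℂ) (d : ℕ)
    (R : RatFunc ℚ) (h : IsTopZeta P f d R) :
    ∃ q : ℚ, IsLim (zetaSer1 P.rat (RatFunc.X)⁻¹ f d) (R + RatFunc.C q) := by
  have h2 := (LimOne.toRat (-P.val (jetSet f d 0)))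
  refine ⟨(((-P.val (jetSet f d 0)).eval 1 : ℤ) : ℚ), ?_⟩
  have h3 : zetaSer1 P.rat (RatFunc.X)⁻¹ f d = zetaSer P.rat (RatFunc.X)⁻¹ f d +
      PowerSeries.C (toRat (-P.val (jetSet f d 0))) := by
    ext k
    rw [map_add, zetaSer1, zetaSer, PowerSeries.coeff_mk, PowerSeries.coeff_mk,
      PowerSeries.coeff_C]
    by_cases hk : k = 0
    · subst hk
      simp [HodgeMeasure.rat]
    · simp [hk]
  rw [h3]
  exact IsLim.add h (IsLim.C h2)

theorem goodPoles_add {ι : Type} {f : MvPolynomial ι ℂ} {R R' : RatFunc ℚ} (h : GoodPoles f R)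
    (h' : GoodPoles f R') : GoodPoles f (R + R') := by
  intro s hs
  rcases pole_add hs with h3 | h3
  · exact h s h3
  · exact h' s h3

theorem goodPoles_C {ι : Type} {f : MvPolynomial ι ℂ} (q : ℚ) : GoodPoles f (RatFunc.C q) := by
  intro s hs
  rw [RatFunc.denom_C] at hs
  simp at hs

theorem goodPoles_mul {ι : Type} {f : MvPolynomial ι ℂ} {R R' : RatFunc ℚ} (h : GoodPoles f R)
    (h' : GoodPoles f R') : GoodPoles f (R * R') := by
  intro s hs
  rcases pole_mul hs with h3 | h3
  · exact h s h3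
  · exact h' s h3

theorem goodPoles_sum {ι : Type} {f : MvPolynomial ι ℂ} {α : Type*} (s : Finset α)
    (R : α → RatFunc ℚ) (h : ∀ a ∈ s, GoodPoles f (R a)) : GoodPoles f (∑ a ∈ s, R a) := by
  classical
  induction s using Finset.induction_on with
  | empty =>
    rw [Finset.sum_empty, ← map_zero (RatFunc.C : ℚ →+* RatFunc ℚ)]
    exact goodPoles_C 0
  | insert a s ha ih =>
    rw [Finset.sum_insert ha]
    exact goodPoles_add (h a (Finset.mem_insert_self a s))
      (ih fun b hb => h b (Finset.mem_insert_of_mem hb))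

theorem mc_twisted {ι : Type} [Fintype ι] [DecidableEq ι] (f : MvPolynomial ι ℂ)
    (hf : LocallyPowerArr f) (P : HodgeMeasure) (e : ℕ) (he : 1 ≤ e) :
    ∃ R : RatFunc ℚ, (∀ R' : RatFunc ℚ, IsTwTopZeta P f e R' ↔ R' = R) ∧ GoodPoles f R := by
  have h1 : ∀ d : ℕ, ∃ r : RatFunc ℚ, 1 ≤ d →
      IsLim (zetaSer1 P.rat (RatFunc.X)⁻¹ f d) r ∧ GoodPoles f r := by
    intro d
    by_cases hd : 1 ≤ d
    · obtain ⟨R, hR, hg⟩ := good_R f hf P d hd
      obtain ⟨q, hq⟩ := isLim_zetaSer1 P f d R hR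
      exact ⟨_, fun _ => ⟨hq, goodPoles_add hg (goodPoles_C q)⟩⟩
    · exact ⟨0, fun h => absurd h hd⟩
  choose r hr using h1
  have hpos : ∀ d ∈ e.divisors, 1 ≤ d := fun d hd => Nat.pos_of_mem_divisors hd
  have htot : (RatFunc.C (e.totient : ℚ) : RatFunc ℚ) ≠ 0 := by
    rw [Ne, map_eq_zero_iff _ (RatFunc.C_injective)]
    exact_mod_cast (Nat.totient_pos.2 he).ne'
  set S : RatFunc ℚ := ∑ d ∈ e.divisors,
    RatFunc.C ((ArithmeticFunction.moebius (e / d) : ℤ) : ℚ) * r d with hS
  refine ⟨RatFunc.C ((e.totient : ℚ)⁻¹) * S, fun R' => ⟨?_, ?_⟩, ?_⟩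
  · rintro ⟨r', hr', hR'⟩
    have h2 : ∑ d ∈ e.divisors, RatFunc.C ((ArithmeticFunction.moebius (e / d) : ℤ) : ℚ) * r' d
        = S := by
      refine Finset.sum_congr rfl fun d hd => ?_
      rw [stmt_Uniq _ _ _ (hr' d hd) (hr d (hpos d hd)).1]
    rw [h2] at hR'
    rw [← hR', ← mul_assoc, ← map_mul, inv_mul_cancel₀, map_one, one_mul]
    exact_mod_cast (Nat.totient_pos.2 he).ne'
  · intro h
    refine ⟨r, fun d hd => (hr d (hpos d hd)).1, ?_⟩
    rw [h, ← mul_assoc, ← map_mul, mul_inv_cancel₀, map_one, one_mul]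
    exact_mod_cast (Nat.totient_pos.2 he).ne'
  · refine goodPoles_mul (goodPoles_C _) (goodPoles_sum _ _ fun d hd => ?_)
    exact goodPoles_mul (goodPoles_C _) (hr d (hpos d hd)).2

end Pool.Agent.Mono
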