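import Pool.Agent.Work.Monodromy.Final1

/-!
# The class of polynomials, without side conditions except `f ≠ 0`
-/

namespace Pool.Agent.Mono

open MvPolynomial

theorem locallyPowerArr_of_ne_zero {ι κ : Type} [Fintype ι] [Fintype κ] [DecidableEq ι]
    [DecidableEq κ] (P q : ι → Polynomial ℂ) (c0 : κ → ℂ) (c : κ → ι → ℂ) (m : κ → ℕ)
    (hf : (∏ i, Polynomial.aeval (X i : MvPolynomial ι ℂ) (q i)) *
      ∏ j, (C (c0 j) + ∑ i, C (c j i) * Polynomial.aeval (X i) (P i)) ^ m j ≠ 0) :
    LocallyPowerArr ((∏ i, Polynomial.aeval (X i : MvPolynomial ι ℂ) (q i)) *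
      ∏ j, (C (c0 j) + ∑ i, C (c j i) * Polynomial.aeval (X i) (P i)) ^ m j) := by
  classical
  let G : GData ι κ :=
    { P := fun i => if (P i).natDegree = 0 then Polynomial.X else P i
      q := q
      c0 := fun j => c0 j + ∑ i, if (P i).natDegree = 0 then c j i * (P i).coeff 0 else 0
      c := fun j i => if (P i).natDegree = 0 then 0 else c j i
      m := m }
  have hform : ∀ j, G.form j = C (c0 j) + ∑ i, C (c j i) * Polynomial.aeval (X i) (P i) := by
    intro j
    simp only [GData.form, G, map_add, map_sum, add_assoc]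
    rw [← Finset.sum_add_distrib]
    congr 1
    refine Finset.sum_congr rfl fun i _ => ?_
    by_cases h : (P i).natDegree = 0
    · rw [if_pos h, if_pos h, map_zero, zero_mul, add_zero]
      conv_rhs => rw [Polynomial.eq_C_of_natDegree_eq_zero h]
      rw [Polynomial.aeval_C, map_mul]
      rfl
    · rw [if_neg h, if_neg h, if_neg h, map_zero, zero_add]
  have hpoly : G.poly = (∏ i, Polynomial.aeval (X i : MvPolynomial ι ℂ) (q i)) *
      ∏ j, (C (c0 j) + ∑ i, C (c j i) * Polynomial.aeval (X i) (P i)) ^ m j := by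
    rw [GData.poly]
    simp only [hform]
    rfl
  rw [← hpoly] at hf ⊢
  refine all_GL ι κ G ⟨?_, ?_, ?_⟩
  · intro i
    show 1 ≤ (if (P i).natDegree = 0 then Polynomial.X else P i : Polynomial ℂ).natDegree
    by_cases h : (P i).natDegree = 0
    · rw [if_pos h, Polynomial.natDegree_X]
    · rw [if_neg h]
      omega
  · intro i hi
    apply hf
    have : (∏ i, Polynomial.aeval (X i : MvPolynomial ι ℂ) (G.q i)) = 0 :=
      Finset.prod_eq_zero (Finset.mem_univ i) (by rw [hi, map_zero])
    rw [GData.poly, this, zero_mul]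
  · intro j hj
    by_contra hcon
    push_neg at hcon
    apply hf
    have h0 : G.form j = 0 := by
      rw [GData.form, hcon.1, map_zero, zero_add]
      exact Finset.sum_eq_zero fun i _ => by rw [hcon.2 i, map_zero, zero_mul]
    have : (∏ j, G.form j ^ G.m j) = 0 :=
      Finset.prod_eq_zero (Finset.mem_univ j) (by rw [h0, zero_pow hj.ne'])
    rw [GData.poly, this, mul_zero]

end Pool.Agent.Mono
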