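import Pool.Agent.Work.Monodromy.Interface2
import Pool.Agent.Work.Monodromy.YF
import Pool.Agent.Work.Monodromy.Jet

/-!
# Blocks GJet, GAdd: the zeta function as a volume series, additivity over the base
-/

set_option autoImplicit false
set_option linter.unusedSectionVars false

namespace Pool.Agent.Mono

open MvPolynomial

namespace GJetAux

variable {ι : Type} [Fintype ι] [DecidableEq ι]

/-- the coefficients of `f(x)` below `n` depend only on the coefficients below `n` of the arcs -/
theorem aeval_congr (f : MvPolynomial ι ℂ) (n : ℕ) (x y : ι → PowerSeries ℂ)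
    (h : ∀ i, ∀ l < n, PowerSeries.coeff l (x i) = PowerSeries.coeff l (y i)) :
    ∀ l < n, PowerSeries.coeff l (aeval x f) = PowerSeries.coeff l (aeval y f) := by
  rw [← mk_eq_iff]
  have h1 : ∀ i, Ideal.Quotient.mkₐ ℂ (Ideal.span {(PowerSeries.X : PowerSeries ℂ) ^ n}) (x i) =
      Ideal.Quotient.mkₐ ℂ (Ideal.span {(PowerSeries.X : PowerSeries ℂ) ^ n}) (y i) :=
    fun i => (mk_eq_iff n _ _).2 (h i)
  have h2 := MvPolynomial.comp_aeval_apply (R := ℂ) (f := x)
    (Ideal.Quotient.mkₐ ℂ (Ideal.span {(PowerSeries.X : PowerSeries ℂ) ^ n})) f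
  have h3 := MvPolynomial.comp_aeval_apply (R := ℂ) (f := y)
    (Ideal.Quotient.mkₐ ℂ (Ideal.span {(PowerSeries.X : PowerSeries ℂ) ^ n})) f
  have h4 : (fun i => Ideal.Quotient.mkₐ ℂ (Ideal.span {(PowerSeries.X : PowerSeries ℂ) ^ n})
      (x i)) = fun i => Ideal.Quotient.mkₐ ℂ (Ideal.span {(PowerSeries.X : PowerSeries ℂ) ^ n})
      (y i) := funext h1
  rw [h4, ← h3] at h2
  exact h2

/-- the constant coefficient -/
theorem constantCoeff_aeval (f : MvPolynomial ι ℂ) (x : ι → PowerSeries ℂ) :
    PowerSeries.constantCoeff (aeval x f) =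
      eval (fun i => PowerSeries.constantCoeff (x i)) f := by
  induction f using MvPolynomial.induction_on with
  | C a => simp [PowerSeries.algebraMap_apply]
  | add p q hp hq => simp [hp, hq]
  | mul_X p i hp => simp [hp]

variable (T : Type)

/-- the coefficient `l` of `f(x)` as a polynomial in the coefficients of the arcs -/
noncomputable def cA (K : ι → ℕ) (f : MvPolynomial ι ℂ) (l : ℕ) :
    MvPolynomial (T ⊕ (Σ i, Fin (K i))) ℂ :=
  PowerSeries.coeff l (aeval (garc T K) f)

theorem map_aeval (K : ι → ℕ) (f : MvPolynomial ι ℂ) (v : T ⊕ (Σ i, Fin (K i)) → ℂ) :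
    PowerSeries.map (eval v) (aeval (garc T K) f) =
      aeval (toArc K fun s => v (Sum.inr s)) f := by
  induction f using MvPolynomial.induction_on with
  | C a =>
    simp only [aeval_C, PowerSeries.algebraMap_apply, PowerSeries.map_C, algebraMap_eq, eval_C]
    rfl
  | add p q hp hq => simp [hp, hq]
  | mul_X p i hp => rw [map_mul, map_mul, map_mul, hp, aeval_X, aeval_X, map_garc]

theorem eval_cA (K : ι → ℕ) (f : MvPolynomial ι ℂ) (l : ℕ) (v : T ⊕ (Σ i, Fin (K i)) → ℂ) :
    eval v (cA T K f l) = PowerSeries.coeff l (aeval (toArc K fun s => v (Sum.inr s)) f) := by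
  rw [cA, ← PowerSeries.coeff_map, map_aeval]

/-- contact sets are cylinders -/
theorem contactS_cyl (e : ℕ) (f : MvPolynomial ι ℂ) (S : Set (ι → ℂ)) (hS : Constructible S)
    (k : ℕ) : IsCyl (fun _ => k + 1) (contactS e f S k) := by
  constructor
  · intro p x y hxy
    have h1 := aeval_congr f (k + 1) x y hxy
    have h2 : ∀ l < k, PowerSeries.coeff l (aeval x f) = PowerSeries.coeff l (aeval y f) :=
      fun l hl => h1 l (by omega)
    have h3 := h1 k (by omega)
    have h4 : (fun i => PowerSeries.constantCoeff (x i)) =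
        fun i => PowerSeries.constantCoeff (y i) := by
      funext i
      have := hxy i 0 (Nat.succ_pos k)
      rwa [PowerSeries.coeff_zero_eq_constantCoeff_apply,
        PowerSeries.coeff_zero_eq_constantCoeff_apply] at this
    change (_ ∧ _ ∧ _ ∧ _) ↔ (_ ∧ _ ∧ _ ∧ _)
    simp only [h3, h4]
    refine and_congr Iff.rfl (and_congr ?_ Iff.rfl)
    apply forall_congr'
    intro l
    apply forall_congr'
    intro hl
    rw [h2 l hl]
  · set K : ι → ℕ := fun _ => k + 1 with hK
    have h0 : sec K (contactS e f S k) =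
        {v : Unit ⊕ (Σ i, Fin (K i)) → ℂ |
          (fun i => v (Sum.inr (⟨i, (⟨0, Nat.succ_pos k⟩ : Fin (k + 1))⟩ : Σ i, Fin (K i)))) ∈ S ∧
          (∀ l < k, eval v (cA Unit K f l) = 0) ∧ eval v (cA Unit K f k) ≠ 0 ∧
          eval v (X (Sum.inl ()) ^ e) = eval v (cA Unit K f k)} := by
      ext v
      have h5 : (fun i => PowerSeries.constantCoeff (toArc K (fun s => v (Sum.inr s)) i)) =
          fun i => v (Sum.inr (⟨i, (⟨0, Nat.succ_pos k⟩ : Fin (k + 1))⟩ : Σ i, Fin (K i))) := by
        funext i
        rw [← PowerSeries.coeff_zero_eq_constantCoeff_apply, coeff_toArc, dif_pos (Nat.succ_pos k)]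
      change ((fun i => PowerSeries.constantCoeff (toArc K (fun s => v (Sum.inr s)) i)) ∈ S ∧
        _ ∧ _ ∧ _) ↔ _
      rw [h5]
      simp only [Set.mem_ofPred_eq, eval_cA, map_pow, eval_X]
    rw [h0]
    refine Constructible.and (Constructible.comap _ hS) (Constructible.and ?_
      (Constructible.and (Constructible.ne _) (Constructible.eq _ _)))
    exact Constructible.all_lt k fun l _ => Constructible.zero _

theorem coeff_jet (f : MvPolynomial ι ℂ) {k : ℕ} (v : ι × Fin (k + 1) → ℂ) (l : ℕ) :
    (aeval (jet v) f : Polynomial ℂ).coeff l =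
      PowerSeries.coeff l (aeval (toArc (fun _ : ι => k + 1) (fun s => v (s.1, s.2))) f) := by
  have h : (fun i => ((jet v i : Polynomial ℂ) : PowerSeries ℂ)) =
      toArc (fun _ : ι => k + 1) (fun s => v (s.1, s.2)) := funext fun i => JetAux.coe_jet v i
  rw [← Polynomial.coeff_coe, JetAux.coe_aeval, h]

/-- the reindexing -/
def ren (ι : Type) (k : ℕ) : (ι × Fin (k + 1)) ⊕ Unit ≃ Unit ⊕ (Σ _ : ι, Fin (k + 1)) where
  toFun := Sum.elim (fun s => Sum.inr ⟨s.1, s.2⟩) fun _ => Sum.inl ()
  invFun := Sum.elim (fun _ => Sum.inr ()) fun s => Sum.inl (s.1, s.2)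
  left_inv := by rintro (s | s) <;> rfl
  right_inv := by rintro (s | s) <;> rfl

end GJetAux

open GJetAux

theorem stmt_GJet : Stmt_GJet := by
  intro ι _ _ f R _ μ Li hL e
  ext k
  have hcyl := contactS_cyl e f Set.univ Constructible.univ k
  have hvol := vol_eq μ hL hcyl
  have hmem : ∀ z : (ι × Fin (k + 1)) ⊕ Unit → ℂ, z ∈ jetSet f e k ↔
      (fun j => z ((ren ι k).symm j)) ∈ sec (fun _ : ι => k + 1) (contactS e f Set.univ k) := by
    intro z
    simp only [jetSet, sec, contactS, Set.mem_ofPred_eq, coeff_jet, Set.mem_univ, true_and]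
    exact Iff.rfl
  have hcon : Constructible (jetSet f e k) := by
    have : jetSet f e k = {z : (ι × Fin (k + 1)) ⊕ Unit → ℂ |
      (fun j => z ((ren ι k).symm j)) ∈ sec (fun _ : ι => k + 1) (contactS e f Set.univ k)} := by
      ext z
      exact hmem z
    rw [this]
    exact Constructible.comap _ hcyl.2
  have hval : μ.val (jetSet f e k) =
      μ.val (sec (fun _ : ι => k + 1) (contactS e f Set.univ k)) := by
    refine μ.map _ _ (fun j => X ((ren ι k).symm j)) hcon hcyl.2 ⟨?_, ?_, ?_⟩
    · intro z hz
      simp only [eval_X]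
      exact (hmem z).1 hz
    · intro z _ z' _ h
      simp only [eval_X] at h
      funext j
      have := congrFun h (ren ι k j)
      simpa using this
    · intro y hy
      refine ⟨fun j => y (ren ι k j), ?_, ?_⟩
      · rw [hmem]
        simpa using hy
      · funext j
        simp only [eval_X]
        simp
  simp only [zetaSer, ZS, PowerSeries.coeff_mk, PowerSeries.coeff_C_mul]
  rw [hval, hvol]
  simp only [Finset.sum_const, Finset.card_univ, smul_eq_mul]
  have h1 : (μ.L * Li) ^ Fintype.card ι = 1 := by rw [hL, one_pow]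
  have h2 : Fintype.card ι * (k + 1) = k * Fintype.card ι + Fintype.card ι := by ring
  rw [h2, pow_add]
  calc _ = μ.val (sec (fun _ : ι => k + 1) (contactS e f Set.univ k)) *
          Li ^ (k * Fintype.card ι) * (μ.L * Li) ^ Fintype.card ι := by rw [h1, mul_one]
    _ = _ := by rw [mul_pow]; ring

namespace GJetAux

variable {ι : Type} [Fintype ι] [DecidableEq ι]

/-- the reindexing at level 1 -/
def ren1 (ι : Type) : Unit ⊕ (Σ _ : ι, Fin 1) ≃ ι ⊕ Unit where
  toFun := Sum.elim (fun _ => Sum.inr ()) fun s => Sum.inl s.1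
  invFun := Sum.elim (fun i => Sum.inr ⟨i, 0⟩) fun _ => Sum.inl ()
  left_inv := by
    rintro (s | ⟨i, s⟩)
    · rfl
    · have : s = 0 := Subsingleton.elim _ _
      subst this
      rfl
  right_inv := by rintro (s | s) <;> rfl

end GJetAux

theorem stmt_GAdd : Stmt_GAdd := by
  intro ι _ _ f R _ μ Li hL e _
  constructor
  · intro σ _ S hS hd
    ext k
    simp only [ZS, PowerSeries.coeff_mk, map_sum]
    have h1 : contactS e f (⋃ a, S a) k = ⋃ a ∈ (Finset.univ : Finset σ), contactS e f (S a) k := by
      ext z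
      simp only [contactS, Set.mem_ofPred_eq, Set.mem_iUnion, Finset.mem_univ, exists_prop,
        true_and]
      constructor
      · rintro ⟨⟨a, ha⟩, h⟩
        exact ⟨a, ha, h⟩
      · rintro ⟨a, ha, h⟩
        exact ⟨⟨a, ha⟩, h⟩
    rw [h1]
    refine vol_biUnion μ hL Finset.univ (K := fun _ => k + 1)
      (fun a _ => contactS_cyl e f (S a) (hS a) k) fun a _ b _ hab => ?_
    rw [Set.disjoint_left]
    intro z hz hz'
    exact (Set.disjoint_left.1 (hd a b hab)) hz.1 hz'.1
  · intro S hS hf
    ext k
    rw [ZS, PowerSeries.coeff_mk, PowerSeries.coeff_C]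
    have h0 : ∀ z : (Unit → ℂ) × (ι → PowerSeries ℂ), PowerSeries.coeff 0 (aeval z.2 f) =
        eval (fun i => PowerSeries.constantCoeff (z.2 i)) f := by
      intro z
      rw [PowerSeries.coeff_zero_eq_constantCoeff_apply, constantCoeff_aeval]
    rcases Nat.eq_zero_or_pos k with hk | hk
    · subst hk
      rw [if_pos rfl]
      have hcyl := contactS_cyl e f S hS 0
      rw [vol_eq μ hL hcyl]
      have hmem : ∀ x : Unit ⊕ (Σ _ : ι, Fin (0 + 1)) → ℂ,
          x ∈ sec (fun _ : ι => 0 + 1) (contactS e f S 0) ↔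
            (fun j => x ((ren1 ι).symm j)) ∈ cover e S f := by
        intro x
        have h5 : (fun i => PowerSeries.constantCoeff
            (toArc (fun _ : ι => 0 + 1) (fun s => x (Sum.inr s)) i)) =
            fun i => x (Sum.inr ⟨i, 0⟩) := by
          funext i
          rw [← PowerSeries.coeff_zero_eq_constantCoeff_apply, coeff_toArc,
            dif_pos (Nat.succ_pos 0)]
          rfl
        constructor
        · rintro ⟨h1, _, _, h4⟩
          refine ⟨?_, ?_⟩
          · change (fun i => PowerSeries.constantCoeff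
              (toArc (fun _ : ι => 0 + 1) (fun s => x (Sum.inr s)) i)) ∈ S at h1
            rw [h5] at h1
            exact h1
          · change x (Sum.inl ()) ^ e = PowerSeries.coeff 0
              (aeval (toArc (fun _ : ι => 0 + 1) (fun s => x (Sum.inr s))) f) at h4
            rw [h0 (fun _ => 0, toArc (fun _ : ι => 0 + 1) (fun s => x (Sum.inr s)))] at h4
            change x (Sum.inl ()) ^ e = eval (fun i => PowerSeries.constantCoeff
              (toArc (fun _ : ι => 0 + 1) (fun s => x (Sum.inr s)) i)) f at h4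
            rw [h5] at h4
            exact h4
        · rintro ⟨h1, h2⟩
          change (fun i => x (Sum.inr ⟨i, 0⟩)) ∈ S at h1
          change x (Sum.inl ()) ^ e = eval (fun i => x (Sum.inr ⟨i, 0⟩)) f at h2
          rw [← h5] at h1 h2
          refine ⟨h1, fun l hl => absurd hl (Nat.not_lt_zero l), ?_, ?_⟩
          · change PowerSeries.coeff 0
              (aeval (toArc (fun _ : ι => 0 + 1) (fun s => x (Sum.inr s))) f) ≠ 0
            rw [h0 (fun _ => 0, toArc (fun _ : ι => 0 + 1) (fun s => x (Sum.inr s)))]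
            exact hf _ h1
          · change x (Sum.inl ()) ^ e = PowerSeries.coeff 0
              (aeval (toArc (fun _ : ι => 0 + 1) (fun s => x (Sum.inr s))) f)
            rw [h0 (fun _ => 0, toArc (fun _ : ι => 0 + 1) (fun s => x (Sum.inr s)))]
            exact h2
      have hval : μ.val (sec (fun _ : ι => 0 + 1) (contactS e f S 0)) =
          μ.val (cover e S f) := by
        refine μ.map _ _ (fun j => X ((ren1 ι).symm j)) hcyl.2 (Constructible.cover e hS f)
          ⟨?_, ?_, ?_⟩
        · intro z hz
          simp only [eval_X]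
          exact (hmem z).1 hz
        · intro z _ z' _ h
          simp only [eval_X] at h
          funext j
          have := congrFun h (ren1 ι j)
          simpa using this
        · intro y hy
          refine ⟨fun j => y (ren1 ι j), ?_, ?_⟩
          · rw [hmem]
            simpa using hy
          · funext j
            simp only [eval_X]
            simp
      rw [hval]
      simp [mul_comm]
    · rw [if_neg (by omega)]
      have hempty : contactS e f S k = ∅ := by
        ext z
        simp only [Set.mem_empty_iff_false, iff_false]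
        rintro ⟨h1, h2, _, _⟩
        exact hf _ h1 ((h0 z).symm.trans (h2 0 hk))
      rw [hempty, vol_empty μ hL]

end Pool.Agent.Mono
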