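import Pool.Agent.Work.Monodromy.Interface3
import Pool.Agent.Work.Monodromy.Push
import Pool.Agent.Work.Monodromy.YM
import Pool.Agent.Work.Monodromy.GJet

/-!
# Block SI: invariance of zeta functions and Bernstein polynomials under isomorphisms
-/

set_option autoImplicit false
set_option linter.unusedSectionVars false

namespace Pool.Agent.Mono

open MvPolynomial

namespace SIAux

variable {ι κ : Type}

/-- the universal jet -/
noncomputable def ujet (k : ℕ) (i : ι) : Polynomial (MvPolynomial ((ι × Fin (k + 1)) ⊕ Unit) ℂ) :=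
  ∑ l : Fin (k + 1), Polynomial.C (X (Sum.inl (i, l))) * Polynomial.X ^ (l : ℕ)

/-- the coefficient `l` of `f` along the universal jet -/
noncomputable def cJ (k : ℕ) (f : MvPolynomial ι ℂ) (l : ℕ) :
    MvPolynomial ((ι × Fin (k + 1)) ⊕ Unit) ℂ :=
  (aeval (ujet k) f : Polynomial (MvPolynomial ((ι × Fin (k + 1)) ⊕ Unit) ℂ)).coeff l

theorem map_aeval (k : ℕ) (f : MvPolynomial ι ℂ) (z : (ι × Fin (k + 1)) ⊕ Unit → ℂ) :
    Polynomial.map (eval z) (aeval (ujet k) f) =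
      aeval (jet fun s => z (Sum.inl s)) f := by
  induction f using MvPolynomial.induction_on with
  | C a =>
    rw [aeval_C, aeval_C, Polynomial.algebraMap_apply, Polynomial.algebraMap_apply,
      Polynomial.map_C, algebraMap_eq, eval_C]
    rfl
  | add p q hp hq => rw [map_add, map_add, Polynomial.map_add, hp, hq]
  | mul_X p i hp =>
    rw [map_mul, map_mul, Polynomial.map_mul, hp, aeval_X, aeval_X]
    congr 1
    simp [ujet, jet, Polynomial.map_sum]

theorem eval_cJ (k : ℕ) (f : MvPolynomial ι ℂ) (l : ℕ) (z : (ι × Fin (k + 1)) ⊕ Unit → ℂ) :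
    eval z (cJ k f l) = (aeval (jet fun s => z (Sum.inl s)) f : Polynomial ℂ).coeff l := by
  rw [cJ, ← Polynomial.coeff_map, map_aeval]

theorem constructible_jetSet (f : MvPolynomial ι ℂ) (e k : ℕ) :
    Constructible (jetSet f e k) := by
  have h0 : jetSet f e k = {z : (ι × Fin (k + 1)) ⊕ Unit → ℂ |
      (∀ l < k, eval z (cJ k f l) = 0) ∧ eval z (cJ k f k) ≠ 0 ∧
        eval z (X (Sum.inr ()) ^ e) = eval z (cJ k f k)} := by
    ext z
    simp only [jetSet, Set.mem_setOf_eq, eval_cJ, map_pow, eval_X]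
  rw [h0]
  refine Constructible.and ?_ (Constructible.and (Constructible.ne _) (Constructible.eq _ _))
  exact Constructible.all_lt k fun l _ => Constructible.zero _

/-- congruence of polynomial arcs -/
theorem aeval_congr [Fintype ι] (f : MvPolynomial ι ℂ) (n : ℕ) (x y : ι → Polynomial ℂ)
    (h : ∀ i, ∀ l < n, (x i).coeff l = (y i).coeff l) :
    ∀ l < n, (aeval x f : Polynomial ℂ).coeff l = (aeval y f : Polynomial ℂ).coeff l := by
  classical
  intro l hl
  have h1 := GJetAux.aeval_congr f n (fun i => ((x i : Polynomial ℂ) : PowerSeries ℂ))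
    (fun i => ((y i : Polynomial ℂ) : PowerSeries ℂ)) (fun i l hl => by
      rw [Polynomial.coeff_coe, Polynomial.coeff_coe]
      exact h i l hl) l hl
  rwa [← JetAux.coe_aeval, ← JetAux.coe_aeval, Polynomial.coeff_coe, Polynomial.coeff_coe] at h1

theorem coeff_jet' {k : ℕ} (v : ι × Fin (k + 1) → ℂ) (i : ι) (l : Fin (k + 1)) :
    (jet v i).coeff l = v (i, l) := by
  simp only [jet, Polynomial.finset_sum_coeff, Polynomial.coeff_C_mul, Polynomial.coeff_X_pow]
  rw [Finset.sum_eq_single l]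
  · simp
  · intro m _ hm
    have : (l : ℕ) ≠ (m : ℕ) := fun h' => hm (Fin.ext h'.symm)
    simp [this]
  · simp

/-- the polynomial map on jets induced by `α` -/
noncomputable def φJ (α : MvPolynomial ι ℂ →ₐ[ℂ] MvPolynomial κ ℂ) (k : ℕ) :
    (ι × Fin (k + 1)) ⊕ Unit → MvPolynomial ((κ × Fin (k + 1)) ⊕ Unit) ℂ
  | Sum.inl s => cJ k (α (X s.1)) s.2
  | Sum.inr _ => X (Sum.inr ())

/-- the map on jets -/
noncomputable def TJ (α : MvPolynomial ι ℂ →ₐ[ℂ] MvPolynomial κ ℂ) (k : ℕ)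
    (z : (κ × Fin (k + 1)) ⊕ Unit → ℂ) : (ι × Fin (k + 1)) ⊕ Unit → ℂ :=
  fun j => eval z (φJ α k j)

theorem TJ_inl (α : MvPolynomial ι ℂ →ₐ[ℂ] MvPolynomial κ ℂ) (k : ℕ)
    (z : (κ × Fin (k + 1)) ⊕ Unit → ℂ) (s : ι × Fin (k + 1)) :
    TJ α k z (Sum.inl s) =
      (aeval (jet fun s => z (Sum.inl s)) (α (X s.1)) : Polynomial ℂ).coeff s.2 := by
  rw [TJ, φJ, eval_cJ]

theorem TJ_inr (α : MvPolynomial ι ℂ →ₐ[ℂ] MvPolynomial κ ℂ) (k : ℕ)
    (z : (κ × Fin (k + 1)) ⊕ Unit → ℂ) (s : Unit) :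
    TJ α k z (Sum.inr s) = z (Sum.inr ()) := by
  rw [TJ, φJ, eval_X]

theorem aeval_comp_hom (α : MvPolynomial ι ℂ →ₐ[ℂ] MvPolynomial κ ℂ) (x : κ → Polynomial ℂ)
    (f : MvPolynomial ι ℂ) :
    (aeval (fun i => (aeval x (α (X i)) : Polynomial ℂ)) f : Polynomial ℂ) = aeval x (α f) := by
  have h : (aeval (fun i => (aeval x (α (X i)) : Polynomial ℂ)) :
      MvPolynomial ι ℂ →ₐ[ℂ] Polynomial ℂ) = (aeval x).comp α := by
    apply MvPolynomial.algHom_ext
    intro i
    simp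
  rw [h]
  rfl

theorem coeff_TJ [Fintype ι] (α : MvPolynomial ι ℂ →ₐ[ℂ] MvPolynomial κ ℂ) (k : ℕ)
    (z : (κ × Fin (k + 1)) ⊕ Unit → ℂ) (f : MvPolynomial ι ℂ) (l : ℕ) (hl : l < k + 1) :
    (aeval (jet fun s => TJ α k z (Sum.inl s)) f : Polynomial ℂ).coeff l =
      (aeval (jet fun s => z (Sum.inl s)) (α f) : Polynomial ℂ).coeff l := by
  rw [← aeval_comp_hom α]
  refine aeval_congr f (k + 1) _ _ (fun i m hm => ?_) l hl
  have h1 := coeff_jet' (fun s => TJ α k z (Sum.inl s)) i ⟨m, hm⟩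
  rw [TJ_inl] at h1
  exact h1

theorem mem_iff [Fintype ι] (α : MvPolynomial ι ℂ →ₐ[ℂ] MvPolynomial κ ℂ) (e k : ℕ)
    (z : (κ × Fin (k + 1)) ⊕ Unit → ℂ) (f : MvPolynomial ι ℂ) :
    TJ α k z ∈ jetSet f e k ↔ z ∈ jetSet (α f) e k := by
  simp only [jetSet, Set.mem_setOf_eq, TJ_inr]
  rw [coeff_TJ α k z f k (Nat.lt_succ_self k)]
  refine and_congr_left fun _ => ?_
  refine forall_congr' fun l => forall_congr' fun hl => ?_
  rw [coeff_TJ α k z f l (by omega)]

theorem TJ_TJ [Fintype ι] (α : MvPolynomial ι ℂ →ₐ[ℂ] MvPolynomial κ ℂ)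
    (β : MvPolynomial κ ℂ →ₐ[ℂ] MvPolynomial ι ℂ) (h : ∀ p, α (β p) = p) (k : ℕ)
    (z : (κ × Fin (k + 1)) ⊕ Unit → ℂ) : TJ β k (TJ α k z) = z := by
  funext j
  rcases j with s | s
  · rw [TJ_inl, coeff_TJ α k z _ _ s.2.2, h, aeval_X]
    have h1 := coeff_jet' (fun s => z (Sum.inl s)) s.1 s.2
    exact h1
  · rw [TJ_inr, TJ_inr]

/-- conjugation of differential operators -/
theorem bernstein_of [Fintype ι] [Fintype κ] (α : MvPolynomial ι ℂ ≃ₐ[ℂ] MvPolynomial κ ℂ)
    (f : MvPolynomial ι ℂ) (b : Polynomial ℂ) (h : IsBernstein f b) : IsBernstein (α f) b := by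
  obtain ⟨P, hP⟩ := h
  have hC : ∀ c : ℂ, α (C c) = C c := by
    intro c
    rw [← MvPolynomial.algebraMap_eq, AlgEquiv.commutes]
    rfl
  obtain ⟨P', hP'⟩ := exists_wact (ι := κ) (P.natDegree + 1)
    (fun i => ((α.toAlgHom.toLinearMap ∘ₗ (P.coeff i : Module.End ℂ (MvPolynomial ι ℂ)) ∘ₗ
      α.symm.toAlgHom.toLinearMap : MvPolynomial κ ℂ →ₗ[ℂ] MvPolynomial κ ℂ) :
        Module.End ℂ (MvPolynomial κ ℂ)))
    (fun i => retract_mem_Weyl α.symm.toAlgHom α.toAlgHom.toLinearMap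
      (fun g h => by
        change α (α.symm g * h) = g * α h
        rw [map_mul, AlgEquiv.apply_symm_apply]) _ (P.coeff i).2)
  refine ⟨P', fun k => ?_⟩
  have h1 : wact P' k ((α f) ^ (k + 1)) = α (wact P k (f ^ (k + 1))) := by
    rw [hP', wact_eq_sum P k _ _ (Nat.lt_succ_self _), map_sum]
    refine Finset.sum_congr rfl fun i _ => ?_
    rw [map_mul, hC, ← map_pow]
    change C ((k : ℂ) ^ i) * α ((P.coeff i : Module.End ℂ (MvPolynomial ι ℂ))
      (α.symm (α (f ^ (k + 1))))) = _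
    rw [AlgEquiv.symm_apply_apply]
  rw [h1, hP, map_mul, hC, map_pow]

end SIAux

open SIAux

theorem stmt_SI : Stmt_SI := by
  intro ι κ _ _ α f hcard
  refine ⟨?_, ?_⟩
  · intro R _ μ Li e
    ext k
    simp only [zetaSer, PowerSeries.coeff_mk]
    rw [hcard]
    congr 1
    refine μ.val_of_inv (constructible_jetSet (α f) e k) (constructible_jetSet f e k)
      (φJ α.toAlgHom k) (TJ α.symm.toAlgHom k) ?_ ?_ ?_ ?_
    · intro z hz
      exact (mem_iff α.toAlgHom e k z f).2 hz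
    · intro y hy
      refine (mem_iff α.symm.toAlgHom e k y (α f)).2 ?_
      have : (α.symm.toAlgHom (α f)) = f := α.symm_apply_apply f
      rw [this]
      exact hy
    · intro z _
      exact TJ_TJ α.toAlgHom α.symm.toAlgHom (fun p => α.apply_symm_apply p) k z
    · intro y _
      exact TJ_TJ α.symm.toAlgHom α.toAlgHom (fun p => α.symm_apply_apply p) k y
  · intro b
    refine ⟨bernstein_of α f b, fun h => ?_⟩
    have h1 := bernstein_of α.symm (α f) b h
    rwa [α.symm_apply_apply] at h1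

end Pool.Agent.Mono
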