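import Pool.Agent.Work.Monodromy.Interface3

/-!
# Block SR: every polynomial becomes small after adding products of new variables

For every monomial `c x_{i_1} ⋯ x_{i_d}` of `f` there are new variables `u_k`, `v_k` (`0 ≤ k ≤ D`).
With `p_{k+1} = x_{i_{k+1}}` (`1` if `k ≥ d`) and `m_k = p_{k+1} ⋯ p_D` we substitute
`u_0 ↦ u_0 - c`, `u_{k+1} ↦ u_{k+1} - u_k p_{k+1}`, `v_k ↦ v_k + m_k`.
-/

set_option autoImplicit false
set_option linter.unusedSectionVars false

namespace Pool.Agent.Mono

open MvPolynomial

namespace SRAux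

/-- the degree -/
def dg {ι : Type} (a : ι →₀ ℕ) : ℕ := a.sum fun _ k => k

lemma dg_add {ι : Type} (a b : ι →₀ ℕ) : dg (a + b) = dg a + dg b := by
  classical
  exact Finsupp.sum_add_index' (fun _ => rfl) (fun _ _ _ => rfl)

lemma dg_single {ι : Type} (i : ι) (k : ℕ) : dg (Finsupp.single i k) = k :=
  Finsupp.sum_single_index rfl

lemma dg_zero {ι : Type} : dg (0 : ι →₀ ℕ) = 0 := rfl

/-- a sum of different monomials is small -/
lemma small_of_sum {ι σ : Type} [Fintype σ] (e : σ → ι →₀ ℕ) (c : σ → ℂ)
    (h1 : ∀ t i, e t i ≤ 1) (h2 : ∀ t, dg (e t) ≤ 3)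
    (h3 : ∀ t, 2 ≤ dg (e t) → (c t = 1 ∨ c t = -1))
    (h4 : ∀ t t', 2 ≤ dg (e t) → e t = e t' → t = t') :
    Small (∑ t, monomial (e t) (c t)) := by
  classical
  intro a ha
  have hex : ∃ t, e t = a := by
    by_contra hn
    push Not at hn
    rw [mem_support_iff, coeff_sum] at ha
    apply ha
    refine Finset.sum_eq_zero fun t _ => ?_
    rw [coeff_monomial, if_neg (hn t)]
  obtain ⟨t, rfl⟩ := hex
  refine ⟨h1 t, h2 t, fun hd => ?_⟩
  have : (∑ t, monomial (e t) (c t)).coeff (e t) = c t := by
    rw [coeff_sum, Finset.sum_eq_single t]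
    · rw [coeff_monomial, if_pos rfl]
    · intro t' _ ht'
      rw [coeff_monomial, if_neg]
      intro h
      exact ht' (h4 t t' hd h.symm).symm
    · intro h
      exact absurd (Finset.mem_univ t) h
  rw [this]
  exact h3 t hd

lemma small_rename {ι κ : Type} (g : ι → κ) (hg : Function.Injective g) {F : MvPolynomial ι ℂ}
    (h : Small F) : Small (rename g F) := by
  classical
  intro a ha
  rw [support_rename_of_injective hg, Finset.mem_image] at ha
  obtain ⟨b, hb, rfl⟩ := ha
  obtain ⟨h1, h2, h3⟩ := h b hb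
  have hs : ((Finsupp.mapDomain g b).sum fun _ k => k) = b.sum fun _ k => k :=
    Finsupp.sum_mapDomain_index (fun _ => rfl) (fun _ _ _ => rfl)
  refine ⟨fun i => ?_, ?_, fun hd => ?_⟩
  · by_cases hi : i ∈ Set.range g
    · obtain ⟨j, rfl⟩ := hi
      rw [Finsupp.mapDomain_apply hg]
      exact h1 j
    · rw [Finsupp.mapDomain_of_notMem_range _ _ hi]
      exact Nat.zero_le _
  · rw [hs]
    exact h2
  · rw [hs] at hd
    rw [coeff_rename_mapDomain g hg]
    exact h3 hd

lemma drop_prod {B : Type*} [Monoid B] (l : List B) (k : ℕ) :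
    (l.drop k).prod = l.getD k 1 * (l.drop (k + 1)).prod := by
  by_cases hk : k < l.length
  · rw [List.drop_eq_getElem_cons hk, List.prod_cons, List.getD_eq_getElem _ _ hk]
  · push Not at hk
    rw [List.drop_eq_nil_of_le hk, List.drop_eq_nil_of_le (by omega),
      List.getD_eq_default _ _ hk]
    simp

section

variable {n : ℕ} (f : MvPolynomial (Fin n) ℂ) (D : ℕ)

/-- the exponents of `f` -/
abbrev Ex : Type := {a // a ∈ f.support}

/-- all variables -/
abbrev Vr : Type := Fin n ⊕ ((Ex f × Fin (D + 1)) × Bool)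

/-- the variables of a monomial -/
noncomputable def ls (a : Ex f) : List (Fin n) := (Finsupp.toMultiset a.1).toList

/-- the factors -/
noncomputable def PP (a : Ex f) (j : ℕ) : MvPolynomial (Vr f D) ℂ :=
  rename Sum.inl (((ls f a).map X).getD j 1)

/-- the products -/
noncomputable def MM (a : Ex f) (j : ℕ) : MvPolynomial (Vr f D) ℂ :=
  rename Sum.inl (((ls f a).map X).drop j).prod

lemma MM_succ (a : Ex f) (j : ℕ) : MM f D a j = PP f D a j * MM f D a (j + 1) := by
  unfold MM PP
  rw [drop_prod, map_mul]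

lemma MM_zero (a : Ex f) : MM f D a 0 = rename Sum.inl (monomial a.1 1) := by
  unfold MM
  congr 1
  rw [List.drop_zero]
  have h1 : ((ls f a).map (X : Fin n → MvPolynomial (Fin n) ℂ)).prod =
      ((Finsupp.toMultiset a.1).map X).prod := by
    rw [← Multiset.prod_coe, ← Multiset.map_coe]
    unfold ls
    rw [Multiset.coe_toList]
  rw [h1, Finsupp.toMultiset_map, Finsupp.prod_toMultiset, monomial_eq, C_1, one_mul,
    Finsupp.prod_mapDomain_index (fun _ => pow_zero _) (fun _ _ _ => pow_add _ _ _)]

lemma MM_top (a : Ex f) (h : (ls f a).length ≤ D) : MM f D a D = 1 := by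
  unfold MM
  rw [List.drop_eq_nil_of_le (by simpa using h), List.prod_nil, map_one]

variable {f D} in
/-- the variables `u` -/
noncomputable def uu (a : Ex f) (k : Fin (D + 1)) : MvPolynomial (Vr f D) ℂ :=
  X (Sum.inr ((a, k), true))

variable {f D} in
/-- the variables `v` -/
noncomputable def vv (a : Ex f) (k : Fin (D + 1)) : MvPolynomial (Vr f D) ℂ :=
  X (Sum.inr ((a, k), false))

/-- the shifts of the `u` -/
noncomputable def ww (a : Ex f) : Fin (D + 1) → MvPolynomial (Vr f D) ℂ :=
  Fin.cases (C (f.coeff a.1)) (fun k => uu a k.castSucc * PP f D a k)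

lemma ww_zero (a : Ex f) : ww f D a 0 = C (f.coeff a.1) := rfl

lemma ww_succ (a : Ex f) (k : Fin D) :
    ww f D a k.succ = uu a k.castSucc * PP f D a k := rfl

/-- the inverse substitution of the `u` -/
noncomputable def psi (a : Ex f) : Fin (D + 1) → MvPolynomial (Vr f D) ℂ :=
  Fin.induction (uu a 0 + C (f.coeff a.1)) (fun k ih => uu a k.succ + ih * PP f D a k)

lemma psi_zero (a : Ex f) : psi f D a 0 = uu a 0 + C (f.coeff a.1) := rfl

lemma psi_succ (a : Ex f) (k : Fin D) :
    psi f D a k.succ = uu a k.succ + psi f D a k.castSucc * PP f D a k :=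
  Fin.induction_succ _ _ k

/-- the substitution -/
noncomputable def fwd : Vr f D → MvPolynomial (Vr f D) ℂ
  | Sum.inl i => X (Sum.inl i)
  | Sum.inr (t, true) => uu t.1 t.2 - ww f D t.1 t.2
  | Sum.inr (t, false) => vv t.1 t.2 + MM f D t.1 t.2

/-- the inverse substitution -/
noncomputable def bwd : Vr f D → MvPolynomial (Vr f D) ℂ
  | Sum.inl i => X (Sum.inl i)
  | Sum.inr (t, true) => psi f D t.1 t.2
  | Sum.inr (t, false) => vv t.1 t.2 - MM f D t.1 t.2

lemma fwd_u (a : Ex f) (k : Fin (D + 1)) : aeval (fwd f D) (uu a k) = uu a k - ww f D a k := by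
  unfold uu
  rw [aeval_X]
  rfl

lemma fwd_v (a : Ex f) (k : Fin (D + 1)) : aeval (fwd f D) (vv a k) = vv a k + MM f D a k := by
  unfold vv
  rw [aeval_X]
  rfl

lemma bwd_u (a : Ex f) (k : Fin (D + 1)) : aeval (bwd f D) (uu a k) = psi f D a k := by
  unfold uu
  rw [aeval_X]
  rfl

lemma bwd_v (a : Ex f) (k : Fin (D + 1)) : aeval (bwd f D) (vv a k) = vv a k - MM f D a k := by
  unfold vv
  rw [aeval_X]
  rfl

lemma fwd_rename (q : MvPolynomial (Fin n) ℂ) :
    aeval (fwd f D) (rename Sum.inl q) = rename Sum.inl q := by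
  have h : (aeval (fwd f D ∘ Sum.inl) : MvPolynomial (Fin n) ℂ →ₐ[ℂ] MvPolynomial (Vr f D) ℂ) =
      rename Sum.inl := by
    apply algHom_ext
    intro i
    rw [aeval_X, rename_X]
    rfl
  rw [aeval_rename, h]

lemma bwd_rename (q : MvPolynomial (Fin n) ℂ) :
    aeval (bwd f D) (rename Sum.inl q) = rename Sum.inl q := by
  have h : (aeval (bwd f D ∘ Sum.inl) : MvPolynomial (Fin n) ℂ →ₐ[ℂ] MvPolynomial (Vr f D) ℂ) =
      rename Sum.inl := by
    apply algHom_ext
    intro i
    rw [aeval_X, rename_X]
    rfl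
  rw [aeval_rename, h]

lemma fwd_psi (a : Ex f) (k : Fin (D + 1)) : aeval (fwd f D) (psi f D a k) = uu a k := by
  induction k using Fin.induction with
  | zero =>
    rw [psi_zero, map_add, fwd_u, ww_zero, aeval_C, algebraMap_eq]
    ring
  | succ k ih =>
    rw [psi_succ, map_add, map_mul, ih, fwd_u, ww_succ]
    unfold PP
    rw [fwd_rename]
    ring

lemma bwd_uw (a : Ex f) (k : Fin (D + 1)) :
    aeval (bwd f D) (uu a k - ww f D a k) = uu a k := by
  induction k using Fin.cases with
  | zero =>
    rw [map_sub, ww_zero, bwd_u, psi_zero, aeval_C, algebraMap_eq]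
    ring
  | succ k =>
    rw [map_sub, ww_succ, map_mul, bwd_u, bwd_u, psi_succ]
    unfold PP
    rw [bwd_rename]
    ring

/-- the automorphism -/
noncomputable def phi : MvPolynomial (Vr f D) ℂ ≃ₐ[ℂ] MvPolynomial (Vr f D) ℂ :=
  AlgEquiv.ofAlgHom (aeval (fwd f D)) (aeval (bwd f D))
    (by
      apply algHom_ext
      rintro (i | ⟨⟨a, k⟩, b⟩)
      · rw [AlgHom.comp_apply, aeval_X, AlgHom.id_apply]
        change aeval (fwd f D) (X (Sum.inl i)) = _
        rw [aeval_X]
        rfl
      · rw [AlgHom.comp_apply, AlgHom.id_apply]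
        cases b
        · change aeval (fwd f D) (aeval (bwd f D) (vv a k)) = vv a k
          rw [bwd_v, map_sub, fwd_v]
          unfold MM
          rw [fwd_rename]
          ring
        · change aeval (fwd f D) (aeval (bwd f D) (uu a k)) = uu a k
          rw [bwd_u, fwd_psi])
    (by
      apply algHom_ext
      rintro (i | ⟨⟨a, k⟩, b⟩)
      · rw [AlgHom.comp_apply, aeval_X, AlgHom.id_apply]
        change aeval (bwd f D) (X (Sum.inl i)) = _
        rw [aeval_X]
        rfl
      · rw [AlgHom.comp_apply, AlgHom.id_apply]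
        cases b
        · change aeval (bwd f D) (aeval (fwd f D) (vv a k)) = vv a k
          rw [fwd_v, map_add, bwd_v]
          unfold MM
          rw [bwd_rename]
          ring
        · change aeval (bwd f D) (aeval (fwd f D) (uu a k)) = uu a k
          rw [fwd_u, bwd_uw])

lemma phi_apply (q : MvPolynomial (Vr f D) ℂ) : phi f D q = aeval (fwd f D) q := rfl

/-- `f` with all products of new variables -/
noncomputable def susT : MvPolynomial (Vr f D) ℂ :=
  rename Sum.inl f + ∑ t : Ex f × Fin (D + 1), uu t.1 t.2 * vv t.1 t.2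

lemma rename_f : rename Sum.inl f = ∑ a : Ex f, C (f.coeff a.1) * MM f D a 0 := by
  have h1 : f = ∑ a : Ex f, monomial a.1 (f.coeff a.1) := by
    conv_lhs => rw [f.as_sum]
    exact (Finset.sum_coe_sort f.support (fun a => monomial a (f.coeff a))).symm
  refine (congrArg (rename (Sum.inl : Fin n → Vr f D)) h1).trans ?_
  rw [map_sum]
  refine Finset.sum_congr rfl fun a _ => ?_
  rw [MM_zero, ← algebraMap_eq, ← AlgHom.commutes (rename Sum.inl : MvPolynomial (Fin n) ℂ →ₐ[ℂ]
    MvPolynomial (Vr f D) ℂ), ← map_mul, algebraMap_eq, C_mul_monomial, mul_one]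

lemma telescope (h : ∀ a : Ex f, (ls f a).length ≤ D) (a : Ex f) :
    C (f.coeff a.1) * MM f D a 0 +
      ∑ k : Fin (D + 1), (uu a k - ww f D a k) * (vv a k + MM f D a k) =
    ∑ k : Fin (D + 1), (uu a k * vv a k - ww f D a k * vv a k) + uu a (Fin.last D) := by
  have h1 : ∑ k : Fin (D + 1), (uu a k - ww f D a k) * (vv a k + MM f D a k) =
      ∑ k : Fin (D + 1), (uu a k * vv a k - ww f D a k * vv a k) +
        (∑ k : Fin (D + 1), uu a k * MM f D a k - ∑ k : Fin (D + 1), ww f D a k * MM f D a k) := by
    rw [← Finset.sum_sub_distrib, ← Finset.sum_add_distrib]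
    refine Finset.sum_congr rfl fun k _ => ?_
    ring
  have h2 : ∑ k : Fin (D + 1), uu a k * MM f D a k =
      ∑ k : Fin D, uu a k.castSucc * MM f D a k + uu a (Fin.last D) := by
    rw [Fin.sum_univ_castSucc]
    simp only [Fin.val_castSucc, Fin.val_last]
    rw [MM_top f D a (h a), mul_one]
  have h3 : ∑ k : Fin (D + 1), ww f D a k * MM f D a k =
      C (f.coeff a.1) * MM f D a 0 + ∑ k : Fin D, uu a k.castSucc * MM f D a k := by
    rw [Fin.sum_univ_succ, ww_zero]
    congr 1
    refine Finset.sum_congr rfl fun k _ => ?_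
    rw [ww_succ, MM_succ f D a k, Fin.val_succ]
    ring
  rw [h1, h2, h3]
  ring

lemma phi_susT (h : ∀ a : Ex f, (ls f a).length ≤ D) :
    phi f D (susT f D) = ∑ a : Ex f, (∑ k : Fin (D + 1),
      (uu a k * vv a k - ww f D a k * vv a k) + uu a (Fin.last D)) := by
  rw [phi_apply]
  unfold susT
  rw [map_add, fwd_rename, map_sum, rename_f, Fintype.sum_prod_type, ← Finset.sum_add_distrib]
  refine Finset.sum_congr rfl fun a _ => ?_
  rw [← telescope f D h a]
  congr 1
  refine Finset.sum_congr rfl fun k _ => ?_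
  rw [map_mul, fwd_u, fwd_v]

/-- exponents of the factors -/
noncomputable def pe (a : Ex f) (j : ℕ) : Vr f D →₀ ℕ :=
  ((ls f a).map fun i => Finsupp.single (Sum.inl i) 1).getD j 0

lemma pe_cases (a : Ex f) (j : ℕ) :
    pe f D a j = 0 ∨ ∃ i, pe f D a j = Finsupp.single (Sum.inl i) 1 := by
  unfold pe
  by_cases hj : j < ((ls f a).map fun i =>
      (Finsupp.single (Sum.inl i) 1 : Vr f D →₀ ℕ)).length
  · right
    rw [List.getD_eq_getElem _ _ hj, List.getElem_map]
    exact ⟨_, rfl⟩
  · left
    exact List.getD_eq_default _ _ (not_lt.1 hj)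

lemma PP_eq (a : Ex f) (j : ℕ) : PP f D a j = monomial (pe f D a j) 1 := by
  unfold PP pe
  by_cases hj : j < (ls f a).length
  · rw [List.getD_eq_getElem _ _ (by simpa using hj), List.getD_eq_getElem _ _ (by simpa using hj),
      List.getElem_map, List.getElem_map, rename_X]
    rfl
  · rw [List.getD_eq_default _ _ (by simpa using hj), List.getD_eq_default _ _ (by simpa using hj),
      map_one]
    rfl

/-- exponents of the shifts -/
noncomputable def we (a : Ex f) : Fin (D + 1) → (Vr f D →₀ ℕ) :=
  Fin.cases 0 (fun k => Finsupp.single (Sum.inr ((a, k.castSucc), true)) 1 + pe f D a k)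

/-- coefficients of the shifts -/
noncomputable def wc (a : Ex f) : Fin (D + 1) → ℂ :=
  Fin.cases (f.coeff a.1) (fun _ => 1)

lemma ww_eq (a : Ex f) (k : Fin (D + 1)) : ww f D a k = monomial (we f D a k) (wc f D a k) := by
  induction k using Fin.cases with
  | zero => rfl
  | succ k =>
    rw [ww_succ, PP_eq]
    unfold uu
    change monomial (Finsupp.single (Sum.inr ((a, k.castSucc), true)) 1) 1 *
      monomial (pe f D a k) 1 = monomial (Finsupp.single (Sum.inr ((a, k.castSucc), true)) 1 +
        pe f D a k) 1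
    rw [monomial_mul, one_mul]

/-- exponents of the terms -/
noncomputable def et : (Ex f × Fin (D + 1)) × Bool ⊕ Ex f → (Vr f D →₀ ℕ)
  | Sum.inl (t, true) => Finsupp.single (Sum.inr (t, true)) 1 + Finsupp.single (Sum.inr (t, false)) 1
  | Sum.inl (t, false) => we f D t.1 t.2 + Finsupp.single (Sum.inr (t, false)) 1
  | Sum.inr a => Finsupp.single (Sum.inr ((a, Fin.last D), true)) 1

/-- coefficients of the terms -/
noncomputable def ct : (Ex f × Fin (D + 1)) × Bool ⊕ Ex f → ℂ
  | Sum.inl (_, true) => 1
  | Sum.inl (t, false) => - wc f D t.1 t.2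
  | Sum.inr _ => 1

lemma phi_susT' (h : ∀ a : Ex f, (ls f a).length ≤ D) :
    phi f D (susT f D) = ∑ t, monomial (et f D t) (ct f D t) := by
  rw [phi_susT f D h, Fintype.sum_sum_type, Finset.sum_add_distrib]
  congr 1
  rw [Fintype.sum_prod_type, Fintype.sum_prod_type]
  refine Finset.sum_congr rfl fun a _ => Finset.sum_congr rfl fun k _ => ?_
  rw [Fintype.sum_bool, sub_eq_add_neg]
  congr 1
  · unfold uu vv
    change monomial _ 1 * monomial _ 1 = monomial _ 1
    rw [monomial_mul, one_mul]
    rfl
  · rw [ww_eq]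
    unfold vv
    change -(monomial _ _ * monomial _ 1) = monomial (we f D a k + _) (-wc f D a k)
    rw [monomial_mul, mul_one, map_neg]

lemma pe_apply_inr (a : Ex f) (j : ℕ) (t : (Ex f × Fin (D + 1)) × Bool) :
    pe f D a j (Sum.inr t) = 0 := by
  rcases pe_cases f D a j with h | ⟨i, h⟩
  · rw [h]
    rfl
  · rw [h, Finsupp.single_apply, if_neg (by simp)]

lemma pe_le (a : Ex f) (j : ℕ) (i : Vr f D) : pe f D a j i ≤ 1 := by
  classical
  rcases pe_cases f D a j with h | ⟨i', h⟩
  · rw [h]
    exact Nat.zero_le _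
  · rw [h, Finsupp.single_apply]
    split_ifs <;> omega

lemma dg_pe (a : Ex f) (j : ℕ) : dg (pe f D a j) ≤ 1 := by
  rcases pe_cases f D a j with h | ⟨i', h⟩
  · rw [h, dg_zero]
    exact Nat.zero_le _
  · rw [h, dg_single]

lemma we_le (a : Ex f) (k : Fin (D + 1)) (i : Vr f D) : we f D a k i ≤ 1 := by
  classical
  induction k using Fin.cases with
  | zero => exact Nat.zero_le _
  | succ k =>
    change (Finsupp.single (Sum.inr ((a, k.castSucc), true)) 1 + pe f D a k : Vr f D →₀ ℕ) i ≤ 1
    rw [Finsupp.add_apply, Finsupp.single_apply]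
    rcases i with i | t
    · rw [if_neg (by simp), zero_add]
      exact pe_le f D a k _
    · rw [pe_apply_inr, add_zero]
      split_ifs <;> omega

lemma we_apply_false (a : Ex f) (k : Fin (D + 1)) (t : Ex f × Fin (D + 1)) :
    we f D a k (Sum.inr (t, false)) = 0 := by
  classical
  induction k using Fin.cases with
  | zero => rfl
  | succ k =>
    change (Finsupp.single (Sum.inr ((a, k.castSucc), true)) 1 + pe f D a k : Vr f D →₀ ℕ) _ = 0
    rw [Finsupp.add_apply, pe_apply_inr, Finsupp.single_apply, if_neg (by simp)]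

lemma we_apply_self (a : Ex f) (k : Fin (D + 1)) :
    we f D a k (Sum.inr ((a, k), true)) = 0 := by
  classical
  induction k using Fin.cases with
  | zero => rfl
  | succ k =>
    change (Finsupp.single (Sum.inr ((a, k.castSucc), true)) 1 + pe f D a k : Vr f D →₀ ℕ) _ = 0
    rw [Finsupp.add_apply, pe_apply_inr, Finsupp.single_apply, if_neg]
    intro h
    have h1 : k.castSucc = k.succ := by
      have h2 := Sum.inr.inj h
      exact (Prod.mk.inj (Prod.mk.inj h2).1).2
    exact absurd (congrArg Fin.val h1) (by simp)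

lemma dg_we (a : Ex f) (k : Fin (D + 1)) : dg (we f D a k) ≤ 2 := by
  induction k using Fin.cases with
  | zero =>
    change dg (0 : Vr f D →₀ ℕ) ≤ 2
    rw [dg_zero]
    exact Nat.zero_le _
  | succ k =>
    change dg (Finsupp.single (Sum.inr ((a, k.castSucc), true)) 1 + pe f D a k : Vr f D →₀ ℕ) ≤ 2
    rw [dg_add, dg_single]
    have := dg_pe f D a k
    omega

/-- the transformed polynomial is small -/
lemma small_phi (h : ∀ a : Ex f, (ls f a).length ≤ D) : Small (phi f D (susT f D)) := by
  classical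
  rw [phi_susT' f D h]
  have key : ∀ (t : Ex f × Fin (D + 1)) (b : Bool) (t' : Ex f × Fin (D + 1)),
      et f D (Sum.inl (t, b)) (Sum.inr (t', false)) = if t = t' then 1 else 0 := by
    intro t b t'
    have h1 : (Finsupp.single (Sum.inr (t, false)) 1 : Vr f D →₀ ℕ) (Sum.inr (t', false)) =
        if t = t' then 1 else 0 := by
      rw [Finsupp.single_apply]
      by_cases htt : t = t'
      · rw [if_pos htt, if_pos (by rw [htt])]
      · rw [if_neg htt, if_neg]
        intro hh
        exact htt (Prod.mk.inj (Sum.inr.inj hh)).1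
    cases b
    · change (we f D t.1 t.2 + Finsupp.single (Sum.inr (t, false)) 1 : Vr f D →₀ ℕ) _ = _
      rw [Finsupp.add_apply, we_apply_false, zero_add, h1]
    · change (Finsupp.single (Sum.inr (t, true)) 1 + Finsupp.single (Sum.inr (t, false)) 1 :
        Vr f D →₀ ℕ) _ = _
      rw [Finsupp.add_apply, h1, Finsupp.single_apply, if_neg (by simp), zero_add]
  refine small_of_sum (et f D) (ct f D) ?_ ?_ ?_ ?_
  · rintro (⟨t, b⟩ | a) i
    · cases b
      · change (we f D t.1 t.2 + Finsupp.single (Sum.inr (t, false)) 1 : Vr f D →₀ ℕ) i ≤ 1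
        rw [Finsupp.add_apply, Finsupp.single_apply]
        split_ifs with hi
        · rw [← hi, we_apply_false]
        · rw [add_zero]
          exact we_le f D _ _ _
      · change (Finsupp.single (Sum.inr (t, true)) 1 + Finsupp.single (Sum.inr (t, false)) 1 :
          Vr f D →₀ ℕ) i ≤ 1
        rw [Finsupp.add_apply, Finsupp.single_apply, Finsupp.single_apply]
        by_cases h1 : (Sum.inr (t, true) : Vr f D) = i
        · have h3 : ¬ (Sum.inr (t, false) : Vr f D) = i := by
            intro h2
            rw [← h1] at h2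
            simp at h2
          rw [if_pos h1, if_neg h3, add_zero]
        · rw [if_neg h1]
          split_ifs <;> omega
    · change (Finsupp.single (Sum.inr ((a, Fin.last D), true)) 1 : Vr f D →₀ ℕ) i ≤ 1
      rw [Finsupp.single_apply]
      split_ifs <;> omega
  · rintro (⟨t, b⟩ | a)
    · cases b
      · change dg (we f D t.1 t.2 + Finsupp.single (Sum.inr (t, false)) 1 : Vr f D →₀ ℕ) ≤ 3
        rw [dg_add, dg_single]
        have := dg_we f D t.1 t.2
        omega
      · change dg (Finsupp.single (Sum.inr (t, true)) 1 +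
          Finsupp.single (Sum.inr (t, false)) 1 : Vr f D →₀ ℕ) ≤ 3
        rw [dg_add, dg_single, dg_single]
        omega
    · change dg (Finsupp.single (Sum.inr ((a, Fin.last D), true)) 1 : Vr f D →₀ ℕ) ≤ 3
      rw [dg_single]
      omega
  · rintro (⟨⟨a, k⟩, b⟩ | a) hd
    · cases b
      · induction k using Fin.cases with
        | zero =>
          exfalso
          have h1 : dg (et f D (Sum.inl ((a, 0), false))) = 1 := by
            change dg ((0 : Vr f D →₀ ℕ) + Finsupp.single (Sum.inr ((a, 0), false)) 1) = 1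
            rw [zero_add, dg_single]
          omega
        | succ k => exact Or.inr rfl
      · exact Or.inl rfl
    · exact Or.inl rfl
  · rintro (⟨t, b⟩ | a) (⟨t', b'⟩ | a') hd he
    · have h1 : t = t' := by
        have h2 := DFunLike.congr_fun he (Sum.inr (t', false))
        rw [key, key, if_pos rfl] at h2
        by_contra hne
        rw [if_neg hne] at h2
        exact zero_ne_one h2
      subst h1
      have h3 := DFunLike.congr_fun he (Sum.inr (t, true))
      have htrue : et f D (Sum.inl (t, true)) (Sum.inr (t, true)) = 1 := by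
        change (Finsupp.single (Sum.inr (t, true)) 1 + Finsupp.single (Sum.inr (t, false)) 1 :
          Vr f D →₀ ℕ) _ = _
        rw [Finsupp.add_apply, Finsupp.single_eq_same, Finsupp.single_apply, if_neg (by simp),
          add_zero]
      have hfalse : et f D (Sum.inl (t, false)) (Sum.inr (t, true)) = 0 := by
        change (we f D t.1 t.2 + Finsupp.single (Sum.inr (t, false)) 1 : Vr f D →₀ ℕ) _ = _
        rw [Finsupp.add_apply, Finsupp.single_apply, if_neg (by simp), add_zero]
        exact we_apply_self f D t.1 t.2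
      cases b <;> cases b'
      · rfl
      · rw [htrue, hfalse] at h3
        exact absurd h3 zero_ne_one
      · rw [htrue, hfalse] at h3
        exact absurd h3 one_ne_zero
      · rfl
    · exfalso
      rw [he] at hd
      change 2 ≤ dg (Finsupp.single (Sum.inr ((a', Fin.last D), true)) 1 : Vr f D →₀ ℕ) at hd
      rw [dg_single] at hd
      omega
    · exfalso
      change 2 ≤ dg (Finsupp.single (Sum.inr ((a, Fin.last D), true)) 1 : Vr f D →₀ ℕ) at hd
      rw [dg_single] at hd
      omega
    · exfalso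
      change 2 ≤ dg (Finsupp.single (Sum.inr ((a, Fin.last D), true)) 1 : Vr f D →₀ ℕ) at hd
      rw [dg_single] at hd
      omega

end

end SRAux

open SRAux in
theorem stmt_SR : Stmt_SR := by
  intro n f
  classical
  set D : ℕ := ∑ a : Ex f, (ls f a).length with hD
  have hlen : ∀ a : Ex f, (ls f a).length ≤ D := fun a =>
    Finset.single_le_sum (f := fun a : Ex f => (ls f a).length) (fun _ _ => Nat.zero_le _)
      (Finset.mem_univ a)
  set N : ℕ := Fintype.card (Ex f × Fin (D + 1)) with hN
  have e : Ex f × Fin (D + 1) ≃ Fin N := Fintype.equivFin _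
  have E : Vr f D ≃ Fin (n + 2 * N) := Fintype.equivFinOfCardEq (by
    rw [Fintype.card_sum, Fintype.card_prod, Fintype.card_bool, Fintype.card_fin, ← hN]
    ring)
  refine ⟨N, (renameEquiv ℂ (Equiv.sumCongr (Equiv.refl (Fin n))
    (Equiv.prodCongr e.symm (Equiv.refl Bool)))).trans ((phi f D).trans (renameEquiv ℂ E)), ?_⟩
  have h1 : renameEquiv ℂ (Equiv.sumCongr (Equiv.refl (Fin n))
      (Equiv.prodCongr e.symm (Equiv.refl Bool))) (susN N f) = susT f D := by
    unfold susN susT
    rw [map_add, map_sum]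
    congr 1
    · rw [renameEquiv_apply, rename_rename]
      rfl
    · rw [← Equiv.sum_comp e.symm]
      refine Finset.sum_congr rfl fun k _ => ?_
      rw [map_mul, renameEquiv_apply, renameEquiv_apply, rename_X, rename_X]
      rfl
  rw [AlgEquiv.trans_apply, AlgEquiv.trans_apply, h1, renameEquiv_apply]
  exact small_rename _ E.injective (small_phi f D hlen)

end Pool.Agent.Mono
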