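import Pool.Agent.Work.Monodromy.Interface3
import Pool.Agent.Work.Monodromy.EB1

/-!
# `-1` is a root of the Bernstein polynomial of a non-constant polynomial
-/

namespace Pool.Agent.Mono

open MvPolynomial

theorem isEvBernstein_of {ι : Type} {f : MvPolynomial ι ℂ} {b : Polynomial ℂ}
    (h : IsBernstein f b) : IsEvBernstein f b := by
  obtain ⟨P, hP⟩ := h
  exact ⟨P, Filter.Eventually.of_forall hP⟩

theorem SMAux.gen_sub {ι : Type} (f : MvPolynomial ι ℂ) (hf : f ≠ 0) (m : ℕ) :
    ∀ x ∈ gen ℂ (fun _ : Unit => f) (fun _ => (-1 : ℂ)) (toF ℂ f) m,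
      ∃ q : MvPolynomial ι ℂ, x = toF ℂ (f * q) := by
  let S : Submodule ℂ (FF ℂ ι) :=
    { carrier := {x | ∃ q : MvPolynomial ι ℂ, x = toF ℂ (f * q)}
      add_mem' := by
        rintro _ _ ⟨q, rfl⟩ ⟨q', rfl⟩
        exact ⟨q + q', by rw [mul_add, EB1.toF_add]⟩
      zero_mem' := ⟨0, by rw [mul_zero]; exact (map_zero _).symm⟩
      smul_mem' := by
        rintro c _ ⟨q, rfl⟩
        exact ⟨c • q, by rw [← EB1.toF_smul, mul_smul_comm]⟩ }
  have key : gen ℂ (fun _ : Unit => f) (fun _ => (-1 : ℂ)) (toF ℂ f) m ≤ S := by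
    induction m with
    | zero =>
        refine Submodule.span_le.mpr ?_
        rintro _ ⟨q, rfl⟩
        refine ⟨q, ?_⟩
        rw [EB1.toF_mul, mul_comm]
    | succ m ih =>
        apply sup_le ih
        apply iSup_le
        intro i
        rintro _ ⟨y, hy, rfl⟩
        obtain ⟨q, rfl⟩ := ih hy
        refine ⟨pderiv i q, ?_⟩
        have hf' := EB1.toF_ne hf
        have hm1 : toF ℂ (C (-1) : MvPolynomial ι ℂ) = -1 := by
          rw [EB1.toF_C, map_neg, map_one]
        simp only [theta, LinearMap.add_apply, Derivation.coeFn_coe, LinearMap.mulLeft_apply,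
          dF_toF, Derivation.leibniz, Finset.univ_unique, Finset.sum_singleton, smul_eq_mul,
          EB1.toF_mul, EB1.toF_add, hm1]
        field_simp
        ring
  exact fun x hx => key hx

theorem stmt_SM : Stmt_SM := by
  intro ι _ _ f b hd hb
  have hf : f ≠ 0 := by
    rintro rfl
    simp at hd
  obtain ⟨m, hm⟩ := stmt_EB1 ι f b hf (isEvBernstein_of hb) (-1)
  obtain ⟨q, hq⟩ := SMAux.gen_sub f hf m _ hm
  by_contra hne
  have h1 : C (b.eval (-1)) = f * q := by
    apply IsFractionRing.injective (MvPolynomial ι ℂ) (FF ℂ ι)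
    exact hq
  have hq0 : q ≠ 0 := by
    rintro rfl
    rw [mul_zero, map_eq_zero_iff _ (MvPolynomial.C_injective ι ℂ)] at h1
    exact hne h1
  have h2 := congrArg MvPolynomial.totalDegree h1
  rw [MvPolynomial.totalDegree_C, MvPolynomial.totalDegree_mul_of_isDomain hf hq0] at h2
  omega

end Pool.Agent.Mono
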