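import Pool.Agent.Work.Monodromy.SB
import Pool.Agent.Work.Monodromy.SM

/-!
# Eigenvalues of `f + uv` are eigenvalues of `f`
-/

namespace Pool.Agent.Mono

open MvPolynomial

theorem stmt_SE : Stmt_SE := by
  intro ι _ _ f l hd h
  obtain ⟨s, hs, rfl⟩ := h
  by_cases h1 : s = -1
  · refine ⟨-1, fun b hb => stmt_SM ι f b hd hb, ?_⟩
    rw [h1]
  · refine ⟨s + 1, fun b hb => ?_, ?_⟩
    · have h2 := hs _ (stmt_SB ι f b hb)
      rw [Polynomial.eval_mul, Polynomial.eval_comp] at h2
      simp only [Polynomial.eval_add, Polynomial.eval_X, Polynomial.eval_one] at h2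
      rcases mul_eq_zero.1 h2 with h3 | h3
      · exact absurd (eq_neg_of_add_eq_zero_left h3) h1
      · exact h3
    · rw [mul_add, mul_one, Complex.exp_add, Complex.exp_two_pi_mul_I, mul_one]

end Pool.Agent.Mono
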