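import Pool.Agent.Work.Monodromy.SP
import Pool.Agent.Work.Monodromy.Spec

/-!
# Block SL: the limits for `f + uv`
-/

namespace Pool.Agent.Mono

namespace SLAux

/-! ### Limits under `T ↦ T / u` -/

theorem denom_dvd_of_eq_div {R : RatFunc ℚ} {p q : Polynomial ℚ}
    (h : R = algebraMap (Polynomial ℚ) (RatFunc ℚ) p / algebraMap (Polynomial ℚ) (RatFunc ℚ) q) :
    R.denom ∣ q := by
  rw [h]; exact RatFunc.denom_div_dvd p q

theorem eval_of_eq_div {R : RatFunc ℚ} {p q : Polynomial ℚ} {s : ℚ} (hq : q.eval s ≠ 0)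
    (h : R = algebraMap (Polynomial ℚ) (RatFunc ℚ) p / algebraMap (Polynomial ℚ) (RatFunc ℚ) q) :
    R.denom.eval s ≠ 0 ∧ R.eval (RingHom.id ℚ) s = p.eval s / q.eval s := by
  have hq0 : q ≠ 0 := by rintro rfl; simp at hq
  have hd : R.denom.eval s ≠ 0 := by
    obtain ⟨r, hr⟩ := denom_dvd_of_eq_div h
    intro h0
    apply hq
    rw [hr, Polynomial.eval_mul, h0, zero_mul]
  refine ⟨hd, ?_⟩
  have hn : RatFunc.num R * q = p * RatFunc.denom R := by
    rw [h, RatFunc.num_mul_eq_mul_denom_iff hq0]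
  have h3 := congrArg (Polynomial.eval s) hn
  rw [Polynomial.eval_mul, Polynomial.eval_mul] at h3
  rw [RatFunc.eval, Polynomial.eval₂_id, Polynomial.eval₂_id, div_eq_div_iff hd hq, h3]

/-- `p(T) ↦ p(c T)` -/
noncomputable def sc (c : RatFunc ℚ) (p : Polynomial (RatFunc ℚ)) : Polynomial (RatFunc ℚ) :=
  p.comp (Polynomial.C c * Polynomial.X)

theorem coe_sc (c : RatFunc ℚ) (p : Polynomial (RatFunc ℚ)) :
    ((sc c p : Polynomial (RatFunc ℚ)) : PowerSeries (RatFunc ℚ)) =
      PowerSeries.rescale c (p : PowerSeries (RatFunc ℚ)) := by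
  ext n
  rw [PowerSeries.coeff_rescale, Polynomial.coeff_coe, Polynomial.coeff_coe, sc,
    Polynomial.comp_C_mul_X_coeff, mul_comm]

theorem eval_sc (c x : RatFunc ℚ) (p : Polynomial (RatFunc ℚ)) : (sc c p).eval x = p.eval (c * x) := by
  rw [sc, Polynomial.eval_comp]; simp

theorem IsLim_shift {Z : PowerSeries (RatFunc ℚ)} {R : RatFunc ℚ} (h : IsLim Z R) :
    IsLim (PowerSeries.rescale (RatFunc.X : RatFunc ℚ)⁻¹ Z) (shR R) := by
  obtain ⟨num, den, h0, h1, h2⟩ := h
  refine ⟨sc (RatFunc.X : RatFunc ℚ)⁻¹ num, sc (RatFunc.X : RatFunc ℚ)⁻¹ den, ?_, ?_, ?_⟩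
  · rw [sc, Polynomial.comp_C_mul_X_coeff, pow_zero, mul_one]; exact h0
  · rw [coe_sc, coe_sc, ← map_mul, h1]
  · intro s
    obtain ⟨a1, a2, a3⟩ := h2 (s + 1)
    have hp : (RatFunc.X : RatFunc ℚ)⁻¹ * (RatFunc.X : RatFunc ℚ)⁻¹ ^ s =
        (RatFunc.X : RatFunc ℚ)⁻¹ ^ (s + 1) := (pow_succ' _ _).symm
    rw [eval_sc, eval_sc, hp]
    have hc : ∀ p : Polynomial ℚ, (p.comp (Polynomial.X + 1 : Polynomial ℚ)).eval (s : ℚ) =
        p.eval ((s + 1 : ℕ) : ℚ) := by
      intro p; rw [Polynomial.eval_comp]; simp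
    have hq : (R.denom.comp (Polynomial.X + 1 : Polynomial ℚ)).eval (s : ℚ) ≠ 0 := by
      rw [hc]; exact a2
    obtain ⟨b1, b2⟩ := eval_of_eq_div hq (SPAux.shR_eq R)
    refine ⟨a1, b1, ?_⟩
    rw [b2, hc, hc]
    have h5 : R.eval (RingHom.id ℚ) ((s + 1 : ℕ) : ℚ) =
        R.num.eval ((s + 1 : ℕ) : ℚ) / R.denom.eval ((s + 1 : ℕ) : ℚ) := by
      rw [RatFunc.eval, Polynomial.eval₂_id, Polynomial.eval₂_id]
    rw [← h5]
    exact a3

/-! ### The power series identity -/

/-- partial sums -/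
def ps {R : Type} [CommRing R] (a : ℕ → R) (k : ℕ) : R := ∑ m ∈ Finset.range k, a m

/-- the coefficients of `(1 - T A) / (1 - T)^2` -/
def gk {R : Type} [CommRing R] (a : ℕ → R) (k : ℕ) : R :=
  ∑ m ∈ Finset.range k, ((m : R) + 1) * a m + ((k : R) + 1) * (1 - ∑ m ∈ Finset.range k, a m)

theorem gk_zero {R : Type} [CommRing R] (a : ℕ → R) : gk a 0 = 1 := by simp [gk]

theorem gk_succ {R : Type} [CommRing R] (a : ℕ → R) (k : ℕ) :
    gk a (k + 1) = gk a k + (1 - ps a (k + 1)) := by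
  unfold gk ps
  rw [Finset.sum_range_succ, Finset.sum_range_succ]
  push_cast
  ring

theorem one_sub_mul_coeff_succ {R : Type} [CommRing R] (Q : PowerSeries R) (k : ℕ) :
    PowerSeries.coeff (k + 1) ((1 - PowerSeries.X) * Q) =
      PowerSeries.coeff (k + 1) Q - PowerSeries.coeff k Q := by
  rw [sub_mul, one_mul, map_sub, PowerSeries.coeff_succ_X_mul]

theorem gser {R : Type} [CommRing R] (a : ℕ → R) :
    (1 - PowerSeries.X) * ((1 - PowerSeries.X) * PowerSeries.mk (gk a)) =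
      1 - PowerSeries.X * PowerSeries.mk a := by
  have h1 : (1 - PowerSeries.X) * PowerSeries.mk (gk a) = PowerSeries.mk fun k => 1 - ps a k := by
    ext k
    rcases k with _ | k
    · rw [sub_mul, one_mul, map_sub, PowerSeries.coeff_zero_X_mul]
      simp [gk_zero, ps]
    · rw [one_sub_mul_coeff_succ, PowerSeries.coeff_mk, PowerSeries.coeff_mk, PowerSeries.coeff_mk,
        gk_succ]
      ring
  rw [h1]
  ext k
  rcases k with _ | k
  · rw [sub_mul, one_mul, map_sub, map_sub, PowerSeries.coeff_zero_X_mul,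
      PowerSeries.coeff_zero_X_mul]
    simp [ps]
  · rw [one_sub_mul_coeff_succ, PowerSeries.coeff_mk, PowerSeries.coeff_mk, map_sub,
      PowerSeries.coeff_succ_X_mul, PowerSeries.coeff_mk, PowerSeries.coeff_one, if_neg (by omega)]
    unfold ps
    rw [Finset.sum_range_succ]
    ring

theorem rescale_C' {R : Type} [CommRing R] (a r : R) :
    PowerSeries.rescale a (PowerSeries.C r) = PowerSeries.C r := by
  ext k
  rw [PowerSeries.coeff_rescale, PowerSeries.coeff_C]
  split_ifs with h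
  · rw [h, pow_zero, one_mul]
  · rw [mul_zero]

/-- the zeta function of `f + uv` as a power series -/
theorem sus_ser (hSZ : Stmt_SZ) {ι : Type} [Fintype ι] [DecidableEq ι] (f : MvPolynomial ι ℂ)
    {R : Type} [CommRing R] (μ : MotivicMeasure R) (Li : R) (hL : μ.L * Li = 1) (e : ℕ)
    (he : 1 ≤ e) :
    zetaSer μ Li (sus f) e =
      PowerSeries.C (μ.L ^ (Fintype.card ι + 1)) * (PowerSeries.C ((μ.L - 1) * (1 - Li)) *
        ((1 - PowerSeries.C (Li ^ (Fintype.card ι + 1)) * (PowerSeries.X ^ 1 *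
          PowerSeries.rescale Li (zetaSer μ Li f 1))) * (geo Li (1, 1) * geo Li (1, 1)))) +
      PowerSeries.C μ.L * PowerSeries.rescale Li (zetaSer μ Li f e) := by
  set n := Fintype.card ι with hn
  have hcard : Fintype.card (ι ⊕ Bool) = n + 2 := by
    rw [Fintype.card_sum, Fintype.card_bool]
  have hLp : ∀ j : ℕ, μ.L ^ j * Li ^ j = 1 := fun j => by rw [← mul_pow, hL, one_pow]
  -- the coefficients for `f`
  have hvk : ∀ e k, vk μ Li f e k = Li ^ n * PowerSeries.coeff k (zetaSer μ Li f e) := by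
    intro e k
    rw [zetaSer, PowerSeries.coeff_mk, vk, ← hn, add_mul, one_mul, pow_add]
    ring
  set a : ℕ → R := fun m => vk μ Li f 1 m with ha
  have hmk : PowerSeries.mk a = PowerSeries.C (Li ^ n) * zetaSer μ Li f 1 := by
    ext k
    rw [PowerSeries.coeff_mk, PowerSeries.coeff_C_mul, ha]
    exact hvk 1 k
  -- the series with coefficients `gk`
  have hG : PowerSeries.rescale Li (PowerSeries.mk (gk a)) =
      (1 - PowerSeries.C (Li ^ (n + 1)) * (PowerSeries.X ^ 1 *
        PowerSeries.rescale Li (zetaSer μ Li f 1))) * (geo Li (1, 1) * geo Li (1, 1)) := by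
    have h1 := congrArg (PowerSeries.rescale Li) (gser a)
    rw [map_mul, map_mul, map_sub, map_sub, map_one, map_mul, PowerSeries.rescale_X, hmk, map_mul,
      rescale_C'] at h1
    have h2 := geo_mul Li (1, 1) le_rfl
    simp only [pow_one] at h2
    have h3 : PowerSeries.C (Li ^ (n + 1)) = PowerSeries.C Li * PowerSeries.C (Li ^ n) := by
      rw [← map_mul, pow_succ']
    rw [h3, pow_one]
    calc PowerSeries.rescale Li (PowerSeries.mk (gk a))
        = (((1 - PowerSeries.C Li * PowerSeries.X) * geo Li (1, 1)) *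
          ((1 - PowerSeries.C Li * PowerSeries.X) * geo Li (1, 1))) *
            PowerSeries.rescale Li (PowerSeries.mk (gk a)) := by rw [h2, one_mul, one_mul]
      _ = ((1 - PowerSeries.C Li * PowerSeries.X) * ((1 - PowerSeries.C Li * PowerSeries.X) *
            PowerSeries.rescale Li (PowerSeries.mk (gk a)))) * (geo Li (1, 1) * geo Li (1, 1)) := by
          ring
      _ = _ := by rw [h1]; ring
  rw [← hG]
  ext k
  rw [map_add, PowerSeries.coeff_C_mul, PowerSeries.coeff_C_mul, PowerSeries.coeff_C_mul,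
    PowerSeries.coeff_rescale, PowerSeries.coeff_rescale, PowerSeries.coeff_mk]
  have hS := hSZ ι f R μ Li hL e k he
  have hc : PowerSeries.coeff k (zetaSer μ Li (sus f) e) = μ.L ^ (n + 2) * vk μ Li (sus f) e k := by
    rw [zetaSer, PowerSeries.coeff_mk, vk, hcard, add_mul, one_mul, pow_add]
    have := hLp (n + 2)
    linear_combination (-(μ.val (jetSet (sus f) e k) * Li ^ (k * (n + 2)))) * this
  have hg : ∑ m ∈ Finset.range k, ((m : R) + 1) * vk μ Li f 1 m +
      ((k : R) + 1) * (1 - ∑ m ∈ Finset.range k, vk μ Li f 1 m) = gk a k := rfl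
  rw [hc, hS, hg, hvk e k]
  have h1 := hLp n
  have h2 : μ.L ^ (n + 2) * Li ^ (k + 1) = μ.L ^ (n + 1) * Li ^ k := by
    rw [pow_succ' μ.L (n + 1), pow_succ Li k]
    linear_combination (μ.L ^ (n + 1) * Li ^ k) * hL
  have h3 : μ.L ^ (n + 2) * Li ^ (k + 1) * Li ^ n = μ.L * Li ^ k := by
    rw [h2, pow_succ' μ.L n]
    linear_combination (μ.L * Li ^ k) * h1
  linear_combination ((μ.L - 1) * (1 - Li) * gk a k) * h2 +
    (PowerSeries.coeff k (zetaSer μ Li f e)) * h3

end SLAux

open SLAux in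
theorem stmt_SL (hSZ : Stmt_SZ) : Stmt_SL := by
  have key : ∀ (ι : Type) [Fintype ι] [DecidableEq ι] (f : MvPolynomial ι ℂ) (P : HodgeMeasure)
      (R : RatFunc ℚ), IsTopZeta P f 1 R → ∀ (e : ℕ) (Re : RatFunc ℚ), 1 ≤ e → IsTopZeta P f e Re →
        IsTopZeta P (sus f) e (susR R + shR (Re - R)) := by
    intro ι _ _ f P R hR e Re he hRe
    have hX : (RatFunc.X : RatFunc ℚ) ≠ 0 := RatFunc.X_ne_zero
    have hL : P.rat.L * (RatFunc.X : RatFunc ℚ)⁻¹ = 1 := by
      rw [P.rat_L, mul_inv_cancel₀ hX]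
    unfold IsTopZeta at hR hRe ⊢
    rw [sus_ser hSZ f P.rat _ hL e he, P.rat_L]
    set n := Fintype.card ι
    have g1 := IsLim_geo (1, 1) le_rfl le_rfl
    have l1 := IsLim_shift hR
    have le := IsLim_shift hRe
    -- the first factor
    have hA := (IsLim.C (LimOne.X.pow (n + 1))).mul ((IsLim.C LimOne.Xinv).mul
      ((IsLim.one.add ((IsLim.C (LimOne.algebraMap (Polynomial.C (-1)))).mul
        ((IsLim.C (LimOne.Xinv.pow (n + 1))).mul ((IsLim.Xpow 1).mul l1)))).mul (g1.mul g1)))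
    have hB := (IsLim.C LimOne.X).mul le
    have hAB := hA.add hB
    have e1 : PowerSeries.C ((RatFunc.X - 1) * (1 - (RatFunc.X : RatFunc ℚ)⁻¹)) =
        PowerSeries.C (RatFunc.X : RatFunc ℚ)⁻¹ *
          (PowerSeries.C (RatFunc.X - 1) * PowerSeries.C (RatFunc.X - 1)) := by
      rw [← map_mul, ← map_mul]
      congr 1
      field_simp
    have e2 : PowerSeries.C (algebraMap (Polynomial ℚ) (RatFunc ℚ) (Polynomial.C (-1))) =
        (-1 : PowerSeries (RatFunc ℚ)) := by
      rw [map_neg, map_one, map_neg, map_one, map_neg, map_one]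
    have e3 : algebraMap (Polynomial ℚ) (RatFunc ℚ) (linQ (1, 1)) = RatFunc.X + 1 := by
      unfold linQ
      rw [map_add, map_mul, RatFunc.algebraMap_X]
      simp only [Nat.cast_one, map_one]
      ring
    have hX1 : (RatFunc.X + 1 : RatFunc ℚ) ≠ 0 := by
      rw [← e3]
      exact RatFunc.algebraMap_ne_zero (linQ_ne (1, 1) le_rfl)
    have e4 : RatFunc.C (1 ^ (n + 1)) * (RatFunc.C 1 * ((1 + RatFunc.C ((Polynomial.C (-1)).eval 1) *
        (RatFunc.C (1 ^ (n + 1)) * (1 * shR R))) *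
          ((algebraMap (Polynomial ℚ) (RatFunc ℚ) 1 /
            algebraMap (Polynomial ℚ) (RatFunc ℚ) (linQ (1, 1))) *
          (algebraMap (Polynomial ℚ) (RatFunc ℚ) 1 /
            algebraMap (Polynomial ℚ) (RatFunc ℚ) (linQ (1, 1)))))) + RatFunc.C 1 * shR Re =
        susR R + shR (Re - R) := by
      rw [e3, Polynomial.eval_C, map_sub, susR]
      simp only [one_pow, map_one, map_neg]
      field_simp
      ring
    rw [e4] at hAB
    refine Eq.mp ?_ hAB
    congr 1
    rw [e1, e2]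
    ring
  intro ι _ _ f P R hR
  refine ⟨?_, fun e Re he hRe => key ι f P R hR e Re he hRe⟩
  have := key ι f P R hR 1 R le_rfl hR
  rwa [sub_self, map_zero, add_zero] at this

end Pool.Agent.Mono
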