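import Pool.Agent.Work.Monodromy.SP
import Pool.Agent.Work.Monodromy.SL
import Pool.Agent.Work.Monodromy.SE
import Pool.Agent.Work.Monodromy.Final1

/-!
# Block SS: the monodromy conjecture for `f + uv` implies the one for `f`
-/

set_option linter.unusedSectionVars false

namespace Pool.Agent.Mono

open MvPolynomial

namespace SSAux

theorem shR_C (q : ℚ) : shR (RatFunc.C q) = RatFunc.C q := by
  rw [SPAux.shR_eq, RatFunc.num_C, RatFunc.denom_C, Polynomial.C_comp, Polynomial.one_comp,
    map_one, div_one, RatFunc.algebraMap_C]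

/-- adding a constant does not remove poles -/
theorem pole_add_C {R : RatFunc ℚ} {q : ℚ} {s : ℂ} (h : Polynomial.aeval s R.denom = 0) :
    Polynomial.aeval s (R + RatFunc.C q).denom = 0 := by
  have h1 : Polynomial.aeval s ((R + RatFunc.C q) + RatFunc.C (-q)).denom = 0 := by
    rw [map_neg, add_neg_cancel_right]
    exact h
  rcases pole_add h1 with h2 | h2
  · exact h2
  · rw [RatFunc.denom_C] at h2
    simp at h2

theorem pole_C_mul {R : RatFunc ℚ} {q : ℚ} (hq : q ≠ 0) {s : ℂ}
    (h : Polynomial.aeval s R.denom = 0) :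
    Polynomial.aeval s (RatFunc.C q * R).denom = 0 := by
  have h1 : Polynomial.aeval s (RatFunc.C q⁻¹ * (RatFunc.C q * R)).denom = 0 := by
    rw [← mul_assoc, ← map_mul, inv_mul_cancel₀ hq, map_one, one_mul]
    exact h
  rcases pole_mul h1 with h2 | h2
  · rw [RatFunc.denom_C] at h2
    simp at h2
  · exact h2

theorem isTopZeta_of1 {ι : Type} [Fintype ι] (P : HodgeMeasure) (f : MvPolynomial ι ℂ) (d : ℕ)
    (R : RatFunc ℚ) (h : IsLim (zetaSer1 P.rat (RatFunc.X)⁻¹ f d) R) :
    ∃ q : ℚ, IsTopZeta P f d (R + RatFunc.C q) := by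
  have h2 := (LimOne.toRat (P.val (jetSet f d 0)))
  refine ⟨(((P.val (jetSet f d 0)).eval 1 : ℤ) : ℚ), ?_⟩
  have h3 : zetaSer P.rat (RatFunc.X)⁻¹ f d = zetaSer1 P.rat (RatFunc.X)⁻¹ f d +
      PowerSeries.C (toRat (P.val (jetSet f d 0))) := by
    ext k
    rw [map_add, zetaSer1, zetaSer, PowerSeries.coeff_mk, PowerSeries.coeff_mk,
      PowerSeries.coeff_C]
    by_cases hk : k = 0
    · subst hk
      simp [HodgeMeasure.rat]
    · simp [hk]
  rw [IsTopZeta, h3]
  exact IsLim.add h (IsLim.C h2)

theorem exp_sub_one (s : ℂ) : Complex.exp (2 * Real.pi * Complex.I * (s - 1)) =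
    Complex.exp (2 * Real.pi * Complex.I * s) := by
  have h : 2 * (Real.pi : ℂ) * Complex.I * s =
      2 * Real.pi * Complex.I * (s - 1) + 2 * Real.pi * Complex.I := by ring
  rw [h, Complex.exp_add, Complex.exp_two_pi_mul_I, mul_one]

/-- integers are good -/
theorem eig_int {ι : Type} [Fintype ι] [DecidableEq ι] (f : MvPolynomial ι ℂ)
    (hf : f.totalDegree ≠ 0) (s : ℂ) (hs : s = 1 ∨ s = -1) :
    IsEigenvalue f (Complex.exp (2 * Real.pi * Complex.I * s)) := by
  refine ⟨-1, fun b hb => stmt_SM ι f b hf hb, ?_⟩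
  rcases hs with rfl | rfl
  · have h1 := exp_sub_one (-1)
    have h2 := exp_sub_one 0
    have h3 := exp_sub_one 1
    rw [sub_self] at h3
    rw [zero_sub] at h2
    rw [h2, ← h3]
  · rfl

end SSAux

open SSAux in
theorem stmt_SS (hSL : Stmt_SL) : Stmt_SS := by
  intro ι _ _ f hf
  constructor
  · intro hMC P R hR s hs
    by_cases h1 : s = 1 ∨ s = -1
    · exact eig_int f hf s h1
    push Not at h1
    have h2 := stmt_SP.2 R s h1.1 h1.2 hs
    have h3 := hMC P (susR R) (hSL ι f P R hR).1 (s - 1) h2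
    rw [exp_sub_one] at h3
    exact stmt_SE ι f _ hf h3
  · intro e he hMC P R hR s hs
    by_cases hint : s = 1 ∨ s = -1
    · exact eig_int f hf s hint
    push Not at hint
    obtain ⟨r, hr, hR'⟩ := hR
    have hpos : ∀ d ∈ e.divisors, 1 ≤ d := fun d hd => Nat.pos_of_mem_divisors hd
    have h1e : 1 ∈ e.divisors := Nat.one_mem_divisors.2 (by omega)
    have hq : ∀ d, ∃ q : ℚ, d ∈ e.divisors → IsTopZeta P f d (r d + RatFunc.C q) := by
      intro d
      by_cases hd : d ∈ e.divisors
      · obtain ⟨q, hq⟩ := isTopZeta_of1 P f d (r d) (hr d hd)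
        exact ⟨q, fun _ => hq⟩
      · exact ⟨0, fun h => absurd h hd⟩
    choose q hq using hq
    set R1 : RatFunc ℚ := r 1 + RatFunc.C (q 1) with hR1
    have hsus : ∀ d ∈ e.divisors,
        IsTopZeta P (sus f) d (susR R1 + shR (r d + RatFunc.C (q d) - R1)) := fun d hd =>
      (hSL ι f P R1 (hq 1 h1e)).2 d _ (hpos d hd) (hq d hd)
    have hq2 : ∀ d, ∃ q' : ℚ, d ∈ e.divisors → IsLim (zetaSer1 P.rat (RatFunc.X)⁻¹ (sus f) d)
        (susR R1 + shR (r d + RatFunc.C (q d) - R1) + RatFunc.C q') := by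
      intro d
      by_cases hd : d ∈ e.divisors
      · obtain ⟨q', hq'⟩ := isLim_zetaSer1 P (sus f) d _ (hsus d hd)
        exact ⟨q', fun _ => hq'⟩
      · exact ⟨0, fun h => absurd h hd⟩
    choose q' hq' using hq2
    have htot : ((e.totient : ℚ)) ≠ 0 := by exact_mod_cast (Nat.totient_pos.2 he).ne'
    set S : RatFunc ℚ := ∑ d ∈ e.divisors,
      RatFunc.C ((ArithmeticFunction.moebius (e / d) : ℤ) : ℚ) *
        (susR R1 + shR (r d + RatFunc.C (q d) - R1) + RatFunc.C (q' d)) with hS
    have hT : IsTwTopZeta P (sus f) e (RatFunc.C ((e.totient : ℚ)⁻¹) * S) := by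
      refine ⟨_, fun d hd => hq' d hd, ?_⟩
      rw [← mul_assoc, ← map_mul, mul_inv_cancel₀ htot, map_one, one_mul]
    -- the Moebius sum of the constants
    set M : RatFunc ℚ := ∑ d ∈ e.divisors,
      RatFunc.C ((ArithmeticFunction.moebius (e / d) : ℤ) : ℚ) with hM
    set c : ℚ := ∑ d ∈ e.divisors,
      ((ArithmeticFunction.moebius (e / d) : ℤ) : ℚ) * (q d + q' d) with hc
    have hSum : S = M * (susR R1 - shR R1) + RatFunc.C (e.totient : ℚ) * shR R + RatFunc.C c := by
      have h1 : RatFunc.C (e.totient : ℚ) * shR R = shR (RatFunc.C (e.totient : ℚ) * R) := by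
        rw [map_mul, shR_C]
      rw [h1, hR', map_sum, hM, Finset.sum_mul, hc, map_sum, ← Finset.sum_add_distrib,
        ← Finset.sum_add_distrib, hS]
      refine Finset.sum_congr rfl fun d _ => ?_
      simp only [map_mul, map_add, map_sub, shR_C]
      ring
    have hMval : (e = 1 ∧ M = 1) ∨ (e ≠ 1 ∧ M = 0) := by
      have h1 : ∑ d ∈ e.divisors, ArithmeticFunction.moebius (e / d) = if e = 1 then 1 else 0 := by
        rw [Nat.sum_div_divisors e fun d => ArithmeticFunction.moebius d]
        have h0 := congrArg (fun g : ArithmeticFunction ℤ => g e)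
          ArithmeticFunction.moebius_mul_coe_zeta
        simp only [ArithmeticFunction.coe_mul_zeta_apply, ArithmeticFunction.one_apply] at h0
        exact h0
      have h2 : M = RatFunc.C (((if e = 1 then 1 else 0 : ℤ)) : ℚ) := by
        rw [← h1, hM]
        push_cast
        rw [map_sum]
      by_cases he1 : e = 1
      · left
        refine ⟨he1, ?_⟩
        rw [h2, if_pos he1]
        simp
      · right
        refine ⟨he1, ?_⟩
        rw [h2, if_neg he1]
        simp
    have hpole : Polynomial.aeval (s - 1) (RatFunc.C ((e.totient : ℚ)⁻¹) * S).denom = 0 := by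
      apply pole_C_mul (inv_ne_zero htot)
      rw [hSum]
      apply pole_add_C
      rcases hMval with ⟨he1, hM1⟩ | ⟨he1, hM0⟩
      · subst he1
        have h1 : r 1 = R := by
          have := hR'
          simp at this
          exact this.symm
        have h2 : M * (susR R1 - shR R1) + RatFunc.C ((Nat.totient 1 : ℕ) : ℚ) * shR R =
            susR R1 + RatFunc.C (-(q 1)) := by
          rw [hM1, hR1, h1, map_add, shR_C]
          simp
          ring
        rw [h2]
        apply pole_add_C
        apply stmt_SP.2 R1 s hint.1 hint.2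
        rw [hR1, h1]
        exact pole_add_C hs
      · rw [hM0, zero_mul, zero_add]
        exact pole_C_mul htot (stmt_SP.1 R s hs)
    have h3 := hMC P _ hT (s - 1) hpole
    rw [exp_sub_one] at h3
    exact stmt_SE ι f _ hf h3

end Pool.Agent.Mono
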