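import Pool.Agent.Work.Monodromy.SI

/-!
# Block SZ: the zeta function of `f + uv`
-/

set_option autoImplicit false
set_option linter.unusedSectionVars false

namespace Pool.Agent.Mono

open MvPolynomial

namespace SZAux

/-! ### division of power series -/

theorem conv_unique (k i : ℕ) (U V V' : PowerSeries ℂ) (hu : ∀ a < i, PowerSeries.coeff a U = 0)
    (hui : PowerSeries.coeff i U ≠ 0)
    (h : ∀ l ≤ k, PowerSeries.coeff l (U * V) = PowerSeries.coeff l (U * V')) (b : ℕ)
    (hb : b + i ≤ k) : PowerSeries.coeff b V = PowerSeries.coeff b V' := by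
  obtain ⟨U', rfl⟩ := PowerSeries.X_pow_dvd_iff.2 hu
  have h0 : PowerSeries.constantCoeff U' ≠ 0 := by
    have h1 := PowerSeries.coeff_X_pow_mul U' i 0
    rw [zero_add] at h1
    rw [h1] at hui
    simpa using hui
  have h1 : ∀ c, c + i ≤ k → PowerSeries.coeff c (U' * (V - V')) = 0 := by
    intro c hc
    have h2 := h (c + i) hc
    rw [mul_assoc, mul_assoc, PowerSeries.coeff_X_pow_mul, PowerSeries.coeff_X_pow_mul] at h2
    rw [mul_sub, map_sub, h2, sub_self]
  have h3 : (PowerSeries.X : PowerSeries ℂ) ^ (k + 1 - i) ∣ U' * (V - V') := by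
    rw [PowerSeries.X_pow_dvd_iff]
    intro m hm
    exact h1 m (by omega)
  have h4 : (PowerSeries.X : PowerSeries ℂ) ^ (k + 1 - i) ∣ V - V' := by
    have h5 : V - V' = U'⁻¹ * (U' * (V - V')) := by
      rw [← mul_assoc, PowerSeries.inv_mul_cancel _ h0, one_mul]
    rw [h5]
    exact h3.mul_left _
  have h6 := PowerSeries.X_pow_dvd_iff.1 h4 b (by omega)
  rw [map_sub] at h6
  exact sub_eq_zero.1 h6

theorem conv_exists (k i : ℕ) (U H : PowerSeries ℂ) (t : ℕ → ℂ)
    (hu : ∀ a < i, PowerSeries.coeff a U = 0) (hui : PowerSeries.coeff i U ≠ 0)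
    (hh : ∀ l < i, PowerSeries.coeff l H = 0) :
    ∃ V : PowerSeries ℂ, (∀ b, k < b + i → PowerSeries.coeff b V = t b) ∧
      ∀ l ≤ k, PowerSeries.coeff l (U * V) = PowerSeries.coeff l H := by
  obtain ⟨U', rfl⟩ := PowerSeries.X_pow_dvd_iff.2 hu
  obtain ⟨H', rfl⟩ := PowerSeries.X_pow_dvd_iff.2 hh
  have h0 : PowerSeries.constantCoeff U' ≠ 0 := by
    have h1 := PowerSeries.coeff_X_pow_mul U' i 0
    rw [zero_add] at h1
    rw [h1] at hui
    simpa using hui
  set V0 : PowerSeries ℂ := U'⁻¹ * H' with hV0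
  refine ⟨PowerSeries.mk fun b => if b + i ≤ k then PowerSeries.coeff b V0 else t b, ?_, ?_⟩
  · intro b hb
    rw [PowerSeries.coeff_mk, if_neg (by omega)]
  · intro l hl
    by_cases hli : l < i
    · rw [mul_assoc, PowerSeries.coeff_X_pow_mul', PowerSeries.coeff_X_pow_mul', if_neg (by omega),
        if_neg (by omega)]
    · obtain ⟨c, rfl⟩ : ∃ c, l = c + i := ⟨l - i, by omega⟩
      rw [mul_assoc, PowerSeries.coeff_X_pow_mul, PowerSeries.coeff_X_pow_mul]
      have h1 : H' = U' * V0 := by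
        rw [hV0, ← mul_assoc, PowerSeries.mul_inv_cancel _ h0, one_mul]
      conv_rhs => rw [h1]
      rw [PowerSeries.coeff_mul, PowerSeries.coeff_mul]
      apply Finset.sum_congr rfl
      intro p hp
      have hp' := Finset.HasAntidiagonal.mem_antidiagonal.1 hp
      rw [PowerSeries.coeff_mk, if_pos (by omega)]

theorem coeff_mul_congr (k : ℕ) (U V U' V' : PowerSeries ℂ)
    (hU : ∀ l ≤ k, PowerSeries.coeff l U = PowerSeries.coeff l U')
    (hV : ∀ l ≤ k, PowerSeries.coeff l V = PowerSeries.coeff l V') :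
    ∀ l ≤ k, PowerSeries.coeff l (U * V) = PowerSeries.coeff l (U' * V') := by
  intro l hl
  rw [PowerSeries.coeff_mul, PowerSeries.coeff_mul]
  apply Finset.sum_congr rfl
  intro p hp
  have hp' := Finset.HasAntidiagonal.mem_antidiagonal.1 hp
  rw [hU _ (by omega), hV _ (by omega)]

/-! ### telescoping -/

section tele

variable {R : Type} [CommRing R] (μ : MotivicMeasure R) {σ : Type} [Finite σ]

theorem tele (S : Set (σ → ℂ)) (hS : Constructible S) (p : ℕ → MvPolynomial σ ℂ) (N : ℕ) :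
    μ.val S = ∑ j ∈ Finset.range N,
        μ.val {z | (z ∈ S ∧ ∀ l < j, eval z (p l) = 0) ∧ eval z (p j) ≠ 0} +
      μ.val {z | z ∈ S ∧ ∀ l < N, eval z (p l) = 0} := by
  have hc : ∀ j, Constructible {z | z ∈ S ∧ ∀ l < j, eval z (p l) = 0} := fun j =>
    Constructible.and hS (Constructible.all_lt j fun l _ => Constructible.zero _)
  induction N with
  | zero => simp
  | succ N ih =>
    rw [Finset.sum_range_succ, add_assoc]
    have h1 : μ.val {z | z ∈ S ∧ ∀ l < N, eval z (p l) = 0} =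
        μ.val {z | (z ∈ S ∧ ∀ l < N, eval z (p l) = 0) ∧ eval z (p N) ≠ 0} +
          μ.val {z | z ∈ S ∧ ∀ l < N + 1, eval z (p l) = 0} := by
      rw [← μ.union _ _ (Constructible.and (hc N) (Constructible.ne _)) (hc (N + 1))]
      · congr 1
        ext z
        simp only [Set.mem_union, Set.mem_ofPred_eq]
        constructor
        · intro h
          by_cases h2 : eval z (p N) = 0
          · right
            refine ⟨h.1, fun l hl => ?_⟩
            rcases Nat.lt_succ_iff_lt_or_eq.1 hl with hl | rfl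
            · exact h.2 l hl
            · exact h2
          · exact Or.inl ⟨h, h2⟩
        · rintro (h | h)
          · exact h.1
          · exact ⟨h.1, fun l hl => h.2 l (by omega)⟩
      · rw [Set.disjoint_left]
        rintro z h h'
        exact h.2 (h'.2 N (by omega))
    rw [← h1]
    exact ih

end tele

/-! ### jets of `f` alone -/

section jets

variable {ι : Type}

/-- the universal jet, coordinates `ι × Fin (k + 1)` -/
noncomputable def uj (k : ℕ) (i : ι) : Polynomial (MvPolynomial (ι × Fin (k + 1)) ℂ) :=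
  ∑ l : Fin (k + 1), Polynomial.C (X (i, l)) * Polynomial.X ^ (l : ℕ)

/-- the coefficient `l` of `f` along the universal jet -/
noncomputable def cG (k : ℕ) (f : MvPolynomial ι ℂ) (l : ℕ) : MvPolynomial (ι × Fin (k + 1)) ℂ :=
  (aeval (uj k) f : Polynomial (MvPolynomial (ι × Fin (k + 1)) ℂ)).coeff l

/-- the coefficient `l` of `f` along the jet `x` -/
noncomputable def gl (k : ℕ) (f : MvPolynomial ι ℂ) (l : ℕ) (x : ι × Fin (k + 1) → ℂ) : ℂ :=
  (aeval (jet x) f : Polynomial ℂ).coeff l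

theorem map_uj (k : ℕ) (f : MvPolynomial ι ℂ) (z : ι × Fin (k + 1) → ℂ) :
    Polynomial.map (eval z) (aeval (uj k) f) = aeval (jet z) f := by
  induction f using MvPolynomial.induction_on with
  | C a =>
    rw [aeval_C, aeval_C, Polynomial.algebraMap_apply, Polynomial.algebraMap_apply,
      Polynomial.map_C, algebraMap_eq, eval_C]
    rfl
  | add p q hp hq => rw [map_add, map_add, Polynomial.map_add, hp, hq]
  | mul_X p i hp =>
    rw [map_mul, map_mul, Polynomial.map_mul, hp, aeval_X, aeval_X]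
    congr 1
    simp [uj, jet, Polynomial.map_sum]

theorem eval_cG (k : ℕ) (f : MvPolynomial ι ℂ) (l : ℕ) (z : ι × Fin (k + 1) → ℂ) :
    eval z (cG k f l) = gl k f l z := by
  rw [cG, gl, ← Polynomial.coeff_map, map_uj]

/-- jets with `ord f ≥ i` -/
def Ag (k : ℕ) (f : MvPolynomial ι ℂ) (i : ℕ) : Set (ι × Fin (k + 1) → ℂ) :=
  {x | ∀ l < i, gl k f l x = 0}

theorem cons_Ag (k : ℕ) (f : MvPolynomial ι ℂ) (i : ℕ) : Constructible (Ag k f i) := by
  have h : Ag k f i = {x | ∀ l < i, eval x (cG k f l) = 0} := by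
    ext x
    simp only [Ag, Set.mem_ofPred_eq, eval_cG]
  rw [h]
  exact Constructible.all_lt i fun l _ => Constructible.zero _

theorem gl_congr [Fintype ι] {k k' : ℕ} (f : MvPolynomial ι ℂ) (x : ι × Fin (k + 1) → ℂ)
    (x' : ι × Fin (k' + 1) → ℂ) (n : ℕ) (hn : n ≤ k) (hn' : n ≤ k')
    (h : ∀ a l, (hl : l ≤ n) → x (a, ⟨l, by omega⟩) = x' (a, ⟨l, by omega⟩)) :
    ∀ l ≤ n, gl k f l x = gl k' f l x' := by
  intro l hl
  refine SIAux.aeval_congr f (n + 1) _ _ (fun a m hm => ?_) l (by omega)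
  have h1 := SIAux.coeff_jet' x a ⟨m, by omega⟩
  have h2 := SIAux.coeff_jet' x' a ⟨m, by omega⟩
  simp only at h1 h2
  rw [h1, h2]
  exact h a m (by omega)

variable {R : Type} [CommRing R] (μ : MotivicMeasure R)

/-- change of the level -/
theorem val_level [Fintype ι] (f : MvPolynomial ι ℂ) (k i : ℕ) (hi : i ≤ k) :
    μ.val {x | (x ∈ (Set.univ : Set (ι × Fin (k + 1) → ℂ)) ∧ ∀ l < i, eval x (cG k f l) = 0) ∧
      eval x (cG k f i) ≠ 0} =
      μ.val (jetSet f 1 i) * μ.L ^ (Fintype.card ι * (k - i)) := by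
  classical
  have hcard : Fintype.card (ι × Fin (k - i)) = Fintype.card ι * (k - i) := by
    rw [Fintype.card_prod, Fintype.card_fin]
  rw [← hcard, ← μ.val_prod_univ (SIAux.constructible_jetSet f 1 i) (ι × Fin (k - i))]
  refine μ.map _ _ (fun j : ((ι × Fin (i + 1)) ⊕ Unit) ⊕ (ι × Fin (k - i)) => match j with
    | Sum.inl (Sum.inl s) => (X (s.1, ⟨s.2, by omega⟩) : MvPolynomial (ι × Fin (k + 1)) ℂ)
    | Sum.inl (Sum.inr _) => cG k f i
    | Sum.inr s => X (s.1, ⟨i + 1 + s.2, by omega⟩)) ?_ ?_ ?_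
  · refine Constructible.and (Constructible.and Constructible.univ
      (Constructible.all_lt i fun l _ => Constructible.zero _)) (Constructible.ne _)
  · exact Constructible.comap Sum.inl (SIAux.constructible_jetSet f 1 i)
  have key : ∀ x : ι × Fin (k + 1) → ℂ, ∀ l ≤ i,
      gl i f l (fun s : ι × Fin (i + 1) => x (s.1, ⟨s.2, by omega⟩)) = gl k f l x := by
    intro x l hl
    refine gl_congr f _ _ i le_rfl hi ?_ l hl
    intro a m hm
    rfl
  refine ⟨?_, ?_, ?_⟩
  · rintro x ⟨⟨-, h1⟩, h2⟩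
    simp only [Set.mem_ofPred_eq, jetSet, eval_X]
    refine ⟨?_, ?_, ?_⟩
    · intro l hl
      have h3 := key x l (by omega)
      rw [gl] at h3
      rw [h3, ← eval_cG]
      exact h1 l hl
    · have h3 := key x i le_rfl
      rw [gl] at h3
      rw [h3, ← eval_cG]
      exact h2
    · have h3 := key x i le_rfl
      rw [gl] at h3
      rw [h3, ← eval_cG, pow_one]
  · intro x _ y _ hxy
    ext ⟨a, l⟩
    by_cases hl : (l : ℕ) < i + 1
    · have h1 := congrFun hxy (Sum.inl (Sum.inl (a, ⟨l, hl⟩)))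
      simpa only [eval_X] using h1
    · have h1 := congrFun hxy (Sum.inr (a, ⟨l - (i + 1), by omega⟩))
      simp only [eval_X] at h1
      have h2 : (⟨i + 1 + (l - (i + 1)), by omega⟩ : Fin (k + 1)) = l := by
        ext
        simp only
        omega
      rw [h2] at h1
      exact h1
  · intro y hy
    simp only [Set.mem_ofPred_eq, jetSet] at hy
    obtain ⟨h1, h2, h3⟩ := hy
    let x : ι × Fin (k + 1) → ℂ := fun s =>
      if h : (s.2 : ℕ) < i + 1 then y (Sum.inl (Sum.inl (s.1, ⟨s.2, h⟩)))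
        else y (Sum.inr (s.1, ⟨s.2 - (i + 1), by omega⟩))
    have hx : (fun s : ι × Fin (i + 1) => x (s.1, ⟨s.2, by omega⟩)) =
        fun s => y (Sum.inl (Sum.inl s)) := by
      ext s
      simp only [x]
      rw [dif_pos (by omega)]
    have hg : ∀ l ≤ i, gl k f l x =
        (aeval (jet fun s => y (Sum.inl (Sum.inl s))) f : Polynomial ℂ).coeff l := by
      intro l hl
      rw [← key x l hl, hx]
      rfl
    refine ⟨x, ⟨⟨Set.mem_univ _, ?_⟩, ?_⟩, ?_⟩
    · intro l hl
      rw [eval_cG, hg l (by omega)]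
      exact h1 l hl
    · rw [eval_cG, hg i le_rfl]
      exact h2
    · ext j
      rcases j with (s | ⟨⟩) | s
      · simp only [eval_X]
        exact congrFun hx s
      · simp only
        rw [eval_cG, hg i le_rfl, ← h3, pow_one]
      · simp only [eval_X, x]
        rw [dif_neg (by omega)]
        congr 2
        ext
        · rfl
        · simp

/-- the measure of `ord f ≥ i` -/
theorem val_Ag [Fintype ι] (Li : R) (hL : μ.L * Li = 1) (f : MvPolynomial ι ℂ) (k i : ℕ)
    (hi : i ≤ k + 1) :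
    μ.val (Ag k f i) = μ.L ^ ((k + 1) * Fintype.card ι) *
      (1 - ∑ m ∈ Finset.range i, vk μ Li f 1 m) := by
  have h1 := tele μ (Set.univ : Set (ι × Fin (k + 1) → ℂ)) Constructible.univ (cG k f) i
  have h2 : {z : ι × Fin (k + 1) → ℂ | z ∈ (Set.univ : Set (ι × Fin (k + 1) → ℂ)) ∧
      ∀ l < i, eval z (cG k f l) = 0} = Ag k f i := by
    ext z
    simp only [Set.mem_univ, true_and, Set.mem_ofPred_eq, eval_cG, Ag]
  rw [h2, μ.val_univ, Fintype.card_prod, Fintype.card_fin] at h1
  have h3 : ∀ m ∈ Finset.range i,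
      μ.val {z | (z ∈ (Set.univ : Set (ι × Fin (k + 1) → ℂ)) ∧ ∀ l < m, eval z (cG k f l) = 0) ∧
        eval z (cG k f m) ≠ 0} = μ.L ^ ((k + 1) * Fintype.card ι) * vk μ Li f 1 m := by
    intro m hm
    have hm' : m < i := Finset.mem_range.1 hm
    rw [val_level μ f k m (by omega), vk]
    have h4 : (k + 1) * Fintype.card ι = Fintype.card ι * (k - m) + (m + 1) * Fintype.card ι := by
      have : k + 1 = (k - m) + (m + 1) := by omega
      conv_lhs => rw [this]
      ring
    rw [h4, pow_add]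
    have h5 : μ.L ^ ((m + 1) * Fintype.card ι) * Li ^ ((m + 1) * Fintype.card ι) = 1 := by
      rw [← mul_pow, hL, one_pow]
    linear_combination (-(μ.val (jetSet f 1 m) * μ.L ^ (Fintype.card ι * (k - m)))) * h5
  rw [Finset.sum_congr rfl h3, ← Finset.mul_sum] at h1
  have h6 : Fintype.card ι * (k + 1) = (k + 1) * Fintype.card ι := mul_comm _ _
  rw [h6] at h1
  linear_combination -h1

end jets

/-! ### the punctured line -/

/-- `ℂ^*` -/
def Gm : Set (Unit → ℂ) := {x | x () ≠ 0}

theorem cons_Gm : Constructible Gm := by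
  have h := Constructible.ne (X () : MvPolynomial Unit ℂ)
  have h2 : Gm = {x | eval x (X () : MvPolynomial Unit ℂ) ≠ 0} := by
    ext x
    simp only [Gm, Set.mem_ofPred_eq, eval_X]
  rw [h2]
  exact h

theorem val_Gm {R : Type} [CommRing R] (μ : MotivicMeasure R) : μ.val Gm = μ.L - 1 := by
  have h1 := μ.val_compl (s := {x : Unit → ℂ | x = fun _ => 0}) (Constructible.point _)
  rw [μ.val_point] at h1
  rw [← MotivicMeasure.L] at h1
  rw [← h1]
  congr 1
  ext x
  simp only [Gm, Set.mem_ofPred_eq, Set.mem_compl_iff]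
  constructor
  · intro h h'
    rw [h'] at h
    exact h rfl
  · intro h h'
    apply h
    ext ⟨⟩
    exact h'

/-! ### jets of `f + uv` -/

section susjets

variable {ι : Type}

/-- the arc in the variables of `f` -/
def xz {k : ℕ} (z : ((ι ⊕ Bool) × Fin (k + 1)) ⊕ Unit → ℂ) : ι × Fin (k + 1) → ℂ :=
  fun s => z (Sum.inl (Sum.inl s.1, s.2))

/-- the arc in the variable `u` (for `b = true`) or `v` (for `b = false`) -/
noncomputable def bz {k : ℕ} (b : Bool) (z : ((ι ⊕ Bool) × Fin (k + 1)) ⊕ Unit → ℂ) :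
    PowerSeries ℂ :=
  ((jet (fun s => z (Sum.inl s)) (Sum.inr b) : Polynomial ℂ) : PowerSeries ℂ)

theorem coeff_bz {k : ℕ} (b : Bool) (z : ((ι ⊕ Bool) × Fin (k + 1)) ⊕ Unit → ℂ) (l : ℕ)
    (hl : l < k + 1) : PowerSeries.coeff l (bz b z) = z (Sum.inl (Sum.inr b, ⟨l, hl⟩)) := by
  rw [bz, Polynomial.coeff_coe]
  exact SIAux.coeff_jet' (fun s => z (Sum.inl s)) (Sum.inr b) ⟨l, hl⟩

theorem coeff_sus {k : ℕ} (f : MvPolynomial ι ℂ) (z : ((ι ⊕ Bool) × Fin (k + 1)) ⊕ Unit → ℂ)
    (l : ℕ) :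
    (aeval (jet fun s => z (Sum.inl s)) (sus f) : Polynomial ℂ).coeff l =
      gl k f l (xz z) + PowerSeries.coeff l (bz true z * bz false z) := by
  rw [sus, map_add, map_mul, aeval_X, aeval_X, aeval_rename, Polynomial.coeff_add, bz, bz,
    ← Polynomial.coe_mul, Polynomial.coeff_coe]
  rfl

theorem mem_sus {k : ℕ} (e : ℕ) (he : 1 ≤ e) (f : MvPolynomial ι ℂ)
    (z : ((ι ⊕ Bool) × Fin (k + 1)) ⊕ Unit → ℂ) :
    z ∈ jetSet (sus f) e k ↔ z (Sum.inr ()) ≠ 0 ∧ ∀ l ≤ k,
      gl k f l (xz z) + PowerSeries.coeff l (bz true z * bz false z) =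
        if l = k then z (Sum.inr ()) ^ e else 0 := by
  simp only [jetSet, Set.mem_ofPred_eq, coeff_sus]
  constructor
  · rintro ⟨h1, h2, h3⟩
    refine ⟨?_, ?_⟩
    · intro h4
      apply h2
      rw [← h3, h4, zero_pow (by omega)]
    · intro l hl
      split_ifs with h5
      · rw [h5]
        exact h3.symm
      · exact h1 l (by omega)
  · rintro ⟨h1, h2⟩
    have h3 := h2 k le_rfl
    rw [if_pos rfl] at h3
    refine ⟨?_, ?_, h3.symm⟩
    · intro l hl
      have h4 := h2 l hl.le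
      rwa [if_neg (by omega)] at h4
    · rw [h3]
      exact pow_ne_zero _ h1

/-- the new coordinates on the part `ord u = i` -/
noncomputable def φi (k i : ℕ) (hi : i ≤ k) : ((ι × Fin (k + 1)) ⊕ Unit) ⊕ (Unit ⊕ Fin k) →
    MvPolynomial (((ι ⊕ Bool) × Fin (k + 1)) ⊕ Unit) ℂ
  | Sum.inl (Sum.inl s) => X (Sum.inl (Sum.inl s.1, s.2))
  | Sum.inl (Sum.inr _) => X (Sum.inr ())
  | Sum.inr (Sum.inl _) => X (Sum.inl (Sum.inr true, ⟨i, by omega⟩))
  | Sum.inr (Sum.inr l) => if (l : ℕ) < i then X (Sum.inl (Sum.inr false, ⟨k - l, by omega⟩))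
      else X (Sum.inl (Sum.inr true, ⟨l + 1, by omega⟩))

variable {R : Type} [CommRing R] (μ : MotivicMeasure R)

theorem val_part [Fintype ι] (f : MvPolynomial ι ℂ) (e k i : ℕ) (he : 1 ≤ e) (hi : i ≤ k)
    (p : ℕ → MvPolynomial (((ι ⊕ Bool) × Fin (k + 1)) ⊕ Unit) ℂ)
    (hp : ∀ l, (hl : l < k + 1) → p l = X (Sum.inl (Sum.inr true, ⟨l, hl⟩))) :
    μ.val {z | (z ∈ jetSet (sus f) e k ∧ ∀ l < i, eval z (p l) = 0) ∧ eval z (p i) ≠ 0} =
      (μ.val (Ag k f i) * (μ.L - 1)) * ((μ.L - 1) * μ.L ^ k) := by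
  classical
  have hpe : ∀ z : ((ι ⊕ Bool) × Fin (k + 1)) ⊕ Unit → ℂ, ∀ l, l < k + 1 →
      eval z (p l) = PowerSeries.coeff l (bz true z) := by
    intro z l hl
    rw [hp l hl, eval_X, coeff_bz true z l hl]
  have hv : μ.val (pset (pset (Ag k f i) Gm) (pset Gm (Set.univ : Set (Fin k → ℂ)))) =
      (μ.val (Ag k f i) * (μ.L - 1)) * ((μ.L - 1) * μ.L ^ k) := by
    rw [μ.val_pset (Constructible.pset (cons_Ag k f i) cons_Gm)
      (Constructible.pset cons_Gm Constructible.univ), μ.val_pset (cons_Ag k f i) cons_Gm,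
      μ.val_pset cons_Gm Constructible.univ, val_Gm, μ.val_univ, Fintype.card_fin]
  rw [← hv]
  refine μ.map _ _ (φi k i hi) ?_ ?_ ?_
  · exact Constructible.and (Constructible.and (SIAux.constructible_jetSet (sus f) e k)
      (Constructible.all_lt i fun l _ => Constructible.zero _)) (Constructible.ne _)
  · exact Constructible.pset (Constructible.pset (cons_Ag k f i) cons_Gm)
      (Constructible.pset cons_Gm Constructible.univ)
  have hlow : ∀ z : ((ι ⊕ Bool) × Fin (k + 1)) ⊕ Unit → ℂ, z ∈ {z | (z ∈ jetSet (sus f) e k ∧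
      ∀ l < i, eval z (p l) = 0) ∧ eval z (p i) ≠ 0} →
      (∀ a < i, PowerSeries.coeff a (bz true z) = 0) ∧ PowerSeries.coeff i (bz true z) ≠ 0 := by
    rintro z ⟨⟨-, h2⟩, h3⟩
    refine ⟨fun a ha => ?_, ?_⟩
    · rw [← hpe z a (by omega)]
      exact h2 a ha
    · rw [← hpe z i (by omega)]
      exact h3
  have hzero : ∀ (U V : PowerSeries ℂ), (∀ a < i, PowerSeries.coeff a U = 0) →
      ∀ a < i, PowerSeries.coeff a (U * V) = 0 := by
    intro U V h
    have h1 := (PowerSeries.X_pow_dvd_iff.2 h).mul_right V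
    exact PowerSeries.X_pow_dvd_iff.1 h1
  refine ⟨?_, ?_, ?_⟩
  · intro z hz
    obtain ⟨h1, h2⟩ := hlow z hz
    obtain ⟨h3, h4⟩ := (mem_sus e he f z).1 hz.1.1
    refine ⟨⟨?_, ?_⟩, ⟨?_, Set.mem_univ _⟩⟩
    · intro l hl
      have h5 := h4 l (by omega)
      rw [hzero _ _ h1 l hl, if_neg (by omega), add_zero] at h5
      have h6 : (fun s : ι × Fin (k + 1) => eval z (φi k i hi (Sum.inl (Sum.inl s)))) = xz z := by
        ext s
        simp only [φi, eval_X, xz]
      change gl k f l (fun s : ι × Fin (k + 1) => eval z (φi k i hi (Sum.inl (Sum.inl s)))) = 0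
      rw [h6]
      exact h5
    · change eval z (φi k i hi (Sum.inl (Sum.inr ()))) ≠ 0
      simpa only [φi, eval_X] using h3
    · change eval z (φi k i hi (Sum.inr (Sum.inl ()))) ≠ 0
      rw [coeff_bz true z i (by omega)] at h2
      simpa only [φi, eval_X] using h2
  · intro z hz z' hz' hzz
    obtain ⟨h1, h2⟩ := hlow z hz
    obtain ⟨h1', h2'⟩ := hlow z' hz'
    obtain ⟨h3, h4⟩ := (mem_sus e he f z).1 hz.1.1
    obtain ⟨h3', h4'⟩ := (mem_sus e he f z').1 hz'.1.1
    have hx : ∀ a l, z (Sum.inl (Sum.inl a, l)) = z' (Sum.inl (Sum.inl a, l)) := by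
      intro a l
      have h5 := congrFun hzz (Sum.inl (Sum.inl (a, l)))
      simpa only [φi, eval_X] using h5
    have hw : z (Sum.inr ()) = z' (Sum.inr ()) := by
      have h5 := congrFun hzz (Sum.inl (Sum.inr ()))
      simpa only [φi, eval_X] using h5
    have hu : ∀ l, (hl : l < k + 1) → z (Sum.inl (Sum.inr true, ⟨l, hl⟩)) =
        z' (Sum.inl (Sum.inr true, ⟨l, hl⟩)) := by
      intro l hl
      rcases lt_trichotomy l i with h5 | h5 | h5
      · rw [← coeff_bz true z l hl, ← coeff_bz true z' l hl, h1 l h5, h1' l h5]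
      · subst h5
        have h6 := congrFun hzz (Sum.inr (Sum.inl ()))
        simpa only [φi, eval_X] using h6
      · have h6 := congrFun hzz (Sum.inr (Sum.inr ⟨l - 1, by omega⟩))
        simp only [φi] at h6
        rw [if_neg (by omega), eval_X, eval_X] at h6
        have h7 : (⟨l - 1 + 1, by omega⟩ : Fin (k + 1)) = ⟨l, hl⟩ := by
          ext
          simp only
          omega
        rwa [h7] at h6
    have hxz : xz z = xz z' := by
      ext s
      exact hx _ _
    have hU : ∀ l ≤ k, PowerSeries.coeff l (bz true z) = PowerSeries.coeff l (bz true z') := by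
      intro l hl
      rw [coeff_bz true z l (by omega), coeff_bz true z' l (by omega)]
      exact hu l (by omega)
    have hUV : ∀ l ≤ k, PowerSeries.coeff l (bz true z * bz false z) =
        PowerSeries.coeff l (bz true z * bz false z') := by
      intro l hl
      rw [coeff_mul_congr k (bz true z) (bz false z') (bz true z') (bz false z') hU
        (fun _ _ => rfl) l hl]
      have h5 := h4 l hl
      have h5' := h4' l hl
      rw [hxz, hw] at h5
      rw [← h5'] at h5
      exact add_left_cancel h5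
    have hv : ∀ l, (hl : l < k + 1) → z (Sum.inl (Sum.inr false, ⟨l, hl⟩)) =
        z' (Sum.inl (Sum.inr false, ⟨l, hl⟩)) := by
      intro l hl
      by_cases h5 : l + i ≤ k
      · rw [← coeff_bz false z l hl, ← coeff_bz false z' l hl]
        exact conv_unique k i (bz true z) _ _ h1 h2 hUV l h5
      · have h6 := congrFun hzz (Sum.inr (Sum.inr ⟨k - l, by omega⟩))
        simp only [φi] at h6
        rw [if_pos (by omega), eval_X, eval_X] at h6
        have h7 : (⟨k - (k - l), by omega⟩ : Fin (k + 1)) = ⟨l, hl⟩ := by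
          ext
          simp only
          omega
        rwa [h7] at h6
    ext j
    rcases j with ⟨(a | (_ | _)), l⟩ | ⟨⟩
    · exact hx a l
    · exact hv l l.2
    · exact hu l l.2
    · exact hw
  · rintro y ⟨⟨hyA, hyw⟩, ⟨hyu, -⟩⟩
    set x : ι × Fin (k + 1) → ℂ := fun s => y (Sum.inl (Sum.inl s)) with hx
    have hyA' : ∀ l < i, gl k f l x = 0 := hyA
    have hyw' : y (Sum.inl (Sum.inr ())) ≠ 0 := hyw
    have hyu' : y (Sum.inr (Sum.inl ())) ≠ 0 := hyu
    set U : PowerSeries ℂ := PowerSeries.mk fun l =>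
      if l < i then 0 else if l = i then y (Sum.inr (Sum.inl ())) else
        if h : l - 1 < k then y (Sum.inr (Sum.inr ⟨l - 1, h⟩)) else 0 with hU
    set H : PowerSeries ℂ := PowerSeries.mk fun l =>
      (if l = k then y (Sum.inl (Sum.inr ())) ^ e else 0) - gl k f l x with hH
    obtain ⟨V, hV1, hV2⟩ := conv_exists k i U H
      (fun b => if h : k - b < k then y (Sum.inr (Sum.inr ⟨k - b, h⟩)) else 0)
      (fun a ha => by rw [hU, PowerSeries.coeff_mk, if_pos ha])
      (by rw [hU, PowerSeries.coeff_mk, if_neg (lt_irrefl i), if_pos rfl]; exact hyu')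
      (fun l hl => by
        rw [hH, PowerSeries.coeff_mk, if_neg (by omega), hyA' l hl, sub_zero])
    let z : ((ι ⊕ Bool) × Fin (k + 1)) ⊕ Unit → ℂ := fun j => match j with
      | Sum.inl (Sum.inl a, l) => y (Sum.inl (Sum.inl (a, l)))
      | Sum.inl (Sum.inr true, l) => PowerSeries.coeff l U
      | Sum.inl (Sum.inr false, l) => PowerSeries.coeff l V
      | Sum.inr _ => y (Sum.inl (Sum.inr ()))
    have hzU : ∀ l ≤ k, PowerSeries.coeff l (bz true z) = PowerSeries.coeff l U := by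
      intro l hl
      rw [coeff_bz true z l (by omega)]
    have hzV : ∀ l ≤ k, PowerSeries.coeff l (bz false z) = PowerSeries.coeff l V := by
      intro l hl
      rw [coeff_bz false z l (by omega)]
    have hzx : xz z = x := by
      ext s
      rfl
    refine ⟨z, ⟨⟨?_, ?_⟩, ?_⟩, ?_⟩
    · rw [mem_sus e he f z]
      refine ⟨hyw', ?_⟩
      intro l hl
      rw [coeff_mul_congr k _ _ U V hzU hzV l hl, hV2 l hl, hzx, hH, PowerSeries.coeff_mk]
      ring
    · intro l hl
      rw [hpe z l (by omega), hzU l (by omega), hU, PowerSeries.coeff_mk, if_pos hl]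
    · rw [hpe z i (by omega), hzU i (by omega), hU, PowerSeries.coeff_mk, if_neg (lt_irrefl i),
        if_pos rfl]
      exact hyu'
    · ext j
      rcases j with (s | ⟨⟩) | (⟨⟩ | l)
      · simp only [φi, eval_X]
        rfl
      · simp only [φi, eval_X]
        rfl
      · simp only [φi, eval_X]
        change PowerSeries.coeff i U = _
        rw [hU, PowerSeries.coeff_mk, if_neg (lt_irrefl i), if_pos rfl]
      · simp only [φi]
        split_ifs with h5
        · rw [eval_X]
          change PowerSeries.coeff (k - (l : ℕ)) V = _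
          rw [hV1 _ (by omega), dif_pos (by omega)]
          congr 3
          ext
          simp only
          omega
        · rw [eval_X]
          change PowerSeries.coeff ((l : ℕ) + 1) U = _
          rw [hU, PowerSeries.coeff_mk, if_neg (by omega), if_neg (by omega),
            dif_pos (by omega)]
          congr 3

theorem val_last [Fintype ι] (f : MvPolynomial ι ℂ) (e k : ℕ) (_he : 1 ≤ e)
    (p : ℕ → MvPolynomial (((ι ⊕ Bool) × Fin (k + 1)) ⊕ Unit) ℂ)
    (hp : ∀ l, (hl : l < k + 1) → p l = X (Sum.inl (Sum.inr true, ⟨l, hl⟩))) :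
    μ.val {z | z ∈ jetSet (sus f) e k ∧ ∀ l < k + 1, eval z (p l) = 0} =
      μ.val (jetSet f e k) * μ.L ^ (k + 1) := by
  classical
  have hv := μ.val_prod_univ (SIAux.constructible_jetSet f e k) (Fin (k + 1))
  rw [Fintype.card_fin] at hv
  rw [← hv]
  have hpe : ∀ z : ((ι ⊕ Bool) × Fin (k + 1)) ⊕ Unit → ℂ, ∀ l, l < k + 1 →
      eval z (p l) = PowerSeries.coeff l (bz true z) := by
    intro z l hl
    rw [hp l hl, eval_X, coeff_bz true z l hl]
  have hzero : ∀ z : ((ι ⊕ Bool) × Fin (k + 1)) ⊕ Unit → ℂ,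
      (∀ l < k + 1, eval z (p l) = 0) →
      ∀ l ≤ k, PowerSeries.coeff l (bz true z * bz false z) = 0 := by
    intro z hz l hl
    have h0 : (PowerSeries.X : PowerSeries ℂ) ^ (k + 1) ∣ bz true z := by
      rw [PowerSeries.X_pow_dvd_iff]
      intro m hm
      rw [← hpe z m hm]
      exact hz m hm
    exact PowerSeries.X_pow_dvd_iff.1 (h0.mul_right (bz false z)) l (by omega)
  have hmem : ∀ z : ((ι ⊕ Bool) × Fin (k + 1)) ⊕ Unit → ℂ, (∀ l < k + 1, eval z (p l) = 0) →
      ∀ l ≤ k, (aeval (jet fun s => z (Sum.inl s)) (sus f) : Polynomial ℂ).coeff l =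
        gl k f l (xz z) := by
    intro z hz l hl
    rw [coeff_sus, hzero z hz l hl, add_zero]
  refine μ.map _ _ (fun j : ((ι × Fin (k + 1)) ⊕ Unit) ⊕ Fin (k + 1) => match j with
    | Sum.inl (Sum.inl s) => (X (Sum.inl (Sum.inl s.1, s.2)) :
        MvPolynomial (((ι ⊕ Bool) × Fin (k + 1)) ⊕ Unit) ℂ)
    | Sum.inl (Sum.inr _) => X (Sum.inr ())
    | Sum.inr l => X (Sum.inl (Sum.inr false, l))) ?_ ?_ ?_
  · exact Constructible.and (SIAux.constructible_jetSet (sus f) e k)
      (Constructible.all_lt (k + 1) fun l _ => Constructible.zero _)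
  · exact Constructible.comap Sum.inl (SIAux.constructible_jetSet f e k)
  refine ⟨?_, ?_, ?_⟩
  · rintro z ⟨h1, h2⟩
    simp only [jetSet, Set.mem_ofPred_eq] at h1
    simp only [jetSet, Set.mem_ofPred_eq, eval_X]
    obtain ⟨h3, h4, h5⟩ := h1
    rw [hmem z h2 k le_rfl] at h4 h5
    refine ⟨?_, h4, h5⟩
    intro l hl
    have h6 := h3 l hl
    rw [hmem z h2 l hl.le] at h6
    exact h6
  · rintro z ⟨h1, h2⟩ z' ⟨h1', h2'⟩ hzz
    ext j
    rcases j with ⟨(a | (_ | _)), l⟩ | ⟨⟩
    · have h5 := congrFun hzz (Sum.inl (Sum.inl (a, l)))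
      simpa only [eval_X] using h5
    · have h5 := congrFun hzz (Sum.inr l)
      simpa only [eval_X] using h5
    · have h5 := h2 l l.2
      have h5' := h2' l l.2
      rw [hp l l.2, eval_X] at h5 h5'
      exact h5.trans h5'.symm
    · have h5 := congrFun hzz (Sum.inl (Sum.inr ()))
      simpa only [eval_X] using h5
  · intro y hy
    simp only [jetSet, Set.mem_ofPred_eq] at hy
    obtain ⟨h3, h4, h5⟩ := hy
    let z : ((ι ⊕ Bool) × Fin (k + 1)) ⊕ Unit → ℂ := fun j => match j with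
      | Sum.inl (Sum.inl a, l) => y (Sum.inl (Sum.inl (a, l)))
      | Sum.inl (Sum.inr true, l) => 0
      | Sum.inl (Sum.inr false, l) => y (Sum.inr l)
      | Sum.inr _ => y (Sum.inl (Sum.inr ()))
    have h2 : ∀ l < k + 1, eval z (p l) = 0 := by
      intro l hl
      rw [hp l hl, eval_X]
    have hzx : xz z = fun s => y (Sum.inl (Sum.inl s)) := by
      ext s
      rfl
    refine ⟨z, ⟨?_, h2⟩, ?_⟩
    · simp only [jetSet, Set.mem_ofPred_eq]
      rw [hmem z h2 k le_rfl, hzx]
      refine ⟨?_, h4, h5⟩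
      intro l hl
      rw [hmem z h2 l hl.le, hzx]
      exact h3 l hl
    · ext j
      rcases j with (s | ⟨⟩) | l
      · simp only [eval_X]
        rfl
      · simp only [eval_X]
        rfl
      · simp only [eval_X]
        rfl

end susjets

/-! ### algebra -/

theorem sum_id {R : Type} [CommRing R] (v : ℕ → R) (k : ℕ) :
    ∑ i ∈ Finset.range (k + 1), (1 - ∑ m ∈ Finset.range i, v m) =
      ∑ m ∈ Finset.range k, ((m : R) + 1) * v m +
        ((k : R) + 1) * (1 - ∑ m ∈ Finset.range k, v m) := by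
  induction k with
  | zero => simp
  | succ k ih =>
    rw [Finset.sum_range_succ, ih, Finset.sum_range_succ, Finset.sum_range_succ]
    push_cast
    ring

end SZAux

open SZAux

theorem stmt_SZ : Stmt_SZ := by
  intro ι _ _ f R _ μ Li hL e k he
  have ht := tele μ (jetSet (sus f) e k) (SIAux.constructible_jetSet (sus f) e k)
    (fun l => if h : l < k + 1 then
      (X (Sum.inl (Sum.inr true, ⟨l, h⟩)) : MvPolynomial (((ι ⊕ Bool) × Fin (k + 1)) ⊕ Unit) ℂ)
      else 0) (k + 1)
  have hp : ∀ l, (hl : l < k + 1) → (fun l => if h : l < k + 1 then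
      (X (Sum.inl (Sum.inr true, ⟨l, h⟩)) : MvPolynomial (((ι ⊕ Bool) × Fin (k + 1)) ⊕ Unit) ℂ)
      else 0) l = X (Sum.inl (Sum.inr true, ⟨l, hl⟩)) := by
    intro l hl
    simp only [dif_pos hl]
  rw [val_last μ f e k he _ hp, Finset.sum_congr rfl fun i hi => val_part μ f e k i he
    (by have := Finset.mem_range.1 hi; omega) _ hp] at ht
  have h1 : ∀ i ∈ Finset.range (k + 1),
      (μ.val (Ag k f i) * (μ.L - 1)) * ((μ.L - 1) * μ.L ^ k) =
        (μ.L ^ ((k + 1) * Fintype.card ι) * (μ.L - 1) * ((μ.L - 1) * μ.L ^ k)) *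
          (1 - ∑ m ∈ Finset.range i, vk μ Li f 1 m) := by
    intro i hi
    rw [val_Ag μ Li hL f k i (by have := Finset.mem_range.1 hi; omega)]
    ring
  rw [Finset.sum_congr rfl h1, ← Finset.mul_sum, sum_id] at ht
  rw [vk, ht]
  have hcard : Fintype.card (ι ⊕ Bool) = Fintype.card ι + 2 := by
    rw [Fintype.card_sum, Fintype.card_bool]
  rw [hcard]
  set S := ∑ m ∈ Finset.range k, ((m : R) + 1) * vk μ Li f 1 m +
        ((k : R) + 1) * (1 - ∑ m ∈ Finset.range k, vk μ Li f 1 m) with hS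
  rw [vk]
  set n := Fintype.card ι with hn
  have e1 : μ.L ^ ((k + 1) * n) * Li ^ ((k + 1) * n) = 1 := by
    rw [← mul_pow, hL, one_pow]
  have e2 : μ.L ^ k * Li ^ k = 1 := by
    rw [← mul_pow, hL, one_pow]
  have e3 : Li ^ ((k + 1) * (n + 2)) = Li ^ ((k + 1) * n) * (Li ^ (k + 1) * (Li ^ k * Li)) := by
    rw [← pow_succ, ← pow_add, ← pow_add]
    congr 1
    ring
  have e4 : μ.L ^ (k + 1) * (Li ^ k * Li) = 1 := by
    rw [← pow_succ, ← mul_pow, hL, one_pow]
  rw [e3]
  have e5 : μ.L ^ ((k + 1) * n) * (μ.L - 1) * ((μ.L - 1) * μ.L ^ k) * S *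
      (Li ^ ((k + 1) * n) * (Li ^ (k + 1) * (Li ^ k * Li))) =
      Li ^ (k + 1) * ((μ.L - 1) * (1 - Li) * S) := by
    calc _ = (μ.L ^ ((k + 1) * n) * Li ^ ((k + 1) * n)) * (μ.L ^ k * Li ^ k) *
          (Li ^ (k + 1) * ((μ.L - 1) * ((μ.L * Li) - Li) * S)) := by ring
      _ = _ := by rw [e1, e2, hL]; ring
  have e6 : μ.val (jetSet f e k) * μ.L ^ (k + 1) *
      (Li ^ ((k + 1) * n) * (Li ^ (k + 1) * (Li ^ k * Li))) =
      Li ^ (k + 1) * (μ.val (jetSet f e k) * Li ^ ((k + 1) * n)) := by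
    calc _ = (μ.L ^ (k + 1) * (Li ^ k * Li)) *
          (Li ^ (k + 1) * (μ.val (jetSet f e k) * Li ^ ((k + 1) * n))) := by ring
      _ = _ := by rw [e4, one_mul]
  rw [add_mul, e5, e6]
  ring

end Pool.Agent.Mono
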