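import Pool.Agent.Work.Monodromy.Statement3
import Pool.Agent.Work.Monodromy.Cubic
import Pool.Agent.Work.Monodromy.SI
import Pool.Agent.Work.Monodromy.SR
import Pool.Agent.Work.Monodromy.SS
import Pool.Agent.Work.Monodromy.SZ
import Pool.Agent.Work.Monodromy.FinalB

/-!
# The reduction to small cubic polynomials
-/

namespace Pool.Agent.Mono

open MvPolynomial

theorem all_SL : Stmt_SL := stmt_SL stmt_SZ

theorem all_SS : Stmt_SS := stmt_SS all_SL

theorem all_Cubic : Stmt_Cubic := stmt_Cubic stmt_SI all_SS stmt_SR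

theorem all_CubicTw : Stmt_CubicTw := stmt_CubicTw stmt_SI all_SS stmt_SR

theorem Small.isSmallCubic {n : ℕ} {F : MvPolynomial (Fin n) ℂ} (h : Small F) :
    IsSmallCubic F := by
  have hsum : ∀ a : Fin n →₀ ℕ, (a.sum fun _ k => k) = ∑ i, a i := fun a =>
    Finsupp.sum_fintype a _ fun _ => rfl
  refine ⟨?_, ?_, ?_⟩
  · rw [totalDegree]
    exact Finset.sup_le fun a ha => (h a ha).2.1
  · intro i
    rw [degreeOf_le_iff]
    exact fun a ha => (h a ha).1 i
  · intro a ha
    by_cases h0 : a ∈ F.support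
    · right
      apply (h a h0).2.2
      rw [hsum]
      exact ha
    · left
      rwa [notMem_support_iff] at h0

theorem mc_iff {n : ℕ} (f : MvPolynomial (Fin n) ℂ) : MonodromyConjectureFor f ↔ MC f := by
  unfold MonodromyConjectureFor MC
  simp only [isTopologicalZeta_iff, isMonodromyEigenvalue_iff]

theorem mctw_iff {n : ℕ} (e : ℕ) (f : MvPolynomial (Fin n) ℂ) :
    TwistedMonodromyConjectureFor e f ↔ MCtw e f := by
  unfold TwistedMonodromyConjectureFor MCtw
  simp only [isMonodromyEigenvalue_iff]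

theorem cubic_reduction :
    (∀ (n : ℕ) (F : MvPolynomial (Fin n) ℂ), F.totalDegree ≠ 0 → IsSmallCubic F →
      MonodromyConjectureFor F) ↔
    ∀ (n : ℕ) (f : MvPolynomial (Fin n) ℂ), f.totalDegree ≠ 0 → MonodromyConjectureFor f := by
  constructor
  · intro h n f hf
    rw [mc_iff]
    exact all_Cubic (fun n F hF hs => (mc_iff F).1 (h n F hF hs.isSmallCubic)) n f hf
  · intro h n F hF _
    exact h n F hF

theorem cubic_reduction_tw (e : ℕ) (he : 1 ≤ e) :
    (∀ (n : ℕ) (F : MvPolynomial (Fin n) ℂ), F.totalDegree ≠ 0 → IsSmallCubic F →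
      TwistedMonodromyConjectureFor e F) ↔
    ∀ (n : ℕ) (f : MvPolynomial (Fin n) ℂ), f.totalDegree ≠ 0 →
      TwistedMonodromyConjectureFor e f := by
  constructor
  · intro h n f hf
    rw [mctw_iff]
    exact all_CubicTw e he (fun n F hF hs => (mctw_iff e F).1 (h n F hF hs.isSmallCubic)) n f hf
  · intro h n F hF _
    exact h n F hF

end Pool.Agent.Mono
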