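import Pool.Agent.Work.Monodromy.Defs
import Pool.Agent.Work.Monodromy.Frac

/-!
# Monodromy conjecture for pull-backs of hyperplane arrangements: statements of all blocks

Block `X` : file `Pool/Agent/Work/Monodromy/<X>.lean`, `theorem stmt_X : Stmt_X`.  Blocks may assume
other `Stmt_Y` as hypotheses.  Proofs on paper: `BLUEPRINT.md`.
-/

namespace Pool.Agent.Mono

open MvPolynomial

/-! ## Y : constructible sets, measures, cylinders -/

/-- preimages under polynomial maps -/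
def Stmt_YC : Prop :=
  ∀ (ι κ : Type) (φ : κ → MvPolynomial ι ℂ) (s : Set (κ → ℂ)), Constructible s →
    Constructible {x : ι → ℂ | (fun j => eval x (φ j)) ∈ s}

/-- invariance under rational bijections -/
def Stmt_YM : Prop :=
  ∀ (R : Type) [CommRing R] (μ : MotivicMeasure R) (ι κ : Type) [Finite ι] [Finite κ]
    (s : Set (ι → ℂ)) (t : Set (κ → ℂ)) (num : κ → MvPolynomial ι ℂ) (den : MvPolynomial ι ℂ),
    Constructible s → Constructible t → (∀ x ∈ s, eval x den ≠ 0) →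
      Set.BijOn (fun x j => eval x (num j) / eval x den) s t → μ.val s = μ.val t

/-- the volume does not depend on the level -/
def Stmt_YV : Prop :=
  ∀ (R : Type) [CommRing R] (μ : MotivicMeasure R) (Li : R), μ.L * Li = 1 →
    ∀ (E ι : Type) [Finite E] [Fintype ι] (K : ι → ℕ) (C : Set ((E → ℂ) × (ι → PowerSeries ℂ))),
      IsCyl K C → vol μ Li C = μ.val (sec K C) * Li ^ (∑ i, K i)

/-- the level can be increased -/
def Stmt_YK : Prop :=
  ∀ (E ι : Type) [Finite E] [Fintype ι] (K K' : ι → ℕ) (C : Set ((E → ℂ) × (ι → PowerSeries ℂ))),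
    (∀ i, K i ≤ K' i) → IsCyl K C → IsCyl K' C

/-- contact sets are cylinders -/
def Stmt_YF : Prop :=
  ∀ (ι κ : Type) [Fintype ι] [Fintype κ] [DecidableEq ι] [DecidableEq κ] (E : Type) [Finite E]
    (e : ℕ) (B : Set (E → ℂ)) (h : MvPolynomial E ℂ) (D : Data ι κ) (δ : ι → ℕ) (k : ℕ),
    Constructible B → IsCyl (fun _ => k + 1) (contact e B h D δ k)

/-! ## Z : identities between zeta functions -/

/-- localisation (and unrolling: `J = ∅`) -/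
def Stmt_Loc : Prop :=
  ∀ (ι κ : Type) [Fintype ι] [Fintype κ] [DecidableEq ι] [DecidableEq κ]
    (D : Data ι κ) (δ : ι → ℕ), (∀ i, 1 ≤ D.a i) →
    ∀ (R : Type) [CommRing R] (μ : MotivicMeasure R) (Li : R), μ.L * Li = 1 →
      ∀ (e : ℕ) (E : Type) [Finite E] (B : Set (E → ℂ)) (h : MvPolynomial E ℂ), Constructible B →
        (∀ p ∈ B, eval p h ≠ 0) →
          Zs μ Li e B h D δ =
            ∑ J ∈ (D.M0 δ).powerset, ∑ A : Finset κ,
              PowerSeries.C (Li ^ (D.M0 δ).card) *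
                PowerSeries.X ^ (∑ i ∈ D.M0 δ \ J, D.b i + ∑ j ∈ A, D.m j) *
                  Zs μ Li e (pset B (D.str J A)) (pmul h (D.unit J A)) (D.loc J A) (D.next δ J)

/-- linear change of the free coordinates -/
def Stmt_LC : Prop :=
  ∀ (ι κ : Type) [Fintype ι] [Fintype κ] [DecidableEq ι] [DecidableEq κ]
    (D : Data ι κ) (δ : ι → ℕ) (Φ Ψ : Matrix ι ι ℂ), Φ * Ψ = 1 → Ψ * Φ = 1 →
    (∀ i, ¬(D.a i = 1 ∧ D.b i = 0) →
      ∀ k, Φ i k = (1 : Matrix ι ι ℂ) i k ∧ Ψ i k = (1 : Matrix ι ι ℂ) i k) →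
    (∀ i k, Φ i k ≠ 0 ∨ Ψ i k ≠ 0 → δ i ≤ δ k) →
    ∀ (R : Type) [CommRing R] (μ : MotivicMeasure R) (Li : R), μ.L * Li = 1 →
      ∀ (e : ℕ) (E : Type) [Finite E] (B : Set (E → ℂ)) (h : MvPolynomial E ℂ), Constructible B →
        Zs μ Li e B h D δ = Zs μ Li e B h (D.lin Φ) δ

/-- change of the parameter set -/
def Stmt_ZB : Prop :=
  ∀ (ι κ : Type) [Fintype ι] [Fintype κ] [DecidableEq ι] [DecidableEq κ]
    (D : Data ι κ) (δ : ι → ℕ) (R : Type) [CommRing R] (μ : MotivicMeasure R) (Li : R),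
    μ.L * Li = 1 → ∀ (e : ℕ) (E E' : Type) [Finite E] [Finite E'] (B : Set (E → ℂ))
      (h : MvPolynomial E ℂ) (B' : Set (E' → ℂ)) (h' : MvPolynomial E' ℂ)
      (φ : E' → MvPolynomial E ℂ), Constructible B → Constructible B' →
        Set.BijOn (fun x j => eval x (φ j)) B B' →
          (∀ x ∈ B, eval x h = eval (fun j => eval x (φ j)) h') →
            Zs μ Li e B h D δ = Zs μ Li e B' h' D δ

/-- the case `F = 1` -/
def Stmt_Triv : Prop :=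
  ∀ (ι κ : Type) [Fintype ι] [Fintype κ] [DecidableEq ι] [DecidableEq κ]
    (D : Data ι κ) (δ : ι → ℕ) (e : ℕ) (G : Set (ℕ × ℕ)), 1 ≤ e → (∀ i, D.b i = 0) →
      (∀ j, D.m j = 0) → HasExpr e D δ G

/-- products: `F_D = F_{D₁} F_{D₂}` in separate variables -/
def Stmt_Split : Prop :=
  ∀ (ι κ : Type) [Fintype ι] [Fintype κ] [DecidableEq ι] [DecidableEq κ]
    (D : Data ι κ) (δ : ι → ℕ) (I : Finset ι) (T : Finset κ) (G : Set (ℕ × ℕ)),
    (∀ j ∈ T, 0 < D.m j → ∀ i ∉ I, D.c j i = 0) → (∀ j ∉ T, 0 < D.m j → ∀ i ∈ I, D.c j i = 0) →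
      (∀ e, 1 ≤ e → HasExpr e (D.restr I T) δ G) → (∀ e, 1 ≤ e → HasExpr e (D.restr Iᶜ Tᶜ) δ G) →
        ∀ e, 1 ≤ e → HasExpr e D δ G

/-- the torus factor of a stratum of a central arrangement -/
def Stmt_Tor : Prop :=
  ∀ (ι κ : Type) [Fintype ι] [Fintype κ] [DecidableEq ι] [DecidableEq κ]
    (D : Data ι κ) (J : Finset ι) (A : Finset κ), D.Central → (∀ i, 1 ≤ D.a i) → J.Nonempty →
      TorusSplit (D.str J A) (D.unit J A)

/-- finite recursion -/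
def Stmt_X1 : Prop :=
  ∀ (ι κ : Type) [Fintype ι] [Fintype κ] [DecidableEq ι] [DecidableEq κ]
    (e : ℕ) (D : Data ι κ) (δ : ι → ℕ) (G : Set (ℕ × ℕ)) (qs : List (Piece ι κ)),
    (∀ q ∈ qs, Constructible q.S ∧ (∀ x ∈ q.S, eval x q.u ≠ 0) ∧ HasExpr e q.D q.δ G) →
      (∀ (R : Type) [CommRing R] (μ : MotivicMeasure R) (Li : R), μ.L * Li = 1 →
        ∀ (E : Type) [Finite E] (B : Set (E → ℂ)) (h : MvPolynomial E ℂ), Constructible B →
          (∀ p ∈ B, eval p h ≠ 0) →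
            Zs μ Li e B h D δ = (qs.map fun q => q.ser μ Li e B h).sum) →
        HasExpr e D δ G

/-- periodic recursion: the geometric series -/
def Stmt_X2 : Prop :=
  ∀ (ι κ : Type) [Fintype ι] [Fintype κ] [DecidableEq ι] [DecidableEq κ]
    (e : ℕ) (D : Data ι κ) (δ : ι → ℕ) (G : Set (ℕ × ℕ)) (qs : List (Piece ι κ)) (N ν : ℕ),
    (N, ν) ∈ G → 1 ≤ N →
    (∀ q ∈ qs, Constructible q.S ∧ (∀ x ∈ q.S, eval x q.u ≠ 0) ∧
      (haveI := q.fin; TorusSplit q.S q.u) ∧ HasExpr e q.D q.δ G) →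
      (∀ (R : Type) [CommRing R] (μ : MotivicMeasure R) (Li : R), μ.L * Li = 1 →
        ∀ (E : Type) [Finite E] (B : Set (E → ℂ)) (h : MvPolynomial E ℂ), Constructible B →
          (∀ p ∈ B, eval p h ≠ 0) →
            Zs μ Li e B h D δ = (qs.map fun q => q.ser μ Li e B h).sum +
              PowerSeries.C (Li ^ ν) * PowerSeries.X ^ N * Zs μ Li e B h D δ) →
        HasExpr e D δ G

/-! ## LA : linear algebra of the extended arrangement -/

/-- non-essential: there is a vector in the free relevant coordinates killed by all active forms -/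
def Stmt_LA1 : Prop :=
  ∀ (ι κ : Type) [Fintype ι] [Fintype κ] [DecidableEq ι] [DecidableEq κ] (D : Data ι κ),
    ¬D.Ess → ∃ r : ι → ℂ, r ≠ 0 ∧ (∀ i, r i ≠ 0 → D.Rel i ∧ ¬D.NF i) ∧
      ∀ j, 0 < D.m j → ∑ i, D.c j i * r i = 0

/-- decomposable: after a linear change of the free coordinates the decomposition is a partition
of the coordinates -/
def Stmt_LA2 : Prop :=
  ∀ (ι κ : Type) [Fintype ι] [Fintype κ] [DecidableEq ι] [DecidableEq κ] (D : Data ι κ)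
    (T : Set (κ ⊕ ι)), D.Ess → D.DecBy T →
      ∃ (Φ Ψ : Matrix ι ι ℂ) (I : Finset ι), Φ * Ψ = 1 ∧ Ψ * Φ = 1 ∧
        (∀ i, ¬(D.Rel i ∧ ¬D.NF i) →
          ∀ k, Φ i k = (1 : Matrix ι ι ℂ) i k ∧ Ψ i k = (1 : Matrix ι ι ℂ) i k) ∧
        (∀ i k, Φ i k ≠ 0 ∨ Ψ i k ≠ 0 → D.Rel k ∨ i = k) ∧
        (∀ j, 0 < D.m j → Sum.inl j ∈ T → ∀ i ∉ I, (D.lin Φ).c j i = 0) ∧
        (∀ j, 0 < D.m j → Sum.inl j ∉ T → ∀ i ∈ I, (D.lin Φ).c j i = 0) ∧
        ∀ i, D.NF i → (Sum.inr i ∈ T ↔ i ∈ I)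

/-! ## Main theorem on the zeta side -/

/-- central case -/
def Stmt_Central : Prop :=
  ∀ (ι κ : Type) [Fintype ι] [Fintype κ] [DecidableEq ι] [DecidableEq κ]
    (D : Data ι κ), D.Central → D.Valid → ∀ I : Set (Polynomial ℂ), I ⊆ bSet D.poly →
      ∀ (δ : ι → ℕ) (e : ℕ), 1 ≤ e → HasExpr e D δ (GoodPair I)

/-- general case -/
def Stmt_Main : Prop :=
  ∀ (ι κ : Type) [Fintype ι] [Fintype κ] [DecidableEq ι] [DecidableEq κ]
    (D : Data ι κ), D.Valid → ∀ e : ℕ, 1 ≤ e → HasExpr e D (fun _ => 0) (GoodPair (bSet D.poly))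

/-- comparison of `Z_D` with the zeta function of `f = D.poly` -/
def Stmt_Jet : Prop :=
  ∀ (ι κ : Type) [Fintype ι] [Fintype κ] [DecidableEq ι] [DecidableEq κ]
    (D : Data ι κ) (R : Type) [CommRing R] (μ : MotivicMeasure R) (Li : R), μ.L * Li = 1 →
      ∀ e : ℕ, zetaSer μ Li D.poly e =
        PowerSeries.C (μ.L ^ Fintype.card ι) *
          Zs μ Li e (Set.univ : Set (Empty → ℂ)) 1 D (fun _ => 0)

/-- specialisation `T = u^{-s}`, `u → 1` -/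
def Stmt_Spec : Prop :=
  ∀ (P : HodgeMeasure) (ts : List Term) (G : Set (ℕ × ℕ)), (∀ q ∈ G, 1 ≤ q.1 ∧ 1 ≤ q.2) →
    (∀ t ∈ ts, t.Ok G) → ∀ n : ℕ, ∃ R : RatFunc ℚ,
      IsLim (PowerSeries.C (P.rat.L ^ n) *
        (ts.map fun t => t.ser P.rat (RatFunc.X)⁻¹ (Set.univ : Set (Empty → ℂ)) 1).sum) R ∧
      ∀ s : ℂ, Polynomial.aeval s R.denom = 0 → ∃ t ∈ ts, ∃ q ∈ t.D, s * q.1 = -(q.2 : ℂ)

/-- uniqueness of the limit -/
def Stmt_Uniq : Prop :=
  ∀ (Z : PowerSeries (RatFunc ℚ)) (R R' : RatFunc ℚ), IsLim Z R → IsLim Z R' → R = R'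

/-- limits are additive, scalars -/
def Stmt_Lin : Prop :=
  (∀ (Z Z' : PowerSeries (RatFunc ℚ)) (R R' : RatFunc ℚ), IsLim Z R → IsLim Z' R' →
    IsLim (Z + Z') (R + R')) ∧
  ∀ (Z : PowerSeries (RatFunc ℚ)) (R : RatFunc ℚ) (p : Polynomial ℤ), IsLim Z R →
    IsLim (PowerSeries.C (toRat p) * Z) (RatFunc.C ((p.eval 1 : ℤ) : ℚ) * R)

/-! ## EA : invariance of Bernstein ideals -/

/-- push forward along an algebra homomorphism with a linear retraction -/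
def Stmt_Push : Prop :=
  ∀ (ι κ : Type) [Fintype ι] [Fintype κ] (φ : MvPolynomial κ ℂ →ₐ[ℂ] MvPolynomial ι ℂ)
    (F : MvPolynomial κ ℂ) (p : ι → ℂ) (p' : κ → ℂ) (b : Polynomial ℂ),
    (∀ v : MvPolynomial ι ℂ, eval p v ≠ 0 → ∃ ρ : MvPolynomial ι ℂ →ₗ[ℂ] MvPolynomial κ ℂ,
      (∀ g h, ρ (φ g * h) = g * ρ h) ∧ eval p' (ρ v) ≠ 0) →
    IsLocBernstein (φ F) p b → IsLocBernstein F p' b

/-- units can be dropped -/
def Stmt_Units : Prop :=
  ∀ (ι : Type) [Fintype ι] (F u : MvPolynomial ι ℂ) (p : ι → ℂ) (b : Polynomial ℂ),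
    eval p u ≠ 0 → IsLocBernstein (F * u) p b → IsLocBernstein F p b

/-- weighted homogeneous polynomials -/
def Stmt_Homog : Prop :=
  ∀ (ι : Type) [Fintype ι] (w : ι → ℕ) (d : ℕ) (F : MvPolynomial ι ℂ) (b : Polynomial ℂ),
    (∀ i, 1 ≤ w i) → IsWeightedHomogeneous w F d →
      IsLocBernstein F (fun _ => 0) b → IsEvBernstein F b

def Stmt_ELoc : Prop :=
  ∀ (ι κ : Type) [Fintype ι] [Fintype κ] [DecidableEq ι] [DecidableEq κ]
    (D : Data ι κ) (J : Finset ι) (A : Finset κ), (∀ i, 1 ≤ D.a i) → (D.str J A).Nonempty →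
      bSet D.poly ⊆ bSet (D.loc J A).poly

def Stmt_ELC : Prop :=
  ∀ (ι κ : Type) [Fintype ι] [Fintype κ] [DecidableEq ι] [DecidableEq κ]
    (D : Data ι κ) (Φ Ψ : Matrix ι ι ℂ), Φ * Ψ = 1 → Ψ * Φ = 1 →
    (∀ i, ¬(D.a i = 1 ∧ D.b i = 0) →
      ∀ k, Φ i k = (1 : Matrix ι ι ℂ) i k ∧ Ψ i k = (1 : Matrix ι ι ℂ) i k) →
    D.Central → (∀ i, 1 ≤ D.a i) → bSet D.poly ⊆ bSet (D.lin Φ).poly

def Stmt_ESplit : Prop :=
  ∀ (ι κ : Type) [Fintype ι] [Fintype κ] [DecidableEq ι] [DecidableEq κ]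
    (D : Data ι κ) (I : Finset ι) (T : Finset κ), D.Central → D.Valid →
    (∀ j ∈ T, 0 < D.m j → ∀ i ∉ I, D.c j i = 0) → (∀ j ∉ T, 0 < D.m j → ∀ i ∈ I, D.c j i = 0) →
      bSet D.poly ⊆ bSet (D.restr I T).poly

/-! ## EB : the eigenvalue of an indecomposable arrangement -/

/-- a Bernstein identity, specialised at `s`, in the field of rational functions -/
def Stmt_EB1 : Prop :=
  ∀ (ι : Type) [Fintype ι] [DecidableEq ι] (f : MvPolynomial ι ℂ) (b : Polynomial ℂ), f ≠ 0 →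
    IsEvBernstein f b → ∀ s : ℂ, ∃ m : ℕ,
      toF ℂ (C (b.eval s)) ∈ gen ℂ (fun _ : Unit => f) (fun _ => s) (toF ℂ f) m

/-- Euler degree argument -/
def Stmt_EB2 : Prop :=
  ∀ (ι κ : Type) [Fintype ι] [Fintype κ] [DecidableEq ι] [DecidableEq κ] (D : Data ι κ) (s₀ : ℂ)
    (b : Polynomial ℂ), D.Central → (∀ i, 1 ≤ D.a i) → D.poly ≠ 0 →
    0 < ∑ j, D.m j + ∑ i, D.b i →
    s₀ * (∑ j, (D.m j : ℂ) + ∑ i, (D.b i : ℂ) / D.a i) = -∑ i, 1 / (D.a i : ℂ) →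
    IsEvBernstein D.poly b → (∀ j : ℕ, b.eval (s₀ - j) ≠ 0) →
      ∀ x, InS ℂ D.poly x → x ∈ ImT ℂ (fun _ : Unit => D.poly) (fun _ => s₀) D.poly

/-- the forms and the coordinates -/
noncomputable def fam {ι κ : Type} [Fintype ι] (D : Data ι κ) : κ ⊕ ι → MvPolynomial ι ℂ :=
  Sum.elim (fun j => linF ℂ (D.c j)) fun i => X i

/-- their weights -/
noncomputable def wts {ι κ : Type} (D : Data ι κ) (s₀ : ℂ) : κ ⊕ ι → ℂ :=
  Sum.elim (fun j => s₀ * D.m j) fun i => (1 + s₀ * D.b i) / D.a i - 1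

/-- from `x` to `y = x^a` -/
def Stmt_EB3 : Prop :=
  ∀ (ι κ : Type) [Fintype ι] [Fintype κ] [DecidableEq ι] [DecidableEq κ] (D : Data ι κ) (s₀ : ℂ),
    D.Central → (∀ i, 1 ≤ D.a i) → (∀ j, 1 ≤ D.m j) → (∀ j, D.c j ≠ 0) →
    (∀ x, InS ℂ D.poly x → x ∈ ImT ℂ (fun _ : Unit => D.poly) (fun _ => s₀) D.poly) →
      let Q := (∏ j, linF ℂ (D.c j)) * ∏ i ∈ Finset.univ.filter (fun i => 0 < D.b i), X i
      ∀ x, InS ℂ Q x → x ∈ ImT ℂ (fam D) (wts D s₀) Q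

/-- poles along the other non-free coordinates -/
def Stmt_EB4 : Prop :=
  ∀ (ι κ : Type) [Fintype ι] [Fintype κ] [DecidableEq ι] [DecidableEq κ] (D : Data ι κ) (s₀ : ℂ),
    (∀ i, 1 ≤ D.a i) → (∀ j, D.c j ≠ 0) →
    (let Q := (∏ j, linF ℂ (D.c j)) * ∏ i ∈ Finset.univ.filter (fun i => 0 < D.b i), X i
      ∀ x, InS ℂ Q x → x ∈ ImT ℂ (fam D) (wts D s₀) Q) →
      let Q := (∏ j, linF ℂ (D.c j)) *
        ∏ i ∈ Finset.univ.filter (fun i => 1 < D.a i ∨ 0 < D.b i), X i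
      ∀ x, InS ℂ Q x → x ∈ ImT ℂ (fam D) (wts D s₀) Q

section NV

variable {ι κ : Type}

/-- the family cannot be split into two nonempty parts with independent spans -/
def Connected (l : κ → ι → ℂ) : Prop :=
  ∀ T : Set κ, T.Nonempty → Tᶜ.Nonempty →
    ¬Disjoint (Submodule.span ℂ (l '' T)) (Submodule.span ℂ (l '' Tᶜ))

/-- the twisted top cohomology of the complement vanishes -/
def VanTop [Fintype ι] [Fintype κ] (l : κ → ι → ℂ) (lam : κ → ℂ) : Prop :=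
  ∀ x, InS ℂ (∏ k, linF ℂ (l k)) x →
    x ∈ ImT ℂ (fun k => linF ℂ (l k)) lam (∏ k, linF ℂ (l k))

end NV

/-- nonvanishing -/
def Stmt_NV : Prop :=
  ∀ (ι κ : Type) [Fintype ι] [Fintype κ] [DecidableEq ι] [DecidableEq κ] (l : κ → ι → ℂ)
    (lam : κ → ℂ), Nonempty ι → (∀ k, l k ≠ 0) → Submodule.span ℂ (Set.range l) = ⊤ →
    Connected l → ∑ k, lam k = -(Fintype.card ι : ℂ) → ¬VanTop l lam

/-- Bernstein polynomials of arrangements with arbitrary exponents -/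
def Stmt_NV1 : Prop :=
  ∀ (ι κ : Type) [Fintype ι] [Fintype κ] [DecidableEq ι] [DecidableEq κ] (l : κ → ι → ℂ),
    (∀ k, l k ≠ 0) → ∃ (Λ : List (Finset κ × ℕ)) (M : ℕ), (∀ q ∈ Λ, q.1.Nonempty) ∧
      ∀ (R : Type) [CommRing R] [IsDomain R] [Algebra ℂ R] (σ : κ → R),
        toF R (C ((Λ.map fun q => ∑ k ∈ q.1, σ k + (q.2 : R)).prod) : MvPolynomial ι R) ∈
          gen R (fun k => linF R (l k)) σ (toF R (∏ k, linF R (l k))) M

/-- polynomial form of `c = ∑ θ_i^{λ+σ}(q_i / Q^r)`, over `ℂ[σ]` -/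
def PolyForm {ι κ : Type} [Fintype ι] [Fintype κ] [DecidableEq κ] (l : κ → ι → ℂ) (lam : κ → ℂ)
    (c : MvPolynomial κ ℂ) : Prop :=
  ∃ (r : ℕ) (q : ι → MvPolynomial ι (MvPolynomial κ ℂ)),
    let Q : MvPolynomial ι (MvPolynomial κ ℂ) := ∏ k, linF (MvPolynomial κ ℂ) (l k)
    C c * Q ^ (r + 1) =
      ∑ i, (Q * pderiv i (q i) - (r : MvPolynomial ι (MvPolynomial κ ℂ)) * q i * pderiv i Q +
        q i * ∑ k, C (C (lam k) + X k) * (pderiv i (linF (MvPolynomial κ ℂ) (l k)) *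
          ∏ k' ∈ Finset.univ.erase k, linF (MvPolynomial κ ℂ) (l k')))

/-- finite generation and Nakayama -/
def Stmt_NV2 : Prop :=
  ∀ (ι κ : Type) [Fintype ι] [Fintype κ] [DecidableEq ι] [DecidableEq κ] (l : κ → ι → ℂ)
    (lam : κ → ℂ), Nonempty ι → (∀ k, l k ≠ 0) → ∑ k, lam k = -(Fintype.card ι : ℂ) →
    VanTop l lam → ∃ c : MvPolynomial κ ℂ, constantCoeff c ≠ 0 ∧ PolyForm l lam c

/-- the Hadamard product of the row space and of the space of relations is dense -/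
def Dense (ι κ : Type) [Fintype ι] [Fintype κ] (l : κ → ι → ℂ) : Prop :=
  ∀ g : MvPolynomial κ ℂ,
    (∀ (y : ι → ℂ) (c : κ → ℂ), (∀ i, ∑ k, c k * l k i = 0) →
      eval (fun k => c k * ∑ i, l k i * y i) g = 0) →
    ∀ σ : κ → ℂ, ∑ k, σ k = 0 → eval σ g = 0

/-- Koszul argument -/
def Stmt_NV3 : Prop :=
  ∀ (ι κ : Type) [Fintype ι] [Fintype κ] [DecidableEq ι] [DecidableEq κ] (l : κ → ι → ℂ)
    (lam : κ → ℂ), (∀ k, l k ≠ 0) → Submodule.span ℂ (Set.range l) = ⊤ →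
    ∑ k, lam k = -(Fintype.card ι : ℂ) → Dense ι κ l →
      ∀ c : MvPolynomial κ ℂ, PolyForm l lam c → constantCoeff c = 0

/-- density for connected arrangements -/
def Stmt_NV4 : Prop :=
  ∀ (ι κ : Type) [Fintype ι] [Fintype κ] [DecidableEq ι] [DecidableEq κ] (l : κ → ι → ℂ),
    (∀ k, l k ≠ 0) → Submodule.span ℂ (Set.range l) = ⊤ → Connected l → Dense ι κ l

/-- the eigenvalue of an indecomposable essential arrangement -/
def Stmt_EBD : Prop :=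
  ∀ (ι κ : Type) [Fintype ι] [Fintype κ] [DecidableEq ι] [DecidableEq κ]
    (D : Data ι κ), D.Central → D.Valid → D.Ess → (∀ T, ¬D.DecBy T) → (∃ i, D.Rel i) →
    ∀ s₀ : ℂ, s₀ * (∑ j, (D.m j : ℂ) + ∑ i, (D.b i : ℂ) / D.a i) =
      -∑ i, (open Classical in if D.Rel i then 1 / (D.a i : ℂ) else 0) →
    ∃ n : ℕ, ∀ b : Polynomial ℂ, IsEvBernstein D.poly b → b.eval (s₀ - n) = 0

end Pool.Agent.Mono
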