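import Pool.Agent.Work.Monodromy.Defs12

/-!
# Phase 12, part II: a pole gives a functional; blocks (helper17)

See `Monodromy12/BLUEPRINT12.md`.
-/

set_option autoImplicit false

namespace Pool.Agent.Mono.NP

open MvPolynomial

section

variable {ι κ : Type} [Fintype ι] [DecidableEq ι] [Fintype κ] [DecidableEq κ]

/-- the pairing over `ℚ` -/
def pr (x y : ι ⊕ Unit → ℚ) : ℚ := ∑ e, x e * y e

/-- a boundary covector of `σ`: nonzero, nonnegative on all vertices, zero on `σ` -/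
def Bd (w : κ → ι → ℕ) (σ : Finset (κ ⊕ ι)) (x : ι ⊕ Unit → ℚ) : Prop :=
  x ≠ 0 ∧ (∀ v, 0 ≤ pr x (hat w v)) ∧ ∀ v ∈ σ, pr x (hat w v) = 0

/-- the last coordinate of all boundary covectors of `σ` is not zero -/
def Good (w : κ → ι → ℕ) (σ : Finset (κ ⊕ ι)) : Prop :=
  ∀ x : ι ⊕ Unit → ℚ, Bd w σ x → x (Sum.inr ()) ≠ 0

/-- the relation `∑_v vhat_e x_v` -/
noncomputable def relv (w : κ → ι → ℕ) (e : ι ⊕ Unit) : MvPolynomial (κ ⊕ ι) ℚ :=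
  ∑ v, C (hat w v e) * X v

/-! ### Laurent series -/

/-- all coefficients below `j` vanish -/
def Ord (j : ℤ) (x : LaurentSeries ℚ) : Prop := ∀ i < j, x.coeff i = 0

/-- `τ` -/
noncomputable def tau : LaurentSeries ℚ := HahnSeries.single 1 1

/-- the vector `(τ^j p, -1)` -/
noncomputable def yv (p : ι → ℚ) (j : ℕ) : ι ⊕ Unit → LaurentSeries ℚ :=
  Sum.elim (fun i => HahnSeries.C (p i) * tau ^ j) fun _ => -1

/-- `(1, …, 1, -s₀)` -/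
def q0 (ι : Type) (s₀ : ℚ) : ι ⊕ Unit → ℚ := Sum.elim (fun _ => 1) fun _ => -s₀

/-- the curve `(1 + τ^N p, -s₀ - τ)` -/
noncomputable def crv (p : ι → ℚ) (s₀ : ℚ) (N : ℕ) : ι ⊕ Unit → LaurentSeries ℚ :=
  Sum.elim (fun i => 1 + HahnSeries.C (p i) * tau ^ N) fun _ => -HahnSeries.C s₀ - tau

/-- `p` is generic for the triangulation -/
def Gp (w : κ → ι → ℕ) (h : κ → ℝ) (p : ι → ℚ) : Prop :=
  ∀ Δ ∈ maxCells w h, ∀ v ∈ Δ, (∃ i, dual w Δ v (Sum.inl i) ≠ 0) →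
    ∑ i, dual w Δ v (Sum.inl i) * p i ≠ 0

/-- the value at `(0, …, 0, -1)` of `∫_σ g` -/
noncomputable def Lf (w : κ → ι → ℕ) (h : κ → ℝ) (p : ι → ℚ) (σ : Finset (κ ⊕ ι))
    (g : MvPolynomial (κ ⊕ ι) ℚ) : ℚ :=
  (Itg w h σ g (yv p 1)).coeff 0

/-! ### Pairs of box points -/

/-- the pairs of box points which are supported on a common maximal cell -/
def BP (w : κ → ι → ℕ) (h : κ → ℝ) (e : ℕ) : Set ((κ → ℚ) × (κ → ℚ)) :=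
  {b | (b.1 ∈ Bx w Finset.univ ∧ (∑ a, b.1 a).den = e) ∧
    (b.2 ∈ Bx w Finset.univ ∧ (∑ a, b.2 a).den = 1) ∧
    ∃ Δ ∈ maxCells w h, ∀ a, b.1 a ≠ 0 ∨ b.2 a ≠ 0 → Sum.inl a ∈ Δ}

open Classical in
/-- the support of a pair -/
noncomputable def spp (b : (κ → ℚ) × (κ → ℚ)) : Finset κ :=
  Finset.univ.filter fun a => b.1 a ≠ 0 ∨ b.2 a ≠ 0

open Classical in
/-- the smallest subset `M` of `Δ` with `(1, …, 1, -s₀) ∈ lin M` -/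
noncomputable def MM (w : κ → ι → ℕ) (s₀ : ℚ) (Δ : Finset (κ ⊕ ι)) : Finset (κ ⊕ ι) :=
  Δ.filter fun v => cf w Δ (q0 ι s₀) v ≠ 0

open Classical in
/-- the `a ∈ κ` in `M \ supp b` with coordinate `1` -/
noncomputable def QQ (w : κ → ι → ℕ) (s₀ : ℚ) (Δ : Finset (κ ⊕ ι)) (b : (κ → ℚ) × (κ → ℚ)) :
    Finset κ :=
  Finset.univ.filter fun a => Sum.inl a ∈ Δ ∧ a ∉ spp b ∧ cf w Δ (q0 ι s₀) (Sum.inl a) = 1

/-- the cell `M ∪ supp b` -/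
noncomputable def BB (w : κ → ι → ℕ) (s₀ : ℚ) (Δ : Finset (κ ⊕ ι)) (b : (κ → ℚ) × (κ → ℚ)) :
    Finset (κ ⊕ ι) :=
  MM w s₀ Δ ∪ inl (spp b)

/-- the coordinates of `(1, …, 1, -s₀)` in `Δ`, for the elements of `κ` -/
noncomputable def cc0 (w : κ → ι → ℕ) (s₀ : ℚ) (Δ : Finset (κ ⊕ ι)) (a : κ) : ℚ :=
  cf w Δ (q0 ι s₀) (Sum.inl a)

open Classical in
/-- the elements of the cell with positive integral coordinate -/
noncomputable def HP (w : κ → ι → ℕ) (s₀ : ℚ) (Δ : Finset (κ ⊕ ι)) (b : (κ → ℚ) × (κ → ℚ)) :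
    Finset κ :=
  Finset.univ.filter fun a => Sum.inl a ∈ BB w s₀ Δ b ∧ 0 < cc0 w s₀ Δ a ∧
    ∃ z : ℤ, cc0 w s₀ Δ a = z

open Classical in
/-- the elements of the cell with a private row of height one -/
noncomputable def AA (w : κ → ι → ℕ) (s₀ : ℚ) (Δ : Finset (κ ⊕ ι)) (b : (κ → ℚ) × (κ → ℚ)) :
    Finset κ :=
  Finset.univ.filter fun a => Sum.inl a ∈ BB w s₀ Δ b ∧ ∃ i, w a i = 1 ∧
    Sum.inr i ∉ BB w s₀ Δ b ∧ ∀ a', a' ≠ a → Sum.inl a' ∈ BB w s₀ Δ b → w a' i = 0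

/-- `∏_{a ∈ A} x_a` -/
noncomputable def xprod (A : Finset κ) : MvPolynomial (κ ⊕ ι) ℚ := ∏ a ∈ A, X (Sum.inl a)

end

/-! ## Blocks -/

/-- TRI1: the vectors of a cell are linearly independent -/
def Stmt_TRI1 : Prop :=
  ∀ (ι κ : Type) [Fintype ι] [DecidableEq ι] [Fintype κ] [DecidableEq κ] (w : κ → ι → ℕ)
    (h : κ → ℝ) (k : ι → ℝ) (x : κ ⊕ ι → ℚ), LinearIndependent ℚ h →
    (∀ v, v ∉ cell w h k → x v = 0) → (∀ e, ∑ v, x v * hat w v e = 0) → ∀ v, x v = 0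

/-- DUAL: coordinates with respect to a maximal cell -/
def Stmt_DUAL : Prop :=
  ∀ (ι κ : Type) [Fintype ι] [DecidableEq ι] [Fintype κ] [DecidableEq κ] (w : κ → ι → ℕ)
    (h : κ → ℝ), LinearIndependent ℚ h → ∀ Δ ∈ maxCells w h,
    0 < adet w Δ ∧
    (∀ v ∈ Δ, ∀ u ∈ Δ, pr (dual w Δ v) (hat w u) = if u = v then 1 else 0) ∧
    ∀ (F : Type) [Field F] [Algebra ℚ F],
      (∀ (y : ι ⊕ Unit → F) (e : ι ⊕ Unit),
        ∑ v, cf w Δ y v * algebraMap ℚ F (hat w v e) = y e) ∧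
      ∀ (y : ι ⊕ Unit → F) (c : κ ⊕ ι → F), (∀ v, v ∉ Δ → c v = 0) →
        (∀ e, ∑ v, c v * algebraMap ℚ F (hat w v e) = y e) → cf w Δ y = c

/-- TRI2: walls have one or two neighbours -/
def Stmt_TRI2 : Prop :=
  ∀ (ι κ : Type) [Fintype ι] [DecidableEq ι] [Fintype κ] [DecidableEq κ] [Nonempty κ]
    (w : κ → ι → ℕ) (h : κ → ℝ), LinearIndependent ℚ h → ∀ Δ ∈ maxCells w h, ∀ v ∈ Δ,
    (∀ u, 0 ≤ pr (dual w Δ v) (hat w u)) ∨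
    ∃ v', v' ∉ Δ ∧ insert v' (Δ.erase v) ∈ maxCells w h ∧ pr (dual w Δ v) (hat w v') < 0 ∧
      ∀ Δ' ∈ maxCells w h, Δ.erase v ⊆ Δ' → Δ' = Δ ∨ Δ' = insert v' (Δ.erase v)

/-- DET: passage to a neighbour -/
def Stmt_DET : Prop :=
  ∀ (ι κ : Type) [Fintype ι] [DecidableEq ι] [Fintype κ] [DecidableEq κ] (w : κ → ι → ℕ)
    (h : κ → ℝ), LinearIndependent ℚ h → ∀ Δ ∈ maxCells w h, ∀ v ∈ Δ, ∀ v', v' ∉ Δ →
    insert v' (Δ.erase v) ∈ maxCells w h →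
    pr (dual w Δ v) (hat w v') ≠ 0 ∧
    adet w (insert v' (Δ.erase v)) = adet w Δ * |pr (dual w Δ v) (hat w v')| ∧
    ∀ (F : Type) [Field F] [Algebra ℚ F] (y : ι ⊕ Unit → F),
      cf w (insert v' (Δ.erase v)) y v' =
        cf w Δ y v / algebraMap ℚ F (pr (dual w Δ v) (hat w v')) ∧
      ∀ u ∈ Δ.erase v, cf w (insert v' (Δ.erase v)) y u = cf w Δ y u -
        algebraMap ℚ F (pr (dual w Δ u) (hat w v') / pr (dual w Δ v) (hat w v')) * cf w Δ y v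

/-- REGA: a fraction which is regular along the primes of `I` has a denominator without them -/
def Stmt_REGA : Prop :=
  ∀ (A : Type) [CommRing A] [IsDomain A] (K : Type) [Field K] [Algebra A K] [IsFractionRing A K]
    (I : Multiset A) (J : A) (x : K), (∀ p ∈ I, Prime p) →
    (∃ a : A, x * algebraMap A K (I.prod * J) = algebraMap A K a) →
    (∀ p ∈ I, ∃ a b : A, ¬ p ∣ b ∧ x * algebraMap A K b = algebraMap A K a) →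
    ∃ a : A, x * algebraMap A K J = algebraMap A K a

/-- REG: the integrals have poles along the boundary only -/
def Stmt_REG : Prop :=
  ∀ (ι κ : Type) [Fintype ι] [DecidableEq ι] [Fintype κ] [DecidableEq κ] [Nonempty κ]
    (w : κ → ι → ℕ) (h : κ → ℝ), LinearIndependent ℚ h → ∀ (σ : Finset (κ ⊕ ι))
    (g : MvPolynomial (κ ⊕ ι) ℚ),
    ∃ (B : List (ι ⊕ Unit → ℚ)) (P : MvPolynomial (ι ⊕ Unit) ℚ), (∀ x ∈ B, Bd w σ x) ∧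
      ∀ (F : Type) [Field F] [Algebra ℚ F] (y : ι ⊕ Unit → F), Gen w h y →
        Itg w h σ g y * (B.map fun x => ev x y).prod = aeval y P

/-- REL: rules for the integrals -/
def Stmt_REL : Prop :=
  ∀ (ι κ : Type) [Fintype ι] [DecidableEq ι] [Fintype κ] [DecidableEq κ] (w : κ → ι → ℕ)
    (h : κ → ℝ), LinearIndependent ℚ h → ∀ (F : Type) [Field F] [Algebra ℚ F]
    (y : ι ⊕ Unit → F), Gen w h y → ∀ (σ : Finset (κ ⊕ ι)) (g g' : MvPolynomial (κ ⊕ ι) ℚ),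
    Itg w h σ (g + g') y = Itg w h σ g y + Itg w h σ g' y ∧
    (∀ c : ℚ, Itg w h σ (C c * g) y = algebraMap ℚ F c * Itg w h σ g y) ∧
    (∀ e, Itg w h σ (relv w e * g) y = y e * Itg w h σ g y) ∧
    (∀ v, v ∉ σ → Itg w h σ (X v * g) y = Itg w h (insert v σ) g y) ∧
    (∀ (d : ℕ) (t : F), g.IsHomogeneous d → t ≠ 0 →
      Itg w h σ g (fun e => t * y e) * t ^ (Fintype.card ι + 1) =
        t ^ (d + σ.card) * Itg w h σ g y) ∧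
    ((∀ Δ ∈ maxCells w h, ¬ σ ⊆ Δ) → Itg w h σ g y = 0)

/-- GENP: there are generic vectors, and they give generic points -/
def Stmt_GENP : Prop :=
  ∀ (ι κ : Type) [Fintype ι] [DecidableEq ι] [Fintype κ] [DecidableEq κ] (w : κ → ι → ℕ)
    (h : κ → ℝ), LinearIndependent ℚ h → ∃ p : ι → ℚ, Gp w h p ∧
      (∀ j : ℕ, 1 ≤ j → Gen w h (yv p j)) ∧ ∀ (s₀ : ℚ) (N : ℕ), 2 ≤ N → Gen w h (crv p s₀ N)

/-- LIM: the integrals over good cells are regular at `(0, …, 0, -1)` -/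
def Stmt_LIM : Prop :=
  ∀ (ι κ : Type) [Fintype ι] [DecidableEq ι] [Fintype κ] [DecidableEq κ] [Nonempty κ]
    (w : κ → ι → ℕ) (h : κ → ℝ) (p : ι → ℚ), LinearIndependent ℚ h → Gp w h p →
    (∀ j : ℕ, 1 ≤ j → Gen w h (yv p j)) → ∀ (σ : Finset (κ ⊕ ι)) (g : MvPolynomial (κ ⊕ ι) ℚ),
    Good w σ → ∀ j : ℕ, 1 ≤ j →
      Ord j (Itg w h σ g (yv p j) - HahnSeries.C (Lf w h p σ g))

/-- LF: rules for the functional `Lf` -/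
def Stmt_LF : Prop :=
  ∀ (ι κ : Type) [Fintype ι] [DecidableEq ι] [Fintype κ] [DecidableEq κ] [Nonempty κ]
    (w : κ → ι → ℕ) (h : κ → ℝ) (p : ι → ℚ), LinearIndependent ℚ h → Gp w h p →
    (∀ j : ℕ, 1 ≤ j → Gen w h (yv p j)) → ∀ (σ : Finset (κ ⊕ ι)), Good w σ →
    ∀ g g' : MvPolynomial (κ ⊕ ι) ℚ,
    Lf w h p σ (g + g') = Lf w h p σ g + Lf w h p σ g' ∧
    (∀ c : ℚ, Lf w h p σ (C c * g) = c * Lf w h p σ g) ∧
    (∀ i, Lf w h p σ (relv w (Sum.inl i) * g) = 0) ∧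
    Lf w h p σ (relv w (Sum.inr ()) * g) = -Lf w h p σ g ∧
    (∀ v, v ∉ σ → Lf w h p σ (X v * g) = Lf w h p (insert v σ) g) ∧
    ∀ m : (κ ⊕ ι) →₀ ℕ, m.degree + σ.card < Fintype.card ι + 1 →
      Lf w h p σ (monomial m 1) ≠ 0 →
      (∃ Δ ∈ maxCells w h, σ ∪ m.support ⊆ Δ) ∧ ∃ x, Bd w (σ ∪ m.support) x

/-- PAIR: the zeta function as a sum over pairs of box points -/
def Stmt_PAIR : Prop :=
  ∀ (ι κ : Type) [Fintype ι] [DecidableEq ι] [Fintype κ] [DecidableEq κ] (w : κ → ι → ℕ)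
    (h : κ → ℝ) (e : ℕ), LinearIndependent ℚ h → 1 ≤ e →
    ∃ hf : (BP w h e).Finite, ∀ (F : Type) [Field F] [Algebra ℚ F] (y : ι ⊕ Unit → F),
      Gen w h y → Tf w h e y = ∑ b ∈ hf.toFinset, (-1) ^ (spp b).card *
        Itg w h (inl (spp b)) (∏ a ∈ (spp b)ᶜ, (1 - X (Sum.inl a))) y

/-- QC: the cell `M` depends only on the star -/
def Stmt_QC : Prop :=
  ∀ (ι κ : Type) [Fintype ι] [DecidableEq ι] [Fintype κ] [DecidableEq κ] (w : κ → ι → ℕ)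
    (h : κ → ℝ) (s₀ : ℚ), LinearIndependent ℚ h → ∀ Δ ∈ maxCells w h, ∀ Δ' ∈ maxCells w h,
    MM w s₀ Δ ⊆ Δ' → MM w s₀ Δ' = MM w s₀ Δ ∧ cf w Δ' (q0 ι s₀) = cf w Δ (q0 ι s₀)

/-- POLE: if the values of the functionals vanish then the zeta function has no pole -/
def Stmt_POLE : Prop :=
  ∀ (ι κ : Type) [Fintype ι] [DecidableEq ι] [Fintype κ] [DecidableEq κ] [Nonempty κ]
    (w : κ → ι → ℕ) (h : κ → ℝ) (p : ι → ℚ) (s₀ : ℚ) (e : ℕ), LinearIndependent ℚ h → 1 ≤ e →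
    Gp w h p → (∀ j : ℕ, 1 ≤ j → Gen w h (yv p j)) →
    (∀ N : ℕ, 2 ≤ N → Gen w h (crv p s₀ N)) →
    (∀ b ∈ BP w h e, ∀ Δ ∈ maxCells w h, inl (spp b) ⊆ Δ → Good w (BB w s₀ Δ b) ∧
      ∀ (g : MvPolynomial (κ ⊕ ι) ℚ) (d : ℕ), g.IsHomogeneous d →
        (QQ w s₀ Δ b).card + d + (BB w s₀ Δ b).card < Fintype.card ι + 1 →
        Lf w h p (BB w s₀ Δ b) (xprod (QQ w s₀ Δ b) * g) = 0) →
    ∀ N : ℕ, Fintype.card ι + 3 ≤ N → Ord 0 (Tf w h e (crv p s₀ N))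

/-- TD: a common denominator of the zeta function -/
def Stmt_TD : Prop :=
  ∀ (ι κ : Type) [Fintype ι] [DecidableEq ι] [Fintype κ] [DecidableEq κ] [Nonempty κ]
    (w : κ → ι → ℕ) (h : κ → ℝ) (e : ℕ), LinearIndependent ℚ h →
    ∃ (B : List (ι ⊕ Unit → ℚ)) (P : MvPolynomial (ι ⊕ Unit) ℚ), (∀ x ∈ B, Bd w ∅ x) ∧
      ∀ (F : Type) [Field F] [Algebra ℚ F] (y : ι ⊕ Unit → F), Gen w h y →
        Tf w h e y * (B.map fun x => ev x y).prod = aeval y P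

/-- NUM: a pole on the line is a pole on the curves -/
def Stmt_NUM : Prop :=
  ∀ (ι κ : Type) [Fintype ι] [DecidableEq ι] [Fintype κ] [DecidableEq κ] (w : κ → ι → ℕ)
    (p : ι → ℚ) (B : List (ι ⊕ Unit → ℚ)) (P : MvPolynomial (ι ⊕ Unit) ℚ),
    (∀ x ∈ B, Bd w ∅ x) →
    aeval (line ι) (B.map fun x => ∑ e, C (x e) * X e).prod ≠ 0 ∧
    ∀ s : ℂ, (∀ z : ℤ, s ≠ z) →
      Polynomial.aeval s (aeval (line ι) P /
        aeval (line ι) (B.map fun x => ∑ e, C (x e) * X e).prod : RatFunc ℚ).denom = 0 →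
      ∃ s₀ : ℚ, (s₀ : ℂ) = s ∧ ∃ N₀ : ℕ, ∀ (N : ℕ) (T : LaurentSeries ℚ), N₀ ≤ N →
        T * (B.map fun x => ev x (crv p s₀ N)).prod = aeval (crv p s₀ N) P → ¬ Ord 0 T

/-- COV: covered rows -/
def Stmt_COV : Prop :=
  ∀ (ι κ : Type) [Fintype ι] [DecidableEq ι] [Fintype κ] [DecidableEq κ] [Nonempty κ]
    (w : κ → ι → ℕ) (h : κ → ℝ) (s₀ : ℚ) (e : ℕ), LinearIndependent ℚ h →
    ∀ b ∈ BP w h e, ∀ Δ ∈ maxCells w h, inl (spp b) ⊆ Δ →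
    AA w s₀ Δ b ⊆ QQ w s₀ Δ b ∧ AA w s₀ Δ b ⊆ HP w s₀ Δ b ∧
    (∀ i, Sum.inr i ∉ BB w s₀ Δ b → ∃ a, w a i ≠ 0 ∧
      (a ∈ HP w s₀ Δ b ∨ ∀ z : ℤ, cc0 w s₀ Δ a ≠ z)) ∧
    Good w (BB w s₀ Δ b) ∧ Good w (BB w s₀ Δ b \ inl (HP w s₀ Δ b \ AA w s₀ Δ b)) ∧
    (∑ a, cc0 w s₀ Δ a = -s₀) ∧
    (∀ i, Sum.inr i ∉ BB w s₀ Δ b → ∑ a, cc0 w s₀ Δ a * w a i = 1) ∧
    ∀ a, (∀ z : ℤ, cc0 w s₀ Δ a ≠ z) → Sum.inl a ∈ BB w s₀ Δ b

/-- DAT: a nonvanishing value gives the data of a witness -/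
def Stmt_DAT : Prop :=
  ∀ (ι κ : Type) [Fintype ι] [DecidableEq ι] [Fintype κ] [DecidableEq κ] [Nonempty κ]
    (w : κ → ι → ℕ) (h : κ → ℝ) (p : ι → ℚ) (s₀ : ℚ) (c : κ → ℚ) (σ : Finset (κ ⊕ ι))
    (m : (κ ⊕ ι) →₀ ℕ), LinearIndependent ℚ h → Gp w h p →
    (∀ j : ℕ, 1 ≤ j → Gen w h (yv p j)) → Good w σ → (∀ z : ℤ, s₀ ≠ z) → ∑ a, c a = -s₀ →
    (∀ i, Sum.inr i ∉ σ → ∃ z : ℤ, ∑ a, c a * w a i = z) →
    (∀ a, (∀ z : ℤ, c a ≠ z) → Sum.inl a ∈ σ) →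
    (∀ i, Sum.inr i ∉ σ → m (Sum.inr i) = 0 →
      ∃ a, w a i ≠ 0 ∧ (m (Sum.inl a) ≠ 0 ∨ ∀ z : ℤ, c a ≠ z)) →
    m.degree + σ.card < Fintype.card ι + 1 → Lf w h p σ (monomial m 1) ≠ 0 →
    LamDatum w h s₀

end Pool.Agent.Mono.NP
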