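import Pool.Agent.Work.Monodromy.Defs12

/-!
# Phase 12, part III: a functional gives a witness; blocks (helper17)

See `Monodromy12/BLUEPRINT12.md`.
-/

set_option autoImplicit false

namespace Pool.Agent.Mono.NP

open MvPolynomial

/-- series which behave like `1/Γ(r + 1 - X)` -/
def IsG (G : ℚ → PowerSeries ℚ) : Prop :=
  (∀ r : ℚ, G (r - 1) = (PowerSeries.C r - PowerSeries.X) * G r) ∧
  (∀ n : ℕ, PowerSeries.coeff 0 (G (-(n + 1))) = 0) ∧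
  (∀ n : ℕ, PowerSeries.coeff 1 (G (-(n + 1))) ≠ 0) ∧
  ∀ r : ℚ, (∀ n : ℕ, r ≠ -(n + 1)) → PowerSeries.coeff 0 (G r) ≠ 0

section

variable {ι κ : Type} [Fintype ι] [DecidableEq ι] [Fintype κ] [DecidableEq κ]

/-- `lam (∏ G_{n_a}(x_a))` -/
noncomputable def Lam (G : ℚ → PowerSeries ℚ) (d : ℕ) (lam : (κ →₀ ℕ) → ℚ) (n : κ → ℚ) : ℚ :=
  ∑ m : κ → Fin (d + 1), (∏ a, PowerSeries.coeff (m a : ℕ) (G (n a))) *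
    lam (Finsupp.equivFunOnFinite.symm fun a => (m a : ℕ))

/-- row `j` is covered by the `a` with `n_a` a negative integer or not an integer -/
def NCov (w : κ → ι → ℕ) (n : κ → ℚ) (j : ι) : Prop :=
  ∃ a, w a j ≠ 0 ∧ ((∃ k : ℕ, n a = -(k + 1)) ∨ ∀ z : ℤ, n a ≠ z)

/-- the index set of the series: `n ∈ -c + ℤ^κ`, `∑ n_a w_a = -u`, `∑ n_a = β` -/
def NS (w : κ → ι → ℕ) (c : κ → ℚ) (β : ℚ) (u : ι → ℚ) : Set (κ → ℚ) :=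
  {n | (∀ a, ∃ z : ℤ, n a + c a = z) ∧ (∀ i, ∑ a, n a * w a i = -u i) ∧ ∑ a, n a = β}

/-- `n·h` -/
def hdot (h : κ → ℝ) (n : κ → ℚ) : ℝ := ∑ a, (n a : ℝ) * h a

/-- the data of a functional (the body of `LamDatum`) -/
def LamD (w : κ → ι → ℕ) (h : κ → ℝ) (s₀ : ℚ) (c : κ → ℚ) (J : Finset ι) (d : ℕ)
    (lam : (κ →₀ ℕ) → ℚ) : Prop :=
    (∑ a, c a = -s₀) ∧
    (∀ i, i ∉ J → ∃ z : ℤ, ∑ a, c a * w a i = z) ∧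
    (∀ m, lam m ≠ 0 → m.degree = d) ∧
    (∀ m, lam m ≠ 0 → ∃ k : ι → ℝ, (∀ i, 0 ≤ k i) ∧
      ∀ a, (m a ≠ 0 ∨ ∀ z : ℤ, c a ≠ z) → Sum.inl a ∈ cell w h k) ∧
    (∀ m, lam m ≠ 0 → ∃ (x : ι → ℚ) (N : ℚ), 0 < N ∧ (∀ i, 0 ≤ x i) ∧ (∀ j ∈ J, x j = 0) ∧
      (∀ a, N ≤ ∑ i, x i * w a i) ∧
      ∀ a, (m a ≠ 0 ∨ ∀ z : ℤ, c a ≠ z) → ∑ i, x i * w a i = N) ∧
    (∀ (i : ι) (m : κ →₀ ℕ), (∀ j, j ∉ J → j ≠ i → Cov w c m j) →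
      ∑ a, (w a i : ℚ) * lam (m + Finsupp.single a 1) = 0) ∧
    (∀ m : κ →₀ ℕ, (∀ j, j ∉ J → Cov w c m j) → ∑ a, lam (m + Finsupp.single a 1) = 0) ∧
    ∃ m, (∀ j, j ∉ J → Cov w c m j) ∧ lam m ≠ 0

theorem lamDatum_iff (w : κ → ι → ℕ) (h : κ → ℝ) (s₀ : ℚ) :
    LamDatum w h s₀ ↔ ∃ c J d lam, LamD w h s₀ c J d lam := Iff.rfl

end

/-! ## Blocks -/

/-- G: the series exist -/
def Stmt_G : Prop := ∃ G : ℚ → PowerSeries ℚ, IsG G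

/-- SP: the shifts of `G_r` span everything which they can span -/
def Stmt_SP : Prop :=
  ∀ (G : ℚ → PowerSeries ℚ), IsG G → ∀ (r : ℚ) (D : ℕ) (L : ℕ → ℚ),
    (∀ j ≤ D, ∑ i ∈ Finset.range (D + 1), L i * PowerSeries.coeff i (G (r - j)) = 0) →
    ∀ i ≤ D, (1 ≤ i ∨ ∀ n : ℕ, r ≠ -(n + 1)) → L i = 0

/-- LR: recursions of `Lam` -/
def Stmt_LR : Prop :=
  ∀ (G : ℚ → PowerSeries ℚ), IsG G → ∀ (ι κ : Type) [Fintype ι] [DecidableEq ι] [Fintype κ]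
    [DecidableEq κ] (w : κ → ι → ℕ) (h : κ → ℝ) (s₀ : ℚ) (c : κ → ℚ) (J : Finset ι) (d : ℕ)
    (lam : (κ →₀ ℕ) → ℚ), LamD w h s₀ c J d lam →
    ∀ n : κ → ℚ, (∀ a, ∃ z : ℤ, n a + c a = z) →
    (∀ i, (∀ j, j ∉ J → j ≠ i → NCov w n j) →
      ∑ a, (w a i : ℚ) * Lam G d lam (fun b => n b - if b = a then 1 else 0) =
        (∑ a, (w a i : ℚ) * n a) * Lam G d lam n) ∧
    ((∀ j, j ∉ J → NCov w n j) →
      ∑ a, Lam G d lam (fun b => n b - if b = a then 1 else 0) = (∑ a, n a) * Lam G d lam n)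

/-- SUPP: where `Lam` is not zero; the total degree is bounded -/
def Stmt_SUPP : Prop :=
  ∀ (G : ℚ → PowerSeries ℚ), IsG G → ∀ (ι κ : Type) [Fintype ι] [DecidableEq ι] [Fintype κ]
    [DecidableEq κ] (w : κ → ι → ℕ) (h : κ → ℝ) (s₀ : ℚ) (c : κ → ℚ) (J : Finset ι) (d : ℕ)
    (lam : (κ →₀ ℕ) → ℚ), LamD w h s₀ c J d lam →
    ∀ n : κ → ℚ, (∀ a, ∃ z : ℤ, n a + c a = z) → Lam G d lam n ≠ 0 →
    (∃ m, lam m ≠ 0 ∧ m.degree = d ∧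
      ∀ a, m a = 0 → (∃ z : ℤ, c a = z) → ∃ k : ℕ, n a = k) ∧
    ((∀ i, i ∉ J → ∑ a, n a * w a i ≤ 0) → ∑ a, n a ≤ 0)

/-- FIN: finitely many terms with bounded exponent -/
def Stmt_FIN : Prop :=
  ∀ (G : ℚ → PowerSeries ℚ), IsG G → ∀ (ι κ : Type) [Fintype ι] [DecidableEq ι] [Fintype κ]
    [DecidableEq κ] (w : κ → ι → ℕ) (h : κ → ℝ) (s₀ : ℚ) (c : κ → ℚ) (J : Finset ι) (d : ℕ)
    (lam : (κ →₀ ℕ) → ℚ), LinearIndependent ℚ h → LamD w h s₀ c J d lam →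
    ∀ (β : ℚ) (u : ι → ℚ) (g : ℝ),
      {n : κ → ℚ | n ∈ NS w c β u ∧ Lam G d lam n ≠ 0 ∧ hdot h n ≤ g}.Finite

/-- NZ: `Lam` does not vanish -/
def Stmt_NZ : Prop :=
  ∀ (G : ℚ → PowerSeries ℚ), IsG G → ∀ (ι κ : Type) [Fintype ι] [DecidableEq ι] [Fintype κ]
    [DecidableEq κ] (w : κ → ι → ℕ) (h : κ → ℝ) (s₀ : ℚ) (c : κ → ℚ) (J : Finset ι) (d : ℕ)
    (lam : (κ →₀ ℕ) → ℚ), LamD w h s₀ c J d lam →
    ∃ n : κ → ℚ, (∀ a, ∃ z : ℤ, n a + c a = z) ∧ (∀ i, i ∉ J → ∑ a, n a * w a i ≤ -1) ∧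
      Lam G d lam n ≠ 0

/-- EMB: algebraically independent numbers are monomials in a field of Hahn series -/
def Stmt_EMB : Prop :=
  ∀ (κ : Type) [Fintype κ] (h : κ → ℝ) (a : κ → ℂ), LinearIndependent ℚ h →
    AlgebraicIndependent ℚ a →
    ∃ f : HahnSeries ℝ ℚ →+* ℂ, ∀ v, f (HahnSeries.single (h v) 1) = a v

/-- PHI: the series `∑_n Lam(n) t^{n·h}` and their relations -/
def Stmt_PHI : Prop :=
  ∀ (G : ℚ → PowerSeries ℚ), IsG G → ∀ (ι κ : Type) [Fintype ι] [DecidableEq ι] [Fintype κ]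
    [DecidableEq κ] (w : κ → ι → ℕ) (h : κ → ℝ) (s₀ : ℚ) (c : κ → ℚ) (J : Finset ι) (d : ℕ)
    (lam : (κ →₀ ℕ) → ℚ), LinearIndependent ℚ h → LamD w h s₀ c J d lam →
    ∃ Φ : ℚ → (ι → ℚ) → HahnSeries ℝ ℚ,
      (∀ β u, ∀ n ∈ NS w c β u, (Φ β u).coeff (hdot h n) = Lam G d lam n) ∧
      (∀ β u, Φ β u ≠ 0 → ∃ n ∈ NS w c β u, Lam G d lam n ≠ 0) ∧
      (∀ β u i, (∀ j, j ∉ J → j ≠ i → 1 ≤ u j) →
        ∑ a, HahnSeries.C (w a i : ℚ) * (HahnSeries.single (h a) 1 *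
          Φ (β - 1) (fun j => u j + w a j)) = HahnSeries.C (-u i) * Φ β u) ∧
      ∀ β u, (∀ j, j ∉ J → 1 ≤ u j) →
        ∑ a, HahnSeries.single (h a) 1 * Φ (β - 1) (fun j => u j + w a j) =
          HahnSeries.C β * Φ β u

/-- WITA: a function with the relations gives a witness -/
def Stmt_WITA : Prop :=
  ∀ (ι κ : Type) [Fintype ι] [DecidableEq ι] [Fintype κ] [DecidableEq κ] (w : κ → ι → ℕ)
    (a : κ → ℂ) (J : Finset ι) (ν : ι → ℚ) (β : ℚ) (Φ : ℤ → (ι → ℤ) → ℂ),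
    (∀ i, i ∉ J → ν i = 0) →
    (∀ (k : ℤ) (u : ι → ℤ) (i : ι), (∀ j, j ∉ J → 0 ≤ u j) →
      ∑ v, (w v i : ℂ) * (a v * Φ (k + 1) (fun j => u j + w v j - if j = i then 1 else 0)) =
        -((u i : ℂ) + (ν i : ℂ)) * Φ k (fun j => u j - if j = i then 1 else 0)) →
    (∀ (k : ℤ) (u : ι → ℤ), (∀ j, j ∉ J → 0 ≤ u j) →
      ∑ v, a v * Φ (k + 1) (fun j => u j + w v j) = ((β : ℂ) - k) * Φ k u) →
    (∃ k₀ : ℤ, ∀ k < k₀, ∀ u : ι → ℤ, (∀ j, j ∉ J → 0 ≤ u j) → Φ k u = 0) →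
    (∃ (k : ℤ) (u : ι → ℤ), (∀ j, j ∉ J → 0 ≤ u j) ∧ Φ k u ≠ 0) →
    ∃ z : ℤ, TS.Wit (poly w a) ((β + z : ℚ) : ℂ)

end Pool.Agent.Mono.NP
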