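import Pool.Agent.Work.Monodromy.Defs12

/-!
# Phase 12, part K: Kouchnirenko's theorem for a Fubini measure; blocks (helper17)

See `Monodromy12/BLUEPRINT_K.md`.
-/

set_option autoImplicit false

namespace Pool.Agent.Mono.NP

open MvPolynomial Filter Topology

section

variable {κ : Type} [Fintype κ] {d : ℕ}

/-- the monomial `x^{w_v}` -/
def mn (w : κ → Fin d → ℕ) (x : Fin d → ℂ) (v : κ) : ℂ := ∏ i, x i ^ w v i

/-- `f(x) = ∑ a_v x^{w_v}` -/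
def sm (w : κ → Fin d → ℕ) (a : κ → ℂ) (x : Fin d → ℂ) : ℂ := ∑ v, a v * mn w x v

/-- `(x_i ∂_i f)(x)` -/
def sth (w : κ → Fin d → ℕ) (a : κ → ℂ) (x : Fin d → ℂ) (i : Fin d) : ℂ :=
  ∑ v, a v * (w v i : ℂ) * mn w x v

/-- `(x_i ∂_i x_j ∂_j f)(x)` -/
def shs (w : κ → Fin d → ℕ) (a : κ → ℂ) (x : Fin d → ℂ) (i j : Fin d) : ℂ :=
  ∑ v, a v * (w v i : ℂ) * (w v j : ℂ) * mn w x v

/-- the torus -/
def TT (d : ℕ) : Set (Fin d → ℂ) := {x | ∀ i, x i ≠ 0}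

/-- the hypersurface `f = 0` in the torus -/
def Hyp (w : κ → Fin d → ℕ) (a : κ → ℂ) : Set (Fin d → ℂ) := {x | x ∈ TT d ∧ sm w a x = 0}

/-- its singular points -/
def Nds (w : κ → Fin d → ℕ) (a : κ → ℂ) : Set (Fin d → ℂ) :=
  {x | x ∈ TT d ∧ sm w a x = 0 ∧ ∀ i, sth w a x i = 0}

/-- the exponents affinely span the space -/
def FullDim (w : κ → Fin d → ℕ) : Prop :=
  ∀ (ρ : Fin d → ℚ) (z : ℚ), (∀ v, ∑ i, ρ i * w v i = z) → ρ = 0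

/-- `F` is (the set of exponents in) a face: dual form -/
def Fc (w : κ → Fin d → ℕ) (F : Finset κ) : Prop :=
  ∀ m : κ → ℚ, ∑ v, m v = 0 → (∀ i, ∑ v, m v * w v i = 0) → (∀ v, v ∉ F → 0 ≤ m v) →
    ∀ v, v ∉ F → m v = 0

/-- nondegenerate at infinity -/
def NdI (w : κ → Fin d → ℕ) (a : κ → ℂ) : Prop :=
  ∀ F : Finset κ, F.Nonempty → F ≠ Finset.univ → Fc w F → ∀ x ∈ TT d,
    ¬ (∑ v ∈ F, a v * mn w x v = 0 ∧ ∀ i, ∑ v ∈ F, a v * (w v i : ℂ) * mn w x v = 0)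

/-- all singular points are nodes -/
def Nod (w : κ → Fin d → ℕ) (a : κ → ℂ) : Prop :=
  ∀ x ∈ Nds w a, (Matrix.of (shs w a x)).det ≠ 0

/-- the critical points of `x_0` on the hypersurface, and the singular points -/
def Cr (w : κ → Fin (d + 1) → ℕ) (a : κ → ℂ) : Set (Fin (d + 1) → ℂ) :=
  {x | x ∈ TT (d + 1) ∧ sm w a x = 0 ∧ ∀ i : Fin d, sth w a x i.succ = 0}

/-- the direction `x_0` is good for all faces -/
def Dr (w : κ → Fin (d + 1) → ℕ) : Prop :=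
  ∀ F : Finset κ,
    (∃ (ρ : Fin (d + 1) → ℚ) (z : ℚ), ρ ≠ 0 ∧ ∀ v ∈ F, ∑ i, ρ i * w v i = z) →
    ∃ (ρ : Fin (d + 1) → ℚ) (z : ℚ), ρ 0 ≠ 0 ∧ ∀ v ∈ F, ∑ i, ρ i * w v i = z

/-- the slices `x_0 = c` have nodes only -/
def H2 (w : κ → Fin (d + 1) → ℕ) (a : κ → ℂ) : Prop :=
  ∀ x ∈ Cr w a, (Matrix.of fun i j : Fin d => shs w a x i.succ j.succ).det ≠ 0

/-- nondegenerate solutions of the system of `Cr` -/
def ND (w : κ → Fin (d + 1) → ℕ) (a : κ → ℂ) (x : Fin (d + 1) → ℂ) : Prop :=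
  ∀ ξ : Fin (d + 1) → ℂ, ∑ j, ξ j * sth w a x j = 0 →
    (∀ i : Fin d, ∑ j, ξ j * shs w a x i.succ j = 0) → ξ = 0

/-- `C` is the set of all `v` where `k·w_v + h_v` is minimal -/
def ArgM (w : κ → Fin d → ℕ) (h : κ → ℝ) (C : Finset κ) (k : Fin d → ℝ) : Prop :=
  ∀ v, v ∈ C ↔ ∀ u, hval w h k v ≤ hval w h k u

/-- coefficients restricted to `C` -/
noncomputable def rc (b : κ → ℂ) (C : Finset κ) (v : κ) : ℂ :=
  open Classical in if v ∈ C then b v else 0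

open Classical in
/-- the volume of the triangulation: the sum of `|det (w_v, 1)|` over the cells of dimension `d` -/
noncomputable def VolT [DecidableEq κ] (w : κ → Fin d → ℕ) (h : κ → ℝ) : ℚ :=
  ∑ C ∈ (Finset.univ : Finset (Finset κ)).filter
    (fun C => C.card = d + 1 ∧ ∃ k, ArgM w h C k), adet w (inl C)

/-- unimodular change of coordinates: `x_0 ↦ x_0 ∏ x_i^{m_i}` -/
def chw (m : Fin d → ℕ) (W : ℕ) (w : κ → Fin (d + 1) → ℕ) : κ → Fin (d + 1) → ℕ :=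
  fun v => Fin.cons (w v 0) fun i => w v i.succ + m i * (W - w v 0)

/-- exponents and coefficients of the slice `x_0 = c` -/
def slw (w : κ → Fin (d + 1) → ℕ) : κ → Fin d → ℕ := fun v i => w v i.succ

/-- coefficients of the slice `x_0 = c` -/
def sla (w : κ → Fin (d + 1) → ℕ) (a : κ → ℂ) (c : ℂ) : κ → ℂ := fun v => a v * c ^ w v 0

end

/-! ## The result -/

/-- K: Kouchnirenko's theorem for the class at `u = 1` -/
def Stmt_K : Prop :=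
  ∀ (E : EulerMeasure) (κ : Type) [Fintype κ] [DecidableEq κ] (d : ℕ) (w : κ → Fin d → ℕ)
    (a : κ → ℂ) (h : κ → ℝ), 1 ≤ d → FullDim w → AlgebraicIndependent ℚ a →
    LinearIndependent ℚ h →
    (((E.val (Hyp w a)).eval 1 : ℤ) : ℚ) = (-1) ^ (d - 1) * VolT w h

/-! ## Blocks -/

/-- KAUT: automorphisms of `ℂ` -/
def Stmt_KAUT : Prop :=
  ∀ (κ : Type) [Fintype κ] (a b : κ → ℂ), AlgebraicIndependent ℚ a → AlgebraicIndependent ℚ b →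
    ∃ σ : ℂ ≃+* ℂ, ∀ v, σ (a v) = b v

/-- KG: generic numbers over a countable set -/
def Stmt_KG : Prop :=
  ∀ (κ : Type) [Fintype κ] (s : Set ℂ), s.Countable → ∃ g : κ → ℂ,
    (∀ c e : κ → ℂ, (∀ v, c v ∈ s ∧ e v ∈ s ∧ e v ≠ 0) →
      AlgebraicIndependent ℚ fun v => c v + e v * g v) ∧
    ∀ c : κ → ℂ, (∀ v, c v ∈ s) → (∃ v, c v ≠ 0) → ∑ v, c v * g v ≠ 0

/-- KMON: the number of solutions of a system of monomial equations -/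
def Stmt_KMON : Prop :=
  ∀ (ι : Type) [Fintype ι] [DecidableEq ι] (m : Matrix ι ι ℤ) (c : ι → ℂ), m.det ≠ 0 →
    (∀ i, c i ≠ 0) →
    {z : ι → ℂ | (∀ i, z i ≠ 0) ∧ ∀ j, ∏ i, z i ^ (m j i) = c j}.ncard = m.det.natAbs

/-- KSIM: the system of a simplex -/
def Stmt_KSIM : Prop :=
  ∀ (κ : Type) [Fintype κ] [DecidableEq κ] (d : ℕ) (w : κ → Fin (d + 1) → ℕ) (b : κ → ℂ)
    (C : Finset κ), C.card = d + 2 → (∀ v, b v ≠ 0) → Dr w →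
    (∀ m : κ → ℚ, (∀ v, v ∉ C → m v = 0) → ∑ v, m v = 0 → (∀ i, ∑ v, m v * w v i = 0) →
      m = 0) →
    (Cr w (rc b C)).Finite ∧ ((Cr w (rc b C)).ncard : ℚ) = adet w (inl C) ∧
      ∀ y ∈ Cr w (rc b C), ND w (rc b C) y

/-- KIFT: a nondegenerate solution is stable -/
def Stmt_KIFT : Prop :=
  ∀ (κ : Type) [Fintype κ] (d : ℕ) (w : κ → Fin (d + 1) → ℕ) (c : ℕ → κ → ℂ) (c₀ : κ → ℂ)
    (y : Fin (d + 1) → ℂ), Tendsto c atTop (𝓝 c₀) → y ∈ Cr w c₀ → ND w c₀ y →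
    ∀ B₀ ∈ 𝓝 y, ∃ B ∈ 𝓝 y, B ⊆ B₀ ∧
      ∀ᶠ n in atTop, {x | x ∈ B ∧ x ∈ Cr w (c n)}.ncard = 1

/-- KLM1: limits of solutions of the tropical system -/
def Stmt_KLM1 : Prop :=
  ∀ (κ : Type) [Fintype κ] [DecidableEq κ] (d : ℕ) (w : κ → Fin (d + 1) → ℕ) (h : κ → ℝ)
    (b : κ → ℂ) (U : Ultrafilter ℕ) (x : ℕ → Fin (d + 1) → ℂ), FullDim w → Dr w →
    LinearIndependent ℚ h → (∀ v, b v ≠ 0) → (U : Filter ℕ) ≤ atTop →
    (∀ᶠ n : ℕ in (U : Filter ℕ),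
      x n ∈ Cr w fun v => b v * (Real.exp (-((n : ℝ) * h v)) : ℂ)) →
    ∃ (C : Finset κ) (k : Fin (d + 1) → ℝ), C.card = d + 2 ∧ ArgM w h C k ∧
      ∃ y ∈ Cr w (rc b C),
        Tendsto (fun (n : ℕ) i => (Real.exp ((n : ℝ) * k i) : ℂ) * x n i) (U : Filter ℕ) (𝓝 y)

/-- KLM2: limits of solutions of a perturbed system -/
def Stmt_KLM2 : Prop :=
  ∀ (κ : Type) [Fintype κ] (d : ℕ) (w : κ → Fin (d + 1) → ℕ) (a : κ → ℂ) (A : ℕ → κ → ℂ)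
    (U : Ultrafilter ℕ) (x : ℕ → Fin (d + 1) → ℂ), FullDim w → NdI w a → Dr w →
    Tendsto A (U : Filter ℕ) (𝓝 a) → (∀ᶠ n in (U : Filter ℕ), x n ∈ Cr w (A n)) →
    ∃ y ∈ Cr w a, Tendsto x (U : Filter ℕ) (𝓝 y)

/-- KCMP: counting by limits -/
def Stmt_KCMP : Prop :=
  ∀ (X P : Type) [Fintype P] (Sol : ℕ → Set X) (B : P → ℕ → Set X) (m : P → ℕ),
    (∀ p, ∀ᶠ n in atTop, (Sol n ∩ B p n).Finite ∧ (Sol n ∩ B p n).ncard = m p) →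
    (∀ p q, p ≠ q → ∀ᶠ n in atTop, Disjoint (B p n) (B q n)) →
    (∀ (U : Ultrafilter ℕ), (U : Filter ℕ) ≤ atTop → ∀ x : ℕ → X,
      (∀ᶠ n in (U : Filter ℕ), x n ∈ Sol n) → ∃ p, ∀ᶠ n in (U : Filter ℕ), x n ∈ B p n) →
    ∀ᶠ n in atTop, (Sol n).Finite ∧ (Sol n).ncard = ∑ p, m p

/-- KCNT1: the number of critical points for generic coefficients -/
def Stmt_KCNT1 : Prop :=
  ∀ (κ : Type) [Fintype κ] [DecidableEq κ] (d : ℕ) (w : κ → Fin (d + 1) → ℕ) (h : κ → ℝ)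
    (a : κ → ℂ), FullDim w → Dr w → LinearIndependent ℚ h → AlgebraicIndependent ℚ a →
    (Cr w a).Finite ∧ ((Cr w a).ncard : ℚ) = VolT w h

/-- KISO: the solutions are isolated -/
def Stmt_KISO : Prop :=
  ∀ (κ : Type) [Fintype κ] (d : ℕ) (w : κ → Fin (d + 1) → ℕ) (a : κ → ℂ)
    (x : Fin (d + 1) → ℂ), x ∈ Cr w a →
    (Matrix.of fun i j : Fin d => shs w a x i.succ j.succ).det ≠ 0 →
    (x ∈ Nds w a → (Matrix.of (shs w a x)).det ≠ 0) →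
    ∃ B ∈ 𝓝 x, ∀ y ∈ B, y ∈ Cr w a → y = x

/-- KNODE: a node gives two solutions -/
def Stmt_KNODE : Prop :=
  ∀ (κ : Type) [Fintype κ] (d : ℕ) (w : κ → Fin (d + 1) → ℕ) (a g : κ → ℂ)
    (x : Fin (d + 1) → ℂ) (η : ℕ → ℂ), x ∈ Nds w a →
    (Matrix.of fun i j : Fin d => shs w a x i.succ j.succ).det ≠ 0 →
    (Matrix.of (shs w a x)).det ≠ 0 → sm w g x ≠ 0 → Tendsto η atTop (𝓝 0) →
    (∀ n, η n ≠ 0) → ∀ B₀ ∈ 𝓝 x, ∃ B ∈ 𝓝 x, B ⊆ B₀ ∧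
      ∀ᶠ n in atTop, {y | y ∈ B ∧ y ∈ Cr w fun v => a v + η n ^ 2 * g v}.ncard = 2

/-- KCNT2: the number of critical points in the presence of nodes -/
def Stmt_KCNT2 : Prop :=
  ∀ (κ : Type) [Fintype κ] [DecidableEq κ] (d : ℕ) (w : κ → Fin (d + 1) → ℕ) (h : κ → ℝ)
    (a : κ → ℂ), FullDim w → NdI w a → Nod w a → Dr w → H2 w a → LinearIndependent ℚ h →
    (Cr w a).Finite ∧ ((Cr w a).ncard : ℚ) + ((Nds w a).ncard : ℚ) = VolT w h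

/-- KSLC: the slices are in the class -/
def Stmt_KSLC : Prop :=
  ∀ (κ : Type) [Fintype κ] (d : ℕ) (w : κ → Fin (d + 1) → ℕ) (a : κ → ℂ) (c : ℂ), c ≠ 0 →
    FullDim w → NdI w a → Dr w → H2 w a →
    FullDim (slw w) ∧ NdI (slw w) (sla w a c) ∧ Nod (slw w) (sla w a c) ∧
      Nds (slw w) (sla w a c) = {y | (Fin.cons c y : Fin (d + 1) → ℂ) ∈ Cr w a} ∧
      Hyp (slw w) (sla w a c) = {y | (Fin.cons c y : Fin (d + 1) → ℂ) ∈ Hyp w a}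

/-- KFUB: integration over the slices -/
def Stmt_KFUB : Prop :=
  ∀ (E : EulerMeasure) (κ : Type) [Fintype κ] (d : ℕ) (w : κ → Fin (d + 1) → ℕ) (a : κ → ℂ)
    (z : ℚ), 1 ≤ d → (Cr w a).Finite →
    (∀ c : ℂ, c ≠ 0 →
      (((E.val {y | (Fin.cons c y : Fin (d + 1) → ℂ) ∈ Hyp w a}).eval 1 : ℤ) : ℚ) =
        (-1) ^ (d - 1) * (z - ({y | (Fin.cons c y : Fin (d + 1) → ℂ) ∈ Cr w a}.ncard : ℚ))) →
    (((E.val (Hyp w a)).eval 1 : ℤ) : ℚ) = (-1) ^ d * ((Cr w a).ncard : ℚ)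

/-- KCHG: change of coordinates -/
def Stmt_KCHG : Prop :=
  ∀ (E : EulerMeasure) (κ : Type) [Fintype κ] [DecidableEq κ] (d : ℕ)
    (w : κ → Fin (d + 1) → ℕ) (a : κ → ℂ) (h : κ → ℝ) (m : Fin d → ℕ) (W : ℕ),
    (∀ v, w v 0 ≤ W) →
    (FullDim w → FullDim (chw m W w)) ∧ (NdI w a → NdI (chw m W w) a) ∧
      (Nod w a → Nod (chw m W w) a) ∧ E.val (Hyp (chw m W w) a) = E.val (Hyp w a) ∧
      (Nds (chw m W w) a).ncard = (Nds w a).ncard ∧ VolT (chw m W w) h = VolT w h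

/-- KDIR: generic directions are good for the faces -/
def Stmt_KDIR : Prop :=
  ∀ (κ : Type) [Fintype κ] (d : ℕ) (w : κ → Fin (d + 1) → ℕ) (W : ℕ), (∀ v, w v 0 ≤ W) →
    ∃ P : MvPolynomial (Fin d) ℚ, P ≠ 0 ∧
      ∀ m : Fin d → ℕ, eval (fun i => (m i : ℚ)) P ≠ 0 → Dr (chw m W w)

/-- KDER: derivations dual to algebraically independent elements -/
def Stmt_KDER : Prop :=
  ∀ (k L : Type) [Field k] [Field L] [Algebra k L] [CharZero k] (ι : Type) [Fintype ι]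
    [DecidableEq ι] (m : ι → L), AlgebraicIndependent k m →
    ∃ D : ι → Derivation k L L, ∀ i j, D i (m j) = if i = j then 1 else 0

/-- KMOR: generic directions have nondegenerate critical points -/
def Stmt_KMOR : Prop :=
  ∀ (κ : Type) [Fintype κ] (d : ℕ) (w : κ → Fin (d + 1) → ℕ) (a : κ → ℂ) (W : ℕ),
    (∀ v, w v 0 ≤ W) → Nod w a → ∀ P : MvPolynomial (Fin d) ℚ, P ≠ 0 →
    ∃ m : Fin d → ℕ, eval (fun i => (m i : ℚ)) P ≠ 0 ∧ H2 (chw m W w) a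

/-- KNDG: generic coefficients are nondegenerate -/
def Stmt_KNDG : Prop :=
  ∀ (κ : Type) [Fintype κ] (d : ℕ) (w : κ → Fin d → ℕ) (a : κ → ℂ),
    AlgebraicIndependent ℚ a → ∀ F : Finset κ, F.Nonempty → ∀ x ∈ TT d,
    ¬ (∑ v ∈ F, a v * mn w x v = 0 ∧ ∀ i, ∑ v ∈ F, a v * (w v i : ℂ) * mn w x v = 0)

end Pool.Agent.Mono.NP
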