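import Pool.Agent.Work.Monodromy.Interface12A
import Pool.Agent.Work.Monodromy.Interface12K

/-!
# Phase 12, part I: the zeta function is given by the triangulation; blocks (helper2)

See `Monodromy12/BLUEPRINT12C.md`.
-/

set_option autoImplicit false

namespace Pool.Agent.Mono.NP

open MvPolynomial Filter Topology

section

variable {ι κ : Type} [Fintype ι] [DecidableEq ι] [Fintype κ] [DecidableEq κ]

/-! ## Faces, boxes, heights -/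

/-- `k·w_a` -/
def kw (w : κ → ι → ℕ) (k : ι → ℕ) (a : κ) : ℕ := ∑ i, k i * w a i

/-- the minimum of `k·w_a` -/
noncomputable def mnk (w : κ → ι → ℕ) (k : ι → ℕ) : ℕ := ⨅ a, kw w k a

open Classical in
/-- the face of `k`: the `a` with minimal `k·w_a` -/
noncomputable def fc (w : κ → ι → ℕ) (k : ι → ℕ) : Finset κ :=
  Finset.univ.filter fun a => ∀ b, kw w k a ≤ kw w k b

/-- the rank of the vectors `(w_a, 1)`, `a ∈ F` (one more than the dimension) -/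
noncomputable def rk (w : κ → ι → ℕ) (F : Finset κ) : ℕ :=
  Module.finrank ℚ (Submodule.span ℚ ((fun a => hat w (Sum.inl a)) '' (F : Set κ)))

/-- the number of box points of `C` whose weight has exact order `e` modulo `1` -/
noncomputable def nuE (w : κ → ι → ℕ) (e : ℕ) (C : Finset κ) : ℕ :=
  Nat.card {b : κ → ℚ // b ∈ Bx w C ∧ (∑ a, b a).den = e}

open Classical in
/-- the maximal simplices of the regular triangulation of `F` -/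
noncomputable def smp (w : κ → ι → ℕ) (h : κ → ℝ) (F : Finset κ) : Finset (Finset κ) :=
  Finset.univ.filter fun C => C.card = rk w F ∧
    ∃ k : ι → ℝ, ∀ a, a ∈ C ↔ a ∈ F ∧ ∀ b ∈ F, hval w h k a ≤ hval w h k b

open Classical in
/-- the nonempty cells of the triangulation which consist of elements of `κ` -/
noncomputable def cls0 (w : κ → ι → ℕ) (h : κ → ℝ) : Finset (Finset κ) :=
  Finset.univ.filter fun C => C.Nonempty ∧ ∃ Δ ∈ maxCells w h, inl C ⊆ Δ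

/-! ## Classes -/

/-- the hypersurface of the face `F` in the torus -/
def VF (w : κ → ι → ℕ) (a : κ → ℂ) (F : Finset κ) : Set (ι → ℂ) :=
  {x | (∀ i, x i ≠ 0) ∧ ∑ v ∈ F, a v * ∏ i, x i ^ w v i = 0}

/-- the cover `y^d = f_F(x) ≠ 0` of the complement -/
def WF (w : κ → ι → ℕ) (a : κ → ℂ) (d : ℕ) (F : Finset κ) : Set (ι ⊕ Unit → ℂ) :=
  {z | (∀ i, z (Sum.inl i) ≠ 0) ∧ z (Sum.inr ()) ≠ 0 ∧
    z (Sum.inr ()) ^ d = ∑ v ∈ F, a v * ∏ i, z (Sum.inl i) ^ w v i}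

/-- the points of `jetSet` at which the coordinate `i` of the jet has order `min (k i) (K + 1)` -/
def Jt (w : κ → ι → ℕ) (a : κ → ℂ) (d K : ℕ) (k : ι → ℕ) :
    Set ((ι × Fin (K + 1)) ⊕ Unit → ℂ) :=
  {z | z ∈ jetSet (poly w a) d K ∧ ∀ (i : ι) (l : Fin (K + 1)),
    ((l : ℕ) < k i → z (Sum.inl (i, l)) = 0) ∧ ((l : ℕ) = k i → z (Sum.inl (i, l)) ≠ 0)}

/-- the polynomials of all faces `fc w k`, `k ∈ ℕ^ι`, define smooth hypersurfaces in the torus -/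
def Nd (w : κ → ι → ℕ) (a : κ → ℂ) : Prop :=
  ∀ (F : Finset κ), F.Nonempty → (∃ k : ι → ℕ, F = fc w k) → ∀ x : ι → ℂ, (∀ i, x i ≠ 0) →
    ∑ v ∈ F, a v * ∏ i, x i ^ w v i = 0 →
      ∃ i, ∑ v ∈ F, (w v i : ℂ) * (a v * ∏ i', x i' ^ w v i') ≠ 0

/-- the contribution of `k` to the coefficient `K` -/
noncomputable def ct (E : HodgeMeasure) (w : κ → ι → ℕ) (a : κ → ℂ) (d K : ℕ) (u : ℝ)
    (k : ι → ℕ) : ℝ :=
  u⁻¹ ^ (∑ i, k i) *
    (if mnk w k = K then Polynomial.aeval u (E.val (WF w a d (fc w k)))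
    else if mnk w k < K then
      Polynomial.aeval u (E.val (VF w a (fc w k))) * (u - 1) * u⁻¹ ^ (K - mnk w k)
    else 0)

/-! ## Lattice sums -/

/-- integral version of `hat` -/
def zv (w : κ → ι → ℕ) : κ ⊕ ι → ι ⊕ Unit → ℤ :=
  Sum.elim (fun a => Sum.elim (fun i => (w a i : ℤ)) fun _ => 1)
    fun j => Sum.elim (Pi.single j 1) fun _ => 0

/-- the pairing of a lattice point with `vhat` -/
def zp (w : κ → ι → ℕ) (y : ι ⊕ Unit → ℤ) (v : κ ⊕ ι) : ℤ := ∑ e, zv w v e * y e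

/-- integral heights close to `K (h, 0)` -/
def Near (h : κ → ℝ) (K R : ℝ) (g : κ ⊕ ι → ℤ) : Prop :=
  (∀ a, |(g (Sum.inl a) : ℝ) - K * h a| ≤ R) ∧ ∀ j, |(g (Sum.inr j) : ℝ)| ≤ R

/-- the thick face of `C` -/
def Rg (w : κ → ι → ℕ) (g : κ ⊕ ι → ℤ) (M : ℕ) (C : Finset (κ ⊕ ι)) : Set (ι ⊕ Unit → ℤ) :=
  {y | (∀ v, 0 ≤ zp w y v + g v) ∧ ∀ v ∈ C, zp w y v + g v < M}

/-- the linear function `p·y` -/
noncomputable def ph (p : ι ⊕ Unit → ℝ) (y : ι ⊕ Unit → ℤ) : ℝ := ∑ e, p e * (y e : ℝ)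

/-- the exponential sum over the thick face -/
noncomputable def Us (w : κ → ι → ℕ) (g : κ ⊕ ι → ℤ) (M : ℕ) (C : Finset (κ ⊕ ι))
    (p : ι ⊕ Unit → ℝ) (ε : ℝ) : ℝ := ∑' y : Rg w g M C, Real.exp (-ε * ph p y)

/-- the weights are positive on `ι` and not positive in the last coordinate -/
def Pos (p : ι ⊕ Unit → ℝ) : Prop := (∀ i, 0 < p (Sum.inl i)) ∧ p (Sum.inr ()) ≤ 0

/-- the exponential sum over the `k ∈ ℕ^ι` with `C ⊆ fc w k` -/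
noncomputable def Fs (w : κ → ι → ℕ) (C : Finset κ) (p : ι ⊕ Unit → ℝ) (ε : ℝ) : ℝ :=
  ∑' k : {k : ι → ℕ // C ⊆ fc w k},
    Real.exp (-ε * (∑ i, p (Sum.inl i) * ((k : ι → ℕ) i : ℝ) - p (Sum.inr ()) * (mnk w k : ℝ)))

/-- the weights `(1 + η ζ, -s)` -/
noncomputable def pz (ζ : ι → ℝ) (s η : ℝ) : ι ⊕ Unit → ℝ :=
  Sum.elim (fun i => 1 + η * ζ i) fun _ => -s

/-- the lattice of the values `(y·vhat)_{v ∈ C}` -/
def Lt (w : κ → ι → ℕ) (C : Finset (κ ⊕ ι)) : AddSubgroup (C → ℤ) where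
  carrier := {z | ∃ y : ι ⊕ Unit → ℤ, ∀ v : C, z v = zp w y v}
  add_mem' := by
    rintro z z' ⟨y, hy⟩ ⟨y', hy'⟩
    refine ⟨y + y', fun v => ?_⟩
    rw [Pi.add_apply, hy, hy', zp, zp, zp, ← Finset.sum_add_distrib]
    exact Finset.sum_congr rfl fun e _ => by rw [Pi.add_apply]; ring
  zero_mem' := ⟨0, fun v => by simp [zp]⟩
  neg_mem' := by
    rintro z ⟨y, hy⟩
    refine ⟨-y, fun v => ?_⟩
    rw [Pi.neg_apply, hy, zp, zp, ← Finset.sum_neg_distrib]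
    exact Finset.sum_congr rfl fun e _ => by rw [Pi.neg_apply]; ring

end

/-! ## Blocks: geometry of the triangulation -/

/-- VERT: a nonempty polyhedron whose constraints span has a vertex, in the closure of any face -/
def Stmt_VERT : Prop :=
  ∀ (J τ : Type) [Fintype J] [Fintype τ] (L : τ → J → ℝ) (c : τ → ℝ) (y₀ : J → ℝ),
    Submodule.span ℝ (Set.range L) = ⊤ → (∀ t, 0 ≤ ∑ j, L t j * y₀ j + c t) →
    ∃ y : J → ℝ, (∀ t, 0 ≤ ∑ j, L t j * y j + c t) ∧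
      (∀ t, ∑ j, L t j * y₀ j + c t = 0 → ∑ j, L t j * y j + c t = 0) ∧
      Submodule.span ℝ (L '' {t | ∑ j, L t j * y j + c t = 0}) = ⊤

/-- MAXC: every cell is contained in a maximal cell -/
def Stmt_MAXC : Prop :=
  ∀ (ι κ : Type) [Fintype ι] [DecidableEq ι] [Fintype κ] [DecidableEq κ] [Nonempty κ]
    (w : κ → ι → ℕ) (h : κ → ℝ), LinearIndependent ℚ h → ∀ k : ι → ℝ, (∀ i, 0 ≤ k i) →
    ∃ Δ ∈ maxCells w h, cell w h k ⊆ Δ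

/-- CELI: the vectors of a cell of a subset are linearly independent -/
def Stmt_CELI : Prop :=
  ∀ (ι κ : Type) [Fintype ι] [DecidableEq ι] [Fintype κ] [DecidableEq κ] (w : κ → ι → ℕ)
    (h : κ → ℝ), LinearIndependent ℚ h → ∀ (k : ι → ℝ) (C : Finset κ),
    (∀ a ∈ C, ∀ b ∈ C, hval w h k a = hval w h k b) →
    LinearIndependent ℚ fun a : C => hat w (Sum.inl (a : κ))

/-- SMPF: for a face, the maximal simplices are the cells of the triangulation -/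
def Stmt_SMPF : Prop :=
  ∀ (ι κ : Type) [Fintype ι] [DecidableEq ι] [Fintype κ] [DecidableEq κ] [Nonempty κ]
    (w : κ → ι → ℕ) (h : κ → ℝ), LinearIndependent ℚ h → Full w h → ∀ (k : ι → ℕ) (C : Finset κ),
    C ∈ smp w h (fc w k) ↔ C ∈ cls0 w h ∧ C ⊆ fc w k ∧ C.card = rk w (fc w k)

/-! ## Blocks: lattice sums -/

/-- EMP: only thick faces of cells are not empty -/
def Stmt_EMP : Prop :=
  ∀ (ι κ : Type) [Fintype ι] [DecidableEq ι] [Fintype κ] [DecidableEq κ] [Nonempty κ]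
    (w : κ → ι → ℕ) (h : κ → ℝ), LinearIndependent ℚ h → ∀ (M : ℕ) (R : ℝ),
    ∃ K₀ : ℝ, ∀ K : ℝ, K₀ ≤ K → ∀ g : κ ⊕ ι → ℤ, Near h K R g → ∀ C : Finset (κ ⊕ ι),
      (Rg w g M C).Nonempty → ∃ Δ ∈ maxCells w h, C ⊆ Δ

/-- AUTO: the constraints of the vectors in the span of a cell are automatic -/
def Stmt_AUTO : Prop :=
  ∀ (ι κ : Type) [Fintype ι] [DecidableEq ι] [Fintype κ] [DecidableEq κ] [Nonempty κ]
    (w : κ → ι → ℕ) (h : κ → ℝ), LinearIndependent ℚ h → ∀ (M : ℕ) (R : ℝ),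
    ∃ K₀ : ℝ, ∀ K : ℝ, K₀ ≤ K → ∀ g : κ ⊕ ι → ℤ, Near h K R g → ∀ Δ ∈ maxCells w h,
      ∀ C ⊆ Δ, ∀ y : ι ⊕ Unit → ℤ, (∀ v ∈ C, 0 ≤ zp w y v + g v ∧ zp w y v + g v < M) →
        ∀ u, hat w u ∈ Submodule.span ℚ (hat w '' (C : Set (κ ⊕ ι))) → 0 ≤ zp w y u + g u

/-- CNT: the number of points of a coset of a lattice in a box -/
def Stmt_CNT : Prop :=
  ∀ (τ : Type) [Fintype τ] (L : AddSubgroup (τ → ℤ)) (M : ℕ) (g : τ → ℤ), 1 ≤ M →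
    (∀ z : τ → ℤ, (fun t => (M : ℤ) * z t) ∈ L) →
    {b : τ → ℤ | (∀ t, 0 ≤ b t ∧ b t < M) ∧ (fun t => b t - g t) ∈ L}.Finite ∧
    {b : τ → ℤ | (∀ t, 0 ≤ b t ∧ b t < M) ∧ (fun t => b t - g t) ∈ L}.ncard * L.index =
      M ^ Fintype.card τ

/-- DETI: the index of the lattice of a basis is the determinant -/
def Stmt_DETI : Prop :=
  ∀ (ι κ : Type) [Fintype ι] [DecidableEq ι] [Fintype κ] [DecidableEq κ] (w : κ → ι → ℕ)
    (Δ : Finset (κ ⊕ ι)), Δ.card = Fintype.card ι + 1 →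
    (LinearIndependent ℚ fun v : Δ => hat w (v : κ ⊕ ι)) →
    ((Lt w Δ).index : ℚ) = adet w Δ ∧
    ∀ C ⊆ Δ, ∀ z : C → ℤ, (fun v => ((Lt w Δ).index : ℤ) * z v) ∈ Lt w C

/-- IDX: the index of the lattice is the number of box points -/
def Stmt_IDX : Prop :=
  ∀ (ι κ : Type) [Fintype ι] [DecidableEq ι] [Fintype κ] [DecidableEq κ] (w : κ → ι → ℕ)
    (C : Finset κ), (LinearIndependent ℚ fun a : C => hat w (Sum.inl (a : κ))) →
    (Lt w (inl C : Finset (κ ⊕ ι))).index = nuE w 1 C ∧ 0 < nuE w 1 C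

/-- TOPC: the number of points of the thick vertices -/
def Stmt_TOPC : Prop :=
  ∀ (ι κ : Type) [Fintype ι] [DecidableEq ι] [Fintype κ] [DecidableEq κ] [Nonempty κ]
    (w : κ → ι → ℕ) (h : κ → ℝ), LinearIndependent ℚ h → ∀ (M : ℕ) (R : ℝ), 1 ≤ M →
    (∀ Δ ∈ maxCells w h, (Lt w Δ).index ∣ M) →
    ∃ K₀ : ℝ, ∀ K : ℝ, K₀ ≤ K → ∀ g : κ ⊕ ι → ℤ, Near h K R g → ∀ Δ ∈ maxCells w h,
      (Rg w g M Δ).Finite ∧
        ((Rg w g M Δ).ncard : ℚ) * adet w Δ = (M : ℚ) ^ (Fintype.card ι + 1)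

/-- GRO: convergence and growth of the exponential sums -/
def Stmt_GRO : Prop :=
  ∀ (ι κ : Type) [Fintype ι] [DecidableEq ι] [Fintype κ] [DecidableEq κ] (w : κ → ι → ℕ)
    (p : ι ⊕ Unit → ℝ), Pos p → ∀ (C : Finset (κ ⊕ ι)) (c₀ : ℕ), (∃ a, Sum.inl a ∈ C) →
    (LinearIndependent ℚ fun v : C => hat w (v : κ ⊕ ι)) →
    (∀ ε : ℝ, 0 < ε → Summable fun y : {y : ι ⊕ Unit → ℤ // (∀ v, -(c₀ : ℤ) ≤ zp w y v) ∧
      ∀ v ∈ C, zp w y v ≤ c₀} => Real.exp (-ε * ph p y)) ∧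
    ∃ A : ℝ, ∀ ε : ℝ, 0 < ε → ε ≤ 1 → ε ^ (Fintype.card ι + 1 - C.card) *
      ∑' y : {y : ι ⊕ Unit → ℤ // (∀ v, -(c₀ : ℤ) ≤ zp w y v) ∧ ∀ v ∈ C, zp w y v ≤ c₀},
        Real.exp (-ε * ph p y) ≤ A

/-- SUMU: the sums over thick faces converge -/
def Stmt_SUMU : Prop :=
  ∀ (ι κ : Type) [Fintype ι] [DecidableEq ι] [Fintype κ] [DecidableEq κ] (w : κ → ι → ℕ)
    (p : ι ⊕ Unit → ℝ), Pos p → ∀ (C : Finset (κ ⊕ ι)) (g : κ ⊕ ι → ℤ) (M : ℕ),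
    (∃ a, Sum.inl a ∈ C) → ∀ ε : ℝ, 0 < ε →
    Summable fun y : Rg w g M C => Real.exp (-ε * ph p y)

/-- REC: translation by `M ρ` gives an exact recursion -/
def Stmt_REC : Prop :=
  ∀ (ι κ : Type) [Fintype ι] [DecidableEq ι] [Fintype κ] [DecidableEq κ] (w : κ → ι → ℕ)
    (g : κ ⊕ ι → ℤ) (M : ℕ) (C : Finset (κ ⊕ ι)) (ρ : ι ⊕ Unit → ℤ), 1 ≤ M →
    (∃ a, Sum.inl a ∈ C) → (∀ v ∈ C, zp w ρ v = 0) →
    ∃ (n : ℕ) (σ : Fin n → ℤ) (j : Fin n → κ ⊕ ι) (g' : Fin n → κ ⊕ ι → ℤ),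
      (∀ t, j t ∉ C) ∧ (∀ t v, |g' t v - g v| ≤ M * |zp w ρ v|) ∧
      (∀ v, v ∉ C → ∑ t ∈ Finset.univ.filter (fun t => j t = v), σ t = zp w ρ v) ∧
      ∀ (p : ι ⊕ Unit → ℝ), Pos p → ∀ ε : ℝ, 0 < ε →
        (1 - Real.exp (-ε * (M * ph p ρ))) * Us w g M C p ε =
          ∑ t, (σ t : ℝ) * Us w (g' t) M (insert (j t) C) p ε

/-- BRI: the limits of the sums over thick faces -/
def Stmt_BRI : Prop :=
  ∀ (ι κ : Type) [Fintype ι] [DecidableEq ι] [Fintype κ] [DecidableEq κ] [Nonempty κ]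
    (w : κ → ι → ℕ) (h : κ → ℝ), LinearIndependent ℚ h → ∀ (M : ℕ), 1 ≤ M →
    (∀ Δ ∈ maxCells w h, (Lt w Δ).index ∣ M) → ∀ p : ι ⊕ Unit → ℝ, Pos p → Gen w h p →
    ∀ C : Finset (κ ⊕ ι), (∃ a, Sum.inl a ∈ C) → (∃ Δ ∈ maxCells w h, C ⊆ Δ) → ∀ R : ℝ,
    ∃ K₀ : ℝ, ∀ K : ℝ, K₀ ≤ K → ∀ g : κ ⊕ ι → ℤ, Near h K R g →
      Tendsto (fun ε : ℝ => ε ^ (Fintype.card ι + 1 - C.card) * Us w g M C p ε) (𝓝[>] 0)
        (𝓝 ((M : ℝ) ^ C.card * Itg w h C 1 p))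

/-- FAC: the limits of the sums over faces -/
def Stmt_FAC : Prop :=
  ∀ (ι κ : Type) [Fintype ι] [DecidableEq ι] [Fintype κ] [DecidableEq κ] [Nonempty κ]
    (w : κ → ι → ℕ) (h : κ → ℝ), LinearIndependent ℚ h → ∀ p : ι ⊕ Unit → ℝ, Pos p →
    Gen w h p → ∀ C ∈ cls0 w h,
      Tendsto (fun ε : ℝ => ε ^ (Fintype.card ι + 1 - C.card) * Fs w C p ε) (𝓝[>] 0)
        (𝓝 ((nuE w 1 C : ℝ) * Itg w h (inl C) 1 p))

/-- GRK: growth of the sums over `k` -/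
def Stmt_GRK : Prop :=
  ∀ (ι κ : Type) [Fintype ι] [DecidableEq ι] [Fintype κ] [DecidableEq κ] [Nonempty κ]
    (w : κ → ι → ℕ) (C : Finset κ) (s : ℝ), C.Nonempty → 0 ≤ s →
    (∀ ε : ℝ, 0 < ε → Summable fun k : {k : ι → ℕ // C ⊆ fc w k} =>
      Real.exp (-ε * (∑ i, ((k : ι → ℕ) i : ℝ) + s * (mnk w k : ℝ)))) ∧
    ∃ A : ℝ, ∀ ε : ℝ, 0 < ε → ε ≤ 1 → ε ^ (Fintype.card ι + 1 - rk w C) *
      ∑' k : {k : ι → ℕ // C ⊆ fc w k},
        Real.exp (-ε * (∑ i, ((k : ι → ℕ) i : ℝ) + s * (mnk w k : ℝ))) ≤ A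

/-- GENR: there are generic directions -/
def Stmt_GENR : Prop :=
  ∀ (ι κ : Type) [Fintype ι] [DecidableEq ι] [Fintype κ] [DecidableEq κ] (w : κ → ι → ℕ)
    (h : κ → ℝ), LinearIndependent ℚ h → ∃ ζ : ι → ℝ, (∀ i, 0 < ζ i ∧ ζ i ≤ 1) ∧
    ∀ s : ℝ, 0 < s → ∀ᶠ η in 𝓝[>] (0 : ℝ), Gen w h (pz ζ s η)

/-- JC: the limits on the line `(1, …, 1, -s)` -/
def Stmt_JC : Prop :=
  ∀ (ι κ : Type) [Fintype ι] [DecidableEq ι] [Fintype κ] [DecidableEq κ] [Nonempty κ]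
    (w : κ → ι → ℕ) (h : κ → ℝ), LinearIndependent ℚ h → ∀ (ζ : ι → ℝ) (s : ℝ),
    (∀ i, 0 < ζ i ∧ ζ i ≤ 1) → 0 < s → (∀ᶠ η in 𝓝[>] (0 : ℝ), Gen w h (pz ζ s η)) →
    ∀ C ∈ cls0 w h, ∃ J : ℝ,
      Tendsto (fun ε : ℝ => ε ^ (Fintype.card ι + 1 - C.card) *
        Fs w C (pz (fun _ => 0) s 0) ε) (𝓝[>] 0) (𝓝 J) ∧
      Tendsto (fun η : ℝ => (nuE w 1 C : ℝ) * Itg w h (inl C) 1 (pz ζ s η)) (𝓝[>] 0) (𝓝 J)

/-! ## Blocks: from arcs to lattice sums -/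

/-- NDG: generic polynomials are nondegenerate -/
def Stmt_NDG : Prop :=
  ∀ (ι κ : Type) [Fintype ι] [DecidableEq ι] [Fintype κ] [DecidableEq κ] (w : κ → ι → ℕ)
    (a : κ → ℂ), AlgebraicIndependent ℚ a → Nd w a

/-- XPD: the coefficients of `f` on an arc of order `k` -/
def Stmt_XPD : Prop :=
  ∀ (ι κ : Type) [Fintype ι] [DecidableEq ι] [Fintype κ] [DecidableEq κ] [Nonempty κ]
    (w : κ → ι → ℕ) (a : κ → ℂ) (K : ℕ) (k : ι → ℕ) (z : ι × Fin (K + 1) → ℂ),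
    (∀ (i : ι) (l : Fin (K + 1)), (l : ℕ) < k i → z (i, l) = 0) →
    (∀ l : ℕ, l < mnk w k → l ≤ K → (aeval (jet z) (poly w a) : Polynomial ℂ).coeff l = 0) ∧
    (mnk w k ≤ K → ∀ x : ι → ℂ, (∀ (i : ι) (l : Fin (K + 1)), (l : ℕ) = k i → x i = z (i, l)) →
      (aeval (jet z) (poly w a) : Polynomial ℂ).coeff (mnk w k) =
        ∑ v ∈ fc w k, a v * ∏ i, x i ^ w v i) ∧
    ∀ (j : ℕ) (i₀ : ι) (x : ι → ℂ) (z' : ι × Fin (K + 1) → ℂ), 1 ≤ j → mnk w k + j ≤ K →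
      (∀ (i : ι) (l : Fin (K + 1)), (l : ℕ) = k i → x i = z (i, l)) →
      (∀ (i : ι) (l : Fin (K + 1)), i ≠ i₀ ∨ (l : ℕ) < k i₀ + j → z' (i, l) = z (i, l)) →
      (∃ v ∈ fc w k, w v i₀ ≠ 0) →
      ∃ l₀ : Fin (K + 1), (l₀ : ℕ) = k i₀ + j ∧
        x i₀ * ((aeval (jet z') (poly w a) : Polynomial ℂ).coeff (mnk w k + j) -
          (aeval (jet z) (poly w a) : Polynomial ℂ).coeff (mnk w k + j)) =
        (z' (i₀, l₀) - z (i₀, l₀)) * ∑ v ∈ fc w k, (w v i₀ : ℂ) * (a v * ∏ i, x i ^ w v i)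

/-- TRIS: triangular systems -/
def Stmt_TRIS : Prop :=
  ∀ (n : ℕ) (G : (Fin n → ℂ) → Fin n → ℂ) (c : ℂ), c ≠ 0 →
    (∀ (j : Fin n) (s s' : Fin n → ℂ), (∀ i, i < j → s i = s' i) →
      G s j - G s' j = c * (s j - s' j)) →
    ∀ t : Fin n → ℂ, ∃! s : Fin n → ℂ, G s = t

/-- CLS0: arcs on which the leading form does not vanish -/
def Stmt_CLS0 : Prop :=
  ∀ (ι κ : Type) [Fintype ι] [DecidableEq ι] [Fintype κ] [DecidableEq κ] [Nonempty κ]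
    (w : κ → ι → ℕ) (a : κ → ℂ) (R : Type) [CommRing R] (μ : MotivicMeasure R) (d K : ℕ)
    (k : ι → ℕ), 1 ≤ d → mnk w k = K →
    μ.val (Jt w a d K k) * (μ.L - 1) ^ (Finset.univ.filter fun i => K < k i).card =
      μ.val (WF w a d (fc w k)) * μ.L ^ (∑ i, (K - k i))

/-- CLS1: arcs on which the leading form vanishes -/
def Stmt_CLS1 : Prop :=
  ∀ (ι κ : Type) [Fintype ι] [DecidableEq ι] [Fintype κ] [DecidableEq κ] [Nonempty κ]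
    (w : κ → ι → ℕ) (a : κ → ℂ) (R : Type) [CommRing R] (μ : MotivicMeasure R) (d K : ℕ)
    (k : ι → ℕ), Nd w a → 1 ≤ d → mnk w k < K →
    μ.val (Jt w a d K k) * (μ.L - 1) ^ (Finset.univ.filter fun i => K < k i).card *
        μ.L ^ (K - mnk w k) =
      μ.val (VF w a (fc w k)) * (μ.L - 1) * μ.L ^ (∑ i, (K - k i))

/-- CLS2: arcs of too large order -/
def Stmt_CLS2 : Prop :=
  ∀ (ι κ : Type) [Fintype ι] [DecidableEq ι] [Fintype κ] [DecidableEq κ] [Nonempty κ]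
    (w : κ → ι → ℕ) (a : κ → ℂ) (d K : ℕ) (k : ι → ℕ), K < mnk w k → Jt w a d K k = ∅

/-- SUMK: the coefficients of the zeta function as sums over `k ∈ ℕ^ι` -/
def Stmt_SUMK : Prop :=
  ∀ (ι κ : Type) [Fintype ι] [DecidableEq ι] [Fintype κ] [DecidableEq κ] [Nonempty κ]
    (w : κ → ι → ℕ) (a : κ → ℂ) (E : HodgeMeasure) (d K : ℕ) (u : ℝ), Nd w a → 1 ≤ d → 1 < u →
    HasSum (ct E w a d K u)
      (Polynomial.aeval u (E.val (jetSet (poly w a) d K)) * u⁻¹ ^ (K * Fintype.card ι))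

/-- EXCH: the zeta function at `T = u^{-s}` -/
def Stmt_EXCH : Prop :=
  ∀ (ι κ : Type) [Fintype ι] [DecidableEq ι] [Fintype κ] [DecidableEq κ] [Nonempty κ]
    (w : κ → ι → ℕ) (a : κ → ℂ) (E : HodgeMeasure) (d : ℕ) (u : ℝ) (s : ℕ), Nd w a → 1 ≤ d →
    1 < u →
    (Summable fun K : ℕ => |Polynomial.aeval u (E.val (jetSet (poly w a) d K))| *
      u⁻¹ ^ (K * Fintype.card ι)) ∧
    HasSum (fun k : ι → ℕ => u⁻¹ ^ (∑ i, k i + s * mnk w k) *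
        (Polynomial.aeval u (E.val (WF w a d (fc w k))) +
          Polynomial.aeval u (E.val (VF w a (fc w k))) * ((u - 1) / (u ^ (s + 1) - 1))))
      (∑' K : ℕ, Polynomial.aeval u (E.val (jetSet (poly w a) d K)) *
        u⁻¹ ^ (K * Fintype.card ι) * u⁻¹ ^ (K * s))

/-- RA: the limit of a rational series as a limit over real numbers -/
def Stmt_RA : Prop :=
  ∀ (n : ℕ) (P : ℕ → Polynomial ℤ) (R : RatFunc ℚ),
    IsLim (PowerSeries.mk fun k => toRat (P k) * (RatFunc.X)⁻¹ ^ (k * n)) R →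
    (∀ u : ℝ, 1 < u → Summable fun k : ℕ => |Polynomial.aeval u (P k)| * u⁻¹ ^ (k * n)) →
    ∀ s : ℕ, Tendsto (fun u : ℝ => ∑' k : ℕ, Polynomial.aeval u (P k) * u⁻¹ ^ (k * n) *
      u⁻¹ ^ (k * s)) (𝓝[>] 1) (𝓝 ((R.eval (RingHom.id ℚ) (s : ℚ) : ℚ) : ℝ))

/-! ## Blocks: classes of the faces -/

/-- ADB: adapted coordinates for a face -/
def Stmt_ADB : Prop :=
  ∀ (ι κ : Type) [Fintype ι] [DecidableEq ι] [Fintype κ] [DecidableEq κ] (w : κ → ι → ℕ)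
    (F : Finset κ) (a₀ : κ), a₀ ∈ F → ∃ (d m : ℕ) (A : Matrix (Fin d ⊕ Fin m) ι ℤ)
      (B : Matrix ι (Fin d ⊕ Fin m) ℤ) (c : κ → Fin d → ℕ),
      A * B = 1 ∧ B * A = 1 ∧ d + 1 = rk w F ∧ d + m = Fintype.card ι ∧
      (∀ v ∈ F, ∀ i, (w v i : ℤ) - w a₀ i = ∑ j, ((c v j : ℤ) - c a₀ j) * A (Sum.inl j) i) ∧
      rk c F = d + 1

/-- TORM: the class of the hypersurface of a face splits off a torus -/
def Stmt_TORM : Prop :=
  ∀ (ι κ : Type) [Fintype ι] [DecidableEq ι] [Fintype κ] [DecidableEq κ] (w : κ → ι → ℕ)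
    (a : κ → ℂ) (F : Finset κ) (a₀ : κ) (d m : ℕ) (A : Matrix (Fin d ⊕ Fin m) ι ℤ)
    (B : Matrix ι (Fin d ⊕ Fin m) ℤ) (c : κ → Fin d → ℕ), a₀ ∈ F → A * B = 1 → B * A = 1 →
    (∀ v ∈ F, ∀ i, (w v i : ℤ) - w a₀ i = ∑ j, ((c v j : ℤ) - c a₀ j) * A (Sum.inl j) i) →
    ∀ (R : Type) [CommRing R] (μ : MotivicMeasure R),
      μ.val (VF w a F) = (μ.L - 1) ^ m * μ.val (VF c a F)

/-- TORC: adapted coordinates preserve the simplices and the box points -/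
def Stmt_TORC : Prop :=
  ∀ (ι κ : Type) [Fintype ι] [DecidableEq ι] [Fintype κ] [DecidableEq κ] (w : κ → ι → ℕ)
    (h : κ → ℝ) (F : Finset κ) (a₀ : κ) (d m : ℕ) (A : Matrix (Fin d ⊕ Fin m) ι ℤ)
    (B : Matrix ι (Fin d ⊕ Fin m) ℤ) (c : κ → Fin d → ℕ), a₀ ∈ F → A * B = 1 → B * A = 1 →
    (∀ v ∈ F, ∀ i, (w v i : ℤ) - w a₀ i = ∑ j, ((c v j : ℤ) - c a₀ j) * A (Sum.inl j) i) →
    rk c F = rk w F → smp c h F = smp w h F ∧ ∀ C ⊆ F, nuE c 1 C = nuE w 1 C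

/-- VOLB: the volume is the number of box points of the maximal simplices -/
def Stmt_VOLB : Prop :=
  ∀ (κ : Type) [Fintype κ] [DecidableEq κ] (d : ℕ) (w : κ → Fin d → ℕ) (h : κ → ℝ),
    rk w Finset.univ = d + 1 → LinearIndependent ℚ h →
    FullDim w ∧ VolT w h = ∑ C ∈ smp w h Finset.univ, (nuE w 1 C : ℚ)

/-- KF: the class of the hypersurface of a face -/
def Stmt_KF : Prop :=
  ∀ (E : EulerMeasure) (ι κ : Type) [Fintype ι] [DecidableEq ι] [Fintype κ] [DecidableEq κ]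
    (w : κ → ι → ℕ) (a : κ → ℂ) (h : κ → ℝ) (F : Finset κ), F.Nonempty →
    Function.Injective w → AlgebraicIndependent ℚ a → LinearIndependent ℚ h →
    ∃ q : Polynomial ℤ, E.val (VF w a F) =
        (Polynomial.X - 1) ^ (Fintype.card ι + 1 - rk w F) * q ∧
      (rk w F = 1 → q = 0) ∧ (2 ≤ rk w F →
        q.eval 1 = (-1) ^ rk w F * ∑ C ∈ smp w h F, (nuE w 1 C : ℤ))

/-- the pyramid over `w` with apex `(0, d)` -/
def pyr {ι κ : Type} (w : κ → ι → ℕ) (d : ℕ) : κ ⊕ Unit → ι ⊕ Unit → ℕ :=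
  Sum.elim (fun a => Sum.elim (w a) fun _ => 0) fun _ => Sum.elim (fun _ => 0) fun _ => d

/-- PYRC: simplices and box points of a pyramid -/
def Stmt_PYRC : Prop :=
  ∀ (ι κ : Type) [Fintype ι] [DecidableEq ι] [Fintype κ] [DecidableEq κ] (w : κ → ι → ℕ)
    (h : κ → ℝ) (h₀ : ℝ) (F : Finset κ) (d : ℕ), F.Nonempty → 1 ≤ d →
    LinearIndependent ℚ (Sum.elim h fun _ : Unit => h₀) →
    rk (pyr w d) (F.map Function.Embedding.inl ∪ {Sum.inr ()}) = rk w F + 1 ∧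
    ∑ C ∈ smp (pyr w d) (Sum.elim h fun _ : Unit => h₀)
        (F.map Function.Embedding.inl ∪ {Sum.inr ()}), (nuE (pyr w d) 1 C : ℤ) =
      ∑ C ∈ smp w h F, ∑ e ∈ d.divisors, (nuE w e C : ℤ)

/-- KW: the class of the cover -/
def Stmt_KW : Prop :=
  ∀ (E : EulerMeasure) (ι κ : Type) [Fintype ι] [DecidableEq ι] [Fintype κ] [DecidableEq κ]
    (w : κ → ι → ℕ) (a : κ → ℂ) (h : κ → ℝ) (F : Finset κ) (d : ℕ), F.Nonempty → 1 ≤ d →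
    Function.Injective w → AlgebraicIndependent ℚ a → LinearIndependent ℚ h →
    ∃ q : Polynomial ℤ, E.val (WF w a d F) =
        (Polynomial.X - 1) ^ (Fintype.card ι + 1 - rk w F) * q ∧
      q.eval 1 = (-1) ^ (rk w F + 1) * ∑ C ∈ smp w h F, ∑ e ∈ d.divisors, (nuE w e C : ℤ)

/-! ## Assembly -/

/-- LIMA: the values of the zeta function in terms of the limits `J C` -/
def Stmt_LIMA : Prop :=
  ∀ (E : EulerMeasure) (ι κ : Type) [Fintype ι] [DecidableEq ι] [Fintype κ] [DecidableEq κ]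
    [Nonempty κ] (w : κ → ι → ℕ) (a : κ → ℂ) (h : κ → ℝ) (e : ℕ) (R : RatFunc ℚ),
    Function.Injective w → AlgebraicIndependent ℚ a → LinearIndependent ℚ h → Full w h →
    1 ≤ e → IsTwTopZeta E.toHodgeMeasure (poly w a) e R →
    ∃ c : ℚ, ∀ (s : ℕ) (J : Finset κ → ℝ), 1 ≤ s → R.denom.eval (s : ℚ) ≠ 0 →
      (∀ C ∈ cls0 w h, Tendsto (fun ε : ℝ => ε ^ (Fintype.card ι + 1 - C.card) *
        Fs w C (pz (fun _ => 0) s 0) ε) (𝓝[>] 0) (𝓝 (J C))) →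
      (e.totient : ℝ) * ((R.eval (RingHom.id ℚ) (s : ℚ) : ℚ) : ℝ) + (c : ℝ) =
        ∑ C ∈ cls0 w h, (-1) ^ (C.card + 1) * ((nuE w e C : ℝ) -
          (if e = 1 ∧ 2 ≤ C.card then (nuE w 1 C : ℝ) / (1 + s) else 0)) * J C

end Pool.Agent.Mono.NP
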