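import Pool.Agent.Work.Monodromy.Interface12B
import Pool.Agent.Work.Monodromy.Interface12C
import Pool.Agent.Work.Monodromy.Interface12K

/-!
# Phase 13: nondegenerate polynomials; blocks (helper17)

See `Monodromy13/BLUEPRINT13.md`.
-/

set_option autoImplicit false

namespace Pool.Agent.Mono.NP

open MvPolynomial Filter Topology

section

variable {ι κ : Type} [Fintype ι] [DecidableEq ι] [Fintype κ] [DecidableEq κ]

/-- `F` is (the set of exponents in) a face of the Newton polytope: dual form -/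
def Fce (w : κ → ι → ℕ) (F : Finset κ) : Prop :=
  ∀ m : κ → ℚ, ∑ v, m v = 0 → (∀ i, ∑ v, m v * w v i = 0) → (∀ v, v ∉ F → 0 ≤ m v) →
    ∀ v, v ∉ F → m v = 0

/-- `∑ a_v x^{w_v}` is nondegenerate with respect to its Newton polytope: the hypersurfaces of all
faces are smooth in the torus -/
def NdP (w : κ → ι → ℕ) (a : κ → ℂ) : Prop :=
  ∀ F : Finset κ, F.Nonempty → Fce w F → ∀ x : ι → ℂ, (∀ i, x i ≠ 0) →
    ∑ v ∈ F, a v * ∏ i, x i ^ w v i = 0 →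
      ∃ i, ∑ v ∈ F, (w v i : ℂ) * (a v * ∏ i', x i' ^ w v i') ≠ 0

/-- the relations of the integrals `Φ k u` of `x^{u+ν} f^{β-k}` for the coefficients `a` -/
def Rl (w : κ → ι → ℕ) (a : κ → ℂ) (J : Finset ι) (ν : ι → ℚ) (β : ℚ) (k₀ : ℤ)
    (Φ : ℤ → (ι → ℤ) → ℂ) : Prop :=
  (∀ (k : ℤ) (u : ι → ℤ) (i : ι), (∀ j, j ∉ J → 0 ≤ u j) →
    ∑ v, (w v i : ℂ) * (a v * Φ (k + 1) (fun j => u j + w v j - if j = i then 1 else 0)) =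
      -((u i : ℂ) + (ν i : ℂ)) * Φ k (fun j => u j - if j = i then 1 else 0)) ∧
  (∀ (k : ℤ) (u : ι → ℤ), (∀ j, j ∉ J → 0 ≤ u j) →
    ∑ v, a v * Φ (k + 1) (fun j => u j + w v j) = ((β : ℂ) - k) * Φ k u) ∧
  ∀ k < k₀, ∀ u : ι → ℤ, (∀ j, j ∉ J → 0 ≤ u j) → Φ k u = 0

/-- `Φ` is not zero -/
def Nz (J : Finset ι) (Φ : ℤ → (ι → ℤ) → ℂ) : Prop :=
  ∃ (k : ℤ) (u : ι → ℤ), (∀ j, j ∉ J → 0 ≤ u j) ∧ Φ k u ≠ 0

/-- the linear forms `∑ a_v T_v` and `∑ w_{v,i} a_v T_v` -/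
noncomputable def LinF (w : κ → ι → ℕ) (a : κ → ℂ) : Option ι → MvPolynomial κ ℂ
  | none => ∑ v, C (a v) * X v
  | some i => ∑ v, C ((w v i : ℂ) * a v) * X v

end

/-! ## Part III -/

/-- GNR: the functional for generic coefficients (refactor of `IIIASM12.lean`) -/
def Stmt_GNR : Prop :=
  ∀ (ι κ : Type) [Fintype ι] [DecidableEq ι] [Fintype κ] [DecidableEq κ] (w : κ → ι → ℕ)
    (h : κ → ℝ) (s₀ : ℚ), LinearIndependent ℚ h → (∀ z : ℤ, s₀ ≠ z) → LamDatum w h s₀ →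
    ∃ (J : Finset ι) (ν : ι → ℚ) (k₀ : ℤ), (∀ i, i ∉ J → ν i = 0) ∧
      ∀ a : κ → ℂ, AlgebraicIndependent ℚ a → ∃ Φ, Rl w a J ν s₀ k₀ Φ ∧ Nz J Φ

/-- MW: a finitely generated rational cone is the intersection of finitely many half spaces -/
def Stmt_MW : Prop :=
  ∀ (τ κ : Type) [Fintype τ] [Fintype κ] (W : κ → τ → ℤ),
    ∃ L : Finset (τ → ℤ), (∀ l ∈ L, ∀ v, 0 ≤ ∑ t, l t * W v t) ∧
      ∀ y : τ → ℚ, (∀ l ∈ L, 0 ≤ ∑ t, (l t : ℚ) * y t) →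
        ∃ c : κ → ℚ, (∀ v, 0 ≤ c v) ∧ ∀ t, y t = ∑ v, c v * W v t

/-- GOR: the integral points of a polyhedron whose recession cone is generated by `W` -/
def Stmt_GOR : Prop :=
  ∀ (τ κ : Type) [Fintype τ] [Fintype κ] (W : κ → τ → ℤ) (L : Finset (τ → ℤ))
    (c : (τ → ℤ) → ℤ), (∀ l ∈ L, ∀ v, 0 ≤ ∑ t, l t * W v t) →
    (∀ y : τ → ℚ, (∀ l ∈ L, 0 ≤ ∑ t, (l t : ℚ) * y t) →
      ∃ c : κ → ℚ, (∀ v, 0 ≤ c v) ∧ ∀ t, y t = ∑ v, c v * W v t) →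
    ∃ M : Finset (τ → ℤ), (∀ r ∈ M, ∀ l ∈ L, c l ≤ ∑ t, l t * r t) ∧
      ∀ y : τ → ℤ, (∀ l ∈ L, c l ≤ ∑ t, l t * y t) →
        ∃ r ∈ M, ∃ m : κ → ℕ, ∀ t, y t = r t + ∑ v, m v * W v t

/-- TOR: the points of the affine toric variety -/
def Stmt_TOR : Prop :=
  ∀ (ι κ : Type) [Fintype ι] [DecidableEq ι] [Fintype κ] [DecidableEq κ] (w : κ → ι → ℕ)
    (t : κ → ℂ), (∀ m m' : κ → ℕ, ∑ v, m v = ∑ v, m' v →
      (∀ i, ∑ v, m v * w v i = ∑ v, m' v * w v i) → ∏ v, t v ^ m v = ∏ v, t v ^ m' v) →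
    ∀ F : Finset κ, (∀ v, v ∈ F ↔ t v ≠ 0) → Fce w F ∧
      ∃ (x : ι → ℂ) (c : ℂ), (∀ i, x i ≠ 0) ∧ c ≠ 0 ∧ ∀ v ∈ F, t v = c * ∏ i, x i ^ w v i

/-- NUL: the monomials of degree `d` are in the ideal of the linear forms and the toric ideal -/
def Stmt_NUL : Prop :=
  ∀ (ι κ : Type) [Fintype ι] [DecidableEq ι] [Fintype κ] [DecidableEq κ] (w : κ → ι → ℕ)
    (a : κ → ℂ), NdP w a → ∃ d : ℕ, 1 ≤ d ∧ ∀ m : κ →₀ ℕ, m.degree = d →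
      ∃ G : Option ι → MvPolynomial κ ℂ, (∀ o, (G o).IsHomogeneous (d - 1)) ∧
        ∀ Λ : MvPolynomial κ ℂ →ₗ[ℂ] ℂ,
          (∀ m m' : κ →₀ ℕ, m.degree = m'.degree →
            (∀ i, ∑ v, m v * w v i = ∑ v, m' v * w v i) →
              Λ (monomial m 1) = Λ (monomial m' 1)) →
          Λ (monomial m 1) = ∑ o, Λ (G o * LinF w a o)

/-- ABS: the values in degree `d` are bounded by the values in degree `d - 1`, near `a` -/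
def Stmt_ABS : Prop :=
  ∀ (ι κ : Type) [Fintype ι] [DecidableEq ι] [Fintype κ] [DecidableEq κ] (w : κ → ι → ℕ)
    (a : κ → ℂ), NdP w a → ∃ (d : ℕ) (δ : ℝ), 1 ≤ d ∧ 0 < δ ∧
    ∀ (J : Finset ι) (ν : ι → ℚ) (β : ℚ) (k₀ : ℤ) (k : ℤ) (u : ι → ℤ),
      (∀ j, j ∉ J → 0 ≤ u j) → ∃ B : ℝ, 0 ≤ B ∧
        ∀ (b : κ → ℂ) (Φ : ℤ → (ι → ℤ) → ℂ) (S : ℝ), (∀ v, ‖b v - a v‖ ≤ δ) →
          Rl w b J ν β k₀ Φ → 0 ≤ S →
          (∀ m : κ →₀ ℕ, m.degree = d - 1 →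
            ‖Φ (k + (d - 1 : ℕ)) (fun j => u j + ∑ v, (m v : ℤ) * w v j)‖ ≤ S) →
          ∀ m : κ →₀ ℕ, m.degree = d →
            ‖Φ (k + (d : ℕ)) (fun j => u j + ∑ v, (m v : ℤ) * w v j)‖ ≤ B * S

/-- UBD: all values are bounded by finitely many values, near `a` -/
def Stmt_UBD : Prop :=
  ∀ (ι κ : Type) [Fintype ι] [DecidableEq ι] [Fintype κ] [DecidableEq κ] (w : κ → ι → ℕ)
    (a : κ → ℂ), NdP w a → ∀ (J : Finset ι) (ν : ι → ℚ) (β : ℚ) (k₀ : ℤ),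
    ∃ (I₀ : Finset (ℤ × (ι → ℤ))) (δ : ℝ), 0 < δ ∧ (∀ q ∈ I₀, ∀ j, j ∉ J → 0 ≤ q.2 j) ∧
      ∀ (k : ℤ) (u : ι → ℤ), (∀ j, j ∉ J → 0 ≤ u j) → ∃ B : ℝ, 0 ≤ B ∧
        ∀ (b : κ → ℂ) (Φ : ℤ → (ι → ℤ) → ℂ) (S : ℝ), (∀ v, ‖b v - a v‖ ≤ δ) →
          Rl w b J ν β k₀ Φ → 0 ≤ S → (∀ q ∈ I₀, ‖Φ q.1 q.2‖ ≤ S) → ‖Φ k u‖ ≤ B * S

/-- SEQ: generic coefficients are dense -/
def Stmt_SEQ : Prop :=
  ∀ (κ : Type) [Fintype κ] (a : κ → ℂ), ∃ b : ℕ → κ → ℂ,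
    (∀ n, AlgebraicIndependent ℚ (b n)) ∧ Tendsto b atTop (𝓝 a)

/-- SPEC: specialisation of functionals -/
def Stmt_SPEC : Prop :=
  ∀ (ι κ : Type) [Fintype ι] [DecidableEq ι] [Fintype κ] [DecidableEq κ] (w : κ → ι → ℕ)
    (a : κ → ℂ) (J : Finset ι) (ν : ι → ℚ) (β : ℚ) (k₀ : ℤ), NdP w a →
    (∀ i, i ∉ J → ν i = 0) →
    (∀ b : κ → ℂ, AlgebraicIndependent ℚ b → ∃ Φ, Rl w b J ν β k₀ Φ ∧ Nz J Φ) →
    ∃ Φ, Rl w a J ν β k₀ Φ ∧ Nz J Φ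

/-- III13: a functional gives a witness, nondegenerate coefficients -/
def Stmt_III13 : Prop :=
  ∀ (ι κ : Type) [Fintype ι] [DecidableEq ι] [Fintype κ] [DecidableEq κ] (w : κ → ι → ℕ)
    (a : κ → ℂ) (h : κ → ℝ) (s₀ : ℚ), NdP w a → LinearIndependent ℚ h →
    (∀ z : ℤ, s₀ ≠ z) → LamDatum w h s₀ →
    ∃ (β : ℚ) (z : ℤ), β = s₀ + z ∧ TS.Wit (poly w a) (β : ℂ)

/-! ## Part I -/

/-- K13: Kouchnirenko's theorem for nondegenerate coefficients (`KASMAux.claim`) -/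
def Stmt_K13 : Prop :=
  ∀ (E : EulerMeasure) (κ : Type) [Fintype κ] [DecidableEq κ] (d : ℕ) (w : κ → Fin d → ℕ)
    (a : κ → ℂ) (h : κ → ℝ), 1 ≤ d → FullDim w → NdI w a → Nds w a = ∅ →
    LinearIndependent ℚ h →
    (((E.val (Hyp w a)).eval 1 : ℤ) : ℚ) = (-1) ^ (d - 1) * VolT w h

/-- KF13: the class of the hypersurface of a face -/
def Stmt_KF13 : Prop :=
  ∀ (E : EulerMeasure) (ι κ : Type) [Fintype ι] [DecidableEq ι] [Fintype κ] [DecidableEq κ]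
    (w : κ → ι → ℕ) (a : κ → ℂ) (h : κ → ℝ) (F : Finset κ), F.Nonempty → Fce w F →
    Function.Injective w → NdP w a → LinearIndependent ℚ h →
    ∃ q : Polynomial ℤ, E.val (VF w a F) =
        (Polynomial.X - 1) ^ (Fintype.card ι + 1 - rk w F) * q ∧
      (rk w F = 1 → q = 0) ∧ (2 ≤ rk w F →
        q.eval 1 = (-1) ^ rk w F * ∑ C ∈ smp w h F, (nuE w 1 C : ℤ))

/-- KW13: the class of the cover -/
def Stmt_KW13 : Prop :=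
  ∀ (E : EulerMeasure) (ι κ : Type) [Fintype ι] [DecidableEq ι] [Fintype κ] [DecidableEq κ]
    (w : κ → ι → ℕ) (a : κ → ℂ) (h : κ → ℝ) (F : Finset κ) (d : ℕ), F.Nonempty → Fce w F →
    1 ≤ d → Function.Injective w → NdP w a → LinearIndependent ℚ h →
    ∃ q : Polynomial ℤ, E.val (WF w a d F) =
        (Polynomial.X - 1) ^ (Fintype.card ι + 1 - rk w F) * q ∧
      q.eval 1 = (-1) ^ (rk w F + 1) * ∑ C ∈ smp w h F, ∑ e ∈ d.divisors, (nuE w e C : ℤ)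

/-- LIMA13: the values of the zeta function in terms of the limits `J C` -/
def Stmt_LIMA13 : Prop :=
  ∀ (E : EulerMeasure) (ι κ : Type) [Fintype ι] [DecidableEq ι] [Fintype κ] [DecidableEq κ]
    [Nonempty κ] (w : κ → ι → ℕ) (a : κ → ℂ) (h : κ → ℝ) (e : ℕ) (R : RatFunc ℚ),
    Function.Injective w → NdP w a → LinearIndependent ℚ h → Full w h →
    1 ≤ e → IsTwTopZeta E.toHodgeMeasure (poly w a) e R →
    ∃ c : ℚ, ∀ (s : ℕ) (J : Finset κ → ℝ), 1 ≤ s → R.denom.eval (s : ℚ) ≠ 0 →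
      (∀ C ∈ cls0 w h, Tendsto (fun ε : ℝ => ε ^ (Fintype.card ι + 1 - C.card) *
        Fs w C (pz (fun _ => 0) s 0) ε) (𝓝[>] 0) (𝓝 (J C))) →
      (e.totient : ℝ) * ((R.eval (RingHom.id ℚ) (s : ℚ) : ℚ) : ℝ) + (c : ℝ) =
        ∑ C ∈ cls0 w h, (-1) ^ (C.card + 1) * ((nuE w e C : ℝ) -
          (if e = 1 ∧ 2 ≤ C.card then (nuE w 1 C : ℝ) / (1 + s) else 0)) * J C

/-- I13: the zeta function is given by the triangulation, nondegenerate coefficients -/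
def Stmt_I13 : Prop :=
  ∀ (E : EulerMeasure) (ι κ : Type) [Fintype ι] [DecidableEq ι] [Fintype κ] [DecidableEq κ]
    [Nonempty κ] (w : κ → ι → ℕ) (a : κ → ℂ) (h : κ → ℝ) (e : ℕ) (R : RatFunc ℚ)
    (P D : MvPolynomial (ι ⊕ Unit) ℚ), Function.Injective w → NdP w a →
    LinearIndependent ℚ h → Full w h → 1 ≤ e →
    IsTwTopZeta E.toHodgeMeasure (poly w a) e R →
    (∀ y : ι ⊕ Unit → ℝ, Gen w h y → Tf w h e y * aeval y D = aeval y P) →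
    ∃ c : ℚ, (RatFunc.C (e.totient : ℚ) * R + RatFunc.C c) * aeval (line ι) D =
      pref e * aeval (line ι) P

/-! ## The classical form of the definition -/

/-- FACE: every face is the set of minima of an integral linear form -/
def Stmt_FACE : Prop :=
  ∀ (ι κ : Type) [Fintype ι] [DecidableEq ι] [Fintype κ] [DecidableEq κ] (w : κ → ι → ℕ)
    (F : Finset κ), F.Nonempty → Fce w F → ∃ k : ι → ℤ, ∀ v, v ∈ F ↔
      ∀ v', ∑ i, k i * (w v i : ℤ) ≤ ∑ i, k i * (w v' i : ℤ)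

end Pool.Agent.Mono.NP
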