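import Pool.Agent.Work.Monodromy.Defs9

/-!
# Phase 9: singularities of corank at most two, interface (helper2)

`Monodromy9/BLUEPRINT9.md` contains the proofs.  Everything is in the namespace
`Pool.Agent.Mono.C9`.  Block `X` : file `Pool/Agent/Work/Monodromy9/<X>.lean`,
`theorem stmt_X : Stmt_X` (other `Stmt_Y` may be hypotheses), lemmas in a namespace `XAux`.
-/

set_option autoImplicit false

namespace Pool.Agent.Mono.C9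

open MvPolynomial TS RO SP PC

/-! ## A : algebra along the critical manifold -/

/-- rules for `δ_b` -/
def Stmt_DER9 : Prop :=
  ∀ (ι : Type) [Fintype ι] [DecidableEq ι] (f : MvPolynomial ι ℂ) (Z : Finset ι),
    (∀ b, ∀ z ∈ Z, dl f Z b (pderiv z f) = 0) ∧
    (∀ b c, c ∉ Z → dl f Z b (X c) = if b = c then dt f Z else 0) ∧
    (∀ b ∈ Z, ∀ g, dl f Z b g = 0) ∧
    (∀ b, ∀ g ∈ Zi f Z, dl f Z b g ∈ Zi f Z) ∧
    (∀ b, dl f Z b f - dt f Z * pderiv b f ∈ Zi f Z) ∧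
    ∀ q : ι → ℂ, eval q (dt f Z) = (HZ f Z q).det

/-- Schur complement -/
def Stmt_SCH9 : Prop :=
  ∀ (ι : Type) [Fintype ι] [DecidableEq ι] (f : MvPolynomial ι ℂ) (Z : Finset ι) (q : ι → ℂ),
    (∀ a, eval q (pderiv a f) = 0) → eval q (dt f Z) ≠ 0 →
      ((Hs f q).rank = Z.card ↔ ∀ b c, eval q (dl f Z b (dl f Z c f)) = 0)

/-- reduction modulo the `∂_z f` -/
def Stmt_RED9 : Prop :=
  ∀ (ι : Type) [Fintype ι] [DecidableEq ι] (f : MvPolynomial ι ℂ) (Z : Finset ι) (q : ι → ℂ),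
    (∀ z ∈ Z, eval q (pderiv z f) = 0) → eval q (dt f Z) ≠ 0 →
    ∀ (N : ℕ) (g : MvPolynomial ι ℂ), ∃ G : MvPolynomial ι ℂ,
      (∀ d ∈ G.support, (∀ z ∈ Z, d z = 0) ∧ Finsupp.degree d < N) ∧
        g - aeval (fun a => X a - C (q a)) G ∈ Zi f Z ⊔ mI q ^ N

/-- points of infinite order -/
def Stmt_GSB9 : Prop :=
  ∀ (ι : Type) [Fintype ι] [DecidableEq ι] (f : MvPolynomial ι ℂ) (Z : Finset ι) (q : ι → ℂ),
    (∀ z ∈ Z, eval q (pderiv z f) = 0) → eval q (dt f Z) ≠ 0 →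
    (∀ L : List ι, eval q (wd f Z L) = 0) →
      ∃ s : MvPolynomial ι ℂ, eval q s ≠ 0 ∧ s * f ∈ Zi f Z ^ 2

/-- generators of a prime ideal -/
def Stmt_GSA9 : Prop :=
  ∀ (ι : Type) [Fintype ι] [DecidableEq ι] (f : MvPolynomial ι ℂ) (Z : Finset ι)
    (I : Ideal (MvPolynomial ι ℂ)), I.IsPrime → (∀ z ∈ Z, pderiv z f ∈ I) → dt f Z ∉ I →
    Zᶜ.card ≤ 2 → ∀ (b : ι) (h : MvPolynomial ι ℂ), h ∈ I → dl f Z b h ∉ I →
      (Zᶜ.card ≤ 1 → I.IsMaximal) ∧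
      ((Zᶜ.card = 2 → ¬ I.IsMaximal) → ∃ s, s ∉ I ∧ ∀ g ∈ I, s * g ∈ Zi f Z ⊔ Ideal.span {h})

/-- generic points of finite order -/
def Stmt_GSC9 : Prop :=
  ∀ (ι : Type) [Fintype ι] [DecidableEq ι] (f : MvPolynomial ι ℂ) (Z : Finset ι)
    (I : Ideal (MvPolynomial ι ℂ)), I.IsPrime → (∀ z ∈ Z, pderiv z f ∈ I) → dt f Z ∉ I →
    ∀ (b : ι) (L : List ι), 2 ≤ L.length →
    (∀ L' : List ι, L'.length ≤ L.length → wd f Z L' ∈ I) → wd f Z (b :: L) ∉ I →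
    (∃ s, s ∉ I ∧ ∀ g ∈ I, s * g ∈ Zi f Z ⊔ Ideal.span {wd f Z L}) →
      ∃ s w, s ∉ I ∧ w ∉ I ∧ s * f - w * wd f Z L ^ (L.length + 1) ∈
        Zi f Z ^ 2 ⊔ Zi f Z * Ideal.span {wd f Z L ^ L.length}

/-- the rank at the generic points of `V(I)` -/
def Stmt_RNK9 : Prop :=
  ∀ (ι : Type) [Fintype ι] [DecidableEq ι] (f : MvPolynomial ι ℂ)
    (I : Ideal (MvPolynomial ι ℂ)), I.IsPrime → (∀ a, pderiv a f ∈ I) →
      ∃ Z : Finset ι, dt f Z ∉ I ∧ (∀ b c, dl f Z b (dl f Z c f) ∈ I) ∧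
        ∀ q : ι → ℂ, (∀ g ∈ I, eval q g = 0) → eval q (dt f Z) ≠ 0 → (Hs f q).rank = Z.card

/-- the structure at the generic points of `V(I)` -/
def Stmt_GEN9 : Prop :=
  ∀ (ι : Type) [Fintype ι] [DecidableEq ι] (f : MvPolynomial ι ℂ)
    (I : Ideal (MvPolynomial ι ℂ)), I.IsPrime → f ∈ I → (∀ a, pderiv a f ∈ I) →
    ∀ Z : Finset ι, dt f Z ∉ I → (∀ b c, dl f Z b (dl f Z c f) ∈ I) →
    ((∀ L : List ι, wd f Z L ∈ I) ∨ (Zᶜ.card ≤ 2 ∧ (Zᶜ.card = 2 → ¬ I.IsMaximal))) →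
      ∃ s₀, s₀ ∉ I ∧
        ((∃ s, TZ f {q | (∀ g ∈ I, eval q g = 0) ∧ eval q s₀ ≠ 0} Z s) ∨
          ∃ b h s w e, TH f {q | (∀ g ∈ I, eval q g = 0) ∧ eval q s₀ ≠ 0} Z b h s w e)

/-! ## B : families of coordinates -/

/-- inversion of étale coordinates, up to the order `k` -/
def Stmt_INV9 : Prop :=
  ∀ (ι : Type) [Fintype ι] [DecidableEq ι] (S : Set (ι → ℂ)) (Y : ι → MvPolynomial ι ℂ),
    (∀ q ∈ S, (Matrix.of fun a b => eval q (pderiv b (Y a))).det ≠ 0) → ∀ k : ℕ,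
      ∃ (φ : ι → MvPolynomial (ι ⊕ ι) ℂ) (μ : MvPolynomial ι ℂ), ∀ q ∈ S, eval q μ ≠ 0 ∧
        (IsCo q fun a => sp q (φ a)) ∧ ∀ a, bind₁ (fun c => sp q (φ c)) (Y a) -
          C (eval q (Y a)) - C (eval q μ) * X a ∈ mI (fun _ => (0 : ℂ)) ^ k

/-- the two structures -/
def Stmt_STR9 : Prop :=
  ∀ (ι : Type) [Fintype ι] [DecidableEq ι] (f : MvPolynomial ι ℂ) (S : Set (ι → ℂ))
    (Z : Finset ι) (s : MvPolynomial ι ℂ),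
    (TZ f S Z s → ∃ Y Φ, Str9 f S Z (fun a => if a ∈ Z then 1 else 0) 2 Y s Φ) ∧
    ∀ b h w e, TH f S Z b h s w e → ∃ Y Φ, Str9 f S (insert b Z)
      (fun a => if a ∈ Z then e else if a = b then 2 else 0) (2 * e) Y s Φ

/-- families of coordinates -/
def Stmt_FAM9 : Prop :=
  ∀ (ι : Type) [Fintype ι] [DecidableEq ι] (f : MvPolynomial ι ℂ) (S : Set (ι → ℂ))
    (A : Finset ι) (w : ι → ℕ) (D : ℕ) (Y : ι → MvPolynomial ι ℂ) (s : MvPolynomial ι ℂ)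
    (Φ : MvPolynomial ι (MvPolynomial ι ℂ)), Str9 f S A w D Y s Φ → ∀ k : ℕ, D < k →
      FamC f S fun _ F => ZW9 A w D k F

/-! ## C : volumes in families -/

section

variable {E κ : Type} [Fintype κ]

/-- arcs of slope at least `r`, leading coefficients in `R`, and the coefficients `l` of
`H(p, t, y(t))` with `r D / M < l ≤ L` prescribed -/
def DN9 (m : κ → ℕ) (M D r : ℕ) (H : MvPolynomial (E ⊕ (Unit ⊕ κ)) ℂ) (R : Set (E ⊕ κ → ℂ))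
    (B : ℕ → MvPolynomial (E ⊕ κ) ℂ) (L : ℕ) : Set ((E → ℂ) × (κ → PowerSeries ℂ)) :=
  {z | z.2 ∈ Ar m r ∧ bsr m r z ∈ R ∧
    ∀ l ≤ L, r * D < l * M → PowerSeries.coeff l (evH H z.1 z.2) = eval (bsr m r z) (B l)}

/-- the class of the nonzero zeros of the leading forms -/
noncomputable def zc9 (P : HodgeMeasure) [Finite E] (w m : κ → ℕ) (D : ℕ)
    (H : MvPolynomial (E ⊕ (Unit ⊕ κ)) ℂ) (r : ℕ) (Q : Set (E ⊕ Unit → ℂ)) : K :=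
  P.rat.val {u : (E ⊕ Unit) ⊕ κ → ℂ | (fun e => u (Sum.inl e)) ∈ Q ∧
    (Off m r fun a => u (Sum.inr a)) ∧ (fun a => u (Sum.inr a)) ≠ 0 ∧
    eval (fun a => u (Sum.inr a)) (ini w D (spH H fun e => u (Sum.inl (Sum.inl e)))) = 0}

/-- the class of the pairs `(p, z)` with `(p, H_0(p, z)) ∈ Q` -/
noncomputable def lc9' (P : HodgeMeasure) [Finite E] (w m : κ → ℕ) (D : ℕ)
    (H : MvPolynomial (E ⊕ (Unit ⊕ κ)) ℂ) (r : ℕ) (Q : Set (E ⊕ Unit → ℂ)) : K :=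
  P.rat.val {u : E ⊕ κ → ℂ | (Off m r fun a => u (Sum.inr a)) ∧
    Sum.elim (fun e => u (Sum.inl e)) (fun _ => eval (fun a => u (Sum.inr a))
      (ini w D (spH H fun e => u (Sum.inl e)))) ∈ Q}

end

/-- leading terms (as `Stmt_LA`) -/
def Stmt_LA9 : Prop :=
  ∀ (E κ : Type) [Finite E] [Fintype κ] [DecidableEq κ] (w m : κ → ℕ) (M D : ℕ)
    (H : MvPolynomial (E ⊕ (Unit ⊕ κ)) ℂ), (∀ a, 1 ≤ w a) →
    (∀ d ∈ H.support, D ≤ ∑ b, w b * d (Sum.inr (Sum.inr b))) → 1 ≤ M → (∀ a, w a * m a = M) →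
    ∀ r : ℕ, 1 ≤ r → ∀ (p : E → ℂ), ∀ y ∈ Ar m r,
      (∀ l, l * M < r * D → PowerSeries.coeff l (evH H p y) = 0) ∧
      (∀ l, l * M = r * D → PowerSeries.coeff l (evH H p y) =
        eval (ls m r y) (ini w D (spH H p))) ∧
      ∀ j, eval (ls m r y) (pderiv j (ini w D (spH H p))) ≠ 0 → ∀ l, r * D < l * M →
        ∃ s : ℕ, s * M + r * D = l * M + r * w j ∧ r < s * m j ∧
          (∀ t : ℂ, PowerSeries.coeff l (evH H p (Function.update y j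
            (y j + PowerSeries.C t * PowerSeries.X ^ s))) =
              PowerSeries.coeff l (evH H p y) +
                t * eval (ls m r y) (pderiv j (ini w D (spH H p)))) ∧
          ∀ y' ∈ Ar m r, (∀ a, a ≠ j → ∀ n, PowerSeries.coeff n (y' a) =
            PowerSeries.coeff n (y a)) → (∀ n < s, PowerSeries.coeff n (y' j) =
              PowerSeries.coeff n (y j)) → ∀ l' < l,
                PowerSeries.coeff l' (evH H p y') = PowerSeries.coeff l' (evH H p y)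

/-- volumes: without conditions, and with prescribed coefficients (as `Stmt_LB`) -/
def Stmt_LB9 : Prop :=
  ∀ (P : HodgeMeasure) (E κ : Type) [Finite E] [Fintype κ] [DecidableEq κ] (w m : κ → ℕ)
    (M D : ℕ) (H : MvPolynomial (E ⊕ (Unit ⊕ κ)) ℂ) (S : Set (E → ℂ)), HW9 H S w D → 1 ≤ M →
    (∀ a, w a * m a = M) → ∀ r : ℕ, 1 ≤ r →
    ∀ (R : Set (E ⊕ κ → ℂ)), Constructible R → (∀ u ∈ R, (fun e => u (Sum.inl e)) ∈ S) →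
      (∀ u ∈ R, Off m r fun a => u (Sum.inr a)) → ∀ (B : ℕ → MvPolynomial (E ⊕ κ) ℂ) (L : ℕ),
      (L * M ≤ r * D → vol P.rat xq (DN9 m M D r H R B L) =
        xq ^ (∑ a, (r / m a + 1)) * P.rat.val R) ∧
      ((∀ u ∈ R, (fun a => u (Sum.inr a)) ≠ 0) →
        r * D / M ≤ L → vol P.rat xq (DN9 m M D r H R B L) =
          xq ^ (∑ a, (r / m a + 1) + (L - r * D / M)) * P.rat.val R)

/-- the volumes (as `Stmt_LC`) -/
def Stmt_LC9 : Prop :=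
  ∀ (P : HodgeMeasure) (E κ : Type) [Finite E] [Fintype κ] [DecidableEq κ] (w m : κ → ℕ)
    (M D : ℕ) (H : MvPolynomial (E ⊕ (Unit ⊕ κ)) ℂ) (S : Set (E → ℂ)), HW9 H S w D → 1 ≤ M →
    (∀ a, w a * m a = M) → ∀ (Q : Set (E ⊕ Unit → ℂ)), QU Q →
    (∀ u ∈ Q, (fun e => u (Sum.inl e)) ∈ S) → ∀ i : ℕ, 1 ≤ i → vol P.rat xq (H0 H Q i) =
        (if D ∣ M * i then xq ^ (∑ a, (M * i / D / m a + 1)) *
          lc9' P w m D H (M * i / D) Q else 0) +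
        ∑ r ∈ Finset.Ico 1 (M * i + 1), if r * D < M * i then
          xq ^ (∑ a, (r / m a + 1) + (i - r * D / M)) * zc9 P w m D H r Q else 0

/-- the recurrence -/
def Stmt_VGC9 : Prop :=
  ∀ (P : HodgeMeasure) (E κ : Type) [Finite E] [Fintype κ] [DecidableEq κ] (w : κ → ℕ) (D : ℕ)
    (H : MvPolynomial (E ⊕ (Unit ⊕ κ)) ℂ) (S : Set (E → ℂ)), HW9 H S w D →
    ∀ (Q : Set (E ⊕ Unit → ℂ)), QU Q → (∀ u ∈ Q, (fun e => u (Sum.inl e)) ∈ S) →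
    ∀ m : ℕ, 1 ≤ m →
      vol P.rat xq (H0 H Q (m + 1 + D)) - xq * vol P.rat xq (H0 H Q (m + D)) =
        xq ^ (∑ a, w a) * (vol P.rat xq (H0 H Q (m + 1)) - xq * vol P.rat xq (H0 H Q m))

/-- sequences with this recurrence -/
def Stmt_REC9 : Prop :=
  ∀ (κ : ℕ → K) (D ν : ℕ), 1 ≤ D → (∀ m : ℕ, 1 ≤ m →
    κ (m + 1 + D) - xq * κ (m + D) = xq ^ ν * (κ (m + 1) - xq * κ m)) →
      ESeq {1, (ν : ℚ) / (D : ℚ)} κ

section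

variable {E ι : Type} [DecidableEq ι]

/-- `F(p; y)` with `y_b = ∑_{j < N} y_{b,j} t^j` for `b ∉ A` -/
noncomputable def spc (A : Finset ι) (N : ℕ) (F : MvPolynomial (E ⊕ ι) ℂ) :
    MvPolynomial ((E ⊕ ({b : ι // b ∉ A} × Fin N)) ⊕ (Unit ⊕ A)) ℂ :=
  aeval (Sum.elim (fun e => X (Sum.inl (Sum.inl e)))
    (fun a => if h : a ∈ A then X (Sum.inr (Sum.inr ⟨a, h⟩)) else
      ∑ j : Fin N, X (Sum.inl (Sum.inr (⟨a, h⟩, j))) * X (Sum.inr (Sum.inl ())) ^ (j : ℕ))) F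

/-- parameters and leading coefficients, the `y_b` start at the origin -/
def Qspc (A : Finset ι) (N : ℕ) (Q : Set (E ⊕ Unit → ℂ)) :
    Set ((E ⊕ ({b : ι // b ∉ A} × Fin N)) ⊕ Unit → ℂ) :=
  {z | (Sum.elim (fun e => z (Sum.inl (Sum.inl e))) fun _ => z (Sum.inr ())) ∈ Q ∧
    ∀ (b : {b : ι // b ∉ A}) (j : Fin N), (j : ℕ) = 0 → z (Sum.inl (Sum.inr (b, j))) = 0}

end

/-- variables outside of `A` as parameters -/
def Stmt_FUB9 : Prop :=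
  ∀ (P : HodgeMeasure) (E ι : Type) [Finite E] [Fintype ι] [DecidableEq ι]
    (F : MvPolynomial (E ⊕ ι) ℂ) (A : Finset ι) (Q : Set (E ⊕ Unit → ℂ)), QU Q →
    ∀ m N : ℕ, m < N →
      vol P.rat xq {z : (E → ℂ) × (ι → PowerSeries ℂ) |
        (∀ a, PowerSeries.coeff 0 (z.2 a) = 0) ∧ Lead Q m z.1 (evF F z.1 z.2)} =
      xq ^ (N * Aᶜ.card) * vol P.rat xq (H0 (spc A N F) (Qspc A N Q) m)

/-- generic volumes -/
def Stmt_VG9 : Prop :=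
  ∀ (P : HodgeMeasure) (ι : Type) [Fintype ι] [DecidableEq ι] (f : MvPolynomial ι ℂ)
    (S : Set (ι → ℂ)) (A : Finset ι) (w : ι → ℕ) (D : ℕ), Constructible S →
    (∀ a ∈ A, 1 ≤ w a) → (∀ a, a ∉ A → w a = 0) → 1 ≤ D →
    (∀ k : ℕ, D < k → FamC f S fun _ F => ZW9 A w D k F) →
    ∀ (E : Type) [Finite E] (Q : Set (E ⊕ Unit → ℂ)), QU Q →
      ESeq {1, ((∑ a ∈ A, w a : ℕ) : ℚ) / (D : ℚ)} fun m => vol P.rat xq (ZL f S Q m)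

/-! ## D : generic witnesses -/

/-- functionals at semi-quasi-homogeneous points, with support -/
def Stmt_PTS9 : Prop :=
  ∀ (ι : Type) [Fintype ι] [DecidableEq ι] (f : MvPolynomial ι ℂ) (p : ι → ℂ) (r : ℚ),
    eval p f = 0 → (∀ a, eval p (pderiv a f) = 0) → SQAt f p r → PtW p f (-(r : ℂ))

/-- slices -/
def Stmt_SLS9 : Prop :=
  ∀ (ι : Type) [Fintype ι] [DecidableEq ι] (f : MvPolynomial ι ℂ) (q : ι → ℂ)
    (A : Finset ι) (w : ι → ℕ) (D : ℕ) (Y : ι → MvPolynomial ι ℂ) (s : MvPolynomial ι ℂ)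
    (Φ : MvPolynomial ι (MvPolynomial ι ℂ)), Str9 f {q} A w D Y s Φ →
      SQAt (slice f A q) (fun a => q a) (((∑ a ∈ A, w a : ℕ) : ℚ) / (D : ℚ))

/-- `∂_b f`, `b ∉ A`, is a combination of the `∂_a f`, `a ∈ A`, near `q` -/
def Fld9 {ι : Type} (f : MvPolynomial ι ℂ) (A : Finset ι) (q : ι → ℂ) : Prop :=
  ∀ b, b ∉ A → ∃ (s : MvPolynomial ι ℂ) (c : ι → MvPolynomial ι ℂ), eval q s ≠ 0 ∧
    s * pderiv b f = ∑ a ∈ A, c a * pderiv a f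

/-- the fields -/
def Stmt_FLD9 : Prop :=
  ∀ (ι : Type) [Fintype ι] [DecidableEq ι] (f : MvPolynomial ι ℂ) (q : ι → ℂ)
    (Z : Finset ι) (s : MvPolynomial ι ℂ), (TZ f {q} Z s → Fld9 f Z q) ∧
    ∀ b h w e, TH f {q} Z b h s w e → Fld9 f (insert b Z) q

/-- witnesses from slices -/
def Stmt_WG9 : Prop :=
  ∀ (ι : Type) [Fintype ι] [DecidableEq ι] (f : MvPolynomial ι ℂ) (A : Finset ι) (q : ι → ℂ)
    (β : ℂ), q ∈ Crit0 f → Fld9 f A q → PtW (fun a : A => q a) (slice f A q) β → Wit f β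

/-- generic eigenvalues -/
def Stmt_EGG9 : Prop :=
  ∀ (ι : Type) [Fintype ι] [DecidableEq ι] (f : MvPolynomial ι ℂ), f.totalDegree ≠ 0 →
    ∀ (q : ι → ℂ) (Z : Finset ι) (s : MvPolynomial ι ℂ),
      (TZ f {q} Z s → ((Z.card : ℚ) / 2) ∈ EV f) ∧
      ∀ b h w e, TH f {q} Z b h s w e → ((Z.card : ℚ) / 2 + 1 / (e : ℚ)) ∈ EV f

/-- volumes and eigenvalues for the two structures -/
def Stmt_VGG9 : Prop :=
  ∀ (ι : Type) [Fintype ι] [DecidableEq ι] (f : MvPolynomial ι ℂ), f.totalDegree ≠ 0 →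
    ∀ (S : Set (ι → ℂ)) (Z : Finset ι) (s : MvPolynomial ι ℂ), Constructible S →
      (TZ f S Z s → Gd f S) ∧ ∀ b h w e, TH f S Z b h s w e → Gd f S

/-- multiple components -/
def Stmt_GSW9 : Prop :=
  ∀ (ι : Type) [Fintype ι] [DecidableEq ι] (f : MvPolynomial ι ℂ)
    (I : Ideal (MvPolynomial ι ℂ)), f.totalDegree ≠ 0 → I.IsPrime → ¬ I.IsMaximal → f ∈ I →
    (∀ a, pderiv a f ∈ I) → ∀ (Z : Finset ι) (e : ℕ), Zᶜ.card = 2 → dt f Z ∉ I → 2 ≤ e →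
    (∀ L : List ι, L.length < e → wd f Z L ∈ I) →
    (∃ L : List ι, L.length = e ∧ wd f Z L ∉ I) → ((Z.card : ℚ) / 2 + 1 / (e : ℚ)) ∈ EV f

/-! ## E : special points, algebra -/

/-- the formal parametrisation -/
def Stmt_CHI9 : Prop :=
  ∀ (ι : Type) [Fintype ι] [DecidableEq ι] (f : MvPolynomial ι ℂ) (Z : Finset ι) (p : ι → ℂ)
    (u v : ι), u ≠ v → Zᶜ = {u, v} → (∀ z ∈ Z, eval p (pderiv z f) = 0) →
    eval p (dt f Z) ≠ 0 → ∀ lam : ℂ, ∃ ρ, Par9 f Z p u v lam ρ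

/-- its kernel -/
def Stmt_KER9 : Prop :=
  ∀ (ι : Type) [Fintype ι] [DecidableEq ι] (f : MvPolynomial ι ℂ) (Z : Finset ι) (p : ι → ℂ)
    (u v : ι), u ≠ v → Zᶜ = {u, v} → (∀ z ∈ Z, eval p (pderiv z f) = 0) →
    eval p (dt f Z) ≠ 0 → ∀ (lam : ℂ) (ρ : MvPolynomial ι ℂ →ₐ[ℂ] N2), Par9 f Z p u v lam ρ →
      ∀ (N : ℕ) (g : MvPolynomial ι ℂ), ρ g ∈ m2 ^ N → g ∈ Zi f Z ⊔ mI p ^ N

/-- derivatives -/
def Stmt_DRV9 : Prop :=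
  ∀ (ι : Type) [Fintype ι] [DecidableEq ι] (f : MvPolynomial ι ℂ) (Z : Finset ι) (p : ι → ℂ)
    (u v : ι), u ≠ v → Zᶜ = {u, v} → eval p (dt f Z) ≠ 0 →
    ∀ (lam : ℂ) (ρ : MvPolynomial ι ℂ →ₐ[ℂ] N2), Par9 f Z p u v lam ρ →
      ∀ g : MvPolynomial ι ℂ, ρ (dl f Z u g) = ρ (dt f Z) * dX (ρ g) ∧
        ρ (dl f Z v g) = ρ (dt f Z) * (dY (ρ g) - cc lam * dX (ρ g))

/-- generic direction -/
def Stmt_LAM9 : Prop :=
  ∀ (ι : Type) [Fintype ι] [DecidableEq ι] (f : MvPolynomial ι ℂ) (Z : Finset ι) (p : ι → ℂ)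
    (u v : ι), u ≠ v → Zᶜ = {u, v} → (∀ z ∈ Z, eval p (pderiv z f) = 0) →
    eval p (dt f Z) ≠ 0 → (∃ L : List ι, eval p (wd f Z L) ≠ 0) →
      ∃ lam : ℂ, ∀ ρ : MvPolynomial ι ℂ →ₐ[ℂ] N2, Par9 f Z p u v lam ρ → ¬ xx ∣ ρ f

/-- Weierstrass polynomials with a certificate -/
structure WP9 (n : ℕ) (W : ℕ → Polynomial (PowerSeries ℂ)) : Prop where
  mon : ∀ j, (W j).Monic
  dis : ∀ j, (W j).map PowerSeries.constantCoeff = Polynomial.X ^ (W j).natDegree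
  cert : ∀ j ∈ Finset.Icc 1 n, ∃ (c : ℕ) (A B : Polynomial (PowerSeries ℂ)),
    Polynomial.C (PowerSeries.X ^ c) = A * W j +
      B * (∏ i ∈ (Finset.Icc 1 n).erase j, W i) * Polynomial.derivative (W j)

/-- preparation and squarefree decomposition -/
def Stmt_WPS9 : Prop :=
  ∀ g : N2, ¬ xx ∣ g → ∃ (n : ℕ) (W : ℕ → Polynomial (PowerSeries ℂ)) (w : N2), WP9 n W ∧
    IsUnit w ∧ g = w * ∏ j ∈ Finset.Icc 1 n, (W j : N2) ^ j ∧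
    ∀ j ∈ Finset.Icc 1 n, 1 ≤ (W j).natDegree → ∃ π g' : N2, Prime π ∧ ¬ π ∣ xx ∧
      ¬ π ∣ dY π ∧ g = π ^ j * g' ∧ ¬ π ∣ g'

/-- truncation of the Weierstrass polynomials -/
def Stmt_CE9 : Prop :=
  ∀ (n : ℕ) (W : ℕ → Polynomial (PowerSeries ℂ)), WP9 n W →
    ∃ G : ℕ → P2, Squarefree (∏ j ∈ Finset.Icc 1 n, G j) ∧
      (∀ j ∈ Finset.Icc 1 n, (W j).natDegree = 0 → G j = 1) ∧
      ∀ k : ℕ, ∃ (ψ : N2) (v : ℕ → N2), xx ∣ ψ - yy ∧ (∀ j ∈ Finset.Icc 1 n, e0 (v j) = 1) ∧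
        ∀ j ∈ Finset.Icc 1 n, xx ^ k ∣ sub2 (G j) ψ - v j * (W j : N2)

/-- plane germs -/
def Stmt_PL9 : Prop := ∀ g : N2, ¬ xx ∣ g → ∃ (n : ℕ) (G : ℕ → P2), PGerm g n G

/-- `f` modulo the square of `(∂_z f)` -/
def Stmt_CG9 : Prop :=
  ∀ (ι : Type) [Fintype ι] [DecidableEq ι] (f : MvPolynomial ι ℂ) (Z : Finset ι) (p : ι → ℂ)
    (u v : ι), u ≠ v → Zᶜ = {u, v} → (∀ z ∈ Z, eval p (pderiv z f) = 0) →
    eval p (dt f Z) ≠ 0 → ∀ (lam : ℂ) (ρ : MvPolynomial ι ℂ →ₐ[ℂ] N2), Par9 f Z p u v lam ρ →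
      ∀ (N : ℕ) (G : P2), ρ f - sub2 G yy ∈ m2 ^ (N + 1) →
        f - lc9 p u v lam G ∈ Zi f Z ^ 2 ⊔ mI p ^ N

/-- the Morse lemma -/
def Stmt_MO9 : Prop :=
  ∀ (ι : Type) [Fintype ι] [DecidableEq ι] (f r : MvPolynomial ι ℂ) (Z : Finset ι) (p : ι → ℂ),
    (∀ z ∈ Z, eval p (pderiv z f) = 0) → eval p (dt f Z) ≠ 0 →
    (∀ a ∈ Z, ∀ b ∈ Z, eval p (pderiv a (pderiv b r)) = eval p (pderiv a (pderiv b f))) →
    ∀ N : ℕ, 3 ≤ N → r ∈ Zi f Z ^ 2 ⊔ mI p ^ N →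
      ∃ Y : Z → MvPolynomial ι ℂ, (∀ z, Y z ∈ mI p) ∧
        (Matrix.of fun (a b : Z) => eval p (pderiv (b : ι) (Y a))).det ≠ 0 ∧
        r - ∑ z, Y z ^ 2 ∈ mI p ^ N

/-- contact equivalence with a polynomial in separate variables -/
def Stmt_CT9 : Prop :=
  ∀ (ι : Type) [Fintype ι] [DecidableEq ι] (f : MvPolynomial ι ℂ) (Z : Finset ι) (p : ι → ℂ)
    (u v : ι), u ≠ v → Zᶜ = {u, v} → (∀ z ∈ Z, eval p (pderiv z f) = 0) →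
    eval p (dt f Z) ≠ 0 → ∀ (lam : ℂ) (ρ : MvPolynomial ι ℂ →ₐ[ℂ] N2), Par9 f Z p u v lam ρ →
      ∀ (n : ℕ) (G : ℕ → P2), PGerm (ρ f) n G →
        Ctt9 f p (GG Z u v (∏ j ∈ Finset.Icc 1 n, G j ^ j))

/-- multiple factors of the germ give eigenvalues -/
def Stmt_DMF9 : Prop :=
  ∀ (ι : Type) [Fintype ι] [DecidableEq ι] (f : MvPolynomial ι ℂ) (Z : Finset ι) (p : ι → ℂ)
    (u v : ι), f.totalDegree ≠ 0 → u ≠ v → Zᶜ = {u, v} →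
    (∀ z ∈ Z, eval p (pderiv z f) = 0) → eval p (dt f Z) ≠ 0 →
    ∀ (lam : ℂ) (ρ : MvPolynomial ι ℂ →ₐ[ℂ] N2), Par9 f Z p u v lam ρ →
    ∀ (W g' : N2) (e : ℕ), 2 ≤ e → Prime W → ¬ W ∣ xx → ¬ W ∣ dY W → ρ f = W ^ e * g' →
      ¬ W ∣ g' → ((Z.card : ℚ) / 2 + 1 / (e : ℚ)) ∈ EV f

/-! ## F : special points, volumes and witnesses -/

/-- volumes and contact equivalence -/
def Stmt_CTV9 : Prop :=
  ∀ (ι : Type) [Fintype ι] [DecidableEq ι] (f : MvPolynomial ι ℂ) (p : ι → ℂ)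
    (G : MvPolynomial ι ℂ), Ctt9 f p G → ∀ (P : HodgeMeasure) (E : Type) [Finite E]
      (Q : Set (E ⊕ Unit → ℂ)), QU Q → ∀ m : ℕ,
        vol P.rat xq (ZL f {p} Q m) = vol P.rat xq (ZL G {fun _ => 0} Q m)

/-- witnesses and contact equivalence -/
def Stmt_CTW9 : Prop :=
  ∀ (ι : Type) [Fintype ι] [DecidableEq ι] (f : MvPolynomial ι ℂ) (p : ι → ℂ)
    (G : MvPolynomial ι ℂ), Ctt9 f p G → ∀ β : ℂ, PtW (fun _ => 0) G β → ∀ L : ℕ, FinW f β L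

/-- long finite witnesses give roots of the Bernstein polynomial -/
def Stmt_W5F9 : Prop :=
  ∀ (ι : Type) [Fintype ι] [DecidableEq ι] (f : MvPolynomial ι ℂ) (β : ℂ),
    (∀ n : ℕ, β ≠ n) → (∀ L : ℕ, FinW f β L) → ∀ b, IsBernstein f b → b.eval β = 0

/-- the exponents of the plane germ `∏ G_j^j` -/
def Ex9 (n : ℕ) (G : ℕ → P2) : Set ℚ :=
  {r : ℚ | 0 < r ∧ (BG.HasTW false false (-1) (-1) (∏ j ∈ Finset.Icc 1 n, G j ^ j) r ∨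
    ∃ j ∈ Finset.Icc 1 n, 2 ≤ j ∧ ¬ IsUnit (G j) ∧ r = 1 / (j : ℚ))}

/-- the tree, local version of `Stmt_TREE` -/
def Stmt_TRE9 : Prop :=
  ∀ (n : ℕ) (G : ℕ → P2), Squarefree (∏ j ∈ Finset.Icc 1 n, G j) →
    eval 0 (∏ j ∈ Finset.Icc 1 n, G j) = 0 →
    (∀ i, eval 0 (pderiv i (∏ j ∈ Finset.Icc 1 n, G j)) = 0) →
      Good0 (Ex9 n G) (∏ j ∈ Finset.Icc 1 n, G j ^ j)

/-- the volumes of `Stmt_VL0`, `Stmt_VM0` in the form `PD9` -/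
def Stmt_BAS9 : Prop :=
  ∀ (P : HodgeMeasure) (Λ : Set ℚ) (F : P2), Λ ⊆ Set.Ioi 0 → Good0 Λ F → PD9 P F Λ

/-- smooth germs and their powers -/
def Stmt_SMU9 : Prop :=
  ∀ (P : HodgeMeasure) (g h : P2) (e : ℕ), 1 ≤ e → eval 0 g = 0 →
    (∃ i, eval 0 (pderiv i g) ≠ 0) → eval 0 h ≠ 0 →
      PD9 P (g ^ e * h) {r | 2 ≤ e ∧ r = 1 / (e : ℚ)}

/-- plane germs -/
def Stmt_TRL9 : Prop :=
  ∀ (P : HodgeMeasure) (n : ℕ) (G : ℕ → P2), Squarefree (∏ j ∈ Finset.Icc 1 n, G j) →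
    eval 0 (∏ j ∈ Finset.Icc 1 n, G j) = 0 →
      PD9 P (∏ j ∈ Finset.Icc 1 n, G j ^ j) (Ex9 n G)

/-- one square -/
def Stmt_SG9 : Prop :=
  ∀ (P : HodgeMeasure) (ι : Type) [Fintype ι] (F : MvPolynomial ι ℂ) (Λ : Set ℚ),
    Λ ⊆ Set.Ioi 0 → PD9 P F Λ →
      PD9 P (oplus F (X () ^ 2 : MvPolynomial Unit ℂ)) {r | r - 1 / 2 ∈ Λ}

/-- induction on the number of squares -/
def Stmt_GGI9 : Prop :=
  ∀ (Pr : ∀ (ι : Type) [Fintype ι], MvPolynomial ι ℂ → ℕ → Prop),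
    (∀ (ι : Type) [Fintype ι] (F : MvPolynomial ι ℂ) (k : ℕ), Pr ι F k →
      Pr (ι ⊕ Unit) (oplus F (X () ^ 2 : MvPolynomial Unit ℂ)) (k + 1)) →
    (∀ (ι κ : Type) [Fintype ι] [Fintype κ] (φ : ι ≃ κ) (F : MvPolynomial ι ℂ) (k : ℕ),
      Pr ι F k → Pr κ (rename φ F) k) →
    ∀ G : P2, Pr (Fin 2) G 0 → ∀ (ι : Type) [Fintype ι] [DecidableEq ι] (Z : Finset ι)
      (u v : ι), u ≠ v → Zᶜ = {u, v} → Pr ι (GG Z u v G) Z.card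

/-- all squares, volumes -/
def Stmt_SGI9 : Prop :=
  ∀ (P : HodgeMeasure) (G : P2) (Λ : Set ℚ), Λ ⊆ Set.Ioi 0 → PD9 P G Λ →
    ∀ (ι : Type) [Fintype ι] [DecidableEq ι] (Z : Finset ι) (u v : ι), u ≠ v → Zᶜ = {u, v} →
      PD9 P (GG Z u v G) {r | r - (Z.card : ℚ) / 2 ∈ Λ}

/-- all squares, witnesses -/
def Stmt_PTQ9 : Prop :=
  ∀ (G : P2) (β : ℂ), PtW (fun _ => 0) G β →
    ∀ (ι : Type) [Fintype ι] [DecidableEq ι] (Z : Finset ι) (u v : ι), u ≠ v → Zᶜ = {u, v} →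
      PtW (fun _ => 0) (GG Z u v G) (β - (Z.card : ℂ) / 2)

/-- functionals of the plane germ -/
def Stmt_PTT9 : Prop :=
  ∀ (G : P2) (r : ℚ), BG.HasTW false false (-1) (-1) G r →
    ∃ (β : ℚ) (z : ℤ), β < 0 ∧ β = -r + z ∧ PtW (fun _ => 0) G (β : ℂ)

/-- special points -/
def Stmt_SPC9 : Prop :=
  ∀ (ι : Type) [Fintype ι] [DecidableEq ι] (f : MvPolynomial ι ℂ) (Z : Finset ι) (p : ι → ℂ),
    f.totalDegree ≠ 0 → p ∈ Crit0 f → Zᶜ.card = 2 → eval p (dt f Z) ≠ 0 →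
    (∃ L : List ι, eval p (wd f Z L) ≠ 0) → Gd f {p}

/-! ## G : the theorem -/

/-- the hypothesis: corank at most two, or semi-quasi-homogeneous -/
def Cor2 {ι : Type} [Fintype ι] [DecidableEq ι] (f : MvPolynomial ι ℂ) : Prop :=
  ∀ p ∈ Crit0 f, Fintype.card ι ≤ (Hs f p).rank + 2 ∨ ∃ r, SQAt f p r

/-- irreducible components -/
def Stmt_STP9 : Prop :=
  ∀ (ι : Type) [Fintype ι] [DecidableEq ι] (f : MvPolynomial ι ℂ), f.totalDegree ≠ 0 →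
    Cor2 f → ∀ I : Ideal (MvPolynomial ι ℂ), I.IsPrime → f ∈ I → (∀ a, pderiv a f ∈ I) →
      ∃ s, s ∉ I ∧ ∀ S : Set (ι → ℂ), Constructible S →
        (∀ q ∈ S, (∀ g ∈ I, eval q g = 0) ∧ eval q s ≠ 0) → Gd f S

/-- noetherian induction -/
def Stmt_COM9 : Prop :=
  ∀ (ι : Type) [Fintype ι] [DecidableEq ι] (f : MvPolynomial ι ℂ),
    (∀ I : Ideal (MvPolynomial ι ℂ), I.IsPrime → f ∈ I → (∀ a, pderiv a f ∈ I) →
      ∃ s, s ∉ I ∧ ∀ S : Set (ι → ℂ), Constructible S →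
        (∀ q ∈ S, (∀ g ∈ I, eval q g = 0) ∧ eval q s ≠ 0) → Gd f S) →
    Gd f (Crit0 f)

/-- the poles -/
def Stmt_POL9 : Prop :=
  ∀ (P : HodgeMeasure) (ι : Type) [Fintype ι] [DecidableEq ι] (f : MvPolynomial ι ℂ),
    f.totalDegree ≠ 0 → Gd f (Crit0 f) → ∀ (e : ℕ) (R : K), 1 ≤ e →
    (IsLim (zetaSer P.rat xq f e) R ∨ IsLim (zetaSer1 P.rat xq f e) R) →
    ∀ s : ℂ, Polynomial.aeval s R.denom = 0 →
      IsEigenvalue f (Complex.exp (2 * Real.pi * Complex.I * s))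

end Pool.Agent.Mono.C9
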