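import Pool.Agent.Work.Monodromy.Interface13
import Pool.Agent.Work.Monodromy.Interface9

/-!
# Phase 14: isolated nondegenerate singularities glued with singularities of corank at most two;
blocks (helper2)

See `Monodromy14/BLUEPRINT14.md`.
-/

set_option autoImplicit false

namespace Pool.Agent.Mono.NP

open MvPolynomial Filter Topology

section

variable {ι : Type} [Fintype ι] [DecidableEq ι]

/-- the initial form for the weights `k`: the sum of the terms of minimal weight -/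
noncomputable def inF (f : MvPolynomial ι ℂ) (k : ι → ℤ) : MvPolynomial ι ℂ :=
  ∑ m ∈ f.support.filter (fun m => ∀ m' ∈ f.support, ∑ i, k i * (m i : ℤ) ≤ ∑ i, k i * (m' i : ℤ)),
    monomial m (f.coeff m)

/-- `g` is nondegenerate with respect to its local Newton polyhedron at the origin (compact faces:
positive weights) -/
def NdL (g : MvPolynomial ι ℂ) : Prop :=
  ∀ k : ι → ℤ, (∀ i, 0 < k i) → ∀ x : ι → ℂ, (∀ i, x i ≠ 0) → eval x (inF g k) = 0 →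
    ∃ i, eval x (pderiv i (inF g k)) ≠ 0

/-- `p` is an isolated point of `{f = 0, df = 0}` (Zariski topology) -/
def Iso0 (f : MvPolynomial ι ℂ) (p : ι → ℂ) : Prop :=
  ∃ s : MvPolynomial ι ℂ, eval p s ≠ 0 ∧ ∀ q ∈ SP.Crit0 f, eval q s ≠ 0 → q = p

/-- `p` is an isolated singular point, and in suitable polynomial coordinates `f` is nondegenerate
with respect to its local Newton polyhedron -/
def NdAt (f : MvPolynomial ι ℂ) (p : ι → ℂ) : Prop :=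
  Iso0 f p ∧ ∃ φ : ι → MvPolynomial ι ℂ, SP.IsCo p φ ∧ NdL (bind₁ φ f)

/-- the ideal `(f, ∂f)` -/
noncomputable def cI (f : MvPolynomial ι ℂ) : Ideal (MvPolynomial ι ℂ) :=
  Ideal.span (insert f (Set.range fun a => pderiv a f))

/-- the combination of the zeta functions of the covers `w^d = f`, `d ∣ e`, without constant term, at
`T = u^{-s}`; `Q d m` is the class of the jets of order `m` -/
noncomputable def zL (n : ℕ) (Q : ℕ → ℕ → Polynomial ℤ) (e s : ℕ) (u : ℝ) : ℝ :=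
  ∑ d ∈ e.divisors, ((ArithmeticFunction.moebius (e / d) : ℤ) : ℝ) *
    ∑' m : ℕ, if m = 0 then 0 else
      Polynomial.aeval u (Q d m) * u⁻¹ ^ (m * n) * u⁻¹ ^ (m * s)

/-- absolute convergence -/
def SmL (n : ℕ) (Q : ℕ → ℕ → Polynomial ℤ) : Prop :=
  ∀ (d : ℕ) (u : ℝ), 1 ≤ d → 1 < u →
    Summable fun m : ℕ => |Polynomial.aeval u (Q d m)| * u⁻¹ ^ (m * n)

/-- the limit of the series `Z` at `T = u^{-s}` is `R(s)` for all large `s` -/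
def IsLimE (Z : PowerSeries (RatFunc ℚ)) (R : RatFunc ℚ) : Prop :=
  ∃ num den : Polynomial (RatFunc ℚ), den.coeff 0 ≠ 0 ∧
    (den : PowerSeries (RatFunc ℚ)) * Z = (num : PowerSeries (RatFunc ℚ)) ∧
    ∀ᶠ s : ℕ in atTop, den.eval ((RatFunc.X : RatFunc ℚ)⁻¹ ^ s) ≠ 0 ∧
      R.denom.eval (s : ℚ) ≠ 0 ∧
      LimOne (num.eval ((RatFunc.X : RatFunc ℚ)⁻¹ ^ s) / den.eval ((RatFunc.X : RatFunc ℚ)⁻¹ ^ s))
        (R.eval (RingHom.id ℚ) (s : ℚ))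

end

/-! ## A : geometry -/

/-- ISL14: the critical ideal at an isolated point, in the coordinates `φ` -/
def Stmt_ISL14 : Prop :=
  ∀ (ι : Type) [Fintype ι] [DecidableEq ι] (f : MvPolynomial ι ℂ) (p : ι → ℂ)
    (φ : ι → MvPolynomial ι ℂ), p ∈ SP.Crit0 f → Iso0 f p → SP.IsCo p φ →
    ∃ (N : ℕ) (s : MvPolynomial ι ℂ), eval (fun _ => 0) s ≠ 0 ∧
      ∀ g ∈ C9.mI (fun _ : ι => (0 : ℂ)) ^ N, s * g ∈ cI (bind₁ φ f)

/-- NWT14: finite determinacy (contact equivalence) -/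
def Stmt_NWT14 : Prop :=
  ∀ (ι : Type) [Fintype ι] [DecidableEq ι] (H : MvPolynomial ι ℂ) (N : ℕ)
    (s : MvPolynomial ι ℂ), eval (fun _ => 0) s ≠ 0 →
    (∀ g ∈ C9.mI (fun _ : ι => (0 : ℂ)) ^ N, s * g ∈ cI H) →
    ∃ M₀ : ℕ, ∀ M, M₀ ≤ M → ∀ G : MvPolynomial ι ℂ,
      G - H ∈ C9.mI (fun _ : ι => (0 : ℂ)) ^ M → C9.Ctt9 H (fun _ => 0) G

/-- CMP14: composition of coordinates -/
def Stmt_CMP14 : Prop :=
  ∀ (ι : Type) [Fintype ι] [DecidableEq ι] (f : MvPolynomial ι ℂ) (p : ι → ℂ)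
    (φ : ι → MvPolynomial ι ℂ) (G : MvPolynomial ι ℂ), SP.IsCo p φ →
    C9.Ctt9 (bind₁ φ f) (fun _ => 0) G → C9.Ctt9 f p G

/-- GEN14: `H + ∑ c_i x_i^M` is nondegenerate for all faces of its Newton polytope -/
def Stmt_GEN14 : Prop :=
  ∀ (ι : Type) [Fintype ι] [DecidableEq ι] [Nonempty ι] (H : MvPolynomial ι ℂ), H ≠ 0 → NdL H →
    ∀ M₀ : ℕ, ∃ (M : ℕ) (κ : Type) (_ : Fintype κ) (_ : DecidableEq κ) (w : κ → ι → ℕ)
      (a : κ → ℂ), M₀ ≤ M ∧ 1 ≤ M ∧ Function.Injective w ∧ NdP w a ∧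
      poly w a - H ∈ C9.mI (fun _ : ι => (0 : ℂ)) ^ M ∧
      ∀ i : ι, ∃ v : κ, w v i = M ∧ ∀ j, j ≠ i → w v j = 0

/-- CRG14: the only singular point is the origin -/
def Stmt_CRG14 : Prop :=
  ∀ (ι κ : Type) [Fintype ι] [DecidableEq ι] [Fintype κ] [DecidableEq κ] (w : κ → ι → ℕ)
    (a : κ → ℂ) (M : ℕ), 1 ≤ M → NdP w a →
    (∀ i : ι, ∃ v : κ, w v i = M ∧ ∀ j, j ≠ i → w v j = 0) →
    SP.Crit0 (poly w a) ⊆ {fun _ => 0}

/-- GEO14: the model of an isolated nondegenerate point -/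
def Stmt_GEO14 : Prop :=
  ∀ (ι : Type) [Fintype ι] [DecidableEq ι] (f : MvPolynomial ι ℂ) (p : ι → ℂ),
    f.totalDegree ≠ 0 → p ∈ SP.Crit0 f → NdAt f p →
    ∃ (κ : Type) (_ : Fintype κ) (_ : DecidableEq κ) (w : κ → ι → ℕ) (a : κ → ℂ),
      Nonempty κ ∧ Function.Injective w ∧ NdP w a ∧
      SP.Crit0 (poly w a) ⊆ {fun _ => 0} ∧ C9.Ctt9 f p (poly w a)

/-! ## B : witnesses -/

/-- PTG14: the functional at the origin -/
def Stmt_PTG14 : Prop :=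
  ∀ (ι κ : Type) [Fintype ι] [DecidableEq ι] [Fintype κ] [DecidableEq κ] (w : κ → ι → ℕ)
    (a : κ → ℂ) (h : κ → ℝ) (s₀ : ℚ), NdP w a → SP.Crit0 (poly w a) ⊆ {fun _ => 0} →
    LinearIndependent ℚ h → (∀ z : ℤ, s₀ ≠ z) → LamDatum w h s₀ →
    ∃ (β : ℚ) (z : ℤ), β = s₀ + z ∧ C9.PtW (fun _ => 0) (poly w a) (β : ℂ)

/-- EIG14: the eigenvalue of `f` -/
def Stmt_EIG14 : Prop :=
  ∀ (ι : Type) [Fintype ι] [DecidableEq ι] (f G : MvPolynomial ι ℂ) (p : ι → ℂ) (s₀ β : ℚ)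
    (z : ℤ), C9.Ctt9 f p G → β = s₀ + z → (∀ z : ℤ, s₀ ≠ z) → C9.PtW (fun _ => 0) G (β : ℂ) →
    IsEigenvalue f (Complex.exp (2 * Real.pi * Complex.I * (s₀ : ℂ)))

/-! ## C : the zeta function of the model -/

/-- RLM14: limits over real numbers -/
def Stmt_RLM14 : Prop :=
  ∀ (E : EulerMeasure) (ι κ : Type) [Fintype ι] [DecidableEq ι] [Fintype κ] [DecidableEq κ]
    [Nonempty κ] (w : κ → ι → ℕ) (a : κ → ℂ) (h : κ → ℝ) (e : ℕ),
    Function.Injective w → NdP w a → LinearIndependent ℚ h → Full w h → 1 ≤ e →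
    ∃ c : ℚ, ∀ (s : ℕ) (J : Finset κ → ℝ), 1 ≤ s →
      (∀ C ∈ cls0 w h, Tendsto (fun ε : ℝ => ε ^ (Fintype.card ι + 1 - C.card) *
        Fs w C (pz (fun _ => 0) s 0) ε) (𝓝[>] 0) (𝓝 (J C))) →
      Tendsto (zL (Fintype.card ι) (fun d m => E.val (jetSet (poly w a) d m)) e s) (𝓝[>] 1)
        (𝓝 ((∑ C ∈ cls0 w h, (-1) ^ (C.card + 1) * ((nuE w e C : ℝ) -
          (if e = 1 ∧ 2 ≤ C.card then (nuE w 1 C : ℝ) / (1 + s) else 0)) * J C) - (c : ℝ)))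

/-- RLI14: the limits are the values of a rational function -/
def Stmt_RLI14 : Prop :=
  ∀ (E : EulerMeasure) (ι κ : Type) [Fintype ι] [DecidableEq ι] [Fintype κ] [DecidableEq κ]
    [Nonempty κ] (w : κ → ι → ℕ) (a : κ → ℂ) (h : κ → ℝ) (e : ℕ)
    (P D : MvPolynomial (ι ⊕ Unit) ℚ), Function.Injective w → NdP w a →
    LinearIndependent ℚ h → Full w h → 1 ≤ e →
    (∀ y : ι ⊕ Unit → ℝ, Gen w h y → Tf w h e y * aeval y D = aeval y P) →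
    aeval (line ι) D ≠ 0 →
    SmL (Fintype.card ι) (fun d m => E.val (jetSet (poly w a) d m)) ∧
    ∃ c : ℚ, ∀ᶠ s : ℕ in atTop,
      Tendsto (zL (Fintype.card ι) (fun d m => E.val (jetSet (poly w a) d m)) e s) (𝓝[>] 1)
        (𝓝 ((((pref e * (aeval (line ι) P / aeval (line ι) D) + RatFunc.C c).eval
          (RingHom.id ℚ) (s : ℚ) : ℚ) : ℝ)))

/-! ## D : gluing -/

/-- Q514: the poles of the limit (`Stmt_Q5` for large `s`) -/
def Stmt_Q514 : Prop :=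
  ∀ (Λ : Set ℚ) (κ : ℕ → RatFunc ℚ) (R : RatFunc ℚ), TS.ESeq Λ κ →
    IsLimE (PowerSeries.mk κ) R → ∀ s : ℂ, Polynomial.aeval s R.denom = 0 →
      ∃ r ∈ Λ, s = -(r : ℂ)

/-- RAT14: rational series whose real limits are rational numbers -/
def Stmt_RAT14 : Prop :=
  ∀ (n : ℕ) (P : ℕ → Polynomial ℤ) (num den : Polynomial (RatFunc ℚ)) (s : ℕ) (L : ℚ),
    den.coeff 0 ≠ 0 →
    (den : PowerSeries (RatFunc ℚ)) *
      (PowerSeries.mk fun k => toRat (P k) * (RatFunc.X)⁻¹ ^ (k * n)) =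
        (num : PowerSeries (RatFunc ℚ)) →
    (∀ u : ℝ, 1 < u → Summable fun k : ℕ => |Polynomial.aeval u (P k)| * u⁻¹ ^ (k * n)) →
    Tendsto (fun u : ℝ => ∑' k : ℕ, Polynomial.aeval u (P k) * u⁻¹ ^ (k * n) *
      u⁻¹ ^ (k * s)) (𝓝[>] 1) (𝓝 (L : ℝ)) →
    den.eval ((RatFunc.X : RatFunc ℚ)⁻¹ ^ s) ≠ 0 →
    LimOne (num.eval ((RatFunc.X : RatFunc ℚ)⁻¹ ^ s) / den.eval ((RatFunc.X : RatFunc ℚ)⁻¹ ^ s)) L

/-- GLU14: a zeta function which is, up to an exponential sequence, a sum of series with known real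
limits -/
def Stmt_GLU14 : Prop :=
  ∀ (P : HodgeMeasure) (ι β : Type) [Fintype ι] [Fintype β] (f : MvPolynomial ι ℂ) (e : ℕ)
    (R : RatFunc ℚ) (Λ : Set ℚ) (Q : β → ℕ → ℕ → Polynomial ℤ) (V : β → RatFunc ℚ), 1 ≤ e →
    IsTwTopZeta P f e R →
    (∀ d ∈ e.divisors, TS.ESeq Λ fun m => PowerSeries.coeff m (zetaSer1 P.rat (RatFunc.X)⁻¹ f d) -
      ∑ b, if m = 0 then 0 else
        toRat (Q b d m) * (RatFunc.X)⁻¹ ^ (m * Fintype.card ι)) →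
    (∀ b, SmL (Fintype.card ι) (Q b)) →
    (∀ b, ∀ᶠ s : ℕ in atTop, Tendsto (zL (Fintype.card ι) (Q b) e s) (𝓝[>] 1)
      (𝓝 ((((V b).eval (RingHom.id ℚ) (s : ℚ) : ℚ) : ℝ)))) →
    ∃ W : RatFunc ℚ, (∀ s : ℂ, Polynomial.aeval s W.denom = 0 → ∃ r ∈ Λ, s = -(r : ℂ)) ∧
      RatFunc.C (e.totient : ℚ) * R = W + ∑ b, V b

/-- FIN14: there are finitely many isolated points -/
def Stmt_FIN14 : Prop :=
  ∀ (ι : Type) [Fintype ι] [DecidableEq ι] (f : MvPolynomial ι ℂ),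
    {p : ι → ℂ | p ∈ SP.Crit0 f ∧ Iso0 f p}.Finite

/-- COM14: the other critical points -/
def Stmt_COM14 : Prop :=
  ∀ (ι : Type) [Fintype ι] [DecidableEq ι] (f : MvPolynomial ι ℂ) (B : Finset (ι → ℂ)),
    f.totalDegree ≠ 0 → (∀ p ∈ B, Iso0 f p) →
    (∀ p ∈ SP.Crit0 f, p ∈ B ∨ Fintype.card ι ≤ (SP.Hs f p).rank + 2 ∨ ∃ r, RO.SQAt f p r) →
    C9.Gd f (SP.Crit0 f \ B)

/-- DEC14: the zeta function minus those of the models -/
def Stmt_DEC14 : Prop :=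
  ∀ (P : HodgeMeasure) (ι : Type) [Fintype ι] [DecidableEq ι] (f : MvPolynomial ι ℂ)
    (B : Finset (ι → ℂ)) (G : (ι → ℂ) → MvPolynomial ι ℂ), (∀ p ∈ B, p ∈ SP.Crit0 f) →
    (∀ p ∈ B, C9.Ctt9 f p (G p) ∧ SP.Crit0 (G p) ⊆ {fun _ => 0}) →
    C9.Gd f (SP.Crit0 f \ B) → ∀ d : ℕ, 1 ≤ d →
    TS.ESeq ({1} ∪ C9.EV f) fun m => PowerSeries.coeff m (zetaSer1 P.rat (RatFunc.X)⁻¹ f d) -
      ∑ p ∈ B, PowerSeries.coeff m (zetaSer1 P.rat (RatFunc.X)⁻¹ (G p) d)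

end Pool.Agent.Mono.NP
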