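import Pool.Agent.Work.Monodromy.Interface

/-!
# Phase 2: polynomials which are locally power-map pull-backs of arrangements

`LocalModel f S D`: along the constructible set `S` the polynomial `f` has the local form
`unit * D.poly` in formal coordinates depending algebraically on the point.  Main examples:
`∏ q_i(x_i) ∏_j (c0_j + ∑_i c_{ji} P_i(x_i))^{m_j}` with arbitrary one-variable polynomials.
-/

namespace Pool.Agent.Mono

open MvPolynomial

section

variable {ι κ : Type} [Fintype ι] [Fintype κ] [DecidableEq ι] [DecidableEq κ]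

/-- `φ` is a regular function on `S` -/
def RegularOn {ι : Type} (S : Set (ι → ℂ)) (φ : (ι → ℂ) → ℂ) : Prop :=
  ∃ num den : MvPolynomial ι ℂ, ∀ ξ ∈ S, eval ξ den ≠ 0 ∧ φ ξ = eval ξ num / eval ξ den

/-- `f` in the formal coordinates `x = ξ + ψ(z)` at the point `ξ` -/
noncomputable def expand (f : MvPolynomial ι ℂ) (ξ : ι → ℂ) (ψ : ι → MvPowerSeries ι ℂ) :
    MvPowerSeries ι ℂ :=
  aeval (fun i => MvPowerSeries.C (ξ i) + ψ i) f

/-- along `S` the polynomial `f` is, in formal coordinates `x = ξ + Ψ_ξ(z)` (with invertible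
Jacobian matrix) a unit times `g(z)`; the coefficients of `Ψ_ξ` and of the unit are regular
functions of `ξ ∈ S`. -/
def LocalModel (f : MvPolynomial ι ℂ) (S : Set (ι → ℂ)) (g : MvPolynomial ι ℂ) : Prop :=
  ∃ (Ψ : (ι → ℂ) → ι → MvPowerSeries ι ℂ) (u : (ι → ℂ) → MvPowerSeries ι ℂ),
    (∀ i n, RegularOn S fun ξ => MvPowerSeries.coeff n (Ψ ξ i)) ∧
    (∀ n, RegularOn S fun ξ => MvPowerSeries.coeff n (u ξ)) ∧
    ∀ ξ ∈ S, (∀ i, MvPowerSeries.constantCoeff (Ψ ξ i) = 0) ∧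
      (Matrix.of fun i j => MvPowerSeries.coeff (Finsupp.single j 1) (Ψ ξ i)).det ≠ 0 ∧
      MvPowerSeries.constantCoeff (u ξ) ≠ 0 ∧
      expand f ξ (Ψ ξ) = u ξ * (g : MvPowerSeries ι ℂ)

/-- arcs with origin in `S` and contact order `k` with `f` -/
def contactS (e : ℕ) (f : MvPolynomial ι ℂ) (S : Set (ι → ℂ)) (k : ℕ) :
    Set ((Unit → ℂ) × (ι → PowerSeries ℂ)) :=
  {z | (fun i => PowerSeries.constantCoeff (z.2 i)) ∈ S ∧
    (∀ l < k, PowerSeries.coeff l (aeval z.2 f) = 0) ∧ PowerSeries.coeff k (aeval z.2 f) ≠ 0 ∧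
    z.1 () ^ e = PowerSeries.coeff k (aeval z.2 f)}

/-- the part of the zeta function of `f` over `S` -/
noncomputable def ZS {R : Type} [CommRing R] (μ : MotivicMeasure R) (Li : R) (e : ℕ)
    (f : MvPolynomial ι ℂ) (S : Set (ι → ℂ)) : PowerSeries R :=
  PowerSeries.mk fun k => vol μ Li (contactS e f S k)

end

/-- the zeta function is `L^n` times the volume series -/
def Stmt_GJet : Prop :=
  ∀ (ι : Type) [Fintype ι] [DecidableEq ι] (f : MvPolynomial ι ℂ) (R : Type) [CommRing R]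
    (μ : MotivicMeasure R) (Li : R), μ.L * Li = 1 → ∀ e : ℕ,
      zetaSer μ Li f e = PowerSeries.C (μ.L ^ Fintype.card ι) * ZS μ Li e f Set.univ

/-- additivity in `S`, and the part where `f ≠ 0` is constant -/
def Stmt_GAdd : Prop :=
  ∀ (ι : Type) [Fintype ι] [DecidableEq ι] (f : MvPolynomial ι ℂ) (R : Type) [CommRing R]
    (μ : MotivicMeasure R) (Li : R), μ.L * Li = 1 → ∀ e : ℕ, 1 ≤ e →
      (∀ (σ : Type) [Fintype σ] (S : σ → Set (ι → ℂ)), (∀ a, Constructible (S a)) →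
        (∀ a b, a ≠ b → Disjoint (S a) (S b)) →
          ZS μ Li e f (⋃ a, S a) = ∑ a, ZS μ Li e f (S a)) ∧
      ∀ S : Set (ι → ℂ), Constructible S → (∀ ξ ∈ S, eval ξ f ≠ 0) →
        ZS μ Li e f S = PowerSeries.C (Li ^ Fintype.card ι * μ.val (cover e S f))

/-- the zeta function over a stratum with a local model -/
def Stmt_ZL : Prop :=
  ∀ (ι κ : Type) [Fintype ι] [Fintype κ] [DecidableEq ι] [DecidableEq κ]
    (f : MvPolynomial ι ℂ) (S : Set (ι → ℂ)) (D : Data ι κ), Constructible S → D.Central →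
    (∀ i, 1 ≤ D.a i) → LocalModel f S D.poly → ∀ e : ℕ, 1 ≤ e →
      ∃ h : MvPolynomial ι ℂ, (∀ ξ ∈ S, eval ξ h ≠ 0) ∧
        ∀ (R : Type) [CommRing R] (μ : MotivicMeasure R) (Li : R), μ.L * Li = 1 →
          ZS μ Li e f S = PowerSeries.C (Li ^ Fintype.card ι) *
            PowerSeries.X ^ (∑ i, D.b i + ∑ j, D.m j) * Zs μ Li e S h D (fun i => D.a i - 1)

/-! ## Formal Weyl algebra -/

/-- operators on `ℂ[[z]]` generated by multiplications and the `∂/∂z_i` -/
noncomputable def FWeyl (ι : Type) : Subalgebra ℂ (Module.End ℂ (MvPowerSeries ι ℂ)) :=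
  Algebra.adjoin ℂ (Set.range (fun g : MvPowerSeries ι ℂ => LinearMap.mulLeft ℂ g) ∪
    Set.range (fun i => ((MvPowerSeries.pderiv ℂ i :
      Derivation ℂ (MvPowerSeries ι ℂ) (MvPowerSeries ι ℂ)) :
      MvPowerSeries ι ℂ →ₗ[ℂ] MvPowerSeries ι ℂ)))

noncomputable def fact {ι : Type} (P : Polynomial (FWeyl ι)) (k : ℕ) :
    Module.End ℂ (MvPowerSeries ι ℂ) :=
  ((P.eval (k : FWeyl ι) : FWeyl ι) : Module.End ℂ (MvPowerSeries ι ℂ))

def IsFBernstein {ι : Type} (F : MvPowerSeries ι ℂ) (b : Polynomial ℂ) : Prop :=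
  ∃ (P : Polynomial (FWeyl ι)) (v : MvPowerSeries ι ℂ), MvPowerSeries.constantCoeff v ≠ 0 ∧
    ∀ᶠ k : ℕ in Filter.atTop,
      fact P k (F ^ (k + 1)) = MvPowerSeries.C (b.eval (k : ℂ)) * (v * F ^ k)

/-- passage to formal coordinates -/
def Stmt_FP : Prop :=
  ∀ (ι : Type) [Fintype ι] [DecidableEq ι] (f : MvPolynomial ι ℂ) (ξ : ι → ℂ)
    (ψ : ι → MvPowerSeries ι ℂ) (b : Polynomial ℂ),
    (∀ i, MvPowerSeries.constantCoeff (ψ i) = 0) →
    (Matrix.of fun i j => MvPowerSeries.coeff (Finsupp.single j 1) (ψ i)).det ≠ 0 →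
      IsEvBernstein f b → IsFBernstein (expand f ξ ψ) b

/-- units in `ℂ[[z]]` -/
def Stmt_FU : Prop :=
  ∀ (ι : Type) [Fintype ι] (F u : MvPowerSeries ι ℂ) (b : Polynomial ℂ),
    MvPowerSeries.constantCoeff u ≠ 0 → IsFBernstein (u * F) b → IsFBernstein F b

/-- weighted homogeneous polynomials -/
def Stmt_FH : Prop :=
  ∀ (ι : Type) [Fintype ι] [DecidableEq ι] (w : ι → ℕ) (d : ℕ) (F : MvPolynomial ι ℂ)
    (b : Polynomial ℂ), (∀ i, 1 ≤ w i) → IsWeightedHomogeneous w F d →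
      IsFBernstein (F : MvPowerSeries ι ℂ) b → IsEvBernstein F b

def Stmt_EL : Prop :=
  ∀ (ι κ : Type) [Fintype ι] [Fintype κ] [DecidableEq ι] [DecidableEq κ]
    (f : MvPolynomial ι ℂ) (S : Set (ι → ℂ)) (D : Data ι κ), S.Nonempty → D.Central →
    (∀ i, 1 ≤ D.a i) → LocalModel f S D.poly → bSet f ⊆ bSet D.poly

/-! ## The class of polynomials with local models, main theorem -/

/-- `f` has, along a finite constructible partition of its zero set, local models which are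
pull-backs of central arrangements under power maps. -/
def LocallyPowerArr {ι : Type} [Fintype ι] [DecidableEq ι] (f : MvPolynomial ι ℂ) : Prop :=
  ∃ (r κ : ℕ) (S : Fin r → Set (ι → ℂ)) (D : Fin r → Data ι (Fin κ)),
    (∀ a, Constructible (S a)) ∧ (∀ a b, a ≠ b → Disjoint (S a) (S b)) ∧
    {ξ | eval ξ f = 0} ⊆ ⋃ a, S a ∧
    ∀ a, (D a).Central ∧ (D a).Valid ∧ LocalModel f (S a) (D a).poly

def Stmt_LMain : Prop :=
  ∀ (ι : Type) [Fintype ι] [DecidableEq ι] (f : MvPolynomial ι ℂ), LocallyPowerArr f →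
    ∀ e : ℕ, 1 ≤ e → ∃ ts : List Term, (∀ t ∈ ts, t.Ok (GoodPair (bSet f))) ∧
      ∀ (R : Type) [CommRing R] (μ : MotivicMeasure R) (Li : R), μ.L * Li = 1 →
        zetaSer μ Li f e = PowerSeries.C (μ.L ^ Fintype.card ι) *
          (ts.map fun t => t.ser μ Li (Set.univ : Set (Empty → ℂ)) 1).sum

/-! ## Examples: arbitrary one-variable polynomials -/

/-- `f = ∏ q_i(x_i) ∏_j (c0_j + ∑_i c_{ji} P_i(x_i))^{m_j}` -/
structure GData (ι κ : Type) where
  P : ι → Polynomial ℂ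
  q : ι → Polynomial ℂ
  c0 : κ → ℂ
  c : κ → ι → ℂ
  m : κ → ℕ

noncomputable def GData.form {ι κ : Type} [Fintype ι] (G : GData ι κ) (j : κ) :
    MvPolynomial ι ℂ :=
  C (G.c0 j) + ∑ i, C (G.c j i) * Polynomial.aeval (X i) (G.P i)

noncomputable def GData.poly {ι κ : Type} [Fintype ι] [Fintype κ] (G : GData ι κ) :
    MvPolynomial ι ℂ :=
  (∏ i, Polynomial.aeval (X i) (G.q i)) * ∏ j, G.form j ^ G.m j

/-- the `P_i` are not constant, the factors are not zero -/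
def GData.Valid {ι κ : Type} (G : GData ι κ) : Prop :=
  (∀ i, 1 ≤ (G.P i).natDegree) ∧ (∀ i, G.q i ≠ 0) ∧
    ∀ j, 0 < G.m j → G.c0 j ≠ 0 ∨ ∃ i, G.c j i ≠ 0

/-- coordinates at a fixed point: `p(z + ψ(y)) = p(z) + y^a` -/
def Stmt_Psi : Prop :=
  ∀ (p : Polynomial ℂ) (z : ℂ), 1 ≤ p.natDegree → ∃ ψ : PowerSeries ℂ,
    PowerSeries.constantCoeff ψ = 0 ∧ PowerSeries.coeff 1 ψ ≠ 0 ∧
      Polynomial.aeval (PowerSeries.C z + ψ) p =
        PowerSeries.C (p.eval z) +
          PowerSeries.X ^ ((p - Polynomial.C (p.eval z)).rootMultiplicity z)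

/-- coordinates at a variable noncritical point: coefficients are polynomials in `z` divided by
powers of `p'(z)` -/
def Stmt_PsiV : Prop :=
  ∀ p : Polynomial ℂ, ∃ N : ℕ → Polynomial ℂ, ∀ z : ℂ, p.derivative.eval z ≠ 0 →
    let ψ : PowerSeries ℂ := PowerSeries.mk fun n =>
      if n = 0 then 0 else (N n).eval z / p.derivative.eval z ^ (2 * n - 1)
    PowerSeries.coeff 1 ψ ≠ 0 ∧
      Polynomial.aeval (PowerSeries.C z + ψ) p = PowerSeries.C (p.eval z) + PowerSeries.X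

/-- the polynomials of the second kind belong to the class -/
def Stmt_GL : Prop :=
  ∀ (ι κ : Type) [Fintype ι] [Fintype κ] [DecidableEq ι] [DecidableEq κ] (G : GData ι κ),
    G.Valid → LocallyPowerArr G.poly

end Pool.Agent.Mono
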