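import Pool.Agent.Work.Monodromy.Interface3
import Pool.Agent.Work.Monodromy_helper48.BP1

/-!
# Phase 4: sums and products in separate variables, powers

`BLUEPRINT4.md` contains the proofs.  Everything is in the namespace `Pool.Agent.Mono.TS`.
Block `X` : file `Pool/Agent/Work/Monodromy4/<X>.lean`, `theorem stmt_X : Stmt_X`.
-/

namespace Pool.Agent.Mono.TS

open MvPolynomial

/-! ## Q : exponential sequences over `ℚ(u)` -/

/-- the field `ℚ(u)` -/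
abbrev K : Type := RatFunc ℚ

/-- `u⁻¹` -/
noncomputable def xq : K := (RatFunc.X)⁻¹

/-- the denominator `∏ (1 - u^{-ν} T^N)` -/
noncomputable def denP (l : List (ℕ × ℕ)) : Polynomial K :=
  (l.map fun q => 1 - Polynomial.C (xq ^ q.2) * Polynomial.X ^ q.1).prod

/-- sequences `κ` such that `∑ κ(m) T^m` is rational with denominator `∏ (1 - u^{-ν} T^N)`, all
exponents `ν/N` in `Λ` -/
def ESeq (Λ : Set ℚ) (κ : ℕ → K) : Prop :=
  ∃ (l : List (ℕ × ℕ)) (num : Polynomial K),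
    (∀ q ∈ l, 1 ≤ q.1 ∧ ((q.2 : ℚ) / (q.1 : ℚ)) ∈ Λ) ∧
      (denP l : PowerSeries K) * PowerSeries.mk κ = (num : PowerSeries K)

/-- `Λ + Λ'` -/
def sumE (Λ Λ' : Set ℚ) : Set ℚ := {r | ∃ a ∈ Λ, ∃ b ∈ Λ', r = a + b}

/-- algebra of exponential sequences -/
def Stmt_Q1 : Prop :=
  (∀ (Λ Λ' : Set ℚ) (κ : ℕ → K), Λ ⊆ Λ' → ESeq Λ κ → ESeq Λ' κ) ∧
  (∀ (Λ : Set ℚ) (κ κ' : ℕ → K), ESeq Λ κ → ESeq Λ κ' → ESeq Λ fun m => κ m + κ' m) ∧
  (∀ (Λ : Set ℚ) (κ : ℕ → K) (c : K), ESeq Λ κ → ESeq Λ fun m => c * κ m) ∧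
  (∀ (Λ : Set ℚ) (κ : ℕ → K) (M : ℕ), (∀ m, M ≤ m → κ m = 0) → ESeq Λ κ) ∧
  (∀ (Λ : Set ℚ) (N ν : ℕ), 1 ≤ N → ((ν : ℚ) / (N : ℚ)) ∈ Λ →
    ESeq Λ fun m => if N ∣ m then xq ^ (ν * (m / N)) else 0) ∧
  (∀ (Λ Λ' : Set ℚ) (κ κ' : ℕ → K), ESeq Λ κ → ESeq Λ' κ' →
    ESeq (Λ ∪ Λ') fun m => ∑ i ∈ Finset.range (m + 1), κ i * κ' (m - i)) ∧
  (∀ (Λ : Set ℚ) (κ : ℕ → K) (k : ℕ), 1 ≤ k → ESeq Λ κ →
    ESeq {r | (k : ℚ) * r ∈ Λ} (fun m => if k ∣ m then κ (m / k) else 0) ∧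
      ESeq {r | (k : ℚ) * r ∈ Λ} fun m => κ (m / k))

/-- Hadamard products -/
def Stmt_Q2 : Prop :=
  ∀ (Λ Λ' : Set ℚ) (κ κ' : ℕ → K), ESeq Λ κ → ESeq Λ' κ' →
    ESeq (sumE Λ Λ') fun m => κ m * κ' m

/-- partial sums -/
def Stmt_Q3 : Prop :=
  (∀ (Λ : Set ℚ) (κ : ℕ → K), Λ ⊆ Set.Ioi 0 → ESeq Λ κ →
    ∃ v : K, ESeq Λ fun m => v - ∑ j ∈ Finset.range (m + 1), κ j) ∧
  ∀ c : K, ESeq (Set.Ioi 0) (fun _ => c) → c = 0

/-- `∑_{j < m} κ(j) u^{j-m}` up to a multiple of `u^{-m}` -/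
def Stmt_Q4 : Prop :=
  ∀ (Λ : Set ℚ) (κ : ℕ → K), Λ ⊆ Set.Ioi 0 → ESeq Λ κ →
    ∃ a : K, ESeq Λ fun m => (∑ j ∈ Finset.range m, κ j * xq ^ (m - j)) - a * xq ^ m

/-- the poles of the limit are the negatives of the exponents -/
def Stmt_Q5 : Prop :=
  ∀ (Λ : Set ℚ) (κ : ℕ → K) (R : K), ESeq Λ κ → IsLim (PowerSeries.mk κ) R →
    ∀ s : ℂ, Polynomial.aeval s R.denom = 0 → ∃ r ∈ Λ, s = -(r : ℂ)

/-! ## V : volumes -/

section

variable {E ι κ : Type}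

/-- `ord f(x) = m` with leading coefficient `q(p)` (`q` will be nonzero on `B`) -/
def ctc (f : MvPolynomial ι ℂ) (B : Set (E → ℂ)) (q : MvPolynomial E ℂ) (m : ℕ) :
    Set ((E → ℂ) × (ι → PowerSeries ℂ)) :=
  {z | z.1 ∈ B ∧ (∀ l < m, PowerSeries.coeff l (aeval z.2 f) = 0) ∧
    PowerSeries.coeff m (aeval z.2 f) = eval z.1 q}

noncomputable def AA (P : HodgeMeasure) [Fintype ι] [Finite E] (f : MvPolynomial ι ℂ)
    (B : Set (E → ℂ)) (q : MvPolynomial E ℂ) (m : ℕ) : K :=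
  vol P.rat xq (ctc f B q m)

/-- volume of `{ord f > m}` -/
noncomputable def bb (P : HodgeMeasure) [Fintype ι] (f : MvPolynomial ι ℂ) (m : ℕ) : K :=
  vol P.rat xq {z : (Empty → ℂ) × (ι → PowerSeries ℂ) |
    ∀ l ≤ m, PowerSeries.coeff l (aeval z.2 f) = 0}

/-- volume of `{ord f = m}` -/
noncomputable def aa (P : HodgeMeasure) [Fintype ι] (f : MvPolynomial ι ℂ) (m : ℕ) : K :=
  vol P.rat xq {z : (Empty → ℂ) × (ι → PowerSeries ℂ) |
    (∀ l < m, PowerSeries.coeff l (aeval z.2 f) = 0) ∧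
      PowerSeries.coeff m (aeval z.2 f) ≠ 0}

/-- arcs `(x, y)` with `ord f(x) ≥ i`, `ord g(y) ≥ j` and
`(p, coeff_i f(x), coeff_j g(y)) ∈ Q` (`Q` lies in the set where both coordinates are nonzero) -/
def dbl (f : MvPolynomial ι ℂ) (g : MvPolynomial κ ℂ) (Q : Set (E ⊕ Bool → ℂ)) (i j : ℕ) :
    Set ((E → ℂ) × (ι ⊕ κ → PowerSeries ℂ)) :=
  {z | (∀ l < i, PowerSeries.coeff l (aeval (fun a => z.2 (Sum.inl a)) f) = 0) ∧
    (∀ l < j, PowerSeries.coeff l (aeval (fun a => z.2 (Sum.inr a)) g) = 0) ∧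
    (Sum.elim z.1 fun b => if b then PowerSeries.coeff i (aeval (fun a => z.2 (Sum.inl a)) f)
      else PowerSeries.coeff j (aeval (fun a => z.2 (Sum.inr a)) g)) ∈ Q}

/-- `{(p, c, c') : p ∈ B, c c' ≠ 0, c + c' = q(p)}` -/
def Qadd (B : Set (E → ℂ)) (q : MvPolynomial E ℂ) : Set (E ⊕ Bool → ℂ) :=
  {z | (fun p => z (Sum.inl p)) ∈ B ∧ z (Sum.inr true) ≠ 0 ∧ z (Sum.inr false) ≠ 0 ∧
    z (Sum.inr true) + z (Sum.inr false) = eval (fun p => z (Sum.inl p)) q}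

/-- `{(p, c, c') : p ∈ B, c c' ≠ 0, c c' = q(p)}` -/
def Qmul (B : Set (E → ℂ)) (q : MvPolynomial E ℂ) : Set (E ⊕ Bool → ℂ) :=
  {z | (fun p => z (Sum.inl p)) ∈ B ∧ z (Sum.inr true) ≠ 0 ∧ z (Sum.inr false) ≠ 0 ∧
    z (Sum.inr true) * z (Sum.inr false) = eval (fun p => z (Sum.inl p)) q}

/-- `{(p, c) : p ∈ B, c ≠ 0, c^k = q(p)}` -/
def Qpow (k : ℕ) (B : Set (E → ℂ)) (q : MvPolynomial E ℂ) : Set (E ⊕ Unit → ℂ) :=
  {z | (fun p => z (Sum.inl p)) ∈ B ∧ z (Sum.inr ()) ≠ 0 ∧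
    z (Sum.inr ()) ^ k = eval (fun p => z (Sum.inl p)) q}

/-- `f(x) + g(y)` -/
noncomputable def oplus (f : MvPolynomial ι ℂ) (g : MvPolynomial κ ℂ) : MvPolynomial (ι ⊕ κ) ℂ :=
  rename Sum.inl f + rename Sum.inr g

/-- `f(x) g(y)` -/
noncomputable def otimes (f : MvPolynomial ι ℂ) (g : MvPolynomial κ ℂ) : MvPolynomial (ι ⊕ κ) ℂ :=
  rename Sum.inl f * rename Sum.inr g

/-- weighted homogeneous of positive degree with positive weights -/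
def WH (f : MvPolynomial ι ℂ) : Prop :=
  ∃ (w : ι → ℕ) (d : ℕ), (∀ i, 1 ≤ w i) ∧ 1 ≤ d ∧ IsWeightedHomogeneous w f d

/-- a family `u : S → ℂ^*` with a sequence of coefficients -/
structure Fam where
  σ : Type
  fin : Finite σ
  S : Set (σ → ℂ)
  u : MvPolynomial σ ℂ
  κ : ℕ → K

/-- `κ(m)` times the class of `{(p, τ) : p ∈ B, τ ∈ S, q(p) = u(τ)}` -/
noncomputable def Fam.val (t : Fam) (P : HodgeMeasure) [Finite E] (B : Set (E → ℂ))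
    (q : MvPolynomial E ℂ) (m : ℕ) : K :=
  haveI := t.fin
  t.κ m * P.rat.val {v : E ⊕ t.σ → ℂ | (fun p => v (Sum.inl p)) ∈ B ∧
    (fun s => v (Sum.inr s)) ∈ t.S ∧
      eval (fun p => v (Sum.inl p)) q = eval (fun s => v (Sum.inr s)) t.u}

/-- the class of `{(p, τ, τ') : τ ∈ S, τ' ∈ S', (p, u(τ), u'(τ')) ∈ Q}` -/
noncomputable def Fam.val2 (t t' : Fam) (P : HodgeMeasure) [Finite E] (Q : Set (E ⊕ Bool → ℂ)) :
    K :=
  haveI := t.fin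
  haveI := t'.fin
  P.rat.val {v : E ⊕ (t.σ ⊕ t'.σ) → ℂ |
    (fun s => v (Sum.inr (Sum.inl s))) ∈ t.S ∧ (fun s => v (Sum.inr (Sum.inr s))) ∈ t'.S ∧
      (Sum.elim (fun p => v (Sum.inl p)) fun b => if b then
        eval (fun s => v (Sum.inr (Sum.inl s))) t.u else
        eval (fun s => v (Sum.inr (Sum.inr s))) t'.u) ∈ Q}

def Fam.Good (t : Fam) : Prop := Constructible t.S ∧ ∀ τ ∈ t.S, eval τ t.u ≠ 0

/-- the contact sets of `f` are given by the families `ts` -/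
def HasFam (P : HodgeMeasure) [Fintype ι] (f : MvPolynomial ι ℂ) (ts : List Fam) : Prop :=
  (∀ t ∈ ts, t.Good) ∧
  ∀ (E : Type) [Finite E] (B : Set (E → ℂ)) (q : MvPolynomial E ℂ), Constructible B →
    (∀ p ∈ B, eval p q ≠ 0) → ∀ m, AA P f B q m = (ts.map fun t => t.val P B q m).sum

/-- the Haar part: `α u^{-m}`, independent of the leading coefficient -/
noncomputable def haar (α : K) : Fam where
  σ := Unit
  fin := inferInstance
  S := {τ | τ () ≠ 0}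
  u := X ()
  κ := fun m => α * xq ^ m

/-- Haar part plus families with exponents in `Λ` -/
def Expr2 (P : HodgeMeasure) [Fintype ι] (f : MvPolynomial ι ℂ) (Λ : Set ℚ) : Prop :=
  ∃ (α : K) (ts : List Fam), (∀ t ∈ ts, ESeq Λ t.κ) ∧ HasFam P f (haar α :: ts)

/-- the arcs with `f = 0` have volume zero -/
def Mass (P : HodgeMeasure) [Fintype ι] (f : MvPolynomial ι ℂ) : Prop :=
  ESeq (Set.Ioi 0) (bb P f)

end

/-- pairs of arcs, by families of both polynomials -/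
def Stmt_VF : Prop :=
  ∀ (P : HodgeMeasure) (ι κ : Type) [Fintype ι] [Fintype κ] (f : MvPolynomial ι ℂ)
    (g : MvPolynomial κ ℂ) (ts ts' : List Fam), HasFam P f ts → HasFam P g ts' →
    ∀ (E : Type) [Finite E] (Q : Set (E ⊕ Bool → ℂ)), Constructible Q →
      (∀ z ∈ Q, z (Sum.inr true) ≠ 0 ∧ z (Sum.inr false) ≠ 0) → ∀ i j : ℕ,
        vol P.rat xq (dbl f g Q i j) = (ts.map fun t => (ts'.map fun t' =>
          t.κ i * t'.κ j * t.val2 t' P Q).sum).sum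

/-- the volume sequences of `f(x) + g(y)` -/
def Stmt_VS : Prop :=
  ∀ (P : HodgeMeasure) (ι κ : Type) [Fintype ι] [Fintype κ] (f : MvPolynomial ι ℂ)
    (g : MvPolynomial κ ℂ), WH f →
    (∀ (E : Type) [Finite E] (B : Set (E → ℂ)) (q : MvPolynomial E ℂ), Constructible B →
      (∀ p ∈ B, eval p q ≠ 0) → ∀ m : ℕ, AA P (oplus f g) B q m =
        AA P f B q m * bb P g m + bb P f m * AA P g B q m +
          vol P.rat xq (dbl f g (Qadd B q) m m) +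
          P.rat.val B * ∑ j ∈ Finset.range m, xq ^ (m - j) *
            vol P.rat xq (dbl f g (Qadd (Set.univ : Set (Empty → ℂ)) 0) j j)) ∧
    ∀ m : ℕ, bb P (oplus f g) m = bb P f m * bb P g m +
      ∑ j ∈ Finset.range (m + 1), xq ^ (m - j) *
        vol P.rat xq (dbl f g (Qadd (Set.univ : Set (Empty → ℂ)) 0) j j)

/-- the volume sequences of `f(x) g(y)` -/
def Stmt_VP : Prop :=
  ∀ (P : HodgeMeasure) (ι κ : Type) [Fintype ι] [Fintype κ] (f : MvPolynomial ι ℂ)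
    (g : MvPolynomial κ ℂ),
    (∀ (E : Type) [Finite E] (B : Set (E → ℂ)) (q : MvPolynomial E ℂ), Constructible B →
      (∀ p ∈ B, eval p q ≠ 0) → ∀ m : ℕ, AA P (otimes f g) B q m =
        ∑ i ∈ Finset.range (m + 1), vol P.rat xq (dbl f g (Qmul B q) i (m - i))) ∧
    ∀ m : ℕ, bb P (otimes f g) m = bb P f m +
      ∑ i ∈ Finset.range (m + 1), aa P f i * bb P g (m - i)

/-- the volume sequences of `f^k` -/
def Stmt_VK : Prop :=
  ∀ (P : HodgeMeasure) (ι : Type) [Fintype ι] (f : MvPolynomial ι ℂ) (k : ℕ), 1 ≤ k →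
    (∀ (E : Type) [Finite E] (B : Set (E → ℂ)) (q : MvPolynomial E ℂ), Constructible B →
      (∀ p ∈ B, eval p q ≠ 0) → ∀ m : ℕ, AA P (f ^ k) B q m =
        if k ∣ m then AA P f (Qpow k B q) (X (Sum.inr ())) (m / k) else 0) ∧
    ∀ m : ℕ, bb P (f ^ k) m = bb P f (m / k)

/-- `ord f = m` or `ord f > m`, and `ord f = m` in terms of `AA` -/
def Stmt_VA : Prop :=
  ∀ (P : HodgeMeasure) (ι : Type) [Fintype ι] (f : MvPolynomial ι ℂ),
    (∀ m : ℕ, bb P f m = 1 - ∑ j ∈ Finset.range (m + 1), aa P f j) ∧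
    (∀ m : ℕ, aa P f m = AA P f {τ : Unit → ℂ | τ () ≠ 0} (X ()) m) ∧
    ∀ e : ℕ, zetaSer P.rat xq f e = PowerSeries.mk fun m =>
      (P.rat.L ^ Fintype.card ι) * AA P f {z : Bool → ℂ | z false ≠ 0 ∧ z true ^ e = z false}
        (X false) m

/-! ## T : closure properties of `Expr2` and `Mass` -/

def Stmt_TS : Prop :=
  ∀ (P : HodgeMeasure) (ι κ : Type) [Fintype ι] [Fintype κ] (f : MvPolynomial ι ℂ)
    (g : MvPolynomial κ ℂ) (Λ Λ' : Set ℚ), WH f → Λ ⊆ Set.Ioi 0 → Λ' ⊆ Set.Ioi 0 →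
    Expr2 P f Λ → Mass P f → Expr2 P g Λ' → Mass P g →
      Expr2 P (oplus f g) (sumE Λ Λ') ∧ Mass P (oplus f g)

def Stmt_TP : Prop :=
  ∀ (P : HodgeMeasure) (ι κ : Type) [Fintype ι] [Fintype κ] (f : MvPolynomial ι ℂ)
    (g : MvPolynomial κ ℂ) (Λ Λ' : Set ℚ), Λ ⊆ Set.Ioi 0 → Λ' ⊆ Set.Ioi 0 →
    Expr2 P f Λ → Mass P f → Expr2 P g Λ' → Mass P g →
      Expr2 P (otimes f g) (Λ ∪ Λ' ∪ {1}) ∧ Mass P (otimes f g)

def Stmt_TK : Prop :=
  ∀ (P : HodgeMeasure) (ι : Type) [Fintype ι] (f : MvPolynomial ι ℂ) (Λ : Set ℚ) (k : ℕ),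
    1 ≤ k → Expr2 P f Λ → Mass P f →
      Expr2 P (f ^ k) ({r | (k : ℚ) * r ∈ Λ} ∪ {1 / (k : ℚ)}) ∧ Mass P (f ^ k)

/-- one variable, constant factors, additional variables, change of the index type -/
def Stmt_T0 : Prop :=
  ∀ (P : HodgeMeasure),
    (Expr2 P (X () : MvPolynomial Unit ℂ) ∅ ∧ Mass P (X () : MvPolynomial Unit ℂ)) ∧
    (∀ (ι : Type) [Fintype ι] (f : MvPolynomial ι ℂ) (Λ : Set ℚ) (c : ℂ), c ≠ 0 →
      Expr2 P f Λ → Mass P f → Expr2 P (C c * f) Λ ∧ Mass P (C c * f)) ∧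
    ∀ (ι κ : Type) [Fintype ι] [Fintype κ] (f : MvPolynomial ι ℂ) (Λ : Set ℚ) (φ : ι → κ),
      Function.Injective φ → Expr2 P f Λ → Mass P f →
        Expr2 P (rename φ f) Λ ∧ Mass P (rename φ f)

/-- central arrangements pulled back under power maps -/
def Stmt_TD : Prop :=
  ∀ (P : HodgeMeasure) (ι κ : Type) [Fintype ι] [Fintype κ] [DecidableEq ι] [DecidableEq κ]
    (D : Data ι κ), D.Central → D.Valid → (∃ i, D.Rel i) →
      Expr2 P D.poly {r | ∃ q ∈ GoodPair (bSet D.poly), r = (q.2 : ℚ) / (q.1 : ℚ)}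

/-- mass identity for them -/
def Stmt_TM : Prop :=
  ∀ (P : HodgeMeasure) (ι κ : Type) [Fintype ι] [Fintype κ] [DecidableEq ι] [DecidableEq κ]
    (D : Data ι κ), D.Central → D.Valid → (∃ i, D.Rel i) → Mass P D.poly

/-! ## W : witnesses for eigenvalues -/

/-- a module over the Weyl algebra with vectors `v_i` which behave like
`f^{β-i}/Γ(β-i+1)`, `v_0 ≠ 0`, and `v_0` is killed by `f` and its derivatives -/
def Wit {ι : Type} [DecidableEq ι] (f : MvPolynomial ι ℂ) (β : ℂ) : Prop :=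
  ∃ (V : Type) (_ : AddCommGroup V) (_ : Module ℂ V) (w : BP.WMod ℂ V ι) (v : ℕ → V),
    v 0 ≠ 0 ∧ w.pX f (v 0) = 0 ∧ (∀ a, w.pX (pderiv a f) (v 0) = 0) ∧
    (∀ i a, w.D' a (v i) = w.pX (pderiv a f) (v (i + 1))) ∧
    ∀ i : ℕ, w.pX f (v (i + 1)) = (β - i) • v i

/-- the negative of the exponent `r` is, up to an integer, the negative parameter of a witness -/
def WitClass {ι : Type} [DecidableEq ι] (f : MvPolynomial ι ℂ) (r : ℚ) : Prop :=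
  ∃ (β : ℚ) (k : ℤ), β < 0 ∧ β = -r + k ∧ Wit f (β : ℂ)

/-- non-integral roots of the Bernstein polynomial -/
def Stmt_W2 : Prop :=
  ∀ (ι : Type) [Fintype ι] [DecidableEq ι] (f : MvPolynomial ι ℂ) (r : ℚ) (j : ℕ), f ≠ 0 →
    0 < r → (∀ k : ℤ, r ≠ k) → (∀ b ∈ bSet f, b.eval (-(r : ℂ) - j) = 0) → WitClass f r

/-- two coprime factors with a common zero -/
def Stmt_W3 : Prop :=
  ∀ (ι : Type) [Fintype ι] [DecidableEq ι] (g h : MvPolynomial ι ℂ) (p : ι → ℂ), g ≠ 0 → h ≠ 0 →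
    IsRelPrime g h → eval p g = 0 → eval p h = 0 → Wit (g * h) (-1)

/-- sums in separate variables -/
def Stmt_W4 : Prop :=
  ∀ (ι κ : Type) [Fintype ι] [Fintype κ] [DecidableEq ι] [DecidableEq κ] (f : MvPolynomial ι ℂ)
    (g : MvPolynomial κ ℂ) (β β' : ℂ), Wit f β → Wit g β' → Wit (oplus f g) (β + β')

/-- products in separate variables -/
def Stmt_W6 : Prop :=
  ∀ (ι κ : Type) [Fintype ι] [Fintype κ] [DecidableEq ι] [DecidableEq κ] (f : MvPolynomial ι ℂ)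
    (g : MvPolynomial κ ℂ) (β : ℂ), g ≠ 0 → Wit f β →
      Wit (otimes f g) β ∧ Wit (otimes g f) β

/-- powers, constant factors, change of the index type -/
def Stmt_W7 : Prop :=
  (∀ (ι : Type) [Fintype ι] [DecidableEq ι] (f : MvPolynomial ι ℂ) (k : ℕ), 2 ≤ k →
    f.totalDegree ≠ 0 → Wit (f ^ k) (-1 / (k : ℂ))) ∧
  (∀ (ι : Type) [Fintype ι] [DecidableEq ι] (f : MvPolynomial ι ℂ) (k m : ℕ) (β : ℂ), m < k →
    (∀ n : ℕ, β ≠ n) → Wit f β → Wit (f ^ k) ((β - m) / (k : ℂ))) ∧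
  (∀ (ι : Type) [Fintype ι] [DecidableEq ι] (f : MvPolynomial ι ℂ) (c β : ℂ), c ≠ 0 →
    Wit f β → Wit (C c * f) β) ∧
  ∀ (ι κ : Type) [Fintype ι] [Fintype κ] [DecidableEq ι] [DecidableEq κ] (f : MvPolynomial ι ℂ)
    (φ : ι ≃ κ) (β : ℂ), Wit f β → Wit (rename φ f) β

/-- a witness gives a root of the Bernstein polynomial -/
def Stmt_W5 : Prop :=
  ∀ (ι : Type) [Fintype ι] [DecidableEq ι] (f : MvPolynomial ι ℂ) (β : ℂ), (∀ n : ℕ, β ≠ n) →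
    Wit f β → ∀ b ∈ bSet f, b.eval β = 0

/-! ## The class and the main theorem -/

/-- everything we need about `f` -/
def Adm (ι : Type) [Fintype ι] [DecidableEq ι] (f : MvPolynomial ι ℂ) : Prop :=
  f.totalDegree ≠ 0 ∧ WH f ∧ ∀ P : HodgeMeasure, Mass P f ∧
    ∃ Λ : Set ℚ, Λ ⊆ Set.Ioi 0 ∧ (∀ r ∈ Λ, WitClass f r) ∧ Expr2 P f Λ

/-- closure properties of the class -/
def Stmt_Adm : Prop :=
  Adm Unit (X ()) ∧
  (∀ (ι : Type) [Fintype ι] [DecidableEq ι] (f : MvPolynomial ι ℂ) (c : ℂ), c ≠ 0 → Adm ι f →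
    Adm ι (C c * f)) ∧
  (∀ (ι : Type) [Fintype ι] [DecidableEq ι] (f : MvPolynomial ι ℂ) (k : ℕ), 1 ≤ k → Adm ι f →
    Adm ι (f ^ k)) ∧
  (∀ (ι κ : Type) [Fintype ι] [Fintype κ] [DecidableEq ι] [DecidableEq κ] (f : MvPolynomial ι ℂ)
    (g : MvPolynomial κ ℂ), Adm ι f → Adm κ g →
      Adm (ι ⊕ κ) (oplus f g) ∧ Adm (ι ⊕ κ) (otimes f g)) ∧
  (∀ (ι κ : Type) [Fintype ι] [Fintype κ] [DecidableEq ι] [DecidableEq κ] (f : MvPolynomial ι ℂ)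
    (φ : ι → κ), Function.Injective φ → Adm ι f → Adm κ (rename φ f)) ∧
  ∀ (ι κ : Type) [Fintype ι] [Fintype κ] [DecidableEq ι] [DecidableEq κ] (D : Data ι κ)
    (g h : MvPolynomial ι ℂ), D.Central → D.Valid → D.poly = g * h → IsRelPrime g h →
      eval (fun _ => 0) g = 0 → eval (fun _ => 0) h = 0 → Adm ι D.poly

/-- the monodromy conjecture for the class, all covers -/
def Stmt_TMain : Prop :=
  ∀ (ι : Type) [Fintype ι] [DecidableEq ι] (f : MvPolynomial ι ℂ), Adm ι f →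
    ∀ (P : HodgeMeasure) (e : ℕ) (R : RatFunc ℚ), 1 ≤ e → IsTopZeta P f e R → ∀ s : ℂ,
      Polynomial.aeval s R.denom = 0 → IsEigenvalue f (Complex.exp (2 * Real.pi * Complex.I * s))

end Pool.Agent.Mono.TS
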