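import Pool.Agent.Work.Monodromy.Interface4

/-!
# Phase 5: nonhomogeneous formulas (sums and products in separate variables, `p(f(x))`)

`Monodromy5/BLUEPRINT5.md` contains the proofs.  Everything is in the namespace
`Pool.Agent.Mono.RO`.
Block `X` : file `Pool/Agent/Work/Monodromy5/<X>.lean`, `theorem stmt_X : Stmt_X`.
-/

namespace Pool.Agent.Mono.RO

open MvPolynomial TS

/-! ## Distribution of `f(x)`, `x` an arc -/

/-- `w = true` (exact): the coefficients `1, …, i-1` vanish.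
`w = false` (tail): the coefficients `1, …, i` vanish. -/
def cut (w : Bool) (i : ℕ) (s : PowerSeries ℂ) : Prop :=
  ∀ l, 1 ≤ l → l < (if w then i else i + 1) → PowerSeries.coeff l s = 0

/-- exact: the coefficient `i`; tail: `0` -/
noncomputable def ldc (w : Bool) (i : ℕ) (s : PowerSeries ℂ) : ℂ :=
  if w then PowerSeries.coeff i s else 0

/-- constant term (`true`) and `ldc` (`false`) -/
noncomputable def dat (w : Bool) (i : ℕ) (s : PowerSeries ℂ) : Bool → ℂ :=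
  fun b => if b then PowerSeries.coeff 0 s else ldc w i s

section

variable {E ι κ : Type}

/-- `cut w i f(x)` and `(p, f(x)_0, ldc) ∈ Q` -/
def SD (f : MvPolynomial ι ℂ) (w : Bool) (Q : Set (E ⊕ Bool → ℂ)) (i : ℕ) :
    Set ((E → ℂ) × (ι → PowerSeries ℂ)) :=
  {z | cut w i (aeval z.2 f) ∧ Sum.elim z.1 (dat w i (aeval z.2 f)) ∈ Q}

/-- `SD f true Q i`, and the coefficients `i+1, …, i+e` of `f(x)` are prescribed -/
def PD (f : MvPolynomial ι ℂ) (Q : Set (E ⊕ Bool → ℂ)) (i e : ℕ)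
    (A : ℕ → MvPolynomial (E ⊕ Bool) ℂ) : Set ((E → ℂ) × (ι → PowerSeries ℂ)) :=
  {z | z ∈ SD f true Q i ∧ ∀ l < e, PowerSeries.coeff (i + 1 + l) (aeval z.2 f) =
    eval (Sum.elim z.1 (dat true i (aeval z.2 f))) (A l)}

/-- the admissible parameter sets: values in `X`, and leading coefficient nonzero if exact -/
def QOk (X : Set ℂ) (w : Bool) (Q : Set (E ⊕ Bool → ℂ)) : Prop :=
  Constructible Q ∧ ∀ z ∈ Q, z (Sum.inr true) ∈ X ∧ (w = true → z (Sum.inr false) ≠ 0)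

/-- a family `(v, u) : S → ℂ × ℂ` with a sequence of coefficients -/
structure Fam2 where
  σ : Type
  fin : Finite σ
  S : Set (σ → ℂ)
  v : MvPolynomial σ ℂ
  u : MvPolynomial σ ℂ
  κ : ℕ → K

/-- the values `(v(τ), u(τ))` -/
noncomputable def Fam2.pt (G : Fam2) (τ : G.σ → ℂ) : Bool → ℂ :=
  fun b => if b then eval τ G.v else eval τ G.u

/-- the class of `{(p, τ) : τ ∈ S, (p, v(τ), u(τ)) ∈ Q}` -/
noncomputable def Fam2.cl (G : Fam2) (P : HodgeMeasure) [Finite E] (Q : Set (E ⊕ Bool → ℂ)) : K :=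
  haveI := G.fin
  P.rat.val {z : E ⊕ G.σ → ℂ | (fun s => z (Sum.inr s)) ∈ G.S ∧
    Sum.elim (fun p => z (Sum.inl p)) (G.pt fun s => z (Sum.inr s)) ∈ Q}

/-- the volume of `{(p, τ, y) : τ ∈ S, (p, v(τ), u(τ), y) ∈ C}` -/
noncomputable def Fam2.volR (G : Fam2) (P : HodgeMeasure) [Finite E] [Fintype κ]
    (C : Set ((E ⊕ Bool → ℂ) × (κ → PowerSeries ℂ))) : K :=
  haveI := G.fin
  vol P.rat xq {z : (E ⊕ G.σ → ℂ) × (κ → PowerSeries ℂ) |
    (fun s => z.1 (Sum.inr s)) ∈ G.S ∧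
      ((Sum.elim (fun p => z.1 (Sum.inl p)) (G.pt fun s => z.1 (Sum.inr s))), z.2) ∈ C}

def Fam2.Ok (G : Fam2) (X : Set ℂ) (w : Bool) : Prop :=
  Constructible G.S ∧ ∀ τ ∈ G.S, eval τ G.v ∈ X ∧ (w = true → eval τ G.u ≠ 0)

/-- the distribution of `f` over the values in `X` is given by the families `Gs` -/
def HasD (P : HodgeMeasure) [Fintype ι] (f : MvPolynomial ι ℂ) (X : Set ℂ) (w : Bool)
    (Gs : List Fam2) : Prop :=
  (∀ G ∈ Gs, G.Ok X w) ∧
  ∀ (E : Type) [Finite E] (Q : Set (E ⊕ Bool → ℂ)), QOk X w Q → ∀ i : ℕ, (w = true → 1 ≤ i) →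
    vol P.rat xq (SD f w Q i) = (Gs.map fun G => G.κ i * G.cl P Q).sum

/-- prescribing `e` further coefficients of `f(x)` multiplies the volume by `u^{-e}` -/
def Unif (P : HodgeMeasure) [Fintype ι] (f : MvPolynomial ι ℂ) (X : Set ℂ) : Prop :=
  ∀ (E : Type) [Finite E] (Q : Set (E ⊕ Bool → ℂ)), QOk X true Q → ∀ i e : ℕ, 1 ≤ i →
    ∀ A : ℕ → MvPolynomial (E ⊕ Bool) ℂ,
      vol P.rat xq (PD f Q i e A) = xq ^ e * vol P.rat xq (SD f true Q i)

end

/-- a Haar part: points `z ∈ H` with value `v(z)`, coefficient `lam u^{-i}` -/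
structure HT where
  σ : Type
  fin : Finite σ
  H : Set (σ → ℂ)
  v : MvPolynomial σ ℂ
  lam : K

noncomputable def HT.ex (h : HT) : Fam2 where
  σ := h.σ ⊕ Unit
  fin := haveI := h.fin; inferInstance
  S := {z | (fun s => z (Sum.inl s)) ∈ h.H ∧ z (Sum.inr ()) ≠ 0}
  v := rename Sum.inl h.v
  u := X (Sum.inr ())
  κ := fun i => h.lam * xq ^ i

noncomputable def HT.tl (h : HT) : Fam2 where
  σ := h.σ
  fin := h.fin
  S := h.H
  v := h.v
  u := 0
  κ := fun i => h.lam * xq ^ i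

/-- the family `t` at the value `c` -/
noncomputable def atv (t : Fam) (c : ℂ) : Fam2 where
  σ := t.σ
  fin := t.fin
  S := t.S
  v := C c
  u := t.u
  κ := t.κ

/-- a point at the value `c` -/
noncomputable def ptv (c : ℂ) (b : ℕ → K) : Fam2 where
  σ := Empty
  fin := inferInstance
  S := Set.univ
  v := C c
  u := 0
  κ := b

noncomputable def exF (hs : List HT) (crit : Finset ℂ) (ts : ℂ → List Fam) : List Fam2 :=
  hs.map HT.ex ++ crit.toList.flatMap fun c => (ts c).map fun t => atv t c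

noncomputable def tlF (hs : List HT) (crit : Finset ℂ) (b : ℂ → ℕ → K) : List Fam2 :=
  hs.map HT.tl ++ crit.toList.map fun c => ptv c (b c)

/-- the data `hs, crit, ts, b` describe `f` over the values in `X`, exponents at `c` in `Λ c` -/
def IsReg (P : HodgeMeasure) {ι : Type} [Fintype ι] (f : MvPolynomial ι ℂ) (X : Set ℂ)
    (Λ : ℂ → Set ℚ) (hs : List HT) (crit : Finset ℂ) (ts : ℂ → List Fam) (b : ℂ → ℕ → K) :
    Prop :=
  (∀ c ∈ crit, (∀ t ∈ ts c, ESeq (Λ c) t.κ) ∧ ESeq (Λ c) (b c)) ∧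
    HasD P f X true (exF hs crit ts) ∧ HasD P f X false (tlF hs crit b) ∧ Unif P f X

def Reg (P : HodgeMeasure) {ι : Type} [Fintype ι] (f : MvPolynomial ι ℂ) (X : Set ℂ)
    (Λ : ℂ → Set ℚ) : Prop :=
  ∃ (hs : List HT) (crit : Finset ℂ) (ts : ℂ → List Fam) (b : ℂ → ℕ → K),
    IsReg P f X Λ hs crit ts b

/-! ## R : relative versions -/

section

variable {E ι κ : Type}

/-- `HasD` with a cylinder in further arcs `y` as parameter set -/
def Stmt_R5 : Prop :=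
  ∀ (P : HodgeMeasure) (ι : Type) [Fintype ι] (f : MvPolynomial ι ℂ) (X : Set ℂ) (w : Bool)
    (Gs : List Fam2), HasD P f X w Gs →
    ∀ (E κ : Type) [Finite E] [Fintype κ] (C : Set ((E ⊕ Bool → ℂ) × (κ → PowerSeries ℂ)))
      (n : ℕ), IsCyl (fun _ => n) C →
      (∀ z ∈ C, z.1 (Sum.inr true) ∈ X ∧ (w = true → z.1 (Sum.inr false) ≠ 0)) →
      ∀ i : ℕ, (w = true → 1 ≤ i) →
        vol P.rat xq {z : (E → ℂ) × (ι ⊕ κ → PowerSeries ℂ) |
          cut w i (aeval (fun a => z.2 (Sum.inl a)) f) ∧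
          ((Sum.elim z.1 (dat w i (aeval (fun a => z.2 (Sum.inl a)) f))),
            fun a => z.2 (Sum.inr a)) ∈ C} =
        (Gs.map fun G => G.κ i * G.volR P C).sum

/-- `Unif` with a cylinder in further arcs `y` as parameter set; the prescribed coefficients are
polynomials in the parameters, the coefficients of `y` and the preceding coefficients of `f(x)` -/
def Stmt_U5 : Prop :=
  ∀ (P : HodgeMeasure) (ι : Type) [Fintype ι] (f : MvPolynomial ι ℂ) (X : Set ℂ), Unif P f X →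
    ∀ (E κ : Type) [Finite E] [Fintype κ] (C : Set ((E ⊕ Bool → ℂ) × (κ → PowerSeries ℂ)))
      (n : ℕ), IsCyl (fun _ => n) C →
      (∀ z ∈ C, z.1 (Sum.inr true) ∈ X ∧ z.1 (Sum.inr false) ≠ 0) →
      ∀ (i e : ℕ), 1 ≤ i → ∀ A : ℕ → MvPolynomial ((E ⊕ Bool) ⊕ ((κ × ℕ) ⊕ ℕ)) ℂ,
        vol P.rat xq {z : (E → ℂ) × (ι ⊕ κ → PowerSeries ℂ) |
          cut true i (aeval (fun a => z.2 (Sum.inl a)) f) ∧
          ((Sum.elim z.1 (dat true i (aeval (fun a => z.2 (Sum.inl a)) f))),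
            fun a => z.2 (Sum.inr a)) ∈ C ∧
          ∀ l < e, PowerSeries.coeff (i + 1 + l) (aeval (fun a => z.2 (Sum.inl a)) f) =
            eval (Sum.elim (Sum.elim z.1 (dat true i (aeval (fun a => z.2 (Sum.inl a)) f)))
              (Sum.elim (fun s => PowerSeries.coeff s.2 (z.2 (Sum.inr s.1)))
                fun s => if s < l then
                  PowerSeries.coeff (i + 1 + s) (aeval (fun a => z.2 (Sum.inl a)) f) else 0))
              (A l)} =
        xq ^ e * vol P.rat xq {z : (E → ℂ) × (ι ⊕ κ → PowerSeries ℂ) |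
          cut true i (aeval (fun a => z.2 (Sum.inl a)) f) ∧
          ((Sum.elim z.1 (dat true i (aeval (fun a => z.2 (Sum.inl a)) f))),
            fun a => z.2 (Sum.inr a)) ∈ C}

/-- pairs of arcs: `0, 1` = value and leading coefficient of `f(x)`, `2, 3` = the same for `g(y)` -/
def DD (f : MvPolynomial ι ℂ) (g : MvPolynomial κ ℂ) (w w' : Bool) (Q : Set (E ⊕ Fin 4 → ℂ))
    (i j : ℕ) : Set ((E → ℂ) × (ι ⊕ κ → PowerSeries ℂ)) :=
  {z | cut w i (aeval (fun a => z.2 (Sum.inl a)) f) ∧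
    cut w' j (aeval (fun a => z.2 (Sum.inr a)) g) ∧
    Sum.elim z.1 ![PowerSeries.coeff 0 (aeval (fun a => z.2 (Sum.inl a)) f),
      ldc w i (aeval (fun a => z.2 (Sum.inl a)) f),
      PowerSeries.coeff 0 (aeval (fun a => z.2 (Sum.inr a)) g),
      ldc w' j (aeval (fun a => z.2 (Sum.inr a)) g)] ∈ Q}

/-- the class of `{(p, τ, τ') : τ ∈ S, τ' ∈ S', (p, v(τ), u(τ), v'(τ'), u'(τ')) ∈ Q}` -/
noncomputable def Fam2.cl2 (G G' : Fam2) (P : HodgeMeasure) [Finite E]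
    (Q : Set (E ⊕ Fin 4 → ℂ)) : K :=
  haveI := G.fin
  haveI := G'.fin
  P.rat.val {z : E ⊕ (G.σ ⊕ G'.σ) → ℂ |
    (fun s => z (Sum.inr (Sum.inl s))) ∈ G.S ∧ (fun s => z (Sum.inr (Sum.inr s))) ∈ G'.S ∧
    Sum.elim (fun p => z (Sum.inl p))
      ![eval (fun s => z (Sum.inr (Sum.inl s))) G.v, eval (fun s => z (Sum.inr (Sum.inl s))) G.u,
        eval (fun s => z (Sum.inr (Sum.inr s))) G'.v,
        eval (fun s => z (Sum.inr (Sum.inr s))) G'.u] ∈ Q}

end

def Stmt_P5 : Prop :=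
  ∀ (P : HodgeMeasure) (ι κ : Type) [Fintype ι] [Fintype κ] (f : MvPolynomial ι ℂ)
    (g : MvPolynomial κ ℂ) (w w' : Bool) (Gs Gs' : List Fam2), HasD P f Set.univ w Gs →
    HasD P g Set.univ w' Gs' → ∀ (E : Type) [Finite E] (Q : Set (E ⊕ Fin 4 → ℂ)),
      Constructible Q → (∀ z ∈ Q, (w = true → z (Sum.inr 1) ≠ 0) ∧
        (w' = true → z (Sum.inr 3) ≠ 0)) →
      ∀ i j : ℕ, (w = true → 1 ≤ i) → (w' = true → 1 ≤ j) →
        vol P.rat xq (DD f g w w' Q i j) =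
          (Gs.map fun G => (Gs'.map fun G' => G.κ i * G'.κ j * G.cl2 G' P Q).sum).sum

/-! ## V : sums (`s = true`) and products (`s = false`) -/

section

variable {E ι κ : Type}

noncomputable def gp (s : Bool) (f : MvPolynomial ι ℂ) (g : MvPolynomial κ ℂ) :
    MvPolynomial (ι ⊕ κ) ℂ := if s then oplus f g else otimes f g

/-- the value; `al` and `be` are its partial derivatives -/
def gv (s : Bool) (c c' : ℂ) : ℂ := if s then c + c' else c * c'

def al (s : Bool) (_ c' : ℂ) : ℂ := if s then 1 else c'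

def be (s : Bool) (c _ : ℂ) : ℂ := if s then 1 else c

/-- all values for sums, nonzero values for products -/
def Xs (s : Bool) : Set ℂ := {c | s = true ∨ c ≠ 0}

/-- exact and tail -/
def Q1 (s : Bool) (Q : Set (E ⊕ Bool → ℂ)) : Set (E ⊕ Fin 4 → ℂ) :=
  {z | z (Sum.inr 1) ≠ 0 ∧ Sum.elim (fun p => z (Sum.inl p)) (fun b : Bool => if b then
    gv s (z (Sum.inr 0)) (z (Sum.inr 2)) else
      al s (z (Sum.inr 0)) (z (Sum.inr 2)) * z (Sum.inr 1)) ∈ Q}

/-- tail and exact -/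
def Q2 (s : Bool) (Q : Set (E ⊕ Bool → ℂ)) : Set (E ⊕ Fin 4 → ℂ) :=
  {z | z (Sum.inr 3) ≠ 0 ∧ Sum.elim (fun p => z (Sum.inl p)) (fun b : Bool => if b then
    gv s (z (Sum.inr 0)) (z (Sum.inr 2)) else
      be s (z (Sum.inr 0)) (z (Sum.inr 2)) * z (Sum.inr 3)) ∈ Q}

/-- exact and exact, no cancellation -/
def Q3 (s : Bool) (Q : Set (E ⊕ Bool → ℂ)) : Set (E ⊕ Fin 4 → ℂ) :=
  {z | z (Sum.inr 1) ≠ 0 ∧ z (Sum.inr 3) ≠ 0 ∧
    Sum.elim (fun p => z (Sum.inl p)) (fun b : Bool => if b then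
      gv s (z (Sum.inr 0)) (z (Sum.inr 2)) else
        al s (z (Sum.inr 0)) (z (Sum.inr 2)) * z (Sum.inr 1) +
          be s (z (Sum.inr 0)) (z (Sum.inr 2)) * z (Sum.inr 3)) ∈ Q}

/-- exact and exact with cancellation; the new parameter is the leading coefficient of the
result -/
def Q4 (s : Bool) (Q : Set (E ⊕ Bool → ℂ)) : Set ((E ⊕ Unit) ⊕ Fin 4 → ℂ) :=
  {z | z (Sum.inr 1) ≠ 0 ∧ z (Sum.inr 3) ≠ 0 ∧
    al s (z (Sum.inr 0)) (z (Sum.inr 2)) * z (Sum.inr 1) +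
      be s (z (Sum.inr 0)) (z (Sum.inr 2)) * z (Sum.inr 3) = 0 ∧
    Sum.elim (fun p => z (Sum.inl (Sum.inl p))) (fun b : Bool => if b then
      gv s (z (Sum.inr 0)) (z (Sum.inr 2)) else z (Sum.inl (Sum.inr ()))) ∈ Q}

/-- tail and tail -/
def Q5 (s : Bool) (Q : Set (E ⊕ Bool → ℂ)) : Set (E ⊕ Fin 4 → ℂ) :=
  {z | Sum.elim (fun p => z (Sum.inl p)) (fun b : Bool => if b then
    gv s (z (Sum.inr 0)) (z (Sum.inr 2)) else 0) ∈ Q}

/-- exact and exact with cancellation, for the tail of the result -/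
def Q6 (s : Bool) (Q : Set (E ⊕ Bool → ℂ)) : Set (E ⊕ Fin 4 → ℂ) :=
  {z | z (Sum.inr 1) ≠ 0 ∧ z (Sum.inr 3) ≠ 0 ∧
    al s (z (Sum.inr 0)) (z (Sum.inr 2)) * z (Sum.inr 1) +
      be s (z (Sum.inr 0)) (z (Sum.inr 2)) * z (Sum.inr 3) = 0 ∧
    Sum.elim (fun p => z (Sum.inl p)) (fun b : Bool => if b then
      gv s (z (Sum.inr 0)) (z (Sum.inr 2)) else 0) ∈ Q}

end

/-- sums, and products over nonzero values: exact, with prescribed further coefficients -/
def Stmt_VGE : Prop :=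
  ∀ (s : Bool) (P : HodgeMeasure) (ι κ : Type) [Fintype ι] [Fintype κ] (f : MvPolynomial ι ℂ)
    (g : MvPolynomial κ ℂ), Unif P f Set.univ → Unif P g Set.univ →
    ∀ (E : Type) [Finite E] (Q : Set (E ⊕ Bool → ℂ)), QOk (Xs s) true Q → ∀ m e : ℕ, 1 ≤ m →
      ∀ A : ℕ → MvPolynomial (E ⊕ Bool) ℂ,
      vol P.rat xq (PD (gp s f g) Q m e A) = xq ^ e * (
        vol P.rat xq (DD f g true false (Q1 s Q) m m) +
        vol P.rat xq (DD f g false true (Q2 s Q) m m) +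
        vol P.rat xq (DD f g true true (Q3 s Q) m m) +
        ∑ j ∈ Finset.Ico 1 m, xq ^ (m - j) * vol P.rat xq (DD f g true true (Q4 s Q) j j))

/-- sums, and products over nonzero values: tail -/
def Stmt_VGT : Prop :=
  ∀ (s : Bool) (P : HodgeMeasure) (ι κ : Type) [Fintype ι] [Fintype κ] (f : MvPolynomial ι ℂ)
    (g : MvPolynomial κ ℂ), Unif P f Set.univ →
    ∀ (E : Type) [Finite E] (Q : Set (E ⊕ Bool → ℂ)), QOk (Xs s) false Q → ∀ m : ℕ,
      vol P.rat xq (SD (gp s f g) false Q m) =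
        vol P.rat xq (DD f g false false (Q5 s Q) m m) +
        ∑ j ∈ Finset.Icc 1 m, xq ^ (m - j) * vol P.rat xq (DD f g true true (Q6 s Q) j j)

/-- products over the value `0`: exact, with prescribed further coefficients -/
def Stmt_VZE : Prop :=
  ∀ (P : HodgeMeasure) (ι κ : Type) [Fintype ι] [Fintype κ] (f : MvPolynomial ι ℂ)
    (g : MvPolynomial κ ℂ), Unif P f Set.univ → Unif P g Set.univ →
    ∀ (E : Type) [Finite E] (Q : Set (E ⊕ Bool → ℂ)), QOk {0} true Q → ∀ m e : ℕ, 1 ≤ m →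
      ∀ A : ℕ → MvPolynomial (E ⊕ Bool) ℂ,
      vol P.rat xq (PD (otimes f g) Q m e A) = xq ^ e * (
        vol P.rat xq (DD f g true false {z | z (Sum.inr 0) = 0 ∧ z (Sum.inr 1) ≠ 0 ∧
          z (Sum.inr 2) ≠ 0 ∧ Sum.elim (fun p => z (Sum.inl p)) (fun b : Bool => if b then 0 else
            z (Sum.inr 1) * z (Sum.inr 2)) ∈ Q} m 0) +
        vol P.rat xq (DD f g false true {z | z (Sum.inr 2) = 0 ∧ z (Sum.inr 3) ≠ 0 ∧
          z (Sum.inr 0) ≠ 0 ∧ Sum.elim (fun p => z (Sum.inl p)) (fun b : Bool => if b then 0 else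
            z (Sum.inr 0) * z (Sum.inr 3)) ∈ Q} 0 m) +
        ∑ i ∈ Finset.Ico 1 m, vol P.rat xq (DD f g true true {z | z (Sum.inr 0) = 0 ∧
          z (Sum.inr 2) = 0 ∧ z (Sum.inr 1) ≠ 0 ∧ z (Sum.inr 3) ≠ 0 ∧
          Sum.elim (fun p => z (Sum.inl p)) (fun b : Bool => if b then 0 else
            z (Sum.inr 1) * z (Sum.inr 3)) ∈ Q} i (m - i)))

/-- products over the value `0`: tail -/
def Stmt_VZT : Prop :=
  ∀ (P : HodgeMeasure) (ι κ : Type) [Fintype ι] [Fintype κ] (f : MvPolynomial ι ℂ)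
    (g : MvPolynomial κ ℂ) (E : Type) [Finite E] (Q : Set (E ⊕ Bool → ℂ)), QOk {0} false Q →
    ∀ m : ℕ, vol P.rat xq (SD (otimes f g) false Q m) =
        vol P.rat xq (DD f g false false {z | z (Sum.inr 0) = 0 ∧
          Sum.elim (fun p => z (Sum.inl p)) (fun _ : Bool => 0) ∈ Q} m 0) +
        vol P.rat xq (DD f g false false {z | z (Sum.inr 0) ≠ 0 ∧ z (Sum.inr 2) = 0 ∧
          Sum.elim (fun p => z (Sum.inl p)) (fun _ : Bool => 0) ∈ Q} 0 m) +
        ∑ i ∈ Finset.Icc 1 m, vol P.rat xq (DD f g true false {z | z (Sum.inr 0) = 0 ∧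
          z (Sum.inr 2) = 0 ∧ z (Sum.inr 1) ≠ 0 ∧
          Sum.elim (fun p => z (Sum.inl p)) (fun _ : Bool => 0) ∈ Q} i (m - i))

/-- the multiplicity of the value `p(c)` at `c` -/
noncomputable def mul (p : Polynomial ℂ) (c : ℂ) : ℕ :=
  (p - Polynomial.C (p.eval c)).rootMultiplicity c

/-- the leading coefficient: `p(c + F) = p(c) + lc p c * F^{mul p c} + …` -/
noncomputable def lc (p : Polynomial ℂ) (c : ℂ) : ℂ := (Polynomial.taylor c p).coeff (mul p c)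

/-- compositions `p(f(x))`: exact, with prescribed further coefficients -/
def Stmt_VCE : Prop :=
  ∀ (P : HodgeMeasure) (ι : Type) [Fintype ι] (f : MvPolynomial ι ℂ) (p : Polynomial ℂ),
    p.natDegree ≠ 0 → Unif P f Set.univ →
    ∀ (E : Type) [Finite E] (Q : Set (E ⊕ Bool → ℂ)), QOk Set.univ true Q → ∀ m e : ℕ, 1 ≤ m →
      ∀ A : ℕ → MvPolynomial (E ⊕ Bool) ℂ,
      vol P.rat xq (PD (Polynomial.aeval f p) Q m e A) = xq ^ e * (
        vol P.rat xq (SD f true {z : E ⊕ Bool → ℂ | p.derivative.eval (z (Sum.inr true)) ≠ 0 ∧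
          z (Sum.inr false) ≠ 0 ∧ Sum.elim (fun a => z (Sum.inl a)) (fun b : Bool => if b then
            p.eval (z (Sum.inr true)) else
              p.derivative.eval (z (Sum.inr true)) * z (Sum.inr false)) ∈ Q} m) +
        ∑ c ∈ p.derivative.roots.toFinset, if mul p c ∣ m then
          vol P.rat xq (SD f true {z : E ⊕ Bool → ℂ | z (Sum.inr true) = c ∧
            z (Sum.inr false) ≠ 0 ∧ Sum.elim (fun a => z (Sum.inl a)) (fun b : Bool => if b then
              p.eval c else lc p c * z (Sum.inr false) ^ mul p c) ∈ Q} (m / mul p c)) else 0)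

/-- compositions `p(f(x))`: tail -/
def Stmt_VCT : Prop :=
  ∀ (P : HodgeMeasure) (ι : Type) [Fintype ι] (f : MvPolynomial ι ℂ) (p : Polynomial ℂ),
    p.natDegree ≠ 0 →
    ∀ (E : Type) [Finite E] (Q : Set (E ⊕ Bool → ℂ)), QOk Set.univ false Q → ∀ m : ℕ,
      vol P.rat xq (SD (Polynomial.aeval f p) false Q m) =
        vol P.rat xq (SD f false {z : E ⊕ Bool → ℂ | p.derivative.eval (z (Sum.inr true)) ≠ 0 ∧
          Sum.elim (fun a => z (Sum.inl a)) (fun b : Bool => if b then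
            p.eval (z (Sum.inr true)) else 0) ∈ Q} m) +
        ∑ c ∈ p.derivative.roots.toFinset,
          vol P.rat xq (SD f false {z : E ⊕ Bool → ℂ | z (Sum.inr true) = c ∧
            Sum.elim (fun a => z (Sum.inl a)) (fun b : Bool => if b then p.eval c else 0) ∈ Q}
              (m / mul p c))

/-- smooth points -/
def Stmt_O5 : Prop :=
  ∀ (P : HodgeMeasure) (ι : Type) [Fintype ι] (f : MvPolynomial ι ℂ) (X : Set ℂ),
    Constructible {x : ι → ℂ | eval x f ∈ X} →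
    (∀ x : ι → ℂ, eval x f ∈ X → ∃ i, eval x (pderiv i f) ≠ 0) →
      (∃ h : HT, HasD P f X true [h.ex] ∧ HasD P f X false [h.tl]) ∧ Unif P f X

/-- weighted homogeneous polynomials over the value `0` -/
def Stmt_WS5 : Prop :=
  ∀ (P : HodgeMeasure) (ι : Type) [Fintype ι] (f : MvPolynomial ι ℂ), WH f → Unif P f {0}

/-! ## T : closure properties -/

/-- the class of the parameter set of a family -/
noncomputable def famV (P : HodgeMeasure) (t : Fam) : K :=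
  haveI := t.fin
  P.rat.val t.S

/-- mass identity -/
def Stmt_M5 : Prop :=
  ∀ (P : HodgeMeasure) (ι : Type) [Fintype ι] (f : MvPolynomial ι ℂ) (X : Set ℂ)
    (hs : List HT) (crit : Finset ℂ) (ts : ℂ → List Fam) (b : ℂ → ℕ → K),
    HasD P f X true (exF hs crit ts) → HasD P f X false (tlF hs crit b) →
      ∀ c ∈ crit, ∀ m : ℕ, b c m + ∑ j ∈ Finset.Icc 1 m, ((ts c).map fun t =>
        t.κ j * famV P t).sum = b c 0

/-- sums, and products over nonzero values -/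
def Stmt_TG5 : Prop :=
  ∀ (s : Bool) (P : HodgeMeasure) (ι κ : Type) [Fintype ι] [Fintype κ] (f : MvPolynomial ι ℂ)
    (g : MvPolynomial κ ℂ) (Λ Λ' : ℂ → Set ℚ), (∀ c, Λ c ⊆ Set.Ioi 0) →
    (∀ c, Λ' c ⊆ Set.Ioi 0) → Reg P f Set.univ Λ → Reg P g Set.univ Λ' →
      Reg P (gp s f g) (Xs s) fun d => {r | ∃ c c', gv s c c' = d ∧ r ∈ sumE (Λ c) (Λ' c')}

/-- products over the value `0` -/
def Stmt_TZ5 : Prop :=
  ∀ (P : HodgeMeasure) (ι κ : Type) [Fintype ι] [Fintype κ] (f : MvPolynomial ι ℂ)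
    (g : MvPolynomial κ ℂ) (Λ Λ' : ℂ → Set ℚ), Reg P f Set.univ Λ → Reg P g Set.univ Λ' →
      Reg P (otimes f g) {0} fun _ => Λ 0 ∪ Λ' 0 ∪ {1}

/-- compositions -/
def Stmt_TC5 : Prop :=
  ∀ (P : HodgeMeasure) (ι : Type) [Fintype ι] (f : MvPolynomial ι ℂ) (p : Polynomial ℂ)
    (Λ : ℂ → Set ℚ), p.natDegree ≠ 0 → Reg P f Set.univ Λ →
      Reg P (Polynomial.aeval f p) Set.univ fun d => {r | ∃ c, p.eval c = d ∧
        ((mul p c : ℚ) * r ∈ Λ c ∨ (2 ≤ mul p c ∧ r = 1 / (mul p c : ℚ)))}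

/-- the values different from `c` and the value `c` together -/
def Stmt_G5 : Prop :=
  ∀ (P : HodgeMeasure) (ι : Type) [Fintype ι] (f : MvPolynomial ι ℂ) (c : ℂ)
    (Λ Λ' Λ'' : ℂ → Set ℚ), Reg P f {c}ᶜ Λ → Reg P f {c} Λ' → (∀ d, d ≠ c → Λ d ⊆ Λ'' d) →
      Λ' c ⊆ Λ'' c → Reg P f Set.univ Λ''

/-- the admissible polynomials of phase 4 -/
def Stmt_TB5 : Prop :=
  ∀ (P : HodgeMeasure) (ι : Type) [Fintype ι] (f : MvPolynomial ι ℂ) (Λ : Set ℚ),
    f.totalDegree ≠ 0 → WH f → Mass P f → Λ ⊆ Set.Ioi 0 → Expr2 P f Λ →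
      Reg P f Set.univ fun c => {r | c = 0 ∧ r ∈ Λ}

/-- change of the index type -/
def Stmt_RN5 : Prop :=
  ∀ (P : HodgeMeasure) (ι κ : Type) [Fintype ι] [Fintype κ] (f : MvPolynomial ι ℂ) (X : Set ℂ)
    (Λ : ℂ → Set ℚ) (φ : ι → κ), Function.Injective φ → Reg P f X Λ → Reg P (rename φ f) X Λ

/-! ## W : witnesses -/

/-- multiplication by a unit -/
def Stmt_WU5 : Prop :=
  ∀ (ι : Type) [Fintype ι] [DecidableEq ι] (F U : MvPolynomial ι ℂ) (c β : ℂ) (N : ℕ), c ≠ 0 →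
    F ∣ (U - C c) ^ N → Wit F β → Wit (F * U) β

/-- products over nonzero values -/
def Stmt_WP5 : Prop :=
  ∀ (ι κ : Type) [Fintype ι] [Fintype κ] [DecidableEq ι] [DecidableEq κ] (f : MvPolynomial ι ℂ)
    (g : MvPolynomial κ ℂ) (c c' β β' : ℂ), c ≠ 0 → c' ≠ 0 → Wit (f - C c) β →
      Wit (g - C c') β' → Wit (otimes f g - C (c * c')) (β + β')

/-! ## The class and the main theorem -/

def Good5 (ι : Type) [Fintype ι] [DecidableEq ι] (f : MvPolynomial ι ℂ) : Prop :=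
  f.totalDegree ≠ 0 ∧ ∀ P : HodgeMeasure, ∃ Λ : ℂ → Set ℚ, (∀ c, Λ c ⊆ Set.Ioi 0) ∧
    (∀ c, ∀ r ∈ Λ c, WitClass (f - C c) r) ∧ Reg P f Set.univ Λ

/-- closure properties of the class -/
def Stmt_Adm5 : Prop :=
  (∀ (ι : Type) [Fintype ι] [DecidableEq ι] (f : MvPolynomial ι ℂ), Adm ι f → Good5 ι f) ∧
  (∀ (ι : Type) [Fintype ι] [DecidableEq ι] (f : MvPolynomial ι ℂ),
    (∀ x : ι → ℂ, ∃ i, eval x (pderiv i f) ≠ 0) → Good5 ι f) ∧
  (∀ (ι κ : Type) [Fintype ι] [Fintype κ] [DecidableEq ι] [DecidableEq κ] (f : MvPolynomial ι ℂ)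
    (g : MvPolynomial κ ℂ), Good5 ι f → Good5 κ g →
      Good5 (ι ⊕ κ) (oplus f g) ∧ Good5 (ι ⊕ κ) (otimes f g)) ∧
  (∀ (ι : Type) [Fintype ι] [DecidableEq ι] (f : MvPolynomial ι ℂ) (p : Polynomial ℂ),
    p.natDegree ≠ 0 → Good5 ι f → Good5 ι (Polynomial.aeval f p)) ∧
  ∀ (ι κ : Type) [Fintype ι] [Fintype κ] [DecidableEq ι] [DecidableEq κ] (f : MvPolynomial ι ℂ)
    (φ : ι → κ), Function.Injective φ → Good5 ι f → Good5 κ (rename φ f)

def Stmt_TM5 : Prop :=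
  ∀ (ι : Type) [Fintype ι] [DecidableEq ι] (f : MvPolynomial ι ℂ), Good5 ι f →
    ∀ (P : HodgeMeasure) (e : ℕ) (R : RatFunc ℚ), 1 ≤ e → IsTopZeta P f e R → ∀ s : ℂ,
      Polynomial.aeval s R.denom = 0 → IsEigenvalue f (Complex.exp (2 * Real.pi * Complex.I * s))

end Pool.Agent.Mono.RO
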