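import Pool.Agent.Work.Monodromy.Defs6
import Pool.Agent.Work.Monodromy6.CV

/-!
# Phase 6, volume part: interface (helper61)

`Monodromy6/NOTES6V.md` contains the proofs.  Everything is in the namespace `Pool.Agent.Mono.PC`.
Block `X` : file `Pool/Agent/Work/Monodromy6/<X>.lean`, `theorem stmt_X : Stmt_X` (other `Stmt_Y` may
be hypotheses).
Coordinates: `s = X 0`, `w = X 1`.
-/

set_option autoImplicit false

namespace Pool.Agent.Mono.PC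

open MvPolynomial TS RO

/-! ## The tree -/

/-- all monomials `s^a w^b` of `G` satisfy `N ≤ p a + q b` -/
def Low (p q N : ℕ) (G : P2) : Prop := ∀ d ∈ G.support, N ≤ p * d 0 + q * d 1

/-- the exponent of `s^a w^b` -/
noncomputable def mon (a b : ℕ) : Fin 2 →₀ ℕ := Finsupp.single 0 a + Finsupp.single 1 b

/-- `s ↦ s^p`, `w ↦ s^q (lam + w)` -/
noncomputable def chart (p q : ℕ) (lam : ℂ) : P2 →ₐ[ℂ] P2 :=
  aeval ![X 0 ^ p, X 0 ^ q * (C lam + X 1)]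

/-- `w ↦ w + ψ(s)` -/
noncomputable def shift (ψ : Polynomial ℂ) : P2 →ₐ[ℂ] P2 :=
  aeval ![X 0, X 1 + Polynomial.aeval (X 0 : P2) ψ]

/-- `s ↔ w` -/
noncomputable def swp : P2 →ₐ[ℂ] P2 := aeval ![X 1, X 0]

/-- the exponent of the ray `(p, q)` at the vertex `(A, B)` -/
def rate (ν A B p q : ℕ) : ℚ := ((p * ν + q : ℕ) : ℚ) / ((p * A + q * B : ℕ) : ℚ)

/-- the cone between the rays `(p, q)`, `(p', q')` with vertex `(A, B)` gives a Haar part and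
exponents in `Λ` -/
def SCond (Λ : Set ℚ) (ν p q A B p' q' : ℕ) : Prop :=
  1 ≤ p * A + q * B ∧ 1 ≤ p' * A + q' * B ∧
  ((rate ν A B p q ∈ Λ ∧ rate ν A B p' q' ∈ Λ) ∨
    (p' = 0 ∧ q' = 1 ∧ B = 1 ∧ rate ν A B p q ∈ Λ ∧ rate ν A B p q ≠ 1) ∨
    (p = 1 ∧ q = 0 ∧ A = 1 ∧ ν = 1 ∧ rate ν A B p' q' ∈ Λ ∧ rate ν A B p' q' ≠ 1))

/-- `RB Λ G ν p q o`: the region `{ord w > (q/p) ord s}` of `G` is resolved with exponents in `Λ`
(`o = none`); `o = some (c, A, B, p', q')`: up to the cone between the rays `(p, q)`, `(p', q')`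
on which `G` has the leading term `c s^A w^B`. -/
inductive RB (Λ : Set ℚ) : P2 → ℕ → ℕ → ℕ → Option (ℂ × ℕ × ℕ × ℕ × ℕ) → Prop
  | fin0 (G : P2) (ν p q A : ℕ) (hp : 1 ≤ p) (hA : 1 ≤ A) (h1 : G.coeff (mon A 0) ≠ 0)
      (h2 : Low p q (p * A) G) (h3 : rate ν A 0 p q ∈ Λ) : RB Λ G ν p q none
  | fin1 (g h : P2) (ν p q A₁ A₂ B : ℕ) (hp : 1 ≤ p) (hB : 1 ≤ B)
      (g1 : g.coeff (mon A₁ 1) ≠ 0) (g2 : Low p q (p * A₁ + q) g)
      (g3 : ∀ d ∈ g.support, d 1 = 0 → p * A₁ + q < p * d 0)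
      (h1 : h.coeff (mon A₂ 0) ≠ 0) (h2 : Low p q (p * A₂) h)
      (hN : 1 ≤ p * (B * A₁ + A₂) + q * B) :
      RB Λ (g ^ B * h) ν p q
        (some (g.coeff (mon A₁ 1) ^ B * h.coeff (mon A₂ 0), B * A₁ + A₂, B, 0, 1))
  | step (G : P2) (ν p q p' q' aL bR : ℕ) (I : Polynomial ℂ) (hp : 1 ≤ p)
      (hpq : q * p' < q' * p) (he : IsEdge G p' q' aL bR I)
      (h1 : Low p q (p * aL + q * (bR + p' * I.natDegree)) G)
      (hN : 1 ≤ p * aL + q * (bR + p' * I.natDegree))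
      (h2 : rate ν aL (bR + p' * I.natDegree) p' q' ∈ Λ)
      (h3 : ∀ lam : ℂ, lam ≠ 0 → I.eval (lam ^ p') = 0 →
        RB Λ (chart p' q' lam G) (p' * ν + q') 1 0 none)
      (h4 : RB Λ G ν p' q' none) :
      RB Λ G ν p q (some (I.leadingCoeff, aL, bR + p' * I.natDegree, p', q'))
  | close (G : P2) (ν p q : ℕ) (c : ℂ) (A B p' q' : ℕ) (h1 : RB Λ G ν p q (some (c, A, B, p', q')))
      (h2 : SCond Λ ν p q A B p' q') : RB Λ G ν p q none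
  | coord (G : P2) (ν p q : ℕ) (o : Option (ℂ × ℕ × ℕ × ℕ × ℕ)) (ψ : Polynomial ℂ)
      (hψ : ∀ j ∈ ψ.support, q < p * j) (h : RB Λ (shift ψ G) ν p q o) : RB Λ G ν p q o

/-- polynomials `F` with `F(0) = 0` which are resolved at the origin with exponents in `Λ` -/
inductive Good0 (Λ : Set ℚ) : P2 → Prop
  | edge (F : P2) (p q aL bR : ℕ) (I : Polynomial ℂ) (he : IsEdge F p q aL bR I)
      (h1 : rate 1 aL (bR + p * I.natDegree) p q ∈ Λ)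
      (h2 : ∀ lam : ℂ, lam ≠ 0 → I.eval (lam ^ p) = 0 → RB Λ (chart p q lam F) (p + q) 1 0 none)
      (h3 : RB Λ F 1 p q none) (h4 : RB Λ (swp F) 1 q p none) : Good0 Λ F
  | two (F : P2) (A B : ℕ) (c : ℂ) (p' q' p'' q'' : ℕ) (hA : 1 ≤ A) (hB : 1 ≤ B)
      (h1 : Above 1 1 (A + B) (F - C c * X 0 ^ A * X 1 ^ B))
      (h2 : RB Λ F 1 1 1 (some (c, A, B, p', q')))
      (h3 : RB Λ (swp F) 1 1 1 (some (c, B, A, q'', p'')))
      (h4 : SCond Λ 1 p'' q'' A B p' q') : Good0 Λ F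
  | coord (F : P2) (ψ : Polynomial ℂ) (h0 : ψ.coeff 0 = 0) (h : Good0 Λ (shift ψ F)) : Good0 Λ F
  | swap (F : P2) (h : Good0 Λ (swp F)) : Good0 Λ F

/-! ## Volumes of one-variable arcs -/

section

variable {E : Type}

/-- the leading coefficients are not zero -/
def QU (Q : Set (E ⊕ Unit → ℂ)) : Prop := Constructible Q ∧ ∀ z ∈ Q, z (Sum.inr ()) ≠ 0

/-- `F` has order `≥ m` and `(p, coefficient m) ∈ Q` -/
def Lead (Q : Set (E ⊕ Unit → ℂ)) (m : ℕ) (p : E → ℂ) (F : PowerSeries ℂ) : Prop :=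
  (∀ j < m, PowerSeries.coeff j F = 0) ∧ (Sum.elim p fun _ => PowerSeries.coeff m F) ∈ Q

/-- `G(a t^k, w)` -/
noncomputable def ev (G : P2) (k : ℕ) (a : ℂ) (w : PowerSeries ℂ) : PowerSeries ℂ :=
  aeval (![PowerSeries.C a * PowerSeries.X ^ k, w] : Fin 2 → PowerSeries ℂ) G

/-- `((p, a), w)` with `a ≠ 0`, `ord w ≥ L`, and `G(a t^k, w)` has order `m` with leading
coefficient in `Q` -/
def NS (G : P2) (Q : Set (E ⊕ Unit → ℂ)) (k L m : ℕ) :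
    Set ((E ⊕ Unit → ℂ) × (Unit → PowerSeries ℂ)) :=
  {z | z.1 (Sum.inr ()) ≠ 0 ∧ (∀ j < L, PowerSeries.coeff j (z.2 ()) = 0) ∧
    Lead Q m (fun e => z.1 (Sum.inl e)) (ev G k (z.1 (Sum.inr ())) (z.2 ()))}

noncomputable def vN (P : HodgeMeasure) [Finite E] (G : P2) (Q : Set (E ⊕ Unit → ℂ))
    (k L m : ℕ) : K :=
  vol P.rat xq (NS G Q k L m)

/-- the class of `{(p, a) : a ≠ 0, (p, c a^A) ∈ Q}` -/
noncomputable def c1 (P : HodgeMeasure) [Finite E] (c : ℂ) (A : ℕ) (Q : Set (E ⊕ Unit → ℂ)) : K :=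
  P.rat.val {z : E ⊕ Unit → ℂ | z (Sum.inr ()) ≠ 0 ∧
    (Sum.elim (fun e => z (Sum.inl e)) fun _ => c * z (Sum.inr ()) ^ A) ∈ Q}

/-- the class of `{(p, a, b) : a b ≠ 0, (p, u(a, b)) ∈ Q}` -/
noncomputable def c2 (P : HodgeMeasure) [Finite E] (u : P2) (Q : Set (E ⊕ Unit → ℂ)) : K :=
  P.rat.val {z : E ⊕ Fin 2 → ℂ | z (Sum.inr 0) ≠ 0 ∧ z (Sum.inr 1) ≠ 0 ∧
    (Sum.elim (fun e => z (Sum.inl e)) fun _ => eval (fun i => z (Sum.inr i)) u) ∈ Q}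

/-- the class of the family `t` -/
noncomputable def fcl (P : HodgeMeasure) [Finite E] (t : Fam) (Q : Set (E ⊕ Unit → ℂ)) : K :=
  haveI := t.fin
  P.rat.val {z : E ⊕ t.σ → ℂ | (fun s => z (Sum.inr s)) ∈ t.S ∧
    (Sum.elim (fun e => z (Sum.inl e)) fun _ => eval (fun s => z (Sum.inr s)) t.u) ∈ Q}

end

/-- last region, `B = 0` -/
def Stmt_VF0 : Prop :=
  ∀ (P : HodgeMeasure) (G : P2) (p q A : ℕ), 1 ≤ p → 1 ≤ A → G.coeff (mon A 0) ≠ 0 →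
    Low p q (p * A) G → ∀ (E : Type) [Finite E] (Q : Set (E ⊕ Unit → ℂ)), QU Q → ∀ k m : ℕ, 1 ≤ k →
      vN P G Q k (q * k / p + 1) m = if m = A * k then
        xq ^ (q * k / p + 1) * c1 P (G.coeff (mon A 0)) A Q else 0

/-- last region, `B ≥ 1`: change of variables `w ↦ g(a t^k, w)` -/
def Stmt_VF1 : Prop :=
  ∀ (P : HodgeMeasure) (g h : P2) (p q A₁ A₂ B : ℕ), 1 ≤ p → 1 ≤ B → g.coeff (mon A₁ 1) ≠ 0 →
    Low p q (p * A₁ + q) g → (∀ d ∈ g.support, d 1 = 0 → p * A₁ + q < p * d 0) →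
    h.coeff (mon A₂ 0) ≠ 0 → Low p q (p * A₂) h →
    ∀ (E : Type) [Finite E] (Q : Set (E ⊕ Unit → ℂ)), QU Q → ∀ k m : ℕ, 1 ≤ k →
      vN P (g ^ B * h) Q k (q * k / p + 1) m =
        ∑ l ∈ Finset.Ioc (q * k / p) (q * k / p + m),
          if m = (B * A₁ + A₂) * k + B * l then
            xq ^ (l + 1) * c2 P (C (g.coeff (mon A₁ 1) ^ B * h.coeff (mon A₂ 0)) *
              X 0 ^ (B * A₁ + A₂) * X 1 ^ B) Q else 0

/-- a point in the open cone with the leading term `c s^A w^B` -/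
def Stmt_VCONE : Prop :=
  ∀ (P : HodgeMeasure) (G : P2) (p q p' q' A B : ℕ), q * p' < q' * p → 1 ≤ p →
    G.coeff (mon A B) ≠ 0 → Low p q (p * A + q * B) G → Low p' q' (p' * A + q' * B) G →
    ∀ (E : Type) [Finite E] (Q : Set (E ⊕ Unit → ℂ)), QU Q → ∀ k l m : ℕ, 1 ≤ k →
      q * k < p * l → p' * l < q' * k →
      vN P G Q k l m = (if m = A * k + B * l then
        xq ^ (l + 1) * c2 P (C (G.coeff (mon A B)) * X 0 ^ A * X 1 ^ B) Q else 0) +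
          vN P G Q k (l + 1) m

/-- a ray which belongs to an edge; `ρ R` is a root of `R` -/
def Stmt_VRAY : Prop :=
  ∀ (P : HodgeMeasure) (G : P2) (p q aL bR : ℕ) (I : Polynomial ℂ) (ρ : ℂ → ℂ),
    IsEdge G p q aL bR I → (∀ R, ρ R ^ p = R) →
    ∀ (E : Type) [Finite E] (Q : Set (E ⊕ Unit → ℂ)), QU Q → ∀ k m : ℕ, 1 ≤ k →
      vN P G Q (p * k) (q * k) m = (if m = edgeN p q aL bR I * k then
        xq ^ (q * k + 1) * c2 P (edgePart p q aL bR I) Q else 0) +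
        (∑ R ∈ I.roots.toFinset, xq ^ (q * k) * vN P (chart p q (ρ R) G) Q k 1 m) +
          vN P G Q (p * k) (q * k + 1) m

/-- coordinate changes -/
def Stmt_VSH : Prop :=
  ∀ (P : HodgeMeasure) (G : P2) (k L : ℕ) (ψ : Polynomial ℂ), (∀ j ∈ ψ.support, L ≤ k * j) →
    ∀ (E : Type) [Finite E] (Q : Set (E ⊕ Unit → ℂ)), QU Q → ∀ m : ℕ,
      vN P (shift ψ G) Q k L m = vN P G Q k L m

/-! ## Sequences -/

/-- `∑ u^{-(ν k + l)}` over the points of the open cone with `A k + B l = m` -/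
noncomputable def coneS (ν p q A B p' q' m : ℕ) : K :=
  ∑ k ∈ Finset.range ((p + p') * m + 1), ∑ l ∈ Finset.range ((q + q') * m + 1),
    if q * k < p * l ∧ p' * l < q' * k ∧ A * k + B * l = m then xq ^ (ν * k + l) else 0

/-- the points of the cone with `A k + B l = m` are in the box -/
def Stmt_SB : Prop :=
  ∀ (p q A B p' q' m k l : ℕ), q * p' < q' * p → 1 ≤ p * A + q * B → 1 ≤ p' * A + q' * B →
    q * k < p * l → p' * l < q' * k → A * k + B * l = m → k ≤ (p + p') * m ∧ l ≤ (q + q') * m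

/-- cones -/
def Stmt_SC1 : Prop :=
  ∀ (ν p q A B p' q' : ℕ), q * p' < q' * p → 1 ≤ p * A + q * B → 1 ≤ p' * A + q' * B →
    ESeq {rate ν A B p q, rate ν A B p' q'} fun m => coneS ν p q A B p' q' m

/-- cones up to the ray `(0, 1)` with `B = 1`, Haar part -/
def Stmt_SC2 : Prop :=
  ∀ (ν p q A : ℕ), 1 ≤ p → 1 ≤ p * A + q → ν ≠ A →
    ∃ (a : K) (κ : ℕ → K), ESeq {rate ν A 1 p q} κ ∧
      ∀ m, 1 ≤ m → coneS ν p q A 1 0 1 m = a * xq ^ m + κ m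

/-- symmetry -/
def Stmt_SC3 : Prop :=
  ∀ (p q A B p' q' m : ℕ), coneS 1 p q A B p' q' m = coneS 1 q' p' B A q p m

/-- `B = 0` -/
def Stmt_SF0 : Prop :=
  ∀ (ν p q A : ℕ), 1 ≤ p → 1 ≤ A → ESeq {rate ν A 0 p q} fun m =>
    if A ∣ m then xq ^ (ν * (m / A) + q * (m / A) / p) else 0

/-! ## The recursion, exact part -/

/-- the distribution over the region beyond the ray `(p, q)` -/
def RE (P : HodgeMeasure) (Λ : Set ℚ) (G : P2) (ν p q : ℕ)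
    (o : Option (ℂ × ℕ × ℕ × ℕ × ℕ)) : Prop :=
  ∃ (α : K) (ts : List Fam) (C₀ : ℕ), (∀ t ∈ ts, t.Good ∧ ESeq Λ t.κ) ∧
    ∀ (E : Type) [Finite E] (Q : Set (E ⊕ Unit → ℂ)), QU Q → ∀ m N : ℕ, 1 ≤ m → C₀ * m ≤ N →
      ∑ k ∈ Finset.Icc 1 N, xq ^ (ν * k) * vN P G Q k (q * k / p + 1) m =
        (match o with
          | none => 0
          | some (c, A, B, p', q') => xq * coneS ν p q A B p' q' m *
              c2 P (C c * X 0 ^ A * X 1 ^ B) Q) +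
          ((haar α :: ts).map fun t => t.κ m * fcl P t Q).sum

def Stmt_VRE : Prop :=
  ∀ (P : HodgeMeasure) (Λ : Set ℚ) (G : P2) (ν p q : ℕ) (o : Option (ℂ × ℕ × ℕ × ℕ × ℕ)),
    1 ≤ ν → RB Λ G ν p q o → RE P Λ G ν p q o

/-! ## Mass -/

/-- all leading coefficients -/
def QF : Set (Empty ⊕ Unit → ℂ) := {z | z (Sum.inr ()) ≠ 0}

/-- an embedding of `ℚ(u)` into the real numbers with `u > 1` -/
def Stmt_EMB : Prop := ∃ φ : K →+* ℝ, 1 < φ RatFunc.X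

/-- exponential sequences with positive exponents are summable -/
def Stmt_ESUM : Prop :=
  ∀ (φ : K →+* ℝ) (κ : ℕ → K), 1 < φ RatFunc.X → ESeq (Set.Ioi 0) κ →
    Summable fun m => |φ (κ m)|

/-- the arcs over the region with `G = 0` have volume zero -/
def RM (P : HodgeMeasure) (φ : K →+* ℝ) (G : P2) (ν p q : ℕ) : Prop :=
  ∃ S : ℝ, HasSum (fun k : ℕ => φ ((RatFunc.X - 1) *
      xq ^ (ν * (k + 1) + (q * (k + 1) / p + 1)))) S ∧
    HasSum (fun z : ℕ × ℕ => φ (xq ^ (ν * (z.1 + 1)) *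
      vN P G QF (z.1 + 1) (q * (z.1 + 1) / p + 1) z.2)) S

def Stmt_VRM : Prop :=
  ∀ (P : HodgeMeasure) (φ : K →+* ℝ) (Λ : Set ℚ) (G : P2) (ν p q : ℕ)
    (o : Option (ℂ × ℕ × ℕ × ℕ × ℕ)), 1 < φ RatFunc.X → 1 ≤ ν → RB Λ G ν p q o →
      RM P φ G ν p q

/-! ## Level 0 -/

section

variable {E : Type}

/-- arcs at the origin: `F(x, y)` has order `m` with leading coefficient in `Q` -/
def LS (F : P2) (Q : Set (E ⊕ Unit → ℂ)) (m : ℕ) : Set ((E → ℂ) × (Fin 2 → PowerSeries ℂ)) :=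
  {z | (∀ i, PowerSeries.coeff 0 (z.2 i) = 0) ∧ Lead Q m z.1 (aeval z.2 F)}

end

/-- reparametrisation to `x = a t^k` -/
def Stmt_VREP : Prop :=
  ∀ (P : HodgeMeasure) (F : P2) (E : Type) [Finite E] (Q : Set (E ⊕ Unit → ℂ)), QU Q →
    ∀ k L m : ℕ, 1 ≤ k →
      vol P.rat xq {z : (E → ℂ) × (Fin 2 → PowerSeries ℂ) |
        (∀ j < k, PowerSeries.coeff j (z.2 0) = 0) ∧ PowerSeries.coeff k (z.2 0) ≠ 0 ∧
        (∀ j < L, PowerSeries.coeff j (z.2 1) = 0) ∧ Lead Q m z.1 (aeval z.2 F)} =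
      xq ^ (k + 1) * vN P F Q k L m

/-- automorphisms which fix the origin -/
def Stmt_VAUT : Prop :=
  ∀ (P : HodgeMeasure) (F : P2) (ψ : Polynomial ℂ), ψ.coeff 0 = 0 →
    ∀ (E : Type) [Finite E] (Q : Set (E ⊕ Unit → ℂ)), QU Q → ∀ m : ℕ,
      vol P.rat xq (LS (shift ψ F) Q m) = vol P.rat xq (LS F Q m) ∧
      vol P.rat xq (LS (swp F) Q m) = vol P.rat xq (LS F Q m)

/-- exact part at the origin -/
def Stmt_VL0 : Prop :=
  ∀ (P : HodgeMeasure) (Λ : Set ℚ) (F : P2), Good0 Λ F →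
    ∃ (α : K) (ts : List Fam), (∀ t ∈ ts, t.Good ∧ ESeq Λ t.κ) ∧
      ∀ (E : Type) [Finite E] (Q : Set (E ⊕ Unit → ℂ)), QU Q → ∀ m : ℕ, 1 ≤ m →
        vol P.rat xq (LS F Q m) = ((haar α :: ts).map fun t => t.κ m * fcl P t Q).sum

/-- mass at the origin -/
def Stmt_VM0 : Prop :=
  ∀ (P : HodgeMeasure) (φ : K →+* ℝ) (Λ : Set ℚ) (F : P2), 1 < φ RatFunc.X → Good0 Λ F →
    HasSum (fun m : ℕ => φ (vol P.rat xq (LS F QF m))) (φ (xq ^ 2))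

/-! ## Globalisation -/

section

variable {E ι : Type}

/-- `SD` for arcs which start in `Z` -/
def SDz (f : MvPolynomial ι ℂ) (Z : Set (ι → ℂ)) (w : Bool) (Q : Set (E ⊕ Bool → ℂ)) (i : ℕ) :
    Set ((E → ℂ) × (ι → PowerSeries ℂ)) :=
  {z | z ∈ SD f w Q i ∧ (fun a => PowerSeries.coeff 0 (z.2 a)) ∈ Z}

/-- `HasD` for arcs which start in `Z` -/
def HasDz (P : HodgeMeasure) [Fintype ι] (f : MvPolynomial ι ℂ) (Z : Set (ι → ℂ)) (w : Bool)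
    (Gs : List Fam2) : Prop :=
  (∀ G ∈ Gs, G.Ok Set.univ w) ∧
  ∀ (E : Type) [Finite E] (Q : Set (E ⊕ Bool → ℂ)), QOk Set.univ w Q → ∀ i : ℕ,
    (w = true → 1 ≤ i) → vol P.rat xq (SDz f Z w Q i) = (Gs.map fun G => G.κ i * G.cl P Q).sum

end

/-- a point -/
def Stmt_VPT : Prop :=
  ∀ (P : HodgeMeasure) (Λ : Set ℚ) (f : P2) (x₀ : Fin 2 → ℂ), Λ ⊆ Set.Ioi 0 →
    Good0 Λ (aeval (fun i => X i + C (x₀ i)) f - C (eval x₀ f)) →
    ∃ (h : HT) (ts : List Fam) (b : ℕ → K), (∀ t ∈ ts, ESeq Λ t.κ) ∧ ESeq Λ b ∧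
      HasDz P f {x₀} true (h.ex :: ts.map fun t => atv t (eval x₀ f)) ∧
      HasDz P f {x₀} false [h.tl, ptv (eval x₀ f) b]

/-- smooth points -/
def Stmt_VSM : Prop :=
  ∀ (P : HodgeMeasure) (ι : Type) [Fintype ι] (f : MvPolynomial ι ℂ) (Z : Set (ι → ℂ)),
    Constructible Z → (∀ x ∈ Z, ∃ i, eval x (pderiv i f) ≠ 0) →
      ∃ h : HT, HasDz P f Z true [h.ex] ∧ HasDz P f Z false [h.tl]

/-- smooth points of a multiple component -/
def Stmt_VMU : Prop :=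
  ∀ (P : HodgeMeasure) (ι : Type) [Fintype ι] (f g h : MvPolynomial ι ℂ) (c : ℂ) (e : ℕ)
    (Z : Set (ι → ℂ)), Constructible Z → 2 ≤ e → f = C c + g ^ e * h →
    (∀ x ∈ Z, eval x g = 0 ∧ eval x h ≠ 0 ∧ ∃ i, eval x (pderiv i g) ≠ 0) →
      ∃ (t : Fam) (b : ℕ → K), ESeq {1 / (e : ℚ)} t.κ ∧ ESeq {1 / (e : ℚ)} b ∧
        HasDz P f Z true [atv t c] ∧ HasDz P f Z false [ptv c b]

/-- gluing -/
def Stmt_VGL : Prop :=
  ∀ (P : HodgeMeasure) (ι : Type) [Fintype ι] (f : MvPolynomial ι ℂ) (w : Bool) (n : ℕ)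
    (Z : Fin n → Set (ι → ℂ)) (Gs : Fin n → List Fam2), (∀ j, Constructible (Z j)) →
    (∀ j j', j ≠ j' → Disjoint (Z j) (Z j')) → (∀ x, ∃ j, x ∈ Z j) →
    (∀ j, HasDz P f (Z j) w (Gs j)) → HasD P f Set.univ w ((List.ofFn Gs).flatten)

/-- algebra: critical values, multiple components, singular points -/
def Stmt_ALG : Prop :=
  ∀ f : P2, f.totalDegree ≠ 0 → ∃ crit : Finset ℂ,
    (∀ x : Fin 2 → ℂ, (∀ i, eval x (pderiv i f) = 0) → eval x f ∈ crit) ∧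
    ∀ c ∈ crit, ∃ (n : ℕ) (g : ℕ → P2), f = C c + ∏ j ∈ Finset.Icc 1 n, g j ^ j ∧
      Squarefree (∏ j ∈ Finset.Icc 1 n, g j) ∧
      {x : Fin 2 → ℂ | eval x f = c ∧
        ∀ i, eval x (pderiv i (∏ j ∈ Finset.Icc 1 n, g j)) = 0}.Finite

/-- the tree: to be proved by the algebraic part -/
def Stmt_TREE : Prop :=
  ∀ (f : P2) (c : ℂ) (n : ℕ) (g : ℕ → P2), f.totalDegree ≠ 0 →
    f = C c + ∏ j ∈ Finset.Icc 1 n, g j ^ j → Squarefree (∏ j ∈ Finset.Icc 1 n, g j) →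
    ∀ x₀ : Fin 2 → ℂ, eval x₀ f = c →
      (∀ i, eval x₀ (pderiv i (∏ j ∈ Finset.Icc 1 n, g j)) = 0) →
      Good0 {r : ℚ | 0 < r ∧ WitClass (f - C c) r}
        (aeval (fun i => X i + C (x₀ i)) f - C c)

/-- every nonconstant polynomial in two variables is a gate -/
def Stmt_PC : Prop := ∀ f : P2, f.totalDegree ≠ 0 → RO.Good5 (Fin 2) f

end Pool.Agent.Mono.PC
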