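import Pool.Agent.Work.Monodromy.Interface7W

/-!
# Phase 7, tree part: interface (helper11)

`Monodromy7/BLUEPRINT7T.md` contains the proofs.  Everything is in the namespace `Pool.Agent.Mono.BG`.
The contexts `Ctx1`, `Ctx2` (`Interface7W`) contain all that is needed; `Stmt_TREE7` combines the
three statements with `Stmt_CTX7`.
-/

set_option autoImplicit false

namespace Pool.Agent.Mono.BG

open MvPolynomial TS PC RO

/-- both coordinates free -/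
def Stmt_TFF : Prop :=
  ∀ (Λ : Set ℚ) (P : P2) (x₀ : Fin 2 → ℂ) (n : ℕ) (g : ℕ → P2),
    P = C (eval x₀ P) + ∏ j ∈ Finset.Icc 1 n, g j ^ j →
    Squarefree (∏ j ∈ Finset.Icc 1 n, g j) →
    (∀ i, eval x₀ (pderiv i (∏ j ∈ Finset.Icc 1 n, g j)) = 0) →
    (∀ r : ℚ, 0 < r → PCExp (P - C (eval x₀ P)) r → r ∈ Λ) →
    (∀ (k h : P2) (m : ℕ), 2 ≤ m → (∃ x, eval x k = 0 ∧ eval x h ≠ 0) →
      P - C (eval x₀ P) = k ^ m * h → 1 / (m : ℚ) ∈ Λ) →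
    Good0 Λ (loc P x₀)

/-- `a` fixed, `b` free; the case `∂_b G(0) ≠ 0` is a Haar part -/
def Stmt_TXF : Prop :=
  ∀ (Λ W : Set ℚ) (G : P2), G ≠ 0 → eval 0 G = 0 → eval 0 (pderiv 1 G) = 0 → Ctx1 Λ W G →
    GoodXF Λ W G

/-- both coordinates fixed -/
def Stmt_TXX : Prop :=
  ∀ (Λ W W' : Set ℚ) (G : P2), G ≠ 0 → eval 0 G = 0 → Ctx2 Λ W W' G → GoodXX Λ W W' G

/-- summary of the tree part -/
def Stmt_TREE7 : Prop :=
  ∀ (ι κ : Type) [Fintype ι] [Fintype κ] [DecidableEq ι] [DecidableEq κ] (f : MvPolynomial ι ℂ)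
    (g : MvPolynomial κ ℂ) (P : P2), f.totalDegree ≠ 0 → g.totalDegree ≠ 0 →
    P.totalDegree ≠ 0 → ∀ x₀ : Fin 2 → ℂ,
    (∀ (n : ℕ) (k : ℕ → P2), P = C (eval x₀ P) + ∏ j ∈ Finset.Icc 1 n, k j ^ j →
      Squarefree (∏ j ∈ Finset.Icc 1 n, k j) →
      (∀ i, eval x₀ (pderiv i (∏ j ∈ Finset.Icc 1 n, k j)) = 0) →
      Good0 (wset (comp2 P f g) (eval x₀ P)) (loc P x₀)) ∧
    (∀ (k h : P2) (m : ℕ), 2 ≤ m → (∃ x, eval x k = 0 ∧ eval x h ≠ 0) →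
      P - C (eval x₀ P) = k ^ m * h → 1 / (m : ℚ) ∈ wset (comp2 P f g) (eval x₀ P)) ∧
    (eval x₀ (pderiv 1 P) = 0 →
      GoodXF (wset (comp2 P f g) (eval x₀ P)) (wset f (x₀ 0)) (loc P x₀)) ∧
    (eval x₀ (pderiv 0 P) = 0 →
      GoodXF (wset (comp2 P f g) (eval x₀ P)) (wset g (x₀ 1)) (swp (loc P x₀))) ∧
    GoodXX (wset (comp2 P f g) (eval x₀ P)) (wset f (x₀ 0)) (wset g (x₀ 1)) (loc P x₀)

end Pool.Agent.Mono.BG
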