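import Pool.Agent.Work.Monodromy.Defs7
import Pool.Agent.Work.Monodromy6.VRM

/-!
# Phase 7 (binary gates), volume part: interface (helper61)

`Monodromy7/BLUEPRINT7V.md` contains the proofs.  Everything is in the namespace
`Pool.Agent.Mono.BV`.
Block `X` : file `Pool/Agent/Work/Monodromy7/<X>.lean`, `theorem stmt_X : Stmt_X` (other `Stmt_Y`
may be hypotheses).
Coordinates: `s = X 0`, `w = X 1`; orders of the arcs: `k` for `s`, `l` for `w`.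
-/

set_option autoImplicit false

namespace Pool.Agent.Mono.BV

open MvPolynomial TS RO PC

/-! ## Kinds of axes, exponents of rays -/

/-- `none`: free axis (Haar); `some (fs, r)`: fixed axis with exponent `r`
(`fs = true`: finite support, `r` plays no role) -/
abbrev Kd : Type := Option (Bool × ℚ)

/-- the exponent -/
def Kd.r (k : Kd) : ℚ := k.elim 1 Prod.snd

/-- finite support -/
def Kd.fs (k : Kd) : Bool := k.elim false Prod.fst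

/-- the kind of the axis `s = 0` after the chart `(p, q)` -/
def Kd.comb (k k' : Kd) (p q : ℕ) : Kd :=
  some (k.fs || k'.fs, (p : ℚ) * k.r + (q : ℚ) * k'.r)

/-- the exponent of the ray `(p, q)` at the vertex `(A, B)` -/
def rv (k k' : Kd) (A B p q : ℕ) : ℚ :=
  ((p : ℚ) * k.r + (q : ℚ) * k'.r) / ((p * A + q * B : ℕ) : ℚ)

/-- the ray `(p, q)` has finite support or its exponent is in `Λ` -/
def Rt (Λ : Set ℚ) (k k' : Kd) (A B p q : ℕ) : Prop :=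
  (k.fs = true ∧ 1 ≤ p) ∨ (k'.fs = true ∧ 1 ≤ q) ∨ rv k k' A B p q ∈ Λ

/-- the cone between the rays `(p, q)`, `(p', q')` with vertex `(A, B)` gives exponents in `Λ` and,
if `w` is free, possibly a Haar part -/
def ClV (Λ : Set ℚ) (k k' : Kd) (p q A B p' q' : ℕ) : Prop :=
  1 ≤ p * A + q * B ∧ 1 ≤ p' * A + q' * B ∧
    ((Rt Λ k k' A B p q ∧ Rt Λ k k' A B p' q') ∨
      (k' = none ∧ p' = 0 ∧ q' = 1 ∧ B = 1 ∧ Rt Λ k k' A B p q))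

/-- the same with both axes -/
def ClV' (Λ : Set ℚ) (k k' : Kd) (p q A B p' q' : ℕ) : Prop :=
  ClV Λ k k' p q A B p' q' ∨
    (1 ≤ p * A + q * B ∧ 1 ≤ p' * A + q' * B ∧
      k = none ∧ p = 1 ∧ q = 0 ∧ A = 1 ∧ Rt Λ k k' A B p' q')

/-! ## The tree -/

/-- `RV Λ k k' G p q o`: the region `{ord w > (q/p) ord s}` of `G` is resolved with exponents in
`Λ`, where `k`, `k'` are the kinds of the axes `s = 0`, `w = 0` (`o = none`);
`o = some (c, A, B, p', q')`: up to the cone between the rays `(p, q)`, `(p', q')` on which `G` has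
the leading term `c s^A w^B`. -/
inductive RV (Λ : Set ℚ) : Kd → Kd → P2 → ℕ → ℕ → Option (ℂ × ℕ × ℕ × ℕ × ℕ) → Prop
  | fin0 (k k' : Kd) (G : P2) (p q A : ℕ) (hp : 1 ≤ p) (hA : 1 ≤ A)
      (h1 : G.coeff (mon A 0) ≠ 0) (h2 : Low p q (p * A) G) (h3 : Rt Λ k k' A 0 p q) :
      RV Λ k k' G p q none
  | fin1 (k : Kd) (g h : P2) (p q A₁ A₂ B : ℕ) (hp : 1 ≤ p) (hB : 1 ≤ B)
      (g1 : g.coeff (mon A₁ 1) ≠ 0) (g2 : Low p q (p * A₁ + q) g)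
      (g3 : ∀ d ∈ g.support, d 1 = 0 → p * A₁ + q < p * d 0)
      (h1 : h.coeff (mon A₂ 0) ≠ 0) (h2 : Low p q (p * A₂) h)
      (hN : 1 ≤ p * (B * A₁ + A₂) + q * B) :
      RV Λ k none (g ^ B * h) p q
        (some (g.coeff (mon A₁ 1) ^ B * h.coeff (mon A₂ 0), B * A₁ + A₂, B, 0, 1))
  | fin2 (k k' : Kd) (G : P2) (p q A B : ℕ) (hp : 1 ≤ p) (hB : 1 ≤ B)
      (h1 : G.coeff (mon A B) ≠ 0) (h2 : Low p q (p * A + q * B) G)
      (h3 : ∀ d ∈ G.support, B ≤ d 1) (hN : 1 ≤ p * A + q * B) :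
      RV Λ k k' G p q (some (G.coeff (mon A B), A, B, 0, 1))
  | step (k k' : Kd) (G : P2) (p q p' q' aL bR : ℕ) (I : Polynomial ℂ) (hp : 1 ≤ p)
      (hpq : q * p' < q' * p) (he : IsEdge G p' q' aL bR I)
      (h1 : Low p q (p * aL + q * (bR + p' * I.natDegree)) G)
      (hN : 1 ≤ p * aL + q * (bR + p' * I.natDegree))
      (h2 : Rt Λ k k' aL (bR + p' * I.natDegree) p' q')
      (h3 : ∀ lam : ℂ, lam ≠ 0 → I.eval (lam ^ p') = 0 →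
        RV Λ (k.comb k' p' q') none (chart p' q' lam G) 1 0 none)
      (h4 : RV Λ k k' G p' q' none) :
      RV Λ k k' G p q (some (I.leadingCoeff, aL, bR + p' * I.natDegree, p', q'))
  | close (k k' : Kd) (G : P2) (p q : ℕ) (c : ℂ) (A B p' q' : ℕ)
      (h1 : RV Λ k k' G p q (some (c, A, B, p', q'))) (h2 : ClV Λ k k' p q A B p' q') :
      RV Λ k k' G p q none
  | coord (k : Kd) (G : P2) (p q : ℕ) (o : Option (ℂ × ℕ × ℕ × ℕ × ℕ)) (ψ : Polynomial ℂ)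
      (hψ : ∀ j ∈ ψ.support, q < p * j) (h : RV Λ k none (shift ψ G) p q o) :
      RV Λ k none G p q o

/-- `Pt7 Λ k k' F`: `F`, `F(0) = 0`, is resolved at the origin with exponents in `Λ`, where `k`, `k'`
are the kinds of the axes `s = 0`, `w = 0` -/
inductive Pt7 (Λ : Set ℚ) : Kd → Kd → P2 → Prop
  | edge (k k' : Kd) (F : P2) (p q aL bR : ℕ) (I : Polynomial ℂ) (he : IsEdge F p q aL bR I)
      (h1 : Rt Λ k k' aL (bR + p * I.natDegree) p q)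
      (h2 : ∀ lam : ℂ, lam ≠ 0 → I.eval (lam ^ p) = 0 →
        RV Λ (k.comb k' p q) none (chart p q lam F) 1 0 none)
      (h3 : RV Λ k k' F p q none) (h4 : RV Λ k' k (swp F) q p none) : Pt7 Λ k k' F
  | two (k k' : Kd) (F : P2) (A B : ℕ) (c : ℂ) (p' q' p'' q'' : ℕ) (hA : 1 ≤ A) (hB : 1 ≤ B)
      (h1 : Above 1 1 (A + B) (F - C c * X 0 ^ A * X 1 ^ B))
      (h2 : RV Λ k k' F 1 1 (some (c, A, B, p', q')))
      (h3 : RV Λ k' k (swp F) 1 1 (some (c, B, A, q'', p'')))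
      (h4 : ClV' Λ k k' p'' q'' A B p' q') : Pt7 Λ k k' F
  | one (k : Kd) (g h : P2) (B : ℕ) (hB : 1 ≤ B) (g0 : g.coeff (mon 0 0) = 0)
      (g1 : g.coeff (mon 0 1) ≠ 0) (h1 : h.coeff (mon 0 0) ≠ 0)
      (h2 : B = 1 ∨ ((1 : ℚ) / (B : ℚ)) ∈ Λ) : Pt7 Λ k none (g ^ B * h)
  | axis (k k' : Kd) (F : P2) (B : ℕ) (hB : 1 ≤ B) (h1 : F.coeff (mon 0 B) ≠ 0)
      (h2 : ∀ d ∈ F.support, B ≤ d 1) (h3 : Rt Λ k k' 0 B 0 1) : Pt7 Λ k k' F
  | ray (k : Kd) (F : P2) (h1 : ∀ d ∈ F.support, 1 ≤ d 0) (h2 : RV Λ k none F 1 0 none) :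
      Pt7 Λ k none F
  | coord (k : Kd) (F : P2) (ψ : Polynomial ℂ) (h0 : ψ.coeff 0 = 0)
      (h : Pt7 Λ k none (shift ψ F)) : Pt7 Λ k none F
  | swap (k k' : Kd) (F : P2) (h : Pt7 Λ k' k (swp F)) : Pt7 Λ k k' F

/-! ## Sequences and sources -/

/-- exponential sequences of the kind `k` -/
def EK (k : Kd) (κ : ℕ → K) : Prop := ESeq {r | k.fs = false ∧ r = k.r} κ

/-- a source: families `c(τ) t^i + …` with weights, and a tail -/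
structure Src where
  ts : List Fam
  b : ℕ → K

/-- mass identity, families and tail are exponential sequences of the kind `k` -/
def Src.Ok (P : HodgeMeasure) (s : Src) (k : Kd) : Prop :=
  (∀ t ∈ s.ts, t.Good ∧ EK k t.κ) ∧ EK k s.b ∧
    ∀ m, s.b m + ∑ j ∈ Finset.Icc 1 m, (s.ts.map fun t => t.κ j * famV P t).sum = s.b 0

/-- the arcs `t y` -/
noncomputable def hsrc : Src := ⟨[haar 1], fun m => xq ^ m⟩

/-- a source of the kind `k`; for a free axis only `hsrc` -/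
def Src.Is (P : HodgeMeasure) (s : Src) (k : Kd) : Prop :=
  s.Ok P k ∧ (k = none → s = hsrc) ∧ 0 < k.r

/-! ## Volumes; the leading coefficient `a` of `s = a t^k` is visible for `Q` -/

/-- `c t^k + t^{k+1} w` -/
noncomputable def arcE (c : ℂ) (k : ℕ) (w : PowerSeries ℂ) : PowerSeries ℂ :=
  PowerSeries.C c * PowerSeries.X ^ k + PowerSeries.X ^ (k + 1) * w

section

variable {E : Type}

/-- `((p, a, τ), w)`, `a ≠ 0`, `τ ∈ S`, `G(a t^k, u(τ) t^l + t^{l+1} w)` has order `≥ m`, and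
`(p, a, coefficient m) ∈ Q` -/
def ES (t : Fam) (G : P2) (Q : Set ((E ⊕ Unit) ⊕ Unit → ℂ)) (k l m : ℕ) :
    Set (((E ⊕ Unit) ⊕ t.σ → ℂ) × (Unit → PowerSeries ℂ)) :=
  {z | z.1 (Sum.inl (Sum.inr ())) ≠ 0 ∧ (fun s => z.1 (Sum.inr s)) ∈ t.S ∧
    Lead Q m (fun e => z.1 (Sum.inl e)) (ev G k (z.1 (Sum.inl (Sum.inr ())))
      (arcE (eval (fun s => z.1 (Sum.inr s)) t.u) l (z.2 ())))}

noncomputable def e2 (P : HodgeMeasure) [Finite E] (t : Fam) (G : P2)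
    (Q : Set ((E ⊕ Unit) ⊕ Unit → ℂ)) (k l m : ℕ) : K :=
  haveI := t.fin
  vol P.rat xq (ES t G Q k l m)

/-- the arcs `(a t^k, 0)` -/
noncomputable def e0 (P : HodgeMeasure) [Finite E] (G : P2) (Q : Set ((E ⊕ Unit) ⊕ Unit → ℂ))
    (k m : ℕ) : K :=
  P.rat.val {z : E ⊕ Unit → ℂ | z (Sum.inr ()) ≠ 0 ∧ Lead Q m z (ev G k (z (Sum.inr ())) 0)}

/-- `s = a t^k`, `w` of order `≥ L` from the source -/
noncomputable def vS (P : HodgeMeasure) [Finite E] (s : Src) (G : P2)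
    (Q : Set ((E ⊕ Unit) ⊕ Unit → ℂ)) (k L m : ℕ) : K :=
  ∑ l ∈ Finset.Ico L (L + m), (s.ts.map fun t => t.κ l * e2 P t G Q k l m).sum +
    s.b (L + m - 1) * e0 P G Q k m

/-- `((p, a), w)`, `a ≠ 0`, `ord w ≥ L`, `G(a t^k, w)` has order `≥ m`, `(p, a, coefficient m) ∈ Q` -/
def NS7 (G : P2) (Q : Set ((E ⊕ Unit) ⊕ Unit → ℂ)) (k L m : ℕ) :
    Set ((E ⊕ Unit → ℂ) × (Unit → PowerSeries ℂ)) :=
  {z | z.1 (Sum.inr ()) ≠ 0 ∧ (∀ j < L, PowerSeries.coeff j (z.2 ()) = 0) ∧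
    Lead Q m z.1 (ev G k (z.1 (Sum.inr ())) (z.2 ()))}

noncomputable def vN7 (P : HodgeMeasure) [Finite E] (G : P2) (Q : Set ((E ⊕ Unit) ⊕ Unit → ℂ))
    (k L m : ℕ) : K :=
  vol P.rat xq (NS7 G Q k L m)

/-! Classes -/

/-- the class of `{(p, a) : a ≠ 0, (p, a, c a^A) ∈ Q}` -/
noncomputable def c1a (P : HodgeMeasure) [Finite E] (c : ℂ) (A : ℕ)
    (Q : Set ((E ⊕ Unit) ⊕ Unit → ℂ)) : K :=
  P.rat.val {z : E ⊕ Unit → ℂ | z (Sum.inr ()) ≠ 0 ∧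
    (Sum.elim z fun _ => c * z (Sum.inr ()) ^ A) ∈ Q}

/-- the class of `{(p, a, τ) : a ≠ 0, τ ∈ S, (p, a, g(a, u(τ))) ∈ Q}` -/
noncomputable def c2a (P : HodgeMeasure) [Finite E] (t : Fam) (g : P2)
    (Q : Set ((E ⊕ Unit) ⊕ Unit → ℂ)) : K :=
  haveI := t.fin
  P.rat.val {z : (E ⊕ Unit) ⊕ t.σ → ℂ | z (Sum.inl (Sum.inr ())) ≠ 0 ∧
    (fun s => z (Sum.inr s)) ∈ t.S ∧ (Sum.elim (fun e => z (Sum.inl e)) fun _ =>
      eval ![z (Sum.inl (Sum.inr ())), eval (fun s => z (Sum.inr s)) t.u] g) ∈ Q}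

/-- the class of `{(p, τ) : τ ∈ S, (p, v(τ), u(τ)) ∈ Q}` -/
noncomputable def fcla (P : HodgeMeasure) [Finite E] (t : Fam2)
    (Q : Set ((E ⊕ Unit) ⊕ Unit → ℂ)) : K :=
  haveI := t.fin
  P.rat.val {z : E ⊕ t.σ → ℂ | (fun s => z (Sum.inr s)) ∈ t.S ∧
    (Sum.elim (Sum.elim (fun e => z (Sum.inl e)) fun _ => eval (fun s => z (Sum.inr s)) t.v)
      fun _ => eval (fun s => z (Sum.inr s)) t.u) ∈ Q}

/-! Parameter sets -/

/-- `{(p, τ, c; r) : τ ∈ S, u(τ) = lam c^q, (p, c^p, r) ∈ Q}` -/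
def pull (t : Fam) (p q : ℕ) (lam : ℂ) (Q : Set ((E ⊕ Unit) ⊕ Unit → ℂ)) :
    Set (((E ⊕ t.σ) ⊕ Unit) ⊕ Unit → ℂ) :=
  {z | (fun s => z (Sum.inl (Sum.inl (Sum.inr s)))) ∈ t.S ∧
    eval (fun s => z (Sum.inl (Sum.inl (Sum.inr s)))) t.u = lam * z (Sum.inl (Sum.inr ())) ^ q ∧
    (Sum.elim (Sum.elim (fun e => z (Sum.inl (Sum.inl (Sum.inl e))))
      fun _ => z (Sum.inl (Sum.inr ())) ^ p) fun _ => z (Sum.inr ())) ∈ Q}

/-- `{(p, τ, a; r) : τ ∈ S, u(τ) = a, (p, r) ∈ Q}` -/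
def tie (t : Fam) (Q : Set (E ⊕ Unit → ℂ)) : Set (((E ⊕ t.σ) ⊕ Unit) ⊕ Unit → ℂ) :=
  {z | (fun s => z (Sum.inl (Sum.inl (Sum.inr s)))) ∈ t.S ∧
    eval (fun s => z (Sum.inl (Sum.inl (Sum.inr s)))) t.u = z (Sum.inl (Sum.inr ())) ∧
    (Sum.elim (fun e => z (Sum.inl (Sum.inl (Sum.inl e)))) fun _ => z (Sum.inr ())) ∈ Q}

/-- `{(p, a; r) : (p, a) ∈ R, r ≠ 0}` -/
def full (R : Set (E ⊕ Unit → ℂ)) : Set ((E ⊕ Unit) ⊕ Unit → ℂ) :=
  {z | (fun e => z (Sum.inl e)) ∈ R ∧ z (Sum.inr ()) ≠ 0}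

end

/-- a point where `s^A w^B` is the leading term -/
def Stmt_CN7 : Prop :=
  ∀ (P : HodgeMeasure) (t : Fam) (G : P2) (A B k l : ℕ), t.Good → 1 ≤ k →
    G.coeff (mon A B) ≠ 0 →
    (∀ d ∈ G.support, d ≠ mon A B → A * k + B * l < d 0 * k + d 1 * l) →
    ∀ (E : Type) [Finite E] (Q : Set ((E ⊕ Unit) ⊕ Unit → ℂ)), QU Q → ∀ m : ℕ,
      e2 P t G Q k l m = if m = A * k + B * l then
        c2a P t (C (G.coeff (mon A B)) * X 0 ^ A * X 1 ^ B) Q else 0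

/-- the arcs `(a t^k, 0)` -/
def Stmt_ZR7 : Prop :=
  ∀ (P : HodgeMeasure) (G : P2) (k : ℕ), 1 ≤ k →
    ∀ (E : Type) [Finite E] (Q : Set ((E ⊕ Unit) ⊕ Unit → ℂ)), QU Q → ∀ m : ℕ,
      ((∀ d ∈ G.support, 1 ≤ d 1) → e0 P G Q k m = 0) ∧
      ∀ A : ℕ, G.coeff (mon A 0) ≠ 0 → (∀ d ∈ G.support, d 1 = 0 → A ≤ d 0) →
        e0 P G Q k m = if m = A * k then c1a P (G.coeff (mon A 0)) A Q else 0

/-- a point of a ray which belongs to an edge; `ρ R` is a root of `R` -/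
def Stmt_RY7 : Prop :=
  ∀ (P : HodgeMeasure) (t : Fam) (G : P2) (p q aL bR : ℕ) (I : Polynomial ℂ) (ρ : ℂ → ℂ),
    t.Good → IsEdge G p q aL bR I → (∀ R, ρ R ^ p = R) →
    ∀ (E : Type) [Finite E] (Q : Set ((E ⊕ Unit) ⊕ Unit → ℂ)), QU Q → ∀ k m : ℕ, 1 ≤ k →
      haveI := t.fin
      e2 P t G Q (p * k) (q * k) m = (if m = edgeN p q aL bR I * k then
        c2a P t (edgePart p q aL bR I) Q else 0) +
        ∑ R ∈ I.roots.toFinset,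
          RatFunc.X * vN7 P (chart p q (ρ R) G) (pull t p q (ρ R) Q) k 1 m

/-- the same points, classes: the curve `edgePart = 0` -/
def Stmt_RC7 : Prop :=
  ∀ (P : HodgeMeasure) (t : Fam) (p q aL bR : ℕ) (I : Polynomial ℂ) (ρ : ℂ → ℂ),
    t.Good → 1 ≤ p → 1 ≤ q → p.Coprime q → I ≠ 0 → I.coeff 0 ≠ 0 → (∀ R, ρ R ^ p = R) →
    ∀ (E : Type) [Finite E] (R₀ : Set (E ⊕ Unit → ℂ)), Constructible R₀ →
      (∀ z ∈ R₀, z (Sum.inr ()) ≠ 0) →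
      haveI := t.fin
      P.rat.val R₀ * famV P t = c2a P t (edgePart p q aL bR I) (full R₀) +
        ∑ R ∈ I.roots.toFinset, P.rat.val {z : (E ⊕ t.σ) ⊕ Unit → ℂ |
          (fun s => z (Sum.inl (Sum.inr s))) ∈ t.S ∧ z (Sum.inr ()) ≠ 0 ∧
          eval (fun s => z (Sum.inl (Sum.inr s))) t.u = ρ R * z (Sum.inr ()) ^ q ∧
          (Sum.elim (fun e => z (Sum.inl (Sum.inl e))) fun _ => z (Sum.inr ()) ^ p) ∈ R₀}

/-- last region, `B ≥ 1`, free axis: change of variables `w ↦ g(a t^k, w)` -/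
def Stmt_VF7 : Prop :=
  ∀ (P : HodgeMeasure) (g h : P2) (p q A₁ A₂ B : ℕ), 1 ≤ p → 1 ≤ B → g.coeff (mon A₁ 1) ≠ 0 →
    Low p q (p * A₁ + q) g → (∀ d ∈ g.support, d 1 = 0 → p * A₁ + q < p * d 0) →
    h.coeff (mon A₂ 0) ≠ 0 → Low p q (p * A₂) h →
    ∀ (E : Type) [Finite E] (Q : Set ((E ⊕ Unit) ⊕ Unit → ℂ)), QU Q → ∀ k m : ℕ, 1 ≤ k →
      vN7 P (g ^ B * h) Q k (q * k / p + 1) m =
        ∑ l ∈ Finset.Ioc (q * k / p) (q * k / p + m),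
          if m = (B * A₁ + A₂) * k + B * l then
            xq ^ (l + 1) * c2a P (haar 1) (C (g.coeff (mon A₁ 1) ^ B * h.coeff (mon A₂ 0)) *
              X 0 ^ (B * A₁ + A₂) * X 1 ^ B) Q else 0

/-- coordinate changes -/
def Stmt_SH7 : Prop :=
  ∀ (P : HodgeMeasure) (G : P2) (k L : ℕ) (ψ : Polynomial ℂ), (∀ j ∈ ψ.support, L ≤ k * j) →
    ∀ (E : Type) [Finite E] (Q : Set ((E ⊕ Unit) ⊕ Unit → ℂ)), QU Q → ∀ m : ℕ,
      vN7 P (shift ψ G) Q k L m = vN7 P G Q k L m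

/-- the free axis as a source -/
def Stmt_HS7 : Prop :=
  ∀ (P : HodgeMeasure) (G : P2) (E : Type) [Finite E] (Q : Set ((E ⊕ Unit) ⊕ Unit → ℂ)),
    QU Q → ∀ k L m : ℕ, 1 ≤ k → 1 ≤ L → vS P hsrc G Q k L m = RatFunc.X * vN7 P G Q k L m

/-- the end of the sum in `vS` is arbitrary -/
def Stmt_ST7 : Prop :=
  ∀ (P : HodgeMeasure) (s : Src) (k₀ : Kd), s.Ok P k₀ →
    ∀ (G : P2) (E : Type) [Finite E] (Q : Set ((E ⊕ Unit) ⊕ Unit → ℂ)), QU Q →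
      ∀ k L M m : ℕ, 1 ≤ k → 1 ≤ L → m ≤ M → L ≤ M + 1 →
        ∑ l ∈ Finset.Ico L (M + 1), (s.ts.map fun t => t.κ l * e2 P t G Q k l m).sum +
          s.b M * e0 P G Q k m = vS P s G Q k L m

/-! ## Two sources -/

section

variable {E : Type}

/-- `((p, τ, τ'), (x, y))` with `G(u t^k + t^{k+1} x, u' t^l + t^{l+1} y)` of order `≥ m` and
`(p, coefficient m) ∈ Q` -/
def XS (t t' : Fam) (G : P2) (Q : Set (E ⊕ Unit → ℂ)) (k l m : ℕ) :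
    Set ((E ⊕ (t.σ ⊕ t'.σ) → ℂ) × (Fin 2 → PowerSeries ℂ)) :=
  {z | (fun s => z.1 (Sum.inr (Sum.inl s))) ∈ t.S ∧ (fun s => z.1 (Sum.inr (Sum.inr s))) ∈ t'.S ∧
    Lead Q m (fun e => z.1 (Sum.inl e)) (aeval ![
      arcE (eval (fun s => z.1 (Sum.inr (Sum.inl s))) t.u) k (z.2 0),
      arcE (eval (fun s => z.1 (Sum.inr (Sum.inr s))) t'.u) l (z.2 1)] G)}

noncomputable def x2 (P : HodgeMeasure) [Finite E] (t t' : Fam) (G : P2)
    (Q : Set (E ⊕ Unit → ℂ)) (k l m : ℕ) : K :=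
  haveI := t.fin
  haveI := t'.fin
  vol P.rat xq (XS t t' G Q k l m)

/-- `((p, τ), x)` with `G(u t^k + t^{k+1} x, 0)` of order `≥ m` and `(p, coefficient m) ∈ Q` -/
def YS (t : Fam) (G : P2) (Q : Set (E ⊕ Unit → ℂ)) (k m : ℕ) :
    Set ((E ⊕ t.σ → ℂ) × (Unit → PowerSeries ℂ)) :=
  {z | (fun s => z.1 (Sum.inr s)) ∈ t.S ∧
    Lead Q m (fun e => z.1 (Sum.inl e)) (aeval ![
      arcE (eval (fun s => z.1 (Sum.inr s)) t.u) k (z.2 ()), 0] G)}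

noncomputable def y1 (P : HodgeMeasure) [Finite E] (t : Fam) (G : P2)
    (Q : Set (E ⊕ Unit → ℂ)) (k m : ℕ) : K :=
  haveI := t.fin
  vol P.rat xq (YS t G Q k m)

/-- pairs of arcs from two sources, exact leading coefficient; `G(0, 0) = 0`, `1 ≤ m ≤ M` -/
noncomputable def mu (P : HodgeMeasure) [Finite E] (s s' : Src) (G : P2)
    (Q : Set (E ⊕ Unit → ℂ)) (M m : ℕ) : K :=
  ∑ k ∈ Finset.Icc 1 M, ∑ l ∈ Finset.Icc 1 M, (s.ts.map fun t => (s'.ts.map fun t' =>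
      t.κ k * t'.κ l * x2 P t t' G Q k l m).sum).sum +
    ∑ k ∈ Finset.Icc 1 M, (s.ts.map fun t => t.κ k * s'.b M * y1 P t G Q k m).sum +
    ∑ l ∈ Finset.Icc 1 M, (s'.ts.map fun t' => s.b M * t'.κ l * y1 P t' (swp G) Q l m).sum

end

/-- reparametrisation: `s` becomes `a t^k` -/
def Stmt_RP7 : Prop :=
  ∀ (P : HodgeMeasure) (t t' : Fam) (G : P2), t.Good → t'.Good →
    ∀ (E : Type) [Finite E] (Q : Set (E ⊕ Unit → ℂ)), QU Q → ∀ k l m : ℕ, 1 ≤ k →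
      haveI := t.fin
      x2 P t t' G Q k l m = e2 P t' G (tie t Q) k l m ∧ y1 P t G Q k m = e0 P G (tie t Q) k m

/-- symmetry -/
def Stmt_SW7 : Prop :=
  ∀ (P : HodgeMeasure) (t t' : Fam) (G : P2), t.Good → t'.Good →
    ∀ (E : Type) [Finite E] (Q : Set (E ⊕ Unit → ℂ)), QU Q → ∀ k l m : ℕ,
      x2 P t t' G Q k l m = x2 P t' t (swp G) Q l k m

/-- coordinate changes in the free variable at the origin -/
def Stmt_CO7 : Prop :=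
  ∀ (P : HodgeMeasure) (s : Src) (k₀ : Kd), s.Ok P k₀ → ∀ (G : P2) (ψ : Polynomial ℂ),
    ψ.coeff 0 = 0 → G.coeff (mon 0 0) = 0 → ∀ (E : Type) [Finite E] (Q : Set (E ⊕ Unit → ℂ)),
      QU Q → ∀ M m : ℕ, 1 ≤ m → m ≤ M →
        mu P s hsrc (shift ψ G) Q M m = mu P s hsrc G Q M m

/-- the end of the sums in `mu` is arbitrary -/
def Stmt_MU7 : Prop :=
  ∀ (P : HodgeMeasure) (s s' : Src) (k₀ k₁ : Kd), s.Ok P k₀ → s'.Ok P k₁ → ∀ (G : P2),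
    G.coeff (mon 0 0) = 0 → ∀ (E : Type) [Finite E] (Q : Set (E ⊕ Unit → ℂ)),
      QU Q → ∀ M m : ℕ, 1 ≤ m → m ≤ M → mu P s s' G Q M m = mu P s s' G Q m m

/-! ## Sequences -/

/-- `∑ W(k) κ(l)` over the points of the open cone with `A k + B l = m` -/
noncomputable def coneW (W κ : ℕ → K) (p q A B p' q' m : ℕ) : K :=
  ∑ k ∈ Finset.range ((p + p') * m + 1), ∑ l ∈ Finset.range ((q + q') * m + 1),
    if q * k < p * l ∧ p' * l < q' * k ∧ A * k + B * l = m then W k * κ l else 0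

/-- shifts -/
def Stmt_SQ71 : Prop :=
  ∀ (Λ : Set ℚ) (κ : ℕ → K), ESeq Λ κ → ∃ (n : ℕ) (φ χ : Fin n → ℕ → K),
    (∀ i, ESeq Λ (φ i) ∧ ESeq Λ (χ i)) ∧ ∀ a b, κ (a + b) = ∑ i, φ i a * χ i b

/-- multisections -/
def Stmt_SQ72 : Prop :=
  (∀ (k : Kd) (κ : ℕ → K) (p : ℕ), 1 ≤ p → EK k κ →
    ESeq {r | k.fs = false ∧ r = p * k.r} fun m => κ (p * m)) ∧
  (∀ (Λ : Set ℚ) (k k' : Kd) (W b : ℕ → K) (p q A : ℕ), 1 ≤ p → 1 ≤ A → EK k W → EK k' b →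
    Rt Λ k k' A 0 p q → ESeq Λ fun m => if A ∣ m then W (m / A) * b (q * (m / A) / p) else 0) ∧
  (∀ (k k' : Kd) (W κ : ℕ → K) (p q : ℕ), 1 ≤ p → 1 ≤ q → EK k W → EK k' κ →
    EK (k.comb k' p q) fun j => W (p * j) * κ (q * j)) ∧
  ∀ (Λ : Set ℚ) (k k' : Kd) (W κ : ℕ → K) (A B p q : ℕ), 1 ≤ p → 1 ≤ q → EK k W → EK k' κ →
    1 ≤ p * A + q * B → Rt Λ k k' A B p q → ESeq Λ fun m => if p * A + q * B ∣ m then
      W (p * (m / (p * A + q * B))) * κ (q * (m / (p * A + q * B))) else 0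

/-- cones -/
def Stmt_SQ73 : Prop :=
  ∀ (Λ : Set ℚ) (k k' : Kd) (W κ : ℕ → K) (p q A B p' q' : ℕ), q * p' < q' * p →
    1 ≤ p * A + q * B → 1 ≤ p' * A + q' * B → EK k W → EK k' κ →
    Rt Λ k k' A B p q → Rt Λ k k' A B p' q' →
      ESeq Λ fun m => coneW W κ p q A B p' q' m

/-- cones up to the ray `(0, 1)` with `B = 1`, Haar part -/
def Stmt_SQ74 : Prop :=
  ∀ (Λ : Set ℚ) (k : Kd) (W : ℕ → K) (p q A : ℕ), Λ ⊆ Set.Ioi 0 → 1 ≤ p → 1 ≤ p * A + q →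
    0 < k.r → EK k W → Rt Λ k none A 1 p q →
      ∃ (a : K) (κ : ℕ → K), ESeq Λ κ ∧
        ∀ m, 1 ≤ m → coneW W (fun l => xq ^ l) p q A 1 0 1 m = a * xq ^ m + κ m

/-- splitting into sequences with one exponent -/
def Stmt_SQ75 : Prop :=
  ∀ (Λ : Set ℚ) (ts : List Fam) (P : HodgeMeasure) (b : ℕ → K), Λ ⊆ Set.Ioi 0 →
    (∀ t ∈ ts, t.Good ∧ ESeq Λ t.κ) → ESeq Λ b →
    (∀ m, b m + ∑ j ∈ Finset.Icc 1 m, (ts.map fun t => t.κ j * famV P t).sum = b 0) →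
    ∃ (n : ℕ) (ks : Fin n → Kd) (κs : Fin n → Fam → ℕ → K) (bs : Fin n → ℕ → K),
      (∀ i, ∃ (fs : Bool) (r : ℚ), ks i = some (fs, r) ∧ 0 < r ∧ (fs = true ∨ r ∈ Λ)) ∧
      (∀ i, Src.Ok P ⟨ts.map fun t => { t with κ := κs i t }, bs i⟩ (ks i)) ∧
      (∀ t ∈ ts, ∀ m, t.κ m = ∑ i, κs i t m) ∧ ∀ m, b m = ∑ i, bs i m

/-! ## The recursion -/

/-- the distribution over the region beyond the ray `(p, q)`, exact part -/
def RE7 (P : HodgeMeasure) (Λ : Set ℚ) (s : Src) (G : P2) (W : ℕ → K) (p q : ℕ)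
    (o : Option (ℂ × ℕ × ℕ × ℕ × ℕ)) : Prop :=
  ∃ (hs : List HT) (ts : List Fam2) (C₀ : ℕ),
    (∀ h ∈ hs, Constructible h.H ∧ ∀ τ ∈ h.H, eval τ h.v ≠ 0) ∧
    (∀ t ∈ ts, t.Ok {0}ᶜ true ∧ ESeq Λ t.κ) ∧
    ∀ (E : Type) [Finite E] (Q : Set ((E ⊕ Unit) ⊕ Unit → ℂ)), QU Q → ∀ m N : ℕ, 1 ≤ m →
      C₀ * m ≤ N →
      ∑ k ∈ Finset.Icc 1 N, W k * vS P s G Q k (q * k / p + 1) m =
        (match o with
          | none => 0
          | some (c, A, B, p', q') => (s.ts.map fun t => coneW W t.κ p q A B p' q' m *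
              c2a P t (C c * X 0 ^ A * X 1 ^ B) Q).sum) +
          ((hs.map HT.ex ++ ts).map fun t => t.κ m * fcla P t Q).sum

def Stmt_RE7 : Prop :=
  ∀ (P : HodgeMeasure) (Λ : Set ℚ) (k k' : Kd) (G : P2) (p q : ℕ)
    (o : Option (ℂ × ℕ × ℕ × ℕ × ℕ)) (s : Src) (W : ℕ → K), Λ ⊆ Set.Ioi 0 → 0 < k.r →
    RV Λ k k' G p q o → s.Is P k' → EK k W → RE7 P Λ s G W p q o

/-- all levels of a region: the arcs with `G = 0` have volume zero -/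
def PK7 (P : HodgeMeasure) (φ : K →+* ℝ) (s : Src) (G : P2) (p q : ℕ) : Prop :=
  ∀ (E : Type) [Finite E] (R : Set (E ⊕ Unit → ℂ)), Constructible R →
    (∀ z ∈ R, z (Sum.inr ()) ≠ 0) → ∃ C : ℝ, ∀ k : ℕ, 1 ≤ k →
      VRMAux.HB (fun m => φ (vS P s G (full R) k (q * k / p + 1) m))
        (φ (P.rat.val R) * φ (s.b (q * k / p))) C

def Stmt_PK7 : Prop :=
  ∀ (P : HodgeMeasure) (φ : K →+* ℝ) (Λ : Set ℚ) (k k' : Kd) (G : P2) (p q : ℕ)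
    (o : Option (ℂ × ℕ × ℕ × ℕ × ℕ)) (s : Src), 1 < φ RatFunc.X →
    RV Λ k k' G p q o → s.Is P k' → PK7 P φ s G p q

/-! ## The origin -/

/-- exact part -/
def Stmt_L07 : Prop :=
  ∀ (P : HodgeMeasure) (Λ : Set ℚ) (k k' : Kd) (F : P2) (s s' : Src), Λ ⊆ Set.Ioi 0 →
    Pt7 Λ k k' F → s.Is P k → s'.Is P k' →
    ∃ (α : K) (ts : List Fam), (∀ t ∈ ts, t.Good ∧ ESeq Λ t.κ) ∧
      ∀ (E : Type) [Finite E] (Q : Set (E ⊕ Unit → ℂ)), QU Q → ∀ m : ℕ, 1 ≤ m →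
        mu P s s' F Q m m = ((haar α :: ts).map fun t => t.κ m * fcl P t Q).sum

/-- mass -/
def Stmt_LM7 : Prop :=
  ∀ (P : HodgeMeasure) (φ : K →+* ℝ) (Λ : Set ℚ) (k k' : Kd) (F : P2) (s s' : Src),
    1 < φ RatFunc.X → Pt7 Λ k k' F → s.Is P k → s'.Is P k' →
      HasSum (fun m : ℕ => φ (if m = 0 then 0 else mu P s s' F QF m m)) (φ (s.b 0 * s'.b 0))

/-- an axis of exponents `W`, or finite support -/
def KdIn (W : Set ℚ) (k : Kd) : Prop :=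
  ∃ (fs : Bool) (r : ℚ), k = some (fs, r) ∧ 0 < r ∧ (fs = true ∨ r ∈ W)

/-- the trees of phase 6 and of `Defs7` -/
def Stmt_GD7 : Prop :=
  (∀ (Λ : Set ℚ) (F : P2), Good0 Λ F → Pt7 Λ none none F) ∧
  (∀ (Λ W : Set ℚ) (k : Kd) (G : P2), KdIn W k → eval 0 G = 0 → BG.GoodXF Λ W G →
    Pt7 Λ k none G) ∧
  (∀ (Λ W W' : Set ℚ) (k k' : Kd) (G : P2), KdIn W k → KdIn W' k' → BG.GoodXX Λ W W' G →
    Pt7 Λ k k' G)

/-! ## Distributions of pairs of arcs -/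

/-- a functional on sets of pairs of arcs with parameters; the last argument is the level up to
which the arcs are known -/
abbrev Meas : Type 1 :=
  ∀ (E : Type) [Finite E], Set ((E → ℂ) × (Fin 2 → PowerSeries ℂ)) → ℕ → K

/-- the distribution of `h` with respect to `μ` is given by the families `Gs` -/
def HasM (P : HodgeMeasure) (μ : Meas) (h : P2) (w : Bool) (Gs : List Fam2) : Prop :=
  (∀ G ∈ Gs, G.Ok Set.univ w) ∧
  ∀ (E : Type) [Finite E] (Q : Set (E ⊕ Bool → ℂ)), QOk Set.univ w Q → ∀ i M : ℕ,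
    (w = true → 1 ≤ i) → i ≤ M → μ E (SD h w Q i) M = (Gs.map fun G => G.κ i * G.cl P Q).sum

/-- Haar parts, and families at values `c` with exponents in `Λ c` -/
def RegM (P : HodgeMeasure) (μ : Meas) (h : P2) (Λ : ℂ → Set ℚ) : Prop :=
  ∃ (hs : List HT) (L : List (ℂ × Fam)) (L' : List (ℂ × (ℕ → K))),
    (∀ x ∈ L, ESeq (Λ x.1) x.2.κ) ∧ (∀ x ∈ L', ESeq (Λ x.1) x.2) ∧
    HasM P μ h true (hs.map HT.ex ++ L.map fun x => atv x.2 x.1) ∧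
    HasM P μ h false (hs.map HT.tl ++ L'.map fun x => ptv x.1 x.2)

/-- a family of pairs of starting points -/
structure HH where
  σ : Type
  fin : Finite σ
  H : Set (σ → ℂ)
  v : MvPolynomial σ ℂ
  v' : MvPolynomial σ ℂ
  lam : K

/-- the arcs `(v(z) + t x, v'(z) + t y)`, `z ∈ H` -/
noncomputable def muHH (P : HodgeMeasure) (h : HH) : Meas := fun E _ C _ =>
  haveI := h.fin
  h.lam * vol P.rat xq {z : (E ⊕ h.σ → ℂ) × (Fin 2 → PowerSeries ℂ) |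
    (fun s => z.1 (Sum.inr s)) ∈ h.H ∧ ((fun e => z.1 (Sum.inl e)),
      ![PowerSeries.C (eval (fun s => z.1 (Sum.inr s)) h.v) + PowerSeries.X * z.2 0,
        PowerSeries.C (eval (fun s => z.1 (Sum.inr s)) h.v') + PowerSeries.X * z.2 1]) ∈ C}

section

variable {E : Type}

/-- `(c + u(τ) t^k + …, v(z) + t y)` -/
noncomputable def vFH (P : HodgeMeasure) [Finite E] (c : ℂ) (t : Fam) (h : HT) (k : ℕ)
    (C : Set ((E → ℂ) × (Fin 2 → PowerSeries ℂ))) : K :=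
  haveI := t.fin
  haveI := h.fin
  vol P.rat xq {z : (E ⊕ (t.σ ⊕ h.σ) → ℂ) × (Fin 2 → PowerSeries ℂ) |
    (fun s => z.1 (Sum.inr (Sum.inl s))) ∈ t.S ∧ (fun s => z.1 (Sum.inr (Sum.inr s))) ∈ h.H ∧
    ((fun e => z.1 (Sum.inl e)), ![PowerSeries.C c +
      arcE (eval (fun s => z.1 (Sum.inr (Sum.inl s))) t.u) k (z.2 0),
      PowerSeries.C (eval (fun s => z.1 (Sum.inr (Sum.inr s))) h.v) +
        PowerSeries.X * z.2 1]) ∈ C}

/-- `(c, v(z) + t y)` -/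
noncomputable def vCH (P : HodgeMeasure) [Finite E] (c : ℂ) (h : HT)
    (C : Set ((E → ℂ) × (Fin 2 → PowerSeries ℂ))) : K :=
  haveI := h.fin
  vol P.rat xq {z : (E ⊕ h.σ → ℂ) × (Unit → PowerSeries ℂ) |
    (fun s => z.1 (Sum.inr s)) ∈ h.H ∧ ((fun e => z.1 (Sum.inl e)), ![PowerSeries.C c,
      PowerSeries.C (eval (fun s => z.1 (Sum.inr s)) h.v) + PowerSeries.X * z.2 ()]) ∈ C}

/-- `(c + u(τ) t^k + …, c' + u'(τ') t^l + …)` -/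
noncomputable def vFF (P : HodgeMeasure) [Finite E] (c : ℂ) (t : Fam) (c' : ℂ) (t' : Fam)
    (k l : ℕ) (C : Set ((E → ℂ) × (Fin 2 → PowerSeries ℂ))) : K :=
  haveI := t.fin
  haveI := t'.fin
  vol P.rat xq {z : (E ⊕ (t.σ ⊕ t'.σ) → ℂ) × (Fin 2 → PowerSeries ℂ) |
    (fun s => z.1 (Sum.inr (Sum.inl s))) ∈ t.S ∧ (fun s => z.1 (Sum.inr (Sum.inr s))) ∈ t'.S ∧
    ((fun e => z.1 (Sum.inl e)), ![PowerSeries.C c +
      arcE (eval (fun s => z.1 (Sum.inr (Sum.inl s))) t.u) k (z.2 0), PowerSeries.C c' +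
      arcE (eval (fun s => z.1 (Sum.inr (Sum.inr s))) t'.u) l (z.2 1)]) ∈ C}

/-- `(c + u(τ) t^k + …, c')` -/
noncomputable def vFC (P : HodgeMeasure) [Finite E] (c : ℂ) (t : Fam) (c' : ℂ) (k : ℕ)
    (C : Set ((E → ℂ) × (Fin 2 → PowerSeries ℂ))) : K :=
  haveI := t.fin
  vol P.rat xq {z : (E ⊕ t.σ → ℂ) × (Unit → PowerSeries ℂ) |
    (fun s => z.1 (Sum.inr s)) ∈ t.S ∧ ((fun e => z.1 (Sum.inl e)), ![PowerSeries.C c +
      arcE (eval (fun s => z.1 (Sum.inr s)) t.u) k (z.2 ()), PowerSeries.C c']) ∈ C}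

/-- exchange of the two arcs -/
def swC (C : Set ((E → ℂ) × (Fin 2 → PowerSeries ℂ))) :
    Set ((E → ℂ) × (Fin 2 → PowerSeries ℂ)) := {z | (z.1, ![z.2 1, z.2 0]) ∈ C}

end

/-- the arcs `(c + α, v(z) + t y)`, `α` from the source `s`, `z ∈ H` -/
noncomputable def muFH (P : HodgeMeasure) (c : ℂ) (s : Src) (h : HT) : Meas := fun _ _ C M =>
  h.lam * (∑ k ∈ Finset.Icc 1 M, (s.ts.map fun t => t.κ k * vFH P c t h k C).sum +
    s.b M * vCH P c h C)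

/-- the arcs `(c + α, c' + β)`, `α`, `β` from the sources `s`, `s'` -/
noncomputable def muFF (P : HodgeMeasure) (c : ℂ) (s : Src) (c' : ℂ) (s' : Src) : Meas :=
  fun E _ C M =>
  ∑ k ∈ Finset.Icc 1 M, ∑ l ∈ Finset.Icc 1 M, (s.ts.map fun t => (s'.ts.map fun t' =>
      t.κ k * t'.κ l * vFF P c t c' t' k l C).sum).sum +
    ∑ k ∈ Finset.Icc 1 M, (s.ts.map fun t => t.κ k * s'.b M * vFC P c t c' k C).sum +
    ∑ l ∈ Finset.Icc 1 M, (s'.ts.map fun t' => s.b M * t'.κ l * vFC P c' t' c l (swC C)).sum +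
    s.b M * s'.b M * P.rat.val {p : E → ℂ | (p, ![PowerSeries.C c, PowerSeries.C c']) ∈ C}

/-- exchange of the two arcs -/
def swM (μ : Meas) : Meas := fun E _ C M => μ E (swC C) M

section

variable {E : Type}

/-- `f(x)` replaced by the arcs of a family -/
noncomputable def vTA (P : HodgeMeasure) {κ : Type} [Fintype κ] [Finite E] (G : Fam2) (w : Bool)
    (i : ℕ) (C : Set ((E → ℂ) × (Unit ⊕ κ → PowerSeries ℂ))) : K :=
  haveI := G.fin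
  vol P.rat xq {z : (E ⊕ G.σ → ℂ) × (Unit ⊕ κ → PowerSeries ℂ) | (fun s => z.1 (Sum.inr s)) ∈ G.S ∧
    ((fun e => z.1 (Sum.inl e)), Sum.elim (fun _ : Unit =>
      PowerSeries.C (eval (fun s => z.1 (Sum.inr s)) G.v) + if w then
        arcE (eval (fun s => z.1 (Sum.inr s)) G.u) i (z.2 (Sum.inl ())) else 0)
      fun a => z.2 (Sum.inr a)) ∈ C}

end

/-- pairs of Haar parts -/
noncomputable def pair (h h' : HT) : HH where
  σ := h.σ ⊕ h'.σ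
  fin := haveI := h.fin; haveI := h'.fin; inferInstance
  H := {z | (fun s => z (Sum.inl s)) ∈ h.H ∧ (fun s => z (Sum.inr s)) ∈ h'.H}
  v := rename Sum.inl h.v
  v' := rename Sum.inr h'.v
  lam := h.lam * h'.lam

/-- transfer to plane arcs, one polynomial -/
def Stmt_TA7 : Prop :=
  ∀ (P : HodgeMeasure) (ι : Type) [Fintype ι] (f : MvPolynomial ι ℂ) (w : Bool)
    (Gs : List Fam2), HasD P f Set.univ w Gs →
    ∀ (E κ : Type) [Finite E] [Fintype κ]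
      (C : Set ((E → ℂ) × (Unit ⊕ κ → PowerSeries ℂ))) (n : ℕ), IsCyl (fun _ => n) C →
      ∀ i : ℕ, (w = true → 1 ≤ i) → (w = false → n ≤ i + 1) →
        vol P.rat xq {z : (E → ℂ) × (ι ⊕ κ → PowerSeries ℂ) |
          cut w i (aeval (fun a => z.2 (Sum.inl a)) f) ∧
          (w = true → PowerSeries.coeff i (aeval (fun a => z.2 (Sum.inl a)) f) ≠ 0) ∧
          (z.1, Sum.elim (fun _ : Unit => aeval (fun a => z.2 (Sum.inl a)) f)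
            fun a => z.2 (Sum.inr a)) ∈ C} =
        (Gs.map fun G => G.κ i * vTA P G w i C).sum

/-- a Haar part: exact terms and tail together give all arcs `v(z) + t y` -/
def Stmt_RH7 : Prop :=
  ∀ (P : HodgeMeasure) (h : HT), Constructible h.H →
    ∀ (E κ : Type) [Finite E] [Fintype κ]
      (C : Set ((E → ℂ) × (Unit ⊕ κ → PowerSeries ℂ))) (n M : ℕ), IsCyl (fun _ => n) C →
      n ≤ M + 1 →
      haveI := h.fin
      ∑ i ∈ Finset.Icc 1 M, h.ex.κ i * vTA P h.ex true i C + h.tl.κ M * vTA P h.tl false M C =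
      h.lam * vol P.rat xq {z : (E ⊕ h.σ → ℂ) × (Unit ⊕ κ → PowerSeries ℂ) |
        (fun s => z.1 (Sum.inr s)) ∈ h.H ∧ ((fun e => z.1 (Sum.inl e)),
          Sum.elim (fun _ : Unit => PowerSeries.C (eval (fun s => z.1 (Sum.inr s)) h.v) +
            PowerSeries.X * z.2 (Sum.inl ())) fun a => z.2 (Sum.inr a)) ∈ C}

/-- transfer to plane arcs, pairs -/
def Stmt_TR7 : Prop :=
  ∀ (P : HodgeMeasure) (ι κ : Type) [Fintype ι] [Fintype κ] (f : MvPolynomial ι ℂ)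
    (g : MvPolynomial κ ℂ) (hs hs' : List HT) (crit crit' : Finset ℂ) (ts ts' : ℂ → List Fam)
    (b b' : ℂ → ℕ → K), HasD P f Set.univ true (exF hs crit ts) →
    HasD P f Set.univ false (tlF hs crit b) → HasD P g Set.univ true (exF hs' crit' ts') →
    HasD P g Set.univ false (tlF hs' crit' b') →
    ∀ (E : Type) [Finite E] (C : Set ((E → ℂ) × (Fin 2 → PowerSeries ℂ))) (n M : ℕ),
      IsCyl (fun _ => n) C → n ≤ M + 1 →
      vol P.rat xq {z : (E → ℂ) × (ι ⊕ κ → PowerSeries ℂ) |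
        (z.1, ![aeval (fun a => z.2 (Sum.inl a)) f, aeval (fun a => z.2 (Sum.inr a)) g]) ∈ C} =
      (hs.map fun h => (hs'.map fun h' => muHH P (pair h h') E C M).sum).sum +
      (crit.toList.map fun c => (hs'.map fun h' => muFH P c ⟨ts c, b c⟩ h' E C M).sum).sum +
      (crit'.toList.map fun c' => (hs.map fun h =>
        swM (muFH P c' ⟨ts' c', b' c'⟩ h) E C M).sum).sum +
      (crit.toList.map fun c => (crit'.toList.map fun c' =>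
        muFF P c ⟨ts c, b c⟩ c' ⟨ts' c', b' c'⟩ E C M).sum).sum

/-- a point -/
def Stmt_PT7 : Prop :=
  ∀ (P : HodgeMeasure) (h : P2) (c c' : ℂ) (Λ : ℂ → Set ℚ) (k k' : Kd) (s s' : Src),
    (∀ d, Λ d ⊆ Set.Ioi 0) → Pt7 (Λ (eval ![c, c'] h)) k k' (BG.loc h ![c, c']) → s.Is P k →
    s'.Is P k' → RegM P (muFF P c s c' s') h Λ

/-- pairs of Haar parts, smooth points -/
def Stmt_HG7 : Prop :=
  ∀ (P : HodgeMeasure) (h : HH) (G : P2) (Λ : ℂ → Set ℚ), Constructible h.H →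
    (∀ z ∈ h.H, ∃ i, eval ![eval z h.v, eval z h.v'] (pderiv i G) ≠ 0) → RegM P (muHH P h) G Λ

/-- pairs of Haar parts, smooth points of a multiple component -/
def Stmt_HM7 : Prop :=
  ∀ (P : HodgeMeasure) (h : HH) (G g q : P2) (c : ℂ) (e : ℕ) (Λ : ℂ → Set ℚ), Constructible h.H →
    2 ≤ e → G = C c + g ^ e * q → (1 / (e : ℚ)) ∈ Λ c →
    (∀ z ∈ h.H, eval ![eval z h.v, eval z h.v'] g = 0 ∧ eval ![eval z h.v, eval z h.v'] q ≠ 0 ∧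
      ∃ i, eval ![eval z h.v, eval z h.v'] (pderiv i g) ≠ 0) → RegM P (muHH P h) G Λ

/-- a source and a Haar part, smooth points -/
def Stmt_FS7 : Prop :=
  ∀ (P : HodgeMeasure) (c : ℂ) (s : Src) (k : Kd) (h : HT) (G : P2) (Λ : ℂ → Set ℚ), s.Ok P k →
    Constructible h.H → (∀ z ∈ h.H, eval ![c, eval z h.v] (pderiv 1 G) ≠ 0) →
      RegM P (muFH P c s h) G Λ

/-- a source and a Haar part, generic points of an axis on which `G` is constant -/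
def Stmt_FM7 : Prop :=
  ∀ (P : HodgeMeasure) (c : ℂ) (s : Src) (k : Kd) (h : HT) (G q : P2) (d : ℂ) (m : ℕ)
    (Λ : ℂ → Set ℚ), s.Ok P k → Constructible h.H → 1 ≤ m →
    G = C d + (X 0 - C c) ^ m * q → (∀ z ∈ h.H, eval ![c, eval z h.v] q ≠ 0) →
    (k.fs = true ∨ k.r / (m : ℚ) ∈ Λ d) → RegM P (muFH P c s h) G Λ

/-- points -/
def Stmt_HP7 : Prop :=
  (∀ (P : HodgeMeasure) (h : HH) (c c' : ℂ), Constructible h.H →
    (∀ z ∈ h.H, eval z h.v = c ∧ eval z h.v' = c') →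
    ∀ (E : Type) [Finite E] (C : Set ((E → ℂ) × (Fin 2 → PowerSeries ℂ))) (n M : ℕ),
      IsCyl (fun _ => n) C → n ≤ M + 1 →
      haveI := h.fin
      muHH P h E C M = h.lam * P.rat.val h.H * muFF P c hsrc c' hsrc E C M) ∧
  ∀ (P : HodgeMeasure) (c : ℂ) (s : Src) (h : HT) (c' : ℂ), (∀ t ∈ s.ts, t.Good) →
    Constructible h.H → (∀ z ∈ h.H, eval z h.v = c') →
    ∀ (E : Type) [Finite E] (C : Set ((E → ℂ) × (Fin 2 → PowerSeries ℂ))) (n M : ℕ),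
      IsCyl (fun _ => n) C → n ≤ M + 1 →
      haveI := h.fin
      muFH P c s h E C M = h.lam * P.rat.val h.H * muFF P c s c' hsrc E C M

/-! ## Assembly -/

/-- algebra of distributions -/
def Stmt_RA7 : Prop :=
  ∀ (P : HodgeMeasure) (h : P2) (Λ : ℂ → Set ℚ),
    RegM P (fun _ _ _ _ => 0) h Λ ∧
    (∀ μ μ' : Meas, RegM P μ h Λ → RegM P μ' h Λ →
      RegM P (fun E _ C M => μ E C M + μ' E C M) h Λ) ∧
    (∀ (μ : Meas) (a : K), RegM P μ h Λ → RegM P (fun E _ C M => a * μ E C M) h Λ) ∧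
    (∀ μ μ' : Meas, (∀ (w : Bool) (E : Type) [Finite E] (Q : Set (E ⊕ Bool → ℂ)),
      QOk Set.univ w Q → ∀ i M : ℕ, (w = true → 1 ≤ i) → i ≤ M →
        μ E (SD h w Q i) M = μ' E (SD h w Q i) M) → RegM P μ h Λ → RegM P μ' h Λ) ∧
    (∀ μ : Meas, RegM P μ (swp h) Λ → RegM P (swM μ) h Λ) ∧
    ∀ (ι : Type) [Fintype ι] (F : MvPolynomial ι ℂ) (μ : Meas),
      (∀ (w : Bool) (E : Type) [Finite E] (Q : Set (E ⊕ Bool → ℂ)), QOk Set.univ w Q →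
        ∀ i : ℕ, (w = true → 1 ≤ i) → vol P.rat xq (SD F w Q i) = μ E (SD h w Q i) i) →
      RegM P μ h Λ → Reg P F Set.univ Λ

/-- a source with exponents in `W` -/
def Src.Mul (P : HodgeMeasure) (s : Src) (W : Set ℚ) : Prop :=
  W ⊆ Set.Ioi 0 ∧ (∀ t ∈ s.ts, t.Good ∧ ESeq W t.κ) ∧ ESeq W s.b ∧
    ∀ m, s.b m + ∑ j ∈ Finset.Icc 1 m, (s.ts.map fun t => t.κ j * famV P t).sum = s.b 0

/-- pairs of Haar parts -/
def Stmt_HH7 : Prop :=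
  ∀ (P : HodgeMeasure) (h : HH) (G : P2) (Λ : ℂ → Set ℚ), Constructible h.H →
    (∀ c, Λ c ⊆ Set.Ioi 0) → G.totalDegree ≠ 0 →
    (∀ (c : ℂ) (n : ℕ) (u : ℕ → P2), G = C c + ∏ j ∈ Finset.Icc 1 n, u j ^ j →
      Squarefree (∏ j ∈ Finset.Icc 1 n, u j) → ∀ x₀ : Fin 2 → ℂ, eval x₀ G = c →
      (∀ i, eval x₀ (pderiv i (∏ j ∈ Finset.Icc 1 n, u j)) = 0) →
        Good0 (Λ c) (BG.loc G x₀)) →
    (∀ (c : ℂ) (u q : P2) (e : ℕ), 2 ≤ e → (∃ x, eval x u = 0 ∧ eval x q ≠ 0) →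
      G - C c = u ^ e * q → (1 / (e : ℚ)) ∈ Λ c) → RegM P (muHH P h) G Λ

/-- a source and a Haar part -/
def Stmt_FH7 : Prop :=
  ∀ (P : HodgeMeasure) (c : ℂ) (s : Src) (W : Set ℚ) (h : HT) (G : P2) (Λ : ℂ → Set ℚ),
    s.Mul P W → Constructible h.H → (∀ d, Λ d ⊆ Set.Ioi 0) → G.totalDegree ≠ 0 →
    (∀ x₀ : Fin 2 → ℂ, x₀ 0 = c → eval x₀ (pderiv 1 G) = 0 →
      BG.GoodXF (Λ (eval x₀ G)) W (BG.loc G x₀)) →
    (∀ (x₀ : Fin 2 → ℂ) (m : ℕ), x₀ 0 = c → 1 ≤ m →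
      (∀ d ∈ (BG.loc G x₀).support, m ≤ d 0) → (BG.loc G x₀).coeff (mon m 0) ≠ 0 →
        ∀ r ∈ W, r / (m : ℚ) ∈ Λ (eval x₀ G)) → RegM P (muFH P c s h) G Λ

/-- two sources -/
def Stmt_FF7 : Prop :=
  ∀ (P : HodgeMeasure) (c : ℂ) (s : Src) (c' : ℂ) (s' : Src) (W W' : Set ℚ) (G : P2)
    (Λ : ℂ → Set ℚ), s.Mul P W → s'.Mul P W' → (∀ d, Λ d ⊆ Set.Ioi 0) →
    BG.GoodXX (Λ (eval ![c, c'] G)) W W' (BG.loc G ![c, c']) → RegM P (muFF P c s c' s') G Λ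

/-- the final statement of the volume part -/
def Stmt_GV7 : Prop :=
  ∀ (P : HodgeMeasure) (ι κ : Type) [Fintype ι] [Fintype κ] (f : MvPolynomial ι ℂ)
    (g : MvPolynomial κ ℂ) (Λ₁ Λ₂ : ℂ → Set ℚ) (G : P2) (Λ : ℂ → Set ℚ),
    (∀ c, Λ₁ c ⊆ Set.Ioi 0) → (∀ c, Λ₂ c ⊆ Set.Ioi 0) → (∀ c, Λ c ⊆ Set.Ioi 0) →
    Reg P f Set.univ Λ₁ → Reg P g Set.univ Λ₂ → G.totalDegree ≠ 0 →
    -- both axes free: singular points of the reduced curve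
    (∀ (c : ℂ) (n : ℕ) (u : ℕ → P2), G = C c + ∏ j ∈ Finset.Icc 1 n, u j ^ j →
      Squarefree (∏ j ∈ Finset.Icc 1 n, u j) → ∀ x₀ : Fin 2 → ℂ, eval x₀ G = c →
      (∀ i, eval x₀ (pderiv i (∏ j ∈ Finset.Icc 1 n, u j)) = 0) →
        Good0 (Λ c) (BG.loc G x₀)) →
    -- multiple components
    (∀ (c : ℂ) (u q : P2) (e : ℕ), 2 ≤ e → (∃ x, eval x u = 0 ∧ eval x q ≠ 0) →
      G - C c = u ^ e * q → (1 / (e : ℚ)) ∈ Λ c) →
    -- first axis fixed, second axis free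
    (∀ x₀ : Fin 2 → ℂ, eval x₀ (pderiv 1 G) = 0 →
      BG.GoodXF (Λ (eval x₀ G)) (Λ₁ (x₀ 0)) (BG.loc G x₀)) →
    -- first axis free, second axis fixed
    (∀ x₀ : Fin 2 → ℂ, eval x₀ (pderiv 0 G) = 0 →
      BG.GoodXF (Λ (eval x₀ G)) (Λ₂ (x₀ 1)) (swp (BG.loc G x₀))) →
    -- both axes fixed
    (∀ x₀ : Fin 2 → ℂ,
      BG.GoodXX (Λ (eval x₀ G)) (Λ₁ (x₀ 0)) (Λ₂ (x₀ 1)) (BG.loc G x₀)) →
    -- axes
    (∀ (x₀ : Fin 2 → ℂ) (m : ℕ), 1 ≤ m → (∀ d ∈ (BG.loc G x₀).support, m ≤ d 0) →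
      (BG.loc G x₀).coeff (mon m 0) ≠ 0 → ∀ r ∈ Λ₁ (x₀ 0), r / (m : ℚ) ∈ Λ (eval x₀ G)) →
    (∀ (x₀ : Fin 2 → ℂ) (m : ℕ), 1 ≤ m → (∀ d ∈ (BG.loc G x₀).support, m ≤ d 1) →
      (BG.loc G x₀).coeff (mon 0 m) ≠ 0 → ∀ r ∈ Λ₂ (x₀ 1), r / (m : ℚ) ∈ Λ (eval x₀ G)) →
    Reg P (BG.comp2 G f g) Set.univ Λ

end Pool.Agent.Mono.BV
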