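import Pool.Agent.Work.Monodromy.Defs8

/-!
# Phase 8: the smallest poles, interface (helper17)

`Monodromy8/BLUEPRINT8.md` contains the proofs.  Everything is in the namespace `Pool.Agent.Mono.SP`.
Block `X` : file `Pool/Agent/Work/Monodromy8/<X>.lean`, `theorem stmt_X : Stmt_X` (other `Stmt_Y` may
be hypotheses).  `n = Fintype.card ι`; `a / b` is an exponent `≥ (n-1)/2`.
-/

set_option autoImplicit false

namespace Pool.Agent.Mono.SP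

open MvPolynomial TS RO PC

/-! ## A : algebra -/

/-- rules -/
def Stmt_I08 : Prop :=
  (∀ a b : K, Int0 a → Int0 b → Int0 (a + b) ∧ Int0 (a * b)) ∧
  (∀ (N N' : ℕ) (a : K), N ≤ N' → Bnd N a → Bnd N' a) ∧
  (∀ (N : ℕ) (a b : K), Bnd N a → Bnd N b → Bnd N (a + b)) ∧
  (∀ (N N' : ℕ) (a b : K), Bnd N a → Bnd N' b → Bnd (N + N') (a * b)) ∧
  (∀ p : Polynomial ℤ, Bnd 0 (toRat p)) ∧
  ∀ (N k : ℕ) (a : K), Bnd (N + k) (xq ^ k * a) ↔ Bnd N a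

/-- volumes -/
def Stmt_VB8 : Prop :=
  ∀ (P : HodgeMeasure) (E ι : Type) [Finite E] [Fintype ι] (k : ι → ℕ)
    (C : Set ((E → ℂ) × (ι → PowerSeries ℂ))), IsCyl k C → Bnd (∑ i, k i) (vol P.rat xq C)

/-- exponents and the order of the poles at `u = 0` -/
def Stmt_AN8 : Prop :=
  ∀ (Λ : Set ℚ) (κ : ℕ → K) (a b : ℕ), 1 ≤ b → ESeq Λ κ → Bd a b κ →
    ESeq {r | r ∈ Λ ∧ r ≤ (a : ℚ) / (b : ℚ)} κ

/-- the topological zeta function is a limit -/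
def Stmt_DL8 : Prop :=
  ∀ (Z : PowerSeries K) (R : K), IsDL Z R → IsLim Z R ∧
    ∃ Λ : Set ℚ, Λ ⊆ Set.Ioi 0 ∧ ESeq Λ fun m => PowerSeries.coeff m Z

/-! ## V : volumes -/

/-- `y = q + t y'` -/
def Stmt_SHF8 : Prop :=
  ∀ (P : HodgeMeasure) (E ι : Type) [Finite E] [Fintype ι]
    (C : Set ((E → ℂ) × (ι → PowerSeries ℂ))) (n : ℕ), IsCyl (fun _ => n) C →
      vol P.rat xq C = xq ^ Fintype.card ι * vol P.rat xq {z : (E ⊕ ι → ℂ) × (ι → PowerSeries ℂ) |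
        ((fun e => z.1 (Sum.inl e)), fun b =>
          PowerSeries.C (z.1 (Sum.inr b)) + PowerSeries.X * z.2 b) ∈ C}

/-- `y_b = t^{L_b} y'_b` -/
def Stmt_SCL8 : Prop :=
  ∀ (P : HodgeMeasure) (E ι : Type) [Finite E] [Fintype ι]
    (C : Set ((E → ℂ) × (ι → PowerSeries ℂ))) (n : ℕ) (L : ι → ℕ), IsCyl (fun _ => n) C →
      vol P.rat xq {z : (E → ℂ) × (ι → PowerSeries ℂ) |
        (∀ b, ∀ j < L b, PowerSeries.coeff j (z.2 b) = 0) ∧ z ∈ C} =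
      xq ^ (∑ b, L b) * vol P.rat xq {z : (E → ℂ) × (ι → PowerSeries ℂ) |
        (z.1, fun b => PowerSeries.X ^ L b * z.2 b) ∈ C}

/-- smooth points -/
def Stmt_SMS8 : Prop :=
  ∀ (P : HodgeMeasure) (E ι : Type) [Finite E] [Fintype ι] [DecidableEq ι]
    (H : MvPolynomial (E ⊕ (Unit ⊕ ι)) ℂ) (Q : Set (E ⊕ Unit → ℂ)), QU Q → ∀ m : ℕ, 1 ≤ m →
      Bnd (m + Fintype.card ι) (vol P.rat xq {z : (E → ℂ) × (ι → PowerSeries ℂ) |
        z ∈ HS H Q m ∧ Sm H z.1 fun b => PowerSeries.coeff 0 (z.2 b)})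

/-- `M ≥ 2` variables: the volumes are `O(u^{-M m / 2})` (compare Segers) -/
def Stmt_SM8 : Prop :=
  ∀ (P : HodgeMeasure) (E ι : Type) [Finite E] [Fintype ι] [DecidableEq ι]
    (H : MvPolynomial (E ⊕ (Unit ⊕ ι)) ℂ) (Q : Set (E ⊕ Unit → ℂ)), QU Q →
    2 ≤ Fintype.card ι → ∀ m N : ℕ, Fintype.card ι * m ≤ 2 * N →
      Bnd (N + Fintype.card ι) (vol P.rat xq (HS H Q m))

/-- reparametrisation to `y_a = c t^k` -/
def Stmt_REP8 : Prop :=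
  ∀ (P : HodgeMeasure) (E ι : Type) [Finite E] [Fintype ι] [DecidableEq ι]
    (F : MvPolynomial (E ⊕ ι) ℂ) (Q : Set (E ⊕ Unit → ℂ)), QU Q →
    ∀ (a : ι) (L : ι → ℕ) (k m : ℕ), 1 ≤ k → L a ≤ k →
      vol P.rat xq {z : (E → ℂ) × (ι → PowerSeries ℂ) |
        (∀ b, ∀ j < L b, PowerSeries.coeff j (z.2 b) = 0) ∧
        (∀ j < k, PowerSeries.coeff j (z.2 a) = 0) ∧ PowerSeries.coeff k (z.2 a) ≠ 0 ∧
        Lead Q m z.1 (evF F z.1 z.2)} =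
      xq ^ (k + 1) * vol P.rat xq {z : (E ⊕ Unit → ℂ) × ({b : ι // b ≠ a} → PowerSeries ℂ) |
        z.1 (Sum.inr ()) ≠ 0 ∧
        (∀ b : {b : ι // b ≠ a}, ∀ j < L b, PowerSeries.coeff j (z.2 b) = 0) ∧
        Lead Q m (fun e => z.1 (Sum.inl e))
          (evF F (fun e => z.1 (Sum.inl e)) (ext1 a (z.1 (Sum.inr ())) k z.2))}

/-- all monomials of `F` have weight at least `D` in the variables `ι` -/
def HiW {E ι : Type} [Fintype ι] (w : ι → ℕ) (D : ℕ) (F : MvPolynomial (E ⊕ ι) ℂ) : Prop :=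
  ∀ d ∈ F.support, D ≤ ∑ b, w b * d (Sum.inr b)

/-- arcs of weighted order `κ` -/
def Stmt_WP8 : Prop :=
  ∀ (P : HodgeMeasure) (E ι : Type) [Finite E] [Fintype ι] [DecidableEq ι]
    (F : MvPolynomial (E ⊕ ι) ℂ) (w : ι → ℕ) (D : ℕ), (∀ b, 1 ≤ w b) → 1 ≤ D → HiW w D F →
    3 ≤ Fintype.card ι → ∀ Q : Set (E ⊕ Unit → ℂ), QU Q →
    ∀ (a : ι) (L : ι → ℕ) (κ k m : ℕ),
      (∀ b, w b * κ ≤ L b ∧ L b ≤ w b * (κ + 1) ∧ 1 ≤ L b) → L a ≤ k → k < w a * (κ + 1) →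
      let V := vol P.rat xq {z : (E → ℂ) × (ι → PowerSeries ℂ) |
        (∀ b, ∀ j < L b, PowerSeries.coeff j (z.2 b) = 0) ∧
        (∀ j < k, PowerSeries.coeff j (z.2 a) = 0) ∧ PowerSeries.coeff k (z.2 a) ≠ 0 ∧
        Lead Q m z.1 (evF F z.1 z.2)}
      (m < D * κ → V = 0) ∧ ∀ N : ℕ, D * κ ≤ m →
        Fintype.card ι * (m - D * κ) ≤ 2 * N + (m - D * κ) →
          Bnd ((∑ b, w b) * (κ + 1) + N + Fintype.card ι) V

/-- all arcs at the origin -/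
def Stmt_WB8 : Prop :=
  ∀ (P : HodgeMeasure) (E ι : Type) [Finite E] [Fintype ι] [DecidableEq ι]
    (F : MvPolynomial (E ⊕ ι) ℂ) (w : ι → ℕ) (D : ℕ), (∀ b, 1 ≤ w b) → 1 ≤ D → HiW w D F →
    3 ≤ Fintype.card ι → ∀ Q : Set (E ⊕ Unit → ℂ), QU Q → ∀ m N : ℕ,
      (∑ b, w b) * m ≤ D * N → Fintype.card ι * m ≤ 2 * N + m →
        Bnd (N + (∑ b, w b) + Fintype.card ι + 1) (vol P.rat xq
          {z : (E → ℂ) × (ι → PowerSeries ℂ) | (∀ b, PowerSeries.coeff 0 (z.2 b) = 0) ∧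
            Lead Q m z.1 (evF F z.1 z.2)})

/-- change of variables in families -/
def Stmt_CVF8 : Prop :=
  ∀ (P : HodgeMeasure) (E ι : Type) [Finite E] [Fintype ι] [DecidableEq ι]
    (φ : ι → MvPolynomial (ι ⊕ ι) ℂ) (S : Set (ι → ℂ)), Constructible S →
    (∀ p ∈ S, IsCo p fun a => sp p (φ a)) →
    ∀ (T : Set ((E → ℂ) × (ι → PowerSeries ℂ))) (n : ℕ), IsCyl (fun _ => n) T →
      vol P.rat xq {z : (E → ℂ) × (ι → PowerSeries ℂ) |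
        (fun a => PowerSeries.coeff 0 (z.2 a)) ∈ S ∧ z ∈ T} =
      vol P.rat xq {z : (E ⊕ ι → ℂ) × (ι → PowerSeries ℂ) |
        (fun a => z.1 (Sum.inr a)) ∈ S ∧ (∀ a, PowerSeries.coeff 0 (z.2 a) = 0) ∧
        ((fun e => z.1 (Sum.inl e)), fun a => evF (φ a) (fun b => z.1 (Sum.inr b)) z.2) ∈ T}

/-- chart zones are constructible -/
def Stmt_CZC8 : Prop :=
  ∀ (ι : Type) [Fintype ι] [DecidableEq ι] (f : MvPolynomial ι ℂ)
    (φ : ι → MvPolynomial (ι ⊕ ι) ℂ) (w : ι → ℕ) (D : ℕ), Constructible (CZ f φ w D)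

/-- the volumes over a chart zone -/
def Stmt_ZB8 : Prop :=
  ∀ (P : HodgeMeasure) (ι : Type) [Fintype ι] [DecidableEq ι] (f : MvPolynomial ι ℂ)
    (φ : ι → MvPolynomial (ι ⊕ ι) ℂ) (w : ι → ℕ) (D a b : ℕ), (∀ i, 1 ≤ w i) → 1 ≤ D →
    3 ≤ Fintype.card ι → 1 ≤ b → Fintype.card ι * b ≤ 2 * a + b → (∑ i, w i) * b ≤ D * a →
      ZB P f a b (CZ f φ w D)

/-- simple points -/
def Stmt_SQV8 : Prop :=
  ∀ (P : HodgeMeasure) (ι : Type) [Fintype ι] [DecidableEq ι] [Nonempty ι]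
    (f : MvPolynomial ι ℂ) (p : ι → ℂ) (r : ℚ), p ∈ Crit0 f → SQAt f p r →
    ∀ (E : Type) [Finite E] (Q : Set (E ⊕ Unit → ℂ)), QU Q →
      ESeq {1, r} fun m => vol P.rat xq (ZL f {p} Q m)

/-- smooth points of `f = 0` -/
def Stmt_SMZ8 : Prop :=
  ∀ (P : HodgeMeasure) (ι : Type) [Fintype ι] [DecidableEq ι] (f : MvPolynomial ι ℂ) (E : Type)
    [Finite E] (Q : Set (E ⊕ Unit → ℂ)), QU Q → ∃ α : K, ∀ m : ℕ, 1 ≤ m →
      vol P.rat xq (ZL f {x | eval x f = 0 ∧ ∃ a, eval x (pderiv a f) ≠ 0} Q m) = α * xq ^ m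

/-- simple points are isolated -/
def Stmt_ISO8 : Prop :=
  ∀ (ι : Type) [Fintype ι] [DecidableEq ι] (f : MvPolynomial ι ℂ) (p : ι → ℂ) (r : ℚ),
    (∀ a, eval p (pderiv a f) = 0) → SQAt f p r → ∃ s : MvPolynomial ι ℂ, eval p s ≠ 0 ∧
      ∀ q : ι → ℂ, (∀ a, eval q (pderiv a f) = 0) → eval q s ≠ 0 → q = p

/-- there are finitely many of them -/
def Stmt_FIN8 : Prop :=
  ∀ (ι : Type) [Fintype ι] [DecidableEq ι] (f : MvPolynomial ι ℂ),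
    {p | p ∈ Crit0 f ∧ Sim f p}.Finite

/-- the exponents of the simple points -/
def ExpS {ι : Type} [Fintype ι] [DecidableEq ι] (f : MvPolynomial ι ℂ) : Set ℚ :=
  {r | ∃ i : ℕ, 2 ≤ i ∧ r = ((Fintype.card ι : ℚ) - 1) / 2 + 1 / (i : ℚ) ∧
    ∃ p ∈ Crit0 f, SQAt f p r}

/-- the volumes of the contact sets -/
def Stmt_MAIN8 : Prop :=
  ∀ (P : HodgeMeasure) (ι : Type) [Fintype ι] [DecidableEq ι] (f : MvPolynomial ι ℂ),
    3 ≤ Fintype.card ι → ∀ a b : ℕ, 1 ≤ b → Fintype.card ι * b < 2 * a + b →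
    ∀ (E : Type) [Finite E] (Q : Set (E ⊕ Unit → ℂ)), QU Q →
      ∃ κ₁ κ₂ : ℕ → K, ESeq ({1} ∪ ExpS f) κ₁ ∧ Bd a b κ₂ ∧ ∀ m : ℕ, 1 ≤ m →
        vol P.rat xq {z : (E → ℂ) × (ι → PowerSeries ℂ) | Lead Q m z.1 (aeval z.2 f)} =
          κ₁ m + κ₂ m

/-- the poles smaller than `-(n-1)/2` -/
def Stmt_POL8 : Prop :=
  ∀ (P : HodgeMeasure) (ι : Type) [Fintype ι] [DecidableEq ι] (f : MvPolynomial ι ℂ),
    3 ≤ Fintype.card ι → ∀ (e : ℕ) (R : K), 1 ≤ e →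
    (IsDL (zetaSer P.rat xq f e) R ∨ IsDL (zetaSer1 P.rat xq f e) R) →
    ∀ s : ℂ, Polynomial.aeval s R.denom = 0 → s.re < -((Fintype.card ι : ℝ) - 1) / 2 →
      ∃ r ∈ ExpS f, s = -(r : ℂ)

/-- the eigenvalues -/
def Stmt_EIG8 : Prop :=
  ∀ (ι : Type) [Fintype ι] [DecidableEq ι] (f : MvPolynomial ι ℂ), f.totalDegree ≠ 0 →
    ∀ r ∈ ExpS f, IsEigenvalue f (Complex.exp (2 * Real.pi * Complex.I * (-(r : ℂ))))

/-! ## C : charts -/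

/-- coefficients in families -/
def Stmt_COF8 : Prop :=
  ∀ (ι κ : Type) (G : MvPolynomial (ι ⊕ κ) ℂ) (d : κ →₀ ℕ),
    ∃ A : MvPolynomial ι ℂ, ∀ p : ι → ℂ, eval p A = (sp p G).coeff d

/-- composition of coordinates -/
def Stmt_CMP8 : Prop :=
  ∀ (ι : Type) [Fintype ι] [DecidableEq ι] (f : MvPolynomial ι ℂ)
    (φ ψ : ι → MvPolynomial (ι ⊕ ι) ℂ), ∃ χ : ι → MvPolynomial (ι ⊕ ι) ℂ, ∀ p : ι → ℂ,
      (bind₁ (fun a => sp p (χ a)) f = bind₁ (fun a => sp p (ψ a)) (bind₁ (fun a => sp p (φ a)) f))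
      ∧ ((IsCo p fun a => sp p (φ a)) → (IsCo (fun _ => 0) fun a => sp p (ψ a)) →
        IsCo p fun a => sp p (χ a))

/-- symmetric matrices have an invertible principal submatrix of maximal size -/
def Stmt_RNK8 : Prop :=
  ∀ (ι : Type) [Fintype ι] [DecidableEq ι] (f : MvPolynomial ι ℂ) (p : ι → ℂ),
    ∃ Z : Finset ι, (HZ f Z p).det ≠ 0 ∧ (Hs f p).rank = Z.card

/-- the splitting lemma in families: the quadratic part -/
def Stmt_SPA8 : Prop :=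
  ∀ (ι : Type) [Fintype ι] [DecidableEq ι] (f : MvPolynomial ι ℂ) (Z : Finset ι),
    FamC f (Rk f Z) fun _ F => Spl Z 2 F

/-- the splitting lemma in families: one more step -/
def Stmt_SPB8 : Prop :=
  ∀ (ι : Type) [Fintype ι] [DecidableEq ι] (G : MvPolynomial (ι ⊕ ι) ℂ) (Z : Finset ι) (K' : ℕ),
    2 ≤ K' → ∃ ψ : ι → MvPolynomial (ι ⊕ ι) ℂ, ∀ p : ι → ℂ, Spl Z K' (sp p G) →
      (IsCo (fun _ => 0) fun a => sp p (ψ a)) ∧
        Spl Z (K' + 1) (bind₁ (fun a => sp p (ψ a)) (sp p G))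

/-- the splitting lemma in families -/
def Stmt_SPL8 : Prop :=
  ∀ (ι : Type) [Fintype ι] [DecidableEq ι] (f : MvPolynomial ι ℂ) (Z : Finset ι) (K' : ℕ),
    2 ≤ K' → FamC f (Rk f Z) fun _ F => Spl Z K' F

/-- leading forms with an isolated critical point -/
def Stmt_LDF8 : Prop :=
  ∀ (ι : Type) [Fintype ι] [DecidableEq ι] (Z : Finset ι) (K' : ℕ) (F : MvPolynomial ι ℂ)
    (w : ι → ℕ) (D : ℕ), Spl Z K' F → (∀ b, 1 ≤ w b) → 1 ≤ D → (∀ b ∈ Z, 2 * w b = D) →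
    (∀ d ∈ F.support, D ≤ Finsupp.weight w d ∧ (dZ Z d = 1 → D < Finsupp.weight w d)) →
    (∀ x : ι → ℂ, (∀ b ∈ Z, x b = 0) → (∀ a, eval x (pderiv a (ini w D F)) = 0) → x = 0) →
      SQ w D F

/-- nondegenerate critical points -/
def Stmt_T08 : Prop :=
  ∀ (ι : Type) [Fintype ι] [DecidableEq ι] [Nonempty ι] (f : MvPolynomial ι ℂ) (p : ι → ℂ),
    p ∈ Rk f Finset.univ → Sim f p

/-- corank `1`: type `A` -/
def Stmt_T18 : Prop :=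
  ∀ (ι : Type) [Fintype ι] [DecidableEq ι] (f : MvPolynomial ι ℂ) (Z : Finset ι) (a b : ℕ),
    Z.card + 1 = Fintype.card ι → 1 ≤ b → Fintype.card ι * b < 2 * a + b → Cov f a b (Rk f Z)

/-- corank `≥ 3` -/
def Stmt_T38 : Prop :=
  ∀ (ι : Type) [Fintype ι] [DecidableEq ι] (f : MvPolynomial ι ℂ) (Z : Finset ι) (a b : ℕ),
    Z.card + 3 ≤ Fintype.card ι → 1 ≤ b → Fintype.card ι * b ≤ 2 * a + b → Cov f a b (Rk f Z)

section

variable {ι : Type}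

/-- the coefficient of `x^{3-i} y^i`, `x = x_u`, `y = x_v` -/
noncomputable def cub (u v : ι) (F : MvPolynomial ι ℂ) (i : ℕ) : ℂ :=
  F.coeff (Finsupp.single u (3 - i) + Finsupp.single v i)

noncomputable def hA (u v : ι) (F : MvPolynomial ι ℂ) : ℂ :=
  cub u v F 1 ^ 2 - 3 * cub u v F 0 * cub u v F 2

noncomputable def hB (u v : ι) (F : MvPolynomial ι ℂ) : ℂ :=
  cub u v F 1 * cub u v F 2 - 9 * cub u v F 0 * cub u v F 3

noncomputable def hC (u v : ι) (F : MvPolynomial ι ℂ) : ℂ :=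
  cub u v F 2 ^ 2 - 3 * cub u v F 1 * cub u v F 3

/-- the situation in corank `2`: `φ_p`, `p ∈ S`, are coordinates in which `f` is split up to the
order `K'`; `x_u` and `x_v` are the variables outside of `Z` -/
def Cork2 [Fintype ι] [DecidableEq ι] (f : MvPolynomial ι ℂ) (Z : Finset ι) (u v : ι) (K' : ℕ)
    (S : Set (ι → ℂ)) (φ : ι → MvPolynomial (ι ⊕ ι) ℂ) : Prop :=
  u ≠ v ∧ Zᶜ = {u, v} ∧ ∀ p ∈ S, p ∈ Crit0 f ∧ (IsCo p fun a => sp p (φ a)) ∧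
    Spl Z K' (bind₁ (fun a => sp p (φ a)) f)

/-- `f` in the coordinates `φ_p` -/
noncomputable def inC (f : MvPolynomial ι ℂ) (φ : ι → MvPolynomial (ι ⊕ ι) ℂ) (p : ι → ℂ) :
    MvPolynomial ι ℂ := bind₁ (fun a => sp p (φ a)) f

end

/-- corank `2`, no cubic part -/
def Stmt_T2A8 : Prop :=
  ∀ (ι : Type) [Fintype ι] [DecidableEq ι] (f : MvPolynomial ι ℂ) (Z : Finset ι) (u v : ι)
    (K' : ℕ) (S : Set (ι → ℂ)) (φ : ι → MvPolynomial (ι ⊕ ι) ℂ) (a b : ℕ), 2 ≤ K' →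
    Cork2 f Z u v K' S φ → 1 ≤ b → Fintype.card ι * b ≤ 2 * a + b →
      Cov f a b {p | p ∈ S ∧ ∀ i ≤ 3, cub u v (inC f φ p) i = 0}

/-- corank `2`, the cubic part is a cube: types `E` and worse -/
def Stmt_T2B8 : Prop :=
  ∀ (ι : Type) [Fintype ι] [DecidableEq ι] (f : MvPolynomial ι ℂ) (Z : Finset ι) (u v : ι)
    (K' : ℕ) (S : Set (ι → ℂ)) (φ : ι → MvPolynomial (ι ⊕ ι) ℂ) (a b : ℕ), 3 ≤ K' →
    Cork2 f Z u v K' S φ → 1 ≤ b → Fintype.card ι * b ≤ 2 * a + b →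
      Cov f a b {p | p ∈ S ∧ (∃ i ≤ 3, cub u v (inC f φ p) i ≠ 0) ∧ hA u v (inC f φ p) = 0 ∧
        hB u v (inC f φ p) = 0 ∧ hC u v (inC f φ p) = 0}

/-- corank `2`, three different roots: type `D_4` -/
def Stmt_T2C8 : Prop :=
  ∀ (ι : Type) [Fintype ι] [DecidableEq ι] (f : MvPolynomial ι ℂ) (Z : Finset ι) (u v : ι)
    (K' : ℕ) (S : Set (ι → ℂ)) (φ : ι → MvPolynomial (ι ⊕ ι) ℂ), 2 ≤ K' →
    Cork2 f Z u v K' S φ → ∀ p ∈ S,
      hB u v (inC f φ p) ^ 2 ≠ 4 * hA u v (inC f φ p) * hC u v (inC f φ p) → Sim f p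

/-- the property of the step `k` for the type `D`: `F` is split up to the order `K'`, the coefficient
of `x² y` is not zero, and the monomials `x^i y^j` have weight `(k-2) i + 2 j ≥ 2 (k-1)` -/
def DP {ι : Type} [Fintype ι] [DecidableEq ι] (Z : Finset ι) (u v : ι) (K' k : ℕ)
    (F : MvPolynomial ι ℂ) : Prop :=
  Spl Z K' F ∧ F.coeff (Finsupp.single u 2 + Finsupp.single v 1) ≠ 0 ∧
    ∀ i j : ℕ, F.coeff (Finsupp.single u i + Finsupp.single v j) ≠ 0 →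
      2 * (k - 1) ≤ (k - 2) * i + 2 * j

/-- corank `2`, a double root: linear coordinates, `(u', v') = (u, v)` or `(v, u)` -/
def Stmt_T2D8 : Prop :=
  ∀ (ι : Type) [Fintype ι] [DecidableEq ι] (f : MvPolynomial ι ℂ) (Z : Finset ι) (u v : ι)
    (K' : ℕ) (S : Set (ι → ℂ)) (φ : ι → MvPolynomial (ι ⊕ ι) ℂ), 2 ≤ K' →
    Cork2 f Z u v K' S φ →
      (FamC f {p | p ∈ S ∧ hB u v (inC f φ p) ^ 2 = 4 * hA u v (inC f φ p) * hC u v (inC f φ p) ∧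
        hA u v (inC f φ p) ≠ 0} fun _ F => DP Z u v K' 5 F) ∧
      FamC f {p | p ∈ S ∧ hB u v (inC f φ p) ^ 2 = 4 * hA u v (inC f φ p) * hC u v (inC f φ p) ∧
        hA u v (inC f φ p) = 0 ∧ ¬ (hB u v (inC f φ p) = 0 ∧ hC u v (inC f φ p) = 0)}
          fun _ F => DP Z v u K' 5 F

/-- type `D`: one step -/
def Stmt_T2E8 : Prop :=
  ∀ (ι : Type) [Fintype ι] [DecidableEq ι] (f : MvPolynomial ι ℂ) (Z : Finset ι) (u v : ι)
    (K' k : ℕ) (S : Set (ι → ℂ)), u ≠ v → Zᶜ = {u, v} → 5 ≤ k → k ≤ K' → S ⊆ Crit0 f →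
    FamC f S (fun _ F => DP Z u v K' k F) →
      FamC f {p | p ∈ S ∧ ¬ Sim f p} fun _ F => DP Z u v K' (k + 1) F

/-- corank `2` -/
def Stmt_T28 : Prop :=
  ∀ (ι : Type) [Fintype ι] [DecidableEq ι] (f : MvPolynomial ι ℂ) (Z : Finset ι) (a b : ℕ),
    Z.card + 2 = Fintype.card ι → 1 ≤ b → Fintype.card ι * b < 2 * a + b → Cov f a b (Rk f Z)

/-- all critical points -/
def Stmt_COV8 : Prop :=
  ∀ (ι : Type) [Fintype ι] [DecidableEq ι] [Nonempty ι] (f : MvPolynomial ι ℂ) (a b : ℕ), 1 ≤ b →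
    Fintype.card ι * b < 2 * a + b → Cov f a b (Crit0 f)

end Pool.Agent.Mono.SP
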