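import Mathlib

/-!
# Definitions used in the statements: Newton nondegenerate germs
-/

set_option autoImplicit false

namespace Pool.Agent.Mono

open MvPolynomial

/-- a power series `g` is nondegenerate with respect to its Newton polyhedron (Kouchnirenko): for
all positive weights `k` the polynomial `P` of the terms of `g` of minimal weight `N` has no
singular zero in the torus -/
def IsNondegenerateSeries {ι : Type} [Fintype ι] (g : MvPowerSeries ι ℂ) : Prop :=
  g ≠ 0 ∧ ∀ (k : ι → ℕ) (N : ℕ) (P : MvPolynomial ι ℂ), (∀ i, 0 < k i) →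
    (∀ m : ι →₀ ℕ, ∑ i, k i * m i < N → MvPowerSeries.coeff m g = 0) →
    (∀ m : ι →₀ ℕ, MvPolynomial.coeff m P =
      if ∑ i, k i * m i = N then MvPowerSeries.coeff m g else 0) → P ≠ 0 →
    ∀ x : ι → ℂ, (∀ i, x i ≠ 0) → eval x P = 0 → ∃ i, eval x (pderiv i P) ≠ 0

/-- in suitable formal coordinates `φ` at `p`, the power series `f ∘ φ` is nondegenerate with
respect to its Newton polyhedron -/
def IsNondegenerateAt {ι : Type} [Fintype ι] [DecidableEq ι] (f : MvPolynomial ι ℂ)
    (p : ι → ℂ) : Prop :=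
  ∃ φ : ι → MvPowerSeries ι ℂ, (∀ i, MvPowerSeries.constantCoeff (φ i) = p i) ∧
    (Matrix.of fun i j =>
      MvPowerSeries.constantCoeff (MvPowerSeries.pderiv ℂ j (φ i))).det ≠ 0 ∧
    IsNondegenerateSeries (aeval φ f : MvPowerSeries ι ℂ)

/-- for some `N`, `f(x) + u_1 v_1 + ⋯ + u_N v_N` is nondegenerate in suitable formal coordinates at
`(p, 0)` -/
def IsStablyNondegenerateAt {ι : Type} [Fintype ι] [DecidableEq ι] (f : MvPolynomial ι ℂ)
    (p : ι → ℂ) : Prop :=
  ∃ N : ℕ, IsNondegenerateAt (rename Sum.inl f +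
    ∑ k : Fin N, X (Sum.inr (k, true)) * X (Sum.inr (k, false)) :
      MvPolynomial (ι ⊕ (Fin N × Bool)) ℂ) (Sum.elim p fun _ => 0)

end Pool.Agent.Mono
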