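import Pool.Agent.Work.Monodromy.Statement1

/-!
# Definitions used in the statements: local topological zeta functions
-/

set_option autoImplicit false

namespace Pool.Agent.Mono

open MvPolynomial

/-- the `k`-jets of arcs which start at `p` and along which `f` vanishes to order exactly `k` -/
def contactJetsAt {ι : Type} (f : MvPolynomial ι ℂ) (p : ι → ℂ) (k : ℕ) :
    Set (ι × Fin (k + 1) → ℂ) :=
  {v | v ∈ contactJets f k ∧ ∀ i, v (i, 0) = p i}

/-- `R` is the local topological zeta function of `f` at `p`: the limit, for `u → 1` and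
`T = u^{-s}`, of the zeta function `∑_k P(contactJetsAt f p k) u^{-kn} T^k` -/
def IsTopologicalZetaAt {ι : Type} [Fintype ι] (P : HodgeMeasure) (f : MvPolynomial ι ℂ)
    (p : ι → ℂ) (R : RatFunc ℚ) : Prop :=
  IsLim (PowerSeries.mk fun k =>
    toRat (P.val (contactJetsAt f p k)) * (RatFunc.X)⁻¹ ^ (k * Fintype.card ι)) R

/-- `R` is the topological zeta function of `f`: the integral with respect to the Euler
characteristic (the value of `P` at `u = 1`) of the local topological zeta functions over all
points `p` -/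
def IsTopologicalZetaInt {ι : Type} [Fintype ι] (P : HodgeMeasure) (f : MvPolynomial ι ℂ)
    (R : RatFunc ℚ) : Prop :=
  ∃ (m : ℕ) (S : Fin m → Set (ι → ℂ)) (r : Fin m → RatFunc ℚ), (∀ j, Constructible (S j)) ∧
    (∀ p : ι → ℂ, ∃! j, p ∈ S j) ∧ (∀ j, ∀ p ∈ S j, IsTopologicalZetaAt P f p (r j)) ∧
    R = ∑ j, RatFunc.C (((P.val (S j)).eval 1 : ℤ) : ℚ) * r j

end Pool.Agent.Mono
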