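import Pool.Agent.Work.Monodromy.Statement2

/-!
# Definitions used in the statements: local twisted topological zeta functions
-/

set_option autoImplicit false

namespace Pool.Agent.Mono

open MvPolynomial

/-- the points of `jetSet f e k` whose jet starts at `p` -/
def jetAt {ι : Type} (f : MvPolynomial ι ℂ) (p : ι → ℂ) (e k : ℕ) :
    Set ((ι × Fin (k + 1)) ⊕ Unit → ℂ) :=
  {z | z ∈ jetSet f e k ∧ ∀ i, z (Sum.inl (i, 0)) = p i}

/-- the zeta function `∑_{k ≥ 1} μ(jetAt f p e k) L^{-kn} T^k` of `f` at `p` -/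
noncomputable def locSer1 {ι : Type} [Fintype ι] {R : Type} [CommRing R] (μ : MotivicMeasure R)
    (Li : R) (f : MvPolynomial ι ℂ) (p : ι → ℂ) (e : ℕ) : PowerSeries R :=
  PowerSeries.mk fun k => if k = 0 then 0 else μ.val (jetAt f p e k) * Li ^ (k * Fintype.card ι)

/-- `R` is the local `e`-twisted topological zeta function of `f` at `p` -/
def IsTwTopZetaAt {ι : Type} [Fintype ι] (P : HodgeMeasure) (f : MvPolynomial ι ℂ) (p : ι → ℂ)
    (e : ℕ) (R : RatFunc ℚ) : Prop :=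
  ∃ r : ℕ → RatFunc ℚ,
    (∀ d ∈ e.divisors, IsLim (locSer1 P.rat (RatFunc.X)⁻¹ f p d) (r d)) ∧
    RatFunc.C (e.totient : ℚ) * R =
      ∑ d ∈ e.divisors, RatFunc.C ((ArithmeticFunction.moebius (e / d) : ℤ) : ℚ) * r d

/-- `R` is the `e`-twisted topological zeta function of `f`: the integral with respect to the Euler
characteristic (the value of `P` at `u = 1`) of the local functions over all points `p` -/
def IsTwTopZetaInt {ι : Type} [Fintype ι] (P : HodgeMeasure) (f : MvPolynomial ι ℂ) (e : ℕ)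
    (R : RatFunc ℚ) : Prop :=
  ∃ (m : ℕ) (S : Fin m → Set (ι → ℂ)) (r : Fin m → RatFunc ℚ), (∀ j, Constructible (S j)) ∧
    (∀ p : ι → ℂ, ∃! j, p ∈ S j) ∧ (∀ j, ∀ p ∈ S j, IsTwTopZetaAt P f p e (r j)) ∧
    R = ∑ j, RatFunc.C (((P.val (S j)).eval 1 : ℤ) : ℚ) * r j

end Pool.Agent.Mono
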