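import Pool.Agent.Work.Monodromy.Interface13
import Pool.Agent.Work.Monodromy.Interface9
import Pool.Agent.Work.Monodromy.Interface3
import Pool.Agent.Work.Monodromy.StatementL
import Pool.Agent.Work.Monodromy.StatementL1
import Pool.Agent.Work.Monodromy.StatementL2
import Pool.Agent.Work.Monodromy8.POL8

/-!
# Phase L: the local theorem; definitions and blocks (helper2)

See `MonodromyL/BLUEPRINTL.md`.
-/

set_option autoImplicit false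

namespace Pool.Agent.Mono.LO

open MvPolynomial Filter Topology NP

/-! ## Definitions -/

section

variable {ι κ : Type} [Fintype ι] [DecidableEq ι] [Fintype κ] [DecidableEq κ]

/-- the hypersurface of `F` in the torus is smooth -/
def SmF (w : κ → ι → ℕ) (a : κ → ℂ) (F : Finset κ) : Prop :=
  ∀ x : ι → ℂ, (∀ i, x i ≠ 0) → ∑ v ∈ F, a v * ∏ i, x i ^ w v i = 0 →
    ∃ i, ∑ v ∈ F, (w v i : ℂ) * (a v * ∏ i', x i' ^ w v i') ≠ 0

/-- nondegenerate for the compact faces of the local Newton polyhedron -/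
def NdC (w : κ → ι → ℕ) (a : κ → ℂ) : Prop := ∀ k : ι → ℕ, (∀ i, 1 ≤ k i) → SmF w a (fc w k)

/-- every cell of the triangulation is contained in a compact face -/
def Cpt (w : κ → ι → ℕ) (h : κ → ℝ) : Prop :=
  ∀ k : ι → ℝ, (∀ i, 0 ≤ k i) → ∃ k' : ι → ℕ, (∀ i, 1 ≤ k' i) ∧
    ∀ a, (∀ b, hval w h k a ≤ hval w h k b) → a ∈ fc w k'

/-- the power series `∑ A_v x^{w_v}` -/
noncomputable def ser (w : κ → ι → ℕ) (A : κ → MvPowerSeries ι ℂ) : MvPowerSeries ι ℂ :=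
  ∑ v, A v * ∏ i, MvPowerSeries.X i ^ w v i

/-- the constant coefficients -/
noncomputable def lead (A : κ → MvPowerSeries ι ℂ) (v : κ) : ℂ :=
  MvPowerSeries.constantCoeff (A v)

/-- the coefficients of `g - G` of degree `≤ K` vanish -/
def Eqm (K : ℕ) (g h : MvPowerSeries ι ℂ) : Prop :=
  ∀ m : ι →₀ ℕ, m.degree ≤ K → MvPowerSeries.coeff m g = MvPowerSeries.coeff m h

/-- formal coordinates at `p` -/
def FCo (p : ι → ℂ) (φ : ι → MvPowerSeries ι ℂ) : Prop :=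
  (∀ i, MvPowerSeries.constantCoeff (φ i) = p i) ∧
    (Matrix.of fun i j =>
      MvPowerSeries.constantCoeff (MvPowerSeries.pderiv ℂ j (φ i))).det ≠ 0

/-- the class of `jetAt` times `L^{-(k+1)n}` -/
noncomputable def vkA {R : Type} [CommRing R] (μ : MotivicMeasure R) (Li : R)
    (f : MvPolynomial ι ℂ) (p : ι → ℂ) (e k : ℕ) : R :=
  μ.val (jetAt f p e k) * Li ^ ((k + 1) * Fintype.card ι)

/-- the contribution of `k` to the coefficient `K` of the local zeta function at the origin -/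
noncomputable def ctL (E : HodgeMeasure) (w : κ → ι → ℕ) (a : κ → ℂ) (d K : ℕ) (u : ℝ)
    (k : ι → ℕ) : ℝ :=
  open Classical in if ∀ i, 1 ≤ k i then ct E w a d K u k else 0

/-- the contribution of `k` to the value at `T = u^{-s}` -/
noncomputable def exL (E : HodgeMeasure) (w : κ → ι → ℕ) (a : κ → ℂ) (d s : ℕ) (u : ℝ)
    (k : ι → ℕ) : ℝ :=
  open Classical in if ∀ i, 1 ≤ k i then u⁻¹ ^ (∑ i, k i + s * mnk w k) *
    (Polynomial.aeval u (E.val (WF w a d (fc w k))) +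
      Polynomial.aeval u (E.val (VF w a (fc w k))) * ((u - 1) / (u ^ (s + 1) - 1))) else 0

/-- the exponential sum over the positive `k` with `fc w k = F` -/
noncomputable def SFp (w : κ → ι → ℕ) (s : ℕ) (F : Finset κ) (ε : ℝ) : ℝ :=
  ∑' k : {k : ι → ℕ // (∀ i, 1 ≤ k i) ∧ fc w k = F},
    Real.exp (-ε * (∑ i, ((k : ι → ℕ) i : ℝ) + s * (mnk w k : ℝ)))

/-- the factor of the face `F` -/
noncomputable def BrL (E : HodgeMeasure) (w : κ → ι → ℕ) (a : κ → ℂ) (e s : ℕ) (F : Finset κ)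
    (ε : ℝ) : ℝ :=
  ∑ d ∈ e.divisors, ((ArithmeticFunction.moebius (e / d) : ℤ) : ℝ) *
    (Polynomial.aeval (Real.exp ε) (E.val (WF w a d F)) +
      Polynomial.aeval (Real.exp ε) (E.val (VF w a F)) *
        ((Real.exp ε - 1) / (Real.exp ε ^ (s + 1) - 1)))

/-- the poles of `R` give eigenvalues -/
def GPo (f : MvPolynomial ι ℂ) (R : RatFunc ℚ) : Prop :=
  ∀ s : ℂ, Polynomial.aeval s R.denom = 0 →
    IsEigenvalue f (Complex.exp (2 * Real.pi * Complex.I * s))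

/-! ### Functionals -/

/-- allowed exponents -/
def Al (J : Finset ι) (u : ι → ℤ) : Prop := ∀ j, j ∉ J → 0 ≤ u j

/-- `ν = ∑ c_v w_v` on `J` -/
noncomputable def nuc (w : κ → ι → ℕ) (c : κ → ℚ) (J : Finset ι) (i : ι) : ℚ :=
  if i ∈ J then ∑ v, c v * w v i else 0

/-- positive weights -/
def XPos (X : Finset ((ι → ℚ) × ℚ)) : Prop := ∀ q ∈ X, ∀ i, 0 < q.1 i

/-- the supports of the functional are in the compact faces given by `X` -/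
def SX (w : κ → ι → ℕ) (c : κ → ℚ) (lam : (κ →₀ ℕ) → ℚ) (X : Finset ((ι → ℚ) × ℚ)) : Prop :=
  ∀ m, lam m ≠ 0 → ∃ q ∈ X, (∀ i, 0 < q.1 i) ∧ (∀ a, q.2 ≤ ∑ i, q.1 i * w a i) ∧
    ∀ a, (m a ≠ 0 ∨ ∀ z : ℤ, c a ≠ z) → ∑ i, q.1 i * w a i = q.2

/-- support bound -/
def SB (J : Finset ι) (ν : ι → ℚ) (β : ℚ) (X : Finset ((ι → ℚ) × ℚ))
    (Φ : ℤ → (ι → ℤ) → ℂ) : Prop :=
  ∀ (k : ℤ) (u : ι → ℤ), Al J u → Φ k u ≠ 0 →
    ∃ q ∈ X, ∑ i, q.1 i * ((u i : ℚ) + 1 + ν i) ≤ q.2 * ((k : ℚ) - β)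

/-- the functional `lam` on `κ`, extended by zero to `κ ⊕ μ` -/
noncomputable def lamX {μ : Type} [Fintype μ] (lam : (κ →₀ ℕ) → ℚ) (m : (κ ⊕ μ) →₀ ℕ) : ℚ :=
  open Classical in if ∀ b : μ, m (Sum.inr b) = 0 then
    lam (Finsupp.comapDomain Sum.inl m Sum.inl_injective.injOn) else 0

/-- the relations of the integrals of `x^{u+ν} g^{β-k}`, `g = ∑ B_v x^{w_v}` a power series -/
def RlS (w : κ → ι → ℕ) (B : κ → MvPowerSeries ι ℂ) (J : Finset ι) (ν : ι → ℚ) (β : ℚ)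
    (k₀ : ℤ) (Φ : ℤ → (ι → ℤ) → ℂ) : Prop :=
  (∀ (k : ℤ) (u : ι → ℤ) (i : ι), Al J u → ∀ᶠ Γ : Finset (ι →₀ ℕ) in atTop,
    ∑ v, ∑ γ ∈ Γ, ((w v i : ℂ) + (γ i : ℂ)) * (MvPowerSeries.coeff γ (B v) *
      Φ (k + 1) (fun j => u j + w v j + γ j - if j = i then 1 else 0)) =
      -((u i : ℂ) + (ν i : ℂ)) * Φ k (fun j => u j - if j = i then 1 else 0)) ∧
  (∀ (k : ℤ) (u : ι → ℤ), Al J u → ∀ᶠ Γ : Finset (ι →₀ ℕ) in atTop,
    ∑ v, ∑ γ ∈ Γ, MvPowerSeries.coeff γ (B v) * Φ (k + 1) (fun j => u j + w v j + γ j) =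
      ((β : ℂ) - k) * Φ k u) ∧
  ∀ k < k₀, ∀ u : ι → ℤ, Al J u → Φ k u = 0

/-- the exponents `w_v + δ`, `δ ≤ n` -/
def wX (w : κ → ι → ℕ) (n : ℕ) : κ ⊕ (κ × (ι → Fin (n + 1))) → ι → ℕ :=
  Sum.elim w fun q i => w q.1 i + (q.2 i : ℕ)

/-- the coefficients of `∑ b x^{wX}` as power series `B_v` -/
noncomputable def serX (n : ℕ) (b : κ ⊕ (κ × (ι → Fin (n + 1))) → ℂ) (v : κ) :
    MvPowerSeries ι ℂ :=
  MvPowerSeries.C (b (Sum.inl v)) +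
    ∑ δ : ι → Fin (n + 1), MvPowerSeries.C (b (Sum.inr (v, δ))) *
      ∏ i, MvPowerSeries.X i ^ (δ i : ℕ)

/-- the degree in the variables `T_v` -/
def tdeg (M : (κ ⊕ ι) →₀ ℕ) : ℕ := ∑ v, M (Sum.inl v)

/-- the exponent of the monomial `T^m x^γ` -/
def twt (w : κ → ι → ℕ) (M : (κ ⊕ ι) →₀ ℕ) (i : ι) : ℕ :=
  ∑ v, M (Sum.inl v) * w v i + M (Sum.inr i)

/-- functions on the allowed exponents (zero elsewhere), killed by high powers of `x` locally -/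
def VJ (J : Finset ι) : Submodule ℂ ((ι → ℤ) → ℂ) where
  carrier := {φ | (∀ u, ¬ Al J u → φ u = 0) ∧
    ∀ u, Al J u → {γ : ι →₀ ℕ | φ (fun j => u j + γ j) ≠ 0}.Finite}
  add_mem' := by
    rintro φ ψ ⟨h1, h2⟩ ⟨h3, h4⟩
    refine ⟨fun u hu => by rw [Pi.add_apply, h1 u hu, h3 u hu, add_zero], fun u hu => ?_⟩
    refine ((h2 u hu).union (h4 u hu)).subset fun γ hγ => ?_
    by_contra hc
    simp only [Set.mem_union, Set.mem_ofPred_eq, not_or, not_not] at hc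
    apply hγ
    rw [Pi.add_apply, hc.1, hc.2, add_zero]
  zero_mem' := ⟨fun _ _ => rfl, fun u _ => by simp⟩
  smul_mem' := by
    rintro c φ ⟨h1, h2⟩
    refine ⟨fun u hu => by rw [Pi.smul_apply, h1 u hu, smul_zero], fun u hu => ?_⟩
    refine (h2 u hu).subset fun γ hγ => ?_
    intro h
    apply hγ
    rw [Pi.smul_apply, h, smul_zero]

end

/-! ## A : the local zeta function of `∑ a_v x^{w_v}` -/

/-- HLOC: heights such that all cells are in compact faces -/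
def Stmt_HLOC : Prop :=
  ∀ (ι κ : Type) [Fintype ι] [DecidableEq ι] [Fintype κ] [DecidableEq κ] (w : κ → ι → ℕ),
    ∃ h : κ → ℝ, LinearIndependent ℚ h ∧ Cpt w h

/-- SMPL: the maximal simplices of a compact face are cells of the triangulation -/
def Stmt_SMPL : Prop :=
  ∀ (ι κ : Type) [Fintype ι] [DecidableEq ι] [Fintype κ] [DecidableEq κ] [Nonempty κ]
    (w : κ → ι → ℕ) (h : κ → ℝ), LinearIndependent ℚ h → ∀ (k : ι → ℕ), (∀ i, 1 ≤ k i) →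
    ∀ C : Finset κ,
      C ∈ smp w h (fc w k) ↔ C ∈ cls0 w h ∧ C ⊆ fc w k ∧ C.card = rk w (fc w k)

/-- NDR: a compact face is nondegenerate for all its faces -/
def Stmt_NDR : Prop :=
  ∀ (ι κ : Type) [Fintype ι] [DecidableEq ι] [Fintype κ] [DecidableEq κ] [Nonempty κ]
    (w : κ → ι → ℕ) (a : κ → ℂ) (k : ι → ℕ), (∀ i, 1 ≤ k i) → NdC w a →
    NdP (fun v : fc w k => w (v : κ)) (fun v : fc w k => a (v : κ))

/-- RST: restriction to the elements of a face -/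
def Stmt_RST : Prop :=
  ∀ (ι κ : Type) [Fintype ι] [DecidableEq ι] [Fintype κ] [DecidableEq κ] (w : κ → ι → ℕ)
    (a : κ → ℂ) (h : κ → ℝ) (F : Finset κ),
    VF (fun v : F => w (v : κ)) (fun v : F => a (v : κ)) Finset.univ = VF w a F ∧
    (∀ d, WF (fun v : F => w (v : κ)) (fun v : F => a (v : κ)) d Finset.univ = WF w a d F) ∧
    rk (fun v : F => w (v : κ)) Finset.univ = rk w F ∧
    ∀ e, ∑ C ∈ smp (fun v : F => w (v : κ)) (fun v : F => h (v : κ)) Finset.univ,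
      (nuE (fun v : F => w (v : κ)) e C : ℤ) = ∑ C ∈ smp w h F, (nuE w e C : ℤ)

/-- KFL: the class of the hypersurface of a compact face -/
def Stmt_KFL : Prop :=
  ∀ (E : EulerMeasure) (ι κ : Type) [Fintype ι] [DecidableEq ι] [Fintype κ] [DecidableEq κ]
    [Nonempty κ] (w : κ → ι → ℕ) (a : κ → ℂ) (h : κ → ℝ) (k : ι → ℕ), (∀ i, 1 ≤ k i) →
    Function.Injective w → NdC w a → LinearIndependent ℚ h →
    ∃ q : Polynomial ℤ, E.val (VF w a (fc w k)) =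
        (Polynomial.X - 1) ^ (Fintype.card ι + 1 - rk w (fc w k)) * q ∧
      (rk w (fc w k) = 1 → q = 0) ∧ (2 ≤ rk w (fc w k) → q.eval 1 =
        (-1) ^ rk w (fc w k) * ∑ C ∈ smp w h (fc w k), (nuE w 1 C : ℤ))

/-- KWL: the class of the cover -/
def Stmt_KWL : Prop :=
  ∀ (E : EulerMeasure) (ι κ : Type) [Fintype ι] [DecidableEq ι] [Fintype κ] [DecidableEq κ]
    [Nonempty κ] (w : κ → ι → ℕ) (a : κ → ℂ) (h : κ → ℝ) (k : ι → ℕ) (d : ℕ),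
    (∀ i, 1 ≤ k i) → 1 ≤ d → Function.Injective w → NdC w a → LinearIndependent ℚ h →
    ∃ q : Polynomial ℤ, E.val (WF w a d (fc w k)) =
        (Polynomial.X - 1) ^ (Fintype.card ι + 1 - rk w (fc w k)) * q ∧
      q.eval 1 = (-1) ^ (rk w (fc w k) + 1) *
        ∑ C ∈ smp w h (fc w k), ∑ e ∈ d.divisors, (nuE w e C : ℤ)

/-- CLSL: arcs on which the leading form vanishes (`Stmt_CLS1`, only the face of `k` matters) -/
def Stmt_CLSL : Prop :=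
  ∀ (ι κ : Type) [Fintype ι] [DecidableEq ι] [Fintype κ] [DecidableEq κ] [Nonempty κ]
    (w : κ → ι → ℕ) (a : κ → ℂ) (R : Type) [CommRing R] (μ : MotivicMeasure R) (d K : ℕ)
    (k : ι → ℕ), SmF w a (fc w k) → 1 ≤ d → mnk w k < K →
    μ.val (Jt w a d K k) * (μ.L - 1) ^ (Finset.univ.filter fun i => K < k i).card *
        μ.L ^ (K - mnk w k) =
      μ.val (VF w a (fc w k)) * (μ.L - 1) * μ.L ^ (∑ i, (K - k i))

/-- SUMKL: the coefficients of the local zeta function as sums over positive `k` -/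
def Stmt_SUMKL : Prop :=
  ∀ (ι κ : Type) [Fintype ι] [DecidableEq ι] [Fintype κ] [DecidableEq κ] [Nonempty κ]
    (w : κ → ι → ℕ) (a : κ → ℂ) (E : HodgeMeasure) (d K : ℕ) (u : ℝ), NdC w a → 1 ≤ d → 1 < u →
    HasSum (ctL E w a d K u) (Polynomial.aeval u (E.val (jetAt (poly w a) (fun _ => 0) d K)) *
      u⁻¹ ^ (K * Fintype.card ι))

/-- EXCHL: the local zeta function at `T = u^{-s}` -/
def Stmt_EXCHL : Prop :=
  ∀ (ι κ : Type) [Fintype ι] [DecidableEq ι] [Fintype κ] [DecidableEq κ] [Nonempty κ]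
    (w : κ → ι → ℕ) (a : κ → ℂ) (E : HodgeMeasure) (d : ℕ) (u : ℝ) (s : ℕ), NdC w a → 1 ≤ d →
    1 < u →
    (Summable fun K : ℕ =>
      |Polynomial.aeval u (E.val (jetAt (poly w a) (fun _ => 0) d K))| *
        u⁻¹ ^ (K * Fintype.card ι)) ∧
    HasSum (exL E w a d s u)
      (∑' K : ℕ, Polynomial.aeval u (E.val (jetAt (poly w a) (fun _ => 0) d K)) *
        u⁻¹ ^ (K * Fintype.card ι) * u⁻¹ ^ (K * s))

/-- BDYL: the `k` with a zero coordinate do not contribute to the limits -/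
def Stmt_BDYL : Prop :=
  ∀ (ι κ : Type) [Fintype ι] [DecidableEq ι] [Fintype κ] [DecidableEq κ] [Nonempty κ]
    (w : κ → ι → ℕ) (h : κ → ℝ), LinearIndependent ℚ h → ∀ (s : ℕ), ∀ C ∈ cls0 w h,
    ∀ k : ι → ℕ, (∀ i, 1 ≤ k i) → C ⊆ fc w k → rk w (fc w k) = C.card → ∀ J : ℝ,
      Tendsto (fun ε : ℝ => ε ^ (Fintype.card ι + 1 - C.card) *
        Fs w C (pz (fun _ => 0) s 0) ε) (𝓝[>] 0) (𝓝 J) →
      Tendsto (fun ε : ℝ => ε ^ (Fintype.card ι + 1 - C.card) * SFp w s (fc w k) ε) (𝓝[>] 0)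
        (𝓝 J)

/-- LIMBL: the values of the local zeta function as limits -/
def Stmt_LIMBL : Prop :=
  ∀ (E : EulerMeasure) (ι κ : Type) [Fintype ι] [DecidableEq ι] [Fintype κ] [DecidableEq κ]
    [Nonempty κ] (w : κ → ι → ℕ) (a : κ → ℂ) (e : ℕ) (R : RatFunc ℚ), NdC w a → 1 ≤ e →
    IsTwTopZetaAt E.toHodgeMeasure (poly w a) (fun _ => 0) e R →
    ∃ c : ℚ, ∀ s : ℕ, R.denom.eval (s : ℚ) ≠ 0 →
      Tendsto (fun ε : ℝ => ∑ F : Finset κ, SFp w s F ε * BrL E.toHodgeMeasure w a e s F ε)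
        (𝓝[>] 0) (𝓝 ((e.totient : ℝ) * ((R.eval (RingHom.id ℚ) (s : ℚ) : ℚ) : ℝ) + (c : ℝ)))

/-- FACL: the limit of the sum over the compact faces -/
def Stmt_FACL : Prop :=
  ∀ (E : EulerMeasure) (ι κ : Type) [Fintype ι] [DecidableEq ι] [Fintype κ] [DecidableEq κ]
    [Nonempty κ] (w : κ → ι → ℕ) (a : κ → ℂ) (h : κ → ℝ) (e s : ℕ) (J : Finset κ → ℝ),
    Function.Injective w → NdC w a → LinearIndependent ℚ h → Cpt w h → 1 ≤ e →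
    (∀ C ∈ cls0 w h, Tendsto (fun ε : ℝ => ε ^ (Fintype.card ι + 1 - C.card) *
      Fs w C (pz (fun _ => 0) s 0) ε) (𝓝[>] 0) (𝓝 (J C))) →
    Tendsto (fun ε : ℝ => ∑ F : Finset κ, SFp w s F ε * BrL E.toHodgeMeasure w a e s F ε)
      (𝓝[>] 0) (𝓝 (∑ C ∈ cls0 w h, (-1) ^ (C.card + 1) * ((nuE w e C : ℝ) -
        (if e = 1 ∧ 2 ≤ C.card then (nuE w 1 C : ℝ) / (1 + s) else 0)) * J C))

/-- IL: the local zeta function is given by the triangulation -/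
def Stmt_IL : Prop :=
  ∀ (E : EulerMeasure) (ι κ : Type) [Fintype ι] [DecidableEq ι] [Fintype κ] [DecidableEq κ]
    [Nonempty κ] (w : κ → ι → ℕ) (a : κ → ℂ) (h : κ → ℝ) (e : ℕ) (R : RatFunc ℚ)
    (P D : MvPolynomial (ι ⊕ Unit) ℚ), Function.Injective w → NdC w a →
    LinearIndependent ℚ h → Cpt w h → 1 ≤ e →
    IsTwTopZetaAt E.toHodgeMeasure (poly w a) (fun _ => 0) e R →
    (∀ y : ι ⊕ Unit → ℝ, Gen w h y → Tf w h e y * aeval y D = aeval y P) →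
    ∃ c : ℚ, (RatFunc.C (e.totient : ℚ) * R + RatFunc.C c) * aeval (line ι) D =
      pref e * aeval (line ι) P

/-! ## B : from `f` to the model -/

/-- VOLL: the classes of the local jets are volumes -/
def Stmt_VOLL : Prop :=
  ∀ (P : HodgeMeasure) (ι : Type) [Fintype ι] [DecidableEq ι] (f : MvPolynomial ι ℂ)
    (p : ι → ℂ) (e m : ℕ), toRat (P.val (jetAt f p e m)) * TS.xq ^ (m * Fintype.card ι) =
      P.rat.L ^ Fintype.card ι * vol P.rat TS.xq (SP.ZL f {p} (SP.POL8Aux.QE e) m)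

/-- TRJ: local jets in formal coordinates -/
def Stmt_TRJ : Prop :=
  ∀ (P : HodgeMeasure) (ι : Type) [Fintype ι] [DecidableEq ι] (f : MvPolynomial ι ℂ)
    (p : ι → ℂ) (φ : ι → MvPowerSeries ι ℂ) (G : MvPolynomial ι ℂ) (K d : ℕ), FCo p φ →
    Eqm K (aeval φ f) (G : MvPowerSeries ι ℂ) →
      P.val (jetAt f p d K) = P.val (jetAt G (fun _ => 0) d K)

/-- EXT: the local jets of `∑ A_v x^{w_v}` -/
def Stmt_EXT : Prop :=
  ∀ (P : HodgeMeasure) (ι κ : Type) [Fintype ι] [DecidableEq ι] [Fintype κ] [DecidableEq κ]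
    [Nonempty κ] (w : κ → ι → ℕ) (A : κ → MvPowerSeries ι ℂ) (G : MvPolynomial ι ℂ) (K d : ℕ),
    NdC w (lead A) → 1 ≤ d → Eqm K (ser w A) (G : MvPowerSeries ι ℂ) →
      P.val (jetAt G (fun _ => 0) d K) = P.val (jetAt (poly w (lead A)) (fun _ => 0) d K)

/-- DCP: a nondegenerate power series as a sum `∑ A_v x^{w_v}` -/
def Stmt_DCP : Prop :=
  ∀ (ι : Type) [Fintype ι] [DecidableEq ι] (g : MvPowerSeries ι ℂ), IsNondegenerateSeries g →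
    ∃ (κ : Type) (_ : Fintype κ) (_ : DecidableEq κ) (w : κ → ι → ℕ)
      (A : κ → MvPowerSeries ι ℂ), Nonempty κ ∧ Function.Injective w ∧ g = ser w A ∧
      NdC w (lead A)

/-- TRZ: the local zeta functions of `f` and of the model -/
def Stmt_TRZ : Prop :=
  ∀ (P : HodgeMeasure) (ι κ : Type) [Fintype ι] [DecidableEq ι] [Fintype κ] [DecidableEq κ]
    [Nonempty κ] (f : MvPolynomial ι ℂ) (p : ι → ℂ) (φ : ι → MvPowerSeries ι ℂ)
    (w : κ → ι → ℕ) (A : κ → MvPowerSeries ι ℂ) (e : ℕ) (R : RatFunc ℚ), FCo p φ →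
    (aeval φ f : MvPowerSeries ι ℂ) = ser w A → NdC w (lead A) → 1 ≤ e →
    IsTwTopZetaAt P f p e R → IsTwTopZetaAt P (poly w (lead A)) (fun _ => 0) e R

/-! ## C : the witness -/

/-- EXD: the datum for additional exponents -/
def Stmt_EXD : Prop :=
  ∀ (ι κ μ : Type) [Fintype ι] [DecidableEq ι] [Fintype κ] [DecidableEq κ] [Fintype μ]
    [DecidableEq μ] (w : κ → ι → ℕ) (w' : μ → ι → ℕ) (h : κ → ℝ) (s₀ : ℚ) (c : κ → ℚ)
    (J : Finset ι) (d : ℕ) (lam : (κ →₀ ℕ) → ℚ), LinearIndependent ℚ h →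
    LamD w h s₀ c J d lam → (∀ m : μ, ∃ v, ∀ i, w v i ≤ w' m i) →
    ∃ h' : κ ⊕ μ → ℝ, LinearIndependent ℚ h' ∧
      LamD (Sum.elim w w') h' s₀ (Sum.elim c fun _ => 0) J d (lamX lam)

/-- GNRL: the functional for generic coefficients, with support bound -/
def Stmt_GNRL : Prop :=
  ∀ (ι κ : Type) [Fintype ι] [DecidableEq ι] [Fintype κ] [DecidableEq κ] (w : κ → ι → ℕ)
    (h : κ → ℝ) (s₀ : ℚ) (c : κ → ℚ) (J : Finset ι) (d : ℕ) (lam : (κ →₀ ℕ) → ℚ)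
    (X : Finset ((ι → ℚ) × ℚ)), LinearIndependent ℚ h → (∀ z : ℤ, s₀ ≠ z) →
    LamD w h s₀ c J d lam → SX w c lam X → ∀ b : κ → ℂ, AlgebraicIndependent ℚ b →
    ∃ Φ, Rl w b J (nuc w c J) s₀ ⌊s₀⌋ Φ ∧ SB J (nuc w c J) s₀ X Φ ∧ Nz J Φ

/-- GNX: the functional for generic coefficients and additional exponents -/
def Stmt_GNX : Prop :=
  ∀ (ι κ : Type) [Fintype ι] [DecidableEq ι] [Fintype κ] [DecidableEq κ] (w : κ → ι → ℕ)
    (h : κ → ℝ) (s₀ : ℚ), LinearIndependent ℚ h → (∀ z : ℤ, s₀ ≠ z) → Cpt w h →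
    LamDatum w h s₀ → ∃ (J : Finset ι) (ν : ι → ℚ) (k₀ : ℤ) (X : Finset ((ι → ℚ) × ℚ)),
      XPos X ∧ (∀ i, i ∉ J → ν i = 0) ∧
      ∀ (μ : Type) [Fintype μ] [DecidableEq μ] (w' : μ → ι → ℕ),
        (∀ m : μ, ∃ v, ∀ i, w v i ≤ w' m i) → ∀ b : κ ⊕ μ → ℂ, AlgebraicIndependent ℚ b →
          ∃ Φ, Rl (Sum.elim w w') b J ν s₀ k₀ Φ ∧ SB J ν s₀ X Φ ∧ Nz J Φ

/-- TORL: the points with `x = 0` of the affine toric variety of the `(w_v, 1)` and `(e_i, 0)` -/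
def Stmt_TORL : Prop :=
  ∀ (ι κ : Type) [Fintype ι] [DecidableEq ι] [Fintype κ] [DecidableEq κ] (w : κ → ι → ℕ)
    (t : κ → ℂ), (∀ (m m' : κ → ℕ) (γ γ' : ι → ℕ), ∑ v, m v = ∑ v, m' v →
      (∀ i, ∑ v, m v * w v i + γ i = ∑ v, m' v * w v i + γ' i) →
      (∏ v, t v ^ m v) * ∏ i, (0 : ℂ) ^ γ i = (∏ v, t v ^ m' v) * ∏ i, (0 : ℂ) ^ γ' i) →
    (∃ v, t v ≠ 0) → ∃ (ρ : ι → ℕ) (x : ι → ℂ) (c : ℂ), (∀ i, 1 ≤ ρ i) ∧ (∀ i, x i ≠ 0) ∧
      c ≠ 0 ∧ (∀ v, v ∈ fc w ρ ↔ t v ≠ 0) ∧ ∀ v ∈ fc w ρ, t v = c * ∏ i, x i ^ w v i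

/-- NLS: the monomials of degree `d` are in the ideal of the linear forms, the toric ideal and
`(x)` -/
def Stmt_NLS : Prop :=
  ∀ (ι κ : Type) [Fintype ι] [DecidableEq ι] [Fintype κ] [DecidableEq κ] (w : κ → ι → ℕ)
    (a : κ → ℂ), NdC w a → ∃ d : ℕ, 1 ≤ d ∧ ∀ m : κ →₀ ℕ, m.degree = d →
      ∃ (G : Option ι → MvPolynomial (κ ⊕ ι) ℂ) (H : MvPolynomial (κ ⊕ ι) ℂ),
        (∀ o, ∀ M ∈ (G o).support, tdeg M = d - 1) ∧
        (∀ M ∈ H.support, tdeg M = d ∧ ∃ i, M (Sum.inr i) ≠ 0) ∧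
        ∀ Λ : MvPolynomial (κ ⊕ ι) ℂ →ₗ[ℂ] ℂ,
          (∀ M M' : (κ ⊕ ι) →₀ ℕ, tdeg M = tdeg M' → (∀ i, twt w M i = twt w M' i) →
            Λ (monomial M 1) = Λ (monomial M' 1)) →
          Λ (monomial (m.mapDomain Sum.inl) 1) =
            ∑ o, Λ (G o * rename Sum.inl (LinF w a o)) + Λ H

/-- ABSL: the values in degree `D` are bounded by the values in degree `D - 1` -/
def Stmt_ABSL : Prop :=
  ∀ (ι κ : Type) [Fintype ι] [DecidableEq ι] [Fintype κ] [DecidableEq κ] (w : κ → ι → ℕ)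
    (a : κ → ℂ), NdC w a → ∃ (d : ℕ) (δ : ℝ), 1 ≤ d ∧ 0 < δ ∧
    ∀ (J : Finset ι) (ν : ι → ℚ) (β : ℚ) (k₀ : ℤ) (X : Finset ((ι → ℚ) × ℚ)), XPos X →
      ∀ (k : ℤ) (u : ι → ℤ), Al J u → ∀ D : ℕ, d ≤ D → ∃ Γ : Finset (ι →₀ ℕ), ∀ M : ℝ,
        ∃ C : ℝ, 0 ≤ C ∧ ∀ (B : κ → MvPowerSeries ι ℂ) (Φ : ℤ → (ι → ℤ) → ℂ) (S : ℝ),
          (∀ v, ‖lead B v - a v‖ ≤ δ) →
          (∀ v, ∀ γ ∈ Γ, ‖MvPowerSeries.coeff γ (B v)‖ ≤ M) → RlS w B J ν β k₀ Φ →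
          SB J ν β X Φ → 0 ≤ S →
          (∀ (m : κ →₀ ℕ) (γ : ι →₀ ℕ), m.degree = D - 1 →
            ‖Φ (k + (D - 1 : ℕ)) (fun j => u j + γ j + ∑ v, (m v : ℤ) * w v j)‖ ≤ S) →
          ∀ (m : κ →₀ ℕ) (γ : ι →₀ ℕ), m.degree = D →
            ‖Φ (k + (D : ℕ)) (fun j => u j + γ j + ∑ v, (m v : ℤ) * w v j)‖ ≤ C * S

/-- UBDL: all values are bounded by finitely many values -/
def Stmt_UBDL : Prop :=
  ∀ (ι κ : Type) [Fintype ι] [DecidableEq ι] [Fintype κ] [DecidableEq κ] (w : κ → ι → ℕ)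
    (a : κ → ℂ), NdC w a → ∀ (J : Finset ι) (ν : ι → ℚ) (β : ℚ) (k₀ : ℤ)
    (X : Finset ((ι → ℚ) × ℚ)), XPos X →
    ∃ (I₀ : Finset (ℤ × (ι → ℤ))) (δ : ℝ), 0 < δ ∧ (∀ q ∈ I₀, Al J q.2) ∧
      ∀ (k : ℤ) (u : ι → ℤ), Al J u → ∃ Γ : Finset (ι →₀ ℕ), ∀ M : ℝ, ∃ C : ℝ, 0 ≤ C ∧
        ∀ (B : κ → MvPowerSeries ι ℂ) (Φ : ℤ → (ι → ℤ) → ℂ) (S : ℝ),
          (∀ v, ‖lead B v - a v‖ ≤ δ) →
          (∀ v, ∀ γ ∈ Γ, ‖MvPowerSeries.coeff γ (B v)‖ ≤ M) → RlS w B J ν β k₀ Φ →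
          SB J ν β X Φ → 0 ≤ S → (∀ q ∈ I₀, ‖Φ q.1 q.2‖ ≤ S) → ‖Φ k u‖ ≤ C * S

/-- CNV: polynomials as power series -/
def Stmt_CNV : Prop :=
  ∀ (ι κ : Type) [Fintype ι] [DecidableEq ι] [Fintype κ] [DecidableEq κ] (w : κ → ι → ℕ)
    (n : ℕ) (b : κ ⊕ (κ × (ι → Fin (n + 1))) → ℂ) (J : Finset ι) (ν : ι → ℚ) (β : ℚ)
    (k₀ : ℤ) (Φ : ℤ → (ι → ℤ) → ℂ), Rl (wX w n) b J ν β k₀ Φ →
      RlS w (serX n b) J ν β k₀ Φ

/-- SEQL: generic polynomials which converge to `A` -/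
def Stmt_SEQL : Prop :=
  ∀ (ι κ : Type) [Fintype ι] [DecidableEq ι] [Fintype κ] [DecidableEq κ]
    (A : κ → MvPowerSeries ι ℂ), ∃ b : ∀ n : ℕ, κ ⊕ (κ × (ι → Fin (n + 1))) → ℂ,
      (∀ n, AlgebraicIndependent ℚ (b n)) ∧ ∀ (v : κ) (γ : ι →₀ ℕ),
        Tendsto (fun n => MvPowerSeries.coeff γ (serX n (b n) v)) atTop
          (𝓝 (MvPowerSeries.coeff γ (A v)))

/-- SPCL: specialisation of functionals -/
def Stmt_SPCL : Prop :=
  ∀ (ι κ : Type) [Fintype ι] [DecidableEq ι] [Fintype κ] [DecidableEq κ] (w : κ → ι → ℕ)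
    (A : κ → MvPowerSeries ι ℂ) (J : Finset ι) (ν : ι → ℚ) (β : ℚ) (k₀ : ℤ)
    (X : Finset ((ι → ℚ) × ℚ)), NdC w (lead A) → XPos X → (∀ i, i ∉ J → ν i = 0) →
    (∀ (n : ℕ) (b : κ ⊕ (κ × (ι → Fin (n + 1))) → ℂ), AlgebraicIndependent ℚ b →
      ∃ Φ, Rl (wX w n) b J ν β k₀ Φ ∧ SB J ν β X Φ ∧ Nz J Φ) →
    ∃ Φ, RlS w A J ν β k₀ Φ ∧ SB J ν β X Φ ∧ Nz J Φ

/-- PACT: power series and derivations act on the functions of `VJ J` -/
def Stmt_PACT : Prop :=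
  ∀ (ι : Type) [Fintype ι] [DecidableEq ι] (J : Finset ι) (ν : ι → ℚ),
    (∀ i, i ∉ J → ν i = 0) →
    ∃ (P : MvPowerSeries ι ℂ →ₐ[ℂ] Module.End ℂ (VJ J)) (DV : ι → Module.End ℂ (VJ J)),
      (∀ i j, DV i * DV j = DV j * DV i) ∧
      (∀ i g, DV i * P g = P g * DV i + P (MvPowerSeries.pderiv ℂ i g)) ∧
      (∀ (g : MvPowerSeries ι ℂ) (φ : VJ J) (u : ι → ℤ), Al J u →
        ∀ᶠ Γ : Finset (ι →₀ ℕ) in atTop, (P g φ : (ι → ℤ) → ℂ) u =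
          ∑ γ ∈ Γ, MvPowerSeries.coeff γ g * (φ : (ι → ℤ) → ℂ) (fun j => u j + γ j)) ∧
      ∀ (i : ι) (φ : VJ J) (u : ι → ℤ), Al J u → (DV i φ : (ι → ℤ) → ℂ) u =
        -((u i : ℂ) + (ν i : ℂ)) * (φ : (ι → ℤ) → ℂ) (fun j => u j - if j = i then 1 else 0)

/-- WITL: a function with the relations gives a module with a sequence of vectors -/
def Stmt_WITL : Prop :=
  ∀ (ι κ : Type) [Fintype ι] [DecidableEq ι] [Fintype κ] [DecidableEq κ] (w : κ → ι → ℕ)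
    (A : κ → MvPowerSeries ι ℂ) (J : Finset ι) (ν : ι → ℚ) (β : ℚ) (k₀ : ℤ)
    (X : Finset ((ι → ℚ) × ℚ)) (Φ : ℤ → (ι → ℤ) → ℂ), XPos X → (∀ i, i ∉ J → ν i = 0) →
    RlS w A J ν β k₀ Φ → SB J ν β X Φ → Nz J Φ →
    ∃ (V : Type) (_ : AddCommGroup V) (_ : Module ℂ V)
      (P : MvPowerSeries ι ℂ →ₐ[ℂ] Module.End ℂ V) (DV : ι → Module.End ℂ V) (z : ℤ)
      (v : ℕ → V), (∀ i j, DV i * DV j = DV j * DV i) ∧
      (∀ i g, DV i * P g = P g * DV i + P (MvPowerSeries.pderiv ℂ i g)) ∧ v 0 ≠ 0 ∧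
      P (ser w A) (v 0) = 0 ∧ (∀ a, P (MvPowerSeries.pderiv ℂ a (ser w A)) (v 0) = 0) ∧
      (∀ i a, DV a (v i) = P (MvPowerSeries.pderiv ℂ a (ser w A)) (v (i + 1))) ∧
      ∀ i : ℕ, P (ser w A) (v (i + 1)) = (((β + z : ℚ) : ℂ) - i) • v i

/-- ETA: change of coordinates for witnesses -/
def Stmt_ETA : Prop :=
  ∀ (ι : Type) [Fintype ι] [DecidableEq ι] (R : Type) [CommRing R] [Algebra ℂ R]
    (D : ι → Derivation ℂ R R), (∀ i j g, D i (D j g) = D j (D i g)) →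
    ∀ (φ : ι → R) (M : Matrix ι ι R), (Matrix.of fun a b => D b (φ a)) * M = 1 →
    ∀ (V : Type) [AddCommGroup V] [Module ℂ V] (P : R →ₐ[ℂ] Module.End ℂ V)
      (DV : ι → Module.End ℂ V), (∀ i j, DV i * DV j = DV j * DV i) →
      (∀ i g, DV i * P g = P g * DV i + P (D i g)) →
      ∀ (f : MvPolynomial ι ℂ) (β : ℂ) (v : ℕ → V), v 0 ≠ 0 → P (aeval φ f) (v 0) = 0 →
        (∀ a, P (D a (aeval φ f)) (v 0) = 0) →
        (∀ i a, DV a (v i) = P (D a (aeval φ f)) (v (i + 1))) →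
        (∀ i : ℕ, P (aeval φ f) (v (i + 1)) = (β - i) • v i) → TS.Wit f β

/-- IIIL: the datum gives a witness for `f` -/
def Stmt_IIIL : Prop :=
  ∀ (ι κ : Type) [Fintype ι] [DecidableEq ι] [Fintype κ] [DecidableEq κ]
    (f : MvPolynomial ι ℂ) (p : ι → ℂ) (φ : ι → MvPowerSeries ι ℂ) (w : κ → ι → ℕ)
    (A : κ → MvPowerSeries ι ℂ) (h : κ → ℝ) (s₀ : ℚ), FCo p φ →
    (aeval φ f : MvPowerSeries ι ℂ) = ser w A → NdC w (lead A) → Cpt w h →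
    LinearIndependent ℚ h → (∀ z : ℤ, s₀ ≠ z) → LamDatum w h s₀ →
    ∃ (β : ℚ) (z : ℤ), β = s₀ + z ∧ TS.Wit f (β : ℂ)

/-! ## D : other points -/

/-- GDP: points of corank at most two -/
def Stmt_GDP : Prop :=
  ∀ (ι : Type) [Fintype ι] [DecidableEq ι] (f : MvPolynomial ι ℂ) (p : ι → ℂ),
    f.totalDegree ≠ 0 → p ∈ SP.Crit0 f → Fintype.card ι ≤ (SP.Hs f p).rank + 2 →
      C9.Gd f {p}

/-- GDS: smooth points -/
def Stmt_GDS : Prop :=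
  ∀ (ι : Type) [Fintype ι] [DecidableEq ι] (f : MvPolynomial ι ℂ) (p : ι → ℂ),
    eval p f = 0 → (∃ a, eval p (pderiv a f) ≠ 0) → C9.Gd f {p}

/-- POLL: the poles of the local zeta function -/
def Stmt_POLL : Prop :=
  ∀ (P : HodgeMeasure) (ι : Type) [Fintype ι] [DecidableEq ι] (f : MvPolynomial ι ℂ)
    (p : ι → ℂ), f.totalDegree ≠ 0 → C9.Gd f {p} → ∀ (e : ℕ) (R : RatFunc ℚ), 1 ≤ e →
    IsTwTopZetaAt P f p e R → GPo f R

/-! ## E : suspension -/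

/-- SZL: the local classes of `f + uv` -/
def Stmt_SZL : Prop :=
  ∀ (ι : Type) [Fintype ι] [DecidableEq ι] (f : MvPolynomial ι ℂ) (p : ι → ℂ) (R : Type)
    [CommRing R] (μ : MotivicMeasure R) (Li : R), μ.L * Li = 1 → eval p f = 0 →
    ∀ e k : ℕ, 1 ≤ e → 1 ≤ k →
      vkA μ Li (sus f) (Sum.elim p fun _ => 0) e k =
        Li ^ (k + 1) * ((μ.L - 1) * (1 - Li) *
          (∑ m ∈ Finset.range k, ((m : R) - 1) * vkA μ Li f p 1 m + ((k : R) - 1) *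
            (Li ^ Fintype.card ι - ∑ m ∈ Finset.range k, vkA μ Li f p 1 m)) +
          vkA μ Li f p e k)

/-- SLL: the local zeta functions of `f + uv` -/
def Stmt_SLL : Prop :=
  ∀ (ι : Type) [Fintype ι] [DecidableEq ι] (f : MvPolynomial ι ℂ) (p : ι → ℂ)
    (P : HodgeMeasure) (R : RatFunc ℚ), eval p f = 0 →
    IsLim (locSer1 P.rat (RatFunc.X)⁻¹ f p 1) R →
    IsLim (locSer1 P.rat (RatFunc.X)⁻¹ (sus f) (Sum.elim p fun _ => 0) 1) (susR R) ∧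
      ∀ (e : ℕ) (Re : RatFunc ℚ), 1 ≤ e → IsLim (locSer1 P.rat (RatFunc.X)⁻¹ f p e) Re →
        IsLim (locSer1 P.rat (RatFunc.X)⁻¹ (sus f) (Sum.elim p fun _ => 0) e)
          (susR R + shR (Re - R))

/-- SSL: good poles of `f + uv` give good poles of `f` -/
def Stmt_SSL : Prop :=
  ∀ (ι : Type) [Fintype ι] [DecidableEq ι] (f : MvPolynomial ι ℂ) (p : ι → ℂ)
    (P : HodgeMeasure), f.totalDegree ≠ 0 → eval p f = 0 →
    (∀ (e : ℕ) (R : RatFunc ℚ), 1 ≤ e →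
      IsTwTopZetaAt P (sus f) (Sum.elim p fun _ => 0) e R → GPo (sus f) R) →
    ∀ (e : ℕ) (R : RatFunc ℚ), 1 ≤ e → IsTwTopZetaAt P f p e R → GPo f R

/-- STN: stable version: `N` suspensions -/
def Stmt_STN : Prop :=
  ∀ (ι : Type) [Fintype ι] [DecidableEq ι] (f : MvPolynomial ι ℂ) (p : ι → ℂ)
    (P : HodgeMeasure) (N : ℕ), f.totalDegree ≠ 0 → eval p f = 0 →
    (∀ (e : ℕ) (R : RatFunc ℚ), 1 ≤ e →
      IsTwTopZetaAt P (susN N f) (Sum.elim p fun _ => 0) e R → GPo (susN N f) R) →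
    ∀ (e : ℕ) (R : RatFunc ℚ), 1 ≤ e → IsTwTopZetaAt P f p e R → GPo f R

end Pool.Agent.Mono.LO
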