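import Pool.Agent.Work.Monodromy.StatementL

/-!
# Definitions used in the statements: nondegenerate in a regular system of parameters
-/

set_option autoImplicit false

namespace Pool.Agent.Mono

open MvPolynomial

/-- `f` is nondegenerate in a regular system of parameters `Y` of the local ring of `ℂ^n` at `p`:
the power series `g` with `f = g(Y)` is nondegenerate with respect to its Newton polyhedron.
(`φ` are the formal coordinates given by `Y`, so `g = f ∘ φ`.) -/
def IsNondegenerateInParametersAt {ι : Type} [Fintype ι] [DecidableEq ι]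
    (f : MvPolynomial ι ℂ) (p : ι → ℂ) : Prop :=
  ∃ (Y : ι → MvPolynomial ι ℂ) (φ : ι → MvPowerSeries ι ℂ),
    (∀ i, MvPowerSeries.constantCoeff (φ i) = p i) ∧
    (∀ i, aeval φ (Y i) = (MvPowerSeries.X i : MvPowerSeries ι ℂ)) ∧
    IsNondegenerateSeries (aeval φ f : MvPowerSeries ι ℂ)

end Pool.Agent.Mono
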