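import Pool.Agent.Work.Monodromy.Interface14
import Pool.Agent.Work.Monodromy.InterfaceL
import Pool.Agent.Work.Monodromy.StatementM

/-!
# Phase M: the local theorem of phase L for the global zeta function; blocks (helper17)

See `MonodromyM/BLUEPRINTM.md`.
-/

set_option autoImplicit false

namespace Pool.Agent.Mono.MG

open MvPolynomial Filter Topology NP

/-! ## Definitions -/

section

variable {ι κ : Type} [Fintype ι] [DecidableEq ι] [Fintype κ] [DecidableEq κ]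

/-- the Jacobian matrix of `Y` -/
noncomputable def jm (Y : ι → MvPolynomial ι ℂ) : Matrix ι ι (MvPolynomial ι ℂ) :=
  Matrix.of fun a b => pderiv b (Y a)

/-- the derivation `D_a` with `D_a Y_b = δ_{ab} det` -/
noncomputable def dY (Y : ι → MvPolynomial ι ℂ) (a : ι) (g : MvPolynomial ι ℂ) :
    MvPolynomial ι ℂ := ∑ b, (jm Y).adjugate b a * pderiv b g

/-- the coefficients of the logarithmic derivatives: `det w_{v,i} c_v + Y_i D_i c_v` -/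
noncomputable def lg (Y : ι → MvPolynomial ι ℂ) (w : κ → ι → ℕ) (c : κ → MvPolynomial ι ℂ)
    (i : ι) (v : κ) : MvPolynomial ι ℂ :=
  (jm Y).det * C (w v i : ℂ) * c v + Y i * dY Y i (c v)

/-- `∑ c_v Y^{w_v}` -/
noncomputable def gg (Y : ι → MvPolynomial ι ℂ) (w : κ → ι → ℕ) (c : κ → MvPolynomial ι ℂ) :
    MvPolynomial ι ℂ := ∑ v, c v * ∏ i, Y i ^ w v i

/-- toroidal nondegeneracy at `x`: for all weights `k` with `k_i > 0` exactly for the `i` with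
`Y_i(x) = 0`, the leading form has no singular zero over `x` -/
def TNd (Y : ι → MvPolynomial ι ℂ) (w : κ → ι → ℕ) (c : κ → MvPolynomial ι ℂ)
    (x : ι → ℂ) : Prop :=
  ∀ k : ι → ℕ, (∀ i, eval x (Y i) = 0 ↔ k i ≠ 0) → ∀ y : ι → ℂ, (∀ i, y i ≠ 0) →
    (∀ i, k i = 0 → y i = eval x (Y i)) →
    ∑ v ∈ fc w k, eval x (c v) * ∏ i, y i ^ w v i = 0 →
      ∃ i, ∑ v ∈ fc w k, eval x (lg Y w c i v) * ∏ i', y i' ^ w v i' ≠ 0

/-- a toroidal chart on `S` -/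
structure TCh (f : MvPolynomial ι ℂ) (S : Set (ι → ℂ)) (Y : ι → MvPolynomial ι ℂ)
    (s : MvPolynomial ι ℂ) (w : κ → ι → ℕ) (c : κ → MvPolynomial ι ℂ) : Prop where
  eq : s * f = gg Y w c
  det : ∀ x ∈ S, eval x (jm Y).det ≠ 0
  s0 : ∀ x ∈ S, eval x s ≠ 0
  nd : ∀ x ∈ S, TNd Y w c x

open Classical in
/-- the support of the weights -/
noncomputable def sp (k : ι → ℕ) : Finset ι := Finset.univ.filter fun i => k i ≠ 0

/-- the points at which exactly the `Y_i`, `i ∈ A`, vanish -/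
def ZA (Y : ι → MvPolynomial ι ℂ) (A : Finset ι) : Set (ι → ℂ) :=
  {x | ∀ i, eval x (Y i) = 0 ↔ i ∈ A}

/-- the points of `jetSet` whose jet starts in `S` -/
def JS (f : MvPolynomial ι ℂ) (S : Set (ι → ℂ)) (d K : ℕ) :
    Set ((ι × Fin (K + 1)) ⊕ Unit → ℂ) :=
  {z | z ∈ jetSet f d K ∧ (fun i => z (Sum.inl (i, 0))) ∈ S}

/-- the points of `JS` at which `Y_i` has order `min (k i) (K + 1)` -/
def JtS (Y : ι → MvPolynomial ι ℂ) (f : MvPolynomial ι ℂ) (S : Set (ι → ℂ)) (d K : ℕ)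
    (k : ι → ℕ) : Set ((ι × Fin (K + 1)) ⊕ Unit → ℂ) :=
  {z | z ∈ JS f S d K ∧ ∀ i : ι,
    (∀ l < k i, l ≤ K → (aeval (jet fun q => z (Sum.inl q)) (Y i) : Polynomial ℂ).coeff l = 0) ∧
    (k i ≤ K → (aeval (jet fun q => z (Sum.inl q)) (Y i) : Polynomial ℂ).coeff (k i) ≠ 0)}

/-- `x ∈ S`, `y` in the torus with `y_i = Y_i(x)` for `i ∉ A`, `∑_{v ∈ F} c_v(x) y^{w_v} = 0` -/
def VS (Y : ι → MvPolynomial ι ℂ) (w : κ → ι → ℕ) (c : κ → MvPolynomial ι ℂ)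
    (S : Set (ι → ℂ)) (A : Finset ι) (F : Finset κ) : Set (ι ⊕ ι → ℂ) :=
  {z | (fun i => z (Sum.inl i)) ∈ S ∧ (fun i => z (Sum.inl i)) ∈ ZA Y A ∧
    (∀ i, z (Sum.inr i) ≠ 0) ∧
    (∀ i, i ∉ A → z (Sum.inr i) = eval (fun i => z (Sum.inl i)) (Y i)) ∧
    ∑ v ∈ F, eval (fun i => z (Sum.inl i)) (c v) * ∏ i, z (Sum.inr i) ^ w v i = 0}

/-- the cover `s(x) ω^d = ∑_{v ∈ F} c_v(x) y^{w_v}`, `ω ≠ 0` -/
def WS (Y : ι → MvPolynomial ι ℂ) (s : MvPolynomial ι ℂ) (w : κ → ι → ℕ)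
    (c : κ → MvPolynomial ι ℂ) (S : Set (ι → ℂ)) (A : Finset ι) (F : Finset κ) (d : ℕ) :
    Set ((ι ⊕ ι) ⊕ Unit → ℂ) :=
  {z | (fun i => z (Sum.inl (Sum.inl i))) ∈ S ∧ (fun i => z (Sum.inl (Sum.inl i))) ∈ ZA Y A ∧
    (∀ i, z (Sum.inl (Sum.inr i)) ≠ 0) ∧
    (∀ i, i ∉ A → z (Sum.inl (Sum.inr i)) = eval (fun i => z (Sum.inl (Sum.inl i))) (Y i)) ∧
    z (Sum.inr ()) ≠ 0 ∧
    eval (fun i => z (Sum.inl (Sum.inl i))) s * z (Sum.inr ()) ^ d =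
      ∑ v ∈ F, eval (fun i => z (Sum.inl (Sum.inl i))) (c v) *
        ∏ i, z (Sum.inl (Sum.inr i)) ^ w v i}

/-- the contribution of `k` to the coefficient `K` -/
noncomputable def ctS (E : HodgeMeasure) (Y : ι → MvPolynomial ι ℂ) (s : MvPolynomial ι ℂ)
    (w : κ → ι → ℕ) (c : κ → MvPolynomial ι ℂ) (S : Set (ι → ℂ)) (d K : ℕ) (u : ℝ)
    (k : ι → ℕ) : ℝ :=
  u⁻¹ ^ (∑ i, k i) *
    (if mnk w k = K then Polynomial.aeval u (E.val (WS Y s w c S (sp k) (fc w k) d))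
    else if mnk w k < K then
      Polynomial.aeval u (E.val (VS Y w c S (sp k) (fc w k))) * (u - 1) * u⁻¹ ^ (K - mnk w k)
    else 0)

/-- the contribution of `k` to the value at `T = u^{-r}` -/
noncomputable def exS (E : HodgeMeasure) (Y : ι → MvPolynomial ι ℂ) (s : MvPolynomial ι ℂ)
    (w : κ → ι → ℕ) (c : κ → MvPolynomial ι ℂ) (S : Set (ι → ℂ)) (d r : ℕ) (u : ℝ)
    (k : ι → ℕ) : ℝ :=
  u⁻¹ ^ (∑ i, k i + r * mnk w k) *
    (Polynomial.aeval u (E.val (WS Y s w c S (sp k) (fc w k) d)) +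
      Polynomial.aeval u (E.val (VS Y w c S (sp k) (fc w k))) * ((u - 1) / (u ^ (r + 1) - 1)))

/-- the exponents restricted to `A` -/
def wA (w : κ → ι → ℕ) (A : Finset ι) (v : κ) (i : A) : ℕ := w v i

/-- the sum over the `k` with support `A` and face `F` -/
noncomputable def SgA (w : κ → ι → ℕ) (r : ℕ) (A : Finset ι) (F : Finset κ) (u : ℝ) : ℝ :=
  ∑' k : {k : ι → ℕ // sp k = A ∧ fc w k = F},
    u⁻¹ ^ (∑ i, (k : ι → ℕ) i + r * mnk w (k : ι → ℕ))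

/-- `P = (X - 1)^m q` with `q(1) = n` -/
def Qd (P : Polynomial ℤ) (m : ℕ) (n : ℤ) : Prop :=
  ∃ q : Polynomial ℤ, P = (Polynomial.X - 1) ^ m * q ∧ q.eval 1 = n

end

section

variable {σ ι κ : Type} [Fintype ι] [Fintype κ]

/-- the family of hypersurfaces `∑ g_v(x) y^{w_v} = 0` in the torus over `S` -/
def VE (g : κ → MvPolynomial σ ℂ) (w : κ → ι → ℕ) (S : Set (σ → ℂ)) : Set (σ ⊕ ι → ℂ) :=
  {z | (fun e => z (Sum.inl e)) ∈ S ∧ (∀ i, z (Sum.inr i) ≠ 0) ∧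
    ∑ v, eval (fun e => z (Sum.inl e)) (g v) * ∏ i, z (Sum.inr i) ^ w v i = 0}

end

/-! ## A : openness -/

/-- TORG: the points of the affine toric variety of the `(w_v, 1)` and `(e_i, 0)` -/
def Stmt_TORG : Prop :=
  ∀ (ι κ : Type) [Fintype ι] [DecidableEq ι] [Fintype κ] [DecidableEq κ] (w : κ → ι → ℕ)
    (t : κ → ℂ) (z : ι → ℂ), (∀ (m m' : κ → ℕ) (γ γ' : ι → ℕ), ∑ v, m v = ∑ v, m' v →
      (∀ i, ∑ v, m v * w v i + γ i = ∑ v, m' v * w v i + γ' i) →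
      (∏ v, t v ^ m v) * ∏ i, z i ^ γ i = (∏ v, t v ^ m' v) * ∏ i, z i ^ γ' i) →
    (∃ v, t v ≠ 0) → ∃ (k : ι → ℕ) (y : ι → ℂ) (b : ℂ), (∀ i, z i = 0 ↔ k i ≠ 0) ∧
      (∀ i, y i ≠ 0) ∧ (∀ i, k i = 0 → y i = z i) ∧ b ≠ 0 ∧ (∀ v, v ∈ fc w k ↔ t v ≠ 0) ∧
      ∀ v ∈ fc w k, t v = b * ∏ i, y i ^ w v i

/-- NLP: Nullstellensatz in the fibre over `p` -/
def Stmt_NLP : Prop :=
  ∀ (ι κ : Type) [Fintype ι] [DecidableEq ι] [Fintype κ] [DecidableEq κ] (w : κ → ι → ℕ)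
    (z : ι → ℂ) (ℓ : Option ι → κ → ℂ),
    (∀ (k : ι → ℕ) (y : ι → ℂ), (∀ i, z i = 0 ↔ k i ≠ 0) → (∀ i, y i ≠ 0) →
      (∀ i, k i = 0 → y i = z i) → (fc w k).Nonempty →
        ∃ o, ∑ v ∈ fc w k, ℓ o v * ∏ i, y i ^ w v i ≠ 0) →
    ∃ d : ℕ, 1 ≤ d ∧ ∀ m : κ →₀ ℕ, m.degree = d →
      ∃ (G : Option ι → MvPolynomial κ ℂ) (n : ℕ) (lam : Fin n → ℂ) (a b : Fin n → κ →₀ ℕ)
        (γ γ' : Fin n → ι → ℕ), (∀ o, (G o).IsHomogeneous (d - 1)) ∧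
        (∀ j, (a j).degree = d ∧ (b j).degree = d) ∧
        (∀ j i, ∑ v, a j v * w v i + γ j i = ∑ v, b j v * w v i + γ' j i) ∧
        (monomial m 1 : MvPolynomial κ ℂ) = ∑ o, G o * ∑ v, C (ℓ o v) * X v +
          ∑ j, C (lam j) * (C (∏ i, z i ^ γ j i) * monomial (a j) 1 -
            C (∏ i, z i ^ γ' j i) * monomial (b j) 1)

/-- OPN: toroidal charts extend to neighbourhoods -/
def Stmt_OPN : Prop :=
  ∀ (ι κ : Type) [Fintype ι] [DecidableEq ι] [Fintype κ] [DecidableEq κ]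
    (f : MvPolynomial ι ℂ) (p : ι → ℂ) (Y : ι → MvPolynomial ι ℂ) (s : MvPolynomial ι ℂ)
    (w : κ → ι → ℕ) (c : κ → MvPolynomial ι ℂ), TCh f {p} Y s w c →
    ∃ σ : MvPolynomial ι ℂ, eval p σ ≠ 0 ∧ TCh f {x | eval x σ ≠ 0} Y s w c

/-- KRL: Krull's intersection theorem -/
def Stmt_KRL : Prop :=
  ∀ (ι : Type) [Fintype ι] [DecidableEq ι] (I : Ideal (MvPolynomial ι ℂ)) (p : ι → ℂ)
    (f : MvPolynomial ι ℂ), (∀ N : ℕ, f ∈ I ⊔ C9.mI p ^ N) →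
    ∃ s : MvPolynomial ι ℂ, eval p s ≠ 0 ∧ s * f ∈ I

/-- FLT: formal coordinates given by parameters `Y` preserve the order -/
def Stmt_FLT : Prop :=
  ∀ (ι : Type) [Fintype ι] [DecidableEq ι] (p : ι → ℂ) (Y : ι → MvPolynomial ι ℂ)
    (φ : ι → MvPowerSeries ι ℂ), (∀ i, MvPowerSeries.constantCoeff (φ i) = p i) →
    (∀ i, aeval φ (Y i) = (MvPowerSeries.X i : MvPowerSeries ι ℂ)) →
    LO.FCo p φ ∧ eval p (jm Y).det ≠ 0 ∧ (∀ i, eval p (Y i) = 0) ∧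
      ∀ (N : ℕ) (h : MvPolynomial ι ℂ), (∀ m : ι →₀ ℕ, m.degree < N →
        MvPowerSeries.coeff m (aeval φ h : MvPowerSeries ι ℂ) = 0) → h ∈ C9.mI p ^ N

/-- CHX: points which are nondegenerate in parameters have a chart -/
def Stmt_CHX : Prop :=
  ∀ (ι : Type) [Fintype ι] [DecidableEq ι] (f : MvPolynomial ι ℂ) (p : ι → ℂ),
    IsNondegenerateInParametersAt f p →
    IsNondegenerateAt f p ∧ ∃ (κ : Type) (_ : Fintype κ) (_ : DecidableEq κ)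
      (Y : ι → MvPolynomial ι ℂ) (s : MvPolynomial ι ℂ) (w : κ → ι → ℕ)
      (c : κ → MvPolynomial ι ℂ), Nonempty κ ∧ TCh f {p} Y s w c

/-! ## B : jets -/

/-- JDF: first order differences of jets -/
def Stmt_JDF : Prop :=
  ∀ (ι : Type) [Fintype ι] [DecidableEq ι] (K e : ℕ) (z z' : ι × Fin (K + 1) → ℂ), 1 ≤ e →
    (∀ (i : ι) (l : Fin (K + 1)), (l : ℕ) < e → z' (i, l) = z (i, l)) →
    ∀ g : MvPolynomial ι ℂ, (∀ l < e,
      (aeval (jet z') g : Polynomial ℂ).coeff l = (aeval (jet z) g : Polynomial ℂ).coeff l) ∧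
      ∀ l₀ : Fin (K + 1), (l₀ : ℕ) = e →
        (aeval (jet z') g : Polynomial ℂ).coeff e - (aeval (jet z) g : Polynomial ℂ).coeff e =
          ∑ b, eval (fun i => z (i, 0)) (pderiv b g) * (z' (b, l₀) - z (b, l₀))

/-- JBJ: jets in étale coordinates -/
def Stmt_JBJ : Prop :=
  ∀ (ι : Type) [Fintype ι] [DecidableEq ι] (Y : ι → MvPolynomial ι ℂ) (K : ℕ) (x₀ : ι → ℂ),
    eval x₀ (jm Y).det ≠ 0 → ∀ y : ι × Fin (K + 1) → ℂ, (∀ i, y (i, 0) = eval x₀ (Y i)) →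
      ∃! z : ι × Fin (K + 1) → ℂ, (∀ i, z (i, 0) = x₀ i) ∧
        ∀ (i : ι) (l : Fin (K + 1)), (aeval (jet z) (Y i) : Polynomial ℂ).coeff l = y (i, l)

/-- XPDM: the coefficients of `∑ c_v Y^{w_v}` on a jet of order `k` (as `Stmt_XPD`) -/
def Stmt_XPDM : Prop :=
  ∀ (ι κ : Type) [Fintype ι] [DecidableEq ι] [Fintype κ] [DecidableEq κ] [Nonempty κ]
    (Y : ι → MvPolynomial ι ℂ) (w : κ → ι → ℕ) (c : κ → MvPolynomial ι ℂ) (K : ℕ)
    (k : ι → ℕ) (z : ι × Fin (K + 1) → ℂ),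
    (∀ i, ∀ l < k i, l ≤ K → (aeval (jet z) (Y i) : Polynomial ℂ).coeff l = 0) →
    (∀ l < mnk w k, l ≤ K → (aeval (jet z) (gg Y w c) : Polynomial ℂ).coeff l = 0) ∧
    ∀ y : ι → ℂ, (∀ i, k i ≤ K → y i = (aeval (jet z) (Y i) : Polynomial ℂ).coeff (k i)) →
    (mnk w k ≤ K → (aeval (jet z) (gg Y w c) : Polynomial ℂ).coeff (mnk w k) =
      ∑ v ∈ fc w k, eval (fun i => z (i, 0)) (c v) * ∏ i, y i ^ w v i) ∧
    ∀ (j : ℕ) (i₀ : ι) (z' : ι × Fin (K + 1) → ℂ), 1 ≤ j → mnk w k + j ≤ K → k i₀ + j ≤ K →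
      eval (fun i => z (i, 0)) (jm Y).det ≠ 0 → (∀ i, z' (i, 0) = z (i, 0)) →
      (∀ i l, l ≤ K → (i ≠ i₀ ∨ l < k i₀ + j) → (aeval (jet z') (Y i) : Polynomial ℂ).coeff l =
        (aeval (jet z) (Y i) : Polynomial ℂ).coeff l) →
      eval (fun i => z (i, 0)) (jm Y).det * y i₀ *
        ((aeval (jet z') (gg Y w c) : Polynomial ℂ).coeff (mnk w k + j) -
          (aeval (jet z) (gg Y w c) : Polynomial ℂ).coeff (mnk w k + j)) =
      ((aeval (jet z') (Y i₀) : Polynomial ℂ).coeff (k i₀ + j) -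
        (aeval (jet z) (Y i₀) : Polynomial ℂ).coeff (k i₀ + j)) *
        ∑ v ∈ fc w k, eval (fun i => z (i, 0)) (lg Y w c i₀ v) * ∏ i, y i ^ w v i

/-- CLS0M: jets on which the leading form does not vanish -/
def Stmt_CLS0M : Prop :=
  ∀ (ι κ : Type) [Fintype ι] [DecidableEq ι] [Fintype κ] [DecidableEq κ] [Nonempty κ]
    (f : MvPolynomial ι ℂ) (S : Set (ι → ℂ)) (Y : ι → MvPolynomial ι ℂ)
    (s : MvPolynomial ι ℂ) (w : κ → ι → ℕ) (c : κ → MvPolynomial ι ℂ) (R : Type) [CommRing R]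
    (μ : MotivicMeasure R) (d K : ℕ) (k : ι → ℕ), Constructible S → TCh f S Y s w c → 1 ≤ d →
    mnk w k = K →
    μ.val (JtS Y f S d K k) * (μ.L - 1) ^ (Finset.univ.filter fun i => K < k i).card =
      μ.val (WS Y s w c S (sp k) (fc w k) d) * μ.L ^ (∑ i, (K - k i))

/-- CLS1M: jets on which the leading form vanishes -/
def Stmt_CLS1M : Prop :=
  ∀ (ι κ : Type) [Fintype ι] [DecidableEq ι] [Fintype κ] [DecidableEq κ] [Nonempty κ]
    (f : MvPolynomial ι ℂ) (S : Set (ι → ℂ)) (Y : ι → MvPolynomial ι ℂ)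
    (s : MvPolynomial ι ℂ) (w : κ → ι → ℕ) (c : κ → MvPolynomial ι ℂ) (R : Type) [CommRing R]
    (μ : MotivicMeasure R) (d K : ℕ) (k : ι → ℕ), Constructible S → TCh f S Y s w c → 1 ≤ d →
    mnk w k < K →
    μ.val (JtS Y f S d K k) * (μ.L - 1) ^ (Finset.univ.filter fun i => K < k i).card *
        μ.L ^ (K - mnk w k) =
      μ.val (VS Y w c S (sp k) (fc w k)) * (μ.L - 1) * μ.L ^ (∑ i, (K - k i))

/-- CLS2M: jets of too large order -/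
def Stmt_CLS2M : Prop :=
  ∀ (ι κ : Type) [Fintype ι] [DecidableEq ι] [Fintype κ] [DecidableEq κ] [Nonempty κ]
    (f : MvPolynomial ι ℂ) (S : Set (ι → ℂ)) (Y : ι → MvPolynomial ι ℂ)
    (s : MvPolynomial ι ℂ) (w : κ → ι → ℕ) (c : κ → MvPolynomial ι ℂ) (d K : ℕ) (k : ι → ℕ),
    TCh f S Y s w c → K < mnk w k → JtS Y f S d K k = ∅

/-- SUMKM: the coefficients of the zeta function of `S` as sums over `k ∈ ℕ^ι` -/
def Stmt_SUMKM : Prop :=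
  ∀ (ι κ : Type) [Fintype ι] [DecidableEq ι] [Fintype κ] [DecidableEq κ] [Nonempty κ]
    (E : HodgeMeasure) (f : MvPolynomial ι ℂ) (S : Set (ι → ℂ)) (Y : ι → MvPolynomial ι ℂ)
    (s : MvPolynomial ι ℂ) (w : κ → ι → ℕ) (c : κ → MvPolynomial ι ℂ) (d K : ℕ) (u : ℝ),
    Constructible S → TCh f S Y s w c → 1 ≤ d → 1 < u →
    HasSum (ctS E Y s w c S d K u)
      (Polynomial.aeval u (E.val (JS f S d K)) * u⁻¹ ^ (K * Fintype.card ι))

/-- EXCHM: the zeta function of `S` at `T = u^{-r}` -/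
def Stmt_EXCHM : Prop :=
  ∀ (ι κ : Type) [Fintype ι] [DecidableEq ι] [Fintype κ] [DecidableEq κ] [Nonempty κ]
    (E : HodgeMeasure) (f : MvPolynomial ι ℂ) (S : Set (ι → ℂ)) (Y : ι → MvPolynomial ι ℂ)
    (s : MvPolynomial ι ℂ) (w : κ → ι → ℕ) (c : κ → MvPolynomial ι ℂ) (d : ℕ) (u : ℝ) (r : ℕ),
    Constructible S → TCh f S Y s w c → 1 ≤ d → 1 < u →
    (Summable fun K : ℕ =>
      |Polynomial.aeval u (E.val (JS f S d K))| * u⁻¹ ^ (K * Fintype.card ι)) ∧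
    HasSum (exS E Y s w c S d r u) (∑' K : ℕ, Polynomial.aeval u (E.val (JS f S d K)) *
      u⁻¹ ^ (K * Fintype.card ι) * u⁻¹ ^ (K * r))

/-! ## C : classes in families -/

/-- TORF: a torus splits off -/
def Stmt_TORF : Prop :=
  ∀ (ι κ : Type) [Fintype ι] [DecidableEq ι] [Fintype κ] [DecidableEq κ] [Nonempty κ]
    (w : κ → ι → ℕ), ∃ (d : ℕ) (c : κ → Fin d → ℕ), d ≤ Fintype.card ι ∧
      d + 1 = rk w Finset.univ ∧ ∀ (σ : Type) [Finite σ] (g : κ → MvPolynomial σ ℂ)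
        (S : Set (σ → ℂ)), Constructible S → ∀ (R : Type) [CommRing R] (μ : MotivicMeasure R),
          μ.val (VE g w S) = (μ.L - 1) ^ (Fintype.card ι - d) * μ.val (VE g c S)

/-- PRT: generically constant functions are constant on the parts of a constructible partition -/
def Stmt_PRT : Prop :=
  ∀ (σ : Type) [Finite σ] (α : Type) (φ : (σ → ℂ) → α),
    (∀ I : Ideal (MvPolynomial σ ℂ), I.IsPrime → ∃ s : MvPolynomial σ ℂ, s ∉ I ∧
      ∃ a : α, ∀ p : σ → ℂ, (∀ g ∈ I, eval p g = 0) → eval p s ≠ 0 → φ p = a) →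
    ∃ (n : ℕ) (T : Fin n → Set (σ → ℂ)) (a : Fin n → α), (∀ j, Constructible (T j)) ∧
      (∀ p, ∃! j, p ∈ T j) ∧ ∀ j, ∀ p ∈ T j, φ p = a j

/-- RTS: the number of common zeros of polynomials in one variable is generically constant -/
def Stmt_RTS : Prop :=
  ∀ (σ : Type) [Finite σ] (G : Finset (MvPolynomial (σ ⊕ Unit) ℂ))
    (I : Ideal (MvPolynomial σ ℂ)), I.IsPrime → ∃ s : MvPolynomial σ ℂ, s ∉ I ∧
      ((∀ p : σ → ℂ, (∀ g ∈ I, eval p g = 0) → eval p s ≠ 0 → ∀ t : Unit → ℂ, ∀ g ∈ G,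
        eval (Sum.elim p t) g = 0) ∨
      ∃ n : ℕ, ∀ p : σ → ℂ, (∀ g ∈ I, eval p g = 0) → eval p s ≠ 0 →
        ∃ B : Finset (Unit → ℂ), B.card = n ∧
          ∀ t : Unit → ℂ, t ∈ B ↔ ∀ g ∈ G, eval (Sum.elim p t) g = 0)

/-- CTB1: the Euler characteristic of the fibres, one variable -/
def Stmt_CTB1 : Prop :=
  ∀ (E : EulerMeasure) (σ : Type) [Finite σ] (V : Set (σ ⊕ Unit → ℂ)), Constructible V →
    ∃ (n : ℕ) (T : Fin n → Set (σ → ℂ)) (χ : Fin n → ℤ), (∀ j, Constructible (T j)) ∧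
      (∀ p, ∃! j, p ∈ T j) ∧
      ∀ j, ∀ p ∈ T j, (E.val {t : Unit → ℂ | Sum.elim p t ∈ V}).eval 1 = χ j

/-- CTB: the Euler characteristic of the fibres -/
def Stmt_CTB : Prop :=
  ∀ (E : EulerMeasure) (σ η : Type) [Finite σ] [Finite η] (V : Set (σ ⊕ η → ℂ)),
    Constructible V →
    ∃ (n : ℕ) (T : Fin n → Set (σ → ℂ)) (χ : Fin n → ℤ), (∀ j, Constructible (T j)) ∧
      (∀ p, ∃! j, p ∈ T j) ∧
      ∀ j, ∀ p ∈ T j, (E.val {y : η → ℂ | Sum.elim p y ∈ V}).eval 1 = χ j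

/-- FAMV: the classes of `VS` over the parts of a partition -/
def Stmt_FAMV : Prop :=
  ∀ (E : EulerMeasure) (ι κ : Type) [Fintype ι] [DecidableEq ι] [Fintype κ] [DecidableEq κ]
    (Y : ι → MvPolynomial ι ℂ) (w : κ → ι → ℕ) (c : κ → MvPolynomial ι ℂ) (A : Finset ι)
    (F : Finset κ), F.Nonempty →
    ∃ (n : ℕ) (T : Fin n → Set (ι → ℂ)) (χ : Fin n → ℤ), (∀ j, Constructible (T j)) ∧
      (∀ p, ∃! j, p ∈ T j) ∧ ∀ j, ∀ S : Set (ι → ℂ), Constructible S → S ⊆ T j →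
        Qd (E.val (VS Y w c S A F)) (A.card + 1 - rk (wA w A) F) (χ j * (E.val S).eval 1)

/-- FAMW: the classes of `WS` over the parts of a partition -/
def Stmt_FAMW : Prop :=
  ∀ (E : EulerMeasure) (ι κ : Type) [Fintype ι] [DecidableEq ι] [Fintype κ] [DecidableEq κ]
    (Y : ι → MvPolynomial ι ℂ) (s : MvPolynomial ι ℂ) (w : κ → ι → ℕ)
    (c : κ → MvPolynomial ι ℂ) (A : Finset ι) (F : Finset κ) (d : ℕ), F.Nonempty → 1 ≤ d →
    ∃ (n : ℕ) (T : Fin n → Set (ι → ℂ)) (χ : Fin n → ℤ), (∀ j, Constructible (T j)) ∧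
      (∀ p, ∃! j, p ∈ T j) ∧ ∀ j, ∀ S : Set (ι → ℂ), Constructible S → S ⊆ T j →
        Qd (E.val (WS Y s w c S A F d)) (A.card + 1 - rk (wA w A) F)
          (χ j * (E.val S).eval 1)

/-- GRKA: growth of the sums over `k` -/
def Stmt_GRKA : Prop :=
  ∀ (ι κ : Type) [Fintype ι] [DecidableEq ι] [Fintype κ] [DecidableEq κ] [Nonempty κ]
    (w : κ → ι → ℕ) (r : ℕ) (A : Finset ι) (F : Finset κ), F.Nonempty →
    (∀ u : ℝ, 1 < u → Summable fun k : {k : ι → ℕ // sp k = A ∧ fc w k = F} =>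
      u⁻¹ ^ (∑ i, (k : ι → ℕ) i + r * mnk w (k : ι → ℕ))) ∧
    ∃ B : ℝ, ∀ᶠ u : ℝ in 𝓝[>] 1, |(u - 1) ^ (A.card + 1 - rk (wA w A) F) * SgA w r A F u| ≤ B

/-- CMPM: comparison of the zeta functions of `S` and of a point of `S` -/
def Stmt_CMPM : Prop :=
  ∀ (E : EulerMeasure) (ι κ : Type) [Fintype ι] [DecidableEq ι] [Fintype κ] [DecidableEq κ]
    [Nonempty κ] (f : MvPolynomial ι ℂ) (S : Set (ι → ℂ)) (Y : ι → MvPolynomial ι ℂ)
    (s : MvPolynomial ι ℂ) (w : κ → ι → ℕ) (c : κ → MvPolynomial ι ℂ) (A : Finset ι)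
    (x₀ : ι → ℂ) (e : ℕ), 1 ≤ e → Constructible S → TCh f S Y s w c → S ⊆ ZA Y A →
    (∀ x ∈ S, eval x f = 0) → x₀ ∈ S →
    (∀ F : Finset κ, F.Nonempty → ∃ χ : ℤ,
      Qd (E.val (VS Y w c S A F)) (A.card + 1 - rk (wA w A) F) (χ * (E.val S).eval 1) ∧
      Qd (E.val (VS Y w c {x₀} A F)) (A.card + 1 - rk (wA w A) F) χ) →
    (∀ d ∈ e.divisors, ∀ F : Finset κ, F.Nonempty → ∃ χ : ℤ,
      Qd (E.val (WS Y s w c S A F d)) (A.card + 1 - rk (wA w A) F) (χ * (E.val S).eval 1) ∧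
      Qd (E.val (WS Y s w c {x₀} A F d)) (A.card + 1 - rk (wA w A) F) χ) →
    ∀ r : ℕ, Tendsto (fun u : ℝ =>
      zL (Fintype.card ι) (fun d m => E.val (JS f S d m)) e r u -
        (((E.val S).eval 1 : ℤ) : ℝ) *
          zL (Fintype.card ι) (fun d m => E.val (JS f {x₀} d m)) e r u) (𝓝[>] 1) (𝓝 0)

/-- PCS: a region is covered by parts on which the local zeta functions agree -/
def Stmt_PCS : Prop :=
  ∀ (E : EulerMeasure) (ι κ : Type) [Fintype ι] [DecidableEq ι] [Fintype κ] [DecidableEq κ]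
    [Nonempty κ] (f : MvPolynomial ι ℂ) (S : Set (ι → ℂ)) (Y : ι → MvPolynomial ι ℂ)
    (s : MvPolynomial ι ℂ) (w : κ → ι → ℕ) (c : κ → MvPolynomial ι ℂ) (e : ℕ), 1 ≤ e →
    Constructible S → TCh f S Y s w c → (∀ x ∈ S, eval x f = 0) →
    ∃ (n : ℕ) (T : Fin n → Set (ι → ℂ)) (x : Fin n → ι → ℂ), (∀ j, Constructible (T j)) ∧
      (∀ p ∈ S, ∃! j, p ∈ T j) ∧ (∀ j, T j ⊆ S) ∧ (∀ j, x j ∈ T j) ∧
      ∀ j, SmL (Fintype.card ι) (fun d m => E.val (JS f (T j) d m)) ∧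
        ∀ r : ℕ, Tendsto (fun u : ℝ =>
          zL (Fintype.card ι) (fun d m => E.val (JS f (T j) d m)) e r u -
            (((E.val (T j)).eval 1 : ℤ) : ℝ) *
              zL (Fintype.card ι) (fun d m => E.val (JS f {x j} d m)) e r u) (𝓝[>] 1) (𝓝 0)

/-! ## D : points and gluing -/

/-- RLIL: the local zeta function of the model, limits over real numbers (as `Stmt_RLI14`) -/
def Stmt_RLIL : Prop :=
  ∀ (E : EulerMeasure) (ι κ : Type) [Fintype ι] [DecidableEq ι] [Fintype κ] [DecidableEq κ]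
    [Nonempty κ] (w : κ → ι → ℕ) (a : κ → ℂ) (h : κ → ℝ) (e : ℕ)
    (P D : MvPolynomial (ι ⊕ Unit) ℚ), Function.Injective w → LO.NdC w a →
    LinearIndependent ℚ h → LO.Cpt w h → 1 ≤ e →
    (∀ y : ι ⊕ Unit → ℝ, Gen w h y → Tf w h e y * aeval y D = aeval y P) →
    aeval (line ι) D ≠ 0 →
    SmL (Fintype.card ι) (fun d m => E.val (jetAt (poly w a) (fun _ => 0) d m)) ∧
    ∃ c : ℚ, ∀ᶠ r : ℕ in atTop, Tendsto
      (zL (Fintype.card ι) (fun d m => E.val (jetAt (poly w a) (fun _ => 0) d m)) e r) (𝓝[>] 1)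
        (𝓝 ((((pref e * (aeval (line ι) P / aeval (line ι) D) + RatFunc.C c).eval
          (RingHom.id ℚ) (r : ℚ) : ℚ) : ℝ)))

/-- PTLM: the local zeta function at a nondegenerate point -/
def Stmt_PTLM : Prop :=
  ∀ (E : EulerMeasure) (ι : Type) [Fintype ι] [DecidableEq ι] (f : MvPolynomial ι ℂ)
    (p : ι → ℂ) (e : ℕ), f.totalDegree ≠ 0 → p ∈ SP.Crit0 f → IsNondegenerateAt f p → 1 ≤ e →
    SmL (Fintype.card ι) (fun d m => E.val (JS f {p} d m)) ∧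
    ∃ V : RatFunc ℚ, LO.GPo f V ∧ ∀ᶠ r : ℕ in atTop, Tendsto
      (zL (Fintype.card ι) (fun d m => E.val (JS f {p} d m)) e r) (𝓝[>] 1)
        (𝓝 ((((V.eval (RingHom.id ℚ) (r : ℚ) : ℚ)) : ℝ)))

/-- GDM: sets of points of corank at most two or semi-quasi-homogeneous -/
def Stmt_GDM : Prop :=
  ∀ (ι : Type) [Fintype ι] [DecidableEq ι] (f : MvPolynomial ι ℂ), f.totalDegree ≠ 0 →
    ∀ S : Set (ι → ℂ), Constructible S → S ⊆ SP.Crit0 f →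
      (∀ p ∈ S, Fintype.card ι ≤ (SP.Hs f p).rank + 2 ∨ ∃ r, RO.SQAt f p r) → C9.Gd f S

/-- VOLM: the classes of the jets which start in `S` are volumes -/
def Stmt_VOLM : Prop :=
  ∀ (P : HodgeMeasure) (ι : Type) [Fintype ι] [DecidableEq ι] (f : MvPolynomial ι ℂ)
    (S : Set (ι → ℂ)) (e m : ℕ), Constructible S →
    toRat (P.val (JS f S e m)) * TS.xq ^ (m * Fintype.card ι) =
      P.rat.L ^ Fintype.card ι * vol P.rat TS.xq (SP.ZL f S (SP.POL8Aux.QE e) m)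

/-- DECM: the zeta function minus the parts over the `T j` -/
def Stmt_DECM : Prop :=
  ∀ (P : HodgeMeasure) (ι β : Type) [Fintype ι] [DecidableEq ι] [Fintype β]
    (f : MvPolynomial ι ℂ) (T : β → Set (ι → ℂ)), (∀ j, Constructible (T j)) →
    (∀ j, T j ⊆ SP.Crit0 f) → (∀ i j, i ≠ j → Disjoint (T i) (T j)) →
    C9.Gd f (SP.Crit0 f \ ⋃ j, T j) → ∀ d : ℕ, 1 ≤ d →
    TS.ESeq ({1} ∪ C9.EV f) fun m => PowerSeries.coeff m (zetaSer1 P.rat (RatFunc.X)⁻¹ f d) -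
      ∑ j, if m = 0 then 0 else
        toRat (P.val (JS f (T j) d m)) * (RatFunc.X)⁻¹ ^ (m * Fintype.card ι)

/-- QCM: quasi-compactness -/
def Stmt_QCM : Prop :=
  ∀ (σ : Type) [Finite σ] (S : Set (σ → ℂ)) (g : (σ → ℂ) → MvPolynomial σ ℂ),
    (∀ p ∈ S, eval p (g p) ≠ 0) → ∃ B : Finset (σ → ℂ), (∀ p ∈ B, p ∈ S) ∧
      ∀ p ∈ S, ∃ q ∈ B, eval p (g q) ≠ 0

/-- FINM: the theorem -/
def Stmt_FINM : Prop :=
  ∀ (E : EulerMeasure) (ι : Type) [Fintype ι] [DecidableEq ι] (f : MvPolynomial ι ℂ)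
    (e : ℕ) (R : RatFunc ℚ), f.totalDegree ≠ 0 →
    (∀ p ∈ SP.Crit0 f, Fintype.card ι ≤ (SP.Hs f p).rank + 2 ∨ (∃ r, RO.SQAt f p r) ∨
      (Iso0 f p ∧ IsNondegenerateAt f p) ∨ IsNondegenerateInParametersAt f p) → 1 ≤ e →
    IsTwTopZeta E.toHodgeMeasure f e R → LO.GPo f R

end Pool.Agent.Mono.MG
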