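import Pool.Agent.Work.Monodromy.Interface

/-!
# Limits: additivity, products, scalars; uniqueness of limits
-/

namespace Pool.Agent.Mono

open Polynomial in
theorem LimOne.mk_div (p q : ℚ[X]) (hq : q.eval 1 ≠ 0) :
    LimOne (algebraMap ℚ[X] (RatFunc ℚ) p / algebraMap ℚ[X] (RatFunc ℚ) q)
      (p.eval 1 / q.eval 1) := by
  have hq0 : q ≠ 0 := by rintro rfl; simp at hq
  have hdvd := RatFunc.denom_div_dvd p q
  have hden : (RatFunc.denom (algebraMap ℚ[X] (RatFunc ℚ) p /
      algebraMap ℚ[X] (RatFunc ℚ) q)).eval 1 ≠ 0 := by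
    obtain ⟨r, hr⟩ := hdvd
    intro h
    apply hq
    rw [hr, Polynomial.eval_mul, h, zero_mul]
  refine ⟨hden, ?_⟩
  set x := algebraMap ℚ[X] (RatFunc ℚ) p / algebraMap ℚ[X] (RatFunc ℚ) q with hx
  have h1 : RatFunc.num x * q = p * RatFunc.denom x := by
    rw [RatFunc.num_mul_eq_mul_denom_iff hq0]
  have h2 := congrArg (Polynomial.eval 1) h1
  rw [Polynomial.eval_mul, Polynomial.eval_mul] at h2
  rw [RatFunc.eval, Polynomial.eval₂_id, Polynomial.eval₂_id, div_eq_div_iff hden hq]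
  exact h2

theorem LimOne.unique {g : RatFunc ℚ} {v w : ℚ} (h : LimOne g v) (h' : LimOne g w) : v = w :=
  h.2.symm.trans h'.2

theorem LimOne.add {g g' : RatFunc ℚ} {v v' : ℚ} (h : LimOne g v) (h' : LimOne g' v') :
    LimOne (g + g') (v + v') := by
  refine ⟨?_, ?_⟩
  · obtain ⟨r, hr⟩ := RatFunc.denom_add_dvd g g'
    intro hz
    have := congrArg (Polynomial.eval 1) hr
    rw [Polynomial.eval_mul, Polynomial.eval_mul, hz, zero_mul] at this
    exact (mul_ne_zero h.1 h'.1) this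
  · rw [RatFunc.eval_add, h.2, h'.2]
    · simpa [Polynomial.eval₂_id] using h.1
    · simpa [Polynomial.eval₂_id] using h'.1

theorem LimOne.mul {g g' : RatFunc ℚ} {v v' : ℚ} (h : LimOne g v) (h' : LimOne g' v') :
    LimOne (g * g') (v * v') := by
  refine ⟨?_, ?_⟩
  · obtain ⟨r, hr⟩ := RatFunc.denom_mul_dvd g g'
    intro hz
    have := congrArg (Polynomial.eval 1) hr
    rw [Polynomial.eval_mul, Polynomial.eval_mul, hz, zero_mul] at this
    exact (mul_ne_zero h.1 h'.1) this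
  · rw [RatFunc.eval_mul, h.2, h'.2]
    · simpa [Polynomial.eval₂_id] using h.1
    · simpa [Polynomial.eval₂_id] using h'.1

open Polynomial in
theorem LimOne.algebraMap (p : ℚ[X]) :
    LimOne (algebraMap ℚ[X] (RatFunc ℚ) p) (p.eval 1) := by
  simpa using LimOne.mk_div p 1 (by simp)

theorem LimOne.one : LimOne 1 1 := by
  simpa using LimOne.algebraMap 1

theorem LimOne.zero : LimOne 0 0 := by
  simpa using LimOne.algebraMap 0

theorem LimOne.toRat (p : Polynomial ℤ) : LimOne (toRat p) ((p.eval 1 : ℤ) : ℚ) := by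
  have h := LimOne.algebraMap (p.map (Int.castRingHom ℚ))
  have h1 : (p.map (Int.castRingHom ℚ)).eval 1 = ((p.eval 1 : ℤ) : ℚ) := by
    rw [Polynomial.eval_map, Polynomial.eval₂_at_one]
    simp
  rw [h1] at h
  exact h

theorem LimOne.X : LimOne RatFunc.X 1 := by
  simpa using LimOne.algebraMap Polynomial.X

theorem LimOne.Xinv : LimOne (RatFunc.X)⁻¹ 1 := by
  have := LimOne.mk_div 1 Polynomial.X (by simp)
  simpa using this

theorem LimOne.pow {g : RatFunc ℚ} {v : ℚ} (h : LimOne g v) (n : ℕ) : LimOne (g ^ n) (v ^ n) := by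
  induction n with
  | zero => simpa using LimOne.one
  | succ n ih => rw [pow_succ, pow_succ]; exact ih.mul h

/-- no pole at the natural numbers -/
theorem denom_add_ne {R R' : RatFunc ℚ} {s : ℚ} (h : R.denom.eval s ≠ 0) (h' : R'.denom.eval s ≠ 0) :
    (R + R').denom.eval s ≠ 0 := by
  obtain ⟨r, hr⟩ := RatFunc.denom_add_dvd R R'
  intro hz
  have := congrArg (Polynomial.eval s) hr
  rw [Polynomial.eval_mul, Polynomial.eval_mul, hz, zero_mul] at this
  exact (mul_ne_zero h h') this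

theorem denom_mul_ne {R R' : RatFunc ℚ} {s : ℚ} (h : R.denom.eval s ≠ 0) (h' : R'.denom.eval s ≠ 0) :
    (R * R').denom.eval s ≠ 0 := by
  obtain ⟨r, hr⟩ := RatFunc.denom_mul_dvd R R'
  intro hz
  have := congrArg (Polynomial.eval s) hr
  rw [Polynomial.eval_mul, Polynomial.eval_mul, hz, zero_mul] at this
  exact (mul_ne_zero h h') this

theorem IsLim.add {Z Z' : PowerSeries (RatFunc ℚ)} {R R' : RatFunc ℚ} (h : IsLim Z R)
    (h' : IsLim Z' R') : IsLim (Z + Z') (R + R') := by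
  obtain ⟨num, den, h0, h1, h2⟩ := h
  obtain ⟨num', den', h0', h1', h2'⟩ := h'
  refine ⟨num * den' + num' * den, den * den', ?_, ?_, ?_⟩
  · rw [Polynomial.mul_coeff_zero]
    exact mul_ne_zero h0 h0'
  · push_cast
    rw [← h1, ← h1']
    ring
  · intro s
    obtain ⟨a1, a2, a3⟩ := h2 s
    obtain ⟨b1, b2, b3⟩ := h2' s
    refine ⟨?_, denom_add_ne a2 b2, ?_⟩
    · rw [Polynomial.eval_mul]; exact mul_ne_zero a1 b1
    · have := a3.add b3
      rw [RatFunc.eval_add _ _ (by simpa [Polynomial.eval₂_id] using a2)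
        (by simpa [Polynomial.eval₂_id] using b2)]
      rw [Polynomial.eval_add, Polynomial.eval_mul, Polynomial.eval_mul, Polynomial.eval_mul]
      have e : (Polynomial.eval (RatFunc.X⁻¹ ^ s) num * Polynomial.eval (RatFunc.X⁻¹ ^ s) den' +
        Polynomial.eval (RatFunc.X⁻¹ ^ s) num' * Polynomial.eval (RatFunc.X⁻¹ ^ s) den) /
        (Polynomial.eval (RatFunc.X⁻¹ ^ s) den * Polynomial.eval (RatFunc.X⁻¹ ^ s) den') =
        Polynomial.eval (RatFunc.X⁻¹ ^ s) num / Polynomial.eval (RatFunc.X⁻¹ ^ s) den +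
        Polynomial.eval (RatFunc.X⁻¹ ^ s) num' / Polynomial.eval (RatFunc.X⁻¹ ^ s) den' := by
        rw [div_add_div _ _ a1 b1, mul_comm (Polynomial.eval (RatFunc.X⁻¹ ^ s) den)
          (Polynomial.eval (RatFunc.X⁻¹ ^ s) num')]
      rw [e]
      exact this

theorem IsLim.mul {Z Z' : PowerSeries (RatFunc ℚ)} {R R' : RatFunc ℚ} (h : IsLim Z R)
    (h' : IsLim Z' R') : IsLim (Z * Z') (R * R') := by
  obtain ⟨num, den, h0, h1, h2⟩ := h
  obtain ⟨num', den', h0', h1', h2'⟩ := h'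
  refine ⟨num * num', den * den', ?_, ?_, ?_⟩
  · rw [Polynomial.mul_coeff_zero]
    exact mul_ne_zero h0 h0'
  · push_cast
    rw [← h1, ← h1']
    ring
  · intro s
    obtain ⟨a1, a2, a3⟩ := h2 s
    obtain ⟨b1, b2, b3⟩ := h2' s
    refine ⟨?_, denom_mul_ne a2 b2, ?_⟩
    · rw [Polynomial.eval_mul]; exact mul_ne_zero a1 b1
    · have := a3.mul b3
      rw [RatFunc.eval_mul _ _ (by simpa [Polynomial.eval₂_id] using a2)
        (by simpa [Polynomial.eval₂_id] using b2)]
      rw [Polynomial.eval_mul, Polynomial.eval_mul, mul_div_mul_comm]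
      exact this

theorem IsLim.C {g : RatFunc ℚ} {v : ℚ} (h : LimOne g v) :
    IsLim (PowerSeries.C g) (RatFunc.C v) := by
  refine ⟨Polynomial.C g, 1, by simp, by simp, ?_⟩
  intro s
  refine ⟨by simp, by rw [RatFunc.denom_C]; simp, ?_⟩
  rw [RatFunc.eval_C]
  simpa using h

theorem IsLim.Xpow (c : ℕ) : IsLim (PowerSeries.X ^ c) 1 := by
  refine ⟨Polynomial.X ^ c, 1, by simp, by simp, ?_⟩
  intro s
  refine ⟨by simp, by simp, ?_⟩
  have := (LimOne.Xinv.pow s).pow c
  simpa using this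

theorem IsLim.zero : IsLim 0 0 := by
  have := IsLim.C LimOne.zero
  simpa using this

theorem IsLim.one : IsLim 1 1 := by
  have := IsLim.C LimOne.one
  simpa using this

theorem stmt_Lin : Stmt_Lin := by
  refine ⟨fun Z Z' R R' h h' => h.add h', fun Z R p h => ?_⟩
  exact (IsLim.C (LimOne.toRat p)).mul h

end Pool.Agent.Mono
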