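import Pool.Agent.Work.Monodromy.Interface

/-!
# Block Main: localisation at all strata reduces to the central case
-/

namespace Pool.Agent.Mono

open MvPolynomial

namespace MainAux

theorem con_univ {ι : Type} : Constructible (Set.univ : Set (ι → ℂ)) := by
  have h := Constructible.zero (ι := ι) (0 : MvPolynomial ι ℂ)
  have h2 : {x : ι → ℂ | eval x (0 : MvPolynomial ι ℂ) = 0} = Set.univ := by
    ext x; simp
  rwa [h2] at h

theorem con_empty {ι : Type} : Constructible (∅ : Set (ι → ℂ)) := by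
  have h := (con_univ (ι := ι)).compl
  rwa [Set.compl_univ] at h

theorem con_finset {ι α : Type} (s : Finset α) (f : α → Set (ι → ℂ))
    (h : ∀ a ∈ s, Constructible (f a)) : Constructible {x | ∀ a ∈ s, x ∈ f a} := by
  classical
  induction s using Finset.induction_on with
  | empty =>
    have : {x : ι → ℂ | ∀ a ∈ (∅ : Finset α), x ∈ f a} = Set.univ := by
      ext x; simp
    rw [this]
    exact con_univ
  | insert a s ha ih =>
    have h1 : {x : ι → ℂ | ∀ a' ∈ insert a s, x ∈ f a'} = f a ∩ {x | ∀ a' ∈ s, x ∈ f a'} := by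
      ext x; simp
    rw [h1]
    exact (h a (Finset.mem_insert_self a s)).inter
      (ih fun b hb => h b (Finset.mem_insert_of_mem hb))

theorem con_iff {ι : Type} (p : MvPolynomial ι ℂ) (q : Prop) :
    Constructible {x : ι → ℂ | eval x p = 0 ↔ q} := by
  by_cases hq : q
  · simp only [hq, iff_true]
    exact Constructible.zero p
  · simp only [hq, iff_false]
    exact (Constructible.zero p).compl

variable {ι κ : Type} [Fintype ι] [Fintype κ] [DecidableEq ι] [DecidableEq κ]

theorem con_str (D : Data ι κ) (J : Finset ι) (A : Finset κ) : Constructible (D.str J A) := by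
  have h1 := con_finset (ι := ι) (Finset.univ : Finset ι)
    (fun i => {x : ι → ℂ | eval x (X i : MvPolynomial ι ℂ) = 0 ↔ i ∉ J})
    (fun i _ => con_iff _ _)
  have h2 := con_finset (ι := ι) (Finset.univ : Finset κ)
    (fun j => {x : ι → ℂ | eval x (D.form j) = 0 ↔ j ∈ A})
    (fun i _ => con_iff _ _)
  have h3 := h1.inter h2
  convert h3 using 1
  ext x
  simp only [Data.str, Set.mem_setOf_eq, Set.mem_inter_iff, Finset.mem_univ, forall_true_left,
    eval_X]
  constructor
  · rintro ⟨h, h'⟩
    exact ⟨fun i => ⟨fun hi hJ => (h i).2 hJ hi, fun hi => by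
      by_contra hne; exact hi ((h i).1 hne)⟩, h'⟩
  · rintro ⟨h, h'⟩
    exact ⟨fun i => ⟨fun hi => by by_contra hne; exact hi ((h i).2 hne), fun hi h0 =>
      (h i).1 h0 hi⟩, h'⟩

theorem unit_ne (D : Data ι κ) (J : Finset ι) (A : Finset κ) (x : ι → ℂ) (hx : x ∈ D.str J A) :
    eval x (D.unit J A) ≠ 0 := by
  simp only [Data.unit, map_mul, map_prod, map_pow, eval_X]
  refine mul_ne_zero ?_ ?_
  · exact Finset.prod_ne_zero_iff.2 fun i hi => pow_ne_zero _ ((hx.1 i).2 hi)
  · refine Finset.prod_ne_zero_iff.2 fun j hj => pow_ne_zero _ fun h => ?_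
    exact (Finset.mem_compl.1 hj) ((hx.2 j).1 h)

theorem loc_central (D : Data ι κ) (J : Finset ι) (A : Finset κ) : (D.loc J A).Central :=
  fun _ => rfl

theorem loc_valid (D : Data ι κ) (hD : D.Valid) (J : Finset ι) (A : Finset κ)
    (h : (D.str J A).Nonempty) : (D.loc J A).Valid := by
  obtain ⟨ξ, hξ⟩ := h
  refine ⟨fun i => ?_, fun j hj => ?_⟩
  · simp only [Data.loc]
    split_ifs
    · exact le_rfl
    · exact hD.1 i
  · simp only [Data.loc] at hj
    split_ifs at hj with hjA
    · right
      by_contra hne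
      push Not at hne
      have hne' : ∀ i, D.c j i = 0 := fun i => hne i
      have h0 := (hξ.2 j).2 hjA
      simp only [Data.form, map_add, map_sum, map_mul, map_pow, eval_X, eval_C, hne', zero_mul,
        Finset.sum_const_zero, add_zero] at h0
      rcases hD.2 j hj with h1 | ⟨i, hi⟩
      · exact h1 h0
      · exact hi (hne' i)
    · exact absurd hj (lt_irrefl 0)

theorem val_empty {R : Type} [CommRing R] (μ : MotivicMeasure R) {α : Type} [Finite α] :
    μ.val (∅ : Set (α → ℂ)) = 0 := by
  have h := μ.union (∅ : Set (α → ℂ)) ∅ con_empty con_empty (Set.disjoint_empty _)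
  rw [Set.union_empty] at h
  have : μ.val (∅ : Set (α → ℂ)) + 0 = μ.val (∅ : Set (α → ℂ)) + μ.val (∅ : Set (α → ℂ)) := by
    rw [add_zero]; exact h
  exact (add_left_cancel this).symm

theorem vol_empty {R : Type} [CommRing R] (μ : MotivicMeasure R) (Li : R) {E ι : Type} [Finite E]
    [Fintype ι] : vol μ Li (∅ : Set ((E → ℂ) × (ι → PowerSeries ℂ))) = 0 := by
  unfold vol
  split_ifs with h
  · have h1 : sec h.choose (∅ : Set ((E → ℂ) × (ι → PowerSeries ℂ))) = ∅ := by
      ext v; simp [sec]
    rw [h1, val_empty, zero_mul]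
  · rfl

theorem Zs_empty {R : Type} [CommRing R] (μ : MotivicMeasure R) (Li : R) (e : ℕ) {E : Type}
    [Finite E] (h : MvPolynomial E ℂ) (D : Data ι κ) (δ : ι → ℕ) :
    Zs μ Li e (∅ : Set (E → ℂ)) h D δ = 0 := by
  ext k
  simp only [Zs, PowerSeries.coeff_mk, map_zero]
  have : contact e (∅ : Set (E → ℂ)) h D δ k = ∅ := by
    ext z; simp [contact]
  rw [this, vol_empty]

theorem pset_empty {E σ : Type} (B : Set (E → ℂ)) : pset B (∅ : Set (σ → ℂ)) = ∅ := by
  ext v; simp [pset]

/-- the piece attached to a stratum -/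
noncomputable def piece (D : Data ι κ) (δ : ι → ℕ) (q : Finset ι × Finset κ) : Piece ι κ where
  σ := ι
  fin := inferInstance
  S := D.str q.1 q.2
  u := D.unit q.1 q.2
  l := (D.M0 δ).card
  c := ∑ i ∈ D.M0 δ \ q.1, D.b i + ∑ j ∈ q.2, D.m j
  D := D.loc q.1 q.2
  δ := D.next δ q.1

end MainAux

open MainAux in
theorem stmt_Main (hLoc : Stmt_Loc) (hX1 : Stmt_X1) (hELoc : Stmt_ELoc)
    (hCen : Stmt_Central) : Stmt_Main := by
  classical
  intro ι κ _ _ _ _ D hD e he
  set δ : ι → ℕ := fun _ => 0 with hδ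
  set s : Finset (Finset ι × Finset κ) :=
    ((D.M0 δ).powerset ×ˢ (Finset.univ : Finset (Finset κ))).filter
      fun q => (D.str q.1 q.2).Nonempty with hs
  refine hX1 ι κ e D δ _ (s.toList.map (piece D δ)) ?_ ?_
  · intro q hq
    obtain ⟨⟨J, A⟩, hJA, rfl⟩ := List.mem_map.1 hq
    rw [Finset.mem_toList, hs, Finset.mem_filter] at hJA
    refine ⟨con_str D J A, fun x hx => unit_ne D J A x hx, ?_⟩
    exact hCen ι κ (D.loc J A) (loc_central D J A) (loc_valid D hD J A hJA.2) (bSet D.poly)
      (hELoc ι κ D J A hD.1 hJA.2) (D.next δ J) e he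
  · intro R _ μ Li hL E _ B h hB hh
    rw [hLoc ι κ D δ hD.1 R μ Li hL e E B h hB hh, List.map_map, Finset.sum_map_toList,
      ← Finset.sum_product', hs, Finset.sum_filter]
    refine Finset.sum_congr rfl fun q _ => ?_
    split_ifs with hq
    · rfl
    · rw [Set.not_nonempty_iff_eq_empty] at hq
      rw [hq, pset_empty, Zs_empty, mul_zero]

end Pool.Agent.Mono
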