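import Pool.Agent.Work.Monodromy.SApi

/-!
# NV2, part 1: conjugation by powers of `Q`, the modules `gen`, Euler's formula
-/

set_option autoImplicit false
set_option linter.unusedSectionVars false

namespace Pool.Agent.Mono.NV2

open MvPolynomial

variable {R : Type} [CommRing R] [IsDomain R] {ι κ : Type} [Fintype κ] [DecidableEq κ]

/-- the logarithmic derivative of a product -/
lemma dF_prod (l : κ → MvPolynomial ι R) (hl : ∀ k, l k ≠ 0) (i : ι) :
    dF R i (toF R (∏ k, l k)) =
      toF R (∏ k, l k) * ∑ k, toF R (pderiv i (l k)) / toF R (l k) := by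
  have key : ∀ s : Finset κ, dF R i (toF R (∏ k ∈ s, l k)) =
      toF R (∏ k ∈ s, l k) * ∑ k ∈ s, toF R (pderiv i (l k)) / toF R (l k) := by
    intro s
    induction s using Finset.induction_on with
    | empty => simp
    | insert k s hk ih =>
      rw [Finset.prod_insert hk, Finset.sum_insert hk, toF_mul, Derivation.leibniz, ih, dF_toF,
        smul_eq_mul, smul_eq_mul, mul_add]
      have h1 : toF R (l k) ≠ 0 := toF_ne_zero (hl k)
      have h2 : toF R (l k) * toF R (∏ k ∈ s, l k) * (toF R (pderiv i (l k)) / toF R (l k)) =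
          toF R (∏ k ∈ s, l k) * toF R (pderiv i (l k)) := by
        field_simp
      rw [h2]
      ring
  exact key Finset.univ

/-- the derivative of a negative power -/
lemma dF_inv_pow (l : κ → MvPolynomial ι R) (hl : ∀ k, l k ≠ 0) (i : ι) (j : ℕ) :
    dF R i ((toF R (∏ k, l k))⁻¹ ^ j) = -((j : FF R ι) * (toF R (∏ k, l k))⁻¹ ^ j *
      ∑ k, toF R (pderiv i (l k)) / toF R (l k)) := by
  have hQ : toF R (∏ k, l k) ≠ 0 := toF_ne_zero (Finset.prod_ne_zero_iff.2 fun k _ => hl k)
  have h1 : (toF R (∏ k, l k))⁻¹ ^ j * toF R (∏ k, l k) ^ j = 1 := by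
    rw [← mul_pow, inv_mul_cancel₀ hQ, one_pow]
  have h2 := congrArg (dF R i) h1
  rw [Derivation.leibniz, Derivation.map_one_eq_zero, Derivation.leibniz_pow, dF_prod l hl,
    smul_eq_mul, smul_eq_mul, smul_eq_mul, nsmul_eq_mul] at h2
  have h3 : toF R (∏ k, l k) ^ j ≠ 0 := pow_ne_zero _ hQ
  apply mul_left_cancel₀ h3
  set Q := toF R (∏ k, l k)
  set w := ∑ k, toF R (pderiv i (l k)) / toF R (l k)
  have h4 : (j : FF R ι) * (Q ^ (j - 1) * (Q * w)) = j * (Q ^ j * w) := by
    rcases j with _ | j
    · simp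
    · rw [Nat.add_sub_cancel, pow_succ]
      ring
  rw [h4] at h2
  linear_combination h2

/-- conjugation of the twisted derivations -/
lemma theta_conj (l : κ → MvPolynomial ι R) (hl : ∀ k, l k ≠ 0) (σ : κ → R) (i : ι) (j : ℕ)
    (x : FF R ι) : theta R l σ i ((toF R (∏ k, l k))⁻¹ ^ j * x) =
      (toF R (∏ k, l k))⁻¹ ^ j * theta R l (fun k => σ k - j) i x := by
  rw [theta_apply, theta_apply, Derivation.leibniz, dF_inv_pow l hl, smul_eq_mul, smul_eq_mul]
  have h1 : ∑ k, toF R (C (σ k - (j : R))) * (toF R (pderiv i (l k)) / toF R (l k)) =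
      ∑ k, toF R (C (σ k)) * (toF R (pderiv i (l k)) / toF R (l k)) -
        j * ∑ k, toF R (pderiv i (l k)) / toF R (l k) := by
    rw [Finset.mul_sum, ← Finset.sum_sub_distrib]
    apply Finset.sum_congr rfl
    intro k _
    rw [C_sub, toF_sub, toF_C_natCast]
    ring
  rw [h1]
  ring

/-- the same for the generated modules -/
lemma gen_conj (l : κ → MvPolynomial ι R) (hl : ∀ k, l k ≠ 0) (σ : κ → R) (j : ℕ) (u : FF R ι)
    (m : ℕ) (x : FF R ι) (hx : x ∈ gen R l (fun k => σ k - j) u m) :
    (toF R (∏ k, l k))⁻¹ ^ j * x ∈ gen R l σ ((toF R (∏ k, l k))⁻¹ ^ j * u) m := by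
  set q := (toF R (∏ k, l k))⁻¹ ^ j with hq
  have key : (gen R l (fun k => σ k - j) u m).map (LinearMap.mulLeft R q) ≤
      gen R l σ (q * u) m := by
    clear hx x
    induction m with
    | zero =>
      rw [gen, gen, Submodule.map_span, Submodule.span_le]
      rintro _ ⟨_, ⟨p, rfl⟩, rfl⟩
      apply Submodule.subset_span
      refine ⟨p, ?_⟩
      simp only [LinearMap.mulLeft_apply]
      ring
    | succ m ih =>
      rw [gen, gen, Submodule.map_sup, Submodule.map_iSup]
      apply sup_le_sup ih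
      apply iSup_mono
      intro i
      rintro _ ⟨_, ⟨x, hx, rfl⟩, rfl⟩
      refine ⟨q * x, ih ⟨x, hx, rfl⟩, ?_⟩
      rw [LinearMap.mulLeft_apply, theta_conj l hl]
  exact key ⟨x, hx, rfl⟩

/-- the generated modules are stable under multiplication by polynomials -/
lemma gen_mul (l : κ → MvPolynomial ι R) (σ : κ → R) (u : FF R ι) (m : ℕ) :
    ∀ (p : MvPolynomial ι R) (x : FF R ι), x ∈ gen R l σ u m → toF R p * x ∈ gen R l σ u m := by
  induction m with
  | zero =>
    intro p x hx
    rw [gen] at hx ⊢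
    induction hx using Submodule.span_induction with
    | mem x hx =>
      obtain ⟨q, rfl⟩ := hx
      apply Submodule.subset_span
      exact ⟨p * q, by simp only [toF_mul]; ring⟩
    | zero => rw [mul_zero]; exact Submodule.zero_mem _
    | add x y _ _ hx hy => rw [mul_add]; exact Submodule.add_mem _ hx hy
    | smul a x _ hx => rw [mul_smul_comm]; exact Submodule.smul_mem _ a hx
  | succ m ih =>
    intro p
    have key : gen R l σ u (m + 1) ≤
        (gen R l σ u (m + 1)).comap (LinearMap.mulLeft R (toF R p)) := by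
      conv_lhs => rw [gen]
      apply sup_le
      · intro x hx
        rw [Submodule.mem_comap, LinearMap.mulLeft_apply, gen]
        exact Submodule.mem_sup_left (ih p x hx)
      · apply iSup_le
        rintro i _ ⟨w, hw, rfl⟩
        rw [Submodule.mem_comap, LinearMap.mulLeft_apply]
        have h1 : toF R p * theta R l σ i w =
            theta R l σ i (toF R p * w) - toF R (pderiv i p) * w := by
          rw [theta_apply, theta_apply, Derivation.leibniz, dF_toF, smul_eq_mul, smul_eq_mul]
          ring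
        rw [h1, gen]
        apply Submodule.sub_mem
        · apply Submodule.mem_sup_right
          exact Submodule.mem_iSup_of_mem i ⟨_, ih p w hw, rfl⟩
        · exact Submodule.mem_sup_left (ih _ w hw)
    intro x hx
    exact key hx

variable [Fintype ι] [DecidableEq ι]

/-- the image as a submodule -/
def ImS (l : κ → MvPolynomial ι R) (σ : κ → R) (Q : MvPolynomial ι R) :
    Submodule R (FF R ι) where
  carrier := ImT R l σ Q
  add_mem' := ImT.add
  zero_mem' := ImT.zero l σ Q
  smul_mem' r _ hx := ImT.smul hx r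

lemma mem_ImS {l : κ → MvPolynomial ι R} {σ : κ → R} {Q : MvPolynomial ι R} {x : FF R ι} :
    x ∈ ImS l σ Q ↔ x ∈ ImT R l σ Q := Iff.rfl

/-- the multiples of `u` -/
noncomputable def mul_span (u : FF R ι) : Submodule R (FF R ι) :=
  Submodule.span R (Set.range fun q : MvPolynomial ι R => toF R q * u)

lemma gen_le (l : κ → MvPolynomial ι R) (σ : κ → R) (Q : MvPolynomial ι R) (hQ : Q ≠ 0)
    (hl : ∀ k, ∃ n : ℕ, l k ∣ Q ^ n) (u : FF R ι) (hu : InS R Q u) (m : ℕ) :
    gen R l σ u m ≤ mul_span u ⊔ ImS l σ Q ∧ ∀ x ∈ gen R l σ u m, InS R Q x := by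
  let S : Submodule R (FF R ι) :=
    { carrier := {x | InS R Q x}
      add_mem' := InS.add
      zero_mem' := InS.zero Q
      smul_mem' := fun r _ hx => InS.smul hx r }
  have hS : ∀ x, x ∈ S ↔ InS R Q x := fun _ => Iff.rfl
  suffices h : gen R l σ u m ≤ mul_span u ⊔ ImS l σ Q ∧ gen R l σ u m ≤ S from ⟨h.1, h.2⟩
  induction m with
  | zero =>
    refine ⟨le_sup_left, ?_⟩
    rw [gen, Submodule.span_le]
    rintro _ ⟨q, rfl⟩
    exact (InS.toF Q q).mul hu
  | succ m ih =>
    refine ⟨?_, ?_⟩
    · rw [gen]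
      apply sup_le ih.1
      apply iSup_le
      rintro i _ ⟨w, hw, rfl⟩
      apply Submodule.mem_sup_right
      exact ImT.theta (ih.2 hw) i
    · rw [gen]
      apply sup_le ih.2
      apply iSup_le
      rintro i _ ⟨w, hw, rfl⟩
      exact InS.theta hQ l hl σ i (ih.2 hw)

/-- Euler's derivation -/
noncomputable def eul : Derivation R (FF R ι) (FF R ι) := ∑ i, toF R (X i) • dF R i

lemma eul_apply (x : FF R ι) : eul x = ∑ i, toF R (X i) * dF R i x := by
  rw [eul]
  have h : ∀ s : Finset ι, (∑ i ∈ s, toF R (X i) • dF R i : Derivation R (FF R ι) (FF R ι)) x =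
      ∑ i ∈ s, toF R (X i) * dF R i x := by
    intro s
    induction s using Finset.induction_on with
    | empty => simp
    | insert i s hi ih =>
      rw [Finset.sum_insert hi, Finset.sum_insert hi, Derivation.add_apply, ih]
      rfl
  exact h _

/-- Euler's formula for monomials -/
lemma eul_monomial (α : ι →₀ ℕ) (a : R) :
    eul (toF R (monomial α a)) = ((∑ i, α i : ℕ) : FF R ι) * toF R (monomial α a) := by
  rw [eul_apply]
  have h1 : ∀ i, toF R (X i) * dF R i (toF R (monomial α a)) =
      (α i : FF R ι) * toF R (monomial α a) := by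
    intro i
    rw [dF_toF, ← toF_mul, X_mul_pderiv_monomial, nsmul_eq_mul, toF_mul, ← toF_C_natCast,
      map_natCast]
  simp only [h1]
  rw [← Finset.sum_mul]
  push_cast
  rfl

/-- Euler's formula for the twisted derivations -/
lemma eul_theta (l : κ → MvPolynomial ι R) (hl : ∀ k, l k ≠ 0)
    (hhom : ∀ k, eul (toF R (l k)) = toF R (l k)) (σ : κ → R) (x : FF R ι) :
    ∑ i, theta R l σ i (toF R (X i) * x) =
      ((Fintype.card ι : FF R ι) + toF R (C (∑ k, σ k))) * x + eul x := by
  have h1 : ∀ i, theta R l σ i (toF R (X i) * x) = x + toF R (X i) * dF R i x +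
      (∑ k, toF R (C (σ k)) * (toF R (X i) * dF R i (toF R (l k)) / toF R (l k))) * x := by
    intro i
    rw [theta_apply, Derivation.leibniz, dF_toF, pderiv_X_self, toF_one, smul_eq_mul, smul_eq_mul,
      mul_one]
    have h2 : ∑ k, toF R (C (σ k)) * (toF R (X i) * dF R i (toF R (l k)) / toF R (l k)) =
        toF R (X i) * ∑ k, toF R (C (σ k)) * (toF R (pderiv i (l k)) / toF R (l k)) := by
      rw [Finset.mul_sum]
      apply Finset.sum_congr rfl
      intro k _
      rw [dF_toF]
      ring
    rw [h2]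
    ring
  simp only [h1]
  rw [Finset.sum_add_distrib, Finset.sum_add_distrib, ← eul_apply, ← Finset.sum_mul,
    Finset.sum_comm, Finset.sum_const, Finset.card_univ, nsmul_eq_mul]
  have h2 : ∑ k, ∑ i, toF R (C (σ k)) * (toF R (X i) * dF R i (toF R (l k)) / toF R (l k)) =
      toF R (C (∑ k, σ k)) := by
    have h3 : ∀ k, ∑ i, toF R (C (σ k)) * (toF R (X i) * dF R i (toF R (l k)) / toF R (l k)) =
        toF R (C (σ k)) := by
      intro k
      rw [← Finset.mul_sum, ← Finset.sum_div, ← eul_apply, hhom, div_self (toF_ne_zero (hl k)),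
        mul_one]
    simp only [h3]
    rw [← toF_sum, ← map_sum]
  rw [h2]
  ring

/-- Euler's formula for the negative powers of a product of linear forms -/
lemma eul_inv_pow (l : κ → MvPolynomial ι R) (hl : ∀ k, l k ≠ 0)
    (hhom : ∀ k, eul (toF R (l k)) = toF R (l k)) (j : ℕ) :
    eul ((toF R (∏ k, l k))⁻¹ ^ j) = -((j * Fintype.card κ : ℕ) : FF R ι) *
      (toF R (∏ k, l k))⁻¹ ^ j := by
  rw [eul_apply]
  simp only [dF_inv_pow l hl]
  have h1 : ∑ i, toF R (X i) * ∑ k, toF R (pderiv i (l k)) / toF R (l k) =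
      (Fintype.card κ : FF R ι) := by
    have h2 : ∀ i, toF R (X i) * ∑ k, toF R (pderiv i (l k)) / toF R (l k) =
        ∑ k, toF R (X i) * dF R i (toF R (l k)) / toF R (l k) := by
      intro i
      rw [Finset.mul_sum]
      apply Finset.sum_congr rfl
      intro k _
      rw [dF_toF]
      ring
    simp only [h2]
    rw [Finset.sum_comm]
    have h3 : ∀ k, ∑ i, toF R (X i) * dF R i (toF R (l k)) / toF R (l k) = 1 := by
      intro k
      rw [← Finset.sum_div, ← eul_apply, hhom, div_self (toF_ne_zero (hl k))]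
    simp only [h3]
    rw [Finset.sum_const, Finset.card_univ, nsmul_eq_mul, mul_one]
  have h2 : ∀ i, toF R (X i) * -((j : FF R ι) * (toF R (∏ k, l k))⁻¹ ^ j *
      ∑ k, toF R (pderiv i (l k)) / toF R (l k)) = -((j : FF R ι) * (toF R (∏ k, l k))⁻¹ ^ j) *
        (toF R (X i) * ∑ k, toF R (pderiv i (l k)) / toF R (l k)) := by
    intro i
    ring
  simp only [h2]
  rw [← Finset.mul_sum, h1]
  push_cast
  ring

end Pool.Agent.Mono.NV2
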