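import Pool.Agent.Work.Monodromy.NV2a

/-!
# NV2, part 2: clearing denominators in `θ_i h`
-/

set_option autoImplicit false
set_option linter.unusedSectionVars false

namespace Pool.Agent.Mono.NV2

open MvPolynomial

variable {R : Type} [CommRing R] [IsDomain R] {ι κ : Type} [Fintype κ] [DecidableEq κ]

lemma log_clear (f : κ → MvPolynomial ι R) (hf : ∀ k, f k ≠ 0) (i : ι) (k : κ) :
    toF R (pderiv i (f k)) / toF R (f k) * toF R (∏ k, f k) =
      toF R (pderiv i (f k) * ∏ k' ∈ Finset.univ.erase k, f k') := by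
  have h2 : ∏ k, f k = f k * ∏ k' ∈ Finset.univ.erase k, f k' :=
    (Finset.mul_prod_erase _ _ (Finset.mem_univ k)).symm
  have h3 : toF R (f k) ≠ 0 := toF_ne_zero (hf k)
  rw [h2, toF_mul, toF_mul, div_mul_eq_mul_div, mul_left_comm, mul_div_cancel_left₀ _ h3]

lemma dF_clear (Q p : MvPolynomial ι R) (i : ι) (h : FF R ι) (r : ℕ)
    (hp : h * toF R Q ^ r = toF R p) :
    dF R i h * toF R Q ^ (r + 1) = toF R (Q * pderiv i p - (r : MvPolynomial ι R) * p *
      pderiv i Q) := by
  have h2 := congrArg (dF R i) hp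
  rw [Derivation.leibniz, dF_toF, Derivation.leibniz_pow, dF_toF, smul_eq_mul, smul_eq_mul,
    smul_eq_mul, nsmul_eq_mul] at h2
  have h3 : toF R (r : MvPolynomial ι R) = (r : FF R ι) := map_natCast _ _
  rw [toF_sub, toF_mul, toF_mul, toF_mul, h3, ← hp, ← h2, pow_succ]
  have h4 : (r : FF R ι) * toF R Q ^ (r - 1) * toF R Q = r * toF R Q ^ r := by
    rcases Nat.eq_zero_or_pos r with h5 | h5
    · rw [h5]; simp
    · rw [mul_assoc, ← pow_succ, Nat.sub_add_cancel h5]
  linear_combination (-h * toF R (pderiv i Q)) * h4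

lemma theta_clear (f : κ → MvPolynomial ι R) (hf : ∀ k, f k ≠ 0) (σ : κ → R) (i : ι) (h : FF R ι)
    (r : ℕ) (p : MvPolynomial ι R) (hp : h * toF R (∏ k, f k) ^ r = toF R p) :
    theta R f σ i h * toF R (∏ k, f k) ^ (r + 1) =
      toF R ((∏ k, f k) * pderiv i p - (r : MvPolynomial ι R) * p * pderiv i (∏ k, f k) +
        p * ∑ k, C (σ k) * (pderiv i (f k) * ∏ k' ∈ Finset.univ.erase k, f k')) := by
  rw [theta_apply, add_mul, dF_clear _ p i h r hp, toF_add]
  congr 1
  rw [toF_mul, toF_sum, ← hp, Finset.mul_sum, Finset.sum_mul, Finset.sum_mul]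
  apply Finset.sum_congr rfl
  intro k _
  rw [toF_mul (C (σ k)), ← log_clear f hf i k, pow_succ]
  ring

end Pool.Agent.Mono.NV2
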