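import Pool.Agent.Work.Monodromy.Interface

/-!
# API for `InS` (the localisation `R[y][1/Q]`) and `ImT` (the image of the twisted derivations)
-/

namespace Pool.Agent.Mono

open MvPolynomial

section

variable {R : Type} [CommRing R] [IsDomain R] {ι κ : Type}

@[simp] theorem toF_zero : toF R (0 : MvPolynomial ι R) = 0 := map_zero _
@[simp] theorem toF_one : toF R (1 : MvPolynomial ι R) = 1 := map_one _
theorem toF_add (p q : MvPolynomial ι R) : toF R (p + q) = toF R p + toF R q := map_add _ _ _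
theorem toF_sub (p q : MvPolynomial ι R) : toF R (p - q) = toF R p - toF R q := map_sub _ _ _
theorem toF_neg (p : MvPolynomial ι R) : toF R (-p) = -toF R p := map_neg _ _
theorem toF_mul (p q : MvPolynomial ι R) : toF R (p * q) = toF R p * toF R q := map_mul _ _ _
theorem toF_pow (p : MvPolynomial ι R) (n : ℕ) : toF R (p ^ n) = toF R p ^ n := map_pow _ _ _
theorem toF_prod {α : Type} (s : Finset α) (f : α → MvPolynomial ι R) :
    toF R (∏ i ∈ s, f i) = ∏ i ∈ s, toF R (f i) := map_prod _ _ _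
theorem toF_sum {α : Type} (s : Finset α) (f : α → MvPolynomial ι R) :
    toF R (∑ i ∈ s, f i) = ∑ i ∈ s, toF R (f i) := map_sum _ _ _
theorem toF_C_natCast (n : ℕ) : toF R (C (n : R) : MvPolynomial ι R) = (n : FF R ι) := by
  rw [map_natCast]
  exact map_natCast _ _

theorem toF_injective : Function.Injective (toF R : MvPolynomial ι R → FF R ι) :=
  IsFractionRing.injective (MvPolynomial ι R) (FF R ι)

theorem toF_eq_zero {p : MvPolynomial ι R} : toF R p = 0 ↔ p = 0 :=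
  ⟨fun h => toF_injective (h.trans toF_zero.symm), fun h => by rw [h, toF_zero]⟩

theorem toF_ne_zero {p : MvPolynomial ι R} (h : p ≠ 0) : toF R p ≠ 0 := fun h' => h (toF_eq_zero.1 h')

theorem smul_eq_toF_mul (r : R) (x : FF R ι) : r • x = toF R (C r) * x := by
  rw [Algebra.smul_def, IsScalarTower.algebraMap_apply R (MvPolynomial ι R) (FF R ι)]
  rfl

theorem InS.toF (Q q : MvPolynomial ι R) : InS R Q (toF R q) := ⟨0, q, by simp⟩

theorem InS.zero (Q : MvPolynomial ι R) : InS R Q 0 := ⟨0, 0, by simp⟩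

theorem InS.one (Q : MvPolynomial ι R) : InS R Q 1 := ⟨0, 1, by simp⟩

/-- the exponent can be increased -/
theorem InS.lift {Q : MvPolynomial ι R} {x : FF R ι} {j : ℕ} {q : MvPolynomial ι R}
    (h : x * Mono.toF R Q ^ j = Mono.toF R q) (k : ℕ) (hk : j ≤ k) :
    x * Mono.toF R Q ^ k = Mono.toF R (q * Q ^ (k - j)) := by
  rw [toF_mul, ← h, toF_pow, mul_assoc, ← pow_add, Nat.add_sub_cancel' hk]

theorem InS.add {Q : MvPolynomial ι R} {x y : FF R ι} (hx : InS R Q x) (hy : InS R Q y) :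
    InS R Q (x + y) := by
  obtain ⟨j, q, h⟩ := hx
  obtain ⟨k, r, h'⟩ := hy
  refine ⟨max j k, q * Q ^ (max j k - j) + r * Q ^ (max j k - k), ?_⟩
  rw [add_mul, InS.lift h _ (le_max_left _ _), InS.lift h' _ (le_max_right _ _), toF_add]

theorem InS.mul {Q : MvPolynomial ι R} {x y : FF R ι} (hx : InS R Q x) (hy : InS R Q y) :
    InS R Q (x * y) := by
  obtain ⟨j, q, h⟩ := hx
  obtain ⟨k, r, h'⟩ := hy
  refine ⟨j + k, q * r, ?_⟩
  rw [pow_add, toF_mul, ← h, ← h']
  ring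

theorem InS.neg {Q : MvPolynomial ι R} {x : FF R ι} (hx : InS R Q x) : InS R Q (-x) := by
  obtain ⟨j, q, h⟩ := hx
  exact ⟨j, -q, by rw [neg_mul, h, toF_neg]⟩

theorem InS.sub {Q : MvPolynomial ι R} {x y : FF R ι} (hx : InS R Q x) (hy : InS R Q y) :
    InS R Q (x - y) := by
  rw [sub_eq_add_neg]
  exact hx.add hy.neg

theorem InS.smul {Q : MvPolynomial ι R} {x : FF R ι} (hx : InS R Q x) (r : R) :
    InS R Q (r • x) := by
  rw [smul_eq_toF_mul]
  exact (InS.toF _ _).mul hx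

theorem InS.nsmul {Q : MvPolynomial ι R} {x : FF R ι} (hx : InS R Q x) (n : ℕ) :
    InS R Q (n • x) := by
  induction n with
  | zero => rw [zero_smul]; exact InS.zero Q
  | succ n ih => rw [succ_nsmul]; exact ih.add hx

theorem InS.pow {Q : MvPolynomial ι R} {x : FF R ι} (hx : InS R Q x) (n : ℕ) :
    InS R Q (x ^ n) := by
  induction n with
  | zero => rw [pow_zero]; exact InS.one Q
  | succ n ih => rw [pow_succ]; exact ih.mul hx

theorem InS.sum {Q : MvPolynomial ι R} {α : Type} (s : Finset α) (f : α → FF R ι)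
    (h : ∀ i ∈ s, InS R Q (f i)) : InS R Q (∑ i ∈ s, f i) := by
  classical
  induction s using Finset.induction_on with
  | empty => rw [Finset.sum_empty]; exact InS.zero Q
  | insert i s hi ih =>
    rw [Finset.sum_insert hi]
    exact (h i (Finset.mem_insert_self _ _)).add
      (ih fun j hj => h j (Finset.mem_insert_of_mem hj))

theorem InS.inv_of_dvd {Q l : MvPolynomial ι R} (hQ : Q ≠ 0) {n : ℕ} (h : l ∣ Q ^ n) :
    InS R Q (Mono.toF R l)⁻¹ := by
  obtain ⟨r, hr⟩ := h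
  have hl : l ≠ 0 := by
    rintro rfl
    rw [zero_mul] at hr
    exact pow_ne_zero _ hQ hr
  refine ⟨n, r, ?_⟩
  rw [← toF_pow, hr, toF_mul, inv_mul_cancel_left₀ (toF_ne_zero hl)]

theorem InS.mono {Q Q' : MvPolynomial ι R} {n : ℕ} (h : Q ∣ Q' ^ n) {x : FF R ι}
    (hx : InS R Q x) : InS R Q' x := by
  obtain ⟨j, q, hq⟩ := hx
  obtain ⟨r, hr⟩ := h
  refine ⟨n * j, q * r ^ j, ?_⟩
  rw [pow_mul, ← toF_pow, hr, toF_mul, mul_pow, ← mul_assoc, hq, toF_mul, toF_pow]

theorem InS.dF {Q : MvPolynomial ι R} (hQ : Q ≠ 0) (i : ι) {x : FF R ι} (hx : InS R Q x) :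
    InS R Q (dF R i x) := by
  obtain ⟨j, q, h⟩ := hx
  have hQ' := toF_ne_zero hQ
  refine ⟨j + 1, pderiv i q * Q - C (j : R) * q * pderiv i Q, ?_⟩
  have h1 := congrArg (Mono.dF R i) h
  rw [Derivation.leibniz, dF_toF, smul_eq_mul, smul_eq_mul, Derivation.leibniz_pow, dF_toF] at h1
  rw [toF_sub, toF_mul, toF_mul, toF_mul, toF_C_natCast, ← h1, ← h, pow_succ]
  rcases j with _ | j
  · simp
  · rw [Nat.add_sub_cancel, nsmul_eq_mul, smul_eq_mul]
    ring

theorem InS.theta [Fintype κ] {Q : MvPolynomial ι R} (hQ : Q ≠ 0) (l : κ → MvPolynomial ι R)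
    (hl : ∀ k, ∃ n : ℕ, l k ∣ Q ^ n) (σ : κ → R) (i : ι) {x : FF R ι} (hx : InS R Q x) :
    InS R Q (theta R l σ i x) := by
  rw [Mono.theta, LinearMap.add_apply, LinearMap.mulLeft_apply]
  refine (InS.dF hQ i hx).add (InS.mul ?_ hx)
  refine InS.sum _ _ fun k _ => (InS.toF _ _).mul ?_
  rw [div_eq_mul_inv]
  obtain ⟨n, hn⟩ := hl k
  exact (InS.toF _ _).mul (InS.inv_of_dvd hQ hn)

theorem theta_apply [Fintype κ] (l : κ → MvPolynomial ι R) (σ : κ → R) (i : ι) (x : FF R ι) :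
    theta R l σ i x =
      dF R i x + (∑ k, toF R (C (σ k)) * (toF R (pderiv i (l k)) / toF R (l k))) * x := rfl

variable [Fintype ι] [Fintype κ]

theorem ImT.zero (l : κ → MvPolynomial ι R) (σ : κ → R) (Q : MvPolynomial ι R) :
    (0 : FF R ι) ∈ ImT R l σ Q :=
  ⟨fun _ => 0, fun _ => InS.zero Q, by simp⟩

theorem ImT.add {l : κ → MvPolynomial ι R} {σ : κ → R} {Q : MvPolynomial ι R} {x y : FF R ι}
    (hx : x ∈ ImT R l σ Q) (hy : y ∈ ImT R l σ Q) : x + y ∈ ImT R l σ Q := by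
  obtain ⟨h, h1, rfl⟩ := hx
  obtain ⟨h', h1', rfl⟩ := hy
  refine ⟨fun i => h i + h' i, fun i => (h1 i).add (h1' i), ?_⟩
  simp only [map_add, Finset.sum_add_distrib]

theorem ImT.smul {l : κ → MvPolynomial ι R} {σ : κ → R} {Q : MvPolynomial ι R} {x : FF R ι}
    (hx : x ∈ ImT R l σ Q) (r : R) : r • x ∈ ImT R l σ Q := by
  obtain ⟨h, h1, rfl⟩ := hx
  refine ⟨fun i => r • h i, fun i => (h1 i).smul r, ?_⟩
  simp only [map_smul, Finset.smul_sum]

theorem ImT.neg {l : κ → MvPolynomial ι R} {σ : κ → R} {Q : MvPolynomial ι R} {x : FF R ι}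
    (hx : x ∈ ImT R l σ Q) : -x ∈ ImT R l σ Q := by
  have := ImT.smul hx (-1)
  rwa [neg_smul, one_smul] at this

theorem ImT.sub {l : κ → MvPolynomial ι R} {σ : κ → R} {Q : MvPolynomial ι R} {x y : FF R ι}
    (hx : x ∈ ImT R l σ Q) (hy : y ∈ ImT R l σ Q) : x - y ∈ ImT R l σ Q := by
  rw [sub_eq_add_neg]
  exact ImT.add hx (ImT.neg hy)

theorem ImT.mono {l : κ → MvPolynomial ι R} {σ : κ → R} {Q Q' : MvPolynomial ι R} {n : ℕ}
    (h : Q ∣ Q' ^ n) {x : FF R ι} (hx : x ∈ ImT R l σ Q) : x ∈ ImT R l σ Q' := by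
  obtain ⟨g, h1, rfl⟩ := hx
  exact ⟨g, fun i => (h1 i).mono h, rfl⟩

theorem ImT.theta [DecidableEq ι] {l : κ → MvPolynomial ι R} {σ : κ → R} {Q : MvPolynomial ι R}
    {x : FF R ι} (hx : InS R Q x) (i : ι) : theta R l σ i x ∈ ImT R l σ Q := by
  refine ⟨Pi.single i x, fun k => ?_, ?_⟩
  · by_cases hk : k = i
    · subst hk; rw [Pi.single_eq_same]; exact hx
    · rw [Pi.single_eq_of_ne hk]; exact InS.zero Q
  · rw [Finset.sum_eq_single i]
    · rw [Pi.single_eq_same]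
    · intro k _ hk
      rw [Pi.single_eq_of_ne hk, map_zero]
    · intro h
      exact absurd (Finset.mem_univ i) h

end

end Pool.Agent.Mono
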