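import Pool.Agent.Work.Monodromy.Interface3
import Pool.Agent.Work.Monodromy.Units

/-!
# The Bernstein polynomial of `f + uv`
-/

namespace Pool.Agent.Mono

open MvPolynomial

namespace SBAux

variable {ι : Type}

/-- `g(x) (uv)^j` -/
noncomputable def tm (j : ℕ) (g : MvPolynomial ι ℂ) : MvPolynomial (ι ⊕ Bool) ℂ :=
  rename Sum.inl g * (X (Sum.inr true) * X (Sum.inr false)) ^ j

/-- the Euler operator `u ∂_u` -/
noncomputable def eu : Module.End ℂ (MvPolynomial (ι ⊕ Bool) ℂ) :=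
  LinearMap.mulLeft ℂ (X (Sum.inr true)) *
    (((pderiv (Sum.inr true) : Derivation ℂ (MvPolynomial (ι ⊕ Bool) ℂ)
      (MvPolynomial (ι ⊕ Bool) ℂ)) : MvPolynomial (ι ⊕ Bool) ℂ →ₗ[ℂ] MvPolynomial (ι ⊕ Bool) ℂ) :
        Module.End ℂ (MvPolynomial (ι ⊕ Bool) ℂ))

theorem eu_mem : (eu : Module.End ℂ (MvPolynomial (ι ⊕ Bool) ℂ)) ∈ Weyl (ι ⊕ Bool) :=
  mul_mem (mulLeft_mem_Weyl _) (pderiv_mem_Weyl _)

theorem eu_apply (h : MvPolynomial (ι ⊕ Bool) ℂ) :
    eu h = X (Sum.inr true) * pderiv (Sum.inr true) h := rfl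

theorem pderiv_inr_inl (i : Bool) (g : MvPolynomial ι ℂ) :
    pderiv (Sum.inr i) (rename Sum.inl g : MvPolynomial (ι ⊕ Bool) ℂ) = 0 := by
  induction g using MvPolynomial.induction_on with
  | C a => simp
  | add p q hp hq => rw [map_add, map_add, hp, hq, add_zero]
  | mul_X p j hp =>
      rw [map_mul, Derivation.leibniz, hp, rename_X, pderiv_X_of_ne (by simp)]
      simp

theorem pderiv_inl_inl (i : ι) (g : MvPolynomial ι ℂ) :
    pderiv (Sum.inl i) (rename Sum.inl g : MvPolynomial (ι ⊕ Bool) ℂ) =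
      rename Sum.inl (pderiv i g) :=
  pderiv_rename Sum.inl_injective _ _

theorem d_uv (i : Bool) : pderiv (Sum.inr i) ((X (Sum.inr true) * X (Sum.inr false) :
    MvPolynomial (ι ⊕ Bool) ℂ)) = X (Sum.inr (!i)) := by
  rw [Derivation.leibniz]
  cases i
  · have h1 : pderiv (Sum.inr false) (X (Sum.inr true) : MvPolynomial (ι ⊕ Bool) ℂ) = 0 :=
      pderiv_X_of_ne (by simp)
    have h2 : pderiv (Sum.inr false) (X (Sum.inr false) : MvPolynomial (ι ⊕ Bool) ℂ) = 1 :=
      pderiv_X_self _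
    rw [h1, h2, smul_zero, add_zero, smul_eq_mul, mul_one]
    rfl
  · have h1 : pderiv (Sum.inr true) (X (Sum.inr false) : MvPolynomial (ι ⊕ Bool) ℂ) = 0 :=
      pderiv_X_of_ne (by simp)
    have h2 : pderiv (Sum.inr true) (X (Sum.inr true) : MvPolynomial (ι ⊕ Bool) ℂ) = 1 :=
      pderiv_X_self _
    rw [h1, h2, smul_zero, zero_add, smul_eq_mul, mul_one]
    rfl

theorem eu_tm (j : ℕ) (g : MvPolynomial ι ℂ) : eu (tm j g) = C (j : ℂ) * tm j g := by
  have h1 : pderiv (Sum.inr true) (tm j g) = rename Sum.inl g *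
      (j • ((X (Sum.inr true) * X (Sum.inr false)) ^ (j - 1) * X (Sum.inr false))) := by
    unfold tm
    rw [Derivation.leibniz, pderiv_inr_inl, smul_zero, add_zero, Derivation.leibniz_pow, d_uv]
    rfl
  rw [eu_apply, h1, tm, map_natCast]
  rcases j with _ | j
  · simp
  · rw [Nat.add_sub_cancel, pow_succ, nsmul_eq_mul]
    ring

theorem tm_C_mul (j : ℕ) (c : ℂ) (g : MvPolynomial ι ℂ) : tm j (C c * g) = C c * tm j g := by
  unfold tm
  rw [map_mul, rename_C, mul_assoc]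

/-- lift of a differential operator in `x` -/
theorem exists_lift (W : Module.End ℂ (MvPolynomial ι ℂ)) (hW : W ∈ Weyl ι) :
    ∃ W' ∈ Weyl (ι ⊕ Bool), ∀ (j : ℕ) (g : MvPolynomial ι ℂ), W' (tm j g) = tm j (W g) := by
  refine Algebra.adjoin_induction (p := fun (W : Module.End ℂ (MvPolynomial ι ℂ)) _ =>
    ∃ W' : Module.End ℂ (MvPolynomial (ι ⊕ Bool) ℂ), W' ∈ Weyl (ι ⊕ Bool) ∧
      ∀ (j : ℕ) (g : MvPolynomial ι ℂ), W' (tm j g) = tm j (W g)) ?_ ?_ ?_ ?_ hW
  · rintro W (⟨i, rfl⟩ | ⟨i, rfl⟩)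
    · refine ⟨LinearMap.mulLeft ℂ (X (Sum.inl i)), mulLeft_mem_Weyl _, fun j g => ?_⟩
      rw [LinearMap.mulLeft_apply, LinearMap.mulLeft_apply, tm, tm, map_mul, rename_X]
      ring
    · refine ⟨_, pderiv_mem_Weyl (Sum.inl i), fun j g => ?_⟩
      have h1 : pderiv (Sum.inl i) (X (Sum.inr true) : MvPolynomial (ι ⊕ Bool) ℂ) = 0 :=
        pderiv_X_of_ne (by simp)
      have h2 : pderiv (Sum.inl i) (X (Sum.inr false) : MvPolynomial (ι ⊕ Bool) ℂ) = 0 :=
        pderiv_X_of_ne (by simp)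
      have h3 : pderiv (Sum.inl i) ((X (Sum.inr true) * X (Sum.inr false)) ^ j :
          MvPolynomial (ι ⊕ Bool) ℂ) = 0 := by
        rw [Derivation.leibniz_pow, Derivation.leibniz, h1, h2]
        simp
      rw [Derivation.coeFn_coe, Derivation.coeFn_coe, tm, tm, Derivation.leibniz,
        pderiv_inl_inl, h3, smul_zero, zero_add, smul_eq_mul, mul_comm]
  · intro r
    refine ⟨algebraMap ℂ _ r, Subalgebra.algebraMap_mem _ r, fun j g => ?_⟩
    rw [Module.algebraMap_end_apply, Module.algebraMap_end_apply, tm, tm, map_smul,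
      smul_mul_assoc]
  · rintro W₁ W₂ _ _ ⟨V₁, h1, k1⟩ ⟨V₂, h2, k2⟩
    refine ⟨V₁ + V₂, add_mem h1 h2, fun j g => ?_⟩
    rw [LinearMap.add_apply, LinearMap.add_apply, k1, k2, tm, tm, tm, map_add, add_mul]
  · rintro W₁ W₂ _ _ ⟨V₁, h1, k1⟩ ⟨V₂, h2, k2⟩
    refine ⟨V₁ * V₂, mul_mem h1 h2, fun j g => ?_⟩
    rw [Module.End.mul_apply, Module.End.mul_apply, k2, k1]

/-- the family `z ↦ z - E` -/
noncomputable def zE : ℤ → Module.End ℂ (MvPolynomial (ι ⊕ Bool) ℂ) :=
  (fun z : ℤ => (z : ℂ) • (1 : Module.End ℂ (MvPolynomial (ι ⊕ Bool) ℂ))) - fun _ => eu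

theorem zE_mem : (zE : ℤ → Module.End ℂ (MvPolynomial (ι ⊕ Bool) ℂ)) ∈ PolyFam (ι ⊕ Bool) :=
  sub_mem polyFam_id (polyFam_const eu_mem)

theorem zE_tm (z : ℤ) (j : ℕ) (g : MvPolynomial ι ℂ) :
    zE z (tm j g) = C ((z : ℂ) - j) * tm j g := by
  change (z : ℂ) • (1 : Module.End ℂ (MvPolynomial (ι ⊕ Bool) ℂ)) (tm j g) - eu (tm j g) = _
  rw [eu_tm, Module.End.one_apply, MvPolynomial.smul_eq_C_mul, map_sub, sub_mul]

theorem zE_pow_tm (i : ℕ) (z : ℤ) (j : ℕ) (g : MvPolynomial ι ℂ) :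
    ((zE ^ i) z) (tm j g) = C (((z : ℂ) - j) ^ i) * tm j g := by
  rw [Pi.pow_apply]
  induction i with
  | zero => simp
  | succ i ih =>
      rw [pow_succ', Module.End.mul_apply, ih, ← MvPolynomial.smul_eq_C_mul, map_smul, zE_tm,
        MvPolynomial.smul_eq_C_mul, ← mul_assoc, ← map_mul, pow_succ]

/-- scalar families -/
theorem scalar_mem (b : Polynomial ℂ) :
    (fun z : ℤ => (b.eval ((z : ℂ) + 1)) • (1 : Module.End ℂ (MvPolynomial (ι ⊕ Bool) ℂ))) ∈
      PolyFam (ι ⊕ Bool) := by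
  induction b using Polynomial.induction_on' with
  | add p q hp hq =>
      have : (fun z : ℤ => ((p + q).eval ((z : ℂ) + 1)) •
          (1 : Module.End ℂ (MvPolynomial (ι ⊕ Bool) ℂ))) =
          (fun z : ℤ => (p.eval ((z : ℂ) + 1)) • 1) + fun z : ℤ => (q.eval ((z : ℂ) + 1)) • 1 := by
        funext z
        simp [add_smul]
      rw [this]
      exact add_mem hp hq
  | monomial n c =>
      have : (fun z : ℤ => ((Polynomial.monomial n c).eval ((z : ℂ) + 1)) •
          (1 : Module.End ℂ (MvPolynomial (ι ⊕ Bool) ℂ))) =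
          c • ((fun z : ℤ => (z : ℂ) • (1 : Module.End ℂ (MvPolynomial (ι ⊕ Bool) ℂ))) + 1) ^ n := by
        funext z
        have h1 : ((z : ℂ) • (1 : Module.End ℂ (MvPolynomial (ι ⊕ Bool) ℂ)) + 1) =
            ((z : ℂ) + 1) • (1 : Module.End ℂ (MvPolynomial (ι ⊕ Bool) ℂ)) := by
          rw [add_smul, one_smul]
        simp only [Polynomial.eval_monomial, Pi.smul_apply, Pi.pow_apply, Pi.add_apply,
          Pi.one_apply, h1, smul_pow, one_pow, smul_smul]
      rw [this]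
      exact Subalgebra.smul_mem _ (pow_mem (add_mem polyFam_id (one_mem _)) n) c

/-- `b(z - E) = b(z + 1) - A(z) (E + 1)` -/
theorem exists_diff (b : Polynomial ℂ) : ∃ (A : ℤ → Module.End ℂ (MvPolynomial (ι ⊕ Bool) ℂ))
    (α : ℤ → ℕ → ℂ), A ∈ PolyFam (ι ⊕ Bool) ∧
      (∀ (z : ℤ) (j : ℕ) (g : MvPolynomial ι ℂ), A z (tm j g) = C (α z j) * tm j g) ∧
      ∀ (z : ℤ) (j : ℕ), b.eval ((z : ℂ) - j) = b.eval ((z : ℂ) + 1) - α z j * ((j : ℂ) + 1) := by
  induction b using Polynomial.induction_on' with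
  | add p q hp hq =>
      obtain ⟨A, α, h1, h2, h3⟩ := hp
      obtain ⟨B, β, k1, k2, k3⟩ := hq
      refine ⟨A + B, fun z j => α z j + β z j, add_mem h1 k1, fun z j g => ?_, fun z j => ?_⟩
      · rw [Pi.add_apply, LinearMap.add_apply, h2, k2, map_add, add_mul]
      · rw [Polynomial.eval_add, Polynomial.eval_add, h3, k3]
        ring
  | monomial n c =>
      induction n with
      | zero =>
          refine ⟨0, fun _ _ => 0, zero_mem _, fun z j g => ?_, fun z j => ?_⟩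
          · simp
          · simp
      | succ n ih =>
          obtain ⟨A, α, h1, h2, h3⟩ := ih
          refine ⟨(fun z : ℤ => ((Polynomial.monomial n c).eval ((z : ℂ) + 1)) • 1) + A * zE,
            fun z j => (Polynomial.monomial n c).eval ((z : ℂ) + 1) + α z j * ((z : ℂ) - j),
            add_mem (scalar_mem _) (mul_mem h1 zE_mem), fun z j g => ?_, fun z j => ?_⟩
          · rw [Pi.add_apply, Pi.mul_apply, LinearMap.add_apply, Module.End.mul_apply, zE_tm,
              ← MvPolynomial.smul_eq_C_mul, map_smul, h2, LinearMap.smul_apply,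
              Module.End.one_apply, MvPolynomial.smul_eq_C_mul, MvPolynomial.smul_eq_C_mul,
              map_add, map_mul]
            ring
          · have e1 : ∀ w : ℂ, (Polynomial.monomial (n + 1) c).eval w =
                (Polynomial.monomial n c).eval w * w := by
              intro w
              simp only [Polynomial.eval_monomial, pow_succ]
              ring
            rw [e1, e1, h3]
            ring

/-- the binomial theorem for `(f + uv)^k` -/
theorem sus_pow (f : MvPolynomial ι ℂ) (k : ℕ) :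
    sus f ^ k = ∑ j ∈ Finset.range (k + 1), C (k.choose j : ℂ) * tm j (f ^ (k - j)) := by
  rw [sus, add_comm, add_pow]
  refine Finset.sum_congr rfl fun j _ => ?_
  rw [tm, map_pow, map_natCast]
  ring

end SBAux

open SBAux

theorem stmt_SB : Stmt_SB := by
  intro ι _ _ f b hb
  obtain ⟨P, hP⟩ := hb
  choose L hL hLt using fun i : ℕ => exists_lift _ (P.coeff i).2
  obtain ⟨A, α, hA, hAt, hAe⟩ := exists_diff (ι := ι) b
  set n := P.natDegree + 1 with hn
  set d2 : Module.End ℂ (MvPolynomial (ι ⊕ Bool) ℂ) :=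
    (((pderiv (Sum.inr true) : Derivation ℂ (MvPolynomial (ι ⊕ Bool) ℂ)
      (MvPolynomial (ι ⊕ Bool) ℂ)) : MvPolynomial (ι ⊕ Bool) ℂ →ₗ[ℂ] MvPolynomial (ι ⊕ Bool) ℂ) :
        Module.End ℂ (MvPolynomial (ι ⊕ Bool) ℂ)) *
    (((pderiv (Sum.inr false) : Derivation ℂ (MvPolynomial (ι ⊕ Bool) ℂ)
      (MvPolynomial (ι ⊕ Bool) ℂ)) : MvPolynomial (ι ⊕ Bool) ℂ →ₗ[ℂ] MvPolynomial (ι ⊕ Bool) ℂ) :
        Module.End ℂ (MvPolynomial (ι ⊕ Bool) ℂ)) with hd2
  have hd2m : d2 ∈ Weyl (ι ⊕ Bool) := mul_mem (pderiv_mem_Weyl _) (pderiv_mem_Weyl _)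
  set Q : ℤ → Module.End ℂ (MvPolynomial (ι ⊕ Bool) ℂ) :=
    (zE + 1) * (∑ i ∈ Finset.range n, (fun _ => L i) * zE ^ i) + A * fun _ => d2 with hQ
  have hQm : Q ∈ PolyFam (ι ⊕ Bool) := by
    refine add_mem (mul_mem (add_mem zE_mem (one_mem _)) (sum_mem fun i _ =>
      mul_mem (polyFam_const (hL i)) (pow_mem zE_mem i))) (mul_mem hA (polyFam_const hd2m))
  obtain ⟨P', hP'⟩ := exists_of_polyFam Q hQm
  refine ⟨P', fun k => ?_⟩
  rw [hP', hQ]
  -- first part on the pieces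
  have h1 : ∀ j ∈ Finset.range (k + 1 + 1),
      ((zE + 1) * (∑ i ∈ Finset.range n, (fun _ => L i) * zE ^ i) :
        ℤ → Module.End ℂ (MvPolynomial (ι ⊕ Bool) ℂ)) (k : ℤ)
          (C ((k + 1).choose j : ℂ) * tm j (f ^ (k + 1 - j))) =
        if j ∈ Finset.range (k + 1) then C ((k : ℂ) + 1) * (C ((k.choose j : ℂ) *
          b.eval ((k : ℂ) - j)) * tm j (f ^ (k - j))) else 0 := by
    intro j hj
    rw [Pi.mul_apply, Finset.sum_apply, Module.End.mul_apply, LinearMap.sum_apply]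
    have e1 : ∀ i, (((fun _ => L i) * zE ^ i : ℤ → Module.End ℂ (MvPolynomial (ι ⊕ Bool) ℂ))
        (k : ℤ)) (C ((k + 1).choose j : ℂ) * tm j (f ^ (k + 1 - j))) =
        C ((k + 1).choose j : ℂ) * tm j (C (((k : ℂ) - j) ^ i) *
          (P.coeff i : Module.End ℂ (MvPolynomial ι ℂ)) (f ^ (k + 1 - j))) := by
      intro i
      rw [Pi.mul_apply, Module.End.mul_apply, ← MvPolynomial.smul_eq_C_mul, map_smul, map_smul,
        zE_pow_tm, ← MvPolynomial.smul_eq_C_mul, map_smul, hLt, MvPolynomial.smul_eq_C_mul,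
        MvPolynomial.smul_eq_C_mul, tm_C_mul, Int.cast_natCast]
    simp only [e1]
    have e2 : ∑ i ∈ Finset.range n, C ((k + 1).choose j : ℂ) * tm j (C (((k : ℂ) - j) ^ i) *
          (P.coeff i : Module.End ℂ (MvPolynomial ι ℂ)) (f ^ (k + 1 - j))) =
        C ((k + 1).choose j : ℂ) * tm j (∑ i ∈ Finset.range n, C (((k : ℂ) - j) ^ i) *
          (P.coeff i : Module.End ℂ (MvPolynomial ι ℂ)) (f ^ (k + 1 - j))) := by
      rw [tm, map_sum, Finset.sum_mul, Finset.mul_sum]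
      exact Finset.sum_congr rfl fun i _ => rfl
    rw [e2]
    have e3 : ∀ (c : ℂ) (g : MvPolynomial ι ℂ), (((zE + 1 :
        ℤ → Module.End ℂ (MvPolynomial (ι ⊕ Bool) ℂ))) (k : ℤ)) (C c * tm j g) =
        C (c * ((k : ℂ) + 1 - j)) * tm j g := by
      intro c g
      rw [Pi.add_apply, Pi.one_apply, ← MvPolynomial.smul_eq_C_mul, map_smul,
        LinearMap.add_apply, zE_tm, Module.End.one_apply, MvPolynomial.smul_eq_C_mul,
        Int.cast_natCast, map_mul, map_sub, map_sub, map_add, map_one]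
      ring
    rw [e3]
    by_cases hj2 : j ∈ Finset.range (k + 1)
    · rw [if_pos hj2]
      have hjk : j ≤ k := Nat.lt_succ_iff.mp (Finset.mem_range.mp hj2)
      have hk1 : k + 1 - j = (k - j) + 1 := by omega
      have hcast : ((k - j : ℕ) : ℂ) = (k : ℂ) - j := by push_cast [hjk]; ring
      have e4 : ∑ i ∈ Finset.range n, C (((k : ℂ) - j) ^ i) *
          (P.coeff i : Module.End ℂ (MvPolynomial ι ℂ)) (f ^ (k + 1 - j)) =
          C (b.eval ((k : ℂ) - j)) * f ^ (k - j) := by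
        have := hP (k - j)
        rw [wact_eq_sum P (k - j) _ n (Nat.lt_succ_self _), hcast] at this
        rw [hk1, this]
      have e5 : ((k + 1).choose j : ℂ) * ((k : ℂ) + 1 - j) = ((k : ℂ) + 1) * (k.choose j : ℂ) := by
        have h6 : (k + 1).choose j * (k + 1 - j) = (k + 1) * k.choose j := by
          have := Nat.choose_mul_succ_eq k j
          rw [Nat.mul_comm] at this
          rw [← this, Nat.mul_comm]
        have h7 : (((k + 1).choose j * (k + 1 - j) : ℕ) : ℂ) = (((k + 1) * k.choose j : ℕ) : ℂ) := by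
          rw [h6]
        push_cast [Nat.le_succ_of_le hjk] at h7
        exact h7
      rw [e4, e5, tm_C_mul]
      simp only [map_mul]
      ring
    · rw [if_neg hj2]
      have hjk : j = k + 1 := by
        have h8 := Finset.mem_range.mp hj
        have h9 : ¬ j < k + 1 := fun h => hj2 (Finset.mem_range.mpr h)
        omega
      rw [hjk]
      push_cast
      simp
  -- second part
  have h2 : d2 (sus f ^ (k + 1)) = C ((k : ℂ) + 1) * (∑ j ∈ Finset.range (k + 1),
      C ((k.choose j : ℂ) * ((j : ℂ) + 1)) * tm j (f ^ (k - j))) := by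
    have e1 : pderiv (Sum.inr false) (sus f) = X (Sum.inr true) := by
      rw [sus, map_add, pderiv_inr_inl, d_uv, zero_add]
      rfl
    have e2 : d2 (sus f ^ (k + 1)) = C ((k : ℂ) + 1) *
        (sus f ^ k + eu (sus f ^ k)) := by
      have e4 : pderiv (Sum.inr true) (X (Sum.inr true) : MvPolynomial (ι ⊕ Bool) ℂ) = 1 :=
        pderiv_X_self _
      rw [hd2, Module.End.mul_apply, Derivation.coeFn_coe, Derivation.coeFn_coe,
        Derivation.leibniz_pow, e1, map_nsmul, smul_eq_mul, Derivation.leibniz, e4, eu_apply]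
      simp only [Nat.add_sub_cancel, smul_eq_mul, nsmul_eq_mul, Nat.cast_add, Nat.cast_one,
        mul_one, map_add, map_natCast, map_one]
    rw [e2]
    congr 1
    rw [sus_pow, map_sum, ← Finset.sum_add_distrib]
    refine Finset.sum_congr rfl fun j _ => ?_
    rw [← MvPolynomial.smul_eq_C_mul, map_smul, eu_tm, MvPolynomial.smul_eq_C_mul,
      MvPolynomial.smul_eq_C_mul, map_mul, map_add, map_one]
    ring
  rw [Pi.add_apply, LinearMap.add_apply, Pi.mul_apply (f := A), Module.End.mul_apply, h2]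
  rw [sus_pow f (k + 1), map_sum, Finset.sum_congr rfl h1, Finset.sum_ite_mem,
    Finset.inter_eq_right.mpr (Finset.range_subset_range.mpr (Nat.le_succ _)), ← Finset.mul_sum,
    ← MvPolynomial.smul_eq_C_mul, ← MvPolynomial.smul_eq_C_mul, map_smul, map_sum,
    MvPolynomial.smul_eq_C_mul, MvPolynomial.smul_eq_C_mul, ← mul_add, ← Finset.sum_add_distrib,
    sus_pow]
  have h3 : ∀ j ∈ Finset.range (k + 1),
      C ((k.choose j : ℂ) * b.eval ((k : ℂ) - j)) * tm j (f ^ (k - j)) +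
        A (k : ℤ) (C ((k.choose j : ℂ) * ((j : ℂ) + 1)) * tm j (f ^ (k - j))) =
      C (b.eval ((k : ℂ) + 1)) * (C (k.choose j : ℂ) * tm j (f ^ (k - j))) := by
    intro j _
    have e1 := hAe (k : ℤ) j
    rw [Int.cast_natCast] at e1
    rw [← MvPolynomial.smul_eq_C_mul (a := (k.choose j : ℂ) * ((j : ℂ) + 1)), map_smul, hAt,
      MvPolynomial.smul_eq_C_mul, e1]
    simp only [map_mul, map_sub, map_add, map_one]
    ring
  rw [Finset.sum_congr rfl h3, ← Finset.mul_sum, ← mul_assoc, ← map_mul]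
  congr 2
  simp [Polynomial.eval_comp]

end Pool.Agent.Mono

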