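import Pool.Agent.Work.Monodromy.Interface3

/-!
# Block SP: poles of `R(s+1)` and of `1 - s(s+2)/(s+1)^2 (1 - R(s+1))`
-/

namespace Pool.Agent.Mono

open Polynomial

namespace SPAux

/-- `shR` of a quotient of polynomials -/
theorem shR_eq (R : RatFunc ℚ) :
    shR R = algebraMap (Polynomial ℚ) (RatFunc ℚ) (R.num.comp (X + 1 : Polynomial ℚ)) /
      algebraMap (Polynomial ℚ) (RatFunc ℚ) (R.denom.comp (X + 1 : Polynomial ℚ)) := by
  conv_lhs => rw [← RatFunc.num_div_denom R]
  unfold shR
  rw [RatFunc.coe_mapRingHom_eq_coe_map, RatFunc.map_apply_div]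
  rfl

theorem comp_ne_zero (q : Polynomial ℚ) (hq : q ≠ 0) : q.comp (X + 1 : Polynomial ℚ) ≠ 0 := by
  have h := compInj (mem_nonZeroDivisors_of_ne_zero hq)
  rw [Submonoid.mem_comap] at h
  exact nonZeroDivisors.ne_zero h

theorem num_ne {R : RatFunc ℚ} {s : ℂ} (h : aeval s R.denom = 0) : aeval s R.num ≠ 0 := by
  intro h0
  obtain ⟨u, v, huv⟩ := RatFunc.isCoprime_num_denom R
  have := congrArg (aeval s) huv
  rw [map_add, map_mul, map_mul, h, h0, mul_zero, mul_zero, add_zero, map_one] at this
  exact zero_ne_one this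

theorem aeval_comp_shift (p : Polynomial ℚ) (s : ℂ) :
    aeval (s - 1) (p.comp (X + 1 : Polynomial ℚ)) = aeval s p := by
  rw [aeval_comp]
  congr 1
  simp

end SPAux

open SPAux

theorem stmt_SP : Stmt_SP := by
  refine ⟨fun R s hs => ?_, fun R s h1 h2 hs => ?_⟩
  · by_contra hb
    have hcomp := comp_ne_zero R.denom (RatFunc.denom_ne_zero R)
    have hA : algebraMap (Polynomial ℚ) (RatFunc ℚ) (R.denom.comp (X + 1 : Polynomial ℚ)) ≠ 0 :=
      (RatFunc.algebraMap_ne_zero hcomp)
    have hB : algebraMap (Polynomial ℚ) (RatFunc ℚ) (shR R).denom ≠ 0 :=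
      RatFunc.algebraMap_ne_zero (RatFunc.denom_ne_zero _)
    have key := shR_eq R
    have h3 := RatFunc.num_div_denom (shR R)
    rw [← h3, div_eq_div_iff hB hA, ← map_mul, ← map_mul] at key
    have key2 := RatFunc.algebraMap_injective ℚ key
    have key3 := congrArg (aeval (s - 1)) key2
    rw [map_mul, map_mul, aeval_comp_shift, aeval_comp_shift, hs, mul_zero] at key3
    rcases mul_eq_zero.1 key3.symm with h | h
    · exact num_ne hs h
    · exact hb h
  · by_contra hb
    have hcomp := comp_ne_zero R.denom (RatFunc.denom_ne_zero R)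
    have hA : algebraMap (Polynomial ℚ) (RatFunc ℚ) (R.denom.comp (X + 1 : Polynomial ℚ)) ≠ 0 :=
      (RatFunc.algebraMap_ne_zero hcomp)
    have hB : algebraMap (Polynomial ℚ) (RatFunc ℚ) (susR R).denom ≠ 0 :=
      RatFunc.algebraMap_ne_zero (RatFunc.denom_ne_zero _)
    have hX : (RatFunc.X + 1 : RatFunc ℚ) ≠ 0 := by
      have : (RatFunc.X + 1 : RatFunc ℚ) =
          algebraMap (Polynomial ℚ) (RatFunc ℚ) (X + 1 : Polynomial ℚ) := by
        rw [map_add, RatFunc.algebraMap_X, map_one]
      rw [this]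
      apply RatFunc.algebraMap_ne_zero
      have := (Polynomial.monic_X_add_C (1 : ℚ)).ne_zero
      rwa [C_1] at this
    set p := R.num.comp (X + 1 : Polynomial ℚ) with hp
    set q := R.denom.comp (X + 1 : Polynomial ℚ) with hq
    set a := (susR R).num with ha
    set b := (susR R).denom with hbb
    have h3 : algebraMap (Polynomial ℚ) (RatFunc ℚ) a / algebraMap (Polynomial ℚ) (RatFunc ℚ) b =
      susR R := RatFunc.num_div_denom (susR R)
    have key : algebraMap (Polynomial ℚ) (RatFunc ℚ) (X * (X + 2) * b * p) =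
        algebraMap (Polynomial ℚ) (RatFunc ℚ) (q * (X * (X + 2) * b - (X + 1) ^ 2 * (b - a))) := by
      simp only [map_mul, map_sub, map_add, map_pow, RatFunc.algebraMap_X, map_one, map_ofNat]
      have h4 := h3
      unfold susR at h4
      rw [shR_eq R, ← hp, ← hq] at h4
      generalize algebraMap (Polynomial ℚ) (RatFunc ℚ) a = a' at *
      generalize algebraMap (Polynomial ℚ) (RatFunc ℚ) b = b' at *
      generalize algebraMap (Polynomial ℚ) (RatFunc ℚ) p = p' at *
      generalize algebraMap (Polynomial ℚ) (RatFunc ℚ) q = q' at *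
      have h5 : a' = (1 - RatFunc.X * (RatFunc.X + 2) / (RatFunc.X + 1) ^ 2 * (1 - p' / q')) * b' := by
        rw [← h4, div_mul_cancel₀ _ hB]
      rw [h5]
      field_simp
      ring
    have key2 := RatFunc.algebraMap_injective ℚ key
    have key3 := congrArg (aeval (s - 1)) key2
    rw [map_mul, map_mul (aeval (s - 1)) q, hp, hq, aeval_comp_shift, aeval_comp_shift, hs,
      zero_mul] at key3
    have h6 : (aeval (s - 1)) (X * (X + 2) * b : Polynomial ℚ) = (s - 1) * (s + 1) * aeval (s - 1) b := by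
      rw [map_mul, map_mul, map_add, aeval_X, map_ofNat]
      ring
    rw [h6] at key3
    rcases mul_eq_zero.1 key3 with h | h
    · rcases mul_eq_zero.1 h with h | h
      · rcases mul_eq_zero.1 h with h | h
        · exact h1 (sub_eq_zero.1 h)
        · exact h2 (eq_neg_of_add_eq_zero_left h)
      · exact hb h
    · exact num_ne hs h

end Pool.Agent.Mono
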