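import Pool.Agent.Work.Monodromy.Interface

/-!
# Block Split, part 1: constructible sets, reindexing, coefficients of `F`
-/

set_option autoImplicit false

namespace Pool.Agent.Mono
namespace SplitAux

open MvPolynomial

/-! ### constructible sets -/

section con

variable {ι κ : Type}

theorem con_univ : Constructible (Set.univ : Set (ι → ℂ)) := by
  have h := Constructible.zero (0 : MvPolynomial ι ℂ)
  have e : {x : ι → ℂ | eval x (0 : MvPolynomial ι ℂ) = 0} = Set.univ := by
    ext x
    simp
  rwa [e] at h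

theorem con_ne (p : MvPolynomial ι ℂ) : Constructible {x : ι → ℂ | eval x p ≠ 0} :=
  (Constructible.zero p).compl

theorem con_eq (p q : MvPolynomial ι ℂ) : Constructible {x : ι → ℂ | eval x p = eval x q} := by
  have h := Constructible.zero (p - q)
  have e : {x : ι → ℂ | eval x (p - q) = 0} = {x | eval x p = eval x q} := by
    ext x
    simp only [Set.mem_ofPred_eq, map_sub, sub_eq_zero]
  rwa [e] at h

theorem con_empty : Constructible (∅ : Set (ι → ℂ)) := by
  have h := (con_univ (ι := ι)).compl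
  rwa [Set.compl_univ] at h

theorem con_union {s t : Set (ι → ℂ)} (hs : Constructible s) (ht : Constructible t) :
    Constructible (s ∪ t) := by
  have h := (hs.compl.inter ht.compl).compl
  rwa [Set.compl_inter, compl_compl, compl_compl] at h

theorem con_and {P Q : (ι → ℂ) → Prop} (hP : Constructible {x | P x})
    (hQ : Constructible {x | Q x}) : Constructible {x | P x ∧ Q x} := hP.inter hQ

theorem con_forall_lt (p : ℕ → MvPolynomial ι ℂ) (k : ℕ) :
    Constructible {x : ι → ℂ | ∀ l < k, eval x (p l) = 0} := by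
  induction k with
  | zero =>
    have e : {x : ι → ℂ | ∀ l < 0, eval x (p l) = 0} = Set.univ := by
      ext x
      simp
    rw [e]
    exact con_univ
  | succ k ih =>
    have e : {x : ι → ℂ | ∀ l < k + 1, eval x (p l) = 0} =
        {x | ∀ l < k, eval x (p l) = 0} ∩ {x | eval x (p k) = 0} := by
      ext x
      constructor
      · intro h
        exact ⟨fun l hl => h l (by omega), h k (by omega)⟩
      · rintro ⟨h1, h2⟩ l hl
        rcases Nat.lt_succ_iff_lt_or_eq.1 hl with h3 | h3
        · exact h1 l h3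
        · rw [h3]
          exact h2
    rw [e]
    exact ih.inter (Constructible.zero _)

/-- preimages under forgetting / permuting coordinates (from YC) -/
theorem con_pre (hYC : Stmt_YC) (g : κ → ι) {s : Set (κ → ℂ)} (hs : Constructible s) :
    Constructible {x : ι → ℂ | (fun j => x (g j)) ∈ s} := by
  have h := hYC ι κ (fun j => X (g j)) s hs
  have e : {x : ι → ℂ | (fun j => eval x (X (g j) : MvPolynomial ι ℂ)) ∈ s} =
      {x : ι → ℂ | (fun j => x (g j)) ∈ s} := by
    ext x
    simp only [eval_X]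
  rwa [e] at h

theorem con_biUnion {α : Type} (A : Finset α) (s : α → Set (ι → ℂ))
    (hs : ∀ a ∈ A, Constructible (s a)) : Constructible (⋃ a ∈ A, s a) := by
  classical
  induction A using Finset.induction_on with
  | empty => simpa using con_empty
  | insert a A _ ih =>
    rw [Finset.set_biUnion_insert]
    exact con_union (hs a (Finset.mem_insert_self a A))
      (ih fun b hb => hs b (Finset.mem_insert_of_mem hb))

theorem con_pset (hYC : Stmt_YC) {B : Set (ι → ℂ)} {S : Set (κ → ℂ)} (hB : Constructible B)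
    (hS : Constructible S) : Constructible (pset B S) :=
  con_and (con_pre hYC Sum.inl hB) (con_pre hYC Sum.inr hS)

theorem eval_inl (v : ι ⊕ κ → ℂ) (p : MvPolynomial ι ℂ) :
    eval v (rename Sum.inl p) = eval (fun i => v (Sum.inl i)) p := by
  rw [eval_rename]
  rfl

theorem eval_inr (v : ι ⊕ κ → ℂ) (p : MvPolynomial κ ℂ) :
    eval v (rename Sum.inr p) = eval (fun i => v (Sum.inr i)) p := by
  rw [eval_rename]
  rfl

theorem eval_pmul (v : ι ⊕ κ → ℂ) (h : MvPolynomial ι ℂ) (u : MvPolynomial κ ℂ) :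
    eval v (pmul h u) = eval (fun i => v (Sum.inl i)) h * eval (fun i => v (Sum.inr i)) u := by
  rw [pmul, map_mul, eval_inl, eval_inr]

theorem con_cover (hYC : Stmt_YC) (g : ℕ) {B : Set (ι → ℂ)} (h : MvPolynomial ι ℂ)
    (hB : Constructible B) : Constructible (cover g B h) := by
  refine con_and (con_pre hYC Sum.inl hB) ?_
  have h1 := con_eq (X (Sum.inr ()) ^ g : MvPolynomial (ι ⊕ Unit) ℂ) (rename Sum.inl h)
  have e : {x : ι ⊕ Unit → ℂ | eval x (X (Sum.inr ()) ^ g : MvPolynomial (ι ⊕ Unit) ℂ) =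
      eval x (rename Sum.inl h)} =
      {v | v (Sum.inr ()) ^ g = eval (fun p => v (Sum.inl p)) h} := by
    ext x
    simp only [Set.mem_ofPred_eq, map_pow, eval_X, eval_inl]
  rwa [e] at h1

end con

/-! ### measures -/

section mes

variable {R : Type} [CommRing R] (μ : MotivicMeasure R) {ι κ : Type} [Finite ι] [Finite κ]

theorem val_empty : μ.val (∅ : Set (ι → ℂ)) = 0 := by
  have h := μ.union (∅ : Set (ι → ℂ)) ∅ con_empty con_empty (Set.disjoint_empty _)
  rw [Set.union_empty] at h
  have h2 : μ.val (∅ : Set (ι → ℂ)) + 0 = μ.val (∅ : Set (ι → ℂ)) + μ.val (∅ : Set (ι → ℂ)) := by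
    rw [add_zero]
    exact h
  exact (add_left_cancel h2).symm

theorem val_biUnion {α : Type} [DecidableEq α] (A : Finset α) (s : α → Set (ι → ℂ))
    (hs : ∀ a ∈ A, Constructible (s a))
    (hd : ∀ a ∈ A, ∀ b ∈ A, a ≠ b → Disjoint (s a) (s b)) :
    μ.val (⋃ a ∈ A, s a) = ∑ a ∈ A, μ.val (s a) := by
  induction A using Finset.induction_on with
  | empty => simpa using val_empty μ
  | insert a A ha ih =>
    rw [Finset.set_biUnion_insert, Finset.sum_insert ha, μ.union, ih]
    · exact fun b hb => hs b (Finset.mem_insert_of_mem hb)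
    · exact fun b hb c hc => hd b (Finset.mem_insert_of_mem hb) c (Finset.mem_insert_of_mem hc)
    · exact hs a (Finset.mem_insert_self a A)
    · exact con_biUnion A s fun b hb => hs b (Finset.mem_insert_of_mem hb)
    · rw [Set.disjoint_iUnion₂_right]
      intro b hb
      apply hd a (Finset.mem_insert_self a A) b (Finset.mem_insert_of_mem hb)
      rintro rfl
      exact ha hb

theorem val_reindex {s : Set (ι → ℂ)} {t : Set (κ → ℂ)} (e : κ ≃ ι) (hs : Constructible s)
    (ht : Constructible t) (h : ∀ x : ι → ℂ, x ∈ s ↔ (fun j => x (e j)) ∈ t) :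
    μ.val s = μ.val t := by
  apply μ.map s t (fun j => X (e j)) hs ht
  simp only [eval_X]
  refine ⟨fun x hx => (h x).1 hx, ?_, ?_⟩
  · intro x _ y _ hxy
    ext i
    have := congrFun hxy (e.symm i)
    simpa using this
  · intro y hy
    refine ⟨fun i => y (e.symm i), ?_, ?_⟩
    · rw [h]
      simpa using hy
    · ext j
      simp

end mes

/-! ### coefficients of `F` -/

section coef

variable {ι κ : Type} [Fintype ι] [Fintype κ] [DecidableEq ι] [DecidableEq κ]

/-- `F` over an algebra -/
noncomputable def FA {A : Type} [CommRing A] [Algebra ℂ A] (D : Data ι κ) (δ : ι → ℕ)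
    (x : ι → PowerSeries A) : PowerSeries A :=
  (∏ i, x i ^ D.b i) * ∏ j, (PowerSeries.C (algebraMap ℂ A (D.c0 j)) +
    ∑ i, PowerSeries.C (algebraMap ℂ A (D.c j i)) * (PowerSeries.X ^ δ i * x i ^ D.a i)) ^ D.m j

omit [DecidableEq ι] [DecidableEq κ] in
theorem map_FA {A : Type} [CommRing A] [Algebra ℂ A] (f : A →ₐ[ℂ] ℂ) (D : Data ι κ) (δ : ι → ℕ)
    (x : ι → PowerSeries A) : PowerSeries.map (f : A →+* ℂ) (FA D δ x) =
      D.F δ (fun i => PowerSeries.map (f : A →+* ℂ) (x i)) := by
  simp only [FA, Data.F, Data.formS, map_mul, map_prod, map_pow, map_add, map_sum,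
    PowerSeries.map_C, PowerSeries.map_X]
  have h : ∀ c : ℂ, (f : A →+* ℂ) (algebraMap ℂ A c) = c := fun c => f.commutes c
  simp only [h]

/-- the generic arc -/
noncomputable def gArc (K : ι → ℕ) (i : ι) : PowerSeries (MvPolynomial (Σ i, Fin (K i)) ℂ) :=
  PowerSeries.mk fun l => if h : l < K i then X ⟨i, ⟨l, h⟩⟩ else 0

/-- the coefficients of `F` as polynomials in the coefficients of the arc -/
noncomputable def cP (D : Data ι κ) (δ : ι → ℕ) (K : ι → ℕ) (l : ℕ) :
    MvPolynomial (Σ i, Fin (K i)) ℂ := PowerSeries.coeff l (FA D δ (gArc K))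

omit [DecidableEq ι] [DecidableEq κ] in
theorem eval_cP (D : Data ι κ) (δ : ι → ℕ) (K : ι → ℕ) (l : ℕ) (v : (Σ i, Fin (K i)) → ℂ) :
    eval v (cP D δ K l) = PowerSeries.coeff l (D.F δ (toArc K v)) := by
  have h1 := congrArg (PowerSeries.coeff l)
    (map_FA (aeval v : MvPolynomial (Σ i, Fin (K i)) ℂ →ₐ[ℂ] ℂ) D δ (gArc K))
  rw [PowerSeries.coeff_map] at h1
  have h2 : (fun i => PowerSeries.map ((aeval v : MvPolynomial (Σ i, Fin (K i)) ℂ →ₐ[ℂ] ℂ) :
      MvPolynomial (Σ i, Fin (K i)) ℂ →+* ℂ) (gArc K i)) = toArc K v := by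
    funext i
    ext l
    simp only [gArc, toArc, PowerSeries.coeff_map, PowerSeries.coeff_mk]
    split_ifs
    · simp
    · simp
  rw [h2] at h1
  rw [cP, ← h1]
  simp [coe_aeval_eq_eval]

omit [DecidableEq ι] [DecidableEq κ] in
/-- `F` depends only on the variables in `I`, and its low coefficients on the low coefficients -/
theorem F_coeff (D : Data ι κ) (δ : ι → ℕ) (I : Finset ι) (hb : ∀ i ∉ I, D.b i = 0)
    (hc : ∀ j, 0 < D.m j → ∀ i ∉ I, D.c j i = 0) (n : ℕ) (x y : ι → PowerSeries ℂ)
    (h : ∀ i ∈ I, ∀ l < n, PowerSeries.coeff l (x i) = PowerSeries.coeff l (y i)) :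
    ∀ l < n, PowerSeries.coeff l (D.F δ x) = PowerSeries.coeff l (D.F δ y) := by
  let J : Ideal (PowerSeries ℂ) := Ideal.span {PowerSeries.X ^ n}
  have hJ : ∀ f g : PowerSeries ℂ, Ideal.Quotient.mk J f = Ideal.Quotient.mk J g ↔
      ∀ l < n, PowerSeries.coeff l f = PowerSeries.coeff l g := by
    intro f g
    rw [Ideal.Quotient.eq, Ideal.mem_span_singleton, PowerSeries.X_pow_dvd_iff]
    simp only [map_sub, sub_eq_zero]
  rw [← hJ]
  have h' : ∀ i ∈ I, Ideal.Quotient.mk J (x i) = Ideal.Quotient.mk J (y i) := fun i hi =>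
    (hJ _ _).2 (h i hi)
  simp only [Data.F, Data.formS, map_mul, map_prod, map_pow, map_add, map_sum]
  congr 1
  · refine Finset.prod_congr rfl fun i _ => ?_
    by_cases hi : i ∈ I
    · rw [h' i hi]
    · rw [hb i hi, pow_zero, pow_zero]
  · refine Finset.prod_congr rfl fun j _ => ?_
    rcases Nat.eq_zero_or_pos (D.m j) with hm | hm
    · rw [hm, pow_zero, pow_zero]
    · congr 2
      refine Finset.sum_congr rfl fun i _ => ?_
      by_cases hi : i ∈ I
      · rw [h' i hi]
      · rw [hc j hm i hi, map_zero, map_zero, zero_mul, zero_mul]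

end coef

end SplitAux
end Pool.Agent.Mono
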