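import Pool.Agent.Work.Monodromy.Split1

/-!
# Block Split, part 2: contact sets of two factors
-/

set_option autoImplicit false

namespace Pool.Agent.Mono
namespace SplitAux

open MvPolynomial

variable {ι κ : Type} [Fintype ι] [Fintype κ] [DecidableEq ι] [DecidableEq κ]

/-- level functions -/
def lev (I : Finset ι) (k : ℕ) (i : ι) : ℕ := if i ∈ I then k + 1 else 0

/-- `D` depends only on the variables in `I` -/
def Dep (D : Data ι κ) (I : Finset ι) : Prop :=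
  (∀ i ∉ I, D.b i = 0) ∧ ∀ j, 0 < D.m j → ∀ i ∉ I, D.c j i = 0

omit [DecidableEq ι] [DecidableEq κ] in
theorem Dep.coeff {D : Data ι κ} {I : Finset ι} (h : Dep D I) (δ : ι → ℕ) (n : ℕ)
    (x y : ι → PowerSeries ℂ)
    (hxy : ∀ i ∈ I, ∀ l < n, PowerSeries.coeff l (x i) = PowerSeries.coeff l (y i)) :
    ∀ l < n, PowerSeries.coeff l (D.F δ x) = PowerSeries.coeff l (D.F δ y) :=
  F_coeff D δ I h.1 h.2 n x y hxy

omit [DecidableEq ι] [DecidableEq κ] in
theorem Dep.F_eq {D : Data ι κ} {I : Finset ι} (h : Dep D I) (δ : ι → ℕ)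
    (x y : ι → PowerSeries ℂ) (hxy : ∀ i ∈ I, x i = y i) : D.F δ x = D.F δ y := by
  ext n
  exact h.coeff δ (n + 1) x y (fun i hi l _ => by rw [hxy i hi]) n (Nat.lt_succ_self n)

/-- the arc condition `ord F = k` -/
def Ord (D : Data ι κ) (δ : ι → ℕ) (k : ℕ) (x : ι → PowerSeries ℂ) : Prop :=
  (∀ l < k, PowerSeries.coeff l (D.F δ x) = 0) ∧ PowerSeries.coeff k (D.F δ x) ≠ 0

omit [DecidableEq ι] [DecidableEq κ] in
theorem Dep.ord {D : Data ι κ} {I : Finset ι} (h : Dep D I) (δ : ι → ℕ) (k : ℕ)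
    (x y : ι → PowerSeries ℂ)
    (hxy : ∀ i ∈ I, ∀ l < k + 1, PowerSeries.coeff l (x i) = PowerSeries.coeff l (y i)) :
    Ord D δ k x ↔ Ord D δ k y := by
  have h1 := h.coeff δ (k + 1) x y hxy
  unfold Ord
  rw [h1 k (Nat.lt_succ_self k)]
  constructor
  · rintro ⟨h2, h3⟩
    exact ⟨fun l hl => by rw [← h1 l (by omega)]; exact h2 l hl, h3⟩
  · rintro ⟨h2, h3⟩
    exact ⟨fun l hl => by rw [h1 l (by omega)]; exact h2 l hl, h3⟩

omit [DecidableEq ι] [DecidableEq κ] in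
/-- constructibility of the condition `ord F = k` on truncated arcs, with extra coordinates -/
theorem con_ord {E : Type} (D : Data ι κ) (δ : ι → ℕ) (k : ℕ) (K : ι → ℕ)
    (g : (Σ i, Fin (K i)) → E) :
    Constructible {x : E → ℂ | Ord D δ k (toArc K fun s => x (g s))} := by
  have h1 := con_forall_lt (fun l => rename g (cP D δ K l)) k
  have h2 := con_ne (rename g (cP D δ K k))
  have h3 := con_and h1 h2
  have e : ∀ (x : E → ℂ) (l : ℕ), eval x (rename g (cP D δ K l)) =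
      PowerSeries.coeff l (D.F δ (toArc K fun s => x (g s))) := by
    intro x l
    rw [eval_rename, eval_cP]
    rfl
  simp only [e] at h3
  exact h3

/-- two factors -/
def C2 {E : Type} (e : ℕ) (B : Set (E → ℂ)) (h : MvPolynomial E ℂ) (D1 D2 : Data ι κ) (δ : ι → ℕ)
    (k1 k2 : ℕ) : Set ((E ⊕ Unit → ℂ) × (ι → PowerSeries ℂ)) :=
  {z | (fun p => z.1 (Sum.inl p)) ∈ B ∧ Ord D1 δ k1 z.2 ∧ Ord D2 δ k2 z.2 ∧
    z.1 (Sum.inr ()) ^ e = eval (fun p => z.1 (Sum.inl p)) h *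
      (PowerSeries.coeff k1 (D1.F δ z.2) * PowerSeries.coeff k2 (D2.F δ z.2))}

section cyl

variable {E : Type} [Finite E]

omit [DecidableEq κ] [Finite E] in
theorem cyl_contact (hYC : Stmt_YC) (e : ℕ) {B : Set (E → ℂ)} (hB : Constructible B)
    (h : MvPolynomial E ℂ) {D : Data ι κ} {I : Finset ι} (hD : Dep D I) (δ : ι → ℕ) (k : ℕ)
    (K : ι → ℕ) (hK : ∀ i ∈ I, k + 1 ≤ K i) : IsCyl K (contact e B h D δ k) := by
  constructor
  · intro p x y hxy
    have h1 : ∀ i ∈ I, ∀ l < k + 1, PowerSeries.coeff l (x i) = PowerSeries.coeff l (y i) :=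
      fun i hi l hl => hxy i l (lt_of_lt_of_le hl (hK i hi))
    have h2 := hD.ord δ k x y h1
    have h3 := hD.coeff δ (k + 1) x y h1 k (Nat.lt_succ_self k)
    have h4 : ∀ u : ι → PowerSeries ℂ, ((p, u) : (E ⊕ Unit → ℂ) × (ι → PowerSeries ℂ)) ∈
        contact e B h D δ k ↔ ((fun q => p (Sum.inl q)) ∈ B ∧ Ord D δ k u ∧
        p (Sum.inr ()) ^ e = eval (fun q => p (Sum.inl q)) h * PowerSeries.coeff k (D.F δ u)) := by
      intro u
      simp only [contact, Ord, Set.mem_ofPred_eq, and_assoc]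
    rw [h4, h4, h2, h3]
  · have h1 : Constructible {v : (E ⊕ Unit) ⊕ (Σ i, Fin (K i)) → ℂ |
        (fun q => v (Sum.inl (Sum.inl q))) ∈ B} :=
      con_pre hYC (fun q => Sum.inl (Sum.inl q)) hB
    have h2 := con_ord (E := (E ⊕ Unit) ⊕ (Σ i, Fin (K i))) D δ k K Sum.inr
    have h3 := con_eq (X (Sum.inl (Sum.inr ())) ^ e)
      (rename (fun q => Sum.inl (Sum.inl q)) h * rename Sum.inr (cP D δ K k) :
        MvPolynomial ((E ⊕ Unit) ⊕ (Σ i, Fin (K i))) ℂ)
    have h4 := con_and h1 (con_and h2 h3)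
    have h5 : sec K (contact e B h D δ k) = {v : (E ⊕ Unit) ⊕ (Σ i, Fin (K i)) → ℂ |
        (fun q => v (Sum.inl (Sum.inl q))) ∈ B ∧ Ord D δ k (toArc K fun s => v (Sum.inr s)) ∧
        eval v (X (Sum.inl (Sum.inr ())) ^ e) = eval v (rename (fun q => Sum.inl (Sum.inl q)) h *
          rename Sum.inr (cP D δ K k))} := by
      ext v
      simp only [sec, contact, Ord, Set.mem_ofPred_eq, and_assoc, map_pow, eval_X, map_mul,
        eval_inr, eval_cP]
      rw [eval_rename]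
      rfl
    rw [h5]
    exact h4

omit [DecidableEq κ] [Finite E] in
theorem cyl_C2 (hYC : Stmt_YC) (e : ℕ) {B : Set (E → ℂ)} (hB : Constructible B)
    (h : MvPolynomial E ℂ) {D1 D2 : Data ι κ} {I1 I2 : Finset ι} (hD1 : Dep D1 I1)
    (hD2 : Dep D2 I2) (δ : ι → ℕ) (k1 k2 : ℕ)
    (K : ι → ℕ) (hK1 : ∀ i ∈ I1, k1 + 1 ≤ K i) (hK2 : ∀ i ∈ I2, k2 + 1 ≤ K i) :
    IsCyl K (C2 e B h D1 D2 δ k1 k2) := by
  constructor
  · intro p x y hxy
    have h1 : ∀ i ∈ I1, ∀ l < k1 + 1, PowerSeries.coeff l (x i) = PowerSeries.coeff l (y i) :=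
      fun i hi l hl => hxy i l (lt_of_lt_of_le hl (hK1 i hi))
    have h1' : ∀ i ∈ I2, ∀ l < k2 + 1, PowerSeries.coeff l (x i) = PowerSeries.coeff l (y i) :=
      fun i hi l hl => hxy i l (lt_of_lt_of_le hl (hK2 i hi))
    have h2 := hD1.ord δ k1 x y h1
    have h3 := hD1.coeff δ (k1 + 1) x y h1 k1 (Nat.lt_succ_self k1)
    have h2' := hD2.ord δ k2 x y h1'
    have h3' := hD2.coeff δ (k2 + 1) x y h1' k2 (Nat.lt_succ_self k2)
    simp only [C2, Set.mem_ofPred_eq]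
    rw [h2, h3, h2', h3']
  · have h1 : Constructible {v : (E ⊕ Unit) ⊕ (Σ i, Fin (K i)) → ℂ |
        (fun q => v (Sum.inl (Sum.inl q))) ∈ B} :=
      con_pre hYC (fun q => Sum.inl (Sum.inl q)) hB
    have h2 := con_ord (E := (E ⊕ Unit) ⊕ (Σ i, Fin (K i))) D1 δ k1 K Sum.inr
    have h2' := con_ord (E := (E ⊕ Unit) ⊕ (Σ i, Fin (K i))) D2 δ k2 K Sum.inr
    have h3 := con_eq (X (Sum.inl (Sum.inr ())) ^ e)
      (rename (fun q => Sum.inl (Sum.inl q)) h * (rename Sum.inr (cP D1 δ K k1) *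
        rename Sum.inr (cP D2 δ K k2)) :
        MvPolynomial ((E ⊕ Unit) ⊕ (Σ i, Fin (K i))) ℂ)
    have h4 := con_and h1 (con_and h2 (con_and h2' h3))
    have h5 : sec K (C2 e B h D1 D2 δ k1 k2) = {v : (E ⊕ Unit) ⊕ (Σ i, Fin (K i)) → ℂ |
        (fun q => v (Sum.inl (Sum.inl q))) ∈ B ∧ Ord D1 δ k1 (toArc K fun s => v (Sum.inr s)) ∧
        Ord D2 δ k2 (toArc K fun s => v (Sum.inr s)) ∧
        eval v (X (Sum.inl (Sum.inr ())) ^ e) = eval v (rename (fun q => Sum.inl (Sum.inl q)) h *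
          (rename Sum.inr (cP D1 δ K k1) * rename Sum.inr (cP D2 δ K k2)))} := by
      ext v
      simp only [sec, C2, Set.mem_ofPred_eq, map_pow, eval_X, map_mul, eval_inr, eval_cP]
      rw [eval_rename]
      rfl
    rw [h5]
    exact h4

end cyl

/-! ### the decomposition of a contact set -/

theorem coeff_mul_ord {f g : PowerSeries ℂ} {k1 k2 : ℕ} (hf : ∀ l < k1, PowerSeries.coeff l f = 0)
    (hg : ∀ l < k2, PowerSeries.coeff l g = 0) :
    (∀ l < k1 + k2, PowerSeries.coeff l (f * g) = 0) ∧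
    PowerSeries.coeff (k1 + k2) (f * g) = PowerSeries.coeff k1 f * PowerSeries.coeff k2 g := by
  constructor
  · intro l hl
    rw [PowerSeries.coeff_mul]
    apply Finset.sum_eq_zero
    rintro ⟨a, b⟩ hab
    rw [Finset.HasAntidiagonal.mem_antidiagonal] at hab
    simp only at hab ⊢
    by_cases ha : a < k1
    · rw [hf a ha, zero_mul]
    · rw [hg b (by omega), mul_zero]
  · rw [PowerSeries.coeff_mul, Finset.sum_eq_single (k1, k2)]
    · rintro ⟨a, b⟩ hab hne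
      rw [Finset.HasAntidiagonal.mem_antidiagonal] at hab
      simp only at hab ⊢
      by_cases ha : a < k1
      · rw [hf a ha, zero_mul]
      · have hb : b < k2 := by
          rcases lt_or_eq_of_le (not_lt.1 ha) with h1 | h1
          · omega
          · exfalso
            apply hne
            rw [Prod.mk.injEq]
            omega
        rw [hg b hb, mul_zero]
    · intro h
      exact absurd (by simp) h

theorem exists_ord {f : PowerSeries ℂ} (hf : f ≠ 0) :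
    ∃ k, (∀ l < k, PowerSeries.coeff l f = 0) ∧ PowerSeries.coeff k f ≠ 0 := by
  classical
  have h : ∃ k, PowerSeries.coeff k f ≠ 0 := by
    by_contra hcon
    push Not at hcon
    apply hf
    ext k
    rw [hcon k, map_zero]
  refine ⟨Nat.find h, fun l hl => ?_, Nat.find_spec h⟩
  by_contra h1
  exact Nat.find_min h hl h1

omit [DecidableEq ι] [DecidableEq κ] in
theorem contact_eq {E : Type} (e : ℕ) (B : Set (E → ℂ)) (h : MvPolynomial E ℂ)
    (D D1 D2 : Data ι κ) (δ : ι → ℕ) (hF : ∀ x, D.F δ x = D1.F δ x * D2.F δ x) (k : ℕ) :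
    contact e B h D δ k = ⋃ a ∈ Finset.HasAntidiagonal.antidiagonal k, C2 e B h D1 D2 δ a.1 a.2 := by
  refine Set.ext fun z => ?_
  simp only [Set.mem_iUnion, exists_prop]
  constructor
  · rintro ⟨h1, h2, h3, h4⟩
    rw [hF] at h3 h4
    have n1 : D1.F δ z.2 ≠ 0 := by
      intro h0
      rw [h0, zero_mul, map_zero] at h3
      exact h3 rfl
    have n2 : D2.F δ z.2 ≠ 0 := by
      intro h0
      rw [h0, mul_zero, map_zero] at h3
      exact h3 rfl
    obtain ⟨k1, a1, a2⟩ := exists_ord n1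
    obtain ⟨k2, b1, b2⟩ := exists_ord n2
    obtain ⟨c1, c2⟩ := coeff_mul_ord a1 b1
    have hk : k1 + k2 = k := by
      rcases lt_trichotomy (k1 + k2) k with h5 | h5 | h5
      · exfalso
        have h6 := h2 _ h5
        rw [hF, c2] at h6
        exact mul_ne_zero a2 b2 h6
      · exact h5
      · exact absurd (c1 k h5) h3
    refine ⟨(k1, k2), Finset.HasAntidiagonal.mem_antidiagonal.2 hk, h1, ⟨a1, a2⟩, ⟨b1, b2⟩, ?_⟩
    rw [h4, ← hk, c2]
  · rintro ⟨⟨k1, k2⟩, hk, h1, ⟨a1, a2⟩, ⟨b1, b2⟩, h4⟩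
    rw [Finset.HasAntidiagonal.mem_antidiagonal] at hk
    simp only at hk a1 a2 b1 b2 h4
    obtain ⟨c1, c2⟩ := coeff_mul_ord a1 b1
    rw [hk] at c1 c2
    refine ⟨h1, ?_, ?_, ?_⟩
    · rw [hF]
      exact c1
    · rw [hF, c2]
      exact mul_ne_zero a2 b2
    · rw [h4, hF, c2]

omit [DecidableEq ι] [DecidableEq κ] in
theorem C2_disjoint {E : Type} (e : ℕ) (B : Set (E → ℂ)) (h : MvPolynomial E ℂ)
    (D1 D2 : Data ι κ) (δ : ι → ℕ) (a b : ℕ × ℕ) (hab : a ≠ b) (x : (E ⊕ Unit → ℂ) ×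
    (ι → PowerSeries ℂ)) (h1 : x ∈ C2 e B h D1 D2 δ a.1 a.2) (h2 : x ∈ C2 e B h D1 D2 δ b.1 b.2) :
    False := by
  apply hab
  have key : ∀ (f : PowerSeries ℂ) (k k' : ℕ), (∀ l < k, PowerSeries.coeff l f = 0) →
      PowerSeries.coeff k f ≠ 0 → (∀ l < k', PowerSeries.coeff l f = 0) →
      PowerSeries.coeff k' f ≠ 0 → k = k' := by
    intro f k k' e1 e2 e3 e4
    rcases lt_trichotomy k k' with h5 | h5 | h5
    · exact absurd (e3 k h5) e2
    · exact h5
    · exact absurd (e1 k' h5) e4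
  obtain ⟨-, ⟨p1, p2⟩, ⟨p3, p4⟩, -⟩ := h1
  obtain ⟨-, ⟨q1, q2⟩, ⟨q3, q4⟩, -⟩ := h2
  exact Prod.ext (key _ _ _ p1 p2 q1 q2) (key _ _ _ p3 p4 q3 q4)

end SplitAux
end Pool.Agent.Mono
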