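import Mathlib

/-!
# Definitions used in the statements

Constructible sets, motivic measures, jets and the motivic zeta function, Bernstein polynomials,
the limit which gives the topological zeta function.
-/

namespace Pool.Agent.Mono

open MvPolynomial

/-! ## Constructible sets and motivic measures -/

/-- Constructible subsets of `ℂ^ι`: the Boolean algebra generated by zero sets of polynomials. -/
inductive Constructible {ι : Type} : Set (ι → ℂ) → Prop
  | zero (p : MvPolynomial ι ℂ) : Constructible {x | eval x p = 0}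
  | compl {s : Set (ι → ℂ)} : Constructible s → Constructible sᶜ
  | inter {s t : Set (ι → ℂ)} : Constructible s → Constructible t → Constructible (s ∩ t)

/-- A motivic measure with values in a commutative ring `R`: an additive and multiplicative
invariant of constructible subsets of affine spaces which does not change under polynomial maps
that restrict to bijections. -/
structure MotivicMeasure (R : Type) [CommRing R] where
  val : ∀ {ι : Type} [Finite ι], Set (ι → ℂ) → R
  union : ∀ {ι : Type} [Finite ι] (s t : Set (ι → ℂ)), Constructible s → Constructible t →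
    Disjoint s t → val (s ∪ t) = val s + val t
  prod : ∀ {ι κ : Type} [Finite ι] [Finite κ] (s : Set (ι → ℂ)) (t : Set (κ → ℂ)),
    Constructible s → Constructible t →
      val {x : ι ⊕ κ → ℂ | (fun i => x (Sum.inl i)) ∈ s ∧ (fun j => x (Sum.inr j)) ∈ t} =
        val s * val t
  map : ∀ {ι κ : Type} [Finite ι] [Finite κ] (s : Set (ι → ℂ)) (t : Set (κ → ℂ))
    (φ : κ → MvPolynomial ι ℂ), Constructible s → Constructible t →
      Set.BijOn (fun x j => eval x (φ j)) s t → val s = val t
  point : val (Set.univ : Set (Empty → ℂ)) = 1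

/-- The class of the affine line. -/
def MotivicMeasure.L {R : Type} [CommRing R] (μ : MotivicMeasure R) : R :=
  μ.val (Set.univ : Set (Unit → ℂ))

/-- A motivic measure with values in `ℤ[u]` for which the affine line has the value `u`.
(The Hodge-Deligne polynomial `E(S; u, 1)` is one; its value at `u = 1` is the topological Euler
characteristic.) -/
structure HodgeMeasure extends MotivicMeasure (Polynomial ℤ) where
  line : val (Set.univ : Set (Unit → ℂ)) = Polynomial.X

/-! ## Jets and the zeta function of a polynomial -/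

section Jets

variable {ι : Type}

/-- The polynomial arc of degree `≤ k` with coefficients `v`. -/
noncomputable def jet {k : ℕ} (v : ι × Fin (k + 1) → ℂ) (i : ι) : Polynomial ℂ :=
  ∑ l : Fin (k + 1), Polynomial.C (v (i, l)) * Polynomial.X ^ (l : ℕ)

/-- `𝒳 k f e`: pairs `(v, w)`, `v` a `k`-jet of arcs along which `f` vanishes to order exactly `k`
and `w` an `e`-th root of the leading coefficient. -/
def jetSet (f : MvPolynomial ι ℂ) (e k : ℕ) : Set ((ι × Fin (k + 1)) ⊕ Unit → ℂ) :=
  {z | (∀ l < k, (aeval (jet (fun s => z (Sum.inl s))) f : Polynomial ℂ).coeff l = 0) ∧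
    (aeval (jet (fun s => z (Sum.inl s))) f : Polynomial ℂ).coeff k ≠ 0 ∧
    z (Sum.inr ()) ^ e = (aeval (jet (fun s => z (Sum.inl s))) f : Polynomial ℂ).coeff k}

/-- the motivic zeta function `∑_k μ(𝒳 k f e) L^{-kn} T^k` -/
noncomputable def zetaSer [Fintype ι] {R : Type} [CommRing R] (μ : MotivicMeasure R) (Li : R)
    (f : MvPolynomial ι ℂ) (e : ℕ) : PowerSeries R :=
  PowerSeries.mk fun k => μ.val (jetSet f e k) * Li ^ (k * Fintype.card ι)

end Jets

/-! ## Bernstein ideals -/

section Bernstein

variable {ι : Type}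

/-- the Weyl algebra `A_n` as an algebra of endomorphisms of `ℂ[x]` -/
noncomputable def Weyl (ι : Type) : Subalgebra ℂ (Module.End ℂ (MvPolynomial ι ℂ)) :=
  Algebra.adjoin ℂ (Set.range (fun i => LinearMap.mulLeft ℂ (X i : MvPolynomial ι ℂ)) ∪
    Set.range (fun i => ((pderiv i : Derivation ℂ (MvPolynomial ι ℂ) (MvPolynomial ι ℂ)) :
      MvPolynomial ι ℂ →ₗ[ℂ] MvPolynomial ι ℂ)))

/-- the endomorphism `P(k)`, for `P ∈ A_n[s]` and a natural number `k` -/
noncomputable def wact (P : Polynomial (Weyl ι)) (k : ℕ) : Module.End ℂ (MvPolynomial ι ℂ) :=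
  ((P.eval (k : Weyl ι) : Weyl ι) : Module.End ℂ (MvPolynomial ι ℂ))

/-- `b` is a Bernstein polynomial of `f`: there is `P ∈ A_n[s]` with `P(s) f^{s+1} = b(s) f^s`,
written as `P(k) f^{k+1} = b(k) f^k` for all natural numbers `k`. -/
def IsBernstein (f : MvPolynomial ι ℂ) (b : Polynomial ℂ) : Prop :=
  ∃ P : Polynomial (Weyl ι), ∀ k : ℕ,
    wact P k (f ^ (k + 1)) = C (b.eval (k : ℂ)) * f ^ k

/-- `λ` is an eigenvalue of the monodromy of `f`, in the form of Malgrange and Kashiwara:
`λ = exp(2πis)` for a root `s` of the Bernstein-Sato polynomial of `f`. -/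
def IsEigenvalue (f : MvPolynomial ι ℂ) (l : ℂ) : Prop :=
  ∃ s : ℂ, (∀ b : Polynomial ℂ, IsBernstein f b → b.eval s = 0) ∧
    l = Complex.exp (2 * Real.pi * Complex.I * s)

end Bernstein

/-! ## Specialisation -/

/-- `g ∈ ℚ(u)` has no pole at `u = 1` and the value `v` there -/
def LimOne (g : RatFunc ℚ) (v : ℚ) : Prop :=
  g.denom.eval 1 ≠ 0 ∧ g.eval (RingHom.id ℚ) 1 = v

/-- `R(s)` is the limit of `Z(T = u^{-s})` for `u → 1`: `Z` is the expansion of a rational function
`num/den` of `T` over `ℚ(u)` and `R(s)` is the value of `num(u^{-s})/den(u^{-s})` at `u = 1` for all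
natural numbers `s`. -/
def IsLim (Z : PowerSeries (RatFunc ℚ)) (R : RatFunc ℚ) : Prop :=
  ∃ num den : Polynomial (RatFunc ℚ), den.coeff 0 ≠ 0 ∧
    (den : PowerSeries (RatFunc ℚ)) * Z = (num : PowerSeries (RatFunc ℚ)) ∧
    ∀ s : ℕ, den.eval ((RatFunc.X : RatFunc ℚ)⁻¹ ^ s) ≠ 0 ∧ R.denom.eval (s : ℚ) ≠ 0 ∧
      LimOne (num.eval ((RatFunc.X : RatFunc ℚ)⁻¹ ^ s) / den.eval ((RatFunc.X : RatFunc ℚ)⁻¹ ^ s))
        (R.eval (RingHom.id ℚ) (s : ℚ))

/-- the inclusion `ℤ[u] → ℚ(u)` -/
noncomputable def toRat : Polynomial ℤ →+* RatFunc ℚ :=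
  (algebraMap (Polynomial ℚ) (RatFunc ℚ)).comp (Polynomial.mapRingHom (Int.castRingHom ℚ))

/-- the motivic measure over `ℚ(u)` -/
noncomputable def HodgeMeasure.rat (P : HodgeMeasure) : MotivicMeasure (RatFunc ℚ) where
  val := fun {_} _ s => toRat (P.val s)
  union := fun s t hs ht h => by simp [P.union s t hs ht h]
  prod := fun s t hs ht => by simp [P.prod s t hs ht]
  map := fun s t φ hs ht h => by rw [P.map s t φ hs ht h]
  point := by simp [P.point]

/-- `R` is the topological zeta function `∑_I χ(E_I°) ∏ gcd(...)/(N_i s + ν_i)` of the cover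
`w^e = f` (`e = 1`: the topological zeta function). -/
def IsTopZeta {ι : Type} [Fintype ι] (P : HodgeMeasure) (f : MvPolynomial ι ℂ) (e : ℕ)
    (R : RatFunc ℚ) : Prop :=
  IsLim (zetaSer P.rat (RatFunc.X)⁻¹ f e) R

end Pool.Agent.Mono
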