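import Pool.Agent.Work.Monodromy.StatementB
import Pool.Agent.Work.Monodromy.Statement1
import Pool.Agent.Work.Monodromy.Statement2

/-!
# Definitions used in the statements: the reduction to small cubic polynomials
-/

namespace Pool.Agent.Mono

open MvPolynomial

/-- `F` has degree at most `3`, degree at most `1` in every variable, and the coefficients of all
monomials of degree `2` and `3` are `0`, `1` or `-1`. -/
def IsSmallCubic {n : ℕ} (F : MvPolynomial (Fin n) ℂ) : Prop :=
  F.totalDegree ≤ 3 ∧ (∀ i, F.degreeOf i ≤ 1) ∧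
    ∀ a : Fin n →₀ ℕ, 2 ≤ ∑ i, a i → F.coeff a = 0 ∨ F.coeff a = 1 ∨ F.coeff a = -1

/-- the monodromy conjecture for `f` and the topological zeta function -/
def MonodromyConjectureFor {n : ℕ} (f : MvPolynomial (Fin n) ℂ) : Prop :=
  ∀ (E : HodgeMeasure) (R : RatFunc ℚ), IsTopologicalZeta E f R → ∀ s : ℂ,
    Polynomial.aeval s R.denom = 0 →
      IsMonodromyEigenvalue f (Complex.exp (2 * Real.pi * Complex.I * s))

/-- the monodromy conjecture for `f` and the `e`-twisted topological zeta function -/
def TwistedMonodromyConjectureFor {n : ℕ} (e : ℕ) (f : MvPolynomial (Fin n) ℂ) : Prop :=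
  ∀ (E : HodgeMeasure) (R : RatFunc ℚ), IsTwTopZeta E f e R → ∀ s : ℂ,
    Polynomial.aeval s R.denom = 0 →
      IsMonodromyEigenvalue f (Complex.exp (2 * Real.pi * Complex.I * s))

end Pool.Agent.Mono
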