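import Mathlib

/-!
# Definitions used in the statements: composite polynomials
-/

namespace Pool.Agent.Mono

open MvPolynomial

/-- The smallest class of polynomials with complex coefficients which contains all nonconstant
polynomials `∏_i x_i^{b_i} ∏_j (∑_i c_ji x_i^{a_i})^{m_j}` (products of linear forms in powers of the
variables) and is closed under sums and products in separate variables, powers, nonzero constant
factors, additional variables and polynomial automorphisms. -/
inductive Composite : (ι : Type) → MvPolynomial ι ℂ → Prop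
  | arrangement {ι κ : Type} [Fintype ι] [Fintype κ] (a b : ι → ℕ) (c : κ → ι → ℂ) (m : κ → ℕ)
      (f : MvPolynomial ι ℂ) (ha : ∀ i, 1 ≤ a i)
      (hf : f = (∏ i, X i ^ b i) * ∏ j, (∑ i, C (c j i) * X i ^ a i) ^ m j)
      (h : f.totalDegree ≠ 0) : Composite ι f
  | add {ι κ : Type} {f : MvPolynomial ι ℂ} {g : MvPolynomial κ ℂ} (hf : Composite ι f)
      (hg : Composite κ g) : Composite (ι ⊕ κ) (rename Sum.inl f + rename Sum.inr g)
  | mul {ι κ : Type} {f : MvPolynomial ι ℂ} {g : MvPolynomial κ ℂ} (hf : Composite ι f)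
      (hg : Composite κ g) : Composite (ι ⊕ κ) (rename Sum.inl f * rename Sum.inr g)
  | pow {ι : Type} {f : MvPolynomial ι ℂ} (k : ℕ) (hk : 1 ≤ k) (hf : Composite ι f) :
      Composite ι (f ^ k)
  | scale {ι : Type} {f : MvPolynomial ι ℂ} (c : ℂ) (hc : c ≠ 0) (hf : Composite ι f) :
      Composite ι (C c * f)
  | rename {ι κ : Type} {f : MvPolynomial ι ℂ} (φ : ι → κ) (hφ : Function.Injective φ)
      (hf : Composite ι f) : Composite κ (rename φ f)
  | automorphism {ι : Type} {f : MvPolynomial ι ℂ}
      (α : MvPolynomial ι ℂ ≃ₐ[ℂ] MvPolynomial ι ℂ) (hf : Composite ι f) : Composite ι (α f)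

end Pool.Agent.Mono
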