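import Mathlib

/-!
# Definitions used in the statements: read-once formulas
-/

namespace Pool.Agent.Mono

open MvPolynomial

/-- The smallest class of polynomials with complex coefficients which contains all nonconstant
polynomials `∏_i x_i^{b_i} ∏_j (∑_i c_ji x_i^{a_i})^{m_j}` (products of linear forms in powers of the
variables) and all polynomials without critical points, and is closed under sums `f(x) + g(y)` and
products `f(x) g(y)` in separate variables, compositions `p(f(x))` with nonconstant polynomials `p`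
in one variable (in particular powers, and adding or multiplying by constants), additional variables
and polynomial automorphisms. -/
inductive ReadOnce : (ι : Type) → MvPolynomial ι ℂ → Prop
  | arrangement {ι κ : Type} [Fintype ι] [Fintype κ] (a b : ι → ℕ) (c : κ → ι → ℂ) (m : κ → ℕ)
      (f : MvPolynomial ι ℂ) (ha : ∀ i, 1 ≤ a i)
      (hf : f = (∏ i, X i ^ b i) * ∏ j, (∑ i, C (c j i) * X i ^ a i) ^ m j)
      (h : f.totalDegree ≠ 0) : ReadOnce ι f
  | smooth {ι : Type} [Fintype ι] (f : MvPolynomial ι ℂ)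
      (h : ∀ x : ι → ℂ, ∃ i, eval x (pderiv i f) ≠ 0) : ReadOnce ι f
  | add {ι κ : Type} {f : MvPolynomial ι ℂ} {g : MvPolynomial κ ℂ} (hf : ReadOnce ι f)
      (hg : ReadOnce κ g) : ReadOnce (ι ⊕ κ) (rename Sum.inl f + rename Sum.inr g)
  | mul {ι κ : Type} {f : MvPolynomial ι ℂ} {g : MvPolynomial κ ℂ} (hf : ReadOnce ι f)
      (hg : ReadOnce κ g) : ReadOnce (ι ⊕ κ) (rename Sum.inl f * rename Sum.inr g)
  | comp {ι : Type} {f : MvPolynomial ι ℂ} (p : Polynomial ℂ) (hp : p.natDegree ≠ 0)
      (hf : ReadOnce ι f) : ReadOnce ι (Polynomial.aeval f p)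
  | rename {ι κ : Type} {f : MvPolynomial ι ℂ} (φ : ι → κ) (hφ : Function.Injective φ)
      (hf : ReadOnce ι f) : ReadOnce κ (rename φ f)
  | automorphism {ι : Type} {f : MvPolynomial ι ℂ}
      (α : MvPolynomial ι ℂ ≃ₐ[ℂ] MvPolynomial ι ℂ) (hf : ReadOnce ι f) : ReadOnce ι (α f)

end Pool.Agent.Mono
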