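import Mathlib

/-!
# Definitions used in the statements: formulas over plane curves
-/

namespace Pool.Agent.Mono

open MvPolynomial

/-- `f` is semi-quasi-homogeneous at `p`: in polynomial coordinates `φ` at `p` (`φ(0) = p`, the
Jacobian determinant of `φ` at `0` is not zero) and for suitable positive weights `w` and a positive
integer `D`, all monomials of `f(φ) - f(p)` have weighted degree at least `D`, and the origin is the
only critical point of the part of weighted degree `D`. -/
def IsSemiQuasiHomogeneousAt {ι : Type} [Fintype ι] [DecidableEq ι] (f : MvPolynomial ι ℂ)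
    (p : ι → ℂ) : Prop :=
  ∃ (φ : ι → MvPolynomial ι ℂ) (w : ι → ℕ) (D : ℕ),
    (∀ a, eval 0 (φ a) = p a) ∧ (Matrix.of fun a b => eval 0 (pderiv b (φ a))).det ≠ 0 ∧
    (∀ a, 1 ≤ w a) ∧ 1 ≤ D ∧
    (∀ d ∈ (bind₁ φ f - C (eval p f)).support, D ≤ Finsupp.weight w d) ∧
    ∀ x : ι → ℂ, (∀ a, eval x (pderiv a
      (weightedHomogeneousComponent w D (bind₁ φ f - C (eval p f)))) = 0) ↔ x = 0

/-- The smallest class of polynomials with complex coefficients which contains
all nonconstant polynomials in two variables,
all nonconstant polynomials (in any number of variables) with finitely many critical points, all of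
them semi-quasi-homogeneous,
and all nonconstant products `∏_i x_i^{b_i} ∏_j (∑_i c_ji x_i^{a_i})^{m_j}` of linear forms in powers
of the variables,
and is closed under sums `f(x) + g(y)` and products `f(x) g(y)` in separate variables, compositions
`p(f(x))` with nonconstant polynomials `p` in one variable (in particular powers, and adding or
multiplying by constants), additional variables and polynomial automorphisms. -/
inductive Formula : (ι : Type) → MvPolynomial ι ℂ → Prop
  | plane (f : MvPolynomial (Fin 2) ℂ) (h : f.totalDegree ≠ 0) : Formula (Fin 2) f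
  | isolated {ι : Type} [Fintype ι] [DecidableEq ι] (f : MvPolynomial ι ℂ)
      (h : f.totalDegree ≠ 0) (hfin : {p : ι → ℂ | ∀ a, eval p (pderiv a f) = 0}.Finite)
      (hsq : ∀ p : ι → ℂ, (∀ a, eval p (pderiv a f) = 0) → IsSemiQuasiHomogeneousAt f p) :
      Formula ι f
  | arrangement {ι κ : Type} [Fintype ι] [Fintype κ] (a b : ι → ℕ) (c : κ → ι → ℂ) (m : κ → ℕ)
      (f : MvPolynomial ι ℂ) (ha : ∀ i, 1 ≤ a i)
      (hf : f = (∏ i, X i ^ b i) * ∏ j, (∑ i, C (c j i) * X i ^ a i) ^ m j)
      (h : f.totalDegree ≠ 0) : Formula ι f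
  | add {ι κ : Type} {f : MvPolynomial ι ℂ} {g : MvPolynomial κ ℂ} (hf : Formula ι f)
      (hg : Formula κ g) : Formula (ι ⊕ κ) (rename Sum.inl f + rename Sum.inr g)
  | mul {ι κ : Type} {f : MvPolynomial ι ℂ} {g : MvPolynomial κ ℂ} (hf : Formula ι f)
      (hg : Formula κ g) : Formula (ι ⊕ κ) (rename Sum.inl f * rename Sum.inr g)
  | comp {ι : Type} {f : MvPolynomial ι ℂ} (p : Polynomial ℂ) (hp : p.natDegree ≠ 0)
      (hf : Formula ι f) : Formula ι (Polynomial.aeval f p)
  | rename {ι κ : Type} {f : MvPolynomial ι ℂ} (φ : ι → κ) (hφ : Function.Injective φ)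
      (hf : Formula ι f) : Formula κ (rename φ f)
  | automorphism {ι : Type} {f : MvPolynomial ι ℂ}
      (α : MvPolynomial ι ℂ ≃ₐ[ℂ] MvPolynomial ι ℂ) (hf : Formula ι f) : Formula ι (α f)

end Pool.Agent.Mono
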