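import Pool.Agent.Work.Monodromy.Statement6

/-!
# Definitions used in the statements: formulas with arbitrary binary gates
-/

namespace Pool.Agent.Mono

open MvPolynomial

/-- The smallest class of polynomials with complex coefficients which contains
all nonconstant polynomials (in any number of variables) with finitely many critical points, all of
them semi-quasi-homogeneous (in particular all nonconstant polynomials in one variable and all
polynomials without critical points),
and all nonconstant products `∏_i x_i^{b_i} ∏_j (∑_i c_ji x_i^{a_i})^{m_j}` of linear forms in powers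
of the variables,
and is closed under all binary gates `P(f(x), g(y))` in separate variables, `P` a nonconstant
polynomial in two variables (in particular sums, products, and all polynomials in two variables),
compositions `p(f(x))` with nonconstant polynomials `p` in one variable, additional variables and
polynomial automorphisms. -/
inductive GateFormula : (ι : Type) → MvPolynomial ι ℂ → Prop
  | isolated {ι : Type} [Fintype ι] [DecidableEq ι] (f : MvPolynomial ι ℂ)
      (h : f.totalDegree ≠ 0) (hfin : {p : ι → ℂ | ∀ a, eval p (pderiv a f) = 0}.Finite)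
      (hsq : ∀ p : ι → ℂ, (∀ a, eval p (pderiv a f) = 0) → IsSemiQuasiHomogeneousAt f p) :
      GateFormula ι f
  | arrangement {ι κ : Type} [Fintype ι] [Fintype κ] (a b : ι → ℕ) (c : κ → ι → ℂ) (m : κ → ℕ)
      (f : MvPolynomial ι ℂ) (ha : ∀ i, 1 ≤ a i)
      (hf : f = (∏ i, X i ^ b i) * ∏ j, (∑ i, C (c j i) * X i ^ a i) ^ m j)
      (h : f.totalDegree ≠ 0) : GateFormula ι f
  | gate {ι κ : Type} {f : MvPolynomial ι ℂ} {g : MvPolynomial κ ℂ}
      (P : MvPolynomial (Fin 2) ℂ) (hP : P.totalDegree ≠ 0) (hf : GateFormula ι f)
      (hg : GateFormula κ g) :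
      GateFormula (ι ⊕ κ) (aeval ![rename Sum.inl f, rename Sum.inr g] P)
  | comp {ι : Type} {f : MvPolynomial ι ℂ} (p : Polynomial ℂ) (hp : p.natDegree ≠ 0)
      (hf : GateFormula ι f) : GateFormula ι (Polynomial.aeval f p)
  | rename {ι κ : Type} {f : MvPolynomial ι ℂ} (φ : ι → κ) (hφ : Function.Injective φ)
      (hf : GateFormula ι f) : GateFormula κ (rename φ f)
  | automorphism {ι : Type} {f : MvPolynomial ι ℂ}
      (α : MvPolynomial ι ℂ ≃ₐ[ℂ] MvPolynomial ι ℂ) (hf : GateFormula ι f) : GateFormula ι (α f)

end Pool.Agent.Mono
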