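import Pool.Agent.Work.Monodromy.StatementB
import Pool.Agent.Work.Monodromy.Statement1
import Pool.Agent.Work.Monodromy.Statement2

/-!
# Definitions used in the statements: the formula of Denef and Loeser
-/

namespace Pool.Agent.Mono

open MvPolynomial

/-- `(u - 1) u^{-ν} T^N / (1 - u^{-ν} T^N) = ∑_{j ≥ 1} (u - 1) u^{-ν j} T^{N j}`, `q = (N, ν)` -/
noncomputable def dlFactor (q : ℕ × ℕ) : PowerSeries (RatFunc ℚ) :=
  PowerSeries.mk fun k => if 1 ≤ k ∧ q.1 ∣ k then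
    (RatFunc.X - 1) * (RatFunc.X)⁻¹ ^ (q.2 * (k / q.1)) else 0

/-- `Z = ∑_j c_j ∏ (u - 1) u^{-ν} T^N / (1 - u^{-ν} T^N)` and `R(s) = ∑_j c_j(1) ∏ 1 / (N s + ν)`, finite
sums of finite products, `c_j ∈ ℤ[u]`, `N, ν ≥ 1`.  This is the form in which Denef and Loeser give the
motivic zeta function `Z` and the topological zeta function `R` (from a resolution; `c_j` are the
classes of the strata `E_I°` of the exceptional divisor or of their covers, and `c_j(1)` are the Euler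
characteristics). -/
def IsDenefLoeser (Z : PowerSeries (RatFunc ℚ)) (R : RatFunc ℚ) : Prop :=
  ∃ ts : List (Polynomial ℤ × List (ℕ × ℕ)),
    (∀ t ∈ ts, ∀ q ∈ t.2, 1 ≤ q.1 ∧ 1 ≤ q.2) ∧
    Z = (ts.map fun t => PowerSeries.C (toRat t.1) * (t.2.map dlFactor).prod).sum ∧
    R = (ts.map fun t => RatFunc.C ((t.1.eval 1 : ℤ) : ℚ) *
      (t.2.map fun q => (RatFunc.C (q.1 : ℚ) * RatFunc.X + RatFunc.C (q.2 : ℚ))⁻¹).prod).sum

/-- `R` is the topological zeta function of `f`, obtained from the zeta function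
`∑_k P(contactJets f k) u^{-kn} T^k` by the formula of Denef and Loeser. -/
def IsTopologicalZetaDL {ι : Type} [Fintype ι] (P : HodgeMeasure) (f : MvPolynomial ι ℂ)
    (R : RatFunc ℚ) : Prop :=
  IsDenefLoeser (PowerSeries.mk fun k =>
    toRat (P.val (contactJets f k)) * (RatFunc.X)⁻¹ ^ (k * Fintype.card ι)) R

/-- `R` is the `e`-twisted topological zeta function
`∑_{I ≠ ∅, e ∣ m_I} χ(E_I°) ∏_{i ∈ I} 1/(N_i s + ν_i)`: by Möbius inversion
`φ(e) R = ∑_{d ∣ e} μ(e/d) R_d`, `R_d = ∑_{I ≠ ∅} gcd(m_I, d) χ(E_I°) ∏ 1/(N_i s + ν_i)` obtained from the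
zeta function of the cover `w^d = f` by the formula of Denef and Loeser. -/
def IsTwTopZetaDL {ι : Type} [Fintype ι] (P : HodgeMeasure) (f : MvPolynomial ι ℂ) (e : ℕ)
    (R : RatFunc ℚ) : Prop :=
  ∃ r : ℕ → RatFunc ℚ,
    (∀ d ∈ e.divisors, IsDenefLoeser (zetaSer1 P.rat (RatFunc.X)⁻¹ f d) (r d)) ∧
    RatFunc.C (e.totient : ℚ) * R =
      ∑ d ∈ e.divisors, RatFunc.C ((ArithmeticFunction.moebius (e / d) : ℤ) : ℚ) * r d

end Pool.Agent.Mono
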