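import Pool.Agent.Work.Monodromy.StatementE

/-!
# Definitions used in the statements: isolated nondegenerate singularities
-/

set_option autoImplicit false

namespace Pool.Agent.Mono

open MvPolynomial

/-- `p` is an isolated point of `{f = 0, df = 0}` (Zariski open in this set), and in suitable
polynomial coordinates `φ` at `p` the polynomial `f` is nondegenerate with respect to its local
Newton polyhedron: for all positive weights `k` (that is, for all compact faces) the initial form of
`f ∘ φ` defines a smooth hypersurface in the torus. -/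
def IsIsolatedNondegenerateAt {n : ℕ} (f : MvPolynomial (Fin n) ℂ) (p : Fin n → ℂ) : Prop :=
  (∃ s : MvPolynomial (Fin n) ℂ, eval p s ≠ 0 ∧ ∀ q : Fin n → ℂ, eval q f = 0 →
    (∀ i, eval q (pderiv i f) = 0) → eval q s ≠ 0 → q = p) ∧
  ∃ φ : Fin n → MvPolynomial (Fin n) ℂ, (∀ i, eval (fun _ => 0) (φ i) = p i) ∧
    (Matrix.of fun i j => eval (fun _ => (0 : ℂ)) (pderiv j (φ i))).det ≠ 0 ∧
    ∀ (k : Fin n → ℤ) (x : Fin n → ℂ), (∀ i, 0 < k i) → (∀ i, x i ≠ 0) →
      eval x (initForm (bind₁ φ f) k) = 0 → ∃ i, eval x (pderiv i (initForm (bind₁ φ f) k)) ≠ 0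

end Pool.Agent.Mono
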