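import Pool.Agent.Work.Monodromy.Statement6
import Pool.Agent.Work.Monodromy.StatementM

/-!
# Definitions used in the statements: the singular points of the local theorem
-/

set_option autoImplicit false

namespace Pool.Agent.Mono

open MvPolynomial

/-- at `p` the Hessian matrix of `g` has rank at least `n - 2`, or `g` is semi-quasi-homogeneous, or
`p` is an isolated point of `{g = 0, dg = 0}` and `g` is nondegenerate with respect to its Newton
polyhedron in suitable formal coordinates, or (isolated or not) `g` is nondegenerate with respect to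
its Newton polyhedron in a regular system of parameters -/
def IsTameAt {ι : Type} [Fintype ι] [DecidableEq ι] (g : MvPolynomial ι ℂ) (p : ι → ℂ) : Prop :=
  Fintype.card ι ≤ (Matrix.of fun i j => eval p (pderiv i (pderiv j g))).rank + 2 ∨
    IsSemiQuasiHomogeneousAt g p ∨
    ((∃ s : MvPolynomial ι ℂ, eval p s ≠ 0 ∧ ∀ q : ι → ℂ, eval q g = 0 →
      (∀ i, eval q (pderiv i g) = 0) → eval q s ≠ 0 → q = p) ∧ IsNondegenerateAt g p) ∨
    IsNondegenerateInParametersAt g p

/-- for some `N` all singular points of `f(x) + u_1 v_1 + ⋯ + u_N v_N` are tame -/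
def IsStablyTame {ι : Type} [Fintype ι] [DecidableEq ι] (f : MvPolynomial ι ℂ) : Prop :=
  ∃ N : ℕ, ∀ (g : MvPolynomial (ι ⊕ (Fin N × Bool)) ℂ) (p : ι ⊕ (Fin N × Bool) → ℂ),
    g = rename Sum.inl f + ∑ k : Fin N, X (Sum.inr (k, true)) * X (Sum.inr (k, false)) →
    eval p g = 0 → (∀ i, eval p (pderiv i g) = 0) → IsTameAt g p

end Pool.Agent.Mono
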