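import Pool.Agent.Work.Monodromy.StatementE

/-!
# Definition used in the statements: stably nondegenerate polynomials
-/

set_option autoImplicit false

namespace Pool.Agent.Mono

open MvPolynomial

/-- `f` is stably nondegenerate: for some `N`, the polynomial `f(x) + u_1 v_1 + ⋯ + u_N v_N` in
`n + 2N` variables is nondegenerate in suitable polynomial coordinates of `ℂ^{n + 2N}` -/
def IsStablyNondegenerate {n : ℕ} (f : MvPolynomial (Fin n) ℂ) : Prop :=
  ∃ (N : ℕ) (α : MvPolynomial (Fin n ⊕ (Fin N × Bool)) ℂ ≃ₐ[ℂ] MvPolynomial (Fin (n + 2 * N)) ℂ),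
    IsNondegenerate (α (rename Sum.inl f +
      ∑ k : Fin N, X (Sum.inr (k, true)) * X (Sum.inr (k, false))))

end Pool.Agent.Mono
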