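import Pool.Agent.Work.Monodromy.YK

/-!
# Closure of cylinders and additivity of volumes
-/

set_option autoImplicit false

namespace Pool.Agent.Mono

open MvPolynomial

section

variable {E ι : Type}

namespace IsCyl

variable {K : ι → ℕ} {C D : Set ((E → ℂ) × (ι → PowerSeries ℂ))}

lemma inter (hC : IsCyl K C) (hD : IsCyl K D) : IsCyl K (C ∩ D) :=
  ⟨fun p x y h => and_congr (hC.1 p x y h) (hD.1 p x y h), hC.2.inter hD.2⟩

lemma compl (hC : IsCyl K C) : IsCyl K Cᶜ :=
  ⟨fun p x y h => not_congr (hC.1 p x y h), hC.2.compl⟩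

lemma union (hC : IsCyl K C) (hD : IsCyl K D) : IsCyl K (C ∪ D) :=
  ⟨fun p x y h => or_congr (hC.1 p x y h) (hD.1 p x y h), hC.2.union hD.2⟩

lemma empty : IsCyl K (∅ : Set ((E → ℂ) × (ι → PowerSeries ℂ))) :=
  ⟨fun _ _ _ _ => Iff.rfl, Constructible.empty⟩

lemma univ : IsCyl K (Set.univ : Set ((E → ℂ) × (ι → PowerSeries ℂ))) :=
  ⟨fun _ _ _ _ => Iff.rfl, Constructible.univ⟩

lemma biUnion {α : Type*} (F : Finset α) {s : α → Set ((E → ℂ) × (ι → PowerSeries ℂ))}
    (h : ∀ a ∈ F, IsCyl K (s a)) : IsCyl K (⋃ a ∈ F, s a) := by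
  classical
  induction F using Finset.induction_on with
  | empty => simpa using empty
  | insert a F ha ih =>
    rw [Finset.set_biUnion_insert]
    exact (h a (Finset.mem_insert_self a F)).union
      (ih fun b hb => h b (Finset.mem_insert_of_mem hb))

/-- sets given by conditions on the parameters -/
lemma param {B : Set (E → ℂ)} (hB : Constructible B) :
    IsCyl K {z : (E → ℂ) × (ι → PowerSeries ℂ) | z.1 ∈ B} :=
  ⟨fun _ _ _ _ => Iff.rfl, Constructible.comap Sum.inl hB⟩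

lemma mono [Finite E] [Fintype ι] {K' : ι → ℕ} (hKK : ∀ i, K i ≤ K' i) (hC : IsCyl K C) :
    IsCyl K' C := stmt_YK E ι K K' C hKK hC

end IsCyl

variable [Finite E] [Fintype ι] {R : Type} [CommRing R] (μ : MotivicMeasure R) {Li : R}
  (hL : μ.L * Li = 1) {K : ι → ℕ} {C D : Set ((E → ℂ) × (ι → PowerSeries ℂ))}

include hL

lemma vol_eq (hC : IsCyl K C) : vol μ Li C = μ.val (sec K C) * Li ^ (∑ i, K i) :=
  stmt_YV R μ Li hL E ι K C hC

lemma vol_union (hC : IsCyl K C) (hD : IsCyl K D) (h : Disjoint C D) :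
    vol μ Li (C ∪ D) = vol μ Li C + vol μ Li D := by
  rw [vol_eq μ hL hC, vol_eq μ hL hD, vol_eq μ hL (hC.union hD), ← add_mul,
    ← μ.union _ _ hC.2 hD.2]
  · rfl
  · rw [Set.disjoint_left] at h ⊢
    intro v h1 h2
    exact h h1 h2

lemma vol_empty : vol μ Li (∅ : Set ((E → ℂ) × (ι → PowerSeries ℂ))) = 0 := by
  rw [vol_eq μ hL (IsCyl.empty (K := fun _ => 0))]
  have h1 : sec (fun _ : ι => 0) (∅ : Set ((E → ℂ) × (ι → PowerSeries ℂ))) = ∅ := rfl
  rw [h1, μ.val_empty, zero_mul]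

lemma vol_biUnion {α : Type*} (F : Finset α) {s : α → Set ((E → ℂ) × (ι → PowerSeries ℂ))}
    (h : ∀ a ∈ F, IsCyl K (s a)) (hd : ∀ a ∈ F, ∀ b ∈ F, a ≠ b → Disjoint (s a) (s b)) :
    vol μ Li (⋃ a ∈ F, s a) = ∑ a ∈ F, vol μ Li (s a) := by
  classical
  induction F using Finset.induction_on with
  | empty => simpa using vol_empty μ hL
  | insert a F ha ih =>
    rw [Finset.set_biUnion_insert, Finset.sum_insert ha,
      vol_union μ hL (h a (Finset.mem_insert_self a F))
        (IsCyl.biUnion F fun b hb => h b (Finset.mem_insert_of_mem hb)),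
      ih (fun b hb => h b (Finset.mem_insert_of_mem hb))
        (fun b hb c hc => hd b (Finset.mem_insert_of_mem hb) c (Finset.mem_insert_of_mem hc))]
    rw [Set.disjoint_iUnion₂_right]
    intro b hb
    apply hd a (Finset.mem_insert_self a F) b (Finset.mem_insert_of_mem hb)
    rintro rfl
    exact ha hb

/-- comparison of two cylinders by a bijection of sections -/
lemma vol_congr {E' ι' : Type} [Finite E'] [Fintype ι'] {K' : ι' → ℕ}
    {C' : Set ((E' → ℂ) × (ι' → PowerSeries ℂ))} (hC : IsCyl K C) (hC' : IsCyl K' C') (m : ℕ)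
    (hm : ∑ i, K i = ∑ i, K' i + m)
    (h : μ.val (sec K C) = μ.val (sec K' C')) : vol μ Li C = Li ^ m * vol μ Li C' := by
  rw [vol_eq μ hL hC, vol_eq μ hL hC', h, hm, pow_add]
  ring

end

end Pool.Agent.Mono
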